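import Pool.Agent.P.MP_094db5_co.AHa

/-! Absorbing the unlabelled vertices of almost full degree. -/

set_option autoImplicit false

open Finset Classical

noncomputable section

namespace Pool.Agent.P.MP_094db5_co

variable {V : Type} [Fintype V] {r : ℕ} {G : SimpleGraph V} {x : V → ℝ} {ξ C η : ℝ} {c : V → ℕ}
  {Z : Finset V}

theorem St1.out_size (h : St1 r G x ξ C η c Z) (hr : 2 ≤ r) {l : ℕ} (hl : l ∈ Icc 1 r) :
    |((Out c l).card : ℝ) - lam G| ≤ η * lam G := by
  have hr' : (2 : ℝ) ≤ r := by exact_mod_cast hr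
  have hc : (((Icc 1 r).erase l).card : ℝ) = r - 1 := by
    rw [card_erase_of_mem hl, Nat.card_Icc, Nat.add_sub_cancel, Nat.cast_sub (by omega)]
    norm_num
  have e : ((r : ℝ) - 1) * (((Out c l).card : ℝ) - lam G) =
      ∑ i ∈ (Icc 1 r).erase l, (((r : ℝ) - 1) * cn c i - lam G) := by
    rw [card_Out h.le, sum_sub_distrib, ← mul_sum, sum_const, nsmul_eq_mul, hc]
    push_cast
    ring
  have a : |∑ i ∈ (Icc 1 r).erase l, (((r : ℝ) - 1) * cn c i - lam G)| ≤
      ((r : ℝ) - 1) * (η * lam G) := by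
    refine (abs_sum_le_sum_abs _ _).trans ?_
    refine (sum_le_sum fun i hi => h.size i (mem_of_mem_erase hi)).trans ?_
    rw [sum_const, nsmul_eq_mul, hc]
  rw [← e, abs_mul, abs_of_pos (by linarith : (0 : ℝ) < r - 1)] at a
  exact le_of_mul_le_mul_left a (by linarith)

theorem St1.sum_W (h : St1 r G x ξ C η c Z) (l0 : 0 < lam G) :
    ∑ u ∈ Vp c 0, x u ≤ 2 * C ^ 2 := by
  have c0 : 0 ≤ C := by
    have : (0 : ℝ) ≤ C * lam G := (Nat.cast_nonneg _).trans h.hE
    exact nonneg_of_mul_nonneg_left this l0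
  have a1 : lam G * ∑ u ∈ Vp c 0, x u = ∑ u ∈ Vp c 0, op (Xe G c) x u := by
    rw [mul_sum]
    refine sum_congr rfl fun u hu => ?_
    rw [← h.eig.eig u]
    refine sum_congr rfl fun v _ => ?_
    have : (Xe G c).Adj u v ↔ G.Adj u v := ⟨fun a => a.1, fun a => ⟨a, Or.inl (mem_Vp.1 hu)⟩⟩
    simp only [ad, this]
  have a2 : ∑ u ∈ Vp c 0, op (Xe G c) x u ≤ ∑ u, op (Xe G c) x u :=
    sum_le_sum_of_subset_of_nonneg (subset_univ _) fun u _ _ => op_nonneg h.eig.nonneg u
  have a3 : ∑ u, op (Xe G c) x u ≤ 2 * ec (Xe G c) * C := sum_op_le fun u _ _ => h.xm u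
  have a4 := mul_le_mul_of_nonneg_right h.hE c0
  refine le_of_mul_le_mul_left ?_ l0
  nlinarith

/-- weight of a set of labelled vertices -/
theorem St1.sum_set (h : St1 r G x ξ C η c Z) (h0 : 0 ≤ η) (h1 : ξ ≤ 1) (h2 : 0 ≤ ξ)
    {S : Finset V} (hS : ∀ v ∈ S, c v ≠ 0) :
    |∑ v ∈ S, x v - S.card| ≤ η * S.card + η * lam G := by
  have _ := h2
  have e : ∑ v ∈ S, x v - S.card = ∑ v ∈ S, (x v - 1) := by
    rw [sum_sub_distrib, sum_const, nsmul_eq_mul, mul_one]
  have a1 : ∑ v ∈ S, |x v - 1| ≤ ∑ v ∈ S, (η + if v ∈ Z then 1 else 0) := by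
    refine sum_le_sum fun v hv => ?_
    split_ifs with hz
    · linarith [h.typ v (hS v hv)]
    · linarith [h.good v (hS v hv) hz]
  have a2 : ∑ v ∈ S, (if v ∈ Z then (1 : ℝ) else 0) ≤ Z.card := by
    rw [sum_boole]
    exact_mod_cast card_le_card fun v hv => (mem_filter.1 hv).2
  rw [sum_add_distrib, sum_const, nsmul_eq_mul] at a1
  rw [e]
  linarith [abs_sum_le_sum_abs (fun v => x v - 1) S, h.zc]

omit [Fintype V] in
lemma AAbs_card_le {A B D : Finset V} (h : A ⊆ B ∪ D) : (A.card : ℝ) ≤ B.card + D.card := by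
  exact_mod_cast (card_le_card h).trans (card_union_le _ _)

lemma AAbs_num {r' l : ℝ} (hr : 3 ≤ r') (hC : 1 ≤ C) (h0 : 0 < η) (h1 : 100 * r' * ξ ≤ 1)
    (h2 : 100 * r' * C ^ 2 * η ≤ ξ) (hb : 1 ≤ η ^ 3 * l) :
    0 < l ∧ 300 * η ≤ ξ ∧ 300 * ξ ≤ 1 ∧ 2 * (r' * C) ≤ η * l ∧ 2 * C ^ 2 ≤ η * l := by
  have l0 : 0 < l := by
    by_contra hn
    have := mul_nonpos_of_nonneg_of_nonpos (pow_pos h0 3).le (not_lt.1 hn)
    linarith
  have c2 : C ≤ C ^ 2 := by nlinarith
  have k1 : 3 ≤ r' * C ^ 2 := by nlinarith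
  have a1 : 300 * η ≤ ξ := by nlinarith
  have a2 : 300 * ξ ≤ 1 := by nlinarith
  have a3 : 2 * (r' * C ^ 2) * η ^ 2 ≤ η * l * η ^ 2 := by
    have b1 : r' * C ^ 2 * η ≤ 1 := by nlinarith
    have b2 : r' * C ^ 2 * η * η ≤ 1 * η := mul_le_mul_of_nonneg_right b1 h0.le
    nlinarith
  have a4 : 2 * (r' * C ^ 2) ≤ η * l := le_of_mul_le_mul_right a3 (pow_pos h0 2)
  refine ⟨l0, a1, a2, ?_, ?_⟩
  · nlinarith
  · nlinarith

lemma AAbs_op_Ww (hx : ∀ v, 0 ≤ x v) (u : V) : op (Ww G c) x u ≤ ∑ v ∈ Vp c 0, x v := by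
  rw [Vp, sum_filter]
  refine sum_le_sum fun v _ => ?_
  unfold ad
  by_cases a : (Ww G c).Adj u v
  · rw [if_pos a, if_pos a.2.2, one_mul]
  · rw [if_neg a, zero_mul]
    split_ifs
    exacts [hx v, le_rfl]

lemma AAbs_ec {H H' : SimpleGraph V} {A : Finset V} {d : ℝ}
    (h : ∀ u v, H'.Adj u v → u ∉ A → v ∉ A → H.Adj u v)
    (hd : ∀ u ∈ A, ((univ.filter fun v => H'.Adj u v).card : ℝ) ≤ d) :
    (ec H' : ℝ) ≤ ec H + A.card * d := by
  have a1 : S2 (fun u v => if u ∈ A then ad H' u v else 0) ≤ A.card * d := by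
    calc S2 (fun u v => if u ∈ A then ad H' u v else 0) ≤ ∑ u, if u ∈ A then d else 0 := by
          refine sum_le_sum fun u _ => ?_
          split_ifs with hu
          · refine le_trans (le_of_eq ?_) (hd u hu)
            simp [ad, hu]
          · simp [hu]
      _ = A.card * d := by rw [sum_ite_mem, univ_inter, sum_const, nsmul_eq_mul]
  have a2 : S2 (fun u v => if u ∈ A then ad H' u v else 0) =
      S2 (fun u v => if v ∈ A then ad H' u v else 0) := by
    rw [S2_comm]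
    exact S2_congr fun u v => by rw [ad_comm]
  have a3 : Mo H' ≤ Mo H + S2 (fun u v => if u ∈ A then ad H' u v else 0) +
      S2 (fun u v => if v ∈ A then ad H' u v else 0) := by
    rw [Mo, Mo, S2_add, S2_add]
    refine S2_mono fun u v => ?_
    have b1 := ad_nonneg H u v
    have b2 := ad_nonneg H' u v
    by_cases hu : u ∈ A <;> by_cases hv : v ∈ A <;> simp only [hu, hv, if_true, if_false]
    · linarith
    · linarith
    · linarith
    · unfold ad
      by_cases a : H'.Adj u v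
      · rw [if_pos a, if_pos (h u v a hu hv)]
        norm_num
      · rw [if_neg a]
        split_ifs <;> norm_num
  rw [Mo_ec, Mo_ec] at a3
  linarith

theorem absorb (h : St1 r G x (19 / 20 * ξ) C η c Z) (hp : Pre r G (19 / 20 * ξ) η c)
    (hr : 3 ≤ r) (hC : 1 ≤ C) (h0 : 0 < η) (h1 : 100 * r * ξ ≤ 1)
    (h2 : 100 * r * C ^ 2 * η ≤ ξ) : ∃ c' Z', St1 r G x ξ (2 * C) (2 * η) c' Z' ∧
      ∀ u, c' u = 0 → (dT G c' u : ℝ) ≤ (1 - 9 / 10 * ξ) * lam G := by
  have hr' : (3 : ℝ) ≤ r := by exact_mod_cast hr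
  obtain ⟨l0, n1, n2, n3, n4⟩ := AAbs_num hr' hC h0 h1 h2 h.big
  have hl1 : 300 * (η * lam G) ≤ ξ * lam G := by nlinarith
  have hl2 : 300 * (ξ * lam G) ≤ lam G := by nlinarith
  have hl0 : 0 < η * lam G := mul_pos h0 l0
  have n5 : 2 * C ≤ η * lam G := by nlinarith
  choose i hi hE1 using hp.E1
  obtain ⟨A, hA⟩ : ∃ A : Finset V, ∀ u, u ∈ A ↔
      c u = 0 ∧ (1 - 23 / 25 * ξ) * lam G < dT G c u :=
    ⟨univ.filter fun u => c u = 0 ∧ (1 - 23 / 25 * ξ) * lam G < dT G c u, fun u => by simp⟩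
  have hAc : (A.card : ℝ) ≤ 2 * C := by
    have a1 : (A.card : ℝ) * (lam G / 2) ≤ ∑ u ∈ A, (dT G c u : ℝ) := by
      rw [← nsmul_eq_mul, ← sum_const]
      exact sum_le_sum fun u hu => by linarith [((hA u).1 hu).2]
    have a2 : ∑ u ∈ A, dT G c u ≤ ec (Xe G c) := by
      rw [ec_Xe]
      exact (sum_le_sum_of_subset fun u hu => mem_Vp.2 ((hA u).1 hu).1).trans (Nat.le_add_right _ _)
    have a3 : ∑ u ∈ A, (dT G c u : ℝ) ≤ ec (Xe G c) := by exact_mod_cast a2
    refine le_of_mul_le_mul_right ?_ (half_pos l0)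
    linarith [h.hE]
  obtain ⟨c', hin, hout⟩ : ∃ c' : V → ℕ, (∀ u ∈ A, c' u = i u) ∧ ∀ u ∉ A, c' u = c u :=
    ⟨fun u => if u ∈ A then i u else c u, fun u hu => if_pos hu, fun u hu => if_neg hu⟩
  have hz : ∀ u, c' u = 0 → u ∉ A ∧ c u = 0 := fun u hu => by
    by_cases a : u ∈ A
    · have := (mem_Icc.1 (hi u)).1
      rw [hin u a] at hu
      omega
    · exact ⟨a, hout u a ▸ hu⟩
  have hle : ∀ u, c' u ≤ r := fun u => by
    by_cases a : u ∈ A
    · rw [hin u a]
      exact (mem_Icc.1 (hi u)).2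
    · rw [hout u a]
      exact h.le u
  -- degrees and missing pairs of the absorbed vertices
  have hdeg : ∀ u, (dT G c u : ℝ) ≤ η * lam G + ((Out c (i u)).filter fun v => G.Adj u v).card :=
    fun u => by
      refine le_trans (AAbs_card_le (B := univ.filter fun v => c v = i u ∧ G.Adj u v)
        (D := (Out c (i u)).filter fun v => G.Adj u v) fun v hv => ?_) (by linarith [hE1 u])
      obtain ⟨a, b⟩ := mem_nT.1 hv
      by_cases e : c v = i u <;> simp [a, b, e]
  have hsplit : ∀ u, (((Out c (i u)).filter fun v => G.Adj u v).card : ℝ) +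
      ((Out c (i u)).filter fun v => ¬ G.Adj u v).card ≤ lam G + η * lam G := fun u => by
    have a1 := (abs_le.1 (h.out_size (by omega) (hi u))).2
    have a2 := card_filter_add_card_filter_not (s := Out c (i u)) (fun v => G.Adj u v)
    have a3 : (((Out c (i u)).filter fun v => G.Adj u v).card : ℝ) +
      ((Out c (i u)).filter fun v => ¬ G.Adj u v).card = (Out c (i u)).card := by exact_mod_cast a2
    linarith
  have hmiss : ∀ u ∈ A, (((Out c (i u)).filter fun v => ¬ G.Adj u v).card : ℝ) ≤ ξ * lam G :=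
    fun u hu => by linarith [hdeg u, hsplit u, ((hA u).1 hu).2]
  have hm2 : ∀ u, c' u ≠ 0 → ∀ j ∈ Icc 1 r, j ≠ c' u →
      ((univ.filter fun w => c w = j ∧ ¬ G.Adj u w).card : ℝ) ≤ 2 * (ξ * lam G) :=
    fun u hu j hj hne => by
      have j1 := (mem_Icc.1 hj).1
      by_cases a : u ∈ A
      · rw [hin u a] at hne
        refine le_trans ?_ ((hmiss u a).trans (by linarith))
        refine Nat.cast_le.2 (card_le_card fun w hw => ?_)
        obtain ⟨b1, b2⟩ := (mem_filter.1 hw).2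
        exact mem_filter.2 ⟨mem_Out.2 ⟨by omega, by omega⟩, b2⟩
      · rw [hout u a] at hne hu
        refine le_trans ?_ ((hp.miss u).trans (by linarith))
        refine Nat.cast_le.2 (card_le_card fun w hw => ?_)
        obtain ⟨b1, b2⟩ := (mem_filter.1 hw).2
        exact mem_filter.2 ⟨mem_univ _, Hm_adj.2 ⟨⟨hu, by omega, by omega⟩, b2⟩⟩
  refine ⟨c', Z ∪ A, ⟨h.eig, hle, ?_, ?_, ?_, ?_, ?_, ?_, ?_, ?_, ?_⟩, ?_⟩
  · intro u v huv hu e
    obtain ⟨j, hj, hne, hcom⟩ := hp.E2 u v huv (c' u) (mem_Icc.2 ⟨by omega, hle u⟩)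
    have a1 := hm2 u hu j hj hne
    have a2 := hm2 v (e ▸ hu) j hj (e ▸ hne)
    have a3 : (cn c j : ℝ) ≤ ((univ.filter fun w => c w = j ∧ G.Adj u w ∧ G.Adj v w) ∪
        univ.filter fun w => c w = j ∧ ¬ G.Adj u w).card +
        (univ.filter fun w => c w = j ∧ ¬ G.Adj v w).card := by
      refine AAbs_card_le fun w hw => ?_
      have b := (mem_filter.1 hw).2
      by_cases b1 : G.Adj u w <;> by_cases b2 : G.Adj v w <;> simp [b, b1, b2]
    have a4 := AAbs_card_le (Subset.refl ((univ.filter fun w => c w = j ∧ G.Adj u w ∧ G.Adj v w) ∪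
        univ.filter fun w => c w = j ∧ ¬ G.Adj u w))
    have a5 : (cn c j : ℝ) ≤ 5 * (ξ * lam G) := by linarith
    have a6 := (abs_le.1 (h.size j hj)).1
    have a7 : ((r : ℝ) - 1) * cn c j ≤ r * (5 * (ξ * lam G)) :=
      mul_le_mul (by linarith) a5 (Nat.cast_nonneg _) (by linarith)
    have a8 := mul_le_mul_of_nonneg_right h1 l0.le
    linarith
  · intro u hu
    by_cases a : u ∈ A
    · obtain ⟨b1, b2⟩ := (hA u).1 a
      have a1 := h.eig.eig u
      rw [op_split0 x b1] at a1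
      have a2 := abs_le.1 (h.sum_set h0.le (by linarith) (by linarith) (S := nT G c u)
        fun v hv => (mem_nT.1 hv).2)
      have a3 := (AAbs_op_Ww (G := G) (c := c) h.eig.nonneg u).trans (h.sum_W l0)
      have a4 : 0 ≤ op (Ww G c) x u := op_nonneg h.eig.nonneg u
      have a5 : (dT G c u : ℝ) ≤ lam G + 2 * (η * lam G) := by
        linarith [hdeg u, hsplit u,
          (Nat.cast_nonneg ((Out c (i u)).filter fun v => ¬ G.Adj u v).card : (0 : ℝ) ≤ _)]
      have a6 : η * (dT G c u : ℝ) ≤ η * (2 * lam G) :=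
        mul_le_mul_of_nonneg_left (by linarith) h0.le
      unfold aT at a1
      unfold dT at a5 a6 b2
      rw [abs_le]
      constructor
      · refine le_of_mul_le_mul_left ?_ l0
        linarith [a2.1]
      · refine le_of_mul_le_mul_left ?_ l0
        linarith [a2.2]
    · rw [hout u a] at hu
      linarith [h.typ u hu]
  · linarith [AAbs_card_le (Subset.refl (Z ∪ A)), h.zc]
  · intro v hv hZ
    rw [mem_union, not_or] at hZ
    rw [hout v hZ.2] at hv
    linarith [h.good v hv hZ.1]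
  · intro j hj
    have j1 := (mem_Icc.1 hj).1
    have a1 : (cn c j : ℝ) ≤ cn c' j := by
      refine Nat.cast_le.2 (card_le_card fun v hv => ?_)
      have b := (mem_filter.1 hv).2
      have b1 : v ∉ A := fun a => by have := ((hA v).1 a).1; omega
      exact mem_filter.2 ⟨mem_univ _, by rw [hout v b1, b]⟩
    have a2 : (cn c' j : ℝ) ≤ cn c j + A.card := by
      refine AAbs_card_le (A := Vp c' j) (B := Vp c j) fun v hv => ?_
      by_cases a : v ∈ A
      · exact mem_union_right _ a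
      · exact mem_union_left _ (mem_Vp.2 (hout v a ▸ mem_Vp.1 hv))
    have a3 := abs_le.1 (h.size j hj)
    have a4 := mul_le_mul_of_nonneg_left a1 (by linarith : (0 : ℝ) ≤ r - 1)
    have a5 := mul_le_mul_of_nonneg_left a2 (by linarith : (0 : ℝ) ≤ r - 1)
    have a6 : ((r : ℝ) - 1) * A.card ≤ r * (2 * C) :=
      mul_le_mul (by linarith) hAc (Nat.cast_nonneg _) (by linarith)
    rw [abs_le]
    constructor <;> linarith [a3.1, a3.2]
  · have a1 := AAbs_ec (H := Hm G c) (H' := Hm G c') (A := A) (d := lam G / 2)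
      (fun u v a hu hv => by
        rw [Hm_adj, cross] at a ⊢
        rwa [hout u hu, hout v hv] at a)
      (fun u hu => by
        refine le_trans (AAbs_card_le (B := (Out c (i u)).filter fun v => ¬ G.Adj u v) (D := A)
          fun v hv => ?_) (by linarith [hmiss u hu])
        obtain ⟨⟨-, b2, b3⟩, b4⟩ := Hm_adj.1 (mem_filter.1 hv).2
        by_cases a : v ∈ A
        · exact mem_union_right _ a
        · rw [hout v a] at b2 b3
          rw [hin u hu] at b3
          exact mem_union_left _ (mem_filter.2 ⟨mem_Out.2 ⟨b2, b3.symm⟩, b4⟩))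
    have a2 := mul_le_mul_of_nonneg_right hAc (half_pos l0).le
    linarith [h.hk]
  · have a1 : ec (Xe G c') ≤ ec (Xe G c) :=
      ec_mono fun u v a => ⟨a.1, a.2.imp (fun b => (hz u b).2) fun b => (hz v b).2⟩
    have a2 : (ec (Xe G c') : ℝ) ≤ ec (Xe G c) := by exact_mod_cast a1
    have a3 : 0 ≤ C * lam G := mul_nonneg (by linarith) l0.le
    linarith [h.hE]
  · intro v
    linarith [h.xm v]
  · linarith [h.big]
  · intro u hu
    obtain ⟨b1, b2⟩ := hz u hu
    have a1 : (dT G c u : ℝ) ≤ (1 - 23 / 25 * ξ) * lam G :=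
      not_lt.1 fun a => b1 ((hA u).2 ⟨b2, a⟩)
    have a2 : (dT G c' u : ℝ) ≤ dT G c u + A.card := by
      refine AAbs_card_le (A := nT G c' u) (B := nT G c u) fun v hv => ?_
      by_cases a : v ∈ A
      · exact mem_union_right _ a
      · obtain ⟨d1, d2⟩ := mem_nT.1 hv
        exact mem_union_left _ (mem_nT.2 ⟨d1, hout v a ▸ d2⟩)
    linarith

end Pool.Agent.P.MP_094db5_co
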