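import Pool.Agent.P.MP_094db5_co.AFr

/-! The members of the families are admissible. -/

set_option autoImplicit false

open Finset Classical

noncomputable section

namespace Pool.Agent.P.MP_094db5_co

variable {V : Type} [Fintype V] {r t q : ℕ} {G : SimpleGraph V} {c : V → ℕ}

omit [Fintype V] in
theorem AAdm_spokes (w : V) (X : Set V) (u v : V) :
    s(u, v) ∈ spokes w X ↔ (u = w ∧ v ∈ X) ∨ (v = w ∧ u ∈ X) := by
  simp only [spokes, Set.mem_ofPred_eq, Sym2.eq_iff]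
  constructor
  · rintro ⟨x, hx, ⟨rfl, rfl⟩ | ⟨rfl, rfl⟩⟩
    exacts [Or.inl ⟨rfl, hx⟩, Or.inr ⟨rfl, hx⟩]
  · rintro (⟨rfl, h⟩ | ⟨rfl, h⟩)
    exacts [⟨_, h, Or.inl ⟨rfl, rfl⟩⟩, ⟨_, h, Or.inr ⟨rfl, rfl⟩⟩]

omit [Fintype V] in
theorem AAdm_other {A D : Set (Sym2 V)} (h : Mp G r c A D) {i : ℕ} (hi : i ∈ Icc 1 r) (z : V) :
    ∃ y, c y = i ∧ y ≠ z := by
  obtain ⟨y, h1, h2⟩ := Set.exists_ne_of_one_lt_ncard (s := {v | c v = i}) (h.2.1 i hi) z
  exact ⟨y, h1, h2⟩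

theorem AAdm_rigid {A : Set (Sym2 V)} {z : V} {D : Set V} (h : Mp G r c A (spokes z D))
    (hc : G.Colorable r) : ∃ e : V → ℕ, (∀ u, e u ∈ Icc 1 r) ∧ (∀ v, c v ≠ 0 → v ≠ z → e v = c v) ∧
      ∀ u v, G.Adj u v → e u ≠ e v := by
  obtain ⟨φ⟩ := hc
  have : ∀ i : Icc 1 r, ∃ y, c y = i ∧ y ≠ z := fun i => AAdm_other h i.2 z
  choose y hy hyZ using this
  have hadj : ∀ (i : Icc 1 r) v, c v ≠ 0 → c v ≠ i → v ≠ z → G.Adj (y i) v := fun i v h1 h2 h3 => by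
    have := mem_Icc.1 i.2
    refine (h.2.2 _ _).2 (Or.inl ⟨by rw [hy]; omega, h1, by rw [hy]; omega, fun a => ?_⟩)
    rcases (AAdm_spokes _ _ _ _).1 a with a | a
    exacts [hyZ i a.1, h3 a.1]
  have hinj : Function.Injective fun i => φ (y i) := fun i j e => by
    by_contra hij
    have := mem_Icc.1 j.2
    exact φ.valid (hadj i (y j) (by rw [hy]; omega) (by
      rw [hy]; exact fun a => hij (Subtype.ext a).symm) (hyZ j)) e
  choose g hg using ((Fintype.bijective_iff_injective_and_card _).2 ⟨hinj, by simp⟩).2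
  refine ⟨fun u => g (φ u), fun u => (g (φ u)).2, fun v hv hz => ?_, fun u v huv e => ?_⟩
  · by_contra hne
    exact φ.valid (hadj (g (φ v)) v hv (Ne.symm hne) hz) (hg _)
  · exact φ.valid huv (by rw [← hg (φ u), ← hg (φ v), Subtype.ext e])

omit [Fintype V] in
theorem AAdm_ex {X : Set V} {i : ℕ} (h : 1 ≤ pc c X i) : ∃ v ∈ X, c v = i := by
  obtain ⟨v, hv⟩ := Set.nonempty_of_ncard_ne_zero (s := {v ∈ X | c v = i}) (by unfold pc at h; omega)
  exact ⟨v, hv.1, hv.2⟩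

omit [Fintype V] in
theorem AAdm_uniq {X : Set V} {a v : V} (h : pc c X (c a) = 1) (ha : a ∈ X) (hv : v ∈ X)
    (e : c v = c a) : v = a := by
  obtain ⟨x, hx⟩ := Set.ncard_eq_one.1 h
  have h1 : a ∈ {v ∈ X | c v = c a} := ⟨ha, rfl⟩
  have h2 : v ∈ {v ∈ X | c v = c a} := ⟨hv, e⟩
  rw [hx] at h1 h2
  exact h2.trans h1.symm

/-- labels with a default value -/
def AAdm_lab (c : V → ℕ) (l : ℕ) (v : V) : ℕ := if c v = 0 then l else c v

omit [Fintype V] in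
theorem AAdm_lab_mem (hc : ∀ v, c v ≤ r) {l : ℕ} (hl : l ∈ Icc 1 r) (v : V) :
    AAdm_lab c l v ∈ Icc 1 r := by
  unfold AAdm_lab
  split_ifs with h
  · exact hl
  · exact mem_Icc.2 ⟨by omega, hc v⟩

theorem AAdm_card {X : Set V} (hc : ∀ v, c v ≤ r) (h0 : ∀ v ∈ X, c v ≠ 0) (l : ℕ)
    (h : ∀ i ∈ Icc 1 r, pc c X i ≤ t) (i : ℕ) :
    (X.toFinset.filter fun v => AAdm_lab c l v = i).card ≤ t := by
  have e : (X.toFinset.filter fun v => AAdm_lab c l v = i).card = pc c X i := by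
    rw [pc, ← Set.ncard_coe_finset]
    congr 1
    ext v
    simp only [coe_filter, Set.mem_toFinset, Set.mem_ofPred_eq, and_congr_right_iff]
    intro hv
    rw [AAdm_lab, if_neg (h0 v hv)]
  by_cases hi : i ∈ Icc 1 r
  · rw [e]; exact h i hi
  · have : (X.toFinset.filter fun v => AAdm_lab c l v = i) = ∅ := by
      refine filter_eq_empty_iff.2 fun v hv a => hi ?_
      rw [Set.mem_toFinset] at hv
      rw [← a, AAdm_lab, if_neg (h0 v hv)]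
      exact mem_Icc.2 ⟨Nat.pos_of_ne_zero (h0 v hv), hc v⟩
    rw [this]; exact Nat.zero_le _

theorem AAdm_eq1 {w z : V} {X D : Set V} (h : Mp G r c (spokes w X) (spokes z D)) :
    G = Kc c \ Sg z D.toFinset ⊔ Sg w X.toFinset := by
  ext u v
  have h1 := h.2.2 u v
  have h2 : G.Adj u v → u ≠ v := G.ne_of_adj
  simp only [AAdm_spokes] at h1
  simp only [SimpleGraph.sup_adj, SimpleGraph.sdiff_adj, Kc, cross, Sg, Set.mem_toFinset]
  grind

theorem AAdm_eq2 {w o z : V} {X S D : Set V} (h : Mp G r c (spokes w X ∪ spokes o S) (spokes z D)) :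
    G = Tg c (Sg z D.toFinset) o S.toFinset w X.toFinset := by
  ext u v
  have h1 := h.2.2 u v
  have h2 : G.Adj u v → u ≠ v := G.ne_of_adj
  simp only [Set.mem_union, AAdm_spokes] at h1
  simp only [Tg, SimpleGraph.sup_adj, SimpleGraph.sdiff_adj, Kc, cross, Sg, Set.mem_toFinset]
  grind

omit [Fintype V] in
theorem AAdm_prop (H : SimpleGraph V) (l : ℕ) (u v : V) (h : (Kc c \ H).Adj u v) :
    AAdm_lab c l u ≠ AAdm_lab c l v := by
  obtain ⟨⟨h1, h2, h3⟩, -⟩ := h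
  rwa [AAdm_lab, AAdm_lab, if_neg h1, if_neg h2]

theorem AAdm_pair {w z b : V} {X D : Set V} (h : Mp G r c (spokes w X) (spokes z D)) (hr : 3 ≤ r)
    (hw : c w = 0) (hX : ∀ v ∈ X, c v ≠ 0) (hz : z ∈ X) (hb : b ∈ X) (hD : b ∈ D) (hbz : c b ≠ c z)
    (h1 : pc c X (c z) = 1) (h2 : pc c X (c b) = 1) : NoBook G r t := by
  have hl : 1 ∈ Icc 1 r := mem_Icc.2 ⟨le_rfl, by omega⟩
  have lab : ∀ v ∈ X, AAdm_lab c 1 v = c v := fun v hv => if_neg (hX v hv)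
  rw [AAdm_eq1 h]
  refine noBook0 (AAdm_lab_mem h.1 hl) (AAdm_prop _ 1) (fun v a => a.1.1 hw)
    (no_clique_of_pair (AAdm_lab_mem h.1 hl) (AAdm_prop _ 1) (a := z) (b := b)
      (by rw [lab z hz, lab b hb]; exact hbz.symm)
      (fun a => a.2 ⟨fun e => hbz (e ▸ rfl), Or.inl ⟨rfl, Set.mem_toFinset.2 hD⟩⟩) ?_ ?_)
  · intro v hv e
    rw [Set.mem_toFinset] at hv
    rw [lab v hv, lab z hz] at e
    exact AAdm_uniq h1 hz hv e
  · intro v hv e
    rw [Set.mem_toFinset] at hv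
    rw [lab v hv, lab b hb] at e
    exact AAdm_uniq h2 hb hv e

theorem FamB.noBook (h : FamB r t G c) (hr : 3 ≤ r) : NoBook G r t := by
  obtain ⟨w, z, X, D, hw, hX, hD, hX1, h⟩ := h
  have hl : 1 ∈ Icc 1 r := mem_Icc.2 ⟨le_rfl, by omega⟩
  rcases h with ⟨h, hz, b, hb, rfl, h1, h2⟩ | ⟨h, hz, h1, h2, h3⟩ | ⟨h, ht, hz, h1, h2, h3, h4⟩
  · exact AAdm_pair h hr hw hX hz hb rfl (hD b rfl).2 h1 h2
  · rcases Nat.eq_zero_or_pos t with ht | ht
    · obtain ⟨hzX, b, hb, -⟩ := h2 ht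
      have hb' : b ∈ X ∩ D := hb ▸ rfl
      exact AAdm_pair h hr hw hX hzX hb'.1 hb'.2 (hD b hb'.2).2
        (h1 _ (mem_Icc.2 ⟨Nat.pos_of_ne_zero hz, h.1 _⟩))
        (h1 _ (mem_Icc.2 ⟨Nat.pos_of_ne_zero (hX b hb'.1), h.1 _⟩))
    · rw [AAdm_eq1 h]
      exact noBook1 (AAdm_lab_mem h.1 hl) (AAdm_prop _ 1) (fun v a => a.1.1 hw) ht
        (AAdm_card h.1 hX 1 fun i hi => (h1 i hi).le.trans ht)
  have hadj : ∀ u v, G.Adj u v ↔ cross c u v ∨ (u = w ∧ v ∈ X ∨ v = w ∧ u ∈ X) ∨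
      (u = z ∧ v ∈ D ∨ v = z ∧ u ∈ D) := fun u v => by
    rw [h.2.2, Set.mem_union, AAdm_spokes, AAdm_spokes]; simp [cross]
  by_cases hm : ∃ l ∈ Icc 1 r, ∀ v ∈ D, c v ≠ l
  · obtain ⟨l, hl, hm⟩ := hm
    have e : G = (Kc c ⊔ Sg z D.toFinset) ⊔ Sg w X.toFinset := by
      ext u v
      have h5 := hadj u v
      have h6 : G.Adj u v → u ≠ v := G.ne_of_adj
      simp only [SimpleGraph.sup_adj, Kc, Sg, Set.mem_toFinset]
      grind
    rw [e]
    refine noBook1 (AAdm_lab_mem h.1 hl) ?_ ?_ ht (AAdm_card h.1 hX l h1)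
    · rintro u v (⟨a1, a2, a3⟩ | ⟨-, ⟨rfl, a⟩ | ⟨rfl, a⟩⟩)
      · rwa [AAdm_lab, AAdm_lab, if_neg a1, if_neg a2]
      · rw [Set.mem_toFinset] at a
        rw [AAdm_lab, AAdm_lab, if_pos hz, if_neg (hD _ a).1]; exact (hm _ a).symm
      · rw [Set.mem_toFinset] at a
        rw [AAdm_lab, AAdm_lab, if_pos hz, if_neg (hD _ a).1]; exact hm _ a
    · rintro v (a | ⟨-, ⟨rfl, a⟩ | ⟨-, a⟩⟩)
      · exact a.1 hw
      · exact (h4 ⟨v, Set.mem_toFinset.1 a⟩).1 rfl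
      · exact (hD _ (Set.mem_toFinset.1 a)).1 hw
  push Not at hm
  obtain ⟨hzw, h5⟩ := h4 (by obtain ⟨v, hv, -⟩ := hm 1 hl; exact ⟨v, hv⟩)
  have hDc : D.toFinset.card ≤ r := by rwa [← Set.ncard_eq_toFinset_card']
  have hT : Trans r c D.toFinset := trans_of_card hDc fun i hi => by simpa using hm i hi
  have pK : ∀ u v, (Kc c).Adj u v → AAdm_lab c 1 u ≠ AAdm_lab c 1 v := fun u v a => by
    rw [AAdm_lab, AAdm_lab, if_neg a.1, if_neg a.2.1]; exact a.2.2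
  have n1 : NoBook (Kc c ⊔ Sg w X.toFinset) r t :=
    noBook1 (AAdm_lab_mem h.1 hl) pK (fun v a => a.1 hw) ht (AAdm_card h.1 hX 1 h1)
  have n2 : NoBook (Kc c ⊔ Sg z D.toFinset) r t :=
    noBook1 (AAdm_lab_mem h.1 hl) pK (fun v a => a.1 hz) ht fun i => le_trans (card_le_card fun v hv => by
      rw [mem_filter] at hv ⊢
      exact ⟨hv.1, by rw [← hv.2, AAdm_lab, if_neg (hT.1 v hv.1)]⟩) ((hT.filter_le i).trans ht)
  have a1 : ∀ u v, G.Adj u v → u ≠ z → v ≠ z → (Kc c ⊔ Sg w X.toFinset).Adj u v := fun u v a b d => by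
    have h6 := a.ne
    have := (hadj u v).1 a
    simp only [SimpleGraph.sup_adj, Kc, Sg, Set.mem_toFinset]
    grind
  have a2 : ∀ u v, G.Adj u v → u ≠ w → v ≠ w → (Kc c ⊔ Sg z D.toFinset).Adj u v := fun u v a b d => by
    have h6 := a.ne
    have := (hadj u v).1 a
    simp only [SimpleGraph.sup_adj, Kc, Sg, Set.mem_toFinset]
    grind
  have nw : ∀ v, G.Adj w v → v ∈ X := fun v a => by
    have := (hadj w v).1 a
    have := hX w
    have := hD w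
    grind [cross]
  have nz : ∀ v, G.Adj z v → v ∈ D := fun v a => by
    have := (hadj z v).1 a
    have := hX z
    have := hD z
    grind [cross]
  have nwz : ¬ G.Adj w z := fun a => hX z (nw z a) hz
  intro K hK T hT'
  by_cases c1 : z ∉ K ∧ z ∉ T
  · exact n1 K ⟨fun u hu v hv e => a1 u v (hK.1 hu hv e) (fun a => c1.1 (a ▸ hu))
      fun a => c1.1 (a ▸ hv), hK.2⟩ T fun v hv u hu =>
        a1 u v (hT' v hv u hu) (fun a => c1.1 (a ▸ hu)) fun a => c1.2 (a ▸ hv)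
  by_cases c2 : w ∉ K ∧ w ∉ T
  · exact n2 K ⟨fun u hu v hv e => a2 u v (hK.1 hu hv e) (fun a => c2.1 (a ▸ hu))
      fun a => c2.1 (a ▸ hv), hK.2⟩ T fun v hv u hu =>
        a2 u v (hT' v hv u hu) (fun a => c2.1 (a ▸ hu)) fun a => c2.2 (a ▸ hv)
  have c3 : z ∈ T ∧ w ∈ T := by
    by_cases d1 : z ∈ K <;> by_cases d2 : w ∈ K
    · exact absurd (hK.1 d2 d1 hzw.symm) nwz
    · exact absurd (hT' w (by tauto) z d1).symm nwz
    · exact absurd (hT' z (by tauto) w d2) nwz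
    · tauto
  have kD : K = D.toFinset := eq_of_subset_of_card_le
    (fun u hu => Set.mem_toFinset.2 (nz u (hT' z c3.1 u hu).symm)) (by rw [hK.2]; exact hDc)
  have dX : ∀ u ∈ D, u ∈ X := fun u hu =>
    nw u (hT' w c3.2 u (kD ▸ Set.mem_toFinset.2 hu)).symm
  have t2 : 2 ≤ t := by
    by_contra hc
    refine h3 fun v hv => ?_
    have hi : c v ∈ Icc 1 r := mem_Icc.2 ⟨Nat.pos_of_ne_zero (hX v hv), h.1 v⟩
    obtain ⟨u, hu, e⟩ := hm _ hi
    exact AAdm_uniq (by rw [h5 _ hi]; omega) hv (dX u hu) e ▸ hu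
  refine le_trans (card_le_card (t := {w, z}) fun v hv => ?_) (card_le_two.trans t2)
  by_contra hc
  simp only [mem_insert, mem_singleton, not_or] at hc
  have hv0 : ∀ u ∈ D, cross c u v := fun u hu => by
    have := (hadj u v).1 (hT' v hv u (kD ▸ Set.mem_toFinset.2 hu))
    have := (hD u hu).1
    grind
  obtain ⟨u, hu, -⟩ := hm 1 hl
  obtain ⟨u', hu', e⟩ := hm (c v) (mem_Icc.2 ⟨Nat.pos_of_ne_zero (hv0 u hu).2.1, h.1 v⟩)
  exact (hv0 u' hu').2.2 e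

theorem FamB.nc (h : FamB r t G c) (hr : 3 ≤ r) : ¬ G.Colorable r := by
  obtain ⟨w, z, X, D, hw, hX, hD, hX1, h⟩ := h
  intro hc
  have _ := hr
  rcases h with ⟨h, hz, b, hb, rfl, h1, h2⟩ | ⟨h, hz, h1, h2, h3⟩ | ⟨h, ht, hz, h1, h2, h3, h4⟩
  · obtain ⟨e, e1, e2, e3⟩ := AAdm_rigid h hc
    have ez : e z = c z := by
      by_contra hne
      obtain ⟨y, hy, hyb⟩ := AAdm_other h (e1 z) b
      have := mem_Icc.1 (e1 z)
      have hyz : y ≠ z := fun a => hne (by rw [← hy, a])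
      refine e3 z y ((h.2.2 _ _).2 (Or.inl ⟨hX z hz, by omega, by rw [hy]; exact Ne.symm hne, fun a => ?_⟩))
        (by rw [e2 y (by omega) hyz, hy])
      rcases (AAdm_spokes _ _ _ _).1 a with a | a
      exacts [hyb a.2, hyz a.1]
    obtain ⟨v, hv, hv'⟩ := AAdm_ex (hX1 _ (e1 w))
    refine e3 w v ((h.2.2 _ _).2 (Or.inr ((AAdm_spokes _ _ _ _).2 (Or.inl ⟨rfl, hv⟩)))) ?_
    by_cases a : v = z
    · rw [← hv', a, ez]
    · rw [e2 v (hX v hv) a, hv']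
  · obtain ⟨e, e1, e2, e3⟩ := AAdm_rigid h hc
    obtain ⟨v, hv, hv'⟩ := AAdm_ex (hX1 _ (e1 w))
    have hwv := e3 w v ((h.2.2 _ _).2 (Or.inr ((AAdm_spokes _ _ _ _).2 (Or.inl ⟨rfl, hv⟩))))
    by_cases a : v = z
    · subst a
      rcases Nat.eq_zero_or_pos t with ht | ht
      · obtain ⟨-, b, hb, y, hy, hyb⟩ := h2 ht
        obtain ⟨u, hu, hu'⟩ := AAdm_ex (hX1 _ (e1 v))
        have key : ∀ x, c x = e v → x ∉ D → False := fun x h4 h5 => by
          have := mem_Icc.1 (e1 v)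
          have hxv : x ≠ v := fun a => hwv (by rw [← hv', ← h4, a])
          refine e3 v x ((h.2.2 _ _).2 (Or.inl ⟨hz, by omega, by rw [h4, hv']; exact hwv, fun a => ?_⟩))
            (by rw [e2 x (by omega) hxv, h4])
          rcases (AAdm_spokes _ _ _ _).1 a with a | a
          exacts [h5 a.2, hxv a.1]
        by_cases huD : u ∈ D
        · have : u ∈ X ∩ D := ⟨hu, huD⟩
          rw [hb] at this
          exact key y (by rw [hyb, ← hu', this]) hy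
        · exact key u hu' huD
      · exact (h3 ht).1 hv
    · exact hwv (by rw [e2 v (hX v hv) a, hv'])
  · have h' : Mp G r c (spokes w X ∪ spokes z D) (spokes z ∅) := by
      rwa [show spokes z (∅ : Set V) = ∅ by simp [spokes]]
    obtain ⟨e, e1, e2, e3⟩ := AAdm_rigid h' hc
    obtain ⟨v, hv, hv'⟩ := AAdm_ex (hX1 _ (e1 w))
    exact e3 w v ((h.2.2 _ _).2 (Or.inr (Or.inl ((AAdm_spokes _ _ _ _).2 (Or.inl ⟨rfl, hv⟩)))))
      (by rw [e2 v (hX v hv) (fun a => hX v hv (a ▸ hz)), hv'])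

theorem FamW.free (h : FamW G c) (hq : 2 ≤ q) : (Whl q).Free G := by
  obtain ⟨w, z, a, b, D, hw, hz, ha, hb, hab, hD, h⟩ := h
  rcases h with ⟨h, h1, h2, h3, -⟩ | ⟨o, ho, ho0, h, h1, -⟩ | ⟨o, ho, ho0, h, h1, h2, -, h3⟩
  · rw [AAdm_eq1 h]
    refine (cls_wheel hq).gad _ w z _ (colorable_of_labels _ (AAdm_lab_mem h.1 (l := 1) (by simp))
      (AAdm_prop _ 1)) (fun v x => x.1.1 hw) (by simpa using card_le_three) (by simp) ?_
    intro v hv x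
    refine x.2 ⟨x.1.ne, Or.inl ⟨rfl, ?_⟩⟩
    have := x.1.ne
    simp only [Set.mem_toFinset, Set.mem_insert_iff, Set.mem_singleton_iff] at hv ⊢
    grind
  · rw [AAdm_eq2 h]
    simp only [Set.toFinset_insert, Set.toFinset_singleton]
    refine TgOK.freeW2 ⟨h.1, ?_, ho0, hw, ho, by simp [ha, hb], by simp [ha, hb]⟩ hq
    rintro u v ⟨-, ⟨rfl, x⟩ | ⟨rfl, x⟩⟩ <;> rw [Set.mem_toFinset] at x
    exacts [⟨hz, hD _ x, (h1 _ x).symm⟩, ⟨hD _ x, hz, h1 _ x⟩]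
  · rw [AAdm_eq2 h]
    obtain ⟨l, hl, hl'⟩ := exists_mem_notMem_of_card_lt_card (s := D.toFinset.image c) (t := Icc 1 3)
      (lt_of_le_of_lt card_image_le (by rw [← Set.ncard_eq_toFinset_card']; simp; omega))
    refine TgOK.gad (Fr := fun G : SimpleGraph V => (Whl q).Free G) (a := z)
      ⟨h.1, ?_, ho0, hw, ho, fun v x => hD v (Set.mem_toFinset.1 x), by simp [ha, hb, hz]⟩
      (cls_wheel hq) hl (fun v x e => hl' (mem_image.2 ⟨v, x, e⟩)) (by simpa using card_le_three)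
      (by simp) ?_
    · rintro u v ⟨-, ⟨rfl, x⟩ | ⟨rfl, x⟩⟩ <;>
        simp only [Set.mem_toFinset, Set.mem_insert_iff, Set.mem_singleton_iff] at x <;>
        rcases x with rfl | rfl
      exacts [⟨hz, ha, h1⟩, ⟨hz, hb, h2⟩, ⟨ha, hz, h1.symm⟩, ⟨hb, hz, h2.symm⟩]
    · intro v hv
      rw [Tg_adj]
      simp only [Set.mem_toFinset, Set.mem_insert_iff, Set.mem_singleton_iff, Sg, cross] at hv ⊢
      grind

theorem AAdm_three {A : Set (Sym2 V)} {w z a b x y : V} {D : Set V} (h : Mp G 3 c A (spokes z D))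
    (hz : c z ≠ 0) (ha : c a ≠ 0) (hb : c b ≠ 0) (hab : c a ≠ c b) (hza : c z ≠ c a) (hzb : c z ≠ c b)
    (hx : c x = c a) (hy : c y = c b) (hxD : x ∉ D) (hyD : y ∉ D) (w1 : G.Adj w z) (w2 : G.Adj w a)
    (w3 : G.Adj w b) : ¬ G.Colorable 3 := by
  intro hc
  obtain ⟨e, e1, e2, e3⟩ := AAdm_rigid h hc
  have key : ∀ u, c u ≠ 0 → c z ≠ c u → u ∉ D → e z ≠ c u := fun u h1 h2 h3 => by
    have hu : u ≠ z := fun x => h2 (x ▸ rfl)
    rw [← e2 u h1 hu]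
    refine e3 z u ((h.2.2 _ _).2 (Or.inl ⟨hz, h1, h2, fun a => ?_⟩))
    rcases (AAdm_spokes _ _ _ _).1 a with a | a
    exacts [h3 a.2, hu a.1]
  have k1 := key x (hx ▸ ha) (hx ▸ hza) hxD
  have k2 := key y (hy ▸ hb) (hy ▸ hzb) hyD
  have k3 := e3 _ _ w1
  have k4 := e3 _ _ w2
  have k5 := e3 _ _ w3
  rw [e2 a ha fun x => hza (x ▸ rfl)] at k4
  rw [e2 b hb fun x => hzb (x ▸ rfl)] at k5
  have := mem_Icc.1 (e1 w)
  have := mem_Icc.1 (e1 z)
  have := h.1 a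
  have := h.1 b
  omega

theorem FamW.nc (h : FamW G c) : ¬ G.Colorable 3 := by
  obtain ⟨w, z, a, b, D, hw, hz, ha, hb, hab, hD, h⟩ := h
  rcases h with ⟨h, h1, h2, h3, ⟨x, hx, hx'⟩, y, hy, hy'⟩ | ⟨o, ho, ho0, h, h1, -, h2, h3, -⟩ |
    ⟨o, ho, ho0, h, h1, h2, -, h3⟩
  · have n : ∀ v ∈ ({z, a, b} : Set V), G.Adj w v := fun v hv =>
      (h.2.2 _ _).2 (Or.inr ((AAdm_spokes _ _ _ _).2 (Or.inl ⟨rfl, hv⟩)))
    exact AAdm_three h hz ha hb hab (h1 a h2).symm (h1 b h3).symm hx' hy' hx hy (n z (by simp))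
      (n a (by simp)) (n b (by simp))
  · intro hc
    obtain ⟨e, e1, e2, e3⟩ := AAdm_rigid h hc
    have n : ∀ v ∈ ({o, a, b} : Set V), e w ≠ e v := fun v hv =>
      e3 _ _ ((h.2.2 _ _).2 (Or.inr (Or.inl ((AAdm_spokes _ _ _ _).2 (Or.inl ⟨rfl, hv⟩)))))
    have n' : ∀ v ∈ ({a, b} : Set V), e o ≠ e v := fun v hv =>
      e3 _ _ ((h.2.2 _ _).2 (Or.inr (Or.inr ((AAdm_spokes _ _ _ _).2 (Or.inl ⟨rfl, hv⟩)))))
    have k1 := n o (by simp)
    have k2 := n a (by simp)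
    have k3 := n b (by simp)
    have k4 := n' a (by simp)
    have k5 := n' b (by simp)
    rw [e2 a ha h2.symm] at k2 k4
    rw [e2 b hb h3.symm] at k3 k5
    have := mem_Icc.1 (e1 w)
    have := mem_Icc.1 (e1 o)
    have := h.1 a
    have := h.1 b
    omega
  · have n : ∀ v ∈ ({z, a, b} : Set V), G.Adj w v := fun v hv =>
      (h.2.2 _ _).2 (Or.inr (Or.inl ((AAdm_spokes _ _ _ _).2 (Or.inl ⟨rfl, hv⟩))))
    obtain ⟨x, hx, hx'⟩ := AAdm_other h (i := c a) (mem_Icc.2 ⟨Nat.pos_of_ne_zero ha, h.1 a⟩) a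
    obtain ⟨y, hy, hy'⟩ := AAdm_other h (i := c b) (mem_Icc.2 ⟨Nat.pos_of_ne_zero hb, h.1 b⟩) b
    refine AAdm_three h hz ha hb hab h1 h2 hx hy ?_ ?_ (n z (by simp)) (n a (by simp)) (n b (by simp))
    · rintro (rfl | rfl)
      exacts [hx' rfl, hab hx.symm]
    · rintro (rfl | rfl)
      exacts [hab hy, hy' rfl]

end Pool.Agent.P.MP_094db5_co
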