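import Pool.Agent.P.MP_094db5_co.AHa

/-! Changing the sizes of two parts. -/

set_option autoImplicit false

open Finset Classical

noncomputable section

namespace Pool.Agent.P.MP_094db5_co

variable {V : Type} [Fintype V] {r : ℕ} {c : V → ℕ}

/-- moving the set `M` to part `i` -/
def mv (c : V → ℕ) (M : Finset V) (i : ℕ) (v : V) : ℕ := if v ∈ M then i else c v

lemma ABc_sum (M : Finset V) (f : V → ℝ) : ∑ v, (if v ∈ M then f v else 0) = ∑ v ∈ M, f v := by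
  rw [sum_ite_mem, univ_inter]

lemma ABc_Pc {M : Finset V} {i j : ℕ} (hij : i ≠ j) (hM : ∀ v ∈ M, c v = j) (f : V → ℝ) :
    Pc f (mv c M i) i = Pc f c i + ∑ v ∈ M, f v ∧ Pc f (mv c M i) j = Pc f c j - ∑ v ∈ M, f v ∧
      ∀ l, l ≠ i → l ≠ j → Pc f (mv c M i) l = Pc f c l := by
  refine ⟨?_, ?_, fun l h1 h2 => ?_⟩
  · rw [← ABc_sum, Pc, Pc, ← sum_add_distrib]
    refine sum_congr rfl fun v _ => ?_
    by_cases h : v ∈ M
    · simp [mv, h, hM v h, hij.symm]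
    · simp [mv, h]
  · rw [← ABc_sum, Pc, Pc, ← sum_sub_distrib]
    refine sum_congr rfl fun v _ => ?_
    by_cases h : v ∈ M
    · simp [mv, h, hM v h, hij]
    · simp [mv, h]
  · refine sum_congr rfl fun v _ => ?_
    by_cases h : v ∈ M
    · simp [mv, h, hM v h, h1.symm, h2.symm]
    · simp [mv, h]

lemma ABc_cn {M : Finset V} {i j : ℕ} (hij : i ≠ j) (hM : ∀ v ∈ M, c v = j) :
    (cn (mv c M i) i : ℝ) = cn c i + M.card ∧ (cn (mv c M i) j : ℝ) = cn c j - M.card ∧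
      ∀ l, l ≠ i → l ≠ j → (cn (mv c M i) l : ℝ) = cn c l := by
  simpa only [Pc_const, mul_one, sum_const, nsmul_eq_mul] using ABc_Pc hij hM fun _ => 1

theorem cn_mv {M : Finset V} {i j : ℕ} (hij : i ≠ j) (hM : ∀ v ∈ M, c v = j) :
    cn (mv c M i) i = cn c i + M.card ∧ cn (mv c M i) j + M.card = cn c j ∧
      ∀ l, l ≠ i → l ≠ j → cn (mv c M i) l = cn c l := by
  obtain ⟨h1, h2, h3⟩ := ABc_cn hij hM
  refine ⟨by exact_mod_cast h1, ?_, fun l a b => by exact_mod_cast h3 l a b⟩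
  exact_mod_cast (by linarith : (cn (mv c M i) j : ℝ) + M.card = cn c j)

lemma ABc_two {s : Finset ℕ} {i j : ℕ} (hi : i ∈ s) (hj : j ∈ s) (hij : i ≠ j) {F F' : ℕ → ℝ}
    (h : ∀ l ∈ s, l ≠ i → l ≠ j → F' l = F l) :
    ∑ l ∈ s, F' l = ∑ l ∈ s, F l + (F' i - F i) + (F' j - F j) := by
  have h1 : ∑ l ∈ {i, j}, (F' l - F l) = ∑ l ∈ s, (F' l - F l) := by
    refine sum_subset (by simp only [insert_subset_iff, singleton_subset_iff, hi, hj, and_self])
      fun l hl hn => ?_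
    rw [mem_insert, mem_singleton, not_or] at hn
    rw [h l hl hn.1 hn.2, sub_self]
  rw [sum_pair hij, sum_sub_distrib] at h1
  linarith

omit [Fintype V] in
lemma ABc_le (hc : ∀ v, c v ≤ r) (M : Finset V) {i : ℕ} (hi : i ∈ Icc 1 r) (v : V) :
    mv c M i v ≤ r := by
  unfold mv
  split_ifs
  exacts [(mem_Icc.1 hi).2, hc v]

theorem ec_mv (hc : ∀ v, c v ≤ r) {M : Finset V} {i j : ℕ} (hi : i ∈ Icc 1 r) (hj : j ∈ Icc 1 r)
    (hij : i ≠ j) (hM : ∀ v ∈ M, c v = j) :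
    ec (Kc (mv c M i)) + M.card * (cn c i + M.card) = ec (Kc c) + M.card * cn c j := by
  obtain ⟨h1, h2, h3⟩ := ABc_cn hij hM
  have a1 := Mo_Kc hc
  have a2 := Mo_Kc (ABc_le hc M hi)
  have b1 := ABc_two hi hj hij (F := fun l => (cn c l : ℝ)) (F' := fun l => cn (mv c M i) l)
    fun l _ a b => h3 l a b
  have b2 := ABc_two hi hj hij (F := fun l => (cn c l : ℝ) ^ 2)
    (F' := fun l => (cn (mv c M i) l : ℝ) ^ 2) fun l _ a b => by simp only [h3 l a b]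
  rw [b1, b2, h1, h2] at a2
  rw [Mo_ec] at a1 a2
  have : (ec (Kc (mv c M i)) : ℝ) + M.card * (cn c i + M.card) = ec (Kc c) + M.card * cn c j := by
    linarith
  exact_mod_cast this

lemma ABc_part {G : SimpleGraph V} {x : V → ℝ} (hx : Eig G x) (hc : ∀ v, c v ≤ r)
    (hp : Proper G c) {j : ℕ} (hj : j ∈ Icc 1 r) {e : ℝ}
    (he : ∑ v, op (Hm G c) x v + ∑ u ∈ Vp c 0, x u * dT G c u ≤ e) {M : Finset V}
    (hM : ∀ v ∈ M, c v = j) :
    |lam G * ∑ v ∈ M, x v - M.card * (∑ l ∈ Icc 1 r, Pc x c l - Pc x c j)| ≤ e := by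
  have hj0 : ∀ v ∈ M, c v ≠ 0 := fun v hv => by
    have := hM v hv
    have := (mem_Icc.1 hj).1
    omega
  have a1 : lam G * ∑ v ∈ M, x v = M.card * (∑ l ∈ Icc 1 r, Pc x c l - Pc x c j) -
      ∑ v ∈ M, op (Hm G c) x v + ∑ v ∈ M, op (Xe G c) x v := by
    rw [mul_sum, ← nsmul_eq_mul, ← sum_const, ← sum_sub_distrib, ← sum_add_distrib]
    refine sum_congr rfl fun v hv => ?_
    rw [← hx.eig, op_split hp x (hj0 v hv), op_Kc hc x (hj0 v hv), hM v hv]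
  have a2 : ∑ v ∈ M, op (Hm G c) x v ≤ ∑ v, op (Hm G c) x v :=
    sum_le_sum_of_subset_of_nonneg (subset_univ _) fun v _ _ => op_nonneg hx.nonneg v
  have a3 : ∑ v ∈ M, op (Xe G c) x v ≤ ∑ u ∈ Vp c 0, x u * dT G c u := by
    rw [← sum_op_Xe]
    exact sum_le_sum_of_subset_of_nonneg (fun v hv => mem_filter.2 ⟨mem_univ _, hj0 v hv⟩)
      fun v _ _ => op_nonneg hx.nonneg v
  have a4 : 0 ≤ ∑ v ∈ M, op (Hm G c) x v := sum_nonneg fun v _ => op_nonneg hx.nonneg v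
  have a5 : 0 ≤ ∑ v ∈ M, op (Xe G c) x v := sum_nonneg fun v _ => op_nonneg hx.nonneg v
  rw [abs_le]
  constructor <;> linarith

/-- the part sums -/
theorem part_sum {G : SimpleGraph V} {x : V → ℝ} (hx : Eig G x) (hc : ∀ v, c v ≤ r)
    (hp : Proper G c) {i : ℕ} (hi : i ∈ Icc 1 r) {e : ℝ}
    (he : ∑ v, op (Hm G c) x v + ∑ u ∈ Vp c 0, x u * dT G c u ≤ e) :
    |(lam G + cn c i) * Pc x c i - cn c i * ∑ j ∈ Icc 1 r, Pc x c j| ≤ e := by
  have h := ABc_part hx hc hp hi he (M := Vp c i) fun v hv => mem_Vp.1 hv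
  have e1 : ∑ v ∈ Vp c i, x v = Pc x c i := by rw [Vp, sum_filter, Pc]
  rw [e1, card_Vp] at h
  convert h using 2
  ring

lemma ABc_diff {l η e q S Pi Pj ni nj : ℝ} (l0 : 0 < l) (h0 : 0 < η) (h1 : 100 * η ≤ 1)
    (q0 : 0 < q) (q3 : q ≤ 1 / 3) (hj0 : 0 ≤ nj) (hle : nj ≤ ni) (hS0 : 0 ≤ S)
    (hj : (1 - η) * q * l ≤ (1 - q) * nj) (hS : (1 - q) * S ≤ (1 + 5 * η) * l)
    (ri : |(l + ni) * Pi - ni * S| ≤ e) (rj : |(l + nj) * Pj - nj * S| ≤ e) :
    -(2 * e) ≤ l * (Pi - Pj) ∧ l * (Pi - Pj) ≤ (1 - q + 6 * η) * l * (ni - nj) + 2 * e := by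
  have e0 : 0 ≤ e := (abs_nonneg _).trans ri
  have pi : 0 < l + ni := by linarith
  have pj : 0 < l + nj := by linarith
  have key : ∀ n R : ℝ, 0 ≤ n → |R| ≤ e → |l * (R / (l + n))| ≤ e := by
    intro n R hn hR
    have p : 0 < l + n := by linarith
    rw [abs_mul, abs_div, abs_of_pos l0, abs_of_pos p, ← mul_div_assoc, div_le_iff₀ p]
    nlinarith [mul_le_mul_of_nonneg_left hR l0.le, mul_nonneg e0 hn]
  have k1 := abs_le.1 (key ni _ (by linarith) ri)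
  have k2 := abs_le.1 (key nj _ hj0 rj)
  have e1 : l * (Pi - Pj) = l * (ni - nj) * (S * l / ((l + ni) * (l + nj))) +
      l * (((l + ni) * Pi - ni * S) / (l + ni)) - l * (((l + nj) * Pj - nj * S) / (l + nj)) := by
    field_simp
    ring
  have a0 : 0 ≤ S * l / ((l + ni) * (l + nj)) := by positivity
  have a1 : S * l / ((l + ni) * (l + nj)) ≤ 1 - q + 6 * η := by
    rw [div_le_iff₀ (mul_pos pi pj)]
    have b1 : (1 - η / 3) * l ≤ (1 - q) * (l + nj) := by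
      nlinarith [mul_le_mul_of_nonneg_left q3 (mul_pos h0 l0).le]
    have b2 : (1 - η / 3) * l ≤ (1 - q) * (l + ni) :=
      b1.trans (mul_le_mul_of_nonneg_left (by linarith) (by linarith))
    have b0 : 0 ≤ (1 - η / 3) * l := mul_nonneg (by linarith) l0.le
    have b3 := mul_le_mul b2 b1 b0 (b0.trans b2)
    have b4 : 1 + 5 * η ≤ (1 + 6 * η) * ((1 - η / 3) * (1 - η / 3)) := by
      nlinarith [mul_pos h0 h0, mul_pos (mul_pos h0 h0) h0]
    have b5 : (1 - q) * (S * l) ≤ (1 - q) * ((1 + 6 * η) * (1 - q) * ((l + ni) * (l + nj))) := by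
      have c1 := mul_le_mul_of_nonneg_right hS l0.le
      have c2 := mul_le_mul_of_nonneg_right b4 (mul_pos l0 l0).le
      have c3 := mul_le_mul_of_nonneg_left b3 (show 0 ≤ 1 + 6 * η by linarith)
      linarith
    refine (le_of_mul_le_mul_left b5 (by linarith)).trans ?_
    refine mul_le_mul_of_nonneg_right ?_ (mul_pos pi pj).le
    nlinarith [mul_pos h0 q0]
  have d0 : 0 ≤ l * (ni - nj) := mul_nonneg l0.le (by linarith)
  have a2 := mul_nonneg d0 a0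
  have a3 := mul_le_mul_of_nonneg_left a1 d0
  constructor <;> linarith

lemma ABc_first {l η q μ s a b : ℝ} (l0 : 0 < l) (h0 : 0 < η) (h1 : 100 * η ≤ 1)
    (q0 : 0 < q) (q3 : q ≤ 1 / 3) (m0 : 0 ≤ μ) (hs : l * s = (1 - q) * μ)
    (lo : 2 * (1 - η) * q * l ≤ (1 - q) * (a + b)) (up : (1 - q) * (a + b) ≤ 2 * (1 + η) * q * l) :
    2 * q * (1 - 2 * η) * μ ^ 2 ≤ 2 * s * μ * (a + b) - 2 * s ^ 2 * (a * b) - l * s ^ 2 * (a + b) := by
  obtain ⟨w, hw⟩ : ∃ w, w = s * (a + b) := ⟨_, rfl⟩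
  have e1 : l * w = μ * ((1 - q) * (a + b)) := by rw [hw, ← mul_assoc, hs]; ring
  have w1 : 2 * (1 - η) * q * μ ≤ w := by
    refine le_of_mul_le_mul_left ?_ l0
    rw [e1]
    linarith [mul_le_mul_of_nonneg_left lo m0]
  have w2 : w ≤ 2 * (1 + η) * q * μ := by
    refine le_of_mul_le_mul_left ?_ l0
    rw [e1]
    linarith [mul_le_mul_of_nonneg_left up m0]
  have w0 : 0 ≤ 2 * (1 - η) * q * μ := by
    have : 0 ≤ 1 - η := by linarith
    positivity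
  have e2 : l * s ^ 2 * (a + b) = (1 - q) * μ * w := by rw [← hs, hw]; ring
  have e3 : 2 * s ^ 2 * (a * b) ≤ w ^ 2 / 2 := by
    rw [hw]
    nlinarith [sq_nonneg (s * (a - b))]
  have e4 : 2 * s * μ * (a + b) = 2 * μ * w := by rw [hw]; ring
  have a1 : (1 - η) * μ ≤ (1 + q) * μ - w / 2 := by
    nlinarith [mul_le_mul_of_nonneg_right (show q ≤ 1 by linarith) (mul_nonneg h0.le m0)]
  have a2 := mul_le_mul w1 a1 (mul_nonneg (by linarith) m0) (w0.trans w1)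
  rw [e2, e4]
  nlinarith [mul_nonneg (mul_nonneg q0.le (sq_nonneg η)) (sq_nonneg μ)]

lemma ABc_second {η q t μ F : ℝ} (h0 : 0 < η) (h1 : 100 * η ≤ 1) (q0 : 0 < q) (q3 : q ≤ 1 / 3)
    (m0 : 0 ≤ μ) (m1 : μ ≤ (1 + η) * t) (f : 2 * q * (1 - 2 * η) * μ ^ 2 ≤ F) :
    -(2 * (1 - q + 10 * η) * t ^ 2) ≤ -2 * μ ^ 2 + F := by
  have b1 : μ ^ 2 ≤ ((1 + η) * t) ^ 2 := pow_le_pow_left₀ m0 m1 2
  have b2 : 0 ≤ 1 - q + η := by linarith
  have b3 := mul_le_mul_of_nonneg_left b1 b2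
  have b4 : (1 - q + η) * (1 + η) ^ 2 ≤ 1 - q + 10 * η := by
    have c1 : (1 + η) ^ 2 ≤ 1 + 3 * η := by nlinarith
    have c2 := mul_le_mul_of_nonneg_left c1 b2
    nlinarith [mul_pos h0 q0]
  have b5 := mul_le_mul_of_nonneg_right b4 (sq_nonneg t)
  have b6 := mul_le_mul_of_nonneg_right q3 (mul_nonneg h0.le (sq_nonneg μ))
  have b7 := mul_nonneg h0.le (sq_nonneg μ)
  linarith

lemma ABc_real {l η e q t μ s S Pi Pj ni nj : ℝ} (l0 : 0 < l) (h0 : 0 < η) (h1 : 100 * η ≤ 1)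
    (q0 : 0 < q) (q3 : q ≤ 1 / 3) (hj0 : 0 ≤ nj) (hle : nj ≤ ni) (hS0 : 0 ≤ S) (t0 : 0 ≤ t)
    (m0 : 0 ≤ μ) (m1 : μ ≤ (1 + η) * t) (hs : l * s = (1 - q) * μ) (ht : 2 * t ≤ η * l)
    (hj : (1 - η) * q * l ≤ (1 - q) * nj) (hi : (1 - q) * ni ≤ (1 + η) * q * l)
    (hS : (1 - q) * S ≤ (1 + 5 * η) * l)
    (ri : |(l + ni) * Pi - ni * S| ≤ e) (rj : |(l + nj) * Pj - nj * S| ≤ e)
    (rm : |l * μ - t * (S - Pj)| ≤ e) :
    -(2 * (1 - q + 10 * η) * l * (t * (ni - nj + t))) - 16 * t * e ≤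
      l * (-2 * μ * (Pi - Pj) - 2 * μ ^ 2 +
        (2 * s * μ * ((ni + t) + (nj - t)) - 2 * s ^ 2 * ((ni + t) * (nj - t)) -
          l * s ^ 2 * ((ni + t) + (nj - t))) +
        2 * s * (2 * (l * μ - t * (S - Pj)) + t * (Pi - Pj)) +
        2 * s * (((l + ni) * Pi - ni * S) - ((l + nj) * Pj - nj * S))) := by
  have e0 : 0 ≤ e := (abs_nonneg _).trans ri
  have hq : 0 ≤ 1 - q := by linarith
  obtain ⟨d1, d2⟩ := ABc_diff l0 h0 h1 q0 q3 hj0 hle hS0 hj hS ri rj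
  have n1 := mul_le_mul_of_nonneg_left hle hq
  have f := ABc_first (a := ni + t) (b := nj - t) l0 h0 h1 q0 q3 m0 hs (by linarith) (by linarith)
  generalize 2 * s * μ * ((ni + t) + (nj - t)) - 2 * s ^ 2 * ((ni + t) * (nj - t)) -
    l * s ^ 2 * ((ni + t) + (nj - t)) = F at f
  obtain ⟨ri1, -⟩ := abs_le.1 ri
  obtain ⟨-, rj2⟩ := abs_le.1 rj
  obtain ⟨rm1, -⟩ := abs_le.1 rm
  generalize (l + ni) * Pi - ni * S = A at *
  generalize (l + nj) * Pj - nj * S = B at *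
  generalize l * μ - t * (S - Pj) = C at *
  generalize Pi - Pj = D at *
  have δ0 : 0 ≤ ni - nj := by linarith
  generalize ni - nj = δ at *
  have m2 : μ ≤ 101 / 100 * t := by nlinarith
  have te : 0 ≤ t * e := mul_nonneg t0 e0
  have me : μ * e ≤ 101 / 100 * (t * e) := by linarith [mul_le_mul_of_nonneg_right m2 e0]
  have σ0 : 0 ≤ (1 - q) * μ := mul_nonneg hq m0
  have σ1 : (1 - q) * μ * e ≤ μ * e :=
    mul_le_mul_of_nonneg_right (by linarith [mul_nonneg q0.le m0]) e0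
  -- first term
  have a1 : μ * (l * D) ≤ (1 - q + 10 * η) * l * (t * δ) + 2 * (μ * e) := by
    have b1 := mul_le_mul_of_nonneg_left d2 m0
    have b2 : μ * (1 - q + 6 * η) ≤ t * (1 - q + 10 * η) := by
      have c1 := mul_le_mul_of_nonneg_right m1 (show 0 ≤ 1 - q + 6 * η by linarith)
      have c2 : (1 + η) * (1 - q + 6 * η) ≤ 1 - q + 10 * η := by nlinarith [mul_pos h0 q0]
      linarith [mul_le_mul_of_nonneg_left c2 t0]
    linarith [mul_le_mul_of_nonneg_right b2 (mul_nonneg l0.le δ0)]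
  -- second and third terms
  have a2 := ABc_second h0 h1 q0 q3 m0 m1 f
  have a3 := mul_le_mul_of_nonneg_left a2 l0.le
  -- the error terms
  have a4 : -e ≤ t * D := by
    refine le_of_mul_le_mul_left ?_ l0
    have b1 := mul_le_mul_of_nonneg_left d1 t0
    have b2 := mul_le_mul_of_nonneg_right ht e0
    have b3 := mul_le_mul_of_nonneg_right (show η ≤ 1 by linarith) (mul_nonneg l0.le e0)
    linarith
  have a5 := mul_le_mul_of_nonneg_left (show -(5 * e) ≤ 2 * C + t * D + (A - B) by linarith) σ0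
  have e1 : l * (-2 * μ * D - 2 * μ ^ 2 + F + 2 * s * (2 * C + t * D) + 2 * s * (A - B)) =
      -2 * (μ * (l * D)) + l * (-2 * μ ^ 2 + F) +
        2 * ((1 - q) * μ * (2 * C + t * D + (A - B))) := by
    rw [← hs]
    ring
  rw [e1]
  linarith

lemma ABc_aff (x : V → ℝ) (α β : ℝ) (c : V → ℕ) (k : ℕ) :
    Pc (fun v => α * x v + β) c k = α * Pc x c k + cn c k * β := by
  rw [← Pc_const, Pc, Pc, Pc, mul_sum, ← sum_add_distrib]
  refine sum_congr rfl fun v _ => ?_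
  split_ifs <;> simp

lemma ABc_congr {f g : V → ℝ} {k : ℕ} (h : ∀ v, c v = k → f v = g v) : Pc f c k = Pc g c k :=
  le_antisymm (Pc_mono fun v hv => (h v hv).le) (Pc_mono fun v hv => (h v hv).ge)

/-- base change -/
theorem base_change {G : SimpleGraph V} {x : V → ℝ} (hx : Eig G x) (hc : ∀ v, c v ≤ r)
    (hp : Proper G c) (hr : 3 ≤ r) {i j : ℕ} (hi : i ∈ Icc 1 r) (hj : j ∈ Icc 1 r) (hij : i ≠ j)
    (hle : cn c j ≤ cn c i) {M : Finset V} (hM : ∀ v ∈ M, c v = j) {η e : ℝ} (h0 : 0 < η)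
    (h1 : 100 * η ≤ 1) (l0 : 0 < lam G) (hxM : ∀ v ∈ M, |x v - 1| ≤ η)
    (hxT : ∀ v, c v ≠ 0 → 1 / 2 ≤ x v)
    (hs : ∀ l ∈ Icc 1 r, |((r : ℝ) - 1) * cn c l - lam G| ≤ η * lam G)
    (ht : ((r : ℝ) - 1) * M.card ≤ η * lam G)
    (hS : ((r : ℝ) - 1) * ∑ l ∈ Icc 1 r, Pc x c l ≤ (1 + 5 * η) * r * lam G)
    (he : ∑ v, op (Hm G c) x v + ∑ u ∈ Vp c 0, x u * dT G c u ≤ e) :
    ∃ y : V → ℝ, (∀ v, 0 ≤ y v) ∧ (∀ v, c v = 0 → y v = 0) ∧
      (∀ v, c v ≠ 0 → lam G * |y v - x v| ≤ 2 * M.card) ∧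
      lam G * Ph (Kc c) (lam G) (rT c x) - 2 * (1 - 1 / r + 10 * η) * lam G *
        (M.card * (cn c i - cn c j + M.card)) - 16 * M.card * e ≤
        lam G * Ph (Kc (mv c M i)) (lam G) y := by
  have hr' : (3 : ℝ) ≤ r := by exact_mod_cast hr
  have q3 : 1 / (r : ℝ) ≤ 1 / 3 := one_div_le_one_div_of_le (by norm_num) hr'
  have q0 : 0 < 1 / (r : ℝ) := by positivity
  have q1 : (r : ℝ) * (1 / r) = 1 := mul_one_div_cancel (by positivity)
  generalize 1 / (r : ℝ) = q at *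
  have qq : ((r : ℝ) - 1) * q = 1 - q := by linarith
  have i0 : i ≠ 0 := by have := (mem_Icc.1 hi).1; omega
  have j0 : j ≠ 0 := by have := (mem_Icc.1 hj).1; omega
  have ri := part_sum hx hc hp hi he
  have rj := part_sum hx hc hp hj he
  have rm := ABc_part hx hc hp hj he hM
  have t0 : (0 : ℝ) ≤ M.card := Nat.cast_nonneg _
  have m0 : 0 ≤ ∑ v ∈ M, x v := sum_nonneg fun v _ => hx.nonneg v
  have m1 : ∑ v ∈ M, x v ≤ (1 + η) * M.card := by
    rw [mul_comm, ← nsmul_eq_mul]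
    exact sum_le_card_nsmul _ _ _ fun v hv => by linarith [(abs_le.1 (hxM v hv)).2]
  have ht' : 2 * (M.card : ℝ) ≤ η * lam G :=
    le_trans (mul_le_mul_of_nonneg_right (by linarith) t0) ht
  obtain ⟨s, hs'⟩ : ∃ s, lam G * s = (1 - q) * ∑ v ∈ M, x v :=
    ⟨(1 - q) * (∑ v ∈ M, x v) / lam G, by field_simp⟩
  have σ0 : 0 ≤ lam G * s := hs' ▸ mul_nonneg (by linarith) m0
  have s0 : 0 ≤ s := (mul_nonneg_iff_of_pos_left l0).1 σ0
  have σ1 : lam G * s ≤ 2 * M.card := by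
    rw [hs']
    nlinarith [mul_nonneg q0.le m0]
  have s1 : s ≤ 1 / 2 := by
    refine le_of_mul_le_mul_left ?_ l0
    nlinarith
  have key := ABc_real l0 h0 h1 q0 q3 (Nat.cast_nonneg _) (Nat.cast_le.2 hle)
    (sum_nonneg fun l _ => Pc_nonneg hx.nonneg c l) t0 m0 m1 hs' ht'
    (by
      have := mul_le_mul_of_nonneg_right (abs_le.1 (hs j hj)).1 q0.le
      rw [← qq]
      linarith)
    (by
      have := mul_le_mul_of_nonneg_right (abs_le.1 (hs i hi)).2 q0.le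
      rw [← qq]
      linarith)
    (by
      have := mul_le_mul_of_nonneg_right hS q0.le
      have e1 : (1 + 5 * η) * r * lam G * q = (1 + 5 * η) * lam G * (r * q) := by ring
      rw [e1, q1] at this
      rw [← qq]
      linarith) ri rj rm
  have z0 : ∀ v, mv c M i v = 0 ↔ c v = 0 := fun v => by
    unfold mv
    split_ifs with h
    · simp [i0, hM v h, j0]
    · rfl
  obtain ⟨y, hy⟩ : ∃ y : V → ℝ, ∀ v, y v = rT c x v - (if mv c M i v = i then s else 0) +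
    if mv c M i v = j then s else 0 := ⟨_, fun _ => rfl⟩
  have y0 : ∀ v, c v = 0 → y v = 0 := fun v h => by
    rw [hy, rT, if_pos h, (z0 v).2 h, if_neg i0.symm, if_neg j0.symm]
    ring
  have rx : ∀ v, mv c M i v ≠ 0 → rT c x v = x v := fun v h => if_neg fun a => h ((z0 v).2 a)
  have yi : ∀ v, mv c M i v = i → y v = 1 * x v + -s := fun v h => by
    rw [hy, rx v (h.trans_ne i0), h, if_pos rfl, if_neg hij]
    ring
  have yj : ∀ v, mv c M i v = j → y v = 1 * x v + s := fun v h => by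
    rw [hy, rx v (h.trans_ne j0), h, if_pos rfl, if_neg hij.symm]
    ring
  have yl : ∀ v, mv c M i v ≠ i → mv c M i v ≠ j → y v = rT c x v := fun v a b => by
    rw [hy, if_neg a, if_neg b]
    ring
  have yc : ∀ v, c v ≠ 0 → |y v - x v| ≤ s ∧ x v - s ≤ y v := fun v h => by
    by_cases a : mv c M i v = i
    · rw [yi v a, abs_le]
      refine ⟨⟨?_, ?_⟩, ?_⟩ <;> linarith
    by_cases b : mv c M i v = j
    · rw [yj v b, abs_le]
      refine ⟨⟨?_, ?_⟩, ?_⟩ <;> linarith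
    · rw [yl v a b, rT, if_neg h, abs_le]
      refine ⟨⟨?_, ?_⟩, ?_⟩ <;> linarith
  refine ⟨y, fun v => ?_, y0, fun v h => ?_, ?_⟩
  · by_cases h : c v = 0
    · rw [y0 v h]
    · linarith [(yc v h).2, hxT v h]
  · exact (mul_le_mul_of_nonneg_left (yc v h).1 l0.le).trans σ1
  obtain ⟨p1, p2, p3⟩ := ABc_Pc hij hM x
  obtain ⟨n1, n2, -⟩ := ABc_cn hij hM
  have u0 : ∀ l ∈ Icc 1 r, Pc (rT c x) c l = Pc x c l := fun l hl =>
    ABc_congr fun v hv => if_neg (by have := (mem_Icc.1 hl).1; omega)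
  have u1 : Pc y (mv c M i) i = Pc x c i + ∑ v ∈ M, x v - (cn c i + M.card) * s := by
    rw [ABc_congr yi, ABc_aff, p1, n1]
    ring
  have u2 : Pc y (mv c M i) j = Pc x c j - ∑ v ∈ M, x v + (cn c j - M.card) * s := by
    rw [ABc_congr yj, ABc_aff, p2, n2]
    ring
  have u3 : ∀ l ∈ Icc 1 r, l ≠ i → l ≠ j → Pc y (mv c M i) l = Pc x c l := fun l hl a b => by
    rw [← p3 l a b]
    refine ABc_congr fun v hv => ?_
    rw [yl v (hv.trans_ne a) (hv.trans_ne b), rx v (by have := (mem_Icc.1 hl).1; omega)]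
  have u4 : ∑ v, y v ^ 2 = ∑ v, rT c x v ^ 2 + Pc (fun v => -(2 * s) * x v + s ^ 2) (mv c M i) i +
      Pc (fun v => 2 * s * x v + s ^ 2) (mv c M i) j := by
    rw [Pc, Pc, ← sum_add_distrib, ← sum_add_distrib]
    refine sum_congr rfl fun v _ => ?_
    by_cases a : mv c M i v = i
    · rw [yi v a, rx v (a.trans_ne i0), if_pos a, if_neg (a.trans_ne hij)]
      ring
    by_cases b : mv c M i v = j
    · rw [yj v b, rx v (b.trans_ne j0), if_neg a, if_pos b]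
      ring
    · rw [yl v a b, if_neg a, if_neg b]
      ring
  rw [ABc_aff, ABc_aff, p1, p2, n1, n2] at u4
  have v1 : ∑ l ∈ Icc 1 r, Pc (rT c x) c l = ∑ l ∈ Icc 1 r, Pc x c l := sum_congr rfl u0
  have v2 : ∑ l ∈ Icc 1 r, Pc (rT c x) c l ^ 2 = ∑ l ∈ Icc 1 r, Pc x c l ^ 2 :=
    sum_congr rfl fun l hl => by rw [u0 l hl]
  have v3 := ABc_two hi hj hij u3
  have v4 := ABc_two hi hj hij (F := fun l => Pc x c l ^ 2) (F' := fun l => Pc y (mv c M i) l ^ 2)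
    fun l hl a b => by simp only [u3 l hl a b]
  rw [Ph, Ph, qf_Kc _ hc, qf_Kc _ (ABc_le hc M hi), u4, v1, v2, v3, v4, u1, u2]
  linarith

end Pool.Agent.P.MP_094db5_co
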