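import Pool.Agent.P.MP_094db5_co.ACore

/-! Real inequalities. -/

set_option autoImplicit false

open Finset Classical

noncomputable section

namespace Pool.Agent.P.MP_094db5_co

theorem ANz_K {L : ℤ} {a b ε κ ξ δ s t : ℝ} (h0 : 0 < ξ) (h1 : 100 * ξ ≤ 1) (ha : 0 ≤ a)
    (hb : 0 ≤ b) (hε : 0 ≤ ε) (hκ : 0 ≤ κ) (hδ : δ ≤ ξ ^ 2 / 10) (hs : s ≤ a / 2) (ht : t ≤ b / 2)
    (h : ∀ q : ℤ, 0 ≤ L - a + b + ε - κ - q → L - a + b + ε - κ - q ≤ 1 →
      q + (L - a + b + ε - κ - q) ^ 2 + 2 * κ * (1 - 2 * ξ) ≤ L - 2 * a + s + t + δ) :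
    ((b + ε) ^ 2 - t) + ((a + κ) ^ 2 - s - 4 * ξ * κ) + 4 / 5 * min (b + ε) (a + κ) ≤ δ := by
  have hκξ : ξ * κ ≤ 1 / 100 * κ := mul_le_mul_of_nonneg_right (by linarith) hκ
  have hξ2 : ξ ^ 2 ≤ 1 / 100 * ξ := by nlinarith
  have h2 : (b + ε) + (a + κ) ≤ 51 / 100 := by
    have h3 := Int.floor_le ((L : ℝ) - a + b + ε - κ)
    have h4 := Int.lt_floor_add_one ((L : ℝ) - a + b + ε - κ)
    have h5 := h _ (sub_nonneg.2 h3) (by linarith)
    have h6 := sq_nonneg ((L : ℝ) - a + b + ε - κ - ⌊(L : ℝ) - a + b + ε - κ⌋ - 1 / 2)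
    nlinarith
  rcases le_total (a + κ) (b + ε) with h3 | h3
  · rw [min_eq_right h3]
    have h5 := h L (by linarith) (by linarith)
    have h6 : (a + κ) * (b + ε) ≤ (a + κ) * (51 / 100) :=
      mul_le_mul_of_nonneg_left (by linarith) (by linarith)
    nlinarith
  · rw [min_eq_left h3]
    have h5 := h (L - 1) (by push_cast; linarith) (by push_cast; linarith)
    push_cast at h5
    have h6 : (b + ε) * (a + κ) ≤ (b + ε) * (51 / 100) :=
      mul_le_mul_of_nonneg_left (by linarith) (by linarith)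
    nlinarith

theorem ANz_one {β p X κ ξ δ : ℝ} (h0 : 0 < ξ) (h1 : 100 * ξ ≤ 1) (hδ : δ ≤ ξ ^ 2 / 10)
    (hκ : 0 ≤ κ) (e4 : 17 / 20 * ξ ≤ β) (hp : 0 ≤ X) (hm : 0 ≤ min p (β + κ))
    (K : X + ((β + κ) ^ 2 - β ^ 2 - 4 * ξ * κ) + 4 / 5 * min p (β + κ) ≤ δ) : p + κ ≤ 5 * ξ := by
  have e5 := mul_le_mul_of_nonneg_right e4 hκ
  have hξ2 : ξ * (100 * ξ) ≤ ξ * 1 := mul_le_mul_of_nonneg_left h1 h0.le
  have e8 : κ ≤ 47 / 20 * ξ := by
    by_contra hc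
    have hc' := (not_le.1 hc).le
    have a1 := mul_le_mul_of_nonneg_left hc' hκ
    have a2 := mul_le_mul_of_nonneg_left hc' h0.le
    have a3 := mul_pos h0 h0
    linarith
  have a4 := sq_nonneg (κ - 23 / 20 * ξ)
  rcases le_total p (β + κ) with h3 | h3
  · rw [min_eq_left h3] at K
    linarith
  · rw [min_eq_right h3] at K
    linarith

/-- all but one of the numbers are small -/
theorem convex_one {α : Type} {W : Finset α} (hW : W.Nonempty) {θ : α → ℝ} {ξ ε κ δ : ℝ}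
    (h0 : 0 < ξ) (h1 : 100 * ξ ≤ 1) (hθ : ∀ u ∈ W, 0 ≤ θ u ∧ θ u ≤ 1 - 17 / 20 * ξ) (hε : 0 ≤ ε)
    (hκ : 0 ≤ κ) (hδ : δ ≤ ξ ^ 2 / 10)
    (h : ∀ q : ℤ, 0 ≤ ∑ u ∈ W, θ u + ε - κ - q → ∑ u ∈ W, θ u + ε - κ - q ≤ 1 →
      q + (∑ u ∈ W, θ u + ε - κ - q) ^ 2 + 2 * κ * (1 - 2 * ξ) ≤ ∑ u ∈ W, θ u ^ 2 + δ) :
    ∃ z ∈ W, ∑ u ∈ W.erase z, θ u + ε + κ ≤ 5 * ξ := by
  obtain ⟨A, hA⟩ : ∃ A, A = W.filter (fun u => 1 / 2 ≤ θ u) := ⟨_, rfl⟩
  obtain ⟨B, hB⟩ : ∃ B, B = W.filter (fun u => ¬ 1 / 2 ≤ θ u) := ⟨_, rfl⟩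
  have mA : ∀ u ∈ A, u ∈ W ∧ 1 / 2 ≤ θ u := fun u hu => mem_filter.1 (hA ▸ hu)
  have mB : ∀ u ∈ B, u ∈ W ∧ ¬ 1 / 2 ≤ θ u := fun u hu => mem_filter.1 (hB ▸ hu)
  have sp : ∀ f : α → ℝ, ∑ u ∈ W, f u = ∑ u ∈ A, f u + ∑ u ∈ B, f u := fun f => by
    rw [hA, hB, sum_filter_add_sum_filter_not]
  have e1 : ∑ u ∈ W, θ u = ((A.card : ℤ) : ℝ) - ∑ u ∈ A, (1 - θ u) + ∑ u ∈ B, θ u := by
    rw [sp, sum_sub_distrib]; simp
  have e2 : ∑ u ∈ W, θ u ^ 2 = ((A.card : ℤ) : ℝ) - 2 * ∑ u ∈ A, (1 - θ u)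
      + ∑ u ∈ A, (1 - θ u) ^ 2 + ∑ u ∈ B, θ u ^ 2 := by
    rw [sp]
    congr 1
    have : ((A.card : ℤ) : ℝ) = ∑ u ∈ A, (1 : ℝ) := by simp
    rw [this, mul_sum, ← sum_sub_distrib, ← sum_add_distrib]
    exact sum_congr rfl (fun u _ => by ring)
  have hβ : ∀ u ∈ A, 17 / 20 * ξ ≤ 1 - θ u := fun u hu => by linarith [(hθ u (mA u hu).1).2]
  have ha : 0 ≤ ∑ u ∈ A, (1 - θ u) := sum_nonneg (fun u hu => by linarith [hβ u hu])
  have hb : 0 ≤ ∑ u ∈ B, θ u := sum_nonneg (fun u hu => (hθ u (mB u hu).1).1)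
  have hs : ∑ u ∈ A, (1 - θ u) ^ 2 ≤ (∑ u ∈ A, (1 - θ u)) / 2 := by
    rw [sum_div]
    refine sum_le_sum (fun u hu => ?_)
    have := hβ u hu
    have := (mA u hu).2
    nlinarith
  have ht : ∑ u ∈ B, θ u ^ 2 ≤ (∑ u ∈ B, θ u) / 2 := by
    rw [sum_div]
    refine sum_le_sum (fun u hu => ?_)
    have := (hθ u (mB u hu).1).1
    have := not_le.1 (mB u hu).2
    nlinarith
  have ht2 : ∑ u ∈ B, θ u ^ 2 ≤ (∑ u ∈ B, θ u) ^ 2 :=
    sum_sq_le_sq_sum_of_nonneg (fun u hu => (hθ u (mB u hu).1).1)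
  rw [e1, e2] at h
  have K := ANz_K h0 h1 ha hb hε hκ hδ hs ht h
  have hξ2 : ξ ^ 2 ≤ 1 / 100 * ξ := by nlinarith
  have hm : 0 ≤ min (∑ u ∈ B, θ u + ε) (∑ u ∈ A, (1 - θ u) + κ) :=
    le_min (by linarith) (by linarith)
  have hp : 0 ≤ (∑ u ∈ B, θ u + ε) ^ 2 - ∑ u ∈ B, θ u ^ 2 := by nlinarith
  rcases A.eq_empty_or_nonempty with hA0 | ⟨z, hz⟩
  · obtain ⟨z, hz, hmax⟩ := exists_max_image W θ hW
    refine ⟨z, hz, ?_⟩
    have e3 : ∑ u ∈ B, θ u = ∑ u ∈ W.erase z, θ u + θ z := by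
      rw [sum_erase_add _ _ hz, sp, hA0, sum_empty, zero_add]
    have e4 : ∑ u ∈ B, θ u ^ 2 ≤ θ z * ∑ u ∈ B, θ u := by
      rw [mul_sum]
      refine sum_le_sum (fun u hu => ?_)
      have := (hθ u (mB u hu).1).1
      have := hmax u (mB u hu).1
      nlinarith
    have e5 : 0 ≤ ∑ u ∈ W.erase z, θ u :=
      sum_nonneg (fun u hu => (hθ u (mem_of_mem_erase hu)).1)
    have e6 := (hθ z hz).1
    simp only [hA0, sum_empty, zero_add, sub_zero] at K hm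
    rw [e3] at K e4 hm
    generalize ∑ u ∈ W.erase z, θ u = R at K e4 e5 hm ⊢
    generalize ∑ u ∈ B, θ u ^ 2 = t at K e4
    have e7 : (R + ε) ^ 2 ≤ (R + θ z + ε) ^ 2 - t := by
      nlinarith [mul_nonneg e6 e5, mul_nonneg e6 hε]
    have e8 : κ ≤ 403 / 100 * ξ := by
      by_contra hc
      have hc' := not_le.1 hc
      nlinarith [sq_nonneg (R + ε)]
    rcases le_total (R + θ z + ε) κ with h3 | h3
    · rw [min_eq_left h3] at K
      nlinarith [sq_nonneg (R + ε), sq_nonneg (κ - 2 * ξ)]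
    · rw [min_eq_right h3] at K
      have e9 : ξ * κ ≤ 1 / 100 * κ := mul_le_mul_of_nonneg_right (by linarith) hκ
      have e10 : (R + ε) ^ 2 ≤ (1 / 2 * ξ) ^ 2 := by nlinarith [sq_nonneg κ]
      have := (abs_le_of_sq_le_sq' e10 (by linarith)).2
      linarith
  · rcases (A.erase z).eq_empty_or_nonempty with hA1 | ⟨z', hz'⟩
    · refine ⟨z, (mA z hz).1, ?_⟩
      have eA : ∀ f : α → ℝ, ∑ u ∈ A, f u = f z := fun f => by
        rw [← sum_erase_add _ _ hz, hA1, sum_empty, zero_add]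
      have e3 : ∑ u ∈ W.erase z, θ u = ∑ u ∈ B, θ u := by
        have := sum_erase_add W θ (mA z hz).1
        rw [sp θ, eA] at this
        linarith
      rw [e3]
      rw [eA, eA] at K
      rw [eA] at hm
      exact ANz_one h0 h1 hδ hκ (hβ z hz) hp hm K
    · exfalso
      have e3 : ∀ u ∈ A, 17 / 20 * ξ ≤ ∑ v ∈ A, (1 - θ v) - (1 - θ u) := by
        intro u hu
        obtain ⟨v, hv⟩ : ∃ v, v ∈ A.erase u := by
          by_cases h2 : u = z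
          · exact ⟨z', h2 ▸ hz'⟩
          · exact ⟨z, mem_erase.2 ⟨Ne.symm h2, hz⟩⟩
        have h2 := sum_erase_add A (fun v => 1 - θ v) hu
        have h3 := single_le_sum (f := fun v => 1 - θ v) (s := A.erase u)
          (fun w hw => by linarith [hβ w (mem_of_mem_erase hw)]) hv
        have h4 := hβ v (mem_of_mem_erase hv)
        linarith
      have e4 : ∑ u ∈ A, (1 - θ u) ^ 2
          ≤ (∑ v ∈ A, (1 - θ v) - 17 / 20 * ξ) * ∑ u ∈ A, (1 - θ u) := by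
        rw [mul_sum]
        refine sum_le_sum (fun u hu => ?_)
        have h2 := e3 u hu
        have h3 := hβ u hu
        rw [sq]
        exact mul_le_mul_of_nonneg_right (by linarith) (by linarith)
      have e5 : 17 / 10 * ξ ≤ ∑ v ∈ A, (1 - θ v) := by linarith [e3 z hz, hβ z hz]
      generalize ∑ v ∈ A, (1 - θ v) = a at K e4 e5 hm
      have e6 := mul_le_mul_of_nonneg_right e5 hκ
      have e7 := mul_le_mul_of_nonneg_right e5 h0.le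
      nlinarith [sq_nonneg (κ - 3 / 10 * ξ), sq_pos_of_pos h0]

/-- the exceptional number is not large -/
theorem not_large {r θ τ κ P ξ η δ : ℝ} (hr : 3 ≤ r) (h0 : 0 < ξ) (h1 : 100 * r * ξ ≤ 1)
    (h2 : 2 * r ^ 2 * η ≤ 1) (h3 : 10 * r ^ 2 * δ ≤ ξ) (hθ : θ ≤ 1 - 17 / 20 * ξ)
    (hθ' : (1 - 1 / r) ^ 2 - η ≤ θ) (hτ : 0 ≤ τ) (hτ' : τ ≤ 5 * ξ) (hκ : 0 ≤ κ)
    (hP : P ≤ θ ^ 2 + 5 * ξ * τ)
    (ha : θ + τ - κ ≤ 1 → 1 + 2 * κ * (1 - 2 * ξ) - 2 * (1 - 1 / r) * (1 - (θ + τ - κ)) ≤ P + δ)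
    (hb : 1 < θ + τ - κ → 1 ≤ P + δ) : False := by
  have hr0 : 0 < r := by linarith
  have s0 : 0 < 1 / r := by positivity
  have s1 : 1 / r ≤ 1 / 3 := one_div_le_one_div_of_le (by norm_num) hr
  have s2 : 100 * ξ ≤ 1 / r := by rw [le_div_iff₀ hr0]; linarith
  have s3 : 2 * η ≤ (1 / r) ^ 2 := by rw [div_pow, one_pow, le_div_iff₀ (by positivity)]; linarith
  have s4 : 10 * δ ≤ ξ * (1 / r) ^ 2 := by
    rw [div_pow, one_pow, mul_one_div, le_div_iff₀ (by positivity)]; linarith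
  generalize 1 / r = s at *
  have s5 : s ^ 2 ≤ 1 / 9 := by nlinarith
  have s6 := mul_le_mul_of_nonneg_left s5 h0.le
  rcases le_or_gt (θ + τ - κ) 1 with h | h
  · have h4 := ha h
    have h5 : 0 ≤ κ * (s - 2 * ξ) := mul_nonneg hκ (by linarith)
    have h6 : 0 ≤ τ * (2 * (1 - s) - 5 * ξ) := mul_nonneg hτ (by linarith)
    have h7 : (17 / 20 * ξ) * (s ^ 2 / 2) ≤ (1 - θ) * (1 + θ - 2 * (1 - s)) :=
      mul_le_mul (by linarith) (by nlinarith) (by positivity) (by linarith)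
    have h8 : 0 < ξ * s ^ 2 := by positivity
    nlinarith
  · have h4 := hb h
    have h5 : θ ^ 2 ≤ (1 - 17 / 20 * ξ) ^ 2 := pow_le_pow_left₀ (by nlinarith) hθ 2
    have h6 := mul_le_mul_of_nonneg_left hτ' h0.le
    have h7 : ξ * ξ ≤ ξ * (1 / 300) := mul_le_mul_of_nonneg_left (by linarith) h0.le
    nlinarith

theorem ANz_small {C η : ℝ} (hC : 3 ≤ C) (h0 : 0 < η) (h1 : 10 ^ 4 * C ^ 4 * η ≤ 1) :
    C ^ 3 * η ≤ 1 / 30000 ∧ C ^ 2 * η ≤ 1 / 90000 ∧ C * η ≤ 1 / 270000 ∧ η ≤ 1 / 810000 := by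
  have a3 : 3 * (C ^ 3 * η) ≤ C * (C ^ 3 * η) := mul_le_mul_of_nonneg_right hC (by positivity)
  have a2 : 3 * (C ^ 2 * η) ≤ C * (C ^ 2 * η) := mul_le_mul_of_nonneg_right hC (by positivity)
  have a1 : 3 * (C * η) ≤ C * (C * η) := mul_le_mul_of_nonneg_right hC (by positivity)
  have a0 : 3 * η ≤ C * η := mul_le_mul_of_nonneg_right hC (by positivity)
  refine ⟨?_, ?_, ?_, ?_⟩ <;> nlinarith

/-- the gain -/
theorem ANz_gain {l η r C α κ : ℝ} (hr : 3 ≤ r) (hC : r ≤ C) (h0 : 0 < η)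
    (h1 : 10 ^ 4 * C ^ 4 * η ≤ 1) (hl : 0 ≤ l) (hα1 : α ≤ (1 - 1 / r) * l) (hκ : 0 ≤ κ) :
    κ * (l / C) ≤ 2 * κ * (1 - η) ^ 2 * l - 2 * α * (κ * (1 + 5 * (C * η))) := by
  obtain ⟨c3, c2, c1, c0⟩ := ANz_small (hr.trans hC) h0 h1
  have hC0 : 0 < C := by linarith
  have s1 : 1 / C ≤ 1 / r := one_div_le_one_div_of_le (by linarith) hC
  have s0 : 0 < 1 / C := by positivity
  have s2 : 100 * (C * η) ≤ 1 / C := by rw [le_div_iff₀ hC0]; nlinarith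
  have s3 : η ≤ C * η := le_mul_of_one_le_left h0.le (by linarith)
  have x0 : 0 ≤ C * η := by positivity
  have h2 : α * (κ * (1 + 5 * (C * η))) ≤ (1 - 1 / C) * l * (κ * (1 + 5 * (C * η))) :=
    mul_le_mul_of_nonneg_right (hα1.trans (mul_le_mul_of_nonneg_right (by linarith) hl))
      (by positivity)
  have h3 : 1 / C ≤ 2 * (1 - η) ^ 2 - 2 * (1 - 1 / C) * (1 + 5 * (C * η)) := by
    nlinarith [mul_nonneg s0.le x0, sq_nonneg η]
  have h4 := mul_le_mul_of_nonneg_left h3 (mul_nonneg hκ hl)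
  have h5 : κ * (l / C) = κ * l * (1 / C) := by ring
  rw [h5]
  nlinarith

theorem ANz_sq {α α' u : ℝ} (hα : 0 ≤ α) (hα' : 0 ≤ α') (h : α + u ≤ α') :
    α ^ 2 + 2 * α * u ≤ α' ^ 2 ∧ (0 ≤ u → α ^ 2 + 2 * α * u + u ^ 2 ≤ α' ^ 2) := by
  constructor
  · rcases le_total 0 (α + u) with h1 | h1
    · nlinarith [pow_le_pow_left₀ h1 h 2, sq_nonneg u]
    · nlinarith [mul_nonneg hα (neg_nonneg.2 h1), sq_nonneg α', sq_nonneg α]
  · intro hu
    nlinarith [pow_le_pow_left₀ (add_nonneg hα hu) h 2]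

/-- many extra edges -/
theorem ANz_large {η x α P F E j : ℝ} (h0 : 0 < η) (c0 : η ≤ 1 / 1000) (c1 : x ≤ 1 / 1000)
    (hα : 0 ≤ α) (hj : 0 ≤ j) (hE0 : 0 ≤ E) (hE : E ≤ 3 / 2 * j) (hF : F ≤ 3 / 2 * j)
    (hP2 : P ≤ (1 + η) * F * (α + η * E)) :
    P + 6 * η * E * (α + E) ≤ 2 * α * (j * (1 - 5 * x)) + 16 * η * j ^ 2 := by
  have h1 : (1 + η) * F * (α + η * E) ≤ (1 + η) * (3 / 2 * j) * (α + η * (3 / 2 * j)) := by
    refine le_trans (mul_le_mul_of_nonneg_right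
      (mul_le_mul_of_nonneg_left hF (by positivity)) (by positivity)) ?_
    gcongr
  have h2 : 6 * η * E * (α + E) ≤ 6 * η * (3 / 2 * j) * (α + 3 / 2 * j) := by gcongr
  have h3 : 0 ≤ α * j := mul_nonneg hα hj
  have h4 := mul_le_mul_of_nonneg_left c0 h3
  have h5 := mul_le_mul_of_nonneg_left c1 h3
  have h6 : 0 ≤ η * j ^ 2 := by positivity
  have h7 := mul_le_mul_of_nonneg_left c0 h6
  nlinarith

theorem ANz_zero {η C α P F E b j : ℝ} (hC : 3 ≤ C) (h0 : 0 < η) (h1 : 10 ^ 4 * C ^ 4 * η ≤ 1)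
    (hα : 0 ≤ α) (hj1 : 1 ≤ j) (hj : j ≤ 2 * C) (hE0 : 0 ≤ E) (hE : E ≤ 3 * C) (hF0 : 0 ≤ F)
    (hF : F ≤ b + j) (hb0 : 0 ≤ b) (hb : b ≤ C) (hP1 : P ≤ ((1 + η) * F) ^ 2)
    (hP2 : P ≤ (1 + η) * F * (α + η * E))
    (h : 2 * α * (j * (1 - 5 * (C * η))) + (j * (1 - 5 * (C * η))) ^ 2 + ((1 - η) * b) ^ 2
      ≤ P + 6 * η * E * (α + E)) : False := by
  obtain ⟨c3, c2, c1, c0⟩ := ANz_small hC h0 h1
  have hC0 : 0 < C := by linarith
  have x0 : 0 ≤ C * η := by positivity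
  have l1 : j ^ 2 - 1 / 100 ≤ (j * (1 - 5 * (C * η))) ^ 2 := by
    have : j ^ 2 * (C * η) ≤ (2 * C) ^ 2 * (C * η) := by gcongr
    linarith [sq_nonneg (j * (C * η))]
  have l2 : b ^ 2 - 1 / 100 ≤ ((1 - η) * b) ^ 2 := by
    have : b ^ 2 * η ≤ C ^ 2 * η := by gcongr
    linarith [sq_nonneg (b * η)]
  have l3 : 2 * α * j - 20 * (C ^ 2 * η) * α ≤ 2 * α * (j * (1 - 5 * (C * η))) := by
    have : α * (C * η) * j ≤ α * (C * η) * (2 * C) := by gcongr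
    linarith
  have l4 : 6 * η * E * (α + E) ≤ 6 * (C ^ 2 * η) * α + 1 / 100 := by
    have a1 : 6 * η * E * (α + E) ≤ 6 * η * (3 * C) * (α + 3 * C) := by gcongr
    have a2 : 3 * (C * η * α) ≤ C * (C * η * α) := mul_le_mul_of_nonneg_right hC (by positivity)
    linarith
  rcases le_total (b + 1 / 4) α with h2 | h2
  · have l5 : P ≤ (b + j) ^ 2 + 1 / 100 := by
      have a1 : ((1 + η) * F) ^ 2 ≤ ((1 + η) * (b + j)) ^ 2 := by gcongr
      have a2 : η * (b + j) ^ 2 ≤ η * (3 * C) ^ 2 := by gcongr; linarith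
      have a3 : η * (η * (b + j) ^ 2) ≤ 1 * (η * (b + j) ^ 2) := by gcongr; linarith
      linarith
    have a4 : (α - b) * 1 ≤ (α - b) * j := mul_le_mul_of_nonneg_left hj1 (by linarith)
    have a5 : (C ^ 2 * η) * (α - b) ≤ 1 / 90000 * (α - b) :=
      mul_le_mul_of_nonneg_right c2 (by linarith)
    have a6 : (C ^ 2 * η) * b ≤ (C ^ 2 * η) * C := by gcongr
    linarith
  · have hα2 : α ≤ 2 * C := by linarith
    have l5 : P ≤ (b + j) * α + 1 / 100 := by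
      have a1 : (1 + η) * F * (α + η * E) ≤ (1 + η) * (b + j) * (α + η * E) := by gcongr
      have a2 : η * (b + j) * α ≤ η * (3 * C) * (2 * C) := by gcongr; linarith
      have a3 : (1 + η) * (b + j) * (η * E) ≤ 2 * (3 * C) * (η * (3 * C)) := by
        gcongr <;> linarith
      linarith
    have a6 : (C ^ 2 * η) * α ≤ (C ^ 2 * η) * (2 * C) := by gcongr
    have a7 : 1 ≤ j ^ 2 + b ^ 2 + α * (j - b) := by
      rcases le_total b j with h3 | h3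
      · linarith [mul_nonneg hα (sub_nonneg.2 h3), sq_nonneg b,
          mul_le_mul_of_nonneg_left hj1 (by linarith : 0 ≤ j)]
      · linarith [mul_le_mul_of_nonneg_right h2 (sub_nonneg.2 h3),
          mul_le_mul_of_nonneg_left hj1 hb0, mul_le_mul_of_nonneg_left hj1 (by linarith : 0 ≤ j)]
    linarith

/-- comparison of two configurations with a large star -/
theorem big_real {l η r C α α' P F E b b' : ℝ} {j κ : ℕ} (hr : 3 ≤ r) (hC : r ≤ C) (h0 : 0 < η)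
    (h1 : 10 ^ 4 * C ^ 4 * η ≤ 1) (hl : 1 ≤ η * l) (hα : 0 ≤ α) (hα1 : α ≤ (1 - 1 / r) * l)
    (hjκ : 1 ≤ j + κ) (hj : j ≤ E) (hE : E ≤ η * l) (hκ : κ ≤ η * l) (hE' : E ≤ r + j)
    (hF0 : 0 ≤ F) (hF : F ≤ b' + j) (hb0 : 0 ≤ b) (hb : b ≤ b') (hb' : b' ≤ r)
    (hbb : κ = 0 → b' = b) (hP1 : P ≤ ((1 + η) * F) ^ 2) (hP2 : P ≤ (1 + η) * F * (α + η * E))
    (hα' : 0 ≤ α') (hadj : α + j - κ - 5 * C * η * (j + κ) ≤ α')
    (h : α' ^ 2 + ((1 - η) * b) ^ 2 + 2 * κ * (1 - η) ^ 2 * l ≤ α ^ 2 + P + 6 * η * E * (α + E)) :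
    False := by
  obtain ⟨c3, c2, c1, c0⟩ := ANz_small (hr.trans hC) h0 h1
  have hC3 : 3 ≤ C := hr.trans hC
  have hC0 : 0 < C := by linarith
  have hl0 : 0 < l := (mul_pos_iff_of_pos_left h0).1 (lt_of_lt_of_le one_pos hl)
  have hj0 : (0 : ℝ) ≤ j := Nat.cast_nonneg _
  have hκ0 : (0 : ℝ) ≤ κ := Nat.cast_nonneg _
  have hE0 : 0 ≤ E := hj0.trans hj
  have x0 : 0 ≤ C * η := by positivity
  have g := ANz_gain hr hC h0 h1 hl0.le hα1 hκ0
  obtain ⟨q1, q2⟩ := ANz_sq (u := j * (1 - 5 * (C * η)) - κ * (1 + 5 * (C * η))) hα hα'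
    (by linarith)
  have hb2 := sq_nonneg ((1 - η) * b)
  have g0 : 0 ≤ (κ : ℝ) * (l / C) := by positivity
  rcases le_total (2 * r) j with h2 | h2
  · have m := ANz_large (x := C * η) (j := j) h0 (by linarith) (by linarith) hα hj0 hE0
      (by linarith) (by linarith) hP2
    have hjp : (0 : ℝ) < j := by linarith
    rcases le_total (3 * (κ : ℝ)) j with h3 | h3
    · have a1 : (j : ℝ) * (C * η) ≤ j * (1 / 270000) := by gcongr
      have a2 : (κ : ℝ) * (C * η) ≤ κ * (1 / 270000) := by gcongr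
      have a3 : 1 / 2 * (j : ℝ) ≤ j * (1 - 5 * (C * η)) - κ * (1 + 5 * (C * η)) := by linarith
      have a4 := q2 (by linarith)
      have a5 := pow_le_pow_left₀ (by linarith) a3 2
      have a6 : η * (j : ℝ) ^ 2 ≤ 1 / 810000 * (j : ℝ) ^ 2 := by gcongr
      have a7 : 0 < (j : ℝ) ^ 2 := by positivity
      linarith
    · have a1 : η * ((j : ℝ) * j) ≤ η * ((3 * κ) * (η * l)) := by gcongr; linarith
      have a2 : η * η * C ≤ 1 / 100 := by nlinarith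
      have a3 : 0 < (κ : ℝ) * (l / C) := by
        have : (0 : ℝ) < κ := by linarith
        positivity
      have a4 := mul_le_mul_of_nonneg_left a2 a3.le
      have a5 : (κ : ℝ) * (l / C) * (η * η * C) = η * (κ * (η * l)) := by field_simp
      linarith
  · rcases Nat.eq_zero_or_pos κ with h3 | h3
    · have hj1 : (1 : ℝ) ≤ j := by exact_mod_cast (by omega : 1 ≤ j)
      have hb3 := hbb h3
      subst h3
      simp only [Nat.cast_zero, zero_mul, mul_zero, sub_zero, add_zero] at q2 h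
      have a4 := q2 (mul_nonneg hj0 (by linarith))
      exact ANz_zero hC3 h0 h1 hα hj1 (by linarith) hE0 (by linarith) hF0 (hb3 ▸ hF) hb0
        (by linarith) hP1 hP2 (by linarith)
    · have hκ1 : (1 : ℝ) ≤ κ := by exact_mod_cast h3
      have a1 : l / C ≤ κ * (l / C) := le_mul_of_one_le_left (by positivity) hκ1
      have a2 : 0 ≤ α * (j * (1 - 5 * (C * η))) := mul_nonneg hα (mul_nonneg hj0 (by linarith))
      have a3 : ((1 + η) * F) ^ 2 ≤ (2 * (3 * C)) ^ 2 := by gcongr <;> linarith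
      have a4 : α ≤ l := hα1.trans (mul_le_of_le_one_left hl0.le (by
        have : 0 < 1 / r := by
          have : 0 < r := by linarith
          positivity
        linarith))
      have a5 : 6 * η * E * (α + E) ≤ 6 * η * (3 * C) * (l + 3 * C) := by gcongr <;> linarith
      have a6 : l / C * (C ^ 2 * η) ≤ l / C * (1 / 90000) := by gcongr
      have a7 : l / C * (C ^ 2 * η) = η * C * l := by field_simp
      have a8 : 10 ^ 4 * C ^ 3 ≤ l / C := by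
        rw [le_div_iff₀ hC0]
        have b1 := mul_le_mul_of_nonneg_left hl (by positivity : 0 ≤ 10 ^ 4 * C ^ 4)
        have b2 := mul_le_mul_of_nonneg_right h1 hl0.le
        linarith
      have a9 : 3 * C ^ 2 ≤ C * C ^ 2 := mul_le_mul_of_nonneg_right hC3 (by positivity)
      have a10 : 9 ≤ C ^ 2 := by linarith [pow_le_pow_left₀ (by norm_num) hC3 2]
      linarith

end Pool.Agent.P.MP_094db5_co
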