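import Pool.Agent.P.MP_094db5_co.AQb
import Pool.Agent.P.MP_094db5_co.ANz

/-! Comparison lemmas on the same base. -/

set_option autoImplicit false

open Finset Classical

noncomputable section

namespace Pool.Agent.P.MP_094db5_co

variable {V : Type} [Fintype V] {r C : ℕ} {Fr : SimpleGraph V → Prop} {G : SimpleGraph V}
  {x : V → ℝ} {η : ℝ} {c : V → ℕ} {z : V}

lemma ABig_kreal {l η C E κ f k D : ℝ} (h0 : 0 < η) (hC : 3 ≤ C) (hs : 10 ^ 5 * C ^ 5 * η ≤ 1)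
    (hs' : 10 ^ 5 * 81 * C * η ≤ 1) (hl : 0 < l) (hκ : 1 ≤ κ) (hκk : κ ≤ k) (hk : k ≤ η * l)
    (hE0 : 0 ≤ E) (hE : E ≤ C * κ) (hf : f ≤ C)
    (hD : 2 * (κ + f) * (1 - η) ^ 2 - 2 * f * (1 + η) ^ 2 ≤ D) (h : l * D ≤ 20 * E ^ 2) :
    False := by
  have a1 : C * η ≤ 1 / 100 := by linarith [mul_pos (show 0 < C by linarith) h0]
  have a2 : η ≤ 1 / 100 := by linarith [mul_le_mul_of_nonneg_right hC h0.le]
  have a3 : f * η ≤ C * η := mul_le_mul_of_nonneg_right hf h0.le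
  have a4 : κ * η ≤ κ * (1 / 100) := mul_le_mul_of_nonneg_left a2 (by linarith)
  have a5 : 0 ≤ κ * η ^ 2 := by positivity
  have a6 : κ ≤ D := by linarith
  have b1 : E ≤ C * (η * l) := hE.trans (mul_le_mul_of_nonneg_left (hκk.trans hk) (by linarith))
  have b2 : E * E ≤ (C * κ) * (C * (η * l)) := mul_le_mul hE b1 hE0 (by positivity)
  have b3 : l * κ ≤ l * D := mul_le_mul_of_nonneg_left a6 hl.le
  have c1 : 27 ≤ C ^ 3 := by
    have := pow_le_pow_left₀ (by norm_num) hC 3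
    linarith
  have c2 : 27 * (C ^ 2 * η) ≤ C ^ 3 * (C ^ 2 * η) :=
    mul_le_mul_of_nonneg_right c1 (by positivity)
  have c3 : C ^ 2 * η ≤ 1 / 40 := by linarith
  have c4 : (l * κ) * (C ^ 2 * η) ≤ (l * κ) * (1 / 40) :=
    mul_le_mul_of_nonneg_left c3 (by positivity)
  have c5 : 0 < l * κ := by positivity
  linarith

lemma ABig_sreal {η C s b A B D : ℝ} (h0 : 0 < η) (hC : 3 ≤ C) (hs : 10 ^ 5 * C ^ 5 * η ≤ 1)
    (h1 : η ≤ 1) (hs0 : 0 ≤ s) (hb0 : 0 ≤ b) (hsb : s + b ≤ C) (hA : (1 - η) * s ≤ A)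
    (hB : (1 - η) * b ≤ B) (h : A ^ 2 + B ^ 2 ≤ D + 30 * C ^ 2 * η) : s ^ 2 + b ^ 2 < D + 1 := by
  have a0 : 0 ≤ 1 - η := by linarith
  have a1 := pow_le_pow_left₀ (mul_nonneg a0 hs0) hA 2
  have a2 := pow_le_pow_left₀ (mul_nonneg a0 hb0) hB 2
  have a3 := pow_le_pow_left₀ (add_nonneg hs0 hb0) hsb 2
  have a4 : s ^ 2 + b ^ 2 ≤ C ^ 2 := by linarith [mul_nonneg hs0 hb0]
  have a5 : (s ^ 2 + b ^ 2) * η ≤ C ^ 2 * η := mul_le_mul_of_nonneg_right a4 h0.le
  have a6 : 0 ≤ (s ^ 2 + b ^ 2) * η ^ 2 := by positivity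
  have c1 : 27 ≤ C ^ 3 := by
    have := pow_le_pow_left₀ (by norm_num) hC 3
    linarith
  have c2 : 27 * (C ^ 2 * η) ≤ C ^ 3 * (C ^ 2 * η) :=
    mul_le_mul_of_nonneg_right c1 (by positivity)
  linarith

lemma ABig_alpha {η r l d α : ℝ} (h0 : 0 < η) (hr : 3 ≤ r) (h1 : r * η ≤ 1) (hl : 0 < l)
    (hd : d ≤ (1 - 1 / r) ^ 2 * l) (hα : α ≤ (1 + η) * d) : α ≤ (1 - 1 / r) * l := by
  have r0 : 0 < r := by linarith
  have a1 : η ≤ 1 / r := by rw [le_div_iff₀ r0]; linarith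
  have a2 : 1 / r ≤ 1 / 3 := one_div_le_one_div_of_le (by norm_num) hr
  have a3 : 0 < 1 / r := by positivity
  have a4 : (1 + η) * (1 - 1 / r) ≤ 1 := by linarith [mul_pos h0 a3]
  have a5 : 0 ≤ (1 - 1 / r) * l := mul_nonneg (by linarith) hl.le
  have a6 := mul_le_mul_of_nonneg_right a4 a5
  have a7 := mul_le_mul_of_nonneg_left hd (show 0 ≤ 1 + η by linarith)
  linarith

namespace Ctx

variable (h : Ctx r C Fr G x η c z)
include h

lemma ABig_C3 : (3 : ℝ) ≤ C := by exact_mod_cast h.r3.trans h.rC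

lemma ABig_eta : η ≤ 1 := by
  linarith [h.η_small, mul_le_mul_of_nonneg_right h.ABig_C3 h.η0.le, h.η0]

lemma ABig_sum {S : Finset V} (hS : ∀ v ∈ S, c v ≠ 0) : (1 - η) * S.card ≤ ∑ v ∈ S, x v := by
  have := card_nsmul_le_sum S x (1 - η) fun v hv => by
    linarith [(abs_le.1 (h.st.typ v (hS v hv))).1]
  rwa [nsmul_eq_mul, mul_comm] at this

lemma ABig_low {H : SimpleGraph V} (hH : H ≤ Kc c) : 2 * ec H * (1 - η) ^ 2 ≤ qf H x :=
  qf_lower (by linarith [h.ABig_eta]) fun u _ huv => by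
    linarith [(abs_le.1 (h.st.typ u (hH huv).1)).1]

lemma ABig_up {H : SimpleGraph V} (hH : H ≤ Kc c) : qf H x ≤ 2 * ec H * (1 + η) ^ 2 :=
  qf_upper fun u _ huv => by
    rw [abs_of_nonneg (h.st.eig.nonneg u)]
    linarith [(abs_le.1 (h.st.typ u (hH huv).1)).2]

lemma ABig_a0 (u : V) : 0 ≤ aT G c x u := sum_nonneg fun v _ => h.st.eig.nonneg v

theorem big {H : SimpleGraph V} {o w : V} {U Y X : Finset V} {σ : ℕ} (hH : H ≤ Hm G c)
    (hU : ∀ v ∈ U, c v ≠ 0) (hY : Y ⊆ U) (h1 : Y.card ≤ σ) (h2 : σ ≤ U.card)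
    (ha : ∀ S, Y ⊆ S → S ⊆ U → S.card = σ → Adm r Fr c H o S w X)
    (he : σ + X.card + ec (Hm G c) = ec (Xe G c) + ec H)
    (hj : dT G c z + X.card ≤ ec (Xe G c)) (hX : X.card ≤ r)
    (hu : (nT G c z \ U).card + Y.card + C * ec H ≤ C * (1 + ec (Hm G c)))
    (hw : o ∈ X → ec H = ec (Hm G c) → ∃ u v, (Ww G c).Adj u v) :
    ec H = ec (Hm G c) ∧ ec (Xe G c) = dT G c z + X.card := by
  by_contra hcon
  obtain ⟨κ, hκ⟩ := Nat.exists_eq_add_of_le (ec_mono hH)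
  obtain ⟨j, hjj⟩ := Nat.exists_eq_add_of_le hj
  have hjκ : 1 ≤ j + κ := by omega
  have hC := h.ABig_C3
  have hη := h.η0
  have hη1 := h.ABig_eta
  have hr : (3 : ℝ) ≤ r := by exact_mod_cast h.r3
  have hrC : (r : ℝ) ≤ C := by exact_mod_cast h.rC
  obtain ⟨S, hYS, hSU, hSc, hadj⟩ := adjust (x := x) hη.le (S := nT G c z) hY h1 h2
    (fun v hv => h.st.typ v (mem_nT.1 hv).2) (fun v hv => h.st.typ v (hU v hv))
  have adm := ha S hYS hSU hSc
  have cm := h.cmp adm (by rw [hSc]; exact he)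
  have hXe : ∀ v ∈ X.erase o, c v ≠ 0 := fun v hv =>
    (adm.ok.hX v (mem_of_mem_erase hv)).resolve_right (ne_of_mem_erase hv)
  have sX := h.ABig_sum hXe
  have q1 := h.ABig_low (H := Hm G c \ H) (sdiff_le.trans (Hm_le G c))
  have e1 : ec (Hm G c \ H) = κ := by have := ec_sdiff hH; omega
  rw [qf_sdiff hH, e1] at q1
  have Q := h.Q_le
  have eE : (ec (Xe G c) : ℝ) - dT G c z = X.card + j := by
    rw [hjj]; push_cast; ring
  have eσ : (σ : ℝ) - (nT G c z).card = j - κ := by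
    have : σ + κ = dT G c z + j := by omega
    have e : (σ : ℝ) + κ = dT G c z + j := by exact_mod_cast this
    have e' : ((nT G c z).card : ℝ) = dT G c z := rfl
    rw [e']; linarith
  have hz : z ∈ Vp c 0 := mem_Vp.2 h.st.z0
  have eF : ∑ u ∈ (Vp c 0).erase z, dT G c u + ec (Ww G c) = X.card + j := by
    have a := ec_Xe G c
    rw [← add_sum_erase _ _ hz] at a
    omega
  have hbX : (X.erase o).card ≤ X.card := card_erase_le
  have hF : ∑ u ∈ (Vp c 0).erase z, dT G c u ≤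
      (if κ = 0 then (X.erase o).card else X.card) + j := by
    split_ifs with hk
    · by_cases ho : o ∈ X
      · obtain ⟨u, v, huv⟩ := hw ho (by omega)
        have a1 : ec (Ww G c) ≠ 0 := fun e => by
          rw [ec_eq_zero] at e
          rw [e] at huv
          exact huv
        have a2 := card_erase_add_one ho
        omega
      · rw [erase_eq_of_notMem ho]; omega
    · omega
  have hu' : ((nT G c z \ U).card : ℝ) + Y.card ≤ C * (1 + κ) := by
    have : (nT G c z \ U).card + Y.card ≤ C * (1 + κ) := by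
      rw [hκ, ← add_assoc, add_right_comm 1, mul_add C (1 + κ)] at hu
      omega
    exact_mod_cast this
  have hjκ' : (1 : ℝ) ≤ j + κ := by exact_mod_cast hjκ
  have j0 : (0 : ℝ) ≤ j := Nat.cast_nonneg j
  have κ0 : (0 : ℝ) ≤ κ := Nat.cast_nonneg κ
  have x0 : (0 : ℝ) ≤ X.card := Nat.cast_nonneg _
  have hXr : (X.card : ℝ) ≤ r := by exact_mod_cast hX
  have F0 : (0 : ℝ) ≤ ∑ u ∈ (Vp c 0).erase z, (dT G c u : ℝ) :=
    sum_nonneg fun _ _ => Nat.cast_nonneg _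
  have sF : ∑ u ∈ (Vp c 0).erase z, aT G c x u ≤
      (1 + η) * ∑ u ∈ (Vp c 0).erase z, (dT G c u : ℝ) := by
    rw [mul_sum]
    exact sum_le_sum fun u _ => h.aT_le u
  refine big_real (l := lam G) (η := η) (r := r) (C := C) (α := aT G c x z)
    (α' := ∑ v ∈ S, x v) (P := ∑ u ∈ (Vp c 0).erase z, aT G c x u ^ 2)
    (F := ∑ u ∈ (Vp c 0).erase z, (dT G c u : ℝ)) (E := (ec (Xe G c) : ℝ) - dT G c z)
    (b := (X.erase o).card) (b' := ((if κ = 0 then (X.erase o).card else X.card : ℕ) : ℝ))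
    (j := j) (κ := κ) hr hrC hη ?_ h.st.big (h.ABig_a0 z) ?_ hjκ (by linarith)
    (by linarith [h.st.hE]) ?_ (by linarith) F0 (by exact_mod_cast hF) (Nat.cast_nonneg _) ?_ ?_
    (fun e => by rw [if_pos e]) ?_ ?_ (sum_nonneg fun v _ => h.st.eig.nonneg v) ?_ ?_
  · have a := mul_le_mul_of_nonneg_right hC (show 0 ≤ (C : ℝ) ^ 4 * η by positivity)
    have b : 0 ≤ (C : ℝ) ^ 4 * η := by positivity
    linarith [h.sm]
  · refine ABig_alpha hη hr ?_ h.l0 h.st.dz (h.aT_le z)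
    linarith [h.η_small, mul_le_mul_of_nonneg_right hrC hη.le, mul_pos (show (0 : ℝ) < C by linarith) hη]
  · have a : (κ : ℝ) ≤ ec (Hm G c) := by exact_mod_cast (by omega : κ ≤ ec (Hm G c))
    exact a.trans h.st.hk
  · split_ifs
    · exact le_rfl
    · exact_mod_cast hbX
  · split_ifs
    · exact_mod_cast hbX.trans hX
    · exact hXr
  · refine (sum_sq_le_sq_sum_of_nonneg fun u _ => h.ABig_a0 u).trans ?_
    exact pow_le_pow_left₀ (sum_nonneg fun u _ => h.ABig_a0 u) sF 2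
  · have a0 : 0 ≤ aT G c x z + η * ((ec (Xe G c) : ℝ) - dT G c z) :=
      add_nonneg (h.ABig_a0 z) (mul_nonneg hη.le (by linarith))
    refine le_trans ?_ (mul_le_mul_of_nonneg_right sF a0)
    rw [sum_mul]
    refine sum_le_sum fun u hu => ?_
    rw [pow_two]
    exact mul_le_mul_of_nonneg_left (h.aT_le_z (mem_Vp.1 (mem_of_mem_erase hu))) (h.ABig_a0 u)
  · rw [eσ] at hadj
    have a1 : |(j : ℝ) - κ| ≤ j + κ := abs_le.2 ⟨by linarith, by linarith⟩
    have a2 : 1 * ((j : ℝ) + κ) ≤ C * (j + κ) :=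
      mul_le_mul_of_nonneg_right (by linarith) (by linarith)
    have a3 : (C : ℝ) * (1 + κ) ≤ C * (2 * (j + κ)) :=
      mul_le_mul_of_nonneg_left (by linarith) (by linarith)
    have a4 : |(j : ℝ) - κ| + 2 * (((nT G c z \ U).card : ℝ) + Y.card) ≤ 5 * C * (j + κ) := by
      linarith
    have a5 := mul_le_mul_of_nonneg_left a4 hη.le
    have e : aT G c x z = ∑ v ∈ nT G c z, x v := rfl
    rw [e]
    linarith
  · have a1 := pow_le_pow_left₀ (mul_nonneg (by linarith) (Nat.cast_nonneg _)) sX 2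
    have a2 := mul_le_mul_of_nonneg_left q1 h.l0.le
    linarith

theorem kmin {H : SimpleGraph V} {o w : V} {S X : Finset V} (ha : Adm r Fr c H o S w X)
    (he : S.card + X.card + ec (Hm G c) = ec (Xe G c) + ec H) (hlt : ec H < ec (Hm G c))
    (hE : ec (Xe G c) + C * ec H ≤ C * ec (Hm G c)) (hf : ec (H \ Hm G c) ≤ r) : False := by
  have cm := h.cmp ha he
  obtain ⟨κ, hκ⟩ := Nat.exists_eq_add_of_le hlt.le
  have i1 : H ⊓ Hm G c ≤ H := inf_le_left
  have i2 : H ⊓ Hm G c ≤ Hm G c := inf_le_right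
  have e1 : H \ (H ⊓ Hm G c) = H \ Hm G c := sdiff_inf_self_left _ _
  have e2 : Hm G c \ (H ⊓ Hm G c) = Hm G c \ H := sdiff_inf_self_right _ _
  have c1 := ec_sdiff i1
  have c2 := ec_sdiff i2
  have q1 := qf_sdiff i1 x
  have q2 := qf_sdiff i2 x
  rw [e1] at c1 q1
  rw [e2] at c2 q2
  have l1 := h.ABig_low (H := Hm G c \ H) (sdiff_le.trans (Hm_le G c))
  have l2 := h.ABig_up (H := H \ Hm G c) (sdiff_le.trans ha.ok.hH)
  have c3 : ec (Hm G c \ H) = κ + ec (H \ Hm G c) := by omega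
  rw [c3] at l1
  push_cast at l1
  have hE' : ec (Xe G c) ≤ C * κ := by
    rw [hκ, mul_add] at hE
    omega
  refine ABig_kreal (E := ec (Xe G c)) (κ := κ) (f := ec (H \ Hm G c)) (k := ec (Hm G c))
    (D := qf (Hm G c) x - qf H x) h.η0 h.ABig_C3 h.sm h.η_small h.l0
    (by exact_mod_cast (by omega : 1 ≤ κ)) (by exact_mod_cast (by omega : κ ≤ ec (Hm G c)))
    h.st.hk (Nat.cast_nonneg _) (by exact_mod_cast hE') (by exact_mod_cast hf.trans h.rC)
    (by linarith) ?_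
  linarith [h.Q_crude, sq_nonneg (∑ v ∈ S, x v), sq_nonneg (∑ v ∈ X.erase o, x v)]

theorem squares {o w : V} {S X : Finset V} (ha : Adm r Fr c (Hm G c) o S w X)
    (he : S.card + X.card = ec (Xe G c)) (hE : ec (Xe G c) ≤ C) :
    S.card ^ 2 + (X.erase o).card ^ 2 ≤ D2 G c := by
  have cm := h.cmp ha (by rw [he])
  rw [sub_self, mul_zero, add_zero] at cm
  have hXe : ∀ v ∈ X.erase o, c v ≠ 0 := fun v hv =>
    (ha.ok.hX v (mem_of_mem_erase hv)).resolve_right (ne_of_mem_erase hv)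
  have hbX : (X.erase o).card ≤ X.card := card_erase_le
  have a := ABig_sreal (D := D2 G c) h.η0 h.ABig_C3 h.sm h.ABig_eta (Nat.cast_nonneg S.card)
    (Nat.cast_nonneg (X.erase o).card)
    (by exact_mod_cast (by omega : S.card + (X.erase o).card ≤ C))
    (h.ABig_sum ha.ok.hS) (h.ABig_sum hXe) (cm.trans (h.Q_sq hE))
  have b : S.card ^ 2 + (X.erase o).card ^ 2 < D2 G c + 1 := by exact_mod_cast a
  omega

end Ctx

end Pool.Agent.P.MP_094db5_co
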