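import Pool.Agent.P.MP_094db5_co.ANc

/-! Freeness of the targets for books and wheels. -/

set_option autoImplicit false
set_option linter.unusedSectionVars false

open Finset Classical

noncomputable section

namespace Pool.Agent.P.MP_094db5_co

variable {V : Type} [Fintype V] {r t q : ℕ} {c : V → ℕ} {H G : SimpleGraph V} {o w : V}
  {S X : Finset V}

omit [Fintype V] in
lemma AFr_adj (u v : V) : (G ⊔ Sg w X).Adj u v ↔
    G.Adj u v ∨ u ≠ v ∧ (u = w ∧ v ∈ X ∨ v = w ∧ u ∈ X) := Iff.rfl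

omit [Fintype V] in
lemma AFr_card {e : V → ℕ} (h2 : ∀ u v, G.Adj u v → e u ≠ e v) {n : ℕ} {K : Finset V}
    (hK : G.IsNClique n K) : (K.image e).card = n := by
  rw [← hK.card_eq]
  refine card_image_of_injOn fun u hu v hv huv => ?_
  by_contra hne
  exact h2 u v (hK.isClique hu hv hne) huv

omit [Fintype V] in
lemma AFr_sub {e : V → ℕ} (h1 : ∀ u, e u ∈ Icc 1 r) (K : Finset V) : K.image e ⊆ Icc 1 r := by
  intro i hi
  obtain ⟨v, -, rfl⟩ := mem_image.1 hi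
  exact h1 v

omit [Fintype V] in
lemma AFr_all {e : V → ℕ} (h1 : ∀ u, e u ∈ Icc 1 r) (h2 : ∀ u v, G.Adj u v → e u ≠ e v)
    {K : Finset V} (hK : G.IsNClique r K) (v : V) : ∃ u ∈ K, e u = e v := by
  have : K.image e = Icc 1 r := eq_of_subset_of_card_le (AFr_sub h1 K) (by
    rw [AFr_card h2 hK, Nat.card_Icc]
    omega)
  exact mem_image.1 (this ▸ h1 v)

omit [Fintype V] in
lemma AFr_out {n : ℕ} {K : Finset V} (hK : (G ⊔ Sg w X).IsNClique n K) (hw : w ∉ K) :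
    G.IsNClique n K := by
  refine ⟨fun u hu v hv huv => ?_, hK.card_eq⟩
  rcases (AFr_adj u v).1 (hK.isClique hu hv huv) with h | ⟨-, ⟨rfl, -⟩ | ⟨rfl, -⟩⟩
  exacts [h, (hw hu).elim, (hw hv).elim]

omit [Fintype V] in
lemma AFr_erase {n : ℕ} {K : Finset V} (hK : G.IsNClique (n + 1) K) (hw : w ∈ K) :
    G.IsNClique n (K.erase w) :=
  ⟨hK.isClique.subset (coe_subset.2 (erase_subset _ _)), by
    rw [card_erase_of_mem hw, hK.card_eq, add_tsub_cancel_right]⟩

omit [Fintype V] in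
lemma AFr_mem (hw : ∀ v, ¬ G.Adj w v) {v : V} (h : (G ⊔ Sg w X).Adj w v) : v ∈ X := by
  rcases (AFr_adj w v).1 h with h | ⟨h, ⟨-, h'⟩ | ⟨h', -⟩⟩
  exacts [(hw v h).elim, h', (h h'.symm).elim]

omit [Fintype V] in
lemma AFr_old {u v : V} (h : (G ⊔ Sg w X).Adj u v) (hu : u ≠ w) (hv : v ≠ w) : G.Adj u v := by
  rcases (AFr_adj u v).1 h with h | ⟨-, ⟨h', -⟩ | ⟨h', -⟩⟩
  exacts [h, (hu h').elim, (hv h').elim]

omit [Fintype V] in
lemma AFr_iso (h : TgOK r c H o S w X) (v : V) : ¬ (Kc c \ H ⊔ Sg o S).Adj w v := by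
  rintro (h' | ⟨-, ⟨h', -⟩ | ⟨-, h'⟩⟩)
  exacts [h'.1.1 h.w0, h.ow h'.symm, h.hS w h' h.w0]

omit [Fintype V] in
lemma AFr_three (hX : X.card ≤ 3) {a : V} (ha : a ∈ X) :
    ∃ b d, ∀ v ∈ X, v = a ∨ v = b ∨ v = d := by
  have : Nonempty V := ⟨a⟩
  have h1 := card_erase_of_mem ha
  rcases (X.erase a).eq_empty_or_nonempty with h | ⟨b, hb⟩
  · refine ⟨a, a, fun v hv => Or.inl ?_⟩
    by_contra hn
    exact notMem_empty v (h ▸ mem_erase.2 ⟨hn, hv⟩)
  · have h2 := card_erase_of_mem hb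
    obtain ⟨d, hd⟩ := card_le_one_iff_subset_singleton.1
      (show ((X.erase a).erase b).card ≤ 1 by omega)
    refine ⟨b, d, fun v hv => ?_⟩
    by_contra hn
    push Not at hn
    exact hn.2.2 (mem_singleton.1 (hd (mem_erase.2 ⟨hn.2.1, mem_erase.2 ⟨hn.1, hv⟩⟩)))

theorem free_of_noBook (h : NoBook G r t) :
    (join (⊤ : SimpleGraph (Fin r)) (⊥ : SimpleGraph (Fin (t + 1)))).Free G := by
  rintro ⟨f⟩
  have a1 : G.IsNClique r (univ.image fun i => f (Sum.inl i)) := by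
    refine ⟨fun a ha b hb hab => ?_, ?_⟩
    · obtain ⟨i, -, rfl⟩ := mem_image.1 ha
      obtain ⟨i', -, rfl⟩ := mem_image.1 hb
      exact f.toHom.map_rel (by simpa [join] using fun e : i = i' => hab (e ▸ rfl))
    · exact (card_image_of_injective _ fun _ _ e => Sum.inl_injective (f.injective e)).trans
        (by simp)
  have a2 := h _ a1 (univ.image fun j => f (Sum.inr j)) fun v hv u hu => by
    obtain ⟨i, -, rfl⟩ := mem_image.1 hu
    obtain ⟨j, -, rfl⟩ := mem_image.1 hv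
    exact f.toHom.map_rel (by simp [join])
  have a3 : (univ.image fun j : Fin (t + 1) => f (Sum.inr j)).card = t + 1 :=
    (card_image_of_injective _ fun _ _ e => Sum.inr_injective (f.injective e)).trans (by simp)
  omega

/-- no clique of size `r` inside `X` -/
theorem noBook0 {e : V → ℕ} (h1 : ∀ u, e u ∈ Icc 1 r) (h2 : ∀ u v, G.Adj u v → e u ≠ e v)
    (hw : ∀ v, ¬ G.Adj w v) (hX : ∀ K ⊆ X, ¬ G.IsNClique r K) : NoBook (G ⊔ Sg w X) r t := by
  have key : (G ⊔ Sg w X).CliqueFree (r + 1) := by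
    intro K hK
    by_cases h : w ∈ K
    · refine hX (K.erase w) (fun v hv => ?_) (AFr_out (AFr_erase hK h) (notMem_erase _ _))
      exact AFr_mem hw (hK.isClique h (mem_of_mem_erase hv) (ne_of_mem_erase hv).symm)
    · have a1 := AFr_card h2 (AFr_out hK h)
      have a2 := card_le_card (AFr_sub h1 K)
      rw [a1, Nat.card_Icc] at a2
      omega
  exact fun K hK T hT => (noBook_of_cliqueFree key K hK T hT).trans (Nat.zero_le _)

/-- at most `t` neighbours in each class -/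
theorem noBook1 {e : V → ℕ} (h1 : ∀ u, e u ∈ Icc 1 r) (h2 : ∀ u v, G.Adj u v → e u ≠ e v)
    (hw : ∀ v, ¬ G.Adj w v) (ht : 1 ≤ t) (hX : ∀ i, (X.filter fun v => e v = i).card ≤ t) :
    NoBook (G ⊔ Sg w X) r t := by
  intro K hK T hT
  by_cases h : w ∈ K
  · rcases T.eq_empty_or_nonempty with rfl | ⟨v₀, hv₀⟩
    · simp
    refine le_trans (card_le_card fun v hv => mem_filter.2 ⟨AFr_mem hw (hT v hv w h), ?_⟩)
      (hX (e v₀))
    have a1 : (G ⊔ Sg w X).IsNClique (r + 1) (insert v K) :=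
      hK.insert fun u hu => (hT v hv u hu).symm
    have a2 := AFr_out (AFr_erase a1 (mem_insert_of_mem h)) (notMem_erase _ _)
    obtain ⟨u, hu, hu'⟩ := AFr_all h1 h2 a2 v₀
    rcases mem_insert.1 (mem_of_mem_erase hu) with rfl | hu2
    · exact hu'
    · exact (h2 u v₀ (AFr_old (hT v₀ hv₀ u hu2) (ne_of_mem_erase hu) (hT v₀ hv₀ w h).ne') hu').elim
  · refine le_trans (card_le_card (t := {w}) fun v hv => mem_singleton.2 ?_) (by simpa using ht)
    by_contra hn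
    obtain ⟨u, hu, hu'⟩ := AFr_all h1 h2 (AFr_out hK h) v
    exact h2 u v (AFr_old (hT v hv u hu) (fun e => h (e ▸ hu)) hn) hu'

/-- two classes between which `X` spans no edge -/
theorem no_clique_of_pair {e : V → ℕ} (h1 : ∀ u, e u ∈ Icc 1 r)
    (h2 : ∀ u v, G.Adj u v → e u ≠ e v) {a b : V} (hab : e a ≠ e b) (hn : ¬ G.Adj a b)
    (ha : ∀ v ∈ X, e v = e a → v = a) (hb : ∀ v ∈ X, e v = e b → v = b) :
    ∀ K ⊆ X, ¬ G.IsNClique r K := by
  intro K hKX hK
  obtain ⟨u, hu, hu'⟩ := AFr_all h1 h2 hK a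
  obtain ⟨v, hv, hv'⟩ := AFr_all h1 h2 hK b
  obtain rfl := ha u (hKX hu) hu'
  obtain rfl := hb v (hKX hv) hv'
  exact hn (hK.isClique hu hv fun e => hab (e ▸ rfl))

theorem cls_book (hr : 3 ≤ r) (t : ℕ) : Cls r t (t + 1) fun G : SimpleGraph V => NoBook G r t := by
  refine ⟨fun G h => h.deg (by omega), fun G h => h.noPlus hr, fun G w a X hc hw hX ha hn => ?_⟩
  obtain ⟨C⟩ := hc
  refine noBook0 (e := fun u => (C u : ℕ) + 1) (fun u => ?_) (fun u v huv e => ?_) hw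
    fun K hKX hK => ?_
  · have := (C u).2
    rw [mem_Icc]
    omega
  · exact C.valid huv (Fin.ext (by omega))
  · have a1 : K = X := eq_of_subset_of_card_le hKX (hK.card_eq ▸ hX)
    subst a1
    obtain ⟨b, hb, hba⟩ := exists_mem_ne (s := K) (by rw [hK.card_eq]; omega) a
    exact hn b hb (hK.isClique ha hb hba.symm)

theorem cls_wheel (hq : 2 ≤ q) :
    Cls 3 (2 * q) (2 * q + 3) fun G : SimpleGraph V => (Whl q).Free G := by
  refine ⟨fun G h => deg_of_free (by omega) h, fun G h => noPlus_of_free hq h,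
    fun G w a X hc hw hX ha hn hf => ?_⟩
  obtain ⟨C⟩ := hc
  obtain ⟨u, g, W⟩ := win_of_copy hq (not_not.2 hf)
  obtain ⟨b, d, hbd⟩ := AFr_three hX ha
  have a0 : ∀ v, (if v = w then 0 else (C v : ℕ) + 1) = 0 → v = w := fun v hv => by
    by_contra hne
    rw [if_neg hne] at hv
    omega
  rcases W.uncol (c := fun v => if v = w then 0 else (C v : ℕ) + 1) (fun v => by
      have := (C v).2
      split_ifs <;> omega) (fun x y hxy hx e => by
      have hx' : x ≠ w := fun e' => hx (if_pos e')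
      have hy' : y ≠ w := fun e' => hx (e.trans (if_pos e'))
      simp only [if_neg hx', if_neg hy'] at e
      exact C.valid (AFr_old hxy hx' hy') (Fin.ext (by omega))) with e | ⟨m, e⟩
  · obtain rfl := a0 _ e
    exact W.not_hub fun v hv => hbd v (AFr_mem hw hv)
  · have e' := a0 _ e
    have b1 : (G ⊔ Sg w X).Adj w u := e' ▸ (W.hub (m + 2)).symm
    have b2 : (G ⊔ Sg w X).Adj w (g (m + 1)) := e' ▸ (W.step (m + 1)).symm
    have b3 : (G ⊔ Sg w X).Adj w (g (m + 2 + 1)) := e' ▸ W.step (m + 2)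
    have c1 := AFr_mem hw b1
    have c2 := AFr_mem hw b2
    have c3 := AFr_mem hw b3
    have d2 := AFr_old (W.hub (m + 1)) b1.ne' b2.ne'
    have d3 := AFr_old (W.hub (m + 2 + 1)) b1.ne' b3.ne'
    have e1 : u ≠ a := fun e => hn _ c2 (e ▸ d2)
    have e2 : g (m + 1) ≠ a := fun e => hn _ c1 (e ▸ d2.symm)
    have e3 : g (m + 2 + 1) ≠ a := fun e => hn _ c1 (e ▸ d3.symm)
    have := hbd _ c1
    have := hbd _ c2
    have := hbd _ c3
    have := d2.ne
    have := d3.ne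
    have : g (m + 1) ≠ g (m + 2 + 1) := W.d2 (m + 1)
    grind

theorem TgOK.freeA (h : TgOK r c H o ∅ w X) (hr : 1 ≤ r) (ho : o ∉ X) {a b : V} (hab : H.Adj a b)
    (ha : ∀ v ∈ X, c v = c a → v = a) (hb : ∀ v ∈ X, c v = c b → v = b) :
    NoBook (Tg c H o ∅ w X) r t := by
  obtain ⟨e, e1, e2, -, e4⟩ := h.labels (l := 1) (mem_Icc.2 ⟨le_rfl, hr⟩) (by simp)
  obtain ⟨c1, c2, c3⟩ : cross c a b := h.hH hab
  have a1 : ∀ v ∈ X, e v = c v := fun v hv =>
    e2 v ((h.hX v hv).resolve_right fun e' => ho (e' ▸ hv))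
  refine noBook0 e1 e4 (AFr_iso h) (no_clique_of_pair e1 e4 (a := a) (b := b) ?_ ?_ ?_ ?_)
  · rwa [e2 a c1, e2 b c2]
  · rintro (h' | ⟨-, ⟨-, h'⟩ | ⟨-, h'⟩⟩)
    exacts [h'.2 hab, notMem_empty _ h', notMem_empty _ h']
  · exact fun v hv e' => ha v hv (by rw [← a1 v hv, e', e2 a c1])
  · exact fun v hv e' => hb v hv (by rw [← a1 v hv, e', e2 b c2])

theorem TgOK.freeB0 (h : TgOK r c H o S w X) {l : ℕ} (hl : l ∈ Icc 1 r) (hS : ∀ v ∈ S, c v ≠ l)
    (hX : ∀ v ∈ X, c v ≠ l) {b : V} (h0 : c b ≠ 0) (hbl : c b ≠ l) (hbS : b ∉ S)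
    (hb : ∀ v ∈ X, c v = c b → v = b) : NoBook (Tg c H o S w X) r t := by
  obtain ⟨e, e1, e2, e3, e4⟩ := h.labels hl hS
  refine noBook0 e1 e4 (AFr_iso h) (no_clique_of_pair e1 e4 (a := o) (b := b) ?_ ?_ ?_ ?_)
  · rw [e3, e2 b h0]
    exact hbl.symm
  · rintro (h' | ⟨-, ⟨-, h'⟩ | ⟨-, h'⟩⟩)
    exacts [h'.1.1 h.o0, hbS h', h.hS o h' h.o0]
  · intro v hv e'
    refine (h.hX v hv).resolve_left fun hc => hX v hv ?_
    rw [← e2 v hc, e', e3]
  · intro v hv e'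
    rcases h.hX v hv with hc | rfl
    · exact hb v hv (by rw [← e2 v hc, e', e2 b h0])
    · exact (hbl (by rw [← e2 b h0, ← e', e3])).elim

theorem TgOK.freeB1 (h : TgOK r c H o S w X) (ht : 1 ≤ t) (ho : o ∉ X) {l : ℕ} (hl : l ∈ Icc 1 r)
    (hS : ∀ v ∈ S, c v ≠ l) (hX : ∀ i, (X.filter fun v => c v = i).card ≤ t) :
    NoBook (Tg c H o S w X) r t := by
  obtain ⟨e, e1, e2, -, e4⟩ := h.labels hl hS
  refine noBook1 e1 e4 (AFr_iso h) ht fun i => le_trans (le_of_eq ?_) (hX i)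
  congr 1
  refine filter_congr fun v hv => ?_
  rw [e2 v ((h.hX v hv).resolve_right fun e' => ho (e' ▸ hv))]

omit [Fintype V] in
theorem Trans.filter_le (h : Trans r c X) (i : ℕ) : (X.filter fun v => c v = i).card ≤ 1 := by
  refine card_le_one.2 fun u hu v hv => ?_
  rw [mem_filter] at hu hv
  exact h.2.2 u hu.1 v hv.1 (hu.2.trans hv.2.symm)

/-- two adjacent new vertices with the same two neighbours -/
theorem TgOK.freeW2 {a b : V} (h : TgOK 3 c H o {a, b} w {o, a, b}) (hq : 2 ≤ q) :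
    (Whl q).Free (Tg c H o {a, b} w {o, a, b}) := by
  intro hn
  obtain ⟨u, g, W⟩ := win_of_copy hq (not_not.2 hn)
  have h0 := h.ow
  have h1 := h.o0
  have h2 := h.w0
  have h3 : c a ≠ 0 := h.hS a (by simp)
  have h4 : c b ≠ 0 := h.hS b (by simp)
  have a1 : ∀ x y, (Tg c H o {a, b} w {o, a, b}).Adj x y → c x = 0 →
      x = w ∧ (y = o ∨ y = a ∨ y = b) ∨ x = o ∧ (y = w ∨ y = a ∨ y = b) := fun x y hxy hx => by
    rw [Tg_adj] at hxy
    simp only [mem_insert, mem_singleton, cross] at hxy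
    grind
  have hp : Proper (Tg c H o {a, b} w {o, a, b}) c := fun x y hxy hx => by
    rw [Tg_adj] at hxy
    simp only [cross] at hxy
    grind
  have a2 : c u ≠ 0 := fun e => by
    rcases a1 _ _ (W.hub 0) e with e' | e'
    · exact W.not_hub (a := o) (b := a) (d := b) fun v hv => by
        have := a1 _ _ hv e
        grind
    · exact W.not_hub (a := w) (b := a) (d := b) fun v hv => by
        have := a1 _ _ hv e
        grind
  obtain ⟨m, e⟩ := (W.uncol h.le hp).resolve_left a2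
  have b1 := a1 _ _ (W.hub (m + 2)).symm e
  have b2 := a1 _ _ (W.step (m + 1)).symm e
  have b3 := a1 _ _ (W.step (m + 2)) e
  have := (W.hub (m + 1)).ne
  have := (W.hub (m + 3)).ne
  have := W.d2 (m + 1)
  have b4 : c (g (m + 1)) = 0 ∨ c (g (m + 3)) = 0 := by grind
  rcases b4 with b4 | b4
  · have := a1 _ _ (W.hub (m + 1)).symm b4
    have := a1 _ _ (W.step m).symm b4
    have := (W.step (m + 1)).ne
    have := (W.hub m).ne
    have := W.d2 m
    have := W.d3 m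
    grind
  · have := a1 _ _ (W.hub (m + 3)).symm b4
    have := a1 _ _ (W.step (m + 3)) b4
    have := (W.step (m + 2)).ne
    have := (W.hub (m + 4)).ne
    have := W.d2 (m + 2)
    have := W.d3 (m + 1)
    grind

theorem admW2 {a b : V} (hq : 2 ≤ q) (hc : ∀ v, c v ≤ 3) (hH : H ≤ Kc c)
    (hb : ∀ i ∈ Icc 1 3, 2 * ec H < cn c i) (ho : c o = 0) (hw : c w = 0) (how : o ≠ w)
    (h1 : cross c a b) :
    Adm 3 (fun G : SimpleGraph V => (Whl q).Free G) c H o {a, b} w {o, a, b} := by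
  obtain ⟨c1, c2, c3⟩ := h1
  have ok : TgOK 3 c H o {a, b} w {o, a, b} := ⟨hc, hH, ho, hw, how, fun v hv => by
    simp only [mem_insert, mem_singleton] at hv
    grind, fun v hv => by
    simp only [mem_insert, mem_singleton] at hv
    grind⟩
  have a1 : ∀ i ∈ Icc 1 3, i ≠ 6 - c a - c b → c a = i ∨ c b = i := fun i hi hl => by
    have := mem_Icc.1 hi
    have := hc a
    have := hc b
    omega
  refine ⟨ok, ok.freeW2 hq, ok.nc2 hb (by simp) (l := 6 - c a - c b) (fun i hi hl => ?_)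
    fun i hi hl => ?_⟩
  · rcases a1 i hi hl with e | e
    exacts [⟨a, by simp, e⟩, ⟨b, by simp, e⟩]
  · rcases a1 i hi hl with e | e
    exacts [⟨a, by simp, e⟩, ⟨b, by simp, e⟩]

theorem admW1 {a b e : V} (hq : 2 ≤ q) (hc : ∀ v, c v ≤ 3) (hH : H ≤ Kc c)
    (hb : ∀ i ∈ Icc 1 3, 2 * ec H < cn c i) (ho : c o = 0) (hw : c w = 0) (how : o ≠ w)
    (h1 : H.Adj a b) (h2 : H.Adj a e) (h3 : c b ≠ c e) (hS : ∀ v ∈ S, c v ≠ 0) (hS2 : S.card ≤ 2) :
    Adm 3 (fun G : SimpleGraph V => (Whl q).Free G) c H o S w {a, b, e} := by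
  obtain ⟨c1, c2, c3⟩ : cross c a b := hH h1
  obtain ⟨-, c4, c5⟩ : cross c a e := hH h2
  have ok : TgOK 3 c H o S w {a, b, e} := ⟨hc, hH, ho, hw, how, hS, fun v hv => by
    simp only [mem_insert, mem_singleton] at hv
    grind⟩
  obtain ⟨l, hl, hl'⟩ := exists_mem_notMem_of_card_lt_card (s := S.image c) (t := Icc 1 3)
    (card_image_le.trans_lt (by simp; omega))
  refine ⟨ok, ok.gad (cls_wheel hq) hl (fun v hv e' => hl' (mem_image.2 ⟨v, hv, e'⟩))
    card_le_three (a := a) (by simp) fun y hy hay => ?_, ok.nc1 hb fun i hi => ?_⟩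
  · rw [Tg_adj] at hay
    simp only [mem_insert, mem_singleton, cross] at hay hy
    grind
  · have := mem_Icc.1 hi
    have := hc a
    have := hc b
    have := hc e
    have : c a = i ∨ c b = i ∨ c e = i := by omega
    rcases this with e' | e' | e'
    exacts [⟨a, by simp, e'⟩, ⟨b, by simp, e'⟩, ⟨e, by simp, e'⟩]

theorem admA (hc : ∀ v, c v ≤ r) (hH : H ≤ Kc c) (hb : ∀ i ∈ Icc 1 r, 2 * ec H < cn c i)
    (ho : c o = 0) (hw : c w = 0) (how : o ≠ w) (h0 : ∀ v ∈ X, c v ≠ 0)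
    (hX : ∀ i ∈ Icc 1 r, ∃ v ∈ X, c v = i) {a b : V} (hab : H.Adj a b)
    (ha : ∀ v ∈ X, c v = c a → v = a) (hb' : ∀ v ∈ X, c v = c b → v = b) :
    Adm r (fun G : SimpleGraph V => NoBook G r t) c H o ∅ w X := by
  have ok : TgOK r c H o ∅ w X := ⟨hc, hH, ho, hw, how, by simp, fun v hv => Or.inl (h0 v hv)⟩
  have c1 : c a ≠ 0 := (hH hab).1
  have := hc a
  exact ⟨ok, ok.freeA (by omega) (fun e => h0 o e ho) hab ha hb', ok.nc1 hb hX⟩

theorem admB1 (ht : 1 ≤ t) (hc : ∀ v, c v ≤ r) (hH : H ≤ Kc c)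
    (hb : ∀ i ∈ Icc 1 r, 2 * ec H < cn c i) (ho : c o = 0) (hw : c w = 0) (how : o ≠ w) {l : ℕ}
    (hl : l ∈ Icc 1 r) (hS : S ⊆ Out c l) (h0 : ∀ v ∈ X, c v ≠ 0)
    (hX : ∀ i ∈ Icc 1 r, ∃ v ∈ X, c v = i) (hX' : ∀ i, (X.filter fun v => c v = i).card ≤ t) :
    Adm r (fun G : SimpleGraph V => NoBook G r t) c H o S w X := by
  have ok : TgOK r c H o S w X := ⟨hc, hH, ho, hw, how, fun v hv => (mem_Out.1 (hS hv)).1,
    fun v hv => Or.inl (h0 v hv)⟩
  exact ⟨ok, ok.freeB1 ht (fun e => h0 o e ho) hl (fun v hv => (mem_Out.1 (hS hv)).2) hX',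
    ok.nc1 hb hX⟩

end Pool.Agent.P.MP_094db5_co
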