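import Pool.Agent.P.MP_094db5_co.AQb

/-! Structure of the unlabelled part, and translation to the final families. -/

set_option autoImplicit false

open Finset Classical

noncomputable section

namespace Pool.Agent.P.MP_094db5_co

variable {V : Type} [Fintype V] {r C : ℕ} {Fr : SimpleGraph V → Prop} {G : SimpleGraph V}
  {x : V → ℝ} {η : ℝ} {c : V → ℕ} {z : V}

omit [Fintype V] in
lemma AStr_spokes {w u v : V} {X : Set V} :
    s(u, v) ∈ spokes w X ↔ (u = w ∧ v ∈ X) ∨ (v = w ∧ u ∈ X) := by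
  simp only [spokes, Set.mem_ofPred_eq, Sym2.eq_iff]
  constructor
  · rintro ⟨y, hy, ⟨rfl, rfl⟩ | ⟨rfl, rfl⟩⟩
    · exact Or.inl ⟨rfl, hy⟩
    · exact Or.inr ⟨rfl, hy⟩
  · rintro (⟨rfl, h⟩ | ⟨rfl, h⟩)
    · exact ⟨v, h, Or.inl ⟨rfl, rfl⟩⟩
    · exact ⟨u, h, Or.inr ⟨rfl, rfl⟩⟩

omit [Fintype V] in
lemma AStr_edge {a : V} {D : Finset V} (ha : a ∉ D) : (Sg a D).edgeSet = spokes a D := by
  ext e
  induction e using Sym2.ind with
  | _ u v =>
    rw [SimpleGraph.mem_edgeSet, AStr_spokes]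
    simp only [Sg, mem_coe]
    grind

lemma AStr_proper (hp : Proper G c) {l : ℕ} (hl : l ∈ Icc 1 r) (hz : ∀ v ∈ nT G c z, c v ≠ l) :
    Proper G (Function.update c z l) := by
  refine hp.update fun u hu => ?_
  have := mem_Icc.1 hl
  by_cases h0 : c u = 0
  · omega
  · exact hz u (mem_nT.2 ⟨hu, h0⟩)

omit [Fintype V] in
lemma AStr_le (hc : ∀ v, c v ≤ r) {l : ℕ} (hl : l ∈ Icc 1 r) (v : V) :
    Function.update c z l v ≤ r := by
  have := mem_Icc.1 hl
  have := hc v
  grind

omit [Fintype V] in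
lemma AStr_zero {l : ℕ} (hl : l ∈ Icc 1 r) {v : V} (hv : Function.update c z l v = 0) :
    v ≠ z ∧ c v = 0 := by
  have := mem_Icc.1 hl
  grind

lemma AStr_dT_le {u : V} (hu : c u = 0) : dT G c u ≤ ec (Xe G c) := by
  rw [ec_Xe]
  exact (single_le_sum (f := dT G c) (fun _ _ => Nat.zero_le _) (mem_Vp.2 hu)).trans
    (Nat.le_add_right _ _)

namespace Ctx

variable (h : Ctx r C Fr G x η c z)
include h

theorem E_ge : r ≤ ec (Xe G c) := by
  by_contra hE
  exact h.ex.nc (extend _ c rfl h.st.le h.st.proper fun w hw =>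
    (degree_le_Xe hw).trans_lt (not_le.1 hE))

theorem sees_small (hE : ec (Xe G c) + 1 < 2 * r) : ∃ w, c w = 0 ∧ Sees G r c w := by
  exact sees_of_small h.st.le h.st.proper h.ex.nc hE

theorem sees_noWw (hW : ∀ u v, ¬ (Ww G c).Adj u v) : ∃ w, c w = 0 ∧ Sees G r c w := by
  by_contra hn
  have h1 : ∀ w, ∃ i, c w = 0 → i ∈ Icc 1 r ∧ ∀ y, c y = i → ¬ G.Adj w y := by
    intro w
    by_cases hw : c w = 0
    · have h2 : ¬ Sees G r c w := fun a => hn ⟨w, hw, a⟩
      unfold Sees at h2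
      push Not at h2
      obtain ⟨i, hi, h3⟩ := h2
      exact ⟨i, fun _ => ⟨hi, h3⟩⟩
    · exact ⟨0, fun a => (hw a).elim⟩
  choose f hf using h1
  refine h.ex.nc (colorable_of_labels (fun u => if c u = 0 then f u else c u) (fun u => ?_)
    fun u v huv => ?_)
  · by_cases hu : c u = 0
    · rw [if_pos hu]
      exact (hf u hu).1
    · rw [if_neg hu]
      exact mem_Icc.2 ⟨Nat.pos_of_ne_zero hu, h.st.le u⟩
  · by_cases hu : c u = 0 <;> by_cases hv : c v = 0
    · exact (hW u v ⟨huv, hu, hv⟩).elim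
    · rw [if_pos hu, if_neg hv]
      exact fun e => (hf u hu).2 v e.symm huv
    · rw [if_neg hu, if_pos hv]
      exact fun e => (hf v hv).2 u e huv.symm
    · rw [if_neg hu, if_neg hv]
      exact h.st.proper u v huv hu

/-- one vertex carries all outer edges -/
theorem one {u : V} (hu : c u = 0) (hE : ec (Xe G c) ≤ dT G c u) : ∃ o,
    TgOK r c (Hm G c) o ∅ u (nT G c u) ∧ G = Tg c (Hm G c) o ∅ u (nT G c u) ∧ Sees G r c u ∧
      D2 G c = ec (Xe G c) ^ 2 := by
  obtain ⟨o, ho, hou⟩ := h.other u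
  have ok : TgOK r c (Hm G c) o ∅ u (nT G c u) :=
    ⟨h.st.le, Hm_le G c, ho, hu, hou, by simp, fun v hv => Or.inl (mem_nT.1 hv).2⟩
  have e1 := ec_Xe G c
  rw [← add_sum_erase _ _ (mem_Vp.2 hu)] at e1
  have e2 : ∑ v ∈ (Vp c 0).erase u, dT G c v = 0 := by omega
  have e3 : ec (Ww G c) = 0 := by omega
  have e4 : ec (Xe G c) = dT G c u := by omega
  rw [sum_eq_zero_iff] at e2
  refine ⟨o, ok, eq_Tg h.st.proper ok (by simp) (fun v hv => (mem_nT.1 hv).1) (by
    rw [card_empty, zero_add]; exact hE), ?_, ?_⟩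
  · obtain ⟨w, hw, hs⟩ := h.sees_noWw (by rw [ec_eq_zero.1 e3]; simp)
    by_cases hwu : w = u
    · exact hwu ▸ hs
    · have r3 := h.r3
      obtain ⟨y, hy, hwy⟩ := hs 1 (mem_Icc.2 ⟨le_rfl, by omega⟩)
      have h0 := e2 w (mem_erase.2 ⟨hwu, mem_Vp.2 hw⟩)
      exact (card_ne_zero_of_mem (mem_nT.2 ⟨hwy, by omega⟩) h0).elim
  · rw [D2, ← add_sum_erase _ _ (mem_Vp.2 hu), e4, sum_eq_zero fun v hv => by rw [e2 v hv]; rfl,
      add_zero]

/-- two vertices carry all outer edges -/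
theorem two {u w : V} (hu : c u = 0) (hw : c w = 0) (huw : u ≠ w)
    (hE : ec (Xe G c) ≤ dT G c u + dT G c w) :
    TgOK r c (Hm G c) u (nT G c u) w (nT G c w) ∧
      G = Tg c (Hm G c) u (nT G c u) w (nT G c w) := by
  have ok : TgOK r c (Hm G c) u (nT G c u) w (nT G c w) :=
    ⟨h.st.le, Hm_le G c, hu, hw, huw, fun v hv => (mem_nT.1 hv).2,
      fun v hv => Or.inl (mem_nT.1 hv).2⟩
  exact ⟨ok, eq_Tg h.st.proper ok (fun v hv => (mem_nT.1 hv).1) (fun v hv => (mem_nT.1 hv).1) hE⟩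

theorem single (hE : ec (Xe G c) = r) :
    ∃ u, c u = 0 ∧ dT G c u = r ∧ Trans r c (nT G c u) := by
  have r3 := h.r3
  obtain ⟨u, hu, hs⟩ := h.sees_small (by omega)
  have ht : Trans r c (nT G c u) := by
    refine trans_of_card ((AStr_dT_le hu).trans hE.le) fun i hi => ?_
    obtain ⟨y, hy, huy⟩ := hs i hi
    have := mem_Icc.1 hi
    exact ⟨y, mem_nT.2 ⟨huy, by omega⟩, hy⟩
  exact ⟨u, hu, ht.card h.st.le, ht⟩

theorem avoid {l : ℕ} (hl : l ∈ Icc 1 r) (hz : ∀ v ∈ nT G c z, c v ≠ l) :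
    dT G c z + r ≤ ec (Xe G c) := by
  by_contra hE
  refine h.ex.nc (extend _ (Function.update c z l) rfl (AStr_le h.st.le hl)
    (AStr_proper h.st.proper hl hz) fun w hw => ?_)
  obtain ⟨h1, h2⟩ := AStr_zero hl hw
  have := dT_add_degree_le (G := G) h.st.z0 h2 h1
  omega

theorem avoid_eq {l : ℕ} (hl : l ∈ Icc 1 r) (hz : ∀ v ∈ nT G c z, c v ≠ l)
    (hE : ec (Xe G c) = dT G c z + r) : ∃ u X, TgOK r c (Hm G c) z (nT G c z) u X ∧
      G = Tg c (Hm G c) z (nT G c z) u X ∧ Trans r (Function.update c z l) X ∧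
      (z ∈ X → ∀ i ∈ Icc 1 r, i ≠ l → ∃ v ∈ nT G c z, c v = i) := by
  have r3 := h.r3
  have z0 := h.st.z0
  obtain ⟨u, hu', hd⟩ : ∃ u, Function.update c z l u = 0 ∧ r ≤ G.degree u := by
    by_contra hn
    push Not at hn
    exact h.ex.nc (extend _ (Function.update c z l) rfl (AStr_le h.st.le hl)
      (AStr_proper h.st.proper hl hz) hn)
  obtain ⟨huz, hu⟩ := AStr_zero hl hu'
  have h1 := dT_add_degree_le (G := G) z0 hu huz
  have hX : (G.neighborFinset u).card = r := by
    rw [SimpleGraph.card_neighborFinset_eq_degree]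
    omega
  have hmem : ∀ v, v ∈ G.neighborFinset u ↔ G.Adj u v := fun v => by simp
  generalize G.neighborFinset u = X at hX hmem
  have hle : Sg z (nT G c z) ⊔ Sg u X ≤ Xe G c :=
    sup_le (Sg_le fun v hv => ⟨(mem_nT.1 hv).1, Or.inl z0⟩)
      (Sg_le fun v hv => ⟨(hmem v).1 hv, Or.inl hu⟩)
  have hdis : Disjoint (Sg z (nT G c z)) (Sg u X) := by
    rw [disjoint_iff_inf_le]
    rintro a b ⟨⟨-, a1⟩, ⟨-, a2⟩⟩
    simp only [mem_nT] at a1
    exfalso
    grind
  have heq : Sg z (nT G c z) ⊔ Sg u X = Xe G c := by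
    refine eq_of_ec_le hle ?_
    rw [ec_sup hdis, ec_Sg (fun a => (mem_nT.1 a).2 z0), ec_Sg fun a => ((hmem u).1 a).ne rfl, hX,
      hE]
    exact le_rfl
  have hsm : ∀ v, c v = 0 → v ≠ z → v ≠ u → G.degree v < r := by
    intro v hv hvz hvu
    have : G.neighborFinset v ⊆ {u} := by
      intro y hy
      have a : (Xe G c).Adj v y := ⟨by simpa using hy, Or.inl hv⟩
      rw [← heq] at a
      simp only [SimpleGraph.sup_adj, Sg, mem_nT] at a
      rw [mem_singleton]
      grind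
    have := card_le_card this
    rw [SimpleGraph.card_neighborFinset_eq_degree, card_singleton] at this
    omega
  have hsee : ∀ i ∈ Icc 1 r, (∀ v ∈ nT G c z, c v ≠ i) → Sees G r (Function.update c z i) u :=
    fun i hi hz' => one_heavy (AStr_le h.st.le hi) (AStr_proper h.st.proper hi hz') h.ex.nc u
      fun v hv hvu => hsm v (AStr_zero hi hv).2 (AStr_zero hi hv).1 hvu
  have ht : Trans r (Function.update c z l) X := by
    refine trans_of_card hX.le fun i hi => ?_
    obtain ⟨y, hy, huy⟩ := hsee l hl hz i hi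
    exact ⟨y, (hmem y).2 huy, hy⟩
  have ok : TgOK r c (Hm G c) z (nT G c z) u X := by
    refine ⟨h.st.le, Hm_le G c, z0, hu, huz.symm, fun v hv => (mem_nT.1 hv).2, fun v hv => ?_⟩
    have := ht.1 v hv
    by_cases hvz : v = z
    · exact Or.inr hvz
    · rw [Function.update_of_ne hvz] at this
      exact Or.inl this
  refine ⟨u, X, ok, eq_Tg h.st.proper ok (fun v hv => (mem_nT.1 hv).1) (fun v hv => (hmem v).1 hv)
    (by rw [hX]; exact hE.le), ht, fun hzX i hi hil => ?_⟩
  by_contra hn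
  push Not at hn
  obtain ⟨v, hv, huv⟩ := hsee i hi hn l hl
  have hvz : v ≠ z := by
    rintro rfl
    rw [Function.update_self] at hv
    exact hil hv
  rw [Function.update_of_ne hvz] at hv
  exact hvz (ht.2.2 v ((hmem v).2 huv) z hzX (by
    rw [Function.update_of_ne hvz, Function.update_self, hv]))

theorem mp {H : SimpleGraph V} {o w : V} {S X : Finset V} (ok : TgOK r c H o S w X)
    (e : G = Tg c H o S w X) : Mp G r c (spokes w X ∪ spokes o S) H.edgeSet := by
  refine ⟨ok.le, fun i hi => ?_, fun u v => ?_⟩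
  · have := h.room hi
    have := h.r3
    have := h.rC
    rw [cn_eq]
    omega
  · have a := Tg_adj (c := c) (H := H) (o := o) (S := S) (w := w) (X := X) u v
    rw [← e] at a
    rw [a, Set.mem_union, AStr_spokes, AStr_spokes, SimpleGraph.mem_edgeSet]
    have b1 := ok.hS o
    have b2 := ok.hX w
    have b3 := ok.o0
    have b4 := ok.w0
    have b5 := ok.ow
    simp only [cross, mem_coe]
    grind

theorem mp_star {a o w : V} {D S X : Finset V} (ok : TgOK r c (Sg a D) o S w X) (ha : a ∉ D)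
    (e : G = Tg c (Sg a D) o S w X) : Mp G r c (spokes w X ∪ spokes o S) (spokes a D) := by
  rw [← AStr_edge ha]
  exact h.mp ok e

theorem mp_star' {a o w : V} {D X : Finset V} (ok : TgOK r c (Sg a D) o ∅ w X) (ha : a ∉ D)
    (e : G = Tg c (Sg a D) o ∅ w X) : Mp G r c (spokes w X) (spokes a D) := by
  have a := h.mp_star ok ha e
  have b : spokes o ((∅ : Finset V) : Set V) = ∅ := by simp [spokes]
  rwa [b, Set.union_empty] at a

/-- the vertex `o` is put into part `l` -/
theorem mp_update {o w : V} {S X : Finset V} (ok : TgOK r c ⊥ o S w X) (e : G = Tg c ⊥ o S w X)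
    {l : ℕ} (hl : l ∈ Icc 1 r) (hS : ∀ v ∈ S, c v ≠ l) :
    Mp G r (Function.update c o l) (spokes w X) (spokes o (Out c l \ S : Finset V)) := by
  refine ⟨AStr_le ok.le hl, fun i hi => ?_, fun u v => ?_⟩
  · have a1 := h.room hi
    have a2 := h.r3
    have a3 := h.rC
    have a4 := mem_Icc.1 hi
    have a5 : {v | c v = i} ⊆ {v | Function.update c o l v = i} := by
      intro v hv
      have b1 : c v = i := hv
      have b2 : v ≠ o := by
        rintro rfl
        have := ok.o0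
        omega
      show Function.update c o l v = i
      rwa [Function.update_of_ne b2]
    have a6 := Set.ncard_le_ncard a5
    rw [cn_eq] at a6
    omega
  · have a := Tg_adj (c := c) (H := ⊥) (o := o) (S := S) (w := w) (X := X) u v
    rw [← e] at a
    rw [a, AStr_spokes, AStr_spokes]
    have b1 := ok.hS u
    have b1' := ok.hS v
    have b2 := ok.hX w
    have b3 := ok.o0
    have b4 := ok.w0
    have b5 := ok.ow
    have b6 := hS u
    have b7 := hS v
    have b8 := mem_Icc.1 hl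
    simp only [cross, mem_coe, mem_sdiff, mem_Out, SimpleGraph.bot_adj]
    by_cases d1 : u = o <;> by_cases d2 : v = o
    · subst d1
      subst d2
      grind
    · subst d1
      rw [Function.update_self, Function.update_of_ne d2]
      grind
    · subst d2
      rw [Function.update_self, Function.update_of_ne d1]
      grind
    · rw [Function.update_of_ne d1, Function.update_of_ne d2]
      grind

theorem ni_update {o v : V} (l : ℕ) (ho : G.Adj o v) : NI G (Function.update c o l) := by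
  intro u hu
  by_cases e : u = o
  · exact ⟨v, e ▸ ho⟩
  · rw [Function.update_of_ne e] at hu
    exact h.ni u hu

/-- two vertices of one part when no pair is missing -/
theorem le_of_bot {o w : V} {S X : Finset V} (ok : TgOK r c ⊥ o S w X) (e : G = Tg c ⊥ o S w X)
    (hx : x w ≤ x o) {a b : V} (ha : c a ≠ 0) (hab : c b = c a) (h1 : a ∉ S) (h2 : b ∈ S) :
    x a ≤ x b := by
  have a1 := ok.op_eq x ha
  have a2 := ok.op_eq x (v := b) (hab ▸ ha)
  have a3 : ∀ v, op (⊥ : SimpleGraph V) x v = 0 := fun v => by simp [op, ad]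
  rw [← e, h.st.eig.eig, a3] at a1 a2
  rw [if_neg h1] at a1
  rw [if_pos h2, op_Kc_congr x hab] at a2
  have a4 := h.st.eig.nonneg w
  have a5 : (if a ∈ X then x w else 0) ≤ x w := by split_ifs <;> linarith
  have a6 : 0 ≤ (if b ∈ X then x w else 0) := by split_ifs <;> linarith
  exact le_of_mul_le_mul_left (by linarith) h.l0

end Ctx

omit [Fintype V] in
theorem pc_coe (c : V → ℕ) (X : Finset V) (i : ℕ) :
    pc c X i = (X.filter fun v => c v = i).card := by
  rw [pc, ← Set.ncard_coe_finset]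
  congr 1
  ext v
  simp

omit [Fintype V] in
theorem Trans.pc_eq {X : Finset V} (h : Trans r c X) {i : ℕ} (hi : i ∈ Icc 1 r) : pc c X i = 1 := by
  obtain ⟨v, hv, e⟩ := h.2.1 i hi
  rw [pc_coe, card_eq_one]
  refine ⟨v, eq_singleton_iff_unique_mem.2 ⟨mem_filter.2 ⟨hv, e⟩, fun u hu => ?_⟩⟩
  exact h.2.2 u (mem_filter.1 hu).1 v hv ((mem_filter.1 hu).2.trans e.symm)

omit [Fintype V] in
theorem one_le_pc {X : Finset V} {i : ℕ} (h : ∃ v ∈ X, c v = i) : 1 ≤ pc c X i := by
  obtain ⟨v, hv, e⟩ := h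
  rw [pc_coe]
  exact card_pos.2 ⟨v, mem_filter.2 ⟨hv, e⟩⟩

end Pool.Agent.P.MP_094db5_co
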