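import Pool.Agent.P.MP_094db5_co.ABig
import Pool.Agent.P.MP_094db5_co.AStr
import Pool.Agent.P.MP_094db5_co.AFr

/-! Books: the vertex of largest weight avoids a part. -/

set_option autoImplicit false

open Finset Classical

noncomputable section

namespace Pool.Agent.P.MP_094db5_co

variable {V : Type} [Fintype V] {r t C : ℕ} {G : SimpleGraph V} {x : V → ℝ} {η : ℝ} {c : V → ℕ}
  {z : V}

omit [Fintype V] in
theorem ABk1_clique (h : NoBook G r 0) {y : ℕ → V} {w : V}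
    (h1 : ∀ i ∈ Icc 1 r, ∀ j ∈ Icc 1 r, i ≠ j → G.Adj (y i) (y j))
    (h2 : ∀ i ∈ Icc 1 r, G.Adj w (y i)) : False := by
  have hK := clique_image h1
  rw [Nat.card_Icc, Nat.add_sub_cancel] at hK
  have := h _ hK {w} fun v hv u hu => by
    obtain ⟨i, hi, rfl⟩ := mem_image.1 hu
    rw [mem_singleton.1 hv]
    exact (h2 i hi).symm
  simp at this

omit [Fintype V] in
theorem ABk1_adj (hk : Hm G c = ⊥) {u v : V} (h : cross c u v) : G.Adj u v := by
  by_contra hn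
  have : (Hm G c).Adj u v := Hm_adj.2 ⟨h, hn⟩
  rw [hk] at this
  exact this

omit [Fintype V] in
theorem ABk1_trans {X : Finset V} {l : ℕ} (h : Trans r (Function.update c z l) X) (hz : z ∉ X) :
    Trans r c X := by
  have e : ∀ v ∈ X, Function.update c z l v = c v := fun v hv =>
    Function.update_of_ne (fun e : v = z => hz (e ▸ hv)) _ _
  refine ⟨fun v hv => e v hv ▸ h.1 v hv, fun i hi => ?_, fun u hu v hv huv => h.2.2 u hu v hv ?_⟩
  · obtain ⟨v, hv, hi⟩ := h.2.1 i hi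
    exact ⟨v, hv, e v hv ▸ hi⟩
  · rw [e u hu, e v hv, huv]

omit [Fintype V] in
theorem ABk1_adjX {H : SimpleGraph V} {o w v : V} {S X : Finset V} (ok : TgOK r c H o S w X)
    (e : G = Tg c H o S w X) (hv : v ∈ X) : G.Adj w v := by
  rw [e, Tg_adj]
  refine Or.inr (Or.inr ⟨fun hh => ?_, Or.inl ⟨rfl, hv⟩⟩)
  rcases ok.hX v hv with h | h
  · exact h (hh ▸ ok.w0)
  · exact ok.ow (hh.trans h).symm

namespace Ctx

variable (h : Ctx r C (fun G : SimpleGraph V => NoBook G r t) G x η c z) (hC : 4 * r * (t + 1) ≤ C)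
include h hC

omit hC in
theorem ABk1_room {i : ℕ} (hi : i ∈ Icc 1 r) : 2 ≤ cn c i := by
  have := h.room hi
  have := h.r3
  have := h.rC
  omega

omit hC in
theorem ABk1_hb : ∀ i ∈ Icc 1 r, 2 * ec (⊥ : SimpleGraph V) < cn c i := fun i hi => by
  have := h.ABk1_room hi
  rw [ec_bot]
  omega

omit hC in
theorem ABk1_pos {u v : V} (huv : G.Adj u v) (hv : c v ≠ 0) : 0 < x u :=
  h.st.eig.pos_of_adj huv (by linarith [h.pos hv])

omit hC in
theorem ABk1_mem {v : V} (hv : c v ≠ 0) : c v ∈ Icc 1 r :=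
  mem_Icc.2 ⟨Nat.one_le_iff_ne_zero.2 hv, h.st.le v⟩

/-- without missing pairs no outer vertex sees all parts of a clique-free graph -/
theorem not_sees (ht : t = 0) (hk : ec (Hm G c) = 0) (w : V) : ¬ Sees G r c w := by
  intro hs
  have _ := hC
  subst ht
  have : Nonempty V := ⟨w⟩
  choose! y hy using hs
  refine ABk1_clique h.ex.fr (y := y) (w := w) (fun i hi j hj hij => ?_) fun i hi => (hy i hi).2
  have h1 := (mem_Icc.1 hi).1
  have h2 := (mem_Icc.1 hj).1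
  refine ABk1_adj (ec_eq_zero.1 hk) ⟨?_, ?_, ?_⟩
  · rw [(hy i hi).1]; omega
  · rw [(hy j hj).1]; omega
  · rw [(hy i hi).1, (hy j hj).1]; exact hij

theorem ABk1_big0 (ht : t = 0) {l : ℕ} (hl : l ∈ Icc 1 r) (hz : ∀ v ∈ nT G c z, c v ≠ l)
    (hΔ : ec (Hm G c) + 2 * r ≤ ec (Xe G c) + 1) :
    ec (Hm G c) = 0 ∧ ec (Xe G c) = dT G c z + r := by
  have r3 := h.r3
  have hl' := mem_Icc.1 hl
  obtain ⟨o, o0, oz⟩ := h.other z
  have hI : ((Icc 1 r).erase l).card = r - 1 := by rw [card_erase_of_mem hl, Nat.card_Icc]; omega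
  have hex : ∀ B : Finset V, B.card ≤ 1 → ∀ i ∈ (Icc 1 r).erase l, ∃ v ∈ Out c l \ B, c v = i := by
    intro B hB i hi
    obtain ⟨hil, hi⟩ := mem_erase.1 hi
    have := h.ABk1_room hi
    obtain ⟨y, hy, hyB, -⟩ := exists_fresh (c := c) (i := i) ⊥ B (by rw [ec_bot]; omega)
    have := (mem_Icc.1 hi).1
    exact ⟨y, mem_sdiff.2 ⟨mem_Out.2 ⟨by omega, by omega⟩, hyB⟩, hy⟩
  obtain ⟨R, hR, Rc, R1, R2, R3⟩ := exists_reps c _ (hex ∅ (by simp))
  obtain ⟨b, hb⟩ : R.Nonempty := card_pos.1 (by omega)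
  obtain ⟨Y, hY, Yc, -, Y2, -⟩ := exists_reps c _ (hex {b} (by simp))
  have hRo : ∀ v ∈ R, c v ≠ 0 ∧ c v ≠ l := fun v hv => mem_Out.1 (mem_sdiff.1 (hR hv)).1
  have hoR : o ∉ R := fun hh => (hRo o hh).1 o0
  have hXc : (insert o R).card = r := by rw [card_insert_of_notMem hoR]; omega
  have hUc : (Out c l).card ≤ (Out c l \ {b}).card + 1 := by
    have := le_card_sdiff ({b} : Finset V) (Out c l)
    rw [card_singleton] at this
    omega
  have hcap := h.cap1 hl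
  have hav := h.avoid hl hz
  have key := h.big (H := ⊥) (o := o) (w := z) (U := Out c l \ {b}) (Y := Y) (X := insert o R)
    (σ := ec (Xe G c) - ec (Hm G c) - r) bot_le
    (fun v hv => (mem_Out.1 (mem_sdiff.1 hv).1).1) hY (by omega) (by omega) ?_
    (by rw [ec_bot]; omega) (by omega) (by omega) ?_ ?_
  · rw [ec_bot, hXc] at key
    exact ⟨key.1.symm, key.2⟩
  · intro S hYS hSU _
    have hS : ∀ v ∈ S, c v ≠ 0 ∧ c v ≠ l := fun v hv => mem_Out.1 (mem_sdiff.1 (hSU hv)).1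
    have ok : TgOK r c ⊥ o S z (insert o R) :=
      ⟨h.st.le, bot_le, o0, h.st.z0, oz, fun v hv => (hS v hv).1, fun v hv =>
        (mem_insert.1 hv).elim Or.inr fun hh => Or.inl (hRo v hh).1⟩
    refine ⟨ok, ok.freeB0 hl (fun v hv => (hS v hv).2) (fun v hv => ?_) (hRo b hb).1 (hRo b hb).2
      (fun hh => (mem_sdiff.1 (hSU hh)).2 (mem_singleton_self b)) fun v hv e => ?_,
      ok.nc2 h.ABk1_hb (mem_insert_self _ _) (l := l) (fun i hi hil => ?_) fun i hi hil => ?_⟩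
    · rcases mem_insert.1 hv with rfl | hv
      · omega
      · exact (hRo v hv).2
    · rcases mem_insert.1 hv with rfl | hv
      · exact absurd (e ▸ o0) (hRo b hb).1
      · exact R3 v hv b hb e
    · obtain ⟨v, hv, e⟩ := Y2 i (mem_erase.2 ⟨hil, hi⟩)
      exact ⟨v, hYS hv, e⟩
    · obtain ⟨v, hv, e⟩ := R2 i (mem_erase.2 ⟨hil, hi⟩)
      exact ⟨v, mem_insert_of_mem hv, e⟩
  · have : nT G c z \ (Out c l \ {b}) ⊆ {b} := fun v hv => by
      by_contra hn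
      obtain ⟨h1, h2⟩ := mem_sdiff.1 hv
      exact h2 (mem_sdiff.2 ⟨mem_Out.2 ⟨(mem_nT.1 h1).2, hz v h1⟩, hn⟩)
    have h1 := card_le_card this
    have h2 := h.rC
    rw [card_singleton] at h1
    rw [ec_bot, mul_add]
    omega
  · intro _ hk
    by_contra hn
    obtain ⟨w, -, hw⟩ := h.sees_noWw fun u v huv => hn ⟨u, v, huv⟩
    exact h.not_sees hC ht (hk ▸ ec_bot) w hw

omit hC in
theorem ABk1_fam {l : ℕ} (hl : l ∈ Icc 1 r) (hz : ∀ v ∈ nT G c z, c v ≠ l) {u : V} {X : Finset V}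
    (ok : TgOK r c ⊥ z (nT G c z) u X) (e : G = Tg c ⊥ z (nT G c z) u X)
    (hT : Trans r (Function.update c z l) X)
    (h0 : t = 0 → z ∈ X ∧ ∃ b ∈ X, c b ≠ 0 ∧ c b ≠ l ∧ b ∉ nT G c z ∧
      (∀ v ∈ X, c v ≠ 0 → v ∉ nT G c z → v = b) ∧ ∃ y ∈ nT G c z, c y = c b)
    (h1 : 1 ≤ t → z ∉ X ∧ ∀ v ∈ X, c v ≠ l → v ∉ nT G c z → ∀ y ∈ nT G c z, c y ≠ c v) :
    FamB r t G (Function.update c z l) := by
  have hl' := mem_Icc.1 hl
  have z0 := h.st.z0
  have up : ∀ v, c v ≠ 0 → Function.update c z l v = c v := fun v hv =>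
    Function.update_of_ne (fun e : v = z => hv (e ▸ z0)) _ _
  refine ⟨u, z, X, (Out c l \ nT G c z : Finset V), ?_, hT.1, fun v hv => ?_,
    fun i hi => (hT.pc_eq hi).ge, Or.inr (Or.inl ⟨h.mp_update ok e hl hz, ?_,
      fun i hi => hT.pc_eq hi, fun ht => ?_, fun ht => ?_⟩)⟩
  · rw [Function.update_of_ne ok.ow.symm]; exact ok.w0
  · have := mem_Out.1 (mem_sdiff.1 hv).1
    rw [up v this.1, Function.update_self]
    exact this
  · rw [Function.update_self]; omega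
  · obtain ⟨hzX, b, b1, b2, b3, b4, b5, y, y1, y2⟩ := h0 ht
    refine ⟨hzX, b, Set.eq_singleton_iff_unique_mem.2 ⟨⟨b1, ?_⟩, fun v hv => ?_⟩, y,
      fun hh => (mem_sdiff.1 hh).2 y1, ?_⟩
    · exact mem_coe.2 (mem_sdiff.2 ⟨mem_Out.2 ⟨b2, b3⟩, b4⟩)
    · have := mem_sdiff.1 hv.2
      exact b5 v hv.1 (mem_Out.1 this.1).1 this.2
    · rw [up y (mem_nT.1 y1).2, up b b2, y2]
  · obtain ⟨hzX, h2⟩ := h1 ht
    refine ⟨hzX, fun v hv y hy => ?_⟩
    obtain ⟨v1, v2⟩ := mem_sdiff.1 hv.2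
    obtain ⟨v0, vl⟩ := mem_Out.1 v1
    rw [up v v0] at hy
    have yz : y ≠ z := fun e => vl (by rw [← hy, e, Function.update_self])
    rw [Function.update_of_ne yz] at hy
    exact mem_coe.2 (mem_sdiff.2 ⟨mem_Out.2 ⟨hy ▸ v0, hy ▸ vl⟩, fun hh => h2 v hv.1 vl v2 y hh hy⟩)

theorem book_avoid0 (ht : t = 0) {l : ℕ} (hl : l ∈ Icc 1 r) (hz : ∀ v ∈ nT G c z, c v ≠ l)
    (hΔ : ec (Hm G c) + 2 * r ≤ ec (Xe G c) + 1) : ∃ c', FamB r t G c' ∧ NI G c' := by
  obtain ⟨hk, hE⟩ := h.ABk1_big0 hC ht hl hz hΔ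
  obtain ⟨u, X, ok, e, hT, hlast⟩ := h.avoid_eq hl hz hE
  have hb := ec_eq_zero.1 hk
  rw [hb] at ok e
  have hl' := mem_Icc.1 hl
  have z0 := h.st.z0
  have up : ∀ v, v ≠ z → Function.update c z l v = c v := fun v hv =>
    Function.update_of_ne hv _ _
  have hzX : z ∈ X := by
    by_contra hn
    refine h.not_sees hC ht hk u fun i hi => ?_
    obtain ⟨v, hv, hi⟩ := (ABk1_trans hT hn).2.1 i hi
    exact ⟨v, hi, ABk1_adjX ok e hv⟩
  have X0 : ∀ v ∈ X, v ≠ z → c v ≠ 0 := fun v hv hn => up v hn ▸ hT.1 v hv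
  have Xl : ∀ v ∈ X, c v ≠ l := fun v hv hh => by
    have hn : v ≠ z := fun e => by rw [e] at hh; omega
    exact hn (hT.2.2 v hv z hzX (by rw [up v hn, Function.update_self, hh]))
  have Xi : ∀ v ∈ X, ∀ v' ∈ X, c v' ≠ 0 → c v = c v' → v = v' := fun v hv v' hv' h0 hh =>
    hT.2.2 v hv v' hv' (by
      rw [up v fun e => h0 (by rw [← hh, e, z0]), up v' fun e => h0 (by rw [e, z0]), hh])
  obtain ⟨b, b1, b2, b3⟩ : ∃ b ∈ X, b ≠ z ∧ b ∉ nT G c z := by
    by_contra hn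
    have hn' : ∀ b ∈ X, b ≠ z → G.Adj z b := fun b h1 h2 => by
      by_contra h3
      exact hn ⟨b, h1, h2, fun h4 => h3 (mem_nT.1 h4).1⟩
    have : Nonempty V := ⟨u⟩
    choose! y hy using hT.2.1
    subst ht
    refine ABk1_clique h.ex.fr (y := y) (w := u) (fun i hi j hj hij => ?_) fun i hi =>
      ABk1_adjX ok e (hy i hi).1
    have hne : y i ≠ y j := fun e => hij (by rw [← (hy i hi).2, e, (hy j hj).2])
    by_cases h1 : y i = z
    · rw [h1] at hne ⊢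
      exact hn' _ (hy j hj).1 hne.symm
    by_cases h2 : y j = z
    · rw [h2]
      exact (hn' _ (hy i hi).1 h1).symm
    refine ABk1_adj hb ⟨X0 _ (hy i hi).1 h1, X0 _ (hy j hj).1 h2, fun hh => hne ?_⟩
    exact Xi _ (hy i hi).1 _ (hy j hj).1 (X0 _ (hy j hj).1 h2) hh
  have b0 := X0 b b1 b2
  obtain ⟨y, y1, y2⟩ := hlast hzX _ (h.ABk1_mem b0) (Xl b b1)
  refine ⟨_, h.ABk1_fam hl hz ok e hT (fun _ => ⟨hzX, b, b1, b0, Xl b b1, b3, fun v v1 v0 v3 => ?_,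
    y, y1, y2⟩) fun h1 => by omega, h.ni_update l (mem_nT.1 y1).1⟩
  by_contra hvb
  have yX : y ∉ X := fun hh => b3 (Xi y hh b b1 b0 y2 ▸ y1)
  have ok' : TgOK r c ⊥ z (nT G c z) u (insert y (X.erase b)) :=
    ⟨ok.le, ok.hH, ok.o0, ok.w0, ok.ow, ok.hS, fun a ha => (mem_insert.1 ha).elim
      (fun e => Or.inl (e ▸ (mem_nT.1 y1).2)) fun hh => ok.hX a (mem_of_mem_erase hh)⟩
  refine h.ex.switch h.st.eig ok e b1 yX ⟨ok', ok'.freeB0 hl hz (fun a ha => ?_) v0 (Xl v v1) v3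
    fun a ha hh => ?_, ok'.nc2 h.ABk1_hb (mem_insert_of_mem (mem_erase.2 ⟨b2.symm, hzX⟩))
      (hlast hzX) fun i hi hil => ?_⟩
    (h.le_of_bot ok e (h.st.zmax u ok.w0) b0 y2 b3 y1) (h.ABk1_pos (ABk1_adjX ok e b1) b0)
  · rcases mem_insert.1 ha with rfl | ha
    · exact hz a y1
    · exact Xl a (mem_of_mem_erase ha)
  · rcases mem_insert.1 ha with rfl | ha
    · exact absurd (Xi v v1 b b1 b0 (hh.symm.trans y2)) hvb
    · exact Xi a (mem_of_mem_erase ha) v v1 v0 hh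
  · obtain ⟨a, ha, hai⟩ := hT.2.1 i hi
    have az : a ≠ z := fun e => hil (by rw [← hai, e, Function.update_self])
    rw [up a az] at hai
    by_cases hab : a = b
    · exact ⟨y, mem_insert_self _ _, by rw [y2, ← hab, hai]⟩
    · exact ⟨a, mem_insert_of_mem (mem_erase.2 ⟨hab, ha⟩), hai⟩

omit hC in
theorem ABk1_adm (ht : 1 ≤ t) {l : ℕ} (hl : l ∈ Icc 1 r) {o w : V} (ho : c o = 0) (hw : c w = 0)
    (how : o ≠ w) {S X : Finset V} (hS : S ⊆ Out c l) (hT : Trans r c X) :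
    Adm r (fun G : SimpleGraph V => NoBook G r t) c ⊥ o S w X :=
  admB1 ht h.st.le bot_le h.ABk1_hb ho hw how hl hS hT.1 hT.2.1 fun i => (hT.filter_le i).trans ht

theorem book_avoid1 (ht : 1 ≤ t) {l : ℕ} (hl : l ∈ Icc 1 r) (hz : ∀ v ∈ nT G c z, c v ≠ l)
    (hΔ : ec (Hm G c) + r ≤ ec (Xe G c)) : ∃ c', FamB r t G c' ∧ NI G c' := by
  have _ := hC
  have r3 := h.r3
  have hl' := mem_Icc.1 hl
  have z0 := h.st.z0
  have hzO : nT G c z ⊆ Out c l := fun v hv => mem_Out.2 ⟨(mem_nT.1 hv).2, hz v hv⟩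
  obtain ⟨hk, hE⟩ : ec (Hm G c) = 0 ∧ ec (Xe G c) = dT G c z + r := by
    obtain ⟨o, o0, oz⟩ := h.other z
    obtain ⟨X, hT, -, -⟩ := exists_trans h.st.le (Y := ∅) ∅ (by simp) (by simp) fun i hi => by
      have := h.ABk1_room hi
      rw [card_empty]; omega
    have hXc := hT.card h.st.le
    have hcap := h.cap1 hl
    have hav := h.avoid hl hz
    have key := h.big (H := ⊥) (o := o) (w := z) (U := Out c l) (Y := ∅) (X := X)
      (σ := ec (Xe G c) - ec (Hm G c) - r) bot_le (fun v hv => (mem_Out.1 hv).1) (empty_subset _)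
      (by simp) (by omega) (fun S _ hS _ => h.ABk1_adm ht hl o0 z0 oz hS hT)
      (by rw [ec_bot]; omega) (by omega) (by omega)
      (by rw [sdiff_eq_empty_iff_subset.2 hzO, ec_bot]; simp) fun hh => absurd o0 (hT.1 o hh)
    rw [ec_bot, hXc] at key
    exact ⟨key.1.symm, key.2⟩
  obtain ⟨u, X, ok, e, hT, -⟩ := h.avoid_eq hl hz hE
  rw [ec_eq_zero.1 hk] at ok e
  have hu : 0 < x u := by
    obtain ⟨i, hi, hil⟩ : ∃ i ∈ Icc 1 r, i ≠ l := by
      by_cases h1 : l = 1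
      · exact ⟨2, mem_Icc.2 ⟨by omega, by omega⟩, by omega⟩
      · exact ⟨1, mem_Icc.2 ⟨by omega, by omega⟩, by omega⟩
    obtain ⟨a, ha, hai⟩ := hT.2.1 i hi
    have az : a ≠ z := fun e => hil (by rw [← hai, e, Function.update_self])
    exact h.ABk1_pos (ABk1_adjX ok e ha) ((ok.hX a ha).resolve_right az)
  have hzX : z ∉ X := fun hzX => by
    have := h.ABk1_room hl
    obtain ⟨y, hy, -, -⟩ := exists_fresh (c := c) (i := l) ⊥ ∅ (by rw [ec_bot, card_empty]; omega)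
    have yz : y ≠ z := fun e => by rw [e] at hy; omega
    have e1 : Function.update c z l y = Function.update c z l z := by
      rw [Function.update_of_ne yz, Function.update_self, hy]
    refine h.ex.switch h.st.eig ok e hzX (fun hh => yz (hT.2.2 y hh z hzX e1))
      (h.ABk1_adm ht hl z0 ok.w0 ok.ow hzO (ABk1_trans (hT.switch hzX e1) fun hh => ?_))
      (h.xz_lt (by omega)).le hu
    rcases mem_insert.1 hh with h1 | h1
    · exact yz h1.symm
    · exact (mem_erase.1 h1).1 rfl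
  have hT' := ABk1_trans hT hzX
  rcases (nT G c z).eq_empty_or_nonempty with hd | ⟨y, hy⟩
  · have hm := h.mp ok e
    rw [hd, coe_empty, SimpleGraph.edgeSet_bot] at hm
    obtain ⟨a, ha, -⟩ := hT'.2.1 l hl
    exact ⟨c, ⟨u, z, X, ∅, ok.w0, hT'.1, by simp, fun i hi => (hT'.pc_eq hi).ge,
      Or.inr (Or.inr ⟨hm, ht, z0, fun i hi => (hT'.pc_eq hi).le.trans ht, by simp,
        fun hh => hh ha, fun hh => absurd hh Set.not_nonempty_empty⟩)⟩, h.ni⟩
  · refine ⟨_, h.ABk1_fam hl hz ok e hT (fun h0 => by omega) fun _ =>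
      ⟨hzX, fun v v1 _ v3 a a1 a2 => ?_⟩, h.ni_update l (mem_nT.1 hy).1⟩
    exact h.ex.switch h.st.eig ok e v1 (fun hh => v3 (hT'.2.2 a hh v v1 a2 ▸ a1))
      (h.ABk1_adm ht hl z0 ok.w0 ok.ow hzO (hT'.switch v1 a2))
      (h.le_of_bot ok e (h.st.zmax u ok.w0) (hT'.1 v v1) a2 v3 a1) hu

end Ctx

end Pool.Agent.P.MP_094db5_co
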