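import Pool.Agent.P.MP_094db5_co.ABig
import Pool.Agent.P.MP_094db5_co.AStr
import Pool.Agent.P.MP_094db5_co.AFr

/-! Books: the vertex of largest weight sees all parts. -/

set_option autoImplicit false

open Finset Classical

noncomputable section

namespace Pool.Agent.P.MP_094db5_co

variable {V : Type} [Fintype V] {r t C : ℕ} {G : SimpleGraph V} {x : V → ℝ} {η : ℝ} {c : V → ℕ}
  {z : V}

namespace Ctx

variable (h : Ctx r C (fun G : SimpleGraph V => NoBook G r t) G x η c z) (hC : 4 * r * (t + 1) ≤ C)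
include h hC

/-- the first type -/
theorem book_typeA {u a b : V} (hu : c u = 0) (hE : ec (Xe G c) ≤ dT G c u)
    (hk : ec (Hm G c) = 1) (ha : a ∈ nT G c u) (hb : b ∈ nT G c u) (hab : (Hm G c).Adj a b)
    (hp : ((nT G c u).filter fun v => c v = c a).card *
      ((nT G c u).filter fun v => c v = c b).card ≤ 1) : FamB r t G c := by
  obtain ⟨o, ok, e, hs, -⟩ := h.one hu hE
  have hH : Hm G c = Sg a {b} := eq_Sg_of_ec (by simpa using hab) (by simp [hk])
  rw [hH] at ok e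
  have A : 0 < ((nT G c u).filter fun v => c v = c a).card := card_pos.2 ⟨a, mem_filter.2 ⟨ha, rfl⟩⟩
  have B : 0 < ((nT G c u).filter fun v => c v = c b).card := card_pos.2 ⟨b, mem_filter.2 ⟨hb, rfl⟩⟩
  refine ⟨u, a, nT G c u, {b}, hu, fun v hv => (mem_nT.1 hv).2, ?_, fun i hi => ?_, Or.inl
    ⟨by simpa using h.mp_star' ok (by simpa using hab.ne) e, ha, b, hb, rfl, ?_, ?_⟩⟩
  · rintro v rfl
    exact ⟨hab.1.2.1, hab.1.2.2.symm⟩
  · obtain ⟨y, rfl, hy⟩ := hs i hi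
    exact one_le_pc ⟨y, mem_nT.2 ⟨hy, by have := mem_Icc.1 hi; omega⟩, rfl⟩
  · rw [pc_coe]; nlinarith
  · rw [pc_coe]; nlinarith

theorem book_pair (hz : Sees G r c z) (hΔ : ec (Hm G c) + r ≤ ec (Xe G c)) {a b : V}
    (ha : a ∈ nT G c z) (hb : b ∈ nT G c z) (hab : (Hm G c).Adj a b)
    (hp : ((nT G c z).filter fun v => c v = c a).card *
      ((nT G c z).filter fun v => c v = c b).card ≤ ec (Hm G c)) : FamB r t G c := by
  have r3 := h.r3
  have e1 : ec (Sg a {b}) = 1 := by rw [ec_Sg (by simpa using hab.ne), card_singleton]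
  have hH : Sg a {b} ≤ Hm G c := Sg_le (by simpa using hab)
  have k1 := ec_mono hH
  have C4 : 4 * r ≤ C := by nlinarith
  obtain ⟨w, w0, wz⟩ := h.other z
  obtain ⟨a0, b0, ab⟩ := hab.1
  obtain ⟨Y, tY, hY, -⟩ := exists_trans h.st.le (Y := {a, b}) ∅ (by simp [a0, b0])
    (by simp [ab, ab.symm]) fun i hi => by have := h.room hi; simp; omega
  have aY : a ∈ Y := hY (by simp)
  have bY : b ∈ Y := hY (by simp)
  have hU : ∀ v ∈ {a, b} ∪ (Out c (c a) ∩ Out c (c b)), c v ≠ 0 ∧ (c v = c a → v = a) ∧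
      (c v = c b → v = b) := fun v hv => by
    simp only [mem_union, mem_insert, mem_singleton, mem_inter, mem_Out] at hv
    grind
  have A : 0 < ((nT G c z).filter fun v => c v = c a).card := card_pos.2 ⟨a, mem_filter.2 ⟨ha, rfl⟩⟩
  have B : 0 < ((nT G c z).filter fun v => c v = c b).card := card_pos.2 ⟨b, mem_filter.2 ⟨hb, rfl⟩⟩
  have le : (nT G c z \ ({a, b} ∪ (Out c (c a) ∩ Out c (c b)))).card ≤ ec (Hm G c) + 1 := by
    refine ((card_le_card fun v hv => ?_).trans (card_union_le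
      ((nT G c z).filter fun v => c v = c a) ((nT G c z).filter fun v => c v = c b))).trans ?_
    · simp only [mem_sdiff, mem_union, mem_inter, mem_Out, mem_filter, mem_nT] at hv ⊢
      tauto
    · obtain ⟨A, hA⟩ := Nat.exists_eq_add_of_lt A
      obtain ⟨B, hB⟩ := Nat.exists_eq_add_of_lt B
      rw [hA, hB] at hp ⊢
      nlinarith [Nat.zero_le (A * B)]
  have yc := tY.card h.st.le
  obtain ⟨q1, q2⟩ := h.big (o := z) (w := w) (X := ∅) (Y := Y) (σ := ec (Xe G c) + 1 - ec (Hm G c))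
    hH (fun v hv => (hU v hv).1) (fun v hv => by
      have := tY.1 v hv
      have := tY.2.2 v hv a aY
      have := tY.2.2 v hv b bY
      simp only [mem_union, mem_insert, mem_singleton, mem_inter, mem_Out]
      tauto) (by omega)
    (((Nat.sub_le _ _).trans (h.cap2 (mem_Icc.2 ⟨by omega, h.st.le a⟩)
      (mem_Icc.2 ⟨by omega, h.st.le b⟩) ab)).trans (card_le_card subset_union_right))
    (fun S h1 h2 _ => (admA h.st.le (hH.trans (Hm_le G c))
      (fun i hi => by have := h.room hi; omega) w0 h.st.z0 wz (fun v hv => (hU v (h2 hv)).1)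
      (fun i hi => (tY.2.1 i hi).imp fun v hv => ⟨h1 hv.1, hv.2⟩) (a := a) (b := b)
      ⟨hab.ne, by simp⟩ (fun v hv => (hU v (h2 hv)).2.1) fun v hv => (hU v (h2 hv)).2.2).swap
        fun hw => (hU w (h2 hw)).1 w0)
    (by rw [card_empty]; omega) (by simpa using h.dT_le) (by simp) (by rw [e1, yc]; nlinarith)
    (by simp)
  exact h.book_typeA hC h.st.z0 (by simpa using q2.le) (by omega) ha hb hab (by omega)

/-- either there is a small pair or the degree is small -/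
theorem book_alt {u : V} (hu : Sees G r c u) :
    (∃ a ∈ nT G c u, ∃ b ∈ nT G c u, (Hm G c).Adj a b ∧
      ((nT G c u).filter fun v => c v = c a).card *
        ((nT G c u).filter fun v => c v = c b).card ≤ ec (Hm G c)) ∨
    1 ≤ t ∧ ∀ i ∈ Icc 1 r, ((nT G c u).filter fun v => c v = i).card ≤ ec (Hm G c) + t := by
  have r3 := h.r3
  have hs : ∀ i ∈ Icc 1 r, ∃ v ∈ nT G c u, c v = i := fun i hi => by
    obtain ⟨y, rfl, hy⟩ := hu i hi
    exact ⟨y, mem_nT.2 ⟨hy, by have := mem_Icc.1 hi; omega⟩, rfl⟩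
  rcases Nat.eq_zero_or_pos t with rfl | ht
  · refine Or.inl (exists_small_pair (I := Icc 1 r) (by simp) hs fun K hK _ hc => ?_)
    simpa using h.ex.fr K (by simpa using hc) {u} (by simpa using fun v hv => (mem_nT.1 (hK hv)).1.symm)
  refine or_iff_not_imp_right.2 fun hn => ?_
  obtain ⟨i, hi, hlt⟩ : ∃ i ∈ Icc 1 r, ec (Hm G c) + t < ((nT G c u).filter fun v => c v = i).card := by
    by_contra h'
    exact hn ⟨ht, fun i hi => not_lt.1 fun h'' => h' ⟨i, hi, h''⟩⟩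
  refine exists_small_pair (I := (Icc 1 r).erase i) (by simp)
    (fun j hj => hs j (mem_of_mem_erase hj)) fun K hK hl hc => ?_
  have hc' := hc.insert fun v hv => (mem_nT.1 (hK hv)).1
  rw [card_erase_add_one hi, Nat.card_Icc, Nat.add_sub_cancel] at hc'
  set P := (nT G c u).filter fun v => c v = i with hP
  have t1 := h.ex.fr _ hc' (P.filter fun v => ∀ w ∈ K, G.Adj w v) fun v hv w hw => by
    rcases mem_insert.1 hw with rfl | hw
    · exact (mem_nT.1 (mem_filter.1 (mem_filter.1 hv).1).1).1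
    · exact (mem_filter.1 hv).2 w hw
  have t2 : (P.filter fun v => ¬ ∀ w ∈ K, G.Adj w v).card ≤ ec (Hm G c) := by
    have : ∀ v, ∃ w, (¬ ∀ w ∈ K, G.Adj w v) → w ∈ K ∧ ¬ G.Adj w v := fun v => by
      by_cases hv : ∀ w ∈ K, G.Adj w v
      · exact ⟨v, fun h => absurd hv h⟩
      · push Not at hv
        exact hv.imp fun _ h _ => h
    choose f hf using this
    have q : ∀ v ∈ P.filter fun v => ¬ ∀ w ∈ K, G.Adj w v, c v = i ∧ c (f v) ≠ i ∧
        (Hm G c).Adj (f v) v := fun v hv => by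
      obtain ⟨h1, h2⟩ := mem_filter.1 hv
      obtain ⟨h1, h3⟩ := mem_filter.1 h1
      have h4 := (mem_erase.1 (hl _ (hf v h2).1)).1
      exact ⟨h3, h4, ⟨(mem_nT.1 (hK (hf v h2).1)).2, (mem_nT.1 h1).2, h3 ▸ h4⟩, (hf v h2).2⟩
    rw [← Set.ncard_coe_finset]
    refine Set.ncard_le_ncard_of_injOn (fun v => s(f v, v)) (fun v hv => (q v hv).2.2)
      (fun v hv v' hv' e => ?_) (Set.toFinite _)
    rcases Sym2.eq_iff.1 e with e | e
    · exact e.2
    · exact absurd (e.1 ▸ (q v' hv').1) (q v hv).2.1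
  have := card_filter_add_card_filter_not (s := P) fun v => ∀ w ∈ K, G.Adj w v
  omega

theorem ABk2_adm (ht : 1 ≤ t) : ∃ Y, Trans r c Y ∧ (∀ X, Y ⊆ X → (∀ v ∈ X, c v ≠ 0) →
    (∀ i, (X.filter fun v => c v = i).card ≤ t) → ∃ w, c w = 0 ∧ ∀ S ⊆ Out c 1,
      Adm r (fun G : SimpleGraph V => NoBook G r t) c ⊥ z S w X) ∧
    ∃ U, Y ⊆ U ∧ (∀ v ∈ U, c v ≠ 0) ∧ U.card = r * t ∧
      ∀ i, (U.filter fun v => c v = i).card ≤ t := by
  have r3 := h.r3
  have : t < C := by nlinarith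
  obtain ⟨Y, tY, -⟩ := exists_trans h.st.le (Y := ∅) ∅ (by simp) (by simp)
    fun i hi => by have := h.room hi; simp; omega
  obtain ⟨w, w0, wz⟩ := h.other z
  exact ⟨Y, tY, fun X h1 h2 h3 => ⟨w, w0, fun S hS => admB1 ht h.st.le bot_le
    (fun i hi => by have := h.room hi; rw [ec_bot]; omega) h.st.z0 w0 wz.symm
    (mem_Icc.2 ⟨le_rfl, by omega⟩) hS h2 (fun i hi => (tY.2.1 i hi).imp fun v hv => ⟨h1 hv.1, hv.2⟩)
    h3⟩, exists_full h.st.le tY.1 (fun i => (tY.filter_le i).trans ht)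
      fun i hi => by have := h.room hi; omega⟩

theorem ABk2_big (ht : 1 ≤ t) (hΔ : ec (Hm G c) + r ≤ ec (Xe G c))
    (hj : dT G c z + r ≤ ec (Xe G c)) (hd : dT G c z ≤ C * (1 + ec (Hm G c))) :
    ec (Hm G c) = 0 ∧ ec (Xe G c) = dT G c z + r := by
  have r3 := h.r3
  obtain ⟨X, tX, ad, -⟩ := h.ABk2_adm hC ht
  obtain ⟨w, w0, ad⟩ := ad X Subset.rfl tX.1 fun i => (tX.filter_le i).trans ht
  have xc := tX.card h.st.le
  have cap := h.cap1 (l := 1) (mem_Icc.2 ⟨le_rfl, by omega⟩)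
  have := h.big (Y := ∅) (U := Out c 1) (σ := ec (Xe G c) - ec (Hm G c) - r) bot_le
    (fun v hv => (mem_Out.1 hv).1) (empty_subset _) (by simp) (by omega) (fun S _ h2 _ => ad S h2)
    (by rw [ec_bot]; omega) (by omega) xc.le
    (by rw [ec_bot]; simpa using (card_le_card sdiff_subset).trans hd)
    fun hz => absurd h.st.z0 (tX.1 z hz)
  rw [ec_bot, xc] at this
  exact ⟨this.1.symm, this.2⟩

theorem book_none (ht : 1 ≤ t) (hΔ : ec (Hm G c) + r ≤ ec (Xe G c)) (hk : 1 ≤ ec (Hm G c))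
    (hd : dT G c z ≤ r * (ec (Hm G c) + t)) : False := by
  have r3 := h.r3
  obtain ⟨X, tX, ad, -⟩ := h.ABk2_adm hC ht
  obtain ⟨w, w0, ad⟩ := ad X Subset.rfl tX.1 fun i => (tX.filter_le i).trans ht
  have xc := tX.card h.st.le
  have cap := h.cap1 (l := 1) (mem_Icc.2 ⟨le_rfl, by omega⟩)
  by_cases hj : dT G c z + r ≤ ec (Xe G c)
  · have := (h.ABk2_big hC ht hΔ hj (hd.trans (by nlinarith [h.rC]))).1
    omega
  · obtain ⟨S, h1, h2⟩ := exists_subset_card_eq (s := Out c 1) (n := ec (Xe G c) - ec (Hm G c) - r)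
      (by omega)
    refine h.kmin (ad S h1) (by rw [ec_bot]; omega) (by rw [ec_bot]; omega) ?_
      (by rw [bot_sdiff, ec_bot]; omega)
    have : r * (t + 1) ≤ r * (t + 1) * ec (Hm G c) := Nat.le_mul_of_pos_right _ hk
    have : 4 * r * (t + 1) * ec (Hm G c) ≤ C * ec (Hm G c) := Nat.mul_le_mul_right _ hC
    rw [ec_bot]
    nlinarith [Nat.zero_le (r * t * ec (Hm G c))]

theorem book_typeC (ht : 1 ≤ t) (hz : Sees G r c z) (hk : ec (Hm G c) = 0)
    (hd : ∀ i ∈ Icc 1 r, ((nT G c z).filter fun v => c v = i).card ≤ t) : FamB r t G c := by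
  have r3 := h.r3
  have hH := ec_eq_zero.1 hk
  have Eg := h.E_ge
  obtain ⟨d1, d2⟩ := card_le_of_parts h.st.le (fun v hv => (mem_nT.1 hv).2) hd
  have rt : r ≤ r * t := Nat.le_mul_of_pos_right _ ht
  have hC' : 4 * (r * t) + 4 * r ≤ C := by nlinarith
  have hs : ∀ i ∈ Icc 1 r, ∃ v ∈ nT G c z, c v = i := fun i hi => by
    obtain ⟨y, rfl, hy⟩ := hz i hi
    exact ⟨y, mem_nT.2 ⟨hy, by have := mem_Icc.1 hi; omega⟩, rfl⟩
  have dz : dT G c z ≤ r * t := d1
  have hE : ec (Xe G c) ≤ r * t + r := by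
    by_contra hn
    have := (h.ABk2_big hC ht (by omega) (by omega) (by rw [hk]; omega)).2
    omega
  obtain ⟨Y, tY, ad, U, YU, U0, Uc, Ut⟩ := h.ABk2_adm hC ht
  have sm : ∑ u ∈ Vp c 0, dT G c u ≤ ec (Xe G c) := by rw [ec_Xe]; omega
  by_cases hE' : ec (Xe G c) ≤ r * t
  · obtain ⟨X, h1, h2, h3⟩ := exists_subsuperset_card_eq YU (n := ec (Xe G c))
      (by rwa [tY.card h.st.le]) (by omega)
    obtain ⟨w, w0, ad⟩ := ad X h1 (fun v hv => U0 v (h2 hv)) fun i =>
      (card_le_card (filter_subset_filter _ h2)).trans (Ut i)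
    have := h.squares (hH ▸ ad ∅ (empty_subset _)) (by simpa) (by omega)
    rw [erase_eq_of_notMem fun hz => U0 z (h2 hz) h.st.z0, h3] at this
    obtain ⟨u, hu, du⟩ := sq_one (by omega) sm (by simpa [D2] using this)
    obtain ⟨o, ok, e, -, -⟩ := h.one h.st.z0 (du ▸ h.dT_le_z (by omega) (mem_Vp.1 hu))
    obtain ⟨v, hv, -⟩ := hs 1 (mem_Icc.2 ⟨le_rfl, by omega⟩)
    exact ⟨z, o, nT G c z, ∅, h.st.z0, fun v hv => (mem_nT.1 hv).2, by simp,
      fun i hi => one_le_pc (hs i hi), Or.inr (Or.inr ⟨by simpa [hH] using h.mp ok e, ht, ok.o0,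
        fun i hi => by rw [pc_coe]; exact hd i hi, by simp, fun h => h hv, by simp⟩)⟩
  obtain ⟨w, w0, ad⟩ := ad U YU U0 Ut
  have cap := h.cap1 (l := 1) (mem_Icc.2 ⟨le_rfl, by omega⟩)
  obtain ⟨S, h1, h2⟩ := exists_subset_card_eq (s := Out c 1) (n := ec (Xe G c) - r * t) (by omega)
  have := h.squares (hH ▸ ad S h1) (by omega) (by omega)
  rw [erase_eq_of_notMem fun hz => U0 z hz h.st.z0, h2, Uc, add_comm] at this
  obtain ⟨dz', u, hu, uz, du⟩ := sq_two (d := dT G c) (m := r * t) (e := ec (Xe G c) - r * t)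
    (mem_Vp.2 h.st.z0) (by omega) (by omega) (by omega)
    (fun u hu => h.dT_le_z (by omega) (mem_Vp.1 hu)) dz this
  obtain ⟨ok, e⟩ := h.two (mem_Vp.1 hu) h.st.z0 uz (by omega)
  refine ⟨z, u, nT G c z, nT G c u, h.st.z0, fun v hv => (mem_nT.1 hv).2,
    fun v hv => ⟨(mem_nT.1 hv).2, ok.o0 ▸ (mem_nT.1 hv).2⟩, fun i hi => one_le_pc (hs i hi),
    Or.inr (Or.inr ⟨by simpa [hH] using h.mp ok e, ht, ok.o0,
      fun i hi => by rw [pc_coe]; exact hd i hi, ?_, fun hs' => ?_,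
      fun _ => ⟨uz, fun i hi => by rw [pc_coe]; exact d2 dz' i hi⟩⟩)⟩
  · rw [Set.ncard_coe_finset]
    exact du.le.trans (by omega)
  · have : dT G c z ≤ dT G c u := card_le_card hs'
    have : Nonempty V := ⟨z⟩
    choose! f f1 f2 using hs
    have cl := clique_image (G := G) (I := Icc 1 r) (z := f) fun i hi j hj ij => by
      by_contra hn
      exact (hH ▸ Hm_adj.2 ⟨⟨(mem_nT.1 (f1 i hi)).2, (mem_nT.1 (f1 j hj)).2,
        by rwa [f2 i hi, f2 j hj]⟩, hn⟩ : (⊥ : SimpleGraph V).Adj (f i) (f j))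
    have := h.ex.fr _ (by simpa using cl) {u, z} fun v hv y hy => by
      obtain ⟨i, hi, rfl⟩ := mem_image.1 hy
      rcases mem_insert.1 hv with rfl | hv
      · exact (mem_nT.1 (hs' (f1 i hi))).1.symm
      · exact mem_singleton.1 hv ▸ (mem_nT.1 (f1 i hi)).1.symm
    rw [card_pair uz] at this
    have := Nat.mul_le_mul_left r this
    omega

theorem book_sees (hz : Sees G r c z) (hΔ : ec (Hm G c) + r ≤ ec (Xe G c)) : FamB r t G c := by
  rcases h.book_alt hC hz with ⟨a, ha, b, hb, h1, h2⟩ | ⟨ht, h1⟩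
  · exact h.book_pair hC hz hΔ ha hb h1 h2
  · rcases Nat.eq_zero_or_pos (ec (Hm G c)) with hk | hk
    · exact h.book_typeC hC ht hz hk (by simpa [hk] using h1)
    · exact (h.book_none hC ht hΔ hk
        (card_le_of_parts h.st.le (fun v hv => (mem_nT.1 hv).2) h1).1).elim

end Ctx

end Pool.Agent.P.MP_094db5_co
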