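import Pool.Agent.P.MP_094db5_co.AHb

/-! The star maximises the second order functional. -/

set_option autoImplicit false

open Finset Classical

noncomputable section

namespace Pool.Agent.P.MP_094db5_co

variable {V : Type} [Fintype V] {c : V → ℕ} {H : SimpleGraph V}

lemma ASb_pos {a b : ℝ} (ha : 0 ≤ a) (h : 0 < a * b) : 0 < b := by
  by_contra hb
  exact absurd h (not_lt.2 (mul_nonpos_of_nonneg_of_nonpos ha (not_lt.1 hb)))

lemma ASb_big {k l ε A B Q Γ Δ : ℝ} (hk : 1 ≤ k) (h0 : 0 ≤ ε) (h1 : 1000 * ε ≤ 1)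
    (hl : k ≤ ε * l) (l0 : 0 < l) (hA : 1 - ε ≤ A) (hB : B ≤ 1 + ε) (hAB : A ≤ B)
    (hQ : Q ≤ k ^ 2 + k) (hΔ : Γ ≤ Δ) (hΓ : k / 10 ≤ l * Γ)
    (h : l * A * Δ + k ^ 2 * B ^ 2 + k * A ^ 2 - B ^ 2 * Q - (2 * B + 2 * ε) * k * Γ ≤ k / 20) :
    False := by
  have A0 : 0 ≤ A := by linarith
  have G0 : 0 ≤ Γ := (ASb_pos l0.le (by linarith)).le
  have X0 : 0 ≤ l * Γ := by linarith
  have a1 : l * A * Γ ≤ l * A * Δ := mul_le_mul_of_nonneg_left hΔ (mul_nonneg l0.le A0)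
  have a2 : (999 / 1000) * (l * Γ) ≤ A * (l * Γ) := mul_le_mul_of_nonneg_right (by linarith) X0
  have a3 : k * Γ ≤ ε * l * Γ := mul_le_mul_of_nonneg_right hl G0
  have a4 : ε * (l * Γ) ≤ (1 / 1000) * (l * Γ) := mul_le_mul_of_nonneg_right (by linarith) X0
  have a5 : (2 * B + 2 * ε) * (k * Γ) ≤ 3 * (k * Γ) :=
    mul_le_mul_of_nonneg_right (by linarith) (mul_nonneg (by linarith) G0)
  have a6 : B ^ 2 * Q ≤ B ^ 2 * (k ^ 2 + k) := mul_le_mul_of_nonneg_left hQ (sq_nonneg B)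
  have a7 : B ^ 2 - A ^ 2 ≤ 1 / 100 := by nlinarith
  have a8 : k * (B ^ 2 - A ^ 2) ≤ k * (1 / 100) := mul_le_mul_of_nonneg_left a7 (by linarith)
  linarith

lemma ASb_small {k l ε A B Q Γ Δ : ℝ} (hk : 1 ≤ k) (h0 : 0 ≤ ε) (h1 : 1000 * ε ≤ 1)
    (l0 : 0 < l) (hA : 1 - ε ≤ A) (hB : B ≤ 1 + ε) (hAB : A ≤ B)
    (hQ : 3 * Q + k ≤ 3 * (k ^ 2 + k)) (hΔ : 0 ≤ Δ) (hΓ : Γ ≤ 4 * ε)
    (h : l * A * Δ + k ^ 2 * B ^ 2 + k * A ^ 2 - B ^ 2 * Q - (2 * B + 2 * ε) * k * Γ ≤ k / 20) :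
    False := by
  have A0 : 0 ≤ A := by linarith
  have a1 : 0 ≤ l * A * Δ := mul_nonneg (mul_nonneg l0.le A0) hΔ
  have a2 : B ^ 2 * Q ≤ B ^ 2 * (k ^ 2 + 2 / 3 * k) :=
    mul_le_mul_of_nonneg_left (by linarith) (sq_nonneg B)
  have a3 : (2 * B + 2 * ε) * Γ ≤ 1 / 50 := by nlinarith
  have a4 : 3 / 10 ≤ A ^ 2 - 2 / 3 * B ^ 2 := by nlinarith
  have a5 : k * ((2 * B + 2 * ε) * Γ) ≤ k * (1 / 50) := mul_le_mul_of_nonneg_left a3 (by linarith)
  have a6 : k * (3 / 10) ≤ k * (A ^ 2 - 2 / 3 * B ^ 2) := mul_le_mul_of_nonneg_left a4 (by linarith)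
  linarith

lemma ASb_sum (g : V → ℝ) : ∑ v, op H g v = ∑ u, g u * H.degree u := by
  unfold op
  rw [sum_comm]
  refine sum_congr rfl fun u _ => ?_
  rw [← sum_ad, mul_sum]
  exact sum_congr rfl fun v _ => by rw [ad_comm, mul_comm]

lemma ASb_single {g : V → ℝ} (hg : ∀ u, 0 ≤ g u) {u : V} {n : ℕ} (hn : n ≤ H.degree u) :
    n * g u ≤ ∑ v, op H g v := by
  rw [ASb_sum]
  have h1 : (n : ℝ) ≤ H.degree u := by exact_mod_cast hn
  calc n * g u ≤ g u * H.degree u := by rw [mul_comm]; exact mul_le_mul_of_nonneg_left h1 (hg u)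
    _ ≤ _ := single_le_sum (f := fun u => g u * (H.degree u : ℝ))
      (fun v _ => mul_nonneg (hg v) (Nat.cast_nonneg _)) (mem_univ u)

lemma ASb_deg2 {a b d : V} (h1 : H.Adj a b) (h2 : H.Adj a d) (h : b ≠ d) : 2 ≤ H.degree a := by
  rw [← SimpleGraph.card_neighborFinset_eq_degree]
  exact one_lt_card.2 ⟨b, by simpa using h1, d, by simpa using h2, h⟩

lemma ASb_op_sq {p g : V → ℝ} {B e : ℝ} (hB : 0 ≤ B) (he : 0 ≤ e) (hg0 : ∀ u, 0 ≤ g u)
    (hge : ∀ u, g u ≤ e) (hp : ∀ u v, H.Adj u v → 0 ≤ p v ∧ p v ≤ B + g v) :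
    ∑ v, op H p v ^ 2 ≤
      B ^ 2 * ((∑ v, H.degree v ^ 2 : ℕ) : ℝ) + (2 * B + e) * ec H * ∑ v, op H g v := by
  push_cast
  rw [mul_sum, mul_sum, ← sum_add_distrib]
  refine sum_le_sum fun v _ => ?_
  have a0 : 0 ≤ op H p v := sum_nonneg fun u _ => by
    unfold ad
    split_ifs with h
    · rw [one_mul]; exact (hp v u h).1
    · rw [zero_mul]
  have a1 : op H p v ≤ B * H.degree v + op H g v := by
    unfold op
    rw [← sum_ad, mul_sum, ← sum_add_distrib]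
    refine sum_le_sum fun u _ => ?_
    unfold ad
    split_ifs with h
    · linarith [(hp v u h).2]
    · simp
  have a2 : (H.degree v : ℝ) ≤ ec H := by
    have := op_le (H := H) (x := fun _ => 1) zero_le_one (fun _ _ _ => le_rfl) v
    unfold op at this
    simpa only [mul_one, sum_ad] using this
  have a3 : 0 ≤ op H g v := op_nonneg hg0 v
  have a4 : op H g v ≤ ec H * e := op_le he (fun u _ _ => hge u) v
  have a5 : op H p v ^ 2 ≤ (B * H.degree v + op H g v) ^ 2 := pow_le_pow_left₀ a0 a1 2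
  have a6 : B * H.degree v ≤ B * ec H := mul_le_mul_of_nonneg_left a2 hB
  have a7 : op H g v * (2 * (B * H.degree v) + op H g v) ≤ op H g v * (2 * (B * ec H) + ec H * e) :=
    mul_le_mul_of_nonneg_left (by linarith) a3
  linarith

lemma ASb_qf {p g : V → ℝ} {A M s t : ℝ}
    (hp : ∀ u v, H.Adj u v → M + A * (s * g u + t * g v) ≤ p u * p v) :
    2 * ec H * M + A * ((s + t) * ∑ v, op H g v) ≤ qf H p := by
  have e1 : ∑ v, op H g v = S2 fun u v => ad H u v * g v := rfl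
  have e2 : ∑ v, op H g v = S2 fun u v => ad H u v * g u := by
    rw [e1, S2_comm]
    exact S2_congr fun u v => by rw [ad_comm]
  have e3 : 2 * ec H * M + A * ((s + t) * ∑ v, op H g v) =
      M * Mo H + (A * s) * (∑ v, op H g v) + (A * t) * ∑ v, op H g v := by
    rw [Mo_ec]; ring
  rw [e3]
  nth_rewrite 2 [e1]
  rw [e2, Mo, S2_mul, S2_mul, S2_mul, S2_add, S2_add]
  refine S2_mono fun u v => ?_
  unfold ad
  split_ifs with h
  · linarith [hp u v h]
  · simp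

lemma ASb_star {p : V → ℝ} {a : V} {D : Finset V} (ha : a ∉ D) :
    (∑ v ∈ D, p v) ^ 2 + D.card * p a ^ 2 ≤ ∑ v, op (Sg a D) p v ^ 2 := by
  refine le_trans (le_of_eq ?_) (sum_le_univ_sum_of_nonneg (s := insert a D)
    (f := fun v => op (Sg a D) p v ^ 2) fun v => sq_nonneg _)
  rw [sum_insert ha, op_Sg_self ha, ← nsmul_eq_mul, ← sum_const]
  congr 1
  refine sum_congr rfl fun v hv => ?_
  rw [op_Sg ha p (fun e => ha (e ▸ hv)), if_pos hv]

/-- `P` is the value on the parts, `i` and `j` are the two cheapest parts; `f` is the number of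
leaves of the star outside part `j` -/
theorem star_of_second {P : ℕ → ℝ} {p : V → ℝ} {l ε : ℝ} {i j : ℕ} {a : V} {D D₁ : Finset V}
    (hH : H ≤ Kc c) (hp : ∀ v, c v ≠ 0 → p v = P (c v)) (h0 : 0 ≤ ε) (h1 : 1000 * ε ≤ 1)
    (hε : ∀ v, c v ≠ 0 → |p v - 1| ≤ ε) (hk : 1 ≤ ec H) (hl : (ec H : ℝ) ≤ ε * l) (hij : i ≠ j)
    (hj : j ≠ 0) (hP : P i ≤ P j)
    (hgap : ∀ v, c v ≠ 0 → c v ≠ i → c v ≠ j → ec H / 10 ≤ l * (p v - P j))
    (ha : c a = i) (hi : i ≠ 0) (hD : D.card = ec H) (hD₁ : D₁ ⊆ D) (hDj : ∀ v ∈ D \ D₁, c v = j)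
    (hne : (D \ D₁).Nonempty) (hf : D₁.card ≤ 1)
    (hf' : ∀ v ∈ D₁, c v ≠ 0 ∧ c v ≠ i ∧ c v ≠ j ∧ (∀ u, c u = 0 ∨ c u = i ∨ c u = j ∨ c u = c v) ∧
      ∃ u u', H.Adj u u' ∧ c u = c v)
    (h : l * (qf H p - qf (Sg a D) p) + ∑ v, op (Sg a D) p v ^ 2 - ∑ v, op H p v ^ 2 ≤
      ec H / 20) : ∃ a, ∀ u v, H.Adj u v → u = a ∨ v = a := by
  have hk' : (1 : ℝ) ≤ ec H := by exact_mod_cast hk
  have l0 : 0 < l := ASb_pos h0 (by linarith)
  have pa : p a = P i := by rw [hp a (ha ▸ hi), ha]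
  have hA : 1 - ε ≤ P i := by
    have := (abs_le.1 (hε a (ha ▸ hi))).1
    linarith
  obtain ⟨b, hb⟩ := hne
  have pj : ∀ v, c v = j → p v = P j := fun v e => by rw [hp v (e ▸ hj), e]
  have pi : ∀ v, c v = i → p v = P i := fun v e => by rw [hp v (e ▸ hi), e]
  have hB : P j ≤ 1 + ε := by
    have := (abs_le.1 (hε b (hDj b hb ▸ hj))).2
    linarith [pj b (hDj b hb)]
  have A0 : 0 ≤ P i := by linarith
  obtain ⟨g, g1, g2⟩ : ∃ g : V → ℝ, (∀ u, c u ≠ 0 → c u ≠ i → c u ≠ j → g u = p u - P j) ∧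
      ∀ u, c u = 0 ∨ c u = i ∨ c u = j → g u = 0 := by
    refine ⟨fun u => if c u = 0 ∨ c u = i ∨ c u = j then 0 else p u - P j, fun u a b d => ?_,
      fun u e => if_pos e⟩
    exact if_neg (by tauto)
  have gc : ∀ u, (c u = 0 ∨ c u = i ∨ c u = j) ∨ (c u ≠ 0 ∧ c u ≠ i ∧ c u ≠ j) := fun u => by tauto
  have gl : ∀ u, c u ≠ 0 → c u ≠ i → c u ≠ j → ec H / 10 ≤ l * g u := fun u a b d => by
    rw [g1 u a b d]; exact hgap u a b d
  have g0 : ∀ u, 0 ≤ g u := fun u => by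
    rcases gc u with e | ⟨a, b, d⟩
    · exact (g2 u e).ge
    · exact (ASb_pos l0.le (by linarith [gl u a b d])).le
  have ge : ∀ u, g u ≤ 2 * ε := fun u => by
    rcases gc u with e | ⟨a, b, d⟩
    · rw [g2 u e]; linarith
    · rw [g1 u a b d]
      linarith [(abs_le.1 (hε u a)).2]
  have pg : ∀ u, c u ≠ 0 → c u ≠ i → p u = P j + g u := fun u a b => by
    by_cases d : c u = j
    · rw [pj u d, g2 u (Or.inr (Or.inr d)), add_zero]
    · rw [g1 u a b d]; ring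
  have pl : ∀ u, c u ≠ 0 → P i ≤ p u := fun u a => by
    by_cases d : c u = i
    · exact (pi u d).ge
    · linarith [pg u a d, g0 u]
  have pu : ∀ u, c u ≠ 0 → p u ≤ P j + g u := fun u a => by
    by_cases d : c u = i
    · linarith [pi u d, g0 u]
    · exact (pg u a d).le
  have edge : ∀ u v, H.Adj u v → P i * P j + P i * g u ≤ p u * p v := fun u v e => by
    obtain ⟨a, b, d⟩ := hH e
    by_cases hu : c u = i
    · rw [pi u hu, g2 u (Or.inr (Or.inl hu)), pg v b (fun e => d (hu.trans e.symm))]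
      linarith [mul_nonneg A0 (g0 v)]
    · rw [pg u a hu]
      have : (P j + g u) * P i ≤ (P j + g u) * p v :=
        mul_le_mul_of_nonneg_left (pl v b) (by linarith [g0 u])
      linarith
  have aD : a ∉ D := fun e => by
    by_cases e1 : a ∈ D₁
    · exact (hf' a e1).2.1 ha
    · exact hij (ha.symm.trans (hDj a (mem_sdiff.2 ⟨e, e1⟩)))
  have sD : ∑ v ∈ D, p v = ec H * P j + ∑ v ∈ D₁, g v := by
    have e1 : ∑ v ∈ D₁, g v = ∑ v ∈ D, g v :=
      sum_subset hD₁ fun v e e' => g2 v (Or.inr (Or.inr (hDj v (mem_sdiff.2 ⟨e, e'⟩))))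
    rw [e1, ← hD, ← nsmul_eq_mul, ← sum_const, ← sum_add_distrib]
    refine sum_congr rfl fun v e => ?_
    by_cases e' : v ∈ D₁
    · exact pg v (hf' v e').1 (hf' v e').2.1
    · have := hDj v (mem_sdiff.2 ⟨e, e'⟩)
      exact pg v (this ▸ hj) (this ▸ hij.symm)
  have s1 := ASb_op_sq (H := H) (p := p) (B := P j) (e := 2 * ε) (by linarith) (by linarith) g0 ge
    fun u v e => ⟨A0.trans (pl v (hH e).2.1), pu v (hH e).2.1⟩
  have s2 := ASb_star (p := p) aD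
  rw [qf_Sg aD, pa, sD] at h
  rw [pa, sD, hD] at s2
  have γ0 : 0 ≤ ∑ v ∈ D₁, g v := sum_nonneg fun v _ => g0 v
  have q1 : ((∑ v, H.degree v ^ 2 : ℕ) : ℝ) ≤ (ec H : ℝ) ^ 2 + ec H := by
    exact_mod_cast sum_degree_sq_le H
  generalize hΓ : ∑ v, op H g v = Γ at s1
  generalize hγ : ∑ v ∈ D₁, g v = γ at h s2 γ0
  have main : ∀ M, 2 * ec H * (P i * P j) + P i * M ≤ qf H p →
      l * P i * (M - 2 * γ) + (ec H : ℝ) ^ 2 * P j ^ 2 + ec H * P i ^ 2 -
        P j ^ 2 * ((∑ v, H.degree v ^ 2 : ℕ) : ℝ) - (2 * P j + 2 * ε) * ec H * Γ ≤ ec H / 20 := by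
    intro M hM
    have b1 := mul_le_mul_of_nonneg_left hM l0.le
    have b2 : 0 ≤ γ * (2 * (ec H * P j) + γ) :=
      mul_nonneg γ0 (by linarith [mul_nonneg (zero_le_one.trans hk') (A0.trans hP)])
    linarith
  obtain ⟨a₀, b₀, h00⟩ := exists_adj_of_ec hk
  have fin : ∀ M, 2 * ec H * (P i * P j) + P i * M ≤ qf H p → 0 ≤ M - 2 * γ → Γ ≤ 4 * ε →
      (∀ a b d, H.Adj a b → H.Adj b d → ¬ H.Adj a d) → ∃ a, ∀ u v, H.Adj u v → u = a ∨ v = a := by
    intro M hM m0 m1 tri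
    refine star_of_inter h00 (fun a b d e h1' h2' => ?_) tri
    by_contra hn
    simp only [not_or] at hn
    have q2 : 3 * ((∑ v, H.degree v ^ 2 : ℕ) : ℝ) + ec H ≤ 3 * ((ec H : ℝ) ^ 2 + ec H) := by
      exact_mod_cast sum_degree_sq_le' h1' h2' hn.1 hn.2.1 hn.2.2.1 hn.2.2.2
    exact ASb_small hk' h0 h1 l0 hA hB hP q2 m0 m1 (main M hM)
  rcases D₁.eq_empty_or_nonempty with e | ⟨w, hw⟩
  · rw [e, sum_empty] at hγ
    subst hγ
    have hM := ASb_qf (H := H) (p := p) (g := g) (A := P i) (M := P i * P j) (s := 1) (t := 0)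
      fun u v e => by linarith [edge u v e]
    rw [hΓ] at hM
    have Γ0 : 0 ≤ Γ := hΓ ▸ sum_nonneg fun v _ => op_nonneg g0 v
    by_cases big : ec H / 10 ≤ l * Γ
    · exact (ASb_big hk' h0 h1 hl l0 hA hB hP q1 (by linarith) big (main _ hM)).elim
    have col : ∀ u v, H.Adj u v → c u = i ∨ c u = j := fun u v e => by
      by_contra hn
      simp only [not_or] at hn
      have b1 := ASb_single (H := H) g0 (n := 1) (e.degree_pos_left)
      rw [hΓ] at b1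
      have b2 : l * g u ≤ l * Γ := mul_le_mul_of_nonneg_left (by simpa using b1) l0.le
      exact big ((gl u (hH e).1 hn.1 hn.2).trans b2)
    refine fin _ hM (by linarith) ?_ fun x y z e1 e2 e3 => ?_
    · refine le_of_mul_le_mul_left ?_ l0
      linarith [not_le.1 big]
    · have c1 := col _ _ e1
      have c2 := col _ _ e2
      have c3 := col _ _ e3.symm
      have d1 := (hH e1).2.2
      have d2 := (hH e2).2.2
      have d3 := (hH e3).2.2
      omega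
  · have eD : D₁ = {w} := eq_singleton_iff_unique_mem.2
      ⟨hw, fun v hv => card_le_one.1 hf v hv w hw⟩
    rw [eD, sum_singleton] at hγ
    subst hγ
    obtain ⟨w0, wi, wj, wall, u₀, u₁, hu, hcu⟩ := hf' w hw
    have gw : ∀ u, c u = c w → g u = g w := fun u e => by
      rw [g1 u (e ▸ w0) (e ▸ wi) (e ▸ wj), g1 w w0 wi wj, hp u (e ▸ w0), hp w w0, e]
    have hM := ASb_qf (H := H) (p := p) (g := g) (A := P i) (M := P i * P j) (s := 1) (t := 1)
      fun u v e => by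
        have e1 := edge u v e
        have e2 := edge v u e.symm
        have d := (hH e).2.2
        by_cases hu : c u = c w
        · have : g v = 0 := g2 v (by have := wall v; omega)
          rw [this]
          linarith
        · have : g u = 0 := g2 u (by have := wall u; omega)
          rw [this]
          linarith
    rw [hΓ] at hM
    have b1 := ASb_single (H := H) g0 (n := 1) (hu.degree_pos_left)
    rw [hΓ, gw u₀ hcu] at b1
    have b1' : g w ≤ Γ := by simpa using b1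
    by_cases big : 2 * g w ≤ Γ
    · have b2 : l * g w ≤ l * Γ := mul_le_mul_of_nonneg_left b1' l0.le
      exact (ASb_big hk' h0 h1 hl l0 hA hB hP q1 (by linarith) ((gl w w0 wi wj).trans b2)
        (main _ hM)).elim
    have two : ∀ x y z, H.Adj x y → H.Adj x z → y ≠ z → c x ≠ c w := fun x y z e1 e2 e3 e => by
      have b2 := ASb_single (H := H) g0 (ASb_deg2 e1 e2 e3)
      rw [hΓ, gw x e] at b2
      exact big (by simpa using b2)
    refine fin _ hM (by linarith) (by linarith [not_le.1 big, ge w]) fun x y z e1 e2 e3 => ?_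
    have t1 := two _ _ _ e1 e3 e2.ne
    have t2 := two _ _ _ e1.symm e2 e3.ne
    have t3 := two _ _ _ e2.symm e3.symm e1.ne.symm
    have c1 := wall x
    have c2 := wall y
    have c3 := wall z
    obtain ⟨x0, y0, d1⟩ := hH e1
    obtain ⟨_, z0, d2⟩ := hH e2
    have d3 := (hH e3).2.2
    omega

end Pool.Agent.P.MP_094db5_co
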