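import Pool.Agent.P.MP_094db5_co.ASa
import Pool.Agent.P.MP_094db5_co.ASb

/-! The missing pairs form a star. -/

set_option autoImplicit false

open Finset Classical

noncomputable section

namespace Pool.Agent.P.MP_094db5_co

variable {V : Type} [Fintype V] {r C : ℕ} {Fr : SimpleGraph V → Prop} {G : SimpleGraph V}
  {x : V → ℝ} {η : ℝ} {c : V → ℕ} {z : V}

theorem ASc_third {i j : ℕ} (hi : i ∈ Icc 1 3) (hj : j ∈ Icc 1 3) (hij : i ≠ j) :
    ∃ m ∈ Icc 1 3, m ≠ i ∧ m ≠ j ∧ ∀ n, n ≤ 3 → n = 0 ∨ n = i ∨ n = j ∨ n = m := by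
  rw [mem_Icc] at hi hj
  exact ⟨6 - i - j, mem_Icc.2 (by omega), by omega, by omega, fun n hn => by omega⟩

theorem ASc_core (h : Ctx r C Fr G x η c z) (hE : ec (Xe G c) ≤ C) (hk : 2 ≤ ec (Hm G c))
    {i j : ℕ} (hi : i ∈ Icc 1 r) (hj : j ∈ Icc 1 r) (hij : i ≠ j) (hP : Pc x c j ≤ Pc x c i)
    (hgap : ∀ m ∈ Icc 1 r, m ≠ i → m ≠ j → Pc x c m + ec (Hm G c) / 10 ≤ Pc x c j)
    {a : V} {D D₁ : Finset V} (ha : c a = i) (haD : a ∉ D) (hD : D.card = ec (Hm G c))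
    (hD₁ : D₁ ⊆ D) (hDj : ∀ v ∈ D \ D₁, c v = j) (hne : (D \ D₁).Nonempty) (hf : D₁.card ≤ 1)
    (hf' : ∀ v ∈ D₁, c v ≠ 0 ∧ c v ≠ i ∧ c v ≠ j ∧ (∀ u, c u = 0 ∨ c u = i ∨ c u = j ∨ c u = c v) ∧
      ∃ u u', (Hm G c).Adj u u' ∧ c u = c v)
    {o w : V} {S X : Finset V} (had : Adm r Fr c (Sg a D) o S w X)
    (he : S.card + X.card = ec (Xe G c)) (hsq : D2 G c ≤ S.card ^ 2 + (X.erase o).card ^ 2) :
    ∃ a, ∀ u v, (Hm G c).Adj u v → u = a ∨ v = a := by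
  have l0 := h.l0
  have η0 := h.η0
  have hC : (1 : ℝ) ≤ C := by
    have := h.r3
    have := h.rC
    exact_mod_cast (by omega : 1 ≤ C)
  have hk0 : (0 : ℝ) ≤ ec (Hm G c) := Nat.cast_nonneg _
  have hp : ∀ v, c v ≠ 0 → pp G c x v =
      (fun m => (∑ n ∈ Icc 1 r, Pc x c n - Pc x c m) / lam G) (c v) := fun v hv => by
    rw [pp, op_Kc h.st.le x hv]
  have hsm : 10 ^ 5 * (C ^ 2 * η) ≤ 1 := by
    have h3 : (C : ℝ) ^ 2 ≤ C ^ 5 := pow_le_pow_right₀ hC (by norm_num)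
    have := mul_le_mul_of_nonneg_right h3 η0.le
    linarith [h.sm]
  have hη : 10 ^ 5 * η ≤ 1 := by
    have h3 : (1 : ℝ) ≤ C ^ 2 := one_le_pow₀ hC
    have := mul_le_mul_of_nonneg_right h3 η0.le
    linarith
  have sec := h.second had ((ec_Sg haD).trans hD) (by omega) he hE hsq
  refine star_of_second (P := fun m => (∑ n ∈ Icc 1 r, Pc x c n - Pc x c m) / lam G)
    (p := pp G c x) (l := lam G) (ε := 4 * η) (Hm_le G c) hp (by positivity) (by linarith)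
    (fun v hv => h.pp_near hE hv) (by omega) ?_ hij ?_ ?_ ?_ ha ?_ hD hD₁ hDj hne hf hf' ?_
  · have := h.st.hk
    have := mul_pos η0 l0
    linarith
  · have := (mem_Icc.1 hj).1
    omega
  · exact div_le_div_of_nonneg_right (by linarith) l0.le
  · intro v hv hvi hvj
    have := hgap (c v) (mem_Icc.2 ⟨Nat.one_le_iff_ne_zero.2 hv, h.st.le v⟩) hvi hvj
    rw [hp v hv]
    simp only
    rw [← sub_div, mul_div_cancel₀ _ l0.ne']
    linarith
  · have := (mem_Icc.1 hi).1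
    omega
  · have := mul_le_mul_of_nonneg_right hsm hk0
    have := mul_nonneg (mul_nonneg (sq_nonneg (C : ℝ)) η0.le) hk0
    linarith

theorem Ctx.star (h : Ctx r C Fr G x η c z) (hE : ec (Xe G c) ≤ C) (hk : 2 ≤ ec (Hm G c))
    (hg : ∀ i ∈ Icc 1 r, ∀ j ∈ Icc 1 r, i ≠ j → cn c j ≤ cn c i →
      3 * cn c j + ec (Hm G c) ≤ 3 * cn c i) (fl : Prop)
    (hf : fl → r = 3 ∧ ∀ i ∈ Icc 1 r, ∃ u v, (Hm G c).Adj u v ∧ c u = i)
    (hs : ∀ (a : V) (D : Finset V), (∀ v ∈ D, cross c a v) → D.card = ec (Hm G c) →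
      (fl → ∀ i ∈ Icc 1 r, i ≠ c a → ∃ v ∈ D, c v = i) → ∃ o S w X, Adm r Fr c (Sg a D) o S w X ∧
        S.card + X.card = ec (Xe G c) ∧ D2 G c ≤ S.card ^ 2 + (X.erase o).card ^ 2) :
    ∃ a, ∀ u v, (Hm G c).Adj u v → u = a ∨ v = a := by
  have r3 := h.r3
  obtain ⟨i, hi, hiM⟩ := exists_max_image (Icc 1 r) (Pc x c) ⟨1, mem_Icc.2 (by omega)⟩
  obtain ⟨j, hj', hjM⟩ := exists_max_image ((Icc 1 r).erase i) (Pc x c)
    (card_pos.1 (by rw [card_erase_of_mem hi, Nat.card_Icc]; omega))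
  obtain ⟨hji, hj⟩ := mem_erase.1 hj'
  have hi0 : i ≠ 0 := by have := (mem_Icc.1 hi).1; omega
  have hj0 : j ≠ 0 := by have := (mem_Icc.1 hj).1; omega
  have hgap : ∀ m ∈ Icc 1 r, m ≠ i → m ≠ j → Pc x c m + ec (Hm G c) / 10 ≤ Pc x c j := by
    intro m hm hmi hmj
    rcases le_total (cn c m) (cn c j) with e | e
    · exact h.gap_sum hE (by omega) hj hm (hg j hj m hm hmj.symm e)
    · have h1 := h.gap_sum hE (by omega) hm hj (hg m hm j hj hmj e)
      have h2 := hjM m (mem_erase.2 ⟨hmi, hm⟩)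
      have h3 : (2 : ℝ) ≤ ec (Hm G c) := by exact_mod_cast hk
      linarith
  have hpt : ∀ m ∈ Icc 1 r, ∃ v, c v = m := fun m hm => by
    have := h.room hm
    obtain ⟨v, hv⟩ := card_pos.1 (show 0 < (Vp c m).card by rw [card_Vp]; omega)
    exact ⟨v, mem_Vp.1 hv⟩
  obtain ⟨a, ha⟩ := hpt i hi
  have hroom := h.room hj
  by_cases hfl : fl
  · obtain ⟨e3, hall⟩ := hf hfl
    obtain ⟨m, hm, hmi, hmj, hcov⟩ := ASc_third (e3 ▸ hi) (e3 ▸ hj) hji.symm
    rw [← e3] at hm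
    have hm0 : m ≠ 0 := by have := (mem_Icc.1 hm).1; omega
    obtain ⟨b, hb⟩ := hpt m hm
    obtain ⟨D, hD, hDc⟩ := exists_subset_card_eq
      (show ec (Hm G c) - 1 ≤ (Vp c j).card by rw [card_Vp]; omega)
    have hDj : ∀ v ∈ D, c v = j := fun v hv => mem_Vp.1 (hD hv)
    have hbD : b ∉ D := fun e => hmj (hb.symm.trans (hDj b e))
    obtain ⟨d, hd⟩ := card_pos.1 (show 0 < D.card by omega)
    have hcard : (insert b D).card = ec (Hm G c) := by rw [card_insert_of_notMem hbD]; omega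
    have hcr : ∀ v ∈ insert b D, cross c a v := by
      intro v hv
      rcases mem_insert.1 hv with e | e
      · rw [e]
        exact ⟨ha ▸ hi0, hb ▸ hm0, by rw [ha, hb]; exact hmi.symm⟩
      · exact ⟨ha ▸ hi0, (hDj v e).symm ▸ hj0, by rw [ha, hDj v e]; exact hji.symm⟩
    obtain ⟨o, S, w, X, had, he, hsq⟩ := hs a (insert b D) hcr hcard (by
      intro _ n hn hna
      have hn' := mem_Icc.1 hn
      rcases hcov n (by omega) with e | e | e | e
      · omega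
      · exact absurd (e.trans ha.symm) hna
      · exact ⟨d, mem_insert_of_mem hd, (hDj d hd).trans e.symm⟩
      · exact ⟨b, mem_insert_self _ _, hb.trans e.symm⟩)
    refine ASc_core h hE hk hi hj hji.symm (hiM j hj) hgap (D₁ := {b}) ha
      (fun e => (hcr a e).2.2 rfl) hcard (by simp) ?_ ?_ (by simp) ?_ had he hsq
    · intro v hv
      obtain ⟨h1, h2⟩ := mem_sdiff.1 hv
      exact hDj v ((mem_insert.1 h1).resolve_left fun e => h2 (mem_singleton.2 e))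
    · exact ⟨d, mem_sdiff.2 ⟨mem_insert_of_mem hd, fun e => hbD (mem_singleton.1 e ▸ hd)⟩⟩
    · intro v hv
      rw [mem_singleton.1 hv, hb]
      exact ⟨hm0, hmi, hmj, fun u => hcov (c u) (e3 ▸ h.st.le u), hall m hm⟩
  · obtain ⟨D, hD, hDc⟩ := exists_subset_card_eq
      (show ec (Hm G c) ≤ (Vp c j).card by rw [card_Vp]; omega)
    have hDj : ∀ v ∈ D, c v = j := fun v hv => mem_Vp.1 (hD hv)
    have hcr : ∀ v ∈ D, cross c a v := fun v e =>
      ⟨ha ▸ hi0, (hDj v e).symm ▸ hj0, by rw [ha, hDj v e]; exact hji.symm⟩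
    obtain ⟨o, S, w, X, had, he, hsq⟩ := hs a D hcr hDc fun e => absurd e hfl
    refine ASc_core h hE hk hi hj hji.symm (hiM j hj) hgap (D₁ := ∅) ha
      (fun e => (hcr a e).2.2 rfl) hDc (empty_subset _) ?_ ?_ (by simp) (by simp) had he hsq
    · intro v hv
      exact hDj v (mem_sdiff.1 hv).1
    · rw [sdiff_empty]
      exact card_pos.1 (by omega)

end Pool.Agent.P.MP_094db5_co
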