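import Pool.Agent.P.MP_094db5_co.ABk1
import Pool.Agent.P.MP_094db5_co.ABk2
import Pool.Agent.P.MP_094db5_co.ASc

/-! Books: few outer edges, and the main structure theorem. -/

set_option autoImplicit false

open Finset Classical

noncomputable section

namespace Pool.Agent.P.MP_094db5_co

variable {V : Type} [Fintype V] {r t C : ℕ} {G : SimpleGraph V} {x : V → ℝ} {η : ℝ} {c : V → ℕ}
  {z : V}

theorem ABk3_adm {H : SimpleGraph V} {o w a b : V} {X : Finset V} (hc : ∀ v, c v ≤ r)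
    (hH : H ≤ Kc c) (hb : ∀ i ∈ Icc 1 r, 2 * ec H < cn c i) (ho : c o = 0) (hw : c w = 0)
    (how : o ≠ w) (hX : Trans r c X) (hab : H.Adj a b) (ha : a ∈ X) (hb' : b ∈ X) :
    Adm r (fun G : SimpleGraph V => NoBook G r t) c H o ∅ w X :=
  admA hc hH hb ho hw how hX.1 hX.2.1 hab (fun v hv e => hX.2.2 v hv a ha e)
    fun v hv e => hX.2.2 v hv b hb' e

omit [Fintype V] in
theorem ABk3_le {H : SimpleGraph V} {a b : V} (h : H.Adj a b) : Sg a {b} ≤ H :=
  Sg_le fun v hv => by rwa [mem_singleton.1 hv]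

omit [Fintype V] in
theorem ABk3_adj {a b : V} {D : Finset V} (h : a ≠ b) (hb : b ∈ D) : (Sg a D).Adj a b :=
  ⟨h, Or.inl ⟨rfl, hb⟩⟩

theorem ABk3_ec {a b : V} (h : a ≠ b) : ec (Sg a {b}) = 1 := by
  rw [ec_Sg (by simpa using h), card_singleton]

omit [Fintype V] in
theorem ABk3_sdiff {H H' : SimpleGraph V} (h : H ≤ H') : ec (H \ H') ≤ r := by
  rw [sdiff_eq_bot_iff.2 h, ec_bot]
  exact Nat.zero_le _

theorem ABk3_sum (G : SimpleGraph V) (c : V → ℕ) : ∑ u ∈ Vp c 0, dT G c u ≤ ec (Xe G c) := by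
  rw [ec_Xe]
  exact Nat.le_add_right _ _

namespace Ctx

theorem ABk3_room {Fr : SimpleGraph V → Prop} (h : Ctx r C Fr G x η c z) {n : ℕ}
    (hn : n ≤ ec (Hm G c)) : ∀ i ∈ Icc 1 r, 2 * n < cn c i := fun i hi => by
  have := h.room hi
  have := h.r3
  have := h.rC
  omega

theorem ABk3_trans {Fr : SimpleGraph V → Prop} (h : Ctx r C Fr G x η c z) {a b : V}
    (hab : cross c a b) : ∃ X, Trans r c X ∧ a ∈ X ∧ b ∈ X := by
  obtain ⟨X, h1, h2, -⟩ := exists_trans h.st.le (Y := {a, b}) ∅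
    (fun v hv => by
      rcases mem_insert.1 hv with rfl | hv
      exacts [hab.1, mem_singleton.1 hv ▸ hab.2.1])
    (fun u hu v hv e => by
      have := hab.2.2
      simp only [mem_insert, mem_singleton] at hu hv
      grind)
    (fun i hi => h.ABk3_room (Nat.zero_le _) i hi)
  exact ⟨X, h1, h2 (by simp), h2 (by simp)⟩

variable (h : Ctx r C (fun G : SimpleGraph V => NoBook G r t) G x η c z) (hC : 4 * r * (t + 1) ≤ C)
include h hC

theorem book_E (hΔ : ec (Xe G c) < ec (Hm G c) + r) : ec (Xe G c) = r := by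
  have h1 := h.E_ge
  by_contra hne
  obtain ⟨a, b, hab⟩ := exists_adj_of_ec (H := Hm G c) (by omega)
  obtain ⟨X, hX, ha, hb⟩ := h.ABk3_trans hab.1
  obtain ⟨o, ho, hoz⟩ := h.other z
  obtain ⟨H, h2, h3, h4⟩ := exists_between (ABk3_le hab) (n := ec (Hm G c) + r - ec (Xe G c))
    (by rw [ABk3_ec hab.ne]; omega) (by omega)
  have h5 := hX.card h.st.le
  refine h.kmin (ABk3_adm h.st.le (h3.trans (Hm_le G c)) (h.ABk3_room (ec_mono h3)) ho h.st.z0 hoz
    hX (h2 (ABk3_adj hab.ne (by simp))) ha hb) (by rw [card_empty]; omega) (by omega) ?_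
    (ABk3_sdiff h3)
  obtain ⟨d, hd⟩ : ∃ d, ec (Xe G c) = r + (d + 1) := ⟨ec (Xe G c) - r - 1, by omega⟩
  have h6 : ec (Hm G c) = ec H + (d + 1) := by omega
  have h7 : 4 * r ≤ C := le_trans (Nat.le_mul_of_pos_right _ (by omega)) hC
  have := h.r3
  rw [h6, hd]
  nlinarith

theorem book_star (hE : ec (Xe G c) = r) (hk : 1 ≤ ec (Hm G c)) :
    ∃ a, ∀ u v, (Hm G c).Adj u v → u = a ∨ v = a := by
  obtain ⟨a, b, hab⟩ := exists_adj_of_ec hk
  obtain ⟨o, ho, hoz⟩ := h.other z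
  rcases hk.eq_or_lt with hk1 | hk2
  · have e : Hm G c = Sg a {b} :=
      eq_Sg_of_ec (fun v hv => by rwa [mem_singleton.1 hv]) (by rw [card_singleton]; omega)
    refine ⟨a, fun u v huv => ?_⟩
    rw [e] at huv
    exact huv.2.imp And.left And.left
  obtain ⟨X, hX, ha, hb⟩ := h.ABk3_trans hab.1
  have hE' : ec (Xe G c) ≤ C := hE ▸ h.rC
  refine h.star hE' hk2 (fun i hi j hj hij hle => ?_) False False.elim fun a' D hD hDc _ => ?_
  · have := h.gap (ABk3_le hab) (o := o) (w := z) (S := ∅) (X := X)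
      (by rw [card_empty, hX.card h.st.le, hE, zero_add]) hE'
      (fun c' H h1 h2 h3 h4 h5 h6 => by
        have h7 : ∀ v ∈ X, c' v = c v := fun v hv => h3 v (mem_union_right _ hv)
        refine ABk3_adm h1 h5 h6 ((h2 o).2 ho) ((h2 z).2 h.st.z0) hoz
          ⟨fun v hv => h7 v hv ▸ hX.1 v hv, fun i hi => ?_, fun u hu v hv e => ?_⟩
          (h4 (ABk3_adj hab.ne (by simp))) ha hb
        · obtain ⟨v, hv, e⟩ := hX.2.1 i hi
          exact ⟨v, hv, (h7 v hv).trans e⟩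
        · exact hX.2.2 u hu v hv (by rw [← h7 u hu, e, h7 v hv])) hi hj hij hle
    rw [ABk3_ec hab.ne] at this
    omega
  · obtain ⟨b', hb'⟩ : D.Nonempty := card_pos.1 (by omega)
    obtain ⟨Y, hY, ha', hbY⟩ := h.ABk3_trans (hD b' hb')
    have haD : a' ∉ D := fun e => (hD a' e).2.2 rfl
    refine ⟨o, ∅, z, Y, ABk3_adm h.st.le (Sg_le (H := Kc c) hD)
      (h.ABk3_room (by rw [ec_Sg haD, hDc])) ho h.st.z0 hoz hY
      (ABk3_adj (fun e => haD (e ▸ hb')) hb') ha' hbY,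
      by rw [card_empty, hY.card h.st.le, hE, zero_add], ?_⟩
    rw [erase_eq_of_notMem fun e => hY.1 o e ho, hY.card h.st.le, ← hE]
    refine le_add_left ((sum_sq_le_sq_sum_of_nonneg fun _ _ => Nat.zero_le _).trans ?_)
    exact Nat.pow_le_pow_left (ABk3_sum G c) 2

theorem book_small (hΔ : ec (Xe G c) < ec (Hm G c) + r) : FamB r t G c := by
  have hE := h.book_E hC hΔ
  have hk : 1 ≤ ec (Hm G c) := by omega
  have hE' : ec (Xe G c) ≤ C := hE ▸ h.rC
  obtain ⟨u, hu, hd, hX⟩ := h.single hE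
  obtain ⟨o, ok, e, -, -⟩ := h.one hu (by omega)
  obtain ⟨a, ha⟩ := h.book_star hC hE hk
  have hadj : ∀ v ∈ nT G c u, G.Adj u v := fun v hv => (mem_nT.1 hv).1
  rw [dT] at hd
  generalize nT G c u = X at hX ok e hadj hd
  obtain ⟨D, hD⟩ : ∃ D : Finset V, D = univ.filter fun v => (Hm G c).Adj a v := ⟨_, rfl⟩
  have hH : Hm G c = Sg a D := hD ▸ eq_Sg_of_star ha
  have hD' : ∀ v, v ∈ D ↔ (Hm G c).Adj a v := fun v => by simp [hD]
  have haD : a ∉ D := fun e => ((hD' a).1 e).ne rfl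
  have hb := h.ABk3_room le_rfl
  have hfr : ∀ v, c v ≠ 0 → ∃ y, c y = c v ∧ ∀ u, ¬ (Hm G c).Adj y u := fun v hv => by
    obtain ⟨y, h1, -, h2⟩ := exists_fresh (Hm G c) ∅ (i := c v)
      (by simpa using hb _ (mem_Icc.2 ⟨Nat.pos_of_ne_zero hv, h.st.le v⟩))
    exact ⟨y, h1, h2⟩
  have hsw : ∀ v ∈ X, ∀ v', (Hm G c).Adj v v' → (∀ y, c y = c v →
      Adm r (fun G : SimpleGraph V => NoBook G r t) c (Hm G c) o ∅ u (insert y (X.erase v))) →
      False := fun v hv v' hvv hA => by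
    obtain ⟨y, h1, h2⟩ := hfr v (hX.1 v hv)
    refine h.ex.switch h.st.eig ok e hv (fun hy => h2 v' (hX.2.2 y hy v hv h1 ▸ hvv)) (hA y h1)
      (h.lt_of_fresh hE' hvv h1 h2).le (h.st.eig.pos_of_adj (hadj v hv) ?_)
    linarith [h.pos (hX.1 v hv)]
  obtain ⟨b0, hb0⟩ : ∃ b, (Hm G c).Adj a b := by
    obtain ⟨p, q, hpq⟩ := exists_adj_of_ec hk
    rcases ha p q hpq with rfl | rfl
    exacts [⟨q, hpq⟩, ⟨p, hpq.symm⟩]
  refine ⟨u, a, X, D, hu, hX.1, fun v hv => ⟨((hD' v).1 hv).1.2.1, ((hD' v).1 hv).1.2.2.symm⟩,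
    fun i hi => one_le_pc (hX.2.1 i hi), Or.inr (Or.inl ⟨h.mp_star' (hH ▸ ok) haD (hH ▸ e),
      hb0.1.1, fun i hi => hX.pc_eq hi, fun ht => ?_, fun ht => ?_⟩)⟩
  · obtain ⟨p, hp, q, hq, hpq⟩ : ∃ p ∈ X, ∃ q ∈ X, (Hm G c).Adj p q := by
      by_contra hn
      push Not at hn
      have := h.ex.fr X ⟨fun p hp q hq hpq => ?_, hd⟩ {u}
        (fun v hv w hw => mem_singleton.1 hv ▸ (hadj w hw).symm)
      · rw [card_singleton] at this
        omega
      · by_contra hG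
        exact hn p hp q hq ⟨⟨hX.1 p hp, hX.1 q hq, fun e => hpq (hX.2.2 p hp q hq e)⟩, hG⟩
    obtain ⟨b, haX, hbX, hab⟩ : ∃ b, a ∈ X ∧ b ∈ X ∧ (Hm G c).Adj a b := by
      rcases ha p q hpq with rfl | rfl
      exacts [⟨q, hp, hq, hpq⟩, ⟨p, hq, hp, hpq.symm⟩]
    obtain ⟨y, h1, h2⟩ := hfr b (hX.1 b hbX)
    refine ⟨haX, b, Set.eq_singleton_iff_unique_mem.2 ⟨⟨hbX, (hD' b).2 hab⟩, fun v hv => ?_⟩,
      y, fun hy => h2 a ((hD' y).1 hy).symm, h1⟩
    by_contra hvb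
    have hav := (hD' v).1 hv.2
    exact hsw v hv.1 a hav.symm fun y hy => ABk3_adm h.st.le (Hm_le G c) hb ok.o0 hu ok.ow
      (hX.switch hv.1 hy) hab (mem_insert_of_mem (mem_erase.2 ⟨hav.ne, haX⟩))
      (mem_insert_of_mem (mem_erase.2 ⟨Ne.symm hvb, hbX⟩))
  · have key : ∀ v ∈ X, ∀ v', ¬ (Hm G c).Adj v v' := fun v hv v' hvv =>
      hsw v hv v' hvv fun y hy => by
        have hY := hX.switch hv hy
        refine admB1 ht h.st.le (Hm_le G c) hb ok.o0 hu ok.ow (l := 1)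
          (mem_Icc.2 ⟨le_rfl, by have := h.r3; omega⟩) (empty_subset _) hY.1 hY.2.1
          fun i => le_trans (card_le_one.2 fun p hp q hq => ?_) ht
        rw [mem_filter] at hp hq
        exact hY.2.2 p hp.1 q hq.1 (hp.2.trans hq.2.symm)
    exact ⟨fun haX => key a haX b0 hb0, fun v hv => absurd ((hD' v).1 hv.2).symm (key v hv.1 a)⟩

theorem book_mid (ht : t = 0) (h1 : ec (Hm G c) + r ≤ ec (Xe G c))
    (h2 : ec (Xe G c) + 2 ≤ ec (Hm G c) + 2 * r) : FamB r t G c := by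
  rcases Nat.eq_zero_or_pos (ec (Hm G c)) with hk | hk
  · obtain ⟨w, -, hw⟩ := h.sees_small (by omega)
    exact (h.not_sees hC ht hk w hw).elim
  have h7 : 4 * r ≤ C := le_trans (Nat.le_mul_of_pos_right _ (by omega)) hC
  have hr := h.r3
  obtain ⟨a, b, hab⟩ := exists_adj_of_ec hk
  obtain ⟨Y, hY, ha, hb⟩ := h.ABk3_trans hab.1
  obtain ⟨o, ho, hoz⟩ := h.other z
  obtain ⟨ha0, hb0, hne⟩ := hab.1
  have hcap := h.cap2 (mem_Icc.2 ⟨Nat.pos_of_ne_zero ha0, h.st.le a⟩)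
    (mem_Icc.2 ⟨Nat.pos_of_ne_zero hb0, h.st.le b⟩) hne
  obtain ⟨X, hYX, hXU, hX⟩ := exists_subsuperset_card_eq
    (s := Y) (t := {a, b} ∪ (Out c (c a) ∩ Out c (c b))) (n := ec (Xe G c) + 1 - ec (Hm G c))
    (fun v hv => by
      have e0 := hY.1 v hv
      have e1 := hY.2.2 v hv a ha
      have e2 := hY.2.2 v hv b hb
      simp only [mem_union, mem_insert, mem_singleton, mem_inter, mem_Out]
      grind)
    (by rw [hY.card h.st.le]; omega)
    (le_trans (by omega) (card_le_card subset_union_right))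
  have hU : ∀ v ∈ X, c v ≠ 0 ∧ (c v = c a → v = a) ∧ (c v = c b → v = b) := fun v hv => by
    have := hXU hv
    simp only [mem_union, mem_insert, mem_singleton, mem_inter, mem_Out] at this
    grind
  have hA : ∀ H, H ≤ Hm G c → H.Adj a b →
      Adm r (fun G : SimpleGraph V => NoBook G r t) c H o ∅ z X := fun H hH hadj =>
    admA h.st.le (hH.trans (Hm_le G c)) (h.ABk3_room (ec_mono hH)) ho h.st.z0 hoz
      (fun v hv => (hU v hv).1) (fun i hi => let ⟨v, hv, e⟩ := hY.2.1 i hi; ⟨v, hYX hv, e⟩) hadj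
      (fun v hv => (hU v hv).2.1) fun v hv => (hU v hv).2.2
  rcases (Nat.succ_le_of_lt hk).eq_or_lt with hk1 | hk2
  · have hs := h.squares (hA _ le_rfl hab) (by rw [card_empty]; omega) (by omega)
    rw [erase_eq_of_notMem fun e => (hU o e).1 ho, hX, card_empty] at hs
    obtain ⟨u, hu, hd⟩ := sq_one (s := Vp c 0) (d := dT G c) (e := ec (Xe G c)) (by omega)
      (ABk3_sum G c) (by
        rw [show ec (Xe G c) + 1 - ec (Hm G c) = ec (Xe G c) by omega] at hs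
        exact le_trans (Nat.le_add_left _ _) hs)
    rw [mem_Vp] at hu
    obtain ⟨-, -, -, hS, -⟩ := h.one hu hd.ge
    rcases h.book_alt hC hS with ⟨p, hp, q, hq, hpq, hle⟩ | ⟨h3, -⟩
    · exact h.book_typeA hC hu hd.ge hk1.symm hp hq hpq (by omega)
    · omega
  · have e1 := ABk3_ec hab.ne
    refine (h.kmin (hA _ (ABk3_le hab) (ABk3_adj hab.ne (by simp))) (by rw [card_empty]; omega)
      (by omega) ?_ (ABk3_sdiff (ABk3_le hab))).elim
    obtain ⟨d, hd⟩ : ∃ d, ec (Hm G c) = d + 2 := ⟨ec (Hm G c) - 2, by omega⟩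
    rw [e1, hd]
    have : d ≤ C * d := Nat.le_mul_of_pos_left _ (by omega)
    rw [mul_add]
    omega

theorem book_fam : ∃ c', FamB r t G c' ∧ NI G c' := by
  rcases lt_or_ge (ec (Xe G c)) (ec (Hm G c) + r) with h1 | h1
  · exact ⟨c, h.book_small hC h1, h.ni⟩
  by_cases hz : Sees G r c z
  · exact ⟨c, h.book_sees hC hz h1, h.ni⟩
  obtain ⟨l, hl, hz'⟩ : ∃ l ∈ Icc 1 r, ∀ v ∈ nT G c z, c v ≠ l := by
    by_contra hn
    push Not at hn
    exact hz fun l hl => let ⟨v, hv, e⟩ := hn l hl; ⟨v, e, (mem_nT.1 hv).1⟩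
  rcases Nat.eq_zero_or_pos t with ht | ht
  · rcases le_or_gt (ec (Hm G c) + 2 * r) (ec (Xe G c) + 1) with h2 | h2
    · exact h.book_avoid0 hC ht hl hz' h2
    · exact ⟨c, h.book_mid hC ht h1 (by omega), h.ni⟩
  · exact h.book_avoid1 hC ht hl hz' h1

end Ctx

end Pool.Agent.P.MP_094db5_co
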