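import Pool.Agent.P.MP_094db5_co.AAbs

/-! Comparison with clones. -/

set_option autoImplicit false

open Finset Classical

noncomputable section

namespace Pool.Agent.P.MP_094db5_co

variable {V : Type} [Fintype V] {r D t : ℕ} {Fr : SimpleGraph V → Prop} {G : SimpleGraph V}
  {x : V → ℝ} {ξ C η : ℝ} {c : V → ℕ} {Z : Finset V}

/-- the part of the form that does not involve part one -/
def ACl_rest (c : V → ℕ) (f : V → ℝ) : ℝ :=
  ∑ u ∈ Out c 1, ∑ v ∈ Out c 1, if c u = c v then 0 else f u * f v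

lemma ACl_qf (c : V → ℕ) (f : V → ℝ) :
    qf (Kc c) f = 2 * ((∑ v ∈ Vp c 1, f v) * ∑ v ∈ Out c 1, f v) + ACl_rest c f := by
  have e1 : (∑ v ∈ Vp c 1, f v) * ∑ v ∈ Out c 1, f v =
      S2 fun u v => (if c u = 1 then f u else 0) * if c v ≠ 0 ∧ c v ≠ 1 then f v else 0 := by
    rw [← S2_prod, Vp, Out, sum_filter, sum_filter]
  have e2 : ACl_rest c f = S2 fun u v => if c u ≠ 0 ∧ c u ≠ 1 then
      (if c v ≠ 0 ∧ c v ≠ 1 then (if c u = c v then 0 else f u * f v) else 0) else 0 := by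
    rw [ACl_rest, Out, sum_filter, S2]
    refine sum_congr rfl fun u _ => ?_
    split_ifs
    · rw [sum_filter]
    · simp
  rw [two_mul, e2]
  nth_rewrite 1 [e1]
  rw [e1.trans (S2_comm _), S2_add, S2_add, qf]
  refine S2_congr fun u v => ?_
  have e3 : (Kc c).Adj u v ↔ c u ≠ 0 ∧ c v ≠ 0 ∧ c u ≠ c v := Iff.rfl
  unfold ad
  rw [e3]
  split_ifs <;> first | ring1 | omega

/-- replacing part one by `P` -/
def ACl_re (c : V → ℕ) (P : Finset V) (v : V) : ℕ :=
  if v ∈ Out c 1 then c v else if v ∈ P then 1 else 0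

lemma ACl_out (c : V → ℕ) (P : Finset V) : Out (ACl_re c P) 1 = Out c 1 := by
  ext v
  rw [mem_Out, ACl_re]
  split_ifs with h1 h2
  · exact iff_of_true (mem_Out.1 h1) h1
  · simpa using h1
  · simpa using h1

lemma ACl_vp {P : Finset V} (hP : P ⊆ (Out c 1)ᶜ) : Vp (ACl_re c P) 1 = P := by
  ext v
  rw [mem_Vp, ACl_re]
  split_ifs with h1 h2
  · exact iff_of_false (mem_Out.1 h1).2 fun h => mem_compl.1 (hP h) h1
  · simpa using h2
  · simpa using h2

lemma ACl_vp0 (P : Finset V) : Vp (ACl_re c P) 0 = (Out c 1)ᶜ \ P := by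
  ext v
  rw [mem_Vp, ACl_re, mem_sdiff, mem_compl]
  split_ifs with h1 h2
  · exact iff_of_false (mem_Out.1 h1).1 fun h => h.1 h1
  · simp [h2]
  · simp only [true_iff]
    exact ⟨h1, h2⟩

lemma ACl_vpi (P : Finset V) {i : ℕ} (h0 : i ≠ 0) (h1 : i ≠ 1) : Vp (ACl_re c P) i = Vp c i := by
  ext v
  rw [mem_Vp, mem_Vp, ACl_re]
  split_ifs with a1 a2
  · rfl
  · rw [mem_Out] at a1
    omega
  · rw [mem_Out] at a1
    omega

lemma ACl_rest_congr (P : Finset V) {f g : V → ℝ} (h : ∀ v ∈ Out c 1, f v = g v) :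
    ACl_rest (ACl_re c P) f = ACl_rest c g := by
  rw [ACl_rest, ACl_rest, ACl_out]
  refine sum_congr rfl fun u hu => sum_congr rfl fun v hv => ?_
  rw [ACl_re, ACl_re, if_pos hu, if_pos hv, h u hu, h v hv]

lemma ACl_compl (c : V → ℕ) : ((Out c 1)ᶜ).card = cn c 0 + cn c 1 := by
  rw [← card_Vp, ← card_Vp, ← card_union_of_disjoint]
  · congr 1
    ext v
    simp only [mem_compl, mem_Out, mem_union, mem_Vp]
    omega
  · rw [disjoint_left]
    intro v h0 h1
    rw [mem_Vp] at h0 h1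
    omega

lemma ACl_Ph (c : V → ℕ) (l : ℝ) {f : V → ℝ} (h : ∀ v, c v = 0 → f v = 0) :
    l * Ph (Kc c) l f = l * (ACl_rest c f - l * ∑ v ∈ Out c 1, f v ^ 2) +
      (Vp c 1).card * (∑ v ∈ Out c 1, f v) ^ 2 -
        ∑ u ∈ Vp c 1, ((∑ v ∈ Out c 1, f v) - l * f u) ^ 2 := by
  have e : ∑ v, f v ^ 2 = ∑ v ∈ Out c 1, f v ^ 2 + ∑ v ∈ Vp c 1, f v ^ 2 := by
    rw [Out, Vp, sum_filter, sum_filter, ← sum_add_distrib]
    refine sum_congr rfl fun v _ => ?_
    by_cases h0 : c v = 0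
    · simp [h0, h v h0]
    · by_cases h1 : c v = 1 <;> simp [h0, h1]
  rw [Ph, ACl_qf, e]
  generalize ∑ v ∈ Out c 1, f v = B
  have e2 : ∑ u ∈ Vp c 1, (B - l * f u) ^ 2 = (Vp c 1).card * B ^ 2 -
      2 * B * l * ∑ u ∈ Vp c 1, f u + l ^ 2 * ∑ u ∈ Vp c 1, f u ^ 2 := by
    rw [mul_sum, mul_sum, ← nsmul_eq_mul, ← sum_const, ← sum_sub_distrib, ← sum_add_distrib]
    exact sum_congr rfl fun u _ => by ring
  rw [e2]
  ring

lemma ACl_ec {P : Finset V} (hP : P ⊆ (Out c 1)ᶜ) :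
    (ec (Kc (ACl_re c P)) : ℝ) + cn c 1 * (Out c 1).card = ec (Kc c) + P.card * (Out c 1).card := by
  have h1 := Mo_ec (Kc (ACl_re c P))
  have h2 := Mo_ec (Kc c)
  rw [Mo_eq_qf, ACl_qf] at h1 h2
  rw [ACl_out, ACl_vp hP, ACl_rest_congr P (g := fun _ => 1) fun _ _ => rfl] at h1
  simp only [sum_const, nsmul_eq_mul, mul_one, card_Vp] at h1 h2
  linarith

/-- the test vector for the clone -/
lemma ACl_test {P : Finset V} (hP : P ⊆ (Out c 1)ᶜ) {l : ℝ} (l0 : 0 < l) (x0 : ∀ v, 0 ≤ x v)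
    (x2 : ∀ v, c v ≠ 0 → x v ≤ 2) (hB : ∑ v ∈ Out c 1, x v ≤ 2 * l) :
    ∃ y : V → ℝ, (∀ v, 0 ≤ y v) ∧ (∀ v, ACl_re c P v = 0 → y v = 0) ∧ (∀ v, y v ≤ 2) ∧
      (∀ v ∈ Out c 1, y v = x v) ∧
      l * Ph (Kc c) l (rT c x) + ((P.card : ℝ) - cn c 1) * (∑ v ∈ Out c 1, x v) ^ 2 ≤
        l * Ph (Kc (ACl_re c P)) l y := by
  have hB0 : 0 ≤ ∑ v ∈ Out c 1, x v := sum_nonneg fun v _ => x0 v
  obtain ⟨y, hy⟩ : ∃ y : V → ℝ, ∀ v, y v = if ACl_re c P v = 0 then 0 else
      if c v = 0 then (∑ v ∈ Out c 1, x v) / l else x v := ⟨_, fun _ => rfl⟩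
  have y1 : ∀ v, ACl_re c P v = 0 → y v = 0 := fun v hv => by rw [hy, if_pos hv]
  have y3 : ∀ v ∈ Out c 1, y v = x v := fun v hv => by
    have h0 := (mem_Out.1 hv).1
    rw [hy, ACl_re, if_pos hv, if_neg h0, if_neg h0]
  have r3 : ∀ v ∈ Out c 1, rT c x v = x v := fun v hv => if_neg (mem_Out.1 hv).1
  refine ⟨y, fun v => ?_, y1, fun v => ?_, y3, ?_⟩
  · rw [hy]
    split_ifs
    exacts [le_rfl, div_nonneg hB0 l0.le, x0 v]
  · rw [hy]
    split_ifs with a1 a2
    exacts [zero_le_two, (div_le_iff₀ l0).2 hB, x2 v a2]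
  · rw [ACl_Ph _ l y1, ACl_Ph c l (f := rT c x) fun v hv => if_pos hv, ACl_out, ACl_vp hP,
      ACl_rest_congr P (g := rT c x) fun v hv => (y3 v hv).trans (r3 v hv).symm,
      sum_congr rfl y3, sum_congr rfl r3, sum_congr rfl fun v hv => congrArg (· ^ 2) (y3 v hv),
      sum_congr rfl fun v hv => congrArg (· ^ 2) (r3 v hv), card_Vp]
    have key : ∑ u ∈ P, ((∑ v ∈ Out c 1, x v) - l * y u) ^ 2 ≤
        ∑ u ∈ Vp c 1, ((∑ v ∈ Out c 1, x v) - l * rT c x u) ^ 2 := by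
      rw [← sum_filter_add_sum_filter_not P fun u => c u = 0, sum_eq_zero, zero_add]
      · refine le_trans (le_of_eq (sum_congr rfl fun u hu => ?_))
          (sum_le_sum_of_subset_of_nonneg (fun u hu => ?_) fun _ _ _ => sq_nonneg _)
        · rw [mem_filter] at hu
          rw [hy, rT, if_neg hu.2, if_neg hu.2, if_neg]
          rw [ACl_re, if_neg (mem_compl.1 (hP hu.1)), if_pos hu.1]
          exact one_ne_zero
        · rw [mem_filter] at hu
          have := mem_compl.1 (hP hu.1)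
          rw [mem_Out] at this
          rw [mem_Vp]
          omega
      · intro u hu
        rw [mem_filter] at hu
        rw [hy, if_neg, if_pos hu.2, mul_div_cancel₀ _ l0.ne']
        · simp
        · rw [ACl_re, if_neg (mem_compl.1 (hP hu.1)), if_pos hu.1]
          exact one_ne_zero
    linarith

lemma ACl_sq {a b e N : ℝ} (h : |a - b| ≤ e * N) (h0 : 0 ≤ b) (h1 : b ≤ N) (e1 : e ≤ 1) :
    |a ^ 2 - b ^ 2| ≤ 3 * e * N ^ 2 := by
  have hN : 0 ≤ N := h0.trans h1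
  have h2 : |a + b| ≤ 3 * N := by
    have := mul_le_mul_of_nonneg_right e1 hN
    rw [abs_le] at h ⊢
    constructor <;> linarith [h.1, h.2]
  rw [sq_sub_sq, abs_mul]
  exact (mul_le_mul h2 h (abs_nonneg _) (by positivity)).trans (le_of_eq (by ring))

namespace Mid

variable (h : Mid r D t Fr G x ξ C η c Z)
include h

theorem η_small : 10 ^ 8 * r ^ 4 * C ^ 4 * η ≤ 1 := by
  have h1 := pow_le_one₀ (n := 2) (by have := h.ξ0; positivity) h.ξ1
  have h2 := mul_le_mul_of_nonneg_left h.sm (show (0 : ℝ) ≤ 10 ^ 4 * r ^ 2 by positivity)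
  linarith

theorem l_big : 10 ^ 8 * r ^ 4 * C ^ 4 ≤ η ^ 2 * lam G := by
  have h1 := h.st.big
  have h2 : 0 ≤ η ^ 2 * lam G := by
    refine le_of_mul_le_mul_left ?_ h.η0
    linarith
  have h3 := mul_le_mul_of_nonneg_right h.η_small h2
  have h4 := mul_le_mul_of_nonneg_left h1 (show (0 : ℝ) ≤ 10 ^ 8 * r ^ 4 * C ^ 4 by positivity)
  linarith

lemma ACl_num : η ≤ 1 / 100 ∧ ξ ≤ 1 / 100 ∧ 100 ≤ lam G ∧ 100 * C ^ 2 ≤ η * lam G ∧
    100 * r ≤ η * lam G ∧ 100 * (r * (r * C)) ≤ lam G ∧ 10 * C ≤ lam G := by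
  have r3 : (3 : ℝ) ≤ r := by exact_mod_cast h.r3
  have C1 := h.C1
  have η0 := h.η0
  have a1 : C ≤ r * C := le_mul_of_one_le_left (by linarith) (by linarith)
  have a2 : r ≤ r * C := le_mul_of_one_le_right (by linarith) C1
  have a3 : 1 ≤ r * C := by linarith
  have a4 : (r * C) ^ 2 ≤ (r * C) ^ 4 := pow_le_pow_right₀ a3 (by norm_num)
  have a5 : r * C ≤ (r * C) ^ 2 := le_self_pow₀ a3 two_ne_zero
  have a6 : C ^ 2 ≤ (r * C) ^ 2 := pow_le_pow_left₀ (by linarith) a1 2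
  have a7 : r * (r * C) ≤ (r * C) ^ 2 := by
    rw [sq]
    exact mul_le_mul_of_nonneg_right a2 (by linarith)
  have b1 : η ≤ 1 / 100 := by
    have := h.η_small
    have := mul_le_mul_of_nonneg_right (a3.trans (a5.trans a4)) η0.le
    linarith
  have b2 : ξ ≤ 1 / 100 := by
    have := h.ξ1
    have := mul_le_mul_of_nonneg_right r3 h.ξ0.le
    linarith
  have b3 := h.l_big
  have l0 : 0 ≤ lam G := by
    refine le_of_mul_le_mul_left ?_ (pow_pos η0 2)
    linarith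
  have b4 : η ^ 2 * lam G ≤ η * lam G :=
    mul_le_mul_of_nonneg_right (pow_le_of_le_one η0.le (by linarith) two_ne_zero) l0
  have b5 : η * lam G ≤ lam G := mul_le_of_le_one_left l0 (by linarith)
  refine ⟨b1, b2, ?_, ?_, ?_, ?_, ?_⟩ <;> linarith

lemma ACl_N : 99 / 100 * lam G ≤ (Out c 1).card ∧ ((Out c 1).card : ℝ) ≤ 101 / 100 * lam G := by
  obtain ⟨b1, -, l1, -⟩ := h.ACl_num
  have r3 := h.r3
  have a1 := abs_le.1 (h.st.out_size (l := 1) (by omega) (mem_Icc.2 ⟨le_rfl, by omega⟩))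
  have a2 := mul_le_mul_of_nonneg_right b1 (show 0 ≤ lam G by linarith)
  constructor <;> linarith [a1.1, a1.2]

lemma ACl_Q : lam G * Qw G c x ≤ D2 G c + 7 * C * η * lam G ^ 2 := by
  obtain ⟨b1, b2, l1, b3, -⟩ := h.ACl_num
  have η0 := h.η0
  have l0 : 0 < lam G := by linarith
  have x0 := h.st.eig.nonneg
  have a1 : ∀ u ∈ Vp c 0, lam G * (x u * aT G c x u) ≤
      (dT G c u : ℝ) ^ 2 + 7 * η * lam G * dT G c u := by
    intro u hu
    rw [mem_Vp] at hu
    have e1 : op (Ww G c) x u ≤ 2 * C ^ 2 := by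
      refine le_trans ?_ (h.st.sum_W l0)
      rw [op, Vp, sum_filter]
      refine sum_le_sum fun v _ => ?_
      unfold ad
      split_ifs with a b b
      exacts [(one_mul _).le, absurd a.2.2 b, by rw [zero_mul]; exact x0 v, (zero_mul _).le]
    have e2 : 0 ≤ aT G c x u := sum_nonneg fun v _ => x0 v
    have e3 : aT G c x u ≤ 2 * dT G c u := by
      have := sum_le_card_nsmul (nT G c u) x 2 fun v hv => by
        linarith [(abs_le.1 (h.st.typ v (mem_nT.1 hv).2)).2]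
      rw [nsmul_eq_mul, mul_comm] at this
      exact this
    have e4 : aT G c x u - dT G c u ≤ η * dT G c u + η * lam G :=
      (abs_le.1 (h.st.sum_set η0.le (by linarith) h.ξ0.le fun v hv => (mem_nT.1 hv).2)).2
    have e5 : (dT G c u : ℝ) ≤ lam G :=
      (h.wdeg u hu).trans (mul_le_of_le_one_left l0.le (by linarith [h.ξ0]))
    have e6 : (0 : ℝ) ≤ dT G c u := Nat.cast_nonneg _
    rw [← mul_assoc, ← h.st.eig.eig u, op_split0 x hu]
    generalize aT G c x u = a at *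
    generalize (dT G c u : ℝ) = d at *
    have f1 : a - d ≤ 2 * η * lam G := by linarith [mul_le_mul_of_nonneg_left e5 η0.le]
    have f2 := mul_le_mul_of_nonneg_right f1 (add_nonneg e2 e6)
    have f3 := mul_le_mul_of_nonneg_left (show a + d ≤ 3 * d by linarith)
      (show 0 ≤ 2 * η * lam G by positivity)
    have f4 := mul_le_mul e1 e3 e2 (by positivity)
    have f5 := mul_le_mul_of_nonneg_right b3 e6
    have f6 : 0 ≤ C ^ 2 * d := by positivity
    linarith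
  have a2 : ∑ u ∈ Vp c 0, (dT G c u : ℝ) ≤ C * lam G := by
    refine le_trans ?_ h.st.hE
    rw [ec_Xe]
    push_cast
    exact le_add_of_nonneg_right (Nat.cast_nonneg _)
  have a3 := mul_le_mul_of_nonneg_left a2 (show 0 ≤ 7 * η * lam G by positivity)
  rw [Qw, mul_sum]
  refine (sum_le_sum a1).trans ?_
  rw [sum_add_distrib, ← mul_sum, D2]
  push_cast
  linarith

theorem base : 2 * ec (Hm G c) * (1 - 2 * ξ) * (Out c 1).card - D2 G c -
    20 * C * η * ((Out c 1).card : ℝ) ^ 2 ≤ lam G * Ph (Kc c) (lam G) (rT c x) := by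
  obtain ⟨b1, b2, l1, -⟩ := h.ACl_num
  have η0 := h.η0
  have ξ0 := h.ξ0
  have C1 := h.C1
  have r3 := h.r3
  have l0 : 0 < lam G := by linarith
  have a1 := qf_lower (H := Hm G c) (x := x) (a := 1 - ξ) (by linarith) fun u v huv => by
    linarith [(abs_le.1 (h.st.typ u huv.1.1)).1]
  have a2 := (abs_le.1 (h.st.out_size (l := 1) (by omega) (mem_Icc.2 ⟨le_rfl, by omega⟩))).2
  have a3 := h.ACl_Q
  have a4 := h.st.hk
  have a5 : (99 / 100 * lam G) ^ 2 ≤ ((Out c 1).card : ℝ) ^ 2 :=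
    pow_le_pow_left₀ (by positivity) h.ACl_N.1 2
  rw [h.st.eig.ident h.st.proper]
  have k0 : (0 : ℝ) ≤ ec (Hm G c) := Nat.cast_nonneg _
  generalize (ec (Hm G c) : ℝ) = k at *
  generalize ((Out c 1).card : ℝ) = N at *
  have f1 := mul_le_mul_of_nonneg_left a1 l0.le
  have f2 : 0 ≤ lam G * (k * ξ ^ 2) := by positivity
  have f3 := mul_le_mul_of_nonneg_left a2 (mul_nonneg k0 (show 0 ≤ 1 - 2 * ξ by linarith))
  have f4 : 0 ≤ k * ξ * (η * lam G) := by positivity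
  have f5 := mul_le_mul_of_nonneg_right a4 (show 0 ≤ η * lam G by positivity)
  have f6 := mul_le_mul_of_nonneg_left a5 (show 0 ≤ C * η by positivity)
  have f7 : 0 ≤ C * η * N ^ 2 := by positivity
  linarith

theorem clone (q : ℤ) (s : ℕ) (hs : s ≤ (Out c 1).card)
    (he : q * (Out c 1).card + s + 1 + ec (Hm G c) = ec (Xe G c)) :
    q * ((Out c 1).card : ℝ) ^ 2 + (s : ℝ) ^ 2 + 2 * ec (Hm G c) * (1 - 2 * ξ) * (Out c 1).card ≤
      D2 G c + 300 * C * η * ((Out c 1).card : ℝ) ^ 2 := by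
  obtain ⟨b1, b2, l1, -, b4, b5, b6⟩ := h.ACl_num
  obtain ⟨N1, N2⟩ := h.ACl_N
  have η0 := h.η0
  have ξ0 := h.ξ0
  have C1 := h.C1
  have r3 := h.r3
  have r3' : (3 : ℝ) ≤ r := by exact_mod_cast r3
  have l0 : 0 < lam G := by linarith
  have N0 : (0 : ℝ) < (Out c 1).card := by linarith
  have x0 := h.st.eig.nonneg
  have he' : (q : ℝ) * (Out c 1).card + s + 1 + ec (Hm G c) = ec (Xe G c) := by exact_mod_cast he
  have hs' : (s : ℝ) ≤ (Out c 1).card := by exact_mod_cast hs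
  have hq : |(q : ℝ)| ≤ 5 * C := by
    have f1 := mul_le_mul_of_nonneg_left N1 (show 0 ≤ C by linarith)
    have f2 := mul_le_mul_of_nonneg_right C1 N0.le
    have f3 := h.st.hk
    have f4 := h.st.hE
    have f5 : (0 : ℝ) ≤ ec (Hm G c) := Nat.cast_nonneg _
    have f6 : (0 : ℝ) ≤ ec (Xe G c) := Nat.cast_nonneg _
    have f7 : (0 : ℝ) ≤ s := Nat.cast_nonneg _
    rw [abs_le]
    constructor <;> refine le_of_mul_le_mul_right ?_ N0 <;> linarith
  have hq' := abs_le.1 hq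
  have hn : ∀ i ∈ Icc 1 r, 2 * r + 5 * C < (cn c i : ℝ) := by
    intro i hi
    have f1 := (abs_le.1 (h.st.size i hi)).1
    have f2 := mul_le_mul_of_nonneg_right b1 l0.le
    have f3 : (0 : ℝ) ≤ cn c i := Nat.cast_nonneg _
    have f4 : 99 * (r * C) ≤ (cn c i : ℝ) := by
      refine le_of_mul_le_mul_left ?_ (show (0 : ℝ) < r by linarith)
      linarith
    have f5 := mul_le_mul_of_nonneg_left C1 (show (0 : ℝ) ≤ r by linarith)
    have f6 := mul_le_mul_of_nonneg_right r3' (show 0 ≤ C by linarith)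
    linarith
  have h1r : 1 ∈ Icc 1 r := mem_Icc.2 ⟨le_rfl, by omega⟩
  have hsp := h.ex.spare (c := c) h.st.eig (by linarith) fun v hv => by
    linarith [(abs_le.1 (h.st.typ v hv)).1]
  have i1 : (2 * r : ℤ) < cn c 1 + q := by
    have : (2 * r : ℝ) < cn c 1 + q := by linarith [hn 1 h1r]
    exact_mod_cast this
  have i2 : q + 2 ≤ (cn c 0 : ℤ) := by
    have : (q : ℝ) + 2 ≤ cn c 0 := by linarith
    exact_mod_cast this
  obtain ⟨P, hP, hPc⟩ := exists_subset_card_eq (s := (Out c 1)ᶜ) (n := (cn c 1 + q).toNat)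
    (by rw [ACl_compl]; omega)
  have hPc' : (P.card : ℤ) = cn c 1 + q := by omega
  have hPr : (P.card : ℝ) - cn c 1 = q := by
    have : (P.card : ℝ) = cn c 1 + q := by exact_mod_cast hPc'
    linarith
  obtain ⟨S, hS, rfl⟩ := exists_subset_card_eq hs
  have set : ∀ U ⊆ Out c 1, |∑ v ∈ U, x v - U.card| ≤ 3 * η * (Out c 1).card := by
    intro U hU
    have f1 := h.st.sum_set η0.le (by linarith) ξ0.le fun v hv => (mem_Out.1 (hU hv)).1
    have f2 : (U.card : ℝ) ≤ (Out c 1).card := by exact_mod_cast card_le_card hU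
    have f3 := mul_le_mul_of_nonneg_left f2 η0.le
    have f4 := mul_le_mul_of_nonneg_left N1 η0.le
    have f5 := mul_pos η0 N0
    linarith
  have s1 := set _ Subset.rfl
  obtain ⟨y, y0, y1, y2, y3, y4⟩ := ACl_test (x := x) hP l0 x0
    (fun v hv => by linarith [(abs_le.1 (h.st.typ v hv)).2])
    (by linarith [(abs_le.1 s1).2, mul_le_mul_of_nonneg_right b1 N0.le])
  have key := h.cls.ineq (c := ACl_re c P) (S := S) h.ex (by omega) (fun v => by
      unfold ACl_re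
      split_ifs
      exacts [h.st.le v, by omega, Nat.zero_le _]) (fun i hi => by
      by_cases e : i = 1
      · rw [e, ← card_Vp, ACl_vp hP]
        omega
      · rw [← card_Vp, ACl_vpi P (by have := mem_Icc.1 hi; omega) e, card_Vp]
        have : (2 * r : ℝ) < cn c i := by linarith [hn i hi]
        exact_mod_cast this)
    (by rw [← card_Vp, ACl_vp0, card_sdiff_of_subset hP, ACl_compl]; omega) h1r
    (by rw [ACl_out]; exact hS) (by
      have f1 := ACl_ec hP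
      have f2 : (ec G : ℝ) + ec (Hm G c) = ec (Kc c) + ec (Xe G c) := by
        exact_mod_cast ec_split h.st.proper
      have f3 : (ec (Kc (ACl_re c P)) : ℝ) + S.card + 1 = ec G := by
        rw [← hPr] at he'
        linarith
      exact_mod_cast f3) l0 y0 y1 y2
  rw [sum_congr rfl fun v hv => y3 v (hS hv)] at key
  rw [hPr] at y4
  have s2 := ACl_sq s1 N0.le le_rfl (by linarith)
  have s3 := (abs_le.1 (ACl_sq (set S hS) (Nat.cast_nonneg _) hs' (by linarith))).1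
  have s4 : |(q : ℝ) * ((∑ v ∈ Out c 1, x v) ^ 2 - ((Out c 1).card : ℝ) ^ 2)| ≤
      5 * C * (3 * (3 * η) * ((Out c 1).card : ℝ) ^ 2) := by
    rw [abs_mul]
    exact mul_le_mul hq s2 (abs_nonneg _) (by linarith)
  have s5 := (abs_le.1 s4).1
  have s6 := h.base
  have s7 : (99 / 100 * lam G) ^ 2 ≤ ((Out c 1).card : ℝ) ^ 2 :=
    pow_le_pow_left₀ (by positivity) N1 2
  have s8 := mul_le_mul_of_nonneg_left s7 η0.le
  have s9 := mul_le_mul_of_nonneg_right b4 l0.le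
  have s10 := mul_le_mul_of_nonneg_right C1 (show 0 ≤ η * ((Out c 1).card : ℝ) ^ 2 by positivity)
  have s11 : 0 ≤ η * ((Out c 1).card : ℝ) ^ 2 := by positivity
  have s12 : 0 ≤ r * lam G := by positivity
  linarith

end Mid

end Pool.Agent.P.MP_094db5_co
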