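import Pool.Agent.P.MP_094db5_co.ACl
import Pool.Agent.P.MP_094db5_co.ABc

/-! Comparison with a less balanced base and one more full vertex. -/

set_option autoImplicit false

open Finset Classical

noncomputable section

namespace Pool.Agent.P.MP_094db5_co

variable {V : Type} [Fintype V] {r D t : ℕ} {Fr : SimpleGraph V → Prop} {G : SimpleGraph V}
  {x : V → ℝ} {ξ C η : ℝ} {c : V → ℕ} {Z : Finset V}

lemma ACm_sumT (p : V → ℝ) (hc : ∀ v, c v ≤ r) :
    ∑ i ∈ Icc 1 r, Pc p c i = ∑ v ∈ univ.filter (fun v => c v ≠ 0), p v := by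
  have h1 := sum_Pc p hc
  have h2 := sum_filter_add_sum_filter_not univ (fun v => c v = 0) p
  have h3 : Pc p c 0 = ∑ v ∈ univ.filter (fun v => c v = 0), p v := by rw [Pc, sum_filter]
  linarith

lemma ACm_max (d g : ℕ) : ∃ t : ℕ, t * (d + t) ≤ g ∧ g ≤ t * (d + t) + d + 2 * t := by
  have hex : ∃ t : ℕ, g < (t + 1) * (d + (t + 1)) := ⟨g, by nlinarith⟩
  refine ⟨Nat.find hex, ?_, ?_⟩
  · rcases h0 : Nat.find hex with _ | t
    · simp
    · exact not_lt.1 (Nat.find_min hex (m := t) (by omega))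
  · have := Nat.find_spec hex
    nlinarith

/-- numerical consequences of the smallness assumptions -/
lemma ACm_num {r C η l : ℝ} (hr : 3 ≤ r) (hC : 1 ≤ C) (h0 : 0 < η)
    (hs : 10 ^ 8 * r ^ 4 * C ^ 4 * η ≤ 1) (hb : 10 ^ 8 * r ^ 4 * C ^ 4 ≤ η ^ 2 * l) :
    10 ^ 4 * r * η ≤ 1 ∧ 0 < l ∧ 10 ^ 4 * r ^ 2 ≤ η * l ∧
      ∀ t : ℝ, 0 ≤ t → t ^ 2 ≤ 4 * l → 5000 * (r ^ 2 * C ^ 2) * t ≤ η * l := by
  have c4 : 1 ≤ C ^ 4 := one_le_pow₀ hC
  have r3 : 1 ≤ r ^ 3 := one_le_pow₀ (by linarith)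
  have r2 : 1 ≤ r ^ 2 := one_le_pow₀ (by linarith)
  have r0 : 0 < r := by linarith
  have a1 : r ≤ r ^ 4 * C ^ 4 := by
    calc r = r * 1 * 1 := by ring
      _ ≤ r * r ^ 3 * C ^ 4 := by gcongr
      _ = r ^ 4 * C ^ 4 := by ring
  have a2 : r ^ 2 ≤ r ^ 4 * C ^ 4 := by
    calc r ^ 2 = r ^ 2 * 1 * 1 := by ring
      _ ≤ r ^ 2 * r ^ 2 * C ^ 4 := by gcongr
      _ = r ^ 4 * C ^ 4 := by ring
  have a3 : 10 ^ 8 * (r * η) ≤ 1 := by linarith [mul_le_mul_of_nonneg_right a1 h0.le]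
  have rη : 0 < r * η := mul_pos r0 h0
  have η1 : η ≤ 1 := by linarith [mul_le_mul_of_nonneg_right hr h0.le]
  have l0 : 0 < l := by
    have : 0 < η ^ 2 * l := by linarith
    exact (mul_pos_iff_of_pos_left (pow_pos h0 2)).1 this
  have a4 : η ^ 2 * l ≤ η * l := by
    have : η ^ 2 ≤ η := by nlinarith
    exact mul_le_mul_of_nonneg_right this l0.le
  refine ⟨by linarith, l0, by linarith, fun t t0 ht => ?_⟩
  refine abs_le_of_sq_le_sq' ?_ (mul_pos h0 l0).le |>.2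
  have k0 : 0 ≤ r ^ 4 * C ^ 4 := by positivity
  calc (5000 * (r ^ 2 * C ^ 2) * t) ^ 2 = 25000000 * (r ^ 4 * C ^ 4) * t ^ 2 := by ring
    _ ≤ 25000000 * (r ^ 4 * C ^ 4) * (4 * l) := by gcongr
    _ = (10 ^ 8 * r ^ 4 * C ^ 4) * l := by ring
    _ ≤ (η ^ 2 * l) * l := by gcongr
    _ = (η * l) ^ 2 := by ring

lemma ACm_fin {N l K Q P P' A g L t η C ρ r : ℝ} (hr : 3 ≤ r) (hC : 1 ≤ C) (h0 : 0 < η)
    (h1 : 10 ^ 4 * r * η ≤ 1) (l0 : 0 < l) (hb : 10 ^ 4 * r ^ 2 ≤ η * l) (ρ0 : 0 ≤ ρ) (ρ1 : ρ ≤ 1)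
    (hN : |N - l| ≤ η * l) (ht : 5000 * (r ^ 2 * C ^ 2) * t ≤ η * l) (t0 : 0 ≤ t)
    (hL : L ≤ g) (g0 : 0 ≤ g) (hg : g ≤ 2 * N) (hA : (1 - 5 * η) * N ≤ A)
    (hbase : K - Q - 20 * C * η * N ^ 2 ≤ P)
    (hbc : P - 2 * (ρ + 10 * η) * l * L - 16 * t * (3 * C ^ 2 * l) ≤ P')
    (hin : P' + A ^ 2 ≤ 8 * r * l) : N ^ 2 + K - 2 * ρ * g * N ≤ Q + 300 * C * η * N ^ 2 := by
  obtain ⟨n1, n2⟩ := abs_le.1 hN
  have η1 : η ≤ 1 / 30000 := by linarith [mul_le_mul_of_nonneg_right hr h0.le]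
  have ηl : η * l ≤ 1 / 30000 * l := mul_le_mul_of_nonneg_right η1 l0.le
  have lN : l ≤ 101 / 100 * N := by linarith
  have N0 : 0 < N := by linarith
  have ηN : 0 < η * N := mul_pos h0 N0
  have a1 : (1 - 10 * η) * N ^ 2 ≤ A ^ 2 := by
    have b0 : 0 ≤ (1 - 5 * η) * N := mul_nonneg (by linarith) N0.le
    have b1 := pow_le_pow_left₀ b0 hA 2
    linarith [sq_nonneg (η * N)]
  have b2 : η * l ≤ 101 / 100 * (η * N) := by linarith [mul_le_mul_of_nonneg_left lN h0.le]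
  have a2 : 2 * (ρ + 10 * η) * l * L ≤ 2 * ρ * g * N + 45 * (η * N ^ 2) := by
    have c1 : 2 * (ρ + 10 * η) * l * L ≤ 2 * (ρ + 10 * η) * l * g :=
      mul_le_mul_of_nonneg_left hL (by positivity)
    have c2 : ρ * g * l ≤ ρ * g * (N + η * l) :=
      mul_le_mul_of_nonneg_left (by linarith) (mul_nonneg ρ0 g0)
    have c3 : η * l * g ≤ 101 / 100 * (η * N) * (2 * N) :=
      mul_le_mul b2 hg g0 (by positivity)
    have c4 : ρ * (η * l * g) ≤ 1 * (η * l * g) :=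
      mul_le_mul_of_nonneg_right ρ1 (by positivity)
    linarith [mul_pos ηN N0]
  have ll : η * l * l ≤ 101 / 100 * (η * N) * (101 / 100 * N) :=
    mul_le_mul b2 lN l0.le (by positivity)
  have a3 : 16 * t * (3 * C ^ 2 * l) ≤ η * N ^ 2 := by
    have c0 : 1 ≤ r ^ 2 := one_le_pow₀ (by linarith)
    have c1 : 1 * (C ^ 2 * t) ≤ r ^ 2 * (C ^ 2 * t) :=
      mul_le_mul_of_nonneg_right c0 (by positivity)
    have c2 : 5000 * (C ^ 2 * t) * l ≤ η * l * l :=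
      mul_le_mul_of_nonneg_right (by linarith) l0.le
    linarith [mul_pos ηN N0]
  have a4 : 8 * r * l ≤ η * N ^ 2 := by
    have c1 : 10 ^ 4 * r ≤ η * l := by
      linarith [mul_le_mul_of_nonneg_right hr (show 0 ≤ r by linarith)]
    have c2 : 10 ^ 4 * r * l ≤ η * l * l := mul_le_mul_of_nonneg_right c1 l0.le
    linarith [mul_pos ηN N0, mul_pos (show 0 < r by linarith) l0]
  have a5 : 1 * (η * N ^ 2) ≤ C * (η * N ^ 2) := mul_le_mul_of_nonneg_right hC (by positivity)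
  linarith [mul_pos ηN N0]

lemma ACm_A {N l s t d η X Y : ℝ} (h0 : 0 < η) (η1 : η ≤ 1 / 30000) (l0 : 0 < l)
    (hN : |N - l| ≤ η * l) (t0 : 0 ≤ t) (ht : 45000 * t ≤ η * l) (hd : d ≤ η * l)
    (hs : N ≤ s + d + 2 * t) (hs' : s ≤ N) (hX : |X - s| ≤ η * s + η * l)
    (hY : l * X - s * (2 * t) ≤ l * Y) : (1 - 5 * η) * N ≤ Y := by
  obtain ⟨n1, n2⟩ := abs_le.1 hN
  obtain ⟨x1, -⟩ := abs_le.1 hX
  have ηl : η * l ≤ 1 / 30000 * l := mul_le_mul_of_nonneg_right η1 l0.le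
  have b1 : η * s ≤ η * N := mul_le_mul_of_nonneg_left hs' h0.le
  have b2 : η * l ≤ η * (101 / 100 * N) := mul_le_mul_of_nonneg_left (by linarith) h0.le
  have b3 : s * (2 * t) ≤ l * (4 * t) := by
    linarith [mul_le_mul_of_nonneg_right (show s ≤ 2 * l by linarith) t0]
  have b4 : X - 4 * t ≤ Y := le_of_mul_le_mul_left (by linarith) l0
  have b5 : 0 < η * l := mul_pos h0 l0
  linarith

theorem ACm_main (h : Mid r D t Fr G x ξ C η c Z) (g : ℕ) (hg : g ≤ 2 * (Out c 1).card)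
    (he : g + ec (Xe G c) = (Out c 1).card + 1 + ec (Hm G c)) {i j : ℕ} (hi : i ∈ Icc 2 r)
    (hj : j ∈ Icc 2 r) (hij : i ≠ j) (hle : cn c j ≤ cn c i) :
    ((Out c 1).card : ℝ) ^ 2 + 2 * ec (Hm G c) * (1 - 2 * ξ) * (Out c 1).card -
      2 * (1 - 1 / r) * g * (Out c 1).card ≤ D2 G c + 300 * C * η * ((Out c 1).card : ℝ) ^ 2 := by
  have r3 := h.r3
  have hr : (3 : ℝ) ≤ r := by exact_mod_cast r3
  have st := h.st
  have η0 := h.η0
  have hC := h.C1
  obtain ⟨ηr, l0, lb, hsq⟩ := ACm_num hr hC η0 h.η_small h.l_big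
  have η1 : η ≤ 1 / 30000 := by linarith [mul_le_mul_of_nonneg_right hr η0.le]
  have ξ0 := h.ξ0
  have ξ1 : ξ ≤ 1 / 300 := by linarith [h.ξ1, mul_le_mul_of_nonneg_right hr ξ0.le]
  have hi2 := mem_Icc.1 hi
  have hj2 := mem_Icc.1 hj
  have hi1 : i ∈ Icc 1 r := mem_Icc.2 ⟨by omega, hi2.2⟩
  have hj1 : j ∈ Icc 1 r := mem_Icc.2 ⟨by omega, hj2.2⟩
  have one : 1 ∈ Icc 1 r := mem_Icc.2 ⟨le_rfl, by omega⟩
  have hN := st.out_size (by omega) one
  obtain ⟨n1, n2⟩ := abs_le.1 hN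
  have ηl : η * lam G ≤ 1 / 30000 * lam G := mul_le_mul_of_nonneg_right η1 l0.le
  have ηl0 : 0 < η * lam G := mul_pos η0 l0
  have rηl : 10 ^ 4 * r * η * lam G ≤ 1 * lam G := mul_le_mul_of_nonneg_right ηr l0.le
  obtain ⟨d, hd⟩ := Nat.exists_eq_add_of_le hle
  obtain ⟨u, u1, u2⟩ := ACm_max d g
  have hdR : (cn c i : ℝ) = cn c j + d := by exact_mod_cast hd
  have d0 : (0 : ℝ) ≤ d := Nat.cast_nonneg d
  have u0 : (0 : ℝ) ≤ u := Nat.cast_nonneg u
  have dle : (d : ℝ) ≤ η * lam G := by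
    have a1 := (abs_le.1 (st.size i hi1)).2
    have a2 := (abs_le.1 (st.size j hj1)).1
    rw [hdR] at a1
    linarith [mul_le_mul_of_nonneg_right hr d0]
  have hgR : (g : ℝ) ≤ 2 * (Out c 1).card := by exact_mod_cast hg
  have u1R : (u : ℝ) * (d + u) ≤ g := by exact_mod_cast u1
  have hu := hsq u u0 (by linarith [mul_nonneg u0 d0])
  have rr : 3 * (r : ℝ) ≤ r * r := mul_le_mul_of_nonneg_right hr (Nat.cast_nonneg r)
  have rc : 3 * (r : ℝ) ≤ r ^ 2 * C ^ 2 := by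
    linarith [mul_le_mul_of_nonneg_left (one_le_pow₀ hC : 1 ≤ C ^ 2) (sq_nonneg (r : ℝ))]
  have ru := mul_le_mul_of_nonneg_right hr u0
  have rcu := mul_le_mul_of_nonneg_right rc u0
  have hu1 : 45000 * (u : ℝ) ≤ η * lam G := by linarith
  have hu2 : ((r : ℝ) - 1) * u ≤ η * lam G / 5000 := by linarith
  -- the moved set
  have hroom : u ≤ (Vp c j \ Z).card := by
    have a1 : (Vp c j).card ≤ (Vp c j \ Z).card + Z.card := card_le_card_sdiff_add_card
    have a2 : (cn c j : ℝ) ≤ (Vp c j \ Z).card + Z.card := by exact_mod_cast a1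
    have a3 := (abs_le.1 (st.size j hj1)).1
    have a4 : ((r : ℝ) - 1) * Z.card ≤ (r - 1) * (η * lam G) :=
      mul_le_mul_of_nonneg_left st.zc (by linarith)
    have a5 : ((r : ℝ) - 1) * cn c j ≤ (r - 1) * ((Vp c j \ Z).card + Z.card) :=
      mul_le_mul_of_nonneg_left a2 (by linarith)
    have a6 : ((r : ℝ) - 1) * u ≤ (r - 1) * (Vp c j \ Z).card := by linarith
    exact_mod_cast le_of_mul_le_mul_left a6 (by linarith)
  obtain ⟨M, hM, hMc⟩ := exists_subset_card_eq hroom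
  have hMj : ∀ v ∈ M, c v = j := fun v hv => mem_Vp.1 (mem_sdiff.1 (hM hv)).1
  have hMZ : ∀ v ∈ M, v ∉ Z := fun v hv => (mem_sdiff.1 (hM hv)).2
  have xlo : ∀ v, c v ≠ 0 → 1 / 2 ≤ x v := fun v hv => by
    linarith [(abs_le.1 (st.typ v hv)).1]
  -- base change
  have hS : ((r : ℝ) - 1) * ∑ l ∈ Icc 1 r, Pc x c l ≤ (1 + 5 * η) * r * lam G := by
    have a1 := st.sum_set η0.le (by linarith) ξ0.le
      (S := univ.filter (fun v => c v ≠ 0)) (fun v hv => (mem_filter.1 hv).2)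
    have a2 := ACm_sumT (fun _ => (1 : ℝ)) st.le
    simp only [Pc_const, mul_one, sum_const, nsmul_eq_mul] at a2
    have a3 : ((r : ℝ) - 1) * ∑ l ∈ Icc 1 r, (cn c l : ℝ) ≤ r * ((1 + η) * lam G) := by
      rw [mul_sum]
      refine (sum_le_card_nsmul _ _ ((1 + η) * lam G) fun l hl => ?_).trans ?_
      · linarith [(abs_le.1 (st.size l hl)).2]
      · simp
    rw [ACm_sumT x st.le]
    rw [a2] at a3
    generalize ((univ.filter (fun v => c v ≠ 0)).card : ℝ) = T at a1 a3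
    have a4 := mul_le_mul_of_nonneg_left (abs_le.1 a1).2 (show (0 : ℝ) ≤ r - 1 by linarith)
    have a5 := mul_le_mul_of_nonneg_left a3 η0.le
    have a6 : η * (r * (η * lam G)) ≤ 1 * (r * (η * lam G)) :=
      mul_le_mul_of_nonneg_right (by linarith) (by positivity)
    have a7 : 0 ≤ r * (η * lam G) := by positivity
    linarith
  have hee : ∑ v, op (Hm G c) x v + ∑ w ∈ Vp c 0, x w * dT G c w ≤ 3 * C ^ 2 * lam G := by
    have a1 := sum_op_le (H := Hm G c) (x := x) (a := C) fun w _ _ => st.xm w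
    have a2 : ∑ w ∈ Vp c 0, x w * dT G c w ≤ C * ∑ w ∈ Vp c 0, (dT G c w : ℝ) := by
      rw [mul_sum]
      exact sum_le_sum fun w _ => mul_le_mul_of_nonneg_right (st.xm w) (Nat.cast_nonneg _)
    have a3 : ∑ w ∈ Vp c 0, (dT G c w : ℝ) ≤ ec (Xe G c) := by
      have : ∑ w ∈ Vp c 0, dT G c w ≤ ec (Xe G c) := by rw [ec_Xe]; omega
      exact_mod_cast this
    have a4 := mul_le_mul_of_nonneg_left (a3.trans st.hE) (show 0 ≤ C by linarith)
    have a5 := mul_le_mul_of_nonneg_left st.hk (show 0 ≤ C by linarith)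
    linarith
  obtain ⟨y, y0, y1, y2, hy⟩ := base_change st.eig st.le st.proper r3 hi1 hj1 hij hle hMj η0
    (by linarith) l0 (fun v hv => st.good v (by rw [hMj v hv]; omega) (hMZ v hv)) xlo st.size
    (by rw [hMc]; linarith) hS hee
  rw [hMc] at y2 hy
  -- the new labelling
  obtain ⟨m1, m2, m3⟩ := cn_mv hij hMj
  have hec := ec_mv st.le hi1 hj1 hij hMj
  rw [hMc] at m1 m2 hec
  have hc' : ∀ v, mv c M i v ≤ r := fun v => by
    unfold mv; split_ifs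
    exacts [hi2.2, st.le v]
  have hOut : Out (mv c M i) 1 = Out c 1 := by
    ext v
    simp only [mem_Out, mv]
    split_ifs with hv
    · rw [hMj v hv]; omega
    · rfl
  have h0' : ∀ v, mv c M i v = 0 → c v = 0 := fun v => by
    unfold mv; split_ifs
    · omega
    · exact id
  have l1 : (10 : ℝ) ^ 4 * r ^ 2 ≤ lam G := by linarith
  have hbig : ∀ l ∈ Icc 1 r, 2 * r + u < cn c l := fun l hl => by
    have a1 := (abs_le.1 (st.size l hl)).1
    have a2 : ((r : ℝ) - 1) * (2 * r + u) < (r - 1) * cn c l := by linarith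
    exact_mod_cast lt_of_mul_lt_mul_left a2 (by linarith)
  have hb' : ∀ l ∈ Icc 1 r, 2 * r < cn (mv c M i) l := fun l hl => by
    have a1 := hbig l hl
    by_cases e1 : l = i
    · subst e1; omega
    · by_cases e2 : l = j
      · subst e2; omega
      · rw [m3 l e1 e2]; omega
  have h2' : 2 ≤ cn (mv c M i) 0 := by
    rw [m3 0 (by omega) (by omega)]
    have a1 := h.ex.spare (c := c) st.eig (by linarith) fun v hv => by linarith [xlo v hv]
    have a2 : (2 : ℝ) ≤ cn c 0 := by linarith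
    exact_mod_cast a2
  have hfit : d + 2 * u ≤ (Out c 1).card := by
    have : (d : ℝ) + 2 * u ≤ (Out c 1).card := by linarith
    exact_mod_cast this
  obtain ⟨s, hs⟩ : ∃ s, s + g = (Out c 1).card + u * (d + u) := ⟨(Out c 1).card + u * (d + u) - g,
    by omega⟩
  obtain ⟨S, hSs, hSc⟩ := exists_subset_card_eq (s := Out c 1) (n := s) (by omega)
  have hsplit := ec_split st.proper
  have hcount : ec (Kc (mv c M i)) + S.card + 1 = ec G := by
    rw [hSc]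
    have a1 : u * (cn c i + u) = u * cn c j + u * (d + u) := by rw [hd]; ring
    omega
  have yle : ∀ v, y v ≤ 2 := fun v => by
    by_cases hv : c v = 0
    · rw [y1 v hv]; norm_num
    · have a1 := y2 v hv
      have a2 : lam G * |y v - x v| ≤ lam G * (1 / 2) := by linarith
      have a3 := (abs_le.1 (le_of_mul_le_mul_left a2 l0)).2
      linarith [(abs_le.1 (st.typ v hv)).2]
  have hin := h.cls.ineq h.ex (by omega) hc' hb' h2' one (hOut ▸ hSs) hcount l0 y0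
    (fun v hv => y1 v (h0' v hv)) yle
  have hS0 : ∀ v ∈ S, c v ≠ 0 := fun v hv => (mem_Out.1 (hSs hv)).1
  have hX := st.sum_set η0.le (by linarith) ξ0.le hS0
  have hY : lam G * ∑ v ∈ S, x v - S.card * (2 * u) ≤ lam G * ∑ v ∈ S, y v := by
    rw [mul_sum, mul_sum, ← nsmul_eq_mul, ← sum_const, ← sum_sub_distrib]
    refine sum_le_sum fun v hv => ?_
    have a1 := y2 v (hS0 v hv)
    have a2 := mul_le_mul_of_nonneg_left (neg_abs_le (y v - x v)) l0.le
    linarith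
  rw [hSc] at hX hY
  have s1 : ((Out c 1).card : ℝ) ≤ s + d + 2 * u := by
    have : (Out c 1).card ≤ s + d + 2 * u := by omega
    exact_mod_cast this
  have s2 : (s : ℝ) ≤ (Out c 1).card := by
    have : s ≤ (Out c 1).card := by omega
    exact_mod_cast this
  have hA := ACm_A η0 η1 l0 hN u0 hu1 dle s1 s2 hX hY
  have ir0 : (0 : ℝ) ≤ 1 / r := by positivity
  have ir1 : (1 : ℝ) / r ≤ 1 := (div_le_one (by linarith)).2 (by linarith)
  refine ACm_fin (L := (u : ℝ) * (cn c i - cn c j + u)) hr hC η0 ηr l0 lb (by linarith)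
    (by linarith) hN hu u0 ?_ (Nat.cast_nonneg g) hgR hA h.base hy hin
  rw [hdR, add_sub_cancel_left]
  exact u1R

theorem Mid.fill (h : Mid r D t Fr G x ξ C η c Z) (g : ℕ) (hg : g ≤ 2 * (Out c 1).card)
    (he : g + ec (Xe G c) = (Out c 1).card + 1 + ec (Hm G c)) :
    ((Out c 1).card : ℝ) ^ 2 + 2 * ec (Hm G c) * (1 - 2 * ξ) * (Out c 1).card -
      2 * (1 - 1 / r) * g * (Out c 1).card ≤ D2 G c + 300 * C * η * ((Out c 1).card : ℝ) ^ 2 := by
  have r3 := h.r3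
  have h2 : 2 ∈ Icc 2 r := mem_Icc.2 ⟨le_rfl, by omega⟩
  have h3 : 3 ∈ Icc 2 r := mem_Icc.2 ⟨by omega, r3⟩
  rcases le_total (cn c 3) (cn c 2) with hle | hle
  · exact ACm_main h g hg he h2 h3 (by omega) hle
  · exact ACm_main h g hg he h3 h2 (by omega) hle

end Pool.Agent.P.MP_094db5_co
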