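import Pool.Agent.P.MP_094db5_co.Wheel

set_option autoImplicit false

open Finset Classical SimpleGraph

noncomputable section

namespace Pool.Agent.P.MP_094db5_co

variable {V W : Type}

lemma lam_le_of_map [Fintype V] [Fintype W] [Nonempty V] {G : SimpleGraph V} {H : SimpleGraph W}
    (f : V → W) (T : Finset V) (hf : Set.InjOn f T) (hT : ∀ u v, G.Adj u v → u ∈ T)
    (hadj : ∀ u v, G.Adj u v → H.Adj (f u) (f v)) : lam G ≤ lam H := by
  have : Nonempty W := Nonempty.map f ‹_›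
  obtain ⟨x, hx⟩ := exists_perron G
  obtain ⟨y, y0, y1, y2⟩ : ∃ y : W → ℝ, (∀ u, 0 ≤ y u) ∧ (∀ v ∈ T, y (f v) = x v) ∧
      ∀ u, u ∉ T.image f → y u = 0 := by
    refine ⟨fun u => if h : ∃ v ∈ T, f v = u then x h.choose else 0, fun u => ?_, fun v hv => ?_,
      fun u hu => dif_neg (by simpa using hu)⟩
    · beta_reduce
      split_ifs
      exacts [hx.nonneg _, le_rfl]
    · have h : ∃ v' ∈ T, f v' = f v := ⟨v, hv, rfl⟩
      beta_reduce
      rw [dif_pos h, hf h.choose_spec.1 hv h.choose_spec.2]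
  have a1 : ∑ u, y u ^ 2 ≤ 1 := by
    rw [← sum_subset (subset_univ (T.image f)) fun u _ hu => by rw [y2 u hu]; norm_num,
      sum_image hf, sum_congr rfl fun v hv => by rw [y1 v hv], ← hx.unit]
    exact sum_le_sum_of_subset_of_nonneg (subset_univ _) fun _ _ _ => sq_nonneg _
  have h0 : ∀ u v, 0 ≤ ad H u v * (y u * y v) := fun u v =>
    mul_nonneg (ad_nonneg _ _ _) (mul_nonneg (y0 u) (y0 v))
  have a2 : qf G x ≤ qf H y := by
    calc qf G x = ∑ u ∈ T, ∑ v ∈ T, ad G u v * (x u * x v) := by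
          rw [qf, S2, ← sum_subset (subset_univ T) fun u _ hu => sum_eq_zero fun v _ => by
            rw [ad, if_neg fun a => hu (hT _ _ a), zero_mul]]
          refine sum_congr rfl fun u _ => (sum_subset (subset_univ T) fun v _ hv => ?_).symm
          rw [ad, if_neg fun a => hv (hT _ _ a.symm), zero_mul]
      _ ≤ ∑ u ∈ T, ∑ v ∈ T, ad H (f u) (f v) * (y (f u) * y (f v)) := by
          refine sum_le_sum fun u hu => sum_le_sum fun v hv => ?_
          rw [y1 u hu, y1 v hv]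
          refine mul_le_mul_of_nonneg_right ?_ (mul_nonneg (hx.nonneg u) (hx.nonneg v))
          have := hadj u v
          unfold ad
          split_ifs <;> first | linarith | tauto
      _ = ∑ u ∈ T.image f, ∑ v ∈ T.image f, ad H u v * (y u * y v) := by
          rw [sum_image hf]
          exact sum_congr rfl fun u _ => by rw [sum_image hf]
      _ ≤ _ := (sum_le_sum fun u _ => sum_le_sum_of_subset_of_nonneg (subset_univ _)
            fun v _ _ => h0 u v).trans (sum_le_sum_of_subset_of_nonneg (subset_univ _)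
            fun u _ _ => sum_nonneg fun v _ => h0 u v)
  rw [← hx.val]
  exact a2.trans ((qf_le_lam H y).trans (mul_le_of_le_one_right (lam_nonneg H) a1))

lemma exists_map_eq {s : Finset V} {t : Finset W} (h : s.card = t.card) {a : V} {p : W}
    (ha : a ∈ s) (hp : p ∈ t) : ∃ f : V → W, Set.InjOn f s ∧ (∀ v ∈ s, f v ∈ t) ∧ f a = p := by
  let e := (equivOfCardEq h).trans (Equiv.swap (equivOfCardEq h ⟨a, ha⟩) ⟨p, hp⟩)
  refine ⟨fun v => if h : v ∈ s then e ⟨v, h⟩ else p, fun u hu v hv e' => ?_, fun v hv => ?_, ?_⟩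
  · simp only [dif_pos (mem_coe.1 hu), dif_pos (mem_coe.1 hv)] at e'
    exact congrArg Subtype.val (e.injective (Subtype.ext e'))
  · simp only [dif_pos hv]
    exact Subtype.property _
  · simp [dif_pos ha, e]

lemma Gad2.lam_le [Fintype V] [Fintype W] {G : SimpleGraph V} {H : SimpleGraph W} {n : ℕ}
    {c : V → ℕ} {c' : W → ℕ} {w w' a b : V} {u u' p q : W} (h : Gad2 G n c w w' a b a b)
    (h' : Gad2 H n c' u u' p q p q) : lam G ≤ lam H := by
  have : Nonempty V := ⟨w⟩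
  have e1 := h.wf.cn_eq
  have e2 := h'.wf.cn_eq
  have hN := h.nbr
  have hP := h.wf.proper
  obtain ⟨h0, h1, h2, h3, -, h5, -, hg⟩ := h
  obtain ⟨k0, k1, k2, k3, -, k5, -, kg⟩ := h'
  have hn : 0 < n := e1 2 (by simp) ▸ card_pos.2 ⟨a, by simpa using h3⟩
  obtain ⟨x, hx⟩ := card_pos.1 (show 0 < cn c 1 by rwa [e1 1 (by simp)])
  obtain ⟨y, hy⟩ := card_pos.1 (show 0 < cn c' 1 by rwa [e2 1 (by simp)])
  have e3 : ∀ i ∈ Icc 1 3, cn c i = cn c' i := fun i hi => (e1 i hi).trans (e2 i hi).symm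
  obtain ⟨f1, a1, b1, -⟩ := exists_map_eq (e3 1 (by simp)) hx hy
  obtain ⟨f2, a2, b2, d2⟩ := exists_map_eq (e3 2 (by simp)) (a := a) (p := p) (by simpa using h3)
    (by simpa using k3)
  obtain ⟨f3, a3, b3, d3⟩ := exists_map_eq (e3 3 (by simp)) (a := b) (p := q) (by simpa using h5)
    (by simpa using k5)
  simp only [Set.InjOn, mem_coe, mem_filter, mem_univ, true_and] at a1 a2 a3 b1 b2 b3
  obtain ⟨f, hf⟩ : ∃ f : V → W, ∀ v, f v = if v = w then u else if v = w' then u' else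
    if c v = 1 then f1 v else if c v = 2 then f2 v else f3 v := ⟨_, fun _ => rfl⟩
  have hc := hg.1
  have c1 : ∀ v, c v ≠ 0 → c' (f v) = c v := fun v hv => by
    have := hc v
    have := b1 v
    have := b2 v
    have := b3 v
    rw [hf]
    grind
  have c2 : f w = u := by rw [hf, if_pos rfl]
  have c3 : f w' = u' := by rw [hf, if_neg h0.symm, if_pos rfl]
  have c4 : f a = p := by rw [hf]; grind
  have c5 : f b = q := by rw [hf]; grind
  refine lam_le_of_map f (univ.filter fun v => c v ≠ 0 ∨ v = w ∨ v = w') (fun v hv v' hv' e => ?_)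
    (fun v v' hv => ?_) fun v v' hv => ?_
  · simp only [mem_coe, mem_filter, mem_univ, true_and] at hv hv'
    have := c1 v
    have := c1 v'
    by_cases d1 : c v = 0 ∨ c v' = 0
    · grind
    · have := hc v
      have := @a1 v
      have := @a2 v
      have := @a3 v
      rw [hf, hf] at e
      grind
  · have := hN v v' hv
    simp only [mem_filter, mem_univ, true_and]
    grind
  · have m : ∀ {x y : W}, s(x, y) ∈ ({s(u, u'), s(u, p), s(u, q), s(u', p), s(u', q)} : Set _) →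
        H.Adj x y := fun e => (kg.2.2 _ _).2 (Or.inr e)
    have m0 : ∀ v v', G.Adj v v' → c v = 0 → H.Adj (f v) (f v') := fun v v' hv e => by
      rcases hN v v' hv e with ⟨rfl, rfl | rfl | rfl⟩ | ⟨rfl, rfl | rfl | rfl⟩ <;>
        exact m (by simp [c2, c3, c4, c5])
    by_cases e1 : c v = 0
    · exact m0 v v' hv e1
    by_cases e2 : c v' = 0
    · exact (m0 v' v hv.symm e2).symm
    have := hP v v' hv e1
    exact (kg.2.2 _ _).2 (Or.inl ⟨by rwa [c1 v e1], by rwa [c1 v' e2], by rwa [c1 v e1, c1 v' e2],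
      fun e => e⟩)

lemma gad_mk {r n : ℕ} {c : V → ℕ} {A : Set (Sym2 V)} (h1 : ∀ v, c v ≤ r)
    (h2 : ∀ i ∈ Icc 1 r, {v | c v = i}.ncard = n) (hA : ∀ u, s(u, u) ∉ A) :
    Gad (Kc c ⊔ fromEdgeSet A) r n c A ∅ := by
  refine ⟨h1, h2, fun u v => ?_⟩
  have := hA u
  simp only [sup_adj, Kc, cross, fromEdgeSet_adj, Set.mem_empty_iff_false]
  grind

lemma gad2_mk {n : ℕ} {c : V → ℕ} {w w' a b : V} (h1 : ∀ v, c v ≤ 3)
    (h2 : ∀ i ∈ Icc 1 3, {v | c v = i}.ncard = n) (h0 : w ≠ w') (h3 : c w = 0) (h4 : c w' = 0)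
    (h5 : c a = 2) (h6 : c b = 3) : ∃ G, Gad2 G n c w w' a b a b :=
  ⟨_, h0, h3, h4, h5, h5, h6, h6, gad_mk h1 h2 fun u => by
    simp only [Set.mem_insert_iff, Set.mem_singleton_iff, Sym2.eq_iff]
    grind⟩

lemma exists_gad2 {n : ℕ} (hn : 0 < n) : ∃ (G : SimpleGraph (Fin 3 × Fin n ⊕ Bool)),
    ∃ c w w' a b, Gad2 G n c w w' a b a b := by
  obtain ⟨G, h⟩ := gad2_mk (V := Fin 3 × Fin n ⊕ Bool) (n := n)
    (c := Sum.elim (fun q => q.1.val + 1) fun _ => 0) (w := Sum.inr true) (w' := Sum.inr false)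
    (a := Sum.inl (1, ⟨0, hn⟩)) (b := Sum.inl (2, ⟨0, hn⟩))
    (by rintro (q | q) <;> simp only [Sum.elim_inl, Sum.elim_inr] <;> omega)
    (fun i hi => by
      have := mem_Icc.1 hi
      have e : {v : Fin 3 × Fin n ⊕ Bool | Sum.elim (fun q => q.1.val + 1) (fun _ => 0) v = i} =
          Set.range fun j : Fin n => Sum.inl (⟨i - 1, by omega⟩, j) := by
        ext (q | q)
        · simp [Prod.ext_iff, Fin.ext_iff]
          omega
        · simp
          omega
      rw [e, Set.ncard_range_of_injective fun _ _ h => by simpa using h]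
      simp) (by simp) rfl rfl rfl rfl
  exact ⟨G, _, _, _, _, _, h⟩

variable [Fintype V]

lemma qf_insert {A : Set (Sym2 V)} {u v : V} (huv : u ≠ v) (h : s(u, v) ∉ A) (z : V → ℝ) :
    qf (fromEdgeSet (insert s(u, v) A)) z = 2 * (z u * z v) + qf (fromEdgeSet A) z := by
  have a1 := qf_sdiff (H := fromEdgeSet (insert s(u, v) A)) (K := edge u v)
    ((edge_le_iff _).2 (Or.inr (by simp [huv]))) z
  have a2 : fromEdgeSet (insert s(u, v) A) \ edge u v = fromEdgeSet A := by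
    ext a b
    have : s(a, b) = s(u, v) → s(a, b) ∉ A := fun e => e ▸ h
    simp only [sdiff_adj, fromEdgeSet_adj, Set.mem_insert_iff, edge_adj, Sym2.eq_iff] at this ⊢
    tauto
  rw [a2, qf_edge huv] at a1
  linarith

lemma Gad2.qf_eq {G : SimpleGraph V} {n : ℕ} {c : V → ℕ} {w w' a b a' b' : V}
    (h : Gad2 G n c w w' a b a' b') (z : V → ℝ) : qf G z = qf (Kc c) z +
      2 * (z w * z w' + z w * z a + z w * z b + z w' * z a' + z w' * z b') := by
  have a1 := qf_split h.wf.proper z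
  rw [← fromEdgeSet_edgeSet (Xe G c), ← fromEdgeSet_edgeSet (Kc c \ G), h.wf.eX, h.wf.eM] at a1
  obtain ⟨h0, h1, h2, h3, h4, h5, h6, -⟩ := h
  rw [qf_insert h0 (by simp; grind), qf_insert (by grind) (by simp; grind),
    qf_insert (by grind) (by simp; grind), qf_insert (by grind) (by simp; grind),
    ← edge, qf_edge (by grind)] at a1
  have : qf (fromEdgeSet (∅ : Set (Sym2 V))) z = 0 := by simp [qf, S2, ad]
  linarith

omit [Fintype V] in
lemma Gad2.swap {G : SimpleGraph V} {n : ℕ} {c : V → ℕ} {w w' a b a' b' : V}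
    (h : Gad2 G n c w w' a b a' b') : Gad2 G n c w' w a' b' a b := by
  obtain ⟨h0, h1, h2, h3, h4, h5, h6, hg⟩ := h
  refine ⟨h0.symm, h2, h1, h4, h3, h6, h5, ?_⟩
  convert hg using 1
  ext e
  simp only [Set.mem_insert_iff, Set.mem_singleton_iff, Sym2.eq_swap (a := w') (b := w)]
  tauto

lemma Gad2.switch_aux {G : SimpleGraph V} {n : ℕ} {c : V → ℕ} {w w' a b a' b' : V}
    (h : Gad2 G n c w w' a b a' b') (haa : a ≠ a') (l0 : 0 < lam G) {z : V → ℝ} (hz : Perron G z)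
    (hza : z a' ≤ z a) : ∃ G' b'', Gad2 G' n c w w' a b'' a b'' ∧ lam G < lam G' := by
  have q1 := h.qf_eq z
  obtain ⟨h0, h1, h2, h3, h4, h5, h6, hg⟩ := h
  obtain ⟨d, hd, d1, d2⟩ : ∃ d, c d = 3 ∧ z b ≤ z d ∧ z b' ≤ z d := by
    rcases le_total (z b) (z b') with e | e
    exacts [⟨b', h6, e, le_rfl⟩, ⟨b, h5, le_rfl, e⟩]
  obtain ⟨G', h'⟩ := gad2_mk hg.1 hg.2.1 h0 h1 h2 h3 hd
  refine ⟨G', d, h', ?_⟩
  have q2 := h'.qf_eq z
  have hN := h'.nbr
  have hg' := h'.2.2.2.2.2.2.2.2.2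
  have a1 : qf G z ≤ qf G' z := by
    linarith [mul_le_mul_of_nonneg_left d1 (hz.nonneg w), mul_le_mul_of_nonneg_left d2
      (hz.nonneg w'), mul_le_mul_of_nonneg_left hza (hz.nonneg w')]
  have a2 := qf_le_lam G' z
  rw [hz.val] at a1
  rw [hz.unit] at a2
  by_contra hn
  have a3 := eigen_of_eq G' (x := z) (by rw [hz.unit]; linarith)
  have a4 : ∀ u v, G'.Adj u v → z u = 0 → z v = 0 := fun u v huv hu => by
    have b1 := single_le_sum (f := fun v => ad G' u v * z v)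
      (fun v _ => mul_nonneg (ad_nonneg _ _ _) (hz.nonneg v)) (mem_univ v)
    rw [a3, hu, ad, if_pos huv] at b1
    linarith [hz.nonneg v]
  have a5 : z w' = 0 := by
    have b1 := single_le_sum (f := fun v => ad G a' v * z v - ad G' a' v * z v)
      (fun v _ => sub_nonneg.2 (mul_le_mul_of_nonneg_right (by
        have : G'.Adj a' v → G.Adj a' v := fun e => by
          have := hN v a' e.symm
          have := h'.wf.proper a' v e
          exact (hg.2.2 _ _).2 (Or.inl ⟨by omega, by grind, by grind, fun e => e⟩)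
        unfold ad
        split_ifs <;> first | linarith | tauto) (hz.nonneg v))) (mem_univ w')
    rw [sum_sub_distrib, a3, hz.eig, ad, ad, if_pos ((hg.2.2 _ _).2 (by simp)),
      if_neg fun e => by have := hN w' a' e.symm h2; grind,
      show lam G' = lam G by linarith] at b1
    linarith [hz.nonneg w']
  have a6 := a4 w' w ((hg' _ _).2 (by simp)) a5
  have a7 := a4 w' a ((hg' _ _).2 (by simp)) a5
  have a8 := a4 w' d ((hg' _ _).2 (by simp)) a5
  have a9 : qf G' z = 0 := sum_eq_zero fun u _ => sum_eq_zero fun v _ => by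
    beta_reduce
    unfold ad
    split_ifs with e
    · have : z u = 0 := by
        by_cases e1 : c u = 0
        · have := hN u v e e1
          grind
        · by_cases e2 : c u = 2
          · exact a4 d u ((hg' _ _).2 (Or.inl ⟨by omega, by omega, by omega, fun e => e⟩)) a8
          · exact a4 a u ((hg' _ _).2 (Or.inl ⟨by omega, by omega, by omega, fun e => e⟩)) a7
      rw [this]; ring
    · ring
  linarith

lemma Gad2.switch {G : SimpleGraph V} {n : ℕ} {c : V → ℕ} {w w' a b a' b' : V}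
    (h : Gad2 G n c w w' a b a' b') (haa : a ≠ a') (l0 : 0 < lam G) :
    ∃ G' u u' p q, Gad2 G' n c u u' p q p q ∧ lam G < lam G' := by
  have : Nonempty V := ⟨w⟩
  obtain ⟨z, hz⟩ := exists_perron G
  rcases le_total (z a') (z a) with e | e
  · obtain ⟨G', d, h'⟩ := h.switch_aux haa l0 hz e
    exact ⟨G', _, _, _, d, h'⟩
  · obtain ⟨G', d, h'⟩ := h.swap.switch_aux haa.symm l0 hz e
    exact ⟨G', _, _, _, d, h'⟩

lemma sq_ne {n n' : ℕ} : 3 * n ^ 2 + 5 ≠ 3 * n' ^ 2 + 1 := by omega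

theorem wheel_extremal {k : ℕ} (hk : 2 ≤ k) : ∃ n₀ : ℕ, ∀ n, n₀ ≤ n → ∀ (V : Type) [Fintype V]
    (G : SimpleGraph V), ((G.edgeSet.ncard = 3 * n ^ 2 + 5 ∧ (Whl k).Free G ∧ ¬ G.Colorable 3) ∧
      ∀ (W : Type) [Fintype W] (H : SimpleGraph W),
        H.edgeSet.ncard = 3 * n ^ 2 + 5 ∧ (Whl k).Free H ∧ ¬ H.Colorable 3 → lam H ≤ lam G) ↔
      ∃ c w w' a b, Gad2 G n c w w' a b a b := by
  obtain ⟨m₀, h⟩ := wheel_main hk
  refine ⟨m₀ + 1, fun n hn V _ G => ?_⟩
  have hm : m₀ ≤ 3 * n ^ 2 + 5 := by nlinarith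
  have hthr : (0 : ℝ) ≤ 2 * (1 - 1 / (3 : ℕ)) * (((3 * n ^ 2 + 5 : ℕ) : ℝ) - (5 : ℕ)) := by
    push_cast
    nlinarith [sq_nonneg (n : ℝ)]
  have key : ∀ (W : Type) [Fintype W] (H : SimpleGraph W), H.edgeSet.ncard = 3 * n ^ 2 + 5 →
      (Whl k).Free H → ¬ H.Colorable 3 →
      2 * (1 - 1 / (3 : ℕ)) * (((3 * n ^ 2 + 5 : ℕ) : ℝ) - (5 : ℕ)) < lam H ^ 2 →
      (∃ c w w' a b, Gad2 H n c w w' a b a b) ∨
        ∃ (H' : SimpleGraph W), lam H < lam H' ∧ ∃ c w w' a b, Gad2 H' n c w w' a b a b := by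
    intro W _ H h1 h2 h3 h4
    obtain ⟨n', ⟨e, -⟩ | ⟨e, c, w, w', a, b, a', b', hg, hab⟩⟩ :=
      (h W H (by omega)).1 ⟨h2, h3, by rwa [h1]⟩
    · exact (sq_ne (h1.symm.trans e)).elim
    obtain rfl : n' = n := Nat.pow_left_injective two_ne_zero (show n' ^ 2 = n ^ 2 by omega)
    by_cases e' : a = a'
    · obtain rfl := hab.1 e'
      subst e'
      exact Or.inl ⟨c, w, w', a, b, hg⟩
    · have : Nonempty W := ⟨w⟩
      obtain ⟨H', u, u', p, q, b1, b2⟩ := hg.switch e' (lt_of_le_of_ne (lam_nonneg H) fun e => by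
        rw [← e] at h4
        linarith)
      exact Or.inr ⟨H', b2, c, u, u', p, q, b1⟩
  have good : ∀ (W : Type) [Fintype W] (H : SimpleGraph W) c w w' a b, Gad2 H n c w w' a b a b →
      (H.edgeSet.ncard = 3 * n ^ 2 + 5 ∧ (Whl k).Free H ∧ ¬ H.Colorable 3) ∧
      2 * (1 - 1 / (3 : ℕ)) * (((3 * n ^ 2 + 5 : ℕ) : ℝ) - (5 : ℕ)) < lam H ^ 2 ∧ 0 ≤ lam H :=
    fun W _ H c w w' a b hg => by
      have : Nonempty W := ⟨w⟩
      exact ⟨⟨hg.count, hg.free hk (by simp), (hg.good (by omega)).1⟩,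
        hg.count ▸ (hg.good (by omega)).2, lam_nonneg H⟩
  constructor
  · rintro ⟨⟨h1, h2, h3⟩, hmax⟩
    obtain ⟨H, c, w, w', a, b, hg⟩ := exists_gad2 (n := n) (by omega)
    obtain ⟨b1, b2, b3⟩ := good _ H c w w' a b hg
    rcases key V G h1 h2 h3 (b2.trans_le (pow_le_pow_left₀ b3 (hmax _ H b1) 2)) with e |
      ⟨H', e, c, w, w', a, b, hg⟩
    · exact e
    · exact absurd (hmax V H' (good V H' c w w' a b hg).1) (not_le.2 e)
  · rintro ⟨c, w, w', a, b, hg⟩
    obtain ⟨b1, b2, b3⟩ := good V G c w w' a b hg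
    refine ⟨b1, fun W _ H ⟨h1, h2, h3⟩ => ?_⟩
    by_contra hlt
    rcases key W H h1 h2 h3 (b2.trans_le (pow_le_pow_left₀ b3 (not_le.1 hlt).le 2)) with
      ⟨c', u, u', p, q, hg'⟩ | ⟨H', e, c', u, u', p, q, hg'⟩
    · exact hlt (hg'.lam_le hg)
    · exact hlt (e.le.trans (hg'.lam_le hg))

end Pool.Agent.P.MP_094db5_co
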