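import Pool.Agent.P.MP_094db5_co.ADefs
import Pool.Agent.P.MP_094db5_co.Extr

/-! Shared definitions for the structure theorem. -/

set_option autoImplicit false

open Finset Classical

noncomputable section

namespace Pool.Agent.P.MP_094db5_co

variable {V : Type}

/-- number of edges -/
def ec (G : SimpleGraph V) : ℕ := G.edgeSet.ncard

/-- the star with centre `w` and leaves `X` -/
def Sg (w : V) (X : Finset V) : SimpleGraph V where
  Adj u v := u ≠ v ∧ (u = w ∧ v ∈ X ∨ v = w ∧ u ∈ X)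
  symm := ⟨fun _ _ a => ⟨a.1.symm, a.2.symm⟩⟩
  loopless := ⟨fun _ a => a.1 rfl⟩

/-- target graphs: complete multipartite minus `H` plus two stars -/
def Tg (c : V → ℕ) (H : SimpleGraph V) (o : V) (S : Finset V) (w : V) (X : Finset V) :
    SimpleGraph V := Kc c \ H ⊔ Sg o S ⊔ Sg w X

/-- missing cross pairs -/
def Hm (G : SimpleGraph V) (c : V → ℕ) : SimpleGraph V := Kc c \ G

/-- edges between vertices with label zero -/
def Ww (G : SimpleGraph V) (c : V → ℕ) : SimpleGraph V where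
  Adj u v := G.Adj u v ∧ c u = 0 ∧ c v = 0
  symm := ⟨fun _ _ a => ⟨a.1.symm, a.2.2, a.2.1⟩⟩
  loopless := ⟨fun _ a => a.1.ne rfl⟩

/-- restriction to the labelled vertices -/
def rT (c : V → ℕ) (x : V → ℝ) (v : V) : ℝ := if c v = 0 then 0 else x v

/-- well formed data of a target graph -/
structure TgOK (r : ℕ) (c : V → ℕ) (H : SimpleGraph V) (o : V) (S : Finset V) (w : V)
    (X : Finset V) : Prop where
  le : ∀ v, c v ≤ r
  hH : H ≤ Kc c
  o0 : c o = 0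
  w0 : c w = 0
  ow : o ≠ w
  hS : ∀ v ∈ S, c v ≠ 0
  hX : ∀ v ∈ X, c v ≠ 0 ∨ v = o

/-- admissible targets -/
structure Adm (r : ℕ) (Fr : SimpleGraph V → Prop) (c : V → ℕ) (H : SimpleGraph V) (o : V)
    (S : Finset V) (w : V) (X : Finset V) : Prop where
  ok : TgOK r c H o S w X
  fr : Fr (Tg c H o S w X)
  nc : ¬ (Tg c H o S w X).Colorable r

/-- transversals of the parts -/
def Trans (r : ℕ) (c : V → ℕ) (X : Finset V) : Prop :=
  (∀ v ∈ X, c v ≠ 0) ∧ (∀ i ∈ Icc 1 r, ∃ v ∈ X, c v = i) ∧ ∀ u ∈ X, ∀ v ∈ X, c u = c v → u = v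

/-- labelled vertices are not isolated -/
def NI (G : SimpleGraph V) (c : V → ℕ) : Prop := ∀ v, c v ≠ 0 → ∃ u, G.Adj v u

/-- the properties of the class of `F`-free graphs that are used -/
structure Cls (r D t : ℕ) (Fr : SimpleGraph V → Prop) : Prop where
  deg : ∀ G, Fr G → Deg G r D
  noplus : ∀ G, Fr G → NoPlus G r t
  gad : ∀ (G : SimpleGraph V) (w a : V) (X : Finset V), G.Colorable r → (∀ v, ¬ G.Adj w v) →
    X.card ≤ r → a ∈ X → (∀ b ∈ X, ¬ G.Adj a b) → Fr (G ⊔ Sg w X)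

variable [Fintype V]

/-- a part -/
def Vp (c : V → ℕ) (i : ℕ) : Finset V := univ.filter fun v => c v = i

@[simp] lemma mem_Vp {c : V → ℕ} {i : ℕ} {v : V} : v ∈ Vp c i ↔ c v = i := by simp [Vp]

lemma card_Vp (c : V → ℕ) (i : ℕ) : (Vp c i).card = cn c i := rfl

/-- labelled vertices outside part `l` -/
def Out (c : V → ℕ) (l : ℕ) : Finset V := univ.filter fun v => c v ≠ 0 ∧ c v ≠ l

@[simp] lemma mem_Out {c : V → ℕ} {l : ℕ} {v : V} : v ∈ Out c l ↔ c v ≠ 0 ∧ c v ≠ l := by simp [Out]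

/-- labelled neighbours -/
def nT (G : SimpleGraph V) (c : V → ℕ) (u : V) : Finset V :=
  univ.filter fun v => G.Adj u v ∧ c v ≠ 0

@[simp] lemma mem_nT {G : SimpleGraph V} {c : V → ℕ} {u v : V} :
    v ∈ nT G c u ↔ G.Adj u v ∧ c v ≠ 0 := by simp [nT]

/-- number of labelled neighbours -/
def dT (G : SimpleGraph V) (c : V → ℕ) (u : V) : ℕ := (nT G c u).card

/-- weight of the labelled neighbours -/
def aT (G : SimpleGraph V) (c : V → ℕ) (x : V → ℝ) (u : V) : ℝ := ∑ v ∈ nT G c u, x v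

/-- contribution of the unlabelled vertices -/
def Qw (G : SimpleGraph V) (c : V → ℕ) (x : V → ℝ) : ℝ := ∑ u ∈ Vp c 0, x u * aT G c x u

/-- sum of the squares of the degrees of the unlabelled vertices -/
def D2 (G : SimpleGraph V) (c : V → ℕ) : ℕ := ∑ u ∈ Vp c 0, dT G c u ^ 2

/-- adjacency operator -/
def op (G : SimpleGraph V) (x : V → ℝ) (u : V) : ℝ := ∑ v, ad G u v * x v

/-- shifted quadratic form -/
def Ph (G : SimpleGraph V) (l : ℝ) (y : V → ℝ) : ℝ := qf G y - l * ∑ v, y v ^ 2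

/-- nonnegative eigenvector -/
structure Eig (G : SimpleGraph V) (x : V → ℝ) : Prop where
  nonneg : ∀ v, 0 ≤ x v
  eig : ∀ u, op G x u = lam G * x u

/-- extremal graphs with many isolated vertices -/
structure Ex (r : ℕ) (Fr : SimpleGraph V → Prop) (G : SimpleGraph V) : Prop where
  fr : Fr G
  nc : ¬ G.Colorable r
  max : ∀ H : SimpleGraph V, ec H = ec G → Fr H → ¬ H.Colorable r → lam H ≤ lam G
  iso : 2 * ec G + 2 ≤ (univ.filter fun v => ∀ u, ¬ G.Adj v u).card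

/-- first structure -/
structure St1 (r : ℕ) (G : SimpleGraph V) (x : V → ℝ) (ξ C η : ℝ) (c : V → ℕ) (Z : Finset V) :
    Prop where
  eig : Eig G x
  le : ∀ v, c v ≤ r
  proper : Proper G c
  typ : ∀ v, c v ≠ 0 → |x v - 1| ≤ ξ
  zc : (Z.card : ℝ) ≤ η * lam G
  good : ∀ v, c v ≠ 0 → v ∉ Z → |x v - 1| ≤ η
  size : ∀ i ∈ Icc 1 r, |((r : ℝ) - 1) * cn c i - lam G| ≤ η * lam G
  hk : (ec (Hm G c) : ℝ) ≤ C * lam G
  hE : (ec (Xe G c) : ℝ) ≤ C * lam G
  xm : ∀ v, x v ≤ C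
  big : 1 ≤ η ^ 3 * lam G

/-- additional properties before the absorption step -/
structure Pre (r : ℕ) (G : SimpleGraph V) (ξ η : ℝ) (c : V → ℕ) : Prop where
  miss : ∀ u, ((univ.filter fun v => (Hm G c).Adj u v).card : ℝ) ≤ 2 * ξ * lam G
  E1 : ∀ u, ∃ i ∈ Icc 1 r, ((univ.filter fun v => c v = i ∧ G.Adj u v).card : ℝ) ≤ η * lam G
  E2 : ∀ u v, G.Adj u v → ∀ i ∈ Icc 1 r, ∃ j ∈ Icc 1 r, j ≠ i ∧
    ((univ.filter fun w => c w = j ∧ G.Adj u w ∧ G.Adj v w).card : ℝ) ≤ η * lam G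

/-- the context after the absorption step -/
structure Mid (r D t : ℕ) (Fr : SimpleGraph V → Prop) (G : SimpleGraph V) (x : V → ℝ)
    (ξ C η : ℝ) (c : V → ℕ) (Z : Finset V) : Prop where
  cls : Cls r D t Fr
  ex : Ex r Fr G
  st : St1 r G x ξ C η c Z
  wdeg : ∀ u, c u = 0 → (dT G c u : ℝ) ≤ (1 - 9 / 10 * ξ) * lam G
  r3 : 3 ≤ r
  C1 : 1 ≤ C
  η0 : 0 < η
  ξ0 : 0 < ξ
  ξ1 : 100 * r * ξ ≤ 1
  sm : 10 ^ 4 * r ^ 2 * C ^ 4 * η ≤ ξ ^ 2

/-- final structure -/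
structure St (r : ℕ) (G : SimpleGraph V) (x : V → ℝ) (η : ℝ) (c : V → ℕ) (z : V) : Prop where
  eig : Eig G x
  le : ∀ v, c v ≤ r
  proper : Proper G c
  typ : ∀ v, c v ≠ 0 → |x v - 1| ≤ η
  size : ∀ i ∈ Icc 1 r, |((r : ℝ) - 1) * cn c i - lam G| ≤ η * lam G
  hk : (ec (Hm G c) : ℝ) ≤ η * lam G
  z0 : c z = 0
  zmax : ∀ u, c u = 0 → x u ≤ x z
  dz : (dT G c z : ℝ) ≤ (1 - 1 / r) ^ 2 * lam G
  small : ∀ u, c u = 0 → u ≠ z → x u ≤ η
  hE : (ec (Xe G c) : ℝ) ≤ dT G c z + η * lam G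
  big : 1 ≤ η * lam G

/-- the context of the exact analysis -/
structure Ctx (r C : ℕ) (Fr : SimpleGraph V → Prop) (G : SimpleGraph V) (x : V → ℝ) (η : ℝ)
    (c : V → ℕ) (z : V) : Prop where
  ex : Ex r Fr G
  st : St r G x η c z
  r3 : 3 ≤ r
  rC : r ≤ C
  η0 : 0 < η
  sm : 10 ^ 5 * C ^ 5 * η ≤ 1

end Pool.Agent.P.MP_094db5_co
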