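import Pool.Agent.P.MP_094db5_co.Defs

set_option autoImplicit false

namespace Pool.Agent.P.MP_094db5_co

/-- `G` has `m` edges, contains no copy of `F` and is not `r`-partite. -/
def InN {α V : Type} (F : SimpleGraph α) (r m : ℕ) (G : SimpleGraph V) : Prop :=
  G.edgeSet.ncard = m ∧ F.Free G ∧ ¬ G.Colorable r

/-- The pairs joining `w` to a vertex of `X`. -/
def spokes {V : Type} (w : V) (X : Set V) : Set (Sym2 V) := {e | ∃ v ∈ X, e = s(w, v)}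

/-- The number of vertices of `X` in part `i`. -/
noncomputable def pc {V : Type} (c : V → ℕ) (X : Set V) (i : ℕ) : ℕ := {v ∈ X | c v = i}.ncard

/-- `G` is obtained from the complete `r`-partite graph with parts `c⁻¹(1), …, c⁻¹(r)`, each of
size at least two, by deleting the pairs in `D` and adding the pairs in `A`; vertices with label
`0` lie outside the parts. -/
def Mp {V : Type} (G : SimpleGraph V) (r : ℕ) (c : V → ℕ) (A D : Set (Sym2 V)) : Prop :=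
  (∀ v, c v ≤ r) ∧ (∀ i ∈ Finset.Icc 1 r, 2 ≤ {v | c v = i}.ncard) ∧
    ∀ u v, G.Adj u v ↔ (c u ≠ 0 ∧ c v ≠ 0 ∧ c u ≠ c v ∧ s(u, v) ∉ D) ∨ s(u, v) ∈ A

/-- The family for `K_r ∨ (t+1) K_1`: a new vertex `w` is joined to a set `X` that meets every
part, and the pairs from `z` to `D` are deleted (first two types) or added (third type). -/
def FamB {V : Type} (r t : ℕ) (G : SimpleGraph V) (c : V → ℕ) : Prop :=
  ∃ (w z : V) (X D : Set V), c w = 0 ∧ (∀ v ∈ X, c v ≠ 0) ∧ (∀ v ∈ D, c v ≠ 0 ∧ c v ≠ c z) ∧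
    (∀ i ∈ Finset.Icc 1 r, 1 ≤ pc c X i) ∧
    ((Mp G r c (spokes w X) (spokes z D) ∧ z ∈ X ∧
        ∃ b ∈ X, D = {b} ∧ pc c X (c z) = 1 ∧ pc c X (c b) = 1) ∨
      (Mp G r c (spokes w X) (spokes z D) ∧ c z ≠ 0 ∧ (∀ i ∈ Finset.Icc 1 r, pc c X i = 1) ∧
        (t = 0 → z ∈ X ∧ ∃ b, X ∩ D = {b} ∧ ∃ y ∉ D, c y = c b) ∧
        (1 ≤ t → z ∉ X ∧ ∀ v ∈ X ∩ D, ∀ y, c y = c v → y ∈ D)) ∨
      (Mp G r c (spokes w X ∪ spokes z D) ∅ ∧ 1 ≤ t ∧ c z = 0 ∧ (∀ i ∈ Finset.Icc 1 r, pc c X i ≤ t) ∧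
        D.ncard ≤ r ∧ ¬ X ⊆ D ∧ (D.Nonempty → z ≠ w ∧ ∀ i ∈ Finset.Icc 1 r, pc c X i = t)))

/-- The family for the even wheels. -/
def FamW {V : Type} (G : SimpleGraph V) (c : V → ℕ) : Prop :=
  ∃ (w z a b : V) (D : Set V), c w = 0 ∧ c z ≠ 0 ∧ c a ≠ 0 ∧ c b ≠ 0 ∧ c a ≠ c b ∧
    (∀ v ∈ D, c v ≠ 0) ∧
    ((Mp G 3 c (spokes w {z, a, b}) (spokes z D) ∧ (∀ v ∈ D, c v ≠ c z) ∧ a ∈ D ∧ b ∈ D ∧
        (∃ y ∉ D, c y = c a) ∧ ∃ y ∉ D, c y = c b) ∨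
      (∃ w' ≠ w, c w' = 0 ∧ Mp G 3 c (spokes w {w', a, b} ∪ spokes w' {a, b}) (spokes z D) ∧
        (∀ v ∈ D, c v ≠ c z) ∧ D.ncard ≤ 2 ∧ z ≠ a ∧ z ≠ b ∧ a ∉ D ∧ b ∉ D) ∨
      (∃ w' ≠ w, c w' = 0 ∧ Mp G 3 c (spokes w {z, a, b} ∪ spokes w' D) (spokes z {a, b}) ∧
        c z ≠ c a ∧ c z ≠ c b ∧ 1 ≤ D.ncard ∧ D.ncard ≤ 2))

end Pool.Agent.P.MP_094db5_co
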