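import Pool.Agent.P.MP_094db5_co.AHa

/-! The lower bound for the spectral radius of an extremal graph. -/

set_option autoImplicit false

open Finset Classical

noncomputable section

namespace Pool.Agent.P.MP_094db5_co

theorem ALb_label (V : Type) [Fintype V] (k : ℕ → ℕ) (r : ℕ)
    (h : ∑ i ∈ Icc 1 r, k i ≤ Fintype.card V) :
    ∃ c : V → ℕ, (∀ v, c v ≤ r) ∧ (∀ i ∈ Icc 1 r, cn c i = k i) ∧
      cn c 0 + ∑ i ∈ Icc 1 r, k i = Fintype.card V := by
  induction r with
  | zero => exact ⟨fun _ => 0, fun _ => le_rfl, by simp, by simp [cn]⟩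
  | succ r ih =>
    rw [sum_Icc_succ_top (by omega)] at h ⊢
    obtain ⟨c, h1, h2, h3⟩ := ih (by omega)
    obtain ⟨T, hT, hTc⟩ := exists_subset_card_eq (s := Vp c 0) (n := k (r + 1))
      (by rw [card_Vp]; omega)
    have hT0 : ∀ v ∈ T, c v = 0 := fun v hv => mem_Vp.1 (hT hv)
    refine ⟨fun v => if v ∈ T then r + 1 else c v, fun v => ?_, fun i hi => ?_, ?_⟩
    · have := h1 v
      dsimp only
      split_ifs <;> omega
    · have hi' := mem_Icc.1 hi
      by_cases e : i = r + 1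
      · subst e
        rw [← hTc, cn]
        congr 1
        ext v
        have := h1 v
        by_cases hv : v ∈ T
        · simp [hv]
        · simp only [mem_filter, mem_univ, true_and, hv, if_false, iff_false]
          omega
      · rw [← h2 i (mem_Icc.2 ⟨hi'.1, by omega⟩), cn, cn]
        congr 1
        ext v
        by_cases hv : v ∈ T
        · have := hT0 v hv
          simp only [mem_filter, mem_univ, true_and, hv, if_true]
          omega
        · simp [hv]
    · have h4 : cn (fun v => if v ∈ T then r + 1 else c v) 0 = (Vp c 0 \ T).card := by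
        rw [cn]
        congr 1
        ext v
        by_cases hv : v ∈ T <;> simp [hv]
      rw [h4, card_sdiff_of_subset hT, card_Vp, hTc]
      have := card_le_card hT
      rw [card_Vp, hTc] at this
      omega

theorem ALb_Pc {V : Type} [Fintype V] (g : ℕ → ℝ) (c : V → ℕ) (i : ℕ) :
    Pc (fun v => g (c v)) c i = cn c i * g i := by
  rw [← Pc_const]
  exact le_antisymm (Pc_mono fun v e => by rw [e]) (Pc_mono fun v e => by rw [e])

theorem ALb_nat {A p m : ℕ} (hA : 0 < A) (hp : 0 < p) (K : ℕ) (hK : 0 < K)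
    (hm : A * K ^ 2 + 1 ≤ m) :
    ∃ n q s : ℕ, K ≤ n ∧ s < p * n ∧ A * n ^ 2 + q * (p * n) + s + 1 = m ∧ m ≤ A * (n + 1) ^ 2 := by
  set n := Nat.sqrt ((m - 1) / A) with hn
  have h1 : A * n ^ 2 ≤ m - 1 :=
    (Nat.mul_le_mul_left A (Nat.sqrt_le' _)).trans (Nat.mul_div_le _ _)
  have h2 : m - 1 < A * (n + 1) ^ 2 := by
    rw [mul_comm]
    exact (Nat.div_lt_iff_lt_mul hA).1 (Nat.lt_succ_sqrt' _)
  have h3 : K ≤ n := by
    by_contra h
    have := Nat.mul_le_mul_left A (Nat.pow_le_pow_left (show n + 1 ≤ K by omega) 2)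
    omega
  have h4 : 0 < p * n := Nat.mul_pos hp (by omega)
  refine ⟨n, (m - 1 - A * n ^ 2) / (p * n), (m - 1 - A * n ^ 2) % (p * n), h3,
    Nat.mod_lt _ h4, ?_, by omega⟩
  have := Nat.div_add_mod' (m - 1 - A * n ^ 2) (p * n)
  omega

theorem ALb_real {p n A m l : ℝ} (hp : 2 ≤ p) (hn : 8 ≤ n) (hA : (p + 1) * p = 2 * A)
    (hm : m ≤ A * (n + 1) ^ 2)
    (h : (p + 1) * p * n ^ 2 - l * ((p + 1) * n) ≤ 8 * (p + 1)) :
    (1 - 1 / (p + 1)) * (2 * m) - 3 * (p + 1) ^ 2 * l ≤ l ^ 2 := by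
  have h1 : p * n ^ 2 - l * n ≤ 8 := by
    refine le_of_mul_le_mul_left ?_ (show 0 < p + 1 by linarith)
    linarith
  have h2 : p * n - 1 ≤ l := by
    refine le_of_mul_le_mul_right ?_ (show 0 < n by linarith)
    nlinarith
  have h3 : 1 ≤ l := by nlinarith
  have h4 : (1 - 1 / (p + 1)) * (2 * m) ≤ (p * (n + 1)) ^ 2 := by
    have e : 1 - 1 / (p + 1) = p / (p + 1) := by
      field_simp
      ring
    rw [e, div_mul_eq_mul_div, div_le_iff₀ (by linarith)]
    have := mul_le_mul_of_nonneg_left hm (show 0 ≤ 2 * p by linarith)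
    have e2 : 2 * p * (A * (n + 1) ^ 2) = (p * (n + 1)) ^ 2 * (p + 1) := by
      linear_combination (-(p * (n + 1) ^ 2)) * hA
    linarith
  have h5 : (p * (n + 1)) ^ 2 ≤ (l + (p + 1)) ^ 2 :=
    pow_le_pow_left₀ (by positivity) (by linarith) 2
  have h6 : 0 ≤ (p + 1) ^ 2 * (l - 1) := mul_nonneg (sq_nonneg _) (by linarith)
  have h7 : 0 ≤ (p + 1) * p * l := by positivity
  nlinarith

theorem lower_all {r : ℕ} (hr : 3 ≤ r) : ∃ M : ℝ, ∀ (V : Type) [Fintype V] (D t : ℕ)
    (Fr : SimpleGraph V → Prop) (G : SimpleGraph V), Cls r D t Fr → Ex r Fr G → M ≤ Mo G →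
    (1 - 1 / r) * Mo G - 3 * r ^ 2 * lam G ≤ lam G ^ 2 := by
  obtain ⟨p, rfl⟩ : ∃ p, r = p + 1 := ⟨r - 1, by omega⟩
  obtain ⟨A, hA⟩ : ∃ A, (p + 1) * p = 2 * A := by
    rw [mul_comm]
    exact (Nat.even_mul_succ_self p).two_dvd
  have hA0 : 0 < A := by
    have := Nat.mul_pos (show 0 < p + 1 by omega) (show 0 < p by omega)
    omega
  refine ⟨2 * ((A * (2 * p + 8) ^ 2 + 1 : ℕ) : ℝ), ?_⟩
  intro V _ D t Fr G hC hG hM
  rw [Mo_ec] at hM
  have hM' : A * (2 * p + 8) ^ 2 + 1 ≤ ec G := by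
    exact_mod_cast le_of_mul_le_mul_left hM two_pos
  obtain ⟨n, q, s, hn, hs, hm, hm'⟩ := ALb_nat hA0 (show 0 < p by omega) _ (by omega) hM'
  have hV : 2 * ec G + 2 ≤ Fintype.card V := hG.iso.trans (card_le_univ _)
  let k : ℕ → ℕ := fun i => n + if i = 1 then q else 0
  have h1 : (1 : ℕ) ∈ Icc 1 (p + 1) := by simp
  have hk : ∑ i ∈ Icc 1 (p + 1), k i = (p + 1) * n + q := by
    simp [k, sum_add_distrib]
  have hsz : (p + 1) * n + q ≤ 2 * ec G := by
    have e1 : (p + 1) * n ≤ 2 * (A * n ^ 2) := by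
      rw [← mul_assoc, ← hA, mul_assoc]
      exact Nat.mul_le_mul_left _ (by nlinarith)
    have e2 : q ≤ q * (p * n) := Nat.le_mul_of_pos_right _ (by omega)
    omega
  obtain ⟨c, hc, hcn, hc0⟩ := ALb_label V k (p + 1) (by omega)
  have hkn : ∀ i, n ≤ k i := fun i => Nat.le_add_right _ _
  have hOut : (Out c 1).card = p * n := by
    rw [card_Out hc, sum_congr rfl (g := fun _ => n) fun i hi => by
      rw [hcn i (mem_of_mem_erase hi)]
      simp [k, ne_of_mem_erase hi]]
    simp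
  obtain ⟨S, hS, hSc⟩ := exists_subset_card_eq (s := Out c 1) (n := s) (by omega)
  have hA' : ((p : ℝ) + 1) * p = 2 * A := by exact_mod_cast hA
  have hK : ec (Kc c) = A * n ^ 2 + q * (p * n) := by
    have e1 := Mo_Kc hc
    have e2 : ∑ i ∈ Icc 1 (p + 1), (cn c i : ℝ) = (p + 1) * n + q := by
      rw [sum_congr rfl fun i hi => by rw [hcn i hi]]
      exact_mod_cast hk
    have e3 : ∑ i ∈ Icc 1 (p + 1), (cn c i : ℝ) ^ 2 = (p + 1) * n ^ 2 + (2 * n * q + q ^ 2) := by
      rw [sum_congr rfl (g := fun i => (n : ℝ) ^ 2 + if i = 1 then (2 * n * q + q ^ 2 : ℝ) else 0)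
        fun i hi => by
          rw [hcn i hi]
          by_cases e : i = 1
          · simp only [k, e, if_true]
            push_cast
            ring
          · simp [k, e]]
      simp [sum_add_distrib]
    rw [Mo_ec, e2, e3] at e1
    have e4 : (ec (Kc c) : ℝ) = A * n ^ 2 + q * (p * n) := by
      linear_combination (1 / 2) * e1 + (n : ℝ) ^ 2 / 2 * hA'
    exact_mod_cast e4
  have l0 : 0 < lam G := by
    have e1 := qf_le_lam G (fun _ => 1)
    rw [← Mo_eq_qf, Mo_ec] at e1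
    have e2 : (0 : ℝ) < ec G := by exact_mod_cast (by omega : 0 < ec G)
    by_contra e3
    have := mul_nonpos_of_nonpos_of_nonneg (not_lt.1 e3)
      (sum_nonneg (s := (univ : Finset V)) fun _ _ => sq_nonneg (1 : ℝ))
    linarith
  have hn0 : (0 : ℝ) < n := by exact_mod_cast (by omega : 0 < n)
  have hk0 : ∀ i, (n : ℝ) ≤ k i := fun i => by exact_mod_cast hkn i
  let g : ℕ → ℝ := fun i => if i = 0 then 0 else n / k i
  have hg0 : ∀ i, 0 ≤ g i := fun i => by
    simp only [g]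
    split_ifs
    · exact le_rfl
    · positivity
  have hg1 : ∀ i, g i ≤ 1 := fun i => by
    simp only [g]
    split_ifs
    · exact zero_le_one
    · exact div_le_one_of_le₀ (hk0 i) (Nat.cast_nonneg _)
  have hP : ∀ i ∈ Icc 1 (p + 1), (cn c i : ℝ) * g i = n := fun i hi => by
    have e : i ≠ 0 := by
      have := (mem_Icc.1 hi).1
      omega
    have := (hn0.trans_le (hk0 i)).ne'
    simp only [g, hcn i hi, if_neg e]
    field_simp
  have key := hC.ineq hG (by omega) hc (fun i hi => by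
      have := hkn i
      rw [hcn i hi]
      omega) (by omega) h1 hS (by omega) l0 (y := fun v => g (c v)) (fun v => hg0 _)
    (fun v hv => by simp [g, hv]) (fun v => (hg1 _).trans one_le_two)
  have hq : qf (Kc c) (fun v => g (c v)) = (p + 1) * p * n ^ 2 := by
    rw [qf_Kc _ hc, sum_congr rfl (g := fun _ => (n : ℝ)) fun i hi => by rw [ALb_Pc, hP i hi],
      sum_congr rfl (f := fun i => Pc (fun v => g (c v)) c i ^ 2) (g := fun _ => (n : ℝ) ^ 2)
        fun i hi => by rw [ALb_Pc, hP i hi]]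
    simp only [sum_const, Nat.card_Icc, Nat.add_sub_cancel, nsmul_eq_mul]
    push_cast
    ring
  have hy : ∑ v, g (c v) ^ 2 ≤ (p + 1) * n := by
    have e1 := sum_Pc (fun v => g (c v) ^ 2) hc
    have e2 : ∑ i ∈ Icc 1 (p + 1), Pc (fun v => g (c v) ^ 2) c i
        ≤ ∑ _i ∈ Icc 1 (p + 1), (n : ℝ) :=
      sum_le_sum fun i hi => by
        rw [ALb_Pc (fun i => g i ^ 2), pow_two, ← mul_assoc, hP i hi]
        exact mul_le_of_le_one_right hn0.le (hg1 i)
    have e3 : g 0 = 0 := if_pos rfl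
    rw [ALb_Pc (fun i => g i ^ 2), e3] at e1
    rw [sum_const, Nat.card_Icc, Nat.add_sub_cancel, nsmul_eq_mul] at e2
    push_cast at e2
    linarith
  rw [Mo_ec]
  push_cast
  refine ALb_real (A := A) (n := n) (by exact_mod_cast (by omega : 2 ≤ p))
    (by exact_mod_cast (by omega : 8 ≤ n)) hA' (by exact_mod_cast hm') ?_
  refine le_of_mul_le_mul_left ?_ l0
  rw [Ph, hq] at key
  push_cast at key
  have e1 := mul_le_mul_of_nonneg_left hy (mul_nonneg l0.le l0.le)
  nlinarith [sq_nonneg (∑ v ∈ S, g (c v))]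

end Pool.Agent.P.MP_094db5_co
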