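import Pool.Agent.P.MP_094db5_co.ACore

/-! Target graphs: counting, quadratic form, master inequality, weak switches. -/

set_option autoImplicit false

open Finset Classical

noncomputable section

namespace Pool.Agent.P.MP_094db5_co

variable {V : Type} [Fintype V] {r : ℕ} {c : V → ℕ} {H G : SimpleGraph V} {o w : V}
  {S X : Finset V} {Fr : SimpleGraph V → Prop} {x y : V → ℝ}

lemma Mo_ec (G : SimpleGraph V) : Mo G = 2 * (ec G : ℝ) := Mo_eq G

lemma qf_op (G : SimpleGraph V) (x : V → ℝ) : qf G x = ∑ u, x u * op G x u := qf_eq G x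

lemma ATg_op (hw : w ∉ X) (y : V → ℝ) {v : V} (hv : v ≠ w) :
    op (Sg w X) y v = if v ∈ X then y w else 0 := by
  rw [op, sum_eq_single w (fun u _ hu => by simp [ad, Sg, hv, hu]) (by simp)]
  by_cases a : v ∈ X <;> simp [ad, Sg, hv, a]

lemma ATg_op_self (hw : w ∉ X) (y : V → ℝ) : op (Sg w X) y w = ∑ v ∈ X, y v := by
  rw [op, ← sum_ite_mem_eq X y]
  refine sum_congr rfl fun v _ => ?_
  by_cases a : v ∈ X
  · simp [ad, Sg, a, show w ≠ v from fun e => hw (e ▸ a)]
  · simp [ad, Sg, a, hw]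

omit [Fintype V] in
lemma ATg_oS (h : TgOK r c H o S w X) : o ∉ S := fun a => h.hS o a h.o0

omit [Fintype V] in
lemma ATg_wX (h : TgOK r c H o S w X) : w ∉ X := fun a =>
  (h.hX w a).elim (fun b => b h.w0) fun b => h.ow b.symm

omit [Fintype V] in
lemma ATg_ad (h : TgOK r c H o S w X) (u v : V) : ad (Tg c H o S w X) u v =
    ad (Kc c) u v - ad H u v + ad (Sg o S) u v + ad (Sg w X) u v := by
  have a1 : H.Adj u v → (Kc c).Adj u v := fun a => h.hH a
  have a2 : (Sg o S).Adj u v → ¬(Kc c).Adj u v := by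
    rintro ⟨-, ⟨rfl, -⟩ | ⟨rfl, -⟩⟩ b
    exacts [b.1 h.o0, b.2.1 h.o0]
  have a3 : (Sg w X).Adj u v → ¬(Kc c).Adj u v := by
    rintro ⟨-, ⟨rfl, -⟩ | ⟨rfl, -⟩⟩ b
    exacts [b.1 h.w0, b.2.1 h.w0]
  have a4 : (Sg o S).Adj u v → ¬(Sg w X).Adj u v := by
    rintro ⟨-, ⟨rfl, a⟩ | ⟨rfl, a⟩⟩ ⟨-, ⟨b, -⟩ | ⟨b, -⟩⟩
    exacts [h.ow b, h.hS _ a (b ▸ h.w0), h.hS _ a (b ▸ h.w0), h.ow b]
  simp only [ad, Tg, SimpleGraph.sup_adj, SimpleGraph.sdiff_adj]
  by_cases b1 : (Kc c).Adj u v <;> by_cases b2 : H.Adj u v <;> by_cases b3 : (Sg o S).Adj u v <;>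
    by_cases b4 : (Sg w X).Adj u v <;> simp_all

lemma ATg_op_eq (h : TgOK r c H o S w X) (y : V → ℝ) (v : V) : op (Tg c H o S w X) y v =
    op (Kc c) y v - op H y v + op (Sg o S) y v + op (Sg w X) y v := by
  simp only [op, ← sum_sub_distrib, ← sum_add_distrib]
  exact sum_congr rfl fun u _ => by rw [ATg_ad h]; ring

theorem qf_Sg (hw : w ∉ X) (y : V → ℝ) : qf (Sg w X) y = 2 * (y w * ∑ v ∈ X, y v) := by
  rw [qf_op, ← add_sum_erase _ _ (mem_univ w), ATg_op_self hw, two_mul]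
  congr 1
  rw [mul_sum, sum_congr rfl fun v hv => congrArg (y v * ·) (ATg_op hw y (ne_of_mem_erase hv))]
  simp only [mul_ite, mul_zero]
  rw [← sum_filter, show (univ.erase w).filter (fun v => v ∈ X) = X by
    ext v; simp only [mem_filter, mem_erase, mem_univ, and_true]
    exact ⟨fun h => h.2, fun h => ⟨fun e => hw (e ▸ h), h⟩⟩]
  exact sum_congr rfl fun v _ => mul_comm _ _

theorem ec_Sg (hw : w ∉ X) : ec (Sg w X) = X.card := by
  have h := Mo_ec (Sg w X)
  rw [Mo_eq_qf, qf_Sg hw] at h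
  simp only [sum_const, nsmul_eq_mul, mul_one, one_mul] at h
  exact_mod_cast (by linarith : (ec (Sg w X) : ℝ) = X.card)

theorem op_Sg (hw : w ∉ X) (y : V → ℝ) {v : V} (hv : v ≠ w) :
    op (Sg w X) y v = if v ∈ X then y w else 0 := by
  exact ATg_op hw y hv

theorem op_Sg_self (hw : w ∉ X) (y : V → ℝ) : op (Sg w X) y w = ∑ v ∈ X, y v := by
  exact ATg_op_self hw y

omit [Fintype V] in
theorem Tg_swap (c : V → ℕ) (H : SimpleGraph V) (o : V) (S : Finset V) (w : V) (X : Finset V) :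
    Tg c H o S w X = Tg c H w X o S := by
  rw [Tg, Tg, sup_right_comm]

omit [Fintype V] in
theorem Adm.swap (h : Adm r Fr c H o S w X) (ho : o ∉ X) : Adm r Fr c H w X o S := by
  have k := h.ok
  refine ⟨⟨k.le, k.hH, k.w0, k.o0, k.ow.symm, fun v hv => (k.hX v hv).resolve_right
    fun e => ho (e ▸ hv), fun v hv => Or.inl (k.hS v hv)⟩, ?_, ?_⟩
  · rw [← Tg_swap]; exact h.fr
  · rw [← Tg_swap]; exact h.nc

omit [Fintype V] in
theorem Tg_adj (u v : V) : (Tg c H o S w X).Adj u v ↔ (cross c u v ∧ ¬ H.Adj u v) ∨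
    (u ≠ v ∧ (u = o ∧ v ∈ S ∨ v = o ∧ u ∈ S)) ∨ u ≠ v ∧ (u = w ∧ v ∈ X ∨ v = w ∧ u ∈ X) := by
  exact or_assoc

theorem TgOK.qf_eq (h : TgOK r c H o S w X) (y : V → ℝ) : qf (Tg c H o S w X) y =
    qf (Kc c) y - qf H y + 2 * (y o * ∑ v ∈ S, y v) + 2 * (y w * ∑ v ∈ X, y v) := by
  rw [← qf_Sg (ATg_oS h), ← qf_Sg (ATg_wX h)]
  simp only [qf, S2_sub, S2_add]
  exact S2_congr fun u v => by rw [ATg_ad h]; ring

theorem TgOK.ec_eq (h : TgOK r c H o S w X) :
    ec (Tg c H o S w X) + ec H = ec (Kc c) + S.card + X.card := by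
  have h1 := h.qf_eq fun _ => 1
  simp only [← Mo_eq_qf, Mo_ec, sum_const, nsmul_eq_mul, mul_one, one_mul] at h1
  exact_mod_cast (by linarith : (ec (Tg c H o S w X) : ℝ) + ec H = ec (Kc c) + S.card + X.card)

theorem TgOK.op_eq (h : TgOK r c H o S w X) (y : V → ℝ) {v : V} (hv : c v ≠ 0) :
    op (Tg c H o S w X) y v = op (Kc c) y v - op H y v + (if v ∈ S then y o else 0) +
      if v ∈ X then y w else 0 := by
  rw [ATg_op_eq h, ATg_op (v := v) (ATg_oS h) y fun e => hv (e ▸ h.o0),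
    ATg_op (v := v) (ATg_wX h) y fun e => hv (e ▸ h.w0)]

theorem op_Kc_congr (y : V → ℝ) {u v : V} (h : c u = c v) : op (Kc c) y u = op (Kc c) y v := by
  refine sum_congr rfl fun t _ => ?_
  have : (Kc c).Adj u t ↔ (Kc c).Adj v t := by simp only [Kc, cross, h]
  simp only [ad, this]

theorem op_Kc (hc : ∀ v, c v ≤ r) (y : V → ℝ) {v : V} (hv : c v ≠ 0) :
    op (Kc c) y v = ∑ i ∈ Icc 1 r, Pc y c i - Pc y c (c v) := by
  have h1 := sum_Pc y hc
  rw [show ∑ i ∈ Icc 1 r, Pc y c i = ∑ u, y u - Pc y c 0 by linarith]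
  simp only [op, Pc, ← sum_sub_distrib]
  refine sum_congr rfl fun u _ => ?_
  simp only [ad, Kc, cross]
  by_cases a : c u = 0
  · simp [a, hv, hv.symm]
  · by_cases b : c u = c v
    · simp [b, hv]
    · simp [a, b, hv, Ne.symm b]

theorem Eig.qf_eq (h : Eig G x) : qf G x = lam G * ∑ v, x v ^ 2 := by
  rw [qf_op, mul_sum]
  exact sum_congr rfl fun v _ => by rw [h.eig]; ring

/-- master inequality -/
theorem Adm.master (h : Adm r Fr c H o S w X) (hG : Ex r Fr G)
    (he : ec (Tg c H o S w X) = ec G) (l0 : 0 < lam G) (h0 : ∀ v, 0 ≤ y v)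
    (h1 : ∀ v, c v = 0 → y v = 0) :
    lam G * (Ph (Kc c) (lam G) y - qf H y) + (∑ v ∈ S, y v) ^ 2 + (∑ v ∈ X, y v) ^ 2 ≤ 0 := by
  have k := h.ok
  set A := ∑ v ∈ S, y v with hA
  set B := ∑ v ∈ X, y v with hB
  set l := lam G with hl
  have A0 : 0 ≤ A := sum_nonneg fun v _ => h0 v
  have B0 : 0 ≤ B := sum_nonneg fun v _ => h0 v
  let z : V → ℝ := fun v => if v = o then A / l else if v = w then B / l else y v
  have zo : z o = A / l := if_pos rfl
  have zw : z w = B / l := by simp [z, k.ow.symm]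
  have zT : ∀ v, c v ≠ 0 → z v = y v := fun v hv => by
    simp [z, show v ≠ o from fun e => hv (e ▸ k.o0), show v ≠ w from fun e => hv (e ▸ k.w0)]
  have e1 : ∀ K : SimpleGraph V, K ≤ Kc c → qf K z = qf K y := fun K hK =>
    S2_congr fun u v => by
      by_cases a : K.Adj u v
      · rw [zT u (hK a).1, zT v (hK a).2.1]
      · simp [ad, a]
  have e2 : ∑ v ∈ S, z v = A := sum_congr rfl fun v hv => zT v (k.hS v hv)
  have e3 : B ≤ ∑ v ∈ X, z v := sum_le_sum fun v hv => by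
    rcases k.hX v hv with a | rfl
    · rw [zT v a]
    · rw [zo, h1 _ k.o0]; positivity
  have e4 : ∑ v, z v ^ 2 = ∑ v, y v ^ 2 + (A / l) ^ 2 + (B / l) ^ 2 := by
    have a : ∀ v, z v ^ 2 = y v ^ 2 + (if v = o then (A / l) ^ 2 else 0) +
        if v = w then (B / l) ^ 2 else 0 := by
      intro v
      by_cases a : v = o
      · rw [a, zo, h1 _ k.o0]; simp [k.ow]
      · by_cases b : v = w
        · rw [b, zw, h1 _ k.w0]; simp [k.ow.symm]
        · simp [z, a, b]
    simp only [a, sum_add_distrib, sum_ite_eq', mem_univ, if_true]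
  have e5 := qf_le_lam (Tg c H o S w X) z
  have e6 := mul_le_mul_of_nonneg_right (hG.max _ he h.fr h.nc)
    (sum_nonneg fun v (_ : v ∈ univ) => sq_nonneg (z v))
  rw [k.qf_eq, e1 _ le_rfl, e1 _ k.hH, e2, zo, zw] at e5
  rw [← hl] at e6
  have e7 := mul_le_mul_of_nonneg_left e3 (div_nonneg B0 l0.le)
  have e8 : qf (Kc c) y - qf H y + 2 * (A / l * A) + 2 * (B / l * B) ≤
      l * (∑ v, y v ^ 2 + (A / l) ^ 2 + (B / l) ^ 2) := by rw [← e4]; linarith
  have e9 := mul_le_mul_of_nonneg_left e8 l0.le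
  have f1 : l * (A / l * A) = A ^ 2 := by field_simp
  have f2 : l * (B / l * B) = B ^ 2 := by field_simp
  have f3 : l * (l * (A / l) ^ 2) = A ^ 2 := by field_simp
  have f4 : l * (l * (B / l) ^ 2) = B ^ 2 := by field_simp
  rw [Ph]
  linarith

/-- basic identity -/
theorem Eig.ident (h : Eig G x) (hp : Proper G c) :
    Ph (Kc c) (lam G) (rT c x) = qf (Hm G c) x - Qw G c x := by
  have e1 : qf (Kc c) (rT c x) = qf (Kc c) x := S2_congr fun u v => by
    by_cases a : (Kc c).Adj u v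
    · simp [rT, a.1, a.2.1]
    · simp [ad, a]
  have e2 : lam G * ∑ v, rT c x v ^ 2 =
      S2 fun u v => if c u = 0 then 0 else ad G u v * (x u * x v) := by
    rw [mul_sum, S2]
    refine sum_congr rfl fun u _ => ?_
    by_cases a : c u = 0
    · simp [rT, a]
    · have := h.eig u
      simp only [rT, a, if_false]
      rw [show lam G * x u ^ 2 = x u * (lam G * x u) by ring, ← this, op, mul_sum]
      exact sum_congr rfl fun v _ => by ring
  have e3 : Qw G c x =
      S2 fun u v => if c v = 0 ∧ c u ≠ 0 then ad G u v * (x u * x v) else 0 := by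
    rw [S2_comm, S2, Qw, Vp, sum_filter]
    refine sum_congr rfl fun u _ => ?_
    by_cases a : c u = 0
    · simp only [a, if_true, true_and, aT, nT, sum_filter, mul_sum]
      refine sum_congr rfl fun v _ => ?_
      by_cases b : G.Adj u v <;> by_cases d : c v = 0 <;>
        simp [ad, b, d, G.adj_comm v u, mul_comm]
    · simp [a]
  rw [Ph, e1, e2, e3, qf, qf, S2_sub, S2_sub]
  refine S2_congr fun u v => ?_
  have := hp u v
  simp only [ad, Hm, SimpleGraph.sdiff_adj, Kc, cross]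
  by_cases a : c u = 0 <;> by_cases b : c v = 0 <;> by_cases d : G.Adj u v <;>
    by_cases e : c u = c v <;> simp_all

/-- weak switch -/
theorem Ex.weak (hG : Ex r Fr G) (hx : Eig G x) (he : ec H = ec G) (h1 : Fr H)
    (h2 : ¬ H.Colorable r) (hq : qf G x ≤ qf H x) (u : V) : op H x u = op G x u := by
  have a1 := hG.max H he h1 h2
  have a2 := hx.qf_eq
  have a3 : 0 ≤ ∑ v, x v ^ 2 := sum_nonneg fun v _ => sq_nonneg _
  have a4 := mul_le_mul_of_nonneg_right a1 a3
  have a5 := eigen_of_eq H (x := x) (by linarith) u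
  have a6 := qf_le_lam H x
  rw [hx.eig, op, a5]
  rcases a1.eq_or_lt with e | e
  · rw [e]
  · have a7 : ∑ v, x v ^ 2 ≤ 0 := by nlinarith
    have a8 := single_le_sum (f := fun v => x v ^ 2) (fun v _ => sq_nonneg _) (mem_univ u)
    rw [pow_eq_zero_iff (two_ne_zero) |>.1 (le_antisymm (a8.trans a7) (sq_nonneg _))]
    simp

/-- moving one edge at `w` -/
theorem Ex.switch (hG : Ex r Fr G) (hx : Eig G x) (ok : TgOK r c H o S w X)
    (e : G = Tg c H o S w X) {a b : V} (ha : a ∈ X) (hb : b ∉ X)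
    (h : Adm r Fr c H o S w (insert b (X.erase a))) (hab : x a ≤ x b) (hw : 0 < x w) : False := by
  have hb' : b ∉ X.erase a := fun h => hb (mem_of_mem_erase h)
  have a1 := ok.ec_eq
  have a2 := h.ok.ec_eq
  rw [card_insert_of_notMem hb', card_erase_add_one ha, ← a1, ← e] at a2
  have a3 := ok.qf_eq x
  have a4 := h.ok.qf_eq x
  rw [sum_insert hb'] at a4
  rw [← add_sum_erase _ _ ha, ← e] at a3
  have a5 := hG.weak hx (Nat.add_right_cancel a2) h.fr h.nc
    (by nlinarith [mul_le_mul_of_nonneg_left hab hw.le]) a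
  have aw : a ≠ w := fun e => ATg_wX ok (e ▸ ha)
  rw [e, ATg_op_eq ok, ATg_op_eq h.ok, ATg_op (ATg_wX ok) x aw, ATg_op (ATg_wX h.ok) x aw,
    if_pos ha, if_neg (by simp [show a ≠ b from fun e => hb (e ▸ ha)])] at a5
  linarith

/-- an unlabelled-vertex count -/
theorem Ex.spare (hG : Ex r Fr G) (hx : Eig G x) (l1 : 1 ≤ lam G) (h : ∀ v, c v ≠ 0 → 0 < x v) :
    lam G + 2 ≤ cn c 0 := by
  have a1 := hG.iso
  have a2 : (univ.filter fun v => ∀ u, ¬ G.Adj v u).card ≤ cn c 0 := by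
    refine card_le_card fun v hv => mem_filter.2 ⟨mem_univ _, ?_⟩
    by_contra hc
    have b1 := hx.eig v
    have b2 := h v hc
    rw [op, sum_eq_zero fun u _ => by simp [ad, (mem_filter.1 hv).2 u]] at b1
    nlinarith
  obtain ⟨v, -⟩ := card_pos.1 (lt_of_lt_of_le (by omega) a1)
  have : Nonempty V := ⟨v⟩
  obtain ⟨z, hz⟩ := exists_perron G
  have a3 := qf_sq_le G hz.unit
  rw [hz.val, Mo_ec] at a3
  have a4 : (2 * ec G + 2 : ℝ) ≤ cn c 0 := by exact_mod_cast a1.trans a2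
  nlinarith

theorem Eig.ni (hx : Eig G x) (l0 : 0 < lam G) (h : ∀ v, c v ≠ 0 → 0 < x v) : NI G c := by
  intro v hc
  by_contra hn
  have b1 := hx.eig v
  have b2 := h v hc
  rw [op, sum_eq_zero fun u _ => by simp [ad, not_exists.1 hn u]] at b1
  nlinarith

theorem Eig.pos_of_adj (hx : Eig G x) {u v : V} (h : G.Adj u v) (hv : 0 < x v) : 0 < x u := by
  have b1 := hx.eig u
  have b2 := single_le_sum (f := fun t => ad G u t * x t)
    (fun t _ => mul_nonneg (ad_nonneg G u t) (hx.nonneg t)) (mem_univ v)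
  rw [← op, b1, ad, if_pos h, one_mul] at b2
  rcases (hx.nonneg u).eq_or_lt with e | e
  · rw [← e] at b2; linarith
  · exact e

end Pool.Agent.P.MP_094db5_co
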