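import Pool.Agent.P.MP_094db5_co.ARed
import Pool.Agent.P.MP_094db5_co.ATg

/-! The first structure. -/

set_option autoImplicit false

open Finset Classical

noncomputable section

namespace Pool.Agent.P.MP_094db5_co

section

variable {V : Type} [Fintype V]

lemma recolour2 {G : SimpleGraph V} {x : V → ℝ} (hx : ∀ v, 0 ≤ x v) {μ ξ γ Δ : ℝ} (hμ : 0 < μ)
    {r : ℕ} (hr : 3 ≤ r) (h0 : 0 < ξ) (h1 : ξ ≤ 1 / (2 * r)) {c : V → ℕ} (hc : ∀ v, c v ≤ r)
    (hγ : Pc (fun v => x v ^ 2) c 0 ≤ γ) (hγξ : γ ≤ ξ / 2)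
    (hΔ : Dev G x μ + ∑ i ∈ Icc 1 r, (Pc (fun v => x v ^ 2) c i - 1 / r) ^ 2 +
      Miss G (fun v => x v ^ 2) c / 2 ≤ Δ) (hΔξ : 256 * Δ < ξ ^ 4) :
    ∃ c' : V → ℕ, Rough G x μ ξ r c' ∧ Miss G (fun v => x v ^ 2) c' ≤ 2 * Δ ∧
      (∀ u, c' u ≠ 0 → c' u = c u) ∧
      ξ ^ 3 * Pc (fun v => x v ^ 2) c' 0 ≤ 128 * Δ + γ := by
  have hp : ∀ v, 0 ≤ x v ^ 2 := fun v => sq_nonneg (x v)
  have hr' : (3 : ℝ) ≤ r := by exact_mod_cast hr
  have e1 : 1 / (2 * (r : ℝ)) = 1 / r / 2 := by field_simp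
  have e2 : 1 / (r : ℝ) ≤ 1 / 3 := one_div_le_one_div_of_le (by norm_num) hr'
  have a3 := Dev_nonneg G x μ
  have a4 := Miss_nonneg G hp c
  have a5 : 0 ≤ ∑ i ∈ Icc 1 r, (Pc (fun v => x v ^ 2) c i - 1 / r) ^ 2 :=
    sum_nonneg fun _ _ => sq_nonneg _
  have hγ0 := (Pc_nonneg hp c 0).trans hγ
  have a6 : ∀ i ∈ Icc 1 r, 1 / r - ξ / 2 ≤ Pc (fun v => x v ^ 2) c i := fun i hi => by
    have b1 := single_le_sum (f := fun i => (Pc (fun v => x v ^ 2) c i - 1 / r) ^ 2)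
      (fun _ _ => sq_nonneg _) hi
    have b2 : ξ ^ 4 ≤ ξ ^ 2 := pow_le_pow_of_le_one h0.le (by linarith) (by norm_num)
    have := abs_le_of_sq_le_sq' (show (Pc (fun v => x v ^ 2) c i - 1 / r) ^ 2 ≤ (ξ / 2) ^ 2 by
      nlinarith [sq_nonneg ξ]) (by positivity)
    linarith [this.1]
  have a7 := sum_bw_le G hx μ (show 0 < ξ / 4 by positivity) (by linarith) c
  have a8 : ξ ^ 2 * ∑ u, x u ^ 2 * bw G x μ (ξ / 4) c u ≤ 64 * Δ := by nlinarith
  have a9 : ∑ u, x u ^ 2 * bw G x μ (ξ / 4) c u < (ξ / 2) ^ 2 :=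
    lt_of_mul_lt_mul_left (a := ξ ^ 2) (by nlinarith) (by positivity)
  have a10 : Wt (fun v => x v ^ 2) (fun u => ξ / 2 < bw G x μ (ξ / 4) c u) ≤ ξ / 2 := by
    simpa [Wt] using markov hp (bw_nonneg G x μ (ξ / 4) c) univ (by positivity) a9.le
  have hcr : ∀ u v, cross (fun u => if bw G x μ (ξ / 4) c u ≤ ξ / 2 then c u else 0) u v →
      cross c u v := fun u v h => by
    unfold cross at h ⊢
    beta_reduce at h
    split_ifs at h <;> simp_all
  refine ⟨fun u => if bw G x μ (ξ / 4) c u ≤ ξ / 2 then c u else 0, ⟨fun v => ?_, fun v hv => ?_,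
    ?_, fun i hi => ?_, fun u hu => ?_⟩, ?_, fun u hu => ?_, ?_⟩
  · split_ifs
    exacts [hc v, Nat.zero_le _]
  · split_ifs at hv with h
    · have := typ hμ (show 0 < ξ / 4 by positivity) (by linarith) hr (show 0 ≤ ξ / 2 by positivity)
        (fun i hi => by linarith [a6 i hi]) a9 hv h
      linarith
    · exact (hv rfl).elim
  · rw [Pc_eq] at hγ ⊢
    refine (Wt_add hp (T := fun v => c v = 0) (U := fun u => ξ / 2 < bw G x μ (ξ / 4) c u)
      fun v hv => ?_).trans (by linarith)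
    split_ifs at hv with h
    exacts [Or.inl hv, Or.inr (not_le.1 h)]
  · have := a6 i hi
    rw [Pc_eq] at this ⊢
    have b1 := Wt_add hp (S := fun v => c v = i)
      (T := fun u => (if bw G x μ (ξ / 4) c u ≤ ξ / 2 then c u else 0) = i)
      (U := fun u => ξ / 2 < bw G x μ (ξ / 4) c u) fun v hv => by
        split_ifs with h
        exacts [Or.inl hv, Or.inr (not_le.1 h)]
    linarith
  · have b1 : bw G x μ (ξ / 4) c u ≤ ξ / 2 := by
      by_contra h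
      exact hu (if_neg h)
    refine (Wt_mono hp (T := fun v => cross c u v ∧ ¬ good G x μ (ξ / 4) u v)
      fun v hv => ⟨hcr u v hv.1, fun h => hv.2 h.1⟩).trans ?_
    have : Wt (fun v => x v ^ 2) (fun v => cross c u v ∧ ¬ good G x μ (ξ / 4) u v) =
      bw G x μ (ξ / 4) c u := by simp [Wt, bw]
    linarith
  · refine le_trans (S2_mono fun u v => ?_) (show Miss G (fun v => x v ^ 2) c ≤ _ by linarith)
    have := hcr u v
    have := mul_nonneg (hp u) (hp v)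
    split_ifs <;> first | linarith | tauto
  · beta_reduce at hu ⊢
    split_ifs at hu ⊢ with h
    exacts [rfl, (hu rfl).elim]
  · have b0 : ξ ^ 3 ≤ 1 := pow_le_one₀ h0.le (by linarith)
    have b1 := Wt_add hp (S := fun u => (if bw G x μ (ξ / 4) c u ≤ ξ / 2 then c u else 0) = 0)
      (T := fun v => c v = 0) (U := fun u => ξ / 2 < bw G x μ (ξ / 4) c u) fun v hv => by
        split_ifs at hv with h
        exacts [Or.inl hv, Or.inr (not_le.1 h)]
    have b2 : ξ / 2 * Wt (fun v => x v ^ 2) (fun u => ξ / 2 < bw G x μ (ξ / 4) c u) ≤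
        ∑ u, x u ^ 2 * bw G x μ (ξ / 4) c u := by
      rw [Wt, mul_sum]
      refine sum_le_sum fun u _ => ?_
      split_ifs with h
      · rw [mul_comm]
        exact mul_le_mul_of_nonneg_left h.le (hp u)
      · rw [mul_zero]
        exact mul_nonneg (hp u) (bw_nonneg _ _ _ _ _ _)
    have b3 := mul_le_mul_of_nonneg_left b2 (sq_nonneg ξ)
    rw [← Pc_eq, ← Pc_eq] at b1
    have b4 := mul_le_mul_of_nonneg_left b1 (pow_pos h0 3).le
    have b5 := mul_le_mul_of_nonneg_left hγ (pow_pos h0 3).le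
    have b6 := mul_le_of_le_one_left hγ0 b0
    linarith

lemma card_le_Wt {p : V → ℝ} {a : ℝ} (S : V → Prop) [DecidablePred S] (h : ∀ v, S v → a ≤ p v) :
    ((univ.filter S).card : ℝ) * a ≤ Wt p S := by
  have := card_nsmul_le_sum _ _ _ fun v (hv : v ∈ univ.filter S) => h v (mem_filter.1 hv).2
  rw [nsmul_eq_mul, sum_filter] at this
  exact this.trans (le_of_eq (sum_congr rfl fun v _ => by congr))

lemma perron_small2 {G H : SimpleGraph V} {z : V → ℝ} (hz : Perron G z) (hle : H ≤ G) {K μ : ℝ}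
    (hK : Mo G - Mo H ≤ K * lam G) (hd : ∀ u, (∑ v, ad H u v) ^ 2 ≤ 3 * Mo G) (l0 : 0 < lam G)
    (h1 : 0 ≤ K) (h2 : Mo G ≤ 2 * lam G ^ 2) (h3 : 1 / 2 ≤ lam G * μ) (u : V) :
    z u ^ 2 ≤ (5 + 2 * K) * μ := by
  have a1 : (lam G * z u) ^ 2 ≤ ∑ v, ad G u v := by
    rw [← hz.eig u]
    refine (sum_mul_sq_le_sq_mul_sq _ _ _).trans (le_of_eq ?_)
    rw [hz.unit, mul_one]
    exact sum_congr rfl fun v _ => by unfold ad; split_ifs <;> norm_num
  have a2 : ∑ v, ad G u v ≤ ∑ v, ad H u v + Mo (G \ H) := by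
    refine le_trans ?_ (add_le_add_right (single_le_sum (f := fun u => ∑ v, ad (G \ H) u v)
      (fun u _ => sum_nonneg fun v _ => ad_nonneg _ u v) (mem_univ u)) _)
    rw [← sum_add_distrib]
    refine sum_le_sum fun v _ => ?_
    unfold ad
    rw [SimpleGraph.sdiff_adj]
    by_cases a : G.Adj u v <;> by_cases b : H.Adj u v <;> simp [a, b]
  rw [Mo_sdiff hle] at a2
  have a3 : ∑ v, ad H u v ≤ 5 / 2 * lam G :=
    (abs_le_of_sq_le_sq' (by nlinarith [hd u]) (by positivity)).2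
  have a4 : lam G * z u ^ 2 ≤ 5 / 2 + K := le_of_mul_le_mul_left (by linarith) l0
  exact le_of_mul_le_mul_left
    (by linarith [mul_le_mul_of_nonneg_left h3 (show 0 ≤ 5 + 2 * K by linarith)]) l0

lemma Mo_Xe_le {G H : SimpleGraph V} (hle : H ≤ G) {z : V → ℝ} (h0 : ∀ v, 0 ≤ z v)
    (h1 : ∑ v, z v ^ 2 = 1) (μ : ℝ) (c : V → ℕ) : μ ^ 2 * Mo (Xe G c) ≤
      μ ^ 2 * (Mo G - Mo H) + 4 * Dev H z μ + 8 * Pc (fun v => z v ^ 2) c 0 := by
  have e1 : Pc (fun v => z v ^ 2) c 0 = S2 fun u v => (if c u = 0 then z u ^ 2 else 0) * z v ^ 2 := by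
    rw [← S2_prod, h1, mul_one, Pc]
  have e2 : Pc (fun v => z v ^ 2) c 0 = S2 fun u v => z u ^ 2 * if c v = 0 then z v ^ 2 else 0 := by
    rw [← S2_prod, h1, one_mul, Pc]
  have e3 : 8 * Pc (fun v => z v ^ 2) c 0 =
      4 * Pc (fun v => z v ^ 2) c 0 + 4 * Pc (fun v => z v ^ 2) c 0 := by ring
  rw [e3, ← Mo_sdiff hle]
  nth_rw 1 [e1]
  rw [e2]
  simp only [Mo, Dev, S2_mul, S2_add]
  refine S2_mono fun u v => ?_
  have a0 := mul_nonneg (h0 u) (h0 v)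
  have a1 : μ ^ 2 ≤ 4 * (z u * z v - μ) ^ 2 + 4 * (z u ^ 2 * z v ^ 2) := by
    nlinarith [sq_nonneg (2 * (z u * z v) - μ), sq_nonneg μ, sq_nonneg (z u * z v - μ)]
  have a2 : 0 ≤ z u ^ 2 * z v ^ 2 := by positivity
  have a3 := sq_nonneg (z u * z v - μ)
  have a4 := sq_nonneg μ
  have := @hle u v
  unfold ad
  simp only [Xe, SimpleGraph.sdiff_adj]
  by_cases b1 : G.Adj u v <;> by_cases b2 : H.Adj u v <;> by_cases b3 : c u = 0 <;>
    by_cases b4 : c v = 0 <;> simp only [b1, b2, b3, b4, false_and, and_false, or_false,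
      false_or, or_self, if_true, if_false, not_true, not_false_iff, and_self] <;> linarith

lemma Mo_Hm_le {G H : SimpleGraph V} (hle : H ≤ G) {z : V → ℝ} {μ : ℝ} (hμ : 0 ≤ μ) {c : V → ℕ}
    (h : ∀ v, c v ≠ 0 → μ / 2 ≤ z v ^ 2) :
    μ ^ 2 * Mo (Hm G c) ≤ 4 * Miss H (fun v => z v ^ 2) c := by
  simp only [Mo, Miss, S2_mul]
  refine S2_mono fun u v => ?_
  have a2 : 0 ≤ z u ^ 2 * z v ^ 2 := by positivity
  unfold ad
  by_cases b : (Hm G c).Adj u v
  · rw [if_pos b, if_pos ⟨b.1, fun a => b.2 (hle a)⟩]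
    linarith [mul_le_mul (h u b.1.1) (h v b.1.2.1) (by positivity) (sq_nonneg _)]
  · rw [if_neg b]
    split_ifs <;> linarith

lemma near_one {z s a : ℝ} (hz : 0 ≤ z) (hs : 0 < s) (h : |z ^ 2 - s ^ 2| ≤ a * s ^ 2) :
    |z / s - 1| ≤ a := by
  have e : z / s - 1 = (z - s) / s := by field_simp
  rw [e, abs_div, abs_of_pos hs, div_le_iff₀ hs]
  refine le_of_mul_le_mul_right ?_ hs
  have : |z ^ 2 - s ^ 2| = |z - s| * (z + s) := by
    rw [show z ^ 2 - s ^ 2 = (z - s) * (z + s) by ring, abs_mul, abs_of_pos (add_pos_of_nonneg_of_pos hz hs)]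
  linarith [mul_nonneg (abs_nonneg (z - s)) hz]

lemma card_swap (c c' : V → ℕ) (i : ℕ) (p : V → Prop) :
    ((univ.filter fun v => c v = i ∧ p v).card : ℝ) ≤ (univ.filter fun v => c' v = i ∧ p v).card +
      (univ.filter fun v => c v ≠ c' v).card := by
  refine mod_cast (card_le_card fun v hv => ?_).trans (card_union_le _ _)
  simp only [mem_filter, mem_union, mem_univ, true_and] at hv ⊢
  by_cases e : c v = c' v
  · exact Or.inl ⟨e ▸ hv.1, hv.2⟩
  · exact Or.inr e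

lemma size_real {r n n' l μ ε η ζ : ℝ} (hr : 3 ≤ r) (μ0 : 0 < μ) (h0 : 0 < ε)
    (h1 : 64 * r ^ 2 * ε ≤ η) (h2 : η ≤ 1 / 100) (lo : 1 - 1 / r - ε ≤ l * μ)
    (up : l * μ ≤ 1 - 1 / r + ε) (hm : 1 / 2 ≤ l * μ) (a1 : 1 / r - ε ≤ n' * ((1 + ε) * μ))
    (a2 : n' * ((1 - ε) * μ) ≤ 1 / r + r * ε) (b1 : n ≤ n' + ζ) (b2 : n' ≤ n + ζ)
    (hζ : 4 * r * ζ ≤ η * l) (hζ0 : 0 ≤ ζ) : |(r - 1) * n - l| ≤ η * l := by
  have r1 : r * (1 / r) = 1 := mul_one_div_cancel (by linarith)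
  have r0 : 0 < 1 / r := by positivity
  have r3 : 1 / r ≤ 1 / 3 := one_div_le_one_div_of_le (by norm_num) hr
  have e1 : 3 * (r * ε) ≤ r ^ 2 * ε := by nlinarith [mul_pos (show 0 < r by linarith) h0]
  have e2 : 3 * ε ≤ r * ε := by nlinarith
  have c1 : n' * μ ≤ 1 := by
    by_contra hn
    nlinarith [mul_le_mul_of_nonneg_right (not_le.1 hn).le (show 0 ≤ 1 - ε by linarith)]
  have c2 := mul_le_of_le_one_left h0.le c1
  have c3 : (r - 1) * (n' * μ) ≤ (r - 1) * (1 / r + r * ε + ε) :=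
    mul_le_mul_of_nonneg_left (by linarith) (by linarith)
  have c4 : (r - 1) * (1 / r - ε - ε) ≤ (r - 1) * (n' * μ) :=
    mul_le_mul_of_nonneg_left (by linarith) (by linarith)
  have c5 := mul_le_mul_of_nonneg_left hm (show 0 ≤ η by linarith)
  have c6 : (r - 1) * n' - l ≤ η / 2 * l := le_of_mul_le_mul_right (by linarith) μ0
  have c7 : -(η / 2 * l) ≤ (r - 1) * n' - l := le_of_mul_le_mul_right (by linarith) μ0
  have c8 := mul_le_mul_of_nonneg_left b1 (show 0 ≤ r - 1 by linarith)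
  have c9 := mul_le_mul_of_nonneg_left b2 (show 0 ≤ r - 1 by linarith)
  have c10 := mul_nonneg (show 0 ≤ r by linarith) hζ0
  rw [abs_le]
  constructor <;> linarith

lemma st1_of_rough {r t : ℕ} (hr : 3 ≤ r) {G : SimpleGraph V} (hP : NoPlus G r t) {z : V → ℝ}
    (hz : Perron G z) {μ ξ η ε C : ℝ} (μ0 : 0 < μ) (e0 : 0 < ε)
    (e1 : 64 * (r * t + r ^ 2) * ε ≤ η) (e2 : η ≤ ξ) (e3 : 100 * r * (r * t + 1) * ξ ≤ 1)
    (m1 : μ ≤ ε) (m2 : 2 * μ ≤ η ^ 3) (lo : 1 - 1 / r - ε ≤ lam G * μ)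
    (up : lam G * μ ≤ 1 - 1 / r + ε) {c c' : V → ℕ} (hc : Rough G z μ ξ r c)
    (hc' : Rough G z μ ε r c')
    (hZ : 4 * r * ((univ.filter fun v => c v ≠ c' v).card : ℝ) ≤ η * lam G)
    (hk : (ec (Hm G c) : ℝ) ≤ C * lam G) (hE : (ec (Xe G c) : ℝ) ≤ C * lam G) (hC : 1 ≤ C)
    (hx : ∀ v, z v ^ 2 ≤ C * μ) : ∃ x c Z, St1 r G x ξ C η c Z ∧ Pre r G ξ η c := by
  have hr' : (3 : ℝ) ≤ r := by exact_mod_cast hr
  have r3 : 1 / (r : ℝ) ≤ 1 / 3 := one_div_le_one_div_of_le (by norm_num) hr'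
  have ht : (0 : ℝ) ≤ t := Nat.cast_nonneg _
  have a1 : 0 ≤ r * t * ε := by positivity
  have a2 : 9 * ε ≤ r ^ 2 * ε := mul_le_mul_of_nonneg_right (by nlinarith) e0.le
  have η0 : 0 < η := by linarith
  have ξ0 : 0 < ξ := by linarith
  have a3 : 100 * (r * t * ξ) + 100 * ξ ≤ 1 / r := by rw [le_div_iff₀ (by linarith)]; linarith
  have a4 : 0 ≤ r * t * ξ := by positivity
  have a5 : 3 * (t * μ) ≤ r * t * ε := by
    linarith [mul_le_mul_of_nonneg_left m1 ht, mul_le_mul_of_nonneg_right hr' (mul_nonneg ht e0.le)]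
  have hm : 3 / 5 ≤ lam G * μ := by linarith
  have l0 : 0 < lam G := (mul_pos_iff_of_pos_right μ0).1 (by linarith)
  have hF := hc'.fine hP (by omega) e0.le (ξ := η / 8) (by linarith) μ0.le (by linarith)
    (by linarith)
  obtain ⟨s, s0, hs⟩ : ∃ s : ℝ, 0 < s ∧ s ^ 2 = μ := ⟨√μ, Real.sqrt_pos.2 μ0, Real.sq_sqrt μ0.le⟩
  have Z0 : (0 : ℝ) ≤ (univ.filter fun v => c v ≠ c' v).card := Nat.cast_nonneg _
  have Z1 : ((univ.filter fun v => c v ≠ c' v).card : ℝ) ≤ η * lam G / 2 := by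
    linarith [mul_le_mul_of_nonneg_right hr' Z0]
  have key : ∀ j ∈ Icc 1 r, ∀ p : V → Prop,
      Wt (fun v => z v ^ 2) (fun w => c' w = j ∧ p w) ≤ η / 8 →
      ((univ.filter fun w => c w = j ∧ p w).card : ℝ) ≤ η * lam G := fun j hj p h => by
    have b1 := card_le_Wt (p := fun v => z v ^ 2) (a := μ / 2) (fun w => c' w = j ∧ p w)
      fun v hv => by
        have := mem_Icc.1 hj
        linarith [(abs_le.1 (hc'.typ v (by omega))).1,
          mul_le_mul_of_nonneg_right (show ε ≤ 1 / 2 by linarith) μ0.le]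
    have b2 : ((univ.filter fun w => c' w = j ∧ p w).card : ℝ) ≤ η * lam G / 2 :=
      le_of_mul_le_mul_right (by linarith [mul_le_mul_of_nonneg_left hm η0.le]) μ0
    linarith [card_swap c c' j p]
  refine ⟨fun v => z v / s, c, univ.filter fun v => c v ≠ c' v, ⟨⟨fun v => div_nonneg (hz.nonneg v)
    s0.le, fun u => ?_⟩, hc.le, hc.proper hP ξ0.le (by linarith) μ0.le (by linarith),
    fun v hv => near_one (hz.nonneg v) s0 (hs ▸ hc.typ v hv), by linarith, fun v hv hv' => ?_,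
    fun i hi => ?_, hk, hE, fun v => ?_, ?_⟩, fun u => ?_, fun u => ?_, fun u v huv i hi => ?_⟩
  · rw [← mul_div_assoc, ← hz.eig u, op, sum_div]
    exact sum_congr rfl fun v _ => (mul_div_assoc _ _ _).symm
  · have : c v = c' v := by simpa using hv'
    exact (near_one (hz.nonneg v) s0 (hs ▸ hc'.typ v (this ▸ hv))).trans (by linarith)
  · have b1 := card_swap c c' i fun _ => True
    have b2 := card_swap c' c i fun _ => True
    simp only [and_true, ne_comm (a := c' _)] at b1 b2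
    exact size_real hr' μ0 e0 (by linarith) (by linarith) lo up (by linarith) (hc'.cn_lo hi)
      (hc'.cn_up hz.unit e0.le hi) b1 b2 hZ Z0
  · rw [div_le_iff₀ s0]
    refine (abs_le_of_sq_le_sq' ?_ (by positivity)).2
    rw [mul_pow, hs]
    exact (hx v).trans (mul_le_mul_of_nonneg_right (by nlinarith) μ0.le)
  · linarith [mul_le_mul_of_nonneg_right m2 l0.le]
  · by_cases hu : c u = 0
    · rw [filter_eq_empty_iff.2 fun v _ a => a.1.1 hu, card_empty, Nat.cast_zero]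
      positivity
    · have b1 := card_le_Wt (p := fun v => z v ^ 2) (a := 9 / 10 * μ)
        (fun v => cross c u v ∧ ¬ G.Adj u v) fun v hv => by
          linarith [(abs_le.1 (hc.typ v hv.1.2.1)).1,
            mul_le_mul_of_nonneg_right (show ξ ≤ 1 / 10 by linarith) μ0.le]
      have b2 : ((univ.filter fun v => cross c u v ∧ ¬ G.Adj u v).card : ℝ) ≤ 2 * ξ * lam G :=
        le_of_mul_le_mul_right
          (by linarith [hc.miss u hu, mul_le_mul_of_nonneg_left hm ξ0.le]) μ0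
      convert b2 using 3
      exact filter_congr fun _ _ => Iff.rfl
  · obtain ⟨i, hi, h⟩ := hF.E1 u
    exact ⟨i, hi, key i hi _ h⟩
  · obtain ⟨j, hj, hji, h⟩ := hF.E2 u v huv i hi
    exact ⟨j, hj, hji, by convert key j hj _ h⟩

end

theorem exists_st1 {r : ℕ} (hr : 3 ≤ r) (D t : ℕ) {C₀ ξ : ℝ} (hC : 0 ≤ C₀) (h0 : 0 < ξ)
    (h1 : 100 * r * (r * t + 1) * ξ ≤ 1) : ∃ C : ℝ, 1 ≤ C ∧ ∀ η : ℝ, 0 < η → η ≤ ξ → ∃ M : ℝ,
    ∀ (V : Type) [Fintype V] (G : SimpleGraph V), Deg G r D → NoPlus G r t → M ≤ Mo G →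
      (1 - 1 / r) * Mo G - C₀ * lam G ≤ lam G ^ 2 →
      ∃ x c Z, St1 r G x ξ C η c Z ∧ Pre r G ξ η c := by
  have hr' : (3 : ℝ) ≤ r := by exact_mod_cast hr
  have r3 : 1 / (r : ℝ) ≤ 1 / 3 := one_div_le_one_div_of_le (by norm_num) hr'
  have ht : (0 : ℝ) ≤ r * t := by positivity
  have x1 : 100 * ξ ≤ 1 / r := by
    rw [le_div_iff₀ (by linarith)]
    linarith [mul_nonneg (mul_nonneg (show (0 : ℝ) ≤ r by linarith) ht) h0.le]
  obtain ⟨M₂, h2⟩ := reduce_lin hr D t hC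
  obtain ⟨K, hK⟩ : ∃ K : ℝ, K = 200 * r * C₀ := ⟨_, rfl⟩
  have K0 : 0 ≤ K := by rw [hK]; positivity
  obtain ⟨L, hL⟩ : ∃ L : ℝ, L = C₀ + 2 * K * (5 + 2 * K) + 1 := ⟨_, rfl⟩
  have K1 : 0 ≤ 2 * K * (5 + 2 * K) := by positivity
  have L1 : 1 ≤ L := by linarith
  obtain ⟨B, B0, hB⟩ : ∃ B : ℝ, 0 ≤ B ∧ ξ ^ 3 * B = 128 * L :=
    ⟨128 * L / ξ ^ 3, by positivity, by field_simp⟩
  refine ⟨5 + 2 * K + 8 * L + 8 * B, by linarith, fun η η0 η1 => ?_⟩
  obtain ⟨ε, e0, e1⟩ : ∃ ε : ℝ, 0 < ε ∧ 64 * (r * t + r ^ 2) * ε = η :=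
    ⟨η / (64 * (r * t + r ^ 2)), by positivity, by field_simp⟩
  have e2 : 9 * ε ≤ r ^ 2 * ε := mul_le_mul_of_nonneg_right (by nlinarith) e0.le
  have e3 : 576 * ε ≤ η := by linarith [mul_nonneg ht e0.le]
  obtain ⟨δ, d0, d1⟩ : ∃ δ : ℝ, 0 < δ ∧ 4096 * r * L * δ = ε ^ 4 :=
    ⟨ε ^ 4 / (4096 * r * L), by positivity, by field_simp⟩
  refine ⟨max M₂ (1 / δ ^ 2), fun V _ G hD hP hM hl => ?_⟩
  rw [max_le_iff] at hM
  have hM0 : 0 < Mo G := lt_of_lt_of_le (by positivity) hM.2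
  have := nonempty_of_Mo hM0
  obtain ⟨H, hle, hf, hK', hd⟩ := h2 V G hD hP hM.1 hl
  rw [← hK] at hK'
  obtain ⟨z, hz⟩ := exists_perron G
  have hp : ∀ v, 0 ≤ z v ^ 2 := fun v => sq_nonneg (z v)
  have b1 := mu_small (lam_sq_le G) d0 hM.2
  have l0 : 0 < lam G := lt_of_le_of_ne (lam_nonneg G) fun e => by
    rw [← e] at hl
    linarith [mul_pos (show 0 < 1 - 1 / (r : ℝ) by linarith) hM0]
  obtain ⟨μ, hμ⟩ : ∃ μ, μ = lam G / Mo G := ⟨_, rfl⟩
  rw [← hμ] at b1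
  have μ0 : 0 < μ := hμ ▸ div_pos l0 hM0
  have he : μ * Mo G = lam G := by rw [hμ]; field_simp
  have he2 : lam G * μ * Mo G = lam G ^ 2 := by rw [mul_assoc, he, sq]
  have Lμ : 0 < L * μ := by positivity
  have b2 : 4096 * r * (L * μ) ≤ ε ^ 4 := by
    linarith [mul_le_mul_of_nonneg_left b1 (show 0 ≤ 4096 * r * L by positivity)]
  have b3 : 12288 * (L * μ) ≤ ε ^ 4 := by linarith [mul_le_mul_of_nonneg_right hr' Lμ.le]
  have p1 : ε ^ 4 ≤ ε ^ 3 := pow_le_pow_of_le_one e0.le (by linarith) (by norm_num)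
  have p2 : ε ^ 3 ≤ ε := pow_le_of_le_one e0.le (by linarith) (by norm_num)
  have p3 : ε ^ 3 ≤ η ^ 3 := pow_le_pow_left₀ e0.le (by linarith) 3
  have p4 : ε ^ 4 ≤ ξ ^ 4 := pow_le_pow_left₀ e0.le (by linarith) 4
  have p5 : ε ^ 3 ≤ ξ ^ 3 := pow_le_pow_left₀ e0.le (by linarith) 3
  have m0 : μ ≤ L * μ := le_mul_of_one_le_left μ0.le L1
  have lo : 1 - 1 / r - C₀ * μ ≤ lam G * μ :=
    le_of_mul_le_mul_right (by rw [sub_mul, mul_assoc C₀, he]; linarith) hM0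
  have m1 : C₀ * μ + 2 * K * (5 + 2 * K) * μ + μ = L * μ := by rw [hL]; ring
  have m2 := mul_nonneg K1 μ0.le
  have m3 := mul_nonneg hC μ0.le
  have hm : 1 / 2 ≤ lam G * μ := by linarith
  have up1 : lam G * μ ≤ 1 := le_of_mul_le_mul_right (by linarith [lam_sq_le G]) hM0
  have b6 := perron_small2 hz hle hK' hd l0 K0
    (by linarith [mul_le_mul_of_nonneg_right hm hM0.le]) hm
  have b7 : lam G - (5 + 2 * K) * K ≤ qf H z := by
    have c1 := qf_sdiff hle z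
    have c2 : qf (G \ H) z ≤ (5 + 2 * K) * μ * Mo (G \ H) := by
      rw [qf, Mo, S2_mul]
      refine S2_mono fun u v => ?_
      rw [mul_comm ((5 + 2 * K) * μ)]
      refine mul_le_mul_of_nonneg_left ?_ (ad_nonneg _ _ _)
      linarith [b6 u, b6 v, sq_nonneg (z u - z v)]
    rw [Mo_sdiff hle] at c2
    rw [hz.val] at c1
    linarith [mul_le_mul_of_nonneg_left hK' (show 0 ≤ (5 + 2 * K) * μ by positivity),
      mul_le_mul_of_nonneg_left up1 K1]
  obtain ⟨c₀, c1, c2, c3⟩ := core_zero hz.unit (by omega) hf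
  have c4 := c3 μ
  have c5 : 1 - 1 / r - (2 * μ * qf H z - μ ^ 2 * Mo H) ≤
      1 - 1 / r - lam G * μ + 2 * K * (5 + 2 * K) * μ := by
    have d1 := mul_le_mul_of_nonneg_left b7 μ0.le
    have d2 := mul_le_mul_of_nonneg_left (Mo_mono hle) (sq_nonneg μ)
    have d3 : μ ^ 2 * Mo G = lam G * μ := by rw [← he]; ring
    linarith
  have c6 := Dev_nonneg H z μ
  have c7 := Miss_nonneg H hp c₀
  have c8 : 0 ≤ ∑ i ∈ Icc 1 r, (Pc (fun v => z v ^ 2) c₀ i - 1 / r) ^ 2 :=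
    sum_nonneg fun _ _ => sq_nonneg _
  have e4 : 1 / (2 * (r : ℝ)) = 1 / r / 2 := by rw [div_div, mul_comm]
  obtain ⟨c, hc, f1, f2, f3⟩ := recolour2 (G := H) hz.nonneg μ0 hr h0 (by linarith) c1 c2
    (by linarith) (Δ := L * μ) (by linarith) (by linarith)
  obtain ⟨c', hc', -, g2, g3⟩ := recolour2 (G := H) hz.nonneg μ0 hr e0 (by linarith) c1 c2
    (by linarith) (Δ := L * μ) (by linarith) (by linarith)
  have t1 : ∀ v, c v ≠ 0 → μ / 2 ≤ z v ^ 2 := fun v hv => by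
    linarith [(abs_le.1 (hc.typ v hv)).1,
      mul_le_mul_of_nonneg_right (show ξ ≤ 1 / 2 by linarith) μ0.le]
  have t2 : ∀ v, c' v ≠ 0 → μ / 2 ≤ z v ^ 2 := fun v hv => by
    linarith [(abs_le.1 (hc'.typ v hv)).1,
      mul_le_mul_of_nonneg_right (show ε ≤ 1 / 2 by linarith) μ0.le]
  have hLl := mul_le_mul_of_nonneg_left hm (show 0 ≤ L by linarith)
  have Kl := mul_nonneg K0 l0.le
  have Bl := mul_nonneg B0 l0.le
  have Ll := mul_nonneg (show 0 ≤ L by linarith) l0.le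
  refine st1_of_rough hr hP hz μ0 e0 e1.le η1 h1 (by linarith) (by linarith) (by linarith)
    (by linarith) (hc.mono hle) (hc'.mono hle) ?_ ?_ ?_ (by linarith) fun v => (b6 v).trans
      (mul_le_mul_of_nonneg_right (by linarith) μ0.le)
  · have d1 := card_le_Wt (p := fun v => z v ^ 2) (a := μ / 2) (fun v => c v ≠ c' v) fun v hv => by
      by_cases e : c v = 0
      · exact t2 v fun e' => hv (e.trans e'.symm)
      · exact t1 v e
    have d2 := Wt_add hp (S := fun v => c v ≠ c' v) (T := fun v => c v = 0) (U := fun v => c' v = 0)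
      fun v hv => by
        by_contra hn
        push Not at hn
        exact hv ((f2 v hn.1).trans (g2 v hn.2).symm)
    rw [← Pc_eq, ← Pc_eq] at d2
    have d3 := mul_le_mul_of_nonneg_right p5 (Pc_nonneg hp c 0)
    have d4 := mul_le_mul_of_nonneg_left (d1.trans d2) (pow_pos e0 3).le
    have d5 : ε ^ 3 * ((univ.filter fun v => c v ≠ c' v).card : ℝ) ≤ 512 * L :=
      le_of_mul_le_mul_right (by linarith) μ0
    have d6 := mul_le_mul_of_nonneg_left d5 (show 0 ≤ 4 * r * μ by positivity)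
    have d7 : ε ≤ η * (2 * (lam G * μ)) := by nlinarith
    have d8 := mul_le_mul_of_nonneg_left d7 (pow_pos e0 3).le
    exact le_of_mul_le_mul_left (a := ε ^ 3 * μ) (by linarith) (by positivity)
  · have d1 := Mo_Hm_le hle μ0.le t1
    rw [Mo_ec] at d1
    have d2 : μ * ec (Hm G c) ≤ 4 * L := le_of_mul_le_mul_left (by linarith) μ0
    have d3 : (ec (Hm G c) : ℝ) ≤ 8 * L * lam G := le_of_mul_le_mul_left (by linarith) μ0
    linarith
  · have d1 := Mo_Xe_le hle hz.nonneg hz.unit μ c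
    rw [Mo_ec] at d1
    have d2 : Pc (fun v => z v ^ 2) c 0 ≤ B * μ :=
      le_of_mul_le_mul_left (by rw [← mul_assoc, hB]; linarith) (pow_pos h0 3)
    have d3 := mul_le_mul_of_nonneg_left hK' (sq_nonneg μ)
    have d4 : μ * (2 * ec (Xe G c)) ≤ K * (lam G * μ) + 4 * L + 8 * B :=
      le_of_mul_le_mul_left (by linarith) μ0
    have d5 : (ec (Xe G c) : ℝ) ≤ (K + 4 * L + 8 * B) * lam G := le_of_mul_le_mul_left
      (by linarith [mul_le_mul_of_nonneg_left hm B0, mul_nonneg Kl μ0.le]) μ0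
    linarith

end Pool.Agent.P.MP_094db5_co
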