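import Pool.Agent.P.MP_094db5_co.ACm
import Pool.Agent.P.MP_094db5_co.ANz
import Pool.Agent.P.MP_094db5_co.ASt1
import Pool.Agent.P.MP_094db5_co.ALb

/-! The final structure. -/

set_option autoImplicit false

open Finset Classical

noncomputable section

namespace Pool.Agent.P.MP_094db5_co

theorem AFin_par {r C η ξ l : ℝ} (hr : 3 ≤ r) (hC : 1 ≤ C) (h0 : 0 < η) (h1 : 0 < ξ)
    (h2 : 100 * r * ξ ≤ 1) (h3 : 10 ^ 4 * r ^ 2 * C ^ 4 * η ≤ ξ ^ 2)
    (h4 : 10 ^ 8 * r ^ 4 * C ^ 4 ≤ η ^ 2 * l) : 300 * ξ ≤ 1 ∧ 100 * η ≤ ξ ∧ 2 * r ^ 2 * η ≤ 1 ∧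
      301 * C * η ≤ ξ ^ 2 / 10 ∧ 10 * r ^ 2 * (301 * C * η) ≤ ξ ∧ 0 < l ∧
      100 * C ^ 2 ≤ η * l := by
  have a1 : 300 * ξ ≤ 1 := by nlinarith
  have a2 : ξ ^ 2 ≤ ξ := by nlinarith
  have a3 : 9 ≤ r ^ 2 := by nlinarith
  have a4 : C ≤ C ^ 2 := by nlinarith
  have a5 : C ^ 2 ≤ C ^ 4 := by nlinarith
  have b0 : 0 ≤ r ^ 2 * η := by positivity
  have b1 : r ^ 2 * η * C ≤ r ^ 2 * η * C ^ 4 := mul_le_mul_of_nonneg_left (a4.trans a5) b0
  have b2 : r ^ 2 * η * 1 ≤ r ^ 2 * η * C := mul_le_mul_of_nonneg_left hC b0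
  have b3 : 9 * η ≤ r ^ 2 * η := mul_le_mul_of_nonneg_right a3 h0.le
  have b4 : 9 * (C * η) ≤ r ^ 2 * (C * η) := mul_le_mul_of_nonneg_right a3 (by positivity)
  have b5 : 1 * C ^ 4 ≤ r ^ 4 * C ^ 4 :=
    mul_le_mul_of_nonneg_right (by nlinarith) (by positivity)
  have l0 : 0 < l := by
    by_contra hc
    have := mul_nonneg (sq_nonneg η) (neg_nonneg.2 (not_lt.1 hc))
    nlinarith
  have b6 : η * (η * l) ≤ 1 * (η * l) :=
    mul_le_mul_of_nonneg_right (by linarith) (by positivity)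
  refine ⟨a1, by linarith, by linarith, by linarith, by linarith, l0, by nlinarith⟩

section

variable {V : Type} [Fintype V] {r D t : ℕ} {Fr : SimpleGraph V → Prop} {G : SimpleGraph V}
  {x : V → ℝ} {ξ C η : ℝ} {c : V → ℕ} {Z : Finset V}

theorem AFin_aT (h : ∀ v, c v ≠ 0 → |x v - 1| ≤ ξ) (u : V) :
    (1 - ξ) * dT G c u ≤ aT G c x u ∧ aT G c x u ≤ (1 + ξ) * dT G c u := by
  unfold aT dT
  constructor
  · rw [mul_comm, ← nsmul_eq_mul]
    exact card_nsmul_le_sum _ _ _ fun v hv => by linarith [(abs_le.1 (h v (mem_nT.1 hv).2)).1]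
  · rw [mul_comm, ← nsmul_eq_mul]
    exact sum_le_card_nsmul _ _ _ fun v hv => by linarith [(abs_le.1 (h v (mem_nT.1 hv).2)).2]

theorem AFin_op (h : ∀ v, 0 ≤ x v) (u : V) : op (Ww G c) x u ≤ ∑ v ∈ Vp c 0, x v := by
  unfold op Vp
  rw [sum_filter]
  refine sum_le_sum fun v _ => ?_
  unfold ad
  by_cases h1 : (Ww G c).Adj u v
  · rw [if_pos h1, if_pos h1.2.2, one_mul]
  · rw [if_neg h1, zero_mul]
    split_ifs
    · exact h v
    · exact le_rfl

theorem AFin_one (h : Mid r D t Fr G x ξ C η c Z) : ∃ z, c z = 0 ∧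
    (∑ u ∈ (Vp c 0).erase z, (dT G c u : ℝ)) + ec (Ww G c) + (ec (Hm G c) + 1) ≤
      5 * ξ * (Out c 1).card ∧ (dT G c z : ℝ) ≤ (1 - 1 / r) ^ 2 * lam G := by
  have hr : (3 : ℝ) ≤ r := by exact_mod_cast h.r3
  obtain ⟨p1, p2, p3, p4, p5, l0, p6⟩ := AFin_par hr h.C1 h.η0 h.ξ0 h.ξ1 h.sm h.l_big
  have hC := h.C1
  have η0 := h.η0
  have ξ0 := h.ξ0
  obtain ⟨n1, n2⟩ := abs_le.1 (h.st.out_size (l := 1) (by have := h.r3; omega)
    (mem_Icc.2 ⟨le_rfl, by have := h.r3; omega⟩))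
  have hcl := h.clone
  have hfi := h.fill
  have hE := ec_Xe G c
  have hD : (D2 G c : ℝ) = ∑ u ∈ Vp c 0, (dT G c u : ℝ) ^ 2 := by simp [D2]
  have q1 : η * lam G ≤ 1 / 2 * lam G := mul_le_mul_of_nonneg_right (by linarith) l0.le
  have q2 : 1 ≤ C ^ 2 := by nlinarith
  have hW : (Vp c 0).Nonempty := by
    have h1 := h.ex.spare h.st.eig (c := c) (by linarith) fun v hv => by
      linarith [(abs_le.1 (h.st.typ v hv)).1]
    rw [← card_pos, card_Vp]
    exact_mod_cast (show (0 : ℝ) < cn c 0 by linarith)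
  generalize (Out c 1).card = N at *
  generalize ec (Hm G c) = k at *
  generalize ec (Xe G c) = E at *
  generalize ec (Ww G c) = e at *
  generalize D2 G c = P at *
  have N0 : (0 : ℝ) < N := by linarith
  have hEr : (E : ℝ) = ∑ u ∈ Vp c 0, (dT G c u : ℝ) + e := by rw [hE]; push_cast; rfl
  have q3 : 2 * (N : ℝ) ≤ C * η * N ^ 2 := by
    have a1 : η * (1 / 2 * lam G) ≤ η * N := mul_le_mul_of_nonneg_left (by linarith) η0.le
    have a2 : 1 * (η * N) ≤ C * (η * N) := mul_le_mul_of_nonneg_right hC (by positivity)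
    have a3 : 2 * (N : ℝ) ≤ C * (η * N) * N := mul_le_mul_of_nonneg_right (by linarith) N0.le
    linarith
  have hθ : ∀ u ∈ Vp c 0, 0 ≤ (dT G c u : ℝ) / N ∧ (dT G c u : ℝ) / N ≤ 1 - 17 / 20 * ξ := by
    intro u hu
    refine ⟨by positivity, (div_le_iff₀ N0).2 ((h.wdeg u (mem_Vp.1 hu)).trans ?_)⟩
    have a1 : (1 - 17 / 20 * ξ) * ((1 - η) * lam G) ≤ (1 - 17 / 20 * ξ) * N :=
      mul_le_mul_of_nonneg_left (by linarith) (by linarith)
    have a2 : (1 - 9 / 10 * ξ) * lam G ≤ (1 - 17 / 20 * ξ) * (1 - η) * lam G :=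
      mul_le_mul_of_nonneg_right (by nlinarith [mul_pos ξ0 η0]) l0.le
    linarith
  have hP : ∑ u ∈ Vp c 0, ((dT G c u : ℝ) / N) ^ 2 = P / N ^ 2 := by
    rw [hD, sum_div]
    exact sum_congr rfl fun u _ => div_pow _ _ _
  have q4 : 2 * (1 - 2 * ξ) * (N : ℝ) ≤ 2 * N := mul_le_mul_of_nonneg_right (by linarith) N0.le
  obtain ⟨z, hz, hz1⟩ := convex_one hW (θ := fun u => (dT G c u : ℝ) / N) (ε := e / N)
    (κ := (k + 1) / N) (δ := 301 * C * η) ξ0 (by linarith) hθ (by positivity) (by positivity) p4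
    (fun q a1 a2 => by
      have e1 : ∑ u ∈ Vp c 0, (dT G c u : ℝ) / N + e / N - (k + 1) / N - q =
          (E - k - 1 - q * N) / N := by
        rw [← sum_div, hEr]
        field_simp
        ring
      rw [e1] at a1 a2 ⊢
      rw [le_div_iff₀ N0, zero_mul] at a1
      rw [div_le_iff₀ N0, one_mul] at a2
      have a3 : (0 : ℤ) ≤ E - k - 1 - q * N := by exact_mod_cast a1
      obtain ⟨s, hs⟩ := Int.eq_ofNat_of_zero_le a3
      have a4 : (E : ℝ) - k - 1 - q * N = s := by exact_mod_cast hs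
      rw [a4] at a2 ⊢
      have a5 := hcl q s (by exact_mod_cast a2) (by linarith)
      rw [hP, ← sub_nonneg]
      have e2 : (P : ℝ) / N ^ 2 + 301 * C * η - (q + ((s : ℝ) / N) ^ 2 +
          2 * ((k + 1) / N) * (1 - 2 * ξ)) = (P + 301 * C * η * N ^ 2 - (q * N ^ 2 + s ^ 2 +
          2 * (k + 1) * (1 - 2 * ξ) * N)) / N ^ 2 := by
        field_simp
      rw [e2]
      exact div_nonneg (by linarith) (by positivity))
  have hR0 : 0 ≤ ∑ u ∈ (Vp c 0).erase z, (dT G c u : ℝ) := sum_nonneg fun u _ => by positivity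
  have hP2 : (P : ℝ) ≤ (dT G c z : ℝ) ^ 2 + (∑ u ∈ (Vp c 0).erase z, (dT G c u : ℝ)) ^ 2 := by
    rw [hD, ← add_sum_erase _ _ hz]
    exact add_le_add le_rfl (sum_sq_le_sq_sum_of_nonneg fun u _ => by positivity)
  rw [← add_sum_erase _ _ hz] at hEr
  have hθz := (hθ z hz).2
  rw [← sum_div, ← add_div, ← add_div, div_le_iff₀ N0] at hz1
  refine ⟨z, mem_Vp.1 hz, hz1, ?_⟩
  generalize ∑ u ∈ (Vp c 0).erase z, (dT G c u : ℝ) = R at *
  have e0 : (0 : ℝ) ≤ e := Nat.cast_nonneg e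
  have k0 : (0 : ℝ) ≤ k := Nat.cast_nonneg k
  have d0 : (0 : ℝ) ≤ dT G c z := Nat.cast_nonneg _
  have q5 : 5 * ξ * (N : ℝ) ≤ 1 * N := mul_le_mul_of_nonneg_right (by linarith) N0.le
  have hd : (dT G c z : ℝ) / N < (1 - 1 / r) ^ 2 - η := by
    by_contra hc
    have e1 : (dT G c z : ℝ) / N + (R + e) / N - (k + 1) / N = (E - k - 1) / N := by
      rw [hEr]
      field_simp
      ring
    refine not_large (τ := (R + e) / N) (κ := (k + 1) / N) (P := P / N ^ 2) hr ξ0 h.ξ1 p3 p5 hθz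
      (not_lt.1 hc) (by positivity) ((div_le_iff₀ N0).2 (by linarith)) (by positivity) ?_
      (fun a1 => ?_) fun a1 => ?_
    · rw [div_le_iff₀ (by positivity)]
      have e2 : (((dT G c z : ℝ) / N) ^ 2 + 5 * ξ * ((R + e) / N)) * N ^ 2 =
          (dT G c z : ℝ) ^ 2 + 5 * ξ * N * (R + e) := by
        field_simp
      rw [e2]
      have a2 : R * R ≤ 5 * ξ * N * (R + e) :=
        mul_le_mul (by linarith) (by linarith) hR0 (by positivity)
      linarith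
    · rw [e1] at a1 ⊢
      rw [div_le_iff₀ N0, one_mul] at a1
      have a2 : E ≤ N + 1 + k := by exact_mod_cast (show (E : ℝ) ≤ N + 1 + k by linarith)
      obtain ⟨g, hg⟩ := Nat.exists_eq_add_of_le a2
      have a3 : (N : ℝ) + 1 + k = E + g := by exact_mod_cast hg
      have a4 := hfi g (by exact_mod_cast (show (g : ℝ) ≤ 2 * N by linarith)) (by omega)
      have a5 : (E : ℝ) - k - 1 = N - g := by linarith
      rw [a5, ← sub_nonneg]
      have e2 : (P : ℝ) / N ^ 2 + 301 * C * η - (1 + 2 * ((k + 1) / N) * (1 - 2 * ξ) -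
          2 * (1 - 1 / r) * (1 - (N - g) / N)) = (P + 301 * C * η * N ^ 2 - (N ^ 2 +
          2 * (k + 1) * (1 - 2 * ξ) * N - 2 * (1 - 1 / r) * g * N)) / N ^ 2 := by
        generalize (1 : ℝ) - 1 / r = ρ
        field_simp
        ring
      rw [e2]
      exact div_nonneg (by linarith) (by positivity)
    · rw [e1, lt_div_iff₀ N0, one_mul] at a1
      have a2 : N + 1 + k ≤ E := by exact_mod_cast (show (N : ℝ) + 1 + k ≤ E by linarith)
      obtain ⟨s, hs⟩ := Nat.exists_eq_add_of_le a2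
      have a3 : (E : ℝ) = N + 1 + k + s := by exact_mod_cast hs
      rw [div_le_iff₀ N0] at hθz
      have a6 : (1 - 17 / 20 * ξ) * (N : ℝ) ≤ 1 * N :=
        mul_le_mul_of_nonneg_right (by linarith) N0.le
      have a4 := hcl 1 s (by exact_mod_cast (show (s : ℝ) ≤ N by linarith)) (by omega)
      have a5 : 0 ≤ 2 * (k : ℝ) * (1 - 2 * ξ) * N :=
        mul_nonneg (mul_nonneg (by positivity) (by linarith)) N0.le
      rw [← sub_nonneg]
      have e2 : (P : ℝ) / N ^ 2 + 301 * C * η - 1 = (P + 301 * C * η * N ^ 2 - N ^ 2) / N ^ 2 := by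
        field_simp
      rw [e2]
      push_cast at a4
      exact div_nonneg (by linarith [sq_nonneg (s : ℝ)]) (by positivity)
  rw [div_lt_iff₀ N0] at hd
  have r1 : 0 < 1 / (r : ℝ) := by positivity
  have r2 : 1 / (r : ℝ) ≤ 1 := by rw [div_le_one (by linarith)]; linarith
  have r3 : (1 - 1 / (r : ℝ)) ^ 2 ≤ 1 := by nlinarith
  have r4 := sq_nonneg (1 - 1 / (r : ℝ))
  generalize (1 - 1 / (r : ℝ)) ^ 2 = ρ at *
  have a1 : 0 ≤ ρ - η := by
    by_contra hc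
    have := mul_pos (neg_pos.2 (not_le.1 hc)) N0
    linarith
  have a2 : (ρ - η) * N ≤ (ρ - η) * ((1 + η) * lam G) := mul_le_mul_of_nonneg_left (by linarith) a1
  have a3 : (ρ - η) * (1 + η) * lam G ≤ ρ * lam G :=
    mul_le_mul_of_nonneg_right (by nlinarith) l0.le
  linarith

end

theorem Mid.fin {V : Type} [Fintype V] {r D t : ℕ} {Fr : SimpleGraph V → Prop} {G : SimpleGraph V}
    {x : V → ℝ} {ξ C η : ℝ} {c : V → ℕ} {Z : Finset V} (h : Mid r D t Fr G x ξ C η c Z) :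
    ∃ z, St r G x (20 * ξ) c z := by
  have hr : (3 : ℝ) ≤ r := by exact_mod_cast h.r3
  obtain ⟨p1, p2, -, -, -, l0, p6⟩ := AFin_par hr h.C1 h.η0 h.ξ0 h.ξ1 h.sm h.l_big
  have η0 := h.η0
  have ξ0 := h.ξ0
  have q2 : 1 ≤ C ^ 2 := one_le_pow₀ h.C1
  obtain ⟨-, n2⟩ := abs_le.1 (h.st.out_size (l := 1) (by have := h.r3; omega)
    (mem_Icc.2 ⟨le_rfl, by have := h.r3; omega⟩))
  obtain ⟨w, w0, hw, hd⟩ := AFin_one h
  have hwW : w ∈ Vp c 0 := mem_Vp.2 w0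
  have hE : (ec (Xe G c) : ℝ) = dT G c w + ∑ u ∈ (Vp c 0).erase w, (dT G c u : ℝ) +
      ec (Ww G c) := by
    rw [ec_Xe, ← add_sum_erase _ _ hwW]
    push_cast
    rfl
  have b0 : 0 < ξ * lam G := mul_pos ξ0 l0
  have b1 : 100 * η * lam G ≤ ξ * lam G := mul_le_mul_of_nonneg_right p2 l0.le
  have b2 : 300 * ξ * lam G ≤ 1 * lam G := mul_le_mul_of_nonneg_right p1 l0.le
  have b3 : ξ * ((Out c 1).card : ℝ) ≤ ξ * (101 / 100 * lam G) :=
    mul_le_mul_of_nonneg_left (by linarith) ξ0.le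
  have e0 : (0 : ℝ) ≤ ec (Ww G c) := Nat.cast_nonneg _
  have k0 : (0 : ℝ) ≤ ec (Hm G c) := Nat.cast_nonneg _
  have hR0 : 0 ≤ ∑ u ∈ (Vp c 0).erase w, (dT G c u : ℝ) := sum_nonneg fun u _ => by positivity
  have hdu : ∀ u, c u = 0 → u ≠ w → (dT G c u : ℝ) ≤ 51 / 10 * (ξ * lam G) := by
    intro u hu hne
    have a1 := single_le_sum (f := fun u => (dT G c u : ℝ)) (s := (Vp c 0).erase w)
      (fun u _ => by positivity) (mem_erase.2 ⟨hne, mem_Vp.2 hu⟩)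
    linarith
  have hxu : ∀ u, c u = 0 → u ≠ w → x u ≤ 6 * ξ := by
    intro u hu hne
    have a1 := op_split0 (G := G) x hu
    rw [h.st.eig.eig] at a1
    have a2 := (AFin_aT (G := G) h.st.typ u).2
    have a3 := (AFin_op (G := G) (c := c) h.st.eig.nonneg u).trans (h.st.sum_W l0)
    have a4 : (1 + ξ) * (dT G c u : ℝ) ≤ 101 / 100 * (51 / 10 * (ξ * lam G)) :=
      mul_le_mul (by linarith) (hdu u hu hne) (by positivity) (by norm_num)
    exact le_of_mul_le_mul_left (by linarith) l0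
  obtain ⟨z, hz, hm⟩ := exists_max_image (Vp c 0) x ⟨w, hwW⟩
  have z0 := mem_Vp.1 hz
  refine ⟨z, h.st.eig, h.st.le, h.st.proper, fun v hv => (h.st.typ v hv).trans (by linarith),
    fun i hi => (h.st.size i hi).trans (by linarith), by linarith, z0,
    fun u hu => hm u (mem_Vp.2 hu), ?_, fun u hu hne => ?_, ?_, by linarith⟩
  · by_cases e : z = w
    · rwa [e]
    · have r2 : 1 / (r : ℝ) ≤ 1 / 3 := one_div_le_one_div_of_le (by norm_num) hr
      have r3 : 4 / 9 ≤ (1 - 1 / (r : ℝ)) ^ 2 := by nlinarith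
      have a1 := mul_le_mul_of_nonneg_right r3 l0.le
      linarith [hdu z z0 e]
  · by_cases e : u = w
    · linarith [hm u (mem_Vp.2 hu), hxu z z0 fun e' => hne (e.trans e'.symm)]
    · linarith [hxu u hu e]
  · by_cases e : z = w
    · rw [e]
      linarith
    · have a1 := op_split0 (G := G) x w0
      rw [h.st.eig.eig] at a1
      have a2 := (AFin_aT (G := G) h.st.typ w).1
      have a3 := op_nonneg (H := Ww G c) h.st.eig.nonneg w
      have a4 : lam G * x w ≤ lam G * (6 * ξ) :=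
        mul_le_mul_of_nonneg_left ((hm w hwW).trans (hxu z z0 e)) l0.le
      have a5 : 1 / 2 * (dT G c w : ℝ) ≤ (1 - ξ) * dT G c w :=
        mul_le_mul_of_nonneg_right (by linarith) (by positivity)
      have a6 : (0 : ℝ) ≤ dT G c z := Nat.cast_nonneg _
      linarith

theorem St.mono {V : Type} [Fintype V] {r : ℕ} {G : SimpleGraph V} {x : V → ℝ} {η η' : ℝ}
    {c : V → ℕ} {z : V} (h : St r G x η c z) (hη : η ≤ η') : St r G x η' c z := by
  have : Nonempty V := ⟨z⟩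
  have a := mul_le_mul_of_nonneg_right hη (lam_nonneg G)
  exact ⟨h.eig, h.le, h.proper, fun v hv => (h.typ v hv).trans hη,
    fun i hi => (h.size i hi).trans a, h.hk.trans a, h.z0, h.zmax, h.dz,
    fun u hu hne => (h.small u hu hne).trans hη, by linarith [h.hE], h.big.trans a⟩

theorem exists_st {r : ℕ} (hr : 3 ≤ r) (D t : ℕ) {η : ℝ} (h0 : 0 < η) : ∃ M : ℝ,
    ∀ (V : Type) [Fintype V] (Fr : SimpleGraph V → Prop) (G : SimpleGraph V), Cls r D t Fr →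
      Ex r Fr G → M ≤ Mo G → ∃ x c z, St r G x η c z := by
  have hr' : (3 : ℝ) ≤ r := by exact_mod_cast hr
  have hA : (0 : ℝ) < 100 * r * (r * t + 1) := by positivity
  obtain ⟨ξ, ξ0, ξ1, ξ2⟩ : ∃ ξ : ℝ, 0 < ξ ∧ 20 * ξ ≤ η ∧ 100 * r * (r * t + 1) * ξ ≤ 1 :=
    ⟨min (η / 20) (1 / (100 * r * (r * t + 1))), lt_min (by positivity) (by positivity),
      by linarith [min_le_left (η / 20) (1 / (100 * r * (r * t + 1)) : ℝ)],
      by rw [mul_comm]; exact (le_div_iff₀ hA).1 (min_le_right _ _)⟩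
  have ξ3 : 100 * r * ξ ≤ 1 := by
    have a : 0 ≤ 100 * r * (r * t) * ξ := by positivity
    linarith
  have ξ4 : ξ ≤ 1 := by nlinarith
  obtain ⟨M1, hM1⟩ := lower_all hr
  obtain ⟨C, hC, hC'⟩ := exists_st1 hr D t (C₀ := 3 * r ^ 2) (ξ := 19 / 20 * ξ) (by positivity)
    (by positivity) (by linarith [mul_pos hA ξ0])
  obtain ⟨e, e0, e1⟩ : ∃ e : ℝ, 0 < e ∧ 32 * 10 ^ 4 * (r ^ 2 * C ^ 4) * e = ξ ^ 2 :=
    ⟨ξ ^ 2 / (32 * 10 ^ 4 * (r ^ 2 * C ^ 4)), by positivity, by field_simp⟩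
  have a1 : ξ ^ 2 ≤ ξ := by nlinarith
  have a2 : 1 ≤ r * C ^ 2 := one_le_mul_of_one_le_of_one_le (by linarith) (one_le_pow₀ hC)
  have a3 : r * C ^ 2 * e ≤ r ^ 2 * C ^ 4 * e :=
    mul_le_mul_of_nonneg_right (by nlinarith) e0.le
  have a4 : 1 * e ≤ r * C ^ 2 * e := mul_le_mul_of_nonneg_right a2 e0.le
  obtain ⟨M2, hM2⟩ := hC' e e0 (by linarith)
  refine ⟨max M1 M2, fun V _ Fr G h1 h2 h3 => ?_⟩
  obtain ⟨x, c, Z, h4, h5⟩ := hM2 V G (h1.deg G h2.fr) (h1.noplus G h2.fr)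
    ((le_max_right _ _).trans h3) (hM1 V D t Fr G h1 h2 ((le_max_left _ _).trans h3))
  obtain ⟨c', Z', h6, h7⟩ := absorb h4 h5 hr hC e0 ξ3 (by linarith)
  obtain ⟨z, hz⟩ := Mid.fin ⟨h1, h2, h6, h7, hr, by linarith, by linarith, ξ0, ξ3,
    by linarith⟩
  exact ⟨x, c', z, hz.mono ξ1⟩

end Pool.Agent.P.MP_094db5_co
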