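import Pool.Agent.P.MP_094db5_co.AQb
import Pool.Agent.P.MP_094db5_co.ABc

/-! The sizes of the parts differ when there are free missing pairs. -/

set_option autoImplicit false

open Finset Classical

noncomputable section

namespace Pool.Agent.P.MP_094db5_co

variable {V : Type} [Fintype V] {r C : ℕ} {Fr : SimpleGraph V → Prop} {G : SimpleGraph V}
  {x : V → ℝ} {η : ℝ} {c : V → ℕ} {z : V}

lemma AGap_real1 {l L k C r η a b b' Q : ℝ} (l0 : 0 < l) (hL : 1 ≤ L) (hr : 3 ≤ r) (hC : r ≤ C)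
    (η0 : 0 < η) (sm : 10 ^ 5 * C ^ 5 * η ≤ 1) (hk : k ≤ η * l) (big : 1 ≤ η * l)
    (h1 : l * (a - Q) - 2 * (1 - 1 / r + 10 * (C * η)) * l * L - 16 * (4 * k + 1) ≤ l * b')
    (h2 : l * b' ≤ l * b + 18 * k) (h3 : 2 * L * (1 - η) ^ 2 ≤ a - b) (h4 : l * Q ≤ 20 * C ^ 2) :
    False := by
  have C3 : 3 ≤ C := hr.trans hC
  have C0 : 0 < C := by linarith
  have a1 : 1 / C ≤ 1 / r := one_div_le_one_div_of_le (by linarith) hC
  have a2 : C ^ 3 * η * 900000 ≤ 1 := by
    have : 9 ≤ C ^ 2 := by nlinarith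
    have e : 10 ^ 5 * C ^ 5 * η = 10 ^ 5 * (C ^ 3 * η) * C ^ 2 := by ring
    have : 0 ≤ C ^ 3 * η := by positivity
    nlinarith
  have a3 : C ^ 2 * η * 900000 ≤ 1 / C := by
    rw [le_div_iff₀ C0]
    linarith [show C ^ 2 * η * 900000 * C = C ^ 3 * η * 900000 by ring]
  have a4 : C * η ≤ C ^ 2 * η := mul_le_mul_of_nonneg_right (by nlinarith) η0.le
  have a5 : η ≤ C * η := le_mul_of_one_le_left η0.le (by linarith)
  have a6 : 1000 * (C ^ 2 * η) ≤ (1 - η) ^ 2 - (1 - 1 / r + 10 * (C * η)) := by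
    nlinarith [sq_nonneg η]
  have a7 : 0 ≤ C ^ 2 * η := by positivity
  have a8 : l * (1000 * (C ^ 2 * η)) ≤ l * L * ((1 - η) ^ 2 - (1 - 1 / r + 10 * (C * η))) :=
    mul_le_mul (le_mul_of_one_le_right l0.le hL) a6 (by positivity) (by positivity)
  have a9 := mul_le_mul_of_nonneg_left h3 l0.le
  have b1 : C ^ 2 ≤ C ^ 2 * (η * l) := le_mul_of_one_le_right (by positivity) big
  have b2 : η * l ≤ C ^ 2 * (η * l) := le_mul_of_one_le_left (by positivity) (by nlinarith)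
  nlinarith

lemma AGap_real2 {l k R η S e ni nj Pi Pj : ℝ} (l0 : 10000 ≤ l) (hk : 1 ≤ k) (hR : 2 ≤ R)
    (η0 : 0 < η) (η1 : 1000 * η ≤ 1) (he : e = 4 * k + 1) (i0 : 0 ≤ ni) (j0 : 0 ≤ nj)
    (si : |R * ni - l| ≤ η * l)
    (hS : (1 - 5 * η) * (R + 1) * l ≤ R * S) (hi : |(l + ni) * Pi - ni * S| ≤ e)
    (hj : |(l + nj) * Pj - nj * S| ≤ e) (hg : 3 * nj + k ≤ 3 * ni) : Pj + k / 10 ≤ Pi := by
  have l1 : 0 < l := by linarith
  have a0 : η * l ≤ l / 1000 := by nlinarith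
  have a1 : ni ≤ 51 / 100 * l := by nlinarith [(abs_le.1 si).2]
  have a2 : nj ≤ 51 / 100 * l := by linarith
  have a3 : 99 / 100 * l ≤ S := by
    have b1 : R * (99 / 100 * l) ≤ (1 - 5 * η) * (R + 1) * l := by
      have : R * (99 / 100) ≤ (1 - 5 * η) * (R + 1) := by nlinarith
      nlinarith
    exact le_of_mul_le_mul_left (b1.trans hS) (by linarith)
  have a4 := mul_le_mul_of_nonneg_left (abs_le.1 hi).1 (show 0 ≤ l + nj by linarith)
  have a5 := mul_le_mul_of_nonneg_left (abs_le.1 hj).2 (show 0 ≤ l + ni by linarith)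
  have a6 : 99 / 100 * l * l * (k / 3) ≤ S * l * (ni - nj) :=
    mul_le_mul (mul_le_mul_of_nonneg_right a3 l1.le) (by linarith) (by linarith) (by nlinarith)
  have a7 : (l + ni) * (l + nj) ≤ 151 / 100 * l * (151 / 100 * l) :=
    mul_le_mul (by linarith) (by linarith) (by linarith) (by linarith)
  have a8 : (l + ni + (l + nj)) * e ≤ 4 * l * (5 * k) :=
    mul_le_mul (by linarith) (by linarith) (by linarith) (by linarith)
  have a9 := mul_le_mul_of_nonneg_right a7 (show 0 ≤ k / 10 by linarith)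
  have b1 : 10000 * (l * k) ≤ l * (l * k) := mul_le_mul_of_nonneg_right l0 (by positivity)
  have b2 : 0 ≤ l * k := by positivity
  have b3 : (l + ni) * (l + nj) * (k / 10) ≤ (l + ni) * (l + nj) * (Pi - Pj) := by
    linarith
  have := le_of_mul_le_mul_left b3 (by positivity)
  linarith

lemma AGap_real3 {l a b a' b' : ℝ} (l0 : 4 ≤ l) (a0 : 0 ≤ a) (a2 : a ≤ 2) (b2 : b ≤ 2)
    (b0 : 0 ≤ b') (ha : l * |a' - a| ≤ 2) (hb : l * |b' - b| ≤ 2) :
    l * (a' * b') ≤ l * (a * b) + 9 := by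
  have l1 : 0 ≤ l := by linarith
  have c1 : l * (a' - a) ≤ 2 := (mul_le_mul_of_nonneg_left (le_abs_self _) l1).trans ha
  have c2 : l * (b' - b) ≤ 2 := (mul_le_mul_of_nonneg_left (le_abs_self _) l1).trans hb
  have c3 : b' ≤ 5 / 2 := by nlinarith
  have c4 := mul_le_mul_of_nonneg_right c1 b0
  have c5 := mul_le_mul_of_nonneg_right c2 a0
  linarith

namespace Ctx

variable (h : Ctx r C Fr G x η c z)
include h

theorem total : ((r : ℝ) - 1) * ∑ l ∈ Icc 1 r, Pc x c l ≤ (1 + 5 * η) * r * lam G ∧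
    (1 - 5 * η) * r * lam G ≤ ((r : ℝ) - 1) * ∑ l ∈ Icc 1 r, Pc x c l := by
  have r3 : (3 : ℝ) ≤ r := by exact_mod_cast h.r3
  have rC : (r : ℝ) ≤ C := by exact_mod_cast h.rC
  have η0 := h.η0
  have l0 := h.l0
  have η1 : η ≤ 1 := by nlinarith [h.η_small]
  have key : ∀ l ∈ Icc 1 r, ((r : ℝ) - 1) * Pc x c l ≤ (1 + 5 * η) * lam G ∧
      (1 - 5 * η) * lam G ≤ ((r : ℝ) - 1) * Pc x c l := by
    intro l hl
    have hl' := mem_Icc.1 hl
    have a1 : Pc x c l ≤ cn c l * (1 + η) := by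
      rw [← Pc_const]
      exact Pc_mono fun v hv => by linarith [(abs_le.1 (h.st.typ v (by omega))).2]
    have a2 : cn c l * (1 - η) ≤ Pc x c l := by
      rw [← Pc_const]
      exact Pc_mono fun v hv => by linarith [(abs_le.1 (h.st.typ v (by omega))).1]
    obtain ⟨a3, a4⟩ := abs_le.1 (h.st.size l hl)
    have a5 := mul_le_mul_of_nonneg_left a1 (show (0 : ℝ) ≤ r - 1 by linarith)
    have a6 := mul_le_mul_of_nonneg_left a2 (show (0 : ℝ) ≤ r - 1 by linarith)
    have a7 := mul_le_mul_of_nonneg_right a3 (show 0 ≤ 1 - η by linarith)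
    have a8 := mul_le_mul_of_nonneg_right a4 (show 0 ≤ 1 + η by linarith)
    have a9 : 0 ≤ η * lam G := by positivity
    have b1 : η * (η * lam G) ≤ 1 * (η * lam G) := mul_le_mul_of_nonneg_right η1 a9
    have b2 : 0 ≤ η * (η * lam G) := by positivity
    constructor <;> linarith
  rw [mul_sum]
  have c1 := sum_le_sum fun l hl => (key l hl).1
  have c2 := sum_le_sum fun l hl => (key l hl).2
  rw [sum_const, Nat.card_Icc, add_tsub_cancel_right, nsmul_eq_mul] at c1 c2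
  constructor <;> linarith

theorem err_le (hE : ec (Xe G c) ≤ C) :
    ∑ v, op (Hm G c) x v + ∑ u ∈ Vp c 0, x u * dT G c u ≤ 4 * ec (Hm G c) + 1 := by
  have a1 : ∑ v, op (Hm G c) x v ≤ 2 * ec (Hm G c) * 2 := sum_op_le fun u _ _ => h.le_two u
  have hE' : (ec (Xe G c) : ℝ) ≤ C := by exact_mod_cast hE
  have a2 : (∑ u ∈ Vp c 0, (dT G c u : ℝ)) ≤ C := by
    have := ec_Xe G c
    exact_mod_cast (by omega : ∑ u ∈ Vp c 0, dT G c u ≤ C)
  have a3 : ∑ u ∈ Vp c 0, x u * dT G c u ≤ ∑ u ∈ Vp c 0, 2 * C * η * dT G c u :=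
    sum_le_sum fun u hu =>
      mul_le_mul_of_nonneg_right (h.W_small hE (mem_Vp.1 hu)) (Nat.cast_nonneg _)
  rw [← mul_sum] at a3
  have η0 := h.η0
  have C3 : (3 : ℝ) ≤ C := by exact_mod_cast h.r3.trans h.rC
  have a4 := mul_le_mul_of_nonneg_left a2 (show 0 ≤ 2 * (C : ℝ) * η by positivity)
  have a5 : (C : ℝ) ^ 2 * η ≤ C ^ 5 * η :=
    mul_le_mul_of_nonneg_right (pow_le_pow_right₀ (by linarith) (by norm_num)) η0.le
  have a6 : 0 ≤ (C : ℝ) ^ 5 * η := by positivity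
  linarith [h.sm]

theorem gap {H₀ : SimpleGraph V} (h0 : H₀ ≤ Hm G c) {o w : V} {S X : Finset V}
    (he : S.card + X.card = ec (Xe G c)) (hE : ec (Xe G c) ≤ C)
    (ha : ∀ (c' : V → ℕ) (H : SimpleGraph V), (∀ v, c' v ≤ r) → (∀ v, c' v = 0 ↔ c v = 0) →
      (∀ v ∈ S ∪ X, c' v = c v) → H₀ ≤ H → H ≤ Kc c' → (∀ i ∈ Icc 1 r, 2 * ec H < cn c' i) →
      Adm r Fr c' H o S w X)
    {i j : ℕ} (hi : i ∈ Icc 1 r) (hj : j ∈ Icc 1 r) (hij : i ≠ j) (hle : cn c j ≤ cn c i) :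
    cn c j + ec (Hm G c) ≤ cn c i + ec H₀ := by
  by_contra hn
  have hi' := mem_Icc.1 hi
  have hj' := mem_Icc.1 hj
  have r3 := h.r3
  have rC := h.rC
  have r3' : (3 : ℝ) ≤ r := by exact_mod_cast r3
  have rC' : (r : ℝ) ≤ C := by exact_mod_cast rC
  have η0 := h.η0
  have l0 := h.l0
  obtain ⟨L, hL⟩ : ∃ L, cn c j + L = cn c i + 1 := ⟨cn c i + 1 - cn c j, by omega⟩
  obtain ⟨y0, y1, y2, y3⟩ := exists_fresh (c := c) (i := j) (Hm G c) (S ∪ X) (by
    have := card_union_le S X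
    have := h.room hj
    omega)
  have hM : ∀ v ∈ ({y0} : Finset V), c v = j := fun v hv => by rw [mem_singleton.1 hv, y1]
  have mv1 : mv c {y0} i y0 = i := by simp [mv]
  have mv2 : ∀ v, v ≠ y0 → mv c {y0} i v = c v := fun v hv => by simp [mv, hv]
  obtain ⟨H', H1, H2, H3⟩ := exists_between h0 (n := ec (Hm G c) - L) (by omega) (by omega)
  have mv0 : ∀ v, mv c {y0} i v = 0 ↔ c v = 0 := fun v => by
    by_cases e : v = y0
    · rw [e, mv1, y1]; omega
    · rw [mv2 v e]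
  obtain ⟨n1, n2, n3⟩ := cn_mv hij hM
  rw [card_singleton] at n1 n2
  have adm := ha (mv c {y0} i) H'
    (fun v => by
      by_cases e : v = y0
      · rw [e, mv1]; exact hi'.2
      · rw [mv2 v e]; exact h.st.le v)
    mv0 (fun v hv => mv2 v fun e => y2 (e ▸ hv)) H1
    (fun u v huv => by
      have a := H2 huv
      have e1 : u ≠ y0 := fun e => y3 v (e ▸ a)
      have e2 : v ≠ y0 := fun e => y3 u (e ▸ a.symm)
      show cross _ u v
      unfold cross
      rw [mv2 u e1, mv2 v e2]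
      exact a.1)
    (fun l hl => by
      have := h.room hl
      by_cases e1 : l = i
      · subst e1; omega
      · by_cases e2 : l = j
        · subst e2; omega
        · rw [n3 l e1 e2]; omega)
  have e1 := adm.ok.ec_eq
  have e2 := ec_mv h.st.le hi hj hij hM
  rw [card_singleton] at e2
  have e3 := ec_split h.st.proper
  have ηC : η ≤ C * η := le_mul_of_one_le_left η0.le (by linarith)
  have ηl : η * lam G ≤ C * η * lam G := mul_le_mul_of_nonneg_right ηC l0.le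
  obtain ⟨y, p0, p1, p2, p3⟩ := base_change h.st.eig h.st.le h.st.proper r3 hi hj hij hle hM
    (η := C * η) (e := 4 * ec (Hm G c) + 1) (mul_pos (by linarith) η0)
    (by have : 0 ≤ C * η := by positivity
        linarith [h.η_small]) l0
    (fun v hv => (h.st.typ v (by rw [hM v hv]; omega)).trans ηC) (fun v hv => h.pos hv)
    (fun l hl => (h.st.size l hl).trans ηl)
    (by
      have := mul_le_mul_of_nonneg_left h.st.big (show (0 : ℝ) ≤ C by linarith)
      rw [card_singleton]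
      push_cast
      linarith)
    (h.total.1.trans (by gcongr)) (h.err_le hE)
  rw [card_singleton] at p2 p3
  have ms := adm.master h.ex (by omega) l0 p0 fun v hv => p1 v ((mv0 v).1 hv)
  have l4 : 4 ≤ lam G := by
    have : (1 : ℝ) ≤ C ^ 5 := one_le_pow₀ (by linarith)
    linarith [h.l_big]
  have q1 : lam G * qf H' y ≤ lam G * qf H' x + 9 * Mo H' := by
    simp only [qf, Mo, S2_mul, S2_add]
    refine S2_mono fun u v => ?_
    unfold ad
    split_ifs with a
    · have b := (H2 a).1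
      have := AGap_real3 l4 (h.st.eig.nonneg u) (h.le_two u) (h.le_two v) (p0 v)
        (by simpa using p2 u b.1) (by simpa using p2 v b.2.1)
      linarith
    · simp
  have q2 : (ec H' : ℝ) ≤ ec (Hm G c) := by exact_mod_cast ec_mono H2
  have η1 : η ≤ 1 := by nlinarith [h.η_small]
  have q3 := qf_lower (H := Hm G c \ H') (x := x) (a := 1 - η) (by linarith) fun u v huv => by
    linarith [(abs_le.1 (h.st.typ u huv.1.1.1)).1]
  have q4 : ec (Hm G c \ H') = L := by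
    have := ec_sdiff H2
    omega
  rw [q4, qf_sdiff H2] at q3
  have q5 : (cn c i : ℝ) - cn c j + 1 = L := by
    have : (cn c j : ℝ) + L = cn c i + 1 := by exact_mod_cast hL
    linarith
  have hE' : (ec (Xe G c) : ℝ) ≤ C := by exact_mod_cast hE
  have q6 : (ec (Xe G c) : ℝ) ^ 2 ≤ C ^ 2 := pow_le_pow_left₀ (Nat.cast_nonneg _) hE' 2
  rw [h.st.eig.ident h.st.proper, Nat.cast_one, q5] at p3
  rw [Mo_ec] at q1
  refine AGap_real1 (L := L) (b' := qf H' y) (Q := Qw G c x) l0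
    (by exact_mod_cast (by omega : 1 ≤ L)) r3' rC' η0 h.sm h.st.hk h.st.big ?_ (by linarith) q3
    (by linarith [h.Q_crude])
  linarith [sq_nonneg (∑ v ∈ S, y v), sq_nonneg (∑ v ∈ X, y v)]

/-- a gap in the sizes gives a gap in the part sums -/
theorem gap_sum (hE : ec (Xe G c) ≤ C) (hk : 1 ≤ ec (Hm G c)) {i j : ℕ} (hi : i ∈ Icc 1 r)
    (hj : j ∈ Icc 1 r) (hg : 3 * cn c j + ec (Hm G c) ≤ 3 * cn c i) :
    Pc x c j + ec (Hm G c) / 10 ≤ Pc x c i := by
  have r3' : (3 : ℝ) ≤ r := by exact_mod_cast h.r3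
  have rC' : (r : ℝ) ≤ C := by exact_mod_cast h.rC
  have η0 := h.η0
  refine AGap_real2 (R := r - 1) (l := lam G) (S := ∑ l ∈ Icc 1 r, Pc x c l) ?_
    (by exact_mod_cast hk) (by linarith) η0 (by nlinarith [h.η_small]) rfl (Nat.cast_nonneg _)
    (Nat.cast_nonneg _) (h.st.size i hi) ?_
    (part_sum h.st.eig h.st.le h.st.proper hi (h.err_le hE))
    (part_sum h.st.eig h.st.le h.st.proper hj (h.err_le hE)) (by exact_mod_cast hg)
  · have : (1 : ℝ) ≤ C ^ 5 := one_le_pow₀ (by linarith)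
    linarith [h.l_big]
  · rw [sub_add_cancel]
    exact h.total.2

end Ctx

end Pool.Agent.P.MP_094db5_co
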