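import Pool.Agent.P.MP_094db5_co.ANc

/-! Counting lemmas. -/

set_option autoImplicit false

open Finset Classical

noncomputable section

namespace Pool.Agent.P.MP_094db5_co

variable {V : Type} [Fintype V] {r : ℕ} {c : V → ℕ} {H H₀ G : SimpleGraph V} {o w z u : V}

theorem ec_mono (h : H ≤ G) : ec H ≤ ec G := by
  exact Set.ncard_le_ncard (SimpleGraph.edgeSet_subset_edgeSet.2 h) (Set.toFinite _)

theorem eq_of_ec_le (h : H ≤ G) (h' : ec G ≤ ec H) : H = G := by
  exact SimpleGraph.edgeSet_inj.1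
    (Set.eq_of_subset_of_ncard_le (SimpleGraph.edgeSet_subset_edgeSet.2 h) h' (Set.toFinite _))

theorem ec_sdiff (h : H ≤ G) : ec (G \ H) + ec H = ec G := by
  unfold ec
  rw [SimpleGraph.edgeSet_sdiff]
  exact Set.ncard_sdiff_add_ncard_of_subset (SimpleGraph.edgeSet_subset_edgeSet.2 h)
    (Set.toFinite _)

theorem ec_sup (h : Disjoint H G) : ec (H ⊔ G) = ec H + ec G := by
  unfold ec
  rw [SimpleGraph.edgeSet_sup]
  exact Set.ncard_union_eq (SimpleGraph.disjoint_edgeSet.2 h) (Set.toFinite _) (Set.toFinite _)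

omit [Fintype V] in
theorem ec_bot : ec (⊥ : SimpleGraph V) = 0 := by
  simp [ec]

theorem ec_eq_zero : ec H = 0 ↔ H = ⊥ := by
  unfold ec
  rw [Set.ncard_eq_zero (Set.toFinite _), SimpleGraph.edgeSet_eq_empty]

theorem exists_adj_of_ec (h : 1 ≤ ec H) : ∃ a b, H.Adj a b := by
  by_contra hn
  have : H = ⊥ := by
    ext a b
    exact ⟨fun hab => hn ⟨a, b, hab⟩, fun hab => hab.elim⟩
  rw [this, ec_bot] at h
  omega

theorem exists_between (h : H₀ ≤ H) {n : ℕ} (h0 : ec H₀ ≤ n) (h1 : n ≤ ec H) :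
    ∃ H', H₀ ≤ H' ∧ H' ≤ H ∧ ec H' = n := by
  obtain ⟨s, h2, h3, h4⟩ := Set.exists_subsuperset_card_eq
    (SimpleGraph.edgeSet_subset_edgeSet.2 h) h0 h1
  have e : (SimpleGraph.fromEdgeSet s).edgeSet = s := by
    rw [SimpleGraph.edgeSet_fromEdgeSet]
    ext e
    constructor
    · exact fun a => a.1
    · exact fun a => ⟨a, H.not_isDiag_of_mem_edgeSet (h3 a)⟩
  refine ⟨SimpleGraph.fromEdgeSet s, SimpleGraph.edgeSet_subset_edgeSet.1 ?_,
    SimpleGraph.edgeSet_subset_edgeSet.1 ?_, ?_⟩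
  · rw [e]; exact h2
  · rw [e]; exact h3
  · unfold ec; rw [e]; exact h4

omit [Fintype V] in
theorem Sg_le {a : V} {D : Finset V} (h : ∀ v ∈ D, H.Adj a v) : Sg a D ≤ H := by
  rintro u v ⟨-, ⟨rfl, b⟩ | ⟨rfl, b⟩⟩
  · exact h _ b
  · exact (h _ b).symm

theorem eq_Sg_of_ec {a : V} {D : Finset V} (h : ∀ v ∈ D, H.Adj a v) (h' : ec H ≤ D.card) :
    H = Sg a D := by
  have ha : a ∉ D := fun b => (h a b).ne rfl
  refine (eq_of_ec_le (Sg_le h) ?_).symm
  rw [ec_Sg ha]; exact h'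

theorem eq_Sg_of_star {a : V} (h : ∀ u v, H.Adj u v → u = a ∨ v = a) :
    H = Sg a (univ.filter fun v => H.Adj a v) := by
  ext u v
  constructor
  · intro b
    refine ⟨b.ne, ?_⟩
    rcases h u v b with rfl | rfl
    · exact Or.inl ⟨rfl, by simpa using b⟩
    · exact Or.inr ⟨rfl, by simpa using b.symm⟩
  · intro b
    exact Sg_le (H := H) (fun v hv => by simpa using hv) b

theorem ec_split (h : Proper G c) : ec G + ec (Hm G c) = ec (Kc c) + ec (Xe G c) := by
  have e := qf_split h fun _ => 1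
  rw [← Mo_eq_qf, ← Mo_eq_qf, ← Mo_eq_qf, ← Mo_eq_qf, Mo_ec, Mo_ec, Mo_ec, Mo_ec] at e
  have e2 : (ec G : ℝ) + ec (Hm G c) = ec (Kc c) + ec (Xe G c) := by
    unfold Hm; linarith
  exact_mod_cast e2

/-- indicator of an edge from an unlabelled to a labelled vertex -/
def AHa_A (G : SimpleGraph V) (c : V → ℕ) (u v : V) : ℝ :=
  if c u = 0 ∧ G.Adj u v ∧ c v ≠ 0 then 1 else 0

lemma AHa_row (G : SimpleGraph V) (c : V → ℕ) (u : V) :
    ∑ v, AHa_A G c u v = if c u = 0 then (dT G c u : ℝ) else 0 := by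
  unfold AHa_A dT nT
  split_ifs with b
  · simp [b]
  · simp [b]

lemma AHa_S2 (G : SimpleGraph V) (c : V → ℕ) :
    S2 (AHa_A G c) = ∑ u ∈ Vp c 0, (dT G c u : ℝ) := by
  rw [Vp, sum_filter]
  exact sum_congr rfl fun u _ => AHa_row G c u

lemma AHa_deg (G : SimpleGraph V) (u : V) : ec (Sg u (G.neighborFinset u)) = G.degree u := by
  rw [ec_Sg (by simp)]
  rfl

lemma AHa_le (hu : c u = 0) : Sg u (G.neighborFinset u) ≤ Xe G c :=
  Sg_le fun _ hv => ⟨by simpa using hv, Or.inl hu⟩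

theorem ec_Xe (G : SimpleGraph V) (c : V → ℕ) :
    ec (Xe G c) = ∑ u ∈ Vp c 0, dT G c u + ec (Ww G c) := by
  have e1 : Mo (Xe G c) = S2 (AHa_A G c) + S2 (fun u v => AHa_A G c v u) + Mo (Ww G c) := by
    simp only [Mo, S2_add]
    refine S2_congr fun u v => ?_
    unfold ad AHa_A
    by_cases a : G.Adj u v
    · have a' := a.symm
      by_cases b : c u = 0 <;> by_cases d : c v = 0 <;> simp [Xe, Ww, a, a', b, d]
    · have a' : ¬ G.Adj v u := fun e => a e.symm
      simp [Xe, Ww, a, a']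
  rw [← S2_comm (AHa_A G c), AHa_S2, Mo_ec, Mo_ec] at e1
  have e2 : (ec (Xe G c) : ℝ) = ((∑ u ∈ Vp c 0, dT G c u : ℕ) : ℝ) + ec (Ww G c) := by
    push_cast; linarith
  exact_mod_cast e2

theorem degree_le_Xe (hu : c u = 0) : G.degree u ≤ ec (Xe G c) := by
  rw [← AHa_deg]
  exact ec_mono (AHa_le hu)

theorem dT_add_degree_le (hz : c z = 0) (hu : c u = 0) (h : u ≠ z) :
    dT G c z + G.degree u ≤ ec (Xe G c) := by
  have h1 : Sg z (nT G c z) ≤ Xe G c := Sg_le fun v hv => ⟨(mem_nT.1 hv).1, Or.inl hz⟩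
  have h2 : z ∉ nT G c z := fun a => (mem_nT.1 a).2 hz
  have h3 : Disjoint (Sg z (nT G c z)) (Sg u (G.neighborFinset u)) := by
    rw [disjoint_iff_inf_le]
    rintro p q ⟨⟨-, ⟨rfl, a⟩ | ⟨rfl, a⟩⟩, ⟨-, ⟨e, -⟩ | ⟨e, -⟩⟩⟩
    · exact h e.symm
    · exact (mem_nT.1 a).2 (e ▸ hu)
    · exact (mem_nT.1 a).2 (e ▸ hu)
    · exact h e.symm
  have h4 := ec_mono (sup_le h1 (AHa_le hu))
  rw [ec_sup h3, ec_Sg h2, AHa_deg] at h4
  exact h4

omit [Fintype V] in
theorem Hm_le (G : SimpleGraph V) (c : V → ℕ) : Hm G c ≤ Kc c := sdiff_le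

omit [Fintype V] in
theorem Hm_adj {u v : V} : (Hm G c).Adj u v ↔ cross c u v ∧ ¬ G.Adj u v := Iff.rfl

/-- recognising a target graph by counting -/
theorem eq_Tg {S X : Finset V} (hp : Proper G c) (ok : TgOK r c (Hm G c) o S w X)
    (hS : ∀ v ∈ S, G.Adj o v) (hX : ∀ v ∈ X, G.Adj w v)
    (h : ec (Xe G c) ≤ S.card + X.card) : G = Tg c (Hm G c) o S w X := by
  have h1 : Tg c (Hm G c) o S w X ≤ G := by
    refine sup_le (sup_le ?_ (Sg_le hS)) (Sg_le hX)
    intro u v a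
    by_contra b
    exact a.2 ⟨a.1, b⟩
  refine (eq_of_ec_le h1 ?_).symm
  have h2 := ok.ec_eq
  have h3 := ec_split hp
  omega

theorem card_Out (hc : ∀ v, c v ≤ r) (l : ℕ) :
    (Out c l).card = ∑ i ∈ (Icc 1 r).erase l, cn c i := by
  rw [card_eq_sum_card_fiberwise (f := c) (t := (Icc 1 r).erase l)]
  · refine sum_congr rfl fun i hi => ?_
    unfold cn
    congr 1
    ext v
    simp only [mem_erase, mem_Icc] at hi
    simp only [mem_filter, mem_Out, mem_univ, true_and]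
    constructor
    · exact fun a => a.2
    · intro a
      refine ⟨⟨?_, ?_⟩, a⟩ <;> omega
  · intro v hv
    have h1 := mem_Out.1 (mem_coe.1 hv)
    have h2 := hc v
    simp only [coe_erase, coe_Icc, Set.mem_sdiff, Set.mem_Icc, Set.mem_singleton_iff]
    omega

theorem qf_lower {x : V → ℝ} {a : ℝ} (h0 : 0 ≤ a) (h : ∀ u v, H.Adj u v → a ≤ x u) :
    2 * ec H * a ^ 2 ≤ qf H x := by
  rw [← Mo_ec, mul_comm, Mo, S2_mul, qf]
  refine S2_mono fun u v => ?_
  unfold ad
  split_ifs with b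
  · have h1 := h u v b
    have h2 := h v u b.symm
    nlinarith [mul_le_mul h1 h2 h0 (h0.trans h1)]
  · simp

theorem qf_upper {x : V → ℝ} {a : ℝ} (h : ∀ u v, H.Adj u v → |x u| ≤ a) :
    qf H x ≤ 2 * ec H * a ^ 2 := by
  rw [← Mo_ec, mul_comm, Mo, S2_mul, qf]
  refine S2_mono fun u v => ?_
  unfold ad
  split_ifs with b
  · have h1 := h u v b
    have h2 := h v u b.symm
    have h3 := mul_le_mul h1 h2 (abs_nonneg _) ((abs_nonneg _).trans h1)
    rw [← abs_mul] at h3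
    nlinarith [le_abs_self (x u * x v)]
  · simp

theorem sum_op_le {x : V → ℝ} {a : ℝ} (h : ∀ u v, H.Adj u v → x u ≤ a) :
    ∑ v, op H x v ≤ 2 * ec H * a := by
  rw [← Mo_ec, mul_comm, Mo, S2_mul]
  refine S2_mono (f := fun u v => ad H u v * x v) fun u v => ?_
  unfold ad
  split_ifs with b
  · simpa using h v u b.symm
  · simp

theorem op_le {x : V → ℝ} {a : ℝ} (h0 : 0 ≤ a) (h : ∀ u v, H.Adj u v → x u ≤ a) (v : V) :
    op H x v ≤ ec H * a := by
  have h1 : op H x v ≤ ∑ u, ad H v u * a := by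
    refine sum_le_sum fun u _ => ?_
    unfold ad
    split_ifs with b
    · simpa using h u v b.symm
    · simp
  rw [← sum_mul, sum_ad] at h1
  refine h1.trans (mul_le_mul_of_nonneg_right ?_ h0)
  have h2 : H.degree v ≤ ec H := by
    rw [← AHa_deg]
    exact ec_mono (Sg_le fun u hu => by simpa using hu)
  exact_mod_cast h2

theorem op_nonneg {x : V → ℝ} (h : ∀ v, 0 ≤ x v) (v : V) : 0 ≤ op H x v := by
  exact sum_nonneg fun u _ => mul_nonneg (ad_nonneg _ _ _) (h u)

theorem le_op {x : V → ℝ} (h : ∀ v, 0 ≤ x v) {u v : V} (huv : H.Adj u v) : x v ≤ op H x u := by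
  have h1 := single_le_sum (f := fun v => ad H u v * x v) (s := univ)
    (fun v _ => mul_nonneg (ad_nonneg _ _ _) (h v)) (mem_univ v)
  have h2 : ad H u v = 1 := if_pos huv
  rw [h2, one_mul] at h1
  exact h1

/-- splitting the neighbourhood of a labelled vertex -/
theorem op_split (hp : Proper G c) (x : V → ℝ) {v : V} (hv : c v ≠ 0) :
    op G x v = op (Kc c) x v - op (Hm G c) x v + op (Xe G c) x v := by
  unfold op
  rw [← sum_sub_distrib, ← sum_add_distrib]
  refine sum_congr rfl fun u _ => ?_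
  have := hp v u
  unfold ad
  rw [Hm_adj]
  by_cases a : G.Adj v u <;> by_cases d : c u = 0 <;> simp_all [Kc, Xe, cross]

/-- splitting the neighbourhood of an unlabelled vertex -/
theorem op_split0 (x : V → ℝ) {v : V} (hv : c v = 0) :
    op G x v = aT G c x v + op (Ww G c) x v := by
  unfold op aT nT
  rw [sum_filter, ← sum_add_distrib]
  refine sum_congr rfl fun u _ => ?_
  unfold ad
  by_cases a : G.Adj v u <;> by_cases d : c u = 0 <;> simp [Ww, a, d, hv]

/-- the total outer weight seen from the labelled vertices -/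
theorem sum_op_Xe (G : SimpleGraph V) (c : V → ℕ) (x : V → ℝ) :
    ∑ v ∈ univ.filter (fun v => c v ≠ 0), op (Xe G c) x v = ∑ u ∈ Vp c 0, x u * dT G c u := by
  have e1 : ∑ v ∈ univ.filter (fun v => c v ≠ 0), op (Xe G c) x v =
      S2 fun v u => x u * AHa_A G c u v := by
    rw [sum_filter]
    refine sum_congr rfl fun v _ => ?_
    split_ifs with b
    · refine sum_congr rfl fun u _ => ?_
      unfold ad AHa_A
      by_cases a : G.Adj v u
      · have a' := a.symm
        by_cases d : c u = 0 <;> simp [Xe, a, a', b, d]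
      · have a' : ¬ G.Adj u v := fun e => a e.symm
        simp [Xe, a, a']
    · symm
      refine sum_eq_zero fun u _ => ?_
      simp [AHa_A, b]
  rw [e1, S2_comm, Vp, sum_filter]
  refine sum_congr rfl fun u _ => ?_
  rw [← mul_sum, AHa_row]
  split_ifs <;> simp

end Pool.Agent.P.MP_094db5_co
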