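import Pool.Agent.P.MP_094db5_co.AHa

/-! Finite combinatorial lemmas. -/

set_option autoImplicit false

open Finset Classical

noncomputable section

namespace Pool.Agent.P.MP_094db5_co

theorem sq_one {α : Type} {s : Finset α} {d : α → ℕ} {e : ℕ} (h0 : 1 ≤ e) (h1 : ∑ u ∈ s, d u ≤ e)
    (h2 : e ^ 2 ≤ ∑ u ∈ s, d u ^ 2) : ∃ u ∈ s, d u = e := by
  by_contra hc
  push Not at hc
  have h3 : ∑ u ∈ s, d u ^ 2 ≤ ∑ u ∈ s, (e - 1) * d u := sum_le_sum fun u hu => by
    have a1 : d u ≤ e := (single_le_sum (f := d) (fun _ _ => Nat.zero_le _) hu).trans h1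
    have a2 := hc u hu
    rw [sq]
    exact Nat.mul_le_mul_right _ (by omega)
  rw [← mul_sum] at h3
  obtain ⟨e, rfl⟩ : ∃ e', e = e' + 1 := ⟨e - 1, by omega⟩
  rw [Nat.add_sub_cancel] at h3
  nlinarith [Nat.mul_le_mul_left e h1]

theorem sq_two {α : Type} {s : Finset α} {d : α → ℕ} {m e : ℕ} {z : α} (hz : z ∈ s) (h0 : 1 ≤ e)
    (hem : e ≤ m) (h1 : ∑ u ∈ s, d u ≤ m + e) (h2 : ∀ u ∈ s, d u ≤ d z) (h3 : d z ≤ m)
    (h4 : m ^ 2 + e ^ 2 ≤ ∑ u ∈ s, d u ^ 2) : d z = m ∧ ∃ u ∈ s, u ≠ z ∧ d u = e := by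
  rw [← add_sum_erase _ _ hz] at h1 h4
  have q1 : ∑ u ∈ s.erase z, d u ^ 2 ≤ (∑ u ∈ s.erase z, d u) * ∑ u ∈ s.erase z, d u := by
    rw [mul_sum]
    refine sum_le_sum fun u hu => ?_
    rw [sq]
    exact Nat.mul_le_mul_right _ (single_le_sum (f := d) (fun _ _ => Nat.zero_le _) hu)
  have q2 : ∑ u ∈ s.erase z, d u ^ 2 ≤ d z * ∑ u ∈ s.erase z, d u := by
    rw [mul_sum]
    refine sum_le_sum fun u hu => ?_
    rw [sq]
    exact Nat.mul_le_mul_right _ (h2 u (mem_of_mem_erase hu))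
  have hm : d z = m := by
    by_contra hne
    have hlt : d z + 1 ≤ m := by omega
    generalize ∑ u ∈ s.erase z, d u ^ 2 = Q at *
    generalize ∑ u ∈ s.erase z, d u = R at *
    generalize d z = a at *
    rcases le_or_gt a e with h | h
    · have t1 : a * (a + R) ≤ a * (m + e) := Nat.mul_le_mul_left a h1
      have t2 : (a + 1) * m ≤ m * m := Nat.mul_le_mul_right m hlt
      have t3 : a * e ≤ e * e := Nat.mul_le_mul_right e h
      nlinarith
    · obtain ⟨p, rfl⟩ : ∃ p, a = e + 1 + p := ⟨a - (e + 1), by omega⟩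
      obtain ⟨q, rfl⟩ : ∃ q, m = e + 1 + p + 1 + q := ⟨m - (e + 1 + p + 1), by omega⟩
      have t0 : R ≤ e + 1 + q := by omega
      have t1 : R * R ≤ (e + 1 + q) * (e + 1 + q) := Nat.mul_le_mul t0 t0
      nlinarith [Nat.zero_le (p * q)]
  refine ⟨hm, ?_⟩
  rw [hm] at h1 h4
  obtain ⟨u, hu, hd⟩ := sq_one (s := s.erase z) (d := d) h0 (by omega) (by omega)
  exact ⟨u, mem_of_mem_erase hu, ne_of_mem_erase hu, hd⟩

variable {V : Type}

/-- adjusting a set to a prescribed size -/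
theorem adjust {x : V → ℝ} {η : ℝ} (h0 : 0 ≤ η) {S U Y : Finset V} {σ : ℕ} (hY : Y ⊆ U)
    (h1 : Y.card ≤ σ) (h2 : σ ≤ U.card) (hS : ∀ v ∈ S, |x v - 1| ≤ η)
    (hU : ∀ v ∈ U, |x v - 1| ≤ η) : ∃ S', Y ⊆ S' ∧ S' ⊆ U ∧ S'.card = σ ∧
      ∑ v ∈ S, x v + (σ - S.card) - η * (|(σ : ℝ) - S.card| + 2 * ((S \ U).card + Y.card)) ≤
        ∑ v ∈ S', x v := by
  have key : ∀ S' ⊆ U, S'.card = σ →
      ((S \ S').card ≤ (S \ U).card ∨ (S' \ S).card ≤ Y.card) →
      ∑ v ∈ S, x v + (σ - S.card) - η * (|(σ : ℝ) - S.card| + 2 * ((S \ U).card + Y.card)) ≤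
        ∑ v ∈ S', x v := by
    intro S' hU' hc h
    have e1 := sum_inter_add_sum_sdiff S S' x
    have e2 := sum_inter_add_sum_sdiff S' S x
    rw [inter_comm] at e2
    have c1 : ((S \ S').card : ℝ) + (S ∩ S').card = S.card := by
      exact_mod_cast card_sdiff_add_card_inter S S'
    have c2 : ((S' \ S).card : ℝ) + (S ∩ S').card = σ := by
      rw [← hc, inter_comm]
      exact_mod_cast card_sdiff_add_card_inter S' S
    have b1 : ∑ v ∈ S \ S', x v ≤ (S \ S').card * (1 + η) := by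
      rw [← nsmul_eq_mul]
      exact sum_le_card_nsmul _ _ _ fun v hv => by
        linarith [(abs_le.1 (hS v (mem_sdiff.1 hv).1)).2]
    have b2 : (S' \ S).card * (1 - η) ≤ ∑ v ∈ S' \ S, x v := by
      rw [← nsmul_eq_mul]
      exact card_nsmul_le_sum _ _ _ fun v hv => by
        linarith [(abs_le.1 (hU v (hU' (mem_sdiff.1 hv).1))).1]
    have b3 : ((S' \ S).card : ℝ) + (S \ S').card
        ≤ |(σ : ℝ) - S.card| + 2 * ((S \ U).card + Y.card) := by
      have n1 : (0 : ℝ) ≤ (S \ U).card := Nat.cast_nonneg _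
      have n2 : (0 : ℝ) ≤ Y.card := Nat.cast_nonneg _
      rcases h with h | h
      · have : ((S \ S').card : ℝ) ≤ (S \ U).card := by exact_mod_cast h
        linarith [le_abs_self ((σ : ℝ) - S.card)]
      · have : ((S' \ S).card : ℝ) ≤ Y.card := by exact_mod_cast h
        linarith [neg_abs_le ((σ : ℝ) - S.card)]
    linarith [mul_le_mul_of_nonneg_left b3 h0]
  have hS0 : S ∩ U ∪ Y ⊆ U := union_subset inter_subset_right hY
  rcases le_total (S ∩ U ∪ Y).card σ with h | h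
  · obtain ⟨S', a1, a2, a3⟩ := exists_subsuperset_card_eq hS0 h h2
    refine ⟨S', subset_union_right.trans a1, a2, a3, key S' a2 a3 (Or.inl (card_le_card ?_))⟩
    intro v hv
    rw [mem_sdiff] at hv ⊢
    exact ⟨hv.1, fun hu => hv.2 (a1 (mem_union_left _ (mem_inter.2 ⟨hv.1, hu⟩)))⟩
  · obtain ⟨S', a1, a2, a3⟩ := exists_subsuperset_card_eq (subset_union_right (s₁ := S ∩ U)) h1 h
    refine ⟨S', a1, a2.trans hS0, a3, key S' (a2.trans hS0) a3 (Or.inr (card_le_card ?_))⟩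
    intro v hv
    rw [mem_sdiff] at hv
    rcases mem_union.1 (a2 hv.1) with h' | h'
    · exact absurd (mem_inter.1 h').1 hv.2
    · exact h'

variable [Fintype V] {r : ℕ} {c : V → ℕ} {G H : SimpleGraph V}

lemma AHb_qf (hH : ∀ u v, H.Adj u v → c u ≠ c v) {i : ℕ} {p q : V → ℝ}
    (hq : ∀ v, q v = if c v = i then 0 else p v) :
    qf H p = qf H q + 2 * ∑ v ∈ Vp c i, p v * op H q v := by
  have e : ∑ v ∈ Vp c i, p v * op H q v
      = S2 fun u v => ad H u v * ((if c u = i then p u else 0) * q v) := by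
    rw [Vp, sum_filter, S2]
    refine sum_congr rfl fun u _ => ?_
    split_ifs
    · rw [op, mul_sum]
      exact sum_congr rfl fun v _ => by ring
    · simp
  rw [two_mul, e]
  nth_rewrite 2 [S2_comm]
  rw [qf, qf, S2_add, S2_add]
  refine S2_congr fun u v => ?_
  rw [hq, hq, ad_comm H v u]
  by_cases h : H.Adj u v
  · have := hH u v h
    split_ifs with h1 h2 h2
    · exact absurd (h1.trans h2.symm) this
    · ring
    · ring
    · ring
  · simp [ad, h]

lemma AHb_round (hH : ∀ u v, H.Adj u v → c u ≠ c v) (I : Finset ℕ) (p : V → ℝ)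
    (p0 : ∀ v, 0 ≤ p v) (p1 : ∀ i ∈ I, ∑ v ∈ Vp c i, p v = 1) :
    ∃ p' : V → ℝ, (∀ v, c v ∉ I → p' v = p v) ∧ (∀ i ∈ I, ∃ a, c a = i ∧ 0 < p a ∧ p' a = 1) ∧
      (∀ v, 0 ≤ p' v) ∧ qf H p' ≤ qf H p := by
  induction I using Finset.induction_on with
  | empty => exact ⟨p, fun _ _ => rfl, by simp, p0, le_rfl⟩
  | insert i I hi ih =>
    obtain ⟨p', a1, a2, a3, a4⟩ := ih fun j hj => p1 j (mem_insert_of_mem hj)
    have hs := p1 i (mem_insert_self _ _)
    obtain ⟨q, hq⟩ : ∃ q : V → ℝ, ∀ v, q v = if c v = i then 0 else p' v := ⟨_, fun _ => rfl⟩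
    have hne : ((Vp c i).filter fun v => 0 < p v).Nonempty := by
      by_contra h
      rw [not_nonempty_iff_eq_empty, filter_eq_empty_iff] at h
      have := sum_nonpos (s := Vp c i) (f := p) fun v hv => not_lt.1 (h hv)
      linarith
    obtain ⟨a, ha, hmin⟩ := exists_min_image _ (op H q) hne
    obtain ⟨hai, hpa⟩ := mem_filter.1 ha
    have hci := mem_Vp.1 hai
    refine ⟨fun v => if c v = i then (if v = a then 1 else 0) else p' v, fun v hv => ?_,
      fun j hj => ?_, fun v => ?_, le_trans ?_ a4⟩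
    · rw [mem_insert, not_or] at hv
      simp only [if_neg hv.1]
      exact a1 v hv.2
    · rcases mem_insert.1 hj with rfl | hj
      · exact ⟨a, hci, hpa, by simp [hci]⟩
      · obtain ⟨b, b1, b2, b3⟩ := a2 j hj
        have : c b ≠ i := fun e => hi (e ▸ b1 ▸ hj)
        exact ⟨b, b1, b2, by simp only [if_neg this, b3]⟩
    · have := a3 v
      dsimp only
      split_ifs
      exacts [zero_le_one, le_rfl, this]
    · rw [AHb_qf hH hq, AHb_qf hH (i := i) (q := q) fun v => by rw [hq]; split_ifs <;> rfl]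
      have e1 : ∑ v ∈ Vp c i, (if c v = i then (if v = a then 1 else 0) else p' v) * op H q v
          = op H q a := by
        rw [sum_eq_single_of_mem a hai]
        · simp [hci]
        · intro v hv hva
          simp [mem_Vp.1 hv, hva]
      have e2 : ∑ v ∈ Vp c i, p v * op H q a ≤ ∑ v ∈ Vp c i, p' v * op H q v := by
        refine sum_le_sum fun v hv => ?_
        rw [a1 v (by rw [mem_Vp.1 hv]; exact hi)]
        rcases (p0 v).eq_or_lt with h | h
        · rw [← h, zero_mul, zero_mul]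
        · exact mul_le_mul_of_nonneg_left (hmin v (mem_filter.2 ⟨hv, h⟩)) h.le
      rw [← sum_mul, hs, one_mul] at e2
      rw [e1]
      linarith

/-- if no transversal of `S` is a clique then two small classes contain a missing pair -/
theorem exists_small_pair {S : Finset V} {I : Finset ℕ} (h0 : 0 ∉ I)
    (h1 : ∀ i ∈ I, ∃ v ∈ S, c v = i)
    (h2 : ∀ K ⊆ S, (∀ v ∈ K, c v ∈ I) → ¬ G.IsNClique I.card K) :
    ∃ a ∈ S, ∃ b ∈ S, (Hm G c).Adj a b ∧
      (S.filter fun v => c v = c a).card * (S.filter fun v => c v = c b).card ≤ ec (Hm G c) := by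
  by_contra hc
  push Not at hc
  obtain ⟨n, hn⟩ : ∃ n : ℕ → ℕ, ∀ i, n i = (S.filter fun v => c v = i).card := ⟨_, fun _ => rfl⟩
  simp only [← hn] at hc
  obtain ⟨p, hp⟩ : ∃ p : V → ℝ, ∀ v, p v = if v ∈ S then ((n (c v) : ℝ))⁻¹ else 0 :=
    ⟨_, fun _ => rfl⟩
  have p0 : ∀ v, 0 ≤ p v := fun v => by
    rw [hp]
    split_ifs
    · positivity
    · exact le_rfl
  have p1 : ∀ i ∈ I, ∑ v ∈ Vp c i, p v = 1 := fun i hi => by
    obtain ⟨w, hw, hwi⟩ := h1 i hi
    have hpos : 0 < n i := by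
      rw [hn]
      exact card_pos.2 ⟨w, mem_filter.2 ⟨hw, hwi⟩⟩
    have e : ∑ v ∈ Vp c i, p v = ∑ v ∈ S.filter (fun v => c v = i), ((n i : ℝ))⁻¹ := by
      simp only [hp]
      rw [← sum_filter]
      refine sum_congr (by ext v; simp [and_comm]) fun v hv => ?_
      rw [(mem_filter.1 hv).2]
    rw [e, sum_const, ← hn, nsmul_eq_mul]
    exact mul_inv_cancel₀ (Nat.cast_ne_zero.2 hpos.ne')
  have hq : qf (Hm G c) p < 2 := by
    have hk : (0 : ℝ) < ec (Hm G c) + 1 := by positivity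
    have a1 : qf (Hm G c) p ≤ ((ec (Hm G c) : ℝ) + 1)⁻¹ * Mo (Hm G c) := by
      rw [Mo, S2_mul]
      refine S2_mono fun u v => ?_
      unfold ad
      split_ifs with h
      · rw [one_mul, mul_one, hp, hp]
        split_ifs with hu hv
        · rw [← mul_inv]
          exact inv_anti₀ hk (by exact_mod_cast hc u hu v hv h)
        · rw [mul_zero]; positivity
        · rw [zero_mul]; positivity
        · rw [zero_mul]; positivity
      · simp
    rw [Mo_ec, ← div_eq_inv_mul, le_div_iff₀ hk] at a1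
    by_contra h
    nlinarith [not_lt.1 h]
  obtain ⟨p', -, a2, a3, a4⟩ := AHb_round (H := Hm G c) (c := c) (fun u v h => h.1.2.2) I p p0 p1
  have : Nonempty V := by
    rcases I.eq_empty_or_nonempty with rfl | ⟨i, hi⟩
    · exact absurd (by simp) (h2 ∅ (empty_subset _) (by simp))
    · exact (h1 i hi).nonempty
  choose! z hz using a2
  have zS : ∀ i ∈ I, z i ∈ S := fun i hi => by
    by_contra h
    have := (hz i hi).2.1
    rw [hp, if_neg h] at this
    exact lt_irrefl _ this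
  refine h2 (I.image z) (fun v hv => ?_) (fun v hv => ?_) (clique_image fun i hi j hj hij => ?_)
  · obtain ⟨i, hi, rfl⟩ := mem_image.1 hv
    exact zS i hi
  · obtain ⟨i, hi, rfl⟩ := mem_image.1 hv
    rwa [(hz i hi).1]
  · by_contra hn
    have hadj : (Hm G c).Adj (z i) (z j) := by
      refine Hm_adj.2 ⟨?_, hn⟩
      unfold cross
      rw [(hz i hi).1, (hz j hj).1]
      exact ⟨fun e => h0 (e ▸ hi), fun e => h0 (e ▸ hj), hij⟩
    have b1 : ∑ u ∈ {z i, z j}, p' u * op (Hm G c) p' u ≤ qf (Hm G c) p' := by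
      rw [qf_op]
      exact sum_le_sum_of_subset_of_nonneg (subset_univ _) fun u _ _ =>
        mul_nonneg (a3 u) (op_nonneg a3 u)
    rw [sum_pair hadj.ne, (hz i hi).2.2, (hz j hj).2.2] at b1
    have b2 := le_op a3 hadj
    have b3 := le_op a3 hadj.symm
    rw [(hz j hj).2.2] at b2
    rw [(hz i hi).2.2] at b3
    linarith

/-- ordered adjacent pairs -/
def AHb_P (H : SimpleGraph V) : Finset (V × V) := univ.filter fun p => H.Adj p.1 p.2

lemma AHb_mem {p : V × V} : p ∈ AHb_P H ↔ H.Adj p.1 p.2 := by simp [AHb_P]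

lemma AHb_fst (H : SimpleGraph V) (f : V → ℕ) :
    ∑ p ∈ AHb_P H, f p.1 = ∑ v, H.degree v * f v := by
  rw [AHb_P, sum_filter, ← univ_product_univ, sum_product]
  refine sum_congr rfl fun u _ => ?_
  dsimp only
  rw [← sum_filter, sum_const, smul_eq_mul, ← SimpleGraph.card_neighborFinset_eq_degree,
    SimpleGraph.neighborFinset_eq_filter]

lemma AHb_ec (H : SimpleGraph V) : ec H = H.edgeFinset.card := by
  rw [ec, Set.ncard_eq_toFinset_card']
  rfl

lemma AHb_card (H : SimpleGraph V) : (AHb_P H).card = 2 * ec H := by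
  have h := AHb_fst H fun _ => 1
  simp only [sum_const, smul_eq_mul, mul_one] at h
  rw [h, AHb_ec, H.sum_degrees_eq_twice_card_edges]

lemma AHb_sum (H : SimpleGraph V) :
    ∑ p ∈ AHb_P H, (H.degree p.1 + H.degree p.2) = 2 * ∑ v, H.degree v ^ 2 := by
  have h1 := AHb_fst H fun v => H.degree v
  have h2 : ∑ p ∈ AHb_P H, H.degree p.2 = ∑ p ∈ AHb_P H, H.degree p.1 :=
    sum_equiv (Equiv.prodComm V V) (fun p => by simp [AHb_mem, H.adj_comm]) fun p _ => rfl
  rw [sum_add_distrib, h2, h1, two_mul]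
  simp only [sq]

lemma AHb_inc {u v : V} (h : H.Adj u v) :
    H.degree u + H.degree v = (H.incidenceFinset u ∪ H.incidenceFinset v).card + 1 := by
  rw [← H.card_incidenceFinset_eq_degree, ← H.card_incidenceFinset_eq_degree,
    ← card_union_add_card_inter]
  have : H.incidenceFinset u ∩ H.incidenceFinset v = {s(u, v)} := by
    ext e
    rw [mem_inter, SimpleGraph.mem_incidenceFinset, SimpleGraph.mem_incidenceFinset,
      ← Set.mem_inter_iff, H.incidenceSet_inter_incidenceSet_of_adj h]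
    simp
  rw [this, card_singleton]

lemma AHb_deg {u v : V} (h : H.Adj u v) : H.degree u + H.degree v ≤ ec H + 1 := by
  rw [AHb_inc h, AHb_ec]
  exact Nat.succ_le_succ (card_le_card (union_subset (H.incidenceFinset_subset u)
    (H.incidenceFinset_subset v)))

lemma AHb_deg' {u v a b : V} (h : H.Adj u v) (h' : H.Adj a b) (h1 : u ≠ a) (h2 : u ≠ b)
    (h3 : v ≠ a) (h4 : v ≠ b) : H.degree u + H.degree v ≤ ec H := by
  rw [AHb_inc h, AHb_ec]
  refine card_lt_card ⟨union_subset (H.incidenceFinset_subset u) (H.incidenceFinset_subset v),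
    fun hs => ?_⟩
  have := hs (SimpleGraph.mem_edgeFinset.2 (show s(a, b) ∈ H.edgeSet from h'))
  simp [SimpleGraph.incidenceSet, h1, h2, h3, h4] at this

theorem sum_degree_sq_le (H : SimpleGraph V) : ∑ v, H.degree v ^ 2 ≤ ec H ^ 2 + ec H := by
  have h := AHb_sum H
  have h1 : ∑ p ∈ AHb_P H, (H.degree p.1 + H.degree p.2) ≤ (AHb_P H).card • (ec H + 1) :=
    sum_le_card_nsmul _ _ _ fun p hp => AHb_deg (AHb_mem.1 hp)
  rw [AHb_card, smul_eq_mul] at h1
  nlinarith

theorem sum_degree_sq_le' {a b d e : V} (h1 : H.Adj a b) (h2 : H.Adj d e) (h3 : a ≠ d)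
    (h4 : a ≠ e) (h5 : b ≠ d) (h6 : b ≠ e) :
    3 * ∑ v, H.degree v ^ 2 + ec H ≤ 3 * (ec H ^ 2 + ec H) := by
  have h := AHb_sum H
  obtain ⟨B, hB⟩ : ∃ B : Finset (V × V), B = (AHb_P H).filter fun p =>
    (p.1 = a ∨ p.1 = b ∨ p.2 = a ∨ p.2 = b) ∧ (p.1 = d ∨ p.1 = e ∨ p.2 = d ∨ p.2 = e) := ⟨_, rfl⟩
  have hab := h1.ne
  have hde := h2.ne
  have k1 : ∑ p ∈ AHb_P H, (H.degree p.1 + H.degree p.2)
      ≤ ∑ p ∈ AHb_P H, (ec H + if p ∈ B then 1 else 0) := sum_le_sum fun p hp => by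
    have hp' := AHb_mem.1 hp
    split_ifs with hpB
    · exact AHb_deg hp'
    · rw [hB, mem_filter, not_and, not_and_or] at hpB
      rcases hpB hp with t | t
      · exact AHb_deg' hp' h1 (by tauto) (by tauto) (by tauto) (by tauto)
      · exact AHb_deg' hp' h2 (by tauto) (by tauto) (by tauto) (by tauto)
  have hBP : B ⊆ AHb_P H := hB ▸ filter_subset _ _
  rw [h, sum_add_distrib, sum_const, sum_ite_mem, inter_eq_right.2 hBP, sum_const, AHb_card,
    smul_eq_mul, smul_eq_mul, mul_one] at k1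
  have k2 : B.card ≤ 8 := by
    have : B ⊆ ({a, b} ×ˢ {d, e}) ∪ ({d, e} ×ˢ {a, b}) := by
      rintro ⟨u, v⟩ hp
      rw [hB, mem_filter] at hp
      simp only [mem_union, mem_product, mem_insert, mem_singleton]
      have := hp.2
      grind
    refine (card_le_card this).trans ((card_union_le _ _).trans ?_)
    rw [card_product, card_product, card_pair hab, card_pair hde]
  have k3 : B.card + 4 ≤ 2 * ec H := by
    have d1 : Disjoint B {(a, b), (b, a), (d, e), (e, d)} := by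
      rw [disjoint_left]
      rintro ⟨u, v⟩ hp hq
      rw [hB, mem_filter] at hp
      simp only [mem_insert, mem_singleton, Prod.mk.injEq] at hq
      have := hp.2
      grind
    have d2 : ({(a, b), (b, a), (d, e), (e, d)} : Finset (V × V)).card = 4 := by
      rw [card_insert_of_notMem (by simp; grind), card_insert_of_notMem (by simp; grind),
        card_pair (by simp; grind)]
    rw [← d2, ← card_union_of_disjoint d1, ← AHb_card]
    refine card_le_card (union_subset hBP fun p hp => AHb_mem.2 ?_)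
    simp only [mem_insert, mem_singleton] at hp
    rcases hp with rfl | rfl | rfl | rfl
    exacts [h1, h1.symm, h2, h2.symm]
  have k4 : 3 * B.card ≤ 4 * ec H := by omega
  nlinarith

omit [Fintype V] in
theorem star_of_inter {a₀ b₀ : V} (h0 : H.Adj a₀ b₀)
    (h1 : ∀ a b d e, H.Adj a b → H.Adj d e → a = d ∨ a = e ∨ b = d ∨ b = e)
    (h2 : ∀ a b d, H.Adj a b → H.Adj b d → ¬ H.Adj a d) :
    ∃ a, ∀ u v, H.Adj u v → u = a ∨ v = a := by
  by_contra hc
  push Not at hc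
  obtain ⟨u, v, huv, hu, hv⟩ := hc a₀
  obtain ⟨u', v', huv', hu', hv'⟩ := hc b₀
  obtain ⟨d, hd, hda⟩ : ∃ d, H.Adj b₀ d ∧ d ≠ a₀ := by
    rcases h1 _ _ _ _ h0 huv with e | e | e | e
    · exact absurd e.symm hu
    · exact absurd e.symm hv
    · exact ⟨v, e ▸ huv, hv⟩
    · exact ⟨u, e ▸ huv.symm, hu⟩
  obtain ⟨e, he, heb⟩ : ∃ e, H.Adj a₀ e ∧ e ≠ b₀ := by
    rcases h1 _ _ _ _ h0 huv' with e | e | e | e
    · exact ⟨v', e ▸ huv', hv'⟩
    · exact ⟨u', e ▸ huv'.symm, hu'⟩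
    · exact absurd e.symm hu'
    · exact absurd e.symm hv'
  rcases h1 _ _ _ _ hd he with t | t | t | t
  · exact h0.ne t.symm
  · exact heb t.symm
  · exact hda t
  · exact h2 _ _ _ h0 hd (t ▸ he)

/-- a set with exactly `t` elements in each part -/
theorem exists_full {S : Finset V} {t : ℕ} (hc : ∀ v, c v ≤ r) (h0 : ∀ v ∈ S, c v ≠ 0)
    (h1 : ∀ i, (S.filter fun v => c v = i).card ≤ t) (hb : ∀ i ∈ Icc 1 r, t ≤ cn c i) :
    ∃ U, S ⊆ U ∧ (∀ v ∈ U, c v ≠ 0) ∧ U.card = r * t ∧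
      ∀ i, (U.filter fun v => c v = i).card ≤ t := by
  have : ∀ i ∈ Icc 1 r, ∃ W : Finset V, (S.filter fun v => c v = i) ⊆ W ∧ W ⊆ Vp c i ∧
      W.card = t := fun i hi =>
    exists_subsuperset_card_eq (fun v hv => mem_Vp.2 (mem_filter.1 hv).2) (h1 i) (hb i hi)
  choose! W hW using this
  have hWc : ∀ i ∈ Icc 1 r, ∀ v ∈ W i, c v = i := fun i hi v hv => mem_Vp.1 ((hW i hi).2.1 hv)
  refine ⟨(Icc 1 r).biUnion W, fun v hv => ?_, fun v hv => ?_, ?_, fun i => ?_⟩
  · have hi : c v ∈ Icc 1 r := mem_Icc.2 ⟨Nat.one_le_iff_ne_zero.2 (h0 v hv), hc v⟩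
    exact mem_biUnion.2 ⟨c v, hi, (hW _ hi).1 (mem_filter.2 ⟨hv, rfl⟩)⟩
  · obtain ⟨i, hi, hv⟩ := mem_biUnion.1 hv
    have := (mem_Icc.1 hi).1
    rw [hWc i hi v hv]
    omega
  · rw [card_biUnion, sum_congr rfl fun i hi => (hW i hi).2.2, sum_const, Nat.card_Icc,
      add_tsub_cancel_right, smul_eq_mul]
    intro i hi j hj hij
    exact disjoint_left.2 fun v h h' => hij ((hWc i hi v h).symm.trans (hWc j hj v h'))
  · by_cases hi : i ∈ Icc 1 r
    · rw [← (hW i hi).2.2]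
      refine card_le_card fun v hv => ?_
      obtain ⟨hv, hvi⟩ := mem_filter.1 hv
      obtain ⟨j, hj, hv⟩ := mem_biUnion.1 hv
      rwa [← hvi, hWc j hj v hv]
    · rw [filter_eq_empty_iff.2, card_empty]
      · exact Nat.zero_le _
      · intro v hv hvi
        obtain ⟨j, hj, hv⟩ := mem_biUnion.1 hv
        exact hi (hvi ▸ (hWc j hj v hv).symm ▸ hj)

omit [Fintype V] in
theorem card_le_of_parts {S : Finset V} {t : ℕ} (hc : ∀ v, c v ≤ r) (h0 : ∀ v ∈ S, c v ≠ 0)
    (h1 : ∀ i ∈ Icc 1 r, (S.filter fun v => c v = i).card ≤ t) : S.card ≤ r * t ∧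
      (S.card = r * t → ∀ i ∈ Icc 1 r, (S.filter fun v => c v = i).card = t) := by
  have e : S.card = ∑ i ∈ Icc 1 r, (S.filter fun v => c v = i).card :=
    card_eq_sum_card_fiberwise fun v hv =>
      mem_coe.2 (mem_Icc.2 ⟨Nat.one_le_iff_ne_zero.2 (h0 v hv), hc v⟩)
  have e' : r * t = ∑ _i ∈ Icc 1 r, t := by
    rw [sum_const, Nat.card_Icc, add_tsub_cancel_right, smul_eq_mul]
  rw [e, e']
  exact ⟨sum_le_sum h1, fun h => (sum_eq_sum_iff_of_le h1).1 h⟩

end Pool.Agent.P.MP_094db5_co
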