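import Pool.Agent.P.MP_094db5_co.AHa

/-! Adding and removing isolated vertices. -/

set_option autoImplicit false

open Finset Classical

noncomputable section

namespace Pool.Agent.P.MP_094db5_co

variable {α V W : Type} {F : SimpleGraph α} {r m : ℕ}

theorem InN.map [Finite V] {G : SimpleGraph V} (h : InN F r m G) (hr : 1 ≤ r)
    (hF : ∀ a, ∃ b, F.Adj a b) {f : V → W} (hf : Set.InjOn f G.support) : InN F r m (G.map f) := by
  have inj : ∀ {u v u' v' : V}, G.Adj u u' → G.Adj v v' → f u = f v → u = v :=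
    fun a b e => hf ⟨_, a⟩ ⟨_, b⟩ e
  have hne : ∀ {u v : V}, G.Adj u v → f u ≠ f v := fun a e => a.ne (inj a a.symm e)
  refine ⟨?_, ?_, fun hc => h.2.2 (hc.of_hom (SimpleGraph.Hom.map f G hne))⟩
  · have e : (G.map f).edgeSet = Sym2.map f '' G.edgeSet := by
      ext e
      induction e using Sym2.ind with
      | _ a b =>
        constructor
        · rintro ⟨-, u, v, huv, rfl, rfl⟩
          exact ⟨s(u, v), huv, rfl⟩
        · rintro ⟨e, he, e'⟩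
          rw [← e']
          exact (SimpleGraph.Hom.map f G hne).map_mem_edgeSet he
    rw [e, Set.InjOn.ncard_image, h.1]
    intro e1 h1 e2 h2 e
    induction e1 using Sym2.ind with
    | _ a b =>
      induction e2 using Sym2.ind with
      | _ a' b' =>
        have h1' : G.Adj a b := h1
        have h2' : G.Adj a' b' := h2
        rcases Sym2.eq_iff.1 e with ⟨x, y⟩ | ⟨x, y⟩
        · rw [inj h1' h2' x, inj h1'.symm h2'.symm y]
        · rw [inj h1' h2'.symm x, inj h1'.symm h2' y, Sym2.eq_swap]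
  · rintro ⟨φ⟩
    have ex : ∀ a, ∃ v, (∃ u, G.Adj v u) ∧ f v = φ a := fun a => by
      obtain ⟨b, hb⟩ := hF a
      obtain ⟨-, u, v, huv, e, -⟩ := φ.toHom.map_adj hb
      exact ⟨u, ⟨v, huv⟩, e⟩
    choose ψ h1 h2 using ex
    refine h.2.1 ⟨⟨⟨ψ, fun {a b} hab => ?_⟩, fun a b e => φ.injective ?_⟩⟩
    · obtain ⟨-, u, v, huv, e1, e2⟩ := φ.toHom.map_adj hab
      obtain ⟨a', ha⟩ := h1 a
      obtain ⟨b', hb⟩ := h1 b
      rwa [inj ha huv ((h2 a).trans e1.symm), inj hb huv.symm ((h2 b).trans e2.symm)]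
    · exact (h2 a).symm.trans ((congrArg f e).trans (h2 b))

theorem lam_map [Fintype V] [Fintype W] {G : SimpleGraph V} (h : G ≠ ⊥) {f : V → W}
    (hf : Set.InjOn f G.support) : lam (G.map f) = lam G := by
  obtain ⟨u₀, v₀, h0⟩ := SimpleGraph.ne_bot_iff_exists_adj.1 h
  have : Nonempty V := ⟨u₀⟩
  have : Nonempty W := ⟨f u₀⟩
  have li := hf.leftInvOn_invFunOn
  apply le_antisymm
  · refine lam_le_of_map (Function.invFunOn f G.support) (univ.filter fun v => v ∈ f '' G.support)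
      ?_ ?_ ?_
    · intro a ha b hb e
      simp only [coe_filter, mem_univ, true_and, Set.mem_ofPred_eq] at ha hb
      obtain ⟨a, ha, rfl⟩ := ha
      obtain ⟨b, hb, rfl⟩ := hb
      rw [li ha, li hb] at e
      rw [e]
    · rintro _ _ ⟨-, u, v, huv, rfl, rfl⟩
      exact mem_filter.2 ⟨mem_univ _, u, ⟨v, huv⟩, rfl⟩
    · rintro _ _ ⟨-, u, v, huv, rfl, rfl⟩
      rwa [li ⟨v, huv⟩, li ⟨u, huv.symm⟩]
  · refine lam_le_of_map f (univ.filter fun v => v ∈ G.support) ?_ ?_ ?_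
    · intro a ha b hb e
      simp only [coe_filter, mem_univ, true_and, Set.mem_ofPred_eq] at ha hb
      exact hf ha hb e
    · exact fun u v huv => mem_filter.2 ⟨mem_univ _, v, huv⟩
    · exact fun u v huv => SimpleGraph.map_adj_apply' huv fun e =>
        huv.ne (hf ⟨v, huv⟩ ⟨u, huv.symm⟩ e)

lemma AMap_ne_bot {G : SimpleGraph V} (h : InN F r m G) (hr : 1 ≤ r) : G ≠ ⊥ :=
  fun e => h.2.2 ((SimpleGraph.colorable_one_iff.2 e).mono hr)

lemma AMap_small [Fintype V] {G : SimpleGraph V} (h : InN F r m G) (hr : 1 ≤ r)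
    (hF : ∀ a, ∃ b, F.Adj a b) :
    ∃ G' : SimpleGraph (Fin (2 * m)), InN F r m G' ∧ lam G' = lam G := by
  have hb := AMap_ne_bot h hr
  have h1 := card_supp_le G
  have h2 : ec G = m := h.1
  have h3 : m ≠ 0 := fun e => hb (ec_eq_zero.1 (h2.trans e))
  have : Nonempty (Fin (2 * m)) := ⟨⟨0, by omega⟩⟩
  obtain ⟨f, -, hf⟩ := (Set.toFinite G.support).exists_injOn_of_encard_le
    (t := (Set.univ : Set (Fin (2 * m)))) (by
      have e : G.support = (univ.filter fun v => ∃ u, G.Adj v u : Finset V) := by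
        ext v
        simp [SimpleGraph.mem_support]
      rw [e, Set.encard_coe_eq_coe_finsetCard, Set.encard_univ, ENat.card_eq_coe_fintype_card,
        Fintype.card_fin, ← h2]
      exact_mod_cast h1)
  exact ⟨G.map f, h.map hr hF hf, lam_map hb hf⟩

/-- extremal graphs exist -/
theorem exists_extremal [Fintype V] {G : SimpleGraph V} (h : InN F r m G) (hr : 1 ≤ r)
    (hF : ∀ a, ∃ b, F.Adj a b) : ∃ G' : SimpleGraph (Fin (2 * m)), InN F r m G' ∧
      ∀ (W : Type) [Fintype W] (H : SimpleGraph W), InN F r m H → lam H ≤ lam G' := by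
  obtain ⟨G₀, g0, -⟩ := AMap_small h hr hF
  obtain ⟨G', g1, g2⟩ := Set.exists_max_image {H : SimpleGraph (Fin (2 * m)) | InN F r m H} lam
    (Set.toFinite _) ⟨G₀, g0⟩
  refine ⟨G', g1, fun W _ H hH => ?_⟩
  obtain ⟨H', a, b⟩ := AMap_small hH hr hF
  exact b ▸ g2 H' a

theorem ex_of_extremal [Fintype V] {G : SimpleGraph V} (h : InN F r m G) (hr : 1 ≤ r)
    (hF : ∀ a, ∃ b, F.Adj a b)
    (hm : ∀ (W : Type) [Fintype W] (H : SimpleGraph W), InN F r m H → lam H ≤ lam G) :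
    Ex r (fun H : SimpleGraph (V ⊕ Fin (2 * m + 2)) => F.Free H) (G.map Sum.inl) ∧
      ec (G.map (Sum.inl : V → V ⊕ Fin (2 * m + 2))) = m := by
  have hi : Set.InjOn (Sum.inl : V → V ⊕ Fin (2 * m + 2)) G.support := Sum.inl_injective.injOn
  have h1 := h.map hr hF hi
  have h2 : ec (G.map (Sum.inl : V → V ⊕ Fin (2 * m + 2))) = m := h1.1
  refine ⟨⟨h1.2.1, h1.2.2, fun H a b c => ?_, ?_⟩, h2⟩
  · rw [lam_map (AMap_ne_bot h hr) hi]
    exact hm _ H ⟨a.trans h2, b, c⟩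
  · rw [h2]
    calc 2 * m + 2 = ((univ : Finset (Fin (2 * m + 2))).map
          (Function.Embedding.inr : Fin (2 * m + 2) ↪ V ⊕ Fin (2 * m + 2))).card := by simp
      _ ≤ _ := card_le_card fun v hv => by
          obtain ⟨i, -, rfl⟩ := mem_map.1 hv
          simp only [mem_filter, mem_univ, true_and]
          rintro u ⟨-, a, b, -, e, -⟩
          cases e

lemma AMap_range {G : SimpleGraph V} {f : V → W} {u v : W} (h : (G.map f).Adj u v) :
    ∃ x, f x = u := by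
  obtain ⟨-, a, -, -, e, -⟩ := h
  exact ⟨a, e⟩

lemma AMap_lab {G : SimpleGraph V} {f : V → W} {c : W → ℕ} (hn : NI (G.map f) c) {v : W}
    (h : c v ≠ 0) : ∃ x, f x = v := (hn v h).elim fun _ => AMap_range

lemma AMap_spokes {f : V → W} (hf : Function.Injective f) (w : V) (X : Set W) :
    Sym2.map f ⁻¹' spokes (f w) X = spokes w (f ⁻¹' X) := by
  ext e
  induction e using Sym2.ind with
  | _ a b =>
    simp only [spokes, Set.mem_preimage, Sym2.map_mk, Set.mem_ofPred_eq, Sym2.eq_iff]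
    constructor
    · rintro ⟨v, hv, ⟨e, rfl⟩ | ⟨rfl, e⟩⟩
      · exact ⟨b, hv, Or.inl ⟨hf e, rfl⟩⟩
      · exact ⟨a, hv, Or.inr ⟨rfl, hf e⟩⟩
    · rintro ⟨v, hv, ⟨rfl, rfl⟩ | ⟨rfl, rfl⟩⟩
      · exact ⟨_, hv, Or.inl ⟨rfl, rfl⟩⟩
      · exact ⟨_, hv, Or.inr ⟨rfl, rfl⟩⟩

lemma AMap_ncard {G : SimpleGraph V} {f : V → W} (hf : Function.Injective f) {c : W → ℕ}
    (hn : NI (G.map f) c) {X : Set W} (h : ∀ v ∈ X, c v ≠ 0) : (f ⁻¹' X).ncard = X.ncard :=
  Set.ncard_preimage_of_injective_subset_range hf fun v hv => AMap_lab hn (h v hv)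

lemma AMap_pc {G : SimpleGraph V} {f : V → W} (hf : Function.Injective f) {c : W → ℕ}
    (hn : NI (G.map f) c) {X : Set W} (h : ∀ v ∈ X, c v ≠ 0) (i : ℕ) :
    pc (c ∘ f) (f ⁻¹' X) i = pc c X i :=
  AMap_ncard hf hn (X := {v ∈ X | c v = i}) fun v hv => h v hv.1

lemma AMap_spoke {G : SimpleGraph V} {f : V → W} {c : W → ℕ} {A D : Set (Sym2 W)}
    (h : Mp (G.map f) r c A D) {w v : W} (hv : s(w, v) ∈ A) : ∃ x, f x = w :=
  AMap_range ((h.2.2 w v).2 (Or.inr hv))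

lemma AMap_one {f : V → W} (hf : Function.Injective f) (a : V) : f ⁻¹' {f a} = {a} := by
  ext v
  simp [hf.eq_iff]

lemma AMap_two {f : V → W} (hf : Function.Injective f) (a b : V) :
    f ⁻¹' {f a, f b} = {a, b} := by
  ext v
  simp [hf.eq_iff]

lemma AMap_three {f : V → W} (hf : Function.Injective f) (a b d : V) :
    f ⁻¹' {f a, f b, f d} = {a, b, d} := by
  ext v
  simp [hf.eq_iff]

theorem Mp.comap {G : SimpleGraph V} {f : V → W} (hf : Function.Injective f) {c : W → ℕ}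
    {A D : Set (Sym2 W)} (h : Mp (G.map f) r c A D) (hn : NI (G.map f) c) :
    Mp G r (c ∘ f) (Sym2.map f ⁻¹' A) (Sym2.map f ⁻¹' D) := by
  refine ⟨fun v => h.1 (f v), fun i hi => ?_, fun u v => ?_⟩
  · have := AMap_ncard hf hn (X := {v | c v = i}) fun v hv => by
      have := (mem_Icc.1 hi).1
      have : c v = i := hv
      omega
    exact (h.2.1 i hi).trans this.ge
  · exact (SimpleGraph.map_adj_apply (G := G) (f := ⟨f, hf⟩)).symm.trans (h.2.2 (f u) (f v))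

theorem FamB.comap {t : ℕ} {G : SimpleGraph V} {f : V → W} (hf : Function.Injective f)
    (hr : 1 ≤ r) {c : W → ℕ} (h : FamB r t (G.map f) c) (hn : NI (G.map f) c) :
    FamB r t G (c ∘ f) := by
  obtain ⟨w, z, X, D, h1, h2, h3, h4, h5⟩ := h
  have hp := AMap_pc hf hn h2
  obtain ⟨x₀, hx₀, -⟩ : {v ∈ X | c v = 1}.Nonempty :=
    Set.nonempty_of_ncard_ne_zero (Nat.one_le_iff_ne_zero.1 (h4 1 (mem_Icc.2 ⟨le_rfl, hr⟩)))
  have hs : s(w, x₀) ∈ spokes w X := ⟨x₀, hx₀, rfl⟩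
  rcases h5 with ⟨hM, hz, b, hb, rfl, p1, p2⟩ | ⟨hM, hz, p, q0, q1⟩ | ⟨hM, ht, hz, p, hD, hXD, q⟩
  · obtain ⟨w, rfl⟩ := AMap_spoke hM hs
    obtain ⟨z, rfl⟩ := AMap_lab hn (h2 z hz)
    obtain ⟨b, rfl⟩ := AMap_lab hn (h2 b hb)
    have hM' := hM.comap hf hn
    rw [AMap_spokes hf, AMap_spokes hf] at hM'
    exact ⟨w, z, f ⁻¹' X, f ⁻¹' {f b}, h1, fun v hv => h2 _ hv, fun v hv => h3 _ hv,
      fun i hi => (h4 i hi).trans (hp i).ge, Or.inl ⟨hM', hz, b, hb, AMap_one hf b,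
        (hp _).trans p1, (hp _).trans p2⟩⟩
  · obtain ⟨w, rfl⟩ := AMap_spoke hM hs
    obtain ⟨z, rfl⟩ := AMap_lab hn hz
    have hM' := hM.comap hf hn
    rw [AMap_spokes hf, AMap_spokes hf] at hM'
    refine ⟨w, z, f ⁻¹' X, f ⁻¹' D, h1, fun v hv => h2 _ hv, fun v hv => h3 _ hv,
      fun i hi => (h4 i hi).trans (hp i).ge, Or.inr (Or.inl ⟨hM', hz,
        fun i hi => (hp i).trans (p i hi), fun e => ?_, fun e => ?_⟩)⟩
    · obtain ⟨a1, b, a2, y, a3, a4⟩ := q0 e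
      have hb : b ∈ X ∩ D := a2 ▸ rfl
      obtain ⟨b, rfl⟩ := AMap_lab hn (h2 b hb.1)
      obtain ⟨y, rfl⟩ := AMap_lab hn (a4 ▸ h2 _ hb.1 : c y ≠ 0)
      exact ⟨a1, b, by rw [← Set.preimage_inter, a2, AMap_one hf], y, a3, a4⟩
    · exact ⟨(q1 e).1, fun v hv y hy => (q1 e).2 (f v) hv (f y) hy⟩
  · obtain ⟨w, rfl⟩ := AMap_spoke hM (Or.inl hs)
    have hD' := AMap_ncard hf hn fun v hv => (h3 v hv).1
    have hXD' : ¬ f ⁻¹' X ⊆ f ⁻¹' D := fun e => hXD fun v hv => by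
      obtain ⟨v, rfl⟩ := AMap_lab hn (h2 v hv)
      exact e hv
    have hM' := hM.comap hf hn
    rcases D.eq_empty_or_nonempty with rfl | ⟨d, hd⟩
    · have e : ∀ (U : Type) (u : U), spokes u ∅ = ∅ := fun U u => by simp [spokes]
      rw [e, Set.union_empty, AMap_spokes hf] at hM'
      refine ⟨w, w, f ⁻¹' X, ∅, h1, fun v hv => h2 _ hv, fun v hv => hv.elim,
        fun i hi => (h4 i hi).trans (hp i).ge, Or.inr (Or.inr ⟨?_, ht, h1,
          fun i hi => (hp i).le.trans (p i hi), by simp, hXD', fun e => e.elim fun _ a => a.elim⟩)⟩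
      rwa [e, Set.union_empty]
    · obtain ⟨z, rfl⟩ := AMap_spoke hM (Or.inr ⟨d, hd, rfl⟩ : s(z, d) ∈ _)
      rw [Set.preimage_union, AMap_spokes hf, AMap_spokes hf] at hM'
      exact ⟨w, z, f ⁻¹' X, f ⁻¹' D, h1, fun v hv => h2 _ hv, fun v hv => h3 _ hv,
        fun i hi => (h4 i hi).trans (hp i).ge, Or.inr (Or.inr ⟨hM', ht, hz,
          fun i hi => (hp i).le.trans (p i hi), hD'.le.trans hD, hXD', fun _ =>
            ⟨fun e => (q ⟨d, hd⟩).1 (congrArg f e), fun i hi => (hp i).trans ((q ⟨d, hd⟩).2 i hi)⟩⟩)⟩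

theorem FamW.comap {G : SimpleGraph V} {f : V → W} (hf : Function.Injective f) {c : W → ℕ}
    (h : FamW (G.map f) c) (hn : NI (G.map f) c) : FamW G (c ∘ f) := by
  obtain ⟨w, z, a, b, D, h1, h2, h3, h4, h5, h6, h7⟩ := h
  obtain ⟨z, rfl⟩ := AMap_lab hn h2
  obtain ⟨a, rfl⟩ := AMap_lab hn h3
  obtain ⟨b, rfl⟩ := AMap_lab hn h4
  have hD := AMap_ncard hf hn h6
  rcases h7 with ⟨hM, p1, p2, p3, ⟨y, y1, y2⟩, y', y3, y4⟩ | ⟨w', p0, p1, hM, p2, p3, p4, p5, p6, p7⟩ |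
    ⟨w', p0, p1, hM, p2, p3, p4, p5⟩
  · obtain ⟨w, rfl⟩ := AMap_spoke hM (v := f z) ⟨f z, by simp, rfl⟩
    obtain ⟨y, rfl⟩ := AMap_lab hn (y2 ▸ h3 : c y ≠ 0)
    obtain ⟨y', rfl⟩ := AMap_lab hn (y4 ▸ h4 : c y' ≠ 0)
    have hM' := hM.comap hf hn
    rw [AMap_spokes hf, AMap_spokes hf, AMap_three hf] at hM'
    exact ⟨w, z, a, b, f ⁻¹' D, h1, h2, h3, h4, h5, fun v hv => h6 _ hv, Or.inl ⟨hM',
      fun v hv => p1 _ hv, p2, p3, ⟨y, y1, y2⟩, y', y3, y4⟩⟩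
  · obtain ⟨w, rfl⟩ := AMap_spoke hM (Or.inl ⟨f a, by simp, rfl⟩ : s(w, f a) ∈ _)
    obtain ⟨w', rfl⟩ := AMap_spoke hM (Or.inr ⟨f a, by simp, rfl⟩ : s(w', f a) ∈ _)
    have hM' := hM.comap hf hn
    rw [Set.preimage_union, AMap_spokes hf, AMap_spokes hf, AMap_spokes hf, AMap_three hf,
      AMap_two hf] at hM'
    exact ⟨w, z, a, b, f ⁻¹' D, h1, h2, h3, h4, h5, fun v hv => h6 _ hv, Or.inr (Or.inl ⟨w',
      fun e => p0 (congrArg f e), p1, hM', fun v hv => p2 _ hv, hD.le.trans p3,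
      fun e => p4 (congrArg f e), fun e => p5 (congrArg f e), p6, p7⟩)⟩
  · obtain ⟨d, hd⟩ : D.Nonempty := Set.nonempty_of_ncard_ne_zero (by omega)
    obtain ⟨w, rfl⟩ := AMap_spoke hM (Or.inl ⟨f a, by simp, rfl⟩ : s(w, f a) ∈ _)
    obtain ⟨w', rfl⟩ := AMap_spoke hM (Or.inr ⟨d, hd, rfl⟩ : s(w', d) ∈ _)
    have hM' := hM.comap hf hn
    rw [Set.preimage_union, AMap_spokes hf, AMap_spokes hf, AMap_spokes hf, AMap_three hf,
      AMap_two hf] at hM'
    exact ⟨w, z, a, b, f ⁻¹' D, h1, h2, h3, h4, h5, fun v hv => h6 _ hv, Or.inr (Or.inr ⟨w',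
      fun e => p0 (congrArg f e), p1, hM', p2, p3, p4.trans hD.ge, hD.le.trans p5⟩)⟩

/-- the characterisation of the extremal graphs from the two inclusions -/
theorem iff_of_fam (hr : 1 ≤ r) (hF : ∀ a, ∃ b, F.Adj a b)
    (P : ∀ (V : Type) [Fintype V], SimpleGraph V → Prop)
    (h1 : ∀ (V : Type) [Fintype V] (G : SimpleGraph V), P V G → F.Free G ∧ ¬ G.Colorable r)
    (h2 : ∀ (V : Type) [Fintype V] (G : SimpleGraph V), InN F r m G →
      (∀ (W : Type) [Fintype W] (H : SimpleGraph W), InN F r m H → lam H ≤ lam G) → P V G)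
    (V : Type) [Fintype V] (G : SimpleGraph V) :
    (InN F r m G ∧ ∀ (W : Type) [Fintype W] (H : SimpleGraph W), InN F r m H → lam H ≤ lam G) ↔
      (G.edgeSet.ncard = m ∧ P V G) ∧ ∀ (W : Type) [Fintype W] (H : SimpleGraph W),
        H.edgeSet.ncard = m ∧ P W H → lam H ≤ lam G := by
  refine ⟨fun ⟨a, b⟩ => ⟨⟨a.1, h2 V G a b⟩, fun W _ H hH => b W H ⟨hH.1, h1 W H hH.2⟩⟩,
    fun ⟨a, b⟩ => ?_⟩
  have hG : InN F r m G := ⟨a.1, h1 V G a.2⟩
  obtain ⟨G', g1, g2⟩ := exists_extremal hG hr hF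
  exact ⟨hG, fun W _ H hH => (g2 W H hH).trans (b _ G' ⟨g1.1, h2 _ G' g1 g2⟩)⟩

end Pool.Agent.P.MP_094db5_co
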