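import Pool.Agent.P.MP_094db5_co.AWh2

/-! Wheels: the glued clique, and the main structure theorem. -/

set_option autoImplicit false
set_option linter.unusedSectionVars false

open Finset Classical

noncomputable section

namespace Pool.Agent.P.MP_094db5_co

variable {V : Type} [Fintype V] {q C : ℕ} {G : SimpleGraph V} {x : V → ℝ} {η : ℝ} {c : V → ℕ}
  {z : V}

omit [Fintype V] in
theorem AWh3_not {o a b : V} (ho : c o = 0) (h : cross c a b) : o ∉ ({a, b} : Finset V) := by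
  rw [mem_insert, mem_singleton]
  rintro (rfl | rfl)
  exacts [h.1 ho, h.2.1 ho]

omit [Fintype V] in
theorem AWh3_two {a b : V} (h : cross c a b) : ({a, b} : Finset V).card = 2 :=
  card_pair fun e => h.2.2 (congrArg c e)

omit [Fintype V] in
theorem AWh3_three {o a b : V} (ho : c o = 0) (h : cross c a b) :
    ({o, a, b} : Finset V).card = 3 := by
  rw [card_insert_of_notMem (AWh3_not ho h), AWh3_two h]

omit [Fintype V] in
theorem AWh3_sum2 {a b : V} (h : cross c a b) : ∑ v ∈ ({a, b} : Finset V), x v = x a + x b :=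
  sum_pair fun e => h.2.2 (congrArg c e)

omit [Fintype V] in
theorem AWh3_sum3 {o a b : V} (ho : c o = 0) (h : cross c a b) :
    ∑ v ∈ ({o, a, b} : Finset V), x v = x o + (x a + x b) := by
  rw [sum_insert (AWh3_not ho h), AWh3_sum2 h]

namespace Ctx

variable (h : Ctx 3 C (fun G : SimpleGraph V => (Whl q).Free G) G x η c z) (hq : 2 ≤ q)
  (hC : 2 * q + 20 ≤ C)
include h hq hC

theorem wheel_pair (hE : ec (Xe G c) = 5) (hs : ∀ w, c w = 0 → ¬ Sees G 3 c w) :
    ∃ o w a b a' b', TgOK 3 c (Hm G c) o {a', b'} w {o, a, b} ∧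
      G = Tg c (Hm G c) o {a', b'} w {o, a, b} ∧ cross c a b ∧ c a' = c a ∧ c b' = c b := by
  have hle := h.st.le
  have hp := h.st.proper
  have hn := h.ex.nc
  have a0 : ∀ w, c w = 0 → ∃ v, c v = 0 ∧ v ≠ w ∧ 3 ≤ G.degree v := fun w hw => by
    by_contra hno
    push Not at hno
    exact hs w hw (one_heavy hle hp hn w hno)
  obtain ⟨w, hw, -, dw⟩ := a0 z h.st.z0
  obtain ⟨w', hw', hne, dw'⟩ := a0 w hw
  have a1 : ∀ v, c v = 0 → v ≠ w → v ≠ w' → G.degree v < 3 := fun v hv h1 h2 => by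
    by_contra hd
    have b1 := heavy_count G c (r := 3) {v, w, w'} (by simp [hv, hw, hw', dw, dw', not_lt.1 hd])
    rw [card_insert_of_notMem (by simp [h1, h2]), card_pair hne.symm,
      show (Xe G c).edgeSet.ncard = 5 from hE] at b1
    norm_num at b1
  have a2 : ∀ u u' : V, (∀ v, c v = 0 → v ≠ u → v ≠ u' → G.degree v < 3) → ∀ i ∈ Icc 1 3,
      (∀ x, G.Adj u x → c x ≠ i) → Sees G 3 (Function.update c u i) u' := fun u u' h1 i hi h2 => by
    have := mem_Icc.1 hi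
    exact one_heavy (fun v => by grind) (hp.update h2) hn u' fun v h3 h4 =>
      h1 v (by grind) (by grind) h4
  have a3 := hs w hw
  have a4 := hs w' hw'
  unfold Sees at a3 a4
  push Not at a3 a4
  obtain ⟨i, hi, a3⟩ := a3
  obtain ⟨i', hi', a4⟩ := a4
  have a5 := a2 w w' a1 i hi fun x h e => a3 x e h
  have a6 := a2 w' w (fun v h1 h2 h3 => a1 v h1 h3 h2) i' hi' fun x h e => a4 x e h
  obtain ⟨a7, a8⟩ : i' = i ∧ G.Adj w' w := by
    obtain ⟨x, h1, h2⟩ := a5 i' hi'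
    have := a4 x
    grind
  subst a7
  obtain ⟨j, l, hj, hl, hji, hli, hjl⟩ := exists_third le_rfl i'
  obtain ⟨a, ha, hwa⟩ := a6 j hj
  obtain ⟨b, hb, hwb⟩ := a6 l hl
  obtain ⟨a', ha', hwa'⟩ := a5 j hj
  obtain ⟨b', hb', hwb'⟩ := a5 l hl
  replace ha : c a = j := by grind
  replace hb : c b = l := by grind
  replace ha' : c a' = j := by grind
  replace hb' : c b' = l := by grind
  have := mem_Icc.1 hj
  have := mem_Icc.1 hl
  have hab : cross c a b := ⟨by omega, by omega, by omega⟩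
  have hab' : cross c a' b' := ⟨by omega, by omega, by omega⟩
  have ok : TgOK 3 c (Hm G c) w' {a', b'} w {w', a, b} :=
    ⟨hle, Hm_le G c, hw', hw, hne, by simp [hab'.1, hab'.2.1], by simp [hab.1, hab.2.1]⟩
  exact ⟨w', w, a, b, a', b', ok, eq_Tg hp ok (by simp [hwa', hwb']) (by simp [a8.symm, hwa, hwb])
    (by rw [AWh3_two hab', AWh3_three hw' hab, hE]), hab, by omega, by omega⟩

omit hC in
theorem AWh3_move {o w a b a' b' s t : V} (ok : TgOK 3 c (Hm G c) o {a', b'} w {o, a, b})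
    (e : G = Tg c (Hm G c) o {a', b'} w {o, a, b}) (hab : cross c a b) (ha : c a' = c a)
    (hb : c b' = c b) (hs : c s = c a) (ht : c t = c b) (h1 : x a ≤ x s) (h2 : x a' ≤ x s)
    (h3 : x b ≤ x t) (h4 : x b' ≤ x t) : a = s ∧ a' = s ∧ b = t ∧ b' = t := by
  have hab' : cross c a' b' := by rw [cross, ha, hb]; exact hab
  have hst : cross c s t := by rw [cross, hs, ht]; exact hab
  have r3 := h.rC
  have ad := admW2 hq ok.le ok.hH (fun i hi => by have := h.room hi; omega) ok.o0 ok.w0 ok.ow hst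
  have xo : 0 < x o := h.st.eig.pos_of_adj (v := a') (by
    rw [e, Tg_adj]
    exact Or.inr (Or.inl ⟨fun e' => hab'.1 (e' ▸ ok.o0), Or.inl ⟨rfl, by simp⟩⟩))
    (by linarith [h.pos hab'.1])
  have xw : 0 < x w := h.st.eig.pos_of_adj (v := o) (by
    rw [e, Tg_adj]
    exact Or.inr (Or.inr ⟨ok.ow.symm, Or.inl ⟨rfl, by simp⟩⟩)) xo
  have e1 := ok.ec_eq
  have e2 := ad.ok.ec_eq
  rw [← e, AWh3_two hab', AWh3_three ok.o0 hab] at e1
  rw [AWh3_two hst, AWh3_three ok.o0 hst] at e2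
  have q1 := ok.qf_eq x
  have q2 := ad.ok.qf_eq x
  rw [← e, AWh3_sum2 hab', AWh3_sum3 ok.o0 hab] at q1
  rw [AWh3_sum2 hst, AWh3_sum3 ok.o0 hst] at q2
  have wk := h.ex.weak h.st.eig (by omega) ad.fr ad.nc (by
    rw [q1, q2]
    linarith [mul_le_mul_of_nonneg_left (add_le_add h2 h4) xo.le,
      mul_le_mul_of_nonneg_left (add_le_add h1 h3) xw.le])
  have key : ∀ u, c u ≠ 0 → u ∈ ({a', b'} : Finset V) ∨ u ∈ ({o, a, b} : Finset V) →
      u = s ∨ u = t := fun u hu hm => by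
    by_contra hno
    have o1 := ok.op_eq x hu
    have o2 := ad.ok.op_eq x hu
    have n1 : u ≠ o := fun e' => hu (e' ▸ ok.o0)
    rw [not_or] at hno
    rw [← e] at o1
    rw [wk u, if_neg (by simp [hno.1, hno.2]), if_neg (by simp [hno.1, hno.2, n1])] at o2
    rcases hm with hm | hm
    · rw [if_pos hm] at o1
      split_ifs at o1 <;> linarith
    · rw [if_pos hm] at o1
      split_ifs at o1 <;> linarith
  have := hab.2.2
  exact ⟨(key a hab.1 (by simp)).resolve_right fun e' => this (e' ▸ ht),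
    (key a' hab'.1 (by simp)).resolve_right fun e' => this (by rw [← ha, e', ht]),
    (key b hab.2.1 (by simp)).resolve_left fun e' => this (by rw [e', hs]),
    (key b' hab'.2.1 (by simp)).resolve_left fun e' => this (by rw [← hb, e', hs])⟩

theorem wheel_glue (hE : ec (Xe G c) = 5) (hs : ∀ w, c w = 0 → ¬ Sees G 3 c w) :
    ∃ o w a b, TgOK 3 c (Hm G c) o {a, b} w {o, a, b} ∧ G = Tg c (Hm G c) o {a, b} w {o, a, b} ∧
      cross c a b ∧ (∀ u, ¬ (Hm G c).Adj a u) ∧ ∀ u, ¬ (Hm G c).Adj b u := by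
  obtain ⟨o, w, a, b, a', b', ok, e, hab, ha, hb⟩ := h.wheel_pair hq hC hE hs
  obtain ⟨s, s1, s2, s3⟩ : ∃ s, c s = c a ∧ x a ≤ x s ∧ x a' ≤ x s :=
    (le_total (x a) (x a')).elim (fun h => ⟨a', ha, h, le_rfl⟩) fun h => ⟨a, rfl, le_rfl, h⟩
  obtain ⟨t, t1, t2, t3⟩ : ∃ t, c t = c b ∧ x b ≤ x t ∧ x b' ≤ x t :=
    (le_total (x b) (x b')).elim (fun h => ⟨b', hb, h, le_rfl⟩) fun h => ⟨b, rfl, le_rfl, h⟩
  obtain ⟨rfl, rfl, rfl, rfl⟩ := h.AWh3_move hq ok e hab ha hb s1 t1 s2 s3 t2 t3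
  have fr : ∀ v u, (Hm G c).Adj v u → ∃ y, c y = c v ∧ x v < x y := fun v u hv => by
    have := h.room (i := c v) (mem_Icc.2 ⟨Nat.pos_of_ne_zero hv.1.1, h.st.le v⟩)
    obtain ⟨y, y1, -, y2⟩ := exists_fresh (c := c) (Hm G c) ∅ (i := c v) (by
      rw [card_empty]; omega)
    exact ⟨y, y1, h.lt_of_fresh (by omega) hv y1 y2⟩
  refine ⟨o, w, _, _, ok, e, hab, fun u hu => ?_, fun u hu => ?_⟩
  · obtain ⟨y, y1, y2⟩ := fr _ u hu
    exact y2.ne (congrArg x (h.AWh3_move hq ok e hab rfl rfl y1 rfl y2.le y2.le le_rfl le_rfl).1)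
  · obtain ⟨y, y1, y2⟩ := fr _ u hu
    exact y2.ne
      (congrArg x (h.AWh3_move hq ok e hab rfl rfl rfl y1 le_rfl le_rfl y2.le y2.le).2.2.1)

theorem wheel_type2 (hE : ec (Xe G c) = 5) (hk : ec (Hm G c) ≤ 2)
    (hs : ∀ w, c w = 0 → ¬ Sees G 3 c w) : FamW G c := by
  obtain ⟨o, w, a, b, ok, e, hab, ha, hb⟩ := h.wheel_glue hq hC hE hs
  have c5 : ({a, b} : Finset V).card + ({o, a, b} : Finset V).card = ec (Xe G c) := by
    rw [AWh3_two hab, AWh3_three ok.o0 hab, hE]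
  obtain ⟨y, y0, ya, yb, st⟩ : ∃ y, c y ≠ 0 ∧ y ≠ a ∧ y ≠ b ∧
      ∀ u v, (Hm G c).Adj u v → u = y ∨ v = y := by
    rcases Nat.eq_zero_or_pos (ec (Hm G c)) with k0 | k0
    · have := h.room (i := 1) (by simp)
      obtain ⟨y, y1, y2, -⟩ := exists_fresh (c := c) (Hm G c) {a, b} (i := 1) (by
        rw [AWh3_two hab]; omega)
      rw [mem_insert, mem_singleton, not_or] at y2
      exact ⟨y, by omega, y2.1, y2.2, fun u v huv => by simp [ec_eq_zero.1 k0] at huv⟩
    obtain ⟨u₀, v₀, h0⟩ := exists_adj_of_ec k0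
    obtain ⟨y, st⟩ : ∃ y, ∀ u v, (Hm G c).Adj u v → u = y ∨ v = y := by
      rcases Nat.lt_or_ge (ec (Hm G c)) 2 with k1 | k1
      · refine ⟨u₀, fun u v huv => ?_⟩
        rw [eq_Sg_of_ec (H := Hm G c) (a := u₀) (D := {v₀}) (by simpa using h0) (by simp; omega)] at huv
        exact huv.2.imp And.left And.left
      refine h.star (by omega) k1 (fun i hi j hj hij hle => ?_) False (fun f => f.elim)
        fun y D hD hc _ => ?_
      · have := h.gap bot_le c5 (by omega) (fun c' H h1 h2 h3 _ h5 h6 =>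
          admW2 hq h1 h5 h6 ((h2 o).2 ok.o0) ((h2 w).2 ok.w0) ok.ow (by
            rw [cross, h3 a (by simp), h3 b (by simp)]; exact hab)) hi hj hij hle
        rw [ec_bot] at this
        omega
      · refine ⟨o, {a, b}, w, {o, a, b}, admW2 hq ok.le (Sg_le hD) (fun i hi => ?_) ok.o0 ok.w0
          ok.ow hab, c5, ?_⟩
        · have := h.room hi
          rw [ec_Sg fun hy => (hD y hy).2.2 rfl]
          omega
        · rw [erase_insert (AWh3_not ok.o0 hab), AWh3_two hab]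
          have nb : ∀ u, c u = 0 → ∀ v ∈ nT G c u, (u = o ∨ u = w) ∧ (v = a ∨ v = b) :=
            fun u hu v hv => by
              obtain ⟨h1, h2⟩ := mem_nT.1 hv
              rw [e, Tg_adj] at h1
              have := ok.o0
              have := ok.w0
              simp only [cross, mem_insert, mem_singleton] at h1
              grind
          have nc : ∀ u, c u = 0 → dT G c u ^ 2 ≤ 2 ^ 2 := fun u hu =>
            Nat.pow_le_pow_left ((card_le_card fun v hv => by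
              simpa using (nb u hu v hv).2).trans (card_le_two (a := a) (b := b))) 2
          refine (sum_le_sum_of_ne_zero (t := {o, w}) fun u hu h0 => ?_).trans ?_
          · obtain ⟨v, hv⟩ := card_ne_zero.1 (ne_zero_pow two_ne_zero h0)
            simpa using (nb u (mem_Vp.1 hu) v hv).1
          · rw [sum_pair ok.ow]
            exact add_le_add (nc o ok.o0) (nc w ok.w0)
    obtain ⟨v, hv⟩ : ∃ v, (Hm G c).Adj y v :=
      (st _ _ h0).elim (fun e' => ⟨v₀, e' ▸ h0⟩) fun e' => ⟨u₀, e' ▸ h0.symm⟩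
    exact ⟨y, hv.1.1, fun e' => ha v (e' ▸ hv), fun e' => hb v (e' ▸ hv), st⟩
  have es := eq_Sg_of_star st
  obtain ⟨D, hD⟩ : ∃ D, D = univ.filter fun v => (Hm G c).Adj y v := ⟨_, rfl⟩
  have mD : ∀ v ∈ D, (Hm G c).Adj y v := fun v hv => by simpa [hD] using hv
  have yD : y ∉ D := fun hy => (mD y hy).ne rfl
  rw [← hD] at es
  have mp := h.mp_star (es ▸ ok) yD (es ▸ e)
  rw [es, ec_Sg yD] at hk
  refine ⟨w, y, a, b, D, ok.w0, y0, hab.1, hab.2.1, hab.2.2, fun v hv => (mD v hv).1.2.1,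
    Or.inr (Or.inl ⟨o, ok.ow, ok.o0, by simpa using mp, fun v hv => (mD v hv).1.2.2.symm,
      by rwa [Set.ncard_coe_finset], ya, yb, fun hv => ha y (mD a hv).symm,
      fun hv => hb y (mD b hv).symm⟩)⟩

theorem wheel_fam : ∃ c', FamW G c' ∧ NI G c' := by
  rcases le_or_gt (ec (Hm G c) + 6) (ec (Xe G c)) with h1 | h1
  · by_cases hz : Sees G 3 c z
    · exact (h.wheel_sees hq hC hz h1).elim
    obtain ⟨l, hl, hz'⟩ : ∃ l ∈ Icc 1 3, ∀ v ∈ nT G c z, c v ≠ l := by
      by_contra hn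
      push Not at hn
      exact hz fun l hl => let ⟨v, hv, e⟩ := hn l hl; ⟨v, e, (mem_nT.1 hv).1⟩
    exact h.wheel_avoid hq hC hl hz' h1
  refine ⟨c, ?_, h.ni⟩
  rcases h.wheel_E hq hC (by omega) with e | ⟨e, e'⟩ | ⟨e, e'⟩
  · exact h.wheel_three hq hC e
  · obtain ⟨w, hw, hs⟩ := h.sees_small (by omega)
    exact h.wheel_type3 hq hC hw hs e'.le (Or.inl e)
  · by_cases hs : ∃ w, c w = 0 ∧ Sees G 3 c w
    · obtain ⟨w, hw, hs⟩ := hs
      exact h.wheel_type3 hq hC hw hs e' (Or.inr e)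
    · exact h.wheel_type2 hq hC e e' fun w hw a => hs ⟨w, hw, a⟩

end Ctx

end Pool.Agent.P.MP_094db5_co
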