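import Pool.Agent.P.MP_094db5_co.AFin
import Pool.Agent.P.MP_094db5_co.ABk3
import Pool.Agent.P.MP_094db5_co.AWh3
import Pool.Agent.P.MP_094db5_co.AMap
import Pool.Agent.P.MP_094db5_co.AAdm

/-! The structure theorems. -/

set_option autoImplicit false

open Finset Classical

noncomputable section

namespace Pool.Agent.P.MP_094db5_co

theorem exists_ctx {r : ℕ} (hr : 3 ≤ r) (D t C : ℕ) (hC : r ≤ C) : ∃ m₀ : ℕ,
    ∀ (V : Type) [Fintype V] (Fr : SimpleGraph V → Prop) (G : SimpleGraph V), Cls r D t Fr →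
      Ex r Fr G → m₀ ≤ ec G → ∃ x η c z, Ctx r C Fr G x η c z := by
  have h0 : (0 : ℝ) < 10 ^ 5 * C ^ 5 := by
    have : 0 < C := by omega
    positivity
  obtain ⟨M, h⟩ := exists_st hr D t (one_div_pos.2 h0)
  refine ⟨⌈M⌉₊, fun V _ Fr G h1 h2 h3 => ?_⟩
  have h4 := Nat.ceil_le.1 h3
  have h5 : (0 : ℝ) ≤ ec G := Nat.cast_nonneg _
  obtain ⟨x, c, z, hs⟩ := h V Fr G h1 h2 (by rw [Mo_ec]; linarith)
  exact ⟨x, _, c, z, h2, hs, hr, hC, one_div_pos.2 h0, (mul_one_div_cancel h0.ne').le⟩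

theorem book_all {r : ℕ} (hr : 3 ≤ r) (t : ℕ) : ∃ m₀ : ℕ, ∀ m, m₀ ≤ m →
    ∀ (V : Type) [Fintype V] (G : SimpleGraph V),
    (InN (join (⊤ : SimpleGraph (Fin r)) (⊥ : SimpleGraph (Fin (t + 1)))) r m G ∧
      ∀ (W : Type) [Fintype W] (H : SimpleGraph W),
        InN (join (⊤ : SimpleGraph (Fin r)) (⊥ : SimpleGraph (Fin (t + 1)))) r m H →
          lam H ≤ lam G) ↔
    (G.edgeSet.ncard = m ∧ ∃ c, FamB r t G c) ∧ ∀ (W : Type) [Fintype W] (H : SimpleGraph W),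
      (H.edgeSet.ncard = m ∧ ∃ c, FamB r t H c) → lam H ≤ lam G := by
  obtain ⟨m₀, h⟩ := exists_ctx hr t (t + 1) (4 * r * (t + 1)) (by nlinarith)
  have hF : ∀ a, ∃ b, (join (⊤ : SimpleGraph (Fin r)) (⊥ : SimpleGraph (Fin (t + 1)))).Adj a b := by
    rintro (a | a)
    · exact ⟨Sum.inr 0, by simp [join]⟩
    · exact ⟨Sum.inl ⟨0, by omega⟩, by simp [join]⟩
  refine ⟨m₀, fun m hm => iff_of_fam (by omega) hF (fun V _ G => ∃ c, FamB r t G c)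
    (fun V _ G ⟨c, hc⟩ => ⟨free_of_noBook (hc.noBook hr), hc.nc hr⟩) fun V _ G h1 h2 => ?_⟩
  obtain ⟨h3, h4⟩ := ex_of_extremal h1 (by omega) hF h2
  obtain ⟨x, η, c, z, hc⟩ := h _ (fun G => NoBook G r t) _ (cls_book hr t)
    ⟨noBook_of_free h3.fr, h3.nc, fun H a b => h3.max H a (free_of_noBook b), h3.iso⟩ (hm.trans h4.ge)
  obtain ⟨c', h5, h6⟩ := hc.book_fam le_rfl
  exact ⟨_, h5.comap Sum.inl_injective (by omega) h6⟩

theorem wheel_all {q : ℕ} (hq : 2 ≤ q) : ∃ m₀ : ℕ, ∀ m, m₀ ≤ m →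
    ∀ (V : Type) [Fintype V] (G : SimpleGraph V),
    (InN (Whl q) 3 m G ∧ ∀ (W : Type) [Fintype W] (H : SimpleGraph W),
      InN (Whl q) 3 m H → lam H ≤ lam G) ↔
    (G.edgeSet.ncard = m ∧ ∃ c, FamW G c) ∧ ∀ (W : Type) [Fintype W] (H : SimpleGraph W),
      (H.edgeSet.ncard = m ∧ ∃ c, FamW H c) → lam H ≤ lam G := by
  obtain ⟨m₀, h⟩ := exists_ctx le_rfl (2 * q) (2 * q + 3) (2 * q + 20) (by omega)
  have hF : ∀ a, ∃ b, (Whl q).Adj a b := by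
    rintro (a | a)
    · exact ⟨Sum.inr 0, by simp [join]⟩
    · exact ⟨Sum.inl 0, by simp [join]⟩
  refine ⟨m₀, fun m hm => iff_of_fam (by omega) hF (fun V _ G => ∃ c, FamW G c)
    (fun V _ G ⟨c, hc⟩ => ⟨hc.free hq, hc.nc⟩) fun V _ G h1 h2 => ?_⟩
  obtain ⟨h3, h4⟩ := ex_of_extremal h1 (by omega) hF h2
  obtain ⟨x, η, c, z, hc⟩ := h _ _ _ (cls_wheel hq) h3 (hm.trans h4.ge)
  obtain ⟨c', h5, h6⟩ := hc.wheel_fam hq le_rfl
  exact ⟨_, h5.comap Sum.inl_injective h6⟩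

end Pool.Agent.P.MP_094db5_co
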