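import Pool.Agent.P.MP_094db5_co.ATg

/-! Targets are not colourable; transversals; the common gadget. -/

set_option autoImplicit false

open Finset Classical

noncomputable section

namespace Pool.Agent.P.MP_094db5_co

variable {V : Type} [Fintype V] {r D t : ℕ} {c : V → ℕ} {H G : SimpleGraph V} {o w : V}
  {S X : Finset V} {Fr : SimpleGraph V → Prop}

theorem card_supp_le (H : SimpleGraph V) :
    (univ.filter fun v => ∃ u, H.Adj v u).card ≤ 2 * ec H := by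
  have b1 : ((univ.filter fun v => ∃ u, H.Adj v u).card : ℝ) ≤ Mo H := by
    rw [card_filter, Mo, S2]
    push_cast
    refine sum_le_sum fun v _ => ?_
    split_ifs with e
    · obtain ⟨u, hu⟩ := e
      have := single_le_sum (fun u _ => ad_nonneg H v u) (mem_univ u)
      rwa [ad, if_pos hu] at this
    · exact sum_nonneg fun u _ => ad_nonneg _ v u
  rw [Mo_ec] at b1
  exact_mod_cast b1

theorem exists_fresh (H : SimpleGraph V) (B : Finset V) {i : ℕ} (h : B.card + 2 * ec H < cn c i) :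
    ∃ y, c y = i ∧ y ∉ B ∧ ∀ u, ¬ H.Adj y u := by
  have a1 := card_supp_le H
  have a2 := card_union_le B (univ.filter fun v => ∃ u, H.Adj v u)
  obtain ⟨y, h1, h2⟩ := exists_mem_notMem_of_card_lt_card
    (s := B ∪ univ.filter fun v => ∃ u, H.Adj v u) (t := Vp c i) (by rw [card_Vp]; omega)
  rw [mem_union, not_or] at h2
  exact ⟨y, mem_Vp.1 h1, h2.1, fun u hu => h2.2 (mem_filter.2 ⟨mem_univ _, u, hu⟩)⟩

/-- every colouring agrees with the labels -/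
theorem rigid_of (hc : ∀ v, c v ≤ r) (hle : Kc c \ H ≤ G)
    (hb : ∀ i ∈ Icc 1 r, 2 * ec H < cn c i) (h : G.Colorable r) :
    ∃ e : V → ℕ, (∀ u, e u ∈ Icc 1 r) ∧ (∀ v, c v ≠ 0 → e v = c v) ∧
      ∀ u v, G.Adj u v → e u ≠ e v := by
  obtain ⟨φ⟩ := h
  have : ∀ i : Icc 1 r, ∃ y, c y = i ∧ ∀ u, ¬ H.Adj y u := fun i => by
    obtain ⟨y, h1, _, h2⟩ := exists_fresh (c := c) (i := i) H ∅ (by simpa using hb i i.2)
    exact ⟨y, h1, h2⟩
  choose y hy hyZ using this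
  have hadj : ∀ (i : Icc 1 r) v, c v ≠ 0 → c v ≠ i → G.Adj (y i) v := fun i v h1 h2 => by
    have := mem_Icc.1 i.2
    refine hle ((SimpleGraph.sdiff_adj _ _ _ _).2 ⟨⟨?_, h1, ?_⟩, hyZ i v⟩)
    · rw [hy]; omega
    · rw [hy]; omega
  have hinj : Function.Injective fun i => φ (y i) := fun i j e => by
    by_contra hij
    have := mem_Icc.1 j.2
    exact φ.valid (hadj i (y j) (by rw [hy]; omega) (by
      rw [hy]; exact fun a => hij (Subtype.ext a).symm)) e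
  choose g hg using ((Fintype.bijective_iff_injective_and_card _).2 ⟨hinj, by simp⟩).2
  refine ⟨fun u => g (φ u), fun u => (g (φ u)).2, fun v hv => ?_, fun u v huv e => ?_⟩
  · by_contra hne
    exact φ.valid (hadj (g (φ v)) v hv (Ne.symm hne)) (hg _)
  · exact φ.valid huv (by rw [← hg (φ u), ← hg (φ v), Subtype.ext e])

theorem TgOK.nc1 (h : TgOK r c H o S w X) (hb : ∀ i ∈ Icc 1 r, 2 * ec H < cn c i)
    (hX : ∀ i ∈ Icc 1 r, ∃ v ∈ X, c v = i) : ¬ (Tg c H o S w X).Colorable r := by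
  intro hcol
  obtain ⟨e, e1, e2, e3⟩ := rigid_of h.le (le_sup_left.trans le_sup_left) hb hcol
  obtain ⟨v, hv, hv'⟩ := hX _ (e1 w)
  have a1 := mem_Icc.1 (e1 w)
  have a2 : c v ≠ 0 := by omega
  have a3 : w ≠ v := fun a => a2 (a ▸ h.w0)
  exact e3 w v (Or.inr ⟨a3, Or.inl ⟨rfl, hv⟩⟩) (by rw [e2 v a2, hv'])

theorem TgOK.nc2 (h : TgOK r c H o S w X) (hb : ∀ i ∈ Icc 1 r, 2 * ec H < cn c i) (ho : o ∈ X)
    {l : ℕ} (hS : ∀ i ∈ Icc 1 r, i ≠ l → ∃ v ∈ S, c v = i)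
    (hX : ∀ i ∈ Icc 1 r, i ≠ l → ∃ v ∈ X, c v = i) : ¬ (Tg c H o S w X).Colorable r := by
  intro hcol
  obtain ⟨e, e1, e2, e3⟩ := rigid_of h.le (le_sup_left.trans le_sup_left) hb hcol
  have b1 : e w = l := by
    by_contra hne
    obtain ⟨v, hv, hv'⟩ := hX _ (e1 w) hne
    have a1 := mem_Icc.1 (e1 w)
    have a2 : c v ≠ 0 := by omega
    have a3 : w ≠ v := fun a => a2 (a ▸ h.w0)
    exact e3 w v (Or.inr ⟨a3, Or.inl ⟨rfl, hv⟩⟩) (by rw [e2 v a2, hv'])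
  have b2 : e o = l := by
    by_contra hne
    obtain ⟨v, hv, hv'⟩ := hS _ (e1 o) hne
    have a1 := mem_Icc.1 (e1 o)
    have a2 : c v ≠ 0 := by omega
    have a3 : o ≠ v := fun a => a2 (a ▸ h.o0)
    exact e3 o v (Or.inl (Or.inr ⟨a3, Or.inl ⟨rfl, hv⟩⟩)) (by rw [e2 v a2, hv'])
  exact e3 w o (Or.inr ⟨h.ow.symm, Or.inl ⟨rfl, ho⟩⟩) (by rw [b1, b2])

omit [Fintype V] in
/-- labels for the target without `w` -/
theorem TgOK.labels (h : TgOK r c H o S w X) {l : ℕ} (hl : l ∈ Icc 1 r) (hS : ∀ v ∈ S, c v ≠ l) :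
    ∃ e : V → ℕ, (∀ u, e u ∈ Icc 1 r) ∧ (∀ v, c v ≠ 0 → e v = c v) ∧ e o = l ∧
      ∀ u v, (Kc c \ H ⊔ Sg o S).Adj u v → e u ≠ e v := by
  refine ⟨fun v => if c v = 0 then l else c v, fun u => ?_, fun v hv => if_neg hv, if_pos h.o0,
    fun u v huv => ?_⟩
  · by_cases e : c u = 0
    · simpa only [if_pos e] using hl
    · simpa only [if_neg e] using mem_Icc.2 ⟨Nat.pos_of_ne_zero e, h.le u⟩
  · rcases huv with ⟨⟨a1, a2, a3⟩, _⟩ | ⟨_, ⟨rfl, a2⟩ | ⟨rfl, a2⟩⟩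
    · simpa only [if_neg a1, if_neg a2] using a3
    · simpa only [if_pos h.o0, if_neg (h.hS _ a2)] using (hS _ a2).symm
    · simpa only [if_pos h.o0, if_neg (h.hS _ a2)] using hS _ a2

theorem TgOK.gad (h : TgOK r c H o S w X) (hC : Cls r D t Fr) {l : ℕ} (hl : l ∈ Icc 1 r)
    (hS : ∀ v ∈ S, c v ≠ l) (hX : X.card ≤ r) {a : V} (ha : a ∈ X)
    (hn : ∀ b ∈ X, ¬ (Tg c H o S w X).Adj a b) : Fr (Tg c H o S w X) := by
  obtain ⟨e, e1, _, _, e4⟩ := h.labels hl hS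
  refine hC.gad (Kc c \ H ⊔ Sg o S) w a X (colorable_of_labels e e1 e4) (fun v hv => ?_) hX ha
    fun b hb hab => hn b hb (Or.inl hab)
  rcases hv with ⟨⟨a1, _⟩, _⟩ | ⟨_, ⟨a1, _⟩ | ⟨_, a2⟩⟩
  · exact a1 h.w0
  · exact h.ow a1.symm
  · exact h.hS _ a2 h.w0

omit [Fintype V] in
theorem Trans.card (h : Trans r c X) (hc : ∀ v, c v ≤ r) : X.card = r := by
  have a1 : X.image c = Icc 1 r := by
    ext i
    rw [mem_image]
    constructor
    · rintro ⟨v, hv, rfl⟩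
      exact mem_Icc.2 ⟨Nat.pos_of_ne_zero (h.1 v hv), hc v⟩
    · exact h.2.1 i
  rw [← card_image_of_injOn (f := c) fun u hu v hv => h.2.2 u hu v hv, a1, Nat.card_Icc,
    add_tsub_cancel_right]

omit [Fintype V] in
theorem trans_of_card (hX : X.card ≤ r) (h : ∀ i ∈ Icc 1 r, ∃ v ∈ X, c v = i) : Trans r c X := by
  have a1 : Icc 1 r ⊆ X.image c := fun i hi => mem_image.2 (h i hi)
  have a2 : (X.image c).card ≤ X.card := card_image_le
  have a3 : (Icc 1 r).card = r := by simp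
  have a4 := card_le_card a1
  have a5 := eq_of_subset_of_card_le a1 (by omega)
  have a6 := card_image_iff.1 (show (X.image c).card = X.card by omega)
  refine ⟨fun v hv => ?_, h, fun u hu v hv => a6 hu hv⟩
  have := mem_Icc.1 (a5 ▸ mem_image_of_mem c hv)
  omega

omit [Fintype V] in
theorem anc_reps (c : V → ℕ) (I : Finset ℕ) (h : ∀ i ∈ I, ∃ v ∈ S, c v = i) :
    ∃ Y ⊆ S, Y.card = I.card ∧ (∀ v ∈ Y, c v ∈ I) ∧ (∀ i ∈ I, ∃ v ∈ Y, c v = i) ∧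
      ∀ u ∈ Y, ∀ v ∈ Y, c u = c v → u = v := by
  choose g g1 g2 using h
  have hinj : Function.Injective fun i : I => g i.1 i.2 := fun i j e =>
    Subtype.ext (by rw [← g2 i.1 i.2, ← g2 j.1 j.2]; exact congrArg c e)
  refine ⟨I.attach.image fun i => g i.1 i.2, fun v hv => ?_, ?_, fun v hv => ?_, fun i hi => ?_,
    fun u hu v hv e => ?_⟩
  · obtain ⟨i, _, rfl⟩ := mem_image.1 hv
    exact g1 _ _
  · rw [card_image_of_injective _ hinj, card_attach]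
  · obtain ⟨i, _, rfl⟩ := mem_image.1 hv
    rw [g2]; exact i.2
  · exact ⟨g i hi, mem_image.2 ⟨⟨i, hi⟩, mem_attach _ _, rfl⟩, g2 i hi⟩
  · obtain ⟨i, _, rfl⟩ := mem_image.1 hu
    obtain ⟨j, _, rfl⟩ := mem_image.1 hv
    rw [g2, g2] at e
    rw [Subtype.ext e]

theorem exists_trans (hc : ∀ v, c v ≤ r) {Y : Finset V} (B : Finset V) (h0 : ∀ v ∈ Y, c v ≠ 0)
    (h1 : ∀ u ∈ Y, ∀ v ∈ Y, c u = c v → u = v) (hB : ∀ i ∈ Icc 1 r, B.card < cn c i) :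
    ∃ X, Trans r c X ∧ Y ⊆ X ∧ ∀ v ∈ X, v ∈ Y ∨ v ∉ B := by
  obtain ⟨X, x1, _, x3, x4, x5⟩ := anc_reps
    (S := Y ∪ univ.filter fun v => v ∉ B ∧ ∀ u ∈ Y, c u ≠ c v) c (Icc 1 r) fun i hi => by
      by_cases e : ∃ v ∈ Y, c v = i
      · obtain ⟨v, hv, hv'⟩ := e
        exact ⟨v, mem_union_left _ hv, hv'⟩
      · obtain ⟨y, y1, y2⟩ := exists_mem_notMem_of_card_lt_card (s := B) (t := Vp c i) (hB i hi)
        have y3 := mem_Vp.1 y1
        exact ⟨y, mem_union_right _ (mem_filter.2 ⟨mem_univ _, y2,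
          fun u hu a => e ⟨u, hu, a.trans y3⟩⟩), y3⟩
  refine ⟨X, ⟨fun v hv => ?_, x4, x5⟩, fun y hy => ?_, fun v hv => ?_⟩
  · have := mem_Icc.1 (x3 v hv)
    omega
  · obtain ⟨v, hv, hv'⟩ := x4 (c y) (mem_Icc.2 ⟨Nat.pos_of_ne_zero (h0 y hy), hc y⟩)
    rcases mem_union.1 (x1 hv) with a | a
    · rwa [← h1 v a y hy hv']
    · exact absurd hv'.symm ((mem_filter.1 a).2.2 y hy)
  · exact (mem_union.1 (x1 hv)).imp_right fun a => (mem_filter.1 a).2.1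

omit [Fintype V] in
theorem Trans.switch (h : Trans r c X) {a b : V} (ha : a ∈ X) (hab : c b = c a) :
    Trans r c (insert b (X.erase a)) := by
  obtain ⟨h1, h2, h3⟩ := h
  refine ⟨fun v hv => ?_, fun i hi => ?_, fun u hu v hv huv => ?_⟩
  · rcases mem_insert.1 hv with rfl | a1
    · exact hab ▸ h1 a ha
    · exact h1 v (mem_of_mem_erase a1)
  · obtain ⟨v, hv, hv'⟩ := h2 i hi
    by_cases e : v = a
    · exact ⟨b, mem_insert_self _ _, by rw [hab, ← e, hv']⟩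
    · exact ⟨v, mem_insert_of_mem (mem_erase.2 ⟨e, hv⟩), hv'⟩
  · rcases mem_insert.1 hu with rfl | a1 <;> rcases mem_insert.1 hv with rfl | a2
    · rfl
    · exact absurd (h3 v (mem_of_mem_erase a2) a ha (huv.symm.trans hab)) (ne_of_mem_erase a2)
    · exact absurd (h3 u (mem_of_mem_erase a1) a ha (huv.trans hab)) (ne_of_mem_erase a1)
    · exact h3 u (mem_of_mem_erase a1) v (mem_of_mem_erase a2) huv

omit [Fintype V] in
/-- representatives inside a set that meets the parts in `I` -/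
theorem exists_reps (c : V → ℕ) (I : Finset ℕ) (h : ∀ i ∈ I, ∃ v ∈ S, c v = i) :
    ∃ Y ⊆ S, Y.card = I.card ∧ (∀ v ∈ Y, c v ∈ I) ∧ (∀ i ∈ I, ∃ v ∈ Y, c v = i) ∧
      ∀ u ∈ Y, ∀ v ∈ Y, c u = c v → u = v := by
  exact anc_reps c I h

/-- the common gadget -/
theorem Cls.adm (hC : Cls r D t Fr) (hr : 1 ≤ r) (hc : ∀ v, c v ≤ r)
    (hb : ∀ i ∈ Icc 1 r, 2 * r < cn c i) (ho : c o = 0) (hw : c w = 0) (how : o ≠ w) {l : ℕ}
    (hl : l ∈ Icc 1 r) (hS : S ⊆ Out c l) :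
    ∃ H X, Adm r Fr c H o S w X ∧ X.card = r ∧ ec H + 1 = r := by
  obtain ⟨X, hX, -, -⟩ := exists_trans (Y := ∅) hc ∅ (by simp) (by simp)
    fun i hi => by have := hb i hi; simp only [card_empty]; omega
  have hcard := hX.card hc
  obtain ⟨a, ha, -⟩ := hX.2.1 1 (mem_Icc.2 ⟨le_rfl, hr⟩)
  have he : ec (Sg a (X.erase a)) + 1 = r := by
    rw [ec_Sg (notMem_erase a X), card_erase_add_one ha, hcard]
  have ok : TgOK r c (Sg a (X.erase a)) o S w X := by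
    refine ⟨hc, fun u v huv => ?_, ho, hw, how, fun v hv => (mem_Out.1 (hS hv)).1,
      fun v hv => Or.inl (hX.1 v hv)⟩
    obtain ⟨a1, ⟨rfl, a2⟩ | ⟨rfl, a2⟩⟩ := huv
    · exact ⟨hX.1 _ ha, hX.1 _ (mem_of_mem_erase a2),
        fun e => a1 (hX.2.2 _ ha _ (mem_of_mem_erase a2) e)⟩
    · exact ⟨hX.1 _ (mem_of_mem_erase a2), hX.1 _ ha,
        fun e => a1 (hX.2.2 _ (mem_of_mem_erase a2) _ ha e)⟩
  refine ⟨Sg a (X.erase a), X, ⟨ok, ok.gad hC hl (fun v hv => (mem_Out.1 (hS hv)).2) hcard.le ha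
    fun b hb' hab => ?_, ok.nc1 (fun i hi => by have := hb i hi; omega) hX.2.1⟩, hcard, he⟩
  have a1 := hX.1 a ha
  have a2 := hX.1 b hb'
  rcases (Tg_adj a b).1 hab with ⟨_, a3⟩ | ⟨_, ⟨a3, _⟩ | ⟨a3, _⟩⟩ | ⟨_, ⟨a3, _⟩ | ⟨a3, _⟩⟩
  · exact a3 ⟨hab.ne, Or.inl ⟨rfl, mem_erase.2 ⟨hab.ne.symm, hb'⟩⟩⟩
  · exact a1 (a3 ▸ ho)
  · exact a2 (a3 ▸ ho)
  · exact a1 (a3 ▸ hw)
  · exact a2 (a3 ▸ hw)

/-- the inequality given by the common gadget -/
theorem Cls.ineq (hC : Cls r D t Fr) (hG : Ex r Fr G) (hr : 1 ≤ r) (hc : ∀ v, c v ≤ r)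
    (hb : ∀ i ∈ Icc 1 r, 2 * r < cn c i) (h2 : 2 ≤ cn c 0) {l : ℕ} (hl : l ∈ Icc 1 r)
    (hS : S ⊆ Out c l) (he : ec (Kc c) + S.card + 1 = ec G) (l0 : 0 < lam G) {y : V → ℝ}
    (y0 : ∀ v, 0 ≤ y v) (y1 : ∀ v, c v = 0 → y v = 0) (y2 : ∀ v, y v ≤ 2) :
    lam G * Ph (Kc c) (lam G) y + (∑ v ∈ S, y v) ^ 2 ≤ 8 * r * lam G := by
  obtain ⟨o, ho, w, hw, how⟩ := one_lt_card.1 (show 1 < (Vp c 0).card from h2)
  obtain ⟨H, X, h, h3, h4⟩ := hC.adm hr hc hb (mem_Vp.1 ho) (mem_Vp.1 hw) how hl hS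
  have a1 := h.ok.ec_eq
  have a2 := h.master hG (by omega) l0 y0 y1
  have a3 : qf H y ≤ 4 * Mo H := by
    rw [qf, Mo, S2_mul]
    refine S2_mono fun u v => ?_
    have b1 : y u * y v ≤ 2 * 2 := mul_le_mul (y2 u) (y2 v) (y0 v) (by norm_num)
    have b2 := mul_le_mul_of_nonneg_left b1 (ad_nonneg H u v)
    linarith
  have a4 : (ec H : ℝ) + 1 = r := by exact_mod_cast h4
  rw [Mo_ec] at a3
  have a5 := mul_le_mul_of_nonneg_left (show qf H y ≤ 8 * r by linarith) l0.le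
  linarith [sq_nonneg (∑ v ∈ X, y v)]

end Pool.Agent.P.MP_094db5_co
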