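import Pool.Agent.P.MP_094db5_co.AHb

/-! Basic facts in the final structure. -/

set_option autoImplicit false

open Finset Classical

noncomputable section

namespace Pool.Agent.P.MP_094db5_co

variable {V : Type} [Fintype V] {r C : ℕ} {Fr : SimpleGraph V → Prop} {G : SimpleGraph V}
  {x : V → ℝ} {η : ℝ} {c : V → ℕ} {z : V}

lemma AQb_op_congr {H : SimpleGraph V} {y y' : V → ℝ} {u : V} (h : ∀ v, H.Adj u v → y v = y' v) :
    op H y u = op H y' u := by
  refine sum_congr rfl fun v _ => ?_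
  unfold ad
  split_ifs with a
  · rw [h v a]
  · simp

lemma AQb_op_zero {H : SimpleGraph V} {y : V → ℝ} {u : V} (h : ∀ v, ¬ H.Adj u v) :
    op H y u = 0 := by
  refine sum_eq_zero fun v _ => ?_
  simp [ad, h v]

lemma AQb_op_upd (H : SimpleGraph V) (y : V → ℝ) (u w : V) :
    op H y u = op H (fun v => if v = w then 0 else y v) u + ad H u w * y w := by
  have e : ∀ v, ad H u v * y v = ad H u v * (if v = w then 0 else y v) +
      if v = w then ad H u w * y w else 0 := fun v => by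
    split_ifs with a
    · subst a; simp
    · simp
  unfold op
  rw [sum_congr rfl fun v _ => e v, sum_add_distrib]
  simp

lemma AQb_qf_congr {H : SimpleGraph V} {y y' : V → ℝ} (h : ∀ u v, H.Adj u v → y u = y' u) :
    qf H y = qf H y' := by
  refine S2_congr fun u v => ?_
  unfold ad
  split_ifs with a
  · rw [h u v a, h v u a.symm]
  · simp

lemma AQb_card_inter {i j : ℕ} (hj : j ≠ 0) (hij : i ≠ j) :
    (Out c i).card = (Out c i ∩ Out c j).card + cn c j := by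
  rw [← card_Vp, ← card_union_of_disjoint]
  · congr 1
    ext v
    simp only [mem_union, mem_inter, mem_Out, mem_Vp]
    omega
  · rw [disjoint_left]
    intro v h1 h2
    simp only [mem_inter, mem_Out, mem_Vp] at h1 h2
    omega

lemma AQb_r1 {R t : ℝ} (h3 : 3 ≤ R) (ht : t = 1 / R) : 0 < t ∧ R * t = 1 ∧ 3 * t ≤ 1 := by
  have a : 0 < R := by linarith
  have b : 0 < t := by rw [ht]; positivity
  have e : R * t = 1 := by rw [ht]; field_simp
  exact ⟨b, e, by nlinarith⟩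

lemma AQb_cap2 {R t l η E N n : ℝ} (h3 : 3 ≤ R) (t0 : 0 < t) (ht : R * t = 1) (t3 : 3 * t ≤ 1)
    (l0 : 0 < l) (hη : 3 * R ^ 3 * η ≤ 1) (η0 : 0 < η) (hb : 1 ≤ η * l)
    (hE : E ≤ (1 - t) ^ 2 * l + η * l) (hN : (1 - η) * l ≤ N + n)
    (hn : (R - 1) * n ≤ l + η * l) : E + 1 ≤ N := by
  have a1 : 3 * R * η ≤ t ^ 2 := by
    have e : 3 * R * η = t ^ 2 * (3 * R ^ 3 * η) := by
      calc 3 * R * η = 3 * R * η * (R * t) ^ 2 := by rw [ht]; ring
        _ = _ := by ring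
    rw [e]
    exact mul_le_of_le_one_right (by positivity) hη
  have a2 : (R - 1) * (1 - t) ^ 2 = R - 3 + 3 * t - t ^ 2 := by
    have e : (R - 1) * (1 - t) ^ 2 = R - 2 * (R * t) + (R * t) * t - 1 + 2 * t - t ^ 2 := by ring
    rw [e, ht]; ring
  have a3 : (R - 1) * (1 - t) ^ 2 + 3 * R * η ≤ R - 2 := by linarith
  have a4 := mul_le_mul_of_nonneg_right a3 l0.le
  have a5 : (0 : ℝ) < R - 1 := by linarith
  have a6 := mul_le_mul_of_nonneg_left hE a5.le
  have a7 := mul_le_mul_of_nonneg_left hN a5.le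
  have a8 := mul_le_mul_of_nonneg_left hb a5.le
  have a9 : 0 < η * l := by positivity
  refine le_of_mul_le_mul_left ?_ a5
  linarith

namespace Ctx

variable (h : Ctx r C Fr G x η c z)
include h

lemma AQb_C3 : (3 : ℝ) ≤ C := by exact_mod_cast h.r3.trans h.rC

lemma AQb_r3 : (3 : ℝ) ≤ r := by exact_mod_cast h.r3

lemma AQb_rC : (r : ℝ) ≤ C := by exact_mod_cast h.rC

theorem l_big : 10 ^ 5 * (C : ℝ) ^ 5 ≤ lam G := by
  have a1 := h.st.big
  have a2 : 0 < lam G := (mul_pos_iff_of_pos_left h.η0).1 (zero_lt_one.trans_le a1)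
  have a3 := mul_le_mul_of_nonneg_right h.sm a2.le
  have a4 : (0 : ℝ) ≤ 10 ^ 5 * (C : ℝ) ^ 5 := by positivity
  linarith [mul_le_mul_of_nonneg_left a1 a4]

theorem l0 : 0 < lam G := by
  have := h.AQb_C3
  exact lt_of_lt_of_le (by positivity) h.l_big

lemma AQb_pow {n : ℕ} (hn : n ≤ 5) : 3 ^ (5 - n) * (C : ℝ) ^ n ≤ C ^ 5 := by
  have a := h.AQb_C3
  calc (3 : ℝ) ^ (5 - n) * (C : ℝ) ^ n ≤ C ^ (5 - n) * (C : ℝ) ^ n := by gcongr
    _ = _ := by rw [← pow_add, Nat.sub_add_cancel hn]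

theorem η_small : 10 ^ 5 * 81 * (C : ℝ) * η ≤ 1 := by
  have a := h.AQb_pow (n := 1) (by norm_num)
  norm_num at a
  linarith [h.sm, mul_le_mul_of_nonneg_right a h.η0.le]

lemma AQb_η1 : 10 ^ 5 * η ≤ 1 := by
  linarith [h.η_small, mul_le_mul_of_nonneg_right h.AQb_C3 h.η0.le, h.η0]

lemma AQb_η2 : 10 ^ 5 * ((C : ℝ) ^ 2 * η) ≤ 1 := by
  have a := h.AQb_pow (n := 2) (by norm_num)
  norm_num at a
  have b : 0 ≤ (C : ℝ) ^ 2 * η := mul_nonneg (by positivity) h.η0.le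
  linarith [h.sm, mul_le_mul_of_nonneg_right a h.η0.le]

lemma AQb_η3 : 10 ^ 5 * ((C : ℝ) ^ 3 * η) ≤ 1 := by
  have a := h.AQb_pow (n := 3) (by norm_num)
  norm_num at a
  have b : 0 ≤ (C : ℝ) ^ 3 * η := mul_nonneg (by positivity) h.η0.le
  linarith [h.sm, mul_le_mul_of_nonneg_right a h.η0.le]

theorem room {i : ℕ} (hi : i ∈ Icc 1 r) : 4 * ec (Hm G c) + 10 * C ≤ cn c i := by
  have a1 := (abs_le.1 (h.st.size i hi)).1
  have a2 := h.st.hk
  have a3 := h.AQb_C3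
  have a4 := h.l0
  have a5 := h.AQb_pow (n := 2) (by norm_num)
  norm_num at a5
  have a6 : ((r : ℝ) - 1) * cn c i ≤ C * cn c i :=
    mul_le_mul_of_nonneg_right (by linarith [h.AQb_rC]) (by positivity)
  have a7 := mul_le_mul_of_nonneg_left a2 (show (0 : ℝ) ≤ C by positivity)
  have a8 := mul_le_mul_of_nonneg_right h.η_small a4.le
  have a9 := mul_le_mul_of_nonneg_right h.AQb_η1 a4.le
  have b : (C : ℝ) * (4 * ec (Hm G c) + 10 * C) ≤ C * cn c i := by
    linarith [h.l_big, sq_nonneg (C : ℝ)]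
  have b' := le_of_mul_le_mul_left b (by linarith)
  exact_mod_cast b'

theorem pos {v : V} (hv : c v ≠ 0) : 1 / 2 ≤ x v := by
  linarith [(abs_le.1 (h.st.typ v hv)).1, h.AQb_η1]

theorem other (u : V) : ∃ o, c o = 0 ∧ o ≠ u := by
  have a0 : 1 ≤ lam G := by
    have a := h.AQb_pow (n := 0) (by norm_num)
    norm_num at a
    linarith [h.l_big]
  have a1 := h.ex.spare h.st.eig a0 (c := c) fun v hv => by linarith [h.pos hv]
  have a2 : (1 : ℝ) < cn c 0 := by linarith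
  have a3 : 1 < (Vp c 0).card := by rw [card_Vp]; exact_mod_cast a2
  obtain ⟨o, h1, h2⟩ := exists_mem_ne a3 u
  exact ⟨o, mem_Vp.1 h1, h2⟩

lemma AQb_Out {l : ℕ} (hl : l ∈ Icc 1 r) : (1 - η) * lam G ≤ (Out c l).card := by
  have a0 : (0 : ℝ) < r - 1 := by linarith [h.AQb_r3]
  have a1 : (((Icc 1 r).erase l).card : ℝ) = r - 1 := by
    rw [card_erase_of_mem hl, Nat.card_Icc, Nat.add_sub_cancel, Nat.cast_sub (by
      linarith [h.r3]), Nat.cast_one]
  have a2 := card_nsmul_le_sum ((Icc 1 r).erase l) (fun i => ((r : ℝ) - 1) * cn c i)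
    ((1 - η) * lam G) fun i hi => by
      linarith [(abs_le.1 (h.st.size i (mem_of_mem_erase hi))).1]
  rw [nsmul_eq_mul, a1, ← mul_sum] at a2
  rw [card_Out h.st.le, Nat.cast_sum]
  exact le_of_mul_le_mul_left a2 a0

lemma AQb_t : 100 * η ≤ 1 / (r : ℝ) := by
  have a := h.AQb_r3
  rw [le_div_iff₀ (by linarith)]
  have b : 0 ≤ (C : ℝ) * η := mul_nonneg (by positivity) h.η0.le
  linarith [h.η_small, mul_le_mul_of_nonneg_right h.AQb_rC h.η0.le]

lemma AQb_dz : (dT G c z : ℝ) ≤ (1 - 100 * η) * lam G := by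
  obtain ⟨t0, -, t3⟩ := AQb_r1 h.AQb_r3 rfl
  refine h.st.dz.trans (mul_le_mul_of_nonneg_right ?_ h.l0.le)
  nlinarith [h.AQb_t]

theorem cap1 {l : ℕ} (hl : l ∈ Icc 1 r) : ec (Xe G c) + 3 ≤ (Out c l).card := by
  have b : (ec (Xe G c) : ℝ) + 3 ≤ (Out c l).card := by
    linarith [h.AQb_Out hl, h.AQb_dz, h.st.hE, h.st.big]
  exact_mod_cast b

theorem cap2 {i j : ℕ} (hi : i ∈ Icc 1 r) (hj : j ∈ Icc 1 r) (hij : i ≠ j) :
    ec (Xe G c) + 1 ≤ (Out c i ∩ Out c j).card := by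
  obtain ⟨t0, t1, t3⟩ := AQb_r1 h.AQb_r3 rfl
  have a1 := h.AQb_Out hi
  rw [AQb_card_inter (j := j) (by have := (mem_Icc.1 hj).1; omega) hij, Nat.cast_add] at a1
  have a2 : (r : ℝ) ^ 3 ≤ C ^ 3 := pow_le_pow_left₀ (by positivity) h.AQb_rC 3
  have a3 : 0 ≤ (C : ℝ) ^ 3 * η := mul_nonneg (by positivity) h.η0.le
  have b := AQb_cap2 h.AQb_r3 t0 t1 t3 h.l0
    (by linarith [h.AQb_η3, mul_le_mul_of_nonneg_right a2 h.η0.le]) h.η0 h.st.big
    (E := ec (Xe G c)) (by linarith [h.st.hE, h.st.dz]) a1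
    (by linarith [(abs_le.1 (h.st.size j hj)).2])
  exact_mod_cast b

theorem ni : NI G c := h.st.eig.ni h.l0 fun v hv => by linarith [h.pos hv]

lemma AQb_E : dT G c z + ∑ u ∈ (Vp c 0).erase z, dT G c u + ec (Ww G c) = ec (Xe G c) := by
  rw [ec_Xe, add_sum_erase _ _ (mem_Vp.2 h.st.z0)]

theorem dT_le : dT G c z ≤ ec (Xe G c) := by
  have := h.AQb_E
  omega

theorem aT_le (u : V) : aT G c x u ≤ (1 + η) * dT G c u := by
  have a := sum_le_card_nsmul (nT G c u) x (1 + η) fun v hv => by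
    linarith [(abs_le.1 (h.st.typ v (mem_nT.1 hv).2)).2]
  rw [nsmul_eq_mul, mul_comm] at a
  exact a

theorem le_aT (u : V) : (1 - η) * dT G c u ≤ aT G c x u := by
  have a := card_nsmul_le_sum (nT G c u) x (1 - η) fun v hv => by
    linarith [(abs_le.1 (h.st.typ v (mem_nT.1 hv).2)).1]
  rw [nsmul_eq_mul, mul_comm] at a
  exact a

lemma AQb_aT0 (u : V) : 0 ≤ aT G c x u := sum_nonneg fun v _ => h.st.eig.nonneg v

lemma AQb_F0 : (0 : ℝ) ≤ ec (Xe G c) - dT G c z := by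
  have : (dT G c z : ℝ) ≤ ec (Xe G c) := by exact_mod_cast h.dT_le
  linarith

lemma AQb_Ww (u : V) :
    op (Ww G c) x u ≤ η * (ec (Xe G c) - dT G c z) + ad (Ww G c) u z * x z := by
  have a1 := op_le (H := Ww G c) (x := fun v => if v = z then 0 else x v) h.η0.le
    (fun a b hab => by
      split_ifs with e
      · exact h.η0.le
      · exact h.st.small a hab.2.1 e) u
  have a2 : dT G c z + ec (Ww G c) ≤ ec (Xe G c) := by
    have := h.AQb_E
    omega
  have a3 : (dT G c z : ℝ) + ec (Ww G c) ≤ ec (Xe G c) := by exact_mod_cast a2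
  rw [AQb_op_upd _ x u z]
  linarith [mul_le_mul_of_nonneg_right a3 h.η0.le]

lemma AQb_Wz : op (Ww G c) x z ≤ η * (ec (Xe G c) - dT G c z) := by
  have a := h.AQb_Ww z
  have e : ad (Ww G c) z z = 0 := by simp [ad]
  rwa [e, zero_mul, add_zero] at a

theorem lam_z : lam G * x z ≤ aT G c x z + η * (ec (Xe G c) - dT G c z) := by
  rw [← h.st.eig.eig, op_split0 x h.st.z0]
  linarith [h.AQb_Wz]

lemma AQb_xz : x z < 1 - η := by
  have a0 := h.l0
  have a1 := h.η0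
  have a2 := h.AQb_η1
  have a3 : 0 < η * lam G := by positivity
  have a4 : η * ((ec (Xe G c) : ℝ) - dT G c z) ≤ η * lam G := by
    refine mul_le_mul_of_nonneg_left ?_ a1.le
    nlinarith [h.st.hE]
  have a5 : η * (dT G c z : ℝ) ≤ η * lam G := by
    refine mul_le_mul_of_nonneg_left ?_ a1.le
    linarith [h.AQb_dz]
  refine lt_of_mul_lt_mul_left ?_ a0.le
  linarith [h.lam_z, h.aT_le z, h.AQb_dz]

theorem xz_lt {v : V} (hv : c v ≠ 0) : x z < x v := by
  linarith [h.AQb_xz, (abs_le.1 (h.st.typ v hv)).1]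

theorem le_two (v : V) : x v ≤ 2 := by
  by_cases hv : c v = 0
  · linarith [h.st.zmax v hv, h.AQb_xz, h.η0]
  · linarith [(abs_le.1 (h.st.typ v hv)).2, h.AQb_η1]

theorem aT_le_z {u : V} (hu : c u = 0) :
    aT G c x u ≤ aT G c x z + η * (ec (Xe G c) - dT G c z) := by
  have a1 := h.st.eig.eig u
  rw [op_split0 x hu] at a1
  linarith [op_nonneg (H := Ww G c) h.st.eig.nonneg u, h.lam_z,
    mul_le_mul_of_nonneg_left (h.st.zmax u hu) h.l0.le]

lemma AQb_sum : ∑ u ∈ (Vp c 0).erase z, aT G c x u ≤ 2 * (ec (Xe G c) - dT G c z) := by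
  have a2 : dT G c z + ∑ u ∈ (Vp c 0).erase z, dT G c u ≤ ec (Xe G c) := by
    have := h.AQb_E
    omega
  have a3 : (dT G c z : ℝ) + ∑ u ∈ (Vp c 0).erase z, (dT G c u : ℝ) ≤ ec (Xe G c) := by
    exact_mod_cast a2
  have a4 : ∑ u ∈ (Vp c 0).erase z, aT G c x u ≤ ∑ u ∈ (Vp c 0).erase z, 2 * (dT G c u : ℝ) :=
    sum_le_sum fun u _ => (h.aT_le u).trans
      (mul_le_mul_of_nonneg_right (by linarith [h.AQb_η1]) (by positivity))
  rw [← mul_sum] at a4
  linarith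

theorem Q_le : lam G * Qw G c x ≤ aT G c x z ^ 2 + ∑ u ∈ (Vp c 0).erase z, aT G c x u ^ 2 +
    6 * η * (ec (Xe G c) - dT G c z) * (aT G c x z + (ec (Xe G c) - dT G c z)) := by
  have e1 : lam G * Qw G c x = ∑ u ∈ Vp c 0, (aT G c x u ^ 2 + op (Ww G c) x u * aT G c x u) := by
    rw [Qw, mul_sum]
    refine sum_congr rfl fun u hu => ?_
    rw [← mul_assoc, ← h.st.eig.eig, op_split0 x (mem_Vp.1 hu)]
    ring
  have η0 := h.η0
  have F0 := h.AQb_F0
  have A0 := h.AQb_aT0 z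
  have hs := h.AQb_sum
  have hz := h.AQb_Wz
  have hl := h.lam_z
  have hW := h.AQb_Ww
  generalize (ec (Xe G c) : ℝ) - dT G c z = F at *
  have a1 : x z ≤ η * (aT G c x z + F) := by
    have b1 := mul_le_mul_of_nonneg_right h.st.big (h.st.eig.nonneg z)
    have b2 := mul_le_mul_of_nonneg_left hl η0.le
    have b3 : η * F ≤ F := mul_le_of_le_one_left F0 (by linarith [h.AQb_η1])
    linarith [mul_le_mul_of_nonneg_left b3 η0.le]
  have a2 : ∑ u ∈ (Vp c 0).erase z, op (Ww G c) x u * aT G c x u ≤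
      ∑ u ∈ (Vp c 0).erase z, η * (aT G c x z + 2 * F) * aT G c x u :=
    sum_le_sum fun u _ => mul_le_mul_of_nonneg_right (by
      linarith [hW u, mul_le_of_le_one_left (h.st.eig.nonneg z) (ad_le_one (Ww G c) u z)])
      (h.AQb_aT0 u)
  rw [← mul_sum] at a2
  have a3 := mul_le_mul_of_nonneg_left hs (show 0 ≤ η * (aT G c x z + 2 * F) by positivity)
  have a4 := mul_le_mul_of_nonneg_right hz A0
  have a5 : 0 ≤ η * F * aT G c x z := by positivity
  have a6 : 0 ≤ η * F * F := by positivity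
  rw [e1, ← add_sum_erase _ _ (mem_Vp.2 h.st.z0), sum_add_distrib]
  linarith

lemma AQb_err : ((ec (Xe G c) : ℝ) - dT G c z) * (aT G c x z + (ec (Xe G c) - dT G c z)) ≤
    2 * (ec (Xe G c) : ℝ) ^ 2 := by
  have F0 := h.AQb_F0
  have d0 : (0 : ℝ) ≤ dT G c z := by positivity
  have a1 : aT G c x z ≤ 2 * dT G c z :=
    (h.aT_le z).trans (mul_le_mul_of_nonneg_right (by linarith [h.AQb_η1]) d0)
  calc _ ≤ (ec (Xe G c) : ℝ) * (2 * ec (Xe G c)) :=
        mul_le_mul (by linarith) (by linarith) (by linarith [h.AQb_aT0 z]) (by positivity)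
    _ = _ := by ring

theorem Q_crude : lam G * Qw G c x ≤ 20 * (ec (Xe G c) : ℝ) ^ 2 := by
  have F0 := h.AQb_F0
  have d0 : (0 : ℝ) ≤ dT G c z := by positivity
  have a1 : aT G c x z ≤ 2 * dT G c z :=
    (h.aT_le z).trans (mul_le_mul_of_nonneg_right (by linarith [h.AQb_η1]) d0)
  have a2 := pow_le_pow_left₀ (h.AQb_aT0 z) a1 2
  have a3 := sum_sq_le_sq_sum_of_nonneg (s := (Vp c 0).erase z) fun u _ => h.AQb_aT0 u
  have a4 := pow_le_pow_left₀ (sum_nonneg fun u _ => h.AQb_aT0 u) h.AQb_sum 2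
  have a5 := mul_le_mul_of_nonneg_left h.AQb_err h.η0.le
  have a6 : η * (ec (Xe G c) : ℝ) ^ 2 ≤ (ec (Xe G c) : ℝ) ^ 2 :=
    mul_le_of_le_one_left (by positivity) (by linarith [h.AQb_η1])
  linarith [h.Q_le, mul_nonneg d0 F0, sq_nonneg (ec (Xe G c) : ℝ)]

theorem Q_sq (hE : ec (Xe G c) ≤ C) : lam G * Qw G c x ≤ D2 G c + 30 * C ^ 2 * η := by
  have η0 := h.η0
  have a0 : (ec (Xe G c) : ℝ) ^ 2 ≤ C ^ 2 :=
    pow_le_pow_left₀ (by positivity) (by exact_mod_cast hE) 2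
  have a1 : ∑ u ∈ Vp c 0, aT G c x u ^ 2 ≤ ∑ u ∈ Vp c 0, (1 + η) ^ 2 * (dT G c u : ℝ) ^ 2 :=
    sum_le_sum fun u _ => by
      rw [← mul_pow]
      exact pow_le_pow_left₀ (h.AQb_aT0 u) (h.aT_le u) 2
  have a2 : (D2 G c : ℝ) = ∑ u ∈ Vp c 0, (dT G c u : ℝ) ^ 2 := by simp [D2]
  rw [← mul_sum, ← a2, ← add_sum_erase _ _ (mem_Vp.2 h.st.z0)] at a1
  have a3 : D2 G c ≤ ec (Xe G c) ^ 2 :=
    (sum_sq_le_sq_sum_of_nonneg fun u _ => Nat.zero_le _).trans
      (Nat.pow_le_pow_left (by rw [ec_Xe]; omega) 2)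
  have a4 : (D2 G c : ℝ) ≤ C ^ 2 := le_trans (by exact_mod_cast a3) a0
  have a5 : (1 + η) ^ 2 ≤ 1 + 3 * η := by nlinarith [h.AQb_η1]
  have a6 := mul_le_mul_of_nonneg_right a5 (show (0 : ℝ) ≤ D2 G c by positivity)
  have a7 := mul_le_mul_of_nonneg_left h.AQb_err η0.le
  have a8 : 0 ≤ (C : ℝ) ^ 2 * η := by positivity
  linarith [h.Q_le, mul_le_mul_of_nonneg_left a0 η0.le, mul_le_mul_of_nonneg_left a4 η0.le]

theorem W_small (hE : ec (Xe G c) ≤ C) {u : V} (hu : c u = 0) : x u ≤ 2 * C * η := by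
  have a1 : op G x u ≤ ∑ v, ad G u v * 2 :=
    sum_le_sum fun v _ => mul_le_mul_of_nonneg_left (h.le_two v) (ad_nonneg G u v)
  have a2 : (G.degree u : ℝ) ≤ C := by exact_mod_cast (degree_le_Xe hu).trans hE
  rw [← sum_mul, sum_ad, h.st.eig.eig] at a1
  have a3 : lam G * x u ≤ 2 * C := by linarith
  linarith [mul_le_mul_of_nonneg_left a3 h.η0.le,
    mul_le_mul_of_nonneg_right h.st.big (h.st.eig.nonneg u)]

theorem dT_le_z (hE : ec (Xe G c) ≤ C) {u : V} (hu : c u = 0) : dT G c u ≤ dT G c z := by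
  have a1 : dT G c u ≤ C := by
    have b := single_le_sum (f := dT G c) (fun _ _ => Nat.zero_le _) (mem_Vp.2 hu)
    have := ec_Xe G c
    omega
  have a2 : (dT G c u : ℝ) ≤ C := by exact_mod_cast a1
  have a3 : (ec (Xe G c) : ℝ) ≤ C := by exact_mod_cast hE
  have a4 : 0 ≤ (C : ℝ) * η := mul_nonneg (by positivity) h.η0.le
  have b : (dT G c u : ℝ) < dT G c z + 1 := by
    linarith [h.le_aT u, h.aT_le_z hu, h.aT_le z, mul_le_mul_of_nonneg_left a2 h.η0.le,
      mul_le_mul_of_nonneg_left a3 h.η0.le, h.η_small]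
  have b' : dT G c u < dT G c z + 1 := by exact_mod_cast b
  omega

/-- comparison with a target on the same base -/
theorem cmp {H : SimpleGraph V} {o w : V} {S X : Finset V} (ha : Adm r Fr c H o S w X)
    (he : S.card + X.card + ec (Hm G c) = ec (Xe G c) + ec H) :
    (∑ v ∈ S, x v) ^ 2 + (∑ v ∈ X.erase o, x v) ^ 2 + lam G * (qf (Hm G c) x - qf H x) ≤
      lam G * Qw G c x := by
  have a1 := ha.master (y := rT c x) h.ex (by
      have b1 := ha.ok.ec_eq
      have b2 := ec_split h.st.proper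
      omega) h.l0
    (fun v => by
      unfold rT
      split_ifs
      exacts [le_rfl, h.st.eig.nonneg v])
    (fun v hv => if_pos hv)
  have a2 : qf H (rT c x) = qf H x := AQb_qf_congr fun u v a => if_neg (ha.ok.hH a).1
  have a3 : ∑ v ∈ S, rT c x v = ∑ v ∈ S, x v := sum_congr rfl fun v hv => if_neg (ha.ok.hS v hv)
  have a4 : ∑ v ∈ X, rT c x v = ∑ v ∈ X.erase o, x v := by
    rw [← sum_erase X (f := rT c x) (a := o) (if_pos ha.ok.o0)]
    exact sum_congr rfl fun v hv => if_neg ((ha.ok.hX v (mem_of_mem_erase hv)).resolve_right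
      (ne_of_mem_erase hv))
  rw [h.st.eig.ident h.st.proper, a2, a3, a4] at a1
  linarith

/-- two vertices of one part -/
theorem lt_of_fresh (hE : ec (Xe G c) ≤ C) {a b y : V} (hab : (Hm G c).Adj a b) (hy : c y = c a)
    (hf : ∀ u, ¬ (Hm G c).Adj y u) : x a < x y := by
  have ha : c a ≠ 0 := (Hm_le G c hab).1
  have hb : c b ≠ 0 := (Hm_le G c hab).2.1
  have η0 := h.η0
  have a1 := op_split h.st.proper x ha
  have a2 := op_split h.st.proper x (hy ▸ ha : c y ≠ 0)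
  rw [h.st.eig.eig] at a1 a2
  rw [AQb_op_zero hf, op_Kc_congr x hy] at a2
  have a3 := le_op h.st.eig.nonneg hab
  have a4 := op_nonneg (H := Xe G c) h.st.eig.nonneg y
  have a5 : op (Xe G c) x a = op (Xe G c) (fun v => if c v = 0 then x v else 0) a :=
    AQb_op_congr fun v hv => (if_pos (hv.2.resolve_left ha)).symm
  have a6 := op_le (H := Xe G c) (x := fun v => if c v = 0 then x v else 0) (a := 2 * C * η)
    (by positivity) (fun u v _ => by
      split_ifs with e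
      · exact h.W_small hE e
      · positivity) a
  have a7 : (ec (Xe G c) : ℝ) ≤ C := by exact_mod_cast hE
  have a8 := mul_le_mul_of_nonneg_right a7 (show 0 ≤ 2 * C * η by positivity)
  refine lt_of_mul_lt_mul_left ?_ h.l0.le
  linarith [h.pos hb, h.AQb_η2]

end Ctx

end Pool.Agent.P.MP_094db5_co
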