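import Pool.Agent.P.MP_094db5_co.Struct

/-! Reduction to a clique-free subgraph when the deficiency is linear in the spectral radius. -/

set_option autoImplicit false

open Finset Classical

noncomputable section

namespace Pool.Agent.P.MP_094db5_co

theorem fine_eps {r : ℕ} (hr : 3 ≤ r) (D t : ℕ) {ξ : ℝ} (h0 : 0 < ξ) (h1 : ξ ≤ 1 / r) :
    ∃ ε : ℝ, 0 < ε ∧ ε ≤ ξ ∧ ∃ M₁ : ℝ, ∀ (V : Type) [Fintype V] (G : SimpleGraph V) (x : V → ℝ),
      Perron G x → Deg G r D → NoPlus G r t → M₁ ≤ Mo G →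
      (1 - 1 / r) * Mo G - ε * Mo G ≤ lam G ^ 2 → 0 < lam G →
      ∃ c, Fine G x (lam G / Mo G) ξ r c := by
  obtain ⟨ξ', a0, a1, a2⟩ : ∃ ξ' : ℝ, 0 < ξ' ∧ r * t * ξ' < ξ / 4 ∧ ξ' ≤ ξ / 2 := by
    have : (0 : ℝ) ≤ r * t := by positivity
    refine ⟨ξ / (4 * (r * t + 1)), by positivity, ?_, ?_⟩
    · rw [← mul_div_assoc, div_lt_div_iff₀ (by positivity) (by positivity)]
      nlinarith
    · exact div_le_div_of_nonneg_left h0.le two_pos (by linarith)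
  have e1 : 1 / (2 * (r : ℝ)) = 1 / r / 2 := by
    rw [div_div, mul_comm]
  have hr' : 1 / (r : ℝ) ≤ 1 := by
    rw [div_le_one (by positivity)]; exact_mod_cast (by omega : 1 ≤ r)
  obtain ⟨ε, hε, hε'⟩ : ∃ ε : ℝ, 0 < ε ∧ ε = ξ' ^ 4 / 1000 := ⟨_, by positivity, rfl⟩
  have hε1 : ξ' ^ 4 ≤ ξ' := pow_le_of_le_one a0.le (by linarith) (by norm_num)
  obtain ⟨B, hB, h⟩ := core2 (by omega : 2 ≤ r) D hε
  refine ⟨ε, hε, by linarith, max (1 / (ε / B) ^ 2) (1 / (ξ / (8 * (t + 1))) ^ 2),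
    fun V _ G x hx hD hP hM hl hl0 => ?_⟩
  simp only [max_le_iff] at hM
  have hM0 : 0 < Mo G := lt_of_lt_of_le (by positivity) hM.1
  have := nonempty_of_Mo hM0
  have b1 := mu_small (lam_sq_le G) (by positivity) hM.1
  have b2 := mu_small (lam_sq_le G) (by positivity) hM.2
  rw [le_div_iff₀ (by positivity)] at b1 b2
  have b3 := gap_le (l := lam G) (ρ := 1 - 1 / r) (C := ε * Mo G / 2) hM0 (by linarith)
  rw [show 2 * (ε * Mo G / 2) / Mo G = ε by field_simp] at b3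
  have hμ : 0 < lam G / Mo G := div_pos hl0 hM0
  obtain ⟨G', hle, c, c1, c2, c3⟩ := h V G x hx.nonneg hx.unit hD
  have c4 := c3 _ hμ.le
  rw [hx.val] at c4
  obtain ⟨c', hc', -⟩ := recolour (G := G') hx.nonneg hμ hr a0 (by linarith) c1 c2 (by linarith)
    (Δ := 3 * ε) (by linarith) (by linarith [pow_pos a0 4])
  exact ⟨c', (hc'.mono hle).fine hP (by omega) a0.le h1 hμ.le (by nlinarith) a2⟩

theorem reduce_lin {r : ℕ} (hr : 3 ≤ r) (D t : ℕ) {C : ℝ} (hC : 0 ≤ C) :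
    ∃ M₂ : ℝ, ∀ (V : Type) [Fintype V] (G : SimpleGraph V), Deg G r D → NoPlus G r t →
      M₂ ≤ Mo G → (1 - 1 / r) * Mo G - C * lam G ≤ lam G ^ 2 →
      ∃ H ≤ G, H.CliqueFree (r + 1) ∧ Mo G - Mo H ≤ 200 * r * C * lam G ∧
        ∀ u, (∑ v, ad H u v) ^ 2 ≤ 3 * Mo G := by
  have hr' : (3 : ℝ) ≤ r := by exact_mod_cast hr
  have r3 : 1 / (r : ℝ) ≤ 1 / 3 := one_div_le_one_div_of_le (by norm_num) hr'
  obtain ⟨ξ, x0, x1⟩ : ∃ ξ : ℝ, 0 < ξ ∧ 200 * ξ = 1 / r :=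
    ⟨1 / r / 200, by positivity, by ring⟩
  obtain ⟨ε, e0, e1, M₁, h1⟩ := fine_eps hr D t x0 (by linarith)
  obtain ⟨M₀, hM₀, h0⟩ := rough_upper (by omega : 2 ≤ r) D x0
  obtain ⟨M', b0, b1⟩ : ∃ M' : ℝ, M₀ ≤ M' ∧ M₁ ≤ M' := ⟨max M₀ M₁, by simp, by simp⟩
  refine ⟨max (2 * M' / ξ) (1 / (ε * ξ / (2 * (C + 1))) ^ 2), fun V _ G hD hP hM hl => ?_⟩
  rw [max_le_iff, div_le_iff₀ x0] at hM
  have hG0 : 0 < Mo G := lt_of_lt_of_le (by positivity) hM.2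
  have := nonempty_of_Mo hG0
  have b2 := mu_small (lam_sq_le G) (by positivity) hM.2
  rw [div_le_div_iff₀ hG0 (by positivity)] at b2
  have b3 : 2 * (C * lam G) ≤ ε * (ξ * Mo G) := by linarith [lam_nonneg G]
  have b4 : ε * (ξ * Mo G) ≤ ξ * Mo G := mul_le_of_le_one_left (by positivity) (by linarith)
  have : Nonempty {H // H ≤ G} := ⟨⟨G, le_rfl⟩⟩
  obtain ⟨⟨H, hle⟩, hmin⟩ := Finite.exists_min fun H : {H // H ≤ G} =>
    (1 - 1 / r - ξ) * Mo H.1 - lam H.1 ^ 2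
  have a1 := hmin ⟨G, le_rfl⟩
  simp only at a1
  have a2 := mul_nonneg (show 0 ≤ 1 - 1 / r - ξ by linarith) (Mo_nonneg H)
  have a3 : ξ * Mo G / 2 ≤ lam H ^ 2 := by linarith
  have a4 := a3.trans (lam_sq_le H)
  have a5 := mul_le_mul_of_nonneg_left (Mo_mono hle) x0.le
  have a6 : (1 - 1 / r) * Mo H - ε * Mo H ≤ lam H ^ 2 := by
    linarith [mul_le_mul_of_nonneg_left a4 e0.le]
  have hM0 : 0 < Mo H := by linarith [hM.1]
  have l0 : 0 < lam H := lt_of_le_of_ne (lam_nonneg H) fun e => by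
    rw [← e] at a3
    linarith [hM.1]
  obtain ⟨x, hx⟩ := exists_perron H
  obtain ⟨c, hc⟩ := h1 V H x hx (hD.mono hle) (hP.mono hle) (by linarith [hM.1]) a6 l0
  have a7 := h0 V H (hD.mono hle) (by linarith [hM.1])
  obtain ⟨s, s0, hs⟩ : ∃ s : ℝ, 0 < s ∧ s ^ 2 = lam H / Mo H :=
    ⟨√(lam H / Mo H), Real.sqrt_pos.2 (by positivity), Real.sq_sqrt (by positivity)⟩
  have e : lam H * s ^ 2 * Mo H = lam H ^ 2 := by
    rw [hs]; field_simp
  have hm : Mini H x s ξ (1 - 1 / r) r c := ⟨hx, hs ▸ hc, s0, x0, x1.le, r3, rfl,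
    le_of_mul_le_mul_right (by linarith [mul_le_mul_of_nonneg_right e1 hM0.le]) hM0,
    le_of_mul_le_mul_right (by linarith) hM0,
    fun K hK => by
      have := hmin ⟨H \ K, sdiff_le.trans hle⟩
      simp only [Mo_sdiff hK] at this
      nlinarith [sq_nonneg (lam H - lam (H \ K))]⟩
  refine ⟨H, hle, hm.cliqueFree, ?_, fun u => ?_⟩
  · have a8 := nikiforov (by omega) hm.cliqueFree hM0
    have a9 : ξ * (Mo G - Mo H) ≤ C * lam G := by linarith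
    have a10 : 200 * r * ξ = 1 := by rw [mul_right_comm, x1]; field_simp
    have a11 := mul_le_mul_of_nonneg_left a9 (show (0 : ℝ) ≤ 200 * r by positivity)
    rw [← mul_assoc, a10] at a11
    linarith
  · have d0 : 0 ≤ ∑ v, ad H u v := sum_nonneg fun v _ => ad_nonneg H u v
    have d1 := mul_self_le_mul_self (by positivity) (hm.deg u)
    have d2 : s ^ 2 * Mo H = lam H := by rw [hs]; field_simp
    have d3 : 13 / 20 ≤ s ^ 2 * (s ^ 2 * Mo H) := by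
      rw [d2]
      linarith [hm.lo, hm.xi]
    have d4 := mul_le_mul_of_nonneg_left d3 (sq_nonneg (∑ v, ad H u v))
    have d5 := mul_le_mul_of_nonneg_right d1 hM0.le
    nlinarith [Mo_mono hle]

end Pool.Agent.P.MP_094db5_co
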