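import Pool.Agent.P.MP_094db5_co.AGap

/-! Second order comparison of two sets of missing pairs. -/

set_option autoImplicit false

open Finset Classical

noncomputable section

namespace Pool.Agent.P.MP_094db5_co

variable {V : Type} [Fintype V] {r C : ℕ} {Fr : SimpleGraph V → Prop} {G : SimpleGraph V}
  {x : V → ℝ} {η : ℝ} {c : V → ℕ} {z : V}

lemma ASa_qf_add (G : SimpleGraph V) (p u : V → ℝ) (t : ℝ) :
    qf G (fun v => p v + t * u v) = qf G p + 2 * t * ∑ v, u v * op G p v + t ^ 2 * qf G u := by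
  have h1 : ∑ v, u v * op G p v = S2 fun a b => ad G a b * (u a * p b) := by
    simp only [op, S2, mul_sum]
    exact sum_congr rfl fun a _ => sum_congr rfl fun b _ => by ring
  have h2 : ∑ v, u v * op G p v = S2 fun a b => ad G a b * (p a * u b) := by
    rw [h1, S2_comm]
    exact S2_congr fun a b => by rw [ad_comm]; ring
  have h3 : 2 * t * ∑ v, u v * op G p v =
      t * (S2 fun a b => ad G a b * (u a * p b)) + t * S2 fun a b => ad G a b * (p a * u b) := by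
    rw [← h1, ← h2]; ring
  rw [h3]
  simp only [qf, S2_mul, S2_add]
  exact S2_congr fun a b => by ring

lemma ASa_qf_abs (G : SimpleGraph V) (u : V → ℝ) {a : ℝ} (h : ∑ v, |u v| ≤ a) :
    |qf G u| ≤ a ^ 2 := by
  have h0 : 0 ≤ ∑ v, |u v| := sum_nonneg fun v _ => abs_nonneg _
  refine le_trans ?_ (pow_le_pow_left₀ h0 h 2)
  rw [sq, S2_prod, abs_le]
  have key : ∀ a b, |ad G a b * (u a * u b)| ≤ |u a| * |u b| := fun a b => by
    rw [abs_mul, abs_mul, abs_of_nonneg (ad_nonneg G a b)]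
    exact mul_le_of_le_one_left (by positivity) (ad_le_one G a b)
  constructor
  · rw [← neg_one_mul, S2_mul]
    exact S2_mono fun a b => by linarith [(abs_le.1 (key a b)).1]
  · exact S2_mono fun a b => (abs_le.1 (key a b)).2

lemma ASa_op_congr {H : SimpleGraph V} {x y : V → ℝ} {v : V} (h : ∀ u, H.Adj v u → x u = y u) :
    op H x v = op H y v := by
  refine sum_congr rfl fun u _ => ?_
  unfold ad
  split_ifs with e
  · rw [h u e]
  · simp

lemma ASa_qf_rT {H : SimpleGraph V} (hH : H ≤ Kc c) (x : V → ℝ) : qf H x = qf H (rT c x) := by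
  refine S2_congr fun u v => ?_
  unfold ad
  split_ifs with e
  · have h1 : c u ≠ 0 := (hH e).1
    have h2 : c v ≠ 0 := (hH e).2.1
    simp [rT, h1, h2]
  · simp

lemma ASa_op_zero {H : SimpleGraph V} (hH : H ≤ Kc c) (x : V → ℝ) {v : V} (hv : c v = 0) :
    op H x v = 0 := by
  refine sum_eq_zero fun u _ => ?_
  unfold ad
  split_ifs with e
  · exact absurd hv (hH e).1
  · simp

lemma ASa_point {l p u a b : ℝ} (hl : l ≠ 0) :
    l * (2 * l⁻¹ * ((a - b) * (l * p)) - l * ((p + -l⁻¹ * u + l⁻¹ * (a - b)) ^ 2 -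
      (p + -l⁻¹ * u) ^ 2) + 2 * -l⁻¹ * (u * a) - 2 * l⁻¹ * ((a - u - b) * b)) = b ^ 2 - a ^ 2 := by
  field_simp
  ring

omit [Fintype V] in
lemma ASa_sq {s : Finset V} {y : V → ℝ} {η : ℝ} (h1 : 3 * η ≤ 1)
    (h : ∀ v ∈ s, 1 - 3 * η ≤ y v) :
    (s.card : ℝ) ^ 2 - 6 * η * (s.card : ℝ) ^ 2 ≤ (∑ v ∈ s, y v) ^ 2 := by
  have h2 : (s.card : ℝ) * (1 - 3 * η) ≤ ∑ v ∈ s, y v := by
    have := card_nsmul_le_sum s y _ h
    rwa [nsmul_eq_mul] at this
  have h3 : 0 ≤ (s.card : ℝ) * (1 - 3 * η) := mul_nonneg (Nat.cast_nonneg _) (by linarith)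
  have h4 := pow_le_pow_left₀ h3 h2 2
  nlinarith [sq_nonneg ((s.card : ℝ) * η)]

lemma ASa_div {l k η a q : ℝ} (hl : 0 < l) (hk : 0 ≤ k) (h : k ≤ η * l)
    (hq : |q| ≤ (a * k) ^ 2) : |l * (l⁻¹ ^ 2 * q)| ≤ a ^ 2 * η * k := by
  have e : l * (l⁻¹ ^ 2 * q) = q / l := by field_simp
  rw [e, abs_div, abs_of_pos hl, div_le_iff₀ hl]
  have h1 := mul_le_mul_of_nonneg_left h (mul_nonneg (sq_nonneg a) hk)
  nlinarith

/-- the value of a vertex without missing pairs -/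
def pp (G : SimpleGraph V) (c : V → ℕ) (x : V → ℝ) (v : V) : ℝ := op (Kc c) x v / lam G

namespace Ctx

variable (h : Ctx r C Fr G x η c z)
include h

theorem pp_near (hE : ec (Xe G c) ≤ C) {v : V} (hv : c v ≠ 0) : |pp G c x v - 1| ≤ 4 * η := by
  have l0 := h.l0
  have η0 := h.η0
  have hC : (3 : ℝ) ≤ C := by exact_mod_cast h.r3.trans h.rC
  have hE' : (ec (Xe G c) : ℝ) ≤ C := by exact_mod_cast hE
  have e1 := op_split h.st.proper x hv
  rw [h.st.eig.eig] at e1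
  have a0 : 0 ≤ op (Hm G c) x v := op_nonneg h.st.eig.nonneg v
  have a1 : op (Hm G c) x v ≤ ec (Hm G c) * 2 := op_le (by norm_num) (fun u _ _ => h.le_two u) v
  have b0 : 0 ≤ op (Xe G c) x v := op_nonneg h.st.eig.nonneg v
  have b1 : op (Xe G c) x v = op (Xe G c) (fun u => if c u = 0 then x u else 0) v :=
    ASa_op_congr fun u hu => by rw [if_pos (hu.2.resolve_left hv)]
  have b2 : op (Xe G c) (fun u => if c u = 0 then x u else 0) v ≤ ec (Xe G c) * (2 * C * η) := by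
    refine op_le (by positivity) (fun u _ _ => ?_) v
    split_ifs with e
    · exact h.W_small hE e
    · positivity
  have b3 : (ec (Xe G c) : ℝ) * (2 * C * η) ≤ C * (2 * C * η) :=
    mul_le_mul_of_nonneg_right hE' (by positivity)
  have b4 : 2 * (C : ℝ) ^ 2 ≤ lam G := by
    have h1 := h.l_big
    have h2 : (C : ℝ) ^ 2 ≤ C ^ 5 := pow_le_pow_right₀ (by linarith) (by norm_num)
    have h3 : (0 : ℝ) ≤ C ^ 5 := by positivity
    linarith
  have b5 := mul_le_mul_of_nonneg_left b4 η0.le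
  have hk := h.st.hk
  obtain ⟨t1, t2⟩ := abs_le.1 (h.st.typ v hv)
  have t3 := mul_le_mul_of_nonneg_left t1 l0.le
  have t4 := mul_le_mul_of_nonneg_left t2 l0.le
  have t5 := mul_pos η0 l0
  rw [pp, abs_le, neg_le_sub_iff_le_add, ← sub_le_iff_le_add, le_div_iff₀ l0, sub_le_iff_le_add,
    div_le_iff₀ l0]
  constructor <;> linarith

theorem second {H : SimpleGraph V} {o w : V} {S X : Finset V} (ha : Adm r Fr c H o S w X)
    (hH : ec H = ec (Hm G c)) (hk : 1 ≤ ec (Hm G c)) (he : S.card + X.card = ec (Xe G c))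
    (hE : ec (Xe G c) ≤ C) (hsq : D2 G c ≤ S.card ^ 2 + (X.erase o).card ^ 2) :
    lam G * (qf (Hm G c) (pp G c x) - qf H (pp G c x)) + ∑ v, op H (pp G c x) v ^ 2 -
      ∑ v, op (Hm G c) (pp G c x) v ^ 2 ≤ 300 * C ^ 2 * η * ec (Hm G c) := by
  have l0 := h.l0
  have η0 := h.η0
  have hC : (3 : ℝ) ≤ C := by exact_mod_cast h.r3.trans h.rC
  have hη : 100 * η ≤ 1 := by
    have h1 := h.η_small
    nlinarith
  have hk1 : (1 : ℝ) ≤ ec (Hm G c) := by exact_mod_cast hk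
  have hkl := h.st.hk
  have hA : Hm G c ≤ Kc c := Hm_le G c
  have hB : H ≤ Kc c := ha.ok.hH
  obtain ⟨p, hp⟩ : ∃ p, p = pp G c x := ⟨_, rfl⟩
  rw [← hp]
  have p0 : ∀ v, c v = 0 → p v = 0 := fun v hv => by
    rw [hp, pp, ASa_op_zero le_rfl x hv, zero_div]
  have p1 : ∀ v, 0 ≤ p v := fun v => by
    rw [hp, pp]; exact div_nonneg (op_nonneg h.st.eig.nonneg v) l0.le
  have p2 : ∀ v, p v ≤ 2 := fun v => by
    by_cases hv : c v = 0
    · rw [p0 v hv]; norm_num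
    · rw [hp]; linarith [(abs_le.1 (h.pp_near hE hv)).2]
  have p3 : ∀ v, op (Kc c) (rT c x) v = lam G * p v := fun v => by
    rw [hp, pp, mul_div_cancel₀ _ l0.ne']
    exact ASa_op_congr fun u hu => by rw [rT, if_neg hu.2.1]
  obtain ⟨a, hda⟩ : ∃ a, a = op (Hm G c) p := ⟨_, rfl⟩
  obtain ⟨b, hdb⟩ : ∃ b, b = op H p := ⟨_, rfl⟩
  obtain ⟨u, hu⟩ : ∃ u, u = rT c fun v => op (Hm G c) x v - op (Xe G c) x v := ⟨_, rfl⟩
  have ex : rT c x = fun v => p v + -(lam G)⁻¹ * u v := by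
    funext v
    by_cases hv : c v = 0
    · rw [hu, rT, rT, if_pos hv, if_pos hv, p0 v hv]; ring
    · have e1 := op_split h.st.proper x hv
      rw [h.st.eig.eig] at e1
      rw [hu, rT, rT, if_neg hv, if_neg hv, hp, pp]
      field_simp
      linarith
  have a0 : ∀ v, 0 ≤ a v := fun v => hda ▸ op_nonneg p1 v
  have b0 : ∀ v, 0 ≤ b v := fun v => hdb ▸ op_nonneg p1 v
  have a1 : ∑ v, a v ≤ 2 * ec (Hm G c) * 2 := hda ▸ sum_op_le fun u _ _ => p2 u
  have b1 : ∑ v, b v ≤ 2 * ec (Hm G c) * 2 := by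
    rw [← hH, hdb]; exact sum_op_le fun u _ _ => p2 u
  have b2 : ∀ v, b v ≤ ec (Hm G c) * 2 := fun v => by
    rw [← hH, hdb]; exact op_le (by norm_num) (fun u _ _ => p2 u) v
  have u1 : ∑ v, |u v| ≤ 5 * ec (Hm G c) := by
    have h1 := h.err_le hE
    rw [← sum_op_Xe, sum_filter, ← sum_add_distrib] at h1
    refine le_trans (sum_le_sum fun v _ => ?_) (h1.trans (by linarith))
    have h2 : 0 ≤ op (Hm G c) x v := op_nonneg h.st.eig.nonneg v
    have h3 : 0 ≤ op (Xe G c) x v := op_nonneg h.st.eig.nonneg v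
    by_cases hv : c v = 0
    · rw [hu, rT, if_pos hv, if_neg (not_not.2 hv), abs_zero]; linarith
    · rw [hu, rT, if_neg hv, if_pos hv, abs_le]; constructor <;> linarith
  have d1 : ∑ v, |a v - b v| ≤ 8 * ec (Hm G c) := by
    have h1 : ∑ v, |a v - b v| ≤ ∑ v, (a v + b v) := sum_le_sum fun v _ => by
      rw [abs_le]; constructor <;> linarith [a0 v, b0 v]
    rw [sum_add_distrib] at h1
    linarith
  have w1 : ∑ v, |a v - u v - b v| ≤ 13 * ec (Hm G c) := by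
    have h1 : ∑ v, |a v - u v - b v| ≤ ∑ v, (|a v - b v| + |u v|) := sum_le_sum fun v _ => by
      rw [sub_right_comm]; exact abs_sub _ _
    rw [sum_add_distrib] at h1
    linarith
  obtain ⟨y, hy⟩ : ∃ y : V → ℝ, y = fun v => rT c x v + (lam G)⁻¹ * (a v - b v) := ⟨_, rfl⟩
  have y1 : ∀ v, c v = 0 → y v = 0 := fun v hv => by
    simp only [hy, hda, hdb, ASa_op_zero hA p hv, ASa_op_zero hB p hv, rT, if_pos hv]
    ring
  have y2 : ∀ v, c v ≠ 0 → 1 - 3 * η ≤ y v := fun v hv => by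
    have h1 := (abs_le.1 (h.st.typ v hv)).1
    have h2 : -(2 * η) ≤ (lam G)⁻¹ * (a v - b v) := by
      rw [le_inv_mul_iff₀ l0]
      linarith [a0 v, b2 v]
    simp only [hy, rT, if_neg hv]
    linarith
  have y0 : ∀ v, 0 ≤ y v := fun v => by
    by_cases hv : c v = 0
    · exact (y1 v hv).ge
    · linarith [y2 v hv]
  have y3 : y = fun v => p v + (lam G)⁻¹ * (a v - u v - b v) := by
    funext v
    simp only [hy, ex]
    ring
  have hec : ec (Tg c H o S w X) = ec G := by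
    have h1 := ha.ok.ec_eq
    have h2 := ec_split h.st.proper
    omega
  have M := ha.master h.ex hec l0 y0 y1
  have I := h.st.eig.ident h.st.proper
  have E1 : qf (Kc c) y = qf (Kc c) (rT c x) +
      2 * (lam G)⁻¹ * ∑ v, (a v - b v) * (lam G * p v) +
        (lam G)⁻¹ ^ 2 * qf (Kc c) fun v => a v - b v := by
    rw [hy, ASa_qf_add]
    simp only [p3]
  have E2 : qf (Hm G c) x = qf (Hm G c) p + 2 * -(lam G)⁻¹ * ∑ v, u v * a v +
      (lam G)⁻¹ ^ 2 * qf (Hm G c) u := by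
    rw [ASa_qf_rT hA, ex, ASa_qf_add, ← hda, neg_sq]
  have E3 : qf H y = qf H p + 2 * (lam G)⁻¹ * ∑ v, (a v - u v - b v) * b v +
      (lam G)⁻¹ ^ 2 * qf H fun v => a v - u v - b v := by
    rw [y3, ASa_qf_add, ← hdb]
  have E4 : lam G * (2 * (lam G)⁻¹ * ∑ v, (a v - b v) * (lam G * p v) -
      lam G * (∑ v, y v ^ 2 - ∑ v, rT c x v ^ 2) + 2 * -(lam G)⁻¹ * ∑ v, u v * a v -
      2 * (lam G)⁻¹ * ∑ v, (a v - u v - b v) * b v) = ∑ v, b v ^ 2 - ∑ v, a v ^ 2 := by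
    simp only [mul_sum, ← sum_sub_distrib, ← sum_add_distrib]
    refine sum_congr rfl fun v _ => ?_
    simp only [hy, ex]
    exact ASa_point l0.ne'
  have k0 : (0 : ℝ) ≤ ec (Hm G c) := by linarith
  have B1 := (abs_le.1 (ASa_div l0 k0 hkl (ASa_qf_abs (Kc c) _ d1))).1
  have B2 := (abs_le.1 (ASa_div l0 k0 hkl (ASa_qf_abs (Hm G c) _ u1))).1
  have B3 := (abs_le.1 (ASa_div l0 k0 hkl (ASa_qf_abs H _ w1))).2
  have Q := h.Q_sq hE
  have S1 := ASa_sq (s := S) (by linarith) fun v hv => y2 v (ha.ok.hS v hv)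
  have S2' := ASa_sq (s := X.erase o) (by linarith) fun v hv =>
    y2 v ((ha.ok.hX v (mem_erase.1 hv).2).resolve_right (mem_erase.1 hv).1)
  have S3 : ∑ v ∈ X.erase o, y v = ∑ v ∈ X, y v := sum_erase _ (y1 o ha.ok.o0)
  rw [S3] at S2'
  have hsq' : (D2 G c : ℝ) ≤ (S.card : ℝ) ^ 2 + ((X.erase o).card : ℝ) ^ 2 := by
    exact_mod_cast hsq
  have hcard : (S.card : ℝ) ^ 2 + ((X.erase o).card : ℝ) ^ 2 ≤ (C : ℝ) ^ 2 := by
    have h1 : S.card + (X.erase o).card ≤ C := by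
      have := card_erase_le (s := X) (a := o)
      omega
    have h2 : (S.card : ℝ) + (X.erase o).card ≤ C := by exact_mod_cast h1
    have h3 := pow_le_pow_left₀ (by positivity) h2 2
    have h4 : (0 : ℝ) ≤ (S.card : ℝ) * (X.erase o).card := by positivity
    nlinarith
  have F1 := mul_le_mul_of_nonneg_left hcard η0.le
  have F2 : (C : ℝ) ^ 2 * η ≤ C ^ 2 * η * ec (Hm G c) :=
    le_mul_of_one_le_right (by positivity) hk1
  have F3 : 9 * (η * ec (Hm G c)) ≤ C ^ 2 * (η * ec (Hm G c)) :=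
    mul_le_mul_of_nonneg_right (by nlinarith) (by positivity)
  have F4 : 0 ≤ η * ec (Hm G c) := by positivity
  rw [← hda, ← hdb]
  unfold Ph at M I
  rw [E1, E3] at M
  rw [E2] at I
  have I' := congrArg (lam G * ·) I
  linarith

end Ctx

end Pool.Agent.P.MP_094db5_co
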