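import Pool.Agent.P.MP_094db5_co.ABig
import Pool.Agent.P.MP_094db5_co.AStr
import Pool.Agent.P.MP_094db5_co.AFr

/-! Wheels: basic facts and many outer edges. -/

set_option autoImplicit false

open Finset Classical

noncomputable section

namespace Pool.Agent.P.MP_094db5_co

variable {V : Type} [Fintype V] {q C : ℕ} {G : SimpleGraph V} {x : V → ℝ} {η : ℝ} {c : V → ℕ}
  {z : V}

namespace Ctx

variable (h : Ctx 3 C (fun G : SimpleGraph V => (Whl q).Free G) G x η c z) (hq : 2 ≤ q)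
  (hC : 2 * q + 20 ≤ C)
include h hq hC

theorem cores : Cores G 3 (2 * q + 3) c := by
  intro i hi
  have a1 := card_supp_le (Hm G c)
  have a2 := h.room hi
  refine ⟨Vp c i \ univ.filter fun v => ∃ u, (Hm G c).Adj v u, ?_, fun v hv => ?_⟩
  · have := le_card_sdiff (univ.filter fun v => ∃ u, (Hm G c).Adj v u) (Vp c i)
    rw [card_Vp] at this
    omega
  · simp only [mem_sdiff, mem_filter, mem_univ, true_and, not_exists, mem_Vp] at hv
    have := mem_Icc.1 hi
    refine ⟨hv.1, fun u h1 h2 => ?_⟩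
    by_contra hn
    exact hv.2 u ⟨⟨by omega, h1, by omega⟩, fun a => hn a.symm⟩

theorem AWh1_key {w a b e : V} (hw : c w = 0) (ha : a ∈ nT G c w) (hb : b ∈ nT G c w)
    (he : e ∈ nT G c w) (hab : c a ≠ c b) (hae : c a ≠ c e) (hbe : c b ≠ c e) (h1 : G.Adj a b)
    (h2 : G.Adj a e) : False := by
  rw [mem_nT] at ha hb he
  have hj : c b ∈ Icc 1 3 := mem_Icc.2 ⟨by omega, h.st.le b⟩
  have hl : c e ∈ Icc 1 3 := mem_Icc.2 ⟨by omega, h.st.le e⟩
  obtain ⟨P, p1, p2⟩ := h.cores hq hC _ hl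
  obtain ⟨d, hd, hde⟩ := exists_mem_ne (s := P) (by omega) e
  exact (h.cores hq hC).wheel hq hj hl hbe hb.1 ((p2 d hd).2 _ hb.2 hbe) he.1.symm ha.1.symm h1
    ((p2 d hd).2 _ ha.2 hae) h2 hde hw hbe (p2 d hd).1 rfl ha.2 hab hae h.ex.fr

theorem AWh1_tri {w a b e : V} (hw : c w = 0) (ha : a ∈ nT G c w) (hb : b ∈ nT G c w)
    (he : e ∈ nT G c w) (hab : c a ≠ c b) (hae : c a ≠ c e) (hbe : c b ≠ c e) :
    (Hm G c).Adj a b ∧ (Hm G c).Adj a e ∨ (Hm G c).Adj b a ∧ (Hm G c).Adj b e ∨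
      (Hm G c).Adj e a ∧ (Hm G c).Adj e b := by
  have a0 := (mem_nT.1 ha).2
  have b0 := (mem_nT.1 hb).2
  have e0 := (mem_nT.1 he).2
  by_cases e1 : G.Adj a b
  · exact Or.inr (Or.inr ⟨⟨⟨e0, a0, hae.symm⟩,
      fun x => h.AWh1_key hq hC hw ha hb he hab hae hbe e1 x.symm⟩, ⟨e0, b0, hbe.symm⟩,
      fun x => h.AWh1_key hq hC hw hb ha he hab.symm hbe hae e1.symm x.symm⟩)
  · by_cases e2 : G.Adj a e
    · exact Or.inr (Or.inl ⟨⟨⟨b0, a0, hab.symm⟩, fun x => e1 x.symm⟩, ⟨b0, e0, hbe⟩,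
        fun x => h.AWh1_key hq hC hw he ha hb hae.symm hbe.symm hab e2.symm x.symm⟩)
    · exact Or.inl ⟨⟨⟨a0, b0, hab⟩, e1⟩, ⟨a0, e0, hae⟩, e2⟩

/-- a vertex that sees all parts forces two missing pairs -/
theorem wheel_path {w : V} (hw : c w = 0) (hs : Sees G 3 c w) : ∃ a ∈ nT G c w, ∃ b ∈ nT G c w,
    ∃ e ∈ nT G c w, (Hm G c).Adj a b ∧ (Hm G c).Adj a e ∧ c b ≠ c e := by
  obtain ⟨a, a1, a2⟩ := hs 1 (by simp)
  obtain ⟨b, b1, b2⟩ := hs 2 (by simp)
  obtain ⟨e, e1, e2⟩ := hs 3 (by simp)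
  have ha : a ∈ nT G c w := mem_nT.2 ⟨a2, by omega⟩
  have hb : b ∈ nT G c w := mem_nT.2 ⟨b2, by omega⟩
  have he : e ∈ nT G c w := mem_nT.2 ⟨e2, by omega⟩
  rcases h.AWh1_tri hq hC hw ha hb he (by omega) (by omega) (by omega) with t | t | t
  · exact ⟨a, ha, b, hb, e, he, t.1, t.2, by omega⟩
  · exact ⟨b, hb, a, ha, e, he, t.1, t.2, by omega⟩
  · exact ⟨e, he, a, ha, b, hb, t.1, t.2, by omega⟩

theorem wheel_two {w : V} (hw : c w = 0) (hs : Sees G 3 c w) : 2 ≤ ec (Hm G c) := by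
  obtain ⟨a, -, b, -, e, -, h1, h2, h3⟩ := h.wheel_path hq hC hw hs
  have hbe : b ≠ e := fun x => h3 (x ▸ rfl)
  have a1 : Sg a {b, e} ≤ Hm G c := Sg_le fun v hv => by
    rcases mem_insert.1 hv with rfl | hv
    · exact h1
    · rw [mem_singleton.1 hv]; exact h2
  have a2 := ec_mono a1
  rwa [ec_Sg (by simp [h1.ne, h2.ne]), card_pair hbe] at a2

theorem wheel_cover {w : V} (hw : c w = 0) (hs : Sees G 3 c w) :
    ∀ v ∈ nT G c w, ∃ u, (Hm G c).Adj v u := by
  intro v hv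
  obtain ⟨j, l, hj, hl, hji, hli, hjl⟩ := exists_third (r := 3) le_rfl (c v)
  obtain ⟨b, b1, b2⟩ := hs j hj
  obtain ⟨e, e1, e2⟩ := hs l hl
  have := mem_Icc.1 hj
  have := mem_Icc.1 hl
  rcases h.AWh1_tri hq hC hw hv (mem_nT.2 ⟨b2, by omega⟩) (mem_nT.2 ⟨e2, by omega⟩) (by omega)
    (by omega) (by omega) with t | t | t
  · exact ⟨b, t.1⟩
  · exact ⟨b, t.1.symm⟩
  · exact ⟨e, t.1.symm⟩

/-- the comparison target with two adjacent new vertices -/
theorem AWh1_target {l : ℕ} (hl : l ∈ Icc 1 3) : ∃ (o w : V) (U Y X : Finset V),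
    (∀ v ∈ U, c v ≠ 0) ∧ Y ⊆ U ∧ Y.card ≤ 2 ∧ ec (Xe G c) + 1 ≤ U.card ∧ X.card = 3 ∧
      (Out c l \ U).card ≤ 2 ∧ ∀ S, Y ⊆ S → S ⊆ U →
        Adm 3 (fun G : SimpleGraph V => (Whl q).Free G) c ⊥ o S w X := by
  obtain ⟨i, j, hi, hj, hil, hjl, hij⟩ := exists_third (r := 3) le_rfl l
  have two : ∀ m ∈ Icc 1 3, ∃ a a', c a = m ∧ c a' = m ∧ a ≠ a' := fun m hm => by
    have := h.room hm
    obtain ⟨a, ha, a', ha', e⟩ := one_lt_card.1 (show 1 < (Vp c m).card by rw [card_Vp]; omega)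
    exact ⟨a, a', mem_Vp.1 ha, mem_Vp.1 ha', e⟩
  obtain ⟨a, a', ha, ha', haa⟩ := two i hi
  obtain ⟨b, b', hb, hb', hbb⟩ := two j hj
  obtain ⟨w, hw, hwz⟩ := h.other z
  have hz := h.st.z0
  have i1 := mem_Icc.1 hi
  have j1 := mem_Icc.1 hj
  have l1 := mem_Icc.1 hl
  have hX : ({z, a, b} : Finset V).card = 3 := by
    rw [card_insert_of_notMem (by simp only [mem_insert, mem_singleton]; grind),
      card_pair (by grind)]
  refine ⟨z, w, Out c l \ {a, b}, {a', b'}, {z, a, b}, fun v hv => (mem_Out.1 (mem_sdiff.1 hv).1).1,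
    fun v hv => ?_, card_le_two, ?_, hX, ?_, fun S h1 h2 => ?_⟩
  · simp only [mem_insert, mem_singleton, mem_sdiff, mem_Out] at hv ⊢
    grind
  · have := le_card_sdiff {a, b} (Out c l)
    have := card_le_two (a := a) (b := b)
    have := h.cap1 hl
    omega
  · refine (card_le_card fun v hv => ?_).trans (card_le_two (a := a) (b := b))
    simp only [mem_sdiff] at hv
    grind
  · have hS : ∀ v ∈ S, c v ≠ 0 ∧ c v ≠ l ∧ v ≠ a ∧ v ≠ b := fun v hv => by
      have := h2 hv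
      simp only [mem_insert, mem_singleton, mem_sdiff, mem_Out] at this
      grind
    have ok : TgOK 3 c ⊥ z S w {z, a, b} := ⟨h.st.le, bot_le, hz, hw, hwz.symm,
      fun v hv => (hS v hv).1, fun v hv => by
        simp only [mem_insert, mem_singleton] at hv
        grind⟩
    refine ⟨ok, ok.gad (cls_wheel hq) hl (fun v hv => (hS v hv).2.1) hX.le (a := z) (by simp)
      fun v hv => ?_, ok.nc2 (l := l) (fun m hm => ?_) (by simp) (fun m hm hml => ?_)
        fun m hm hml => ?_⟩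
    · rw [Tg_adj]
      simp only [mem_insert, mem_singleton] at hv
      have := hS v
      have := hS z
      unfold cross
      grind
    · have := h.room hm
      rw [ec_bot]
      omega
    · have := mem_Icc.1 hm
      by_cases e : m = i
      · exact ⟨a', h1 (by simp), by omega⟩
      · exact ⟨b', h1 (by simp), by omega⟩
    · have := mem_Icc.1 hm
      by_cases e : m = i
      · exact ⟨a, by simp, by omega⟩
      · exact ⟨b, by simp, by omega⟩

theorem wheel_sees (hz : Sees G 3 c z) (hΔ : ec (Hm G c) + 6 ≤ ec (Xe G c)) : False := by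
  obtain ⟨o, w, U, Y, X, t1, t2, t3, t4, t5, -, t7⟩ := h.AWh1_target hq hC (l := 1) (by simp)
  have k2 := h.wheel_two hq hC h.st.z0 hz
  have d2 : dT G c z ≤ 2 * ec (Hm G c) :=
    (card_le_card fun v hv => mem_filter.2
      ⟨mem_univ _, h.wheel_cover hq hC h.st.z0 hz v hv⟩).trans (card_supp_le (Hm G c))
  have hCk : 3 * ec (Hm G c) ≤ C * ec (Hm G c) := Nat.mul_le_mul_right _ (by omega)
  by_cases hd : dT G c z + 3 ≤ ec (Xe G c)
  · have := h.big (H := ⊥) (σ := ec (Xe G c) - ec (Hm G c) - 3) bot_le t1 t2 (by omega) (by omega)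
      (fun S h1 h2 _ => t7 S h1 h2) (by rw [ec_bot]; omega) (by omega) t5.le (by
        have : (nT G c z \ U).card ≤ dT G c z := card_le_card sdiff_subset
        rw [ec_bot, mul_add]
        omega) (by rw [ec_bot]; omega)
    rw [ec_bot] at this
    omega
  · obtain ⟨S, s1, s2, s3⟩ := exists_subsuperset_card_eq (n := ec (Xe G c) - ec (Hm G c) - 3) t2
      (by omega) (by omega)
    refine h.kmin (t7 S s1 s2) (by rw [ec_bot]; omega) (by rw [ec_bot]; omega)
      (by rw [ec_bot]; omega) ?_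
    rw [bot_sdiff, ec_bot]
    omega

/-- a second neighbour in a part gives a wheel -/
theorem AWh1_hub (hk : Hm G c = ⊥) {l : ℕ} (hl : l ∈ Icc 1 3) {u a b d : V} (hu : c u = 0)
    (h1 : G.Adj u z) (h2 : G.Adj u a) (h3 : G.Adj u b) (ha : a ∈ nT G c z) (hd : d ∈ nT G c z)
    (hdb : d ≠ b) (cd : c d = c b) (cab : c a ≠ c b) (cal : c a ≠ l) (cbl : c b ≠ l) : False := by
  rw [mem_nT] at ha hd
  have full : ∀ p p', c p ≠ 0 → c p' ≠ 0 → c p ≠ c p' → G.Adj p p' := fun p p' e1 e2 e3 => by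
    by_contra hn
    have : (Hm G c).Adj p p' := ⟨⟨e1, e2, e3⟩, hn⟩
    rw [hk] at this
    exact this
  have hz := h.st.z0
  exact (h.cores hq hC).wheel hq hl (l := c b) (mem_Icc.2 ⟨by omega, h.st.le b⟩) cbl.symm h1 hd.1
    h3.symm h2.symm ha.1.symm (full _ _ ha.2 hd.2 (by omega)) (full _ _ ha.2 (by omega) cab) hdb hu
    (by omega) cd rfl ha.2 cal cab h.ex.fr

theorem AWh1_not (hk : Hm G c = ⊥) {l : ℕ} (hl : l ∈ Icc 1 3) (hz : ∀ v ∈ nT G c z, c v ≠ l)
    (hd : 3 ≤ dT G c z) {u a b : V} (hu : c u = 0) (h1 : G.Adj u z) (h2 : G.Adj u a)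
    (h3 : G.Adj u b) (b0 : c b ≠ 0) (cab : c a ≠ c b) (cal : c a ≠ l) (cbl : c b ≠ l)
    (hb : ∃ v ∈ nT G c z, c v = c b) : a ∉ nT G c z := by
  intro ha
  have e1 : ∀ d ∈ nT G c z, c d = c b → d = b := fun d hd' cd => by
    by_contra hn
    exact h.AWh1_hub hq hC hk hl hu h1 h2 h3 ha hd' hn cd cab cal cbl
  obtain ⟨v, hv, cv⟩ := hb
  obtain rfl := e1 v hv cv
  obtain ⟨d, d1, d2⟩ := exists_mem_notMem_of_card_lt_card (s := {a, v}) (t := nT G c z)
    (card_le_two.trans_lt hd)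
  simp only [mem_insert, mem_singleton, not_or] at d2
  have a0 := (mem_nT.1 ha).2
  have d0 := (mem_nT.1 d1).2
  have := hz d d1
  have := h.st.le a
  have := h.st.le v
  have := h.st.le d
  have := mem_Icc.1 hl
  have : c d ≠ c v := fun e => d2.2 (e1 d d1 e)
  exact h.AWh1_hub hq hC hk hl hu h1 h3 h2 hv d1 d2.1 (by omega) cab.symm cbl cal

theorem wheel_avoid {l : ℕ} (hl : l ∈ Icc 1 3) (hz : ∀ v ∈ nT G c z, c v ≠ l)
    (hΔ : ec (Hm G c) + 6 ≤ ec (Xe G c)) : ∃ c', FamW G c' ∧ NI G c' := by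
  obtain ⟨o, w, U, Y, X₀, t1, t2, t3, t4, t5, t6, t7⟩ := h.AWh1_target hq hC hl
  obtain ⟨k0, hE⟩ := h.big (H := ⊥) (σ := ec (Xe G c) - ec (Hm G c) - 3) bot_le t1 t2 (by omega)
    (by omega) (fun S h1 h2 _ => t7 S h1 h2) (by rw [ec_bot]; omega)
    (by rw [t5]; exact h.avoid hl hz) t5.le (by
      have : (nT G c z \ U).card ≤ (Out c l \ U).card := card_le_card
        (sdiff_subset_sdiff (fun v hv => mem_Out.2 ⟨(mem_nT.1 hv).2, hz v hv⟩) Subset.rfl)
      rw [ec_bot, mul_add]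
      omega) (fun _ e => by
      by_contra hn
      push Not at hn
      obtain ⟨p, p1, p2⟩ := h.sees_noWw hn
      have := h.wheel_two hq hC p1 p2
      rw [ec_bot] at e
      omega)
  rw [ec_bot] at k0
  rw [t5] at hE
  have hk : Hm G c = ⊥ := ec_eq_zero.1 k0.symm
  obtain ⟨u, X, ok, e, tr, last⟩ := h.avoid_eq hl hz hE
  have l1 := mem_Icc.1 hl
  have hu := ok.w0
  have z0 := h.st.z0
  have adj : ∀ v ∈ X, G.Adj u v := fun v hv => by
    have hne : u ≠ v := by
      have := ok.hX v hv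
      have := ok.ow
      grind
    rw [e, Tg_adj]
    exact Or.inr (Or.inr ⟨hne, Or.inl ⟨rfl, hv⟩⟩)
  have hzX : z ∈ X := by
    by_contra hn
    have : Sees G 3 c u := fun i hi => by
      obtain ⟨v, v1, v2⟩ := tr.2.1 i hi
      rw [Function.update_of_ne (by rintro rfl; exact hn v1)] at v2
      exact ⟨v, v2, adj v v1⟩
    have := h.wheel_two hq hC hu this
    omega
  replace last := last hzX
  obtain ⟨i, j, hi, hj, hil, hjl, hij⟩ := exists_third (r := 3) le_rfl l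
  have i1 := mem_Icc.1 hi
  have j1 := mem_Icc.1 hj
  obtain ⟨a, a1, a2⟩ := tr.2.1 i hi
  obtain ⟨b, b1, b2⟩ := tr.2.1 j hj
  have az : a ≠ z := by rintro rfl; rw [Function.update_self] at a2; omega
  have bz : b ≠ z := by rintro rfl; rw [Function.update_self] at b2; omega
  have a3 : c a = i := by rwa [Function.update_of_ne az] at a2
  have b3 : c b = j := by rwa [Function.update_of_ne bz] at b2
  have hX : (X : Set V) = {z, a, b} := by
    ext v
    simp only [mem_coe, Set.mem_insert_iff, Set.mem_singleton_iff]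
    refine ⟨fun hv => ?_, by rintro (rfl | rfl | rfl) <;> assumption⟩
    have x0 := tr.1 v hv
    have x1 := tr.2.2 v hv z hzX
    have x2 := tr.2.2 v hv a a1
    have x3 := tr.2.2 v hv b b1
    have x4 : Function.update c z l v ≤ 3 := by
      have := h.st.le v
      grind
    rw [Function.update_self] at x1
    rw [a2] at x2
    rw [b2] at x3
    generalize Function.update c z l v = n at *
    have : n = l ∨ n = i ∨ n = j := by omega
    tauto
  have na := h.AWh1_not hq hC hk hl hz (by omega) hu (adj z hzX) (adj a a1) (adj b b1) (by omega)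
    (by omega) (by omega) (by omega) (b3 ▸ last j hj hjl)
  have nb := h.AWh1_not hq hC hk hl hz (by omega) hu (adj z hzX) (adj b b1) (adj a a1) (by omega)
    (by omega) (by omega) (by omega) (a3 ▸ last i hi hil)
  rw [hk] at ok e
  have mp := h.mp_update ok e hl hz
  rw [hX] at mp
  have up : ∀ v, c v ≠ 0 → Function.update c z l v = c v := fun v hv =>
    Function.update_of_ne (by rintro rfl; exact hv z0) _ _
  refine ⟨Function.update c z l, ⟨u, z, a, b, (Out c l \ nT G c z : Finset V), ?_, ?_, by omega,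
    by omega, by omega, fun v hv => ?_, Or.inl ⟨mp, fun v hv => ?_, ?_, ?_, ?_, ?_⟩⟩,
    h.ni_update l (adj z hzX).symm⟩
  · rw [Function.update_of_ne ok.ow.symm, hu]
  · rw [Function.update_self]; omega
  · have := mem_Out.1 (mem_sdiff.1 (mem_coe.1 hv)).1
    rw [up v this.1]
    exact this.1
  · have := mem_Out.1 (mem_sdiff.1 (mem_coe.1 hv)).1
    rw [up v this.1, Function.update_self]
    exact this.2
  · exact mem_coe.2 (mem_sdiff.2 ⟨mem_Out.2 (by omega), na⟩)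
  · exact mem_coe.2 (mem_sdiff.2 ⟨mem_Out.2 (by omega), nb⟩)
  · obtain ⟨y, y1, y2⟩ := last i hi hil
    exact ⟨y, fun hy => (mem_sdiff.1 (mem_coe.1 hy)).2 y1, by rw [up y (by omega), a2, y2]⟩
  · obtain ⟨y, y1, y2⟩ := last j hj hjl
    exact ⟨y, fun hy => (mem_sdiff.1 (mem_coe.1 hy)).2 y1, by rw [up y (by omega), b2, y2]⟩

end Ctx

end Pool.Agent.P.MP_094db5_co
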