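import Pool.Agent.P.MP_094db5_co.AWh1
import Pool.Agent.P.MP_094db5_co.ASc

/-! Wheels: few outer edges, first part. -/

set_option autoImplicit false

open Finset Classical

noncomputable section

namespace Pool.Agent.P.MP_094db5_co

variable {V : Type} [Fintype V] {q C : ℕ} {G : SimpleGraph V} {x : V → ℝ} {η : ℝ} {c : V → ℕ}
  {z : V}

omit [Fintype V] in
lemma AWh2_card3 {a b e : V} (h1 : c a ≠ c b) (h2 : c a ≠ c e) (h3 : c b ≠ c e) :
    ({a, b, e} : Finset V).card = 3 :=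
  card_eq_three.mpr ⟨a, b, e, fun h => h1 (congrArg c h), fun h => h2 (congrArg c h),
    fun h => h3 (congrArg c h), rfl⟩

omit [Fintype V] in
lemma AWh2_card2 {b e : V} (h3 : c b ≠ c e) : ({b, e} : Finset V).card = 2 :=
  card_pair fun h => h3 (congrArg c h)

omit [Fintype V] in
lemma AWh2_nm {a b e : V} (h1 : c a ≠ c b) (h2 : c a ≠ c e) : a ∉ ({b, e} : Finset V) := by
  simp only [mem_insert, mem_singleton, not_or]
  exact ⟨fun h => h1 (congrArg c h), fun h => h2 (congrArg c h)⟩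

omit [Fintype V] in
lemma AWh2_adj {a v : V} {D : Finset V} (ha : a ∉ D) (hv : v ∈ D) : (Sg a D).Adj a v :=
  ⟨fun h => ha (h ▸ hv), Or.inl ⟨rfl, hv⟩⟩

omit [Fintype V] in
lemma AWh2_erase {o a b e : V} (ho : c o = 0) (h1 : c a ≠ 0) (h2 : c b ≠ 0) (h3 : c e ≠ 0) :
    ({a, b, e} : Finset V).erase o = {a, b, e} := by
  refine erase_eq_of_notMem ?_
  simp only [mem_insert, mem_singleton, not_or]
  exact ⟨fun h => h1 (h ▸ ho), fun h => h2 (h ▸ ho), fun h => h3 (h ▸ ho)⟩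

namespace Ctx

variable (h : Ctx 3 C (fun G : SimpleGraph V => (Whl q).Free G) G x η c z) (hq : 2 ≤ q)
  (hC : 2 * q + 20 ≤ C)
include h hq hC

omit hq in
lemma AWh2_fresh {i : ℕ} (hi : i ∈ Icc 1 3) : ∃ y, c y = i ∧ ∀ u, ¬ (Hm G c).Adj y u := by
  have := h.room hi
  obtain ⟨y, h1, -, h2⟩ := exists_fresh (c := c) (Hm G c) ∅ (i := i) (by rw [card_empty]; omega)
  exact ⟨y, h1, h2⟩

omit hq in
lemma AWh2_set {s : ℕ} (hs : s ≤ 2) : ∃ S : Finset V, S.card = s ∧ ∀ v ∈ S, c v ≠ 0 := by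
  have := h.room (i := 1) (by decide)
  obtain ⟨S, h1, h2⟩ := exists_subset_card_eq (s := Vp c 1) (n := s) (by rw [card_Vp]; omega)
  refine ⟨S, h2, fun v hv => ?_⟩
  rw [mem_Vp.mp (h1 hv)]
  exact one_ne_zero

omit hq in
lemma AWh2_room {H : SimpleGraph V} (hH : ec H ≤ ec (Hm G c)) :
    ∀ i ∈ Icc 1 3, 2 * ec H < cn c i := fun i hi => by
  have := h.room hi
  omega

lemma AWh2_one {s : ℕ} (hs : s ≤ 2) (h1 : ec (Xe G c) ≤ ec (Hm G c) + s + 1)
    (h2 : s + 4 ≤ ec (Xe G c)) : False := by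
  obtain ⟨a, ha, hf⟩ := h.AWh2_fresh hC (i := 1) (by decide)
  obtain ⟨b, hb, -⟩ := h.AWh2_fresh hC (i := 2) (by decide)
  obtain ⟨e, he, -⟩ := h.AWh2_fresh hC (i := 3) (by decide)
  obtain ⟨S, hS, hS0⟩ := h.AWh2_set hC hs
  obtain ⟨o, ho, hoz⟩ := h.other z
  obtain ⟨H, -, hH, hn⟩ := exists_between (H₀ := ⊥) (H := Hm G c) bot_le
    (n := ec (Hm G c) + s + 1 - ec (Xe G c)) (by rw [ec_bot]; omega) (by omega)
  have hab : c a ≠ c b := by omega
  have hae : c a ≠ c e := by omega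
  have hbe : c b ≠ c e := by omega
  have hnm := AWh2_nm hab hae
  have h2' : ec (Sg a {b, e}) = 2 := by rw [ec_Sg hnm, AWh2_card2 hbe]
  have hd : Disjoint H (Sg a {b, e}) := by
    rw [disjoint_iff_inf_le]
    rintro u v ⟨h1, -, ⟨rfl, -⟩ | ⟨rfl, -⟩⟩
    · exact (hf v (hH h1)).elim
    · exact (hf u (hH h1.symm)).elim
  have hec := ec_sup hd
  have hle : Sg a {b, e} ≤ Kc c := Sg_le fun v hv => by
    simp only [mem_insert, mem_singleton] at hv
    rcases hv with rfl | rfl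
    · exact ⟨by omega, by omega, hab⟩
    · exact ⟨by omega, by omega, hae⟩
  have adm := admW1 (q := q) (H := H ⊔ Sg a {b, e}) (S := S) (a := a) (b := b) (e := e) hq
    h.st.le (sup_le (hH.trans (Hm_le G c)) hle) (h.AWh2_room hC (by omega)) ho h.st.z0 hoz
    (Or.inr (AWh2_adj hnm (by simp))) (Or.inr (AWh2_adj hnm (by simp))) hbe hS0 (by omega)
  refine h.kmin adm (by rw [AWh2_card3 hab hae hbe]; omega) (by omega) ?_ ?_
  · obtain ⟨t, ht⟩ : ∃ t, ec (Xe G c) = s + 4 + t := ⟨ec (Xe G c) - (s + 4), by omega⟩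
    have e1 : ec (Hm G c) = ec (H ⊔ Sg a {b, e}) + (t + 1) := by omega
    rw [e1, mul_add]
    have : 24 * (t + 1) ≤ C * (t + 1) := Nat.mul_le_mul_right _ (by omega)
    omega
  · have : (H ⊔ Sg a {b, e}) \ Hm G c ≤ Sg a {b, e} := by
      rintro u v ⟨h1 | h1, h2⟩
      · exact (h2 (hH h1)).elim
      · exact h1
    have := ec_mono this
    omega

lemma AWh2_two (h1 : ec (Xe G c) ≤ ec (Hm G c) + 5) (h2 : 6 ≤ ec (Xe G c)) : False := by
  obtain ⟨a, ha, -⟩ := h.AWh2_fresh hC (i := 1) (by decide)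
  obtain ⟨b, hb, -⟩ := h.AWh2_fresh hC (i := 2) (by decide)
  obtain ⟨o, ho, hoz⟩ := h.other z
  obtain ⟨H, -, hH, hn⟩ := exists_between (H₀ := ⊥) (H := Hm G c) bot_le
    (n := ec (Hm G c) + 5 - ec (Xe G c)) (by rw [ec_bot]; omega) (by omega)
  have hab : c a ≠ c b := by omega
  have adm := admW2 (q := q) (H := H) (a := a) (b := b) hq h.st.le (hH.trans (Hm_le G c))
    (h.AWh2_room hC (by omega)) ho h.st.z0 hoz ⟨by omega, by omega, hab⟩
  refine h.kmin adm ?_ (by omega) ?_ ?_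
  · rw [AWh2_card2 hab, AWh2_card3 (c := c) (by omega) (by omega) hab]
    omega
  · obtain ⟨t, ht⟩ : ∃ t, ec (Xe G c) = 6 + t := ⟨ec (Xe G c) - 6, by omega⟩
    have e1 : ec (Hm G c) = ec H + (t + 1) := by omega
    rw [e1, mul_add]
    have : 24 * (t + 1) ≤ C * (t + 1) := Nat.mul_le_mul_right _ (by omega)
    omega
  · rw [sdiff_eq_bot_iff.mpr hH, ec_bot]
    omega

theorem wheel_E (hΔ : ec (Xe G c) ≤ ec (Hm G c) + 5) :
    ec (Xe G c) = 3 ∨ (ec (Xe G c) = 4 ∧ ec (Hm G c) = 2) ∨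
      (ec (Xe G c) = 5 ∧ ec (Hm G c) ≤ 2) := by
  have h3 := h.E_ge
  by_cases h6 : 6 ≤ ec (Xe G c)
  · exact (h.AWh2_two hq hC hΔ h6).elim
  by_cases e3 : ec (Xe G c) = 3
  · exact Or.inl e3
  by_cases e4 : ec (Xe G c) = 4
  · obtain ⟨w, hw, hs⟩ := h.sees_small (by omega)
    have := h.wheel_two hq hC hw hs
    refine Or.inr (Or.inl ⟨e4, ?_⟩)
    by_contra hk
    exact h.AWh2_one hq hC (s := 0) (by omega) (by omega) (by omega)
  · refine Or.inr (Or.inr ⟨by omega, ?_⟩)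
    by_contra hk
    exact h.AWh2_one hq hC (s := 1) (by omega) (by omega) (by omega)

lemma AWh2_star (hE : ec (Xe G c) = 3) (hk : 3 ≤ ec (Hm G c)) {u o a b e : V} (hu : c u = 0)
    (ho : c o = 0) (hou : o ≠ u) (hs : Sees G 3 c u) (hD : D2 G c = 9)
    (hab : (Hm G c).Adj a b) (hae : (Hm G c).Adj a e) (hbe : c b ≠ c e) :
    ∃ a, ∀ u v, (Hm G c).Adj u v → u = a ∨ v = a := by
  have hnm := AWh2_nm hab.1.2.2 hae.1.2.2
  refine h.star (by omega) (by omega) ?_ True ?_ ?_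
  · intro i hi j hj hij hle
    have h0 : Sg a {b, e} ≤ Hm G c := Sg_le fun v hv => by
      simp only [mem_insert, mem_singleton] at hv
      rcases hv with rfl | rfl
      · exact hab
      · exact hae
    have := h.gap h0 (o := o) (w := u) (S := ∅) (X := {a, b, e})
      (by rw [AWh2_card3 hab.1.2.2 hae.1.2.2 hbe, card_empty, hE]) (by omega)
      (fun c' H h1 h2 h3 h4 h5 h6 => admW1 hq h1 h5 h6 ((h2 o).mpr ho) ((h2 u).mpr hu) hou
        (h4 (AWh2_adj hnm (by simp))) (h4 (AWh2_adj hnm (by simp)))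
        (by rw [h3 b (by simp), h3 e (by simp)]; exact hbe) (by simp) (by simp)) hi hj hij hle
    rw [ec_Sg hnm, AWh2_card2 hbe] at this
    omega
  · refine fun _ => ⟨rfl, fun i hi => ?_⟩
    obtain ⟨v, hv, hv'⟩ := hs i hi
    have hi1 := (mem_Icc.mp hi).1
    obtain ⟨y, hy⟩ := h.wheel_cover hq hC hu hs v (mem_nT.mpr ⟨hv', by omega⟩)
    exact ⟨v, y, hy, hv⟩
  · intro a' D h1 h2 h3
    obtain ⟨v, hv⟩ : D.Nonempty := card_pos.mp (by omega)
    have a0 := (h1 v hv).1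
    have a3 := h.st.le a'
    have hnD : a' ∉ D := fun hh => (h1 a' hh).2.2 rfl
    obtain ⟨i, j, hi, hj, hia, hja, hij⟩ : ∃ i j, i ∈ Icc 1 3 ∧ j ∈ Icc 1 3 ∧ i ≠ c a' ∧
        j ≠ c a' ∧ i ≠ j := by
      refine ⟨c a' % 3 + 1, (c a' + 1) % 3 + 1, ?_, ?_, ?_, ?_, ?_⟩ <;>
        first | omega | (rw [mem_Icc]; omega)
    obtain ⟨b', hb', eb⟩ := h3 trivial i hi hia
    obtain ⟨e', he', ee⟩ := h3 trivial j hj hja
    have n3 : c b' ≠ c e' := by omega
    have c3 := AWh2_card3 (h1 b' hb').2.2 (h1 e' he').2.2 n3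
    refine ⟨o, ∅, u, {a', b', e'}, admW1 hq h.st.le (Sg_le h1)
      (h.AWh2_room hC (by rw [ec_Sg hnD, h2])) ho hu hou (AWh2_adj hnD hb') (AWh2_adj hnD he') n3
      (by simp) (by simp), by rw [c3, card_empty, hE], ?_⟩
    rw [AWh2_erase ho a0 (h1 b' hb').2.1 (h1 e' he').2.1, c3, hD, card_empty]
    norm_num

theorem wheel_three (hE : ec (Xe G c) = 3) : FamW G c := by
  obtain ⟨u, hu, hd, -⟩ := h.single hE
  obtain ⟨o, ok, eG, hs, hD⟩ := h.one hu (by omega)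
  obtain ⟨a, ha, b, hb, e, he, hab, hae, hbe⟩ := h.wheel_path hq hC hu hs
  have hX : nT G c u = {a, b, e} := by
    refine (eq_of_subset_of_card_le (fun v hv => ?_) ?_).symm
    · simp only [mem_insert, mem_singleton] at hv
      rcases hv with rfl | rfl | rfl <;> assumption
    · rw [AWh2_card3 hab.1.2.2 hae.1.2.2 hbe]
      exact hd.le
  have hst : ∀ u v, (Hm G c).Adj u v → u = a ∨ v = a := by
    by_cases hk : 3 ≤ ec (Hm G c)
    · obtain ⟨a', h'⟩ := h.AWh2_star hq hC hE hk hu ok.o0 ok.ow hs (by rw [hD, hE]; rfl) hab hae hbe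
      have : a = a' := by
        by_contra hn
        exact hbe (congrArg c (((h' a b hab).resolve_left hn).trans
          ((h' a e hae).resolve_left hn).symm))
      rwa [this]
    · have := eq_Sg_of_ec (H := Hm G c) (a := a) (D := {b, e}) (fun v hv => by
        simp only [mem_insert, mem_singleton] at hv
        rcases hv with rfl | rfl <;> assumption) (by rw [AWh2_card2 hbe]; omega)
      intro u v huv
      rw [this] at huv
      exact huv.2.imp And.left And.left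
  obtain ⟨D, hDe, hD'⟩ : ∃ D : Finset V, Hm G c = Sg a D ∧ ∀ v, v ∈ D ↔ (Hm G c).Adj a v :=
    ⟨_, eq_Sg_of_star hst, fun v => by simp⟩
  rw [hDe, hX] at ok eG
  have mp := h.mp_star' ok (fun hh => ((hD' a).mp hh).ne rfl) eG
  have fr : ∀ v, c v ≠ 0 → ∃ y ∉ (D : Set V), c y = c v := fun v hv => by
    have := h.st.le v
    obtain ⟨y, h1, h2⟩ := h.AWh2_fresh hC (i := c v) (by rw [mem_Icc]; omega)
    exact ⟨y, fun hh => h2 a ((hD' y).mp hh).symm, h1⟩
  refine ⟨u, a, b, e, D, hu, hab.1.1, hab.1.2.1, hae.1.2.1, hbe,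
    fun v hv => ((hD' v).mp hv).1.2.1, Or.inl ⟨?_, fun v hv => ((hD' v).mp hv).1.2.2.symm,
      (hD' b).mpr hab, (hD' e).mpr hae, fr b hab.1.2.1, fr e hae.1.2.1⟩⟩
  simpa only [coe_insert, coe_singleton] using mp

theorem wheel_type3 {w : V} (hw : c w = 0) (hs : Sees G 3 c w) (hk : ec (Hm G c) ≤ 2)
    (hE : ec (Xe G c) = 4 ∨ ec (Xe G c) = 5) : FamW G c := by
  obtain ⟨a, ha, b, hb, e, he, hab, hae, hbe⟩ := h.wheel_path hq hC hw hs
  have hnm := AWh2_nm hab.1.2.2 hae.1.2.2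
  have c3 := AWh2_card3 hab.1.2.2 hae.1.2.2 hbe
  have hH := eq_Sg_of_ec (H := Hm G c) (a := a) (D := {b, e}) (fun v hv => by
    simp only [mem_insert, mem_singleton] at hv
    rcases hv with rfl | rfl <;> assumption) (by rw [AWh2_card2 hbe]; omega)
  have hX : nT G c w = {a, b, e} := by
    refine Subset.antisymm (fun v hv => ?_) (fun v hv => ?_)
    · obtain ⟨y, hy⟩ := h.wheel_cover hq hC hw hs v hv
      rw [hH] at hy
      rcases hy.2 with ⟨rfl, -⟩ | ⟨-, h1⟩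
      · exact mem_insert_self _ _
      · exact mem_insert_of_mem h1
    · simp only [mem_insert, mem_singleton] at hv
      rcases hv with rfl | rfl | rfl <;> assumption
  have hd : dT G c w = 3 := by rw [dT, hX, c3]
  obtain ⟨S, hS, hS0⟩ := h.AWh2_set hC (s := ec (Xe G c) - 3) (by omega)
  obtain ⟨o, ho, how⟩ := h.other w
  have sq := h.squares (admW1 hq h.st.le (Hm_le G c) (h.AWh2_room hC le_rfl) ho hw how hab hae hbe
    hS0 (by omega)) (by omega) (by omega)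
  rw [AWh2_erase ho hab.1.1 hab.1.2.1 hae.1.2.1, c3, hS, D2,
    ← add_sum_erase _ _ (mem_Vp.mpr hw), hd] at sq
  have e1 := ec_Xe G c
  rw [← add_sum_erase _ _ (mem_Vp.mpr hw), hd] at e1
  obtain ⟨u, hu, hdu⟩ := sq_one (s := (Vp c 0).erase w) (d := dT G c) (e := ec (Xe G c) - 3)
    (by omega) (by omega) (by omega)
  have huw := ne_of_mem_erase hu
  have hu0 := mem_Vp.mp (mem_of_mem_erase hu)
  obtain ⟨ok, eG⟩ := h.two hu0 hw huw (by omega)
  rw [hH, hX] at ok eG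
  have mp := h.mp_star ok hnm eG
  have hn : ((nT G c u : Finset V) : Set V).ncard = ec (Xe G c) - 3 := by
    rw [Set.ncard_coe_finset]
    exact hdu
  refine ⟨w, a, b, e, nT G c u, hw, hab.1.1, hab.1.2.1, hae.1.2.1, hbe,
    fun v hv => (mem_nT.mp hv).2, Or.inr (Or.inr ⟨u, huw, hu0, ?_, hab.1.2.2, hae.1.2.2,
      by omega, by omega⟩)⟩
  simpa only [coe_insert, coe_singleton] using mp

end Ctx

end Pool.Agent.P.MP_094db5_co
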