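import Pool.Agent.P.MP_094db5_co.Defs

set_option autoImplicit false

open Finset Classical

noncomputable section

namespace Pool.Agent.P.MP_094db5_co

variable {V : Type} [Fintype V]

/-- double sum -/
def S2 (f : V → V → ℝ) : ℝ := ∑ u, ∑ v, f u v

lemma S2_add (f g : V → V → ℝ) : S2 f + S2 g = S2 fun u v => f u v + g u v := by
  simp [S2, sum_add_distrib]

lemma S2_sub (f g : V → V → ℝ) : S2 f - S2 g = S2 fun u v => f u v - g u v := by
  simp [S2, sum_sub_distrib]

lemma S2_mul (a : ℝ) (f : V → V → ℝ) : a * S2 f = S2 fun u v => a * f u v := by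
  simp [S2, mul_sum]

lemma S2_mono {f g : V → V → ℝ} (h : ∀ u v, f u v ≤ g u v) : S2 f ≤ S2 g :=
  sum_le_sum fun u _ => sum_le_sum fun v _ => h u v

lemma S2_congr {f g : V → V → ℝ} (h : ∀ u v, f u v = g u v) : S2 f = S2 g :=
  sum_congr rfl fun u _ => sum_congr rfl fun v _ => h u v

lemma S2_nonneg {f : V → V → ℝ} (h : ∀ u v, 0 ≤ f u v) : 0 ≤ S2 f :=
  sum_nonneg fun u _ => sum_nonneg fun v _ => h u v

lemma S2_comm (f : V → V → ℝ) : S2 f = S2 fun u v => f v u := sum_comm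

lemma S2_prod (f g : V → ℝ) : (∑ u, f u) * (∑ v, g v) = S2 fun u v => f u * g v :=
  sum_mul_sum _ _ _ _

lemma S2_single {f : V → V → ℝ} (h : ∀ u v, 0 ≤ f u v) (a b : V) : f a b ≤ S2 f :=
  (single_le_sum (f := f a) (fun v _ => h a v) (mem_univ b)).trans
    (single_le_sum (f := fun u => ∑ v, f u v) (fun u _ => sum_nonneg fun v _ => h u v) (mem_univ a))

/-- adjacency indicator -/
def ad (G : SimpleGraph V) (u v : V) : ℝ := if G.Adj u v then 1 else 0

omit [Fintype V] in
lemma ad_nonneg (G : SimpleGraph V) (u v : V) : 0 ≤ ad G u v := by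
  unfold ad; split_ifs <;> norm_num

omit [Fintype V] in
lemma ad_le_one (G : SimpleGraph V) (u v : V) : ad G u v ≤ 1 := by
  unfold ad; split_ifs <;> norm_num

omit [Fintype V] in
lemma ad_comm (G : SimpleGraph V) (u v : V) : ad G u v = ad G v u := by
  simp [ad, G.adj_comm]

omit [Fintype V] in
lemma ad_mono {G H : SimpleGraph V} (h : H ≤ G) (u v : V) : ad H u v ≤ ad G u v := by
  unfold ad
  by_cases h1 : H.Adj u v
  · simp [h1, h h1]
  · rw [if_neg h1]; split_ifs <;> norm_num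

/-- quadratic form -/
def qf (G : SimpleGraph V) (x : V → ℝ) : ℝ := S2 fun u v => ad G u v * (x u * x v)

/-- twice the number of edges -/
def Mo (G : SimpleGraph V) : ℝ := S2 (ad G)

lemma Mo_nonneg (G : SimpleGraph V) : 0 ≤ Mo G := S2_nonneg (ad_nonneg G)

lemma Mo_mono {G H : SimpleGraph V} (h : H ≤ G) : Mo H ≤ Mo G := S2_mono (ad_mono h)

lemma sum_ad (G : SimpleGraph V) (u : V) : ∑ v, ad G u v = G.degree u := by
  rw [← SimpleGraph.card_neighborFinset_eq_degree, SimpleGraph.neighborFinset_eq_filter]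
  simp [ad]

lemma Mo_eq (G : SimpleGraph V) : Mo G = 2 * (G.edgeSet.ncard : ℝ) := by
  have h := G.sum_degrees_eq_twice_card_edges
  rw [Set.ncard_eq_toFinset_card', Mo, S2]
  simp only [sum_ad]
  exact_mod_cast h

lemma qf_nonneg (G : SimpleGraph V) {x : V → ℝ} (hx : ∀ v, 0 ≤ x v) : 0 ≤ qf G x :=
  S2_nonneg fun u v => mul_nonneg (ad_nonneg G u v) (mul_nonneg (hx u) (hx v))

lemma qf_eq (G : SimpleGraph V) (x : V → ℝ) : qf G x = ∑ u, x u * ∑ v, ad G u v * x v := by
  simp only [qf, S2, mul_sum]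
  exact sum_congr rfl fun u _ => sum_congr rfl fun v _ => by ring

lemma mulVec_eq (G : SimpleGraph V) (x : V → ℝ) (u : V) :
    (G.adjMatrix ℝ).mulVec x u = ∑ v, ad G u v * x v := by
  simp [Matrix.mulVec, dotProduct, ad]

lemma posSemidef_lam (G : SimpleGraph V) :
    (algebraMap ℝ (Matrix V V ℝ) (lam G) - G.adjMatrix ℝ).PosSemidef := by
  rw [Matrix.posSemidef_iff_isHermitian_and_spectrum_nonneg]
  constructor
  · refine Matrix.IsHermitian.sub ?_ (G.isHermitian_adjMatrix ℝ)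
    rw [Matrix.algebraMap_eq_diagonal]
    exact Matrix.isHermitian_diagonal _
  · rw [← spectrum.singleton_sub_eq]
    rintro _ ⟨a, rfl, b, hb, rfl⟩
    exact sub_nonneg.2 (le_csSup (Matrix.finite_real_spectrum).bddAbove hb)

lemma dot_lam (G : SimpleGraph V) (x : V → ℝ) :
    star x ⬝ᵥ (algebraMap ℝ (Matrix V V ℝ) (lam G) - G.adjMatrix ℝ).mulVec x =
      lam G * ∑ v, x v ^ 2 - qf G x := by
  rw [Matrix.sub_mulVec, dotProduct_sub, qf_eq, Algebra.algebraMap_eq_smul_one,
    Matrix.smul_mulVec, Matrix.one_mulVec]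
  simp only [dotProduct, mulVec_eq, star_trivial, Pi.smul_apply, smul_eq_mul, mul_sum]
  congr 1
  exact sum_congr rfl fun u _ => by ring

lemma qf_le_lam (G : SimpleGraph V) (x : V → ℝ) : qf G x ≤ lam G * ∑ v, x v ^ 2 := by
  have := (posSemidef_lam G).dotProduct_mulVec_nonneg x
  rw [dot_lam] at this
  linarith

lemma eigen_of_eq (G : SimpleGraph V) {x : V → ℝ} (h : lam G * ∑ v, x v ^ 2 ≤ qf G x) (u : V) :
    ∑ v, ad G u v * x v = lam G * x u := by
  have h1 := ((posSemidef_lam G).dotProduct_mulVec_zero_iff x).1 (by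
    rw [dot_lam]; linarith [qf_le_lam G x])
  have h2 := congrFun h1 u
  rw [Matrix.sub_mulVec, Algebra.algebraMap_eq_smul_one, Matrix.smul_mulVec, Matrix.one_mulVec,
    Pi.sub_apply, mulVec_eq] at h2
  simp only [Pi.smul_apply, smul_eq_mul, Pi.zero_apply] at h2
  linarith

/-- Perron vector -/
structure Perron (G : SimpleGraph V) (x : V → ℝ) : Prop where
  nonneg : ∀ v, 0 ≤ x v
  unit : ∑ v, x v ^ 2 = 1
  eig : ∀ u, ∑ v, ad G u v * x v = lam G * x u
  val : qf G x = lam G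

lemma exists_perron [Nonempty V] (G : SimpleGraph V) : ∃ x, Perron G x := by
  have hA := G.isHermitian_adjMatrix ℝ
  have hmem : lam G ∈ spectrum ℝ (G.adjMatrix ℝ) := by
    refine Set.Nonempty.csSup_mem ?_ Matrix.finite_real_spectrum
    rw [hA.spectrum_real_eq_range_eigenvalues]
    exact Set.range_nonempty _
  rw [hA.spectrum_real_eq_range_eigenvalues] at hmem
  obtain ⟨i, hi⟩ := hmem
  have h1 := hA.mulVec_eigenvectorBasis i
  have h2 : ∑ v, (hA.eigenvectorBasis i v) ^ 2 = 1 := by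
    have := EuclideanSpace.real_norm_sq_eq (hA.eigenvectorBasis i)
    rw [hA.eigenvectorBasis.orthonormal.1 i] at this
    linarith
  generalize (hA.eigenvectorBasis i).ofLp = y at h1 h2
  have h3 : qf G y = lam G := by
    rw [qf_eq]
    simp only [← mulVec_eq, h1, hi, Pi.smul_apply, smul_eq_mul]
    calc ∑ u, y u * (lam G * y u) = lam G * ∑ u, y u ^ 2 := by
          rw [mul_sum]; exact sum_congr rfl fun u _ => by ring
      _ = _ := by rw [h2, mul_one]
  have h4 : ∑ v, |y v| ^ 2 = 1 := by simpa only [sq_abs] using h2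
  have h5 : lam G ≤ qf G fun v => |y v| := by
    rw [← h3]
    refine S2_mono fun u v => mul_le_mul_of_nonneg_left ?_ (ad_nonneg G u v)
    rw [← abs_mul]; exact le_abs_self _
  have h6 := qf_le_lam G fun v => |y v|
  rw [h4, mul_one] at h6
  exact ⟨fun v => |y v|, fun v => abs_nonneg _, h4, eigen_of_eq G (by rw [h4, mul_one]; exact h5),
    le_antisymm h6 h5⟩

lemma lam_nonneg [Nonempty V] (G : SimpleGraph V) : 0 ≤ lam G := by
  obtain ⟨x, hx⟩ := exists_perron G
  rw [← hx.val]; exact qf_nonneg G hx.nonneg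

lemma nonempty_of_Mo {G : SimpleGraph V} (h : 0 < Mo G) : Nonempty V := by
  by_contra hn
  rw [not_nonempty_iff] at hn
  simp [Mo, S2] at h

/-- deviation -/
def Dev (G : SimpleGraph V) (x : V → ℝ) (μ : ℝ) : ℝ := S2 fun u v => ad G u v * (x u * x v - μ) ^ 2

lemma Dev_nonneg (G : SimpleGraph V) (x : V → ℝ) (μ : ℝ) : 0 ≤ Dev G x μ :=
  S2_nonneg fun u v => mul_nonneg (ad_nonneg G u v) (sq_nonneg _)

lemma Dev_eq (G : SimpleGraph V) (x : V → ℝ) (μ : ℝ) :
    Dev G x μ = qf G (fun v => x v ^ 2) - 2 * μ * qf G x + μ ^ 2 * Mo G := by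
  simp only [Dev, qf, Mo, S2_mul, S2_sub, S2_add]
  exact S2_congr fun u v => by ring

lemma qf_sq_le (G : SimpleGraph V) {x : V → ℝ} (hx : ∑ v, x v ^ 2 = 1) : qf G x ^ 2 ≤ Mo G := by
  have h1 : qf G (fun v => x v ^ 2) ≤ 1 := by
    calc qf G (fun v => x v ^ 2) ≤ S2 fun u v => x u ^ 2 * x v ^ 2 :=
          S2_mono fun u v => mul_le_of_le_one_left (by positivity) (ad_le_one G u v)
      _ = 1 := by rw [← S2_prod, hx, mul_one]
  rcases (Mo_nonneg G).eq_or_lt with h | h
  · by_contra hn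
    have hq : qf G x ≠ 0 := fun h0 => hn (by rw [h0, ← h]; norm_num)
    have := Dev_nonneg G x (qf G x)⁻¹
    rw [Dev_eq, ← h, mul_assoc, inv_mul_cancel₀ hq] at this
    linarith
  · have := Dev_nonneg G x (qf G x / Mo G)
    rw [Dev_eq] at this
    have e : 2 * (qf G x / Mo G) * qf G x - (qf G x / Mo G) ^ 2 * Mo G = qf G x ^ 2 / Mo G := by
      field_simp; ring
    have : qf G x ^ 2 / Mo G ≤ 1 := by linarith
    rwa [div_le_one h] at this

end Pool.Agent.P.MP_094db5_co
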