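import Pool.Agent.P.MP_094db5_co.Col

set_option autoImplicit false

open Finset Classical

noncomputable section

namespace Pool.Agent.P.MP_094db5_co

variable {V : Type}

/-- every `r`-clique has at most `k` common neighbours -/
def NoBook (G : SimpleGraph V) (r k : ℕ) : Prop :=
  ∀ K : Finset V, G.IsNClique r K → ∀ T : Finset V, (∀ v ∈ T, ∀ u ∈ K, G.Adj u v) → T.card ≤ k

lemma NoBook.deg {G : SimpleGraph V} {r k : ℕ} (h : NoBook G r k) (hr : 1 ≤ r) : Deg G r k := by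
  intro K hK S ⟨v, hv⟩ hS
  refine ⟨v, hv, h (insert v K) ?_ _ fun w hw u hu => ?_⟩
  · have := hK.insert fun u hu => (hS v hv u hu).symm
    rwa [Nat.sub_add_cancel hr] at this
  · rw [mem_nb] at hw
    rcases mem_insert.1 hu with rfl | hu
    exacts [hw.2, hS w hw.1 u hu]

lemma clique_image {G : SimpleGraph V} {I : Finset ℕ} {z : ℕ → V}
    (h : ∀ i ∈ I, ∀ j ∈ I, i ≠ j → G.Adj (z i) (z j)) : G.IsNClique I.card (I.image z) := by
  refine ⟨fun a ha b hb hab => ?_, card_image_of_injOn fun i hi j hj e => ?_⟩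
  · obtain ⟨i, hi, rfl⟩ := mem_image.1 ha
    obtain ⟨j, hj, rfl⟩ := mem_image.1 hb
    exact h i hi j hj fun e => hab (e ▸ rfl)
  · by_contra hij
    exact (h i hi j hj hij).ne e

lemma NoBook.noPlus {G : SimpleGraph V} {r k : ℕ} (h : NoBook G r k) (hr : 3 ≤ r) :
    NoPlus G r (k + 1) := by
  intro B h1 h2 i hi a ha b hb hab
  obtain ⟨l, -, hl, -, hli, -⟩ := exists_third hr i
  have : ∀ j, ∃ y, j ∈ Icc 1 r → y ∈ B j := fun j => by
    by_cases hj : j ∈ Icc 1 r
    · obtain ⟨y, hy⟩ := card_pos.1 (lt_of_lt_of_le (Nat.succ_pos k) (h1 j hj))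
      exact ⟨y, fun _ => hy⟩
    · exact ⟨a, fun e => (hj e).elim⟩
  choose y hy using this
  have hK := clique_image (G := G) (I := Icc 1 r)
    (z := fun j => if j = i then a else if j = l then b else y j) fun p hp q hq hpq => by
      have := hab.symm
      have := h2 i hi p hp
      have := h2 i hi q hq
      have := h2 p hp i hi
      have := h2 p hp q hq
      have := hy p hp
      have := hy q hq
      grind
  rw [Nat.card_Icc, add_tsub_cancel_right] at hK
  have := h _ hK (B l) fun v hv u hu => by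
    obtain ⟨p, hp, rfl⟩ := mem_image.1 hu
    have := h2 i hi l hl
    have := h2 p hp l hl
    have := hy p hp
    grind
  have := h1 l hl
  omega

lemma noBook_of_cliqueFree {G : SimpleGraph V} {r : ℕ} (h : G.CliqueFree (r + 1)) :
    NoBook G r 0 := fun K hK T hT => by
  by_contra hn
  obtain ⟨v, hv⟩ := card_pos.1 (not_le.1 hn)
  exact h _ (hK.insert fun u hu => (hT v hv u hu).symm)

lemma noBook_of_free {G : SimpleGraph V} {r k : ℕ}
    (h : (join (⊤ : SimpleGraph (Fin r)) (⊥ : SimpleGraph (Fin (k + 1)))).Free G) :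
    NoBook G r k := fun K hK T hT => by
  by_contra hn
  obtain ⟨T', hT', hc⟩ := exists_subset_card_eq (not_le.1 hn : k + 1 ≤ T.card)
  let e1 := (equivFinOfCardEq hK.card_eq).symm
  let e2 := (equivFinOfCardEq hc).symm
  have hadj : ∀ i j, G.Adj (e1 i) (e2 j) := fun i j => hT _ (hT' (e2 j).2) _ (e1 i).2
  refine h ⟨⟨⟨Sum.elim (fun i => e1 i) (fun j => e2 j), ?_⟩, ?_⟩⟩
  · rintro (a | a) (b | b) hab
    · exact hK.isClique (e1 a).2 (e1 b).2 fun e => by
        simp [join, e1.injective (Subtype.ext e)] at hab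
    · exact hadj a b
    · exact (hadj b a).symm
    · simp [join] at hab
  · rintro (a | a) (b | b) hab
    · rw [e1.injective (Subtype.ext hab)]
    · exact ((hadj a b).ne hab).elim
    · exact ((hadj b a).ne hab.symm).elim
    · rw [e2.injective (Subtype.ext hab)]

lemma free_of_unique {G : SimpleGraph V} {r k : ℕ} (hk : 1 ≤ k) (K₀ : Finset V)
    (h : ∀ K, G.IsNClique (r + 1) K → K = K₀) :
    (join (⊤ : SimpleGraph (Fin r)) (⊥ : SimpleGraph (Fin (k + 1)))).Free G := by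
  rintro ⟨f⟩
  have a1 : ∀ j, G.IsNClique (r + 1) (insert (f (Sum.inr j)) (univ.image fun i => f (Sum.inl i))) :=
    fun j => by
      refine SimpleGraph.IsNClique.insert ⟨fun a ha b hb hab => ?_, ?_⟩ fun b hb => ?_
      · obtain ⟨i, -, rfl⟩ := mem_image.1 ha
        obtain ⟨i', -, rfl⟩ := mem_image.1 hb
        exact f.toHom.map_rel (by simpa [join] using fun e : i = i' => hab (e ▸ rfl))
      · exact (card_image_of_injective _ fun _ _ e => Sum.inl_injective (f.injective e)).trans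
          (by simp)
      · obtain ⟨i, -, rfl⟩ := mem_image.1 hb
        exact f.toHom.map_rel (by simp [join])
  have a2 := (h _ (a1 ⟨0, by omega⟩)).trans (h _ (a1 ⟨1, by omega⟩)).symm
  have a3 := a2 ▸ mem_insert_self (f (Sum.inr ⟨0, by omega⟩)) _
  rcases mem_insert.1 a3 with e | e
  · simpa using f.injective e
  · obtain ⟨i, -, e⟩ := mem_image.1 e
    simpa using f.injective e

/-- the star at `w` -/
def star (r : ℕ) (w : V) (x : ℕ → V) : Set (Sym2 V) := {e | ∃ l ∈ Icc 1 r, e = s(w, x l)}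

lemma star_ncard {r : ℕ} {c : V → ℕ} (w : V) {x : ℕ → V} (hx : ∀ l ∈ Icc 1 r, c (x l) = l) :
    (star r w x).ncard = r := by
  have : star r w x = ((Icc 1 r).image fun l => s(w, x l) : Finset _) := by
    ext e
    simp [star, eq_comm]
  rw [this, Set.ncard_coe_finset, card_image_of_injOn, Nat.card_Icc, add_tsub_cancel_right]
  intro i hi j hj e
  rw [← hx i hi, ← hx j hj, Sym2.congr_right.1 e]

lemma star_zero {r : ℕ} {c : V → ℕ} {w : V} {x : ℕ → V} (hw : c w = 0) (u v : V)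
    (h : s(u, v) ∈ star r w x) : c u = 0 ∨ c v = 0 := by
  obtain ⟨l, -, e⟩ := h
  grind

lemma Wf.clique_star {G : SimpleGraph V} {r n : ℕ} {c : V → ℕ} {w : V} {x : ℕ → V}
    {D : Set (Sym2 V)} (h : Wf G r n c (star r w x) D) (hr : 1 ≤ r) (hw : c w = 0)
    (hx : ∀ l ∈ Icc 1 r, c (x l) = l) {K : Finset V} (hK : G.IsNClique (r + 1) K) :
    K = insert w ((Icc 1 r).image x) := by
  have a1 : ∀ u v, G.Adj u v → c u = 0 → u = w ∧ v ∈ (Icc 1 r).image x := fun u v huv hu => by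
    obtain ⟨l, hl, e⟩ := ((h.gad.2.2 u v).1 huv).resolve_left fun a => a.1 hu
    have := hx l hl
    have := mem_Icc.1 hl
    have := mem_image_of_mem x hl
    grind
  by_cases hwK : w ∈ K
  · refine eq_of_subset_of_card_le (fun v hv => ?_) ?_
    · by_cases e : v = w
      · simp [e]
      · exact mem_insert_of_mem (a1 w v (hK.isClique hwK hv (Ne.symm e)) hw).2
    · rw [hK.card_eq]
      exact (card_insert_le _ _).trans (by simpa using card_image_le.trans (by simp))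
  · have a2 : ∀ u ∈ K, c u ≠ 0 := fun u hu e => by
      obtain ⟨v, hv, hvu⟩ := exists_mem_ne (s := K) (by rw [hK.card_eq]; omega) u
      exact hwK ((a1 u v (hK.isClique hu hv hvu.symm) e).1 ▸ hu)
    have := card_le_card_of_injOn (s := K) (t := Icc 1 r) c
      (fun u hu => mem_Icc.2 ⟨Nat.pos_of_ne_zero (a2 u hu), h.gad.1 u⟩) fun u hu v hv e => by
        by_contra huv
        exact h.proper u v (hK.isClique hu hv huv) (a2 u hu) e
    rw [hK.card_eq] at this
    simp at this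

variable [Fintype V]

lemma Wf.not_colorable {G : SimpleGraph V} {r n : ℕ} {c : V → ℕ} {A D : Set (Sym2 V)}
    (h : Wf G r n c A D) (Z : Finset V) (hZ : Z.card < n) (hDZ : ∀ u v, s(u, v) ∈ D → u ∈ Z)
    {w : V} (hw : Sees G r c w) : ¬ G.Colorable r := fun hc => by
  obtain ⟨e, e1, e2, e3⟩ := h.rigid Z hZ hDZ hc
  obtain ⟨x, h1, h2⟩ := hw _ (e1 w)
  have := mem_Icc.1 (e1 w)
  exact e3 w x h2 (by rw [e2 x (by omega), h1])

lemma shape_of {r : ℕ} (hr : 3 ≤ r) (D t C L : ℕ) : ∃ m₀ : ℕ, ∀ (V : Type) [Fintype V]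
    (G : SimpleGraph V), Deg G r D → NoPlus G r t → m₀ ≤ G.edgeSet.ncard →
    2 * (1 - 1 / r) * ((G.edgeSet.ncard : ℝ) - C) < lam G ^ 2 → ∃ c, Shape G r L C c := by
  obtain ⟨M, h⟩ := struct hr D t C L
  refine ⟨⌈M⌉₊, fun V _ G h1 h2 h3 h4 => h V G h1 h2 ?_ (by rw [Mo_eq]; linarith)⟩
  have := Nat.ceil_le.1 h3
  have : (0 : ℝ) ≤ G.edgeSet.ncard := Nat.cast_nonneg _
  rw [Mo_eq]
  linarith

lemma big_n {r n m a b : ℕ} (h1 : m = r.choose 2 * n ^ 2 + a) (h2 : r.choose 2 * b ^ 2 + a < m) :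
    b < n := by
  by_contra hn
  have := Nat.mul_le_mul_left (r.choose 2) (Nat.pow_le_pow_left (not_lt.1 hn) 2)
  omega

theorem clique_main {r : ℕ} (hr : 3 ≤ r) : ∃ m₀ : ℕ, ∀ (V : Type) [Fintype V] (G : SimpleGraph V),
    m₀ ≤ G.edgeSet.ncard → ((G.CliqueFree (r + 1) ∧ ¬ G.Colorable r ∧
      2 * (1 - 1 / r) * ((G.edgeSet.ncard : ℝ) - (r + 1)) < lam G ^ 2) ↔
    ∃ (n : ℕ) (c : V → ℕ) (w : V) (x : ℕ → V), ∃ i ∈ Icc 1 r, ∃ j ∈ Icc 1 r, i ≠ j ∧
      G.edgeSet.ncard = r.choose 2 * n ^ 2 + (r - 1) ∧ c w = 0 ∧ (∀ l ∈ Icc 1 r, c (x l) = l) ∧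
      Gad G r n c (star r w x) {s(x i, x j)}) := by
  obtain ⟨m₀, h⟩ := shape_of hr 0 1 (r + 1) 0
  refine ⟨max m₀ (r.choose 2 * 2 ^ 2 + (r - 1) + 1), fun V _ G hm => ?_⟩
  have wf : ∀ {n : ℕ} {c : V → ℕ} {w : V} {x : ℕ → V} {i j : ℕ}, i ∈ Icc 1 r → j ∈ Icc 1 r →
      i ≠ j → c w = 0 → (∀ l ∈ Icc 1 r, c (x l) = l) → Gad G r n c (star r w x) {s(x i, x j)} →
      Wf G r n c (star r w x) {s(x i, x j)} := fun {n c w x i j} hi hj hij hw hx hg =>
    ⟨hg, star_zero hw, fun u v e => by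
      have := hx i hi
      have := hx j hj
      have := mem_Icc.1 hi
      have := mem_Icc.1 hj
      unfold cross
      grind⟩
  rw [max_le_iff] at hm
  constructor
  · rintro ⟨hf, hn, hl⟩
    have hb := noBook_of_cliqueFree hf
    obtain ⟨c, hc⟩ := h V G (hb.deg (by omega)) (hb.noPlus hr) hm.1 (by exact_mod_cast hl)
    obtain ⟨w, hw, hs⟩ := sees_of_small hc.le hc.proper hn (by
      have := ncard_Bd G c
      have := hc.bad
      omega)
    have : Nonempty V := ⟨w⟩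
    choose! x hx hwx using hs
    obtain ⟨i, hi, j, hj, hij, hne⟩ : ∃ i ∈ Icc 1 r, ∃ j ∈ Icc 1 r, i ≠ j ∧ ¬ G.Adj (x i) (x j) := by
      by_contra hno
      push Not at hno
      have := (clique_image hno).insert (a := w) fun b hb => by
        obtain ⟨l, hl, rfl⟩ := mem_image.1 hb
        exact hwx l hl
      rw [Nat.card_Icc, add_tsub_cancel_right] at this
      exact hf _ this
    obtain ⟨n, hg⟩ := hc.gad (by omega) (A := star r w x) (D := {s(x i, x j)})
      (by rintro _ ⟨l, hl, rfl⟩; exact ⟨hwx l hl, Or.inl hw⟩)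
      (by
        rintro _ rfl
        have := mem_Icc.1 hi
        have := mem_Icc.1 hj
        exact ⟨⟨by rw [hx i hi]; omega, by rw [hx j hj]; omega, by rwa [hx i hi, hx j hj]⟩, hne⟩)
      (by rw [star_ncard w hx, Set.ncard_singleton])
    have := (wf hi hj hij hw hx hg).count
    rw [star_ncard w hx, Set.ncard_singleton] at this
    exact ⟨n, c, w, x, i, hi, j, hj, hij, by omega, hw, hx, hg⟩
  · rintro ⟨n, c, w, x, i, hi, j, hj, hij, hcount, hw, hx, hg⟩
    have hW := wf hi hj hij hw hx hg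
    have h1r : 1 ∈ Icc 1 r := mem_Icc.2 ⟨le_rfl, by omega⟩
    refine ⟨fun K hK => ?_, hW.not_colorable {x i, x j} ((card_le_two).trans_lt
      (big_n hcount hm.2)) (fun u v e => by grind) (w := w) fun l hl =>
        ⟨x l, hx l hl, (hg.2.2 _ _).2 (Or.inr ⟨l, hl, rfl⟩)⟩, ?_⟩
    · have e := hW.clique_star (by omega) hw hx hK
      have hne : x i ≠ x j := fun a => hij (by rw [← hx i hi, ← hx j hj, a])
      have a1 := hK.isClique (show x i ∈ K by rw [e]; exact mem_insert_of_mem (mem_image_of_mem x hi))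
        (show x j ∈ K by rw [e]; exact mem_insert_of_mem (mem_image_of_mem x hj)) hne
      have a2 : s(x i, x j) ∈ (Kc c \ G).edgeSet := by rw [hW.eM]; rfl
      exact a2.2 a1
    · exact hW.lower (by omega) hw (by rw [hx 1 h1r]; omega) ⟨1, h1r, rfl⟩ (by
        rw [star_ncard w hx, Set.ncard_singleton]; norm_num)

theorem book_main {r k : ℕ} (hr : 3 ≤ r) (hk : 1 ≤ k) : ∃ m₀ : ℕ, ∀ (V : Type) [Fintype V]
    (G : SimpleGraph V), m₀ ≤ G.edgeSet.ncard →
    (((join (⊤ : SimpleGraph (Fin r)) (⊥ : SimpleGraph (Fin (k + 1)))).Free G ∧ ¬ G.Colorable r ∧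
      2 * (1 - 1 / r) * ((G.edgeSet.ncard : ℝ) - r) < lam G ^ 2) ↔
    ∃ (n : ℕ) (c : V → ℕ) (w : V) (x : ℕ → V),
      G.edgeSet.ncard = r.choose 2 * n ^ 2 + r ∧ c w = 0 ∧ (∀ l ∈ Icc 1 r, c (x l) = l) ∧
      Gad G r n c (star r w x) ∅) := by
  obtain ⟨m₀, h⟩ := shape_of hr k (k + 1) r 0
  refine ⟨max m₀ (r.choose 2 * 0 ^ 2 + r + 1), fun V _ G hm => ?_⟩
  have wf : ∀ {n : ℕ} {c : V → ℕ} {w : V} {x : ℕ → V}, c w = 0 → Gad G r n c (star r w x) ∅ →
      Wf G r n c (star r w x) ∅ := fun hw hg => ⟨hg, star_zero hw, fun _ _ e => e.elim⟩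
  rw [max_le_iff] at hm
  constructor
  · rintro ⟨hf, hn, hl⟩
    have hb := noBook_of_free hf
    obtain ⟨c, hc⟩ := h V G (hb.deg (by omega)) (hb.noPlus hr) hm.1 hl
    obtain ⟨w, hw, hs⟩ := sees_of_small hc.le hc.proper hn (by
      have := ncard_Bd G c
      have := hc.bad
      omega)
    have : Nonempty V := ⟨w⟩
    choose! x hx hwx using hs
    obtain ⟨n, hg⟩ := hc.gad (by omega) (A := star r w x) (D := ∅)
      (by rintro _ ⟨l, hl, rfl⟩; exact ⟨hwx l hl, Or.inl hw⟩) (Set.empty_subset _)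
      (by rw [star_ncard w hx, Set.ncard_empty, add_zero])
    have := (wf hw hg).count
    rw [star_ncard w hx, Set.ncard_empty] at this
    exact ⟨n, c, w, x, this, hw, hx, hg⟩
  · rintro ⟨n, c, w, x, hcount, hw, hx, hg⟩
    have hW := wf hw hg
    have h1r : 1 ∈ Icc 1 r := mem_Icc.2 ⟨le_rfl, by omega⟩
    refine ⟨free_of_unique hk _ fun K hK => hW.clique_star (by omega) hw hx hK,
      hW.not_colorable ∅ (big_n hcount hm.2) (fun u v e => e.elim) (w := w) fun l hl =>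
        ⟨x l, hx l hl, (hg.2.2 _ _).2 (Or.inr ⟨l, hl, rfl⟩)⟩, ?_⟩
    exact hW.lower (by omega) hw (by rw [hx 1 h1r]; omega) ⟨1, h1r, rfl⟩ (by
        rw [star_ncard w hx, Set.ncard_empty]; norm_num)

end Pool.Agent.P.MP_094db5_co
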