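import Pool.Agent.P.MP_094db5_co.Lower

set_option autoImplicit false

open Finset Classical

noncomputable section

namespace Pool.Agent.P.MP_094db5_co

variable {V : Type} [Fintype V]

omit [Fintype V] in
lemma Proper.update {G : SimpleGraph V} {c : V → ℕ} (h : Proper G c) {w : V} {i : ℕ}
    (hi : ∀ u, G.Adj w u → c u ≠ i) : Proper G (Function.update c w i) := by
  intro u v huv hu
  have := huv.ne
  have := h u v huv
  have := hi v
  have := hi u
  have := huv.symm
  grind

omit [Fintype V] in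
lemma colorable_of_labels {G : SimpleGraph V} {r : ℕ} (e : V → ℕ) (h1 : ∀ u, e u ∈ Icc 1 r)
    (h2 : ∀ u v, G.Adj u v → e u ≠ e v) : G.Colorable r := by
  have := (SimpleGraph.Coloring.mk (G := G) (α := Icc 1 r) (fun u => ⟨e u, h1 u⟩)
    fun {u v} huv a => h2 u v huv (congrArg Subtype.val a)).colorable
  rwa [Fintype.card_coe, Nat.card_Icc, add_tsub_cancel_right] at this

/-- greedy extension of a colouring -/
lemma extend {G : SimpleGraph V} {r : ℕ} (k : ℕ) : ∀ c : V → ℕ, cn c 0 = k → (∀ v, c v ≤ r) →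
    Proper G c → (∀ w, c w = 0 → G.degree w < r) → G.Colorable r := by
  induction k with
  | zero =>
    intro c h0 h1 h2 _
    have h3 : ∀ v, c v ≠ 0 := by simpa [cn] using h0
    exact colorable_of_labels c (fun u => mem_Icc.2 ⟨Nat.pos_of_ne_zero (h3 u), h1 u⟩)
      fun u v huv => h2 u v huv (h3 u)
  | succ k ih =>
    intro c h0 h1 h2 h3
    obtain ⟨w, hw⟩ := card_pos.1 (show 0 < cn c 0 by omega)
    have hw' := (mem_filter.1 hw).2
    obtain ⟨i, hi, hi'⟩ := exists_mem_notMem_of_card_lt_card (s := (G.neighborFinset w).image c)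
      (t := Icc 1 r) (card_image_le.trans_lt (by simpa using h3 w hw'))
    have hi2 := mem_Icc.1 hi
    refine ih (Function.update c w i) ?_ (fun v => by grind)
      (h2.update fun u hu e => hi' (mem_image.2 ⟨u, by simpa using hu, e⟩)) fun v hv => h3 v (by
        grind)
    have : (univ.filter fun v => Function.update c w i v = 0) =
        (univ.filter fun v => c v = 0).erase w := by
      ext v
      simp only [mem_filter, mem_univ, true_and, mem_erase]
      grind
    rw [cn, this, card_erase_of_mem hw]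
    exact congrArg (· - 1) h0

lemma heavy_count (G : SimpleGraph V) (c : V → ℕ) {r : ℕ} (S : Finset V)
    (hS : ∀ w ∈ S, c w = 0 ∧ r ≤ G.degree w) :
    (S.card : ℝ) * (2 * r + 1 - S.card) ≤ 2 * (Xe G c).edgeSet.ncard := by
  rw [← Mo_eq]
  have a1 : (S.card : ℝ) * r ≤ S2 fun u v => (if u ∈ S then 1 else 0) * ad G u v := by
    simp only [S2, ← mul_sum, sum_ad]
    simpa using card_nsmul_le_sum S (fun u => (G.degree u : ℝ)) r fun u hu => by
      exact_mod_cast (hS u hu).2
  have a2 : (S.card : ℝ) = S2 fun u v => if u ∈ S ∧ u = v then 1 else 0 := by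
    simp [S2, ite_and]
  have a3 : (S.card : ℝ) * S.card =
      S2 fun u v => (if u ∈ S then 1 else 0) * (if v ∈ S then 1 else 0) := by
    rw [← S2_prod]; simp
  have a4 : (S2 fun u v => (if u ∈ S then 1 else 0) * ad G u v) +
      (S2 fun u v => (if u ∈ S then 1 else 0) * ad G u v) + S.card ≤
      Mo (Xe G c) + S.card * S.card := by
    nth_rewrite 2 [S2_comm]
    rw [a3, a2, Mo, S2_add, S2_add, S2_add]
    refine S2_mono fun u v => ?_
    have b1 := hS u
    have b2 := hS v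
    have b3 := G.irrefl (v := u)
    rw [ad_comm G v u]
    unfold ad Xe
    by_cases d1 : u ∈ S <;> by_cases d2 : v ∈ S <;> by_cases d3 : u = v <;>
      by_cases d4 : G.Adj u v <;> simp_all
    split_ifs <;> norm_num
  linarith

/-- a vertex outside the parts sees all colours -/
def Sees (G : SimpleGraph V) (r : ℕ) (c : V → ℕ) (w : V) : Prop :=
  ∀ i ∈ Icc 1 r, ∃ x, c x = i ∧ G.Adj w x

lemma one_heavy {G : SimpleGraph V} {r : ℕ} {c : V → ℕ} (h1 : ∀ v, c v ≤ r) (h2 : Proper G c)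
    (hn : ¬ G.Colorable r) (w : V) (h3 : ∀ v, c v = 0 → v ≠ w → G.degree v < r) : Sees G r c w := by
  intro i hi
  by_contra hx
  have := mem_Icc.1 hi
  exact hn (extend _ (Function.update c w i) rfl (fun v => by grind)
    (h2.update fun u hu e => hx ⟨u, e, hu⟩) fun v hv => h3 v (by grind) (by grind))

lemma sees_of_small {G : SimpleGraph V} {r : ℕ} {c : V → ℕ} (h1 : ∀ v, c v ≤ r) (h2 : Proper G c)
    (hn : ¬ G.Colorable r) (h : (Xe G c).edgeSet.ncard + 1 < 2 * r) :
    ∃ w, c w = 0 ∧ Sees G r c w := by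
  by_cases h0 : ∃ w, c w = 0 ∧ r ≤ G.degree w
  · obtain ⟨w, hw, hd⟩ := h0
    refine ⟨w, hw, one_heavy h1 h2 hn w fun v hv hvw => ?_⟩
    by_contra hv'
    have := heavy_count G c (r := r) {v, w} (by simp [hw, hd, hv, not_lt.1 hv'])
    rw [card_pair hvw] at this
    have h' : ((Xe G c).edgeSet.ncard : ℝ) + 1 < 2 * r := by exact_mod_cast h
    push_cast at this
    linarith
  · push Not at h0
    exact (hn (extend _ c rfl h1 h2 h0)).elim

lemma ncard_Bd (G : SimpleGraph V) (c : V → ℕ) :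
    (Bd G c).edgeSet.ncard = (Xe G c).edgeSet.ncard + (Kc c \ G).edgeSet.ncard := by
  have := Mo_Bd G c
  rw [Mo_eq, Mo_eq, Mo_eq] at this
  exact_mod_cast (by linarith : ((Bd G c).edgeSet.ncard : ℝ) =
    (Xe G c).edgeSet.ncard + (Kc c \ G).edgeSet.ncard)

lemma cn_eq (c : V → ℕ) (i : ℕ) : {v | c v = i}.ncard = cn c i := by
  rw [cn, ← Set.ncard_coe_finset]
  simp

lemma Shape.gad {G : SimpleGraph V} {r L C : ℕ} {c : V → ℕ} (h : Shape G r L C c) (hr : 1 ≤ r)
    {A D : Set (Sym2 V)} (hA : A ⊆ (Xe G c).edgeSet) (hD : D ⊆ (Kc c \ G).edgeSet)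
    (hC : A.ncard + D.ncard = C) : ∃ n, Gad G r n c A D := by
  have a1 := Set.ncard_le_ncard hA
  have a2 := Set.ncard_le_ncard hD
  have a3 := ncard_Bd G c
  have a4 := h.bad
  have e1 := Set.eq_of_subset_of_ncard_le hA (by omega)
  have e2 := Set.eq_of_subset_of_ncard_le hD (by omega)
  refine ⟨cn c 1, h.le, fun i hi => ?_, fun u v => ?_⟩
  · rw [cn_eq]
    exact h.bal (by omega) i hi 1 (mem_Icc.2 ⟨le_rfl, hr⟩)
  · rw [e1, e2, SimpleGraph.mem_edgeSet, SimpleGraph.mem_edgeSet, SimpleGraph.sdiff_adj]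
    have := h.proper u v
    simp only [Xe, Kc, cross]
    tauto

/-- well-formed gadget -/
structure Wf (G : SimpleGraph V) (r n : ℕ) (c : V → ℕ) (A D : Set (Sym2 V)) : Prop where
  gad : Gad G r n c A D
  hA : ∀ u v, s(u, v) ∈ A → c u = 0 ∨ c v = 0
  hD : ∀ u v, s(u, v) ∈ D → cross c u v

namespace Wf

variable {G : SimpleGraph V} {r n : ℕ} {c : V → ℕ} {A D : Set (Sym2 V)} (h : Wf G r n c A D)
include h

omit [Fintype V] in
lemma proper : Proper G c := fun u v huv hu => by
  have := (h.gad.2.2 u v).1 huv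
  have := h.hA u v
  grind

omit [Fintype V] in
lemma eX : (Xe G c).edgeSet = A := by
  ext e
  induction e using Sym2.ind with
  | _ u v =>
    have := h.gad.2.2 u v
    have := h.hA u v
    simp only [SimpleGraph.mem_edgeSet, Xe]
    grind

omit [Fintype V] in
lemma eM : (Kc c \ G).edgeSet = D := by
  ext e
  induction e using Sym2.ind with
  | _ u v =>
    have := h.gad.2.2 u v
    have := h.hA u v
    have := h.hD u v
    rw [SimpleGraph.mem_edgeSet, SimpleGraph.sdiff_adj]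
    simp only [Kc, cross] at *
    grind

lemma cn_eq : ∀ i ∈ Icc 1 r, cn c i = n := fun i hi => by rw [← h.gad.2.1 i hi, MP_094db5_co.cn_eq]

lemma count : G.edgeSet.ncard + D.ncard = r.choose 2 * n ^ 2 + A.ncard := by
  have a := qf_split h.proper fun _ => 1
  simp only [← Mo_eq_qf] at a
  rw [Mo_Kc_eq h.gad.1 h.cn_eq, Mo_eq, Mo_eq, Mo_eq, h.eX, h.eM] at a
  have := Nat.cast_choose_two ℝ r
  exact_mod_cast (by push_cast; rw [this]; linarith : ((G.edgeSet.ncard + D.ncard : ℕ) : ℝ) =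
    ((r.choose 2 * n ^ 2 + A.ncard : ℕ) : ℝ))

lemma lower (hr : 2 ≤ r) {w v : V} (hw : c w = 0) (hv : c v ≠ 0) (hwv : s(w, v) ∈ A) {C : ℝ}
    (hC : (A.ncard : ℝ) + D.ncard = C) :
    2 * (1 - 1 / r) * (G.edgeSet.ncard - C) < lam G ^ 2 := by
  have := MP_094db5_co.lower hr h.gad.1 h.cn_eq h.proper hw hv ((h.gad.2.2 w v).2 (Or.inr hwv))
  rw [Mo_Bd, Mo_eq, Mo_eq, Mo_eq, h.eX, h.eM] at this
  rw [← hC]
  linarith

lemma rigid (Z : Finset V) (hZ : Z.card < n) (hDZ : ∀ u v, s(u, v) ∈ D → u ∈ Z)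
    (hc : G.Colorable r) : ∃ e : V → ℕ, (∀ u, e u ∈ Icc 1 r) ∧ (∀ v, c v ≠ 0 → e v = c v) ∧
      ∀ u v, G.Adj u v → e u ≠ e v := by
  obtain ⟨φ⟩ := hc
  have : ∀ i : Icc 1 r, ∃ y, c y = i ∧ y ∉ Z := fun i => by
    obtain ⟨y, h1, h2⟩ := exists_mem_notMem_of_card_lt_card (s := Z)
      (t := univ.filter fun v => c v = i) (by rw [← cn, h.cn_eq _ i.2]; omega)
    exact ⟨y, (mem_filter.1 h1).2, h2⟩
  choose y hy hyZ using this
  have hadj : ∀ (i : Icc 1 r) v, c v ≠ 0 → c v ≠ i → G.Adj (y i) v := fun i v h1 h2 => by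
    have := mem_Icc.1 i.2
    exact (h.gad.2.2 _ _).2 (Or.inl ⟨by rw [hy]; omega, h1, by rw [hy]; omega,
      fun a => hyZ i (hDZ _ _ a)⟩)
  have hinj : Function.Injective fun i => φ (y i) := fun i j e => by
    by_contra hij
    have := mem_Icc.1 j.2
    exact φ.valid (hadj i (y j) (by rw [hy]; omega) (by
      rw [hy]; exact fun a => hij (Subtype.ext a).symm)) e
  choose g hg using ((Fintype.bijective_iff_injective_and_card _).2 ⟨hinj, by simp⟩).2
  refine ⟨fun u => g (φ u), fun u => (g (φ u)).2, fun v hv => ?_, fun u v huv e => ?_⟩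
  · by_contra hne
    exact φ.valid (hadj (g (φ v)) v hv (Ne.symm hne)) (hg _)
  · exact φ.valid huv (by rw [← hg (φ u), ← hg (φ v), Subtype.ext e])

end Wf

end Pool.Agent.P.MP_094db5_co
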