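import Pool.Agent.P.MP_094db5_co.Tau

set_option autoImplicit false

open Finset Classical

noncomputable section

namespace Pool.Agent.P.MP_094db5_co

variable {V : Type} [Fintype V]

/-- pairs with different nonzero colours -/
def cross (c : V → ℕ) (u v : V) : Prop := c u ≠ 0 ∧ c v ≠ 0 ∧ c u ≠ c v

/-- weight of a colour class -/
def Pc (p : V → ℝ) (c : V → ℕ) (i : ℕ) : ℝ := ∑ v, if c v = i then p v else 0

/-- weight of the missing cross pairs -/
def Miss (G : SimpleGraph V) (p : V → ℝ) (c : V → ℕ) : ℝ :=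
  S2 fun u v => if cross c u v ∧ ¬ G.Adj u v then p u * p v else 0

/-- weight of the edges inside colour classes -/
def Ins (G : SimpleGraph V) (p : V → ℝ) (c : V → ℕ) : ℝ :=
  S2 fun u v => if c u ≠ 0 ∧ c u = c v ∧ G.Adj u v then p u * p v else 0

lemma Pc_nonneg {p : V → ℝ} (hp : ∀ v, 0 ≤ p v) (c : V → ℕ) (i : ℕ) : 0 ≤ Pc p c i :=
  sum_nonneg fun v _ => by split_ifs; exacts [hp v, le_rfl]

lemma Miss_nonneg (G : SimpleGraph V) {p : V → ℝ} (hp : ∀ v, 0 ≤ p v) (c : V → ℕ) :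
    0 ≤ Miss G p c :=
  S2_nonneg fun u v => by split_ifs; exacts [mul_nonneg (hp u) (hp v), le_rfl]

omit [Fintype V] in
lemma tau_mono (G : SimpleGraph V) {p : V → ℝ} (hp : ∀ v, 0 ≤ p v) (j : ℕ) :
    ∀ S T : Finset V, S ⊆ T → tau G p j S ≤ tau G p j T := by
  induction j with
  | zero => exact fun _ _ _ => le_rfl
  | succ j ih =>
    intro S T h
    refine (sum_le_sum fun v _ => mul_le_mul_of_nonneg_left (ih _ (nb G T v) ?_) (hp v)).trans
      (sum_le_sum_of_subset_of_nonneg h fun v _ _ => mul_nonneg (hp v) (tau_nonneg G hp _ _))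
    exact filter_subset_filter _ h

omit [Fintype V] in
lemma markov {p f : V → ℝ} (hp : ∀ v, 0 ≤ p v) (hf : ∀ v, 0 ≤ f v) (S : Finset V) {g : ℝ}
    (hg : 0 ≤ g) (h : ∑ v ∈ S, p v * f v ≤ g ^ 2) :
    ∑ v ∈ S, (if g < f v then p v else 0) ≤ g := by
  rcases hg.eq_or_lt with rfl | hg
  · refine (sum_eq_zero fun v hv => ?_).le
    split_ifs with h1
    · have := (single_le_sum (f := fun v => p v * f v) (fun v _ => mul_nonneg (hp v) (hf v))
        hv).trans h
      nlinarith [hp v]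
    · rfl
  · refine le_of_mul_le_mul_left ?_ hg
    rw [mul_sum, ← sq]
    refine (sum_le_sum fun v _ => ?_).trans h
    split_ifs with h1
    · nlinarith [hp v]
    · nlinarith [hp v, hf v]

lemma approx_furedi {G : SimpleGraph V} {p : V → ℝ} (hp : ∀ v, 0 ≤ p v) (h1 : ∑ v, p v ≤ 1)
    {γ : ℝ} (h0 : 0 ≤ γ) (hγ : γ ≤ 1) (j : ℕ) : ∀ S : Finset V,
    tau G p (j + 1) S ≤ γ ^ 2 ^ j → ∃ c : V → ℕ, (∀ v, c v ≤ j) ∧ (∀ v, c v ≠ 0 → v ∈ S) ∧
      (∑ v, if v ∈ S ∧ c v = 0 then p v else 0) ≤ (j + 1) * γ ∧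
      2 * Ins G p c ≤ Miss G p c + j * (j + 1) * γ := by
  induction j with
  | zero =>
    intro S h
    refine ⟨fun _ => 0, fun _ => le_rfl, by simp, ?_, by simp [Ins, Miss, cross, S2]⟩
    simpa [tau] using h
  | succ j ih =>
    intro S h
    set g := γ ^ 2 ^ j with hg
    have hg0 : 0 ≤ g := pow_nonneg h0 _
    have hgγ : g ≤ γ := pow_le_of_le_one h0 hγ (by positivity)
    have hX := markov hp (fun v => tau_nonneg G hp (j + 1) (nb G S v)) S hg0
      (by rw [hg, ← pow_mul, ← pow_succ]; exact h)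
    set S' := S.filter fun v => ¬ g < tau G p (j + 1) (nb G S v) with hS'
    have hX' : (∑ v, if v ∈ S ∧ v ∉ S' then p v else 0) ≤ γ := by
      refine le_trans (le_of_eq ?_) (hX.trans hgγ)
      rw [← sum_filter, ← sum_filter]
      refine sum_congr ?_ fun _ _ => rfl
      ext v
      simp +contextual [hS']
    rcases S'.eq_empty_or_nonempty with he | hne
    · refine ⟨fun _ => 0, fun _ => Nat.zero_le _, by simp, ?_, ?_⟩
      · simp only [he, notMem_empty, not_false_eq_true] at hX'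
        push_cast
        nlinarith [mul_nonneg (Nat.cast_nonneg (α := ℝ) j) h0]
      · simp only [Ins, Miss, cross, S2]
        simp
        positivity
    obtain ⟨v, hv, hmax⟩ := exists_max_image S'
      (fun u => ∑ w, if w ∈ S' ∧ G.Adj u w then p w else 0) hne
    obtain ⟨c, c1, c2, c3, c4⟩ := ih (nb G S' v) ((tau_mono G hp _ _ _
      (filter_subset_filter _ (filter_subset _ _))).trans (not_lt.1 (mem_filter.1 hv).2))
    have c5 : ∀ w, w ∈ S' ∧ ¬ G.Adj v w → c w = 0 := fun w hw => by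
      by_contra h
      exact hw.2 (mem_nb.1 (c2 w h)).2
    refine ⟨fun w => if w ∈ S' ∧ ¬ G.Adj v w then j + 1 else c w, fun w => ?_, fun w hw => ?_,
      ?_, ?_⟩
    · beta_reduce
      split_ifs
      exacts [le_rfl, (c1 w).trans (Nat.le_succ _)]
    · beta_reduce at hw
      split_ifs at hw with h'
      · exact (mem_filter.1 h'.1).1
      · exact (mem_filter.1 (mem_nb.1 (c2 w hw)).1).1
    · refine le_trans ?_ (show (∑ w, if w ∈ S ∧ w ∉ S' then p w else 0) +
        (∑ w, if w ∈ nb G S' v ∧ c w = 0 then p w else 0) ≤ _ by push_cast; linarith)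
      rw [← sum_add_distrib]
      refine sum_le_sum fun w _ => ?_
      have := hp w
      by_cases a1 : w ∈ S <;> by_cases a2 : w ∈ S' <;> by_cases a3 : G.Adj v w <;>
        by_cases a4 : c w = 0 <;> simp [a1, a2, a3, a4, this]
    · have e1 : Ins G p (fun w => if w ∈ S' ∧ ¬ G.Adj v w then j + 1 else c w) ≤ Ins G p c +
          S2 fun u w => if (u ∈ S' ∧ ¬ G.Adj v u) ∧ (w ∈ S' ∧ ¬ G.Adj v w) ∧ G.Adj u w
            then p u * p w else 0 := by
        rw [Ins, Ins, S2_add]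
        refine S2_mono fun u w => ?_
        have := mul_nonneg (hp u) (hp w)
        have b1 := c1 u
        have b2 := c1 w
        by_cases a1 : u ∈ S' ∧ ¬ G.Adj v u <;> by_cases a2 : w ∈ S' ∧ ¬ G.Adj v w <;>
          simp only [a1, a2, if_true, if_false, true_and, false_and, and_false, not_false_eq_true,
            and_self, add_zero] <;> split_ifs <;> first | linarith | omega | simp_all
      have e2 : Miss G p c + 2 * (S2 fun u w => if (u ∈ S' ∧ ¬ G.Adj v u) ∧ c w ≠ 0 ∧ ¬ G.Adj u w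
            then p u * p w else 0) ≤
          Miss G p (fun w => if w ∈ S' ∧ ¬ G.Adj v w then j + 1 else c w) := by
        rw [two_mul]
        nth_rewrite 2 [S2_comm]
        rw [Miss, Miss, S2_add, S2_add]
        refine S2_mono fun u w => ?_
        have := mul_nonneg (hp u) (hp w)
        have b1 := c1 u
        have b2 := c1 w
        have b3 := c5 u
        have b4 := c5 w
        rw [mul_comm (p w), G.adj_comm w u]
        unfold cross
        by_cases a1 : u ∈ S' ∧ ¬ G.Adj v u <;> by_cases a2 : w ∈ S' ∧ ¬ G.Adj v w <;>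
          by_cases a3 : G.Adj u w <;>
          simp only [a1, a2, a3, if_true, if_false, true_and, false_and, and_false, and_true,
            not_false_eq_true, not_true_eq_false, and_self, add_zero, forall_const] at b3 b4 ⊢ <;>
          (try split_ifs) <;> first | linarith | omega
      have e3 : (S2 fun u w => if (u ∈ S' ∧ ¬ G.Adj v u) ∧ (w ∈ S' ∧ ¬ G.Adj v w) ∧ G.Adj u w
            then p u * p w else 0) ≤
          (S2 fun u w => if (u ∈ S' ∧ ¬ G.Adj v u) ∧ c w ≠ 0 ∧ ¬ G.Adj u w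
            then p u * p w else 0) + (∑ u, p u) * ((j + 1) * γ) := by
        rw [S2, S2, sum_mul, ← sum_add_distrib]
        refine sum_le_sum fun u _ => ?_
        by_cases a1 : u ∈ S' ∧ ¬ G.Adj v u
        · have d1 : (∑ w, if (w ∈ S' ∧ ¬ G.Adj v w) ∧ G.Adj u w then p w else 0) +
              (∑ w, if w ∈ S' ∧ G.Adj v w then p w else 0) ≤
              (∑ w, if w ∈ S' ∧ G.Adj u w then p w else 0) +
              (∑ w, if c w ≠ 0 ∧ ¬ G.Adj u w then p w else 0) +
              (∑ w, if w ∈ nb G S' v ∧ c w = 0 then p w else 0) := by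
            simp only [← sum_add_distrib]
            refine sum_le_sum fun w _ => ?_
            have := hp w
            by_cases a2 : w ∈ S' <;> by_cases a3 : G.Adj v w <;> by_cases a4 : G.Adj u w <;>
              by_cases a5 : c w = 0 <;> simp [a2, a3, a4, a5, this]
          have d2 := hmax u a1.1
          have d3 : (∑ w, if (w ∈ S' ∧ ¬ G.Adj v w) ∧ G.Adj u w then p w else 0) ≤
              (∑ w, if c w ≠ 0 ∧ ¬ G.Adj u w then p w else 0) + (j + 1) * γ := by linarith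
          have d4 := mul_le_mul_of_nonneg_left d3 (hp u)
          simp only [mul_add, mul_sum, mul_ite, mul_zero] at d4
          simpa only [a1, not_false_eq_true, and_self, true_and] using d4
        · simp only [a1, false_and, if_false, sum_const_zero, zero_add]
          exact mul_nonneg (hp u) (by positivity)
      have e4 : (∑ u, p u) * ((j + 1) * γ) ≤ (j + 1) * γ :=
        mul_le_of_le_one_left (by positivity) h1
      push_cast
      linarith

lemma sum_Pc (p : V → ℝ) {c : V → ℕ} {r : ℕ} (hc : ∀ v, c v ≤ r) :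
    Pc p c 0 + ∑ i ∈ Icc 1 r, Pc p c i = ∑ v, p v := by
  simp only [Pc]
  rw [sum_comm, ← sum_add_distrib]
  refine sum_congr rfl fun v _ => ?_
  rw [sum_ite_eq]
  have := hc v
  by_cases h : c v = 0
  · simp [h]
  · rw [if_neg h, if_pos (mem_Icc.2 ⟨by omega, this⟩), zero_add]

lemma cross_eq (f : V → ℝ) {c : V → ℕ} {r : ℕ} (hc : ∀ v, c v ≤ r) :
    (S2 fun u v => if cross c u v then f u * f v else 0) =
      (∑ i ∈ Icc 1 r, Pc f c i) ^ 2 - ∑ i ∈ Icc 1 r, Pc f c i ^ 2 := by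
  have h1 : ∑ i ∈ Icc 1 r, Pc f c i = ∑ v, if c v ≠ 0 then f v else 0 := by
    have := sum_Pc f hc
    rw [← sub_eq_iff_eq_add'.2 this.symm, Pc, ← sum_sub_distrib]
    refine sum_congr rfl fun v _ => ?_
    by_cases h : c v = 0 <;> simp [h]
  have h2 : ∑ i ∈ Icc 1 r, Pc f c i ^ 2 =
      S2 fun u v => if c u ≠ 0 ∧ c u = c v then f u * f v else 0 := by
    simp only [sq, Pc, S2_prod, S2]
    rw [sum_comm]
    refine sum_congr rfl fun u _ => ?_
    rw [sum_comm]
    refine sum_congr rfl fun v _ => ?_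
    have := hc u
    simp only [ite_mul, zero_mul, sum_ite_eq, mem_Icc, mul_ite, mul_zero]
    split_ifs <;> first | rfl | omega
  rw [h1, h2, sq, S2_prod, S2_sub]
  refine S2_congr fun u v => ?_
  unfold cross
  by_cases a1 : c u = 0 <;> by_cases a2 : c v = 0 <;> by_cases a3 : c u = c v <;>
    simp_all

lemma var_ineq {r : ℕ} (hr : 2 ≤ r) (P : ℕ → ℝ) (h0 : 0 ≤ ∑ i ∈ Icc 1 r, P i)
    (h1 : ∑ i ∈ Icc 1 r, P i ≤ 1) :
    (∑ i ∈ Icc 1 r, P i) ^ 2 - ∑ i ∈ Icc 1 r, P i ^ 2 ≤
      1 - 1 / r - ∑ i ∈ Icc 1 r, (P i - 1 / r) ^ 2 := by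
  have hr' : (2 : ℝ) ≤ r := by exact_mod_cast hr
  have e : ∑ i ∈ Icc 1 r, (P i - 1 / r) ^ 2 =
      ∑ i ∈ Icc 1 r, P i ^ 2 - 2 * (1 / r) * ∑ i ∈ Icc 1 r, P i + 1 / r := by
    simp only [sub_sq, sum_add_distrib, sum_sub_distrib, sum_const, Nat.card_Icc,
      add_tsub_cancel_right, nsmul_eq_mul, ← sum_mul, ← mul_sum]
    field_simp
  have a1 : 1 / (r : ℝ) ≤ 1 / 2 := one_div_le_one_div_of_le two_pos hr'
  rw [e]
  nlinarith

/-- the basic stability inequality -/
lemma core {G : SimpleGraph V} {x : V → ℝ} (hx : ∑ v, x v ^ 2 = 1) {r : ℕ} (hr : 2 ≤ r)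
    {γ : ℝ} (h0 : 0 ≤ γ) (hγ : γ ≤ 1) (h : tau G (fun v => x v ^ 2) (r + 1) univ ≤ γ ^ 2 ^ r) :
    ∃ c : V → ℕ, (∀ v, c v ≤ r) ∧ Pc (fun v => x v ^ 2) c 0 ≤ (r + 1) * γ ∧ ∀ μ : ℝ,
      Dev G x μ + ∑ i ∈ Icc 1 r, (Pc (fun v => x v ^ 2) c i - 1 / r) ^ 2 +
        Miss G (fun v => x v ^ 2) c / 2 ≤
      1 - 1 / r - (2 * μ * qf G x - μ ^ 2 * Mo G) + (r + 1) * (r + 4) * γ := by
  have hp : ∀ v, 0 ≤ x v ^ 2 := fun v => sq_nonneg _
  obtain ⟨c, c1, -, c3, c4⟩ := approx_furedi hp hx.le h0 hγ r univ h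
  simp only [mem_univ, true_and] at c3
  refine ⟨c, c1, c3, fun μ => ?_⟩
  generalize hpe : (fun v => x v ^ 2) = p at *
  have hp' : ∀ v, 0 ≤ p v := fun v => hpe ▸ hp v
  have hx' : ∑ v, p v = 1 := hpe ▸ hx
  have c3' : Pc p c 0 ≤ (r + 1) * γ := by rw [← hpe]; exact c3
  have e1 := sum_Pc p c1
  have e2 := cross_eq p c1
  have e3 := var_ineq hr (Pc p c) (sum_nonneg fun i _ => Pc_nonneg hp' c i)
    (by linarith [Pc_nonneg hp' c 0])
  have e4 : qf G p + Miss G p c ≤ (S2 fun u v => if cross c u v then p u * p v else 0) +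
      Ins G p c + (Pc p c 0 * ∑ v, p v + (∑ v, p v) * Pc p c 0) := by
    simp only [qf, Miss, Ins, Pc, S2_prod, S2_add]
    refine S2_mono fun u v => ?_
    have := mul_nonneg (hp' u) (hp' v)
    unfold cross ad
    by_cases a1 : c u = 0 <;> by_cases a2 : c v = 0 <;> by_cases a3 : c u = c v <;>
      by_cases a4 : G.Adj u v <;> simp_all
  rw [Dev_eq, hpe]
  rw [hx'] at e4
  have : 0 ≤ (r : ℝ) * (r + 1) * γ := by positivity
  have : 0 ≤ ((r : ℝ) + 1) * γ := by positivity
  nlinarith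

end Pool.Agent.P.MP_094db5_co
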