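import Mathlib

/-! Integer vectors with prescribed sum and sum of squares. -/

set_option autoImplicit false

open Finset

namespace Pool.Agent.P.MP_094db5_co.Dn

lemma four_odd (n : ℕ) : ∃ a b c d : ℤ, a ^ 2 + b ^ 2 + c ^ 2 + d ^ 2 + d = n := by
  obtain ⟨a, b, c, d, h⟩ := Nat.sum_four_squares (4 * n + 1)
  have h' : (a : ℤ) ^ 2 + (b : ℤ) ^ 2 + (c : ℤ) ^ 2 + (d : ℤ) ^ 2 = 4 * n + 1 := by exact_mod_cast h
  generalize (a : ℤ) = a at h'
  generalize (b : ℤ) = b at h'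
  generalize (c : ℤ) = c at h'
  generalize (d : ℤ) = d at h'
  obtain ⟨a, rfl | rfl⟩ := Int.even_or_odd' a <;> obtain ⟨b, rfl | rfl⟩ := Int.even_or_odd' b <;>
    obtain ⟨c, rfl | rfl⟩ := Int.even_or_odd' c <;> obtain ⟨d, rfl | rfl⟩ := Int.even_or_odd' d
  all_goals first
    | exact ⟨a, b, c, d, by nlinarith only [h']⟩
    | exact ⟨a, b, d, c, by nlinarith only [h']⟩
    | exact ⟨a, c, d, b, by nlinarith only [h']⟩
    | exact ⟨b, c, d, a, by nlinarith only [h']⟩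
    | (exfalso
       ring_nf at h'
       omega)

lemma fill_list (k : ℕ) : ∀ (ρ n : ℕ), ρ ≤ k + 8 → ∃ l : List ℤ, l.length = k + 8 ∧
    l.sum = ρ ∧ (l.map fun v => v ^ 2).sum = (ρ : ℤ) + 2 * n := by
  induction k with
  | zero =>
    intro ρ n hρ
    obtain ⟨a, b, c, d, h⟩ := four_odd n
    obtain ⟨a', b', c', d', h'⟩ := Nat.sum_four_squares n
    have h2 : (a' : ℤ) ^ 2 + (b' : ℤ) ^ 2 + (c' : ℤ) ^ 2 + (d' : ℤ) ^ 2 = n := by exact_mod_cast h'
    have k1 : ∀ u v w t : ℤ, u ^ 2 = u → v ^ 2 = v → w ^ 2 = w → t ^ 2 = t →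
        2 * (u + v + w + t) = ρ → ∃ l : List ℤ, l.length = 0 + 8 ∧
        l.sum = ρ ∧ (l.map fun v => v ^ 2).sum = (ρ : ℤ) + 2 * n := fun u v w t p q r s e =>
      ⟨[u + a', u - a', v + b', v - b', w + c', w - c', t + d', t - d'], rfl,
        by simp only [List.sum_cons, List.sum_nil]; linarith,
        by simp only [List.map_cons, List.map_nil, List.sum_cons, List.sum_nil]; linarith⟩
    have k2 : ∀ u v w : ℤ, u ^ 2 = u → v ^ 2 = v → w ^ 2 = w →
        2 * (u + v + w) + 1 = ρ → ∃ l : List ℤ, l.length = 0 + 8 ∧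
        l.sum = ρ ∧ (l.map fun v => v ^ 2).sum = (ρ : ℤ) + 2 * n := fun u v w p q r e =>
      ⟨[u + a, u - a, v + b, v - b, w + c, w - c, -d, 1 + d], rfl,
        by simp only [List.sum_cons, List.sum_nil]; linarith,
        by simp only [List.map_cons, List.map_nil, List.sum_cons, List.sum_nil]; linarith⟩
    interval_cases ρ
    exacts [k1 0 0 0 0 rfl rfl rfl rfl rfl, k2 0 0 0 rfl rfl rfl rfl, k1 1 0 0 0 rfl rfl rfl rfl rfl,
      k2 1 0 0 rfl rfl rfl rfl, k1 1 1 0 0 rfl rfl rfl rfl rfl, k2 1 1 0 rfl rfl rfl rfl,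
      k1 1 1 1 0 rfl rfl rfl rfl rfl, k2 1 1 1 rfl rfl rfl rfl, k1 1 1 1 1 rfl rfl rfl rfl rfl]
  | succ k ih =>
    intro ρ n hρ
    rcases Nat.lt_or_ge ρ (k + 9) with h | h
    · obtain ⟨l, h1, h2, h3⟩ := ih ρ n (by omega)
      exact ⟨0 :: l, by rw [List.length_cons, h1], by simp [h2], by simp [h3]⟩
    · obtain ⟨l, h1, h2, h3⟩ := ih (k + 8) n le_rfl
      obtain rfl : ρ = k + 9 := by omega
      exact ⟨1 :: l, by rw [List.length_cons, h1], by simp [h2]; ring, by simp [h3]; ring⟩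

lemma of_list (I : Finset ℕ) : ∀ l : List ℤ, l.length = I.card →
    ∃ y : ℕ → ℤ, ∀ f : ℤ → ℤ, ∑ i ∈ I, f (y i) = (l.map f).sum := by
  induction I using Finset.induction_on with
  | empty => exact fun l h => ⟨fun _ => 0, fun f => by simp [List.length_eq_zero_iff.1 h]⟩
  | insert a I ha ih =>
    intro l h
    rw [card_insert_of_notMem ha] at h
    obtain ⟨v, l, rfl⟩ := List.exists_cons_of_length_eq_add_one h
    obtain ⟨y, hy⟩ := ih l (by simpa using h)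
    refine ⟨Function.update y a v, fun f => ?_⟩
    rw [sum_insert ha, Function.update_self, List.map_cons, List.sum_cons, ← hy f]
    congr 1
    exact sum_congr rfl fun i hi => by rw [Function.update_of_ne fun e : i = a => ha (e ▸ hi)]

/-- the least sum of squares -/
def pmin (k S : ℤ) : ℤ := (2 * (S / k) + 1) * S - k * (S / k) * (S / k + 1)

lemma fill {I : Finset ℕ} (hI : 8 ≤ I.card) {S P : ℤ} (h1 : pmin I.card S ≤ P) (h2 : Even (P - S)) :
    ∃ y : ℕ → ℤ, ∑ i ∈ I, y i = S ∧ ∑ i ∈ I, y i ^ 2 = P := by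
  obtain ⟨k, hk⟩ := Nat.exists_eq_add_of_le' hI
  have k0 : (0 : ℤ) < I.card := by exact_mod_cast (by omega : 0 < I.card)
  have e1 := Int.emod_nonneg S k0.ne'
  have e2 := Int.emod_lt_of_pos S k0
  have e3 := Int.mul_ediv_add_emod S I.card
  obtain ⟨ρ, hρ⟩ := Int.eq_ofNat_of_zero_le e1
  unfold pmin at h1
  generalize S / (I.card : ℤ) = q at *
  obtain ⟨w, hw⟩ := h2
  obtain ⟨u, hu⟩ := Int.even_mul_succ_self q
  obtain ⟨n, hn⟩ := Int.eq_ofNat_of_zero_le (a := w - q * S + I.card * u) (by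
    have : (I.card : ℤ) * q * (q + 1) = I.card * (u + u) := by rw [mul_assoc, hu]
    linarith)
  obtain ⟨l, l1, l2, l3⟩ := fill_list k ρ n (by omega)
  obtain ⟨y, hy⟩ := of_list I l (l1.trans hk.symm)
  have a1 := hy id
  have a2 := hy fun v => v ^ 2
  simp only [id, List.map_id_fun, l2] at a1
  rw [l3] at a2
  refine ⟨fun i => y i + q, ?_, ?_⟩
  · rw [sum_add_distrib, a1, sum_const, nsmul_eq_mul]; linarith
  · simp only [add_sq, sum_add_distrib, a2, mul_assoc, ← mul_sum, ← sum_mul, a1, sum_const,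
      nsmul_eq_mul]
    rw [hρ] at e3
    have : (I.card : ℤ) * (q * (q + 1)) = I.card * (u + u) := by rw [hu]
    have e4 : q * S = q * (I.card * q + ρ) := by rw [e3]
    linarith

lemma pmin_le (I : Finset ℕ) (y : ℕ → ℤ) : pmin I.card (∑ i ∈ I, y i) ≤ ∑ i ∈ I, y i ^ 2 := by
  unfold pmin
  generalize (∑ i ∈ I, y i) / (I.card : ℤ) = q
  have : 0 ≤ ∑ i ∈ I, (y i ^ 2 - (2 * q + 1) * y i + q * (q + 1)) := sum_nonneg fun i _ => by
    rcases le_or_gt (y i) q with h | h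
    · nlinarith
    · nlinarith
  simp only [sum_add_distrib, sum_sub_distrib, ← mul_sum, sum_const, nsmul_eq_mul] at this
  linarith

lemma even_sq_sub (I : Finset ℕ) (y : ℕ → ℤ) : Even (∑ i ∈ I, y i ^ 2 - ∑ i ∈ I, y i) := by
  rw [← sum_sub_distrib]
  refine Finset.even_sum _ fun i _ => ?_
  rw [show y i ^ 2 - y i = (y i - 1) * (y i - 1 + 1) by ring]
  exact Int.even_mul_succ_self _

lemma pmin_le_real {k : ℕ} (k0 : 0 < k) (S : ℤ) :
    (pmin k S : ℝ) ≤ (S : ℝ) ^ 2 / k + k / 4 := by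
  have k1 : (0 : ℝ) < k := by exact_mod_cast k0
  unfold pmin
  push_cast
  generalize ((S / (k : ℤ) : ℤ) : ℝ) = q
  rw [← sub_nonneg, show (S : ℝ) ^ 2 / k + k / 4 - ((2 * q + 1) * S - k * q * (q + 1)) =
    (S - k * (q + 1 / 2)) ^ 2 / k by field_simp; ring]
  positivity

/-- raising the sum of squares -/
lemma fill_up {I : Finset ℕ} (hI : 8 ≤ I.card) (y : ℕ → ℤ) (u : ℕ) :
    ∃ y' : ℕ → ℤ, ∑ i ∈ I, y' i = ∑ i ∈ I, y i ∧ ∑ i ∈ I, y' i ^ 2 = ∑ i ∈ I, y i ^ 2 + 2 * u :=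
  fill hI ((pmin_le I y).trans (by omega)) (by
    rw [add_sub_right_comm]; exact (even_sq_sub I y).add (even_two_mul _))

lemma exists_swap {I : Finset ℕ} {a b : ℕ} (ha : a ∈ I) (hb : b ∈ I) (y : ℕ → ℤ) :
    ∃ y' : ℕ → ℤ, y' b = y a ∧ (∀ i ∈ I, ∃ j ∈ I, y' i = y j) ∧
      (∀ f : ℤ → ℤ, ∑ i ∈ I, f (y' i) = ∑ i ∈ I, f (y i)) ∧
      ∀ f : ℤ → ℝ, ∑ i ∈ I, f (y' i) = ∑ i ∈ I, f (y i) := by
  have h : ∀ i, i ∈ I ↔ Equiv.swap a b i ∈ I := fun i => by
    rw [Equiv.swap_apply_def]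
    split_ifs with p q
    · simp [p, ha, hb]
    · simp [q, ha, hb]
    · rfl
  exact ⟨fun i => y (Equiv.swap a b i), by simp, fun i hi => ⟨_, (h i).1 hi, rfl⟩,
    fun f => sum_equiv (Equiv.swap a b) h fun _ _ => rfl,
    fun f => sum_equiv (Equiv.swap a b) h fun _ _ => rfl⟩

/-- extension of a vector by one coordinate -/
lemma sum_ext {M : Type} [AddCommMonoid M] {I : Finset ℕ} {a : ℕ} (ha : a ∈ I) (y : ℕ → ℤ) (v : ℤ)
    (f : ℤ → M) : ∑ i ∈ I, f (Function.update y a v i) = f v + ∑ i ∈ I.erase a, f (y i) := by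
  rw [← add_sum_erase _ _ ha, Function.update_self]
  congr 1
  exact sum_congr rfl fun i hi => by rw [Function.update_of_ne (ne_of_mem_erase hi)]

end Pool.Agent.P.MP_094db5_co.Dn
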