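import Mathlib

/-! Third and fourth moments of vectors with given variance. -/

set_option autoImplicit false

open Finset

noncomputable section

namespace Pool.Agent.P.MP_094db5_co.Dn

/-- the cubic weight -/
def tau (η d : ℝ) : ℝ := d ^ 3 / (1 + η * d)

lemma loc {J : Finset ℕ} {κ x : ℝ} (hκ : J.card * κ = 1) {d : ℕ → ℝ} (hd : ∑ i ∈ J, d i = -x) :
    ∃ R Z3 Z4 : ℝ, ∑ i ∈ J, d i ^ 2 = R + x ^ 2 * κ ∧
      ∑ i ∈ J, d i ^ 3 = Z3 - 3 * (x * κ) * R - x ^ 3 * κ ^ 2 ∧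
      ∑ i ∈ J, d i ^ 4 = x ^ 4 * κ ^ 3 + Z4 ∧ 0 ≤ R ∧
      (∀ B, 0 ≤ B → R ≤ B ^ 2 → -(B * R) ≤ Z3 ∧ Z3 ≤ B * R) ∧
      ((∀ i ∈ J, d i ≤ x) → Z3 ≤ (x + x * κ) * R) ∧ 0 ≤ Z4 ∧
      ∀ W, (x * κ) ^ 2 ≤ W → R ≤ W → Z4 ≤ 11 * W * R := by
  obtain ⟨a, ha⟩ : ∃ a, a = x * κ := ⟨_, rfl⟩
  obtain ⟨z, hz⟩ : ∃ z : ℕ → ℝ, ∀ i, d i = z i - a := ⟨fun i => d i + a, fun i => by ring⟩
  have e0 : J.card * a = x := by rw [ha, mul_left_comm, hκ, mul_one]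
  have e1 : ∑ i ∈ J, z i = 0 := by
    simp only [hz, sum_sub_distrib, sum_const, nsmul_eq_mul] at hd
    linarith
  have e2 : ∀ i ∈ J, z i ^ 2 ≤ ∑ i ∈ J, z i ^ 2 := fun i hi =>
    single_le_sum (f := fun i => z i ^ 2) (fun _ _ => sq_nonneg _) hi
  rw [← ha]
  refine ⟨∑ i ∈ J, z i ^ 2, ∑ i ∈ J, z i ^ 3, ∑ i ∈ J, z i ^ 2 * (6 * a ^ 2 - 4 * a * z i + z i ^ 2),
    ?_, ?_, ?_, sum_nonneg fun _ _ => sq_nonneg _, fun B B0 hB => ⟨?_, ?_⟩, fun h => ?_,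
    sum_nonneg fun i _ => mul_nonneg (sq_nonneg _) (by nlinarith [sq_nonneg (z i - 2 * a)]),
    fun W h1 h2 => ?_⟩
  · rw [sum_congr rfl (g := fun i => z i ^ 2 - 2 * a * z i + a ^ 2) fun i _ => by rw [hz]; ring]
    simp only [sum_add_distrib, sum_sub_distrib, ← mul_sum, e1, sum_const, nsmul_eq_mul]
    linear_combination a * e0 + x * ha
  · rw [sum_congr rfl (g := fun i => z i ^ 3 - 3 * a * z i ^ 2 + 3 * a ^ 2 * z i - a ^ 3)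
      fun i _ => by rw [hz]; ring]
    simp only [sum_add_distrib, sum_sub_distrib, ← mul_sum, e1, sum_const, nsmul_eq_mul]
    linear_combination (-a ^ 2) * e0 - x * (a + x * κ) * ha
  · rw [sum_congr rfl (g := fun i => a ^ 4 - 4 * a ^ 3 * z i +
      z i ^ 2 * (6 * a ^ 2 - 4 * a * z i + z i ^ 2)) fun i _ => by rw [hz]; ring]
    simp only [sum_add_distrib, sum_sub_distrib, ← mul_sum, e1, sum_const, nsmul_eq_mul]
    linear_combination a ^ 3 * e0 + x * (a ^ 2 + a * x * κ + (x * κ) ^ 2) * ha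
  · rw [mul_sum, ← sum_neg_distrib]
    refine sum_le_sum fun i hi => ?_
    have := (abs_le_of_sq_le_sq' ((e2 i hi).trans hB) B0).1
    nlinarith [mul_le_mul_of_nonneg_right this (sq_nonneg (z i))]
  · rw [mul_sum]
    refine sum_le_sum fun i hi => ?_
    have := (abs_le_of_sq_le_sq' ((e2 i hi).trans hB) B0).2
    nlinarith [mul_le_mul_of_nonneg_right this (sq_nonneg (z i))]
  · rw [mul_sum]
    refine sum_le_sum fun i hi => ?_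
    have : z i ≤ x + a := by linarith [h i hi, hz i]
    nlinarith [mul_le_mul_of_nonneg_right this (sq_nonneg (z i))]
  · rw [mul_sum]
    refine sum_le_sum fun i hi => ?_
    have : 6 * a ^ 2 - 4 * a * z i + z i ^ 2 ≤ 11 * W := by
      nlinarith [sq_nonneg (z i + a), e2 i hi]
    nlinarith [mul_le_mul_of_nonneg_right this (sq_nonneg (z i))]

lemma tau_eq {η d : ℝ} (h : 0 < 1 + η * d) :
    tau η d = d ^ 3 - η * d ^ 4 / (1 + η * d) ∧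
      tau η d = d ^ 3 - η * d ^ 4 + η ^ 2 * d ^ 5 / (1 + η * d) := by
  unfold tau
  constructor
  · rw [div_eq_iff h.ne', sub_mul, div_mul_cancel₀ _ h.ne']; ring
  · rw [div_eq_iff h.ne', add_mul, div_mul_cancel₀ _ h.ne']; ring

section
variable {I : Finset ℕ} {d : ℕ → ℝ} {η s : ℝ}

lemma abs_le_s (s0 : 0 ≤ s) (h : ∑ i ∈ I, d i ^ 2 ≤ s ^ 2) {i : ℕ} (hi : i ∈ I) : |d i| ≤ s :=
  abs_le_of_sq_le_sq ((single_le_sum (f := fun i => d i ^ 2) (fun _ _ => sq_nonneg _) hi).trans h) s0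

lemma half_le (η0 : 0 ≤ η) (h1 : η * s ≤ 1 / 2) {d : ℝ} (hd : |d| ≤ s) : 1 / 2 ≤ 1 + η * d := by
  nlinarith [mul_le_mul_of_nonneg_left (abs_le.1 hd).1 η0]

lemma tau_le3 (η0 : 0 ≤ η) (s0 : 0 ≤ s) (h1 : η * s ≤ 1 / 2) (h : ∑ i ∈ I, d i ^ 2 ≤ s ^ 2) :
    ∑ i ∈ I, tau η (d i) ≤ ∑ i ∈ I, d i ^ 3 := sum_le_sum fun i hi => by
  have a := half_le η0 h1 (abs_le_s s0 h hi)
  rw [(tau_eq (by linarith)).1]
  have : 0 ≤ η * d i ^ 4 / (1 + η * d i) := by positivity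
  linarith

lemma tau_ge3 (η0 : 0 ≤ η) (s0 : 0 ≤ s) (h1 : η * s ≤ 1 / 2) (h : ∑ i ∈ I, d i ^ 2 ≤ s ^ 2) :
    ∑ i ∈ I, d i ^ 3 - 2 * η * (∑ i ∈ I, d i ^ 2) ^ 2 ≤ ∑ i ∈ I, tau η (d i) := by
  rw [sq (∑ i ∈ I, d i ^ 2), ← mul_assoc, mul_sum, ← sum_sub_distrib]
  refine sum_le_sum fun i hi => ?_
  have a := half_le η0 h1 (abs_le_s s0 h hi)
  have b := single_le_sum (f := fun i => d i ^ 2) (fun _ _ => sq_nonneg _) hi
  rw [(tau_eq (by linarith)).1]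
  have c : η * d i ^ 4 / (1 + η * d i) ≤ 2 * (η * d i ^ 4) := by
    rw [div_le_iff₀ (by linarith)]
    nlinarith [mul_le_mul_of_nonneg_left a (show 0 ≤ η * d i ^ 4 by positivity)]
  nlinarith [mul_le_mul_of_nonneg_left b (show 0 ≤ η * d i ^ 2 by positivity)]

lemma tau_abs (η0 : 0 ≤ η) (s0 : 0 ≤ s) (h1 : η * s ≤ 1 / 2) (h : ∑ i ∈ I, d i ^ 2 ≤ s ^ 2) :
    |∑ i ∈ I, tau η (d i)| ≤ 2 * s ^ 3 := by
  refine (abs_sum_le_sum_abs _ _).trans (le_trans (b := ∑ i ∈ I, 2 * s * d i ^ 2)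
    (sum_le_sum fun i hi => ?_) ?_)
  · have b := abs_le_s s0 h hi
    have a := half_le η0 h1 b
    rw [tau, abs_div, abs_of_pos (show 0 < 1 + η * d i by linarith), div_le_iff₀ (by linarith),
      pow_succ, abs_mul, abs_sq]
    nlinarith [mul_le_mul_of_nonneg_left b (sq_nonneg (d i)),
      mul_le_mul_of_nonneg_left a (show 0 ≤ s * d i ^ 2 by positivity)]
  · rw [← mul_sum]
    nlinarith [mul_le_mul_of_nonneg_left h s0]

lemma tau_exp (η0 : 0 ≤ η) (s2 : 2 ≤ s) (h1 : η * s ^ 2 ≤ 1) (h : ∑ i ∈ I, d i ^ 2 ≤ s ^ 2) :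
    |∑ i ∈ I, tau η (d i) - (∑ i ∈ I, d i ^ 3 - η * ∑ i ∈ I, d i ^ 4)| ≤ 2 * s := by
  have s0 : 0 ≤ s := by linarith
  have h2 : η * s ≤ 1 / 2 := by nlinarith [mul_nonneg η0 s0]
  rw [mul_sum, ← sum_sub_distrib, ← sum_sub_distrib]
  refine (abs_sum_le_sum_abs _ _).trans (le_trans (b := ∑ i ∈ I, 2 * η ^ 2 * s ^ 3 * d i ^ 2)
    (sum_le_sum fun i hi => ?_) ?_)
  · have b := abs_le_s s0 h hi
    have a := half_le η0 h2 b
    rw [(tau_eq (by linarith)).2, add_sub_cancel_left, abs_div,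
      abs_of_pos (show 0 < 1 + η * d i by linarith), div_le_iff₀ (by linarith),
      show η ^ 2 * d i ^ 5 = (η * d i) ^ 2 * d i ^ 3 by ring, abs_mul, abs_sq, abs_pow]
    have c := pow_le_pow_left₀ (abs_nonneg _) b 3
    nlinarith [mul_le_mul_of_nonneg_left c (sq_nonneg (η * d i)),
      mul_le_mul_of_nonneg_left a (show 0 ≤ η ^ 2 * s ^ 3 * d i ^ 2 by positivity)]
  · rw [← mul_sum]
    have a := mul_le_mul_of_nonneg_left h (show 0 ≤ 2 * η ^ 2 * s ^ 3 by positivity)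
    have b : (η * s ^ 2) ^ 2 ≤ 1 := pow_le_one₀ (by positivity) h1
    nlinarith [mul_le_mul_of_nonneg_left b s0]

end

lemma cmp_core {κ s η u x x' R R' Z3 Z3' Z4 Z4' B ρ : ℝ} (κ0 : 0 < κ) (κ1 : 8 * κ ≤ 1)
    (s1 : 100 ≤ s) (η0 : 0 ≤ η) (η1 : η * s ^ 2 ≤ 1) (u0 : 0 ≤ u) (x0 : 0 ≤ x) (xx : x ≤ x')
    (hR : R + x ^ 2 * (1 + κ) + 2 * u = s ^ 2) (hR' : R' + x' ^ 2 * (1 + κ) = s ^ 2)
    (R0' : 0 ≤ R') (ρ1 : 16 * ρ ≤ s) (R1 : R' ≤ ρ + (2 * x' + 1) * (1 + κ))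
    (B0 : 0 ≤ B) (B1 : 13 * s ≤ B ^ 2) (z1 : R ≤ B ^ 2 → Z3 ≤ B * R) (z2 : Z3 ≤ (x + x * κ) * R)
    (z3 : R' ≤ B ^ 2 → -(B * R') ≤ Z3') (z4 : 0 ≤ Z4) (z5 : Z4' ≤ 11 * s ^ 2 * R') :
    (x ^ 3 + (Z3 - 3 * (x * κ) * R - x ^ 3 * κ ^ 2) - η * (x ^ 4 + (x ^ 4 * κ ^ 3 + Z4))) -
      (x' ^ 3 + (Z3' - 3 * (x' * κ) * R' - x' ^ 3 * κ ^ 2) - η * (x' ^ 4 + (x' ^ 4 * κ ^ 3 + Z4'))) ≤
      -((x' - x) * s ^ 2 / 16) + 46 * s + 17 * B * s + u * s := by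
  have s0 : 0 < s := by linarith
  have x1 : x' ≤ s := by
    refine abs_le_of_sq_le_sq' ?_ s0.le |>.2
    nlinarith [mul_nonneg κ0.le (sq_nonneg x')]
  have x0' : 0 ≤ x' := x0.trans xx
  obtain ⟨δ, rfl⟩ : ∃ δ, x' = x + δ := ⟨x' - x, by ring⟩
  have δ0 : 0 ≤ δ := by linarith
  have R2 : R' ≤ 4 * s := by nlinarith [mul_le_mul_of_nonneg_left κ1 x0', mul_nonneg κ0.le x0']
  have a1 := z3 (by linarith)
  have a2 : B * R' ≤ B * (4 * s) := mul_le_mul_of_nonneg_left R2 B0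
  have a3 : η * Z4' ≤ 44 * s := by
    have b1 := mul_le_mul_of_nonneg_left z5 η0
    have b2 := mul_le_mul η1 R2 R0' zero_le_one
    linarith
  have a4 : 0 ≤ η * Z4 := mul_nonneg η0 z4
  have κ2 : κ ^ 2 ≤ 1 / 64 := by nlinarith
  have a5 : η * (((x + δ) ^ 4 - x ^ 4) * (1 + κ ^ 3)) ≤ δ * s ^ 2 / 20 := by
    have b1 : (x + δ) ^ 4 - x ^ 4 ≤ δ * (4 * s ^ 3) := by
      have c1 := pow_le_pow_left₀ x0' x1 3
      have c2 : (x + δ) ^ 4 - x ^ 4 ≤ δ * (4 * (x + δ) ^ 3) := by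
        nlinarith [mul_nonneg (sq_nonneg δ) (sq_nonneg x), mul_nonneg (pow_nonneg δ0 3) x0,
          pow_nonneg δ0 4]
      nlinarith [mul_le_mul_of_nonneg_left c1 δ0]
    have b2 : 1 + κ ^ 3 ≤ 5 / 4 := by nlinarith [mul_le_mul_of_nonneg_left κ2 κ0.le]
    have b3 := mul_le_mul b1 b2 (by positivity) (by positivity)
    have b4 := mul_le_mul_of_nonneg_left b3 η0
    have b5 := mul_le_mul_of_nonneg_left η1 (mul_nonneg δ0 s0.le)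
    have b6 := mul_le_mul_of_nonneg_left s1 (mul_nonneg δ0 s0.le)
    nlinarith only [b4, b5, b6]
  have Bs := mul_nonneg B0 s0.le
  have us := mul_nonneg u0 s0.le
  have δs := mul_nonneg δ0 s0.le
  have δs2 := mul_le_mul_of_nonneg_left s1 δs
  suffices h : (x ^ 3 + (Z3 - 3 * (x * κ) * R - x ^ 3 * κ ^ 2)) -
      ((x + δ) ^ 3 + (Z3' - 3 * ((x + δ) * κ) * R' - (x + δ) ^ 3 * κ ^ 2)) ≤
      -(δ * s ^ 2 / 8) + 2 * s + 17 * B * s + u * s by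
    nlinarith only [h, a3, a4, a5, mul_nonneg δ0 (sq_nonneg s)]
  rcases le_total δ 4 with h | h
  · have b0 : δ * (2 * x + δ) * (1 + κ) ≤ 4 * (2 * s) * (9 / 8) :=
      mul_le_mul (mul_le_mul h (by linarith) (by linarith) (by norm_num)) (by linarith) (by linarith)
        (by positivity)
    have b1 : R ≤ 13 * s := by nlinarith only [b0, hR, hR', R2, u0]
    have b2 := (z1 (by linarith)).trans (mul_le_mul_of_nonneg_left b1 B0)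
    have b3 : 7 / 9 * s ^ 2 ≤ (x + δ) ^ 2 := by
      nlinarith [mul_le_mul_of_nonneg_left κ1 (sq_nonneg (x + δ)), mul_le_mul_of_nonneg_left s1 s0.le]
    have b4 : δ * (7 / 9 * s ^ 2) ≤ (x + δ) ^ 3 - x ^ 3 := by
      nlinarith [mul_le_mul_of_nonneg_left b3 δ0, mul_nonneg δ0 (sq_nonneg x),
        mul_nonneg (sq_nonneg δ) x0]
    have b5 := mul_le_mul b4 (show 63 / 64 ≤ 1 - κ ^ 2 by linarith) (by norm_num)
      (le_trans (by positivity) b4)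
    have b6 : -(δ * R') - 2 * u * x ≤ x * R - (x + δ) * R' := by
      have : 0 ≤ x * (δ * (2 * x + δ) * (1 + κ)) := by positivity
      have e : R = R' - 2 * u + δ * (2 * x + δ) * (1 + κ) := by linarith
      rw [e]; linarith
    have b7 := mul_le_mul_of_nonneg_left b6 κ0.le
    have b8 : κ * (δ * R') ≤ 1 / 8 * (δ * (4 * s)) :=
      mul_le_mul (by linarith) (mul_le_mul_of_nonneg_left R2 δ0) (by positivity) (by norm_num)
    have b9 : κ * (u * x) ≤ 1 / 8 * (u * s) :=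
      mul_le_mul (by linarith) (mul_le_mul_of_nonneg_left (by linarith) u0) (by positivity)
        (by norm_num)
    nlinarith only [a1, a2, b2, b5, b7, b8, b9, δs2, us, s0, δs]
  · have b1 : x * (1 - 2 * κ) * R ≤ x * (1 - 2 * κ) * (s ^ 2 - x ^ 2 * (1 + κ)) :=
      mul_le_mul_of_nonneg_left (by linarith) (mul_nonneg x0 (by linarith))
    have b2 : x ^ 3 * (κ * (1 + κ)) ≤ (x + δ) ^ 3 * (κ * (1 + κ)) :=
      mul_le_mul_of_nonneg_right (pow_le_pow_left₀ x0 xx 3) (by positivity)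
    have b3 : δ * s ^ 2 * (3 / 4) ≤ δ * s ^ 2 * (1 - 2 * κ) :=
      mul_le_mul_of_nonneg_left (by linarith) (by positivity)
    have b4 := mul_le_mul_of_nonneg_left R1 (show 0 ≤ (1 + κ) * (x + δ) by positivity)
    have b5 : (1 + κ) * (x + δ) ≤ 9 / 8 * s := mul_le_mul (by linarith) x1 x0' (by norm_num)
    have b6 : (1 + κ) * (x + δ) * (ρ + (1 + κ)) ≤ 9 / 8 * s * (s / 16 + 9 / 8) := by
      rcases le_total 0 (ρ + (1 + κ)) with c | c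
      · exact mul_le_mul b5 (by linarith) c (by positivity)
      · exact (mul_nonpos_of_nonneg_of_nonpos (by positivity) c).trans (by positivity)
    have b7 : (1 + κ) * ((x + δ) ^ 2 * (1 + κ)) ≤ 9 / 8 * s ^ 2 :=
      mul_le_mul (by linarith) (by linarith) (by positivity) (by norm_num)
    have b8 := mul_le_mul_of_nonneg_right h (sq_nonneg s)
    have e : (x + δ) * (1 - 2 * κ) * R' =
        (x + δ) * (1 - 2 * κ) * (s ^ 2 - (x + δ) ^ 2 * (1 + κ)) := by rw [← hR']; ring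
    nlinarith only [a1, a2, z2, b1, b2, b3, b4, b6, b7, b8, e, us, Bs, s0]

lemma add_core {κ t u W x x' R R' Z3 Z3' B ρ : ℝ} (κ0 : 0 < κ) (κ1 : 8 * κ ≤ 1)
    (t2 : 2 ≤ t) (u0 : 0 ≤ u) (x0 : 0 ≤ x) (x0' : 0 ≤ x') (Wt : W + 2 * u ≤ t ^ 2)
    (hR : R + x ^ 2 * (1 + κ) = W + 2 * u) (hR' : R' + x' ^ 2 * (1 + κ) = W)
    (R0 : 0 ≤ R) (R0' : 0 ≤ R') (ρ0 : 0 ≤ ρ) (ρ1 : ρ ≤ t) (R1 : R' ≤ ρ + (2 * x' + 1) * (1 + κ))
    (B0 : 0 ≤ B) (B1 : 4 * t ≤ B ^ 2) (z2 : Z3 ≤ (x + x * κ) * R)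
    (z3 : R' ≤ B ^ 2 → -(B * R') ≤ Z3') :
    (x ^ 3 + (Z3 - 3 * (x * κ) * R - x ^ 3 * κ ^ 2)) -
      (x' ^ 3 + (Z3' - 3 * (x' * κ) * R' - x' ^ 3 * κ ^ 2)) ≤
      3 * (1 + κ) * W + u * (3 * t + 7) + 2 * t * (ρ + 2) + 4 * B * t := by
  have k1 : 0 < 1 + κ := by linarith
  obtain ⟨X, X0, hX⟩ : ∃ X, 0 ≤ X ∧ X ^ 2 * (1 + κ) = W + 2 * u :=
    ⟨√((W + 2 * u) / (1 + κ)), Real.sqrt_nonneg _, by
      rw [Real.sq_sqrt (by rw [← hR]; positivity), div_mul_cancel₀ _ k1.ne']⟩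
  have le : ∀ {a b : ℝ}, 0 ≤ b → a ^ 2 * (1 + κ) ≤ b ^ 2 * (1 + κ) → a ≤ b := fun b0 h =>
    (abs_le_of_sq_le_sq' (le_of_mul_le_mul_right h k1) b0).2
  have x1 : x ≤ X := le X0 (by linarith)
  have x2 : x' ≤ X := le X0 (by linarith)
  have x3 : X ≤ t := le (by linarith) (by nlinarith [mul_nonneg κ0.le (sq_nonneg t)])
  have R2 : R' ≤ 4 * t := by nlinarith [mul_le_mul_of_nonneg_left κ1 x0', mul_nonneg κ0.le x0']
  have a1 := z3 (by linarith)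
  have a2 : B * R' ≤ B * (4 * t) := mul_le_mul_of_nonneg_left R2 B0
  have b2 : x ^ 3 * (κ * (1 + κ)) ≤ X ^ 3 * (κ * (1 + κ)) :=
    mul_le_mul_of_nonneg_right (pow_le_pow_left₀ x0 x1 3) (by positivity)
  have b3 : x * ((1 - 2 * κ) * (X ^ 2 * (1 + κ))) ≤ X * ((1 - 2 * κ) * (X ^ 2 * (1 + κ))) :=
    mul_le_mul_of_nonneg_right x1 (mul_nonneg (by linarith) (by positivity))
  have e1 : R = X ^ 2 * (1 + κ) - x ^ 2 * (1 + κ) := by linarith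
  have c1 : x ^ 3 + (Z3 - 3 * (x * κ) * R - x ^ 3 * κ ^ 2) ≤ X ^ 3 * (1 - κ ^ 2) := by
    rw [e1] at z2 ⊢
    nlinarith only [z2, b2, b3]
  have c2 : X ^ 3 - x' ^ 3 ≤ 3 / 2 * X * (X ^ 2 - x' ^ 2) := by
    nlinarith [mul_nonneg (sq_nonneg (X - x')) X0, mul_nonneg (sq_nonneg (X - x')) x0']
  have c3 := mul_le_mul_of_nonneg_right c2 (show 0 ≤ (1 - κ) * (1 + κ) from
    mul_nonneg (by linarith) k1.le)
  have e2 : (X ^ 2 - x' ^ 2) * (1 + κ) = 2 * u + R' := by linarith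
  have c4 : (X ^ 3 - x' ^ 3) * (1 - κ ^ 2) ≤ 3 / 2 * X * (1 - κ) * (2 * u + R') := by
    rw [← e2]; linarith
  have c5 : x' * (κ * R') ≤ X * (κ * R') := mul_le_mul_of_nonneg_right x2 (by positivity)
  have c6 : X * (1 - κ) * u ≤ t * 1 * u := mul_le_mul_of_nonneg_right
    (mul_le_mul x3 (by linarith) (by linarith) (by linarith)) u0
  have c7 := mul_le_mul_of_nonneg_left R1 (show 0 ≤ (1 + κ) * X by positivity)
  have c8 : (1 + κ) * X * (ρ + (1 + κ)) ≤ 9 / 8 * t * (ρ + 2) := by gcongr <;> linarith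
  have c9 : x' * ((1 + κ) * (1 + κ) * X) ≤ X * ((1 + κ) * (1 + κ) * X) :=
    mul_le_mul_of_nonneg_right x2 (by positivity)
  have d1 : κ * u ≤ 1 / 8 * u := mul_le_mul_of_nonneg_right (by linarith) u0
  have e3 : X * ((1 + κ) * (1 + κ) * X) = (1 + κ) * (W + 2 * u) := by rw [← hX]; ring
  nlinarith only [c1, c4, c5, c6, c7, c8, c9, d1, e3, a1, a2, u0,
    mul_nonneg (show 0 ≤ t by linarith) (show 0 ≤ ρ + 2 by linarith)]

end Pool.Agent.P.MP_094db5_co.Dn
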