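import Pool.Agent.P.MP_094db5_co.DA1
import Pool.Agent.P.MP_094db5_co.DA2

/-! The largest feasible coordinate. -/

set_option autoImplicit false

open Finset

noncomputable section

namespace Pool.Agent.P.MP_094db5_co.Dn

/-- same sum and same sum of squares -/
def Same (I : Finset ℕ) (y y' : ℕ → ℤ) : Prop :=
  ∑ i ∈ I, y' i = ∑ i ∈ I, y i ∧ ∑ i ∈ I, y' i ^ 2 = ∑ i ∈ I, y i ^ 2

/-- coordinate `a` is the largest feasible one -/
def Top (I : Finset ℕ) (a : ℕ) (y : ℕ → ℤ) : Prop :=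
  a ∈ I ∧ ∀ y', Same I y y' → ∀ i ∈ I, y' i ≤ y a

/-- variance -/
def VV (I : Finset ℕ) (c : ℝ) (y : ℕ → ℤ) : ℝ := ∑ i ∈ I, ((y i : ℝ) - c) ^ 2

/-- cubic term -/
def TT (I : Finset ℕ) (η c : ℝ) (y : ℕ → ℤ) : ℝ := ∑ i ∈ I, tau η (y i - c)

/-- `c` is the mean -/
def Mean (I : Finset ℕ) (c : ℝ) (y : ℕ → ℤ) : Prop := ((∑ i ∈ I, y i : ℤ) : ℝ) = I.card * c

variable {I : Finset ℕ} {a b : ℕ} {y y' : ℕ → ℤ} {c : ℝ}

lemma Same.rfl' (I : Finset ℕ) (y : ℕ → ℤ) : Same I y y := ⟨rfl, rfl⟩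

lemma Same.symm (h : Same I y y') : Same I y' y := ⟨h.1.symm, h.2.symm⟩

lemma Same.trans {y'' : ℕ → ℤ} (h : Same I y y') (h' : Same I y' y'') : Same I y y'' :=
  ⟨h'.1.trans h.1, h'.2.trans h.2⟩

lemma VV_eq (I : Finset ℕ) (c : ℝ) (y : ℕ → ℤ) : VV I c y =
    ((∑ i ∈ I, y i ^ 2 : ℤ) : ℝ) - 2 * c * (∑ i ∈ I, y i : ℤ) + I.card * c ^ 2 := by
  simp only [VV, sub_sq, sum_add_distrib, sum_sub_distrib, ← sum_mul, ← mul_sum, sum_const,
    nsmul_eq_mul, Int.cast_sum, Int.cast_pow]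
  ring

lemma VV0 (I : Finset ℕ) (c : ℝ) (y : ℕ → ℤ) : 0 ≤ VV I c y := sum_nonneg fun _ _ => sq_nonneg _

lemma VV_add {u : ℕ} (h1 : ∑ i ∈ I, y' i = ∑ i ∈ I, y i)
    (h2 : ∑ i ∈ I, y' i ^ 2 + 2 * u = ∑ i ∈ I, y i ^ 2) : VV I c y' + 2 * u = VV I c y := by
  rw [VV_eq, VV_eq, h1, ← h2]; push_cast; ring

lemma Same.vv (h : Same I y y') : VV I c y' = VV I c y := by rw [VV_eq, VV_eq, h.1, h.2]

lemma Mean.of (h : Mean I c y) (e : ∑ i ∈ I, y' i = ∑ i ∈ I, y i) : Mean I c y' := by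
  rwa [Mean, e]

lemma Mean.sum (h : Mean I c y) : ∑ i ∈ I, ((y i : ℝ) - c) = 0 := by
  rw [Mean] at h
  push_cast at h
  rw [sum_sub_distrib, h, sum_const, nsmul_eq_mul, sub_self]

lemma Mean.rest (h : Mean I c y) (ha : a ∈ I) :
    ∑ i ∈ I.erase a, ((y i : ℝ) - c) = -(y a - c) := by
  have := h.sum
  rw [← add_sum_erase _ _ ha] at this
  linarith

lemma Mean.top0 (h : Mean I c y) (hb : b ∈ I) (t : ∀ i ∈ I, y i ≤ y b) : 0 ≤ (y b : ℝ) - c := by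
  by_contra hn
  have := sum_lt_sum_of_nonempty ⟨b, hb⟩ (f := fun i => (y i : ℝ) - c) (g := fun _ => 0) fun i hi => by
    have : (y i : ℝ) ≤ y b := by exact_mod_cast t i hi
    linarith
  rw [h.sum, sum_const_zero] at this
  exact lt_irrefl _ this

lemma exists_top (hI : I.Nonempty) (y : ℕ → ℤ) : ∃ y' a, Same I y y' ∧ Top I a y' := by
  obtain ⟨v, ⟨y', h1, a, ha, rfl⟩, h2⟩ := Int.exists_greatest_of_bdd
    (P := fun v => ∃ y', Same I y y' ∧ ∃ i ∈ I, y' i = v)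
    ⟨∑ i ∈ I, y i ^ 2, fun z ⟨y', h1, i, hi, e⟩ => by
      rw [← e, ← h1.2]
      exact (Int.le_self_sq _).trans
        (single_le_sum (f := fun i => y' i ^ 2) (fun _ _ => sq_nonneg _) hi)⟩
    ⟨_, y, Same.rfl' I y, hI.choose, hI.choose_spec, rfl⟩
  exact ⟨y', a, h1, ha, fun y'' h i hi => h2 _ ⟨y'', h1.trans h, i, hi, rfl⟩⟩

lemma Top.self (h : Top I a y) : ∀ i ∈ I, y i ≤ y a := h.2 y (Same.rfl' I y)

lemma Top.le_less (h : Top I a y) (hI : 9 ≤ I.card) {u : ℕ} (h1 : ∑ i ∈ I, y' i = ∑ i ∈ I, y i)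
    (h2 : ∑ i ∈ I, y' i ^ 2 + 2 * u = ∑ i ∈ I, y i ^ 2) (hb : b ∈ I) : y' b ≤ y a := by
  obtain ⟨z, z1, z2⟩ := fill_up (I := I.erase b) (by rw [card_erase_of_mem hb]; omega) y' u
  have := h.2 (Function.update z b (y' b)) ⟨by
    rw [sum_ext hb z _ fun v => v, z1, add_sum_erase _ _ hb, h1], by
    rw [sum_ext hb z _ fun v => v ^ 2, z2, ← add_assoc, add_sum_erase _ (fun i => y' i ^ 2) hb, h2]⟩
    b hb
  rwa [Function.update_self] at this

lemma Top.R_le (h : Top I a y) (hI : 8 ≤ (I.erase a).card) (hc : Mean I c y) {κ R : ℝ}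
    (hκ : (I.erase a).card * κ = 1)
    (hR : ∑ i ∈ I.erase a, ((y i : ℝ) - c) ^ 2 = R + (y a - c) ^ 2 * κ) :
    R ≤ (I.erase a).card / 4 + (2 * (y a - c) + 1) * (1 + κ) := by
  by_contra hn
  have k0 : (0 : ℝ) < (I.erase a).card := by exact_mod_cast (by omega : 0 < (I.erase a).card)
  have e1 := hc.rest h.1
  have e2 := VV_eq (I.erase a) c y
  rw [VV, hR] at e2
  rw [sum_sub_distrib, sum_const, nsmul_eq_mul, ← Int.cast_sum] at e1
  obtain ⟨z, z1, z2⟩ := fill hI (S := ∑ i ∈ I.erase a, y i - 1)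
    (P := ∑ i ∈ I.erase a, y i ^ 2 - 2 * y a - 1) (by
      have a1 := pmin_le_real (k := (I.erase a).card) (by omega) (∑ i ∈ I.erase a, y i - 1)
      have a2 : (I.erase a).card = 1 / κ := eq_div_of_mul_eq (by rintro rfl; simp at hκ) hκ
      rw [← Int.cast_le (R := ℝ)]
      refine a1.trans ?_
      rw [Int.cast_sub, Int.cast_sub, Int.cast_sub, Int.cast_mul, Int.cast_one, Int.cast_ofNat]
      generalize ((∑ i ∈ I.erase a, y i : ℤ) : ℝ) = S at *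
      generalize ((∑ i ∈ I.erase a, y i ^ 2 : ℤ) : ℝ) = P at *
      have a3 : (S - 1) ^ 2 / (I.erase a).card = (S - 1) ^ 2 * κ := by
        rw [div_eq_iff k0.ne', mul_assoc, mul_comm κ, hκ, mul_one]
      generalize ((I.erase a).card : ℝ) = K at *
      obtain rfl : S = K * c - (y a - c) := by linarith
      have a4 : (K * c - (y a - c) - 1) ^ 2 * κ = K * c ^ 2 - 2 * c * (y a - c + 1) +
          (y a - c + 1) ^ 2 * κ := by linear_combination (K * c ^ 2 - 2 * c * (y a - c + 1)) * hκ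
      rw [a3, a4]
      linarith) (by
      rw [show ∑ i ∈ I.erase a, y i ^ 2 - 2 * y a - 1 - (∑ i ∈ I.erase a, y i - 1) =
        ∑ i ∈ I.erase a, y i ^ 2 - ∑ i ∈ I.erase a, y i - 2 * y a by ring]
      exact (even_sq_sub _ y).sub (even_two_mul _))
  have := h.2 (Function.update z a (y a + 1)) ⟨by
    rw [sum_ext h.1 z _ fun v => v, z1, ← add_sum_erase _ _ h.1]; ring, by
    rw [sum_ext h.1 z _ fun v => v ^ 2, z2, ← add_sum_erase _ (fun i => y i ^ 2) h.1]; ring⟩ a h.1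
  rw [Function.update_self] at this
  omega

lemma exists_kappa {K : ℕ} (hK : 8 ≤ K) : ∃ κ : ℝ, K * κ = 1 ∧ 0 < κ ∧ 8 * κ ≤ 1 := by
  have : (8 : ℝ) ≤ K := by exact_mod_cast hK
  exact ⟨1 / K, mul_one_div_cancel (by linarith), by positivity,
    by rw [mul_one_div, div_le_one (by linarith)]; exact this⟩

theorem cmpT {K u : ℕ} (h : Top I a y) (hI : I.card = K + 1) (hK : 8 ≤ K) (hc : Mean I c y)
    {s η B : ℝ} (hs : VV I c y = s ^ 2) (s1 : 100 ≤ s) (s2 : 4 * (K : ℝ) ≤ s) (η0 : 0 ≤ η)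
    (η1 : η * s ^ 2 ≤ 1) (B0 : 0 ≤ B) (B1 : 13 * s ≤ B ^ 2)
    (h1 : ∑ i ∈ I, y' i = ∑ i ∈ I, y i) (h2 : ∑ i ∈ I, y' i ^ 2 + 2 * u = ∑ i ∈ I, y i ^ 2)
    (hb : b ∈ I) (t : ∀ i ∈ I, y' i ≤ y' b) :
    TT I η c y' - TT I η c y ≤ -(((y a : ℝ) - y' b) * s ^ 2 / 16) + 50 * s + 17 * B * s + u * s := by
  obtain ⟨κ, k1, k2, k3⟩ := exists_kappa hK
  have ea : (I.erase a).card = K := by rw [card_erase_of_mem h.1]; omega
  have eb : (I.erase b).card = K := by rw [card_erase_of_mem hb]; omega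
  have hc' := hc.of h1
  have v := VV_add (c := c) h1 h2
  have u0 : (0 : ℝ) ≤ u := Nat.cast_nonneg _
  obtain ⟨R, Z3, Z4, p1, p2, p3, -, p5, p6, p7, -⟩ := loc (κ := κ) (by rw [eb, k1]) (hc'.rest hb)
  obtain ⟨R', Z3', Z4', q1, q2, q3, q4, q5, -, -, q8⟩ := loc (ea.symm ▸ k1) (hc.rest h.1)
  have r1 := h.R_le (by omega) hc (ea.symm ▸ k1) q1
  have w1 := tau_exp (I := I) (d := fun i => (y' i : ℝ) - c) η0 (by linarith : 2 ≤ s) η1
    (by change VV I c y' ≤ _; linarith)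
  have w2 := tau_exp (I := I) (d := fun i => (y i : ℝ) - c) η0 (by linarith : 2 ≤ s) η1 hs.le
  rw [← add_sum_erase _ (fun i => ((y' i : ℝ) - c) ^ 3) hb,
    ← add_sum_erase _ (fun i => ((y' i : ℝ) - c) ^ 4) hb, p2, p3] at w1
  rw [← add_sum_erase _ (fun i => ((y i : ℝ) - c) ^ 3) h.1,
    ← add_sum_erase _ (fun i => ((y i : ℝ) - c) ^ 4) h.1, q2, q3] at w2
  rw [hs, VV, ← add_sum_erase _ _ hb, p1] at v
  rw [VV, ← add_sum_erase _ _ h.1, q1] at hs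
  have le : (y' b : ℝ) ≤ y a := by exact_mod_cast h.le_less (by omega) h1 h2 hb
  have x2 : ((y a : ℝ) - c) ^ 2 * κ ≥ 0 := by positivity
  have key := cmp_core (u := u) (x := y' b - c) (x' := y a - c) (R := R) (R' := R') (Z3 := Z3)
    (Z3' := Z3') (Z4 := Z4) (Z4' := Z4') k2 k3 s1 η0 η1 u0 (hc'.top0 hb t)
    (by linarith) (by linarith) (by linarith) q4 (ρ := (I.erase a).card / 4) (by rw [ea]; linarith) r1
    B0 B1 (fun e => (p5 B B0 e).2)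
    (p6 fun i hi => by
      have : (y' i : ℝ) ≤ y' b := by exact_mod_cast t i (mem_of_mem_erase hi)
      linarith) (fun e => (q5 B B0 e).1) p7
    (q8 _ (by nlinarith [mul_le_mul_of_nonneg_left k3 x2, sq_nonneg ((y a : ℝ) - c)])
      (by nlinarith [sq_nonneg ((y a : ℝ) - c)]))
  unfold TT
  linarith [(abs_le.1 w1).2, (abs_le.1 w2).1]

theorem addT {K u : ℕ} (h : Top I a y) (hI : I.card = K + 1) (hK : 8 ≤ K) (hc : Mean I c y)
    {t η B : ℝ} (hs : VV I c y + 2 * u ≤ t ^ 2) (t2 : 2 ≤ t) (t3 : (K : ℝ) ≤ t) (η0 : 0 ≤ η)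
    (η1 : η * t ≤ 1 / 2) (B0 : 0 ≤ B) (B1 : 4 * t ≤ B ^ 2)
    (h1 : ∑ i ∈ I, y' i = ∑ i ∈ I, y i) (h2 : ∑ i ∈ I, y i ^ 2 + 2 * u = ∑ i ∈ I, y' i ^ 2) :
    TT I η c y' - TT I η c y ≤ 3 * (1 + 1 / K) * VV I c y + u * (3 * t + 7) + 2 * t * (K / 4 + 2) +
      4 * B * t + 2 * η * VV I c y ^ 2 := by
  obtain ⟨κ, k1, k2, k3⟩ := exists_kappa hK
  obtain ⟨b, hb, tb⟩ := exists_max_image I y' ⟨a, h.1⟩
  have K0 : (0 : ℝ) < K := by exact_mod_cast (by omega : 0 < K)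
  have ea : (I.erase a).card = K := by rw [card_erase_of_mem h.1]; omega
  have eb : (I.erase b).card = K := by rw [card_erase_of_mem hb]; omega
  have hc' := hc.of h1
  have v := VV_add (c := c) h1.symm h2
  have u0 : (0 : ℝ) ≤ u := Nat.cast_nonneg _
  obtain ⟨R, Z3, Z4, p1, p2, -, p4, -, p6, -⟩ := loc (κ := κ) (by rw [eb, k1]) (hc'.rest hb)
  obtain ⟨R', Z3', Z4', q1, q2, -, q4, q5, -⟩ := loc (ea.symm ▸ k1) (hc.rest h.1)
  have r1 := h.R_le (by omega) hc (ea.symm ▸ k1) q1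
  have w1 := tau_le3 (I := I) (d := fun i => (y' i : ℝ) - c) η0 (by linarith : 0 ≤ t) η1
    (by change VV I c y' ≤ _; linarith)
  have w2 := tau_ge3 (I := I) (d := fun i => (y i : ℝ) - c) η0 (by linarith : 0 ≤ t) η1
    (by change VV I c y ≤ _; linarith)
  rw [← add_sum_erase _ (fun i => ((y' i : ℝ) - c) ^ 3) hb, p2] at w1
  rw [← add_sum_erase _ (fun i => ((y i : ℝ) - c) ^ 3) h.1, q2] at w2
  have v1 : VV I c y' = _ := (add_sum_erase _ _ hb).symm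
  have v2 : VV I c y = _ := (add_sum_erase _ _ h.1).symm
  rw [p1] at v1
  rw [q1] at v2
  rw [ea] at r1
  have key := add_core (u := u) (W := VV I c y) (x := y' b - c) (x' := y a - c) (R := R) (R' := R')
    (Z3 := Z3) (Z3' := Z3') k2 k3 t2 u0 (hc'.top0 hb tb) (hc.top0 h.1 h.self) hs
    (by linarith) (by linarith) p4 q4 (by positivity) (by linarith) r1 B0 B1
    (p6 fun i hi => by
      have : (y' i : ℝ) ≤ y' b := by exact_mod_cast tb i (mem_of_mem_erase hi)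
      linarith) (fun e => (q5 B B0 e).1)
  rw [show 1 / (K : ℝ) = κ by rw [div_eq_iff K0.ne', mul_comm, k1]]
  change _ - 2 * η * VV I c y ^ 2 ≤ _ at w2
  unfold TT
  linarith

/-- a smaller top coordinate loses -/
theorem level {K : ℕ} (h : Top I a y) (hI : I.card = K + 1) (hK : 8 ≤ K) (hc : Mean I c y)
    {s η : ℝ} (hs : VV I c y = s ^ 2) (s1 : 3000000 ≤ s) (s2 : 4 * (K : ℝ) ≤ s) (η0 : 0 ≤ η)
    (η1 : η * s ^ 2 ≤ 1) (h1 : Same I y y') (t : ∀ i ∈ I, y' i < y a) :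
    TT I η c y' < TT I η c y := by
  obtain ⟨b, hb, tb⟩ := exists_max_image I y' ⟨a, h.1⟩
  have a1 := cmpT (u := 0) (B := s / 400) h hI hK hc hs (by linarith) s2 η0 η1 (by positivity)
    (by nlinarith) h1.1 (by simpa using h1.2) hb tb
  have a2 : (y' b : ℝ) + 1 ≤ y a := by exact_mod_cast t b hb
  have a3 := mul_le_mul_of_nonneg_right (show 1 ≤ (y a : ℝ) - y' b by linarith) (sq_nonneg s)
  push_cast at a1
  nlinarith

end Pool.Agent.P.MP_094db5_co.Dn
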