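import Pool.Agent.P.MP_094db5_co.DA3

/-! Power sums, elementary symmetric sums and the sum of reciprocals. -/

set_option autoImplicit false

open Finset

noncomputable section

namespace Pool.Agent.P.MP_094db5_co.Dn

/-- power sums -/
def pw (I : Finset ℕ) (y : ℕ → ℤ) (j : ℕ) : ℤ := ∑ i ∈ I, y i ^ j

/-- elementary symmetric sums -/
def es (I : Finset ℕ) (y : ℕ → ℤ) (j : ℕ) : ℤ := ∑ S ∈ powersetCard j I, ∏ i ∈ S, y i

/-- the sum of reciprocals -/
def sg (μ : ℝ) (I : Finset ℕ) (y : ℕ → ℤ) : ℝ := ∑ i ∈ I, 1 / (μ + y i)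

/-- lexicographic comparison of signed power sums -/
def LexR (I : Finset ℕ) (y y' : ℕ → ℤ) : Prop := ∀ j, 3 ≤ j → (∀ i < j, pw I y' i = pw I y i) →
  (-1) ^ j * pw I y j ≤ (-1) ^ j * pw I y' j

variable {I : Finset ℕ} {a b : ℕ} {y y' : ℕ → ℤ} {c : ℝ}

lemma newton (I : Finset ℕ) (y : ℕ → ℤ) {n : ℕ} (hn : 0 < n) :
    pw I y n = (-1) ^ (n + 1) * n * es I y n -
      ∑ p ∈ antidiagonal n with p.1 ∈ Set.Ioo 0 n, (-1) ^ p.1 * es I y p.1 * pw I y p.2 := by
  have e1 : ∀ j, MvPolynomial.aeval (fun i : I => y i) (MvPolynomial.esymm I ℤ j) = es I y j :=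
    fun j => by
      rw [MvPolynomial.aeval_esymm_eq_multiset_esymm, es, ← Finset.esymm_map_val]
      congr 1
      exact Multiset.attach_map_val' I.val y
  have e2 : ∀ j, MvPolynomial.aeval (fun i : I => y i) (MvPolynomial.psum I ℤ j) = pw I y j :=
    fun j => by
      simp only [MvPolynomial.psum, map_sum, map_pow, MvPolynomial.aeval_X, pw]
      exact sum_coe_sort I fun i => y i ^ j
  have := congrArg (MvPolynomial.aeval fun i : I => y i)
    (MvPolynomial.psum_eq_mul_esymm_sub_sum I ℤ n hn)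
  simpa only [map_sub, map_mul, map_pow, map_neg, map_one, map_natCast, map_sum, e1, e2] using this

lemma newton_diff {n : ℕ} (hn : 0 < n) (h1 : ∀ i < n, es I y' i = es I y i)
    (h2 : ∀ i < n, pw I y' i = pw I y i) :
    pw I y' n - pw I y n = (-1) ^ (n + 1) * n * (es I y' n - es I y n) := by
  rw [newton I y hn, newton I y' hn, sum_congr rfl fun p hp => by
    have a1 := (mem_filter.1 hp).2
    have a2 := mem_antidiagonal.1 (mem_filter.1 hp).1
    rw [h1 _ a1.2, h2 p.2 (by have := a1.1; omega)]]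
  ring

lemma es_of_pw : ∀ n, (∀ i < n, pw I y' i = pw I y i) → ∀ i < n, es I y' i = es I y i := by
  intro n
  induction n with
  | zero => exact fun _ i hi => absurd hi (Nat.not_lt_zero _)
  | succ n ih =>
    intro h i hi
    rcases (Nat.lt_succ_iff.1 hi).lt_or_eq with e | rfl
    · exact ih (fun j hj => h j (by omega)) i e
    · rcases Nat.eq_zero_or_pos i with rfl | i0
      · simp [es]
      · have := newton_diff i0 (ih fun j hj => h j (by omega)) fun j hj => h j (by omega)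
        rw [h i hi, sub_self] at this
        have a1 : ((-1 : ℤ) ^ (i + 1) * i) ≠ 0 :=
          mul_ne_zero (pow_ne_zero _ (by norm_num)) (by exact_mod_cast i0.ne')
        exact sub_eq_zero.1 ((mul_eq_zero.1 this.symm).resolve_left a1)

lemma pw_of_es : ∀ n, (∀ i < n, es I y' i = es I y i) → ∀ i < n, pw I y' i = pw I y i := by
  intro n
  induction n with
  | zero => exact fun _ i hi => absurd hi (Nat.not_lt_zero _)
  | succ n ih =>
    intro h i hi
    rcases (Nat.lt_succ_iff.1 hi).lt_or_eq with e | rfl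
    · exact ih (fun j hj => h j (by omega)) i e
    · rcases Nat.eq_zero_or_pos i with rfl | i0
      · simp [pw]
      · have := newton_diff i0 (fun j hj => h j (by omega)) (ih fun j hj => h j (by omega))
        rw [h i hi, sub_self, mul_zero] at this
        exact sub_eq_zero.1 this

lemma pw_all (h : ∀ i < I.card + 1, pw I y' i = pw I y i) (j : ℕ) : pw I y' j = pw I y j :=
  pw_of_es (j + 1) (fun i _ => by
    rcases Nat.lt_or_ge I.card i with e | e
    · simp [es, powersetCard_eq_empty.2 e]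
    · exact es_of_pw _ h i (by omega)) j (by omega)

lemma lexR_iff : LexR I y y' ↔
    ∀ j, 3 ≤ j → (∀ i < j, es I y' i = es I y i) → es I y' j ≤ es I y j := by
  have key : ∀ j, 3 ≤ j → (∀ i < j, es I y' i = es I y i) → (∀ i < j, pw I y' i = pw I y i) →
      ((-1) ^ j * pw I y j ≤ (-1) ^ j * pw I y' j ↔ es I y' j ≤ es I y j) := fun j hj h1 h2 => by
    have a1 := newton_diff (by omega : 0 < j) h1 h2
    have a2 : ((-1 : ℤ) ^ j) ^ 2 = 1 := by rw [← pow_mul, mul_comm, pow_mul]; simp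
    have a3 : (-1) ^ j * pw I y' j - (-1) ^ j * pw I y j = j * (es I y j - es I y' j) := by
      linear_combination (-1) ^ j * a1 + j * (es I y j - es I y' j) * a2
    rw [← sub_nonneg, a3, mul_nonneg_iff_of_pos_left (by exact_mod_cast (by omega : 0 < j)),
      sub_nonneg]
  exact ⟨fun h j hj e => (key j hj e (pw_of_es j e)).1 (h j hj (pw_of_es j e)),
    fun h j hj e => (key j hj (es_of_pw j e) e).2 (h j hj (es_of_pw j e))⟩

lemma Same.pw (h : Same I y y') : ∀ i < 3, pw I y' i = pw I y i := fun i hi => by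
  interval_cases i
  · simp [Dn.pw]
  · simpa [Dn.pw] using h.1
  · exact h.2

lemma same_of_pw {j : ℕ} (hj : 3 ≤ j) (h : ∀ i < j, pw I y' i = pw I y i) : Same I y y' :=
  ⟨by simpa [pw] using h 1 (by omega), h 2 (by omega)⟩

lemma shift_eq (I : Finset ℕ) (y : ℕ → ℤ) (c : ℝ) (n : ℕ) : ∑ i ∈ I, ((y i : ℝ) - c) ^ n =
    ∑ m ∈ range (n + 1), (pw I y m : ℝ) * ((-c) ^ (n - m) * n.choose m) := by
  simp only [sub_eq_add_neg, add_pow, pw, Int.cast_sum, Int.cast_pow, sum_mul, mul_assoc]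
  exact sum_comm

lemma shift {j : ℕ} (h : ∀ i < j, pw I y' i = pw I y i) (c : ℝ) :
    (∀ n < j, ∑ i ∈ I, ((y' i : ℝ) - c) ^ n = ∑ i ∈ I, ((y i : ℝ) - c) ^ n) ∧
    ∑ i ∈ I, ((y' i : ℝ) - c) ^ j - ∑ i ∈ I, ((y i : ℝ) - c) ^ j = pw I y' j - pw I y j := by
  refine ⟨fun n hn => ?_, ?_⟩
  · rw [shift_eq, shift_eq]
    exact sum_congr rfl fun m hm => by rw [h m (by have := mem_range.1 hm; omega)]
  · rw [shift_eq, shift_eq, sum_range_succ, sum_range_succ,
      sum_congr rfl fun m hm => by rw [h m (mem_range.1 hm)]]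
    simp

lemma inv_exp {L d : ℝ} (L0 : 0 < L) (h : 0 < L + d) (J : ℕ) : 1 / (L + d) =
    ∑ n ∈ range J, (-1) ^ n / L ^ (n + 1) * d ^ n + 1 / L ^ J * ((-d) ^ J / (L + d)) := by
  induction J with
  | zero => simp
  | succ J ih =>
    rw [sum_range_succ, add_assoc]
    refine ih.trans (congrArg _ ?_)
    rw [neg_pow d, neg_pow d]
    field_simp
    ring

section
variable {μ s : ℝ}

lemma sg_exp (s0 : 0 ≤ s) (hs : 2 * s ≤ μ + c) (L0 : 0 < μ + c) (hv : VV I c y ≤ s ^ 2) (J : ℕ) :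
    ∃ e, |e| ≤ I.card * (2 * s ^ J / (μ + c)) ∧ sg μ I y =
      ∑ n ∈ range J, (-1) ^ n / (μ + c) ^ (n + 1) * ∑ i ∈ I, ((y i : ℝ) - c) ^ n +
        1 / (μ + c) ^ J * e := by
  have hd : ∀ i ∈ I, |(y i : ℝ) - c| ≤ s := fun i hi =>
    abs_le_s (d := fun i => (y i : ℝ) - c) s0 hv hi
  refine ⟨∑ i ∈ I, (-((y i : ℝ) - c)) ^ J / (μ + c + (y i - c)), (abs_sum_le_sum_abs _ _).trans ?_, ?_⟩
  · rw [← nsmul_eq_mul]
    refine sum_le_card_nsmul _ _ _ fun i hi => ?_
    have a1 := (abs_le.1 (hd i hi)).1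
    rw [abs_div, abs_pow, abs_neg, abs_of_pos (show 0 < μ + c + (y i - c) by linarith),
      div_le_div_iff₀ (by linarith) L0]
    have a2 := mul_le_mul_of_nonneg_right (pow_le_pow_left₀ (abs_nonneg _) (hd i hi) J) L0.le
    have a3 := mul_le_mul_of_nonneg_left (show μ + c ≤ 2 * (μ + c + (y i - c)) by linarith)
      (pow_nonneg s0 J)
    linarith
  · simp only [mul_sum]
    rw [sum_comm, ← sum_add_distrib]
    refine sum_congr rfl fun i hi => ?_
    rw [← inv_exp L0 (by linarith [(abs_le.1 (hd i hi)).1])]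
    congr 1
    ring

lemma sg_diff (s0 : 0 ≤ s) (hs : 2 * s ≤ μ + c) (L0 : 0 < μ + c) (hv : VV I c y ≤ s ^ 2)
    (hv' : VV I c y' ≤ s ^ 2) {j : ℕ} (h : ∀ i < j, pw I y' i = pw I y i) :
    ∃ e, |e| ≤ I.card * (4 * s ^ (j + 1) / (μ + c)) ∧ sg μ I y' - sg μ I y =
      ((((-1) ^ j * pw I y' j - (-1) ^ j * pw I y j : ℤ) : ℝ) + e) / (μ + c) ^ (j + 1) := by
  obtain ⟨e, e1, e2⟩ := sg_exp s0 hs L0 hv (j + 1)
  obtain ⟨e', e3, e4⟩ := sg_exp s0 hs L0 hv' (j + 1)
  obtain ⟨p1, p2⟩ := shift h c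
  refine ⟨e' - e, (abs_sub _ _).trans (by
    rw [show 4 * s ^ (j + 1) / (μ + c) = 2 * (2 * s ^ (j + 1) / (μ + c)) by ring]; linarith), ?_⟩
  rw [e2, e4, sum_range_succ, sum_range_succ, sum_congr rfl fun n hn => by rw [p1 n (mem_range.1 hn)]]
  push_cast
  linear_combination (-1) ^ j / (μ + c) ^ (j + 1) * p2

lemma sg_eq (s0 : 0 ≤ s) (hs : 2 * s ≤ μ + c) (L0 : 0 < μ + c) (hv : VV I c y ≤ s ^ 2)
    (hv' : VV I c y' ≤ s ^ 2) (h : ∀ i, pw I y' i = pw I y i) : sg μ I y' = sg μ I y := by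
  have key : ∀ j : ℕ, |sg μ I y' - sg μ I y| ≤ I.card * (4 / (μ + c)) * (1 / 2) ^ j := fun j => by
    obtain ⟨e, e1, e2⟩ := sg_diff s0 hs L0 hv hv' (j := j) fun i _ => h i
    rw [e2, h j, sub_self, Int.cast_zero, zero_add, abs_div, abs_of_pos (pow_pos L0 _),
      div_le_iff₀ (pow_pos L0 _)]
    refine e1.trans ?_
    have a1 : s ^ (j + 1) ≤ (1 / 2) ^ j * (μ + c) ^ (j + 1) := by
      rw [pow_succ, pow_succ, ← mul_assoc, ← mul_pow]
      exact mul_le_mul (pow_le_pow_left₀ s0 (by linarith) _) (by linarith) s0 (by positivity)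
    have a2 := mul_le_mul_of_nonneg_left a1 (show 0 ≤ I.card * (4 / (μ + c)) by positivity)
    calc _ = I.card * (4 / (μ + c)) * s ^ (j + 1) := by ring
      _ ≤ _ := by linarith
  have := ge_of_tendsto' ((tendsto_pow_atTop_nhds_zero_of_lt_one (r := (1 / 2 : ℝ)) (by norm_num)
    (by norm_num)).const_mul (I.card * (4 / (μ + c)))) key
  rw [mul_zero] at this
  exact sub_eq_zero.1 (abs_nonpos_iff.1 this)

/-- bounded deviations -/
theorem direct (s1 : 1 ≤ s) (k0 : 0 < I.card) (hL : 4 * I.card * s ^ (I.card + 1) < μ + c)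
    (hv : VV I c y ≤ s ^ 2) (h : Same I y y') : sg μ I y ≤ sg μ I y' ↔ LexR I y y' := by
  have k1 : (1 : ℝ) ≤ I.card := by exact_mod_cast k0
  have a0 : s ≤ s ^ (I.card + 1) := le_self_pow₀ s1 (by omega)
  have a1 : 4 * s < μ + c := by nlinarith
  have hv' : VV I c y' ≤ s ^ 2 := h.vv ▸ hv
  have L0 : 0 < μ + c := by linarith
  have key : ∀ j, (∀ i < j, pw I y' i = pw I y i) → pw I y' j ≠ pw I y j →
      (sg μ I y ≤ sg μ I y' ↔ (-1) ^ j * pw I y j ≤ (-1) ^ j * pw I y' j) := fun j h1 h2 => by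
    have j1 : j ≤ I.card := by
      by_contra hn
      exact h2 (pw_all (fun i hi => h1 i (by omega)) j)
    obtain ⟨e, e1, e2⟩ := sg_diff (by linarith) (by linarith) L0 hv hv' h1
    have b1 : |e| < 1 := e1.trans_lt (by
      rw [← mul_div_assoc, div_lt_one L0]
      have := pow_le_pow_right₀ s1 (show j + 1 ≤ I.card + 1 by omega)
      nlinarith)
    have b2 : (-1) ^ j * pw I y' j - (-1) ^ j * pw I y j ≠ 0 := by
      rw [← mul_sub]; exact mul_ne_zero (pow_ne_zero _ (by norm_num)) (sub_ne_zero.2 h2)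
    rw [← sub_nonneg, e2, ← sub_nonneg (b := (-1) ^ j * pw I y j), le_div_iff₀ (pow_pos L0 _),
      zero_mul]
    generalize (-1) ^ j * pw I y' j - (-1) ^ j * pw I y j = z at *
    rcases lt_or_gt_of_ne b2 with w | w
    · have : (z : ℝ) ≤ -1 := by exact_mod_cast (by omega : z ≤ -1)
      exact iff_of_false (by linarith [(abs_lt.1 b1).2]) (by omega)
    · have : (1 : ℝ) ≤ z := by exact_mod_cast (by omega : 1 ≤ z)
      exact iff_of_true (by linarith [(abs_lt.1 b1).1]) w.le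
  refine ⟨fun h1 j _ h2 => ?_, fun h1 => ?_⟩
  · by_cases e : pw I y' j = pw I y j
    · rw [e]
    · exact (key j h2 e).1 h1
  · by_cases e : ∃ j, pw I y' j ≠ pw I y j
    · have b1 : ∀ i < Nat.find e, pw I y' i = pw I y i := fun i hi => not_not.1 (Nat.find_min e hi)
      refine (key _ b1 (Nat.find_spec e)).2 (h1 _ ?_ b1)
      by_contra hn
      exact Nat.find_spec e (h.pw _ (by omega))
    · exact (sg_eq (by linarith) (by linarith) L0 hv hv' fun i => not_not.1 fun b => e ⟨i, b⟩).ge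

lemma sg_T (s0 : 0 ≤ s) (hs : 2 * s ≤ μ + c) (L0 : 0 < μ + c) (hv : VV I c y ≤ s ^ 2)
    (hc : Mean I c y) : sg μ I y = I.card / (μ + c) + VV I c y / (μ + c) ^ 3 -
      TT I (1 / (μ + c)) c y / (μ + c) ^ 4 := by
  rw [sg, sum_congr rfl (g := fun i => 1 / (μ + c) - 1 / (μ + c) ^ 2 * ((y i : ℝ) - c) +
    ((y i : ℝ) - c) ^ 2 / (μ + c) ^ 3 - tau (1 / (μ + c)) (y i - c) / (μ + c) ^ 4) fun i hi => by
      have a1 := (abs_le.1 (abs_le_s (d := fun i => (y i : ℝ) - c) s0 hv hi)).1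
      rw [show μ + y i = μ + c + (y i - c) by ring, tau]
      generalize (y i : ℝ) - c = d at *
      generalize μ + c = L at *
      have a2 : 0 < L + d := by linarith
      rw [show 1 + 1 / L * d = (L + d) / L by field_simp]
      field_simp
      ring]
  rw [sum_sub_distrib, sum_add_distrib, sum_sub_distrib, ← mul_sum, hc.sum, sum_const, ← sum_div,
    ← sum_div, nsmul_eq_mul, VV, TT]
  ring

end

end Pool.Agent.P.MP_094db5_co.Dn
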