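import Pool.Agent.P.MP_094db5_co.DA4

/-! The minimisers of the sum of reciprocals are the lexicographic maximisers. -/

set_option autoImplicit false

open Finset

noncomputable section

namespace Pool.Agent.P.MP_094db5_co.Dn

variable {I : Finset ℕ} {a : ℕ} {y : ℕ → ℤ} {c : ℝ}

lemma step (ha : a ∈ I) (t : ∀ i ∈ I, y i ≤ y a) {Rl Rl' : (ℕ → ℤ) → (ℕ → ℤ) → Prop}
    (add : ∀ z, Rl y (Function.update z a (y a)) ↔ Rl' y z)
    (inv : ∀ z z', (∀ f : ℤ → ℤ, ∑ i ∈ I, f (z' i) = ∑ i ∈ I, f (z i)) →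
      (∀ f : ℤ → ℝ, ∑ i ∈ I, f (z' i) = ∑ i ∈ I, f (z i)) → Rl y z' → Rl y z)
    (lev : ∀ w b z, Same I y w → Top I b w → Same I w z → (∀ i ∈ I, z i < w b) →
      Rl w z ∧ ¬ Rl z w) :
    (∀ z, Same I y z → Rl y z) ↔ Top I a y ∧ ∀ z, Same (I.erase a) y z → Rl' y z := by
  refine ⟨fun h => ⟨?_, fun z hz => (add z).1 (h _ ⟨?_, ?_⟩)⟩, fun ⟨h1, h2⟩ z hz => ?_⟩
  · obtain ⟨w, b, h1, h2⟩ := exists_top ⟨a, ha⟩ y
    by_cases e : y a < w b
    · exact ((lev w b y h1 h2 h1.symm fun i hi => (t i hi).trans_lt e).2 (h w h1)).elim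
    · exact ⟨ha, fun z hz i hi => (h2.2 z (h1.symm.trans hz) i hi).trans (not_lt.1 e)⟩
  · rw [sum_ext ha z _ fun v => v, hz.1, add_sum_erase _ _ ha]
  · rw [sum_ext ha z _ fun v => v ^ 2, hz.2, add_sum_erase _ (fun i => y i ^ 2) ha]
  · by_cases e : ∀ i ∈ I, z i < y a
    · exact (lev y a z (Same.rfl' I y) h1 hz e).1
    · simp only [not_forall, not_lt] at e
      obtain ⟨b, hb, e⟩ := e
      obtain ⟨z', p1, -, p2, p3⟩ := exists_swap hb ha z
      rw [le_antisymm (h1.2 z hz b hb) e] at p1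
      have q1 := (p2 fun v => v).trans hz.1
      have q2 := (p2 fun v => v ^ 2).trans hz.2
      rw [← add_sum_erase _ _ ha, ← add_sum_erase _ y ha, p1] at q1
      rw [← add_sum_erase _ _ ha, ← add_sum_erase _ (fun i => y i ^ 2) ha, p1] at q2
      have := (add z').2 (h2 z' ⟨add_left_cancel q1, add_left_cancel q2⟩)
      rw [← p1, Function.update_eq_self] at this
      exact inv z z' p2 p3 this

lemma TT_zero (I : Finset ℕ) (c : ℝ) (y : ℕ → ℤ) : TT I 0 c y = ∑ i ∈ I, ((y i : ℝ) - c) ^ 3 := by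
  simp [TT, tau]

theorem lex_opt (k : ℕ) : ∀ (e : ℕ) (A : ℝ), 4 ≤ e + k → ∃ L₀ : ℝ, ∀ (I : Finset ℕ) (μ c s : ℝ)
    (y : ℕ → ℤ), I.card = k + 8 → Mean I c y → 1 ≤ s → VV I c y ≤ s ^ 2 → VV I c y ≤ μ + c →
    s ^ 2 ^ e ≤ A * (μ + c) → L₀ ≤ μ + c →
    ((∀ z, Same I y z → sg μ I y ≤ sg μ I z) ↔ ∀ z, Same I y z → LexR I y z) := by
  induction k with
  | zero =>
    refine fun e A he => ⟨32 * (33 * |A|) ^ 9 + 1, fun I μ c s y hI _ s1 hv _ hA hL => ?_⟩
    refine forall_congr' fun z => forall_congr' fun hz => direct s1 (by omega) ?_ hv hz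
    have L0 : 0 < μ + c := lt_of_lt_of_le (by positivity) hL
    have a1 : s ^ 16 ≤ |A| * (μ + c) := ((pow_le_pow_right₀ s1
      (Nat.pow_le_pow_right two_pos (show 4 ≤ e by omega))).trans hA).trans
      (mul_le_mul_of_nonneg_right (le_abs_self A) L0.le)
    rw [hI]
    push_cast
    rcases le_total s (33 * |A|) with w | w
    · linarith [pow_le_pow_left₀ (by linarith) w 9]
    · have a2 : s ≤ s ^ 7 := le_self_pow₀ s1 (by norm_num)
      have a3 : 0 < s ^ 7 := by positivity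
      refine lt_of_mul_lt_mul_right ?_ a3.le
      nlinarith [mul_le_mul_of_nonneg_right (w.trans a2) L0.le, mul_pos a3 L0]
  | succ k ih =>
    intro e A he
    obtain ⟨L₁, h₁⟩ := ih (e + 1) (2 * 4 ^ 2 ^ e * A) (by omega)
    obtain ⟨m, hm⟩ : ∃ m : ℝ, m = 3000000 + 4 * (k + 8 : ℕ) := ⟨_, rfl⟩
    have k0 : (0 : ℝ) ≤ (k + 8 : ℕ) := Nat.cast_nonneg _
    refine ⟨max (4 * (k + 1 + 8 : ℕ) * m ^ (k + 1 + 8 + 1) + 1) (2 * L₁),
      fun I μ c s y hI hc s1 hv hvL hA hL => ?_⟩
    obtain ⟨s₀, s0, hs⟩ : ∃ s₀, 0 ≤ s₀ ∧ VV I c y = s₀ ^ 2 :=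
      ⟨_, Real.sqrt_nonneg _, (Real.sq_sqrt (VV0 I c y)).symm⟩
    rcases le_total s₀ m with w | w
    · refine forall_congr' fun z => forall_congr' fun hz => direct (s := m) (by linarith) (by omega) ?_
        (hs ▸ pow_le_pow_left₀ s0 w 2) hz
      rw [hI]
      linarith [(le_max_left _ _).trans hL]
    have a1 : s₀ ≤ s := (abs_le_of_sq_le_sq' (hs ▸ hv) (by linarith)).2
    have a2 : 100 * s₀ ≤ μ + c := by nlinarith
    have L0 : 0 < μ + c := by linarith
    obtain ⟨a, ha, t⟩ := exists_max_image I y (card_pos.1 (by omega))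
    have lev : ∀ η, 0 ≤ η → η * s₀ ^ 2 ≤ 1 → ∀ w b z, Same I y w → Top I b w → Same I w z →
        (∀ i ∈ I, z i < w b) → TT I η c z < TT I η c w := fun η η0 η1 u b z p1 p2 p3 p4 =>
      level (K := k + 8) p2 (by omega) (by omega) (hc.of p1.1) (p1.vv.trans hs) (by linarith)
        (by linarith) η0 η1 p3 p4
    rw [step ha t (Rl := fun y z => sg μ I y ≤ sg μ I z)
        (Rl' := fun y z => sg μ (I.erase a) y ≤ sg μ (I.erase a) z) (fun z => by
          simp only [sg]
          rw [sum_ext ha z _ fun v => 1 / (μ + v), ← add_sum_erase _ _ ha, add_le_add_iff_left])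
        (fun z z' _ p h => h.trans_eq (p fun v => 1 / (μ + v))) (fun u b z p1 p2 p3 p4 => by
          have b1 := lev (1 / (μ + c)) (by positivity)
            (by rw [one_div, inv_mul_le_iff₀ L0]; linarith) u b z p1 p2 p3 p4
          have b2 : sg μ I u < sg μ I z := by
            rw [sg_T s0 (by linarith) L0 (p1.vv.trans hs).le (hc.of p1.1),
              sg_T s0 (by linarith) L0 ((p1.trans p3).vv.trans hs).le (hc.of (p1.trans p3).1), p3.vv]
            linarith [div_lt_div_of_pos_right b1 (pow_pos L0 4)]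
          exact ⟨b2.le, not_le.2 b2⟩),
      step ha t (Rl := LexR I) (Rl' := LexR (I.erase a)) (fun z => by
          have e1 : ∀ j, pw I (Function.update z a (y a)) j = y a ^ j + pw (I.erase a) z j :=
            fun j => sum_ext ha z _ fun v => v ^ j
          have e2 : ∀ j, pw I y j = y a ^ j + pw (I.erase a) y j :=
            fun j => (add_sum_erase _ (fun i => y i ^ j) ha).symm
          simp only [LexR, e1, e2, add_right_inj, mul_add, add_le_add_iff_left])
        (fun z z' p _ h => by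
          have e1 : ∀ j, pw I z' j = pw I z j := fun j => p fun v => v ^ j
          simpa only [LexR, e1] using h) (fun u b z p1 p2 p3 p4 => by
          have b1 := lev 0 le_rfl (by simp) u b z p1 p2 p3 p4
          have b2 := (shift p3.pw c).2
          rw [TT_zero, TT_zero] at b1
          have b3 : pw I z 3 < pw I u 3 := by
            exact_mod_cast (by linarith : (pw I z 3 : ℝ) < pw I u 3)
          refine ⟨fun j hj h => ?_, fun h => ?_⟩
          · rcases hj.eq_or_lt with rfl | hj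
            · linarith
            · exact (b3.ne (h 3 hj)).elim
          · linarith [h 3 le_rfl p3.symm.pw])]
    refine and_congr_right fun top => ?_
    have ea : (I.erase a).card = k + 8 := by rw [card_erase_of_mem ha]; omega
    obtain ⟨κ, k1, k2, k3⟩ := exists_kappa (show 8 ≤ k + 8 by omega)
    have x0 := hc.top0 ha t
    have x1 : (y a : ℝ) - c ≤ s₀ :=
      (le_abs_self _).trans (abs_le_s (d := fun i => (y i : ℝ) - c) s0 hs.le ha)
    have x2 : ((y a : ℝ) - c) * κ ≤ s₀ := by nlinarith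
    have x3 : 0 ≤ ((y a : ℝ) - c) * κ := by positivity
    have r1 := hc.rest ha
    have r2 : ∑ i ∈ I.erase a, ((y i : ℝ) - c) ^ 2 =
        VV (I.erase a) (c - (y a - c) * κ) y + (y a - c) ^ 2 * κ := by
      rw [VV, sum_congr rfl (f := fun i => ((y i : ℝ) - (c - (y a - c) * κ)) ^ 2)
        (g := fun i => ((y i : ℝ) - c) ^ 2 + 2 * ((y a - c) * κ) * (y i - c) + ((y a - c) * κ) ^ 2)
        fun i _ => by ring, sum_add_distrib, sum_add_distrib, ← mul_sum, r1, sum_const, ea,
        nsmul_eq_mul]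
      linear_combination (-((y a : ℝ) - c) ^ 2 * κ) * k1
    have r3 := top.R_le (by omega) hc (ea ▸ k1) r2
    rw [ea] at r3
    have r4 : VV (I.erase a) (c - (y a - c) * κ) y ≤ 4 * s₀ := by nlinarith
    have r5 : √(4 * s) ^ 2 = 4 * s := Real.sq_sqrt (by linarith)
    have A0 : 0 ≤ A := by
      by_contra hn
      nlinarith [pow_pos (show 0 < s by linarith) (2 ^ e)]
    refine h₁ _ μ (c - (y a - c) * κ) √(4 * s) y ea ?_ (Real.one_le_sqrt.2 (by linarith))
      (by linarith) (by linarith) ?_ (by linarith [(le_max_right _ _).trans hL])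
    · rw [sum_sub_distrib, sum_const, nsmul_eq_mul, ea] at r1
      rw [Mean, ea, Int.cast_sum]
      linear_combination r1 + ((y a : ℝ) - c) * k1
    · rw [pow_succ', pow_mul, r5, mul_pow]
      have b1 := mul_le_mul_of_nonneg_left hA (show (0 : ℝ) ≤ 4 ^ 2 ^ e by positivity)
      have b2 := mul_le_mul_of_nonneg_left (show μ + c ≤ 2 * (μ + (c - (y a - c) * κ)) by linarith)
        (show (0 : ℝ) ≤ 4 ^ 2 ^ e * A by positivity)
      linarith

end Pool.Agent.P.MP_094db5_co.Dn
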