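import Pool.Agent.P.MP_094db5_co.XN
import Pool.Agent.P.MP_094db5_co.DA5

/-! Weighted variance and the coarse comparison in the dense range. -/

set_option autoImplicit false

open Finset

noncomputable section

namespace Pool.Agent.P.MP_094db5_co.Dn

/-- weighted variance -/
def EE (r : ℕ) (μ ν : ℝ) (n : ℕ → ℕ) : ℝ :=
  (μ + ν) * ∑ i ∈ Icc 1 r, ((n i : ℝ) - ν) ^ 2 * (1 / (μ + n i))

/-- variance -/
def WW (r : ℕ) (ν : ℝ) (n : ℕ → ℕ) : ℝ := ∑ i ∈ Icc 1 r, ((n i : ℝ) - ν) ^ 2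

/-- the unit of the comparison -/
def un (μ ν : ℝ) : ℝ := (μ + ν) ^ 3 / μ

/-- the gain factor of a star -/
def ro (r : ℕ) : ℝ := r / (r - 1) ^ 2

variable {r : ℕ} {δ ν μ : ℝ} {n n₀ : ℕ → ℕ}

lemma WW0 (r : ℕ) (ν : ℝ) (n : ℕ → ℕ) : 0 ≤ WW r ν n := sum_nonneg fun _ _ => sq_nonneg _

lemma WW_eq {j : ℝ} (h0 : ∑ i ∈ Icc 1 r, (n₀ i : ℝ) = r * ν)
    (hj : ∑ i ∈ Icc 1 r, (n i : ℝ) = r * ν + j) :
    WW r ν n = WW r ν n₀ + 2 * j * (r - 1) * ν + j ^ 2 + (eK2 r n₀ - eK2 r n) := by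
  rw [WW, WW, var_eq, var_eq, h0, hj]; ring

lemma un0 (h : Rg r δ ν μ) : 0 < un μ ν := by
  have := h.μ0
  have := h.L0
  unfold un; positivity

lemma unit (h : Rg r δ ν μ) {j g Γ : ℝ} (h0 : ∑ i ∈ Icc 1 r, (n₀ i : ℝ) = r * ν)
    (hj : ∑ i ∈ Icc 1 r, (n i : ℝ) = r * ν + j) (cand : Qn r μ n₀ ≤ 1 + g)
    (up : 1 ≤ Qn r μ n + Γ) :
    EE r μ ν n ≤ EE r μ ν n₀ + j * (μ + ν) + g * un μ ν + Γ * un μ ν := by
  have μ0 := h.μ0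
  have L0 := h.L0
  rw [Qn_eq μ0 h.ν0, h0] at cand
  rw [Qn_eq μ0 h.ν0, hj] at up
  unfold EE
  generalize ∑ i ∈ Icc 1 r, ((n i : ℝ) - ν) ^ 2 * (1 / (μ + n i)) = S at *
  generalize ∑ i ∈ Icc 1 r, ((n₀ i : ℝ) - ν) ^ 2 * (1 / (μ + n₀ i)) = S₀ at *
  have a1 := mul_le_mul_of_nonneg_right (show μ / (μ + ν) ^ 2 * S ≤
    μ / (μ + ν) ^ 2 * S₀ + μ * j / (μ + ν) ^ 2 + g + Γ by
      simp only [sub_self, mul_zero, zero_div, add_zero, add_sub_cancel_left] at cand up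
      linarith) (un0 h).le
  have e1 : ∀ t, μ / (μ + ν) ^ 2 * t * un μ ν = (μ + ν) * t := fun t => by unfold un; field_simp
  have e2 : μ * j / (μ + ν) ^ 2 * un μ ν = j * (μ + ν) := by unfold un; field_simp
  rwa [add_mul, add_mul, add_mul, e1, e1, e2] at a1

lemma EE_ge (h : Rg r δ ν μ) (hn : ∀ i ∈ Icc 1 r, Cl δ ν (n i)) :
    (1 - δ) * WW r ν n ≤ EE r μ ν n := by
  rw [WW, EE, mul_sum, mul_sum]
  refine sum_le_sum fun i hi => ?_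
  have := (div_le_iff₀ h.L0).1 (h.p1 (hn i hi))
  nlinarith [mul_le_mul_of_nonneg_left this (sq_nonneg ((n i : ℝ) - ν))]

lemma EE_le (h : Rg r δ ν μ) (hn : ∀ i ∈ Icc 1 r, Cl δ ν (n i)) :
    EE r μ ν n ≤ (1 + δ) * WW r ν n := by
  rw [WW, EE, mul_sum, mul_sum]
  refine sum_le_sum fun i hi => ?_
  have := (le_div_iff₀ h.L0).1 (h.p2 (hn i hi))
  nlinarith [mul_le_mul_of_nonneg_left this (sq_nonneg ((n i : ℝ) - ν))]

lemma ro_bounds (r11 : 11 ≤ r) :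
    0 < ro r ∧ ro r * (r - 1) ≤ 11 / 10 ∧ 1 ≤ ro r * (r - 1) ∧ ro r * (r - 1) ^ 2 = r := by
  have R : (11 : ℝ) ≤ r := by exact_mod_cast r11
  have r1 : (0 : ℝ) < r - 1 := by linarith
  have e : ro r * (r - 1) ^ 2 = r := div_mul_cancel₀ _ (pow_ne_zero 2 r1.ne')
  exact ⟨by unfold ro; positivity, le_of_mul_le_mul_right (by nlinarith) r1,
    le_of_mul_le_mul_right (by nlinarith) r1, e⟩

/-- the gain of stars in units -/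
lemma gain_un (h : Rg r δ ν μ) {D : ℝ} (D0 : 0 ≤ D) :
    D * ((1 + δ) / (μ + ν)) ^ 2 / (μ - 3) * un μ ν ≤ D * (ro r * (1 + 6 * δ)) / ν := by
  have μ0 := h.μ0
  have ν0 := h.ν0
  have L0 := h.L0
  have δ0 := h.δ0
  have δ3 := h.δ3
  have m3 : 0 < μ - 3 := by linarith [h.μ5]
  have ρ0 : (0 : ℝ) < r / (r - 1) ^ 2 := by
    have : (0 : ℝ) < r - 1 := by linarith only [h.R3]
    have : (0 : ℝ) < r := by linarith only [h.R3]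
    positivity
  have f3 : (μ + ν) * ν / (μ * (μ - 3)) * (1 + δ) ^ 2 ≤ r / (r - 1) ^ 2 * (1 + 6 * δ) := by
    refine le_trans (mul_le_mul_of_nonneg_right h.w2 (sq_nonneg _)) ?_
    rw [mul_assoc]
    refine mul_le_mul_of_nonneg_left ?_ ρ0.le
    nlinarith only [mul_pos δ0 δ0, δ0, δ3]
  rw [show D * ((1 + δ) / (μ + ν)) ^ 2 / (μ - 3) * un μ ν =
    D * ((μ + ν) * ν / (μ * (μ - 3)) * (1 + δ) ^ 2) / ν by unfold un; field_simp]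
  exact div_le_div_of_nonneg_right (mul_le_mul_of_nonneg_left f3 D0) ν0.le

lemma gainS (h : Rg r δ ν μ) {y x : ℕ → ℕ} (hn : ∀ i ∈ Icc 1 r, Cl δ ν (n i)) {g e α β C : ℝ}
    (a0 : 0 ≤ α) (b0 : 0 ≤ β) (g0 : 0 ≤ g) (g1 : g ≤ C) (e1 : e ≤ 1) (C1 : C ≤ δ * ν)
    (hx : ∑ i ∈ Icc 1 r, (x i : ℝ) ≤ C)
    (hy : ∑ i ∈ Icc 1 r, (y i : ℝ) ≤ (r - 1) * (1 + 2 * δ) * ν)
    (up : 1 ≤ PhS r μ n y x g e α β) : ∃ Γ, 1 ≤ Qn r μ n + Γ ∧ Γ * un μ ν ≤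
      ((∑ i ∈ Icc 1 r, (y i : ℝ)) ^ 2 + C ^ 2) * (ro r * (1 + 6 * δ)) / ν := by
  have ν0 := h.ν0
  have δ0 := h.δ0
  have rδ := mul_le_mul_of_nonneg_right h.δ2 ν0.le
  have δν := mul_pos δ0 ν0
  have u1 := PhS_le (e := e) (y := y) (x := x) (by linarith [h.μ5]) a0 b0
    (fun i hi => h.p2 (hn i hi)) g0 e1
    (by linarith [h.μ1, h.δν, mul_le_mul_of_nonneg_right h.R3 ν0.le]) (by linarith [h.δν, h.μ3])
  have x0 : 0 ≤ ∑ i ∈ Icc 1 r, (x i : ℝ) := sum_nonneg fun _ _ => Nat.cast_nonneg _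
  refine ⟨_, up.trans u1, ?_⟩
  rw [mul_pow, mul_pow, ← add_mul]
  refine (gain_un h (by positivity)).trans (div_le_div_of_nonneg_right
    (mul_le_mul_of_nonneg_right (by linarith [pow_le_pow_left₀ x0 hx 2]) ?_) ν0.le)
  have : (0 : ℝ) < r - 1 := by linarith only [h.R3]
  unfold ro
  positivity

/-- a star gains at most a fixed multiple of its size -/
lemma gain_lin (h : Rg r δ ν μ) (r11 : 11 ≤ r) {d C : ℝ} (d0 : 0 ≤ d)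
    (d1 : d ≤ (r - 1) * (1 + 2 * δ) * ν) :
    (d ^ 2 + C ^ 2) * (ro r * (1 + 6 * δ)) / ν ≤ 111 / 100 * d + C ^ 2 / (8 * ν) := by
  obtain ⟨p0, p1, -, -⟩ := ro_bounds r11
  have R : (11 : ℝ) ≤ r := by exact_mod_cast r11
  have ν0 := h.ν0
  have δ0 := h.δ0
  have δ3 := h.δ3
  have a1 : ro r * (1 + 6 * δ) ≤ 1 / 8 := by nlinarith
  have a2 : d * (ro r * (1 + 6 * δ)) ≤ 111 / 100 * ν := by
    refine (mul_le_mul_of_nonneg_right d1 (by positivity)).trans ?_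
    have b1 : (1 + 2 * δ) * (1 + 6 * δ) ≤ 1 + 9 * δ := by nlinarith
    have b2 := mul_le_mul p1 b1 (by positivity) (by norm_num)
    nlinarith [mul_le_mul_of_nonneg_right b2 ν0.le]
  rw [div_le_iff₀ ν0, add_mul, add_mul, show C ^ 2 / (8 * ν) * ν = C ^ 2 * (1 / 8) by field_simp]
  nlinarith [mul_le_mul_of_nonneg_left a1 (sq_nonneg C), mul_le_mul_of_nonneg_left a2 d0]

/-- the coarse comparison -/
theorem boot2 (h : Rg r δ ν μ) (r11 : 11 ≤ r) {M : ℕ} (hM : (M : ℝ) = r * ν)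
    (h0 : ∑ i ∈ Icc 1 r, n₀ i = M) (c0 : ∀ i ∈ Icc 1 r, Cl δ ν (n₀ i)) (W0 : WW r ν n₀ ≤ 4 * ν)
    {g₁ : ℝ} (cand : Qn r μ n₀ ≤ 1 + g₁) (hg : g₁ * un μ ν ≤ 3)
    {y x : ℕ → ℕ} (hn : ∀ i ∈ Icc 1 r, Cl δ ν (n i)) {g e α β C : ℝ}
    (a0 : 0 ≤ α) (b0 : 0 ≤ β) (g0 : 0 ≤ g) (g1 : g ≤ C) (e1 : e ≤ 1) (C1 : C ≤ δ * ν)
    (hx : ∑ i ∈ Icc 1 r, (x i : ℝ) ≤ C)
    (hy : ∑ i ∈ Icc 1 r, (y i : ℝ) ≤ (r - 1) * (1 + 2 * δ) * ν)
    (he : |eK2 r n + 2 * ∑ i ∈ Icc 1 r, (y i : ℝ) - eK2 r n₀| ≤ 2 * C)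
    (up : 1 ≤ PhS r μ n y x g e α β) :
    (∑ i ∈ Icc 1 r, n i = M ∨ ∑ i ∈ Icc 1 r, n i + 1 = M) ∧ |μ - (r - 1) * ν| ≤ 10 ∧
      WW r ν n ≤ 4 * r * ν := by
  have R : (11 : ℝ) ≤ r := by exact_mod_cast r11
  have μ0 := h.μ0
  have ν0 := h.ν0
  have δ0 := h.δ0
  have δ3 := h.δ3
  have L0 := h.L0
  have rδ := mul_le_mul_of_nonneg_right h.δ2 ν0.le
  have δν := mul_pos δ0 ν0
  have rν := mul_le_mul_of_nonneg_right R ν0.le
  obtain ⟨j, hj⟩ : ∃ j : ℤ, ((∑ i ∈ Icc 1 r, n i : ℕ) : ℤ) = M + j := ⟨_, (add_sub_cancel _ _).symm⟩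
  have hj' : ∑ i ∈ Icc 1 r, (n i : ℝ) = r * ν + j := by rw [← hM]; exact_mod_cast hj
  have h0' : ∑ i ∈ Icc 1 r, (n₀ i : ℝ) = r * ν := by rw [← hM]; exact_mod_cast h0
  obtain ⟨Γ, u1, u2⟩ := gainS h hn a0 b0 g0 g1 e1 C1 hx hy up
  have d0 : 0 ≤ ∑ i ∈ Icc 1 r, (y i : ℝ) := sum_nonneg fun _ _ => Nat.cast_nonneg _
  have u3 := u2.trans (gain_lin h r11 d0 hy)
  have C0 : 0 ≤ C := g0.trans g1
  have u4 : C ^ 2 / (8 * ν) ≤ C := by rw [div_le_iff₀ (by positivity)]; nlinarith [h.δν]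
  have v1 := unit h h0' hj' cand u1
  have v2 := EE_ge h hn
  have v3 := EE_le h c0
  have v4 := WW_eq h0' hj'
  have v5 := WW0 r ν n
  have v6 := WW0 r ν n₀
  have v7 : EE r μ ν n₀ ≤ 41 / 10 * ν := by nlinarith
  obtain ⟨e2, e3⟩ := abs_le.1 he
  generalize ∑ i ∈ Icc 1 r, (y i : ℝ) = d at *
  have j1 : j ≤ 0 := by
    by_contra hn'
    have b1 : (1 : ℝ) ≤ j := by exact_mod_cast (by omega : 1 ≤ j)
    have b2 : 2 * j * (r - 1) * ν + 2 * d - 2 * C ≤ WW r ν n := by linarith [sq_nonneg (j : ℝ)]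
    have b3 := mul_le_mul_of_nonneg_left b2 (show 0 ≤ 1 - δ by linarith)
    have b4 := mul_le_mul_of_nonneg_left h.L1 (show (0 : ℝ) ≤ j by linarith)
    have b5 := mul_le_mul_of_nonneg_right b1 (show 0 ≤ (r - 2) * ν - 3 * (r * δ * ν) by linarith)
    have b6 := mul_le_mul_of_nonneg_right δ3 d0
    have b7 : 0 ≤ (j : ℝ) * (δ * ν) := by positivity
    nlinarith only [v1, v2, v7, u3, u4, hg, b3, b4, b5, b6, b7, C1, h.δν, rδ, rν, h.ν1, R, d0,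
      mul_nonneg δ0.le C0]
  have j2 : -1 ≤ j := by
    by_contra hn'
    have b1 : (j : ℝ) ≤ -2 := by exact_mod_cast (by omega : j ≤ -2)
    have b2 := card_nsmul_le_sum (Icc 1 r) (fun i => (n i : ℝ)) (ν - δ * ν)
      fun i hi => Rg.n1 (hn i hi)
    rw [hj', Nat.card_Icc, add_tsub_cancel_right, nsmul_eq_mul] at b2
    have b3 := mul_le_mul_of_nonneg_left (show -(j : ℝ) ≤ r * δ * ν by linarith)
      (show (0 : ℝ) ≤ -j by linarith)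
    have b4 := mul_le_mul_of_nonneg_right (show (2 : ℝ) ≤ -j by linarith)
      (show 0 ≤ 2 * (r - 1) * ν - r * δ * ν by linarith)
    nlinarith only [v4, v5, W0, e2, hy, b3, b4, C1, h.δν, rδ, rν, δν, ν0]
  have j3 : (j : ℝ) ≤ 0 := by exact_mod_cast j1
  have j4 : (-1 : ℝ) ≤ j := by exact_mod_cast j2
  have L2 : 10 * ν ≤ μ + ν := by linarith [h.μ1, h.δν]
  have k1 : ∀ t : ℝ, 0 ≤ t → t ≤ 2 * (μ + ν) → ∀ s, s * un μ ν ≤ t → s * (μ + ν) ≤ 2 := by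
    intro t _ t1 s hs
    have b1 : (μ + ν) ^ 2 ≤ un μ ν := by
      rw [un, le_div_iff₀ μ0]; nlinarith [mul_pos (pow_pos L0 2) ν0]
    rcases le_total s 0 with w | w
    · nlinarith
    · refine le_of_mul_le_mul_right ?_ L0
      nlinarith [mul_le_mul_of_nonneg_left b1 w]
  refine ⟨by omega, abs_le.2 ⟨?_, ?_⟩, ?_⟩
  · rw [Qn_eq μ0 ν0, h0', sub_self, mul_zero, zero_div, add_zero] at cand
    have b1 := k1 (41 / 10 * ν + 3) (by positivity) (by linarith [h.ν1])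
      (μ / (μ + ν) ^ 2 * ∑ i ∈ Icc 1 r, ((n₀ i : ℝ) - ν) ^ 2 * (1 / (μ + n₀ i)) + g₁) (by
        rw [add_mul, show μ / (μ + ν) ^ 2 * (∑ i ∈ Icc 1 r, ((n₀ i : ℝ) - ν) ^ 2 * (1 / (μ + n₀ i))) *
          un μ ν = EE r μ ν n₀ by unfold un EE; field_simp]
        linarith)
    have b2 := mul_le_mul_of_nonneg_right cand L0.le
    rw [sub_mul, div_mul_cancel₀ _ L0.ne'] at b2
    linarith
  · rw [Qn_eq μ0 ν0, hj', add_sub_cancel_left] at u1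
    have b1 := k1 (111 / 100 * d + C) (by positivity) (by linarith [h.μ1, h.δν]) Γ (by linarith)
    have b2 : μ * j / (μ + ν) ^ 2 ≤ 0 :=
      div_nonpos_of_nonpos_of_nonneg (mul_nonpos_of_nonneg_of_nonpos μ0.le j3) (sq_nonneg _)
    have b3 : 0 ≤ μ / (μ + ν) ^ 2 * ∑ i ∈ Icc 1 r, ((n i : ℝ) - ν) ^ 2 * (1 / (μ + n i)) :=
      mul_nonneg (by positivity) (sum_nonneg fun _ _ => by positivity)
    have b4 := mul_le_mul_of_nonneg_right (show 1 ≤ r * ν / (μ + ν) + Γ by linarith) L0.le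
    rw [add_mul, div_mul_cancel₀ _ L0.ne'] at b4
    linarith
  · have b1 : (j : ℝ) ^ 2 ≤ 1 := by nlinarith
    have b2 : j * ((r - 1) * ν) ≤ 0 := mul_nonpos_of_nonpos_of_nonneg j3 (by linarith)
    linarith [h.δν, h.ν1]

end Pool.Agent.P.MP_094db5_co.Dn
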