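import Pool.Agent.P.MP_094db5_co.DB1

/-! The fine comparison in the dense range. -/

set_option autoImplicit false

open Finset

noncomputable section

namespace Pool.Agent.P.MP_094db5_co.Dn

/-- integer form of the part sizes -/
def zz (n : ℕ → ℕ) (i : ℕ) : ℤ := n i

/-- the context of the fine comparison -/
structure Cx (r M : ℕ) (δ ν μ : ℝ) (n₀ : ℕ → ℕ) (a₀ : ℕ) : Prop where
  rg : Rg r δ ν μ
  r11 : 11 ≤ r
  d1 : 10000000 * r * δ ≤ 1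
  d2 : 51 * r ≤ δ ^ 2 * ν
  d3 : δ ^ 2 * ν ≤ 64 * r
  hM : (M : ℝ) = r * ν
  h0 : ∑ i ∈ Icc 1 r, n₀ i = M
  W0 : WW r ν n₀ ≤ 4 * ν
  top : Top (Icc 1 r) a₀ (zz n₀)

variable {r M a₀ : ℕ} {δ ν μ : ℝ} {n n₀ : ℕ → ℕ}

lemma VV_zz (r : ℕ) (ν : ℝ) (n : ℕ → ℕ) : VV (Icc 1 r) ν (zz n) = WW r ν n := by
  simp [VV, WW, zz]

lemma EE_T (μ0 : 0 < μ) (ν0 : 0 < ν) (n : ℕ → ℕ) : EE r μ ν n =
    WW r ν n - TT (Icc 1 r) (1 / (μ + ν)) ν (zz n) / (μ + ν) := by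
  rw [EE, WW, TT, mul_sum, sum_div, ← sum_sub_distrib]
  refine sum_congr rfl fun i _ => ?_
  have a1 : (0 : ℝ) < μ + n i := by positivity
  rw [tau, zz, Int.cast_natCast, show 1 + 1 / (μ + ν) * (n i - ν) = (μ + n i) / (μ + ν) by
    field_simp; ring]
  field_simp
  ring

lemma sum_zz (h : ∑ i ∈ Icc 1 r, n i = ∑ i ∈ Icc 1 r, n₀ i) :
    ∑ i ∈ Icc 1 r, zz n i = ∑ i ∈ Icc 1 r, zz n₀ i := by
  unfold zz; exact_mod_cast h

lemma sq_zz (h : ∑ i ∈ Icc 1 r, n i = ∑ i ∈ Icc 1 r, n₀ i) {u : ℕ}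
    (e : eK2 r n + 2 * u = eK2 r n₀) :
    ∑ i ∈ Icc 1 r, zz n₀ i ^ 2 + 2 * u = ∑ i ∈ Icc 1 r, zz n i ^ 2 := by
  have h' : ∑ i ∈ Icc 1 r, (n i : ℝ) = ∑ i ∈ Icc 1 r, (n₀ i : ℝ) := by exact_mod_cast h
  rw [eK2, eK2, h'] at e
  unfold zz
  exact_mod_cast (by linarith : ∑ i ∈ Icc 1 r, (n₀ i : ℝ) ^ 2 + 2 * u = ∑ i ∈ Icc 1 r, (n i : ℝ) ^ 2)

lemma del_core {μ q τ τ₁ p P u e₁ ε α : ℝ} (μ1 : 100 ≤ μ) (q1 : q ≤ 1)
    (hq : 1 - p = q + q ^ 2 / (μ - q)) (hP : P = q + τ - u) (P0 : 0 ≤ P) (e0 : 0 ≤ e₁) (e1 : e₁ ≤ 1)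
    (a0 : 0 ≤ α) (t1 : τ ≤ τ₁) (t2 : τ₁ ≤ u)
    (h : 1 ≤ q + τ + p + 2 * α * P - α ^ 2 * (μ - P - e₁) + ε) :
    (u - τ₁) * (2 * q - (u - τ₁)) / μ ≤ τ₁ + ε + 2 * e₁ / μ ^ 2 := by
  obtain ⟨P₁, e⟩ : ∃ P₁, P₁ = q - (u - τ₁) := ⟨_, rfl⟩
  have b0 : P ≤ P₁ := by linarith
  have b1 : P₁ ≤ q := by linarith
  have H0 : 0 < μ - q - e₁ := by linarith
  have H1 : 0 < μ - q := by linarith
  have b2 : 2 * α * P - α ^ 2 * (μ - P - e₁) ≤ P₁ ^ 2 / (μ - q - e₁) := by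
    rw [le_div_iff₀ H0]
    have c1 : 2 * α * P - α ^ 2 * (μ - P - e₁) ≤ 2 * α * P₁ - α ^ 2 * (μ - q - e₁) := by
      nlinarith [mul_le_mul_of_nonneg_left b0 a0, mul_le_mul_of_nonneg_left (b0.trans b1) (sq_nonneg α)]
    nlinarith [mul_le_mul_of_nonneg_right c1 H0.le, sq_nonneg (α * (μ - q - e₁) - P₁)]
  have b3 : P₁ ^ 2 ≤ 1 := pow_le_one₀ (by linarith) (by linarith)
  have b4 : P₁ ^ 2 / (μ - q - e₁) ≤ P₁ ^ 2 / (μ - q) + 2 * e₁ / μ ^ 2 := by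
    rw [show P₁ ^ 2 / (μ - q - e₁) = P₁ ^ 2 / (μ - q) + P₁ ^ 2 * e₁ / ((μ - q - e₁) * (μ - q)) by
      field_simp; ring, add_le_add_iff_left, div_le_div_iff₀ (by positivity) (by positivity)]
    have c1 : μ ^ 2 ≤ 2 * ((μ - q - e₁) * (μ - q)) := by
      nlinarith [mul_le_mul (show μ - 2 ≤ μ - q - e₁ by linarith) (show μ - 1 ≤ μ - q by linarith)
        (by linarith) H0.le]
    nlinarith [mul_le_mul_of_nonneg_left c1 e0, mul_le_mul_of_nonneg_right b3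
      (show 0 ≤ e₁ * μ ^ 2 by positivity)]
  have b5 : (q ^ 2 - P₁ ^ 2) / μ ≤ (q ^ 2 - P₁ ^ 2) / (μ - q) :=
    div_le_div_of_nonneg_left (by nlinarith) H1 (by linarith)
  rw [show (u - τ₁) * (2 * q - (u - τ₁)) = q ^ 2 - P₁ ^ 2 by rw [e]; ring]
  rw [sub_div _ _ (μ - q)] at b5
  linarith

lemma PhS_split (μ0 : 0 < μ) {a : ℕ} (ha : a ∈ Icc 1 r) (n y x : ℕ → ℕ) (g e : ℝ) {α β : ℝ}
    (a0 : 0 ≤ α) (b0 : 0 ≤ β) : PhS r μ n y x g e α β ≤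
      ∑ i ∈ (Icc 1 r).erase a, (n i : ℝ) / (μ + n i) + n a / (μ + n a) +
      2 * α * ∑ i ∈ (Icc 1 r).erase a, (y i : ℝ) / (μ + n i) -
      α ^ 2 * (μ - ∑ i ∈ (Icc 1 r).erase a, (y i : ℝ) / (μ + n i) -
        ∑ i ∈ (Icc 1 r).erase a, (y i : ℝ) / (μ + n i) * ((n i - y i) / μ)) +
      (y a * ((2 * α + α ^ 2) / μ) + (2 * β * (∑ i ∈ Icc 1 r, (x i : ℝ)) / μ +
        ((∑ i ∈ Icc 1 r, (x i : ℝ)) * β ^ 2 + 2 * g * α * β) / μ - μ * β ^ 2 + 2 * e * α * β)) := by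
  have a1 := sum_le_sum fun i (_ : i ∈ Icc 1 r) => ph1_add_le μ0 (n i) (F := y i * α) (s := x i * β)
    (by positivity) (by positivity)
  have a2 := ph1_add_le μ0 (n a) (F := 0) (s := y a * α) le_rfl (by positivity)
  rw [sum_add_distrib, ← add_sum_erase _ (fun i => ph1 μ (n i) (y i * α)) ha,
    sum_congr rfl (f := fun i => ph1 μ (n i) (y i * α)) (g := fun i => (n i : ℝ) / (μ + n i) +
      2 * α * (y i / (μ + n i)) + α ^ 2 * (y i / (μ + n i)) +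
      α ^ 2 * (y i / (μ + n i) * ((n i - y i) / μ)) - α ^ 2 / μ * y i) fun i _ => by
        have : (0 : ℝ) < μ + n i := by positivity
        unfold ph1; field_simp; ring,
    sum_congr rfl (f := fun i => 2 * (x i * β) / μ) (g := fun i => 2 * β / μ * x i) fun i _ => by ring]
    at a1
  simp only [sum_add_distrib, sum_sub_distrib, ← mul_sum] at a1
  rw [zero_add, show ph1 μ (n a) 0 = n a / (μ + n a) by simp [ph1]] at a2
  rw [PhS, ← add_sum_erase _ (fun i => (y i : ℝ)) ha]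
  generalize ∑ i ∈ (Icc 1 r).erase a, (y i : ℝ) = d at *
  generalize ∑ i ∈ Icc 1 r, (x i : ℝ) = s at *
  have e1 : ((y a + d) * α ^ 2 + s * β ^ 2 + 2 * g * α * β) / μ = y a * (α ^ 2 / μ) + α ^ 2 / μ * d +
    (s * β ^ 2 + 2 * g * α * β) / μ := by ring
  have e2 : y a * ((2 * α + α ^ 2) / μ) = 2 * (y a * α) / μ + y a * (α ^ 2 / μ) := by ring
  have e3 : 2 * β * s / μ = 2 * β / μ * s := by ring
  linarith

lemma fin_core {R δ u w σ ρ : ℝ} (R1 : 11 ≤ R) (δ0 : 0 < δ) (d1 : 10000000 * R * δ ≤ 1)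
    (u1 : 1 ≤ u) (w0 : 0 ≤ w) (ρ1 : ρ ≤ 11 / 10) (hρ : ρ * (R - 1) = R)
    (s1 : σ * (R - 1) ≤ 3 / 2 * u) (s2 : σ ≤ 4 * R) (hw : R * w < 2 * (R - 1) - 40 * R ^ 2 * δ)
    (big : 1 / 10 ≤ w → R ≤ δ * u)
    (h : 2 * u - u * (w * ρ) ≤ (R - 1) * (σ + 16 * (u * δ)) + 6 / 100) : False := by
  have uδ : 0 < u * δ := by positivity
  rcases le_total w (1 / 10) with c | c
  · have a1 : w * ρ ≤ 1 / 10 * (11 / 10) := by
      rcases le_total 0 ρ with e | e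
      · exact mul_le_mul c ρ1 e (by norm_num)
      · nlinarith
    nlinarith [mul_le_mul_of_nonneg_left a1 (show 0 ≤ u by linarith),
      mul_le_mul_of_nonneg_left d1 (show 0 ≤ u by linarith)]
  · have a1 : 40 * R * δ ≤ 2 - w * ρ := by
      refine le_of_mul_le_mul_right ?_ (show 0 < R - 1 by linarith)
      nlinarith [mul_pos (show 0 < R by linarith) δ0]
    have a2 := mul_le_mul_of_nonneg_left a1 (show 0 ≤ u by linarith)
    have a3 := mul_le_mul_of_nonneg_left (big c) (show 0 ≤ R by linarith)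
    nlinarith [mul_le_mul_of_nonneg_left s2 (show 0 ≤ R - 1 by linarith)]

namespace Cx

variable (h : Cx r M δ ν μ n₀ a₀)
include h

lemma R : (11 : ℝ) ≤ r := by exact_mod_cast h.r11

lemma δs : 110000000 * δ ≤ 1 := by nlinarith [h.d1, h.R, h.rg.δ0]

lemma L10 : 1099 / 100 * ν ≤ μ + ν := by
  linarith [h.rg.μ1, h.rg.δν, mul_le_mul_of_nonneg_right h.R h.rg.ν0.le, h.rg.ν0]

lemma νbig : 1000000000 * (r : ℝ) ^ 3 ≤ ν := by
  have R := h.R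
  have a1 : (10000000 * r * δ) ^ 2 ≤ 1 := pow_le_one₀ (by have := h.rg.δ0; positivity) h.d1
  nlinarith [mul_le_mul_of_nonneg_right a1 h.rg.ν0.le,
    mul_le_mul_of_nonneg_left h.d2 (show (0 : ℝ) ≤ r ^ 2 by positivity), pow_pos (show (0 : ℝ) < r by linarith) 3]

lemma sq4 : 4 * r * ν ≤ (δ * ν / 3) ^ 2 := by
  nlinarith [mul_le_mul_of_nonneg_right h.d2 h.rg.ν0.le, mul_pos (show (0 : ℝ) < r by linarith [h.R]) h.rg.ν0]

lemma cl (hW : WW r ν n ≤ 4 * r * ν) {i : ℕ} (hi : i ∈ Icc 1 r) : |(n i : ℝ) - ν| ≤ δ * ν / 3 :=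
  abs_le_s (d := fun i => (n i : ℝ) - ν) (by have := h.rg.δ0; have := h.rg.ν0; positivity)
    (hW.trans h.sq4) hi

lemma cl' (hW : WW r ν n ≤ 4 * r * ν) : ∀ i ∈ Icc 1 r, Cl δ ν (n i) := fun i hi =>
  (h.cl hW hi).trans (by linarith [mul_pos h.rg.δ0 h.rg.ν0])

lemma W0' : WW r ν n₀ ≤ 4 * r * ν := by
  linarith [h.W0, mul_le_mul_of_nonneg_right h.R h.rg.ν0.le, h.rg.ν0]

lemma c0 : ∀ i ∈ Icc 1 r, Cl δ ν (n₀ i) := h.cl' h.W0'

lemma mean : Mean (Icc 1 r) ν (zz n₀) := by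
  rw [Mean, Nat.card_Icc, add_tsub_cancel_right, ← h.hM, ← h.h0]
  simp [zz]

lemma real (hs : ∑ i ∈ Icc 1 r, n i = M) : ∑ i ∈ Icc 1 r, (n i : ℝ) = r * ν := by
  rw [← h.hM]; exact_mod_cast hs

lemma WW_add (hs : ∑ i ∈ Icc 1 r, n i = M) : WW r ν n = WW r ν n₀ + (eK2 r n₀ - eK2 r n) := by
  rw [WW_eq (j := 0) (h.real h.h0) (by rw [h.real hs, add_zero])]; ring

lemma un_le : un μ ν ≤ 3 / 2 * μ ^ 2 := by
  have μ0 := h.rg.μ0
  have a1 : μ + ν ≤ 111 / 100 * μ := by linarith [h.L10, h.rg.ν0]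
  rw [un, div_le_iff₀ μ0]
  nlinarith [pow_le_pow_left₀ h.rg.L0.le a1 3, pow_pos μ0 3]

/-- added edges -/
theorem addE (hs : ∑ i ∈ Icc 1 r, n i = M) {u : ℕ} (e : eK2 r n + 2 * u = eK2 r n₀)
    (hu : (u : ℝ) ≤ r * ν) : EE r μ ν n₀ + 2 * u - u / 100 - 3 / 2 ≤ EE r μ ν n := by
  have R := h.R
  have δ0 := h.rg.δ0
  have ν0 := h.rg.ν0
  have L0 := h.rg.L0
  have L1 := h.L10
  have δν := h.rg.δν
  have big := h.rg.big
  have W0 := h.W0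
  have W1 := WW0 r ν n₀
  have u0 : (0 : ℝ) ≤ u := Nat.cast_nonneg _
  have rν := mul_le_mul_of_nonneg_right R ν0.le
  obtain ⟨K, hK⟩ : ∃ K, r = K + 1 := ⟨r - 1, by have := h.r11; omega⟩
  have eK : (K : ℝ) = r - 1 := by rw [hK]; push_cast; ring
  have a1 := addT (K := K) (u := u) (y' := zz n) (t := δ * ν / 4) (η := 1 / (μ + ν)) (B := 1 / (100 * δ))
    h.top (by simp [hK]) (by have := h.r11; omega) h.mean
    (by rw [VV_zz]; nlinarith [mul_le_mul_of_nonneg_right h.d2 ν0.le]) (by linarith) (by linarith)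
    (by positivity) (by rw [one_div, inv_mul_le_iff₀ L0]; linarith) (by positivity) (by
      rw [div_pow, le_div_iff₀ (by positivity)]
      nlinarith [mul_le_mul_of_nonneg_right h.d3 δ0.le, h.d1]) (sum_zz (hs.trans h.h0.symm))
    (sq_zz (hs.trans h.h0.symm) e)
  rw [VV_zz, show 4 * (1 / (100 * δ)) * (δ * ν / 4) = ν / 100 by field_simp] at a1
  have a2 : 1 / (K : ℝ) ≤ 1 / 10 := one_div_le_one_div_of_le (by norm_num) (by linarith)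
  have a3 : 3 * (1 + 1 / K) * WW r ν n₀ ≤ 3 * (1 + 1 / 10) * (4 * ν) := by gcongr
  have a4 : 2 * (1 / (μ + ν)) * WW r ν n₀ ^ 2 ≤ 3 * ν := by
    rw [mul_one_div, div_mul_eq_mul_div, div_le_iff₀ L0]
    nlinarith [pow_le_pow_left₀ W1 W0 2, mul_le_mul_of_nonneg_left L1 ν0.le]
  have a5 := mul_le_mul_of_nonneg_left (show 3 * (δ * ν / 4) + 7 ≤ (μ + ν) / 100 by linarith) u0
  have a6 := mul_le_mul_of_nonneg_right h.d1 ν0.le
  have a7 : TT (Icc 1 r) (1 / (μ + ν)) ν (zz n) / (μ + ν) ≤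
      TT (Icc 1 r) (1 / (μ + ν)) ν (zz n₀) / (μ + ν) + (u / 100 + 3 / 2) := by
    rw [← sub_le_iff_le_add', ← sub_div, div_le_iff₀ L0]
    rw [eK] at a1 a3
    nlinarith [mul_pos δ0 ν0]
  rw [EE_T h.rg.μ0 ν0, EE_T h.rg.μ0 ν0, h.WW_add hs]
  linarith

/-- deleted edges -/
theorem delE (hs : ∑ i ∈ Icc 1 r, n i = M) {u : ℕ} (e : eK2 r n₀ + 2 * u = eK2 r n) :
    EE r μ ν n₀ - 2 * u - u * δ - 1 / (20 * r) ≤ EE r μ ν n := by
  have R := h.R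
  have δ0 := h.rg.δ0
  have ν0 := h.rg.ν0
  have L0 := h.rg.L0
  have L1 := h.L10
  have L2 := h.rg.L2
  have δν := h.rg.δν
  have u0 : (0 : ℝ) ≤ u := Nat.cast_nonneg _
  have w1 := h.WW_add hs
  have rν := mul_pos (show (0 : ℝ) < r by linarith) ν0
  have L3 : 99 / 100 * (r * ν) ≤ μ + ν := by nlinarith [mul_le_mul_of_nonneg_right h.δs rν.le]
  obtain ⟨s, s0, hs'⟩ : ∃ s, 0 ≤ s ∧ WW r ν n₀ = s ^ 2 :=
    ⟨_, Real.sqrt_nonneg _, (Real.sq_sqrt (WW0 r ν n₀)).symm⟩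
  have s1 : s ≤ δ * ν / 11 := (abs_le_of_sq_le_sq' (by
    nlinarith [mul_le_mul_of_nonneg_right h.d2 ν0.le, h.W0, mul_le_mul_of_nonneg_right R ν0.le])
    (by positivity)).2
  have key : TT (Icc 1 r) (1 / (μ + ν)) ν (zz n) - TT (Icc 1 r) (1 / (μ + ν)) ν (zz n₀) ≤
      ν / 25 + u * s := by
    rcases le_total s (14 * r) with c | c
    · have η1 : 1 / (μ + ν) * (14 * r) ≤ 1 / 2 := by
        rw [one_div, inv_mul_le_iff₀ L0]; linarith [h.rg.ν1]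
      have b0 := pow_le_pow_left₀ s0 c 2
      have b1 := tau_abs (I := Icc 1 r) (d := fun i => (zz n i : ℝ) - ν) (by positivity)
        (by positivity) η1 (by change VV _ _ _ ≤ _; rw [VV_zz]; linarith)
      have b2 := tau_abs (I := Icc 1 r) (d := fun i => (zz n₀ i : ℝ) - ν) (by positivity)
        (by positivity) η1 (by change VV _ _ _ ≤ _; rw [VV_zz]; linarith)
      unfold TT
      linarith [(abs_le.1 b1).2, (abs_le.1 b2).1, h.νbig, mul_nonneg u0 s0]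
    · obtain ⟨K, hK⟩ : ∃ K, r = K + 1 := ⟨r - 1, by have := h.r11; omega⟩
      have eK : (K : ℝ) = r - 1 := by rw [hK]; push_cast; ring
      obtain ⟨b, hb, tb⟩ := exists_max_image (Icc 1 r) (zz n) ⟨a₀, h.top.1⟩
      have q1 := sum_zz (hs.trans h.h0.symm)
      have q2 := sq_zz (h.h0.trans hs.symm) e
      have b1 := cmpT (K := K) (B := 1 / (300 * δ)) (η := 1 / (μ + ν)) h.top (by simp [hK])
        (by have := h.r11; omega) h.mean ((VV_zz r ν n₀).trans hs') (by linarith) (by linarith)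
        (by positivity) (by rw [one_div, inv_mul_le_iff₀ L0]; linarith [h.W0]) (by positivity) (by
          rw [div_pow, le_div_iff₀ (by positivity)]
          nlinarith [mul_le_mul_of_nonneg_right h.d3 δ0.le, h.d1,
            mul_le_mul_of_nonneg_right s1 (sq_nonneg δ)]) q1 q2 hb tb
      have b2 : (zz n b : ℝ) ≤ zz n₀ a₀ := by
        exact_mod_cast h.top.le_less (by have := h.r11; simp; omega) q1 q2 hb
      have b3 : 1 / (300 * δ) * s ≤ ν / 3300 := by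
        rw [one_div, inv_mul_le_iff₀ (by positivity)]; linarith
      nlinarith [mul_nonneg (sub_nonneg.2 b2) (sq_nonneg s)]
  have a7 : TT (Icc 1 r) (1 / (μ + ν)) ν (zz n) / (μ + ν) ≤
      TT (Icc 1 r) (1 / (μ + ν)) ν (zz n₀) / (μ + ν) + (u * δ + 1 / (20 * r)) := by
    rw [← sub_le_iff_le_add', ← sub_div, div_le_iff₀ L0]
    have b1 : ν / 25 ≤ 1 / (20 * r) * (μ + ν) := by
      rw [one_div, le_inv_mul_iff₀ (by positivity)]; linarith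
    have b2 := mul_le_mul_of_nonneg_left (show s ≤ δ * (μ + ν) by
      nlinarith [mul_le_mul_of_nonneg_left L1 δ0.le, mul_pos δ0 ν0]) u0
    linarith
  rw [EE_T h.rg.μ0 ν0, EE_T h.rg.μ0 ν0, w1]
  linarith

end Cx

end Pool.Agent.P.MP_094db5_co.Dn
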