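import Pool.Agent.P.MP_094db5_co.DB2

/-! Stars of almost full degree and the graph with one deleted edge. -/

set_option autoImplicit false

open Finset

noncomputable section

namespace Pool.Agent.P.MP_094db5_co.Dn

variable {r M a₀ : ℕ} {δ ν μ : ℝ} {n n₀ : ℕ → ℕ}

namespace Cx

variable (h : Cx r M δ ν μ n₀ a₀)
include h

lemma μ9 : 999 / 100 * ν ≤ μ := by linarith [h.L10]

lemma eps_le {g e s α β : ℝ} (a0 : 0 ≤ α) (a1 : α ≤ 1 / (μ - 2)) (b0 : 0 ≤ β)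
    (b1 : μ * β ≤ r / (μ - 2)) (g1 : g ≤ 2 * r) (e1 : e ≤ 1) (s1 : s ≤ 2 * r) :
    (2 * β * s / μ + (s * β ^ 2 + 2 * g * α * β) / μ - μ * β ^ 2 + 2 * e * α * β) * un μ ν ≤
      1 / (100 * r) := by
  have R := h.R
  have μ0 := h.rg.μ0
  have μ5 := h.rg.μ5
  have μ4 := h.rg.μ4
  have p1 := h.rg.inv1 a1
  have p2 : β * μ ^ 2 ≤ 2 * r := by
    rw [le_div_iff₀ (by linarith)] at b1
    nlinarith [mul_nonneg b0 μ0.le]
  have ab := mul_nonneg a0 b0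
  have q1 : 2 * β * s / μ ≤ 4 * r * β / μ := div_le_div_of_nonneg_right (by nlinarith) μ0.le
  have q2 : (s * β ^ 2 + 2 * g * α * β) / μ ≤ μ * β ^ 2 + α * β := by
    rw [div_le_iff₀ μ0]
    nlinarith [mul_le_mul_of_nonneg_right (show s ≤ μ ^ 2 by nlinarith) (sq_nonneg β),
      mul_le_mul_of_nonneg_right (show 2 * g ≤ μ by linarith) ab]
  have q3 : α * β ≤ 2 * β / μ := by
    rw [le_div_iff₀ μ0]; nlinarith [mul_le_mul_of_nonneg_right p1 b0]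
  have q4 : 2 * β * s / μ + (s * β ^ 2 + 2 * g * α * β) / μ - μ * β ^ 2 + 2 * e * α * β ≤
      5 * r * β / μ := by
    have : 4 * r * β / μ + 3 * (2 * β / μ) ≤ 5 * r * β / μ := by
      rw [← mul_div_assoc, ← add_div]
      exact div_le_div_of_nonneg_right (by nlinarith) μ0.le
    nlinarith [mul_le_mul_of_nonneg_right e1 ab]
  refine (mul_le_mul_of_nonneg_right q4 (un0 h.rg).le).trans
    ((mul_le_mul_of_nonneg_left h.un_le (by positivity)).trans ?_)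
  rw [div_mul_eq_mul_div, div_le_div_iff₀ μ0 (by positivity)]
  nlinarith [mul_le_mul_of_nonneg_left p2 (show (0 : ℝ) ≤ r ^ 2 by positivity), h.νbig, h.μ9, h.rg.ν0]

lemma ratio : 1 - δ ≤ ν / μ * (r - 1) ∧ ν / μ * (r - 1) ≤ 1 + δ ∧ ν / μ ≤ 1 / 9 := by
  have μ0 := h.rg.μ0
  have a := mul_le_mul_of_nonneg_left h.μ9 h.rg.δ0.le
  have b := mul_pos h.rg.δ0 h.rg.ν0
  rw [div_mul_eq_mul_div, le_div_iff₀ μ0, div_le_iff₀ μ0, div_le_iff₀ μ0]
  exact ⟨by linarith [h.rg.μ2], by linarith [h.rg.μ1], by linarith [h.μ9, h.rg.ν0]⟩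

lemma del_fin {u σ z Q : ℝ} (s1 : σ * (r - 1) ≤ 3 / 2 * u) (s2 : σ ≤ 4 * r) (u1 : 1 ≤ u)
    (u2 : u ≤ 2 * ν) (hn : r * u < 2 * (r - 1) * ν - 40 * r ^ 2 * δ * ν) (z1 : u * (1 - 2 * δ) ≤ z)
    (z2 : z ≤ u * (1 + δ)) (hq : 1 - 2 * δ ≤ Q)
    (k1 : 2 * (z * Q) * (1 + ν / μ) - z ^ 2 / ν * ((μ + ν) * ν / μ ^ 2) ≤
      2 * u + σ + 3 * (u * δ) + 6 / 100 / r) : False := by
  have R := h.R
  have μ0 := h.rg.μ0
  have ν0 := h.rg.ν0
  have δ0 := h.rg.δ0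
  have L0 := h.rg.L0
  have δs := h.δs
  have u0 : 0 ≤ u := by linarith
  have uδ : 0 ≤ u * δ := by positivity
  have z0 : 0 ≤ u * (1 - 2 * δ) := mul_nonneg u0 (by linarith)
  obtain ⟨r1, -, r3⟩ := h.ratio
  obtain ⟨p0, p1, -, p3⟩ := ro_bounds h.r11
  have k4 : u * (1 - 4 * δ) ≤ z * Q := by
    refine le_trans ?_ (mul_le_mul z1 hq (by linarith) (z0.trans z1))
    nlinarith only [mul_nonneg u0 (sq_nonneg δ)]
  have k5 : (μ + ν) * ν / μ ^ 2 ≤ ro r * (1 + 3 * δ) := by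
    refine le_trans ?_ h.rg.w2
    refine div_le_div_of_nonneg_left (by positivity) (mul_pos μ0 (by linarith [h.rg.μ5])) ?_
    nlinarith only [μ0]
  have w0 : 0 ≤ u / ν := by positivity
  have w2 : u / ν ≤ 2 := by rwa [div_le_iff₀ ν0]
  have k6 : z ^ 2 / ν * ((μ + ν) * ν / μ ^ 2) ≤ u * (u / ν * ro r) + 2 * (u * δ) := by
    have b1 : z ^ 2 / ν ≤ u * (u / ν) * (1 + δ) ^ 2 := by
      rw [show u * (u / ν) * (1 + δ) ^ 2 = (u * (1 + δ)) ^ 2 / ν by ring]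
      exact div_le_div_of_nonneg_right (pow_le_pow_left₀ (z0.trans z1) z2 2) ν0.le
    refine (mul_le_mul b1 k5 (by positivity) (by positivity)).trans ?_
    have b2 : (1 + δ) ^ 2 * (1 + 3 * δ) ≤ 1 + 6 * δ := by nlinarith only [mul_pos δ0 δ0, δ0, δs]
    have b3 : u / ν * ro r ≤ 2 * (1 / 8) :=
      mul_le_mul w2 (by nlinarith only [p0, p1, R]) p0.le (by norm_num)
    have b4 := mul_le_mul_of_nonneg_left b2 (show 0 ≤ u * (u / ν * ro r) by positivity)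
    linarith only [mul_le_mul_of_nonneg_left b3 uδ, b4, uδ]
  have κ0 : 0 ≤ ν / μ := by positivity
  have k7 := mul_le_mul_of_nonneg_right k4 (show 0 ≤ 1 + ν / μ by linarith)
  have k9 : 2 * u * (ν / μ) - u * (u / ν * ro r) ≤ σ + 15 * (u * δ) + 6 / 100 / r := by
    linarith only [mul_le_mul_of_nonneg_left r3 uδ, k1, k6, k7, uδ]
  generalize ν / μ = κ at *
  refine fin_core (w := u / ν) (ρ := ro r * (r - 1)) R δ0 h.d1 u1 w0 p1 (by linarith) s1 s2 ?_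
    (fun c => ?_) ?_
  · rw [← mul_div_assoc, div_lt_iff₀ ν0]; linarith
  · rw [le_div_iff₀ ν0] at c
    linarith only [mul_le_mul_of_nonneg_left c δ0.le, h.rg.big]
  · have b1 := mul_le_mul_of_nonneg_right k9 (show (0 : ℝ) ≤ r - 1 by linarith)
    have b2 : 6 / 100 / (r : ℝ) * (r - 1) ≤ 6 / 100 := by
      rw [div_mul_eq_mul_div, div_le_iff₀ (by linarith)]; linarith
    have b3 := mul_le_mul_of_nonneg_left r1 u0
    linarith only [b1, b2, b3, mul_le_mul_of_nonneg_left R uδ, uδ]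

/-- a star of almost full degree loses against the dense candidate -/
theorem delS {g₁ gh : ℝ} (cand : Qn r μ n₀ ≤ 1 + g₁) (hg : g₁ * un μ ν ≤ gh) (gh0 : 0 ≤ gh)
    {a : ℕ} (ha : a ∈ Icc 1 r) {y x : ℕ → ℕ} (hs : ∑ i ∈ Icc 1 r, n i + 1 = M)
    (hW : WW r ν n ≤ 4 * r * ν) (hy : ∀ i ∈ Icc 1 r, y i ≤ n i) {g e α β : ℝ}
    (a0 : 0 ≤ α) (a1 : α ≤ 1 / (μ - 2)) (b0 : 0 ≤ β) (b1 : μ * β ≤ r / (μ - 2)) (g1 : g ≤ 2 * r)
    (e1 : e ≤ 1) (hx : ∑ i ∈ Icc 1 r, (x i : ℝ) ≤ 2 * r) (up : 1 ≤ PhS r μ n y x g e α β)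
    {u σ : ℝ} (hu : ∑ i ∈ (Icc 1 r).erase a, ((n i : ℝ) - y i) = u) {v : ℕ}
    (hv : eK2 r n₀ + 2 * v = eK2 r n + 2 * ∑ i ∈ (Icc 1 r).erase a, (n i : ℝ))
    (hσ : 2 * v + gh + 10 * y a ≤ 2 * u + σ) (s1 : σ * (r - 1) ≤ 3 / 2 * u) (s2 : σ ≤ 4 * r)
    (u1 : 1 ≤ u) : 2 * (r - 1) * ν - 40 * r ^ 2 * δ * ν ≤ r * u := by
  by_contra hn
  have R := h.R
  have μ0 := h.rg.μ0
  have ν0 := h.rg.ν0
  have δ0 := h.rg.δ0
  have L0 := h.rg.L0
  have δs := h.δs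
  have μ9 := h.μ9
  have U0 := un0 h.rg
  have δν := mul_pos δ0 ν0
  have big := h.rg.big
  have cl := h.cl' hW
  have u2 : u ≤ 2 * ν := le_of_mul_le_mul_left (by
    linarith only [mul_pos (pow_pos (show (0 : ℝ) < r by linarith) 2) δν, not_le.1 hn, ν0])
    (show (0 : ℝ) < r by linarith)
  have hs' : ∑ i ∈ Icc 1 r, Function.update n a (n a + 1) i = M := by
    rw [sum_update_of_mem ha, ← hs, ← add_sum_erase _ _ ha, sdiff_singleton_eq_erase]; ring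
  have a2 := h.delE hs' (u := v) (by rw [eK2_add ha, hv]; simp)
  have a3 := unit h.rg (j := 0) (Γ := 1 - Qn r μ (Function.update n a (n a + 1))) (h.real h.h0)
    (by rw [h.real hs', add_zero]) cand (by linarith)
  have a4 : Qn r μ (Function.update n a (n a + 1)) =
      ∑ i ∈ (Icc 1 r).erase a, (n i : ℝ) / (μ + n i) + (1 - μ / (μ + n a + 1)) := by
    rw [Qn, sum_upd ha n _ fun s => (s : ℝ) / (μ + s),
      ← add_sum_erase _ (fun i => (n i : ℝ) / (μ + n i)) ha]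
    push_cast
    field_simp
    ring
  have a5 := up.trans (PhS_split μ0 ha n y x g e a0 b0)
  have a6 := h.eps_le a0 a1 b0 b1 g1 e1 hx
  have yn : ∀ i ∈ (Icc 1 r).erase a, (0 : ℝ) ≤ n i - y i := fun i hi => by
    have : (y i : ℝ) ≤ n i := by exact_mod_cast hy i (mem_of_mem_erase hi)
    linarith
  have a7 : u * ((1 - δ) / (μ + ν)) ≤ ∑ i ∈ (Icc 1 r).erase a, ((n i : ℝ) - y i) * (1 / (μ + n i)) := by
    rw [← hu, sum_mul]
    exact sum_le_sum fun i hi => mul_le_mul_of_nonneg_left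
      (h.rg.p1 (cl i (mem_of_mem_erase hi))) (yn i hi)
  have a8 : ∑ i ∈ (Icc 1 r).erase a, ((n i : ℝ) - y i) * (1 / (μ + n i)) ≤ u * ((1 + δ) / (μ + ν)) := by
    rw [← hu, sum_mul]
    exact sum_le_sum fun i hi => mul_le_mul_of_nonneg_left
      (h.rg.p2 (cl i (mem_of_mem_erase hi))) (yn i hi)
  have a9 : ∑ i ∈ (Icc 1 r).erase a, (y i : ℝ) / (μ + n i) =
      ∑ i ∈ (Icc 1 r).erase a, (n i : ℝ) / (μ + n i) -
        ∑ i ∈ (Icc 1 r).erase a, ((n i : ℝ) - y i) * (1 / (μ + n i)) := by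
    rw [← sum_sub_distrib]; exact sum_congr rfl fun i _ => by ring
  have c0 : 0 ≤ ∑ i ∈ (Icc 1 r).erase a, (y i : ℝ) / (μ + n i) := sum_nonneg fun _ _ => by positivity
  have c1 : 0 ≤ ∑ i ∈ (Icc 1 r).erase a, (y i : ℝ) / (μ + n i) * ((n i - y i) / μ) :=
    sum_nonneg fun i hi => mul_nonneg (by positivity) (div_nonneg (yn i hi) μ0.le)
  have c2 : ∑ i ∈ (Icc 1 r).erase a, (y i : ℝ) / (μ + n i) * ((n i - y i) / μ) ≤ u / μ := by
    rw [← hu, sum_div]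
    refine sum_le_sum fun i hi => mul_le_of_le_one_left (div_nonneg (yn i hi) μ0.le) ?_
    rw [div_le_one (by positivity)]
    linarith [yn i hi]
  have c3 : (y a : ℝ) * ((2 * α + α ^ 2) / μ) * un μ ν ≤ 10 * y a := by
    rw [mul_assoc, mul_comm 10]
    refine mul_le_mul_of_nonneg_left ((mul_le_mul_of_nonneg_left h.un_le (by positivity)).trans ?_)
      (Nat.cast_nonneg _)
    have p1 := h.rg.inv1 a1
    have p2 : α ≤ 1 := by nlinarith only [h.rg.μ5, p1, a0]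
    rw [div_mul_eq_mul_div, div_le_iff₀ μ0]
    linarith only [mul_le_mul_of_nonneg_right p1 μ0.le, μ0,
      mul_le_mul_of_nonneg_right p2 (show 0 ≤ α * μ ^ 2 by positivity)]
  have na : (0 : ℝ) ≤ n a := Nat.cast_nonneg _
  have v0 : (0 : ℝ) ≤ v := Nat.cast_nonneg _
  have y0 : (0 : ℝ) ≤ y a := Nat.cast_nonneg _
  have c4 : 10 * σ ≤ 3 / 2 * u := by
    rcases le_total 0 σ with w | w
    · linarith only [mul_le_mul_of_nonneg_left R w, s1]
    · linarith only [w, u1]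
  have c5 : 1 / (20 * (r : ℝ)) ≤ 1 := by rw [div_le_one (by positivity)]; linarith
  have c6 : v * δ ≤ 2 * (u * δ) := by
    linarith only [mul_le_mul_of_nonneg_right
      (show (v : ℝ) ≤ 2 * u by linarith only [hσ, c4, gh0, y0, u1]) δ0.le]
  have uδ : u * δ ≤ u / 100 := by
    linarith only [mul_le_mul_of_nonneg_left δs (show 0 ≤ u by linarith), u1]
  have hq : μ * (1 - 2 * δ) ≤ μ / (μ + n a + 1) * (μ + ν) := by
    rw [div_mul_eq_mul_div, le_div_iff₀ (by positivity), mul_assoc]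
    refine mul_le_mul_of_nonneg_left ?_ μ0.le
    linarith only [Rg.n2 (cl a ha), mul_le_mul_of_nonneg_left μ9 δ0.le, big, R, δν,
      mul_nonneg δ0.le na, δ0]
  generalize ∑ i ∈ (Icc 1 r).erase a, (y i : ℝ) / (μ + n i) * ((n i - y i) / μ) = e₁ at *
  generalize ∑ i ∈ (Icc 1 r).erase a, (y i : ℝ) / (μ + n i) = P at *
  generalize ∑ i ∈ (Icc 1 r).erase a, ((n i : ℝ) - y i) * (1 / (μ + n i)) = w at *
  generalize ∑ i ∈ (Icc 1 r).erase a, (n i : ℝ) / (μ + n i) = B at *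
  generalize (y a : ℝ) * ((2 * α + α ^ 2) / μ) = ε₁ at *
  generalize 2 * β * (∑ i ∈ Icc 1 r, (x i : ℝ)) / μ + ((∑ i ∈ Icc 1 r, (x i : ℝ)) * β ^ 2 +
    2 * g * α * β) / μ - μ * β ^ 2 + 2 * e * α * β = ε₂ at *
  obtain ⟨τ₁, ht⟩ : ∃ τ₁, τ₁ * un μ ν = 2 * v + v * δ + 1 / (20 * r) + gh :=
    ⟨_, div_mul_cancel₀ _ U0.ne'⟩
  have t0 : 0 ≤ τ₁ := le_of_mul_le_mul_right (by rw [ht, zero_mul]; positivity) U0
  have t1 : τ₁ * (μ + ν) ≤ u * δ := by
    have b1 : (μ + ν) ^ 2 ≤ un μ ν := by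
      rw [un, le_div_iff₀ μ0]; linarith only [mul_pos (pow_pos L0 2) ν0]
    refine le_of_mul_le_mul_right ?_ L0
    linarith only [mul_le_mul_of_nonneg_left b1 t0, mul_le_mul_of_nonneg_left
      (show 4 ≤ δ * (μ + ν) by linarith only [mul_pos δ0 μ0, big, R]) (show 0 ≤ u by linarith),
      ht, hσ, c4, c5, c6, uδ, y0, u1]
  rw [← mul_div_assoc, div_le_iff₀ L0] at a7
  rw [← mul_div_assoc, le_div_iff₀ L0] at a8
  have key := del_core (μ := μ) (q := μ / (μ + n a + 1)) (τ := B - μ / (μ + n a + 1)) (τ₁ := τ₁)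
    (p := n a / (μ + n a)) (P := P) (u := w) (e₁ := e₁) (α := α) (ε := ε₁ + ε₂) (by linarith [h.rg.μ5])
    (by rw [div_le_one (by positivity)]; linarith) (by
      rw [show μ - μ / (μ + n a + 1) = μ * (μ + n a) / (μ + n a + 1) by field_simp; ring]
      field_simp
      ring) (by linarith) c0 c1 (c2.trans (by rw [div_le_one μ0]; linarith)) a0
    (le_of_mul_le_mul_right (by rw [a4] at a3; linarith) U0)
    (le_of_mul_le_mul_right (by linarith) L0) (by linarith only [a5])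
  have k1 := mul_le_mul_of_nonneg_right key U0.le
  have k2 : 2 * e₁ / μ ^ 2 * un μ ν ≤ u * δ := by
    refine (mul_le_mul (div_le_div_of_nonneg_right (show 2 * e₁ ≤ 2 * (u / μ) by linarith)
      (sq_nonneg _)) h.un_le U0.le (by positivity)).trans ?_
    rw [show 2 * (u / μ) / μ ^ 2 * (3 / 2 * μ ^ 2) = u * (3 / μ) by field_simp]
    refine mul_le_mul_of_nonneg_left ?_ (by linarith)
    rw [div_le_iff₀ μ0]
    linarith only [mul_le_mul_of_nonneg_left μ9 δ0.le, big, R]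
  generalize μ / (μ + n a + 1) = q at *
  obtain ⟨z, hz⟩ : ∃ z, z = (w - τ₁) * (μ + ν) := ⟨_, rfl⟩
  have z1 : u * (1 - 2 * δ) ≤ z := by linarith
  have z2 : z ≤ u * (1 + δ) := by linarith [mul_nonneg t0 L0.le]
  have k3 : (w - τ₁) * (2 * q - (w - τ₁)) / μ * un μ ν =
      2 * (z * (q * (μ + ν) / μ)) * (1 + ν / μ) - z ^ 2 / ν * ((μ + ν) * ν / μ ^ 2) := by
    rw [hz, un]; field_simp
  have k8 : 1 / (20 * (r : ℝ)) + 1 / (100 * r) = 6 / 100 / r := by field_simp; norm_num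
  rw [k3] at k1
  exact h.del_fin s1 s2 u1 u2 (not_le.1 hn) z1 z2 ((le_div_iff₀' μ0).2 hq)
    (by linarith only [k1, ht, c3, a6, k2, k8, hσ, c6])

end Cx

end Pool.Agent.P.MP_094db5_co.Dn
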