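import Pool.Agent.P.MP_094db5_co.DB3

/-! Competitors on the same number of core vertices. -/

set_option autoImplicit false

open Finset

noncomputable section

namespace Pool.Agent.P.MP_094db5_co.Dn

variable {r M a₀ : ℕ} {δ ν μ : ℝ} {n n₀ : ℕ → ℕ}

lemma split2 {a b : ℕ} (ha : a ∈ Icc 1 r) (hb : b ∈ Icc 1 r) (ab : a ≠ b) (f : ℕ → ℝ) :
    ∑ i ∈ Icc 1 r, f i = ∑ i ∈ Icc 1 r \ {a, b}, f i + f a + f b := by
  have h1 : ({a, b} : Finset ℕ) ⊆ Icc 1 r := fun i hi => by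
    rcases mem_insert.1 hi with e | e
    exacts [e ▸ ha, mem_singleton.1 e ▸ hb]
  rw [← sum_sdiff h1, sum_pair ab, add_assoc]

lemma PhP_zero {a b : ℕ} (ha : a ∈ Icc 1 r) (hb : b ∈ Icc 1 r) (ab : a ≠ b) (x : ℕ → ℕ) :
    PhP r μ n a b x (1 / (μ + n a)) (1 / (μ + n b)) 0 =
      Qn r μ n - 2 * (1 / (μ + n a)) * (1 / (μ + n b)) := by
  rw [Qn, split2 ha hb ab]
  simp [PhP, ph1, ph2]

lemma PhP_le (μ4 : 4 ≤ μ) {a b : ℕ} (ha : a ∈ Icc 1 r) (hb : b ∈ Icc 1 r) (ab : a ≠ b) {x : ℕ → ℕ}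
    {pm α γ β : ℝ} (hp : ∀ i ∈ Icc 1 r, 1 / (μ + n i) ≤ pm) (b0 : 0 ≤ β) (b1 : β ≤ 1 / (μ - 2))
    (hx : ∑ i ∈ Icc 1 r \ {a, b}, (x i : ℝ) ≤ 3 * μ) :
    PhP r μ n a b x α γ β ≤ Qn r μ n - 2 * (1 / (μ + n a)) * (1 / (μ + n b)) +
      (∑ i ∈ Icc 1 r \ {a, b}, (x i : ℝ) + 2) ^ 2 * pm ^ 2 / (μ - 3) + 2 * (1 / (μ - 2)) ^ 3 := by
  have μ0 : 0 < μ := by linarith
  have k1 : ∑ i ∈ Icc 1 r \ {a, b}, ph1 μ (n i) (x i * β) ≤
      ∑ i ∈ Icc 1 r \ {a, b}, ((n i : ℝ) / (μ + n i) + 2 * β * pm * x i) := by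
    refine sum_le_sum fun i hi => ?_
    have c0 : (0 : ℝ) < μ + n i := by positivity
    have c2 := mul_le_mul_of_nonneg_left (hp i (mem_sdiff.1 hi).1) (show 0 ≤ x i * β by positivity)
    have c3 : 0 ≤ (x i * β) ^ 2 / μ / (μ + n i) := by positivity
    have c4 : ph1 μ (n i) (x i * β) = n i / (μ + n i) +
        2 * ((x i * β) * (1 / (μ + n i))) - (x i * β) ^ 2 / μ / (μ + n i) := by
      unfold ph1; ring
    linarith only [c2, c3, c4]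
  have k2 : ∀ (m : ℕ) (t : ℝ), ph2 μ m t ≤ m / (μ + m) - μ * (t - 1 / (μ + m)) ^ 2 := fun m t => by
    have n0 : (0 : ℝ) ≤ m := Nat.cast_nonneg _
    have : μ ≤ μ * (μ + m) / (μ + m - 1) := by
      rw [le_div_iff₀ (by linarith)]; linarith
    unfold ph2
    linarith [mul_le_mul_of_nonneg_right this (sq_nonneg (t - 1 / (μ + m)))]
  have k3 : ∀ m : ℕ, (β - 1 / (μ + m)) ^ 2 ≤ (1 / (μ - 2)) ^ 2 := fun m => by
    have n0 : (0 : ℝ) ≤ m := Nat.cast_nonneg _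
    have c1 : 1 / (μ + m) ≤ 1 / (μ - 2) := one_div_le_one_div_of_le (by linarith) (by linarith)
    have c2 : 0 ≤ 1 / (μ + m) := by positivity
    exact sq_le_sq' (by linarith) (by linarith)
  have p1 := k2 (n a) α
  have p2 := k2 (n b) γ
  have p3 := k3 (n a)
  have p4 := k3 (n b)
  have p5 := mul_le_mul_of_nonneg_left (hp a ha) b0
  have p6 := mul_le_mul_of_nonneg_left (hp b hb) b0
  rw [sum_add_distrib, ← mul_sum] at k1
  rw [PhP, Qn, split2 ha hb ab]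
  generalize ∑ i ∈ Icc 1 r \ {a, b}, (x i : ℝ) = s at *
  generalize 1 / (μ + n a) = p at *
  generalize 1 / (μ + n b) = q at *
  have e : 1 / (μ - 2) * (μ - 2) = 1 := one_div_mul_cancel (by linarith)
  have w0 : 0 < 1 / (μ - 2) := one_div_pos.2 (by linarith)
  generalize 1 / (μ - 2) = w at *
  have k4 : s * β ^ 2 / μ ≤ 3 * β ^ 2 := by
    rw [div_le_iff₀ μ0]; linarith [mul_le_mul_of_nonneg_right hx (sq_nonneg β)]
  have k5 : 2 * β * pm * (s + 2) - (μ - 3) * β ^ 2 ≤ (s + 2) ^ 2 * pm ^ 2 / (μ - 3) := by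
    rw [le_div_iff₀ (by linarith)]
    nlinarith only [sq_nonneg ((μ - 3) * β - (s + 2) * pm)]
  have k6 : ∀ t z : ℝ, z ^ 2 ≤ w ^ 2 → 2 * t * z - (μ - 2) * t ^ 2 ≤ w ^ 3 := fun t z hz => by
    have c1 := mul_nonneg w0.le (sq_nonneg ((μ - 2) * t - z))
    have c2 : w * ((μ - 2) * t - z) ^ 2 = (μ - 2) * t ^ 2 - 2 * t * z + w * z ^ 2 := by
      linear_combination ((μ - 2) * t ^ 2 - 2 * t * z) * e
    linarith [mul_le_mul_of_nonneg_left hz w0.le]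
  linarith [k6 (α - p) (β - q) p4, k6 (γ - q) (β - p) p3, sq_nonneg (α - p + (γ - q)),
    sq_nonneg (α - p), sq_nonneg (γ - q)]

/-- secular function of the dense type -/
def PhB (r : ℕ) (μ : ℝ) (n : ℕ → ℕ) (β : ℝ) : ℝ :=
  r - (μ - β) ^ 2 / μ * sg μ (Icc 1 r) (zz n) + r * β ^ 2 / μ - μ * β ^ 2

lemma PhS_B (μ0 : 0 < μ) {y x : ℕ → ℕ} (hy : ∀ i ∈ Icc 1 r, y i = 0) (hx : ∀ i ∈ Icc 1 r, x i = 1)
    (α β : ℝ) : PhS r μ n y x 0 0 α β = PhB r μ n β - μ * α ^ 2 := by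
  rw [PhS, PhB, sg, mul_sum, sum_congr rfl (g := fun i => 1 - (μ - β) ^ 2 / μ * (1 / (μ + zz n i)))
    fun i hi => by
      rw [ph1_eq μ0, hy i hi, hx i hi, zz]
      push_cast
      have : (0 : ℝ) < μ + n i := by positivity
      field_simp
      ring,
    sum_congr rfl (f := fun i => (y i : ℝ)) (g := fun _ => 0) fun i hi => by simp [hy i hi],
    sum_congr rfl (f := fun i => (x i : ℝ)) (g := fun _ => 1) fun i hi => by simp [hx i hi],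
    sum_sub_distrib]
  simp
  ring

lemma PhB_zero (μ0 : 0 < μ) : PhB r μ n 0 = Qn r μ n := by
  have := PhS_B (n := n) (r := r) μ0 (y := fun _ => 0) (x := fun _ => 1) (fun _ _ => rfl)
    (fun _ _ => rfl) 0 0
  simp only [PhS, ph1] at this
  simpa [Qn] using this.symm

namespace Cx

variable (h : Cx r M δ ν μ n₀ a₀)
include h

lemma tiny {t : ℝ} (ht : t ≤ 20 * r ^ 2) :
    t * (ro r * (1 + 6 * δ)) / ν ≤ 1 / (1000 * r) := by
  obtain ⟨p0, p1, -, -⟩ := ro_bounds h.r11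
  have R := h.R
  have δ0 := h.rg.δ0
  have a1 : ro r * (1 + 6 * δ) ≤ 1 := by nlinarith only [p0, p1, R, h.δs]
  rw [div_le_div_iff₀ h.rg.ν0 (by positivity)]
  nlinarith [mul_le_mul ht a1 (by positivity) (by positivity), h.νbig, pow_pos (show (0 : ℝ) < r by linarith) 3]

theorem noAdd (hs : ∑ i ∈ Icc 1 r, n i = M) {u : ℕ} (e : eK2 r n + 2 * u = eK2 r n₀) {s C θ : ℝ}
    (s0 : 0 ≤ s) (s1 : s ≤ u + 2 * r) (s2 : s ≤ (r - 1) * (1 + 2 * δ) * ν) (hu : (u : ℝ) ≤ r * ν)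
    (C1 : 10 * C ^ 2 ≤ ν)
    (hθ : θ ≤ -19 / 10 ∨ (1 ≤ u ∧ θ ≤ 1 / 10) ∨ (10 ≤ u ∧ θ ≤ 3))
    (E : EE r μ ν n ≤ EE r μ ν n₀ + (s ^ 2 + C ^ 2) * (ro r * (1 + 6 * δ)) / ν + θ) : False := by
  have a1 := h.addE hs e hu
  have R := h.R
  have ν0 := h.rg.ν0
  have u0 : (0 : ℝ) ≤ u := Nat.cast_nonneg _
  have a2 := gain_lin h.rg h.r11 (C := C) le_rfl (by have := h.rg.δ0; have : (0 : ℝ) < r - 1 := by linarith
                                                     positivity)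
  have a3 : C ^ 2 / (8 * ν) ≤ 1 / 80 := by rw [div_le_iff₀ (by positivity)]; linarith
  have a4 : 1 / (1000 * (r : ℝ)) ≤ 1 / 1000 := one_div_le_one_div_of_le (by norm_num) (by linarith)
  have a5 : θ ≤ -19 / 10 ∨ ((1 : ℝ) ≤ u ∧ θ ≤ 1 / 10) ∨ ((10 : ℝ) ≤ u ∧ θ ≤ 3) := by exact_mod_cast hθ
  rw [add_mul, add_div] at E
  rw [add_mul, add_div] at a2
  simp only [ne_eq, OfNat.ofNat_ne_zero, not_false_eq_true, zero_pow, zero_mul, zero_div, zero_add,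
    mul_zero] at a2
  rcases le_total (u : ℝ) (2 * r) with c | c
  · have := h.tiny (t := s ^ 2) (by nlinarith)
    rcases a5 with b | b | b <;> linarith
  · have b1 := gain_lin h.rg h.r11 (C := 0) s0 s2
    simp only [ne_eq, OfNat.ofNat_ne_zero, not_false_eq_true, zero_pow, zero_div, add_zero] at b1
    rcases le_total (u : ℝ) (20 * r) with c' | c'
    · have b2 := h.tiny (t := (s / 6) ^ 2) (by nlinarith)
      rw [div_pow, div_mul_eq_mul_div, div_right_comm] at b2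
      rcases a5 with b | b | b <;> linarith
    · rcases a5 with b | b | b <;> linarith

lemma pp {a b : ℕ} (ha : Cl δ ν (n a)) (hb : Cl δ ν (n b)) :
    2 + 2 * (ν / μ) - 5 * δ ≤ 2 * (1 / (μ + n a)) * (1 / (μ + n b)) * un μ ν ∧
      2 * (1 / (μ + n a)) * (1 / (μ + n b)) * un μ ν ≤ 2 + 2 * (ν / μ) + 5 * δ := by
  have μ0 := h.rg.μ0
  have L0 := h.rg.L0
  have δ0 := h.rg.δ0
  have δs := h.δs
  have κ0 : 0 ≤ ν / μ := by have := h.rg.ν0; positivity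
  have κ1 := h.ratio.2.2
  have e : ∀ t : ℝ, t / (μ + ν) * (t / (μ + ν)) * un μ ν = t ^ 2 * (1 + ν / μ) := fun t => by
    unfold un; field_simp
  have d0 : 0 ≤ (1 - δ) / (μ + ν) := div_nonneg (by linarith) L0.le
  have a1 := mul_le_mul_of_nonneg_right (mul_le_mul (h.rg.p1 ha) (h.rg.p1 hb) d0 (by positivity))
    (un0 h.rg).le
  have a2 := mul_le_mul_of_nonneg_right (mul_le_mul (h.rg.p2 ha) (h.rg.p2 hb) (by positivity)
    (by positivity)) (un0 h.rg).le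
  rw [e] at a1 a2
  have a3 := mul_le_mul_of_nonneg_left κ1 δ0.le
  have a4 := mul_le_mul_of_nonneg_left δs δ0.le
  have a5 := mul_le_mul_of_nonneg_left κ1 (sq_nonneg δ)
  exact ⟨by nlinarith [mul_nonneg (sq_nonneg δ) κ0, sq_nonneg δ], by nlinarith⟩

/-- the pair type in units -/
lemma unitP {g₁ : ℝ} (cand : Qn r μ n₀ ≤ 1 + g₁) (hs : ∑ i ∈ Icc 1 r, n i = M)
    (hn : ∀ i ∈ Icc 1 r, Cl δ ν (n i)) {a b : ℕ} (ha : a ∈ Icc 1 r) (hb : b ∈ Icc 1 r) (ab : a ≠ b)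
    {x : ℕ → ℕ} {α γ β : ℝ} (b0 : 0 ≤ β) (b1 : β ≤ 1 / (μ - 2))
    (hx : ∑ i ∈ Icc 1 r \ {a, b}, (x i : ℝ) ≤ 3 * μ) (up : 1 ≤ PhP r μ n a b x α γ β) :
    EE r μ ν n ≤ EE r μ ν n₀ + (∑ i ∈ Icc 1 r \ {a, b}, (x i : ℝ) + 2) ^ 2 * (ro r * (1 + 6 * δ)) / ν +
      (g₁ * un μ ν - (2 + 2 * (ν / μ) - 5 * δ) + 1 / (100 * r)) := by
  have μ5 := h.rg.μ5
  have μ0 := h.rg.μ0
  have R := h.R
  have a1 := up.trans (PhP_le (by linarith) ha hb ab (fun i hi => h.rg.p2 (hn i hi)) b0 b1 hx)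
  have a2 := unit h.rg (j := 0) (h.real h.h0) (by rw [h.real hs, add_zero]) cand
    (a1.trans_eq (by rw [sub_eq_add_neg, add_assoc, add_assoc]))
  have a3 := gain_un h.rg (sq_nonneg (∑ i ∈ Icc 1 r \ {a, b}, (x i : ℝ) + 2))
  have a4 := (h.pp (hn a ha) (hn b hb)).1
  have a5 : 2 * (1 / (μ - 2)) ^ 3 * un μ ν ≤ 1 / (100 * r) := by
    have w0 : 0 < 1 / (μ - 2) := one_div_pos.2 (by linarith)
    refine (mul_le_mul_of_nonneg_left h.un_le (by positivity)).trans ?_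
    have c1 := h.rg.inv1 (le_refl (1 / (μ - 2)))
    have c2 := pow_le_pow_left₀ (by positivity) c1 3
    rw [le_div_iff₀ (by positivity)]
    refine le_of_mul_le_mul_right ?_ μ0
    nlinarith [mul_le_mul_of_nonneg_left c2 (show (0 : ℝ) ≤ r by linarith), h.rg.μ4]
  linarith

end Cx

end Pool.Agent.P.MP_094db5_co.Dn
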