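import Pool.Agent.P.MP_094db5_co.DA5

/-! Integer vectors with a bonus on two coordinates. -/

set_option autoImplicit false

open Finset

noncomputable section

namespace Pool.Agent.P.MP_094db5_co.Dn

variable {I : Finset ℕ} {a b K : ℕ} {y y' z : ℕ → ℤ} {c s η : ℝ}

theorem level' (h : Top I a y) (hI : I.card = K + 1) (hK : 8 ≤ K) (hc : Mean I c y)
    (hs : VV I c y = s ^ 2) (s1 : 3000000 ≤ s) (s2 : 4 * (K : ℝ) ≤ s) (η0 : 0 ≤ η)
    (η1 : η * s ^ 2 ≤ 1) (h1 : Same I y y') (t : ∀ i ∈ I, y' i < y a) :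
    TT I η c y' + 300 * s ≤ TT I η c y := by
  obtain ⟨b, hb, tb⟩ := exists_max_image I y' ⟨a, h.1⟩
  have a1 := cmpT (u := 0) (B := s / 400) h hI hK hc hs (by linarith) s2 η0 η1 (by positivity)
    (by nlinarith) h1.1 (by simpa using h1.2) hb tb
  have a2 : (y' b : ℝ) + 1 ≤ y a := by exact_mod_cast t b hb
  have a3 := mul_le_mul_of_nonneg_right (show 1 ≤ (y a : ℝ) - y' b by linarith) (sq_nonneg s)
  push_cast at a1
  nlinarith

theorem top_of (ha : a ∈ I) (t : ∀ i ∈ I, y i ≤ y a) (hI : I.card = K + 1) (hK : 8 ≤ K)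
    (hc : Mean I c y) (hs : VV I c y = s ^ 2) (s1 : 3000000 ≤ s) (s2 : 4 * (K : ℝ) ≤ s) (η0 : 0 ≤ η)
    (η1 : η * s ^ 2 ≤ 1) (h : ∀ z, Same I y z → TT I η c z < TT I η c y + 300 * s) : Top I a y := by
  obtain ⟨w, b, h1, h2⟩ := exists_top ⟨a, ha⟩ y
  by_cases e : y a < w b
  · linarith [h w h1, level' h2 hI hK (hc.of h1.1) (h1.vv.trans hs) s1 s2 η0 η1 h1.symm
      fun i hi => (t i hi).trans_lt e]
  · exact ⟨ha, fun z hz i hi => (h2.2 z (h1.symm.trans hz) i hi).trans (not_lt.1 e)⟩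

lemma TT_pw (h : Same I y z) (c : ℝ) : TT I 0 c z - TT I 0 c y = pw I z 3 - pw I y 3 := by
  rw [TT_zero, TT_zero]; exact (shift h.pw c).2

theorem red (h : Top I a y) (hI : I.card = K + 1) (hK : 8 ≤ K) (hc : Mean I c y)
    (hs : VV I c y = s ^ 2) (s1 : 3000000 ≤ s) (s2 : 4 * (K : ℝ) ≤ s) (hz : Same I y z) :
    (pw I z 3 : ℝ) + 300 * s ≤ pw I y 3 ∨ ∃ i ∈ I, z i = y a := by
  by_cases e : ∀ i ∈ I, z i < y a
  · exact Or.inl (by linarith [level' h hI hK hc hs s1 s2 le_rfl (by simp) hz e, TT_pw hz c])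
  · simp only [not_forall, not_lt] at e
    obtain ⟨i, hi, e⟩ := e
    exact Or.inr ⟨i, hi, le_antisymm (h.2 z hz i hi) e⟩

lemma Same.dev (h : Same I y z) (s0 : 0 ≤ s) (hs : VV I c y ≤ s ^ 2) (ha : a ∈ I) :
    |(z a : ℝ) - y a| ≤ 2 * s := by
  have a1 := abs_le.1 (abs_le_s (d := fun i => (y i : ℝ) - c) s0 hs ha)
  have a2 := abs_le.1 (abs_le_s (d := fun i => (z i : ℝ) - c) s0 (h.vv.le.trans hs) ha)
  exact abs_le.2 ⟨by linarith [a1.2, a2.1], by linarith [a1.1, a2.2]⟩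

theorem desc (ha : a ∈ I) (hI : I.card = K + 1) (hK : 8 ≤ K) (hc : Mean I c y) (s0 : 0 ≤ s)
    (hs : VV I c y ≤ s ^ 2) : ∃ c', Mean (I.erase a) c' y ∧ |c' - c| ≤ s ∧
      VV (I.erase a) c' y ≤ VV I c y ∧
      (Top I a y → 100 ≤ s → (K : ℝ) ≤ s → VV (I.erase a) c' y ≤ 4 * s) := by
  have ea : (I.erase a).card = K := by rw [card_erase_of_mem ha]; omega
  obtain ⟨κ, k1, k2, k3⟩ := exists_kappa hK
  have x1 := abs_le_s (d := fun i => (y i : ℝ) - c) s0 hs ha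
  have r1 := hc.rest ha
  have r2 : ∑ i ∈ I.erase a, ((y i : ℝ) - c) ^ 2 =
      VV (I.erase a) (c - (y a - c) * κ) y + (y a - c) ^ 2 * κ := by
    rw [VV, sum_congr rfl (f := fun i => ((y i : ℝ) - (c - (y a - c) * κ)) ^ 2)
      (g := fun i => ((y i : ℝ) - c) ^ 2 + 2 * ((y a - c) * κ) * (y i - c) + ((y a - c) * κ) ^ 2)
      fun i _ => by ring, sum_add_distrib, sum_add_distrib, ← mul_sum, r1, sum_const, ea,
      nsmul_eq_mul]
    linear_combination (-((y a : ℝ) - c) ^ 2 * κ) * k1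
  refine ⟨c - (y a - c) * κ, ?_, ?_, ?_, fun top s1 s2 => ?_⟩
  · rw [sum_sub_distrib, sum_const, nsmul_eq_mul, ea] at r1
    rw [Mean, ea, Int.cast_sum]
    linear_combination r1 + ((y a : ℝ) - c) * k1
  · rw [sub_sub_cancel_left, abs_neg, abs_mul, abs_of_pos k2]
    nlinarith [abs_nonneg ((y a : ℝ) - c)]
  · rw [VV.eq_1 I, ← add_sum_erase _ _ ha, r2]
    nlinarith [sq_nonneg ((y a : ℝ) - c)]
  · have r3 := top.R_le (by omega) hc (ea ▸ k1) r2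
    rw [ea] at r3
    have x0 := hc.top0 ha top.self
    nlinarith [(abs_le.1 x1).2]

/-- a much smaller top coordinate loses -/
theorem far (h : Top I a y) (hI : I.card = K + 1) (hK : 8 ≤ K) (h1 : Same I y y')
    (t : ∀ i ∈ I, y' i + (K + 1) ≤ y a) : pw I y' 3 < pw I y 3 := by
  obtain ⟨κ, k1, k2, k3⟩ := exists_kappa hK
  have K8 : (8 : ℝ) ≤ K := by exact_mod_cast hK
  have eI : (I.card : ℝ) = K + 1 := by rw [hI]; push_cast; rfl
  obtain ⟨c, hc⟩ : ∃ c, Mean I c y :=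
    ⟨(∑ i ∈ I, y i : ℤ) / I.card, (mul_div_cancel₀ _ (by rw [eI]; positivity)).symm⟩
  have ea : (I.erase a).card = K := by rw [card_erase_of_mem h.1]; omega
  obtain ⟨R, Z3, Z4, q1, q2, -, q4, q5, -⟩ := loc (ea.symm ▸ k1) (hc.rest h.1)
  have r1 := h.R_le (by omega) hc (ea.symm ▸ k1) q1
  have hc' := hc.of h1.1
  obtain ⟨b, hb, tb⟩ := exists_max_image I y' ⟨a, h.1⟩
  have x0 := hc'.top0 hb tb
  have t' : ∀ i ∈ I, (y' i : ℝ) + (K + 1) ≤ y a := fun i hi => by exact_mod_cast t i hi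
  have x1 := t' b hb
  have v1 : VV I c y = _ := (add_sum_erase _ _ h.1).symm
  have v2 := h1.vv (c := c)
  have v3 := TT_pw h1 c
  rw [TT_zero, TT_zero, ← add_sum_erase _ (fun i => ((y i : ℝ) - c) ^ 3) h.1, q2] at v3
  rw [q1] at v1
  rw [ea] at r1
  obtain ⟨x, hx⟩ : ∃ x, x = (y a : ℝ) - c := ⟨_, rfl⟩
  rw [← hx] at r1 v1 v3
  have w1 : 0 ≤ ∑ i ∈ I, (x - (K + 1) - ((y' i : ℝ) - c)) * (y' i - c + x * κ) ^ 2 :=
    sum_nonneg fun i hi => mul_nonneg (by linarith [t' i hi]) (sq_nonneg _)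
  rw [sum_congr rfl (g := fun i => (x - (K + 1) - 2 * (x * κ)) * ((y' i : ℝ) - c) ^ 2 +
    (2 * (x - (K + 1)) * (x * κ) - (x * κ) ^ 2) * ((y' i : ℝ) - c) + (x - (K + 1)) * (x * κ) ^ 2 -
    ((y' i : ℝ) - c) ^ 3) fun i _ => by ring, sum_sub_distrib, sum_add_distrib, sum_add_distrib,
    ← mul_sum, ← mul_sum, hc'.sum, sum_const, nsmul_eq_mul, eI] at w1
  change 0 ≤ _ * VV I c y' + _ + _ - _ at w1
  rw [v2, v1] at w1
  have x2 : K + 1 ≤ x := by linarith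
  have r2 : R ≤ 3 * x := by nlinarith
  have r3 := (q5 x (by linarith) (by nlinarith)).1
  have e1 : (K + 1) * ((x - (K + 1)) * (x * κ) ^ 2) = (x - (K + 1)) * x ^ 2 * (κ + κ ^ 2) := by
    linear_combination ((x - (K + 1)) * x ^ 2 * κ) * k1
  rw [e1] at w1
  have b1 : x * R ≤ 3 * x ^ 2 := by nlinarith
  have b2 : x * R * κ ≤ x ^ 2 := by nlinarith [mul_nonneg (show 0 ≤ x by linarith) q4]
  have b3 : 0 ≤ (K + 1) * (x ^ 2 * (2 * κ + κ ^ 2) + R) := by positivity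
  have b4 := mul_le_mul_of_nonneg_right K8 (sq_nonneg x)
  have b5 : 0 < x ^ 2 := by have : 0 < x := by linarith
                            positivity
  exact_mod_cast (by linarith : (pw I y' 3 : ℝ) < pw I y 3)

lemma swap2 {a' b' : ℕ} (ha : a ∈ I) (hb : b ∈ I) (ab : a ≠ b) (ha' : a' ∈ I) (hb' : b' ∈ I)
    (ab' : a' ≠ b') (z : ℕ → ℤ) : ∃ z' : ℕ → ℤ, z' a = z a' ∧ z' b = z b' ∧ Same I z z' ∧
      (∀ j, pw I z' j = pw I z j) ∧ ∀ μ, sg μ I z' = sg μ I z := by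
  have h : ∀ {u v}, u ∈ I → v ∈ I → ∀ i, i ∈ I ↔ Equiv.swap u v i ∈ I := fun {u v} hu hv i => by
    rw [Equiv.swap_apply_def]
    split_ifs with p q
    · simp [p, hu, hv]
    · simp [q, hu, hv]
    · rfl
  have h1 := (h ha ha' b').1 hb'
  have h2 : a ≠ Equiv.swap a a' b' := fun e => ab' (by
    simpa using congrArg (Equiv.swap a a') e)
  have k : ∀ {M : Type} [AddCommMonoid M] (f : ℤ → M),
      ∑ i ∈ I, f (z (((Equiv.swap b (Equiv.swap a a' b')).trans (Equiv.swap a a')) i)) =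
        ∑ i ∈ I, f (z i) := fun f =>
    sum_equiv _ (fun i => (h hb h1 i).trans (h ha ha' _)) fun _ _ => rfl
  refine ⟨fun i => z (((Equiv.swap b (Equiv.swap a a' b')).trans (Equiv.swap a a')) i), ?_, ?_,
    ⟨k fun v => v, k fun v => v ^ 2⟩, fun j => k fun v => v ^ j, fun μ => k fun v => 1 / (μ + v)⟩
  · simp [Equiv.swap_apply_of_ne_of_ne ab h2]
  · simp

lemma swap1 {a' : ℕ} (ha : a ∈ I) (ha' : a' ∈ I) (z : ℕ → ℤ) : ∃ z' : ℕ → ℤ, z' a = z a' ∧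
    Same I z z' ∧ (∀ j, pw I z' j = pw I z j) ∧ ∀ μ, sg μ I z' = sg μ I z := by
  obtain ⟨z', p1, -, p2, p3⟩ := exists_swap ha' ha z
  exact ⟨z', p1, ⟨p2 fun v => v, p2 fun v => v ^ 2⟩, fun j => p2 fun v => v ^ j,
    fun μ => p3 fun v => 1 / (μ + v)⟩

lemma Same.erase (h : Same I y z) (ha : a ∈ I) (e : z a = y a) : Same (I.erase a) y z := by
  obtain ⟨q1, q2⟩ := h
  rw [← add_sum_erase _ _ ha, ← add_sum_erase _ y ha, e] at q1
  rw [← add_sum_erase _ _ ha, ← add_sum_erase _ (fun i => y i ^ 2) ha, e] at q2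
  exact ⟨add_left_cancel q1, add_left_cancel q2⟩

lemma Same.ext (h : Same (I.erase a) y z) (ha : a ∈ I) : Same I y (Function.update z a (y a)) :=
  ⟨by rw [sum_ext ha z _ fun v => v, h.1, add_sum_erase _ _ ha],
    by rw [sum_ext ha z _ fun v => v ^ 2, h.2, add_sum_erase _ (fun i => y i ^ 2) ha]⟩

lemma pw_er (ha : a ∈ I) (y : ℕ → ℤ) (j : ℕ) : pw I y j = y a ^ j + pw (I.erase a) y j :=
  (add_sum_erase _ (fun i => y i ^ j) ha).symm

lemma sg_er (ha : a ∈ I) (μ : ℝ) (y : ℕ → ℤ) :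
    sg μ I y = 1 / (μ + y a) + sg μ (I.erase a) y :=
  (add_sum_erase _ (fun i => 1 / (μ + y i)) ha).symm

lemma pw_ext (ha : a ∈ I) (z : ℕ → ℤ) (v : ℤ) (j : ℕ) :
    pw I (Function.update z a v) j = v ^ j + pw (I.erase a) z j := sum_ext ha z _ fun v => v ^ j

lemma sg_ext (ha : a ∈ I) (μ : ℝ) (z : ℕ → ℤ) (v : ℤ) :
    sg μ I (Function.update z a v) = 1 / (μ + v) + sg μ (I.erase a) z :=
  sum_ext ha z _ fun v => 1 / (μ + v)

variable {μ W δ m R : ℝ}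

lemma sg_TT (s0 : 0 ≤ s) (hs : 2 * s ≤ μ + c) (L0 : 0 < μ + c) (hv : VV I c y ≤ s ^ 2)
    (hc : Mean I c y) (hz : Same I y z) : W * (sg μ I y - sg μ I z) =
      W / (μ + c) ^ 4 * (TT I (1 / (μ + c)) c z - TT I (1 / (μ + c)) c y) := by
  rw [sg_T s0 hs L0 hv hc, sg_T s0 hs L0 (hz.vv.le.trans hv) (hc.of hz.1), hz.vv]
  ring

/-- bounded deviations -/
theorem direct3 (m1 : 1 ≤ m) (δ0 : 0 < δ) (R1 : 1 ≤ R) (hδ : 200 * R * m ^ 4 * δ ≤ 1)
    (hL : 1 ≤ δ * (μ + c)) (hv : VV I c y ≤ m ^ 2) (hc : Mean I c y) (hz : Same I y z)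
    (hW : |R * (W / (μ + c) ^ 4) - (R - 1)| ≤ 6 * δ * R) {D : ℝ}
    (h : W * (sg μ I y - sg μ I z) + 2 * D ≤ 80 * δ * m) :
    (R - 1) * (pw I z 3 - pw I y 3) + 2 * R * D < 1 := by
  have L0 : 0 < μ + c := by
    by_contra hn
    nlinarith
  have m2 : m ≤ m ^ 3 := le_self_pow₀ m1 (by norm_num)
  have m3 : m ^ 3 ≤ m ^ 4 := pow_le_pow_right₀ m1 (by norm_num)
  have a0 : m ^ 4 * δ ≤ R * m ^ 4 * δ := by nlinarith [mul_pos (pow_pos (show 0 < m by linarith) 4) δ0]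
  have a1 : 1 / (μ + c) ≤ δ := by rw [div_le_iff₀ L0]; exact hL
  have η0 : 0 ≤ 1 / (μ + c) := by positivity
  have a2 : 1 / (μ + c) * m ≤ 1 / 2 := by
    nlinarith [mul_le_mul a1 (m2.trans m3) (by linarith) δ0.le]
  have a3 : 2 * m ≤ μ + c := by rw [one_div, inv_mul_le_iff₀ L0] at a2; linarith
  have hv' := hz.vv.le.trans hv
  rw [sg_TT (by linarith) a3 L0 hv hc hz] at h
  have b1 := tau_abs (I := I) (d := fun i => (z i : ℝ) - c) η0 (by linarith) a2 hv'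
  have b2 := tau_abs (I := I) (d := fun i => (y i : ℝ) - c) η0 (by linarith) a2 hv
  have b3 := tau_ge3 (I := I) (d := fun i => (z i : ℝ) - c) η0 (by linarith) a2 hv'
  have b4 := tau_le3 (I := I) (d := fun i => (y i : ℝ) - c) η0 (by linarith) a2 hv
  have b5 := (shift hz.pw c).2
  change _ - 2 * _ * VV I c z ^ 2 ≤ _ at b3
  have b6 : 1 / (μ + c) * VV I c z ^ 2 ≤ δ * (m ^ 2) ^ 2 :=
    mul_le_mul a1 (pow_le_pow_left₀ (VV0 _ _ _) hv' 2) (by positivity) δ0.le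
  unfold TT at h
  generalize ∑ i ∈ I, tau (1 / (μ + c)) (z i - c) = T' at *
  generalize ∑ i ∈ I, tau (1 / (μ + c)) (y i - c) = T at *
  generalize W / (μ + c) ^ 4 = ρ at *
  have c1 : |(R * ρ - (R - 1)) * (T' - T)| ≤ 6 * δ * R * (4 * m ^ 3) := by
    rw [abs_mul]
    exact mul_le_mul hW ((abs_sub _ _).trans (by linarith)) (abs_nonneg _) (by positivity)
  have c2 := mul_le_mul_of_nonneg_left h (show 0 ≤ R by linarith)
  have c3 := mul_le_mul_of_nonneg_left (show (pw I z 3 : ℝ) - pw I y 3 ≤ T' - T + 2 * (δ * m ^ 4) by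
    linarith) (show 0 ≤ R - 1 by linarith)
  have c4 := mul_le_mul_of_nonneg_left m3 (show 0 ≤ R * δ by positivity)
  have c5 := mul_le_mul_of_nonneg_left m2 (show 0 ≤ R * δ by positivity)
  have c6 : 0 < δ * m ^ 4 := by positivity
  nlinarith [(abs_le.1 c1).1]

/-- large deviations -/
theorem top_sg (ha : a ∈ I) (t : ∀ i ∈ I, y i ≤ y a) (hI : I.card = K + 1) (hK : 8 ≤ K)
    (hc : Mean I c y) (hs : VV I c y = s ^ 2) (s1 : 3000000 ≤ s) (s2 : 4 * (K : ℝ) ≤ s)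
    (hL : s ^ 2 ≤ μ + c) (hW : 1 / 2 ≤ W / (μ + c) ^ 4)
    (h : ∀ z, Same I y z → W * (sg μ I y - sg μ I z) ≤ 12 * s) : Top I a y := by
  have a1 : 2 * s ≤ μ + c := by nlinarith
  have L0 : 0 < μ + c := by linarith
  refine top_of (η := 1 / (μ + c)) ha t hI hK hc hs s1 s2 (by positivity)
    (by rw [one_div, inv_mul_le_iff₀ L0]; linarith) fun z hz => ?_
  have a2 := h z hz
  rw [sg_TT (by linarith) a1 L0 hs.le hc hz] at a2
  by_contra hn
  nlinarith [mul_le_mul hW (show 300 * s ≤ TT I (1 / (μ + c)) c z - TT I (1 / (μ + c)) c y by linarith)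
    (by linarith) (by linarith)]

end Pool.Agent.P.MP_094db5_co.Dn
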