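import Pool.Agent.P.MP_094db5_co.DC1

/-! The optimal vectors with a bonus on two coordinates. -/

set_option autoImplicit false

open Finset

noncomputable section

namespace Pool.Agent.P.MP_094db5_co.Dn

/-- the integer objective is maximal -/
def FM (I : Finset ℕ) (a b : ℕ) (y : ℕ → ℤ) : Prop := ∀ z, Same I y z →
  (I.card - 1) * pw I z 3 + 2 * I.card * (z a + z b) ≤
    (I.card - 1) * pw I y 3 + 2 * I.card * (y a + y b)

variable {I : Finset ℕ} {a b K : ℕ} {y y' z : ℕ → ℤ} {c s μ W δ m : ℝ}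

lemma coef {R L L₁ : ℝ} (R3 : 3 ≤ R) (δ0 : 0 < δ) (δ1 : 1000 * δ ≤ 1) (L0 : 0 < L)
    (h1 : |L₁ - L| ≤ δ * L) (hW : |R * W - (R - 1) * L ^ 4| ≤ δ * ((R - 1) * L ^ 4)) :
    |R * (W / L₁ ^ 4) - (R - 1)| ≤ 6 * δ * R ∧ 1 / 2 ≤ W / L₁ ^ 4 := by
  obtain ⟨p1, p2⟩ := abs_le.1 h1
  obtain ⟨q1, q2⟩ := abs_le.1 hW
  have a0 : 0 < (1 - δ) * L := mul_pos (by linarith) L0
  have L1 : 0 < L₁ := by linarith
  have a1 := pow_le_pow_left₀ a0.le (show (1 - δ) * L ≤ L₁ by linarith) 4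
  have a2 := pow_le_pow_left₀ L1.le (show L₁ ≤ (1 + δ) * L by linarith) 4
  have d2 : δ ^ 2 ≤ δ / 1000 := by nlinarith
  have a3 : 1 + δ ≤ (1 + 6 * δ) * (1 - δ) ^ 4 := by
    have b1 : 1 - 2 * δ ≤ (1 - δ) ^ 2 := by nlinarith
    have b2 := pow_le_pow_left₀ (by linarith) b1 2
    nlinarith [mul_le_mul_of_nonneg_left b2 (show 0 ≤ 1 + 6 * δ by linarith),
      mul_pos δ0 (pow_pos δ0 2)]
  have a4 : (1 - 6 * δ) * (1 + δ) ^ 4 ≤ 1 - δ := by
    have b1 : (1 + δ) ^ 2 ≤ 1 + 21 / 10 * δ := by nlinarith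
    have b2 := pow_le_pow_left₀ (by positivity) b1 2
    nlinarith [mul_le_mul_of_nonneg_left b2 (show 0 ≤ 1 - 6 * δ by linarith),
      mul_pos δ0 (pow_pos δ0 2)]
  rw [mul_pow] at a1 a2
  have P0 : 0 < L₁ ^ 4 := pow_pos L1 4
  have Q0 : 0 ≤ (R - 1) * L ^ 4 := mul_nonneg (by linarith) (by positivity)
  have b1 : R * W ≤ (R - 1) * (1 + 6 * δ) * L₁ ^ 4 := by
    linarith [mul_le_mul_of_nonneg_left a3 Q0, mul_le_mul_of_nonneg_left a1
      (show 0 ≤ (R - 1) * (1 + 6 * δ) from mul_nonneg (by linarith) (by linarith))]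
  have b2 : (R - 1) * (1 - 6 * δ) * L₁ ^ 4 ≤ R * W := by
    linarith [mul_le_mul_of_nonneg_left a4 Q0, mul_le_mul_of_nonneg_left a2
      (show 0 ≤ (R - 1) * (1 - 6 * δ) from mul_nonneg (by linarith) (by linarith))]
  rw [← div_le_iff₀ P0, mul_div_assoc] at b1
  rw [← le_div_iff₀ P0, mul_div_assoc] at b2
  refine ⟨abs_le.2 ⟨by linarith, by linarith⟩, le_of_mul_le_mul_left ?_ (show 0 < R by linarith)⟩
  nlinarith [mul_le_mul_of_nonneg_left δ1 (show 0 ≤ R by linarith)]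

lemma exists_s (I : Finset ℕ) (c : ℝ) (y : ℕ → ℤ) : ∃ s, 0 ≤ s ∧ VV I c y = s ^ 2 :=
  ⟨_, Real.sqrt_nonneg _, (Real.sq_sqrt (VV0 I c y)).symm⟩

theorem pair_opt (hK : 9 ≤ K) (m1 : 3000000 ≤ m) (m2 : 4 * (K + 1 : ℝ) ≤ m) : ∃ L₀ : ℝ,
    ∀ {I : Finset ℕ} {a b : ℕ} {μ c W δ s : ℝ} {y : ℕ → ℤ}, I.card = K + 2 → a ∈ I → b ∈ I → a ≠ b →
    Mean I c y → 0 ≤ s → VV I c y = s ^ 2 → s ≤ δ * (μ + c) → 2 * s ^ 2 ≤ μ + c →
    2 ≤ δ * (μ + c) → 0 < δ → 200 * (K + 2) * m ^ 4 * δ ≤ 1 → L₀ ≤ μ + c →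
    |(K + 2) * W - (K + 2 - 1) * (μ + c) ^ 4| ≤ δ * ((K + 2 - 1) * (μ + c) ^ 4) → y b ≤ y a →
    (∀ z, Same I y z → W * (sg μ I y - sg μ I z) + 2 * ((z a - y a) + (z b - y b)) ≤
      20 * δ * (|(z a : ℝ) - y a| + |(z b : ℝ) - y b|)) →
    FM I a b y ∧ (∀ z, Same ((I.erase a).erase b) y z → LexR ((I.erase a).erase b) y z) ∧
      ∀ y', Same ((I.erase a).erase b) y y' →
        (∀ z, Same ((I.erase a).erase b) y' z → LexR ((I.erase a).erase b) y' z) →
        sg μ ((I.erase a).erase b) y' ≤ sg μ ((I.erase a).erase b) y := by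
  obtain ⟨L₁, hL⟩ := lex_opt (K - 8) 3 (m ^ 8 + 8192) (by omega)
  refine ⟨2 * |L₁| + 2, fun {I a b μ c W δ s y} hI ha hb ab hc s0 hs s1 s2 dL δ0 hδ L1 hW ba H => ?_⟩
  have K9 : (9 : ℝ) ≤ K := by exact_mod_cast hK
  have m4 : m ≤ m ^ 4 := le_self_pow₀ (by linarith) (by norm_num)
  have δ1 : 1000 * δ ≤ 1 := by
    nlinarith [mul_le_mul_of_nonneg_right (show 1000 ≤ 200 * (K + 2) * m ^ 4 by nlinarith) δ0.le]
  have L0 : 0 < μ + c := by linarith [abs_nonneg L₁]
  have δL := mul_le_mul_of_nonneg_right δ1 L0.le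
  have hb' : b ∈ I.erase a := mem_erase.2 ⟨ab.symm, hb⟩
  have e1 : (I.erase a).card = K + 1 := by rw [card_erase_of_mem ha]; omega
  have e2 : ((I.erase a).erase b).card = K - 8 + 8 := by rw [card_erase_of_mem hb']; omega
  obtain ⟨c₁, g1, g2, g3, g4⟩ := desc (K := K + 1) ha hI (by omega) hc s0 hs.le
  obtain ⟨s₁, t0, ts⟩ := exists_s (I.erase a) c₁ y
  obtain ⟨c₂, f1, f2, f3, f4⟩ := desc hb' e1 (by omega) g1 t0 ts.le
  have t1 : s₁ ≤ s := (abs_le_of_sq_le_sq' (by linarith) s0).2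
  obtain ⟨k1, k2⟩ := coef (L₁ := μ + c) (by linarith) δ0 δ1 L0 (by simp; positivity) hW
  obtain ⟨k3, k4⟩ := coef (L₁ := μ + c₁) (by linarith) δ0 δ1 L0
    (by rw [add_sub_add_left_eq_sub]; linarith) hW
  obtain ⟨g5, g6⟩ := abs_le.1 g2
  obtain ⟨f5, f6⟩ := abs_le.1 f2
  have W0 : 0 < W := by
    by_contra hn
    linarith [div_nonpos_of_nonpos_of_nonneg (not_lt.1 hn) (pow_pos L0 4).le]
  have H₁ : ∀ z, Same (I.erase a) y z → W * (sg μ (I.erase a) y - sg μ (I.erase a) z) +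
      2 * (z b - y b) ≤ 20 * δ * |(z b : ℝ) - y b| := fun z hz => by
    have := H _ (hz.ext ha)
    rw [sg_ext ha, sg_er ha, Function.update_self, Function.update_of_ne ab.symm] at this
    simpa using this
  have H₂ : ∀ z, Same ((I.erase a).erase b) y z →
      sg μ ((I.erase a).erase b) y ≤ sg μ ((I.erase a).erase b) z := fun z hz => by
    have := H₁ _ (hz.ext hb')
    rw [sg_ext hb', sg_er hb', Function.update_self] at this
    simp only [sub_self, abs_zero, mul_zero, add_zero] at this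
    linarith [nonpos_of_mul_nonpos_right this W0]
  have gain : ∀ {u v : ℤ}, 2 * ((u : ℝ) - v) ≤ 20 * δ * |(u : ℝ) - v| → u ≤ v := fun {u v} h => by
    by_contra hn
    have : (v : ℝ) < u := by exact_mod_cast not_le.1 hn
    rw [abs_of_pos (by linarith)] at h
    nlinarith only [h, this, δ1]
  have mx1 : ∀ i ∈ I, y i ≤ y a := fun i hi => by
    by_cases e : i = b
    · rwa [e]
    · obtain ⟨z, p1, p2, p3, -, p5⟩ := swap2 ha hb ab hi hb e y
      have := H z p3
      rw [p1, p2, p5] at this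
      exact gain (by simpa using this)
  have mx2 : ∀ i ∈ I.erase a, y i ≤ y b := fun i hi => by
    obtain ⟨z, p1, p3, -, p5⟩ := swap1 hb' hi y
    have := H₁ z p3
    rw [p1, p5] at this
    exact gain (by simpa using this)
  have cut : ∀ {u t : ℝ}, |u| ≤ t → 20 * δ * |u| - 2 * u ≤ 3 * t := fun {u t} h => by
    nlinarith only [abs_nonneg u, neg_abs_le u, h, δ1]
  have T1 : m ≤ s → Top I a y := fun w => top_sg (K := K + 1) ha mx1 hI (by omega) hc hs (by linarith)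
    (by push_cast; linarith) (by linarith only [s2, sq_nonneg s]) k2 fun z hz => by
      linarith [H z hz, cut (hz.dev s0 hs.le ha), cut (hz.dev s0 hs.le hb)]
  have T2 : m ≤ s₁ → Top (I.erase a) b y := fun w => top_sg hb' mx2 e1 (by omega) g1 ts (by linarith)
    (by linarith) (by linarith) k4 fun z hz => by
      linarith [H₁ z hz, cut (hz.dev t0 ts.le hb')]
  have lex : ∀ y', Same ((I.erase a).erase b) y y' →
      ((∀ z, Same ((I.erase a).erase b) y' z →
        sg μ ((I.erase a).erase b) y' ≤ sg μ ((I.erase a).erase b) z) ↔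
      ∀ z, Same ((I.erase a).erase b) y' z → LexR ((I.erase a).erase b) y' z) := fun y' hy => by
    have b1 : μ + c ≤ 2 * (μ + c₂) := by linarith
    have b2 : 1 ≤ μ + c₂ := by linarith [abs_nonneg L₁]
    have b3 : 0 ≤ m ^ 8 := by positivity
    obtain ⟨t, u1, u2, u3⟩ : ∃ t, 1 ≤ t ∧ VV ((I.erase a).erase b) c₂ y ≤ t ^ 2 ∧
        t ^ 2 ^ 3 ≤ (m ^ 8 + 8192) * (μ + c₂) := by
      rcases le_total s₁ m with w | w
      · exact ⟨m, by linarith, f3.trans (ts ▸ pow_le_pow_left₀ t0 w 2), by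
          norm_num; linarith only [mul_le_mul_of_nonneg_left b2 b3, b2]⟩
      · have a1 := f4 (T2 w) (by linarith) (by linarith)
        have a2 := g4 (T1 (w.trans t1)) (by linarith) (by push_cast; linarith)
        have a3 : √(4 * s₁) ^ 2 = 4 * s₁ := Real.sq_sqrt (by linarith)
        refine ⟨√(4 * s₁), Real.one_le_sqrt.2 (by linarith), by linarith, ?_⟩
        rw [show 2 ^ 3 = 2 * 4 by norm_num, pow_mul, a3]
        rw [ts] at a2
        linarith only [pow_le_pow_left₀ (sq_nonneg _) a2 2, mul_nonneg b3 (zero_le_one.trans b2), b1,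
          s2, b2]
    exact hL _ μ c₂ t y' e2 (f1.of hy.1) u1 (hy.vv.le.trans u2) (by rw [hy.vv]; linarith) u3
      (by linarith [le_abs_self L₁])
  have lx := (lex y (Same.rfl' _ _)).1 H₂
  refine ⟨?_, lx, fun y' hy h => (lex y' hy).2 h y hy.symm⟩
  have F₁ : ∀ z, Same (I.erase a) y z → (K + 1) * pw (I.erase a) z 3 + 2 * (K + 2) * z b ≤
      (K + 1) * pw (I.erase a) y 3 + 2 * (K + 2) * y b := fun z hz => by
    rcases le_total s₁ m with w | w
    · have a1 := ts.le.trans (pow_le_pow_left₀ t0 w 2)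
      have a2 := hz.dev (by linarith) a1 hb'
      have a3 := direct3 (R := K + 2) (D := z b - y b) (by linarith) δ0 (by linarith) hδ
        (by linarith only [dL, mul_le_mul_of_nonneg_left (show μ + c ≤ 2 * (μ + c₁) by linarith) δ0.le])
        a1 g1 hz k3 (by
          linarith only [H₁ z hz, mul_le_mul_of_nonneg_left a2 δ0.le,
            mul_pos δ0 (show 0 < m by linarith)])
      have a4 : (K + 1) * pw (I.erase a) z 3 + 2 * (K + 2) * z b <
          (K + 1) * pw (I.erase a) y 3 + 2 * (K + 2) * y b + 1 := by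
        exact_mod_cast (by linarith : ((K + 1) * pw (I.erase a) z 3 + 2 * (K + 2) * z b : ℝ) <
          (K + 1) * pw (I.erase a) y 3 + 2 * (K + 2) * y b + 1)
      omega
    · rcases red (T2 w) e1 (by omega) g1 ts (by linarith) (by linarith) hz with q | ⟨i, hi, q⟩
      · have a2 := (abs_le.1 (hz.dev t0 ts.le hb')).2
        exact_mod_cast (by
          linarith only [mul_le_mul_of_nonneg_left q (show (0 : ℝ) ≤ K + 1 by linarith),
            mul_le_mul_of_nonneg_left a2 (show (0 : ℝ) ≤ K + 2 by linarith), mul_nonneg K.cast_nonneg t0,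
            t0] : ((K + 1) * pw (I.erase a) z 3 + 2 * (K + 2) * z b : ℝ) ≤
          (K + 1) * pw (I.erase a) y 3 + 2 * (K + 2) * y b)
      · obtain ⟨z', p1, p3, p4, -⟩ := swap1 hb' hi z
        have a1 := (hz.trans p3).erase hb' (p1.trans q)
        have a2 := lx z' a1 3 le_rfl a1.pw
        have a3 := (T2 w).2 z hz b hb'
        rw [← p4, pw_er hb' z', pw_er hb' y, p1, q]
        nlinarith only [a2, a3, K.cast_nonneg (α := ℤ)]
  intro z hz
  rw [hI]
  push_cast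
  rcases le_total s m with w | w
  · have a1 := hs.le.trans (pow_le_pow_left₀ s0 w 2)
    have a2 := hz.dev (by linarith) a1 ha
    have a2' := hz.dev (by linarith) a1 hb
    have a3 := direct3 (R := K + 2) (D := z a - y a + (z b - y b)) (by linarith) δ0 (by linarith) hδ
      (by linarith) a1 hc hz k1
      (by linarith [H z hz, mul_le_mul_of_nonneg_left (add_le_add a2 a2') δ0.le])
    have a4 : (K + 2 - 1) * pw I z 3 + 2 * (K + 2) * (z a + z b) <
        (K + 2 - 1) * pw I y 3 + 2 * (K + 2) * (y a + y b) + 1 := by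
      exact_mod_cast (by linarith : ((K + 2 - 1) * pw I z 3 + 2 * (K + 2) * (z a + z b) : ℝ) <
        (K + 2 - 1) * pw I y 3 + 2 * (K + 2) * (y a + y b) + 1)
    omega
  · rcases red (K := K + 1) (T1 w) hI (by omega) hc hs (by linarith) (by push_cast; linarith) hz with
      q | ⟨i, hi, q⟩
    · have a2 := (abs_le.1 (hz.dev s0 hs.le ha)).2
      have a3 := (abs_le.1 (hz.dev s0 hs.le hb)).2
      exact_mod_cast (by
        linarith only [mul_le_mul_of_nonneg_left q (show (0 : ℝ) ≤ K + 1 by linarith),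
          mul_le_mul_of_nonneg_left (add_le_add a2 a3) (show (0 : ℝ) ≤ K + 2 by linarith),
          mul_nonneg K.cast_nonneg s0, s0] : ((K + 2 - 1) * pw I z 3 + 2 * (K + 2) * (z a + z b) : ℝ) ≤
        (K + 2 - 1) * pw I y 3 + 2 * (K + 2) * (y a + y b))
    · obtain ⟨z', p1, p2, p3, p4⟩ : ∃ z', z' a = y a ∧ z a + z b ≤ y a + z' b ∧ Same I z z' ∧
          pw I z' 3 = pw I z 3 := by
        by_cases e : i = b
        · obtain ⟨z', p1, p2, p3, p4, -⟩ := swap2 ha hb ab hb ha ab.symm z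
          exact ⟨z', by rw [p1, ← q, e], by rw [p2, ← q, e, add_comm], p3, p4 3⟩
        · obtain ⟨z', p1, p2, p3, p4, -⟩ := swap2 ha hb ab hi hb e z
          exact ⟨z', p1.trans q, by linarith [(T1 w).2 z hz a ha], p3, p4 3⟩
      have a1 := F₁ z' ((hz.trans p3).erase ha p1)
      rw [← p4, pw_er ha z', pw_er ha y, p1]
      nlinarith only [a1, p2, K.cast_nonneg (α := ℤ)]

lemma even_pw (h : Same I y z) : Even (pw I z 3 - pw I y 3) := by
  have k : ∀ y : ℕ → ℤ, Even (pw I y 3 - ∑ i ∈ I, y i) := fun y => by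
    rw [pw, ← sum_sub_distrib]
    refine Finset.even_sum _ fun i _ => ?_
    rw [show y i ^ 3 - y i = (y i - 1) * (y i * (y i + 1)) by ring]
    exact (Int.even_mul_succ_self _).mul_left _
  have := (k z).sub (k y)
  rwa [h.1, sub_sub_sub_cancel_right] at this

lemma FM.symm (h : FM I a b y) : FM I b a y := fun z hz => by
  rw [add_comm (z b), add_comm (y b)]; exact h z hz

lemma FM.top (h : FM I a b y) (hI : I.card = K + 2) (hK : 9 ≤ K) (ha : a ∈ I) (hb : b ∈ I)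
    (ab : a ≠ b) (hc : Mean I c y) (hs : VV I c y = s ^ 2) (s1 : 3000000 ≤ s)
    (s2 : 4 * (K + 1 : ℝ) ≤ s) (ba : y b ≤ y a) : Top I a y ∧ ∀ i ∈ I.erase a, y i ≤ y b := by
  have K9 : (9 : ℝ) ≤ K := by exact_mod_cast hK
  refine ⟨top_of (K := K + 1) (η := 0) ha (fun i hi => ?_) hI (by omega) hc hs s1
    (by push_cast; linarith) le_rfl (by simp) fun z hz => ?_, fun i hi => ?_⟩
  · by_cases e : i = b
    · rwa [e]
    · obtain ⟨z, p1, p2, p3, p4, -⟩ := swap2 ha hb ab hi hb e y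
      have := h z p3
      rw [p1, p2, p4, hI] at this
      push_cast at this
      nlinarith
  · have a1 := h z hz
    rw [hI] at a1
    have a2 : ((K + 2 - 1) * pw I z 3 + 2 * (K + 2) * (z a + z b) : ℝ) ≤
        (K + 2 - 1) * pw I y 3 + 2 * (K + 2) * (y a + y b) := by exact_mod_cast a1
    have a3 := (abs_le.1 (hz.dev (by linarith) hs.le ha)).1
    have a4 := (abs_le.1 (hz.dev (by linarith) hs.le hb)).1
    have a5 := TT_pw hz c
    by_contra hn
    nlinarith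
  · obtain ⟨z, p1, p2, p3, p4, -⟩ := swap2 ha hb ab ha (mem_of_mem_erase hi) (ne_of_mem_erase hi).symm y
    have := h z p3
    rw [p1, p2, p4, hI] at this
    push_cast at this
    nlinarith

theorem pair_uniq (h : FM I a b y) (h' : FM I a b y') (hI : I.card = K + 2) (hK : 9 ≤ K) (ha : a ∈ I)
    (hb : b ∈ I) (ab : a ≠ b) (hc : Mean I c y) (hs : VV I c y = s ^ 2) (s1 : 3000000 ≤ s)
    (s2 : 4 * (K + 1 : ℝ) ≤ s) (ba : y b ≤ y a) (ba' : y' b ≤ y' a) (hy : Same I y y') :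
    y' a = y a ∧ y' b = y b := by
  wlog w : y' b ≤ y b generalizing y y'
  · have := this h' h (hc.of hy.1) (hy.vv.trans hs) ba' ba hy.symm (not_le.1 w).le
    exact ⟨this.1.symm, this.2.symm⟩
  obtain ⟨t1, -⟩ := h.top hI hK ha hb ab hc hs s1 s2 ba
  obtain ⟨t2, t3⟩ := h'.top hI hK ha hb ab (hc.of hy.1) (hy.vv.trans hs) s1 s2 ba'
  have e := le_antisymm (t1.2 y' hy a ha) (t2.2 y hy.symm a ha)
  refine ⟨e, w.eq_or_lt.resolve_right fun w' => ?_⟩
  have a1 := h y' hy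
  have a2 := h' y hy.symm
  obtain ⟨j, hj⟩ := even_pw hy
  rw [hI, e] at a1 a2
  push_cast at a1 a2
  have a4 : (K + 1 : ℤ) ∣ y b - y' b := ⟨j - (y b - y' b), by nlinarith⟩
  have a5 := Int.le_of_dvd (by omega) a4
  have hb' : b ∈ I.erase a := mem_erase.2 ⟨ab.symm, hb⟩
  obtain ⟨u, i, p1, p2⟩ := exists_top ⟨b, hb'⟩ y'
  obtain ⟨u', q1, q2, q3, -⟩ := swap1 hb' p2.1 u
  have b1 := p2.2 y (p1.symm.trans (hy.symm.erase ha e.symm)) b hb'
  have b2 := far (K := K) p2 (by rw [card_erase_of_mem ha]; omega) (by omega) p1.symm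
    fun i hi => by linarith [t3 i hi]
  have b3 := h' _ ((p1.trans q2).ext ha)
  rw [pw_ext ha, pw_er ha y', Function.update_self, Function.update_of_ne ab.symm, q1, q3, hI] at b3
  push_cast at b3
  nlinarith

end Pool.Agent.P.MP_094db5_co.Dn
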