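import Pool.Agent.P.MP_094db5_co.DG4
import Pool.Agent.P.MP_094db5_co.DC2

/-! The dense range for cliques. -/

set_option autoImplicit false

open Finset Classical

noncomputable section

namespace Pool.Agent.P.MP_094db5_co.Dn

/-- the part of the secular function that depends on the two special parts -/
def gP (μ : ℝ) (r p q : ℕ) (α γ β : ℝ) : ℝ :=
  (μ - β) ^ 2 / μ * (1 / (μ + p) + 1 / (μ + q)) - 2 + (r - 2) * β ^ 2 / μ - μ * β ^ 2 +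
    ph2 μ p α + ph2 μ q γ - 2 * α * γ + 2 * β * (α + γ)

variable {r M a₀ a b : ℕ} {δ ν μ : ℝ} {n n' n₀ x : ℕ → ℕ}

lemma PhP_one (μ0 : 0 < μ) (ha : a ∈ Icc 1 r) (hb : b ∈ Icc 1 r) (ab : a ≠ b)
    (hx : ∀ i ∈ Icc 1 r \ {a, b}, x i = 1) (α γ β : ℝ) : PhP r μ n a b x α γ β =
      r - (μ - β) ^ 2 / μ * sg μ (Icc 1 r) (zz n) + gP μ r (n a) (n b) α γ β := by
  have e : ((Icc 1 r \ {a, b}).card : ℝ) = r - 2 := by
    rw [eq_sub_iff_add_eq]; exact_mod_cast card_pair_sdiff ha hb ab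
  rw [PhP, gP, sg, split2 ha hb ab, sum_congr rfl
    (g := fun i => 1 - (μ - β) ^ 2 / μ * (1 / (μ + zz n i))) fun i hi => by
      rw [ph1_eq μ0, hx i hi, zz]
      push_cast
      have : (0 : ℝ) < μ + n i := by positivity
      field_simp,
    sum_congr rfl (f := fun i => (x i : ℝ)) (g := fun _ => 1) fun i hi => by simp [hx i hi],
    sum_sub_distrib, ← mul_sum]
  simp only [sum_const, nsmul_eq_mul, e, zz, Int.cast_natCast]
  ring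

lemma gP_diff (μ1 : 1 < μ) (p q p' q' : ℕ) (u v β : ℝ) :
    gP μ r p' q' (1 / (μ + p') + u) (1 / (μ + q') + v) β -
      gP μ r p q (1 / (μ + p) + u) (1 / (μ + q) + v) β =
    (p' - p) * (2 * (1 / (μ + p)) * (1 / (μ + p')) * (1 / (μ + q')) -
      (β ^ 2 / μ - 2 * v) * (1 / (μ + p)) * (1 / (μ + p')) +
      μ * u ^ 2 * (1 / (μ + p - 1)) * (1 / (μ + p' - 1))) +
    (q' - q) * (2 * (1 / (μ + q)) * (1 / (μ + q')) * (1 / (μ + p)) -
      (β ^ 2 / μ - 2 * u) * (1 / (μ + q)) * (1 / (μ + q')) +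
      μ * v ^ 2 * (1 / (μ + q - 1)) * (1 / (μ + q' - 1))) := by
  have k1 : ∀ (p : ℕ) (u : ℝ), ph2 μ p (1 / (μ + p) + u) =
      1 - μ * (1 / (μ + p)) - μ * (1 + 1 / (μ + p - 1)) * u ^ 2 := fun p u => by
    have : (0 : ℝ) < μ + p - 1 := by linarith [p.cast_nonneg (α := ℝ)]
    have : (0 : ℝ) < μ + p := by linarith
    rw [ph2, add_sub_cancel_left]
    field_simp
    ring
  have k2 : ∀ (p p' : ℕ) (t : ℝ), t ≤ 1 → 1 / (μ + p' - t) - 1 / (μ + p - t) =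
      -(p' - p) * (1 / (μ + p - t)) * (1 / (μ + p' - t)) := fun p p' t ht => by
    have : (0 : ℝ) < μ + p - t := by linarith [p.cast_nonneg (α := ℝ)]
    have : (0 : ℝ) < μ + p' - t := by linarith [p'.cast_nonneg (α := ℝ)]
    field_simp
    ring
  have a1 := k2 p p' 0 zero_le_one
  have a2 := k2 q q' 0 zero_le_one
  have a3 := k2 p p' 1 le_rfl
  have a4 := k2 q q' 1 le_rfl
  have a5 : (μ - β) ^ 2 / μ = μ - 2 * β + β ^ 2 / μ := by field_simp; ring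
  simp only [sub_zero] at a1 a2
  rw [gP, gP, k1, k1, k1, k1, a5]
  linear_combination (β ^ 2 / μ - 2 * v - 2 * (1 / (μ + q'))) * a1 +
    (β ^ 2 / μ - 2 * u - 2 * (1 / (μ + p))) * a2 - μ * u ^ 2 * a3 - μ * v ^ 2 * a4

lemma brk (h : Rg r δ ν μ) {p p' q : ℕ} (hp : Cl δ ν p) (hp' : Cl δ ν p') (hq : Cl δ ν q) {u v β : ℝ}
    (hu : |u| * μ ^ 2 ≤ 2) (hv : |v| * μ ^ 2 ≤ 2) (b0 : 0 ≤ β) (b1 : β ≤ 1 / (μ - 2)) :
    |(2 * (1 / (μ + p)) * (1 / (μ + p')) * (1 / (μ + q)) -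
      (β ^ 2 / μ - 2 * v) * (1 / (μ + p)) * (1 / (μ + p')) +
      μ * u ^ 2 * (1 / (μ + p - 1)) * (1 / (μ + p' - 1))) * (μ + ν) ^ 3 - 2| ≤ 20 * δ := by
  have μ0 := h.μ0
  have μ5 := h.μ5
  have L0 := h.L0
  have L3 := h.L3
  have δ0 := h.δ0
  have δ3 := h.δ3
  have dμ : 59 ≤ δ * μ := by linarith [mul_le_mul_of_nonneg_left h.μ3 δ0.le, h.big, h.R3]
  obtain ⟨x1, x2⟩ := abs_le.1 (h.pL hp)
  obtain ⟨y1, y2⟩ := abs_le.1 (h.pL hp')
  obtain ⟨z1, z2⟩ := abs_le.1 (h.pL hq)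
  have k : ∀ p : ℕ, 0 ≤ 1 / (μ + p - 1) * (μ + ν) ∧ 1 / (μ + p - 1) * (μ + ν) ≤ 2 := fun p => by
    have : (0 : ℝ) < μ + p - 1 := by linarith [p.cast_nonneg (α := ℝ)]
    exact ⟨by positivity, by
      rw [one_div, inv_mul_le_iff₀ this]; linarith [p.cast_nonneg (α := ℝ)]⟩
  obtain ⟨s1, s2⟩ := k p
  obtain ⟨t1, t2⟩ := k p'
  have b2 := h.inv1 b1
  have c1 : |(β ^ 2 / μ - 2 * v) * (μ + ν)| ≤ δ := by
    have d1 : β ^ 2 / μ * μ ^ 2 ≤ 1 := by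
      rw [show β ^ 2 / μ * μ ^ 2 = β * μ * β by field_simp]
      nlinarith [mul_le_mul_of_nonneg_right b2 b0]
    have d2 : |β ^ 2 / μ - 2 * v| * μ ^ 2 ≤ 5 := by
      have := mul_le_mul_of_nonneg_right (abs_sub (β ^ 2 / μ) (2 * v)) (sq_nonneg μ)
      rw [abs_of_nonneg (show 0 ≤ β ^ 2 / μ by positivity), abs_mul, abs_two] at this
      linarith
    rw [abs_mul, abs_of_pos L0]
    refine le_of_mul_le_mul_right ?_ μ0
    nlinarith [mul_le_mul_of_nonneg_left L3 (mul_nonneg (abs_nonneg (β ^ 2 / μ - 2 * v)) μ0.le)]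
  have c2 : μ * u ^ 2 * (μ + ν) ≤ δ := by
    have d1 : (|u| * μ ^ 2) ^ 2 ≤ 2 ^ 2 := pow_le_pow_left₀ (by positivity) hu 2
    rw [mul_pow, sq_abs] at d1
    refine le_of_mul_le_mul_right ?_ (pow_pos μ0 2)
    nlinarith [mul_le_mul_of_nonneg_left L3 (show 0 ≤ u ^ 2 * μ ^ 3 by positivity),
      mul_le_mul_of_nonneg_right dμ μ0.le]
  rw [show (2 * (1 / (μ + p)) * (1 / (μ + p')) * (1 / (μ + q)) -
      (β ^ 2 / μ - 2 * v) * (1 / (μ + p)) * (1 / (μ + p')) +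
      μ * u ^ 2 * (1 / (μ + p - 1)) * (1 / (μ + p' - 1))) * (μ + ν) ^ 3 =
    2 * ((1 / (μ + p) * (μ + ν)) * (1 / (μ + p') * (μ + ν)) * (1 / (μ + q) * (μ + ν))) -
      (β ^ 2 / μ - 2 * v) * (μ + ν) * ((1 / (μ + p) * (μ + ν)) * (1 / (μ + p') * (μ + ν))) +
      μ * u ^ 2 * (μ + ν) * ((1 / (μ + p - 1) * (μ + ν)) * (1 / (μ + p' - 1) * (μ + ν))) by ring]
  have c3 : 0 ≤ μ * u ^ 2 * (μ + ν) := by positivity
  generalize 1 / (μ + p) * (μ + ν) = X at *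
  generalize 1 / (μ + p') * (μ + ν) = Y at *
  generalize 1 / (μ + q) * (μ + ν) = Z at *
  generalize 1 / (μ + p - 1) * (μ + ν) = S at *
  generalize 1 / (μ + p' - 1) * (μ + ν) = T at *
  generalize (β ^ 2 / μ - 2 * v) * (μ + ν) = A at *
  generalize μ * u ^ 2 * (μ + ν) = B at *
  have d2 : δ ^ 2 ≤ δ / 9000 := by nlinarith only [δ0, δ3]
  have e1 : 1 - 2 * δ ≤ X * Y := by
    nlinarith only [mul_le_mul (show 1 - δ ≤ X by linarith) (show 1 - δ ≤ Y by linarith) (by linarith)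
      (by linarith), sq_nonneg δ]
  have e2 : X * Y ≤ 1 + 3 * δ := by
    nlinarith only [mul_le_mul (show X ≤ 1 + δ by linarith) (show Y ≤ 1 + δ by linarith) (by linarith)
      (by linarith), d2, δ0]
  have e3 : 1 - 3 * δ ≤ X * Y * Z := by
    nlinarith only [mul_le_mul e1 (show 1 - δ ≤ Z by linarith) (by linarith) (by linarith), sq_nonneg δ]
  have e4 : X * Y * Z ≤ 1 + 5 * δ := by
    nlinarith only [mul_le_mul e2 (show Z ≤ 1 + δ by linarith) (by linarith) (by linarith), d2, δ0]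
  have e5 : |A * (X * Y)| ≤ δ * 2 := by
    rw [abs_mul, abs_of_nonneg (show 0 ≤ X * Y by linarith)]
    exact mul_le_mul c1 (by linarith) (by linarith) δ0.le
  have e6 : B * (S * T) ≤ δ * (2 * 2) :=
    mul_le_mul c2 (mul_le_mul s2 t2 t1 (by norm_num)) (by positivity) δ0.le
  have e7 : 0 ≤ B * (S * T) := by positivity
  obtain ⟨e8, e9⟩ := abs_le.1 e5
  exact abs_le.2 ⟨by linarith, by linarith⟩

lemma hp_nat {E α γ β : ℝ} (o : OptP r δ ν μ E n a b x α γ β) (hx : ∀ i ∈ Icc 1 r \ {a, b}, x i = 1)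
    {a' b' : ℕ} (ha : a' ∈ Icc 1 r) (hb : b' ∈ Icc 1 r) (ab : a' ≠ b')
    (cl : ∀ i ∈ Icc 1 r, Cl δ ν (n' i)) (e : eK2 r n' = eK2 r n) :
    (μ - β) ^ 2 / μ * (μ + ν) ^ 3 * (sg μ (Icc 1 r) (zz n) - sg μ (Icc 1 r) (zz n')) +
      2 * (((n' a' : ℝ) - n a) + (n' b' - n b)) ≤ 20 * δ * (|(n' a' : ℝ) - n a| + |(n' b' : ℝ) - n b|) := by
  have rg := o.rg
  have μ0 := rg.μ0
  have two := rg.two_le cl
  have a1 := (o.or n' a' b' (fun _ => 1) two ha hb ab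
    (fun i hi => ⟨le_rfl, one_le_two.trans (two i (mem_J.1 hi).1)⟩) (by
      rw [e, ← o.ed, sum_congr rfl (f := fun i => (x i : ℝ)) (g := fun _ => ((1 : ℕ) : ℝ))
        fun i hi => by rw [hx i hi], sum_const, sum_const, show (Icc 1 r \ {a', b'}).card =
          (Icc 1 r \ {a, b}).card by
        have := card_pair_sdiff ha hb ab
        have := card_pair_sdiff o.ha o.hb o.ab
        omega]) (1 / (μ + n' a') + (α - 1 / (μ + n a))) (1 / (μ + n' b') + (γ - 1 / (μ + n b))) β).trans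
    o.up
  have a2 := gP_diff (r := r) (show 1 < μ by linarith [rg.μ5]) (n a) (n b) (n' a') (n' b')
    (α - 1 / (μ + n a)) (γ - 1 / (μ + n b)) β
  have a3 := brk rg (o.cl a o.ha) (cl a' ha) (cl b' hb) o.dev o.symm.dev o.b0 o.b1
  have a4 := brk rg (o.cl b o.hb) (cl b' hb) (o.cl a o.ha) o.symm.dev o.dev o.b0 o.b1
  rw [PhP_one μ0 ha hb ab fun _ _ => rfl, PhP_one μ0 o.ha o.hb o.ab hx] at a1
  rw [add_sub_cancel, add_sub_cancel] at a2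
  have k : ∀ {d B : ℝ}, |B * (μ + ν) ^ 3 - 2| ≤ 20 * δ → 2 * d - 20 * δ * |d| ≤ d * B * (μ + ν) ^ 3 :=
    fun {d B} h => by
      have := neg_abs_le (d * (B * (μ + ν) ^ 3 - 2))
      rw [abs_mul] at this
      linarith [mul_le_mul_of_nonneg_left h (abs_nonneg d)]
  have a5 := k (d := n' a' - n a) a3
  have a6 := k (d := n' b' - n b) a4
  have a7 := mul_le_mul_of_nonneg_right a1 (pow_pos rg.L0 3).le
  linarith [congrArg (· * (μ + ν) ^ 3) a2]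

lemma coefW (h : Rg r δ ν μ) {β : ℝ} (b0 : 0 ≤ β) (b1 : β ≤ 1 / (μ - 2)) :
    |r * ((μ - β) ^ 2 / μ * (μ + ν) ^ 3) - (r - 1) * (μ + ν) ^ 4| ≤ δ * ((r - 1) * (μ + ν) ^ 4) := by
  have μ0 := h.μ0
  have R3 := h.R3
  have b2 := h.inv1 b1
  have a1 : r * β ≤ 1 := by nlinarith [mul_le_mul_of_nonneg_left h.μ4 b0]
  have a2 : β ^ 2 / μ ≤ β := by
    rw [div_le_iff₀ μ0]; nlinarith [mul_le_mul_of_nonneg_left h.μ5 b0]
  have a3 : 0 ≤ β ^ 2 / μ := by positivity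
  rw [show r * ((μ - β) ^ 2 / μ * (μ + ν) ^ 3) - (r - 1) * (μ + ν) ^ 4 =
    (μ - (r - 1) * ν - 2 * (r * β) + r * (β ^ 2 / μ)) * (μ + ν) ^ 3 by field_simp; ring, abs_mul,
    abs_of_pos (pow_pos h.L0 3), show δ * ((r - 1) * (μ + ν) ^ 4) =
      (r - 1) * (δ * (μ + ν)) * (μ + ν) ^ 3 by ring]
  refine mul_le_mul_of_nonneg_right ?_ (pow_pos h.L0 3).le
  have a4 := mul_le_mul_of_nonneg_left a2 (show (0 : ℝ) ≤ r by linarith)
  have a5 := mul_le_mul_of_nonneg_right R3 (mul_pos h.δ0 h.L0).le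
  have a6 := mul_pos h.δ0 μ0
  have a7 : 0 ≤ r * (β ^ 2 / μ) := by positivity
  have a8 : 0 ≤ r * β := by positivity
  exact abs_le.2 ⟨by linarith [h.μ1, h.big], by linarith [h.μ2, h.big]⟩

lemma VV_mono {I J : Finset ℕ} (h : J ⊆ I) (c : ℝ) (y : ℕ → ℤ) : VV J c y ≤ VV I c y :=
  sum_le_sum_of_subset_of_nonneg h fun _ _ _ => sq_nonneg _

lemma lexR_nat {I : Finset ℕ} {c : ℝ} (c0 : 0 ≤ c) (hv : VV I c (zz n) ≤ c ^ 2) :
    (∀ z, Same I (zz n) z → LexR I (zz n) z) ↔ LexMax I n := by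
  refine ⟨fun p n' j hj q => ?_, fun p z hz => ?_⟩
  · have := lexR_iff.1 (p _ (same_of_kc hj q)) j hj fun i hi => by rw [es_zz, es_zz, q i hi]
    rw [es_zz, es_zz] at this
    exact_mod_cast this
  · obtain ⟨n', p2⟩ := exists_nat c0 (hz.vv.le.trans hv)
    refine lexR_iff.2 fun j hj q => ?_
    rw [← es_congr p2, es_zz, es_zz]
    exact_mod_cast p n' j hj fun i hi => by
      have := q i hi
      rw [← es_congr p2, es_zz, es_zz] at this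
      exact_mod_cast this

lemma fm_nat {c : ℝ} (c0 : 0 ≤ c) (hv : VV (Icc 1 r) c (zz n) ≤ c ^ 2) (ha : a ∈ Icc 1 r)
    (hb : b ∈ Icc 1 r) : FM (Icc 1 r) a b (zz n) ↔ PairMax r n a b := by
  obtain ⟨k, rfl⟩ : ∃ k, r = k + 1 := ⟨r - 1, by have := mem_Icc.1 ha; omega⟩
  have key : ∀ n', Same (Icc 1 (k + 1)) (zz n) (zz n') → pw (Icc 1 (k + 1)) (zz n') 3 -
      pw (Icc 1 (k + 1)) (zz n) 3 = 3 * (kc (Icc 1 (k + 1)) n' 3 - kc (Icc 1 (k + 1)) n 3) :=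
    fun n' h => by
      rw [newton_diff (by norm_num) (es_of_pw 3 h.pw) h.pw, es_zz, es_zz]; norm_num
  simp only [FM, PairMax, Nat.card_Icc, add_tsub_cancel_right]
  refine ⟨fun p n' q => ?_, fun p z hz => ?_⟩
  · have a1 := p _ (same_of_kc le_rfl q)
    have a2 := key _ (same_of_kc le_rfl q)
    unfold zz at a1
    zify
    push_cast at a1
    unfold zz at a2
    nlinarith only [a1, congrArg (fun t => (k : ℤ) * t) a2]
  · obtain ⟨n', p2⟩ := exists_nat c0 (hz.vv.le.trans hv)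
    have s := hz.congr (fun _ _ => rfl) p2
    have a1 := p n' s.kc
    have a2 := key _ s
    rw [← p2 a ha, ← p2 b hb,
      show pw _ z 3 = pw _ (zz n') 3 from sum_congr rfl fun i hi => by rw [p2 i hi]]
    zify at a1
    push_cast
    unfold zz at a2 ⊢
    nlinarith only [a1, congrArg (fun t => (k : ℤ) * t) a2]

theorem optP (r11 : 11 ≤ r) : ∃ K L₀ D₀ : ℝ, ∀ {M a₀ a b : ℕ} {δ ν μ E α γ β : ℝ} {n n₀ x : ℕ → ℕ},
    Cx r M δ ν μ n₀ a₀ → K * δ ≤ 1 → L₀ ≤ ν → Same (Icc 1 r) (zz n₀) (zz n) →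
    OptP r δ ν μ E n a b x α γ β → (∀ i ∈ Icc 1 r \ {a, b}, x i = 1) →
    (PairMax r n a b ∧ LexMax (Icc 1 r \ {a, b}) n) ∧ (D₀ ≤ WW r ν n₀ →
      ∀ (n' x' : ℕ → ℕ) (a' b' : ℕ), a' ∈ Icc 1 r → b' ∈ Icc 1 r → a' ≠ b' →
        (∀ i ∈ Icc 1 r \ {a', b'}, x' i = 1) → Same (Icc 1 r) (zz n₀) (zz n') →
        PairMax r n' a' b' → LexMax (Icc 1 r \ {a', b'}) n' →
        ∃ α' γ', 1 ≤ PhP r μ n' a' b' x' α' γ' β) := by
  obtain ⟨K, rfl⟩ : ∃ K, r = K + 2 := ⟨r - 2, by omega⟩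
  obtain ⟨m, m1, m2⟩ : ∃ m : ℝ, 3000000 ≤ m ∧ 4 * (K + 1 : ℝ) ≤ m :=
    ⟨3000000 + 4 * (K + 1), by linarith [K.cast_nonneg (α := ℝ)], by linarith⟩
  obtain ⟨L₀, hL⟩ := pair_opt (K := K) (by omega) m1 m2
  refine ⟨200 * (K + 2) * m ^ 4, L₀, m ^ 2, fun {M a₀ a b δ ν μ E α γ β n n₀ x} cx hK L s o hx => ?_⟩
  have rg := cx.rg
  have ν0 := rg.ν0
  have ν1 := rg.ν1
  have R := cx.R
  have vv : ∀ {n'} {J}, J ⊆ Icc 1 (K + 2) → Same (Icc 1 (K + 2)) (zz n₀) (zz n') →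
      VV J ν (zz n') ≤ ν ^ 2 := fun {n' J} hJ h => (VV_mono hJ _ _).trans (by
    rw [VV_zz]; nlinarith only [cx.Wsame h, ν1, R])
  wlog ba : n b ≤ n a generalizing a b α γ
  · obtain ⟨⟨p1, p2⟩, p3⟩ := this o.symm (pair_comm a b ▸ hx) (not_le.1 ba).le
    exact ⟨⟨(fm_nat ν0.le (vv subset_rfl s) o.ha o.hb).1
      ((fm_nat ν0.le (vv subset_rfl s) o.hb o.ha).2 p1).symm, pair_comm a b ▸ p2⟩, p3⟩
  obtain ⟨t, t0, ts⟩ := exists_s (Icc 1 (K + 2)) ν (zz n₀)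
  have t1 : t ^ 2 ≤ 4 * ν := by rw [← ts, VV_zz]; exact cx.W0
  have t2 : t ≤ δ * ν := (abs_le_of_sq_le_sq' (by
    nlinarith only [t1, cx.sq4, mul_le_mul_of_nonneg_right R ν0.le, ν0, sq_nonneg (δ * ν)])
    (mul_pos rg.δ0 ν0).le).2
  have dμ := mul_pos rg.δ0 rg.μ0
  have key : ∀ {a' b' : ℕ} {y : ℕ → ℤ}, a' ∈ Icc 1 (K + 2) → b' ∈ Icc 1 (K + 2) → a' ≠ b' →
      Same (Icc 1 (K + 2)) (zz n) y → y a' = n a → y b' = n b →
      sg μ (Icc 1 (K + 2)) y = sg μ (Icc 1 (K + 2)) (zz n) → _ := fun {a' b' y} ha hb ab q e1 e2 e3 =>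
    hL (μ := μ) (W := (μ - β) ^ 2 / μ * (μ + ν) ^ 3) (by simp) ha hb ab (cx.mean.of (s.trans q).1) t0
      ((s.trans q).vv.trans ts) (by linarith) (by linarith [cx.L10]) (by linarith [rg.big]) rg.δ0 hK
      (by linarith [rg.μ0]) (by simpa using coefW rg o.b0 o.b1) (by rw [e1, e2]; exact_mod_cast ba)
      fun z hz => by
        have q' := s.trans (q.trans hz)
        obtain ⟨n', p⟩ := exists_nat ν0.le (q'.vv.le.trans (vv subset_rfl (Same.rfl' _ _)))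
        have q2 := q'.congr (fun _ _ => rfl) p
        have := hp_nat o hx ha hb ab (cx.cl' ((cx.Wsame q2).trans (by
          linarith [mul_le_mul_of_nonneg_right R ν0.le]))) (same_iff.1 (s.symm.trans q2)).2
        rw [e1, e2, e3, ← p a' ha, ← p b' hb,
          show sg μ _ z = sg μ _ (zz n') from sum_congr rfl fun i hi => by rw [p i hi]]
        simpa only [zz, Int.cast_natCast] using this
  obtain ⟨p1, p2, -⟩ := key o.ha o.hb o.ab (Same.rfl' _ _) rfl rfl rfl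
  refine ⟨⟨(fm_nat ν0.le (vv subset_rfl s) o.ha o.hb).1 p1,
    (lexR_nat ν0.le (vv sdiff_subset s)).1 (erase_eq ▸ p2)⟩, fun hD n' x' a' b' ha hb ab hx' s' f l => ?_⟩
  rw [← fm_nat ν0.le (vv subset_rfl s') ha hb] at f
  wlog ba' : n' b' ≤ n' a' generalizing a' b'
  · obtain ⟨α', γ', p⟩ := this b' a' hb ha ab.symm (pair_comm a' b' ▸ hx') f.symm (pair_comm a' b' ▸ l)
      (not_le.1 ba').le
    exact ⟨γ', α', PhP_symm _ μ n' b' a' x' α' γ' β ▸ p⟩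
  obtain ⟨y, y1, y2, y3, -, y5⟩ := swap2 ha hb ab o.ha o.hb o.ab (zz n)
  obtain ⟨q1, -, q3⟩ := key ha hb ab y3 y1 y2 (y5 μ)
  have sy := (s.trans y3).symm.trans s'
  have mt : m ≤ t := (abs_le_of_sq_le_sq' (by rwa [← ts, VV_zz]) t0).2
  obtain ⟨u1, u2⟩ := pair_uniq (K := K) q1 f (by simp) (by omega) ha hb ab (cx.mean.of (s.trans y3).1)
    ((s.trans y3).vv.trans ts) (by linarith) (by linarith) (by rw [y1, y2]; exact Int.ofNat_le.2 ba)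
    (Int.ofNat_le.2 ba') sy
  have hb' : b' ∈ (Icc 1 (K + 2)).erase a' := mem_erase.2 ⟨ab.symm, hb⟩
  have u3 := q3 _ ((sy.erase ha u1).erase hb' u2)
    (erase_eq ▸ (lexR_nat ν0.le (vv sdiff_subset s')).2 l)
  have u4 : sg μ (Icc 1 (K + 2)) (zz n') ≤ sg μ (Icc 1 (K + 2)) (zz n) := by
    rw [← y5, sg_er ha, sg_er hb', sg_er ha μ y, sg_er hb' μ y, u1, u2]
    linarith
  have u5 : n' a' = n a := Int.ofNat_inj.1 (u1.trans y1)
  have u6 : n' b' = n b := Int.ofNat_inj.1 (u2.trans y2)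
  refine ⟨α, γ, o.up.trans ?_⟩
  rw [PhP_one rg.μ0 ha hb ab hx', PhP_one rg.μ0 o.ha o.hb o.ab hx, u5, u6]
  linarith [mul_le_mul_of_nonneg_left u4 (div_nonneg (sq_nonneg (μ - β)) rg.μ0.le)]

end Pool.Agent.P.MP_094db5_co.Dn
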