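import Pool.Agent.P.MP_094db5_co.TDefs

set_option autoImplicit false

namespace Pool.Agent.P.MP_094db5_co

open Finset

/-- The number of `j`-cliques of the complete multipartite graph with part sizes `n i`, `i ∈ I`. -/
def kc (I : Finset ℕ) (n : ℕ → ℕ) (j : ℕ) : ℕ := ∑ S ∈ powersetCard j I, ∏ i ∈ S, n i

/-- Among the part sizes on `I` with the same number of vertices and edges, `n` has the most
triangles, subject to this the most `4`-cliques, and so on. -/
def LexMax (I : Finset ℕ) (n : ℕ → ℕ) : Prop :=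
  ∀ (n' : ℕ → ℕ) (j : ℕ), 3 ≤ j → (∀ i < j, kc I n' i = kc I n i) → kc I n' j ≤ kc I n j

/-- Among the part sizes with the same number of vertices and edges, `n` maximises
`3 (r - 1) (number of triangles) + 2 r (n a + n b)`. -/
def PairMax (r : ℕ) (n : ℕ → ℕ) (a b : ℕ) : Prop :=
  ∀ n' : ℕ → ℕ, (∀ i < 3, kc (Icc 1 r) n' i = kc (Icc 1 r) n i) →
    3 * (r - 1) * kc (Icc 1 r) n' 3 + 2 * r * (n' a + n' b) ≤
      3 * (r - 1) * kc (Icc 1 r) n 3 + 2 * r * (n a + n b)

/-- Dense type for `K_r ∨ (t+1) K_1`: the parts have `N` vertices in total and a new vertex `w` is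
joined to one vertex of each part; for `t = 0` one edge between two neighbours of `w` is
deleted. -/
def DenseB {V : Type} (r t N : ℕ) (G : SimpleGraph V) (c : V → ℕ) : Prop :=
  ∃ (w : V) (X : Set V), c w = 0 ∧ Tr c (Icc 1 r) X ∧ ∑ i ∈ Icc 1 r, sz c i = N ∧
    if t = 0 then ∃ z ∈ X, ∃ b ∈ X, z ≠ b ∧ Mp G r c (spokes w X) {s(z, b)} ∧
      PairMax r (sz c) (c z) (c b) ∧ LexMax (Icc 1 r \ {c z, c b}) (sz c)
    else Mp G r c (spokes w X) ∅ ∧ LexMax (Icc 1 r) (sz c)

/-- Small type for `K_r ∨ (t+1) K_1`: a new vertex `w` is joined to between one and `t` vertices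
of each part, and a second new vertex `z` to at most `r` vertices. -/
def SmallB {V : Type} (r t : ℕ) (G : SimpleGraph V) (c : V → ℕ) : Prop :=
  ∃ (w z : V) (X D : Set V), c w = 0 ∧ c z = 0 ∧ (∀ v ∈ X, c v ≠ 0) ∧ (∀ v ∈ D, c v ≠ 0) ∧
    (∀ i ∈ Icc 1 r, 1 ≤ pc c X i ∧ pc c X i ≤ t) ∧ D.ncard ≤ r ∧ ¬ X ⊆ D ∧
    (D.Nonempty → z ≠ w ∧ ∀ i ∈ Icc 1 r, pc c X i = t) ∧ Mp G r c (spokes w X ∪ spokes z D) ∅

/-- The number of edges of the Turan graph with `r` parts on `N` vertices. -/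
noncomputable def tn (r N : ℕ) : ℕ := (SimpleGraph.turanGraph N r).edgeSet.ncard

/-- The candidates with `m` edges. -/
def CandB {V : Type} (r t N m : ℕ) (G : SimpleGraph V) : Prop :=
  G.edgeSet.ncard = m ∧ ∃ c, (∑ i ∈ Icc 1 r, sz c i = N ∧ tn r N ≤ kc (Icc 1 r) (sz c) 2 + 1 ∧
    (StarB r t G c ∨ PairB r G c ∨ SmallB r t G c)) ∨ DenseB r t (N + 1) G c

/-- The function whose sign decides between the Turan core and the dense type. -/
noncomputable def psi (r N k : ℕ) : ℝ := k - (r - 1) * (r - 2) * N / r ^ 2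

/-- The windows in which several candidates have to be compared. -/
def Win (r t N k N₀ : ℕ) : Prop :=
  k ≤ r * t + 2 * r ∨ N * |phi r N k| < 1600 * r ^ 3 ∨ |psi r N k| < 1600 * r ^ 2 * √N ∨
    (t = 0 ∧ tn r (N + 1) < tn r N + k + N₀)

end Pool.Agent.P.MP_094db5_co
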