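import Pool.Agent.P.MP_094db5_co.XT
import Pool.Agent.P.MP_094db5_co.DB4

/-! A priori bounds and normal forms in the dense range. -/

set_option autoImplicit false

open Finset Classical

noncomputable section

namespace Pool.Agent.P.MP_094db5_co.Dn

variable {V : Type} [Fintype V]

theorem near2 {r N : ℕ} (hr : 3 ≤ r) {η ν : ℝ} {G : SimpleGraph V} (h : Apr r η G)
    (η0 : 0 < η) (η1 : 100 * η ≤ 1) (hN : ν = N / r) (hν : 2 ≤ η * ν)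
    (lo : tu2 r N - 2 * (r * ν) ≤ 2 * (ec G : ℝ)) (hi : 2 * (ec G : ℝ) ≤ tu2 r N + 2 * (r * ν)) :
    (1 - 5 * η) * ((r - 1) * ν) ≤ lam G ∧ lam G ≤ (1 + 3 * η) * ((r - 1) * ν) ∧
      r * (r - 1) * ((1 - η) * ν) ^ 2 ≤ 2 * ec G := by
  have R3 : (3 : ℝ) ≤ r := by exact_mod_cast hr
  have ν1 : 3 ≤ ν := by
    by_contra hn
    nlinarith only [η0, η1, hν, hn]
  have l0 : 0 < lam G := by
    by_contra hn
    nlinarith only [h.big, η0, η1, hn]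
  obtain ⟨t1, t2⟩ := tu2_bounds (by omega) hN (by linarith)
  have r1 : (0 : ℝ) < r - 1 := by linarith
  obtain ⟨s, hs⟩ : ∃ s, lam G = (r - 1) * s := ⟨lam G / (r - 1), (mul_div_cancel₀ _ r1.ne').symm⟩
  have a1 := h.lo
  have a2 := h.hi
  have a3 := h.big
  have c0 : (0 : ℝ) < r * (r - 1) := by positivity
  rw [hs, mul_div_cancel_left₀ _ r1.ne'] at a1 a2
  rw [hs] at a3 l0 ⊢
  have s0 : 0 < s := (pos_iff_pos_of_mul_pos l0).1 r1
  have b1 : (ν + 1) ^ 2 ≤ ((1 + η) * ν) ^ 2 := pow_le_pow_left₀ (by linarith) (by linarith) 2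
  have b2 : ((1 - η) * ν) ^ 2 ≤ (ν - 2) ^ 2 :=
    pow_le_pow_left₀ (mul_nonneg (by linarith) (by linarith)) (by linarith) 2
  have b7 : r * (r - 1) * (ν - 2) ^ 2 ≤ 2 * (ec G : ℝ) := by
    have e1 := mul_le_mul_of_nonneg_left (show (ν - 2) ^ 2 + ν ≤ (ν - 1) ^ 2 by linarith) c0.le
    linarith only [e1, t1, lo, mul_nonneg (mul_nonneg (show (0 : ℝ) ≤ r by linarith)
      (show (0 : ℝ) ≤ r - 3 by linarith)) (show 0 ≤ ν by linarith)]
  have b3 : 2 * (r * ν) ≤ r * (r - 1) * (η * ν ^ 2) := by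
    have e1 : ν ≤ η * ν ^ 2 := by linarith [mul_le_mul_of_nonneg_right hν (show 0 ≤ ν by linarith)]
    linarith only [mul_le_mul_of_nonneg_left e1 c0.le, mul_nonneg (mul_nonneg (show (0 : ℝ) ≤ r by linarith)
      (show (0 : ℝ) ≤ r - 3 by linarith)) (show 0 ≤ ν by linarith), η0, η1, R3, ν1, c0, e1]
  have b4 : (r - 1) * s ≤ r * (r - 1) * (η * s ^ 2) := by
    linarith [mul_le_mul_of_nonneg_left a3 l0.le, mul_pos r1 (mul_pos η0 (pow_pos s0 2))]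
  have b5 := mul_le_mul_of_nonneg_left b1 c0.le
  have b6 := mul_le_mul_of_nonneg_left b2 c0.le
  have d1 : s ^ 2 * (1 - 2 * η - η ^ 2) ≤ ν ^ 2 * (1 + 3 * η + η ^ 2) := by
    refine le_of_mul_le_mul_left ?_ c0
    linarith [mul_le_mul_of_nonneg_left b4 η0.le]
  have d2 : ν ^ 2 * (1 - η) ^ 2 ≤ s ^ 2 * (1 + 6 * η + η ^ 2) := by
    refine le_of_mul_le_mul_left ?_ c0
    linarith only [mul_le_mul_of_nonneg_right (show η ≤ 1 by linarith) l0.le, η0, η1, b7, l0, a2, b4, b6]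
  have η2 : η ^ 2 ≤ η / 100 := by nlinarith only [η0, η1]
  refine ⟨?_, ?_, by linarith⟩
  · rw [mul_left_comm]
    refine mul_le_mul_of_nonneg_left (le_sqrt_aux s0.le ?_) r1.le
    refine le_of_mul_le_mul_right ?_ (show 0 < 1 + 6 * η + η ^ 2 by positivity)
    refine le_trans ?_ d2
    rw [mul_pow, mul_comm ((1 - 5 * η) ^ 2), mul_assoc]
    refine mul_le_mul_of_nonneg_left ?_ (sq_nonneg _)
    nlinarith only [mul_le_mul_of_nonneg_left η2 η0.le, mul_le_mul_of_nonneg_left η2 (sq_nonneg η), η0, η2]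
  · rw [mul_left_comm]
    refine mul_le_mul_of_nonneg_left (le_sqrt_aux (by positivity) ?_) r1.le
    refine le_of_mul_le_mul_right ?_ (show 0 < 1 - 2 * η - η ^ 2 by linarith)
    refine d1.trans ?_
    rw [mul_pow, mul_comm ((1 + 3 * η) ^ 2), mul_assoc]
    refine mul_le_mul_of_nonneg_left ?_ (sq_nonneg _)
    nlinarith only [mul_le_mul_of_nonneg_left η2 η0.le, mul_le_mul_of_nonneg_left η2 (sq_nonneg η), η0, η2]

/-- the coarse context of an extremal graph -/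
structure Ex2 (r N : ℕ) (δ ν : ℝ) (G : SimpleGraph V) : Prop where
  r3 : 3 ≤ r
  hN : ν = N / r
  δ0 : 0 < δ
  δ1 : 1000 * (r : ℝ) ^ 2 * δ ≤ 1
  apr : Apr r (δ / (30 * r ^ 2)) G
  big : 2 ≤ δ / (30 * r ^ 2) * ν
  lo : tu2 r N - 2 * (r * ν) ≤ 2 * (ec G : ℝ)
  hi : 2 * (ec G : ℝ) ≤ tu2 r N + 2 * (r * ν)

namespace Ex2

variable {r N : ℕ} {δ ν : ℝ} {G : SimpleGraph V} (h : Ex2 r N δ ν G)
include h

lemma R3 : (3 : ℝ) ≤ r := by exact_mod_cast h.r3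

lemma η0 : 0 < δ / (30 * r ^ 2) := by have := h.R3; have := h.δ0; positivity

lemma ηδ : 30 * r ^ 2 * (δ / (30 * r ^ 2)) = δ := by have := h.R3; field_simp

lemma η1 : 100 * (δ / (30 * r ^ 2)) ≤ 1 := by
  have a1 : (9 : ℝ) ≤ r ^ 2 := by nlinarith [h.R3]
  nlinarith [h.ηδ, mul_le_mul_of_nonneg_right a1 h.η0.le, mul_le_mul_of_nonneg_right a1 h.δ0.le, h.δ1]

lemma ν0 : 0 < ν := by
  by_contra hn
  nlinarith [h.big, h.η0]

lemma near : (1 - 5 * (δ / (30 * r ^ 2))) * ((r - 1) * ν) ≤ lam G ∧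
    lam G ≤ (1 + 3 * (δ / (30 * r ^ 2))) * ((r - 1) * ν) ∧
      r * (r - 1) * ((1 - δ / (30 * r ^ 2)) * ν) ^ 2 ≤ 2 * ec G := by
  exact near2 h.r3 h.apr h.η0 h.η1 h.hN h.big h.lo h.hi

lemma rg : Rg r δ ν (lam G) := by
  have a1 := h.near
  have a2 := h.ηδ
  have a3 := h.big
  have a4 := mul_pos h.η0 h.ν0
  have R3 := h.R3
  generalize δ / (30 * r ^ 2) = η at *
  have a5 : δ * ν = 30 * r ^ 2 * (η * ν) := by rw [← a2]; ring
  have a6 := mul_le_mul_of_nonneg_right (show 5 * (r - 1 : ℝ) ≤ 30 * r ^ 2 by nlinarith only [R3]) a4.le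
  refine ⟨h.r3, h.δ0, h.δ1, by nlinarith only [R3, a3, a5], abs_le.2 ⟨by linarith [a1.1], ?_⟩⟩
  linarith [a1.2.1, mul_pos (show (0 : ℝ) < r - 1 by linarith) a4]

lemma deg {c : V → ℕ} (hc : ∀ v, c v ≤ r) {H : SimpleGraph V} (h1 : Kc c \ H ≤ G) (h2 : ec H ≤ 2)
    (h3 : ∀ i ∈ Icc 1 r, 1 ≤ cn c i) : ∀ i ∈ Icc 1 r, ∑ j ∈ (Icc 1 r).erase i, (cn c j : ℝ) ≤
      (1 + 9 * (δ / (30 * r ^ 2))) * ((r - 1) * ν) := by
  intro i hi
  obtain ⟨v, hv⟩ := card_pos.1 (h3 i hi)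
  obtain rfl : c v = i := (mem_filter.1 hv).2
  have a1 : dg (Kc c) v ≤ dg G v + dg H v := by
    rw [dg, dg, dg, ← sum_add_distrib]
    refine sum_le_sum fun u _ => ?_
    have b1 := ad_nonneg G v u
    have b2 := ad_nonneg H v u
    by_cases a : (Kc c).Adj v u
    · by_cases b : H.Adj v u
      · linarith [ad_le_one (Kc c) v u, show ad H v u = 1 from if_pos b]
      · linarith [ad_le_one (Kc c) v u, show ad G v u = 1 from if_pos (h1 ⟨a, b⟩)]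
    · linarith [show ad (Kc c) v u = 0 from if_neg a]
  have a2 : dg H v ≤ 2 := by
    rw [dg, sum_ad, ← AHa_deg]
    exact_mod_cast (ec_mono (Sg_le fun u hu => by simpa using hu)).trans h2
  have a3 := h.apr.deg v
  have a4 := h.apr.big
  have a5 := h.near.2.1
  have a6 := h.η0
  have a7 := h.η1
  have a8 := mul_pos (show (0 : ℝ) < r - 1 by linarith [h.R3]) h.ν0
  rw [← dg_Kc hc (by have := mem_Icc.1 hi; omega)]
  generalize δ / (30 * r ^ 2) = η at *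
  have a9 := mul_le_mul_of_nonneg_left a5 (show 0 ≤ 1 + 5 * η by linarith)
  nlinarith only [mul_le_mul_of_nonneg_right a7 (mul_pos a6 a8).le, mul_pos a6 a8, a1, a2, a8, a3, a4, a6, a7, a9]

lemma cl {n : ℕ → ℕ} (h1 : ∀ i ∈ Icc 1 r, ∑ j ∈ (Icc 1 r).erase i, (n j : ℝ) ≤
      (1 + 9 * (δ / (30 * r ^ 2))) * ((r - 1) * ν))
    (h2 : 2 * (ec G : ℝ) ≤ eK2 r n + 6 * ((r - 1) * ν)) : ∀ i ∈ Icc 1 r, Cl δ ν (n i) := by
  have a1 := sizes h.r3 h.η0 h.η1 h.ν0 h1 (by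
    have a1 := h.near.2.2
    have a3 := h.big
    have a6 := h.η0
    have R3 := h.R3
    have a8 := mul_pos (show (0 : ℝ) < r - 1 by linarith) h.ν0
    generalize δ / (30 * r ^ 2) = η at *
    have b1 := mul_le_mul_of_nonneg_left a3 a8.le
    have b2 := mul_le_mul_of_nonneg_right R3 (mul_pos a8 (mul_pos a6 h.ν0)).le
    have b3 : 0 ≤ r * (r - 1) * (η * ν) ^ 2 := mul_nonneg (by nlinarith) (sq_nonneg _)
    linarith [mul_pos a8 (mul_pos a6 h.ν0)])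
  rwa [h.ηδ] at a1

lemma erase_le {n : ℕ → ℕ} (h1 : ∀ i ∈ Icc 1 r, ∑ j ∈ (Icc 1 r).erase i, (n j : ℝ) ≤
      (1 + 9 * (δ / (30 * r ^ 2))) * ((r - 1) * ν)) {i : ℕ} (hi : i ∈ Icc 1 r) :
    ∑ j ∈ (Icc 1 r).erase i, (n j : ℝ) ≤ 2 * ((r - 1) * ν) :=
  (h1 i hi).trans (mul_le_mul_of_nonneg_right (by linarith [h.η1])
    (mul_pos (show (0 : ℝ) < r - 1 by linarith [h.R3]) h.ν0).le)

lemma l2 : 2 < lam G := by linarith [h.rg.μ5]

lemma rν : 3 * (r : ℝ) ≤ (r - 1) * ν := by nlinarith [h.rg.ν1, h.R3]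

end Ex2

/-- third form -/
def FT (r t : ℕ) (G : SimpleGraph V) (c : V → ℕ) : Prop := ∃ (w z : V) (X D : Set V),
  c w = 0 ∧ c z = 0 ∧ (∀ v ∈ X, c v ≠ 0) ∧ (∀ v ∈ D, c v ≠ 0) ∧
  (∀ i ∈ Icc 1 r, 1 ≤ pc c X i ∧ pc c X i ≤ t) ∧ D.ncard ≤ r ∧ ¬ X ⊆ D ∧
  (D.Nonempty → z ≠ w ∧ ∀ i ∈ Icc 1 r, pc c X i = t) ∧ Mp G r c (spokes w X ∪ spokes z D) ∅

theorem form2 {G : SimpleGraph V} {r t bk g₀ : ℕ} {c : V → ℕ} (h : FamB r t G c)
    (hk : Kind r bk g₀ 0) (ht : bk = 0 ↔ t = 0) :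
    FS r bk g₀ 0 G ∨ FP r G ∨ (1 ≤ t ∧ ∃ c, FT r t G c) := by
  obtain ⟨w, z, X, D, h1, h2, h3, h4, h5⟩ := h
  rcases h5 with ⟨hM, hz, b, hb, rfl, p1, p2⟩ | ⟨hM, hz, p, q0, q1⟩ | ⟨hM, t1, hz, p, hD, nX, q⟩
  · have zb := (h3 b rfl).2
    refine Or.inr (Or.inl ⟨c, z, b, w, (X.toFinset.erase b).erase z, ⟨hM.1, h1, h2 z hz, h2 b hb,
      zb.symm, fun v hv => ?_⟩, fun i hi => ?_, ?_, fun i hi => (hM.one i hi).trans' one_le_two⟩)
    · simp only [mem_erase, Set.mem_toFinset] at hv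
      exact ⟨h2 v hv.2.2, fun e => hv.1 (AAdm_uniq p1 hz hv.2.2 e),
        fun e => hv.2.1 (AAdm_uniq p2 hb hv.2.2 e)⟩
    · obtain ⟨v, hv, e⟩ := AAdm_ex (h4 i (mem_J.1 hi).1)
      exact ct_pos.2 ⟨v, mem_erase.2 ⟨fun a => (mem_J.1 hi).2.1 (by rw [← a, e]),
        mem_erase.2 ⟨fun a => (mem_J.1 hi).2.2 (by rw [← a, e]), Set.mem_toFinset.2 hv⟩⟩, e⟩
    · rw [AAdm_eq1 hM, Pg, Set.toFinset_singleton]
      congr 2
      ext v
      simp only [mem_insert, mem_erase, Set.mem_toFinset]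
      grind
  · obtain ⟨c', Y, ok, e, e1, e2, e3, e4⟩ := relabel hM h1 hz h2 h3
    have ha : c z ∈ Icc 1 r := mem_Icc.2 ⟨Nat.one_le_iff_ne_zero.2 hz, hM.1 z⟩
    have eY : ∀ v ∈ Y, c' v = c v := fun v hv => e1 v fun a => ((e2 v).1 hv).2.1 (a ▸ rfl)
    have hz' : z ∈ X ↔ bk = 0 := ⟨fun a => ht.2 (by by_contra b; exact (q1 (by omega)).1 a),
      fun a => (q0 (ht.1 a)).1⟩
    refine Or.inl ⟨c', z, w, Y, X.toFinset, c z, ⟨ok, ⟨ha, ct_zero.2 fun v hv => ?_, fun i hi =>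
      ⟨?_, ct_le _ _ _⟩⟩, fun i hi => ?_, by rwa [Set.mem_toFinset], ?_⟩, e, e3⟩
    · rw [eY v hv]; exact ((e2 v).1 hv).2.1
    · rcases Nat.eq_zero_or_pos bk with a | a
      · obtain ⟨-, b, a1, y, a2, a3⟩ := q0 (ht.1 a)
        obtain ⟨v, hv, ev⟩ := AAdm_ex (h4 i (mem_of_mem_erase hi))
        have i0 := ne_of_mem_erase hi
        have i1 := h2 v hv
        rw [a]
        by_cases d : v ∈ D
        · have vb : v = b := (a1 ▸ ⟨hv, d⟩ : v ∈ ({b} : Set V))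
          have hy := (e2 y).2 ⟨by rwa [a3, ← vb], by rwa [a3, ← vb, ev], a2⟩
          exact ct_pos.2 ⟨y, hy, by rw [eY y hy, a3, ← vb, ev]⟩
        · have hy := (e2 v).2 ⟨i1, by rwa [ev], d⟩
          exact ct_pos.2 ⟨v, hy, by rw [eY v hy, ev]⟩
      · omega
    · have a1 := e4 i hi
      have a2 : bk ≤ 1 := by rcases hk with e | e | e <;> omega
      rw [p i hi] at a1
      unfold xS
      grind
    · rcases hk with a | a | a
      · obtain ⟨zX, b, a1, -⟩ := q0 (ht.1 a.1)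
        refine Or.inl ⟨a.1, a.2.1, rfl, card_eq_one.2 ⟨b, ?_⟩⟩
        ext v
        have b1 : v ∈ X ∧ v ∈ D ↔ v = b := by rw [← Set.mem_inter_iff, a1]; rfl
        have b2 := AAdm_uniq (p _ ha) zX (v := v)
        have b3 := h2 v
        have b4 := h3 v
        simp only [mem_sdiff, mem_erase, Set.mem_toFinset, mem_singleton, e2]
        grind
      · obtain ⟨zX, a1⟩ := q1 (by have := ht.2; omega)
        refine Or.inr (Or.inl ⟨a.1, a.2.1, rfl, fun v hv => or_iff_not_imp_left.2 fun b =>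
          ct_zero.2 fun y hy d => ?_⟩)
        rw [Set.mem_toFinset] at hv
        rw [eY y hy, e1 v fun a => zX (a ▸ hv)] at d
        have b1 := (e2 y).1 hy
        by_cases b2 : v ∈ D
        · exact b1.2.2 (a1 v ⟨hv, b2⟩ y d)
        · exact b ((e2 v).2 ⟨h2 v hv, d ▸ b1.2.1, b2⟩)
      · omega
  · exact Or.inr (Or.inr ⟨t1, c, w, z, X, D, h1, hz, h2, fun v hv => (h3 v hv).1,
      fun i hi => ⟨h4 i hi, p i hi⟩, hD, nX, q, hM⟩)

/-- dense form for books -/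
def DB (r : ℕ) (G : SimpleGraph V) (c : V → ℕ) : Prop := ∃ (w : V) (X : Finset V),
  (∀ v, c v ≤ r) ∧ c w = 0 ∧ (∀ v ∈ X, c v ≠ 0) ∧ (∀ i ∈ Icc 1 r, ct c X i = 1) ∧
  G = Kc c ⊔ Sg w X ∧ ∀ i ∈ Icc 1 r, 2 ≤ cn c i

section
variable {c : V → ℕ} {r : ℕ} {w : V} {X : Finset V}

lemma qf_B (hw : c w = 0) (hX : ∀ v ∈ X, c v ≠ 0) (y : V → ℝ) :
    qf (Kc c ⊔ Sg w X) y = qf (Kc c) y + 2 * (y w * ∑ v ∈ X, y v) := by
  rw [← qf_Sg fun a => hX w a hw]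
  simp only [qf, S2_add]
  refine S2_congr fun u v => ?_
  have a3 : (Sg w X).Adj u v → ¬(Kc c).Adj u v := by
    rintro ⟨-, ⟨rfl, -⟩ | ⟨rfl, -⟩⟩ b
    exacts [b.1 hw, b.2.1 hw]
  simp only [ad, SimpleGraph.sup_adj]
  by_cases b1 : (Kc c).Adj u v <;> by_cases b4 : (Sg w X).Adj u v <;> simp_all

lemma ec_B (hc : ∀ v, c v ≤ r) (hw : c w = 0) (hX : ∀ v ∈ X, c v ≠ 0) :
    2 * (ec (Kc c ⊔ Sg w X) : ℝ) = eK2 r (cn c) + 2 * X.card := by
  have h1 := qf_B hw hX fun _ => 1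
  simp only [← Mo_eq_qf, Mo_ec, sum_const, nsmul_eq_mul, mul_one, one_mul] at h1
  rw [h1, Mo_Kc' hc]

lemma card_tr (hc : ∀ v, c v ≤ r) (hX : ∀ v ∈ X, c v ≠ 0) (h : ∀ i ∈ Icc 1 r, ct c X i = 1) :
    X.card = r := by
  rw [← sum_ct hc hX, sum_congr rfl h]; simp

omit [Fintype V] in
lemma PhS_B' {μ : ℝ} (μ0 : 0 < μ) (n : ℕ → ℕ) (h : ∀ i ∈ Icc 1 r, ct c X i = 1) (α β : ℝ) :
    PhS r μ n (ct c X) (ct c ∅) ((∅ ∩ X : Finset V).card) 0 α β = PhB r μ n α - μ * β ^ 2 := by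
  rw [← PhS_B (x := ct c X) (y := ct c ∅) μ0 (fun _ _ => by simp [ct]) h]
  simp only [PhS, empty_inter, card_empty, Nat.cast_zero, mul_zero, zero_mul, add_zero,
    add_comm ((ct c X _ : ℝ) * α)]
  ring

theorem lowerB (hc : ∀ v, c v ≤ r) (hw : c w = 0) (hX : ∀ v ∈ X, c v ≠ 0)
    (h : ∀ i ∈ Icc 1 r, ct c X i = 1) {μ : ℝ} (hμ : 0 < μ) {α : ℝ} (up : 1 ≤ PhB r μ (cn c) α) :
    μ ≤ lam (Kc c ⊔ Sg w X) := by
  obtain ⟨y, hy⟩ : ∃ y : V → ℝ, ∀ v, y v = if c v = 0 then (if v = w then α else 0)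
      else (1 - 0 + frc X ∅ α 0 v - ((Vp c (c v)).card * (1 - 0) +
        ∑ u ∈ Vp c (c v), frc X ∅ α 0 u) / (μ + (Vp c (c v)).card)) / μ := ⟨_, fun _ => rfl⟩
  have yw : y w = α := by rw [hy, if_pos hw, if_pos rfl]
  have e0 : ∑ v ∈ Vp c 0, y v ^ 2 = α ^ 2 := by
    rw [sum_eq_single_of_mem w (mem_Vp.2 hw) fun v hv hn => by
      rw [hy, if_pos (mem_Vp.1 hv), if_neg hn]; simp, yw]
  have e1 := psiS hc hw hX (X := ∅) (by simp) μ 0 y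
  rw [yw, e0, sum_congr rfl fun i hi => part_eq (Vp c i) hμ 0 (frc X ∅ α 0) y fun v hv => by
    have := mem_Vp.1 hv
    have := mem_Icc.1 hi
    rw [hy, if_neg (by omega), ‹c v = i›], sumS hc hX μ 0, PhS_B' hμ _ h] at e1
  refine (lam_of_psi (y := y) (S := ∑ i ∈ Icc 1 r, ∑ v ∈ Vp c i, y v) ?_ fun h => by simp [h]).2 up
  rw [qf_B hw hX, yw]
  simp only [sum_empty, notMem_empty, if_false] at e1
  linarith

theorem upperB (hc : ∀ v, c v ≤ r) (hw : c w = 0) (hX : ∀ v ∈ X, c v ≠ 0)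
    (h : ∀ i ∈ Icc 1 r, ct c X i = 1) (hl : 3 < lam (Kc c ⊔ Sg w X)) :
    ∃ α, α < lam (Kc c ⊔ Sg w X) ∧ 1 ≤ PhB r (lam (Kc c ⊔ Sg w X)) (cn c) α := by
  obtain ⟨α, β, -, a1, -, -, up⟩ := upperS (G := Kc c ⊔ Sg w X) (z := w) (w := w) (Y := X) (X := ∅)
    le_sup_left hc hw hw hX (by simp) (fun _ => rfl) (by linarith)
  rw [if_neg (notMem_empty _), PhS_B' (by linarith) _ h] at up
  refine ⟨α, a1.trans_lt ?_, ?_⟩
  · rw [div_lt_iff₀ (by linarith)]; nlinarith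
  · nlinarith [sq_nonneg β]

lemma card_out (hc : ∀ v, c v ≤ r) {a : ℕ} (ha : a ∈ Icc 1 r) {Y : Finset V} (hY : ∀ v ∈ Y, c v ≠ 0)
    (ya : ct c Y a = 0) : ((Out c a \ Y).card : ℝ) =
      ∑ i ∈ (Icc 1 r).erase a, ((cn c i : ℝ) - ct c Y i) := by
  have a1 : Y ⊆ Out c a := fun v hv => mem_Out.2 ⟨hY v hv, ct_zero.1 ya v hv⟩
  have a2 := sum_ct hc (Y := Out c a) fun v hv => (mem_Out.1 hv).1
  have a3 := sum_ct hc hY
  rw [← add_sum_erase _ _ ha, ct_zero.2 fun v hv => (mem_Out.1 hv).2, zero_add,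
    sum_congr rfl (g := cn c) fun i hi => by
      have := mem_Icc.1 (mem_of_mem_erase hi)
      have := ne_of_mem_erase hi
      unfold ct cn
      congr 1
      ext v
      simp only [mem_filter, mem_Out, mem_univ, true_and]
      omega] at a2
  rw [← add_sum_erase _ _ ha, ya, zero_add] at a3
  rw [card_sdiff_of_subset a1, Nat.cast_sub (card_le_card a1), ← a2, ← a3, sum_sub_distrib]
  push_cast
  rfl

end

end Pool.Agent.P.MP_094db5_co.Dn
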