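import Pool.Agent.P.MP_094db5_co.DG1

/-! The three forms against the dense candidate. -/

set_option autoImplicit false

open Finset Classical

noncomputable section

namespace Pool.Agent.P.MP_094db5_co.Dn

variable {V : Type} [Fintype V]

/-- the cost of the deleted edge of the candidate -/
def gc (bk : ℕ) (μ : ℝ) (n₀ : ℕ → ℕ) : ℝ := (1 - bk) * (2 * (1 / (μ + n₀ 1)) * (1 / (μ + n₀ 2)))

/-- the context of an extremal graph with a candidate core -/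
structure Fz (r M bk : ℕ) (δ δ' ν : ℝ) (G : SimpleGraph V) (n₀ : ℕ → ℕ) (a₀ : ℕ) : Prop where
  ex : Ex2 r M δ ν G
  r11 : 11 ≤ r
  d0 : 0 < δ'
  dd : δ' ≤ δ
  d1 : 10000000 * r * δ' ≤ 1
  d2 : 51 * r ≤ δ' ^ 2 * ν
  d3 : δ' ^ 2 * ν ≤ 64 * r
  h0 : ∑ i ∈ Icc 1 r, n₀ i = M
  W0 : WW r ν n₀ ≤ 4 * ν
  top : Top (Icc 1 r) a₀ (zz n₀)
  bk1 : bk ≤ 1
  cand : Qn r (lam G) n₀ ≤ 1 + gc bk (lam G) n₀

/-- the context of an extremal graph with a dense candidate -/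
structure Fn (r M bk : ℕ) (δ δ' ν : ℝ) (G : SimpleGraph V) (n₀ : ℕ → ℕ) (a₀ : ℕ) : Prop
    extends Fz r M bk δ δ' ν G n₀ a₀ where
  he : eK2 r n₀ + 2 * r = 2 * ec G + 2 * (1 - bk)

lemma Cx.gc_le {r M a₀ bk : ℕ} {δ ν μ : ℝ} {n₀ : ℕ → ℕ} (h : Cx r M δ ν μ n₀ a₀) (hb : bk ≤ 1) :
    gc bk μ n₀ * un μ ν ≤ (1 - bk) * (2 + 2 * (ν / μ) + 5 * δ) := by
  have r11 := h.r11
  have : (bk : ℝ) ≤ 1 := by exact_mod_cast hb
  rw [gc, mul_assoc]
  exact mul_le_mul_of_nonneg_left (h.pp (h.c0 1 (mem_Icc.2 ⟨by omega, by omega⟩))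
    (h.c0 2 (mem_Icc.2 ⟨by omega, by omega⟩))).2 (by linarith)

namespace Fz

variable {r M bk a₀ : ℕ} {δ δ' ν : ℝ} {G : SimpleGraph V} {n₀ : ℕ → ℕ}
  (h : Fz r M bk δ δ' ν G n₀ a₀)
include h

lemma R : (11 : ℝ) ≤ r := by exact_mod_cast h.r11

lemma hM : (M : ℝ) = r * ν := by
  have := h.R
  rw [h.ex.hN]; field_simp

lemma b01 : (0 : ℝ) ≤ bk ∧ (bk : ℝ) ≤ 1 := ⟨Nat.cast_nonneg _, by exact_mod_cast h.bk1⟩

lemma dν : 51 * r ≤ δ' * ν := by
  have a1 : δ' ≤ 1 := by linarith [h.dd, h.ex.rg.δ3]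
  refine h.d2.trans ?_
  rw [sq, mul_assoc]
  exact mul_le_of_le_one_left (mul_pos h.d0 h.ex.ν0).le a1

theorem boot {n y x : ℕ → ℕ} (hn : ∀ i ∈ Icc 1 r, Cl δ ν (n i)) {g e α β C : ℝ}
    (a0 : 0 ≤ α) (b0 : 0 ≤ β) (g0 : 0 ≤ g) (g1 : g ≤ C) (e1 : e ≤ 1) (C1 : C ≤ δ' * ν)
    (hx : ∑ i ∈ Icc 1 r, (x i : ℝ) ≤ C)
    (hy : ∑ i ∈ Icc 1 r, (y i : ℝ) ≤ (r - 1) * (1 + 2 * δ) * ν)
    (he : |eK2 r n + 2 * ∑ i ∈ Icc 1 r, (y i : ℝ) - eK2 r n₀| ≤ 2 * C)
    (up : 1 ≤ PhS r (lam G) n y x g e α β) :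
    (∑ i ∈ Icc 1 r, n i = M ∨ ∑ i ∈ Icc 1 r, n i + 1 = M) ∧ Cx r M δ' ν (lam G) n₀ a₀ ∧
      WW r ν n ≤ 4 * r * ν := by
  have rg := h.ex.rg
  have R := h.R
  have ν0 := rg.ν0
  have μ0 := rg.μ0
  have L0 := rg.L0
  have δ0 := rg.δ0
  have a1 := mul_le_mul_of_nonneg_right h.dd ν0.le
  have c0 : ∀ i ∈ Icc 1 r, Cl δ ν (n₀ i) := fun i hi =>
    (abs_le_s (d := fun i => (n₀ i : ℝ) - ν) (s := δ' * ν) (mul_pos h.d0 ν0).le (h.W0.trans (by
      nlinarith only [mul_le_mul_of_nonneg_right h.d2 ν0.le, mul_le_mul_of_nonneg_right R ν0.le, ν0]))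
      hi).trans a1
  have a2 : gc bk (lam G) n₀ * un (lam G) ν ≤ 3 := by
    have r11 := h.r11
    have b1 := mul_le_mul (rg.p2 (c0 1 (mem_Icc.2 ⟨by omega, by omega⟩)))
      (rg.p2 (c0 2 (mem_Icc.2 ⟨by omega, by omega⟩))) (by positivity) (by positivity)
    have b2 := mul_le_mul_of_nonneg_right b1 (un0 rg).le
    rw [show (1 + δ) / (lam G + ν) * ((1 + δ) / (lam G + ν)) * un (lam G) ν =
      (1 + δ) ^ 2 * (lam G + ν) / lam G by unfold un; field_simp] at b2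
    have b3 : (1 + δ) ^ 2 * (lam G + ν) / lam G ≤ 3 / 2 := by
      rw [div_le_iff₀ μ0]
      have c1 : (1 + δ) ^ 2 ≤ 5 / 4 := by nlinarith only [δ0, rg.δ3]
      have c2 : lam G + ν ≤ 6 / 5 * lam G := by
        linarith only [rg.μ1, rg.δν, mul_le_mul_of_nonneg_right R ν0.le, ν0]
      linarith only [mul_le_mul c1 c2 L0.le (by norm_num)]
    have b4 : 0 ≤ 1 / (lam G + n₀ 1) * (1 / (lam G + n₀ 2)) * un (lam G) ν :=
      mul_nonneg (by positivity) (un0 rg).le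
    rw [gc]
    nlinarith only [mul_nonneg h.b01.1 b4, b2, b3]
  obtain ⟨p1, p2, p3⟩ := boot2 rg h.r11 h.hM h.h0 c0 h.W0 h.cand a2 hn a0 b0 g0 g1 e1 (C1.trans a1)
    hx hy he up
  exact ⟨p1, ⟨⟨rg.r3, h.d0, (mul_le_mul_of_nonneg_left h.dd (by positivity)).trans rg.δ1,
    by linarith [h.dν], p2.trans (by linarith [h.dν])⟩, h.r11, h.d1, h.d2, h.d3, h.hM, h.h0, h.W0,
    h.top⟩, p3⟩

end Fz

namespace Fn

variable {r M bk a₀ : ℕ} {δ δ' ν : ℝ} {G : SimpleGraph V} {n₀ : ℕ → ℕ}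
  (h : Fn r M bk δ δ' ν G n₀ a₀)
include h

theorem star {g₀ : ℕ} {c : V → ℕ} {z w : V} {Y X : Finset V} {a : ℕ} (s : SD r bk g₀ 0 c z w Y X a)
    (e : G = Tg c ⊥ z Y w X) (h1 : ∀ i ∈ Icc 1 r, 1 ≤ cn c i) :
    Cx r M δ' ν (lam G) n₀ a₀ ∧ WW r ν (cn c) ≤ 4 * r * ν ∧
    ((∑ i ∈ Icc 1 r, cn c i = M ∧ bk = 1 ∧ Y = ∅) ∨ (∑ i ∈ Icc 1 r, cn c i + 1 = M ∧
      ((Out c a \ Y).card + bk = 1 ∨
        2 * (r - 1) * ν - 40 * r ^ 2 * δ' * ν ≤ r * ((Out c a \ Y).card : ℝ)))) := by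
  have rg := h.ex.rg
  have R := h.R
  have he := h.he
  obtain ⟨b0', b1'⟩ := h.b01
  have a1 := s.ec_eq
  rw [← e] at a1
  have a2 : ∑ i ∈ Icc 1 r, (ct c Y i : ℝ) ≤ ∑ i ∈ (Icc 1 r).erase a, (cn c i : ℝ) := by
    rw [s.dat.sum_eq]
    exact sum_le_sum fun i _ => by exact_mod_cast ct_le c Y i
  have dg := h.ex.deg s.ok.le (H := ⊥) (e ▸ le_sup_left.trans le_sup_left) (by rw [ec_bot]; omega) h1
  have cl := h.ex.cl dg (by linarith [h.ex.erase_le dg s.dat.ha, h.ex.rν])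
  obtain ⟨α, β, a0, a3, b0, b1, up⟩ := upperS (G := G) (c := c) (z := z) (w := w) (Y := Y) (X := X)
    (by rw [e, Tg, sdiff_bot]) s.ok.le s.ok.o0 s.ok.w0 s.ok.hS s.ok.hX
    (fun e => (s.ok.ow e).elim) h.ex.l2
  rw [s.PhS_eq, PhK] at up
  rw [s.card] at b1
  have g1 : g₀ ≤ r := by rcases s.kind with e | e | e <;> omega
  have a5 : ∑ i ∈ Icc 1 r, (xS bk a i : ℝ) ≤ 2 * r := by
    have := sum_xS s.dat.ha bk
    have := s.bk1
    exact_mod_cast (by omega : ∑ i ∈ Icc 1 r, xS bk a i ≤ 2 * r)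
  have hy : ∀ d, Rg r d ν (lam G) → (∀ i ∈ Icc 1 r, Cl d ν (cn c i)) →
      ∑ i ∈ Icc 1 r, (ct c Y i : ℝ) ≤ (r - 1) * (1 + 2 * d) * ν := fun d rd cl => by
    have := rd.sum_erase_le cl s.dat.ha
    nlinarith only [mul_pos rd.δ0 rg.ν0, R, a2, this]
  obtain ⟨p1, cx, p3⟩ := h.boot (C := 2 * r) cl a0 b0 (gS_le s.bk1 g1 _).1 (gS_le s.bk1 g1 _).2
    (by linarith) (by linarith [h.dν]) a5 (hy δ rg cl) (abs_le.2 ⟨by linarith, by linarith⟩) up
  have cl' := cx.cl' p3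
  have gh := cx.gc_le h.bk1
  obtain ⟨k1, k2, k3⟩ := cx.ratio
  have κ0 : 0 ≤ ν / lam G := div_nonneg rg.ν0.le rg.μ0.le
  have δs := cx.δs
  have d0 := h.d0
  refine ⟨cx, p3, p1.imp (fun p => ⟨p, ?_⟩) fun p => ⟨p, ?_⟩⟩
  · by_contra hn
    obtain ⟨Γ, u1, u2⟩ := gainS cx.rg cl' a0 b0 (gS_le s.bk1 g1 _).1 (gS_le s.bk1 g1 _).2
      (by linarith) (by linarith [h.dν]) a5 (hy δ' cx.rg cl') up
    have u3 := unit cx.rg (j := 0) (cx.real h.h0) (by rw [cx.real p, add_zero]) h.cand u1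
    have y1 := hy δ' cx.rg cl'
    rw [s.sumY] at a1 u2 y1
    have eb : ((1 - bk : ℕ) : ℝ) = 1 - bk := by rw [Nat.cast_sub h.bk1, Nat.cast_one]
    refine cx.noAdd p (u := Y.card + (1 - bk)) (s := Y.card) (C := 2 * r)
      (θ := gc bk (lam G) n₀ * un (lam G) ν) (by push_cast; rw [eb]; linarith) (Nat.cast_nonneg _)
      (by push_cast; rw [eb]; linarith) y1 (by
        push_cast; rw [eb]
        linarith only [y1, b0', mul_le_mul_of_nonneg_right h.d1 rg.ν0.le, mul_pos d0 rg.ν0, rg.ν1, R])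
      (by nlinarith only [cx.νbig, R, sq_nonneg (r : ℝ)]) (Or.inr ?_) (by linarith)
    rcases Nat.eq_zero_or_pos bk with b | b
    · refine Or.inr ⟨?_, ?_⟩
      · have c1 := sum_ct s.ok.le s.ok.hS
        have c2 := card_nsmul_le_sum ((Icc 1 r).erase a) (fun i => ct c Y i) 1 fun i hi => by
          have := (s.dat.ad i hi).1; omega
        have c3 := card_er s.dat.ha
        have c4 := h.r11
        rw [← add_sum_erase _ _ s.dat.ha] at c1
        rw [smul_eq_mul] at c2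
        omega
      · rw [b] at gh ⊢
        push_cast at gh
        linarith
    · have b' : bk = 1 := by have := h.bk1; omega
      refine Or.inl ⟨?_, ?_⟩
      · have := card_pos.2 (nonempty_iff_ne_empty.2 fun q : Y = ∅ => hn ⟨b', q⟩)
        omega
      · rw [b'] at gh ⊢
        push_cast at gh
        linarith
  · have c1 := card_out s.ok.le s.dat.ha s.ok.hS s.dat.ya
    have c2 : 1 ≤ (Out c a \ Y).card + bk := by
      rcases s.kd with ⟨b, -, -, q⟩ | ⟨b, -⟩ | ⟨-, -, b, -⟩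
      · refine le_trans ?_ (Nat.le_add_right _ _)
        rw [← q]
        exact card_le_card fun v hv => mem_sdiff.2 ⟨mem_Out.2 ⟨s.lab (mem_sdiff.1 hv).1,
          s.Xa b v (mem_of_mem_erase (mem_sdiff.1 hv).1)⟩, (mem_sdiff.1 hv).2⟩
      · omega
      · omega
    obtain ⟨v, hv⟩ := Nat.exists_eq_add_of_le c2
    rcases Nat.eq_zero_or_pos v with rfl | v0
    · exact Or.inl hv
    have hv' : ((Out c a \ Y).card : ℝ) + bk = 1 + v := by exact_mod_cast hv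
    have v1 : (1 : ℝ) ≤ v := by exact_mod_cast v0
    refine Or.inr (cx.delS h.cand gh (mul_nonneg (by linarith) (by positivity)) s.dat.ha p p3
      (fun i _ => ct_le c Y i) a0 a3 b0 b1 (gS_le s.bk1 g1 _).2 (by linarith) a5 up c1.symm (v := v)
      (σ := (1 - bk) * (2 * (ν / lam G) + 5 * δ')) ?_ ?_ ?_ ?_ (by linarith))
    · rw [sum_sub_distrib, ← s.dat.sum_eq] at c1
      linarith
    · rw [s.dat.ya]; push_cast; linarith
    · have c3 : (2 * (ν / lam G) + 5 * δ') * (r - 1) ≤ 3 := by linarith [h.d1]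
      nlinarith only [mul_le_mul_of_nonneg_left c3 (show (0 : ℝ) ≤ 1 - bk by linarith), hv', v1, b0',
        b1']
    · nlinarith only [mul_nonneg b0' κ0, mul_nonneg b0' d0.le, k3, δs, R]

theorem pair {c : V → ℕ} {z b w : V} {X : Finset V} (s : POK r c z b w X)
    (hx : ∀ i ∈ Icc 1 r \ {c z, c b}, 1 ≤ ct c X i) (e : G = Pg c z b w X)
    (h1 : ∀ i ∈ Icc 1 r, 1 ≤ cn c i) :
    Cx r M δ' ν (lam G) n₀ a₀ ∧ WW r ν (cn c) ≤ 4 * r * ν ∧
    ((∑ i ∈ Icc 1 r, cn c i = M ∧ bk = 0 ∧ ∀ i ∈ Icc 1 r \ {c z, c b}, ct c X i = 1) ∨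
      (∑ i ∈ Icc 1 r, cn c i + 1 = M ∧ 2 * (r - 1) * ν - 40 * r ^ 2 * δ' * ν ≤
        r * (∑ i ∈ (Icc 1 r).erase (c z), (cn c i : ℝ) - (X.card + 1)))) := by
  have rg := h.ex.rg
  have R := h.R
  have he := h.he
  have r11 := h.r11
  obtain ⟨b0', b1'⟩ := h.b01
  have ha : c z ∈ Icc 1 r := mem_Icc.2 ⟨Nat.one_le_iff_ne_zero.2 s.z0, s.le z⟩
  have hb : c b ∈ Icc 1 r := mem_Icc.2 ⟨Nat.one_le_iff_ne_zero.2 s.b0, s.le b⟩
  have hb' : c b ∈ (Icc 1 r).erase (c z) := mem_erase.2 ⟨s.zb.symm, hb⟩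
  have a1 := s.ec2
  rw [← e] at a1
  have a2 : ∑ i ∈ Icc 1 r \ {c z, c b}, (ct c X i : ℝ) + cn c (c b) ≤
      ∑ i ∈ (Icc 1 r).erase (c z), (cn c i : ℝ) := by
    rw [sum_er hb']
    exact add_le_add (sum_le_sum fun i _ => by exact_mod_cast ct_le c X i) le_rfl
  have dg := h.ex.deg s.le (H := Sg z {b}) (e ▸ le_sup_left) ((ec_Sg_le _ _).trans (by simp)) h1
  have nb : (0 : ℝ) ≤ cn c (c b) := Nat.cast_nonneg _
  have cl := h.ex.cl dg (by linarith [h.ex.erase_le dg ha, h.ex.rν])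
  have lab : ∀ v ∈ insert z (insert b X), c v ≠ 0 := fun v hv => by
    simp only [mem_insert] at hv
    rcases hv with e | e | e
    exacts [e ▸ s.z0, e ▸ s.b0, (s.hX v e).1]
  obtain ⟨α, β, a0, a3, b0, b1, up⟩ := upperS (G := G) (c := c) (z := w) (w := w)
    (Y := insert z (insert b X)) (X := ∅)
    (e ▸ (sup_le_sup_right sdiff_le _).trans le_sup_left) s.le s.w0 s.w0 lab (by simp)
    (fun _ => rfl) h.ex.l2
  have a5 : ∑ i ∈ Icc 1 r, (ct c (insert z (insert b X)) i : ℝ) = X.card + 2 := by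
    have zb : z ≠ b := fun e => s.zb (e ▸ rfl)
    have zX : z ∉ X := fun a => (s.hX z a).2.1 rfl
    have bX : b ∉ X := fun a => (s.hX b a).2.2 rfl
    rw [← Nat.cast_sum, sum_ct s.le lab, card_insert_of_notMem (by simp [zb, zX]),
      card_insert_of_notMem bX]
    push_cast
    ring
  have a6 := s.sumX
  have hy : ∀ d, Rg r d ν (lam G) → (∀ i ∈ Icc 1 r, Cl d ν (cn c i)) →
      (X.card : ℝ) + 2 ≤ (r - 1) * (1 + 2 * d) * ν := fun d rd cl => by
    have := rd.sum_erase_le cl ha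
    nlinarith only [mul_pos rd.δ0 rg.ν0, rd.big, R, a2, a6, this, nb]
  obtain ⟨p1, cx, p3⟩ := h.boot (C := 2 * r) cl a0 b0 (Nat.cast_nonneg _) (by simp) (by simp)
    (by linarith [h.dν]) (by simp [ct]) (a5 ▸ hy δ rg cl) (abs_le.2 ⟨by linarith, by linarith⟩) up
  have cl' := cx.cl' p3
  have gh := cx.gc_le h.bk1
  obtain ⟨k1, k2, k3⟩ := cx.ratio
  have κ0 : 0 ≤ ν / lam G := div_nonneg rg.ν0.le rg.μ0.le
  have δs := cx.δs
  have d0 := h.d0
  have y1 := hy δ' cx.rg cl'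
  have rδ := mul_le_mul_of_nonneg_right h.d1 rg.ν0.le
  have dν := mul_pos d0 rg.ν0
  have cJ := card_pair_sdiff ha hb s.zb
  have c1 : ∑ i ∈ Icc 1 r \ {c z, c b}, ct c X i = X.card := by exact_mod_cast a6
  have c2 := card_nsmul_le_sum _ (fun i => ct c X i) 1 hx
  rw [c1, smul_eq_mul, mul_one] at c2
  refine ⟨cx, p3, p1.imp (fun p => ⟨p, ?_⟩) fun p => ⟨p, ?_⟩⟩
  · have l2 := h.ex.l2
    rw [e] at l2
    obtain ⟨α, γ, β, -, -, -, -, p5, p6, p7⟩ := upperP s l2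
    rw [← e] at p6 p7
    have u1 := cx.unitP h.cand p cl' ha hb s.zb p5 p6
      (by linarith only [a6, y1, rδ, cx.rg.μ1, dν, rg.ν0, cx.rg.δν, mul_le_mul_of_nonneg_right R rg.ν0.le]) p7
    rw [a6] at u1 a1
    have i1 : 1 / (100 * (r : ℝ)) ≤ 1 / 1000 := one_div_le_one_div_of_le (by norm_num) (by linarith)
    rcases c2.eq_or_lt with q | q
    · have q' : (X.card : ℝ) + 2 = r := by exact_mod_cast (by omega : X.card + 2 = r)
      refine ⟨?_, fun i hi => ?_⟩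
      · by_contra hn
        have b' : bk = 1 := by have := h.bk1; omega
        rw [b'] at gh he u1
        have u2 := cx.delE p (u := 1) (by push_cast at he ⊢; linarith)
        have u3 := cx.tiny (t := (X.card + 2) ^ 2) (by rw [q']; nlinarith only [R])
        have u4 : 1 / (20 * (r : ℝ)) + 1 / (100 * r) + 1 / (1000 * r) = 61 / 1000 / r := by
          field_simp; norm_num
        have u5 : 2 * (ν / lam G) ≤ 6 * δ' + 61 / 1000 / r := by push_cast at gh u2; linarith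
        have u6 := mul_le_mul_of_nonneg_right u5 (show (0 : ℝ) ≤ r - 1 by linarith)
        have u7 : 61 / 1000 / (r : ℝ) * (r - 1) ≤ 61 / 1000 := by
          rw [div_mul_eq_mul_div, div_le_iff₀ (by linarith)]; linarith
        linarith [h.d1]
      · have := (sum_eq_sum_iff_of_le (f := fun _ => 1) hx).1 (by rw [c1, ← q]; simp) i hi
        exact this.symm
    · obtain ⟨u, hu⟩ : ∃ u, X.card + 2 = u + r + bk := ⟨X.card + 2 - r - bk, by have := h.bk1; omega⟩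
      have hu' : (X.card : ℝ) + 2 = u + r + bk := by exact_mod_cast hu
      refine (cx.noAdd p (u := u) (s := X.card + 2) (C := 0)
        (θ := gc bk (lam G) n₀ * un (lam G) ν - (2 + 2 * (ν / lam G) - 5 * δ') + 1 / (100 * r))
        (by linarith) (by positivity)
        (by linarith) y1 (by linarith only [y1, hu', rδ, dν, b0', R, rg.ν0])
        (by linarith only [rg.ν0]) ?_ (by rw [zero_pow two_ne_zero, add_zero]; exact u1)).elim
      rcases Nat.eq_zero_or_pos bk with b | b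
      · refine Or.inr (Or.inl ⟨by omega, ?_⟩)
        rw [b] at gh ⊢
        push_cast at gh
        linarith
      · have b' : bk = 1 := by have := h.bk1; omega
        rw [b'] at gh ⊢
        push_cast at gh
        exact Or.inl (by linarith)
  · have ya : ct c (insert z (insert b X)) (c z) = 1 := by
      rw [ct, card_eq_one]
      refine ⟨z, ?_⟩
      ext v
      have := s.hX v
      have := s.zb
      simp only [mem_filter, mem_insert, mem_singleton]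
      grind
    have c3 : ∑ i ∈ (Icc 1 r).erase (c z), ((cn c i : ℝ) - ct c (insert z (insert b X)) i) =
        ∑ i ∈ (Icc 1 r).erase (c z), (cn c i : ℝ) - (X.card + 1) := by
      rw [← add_sum_erase _ _ ha, ya] at a5
      rw [sum_sub_distrib]
      push_cast at a5
      linarith
    have c4 := Rg.n1 (cl' _ hb)
    have c5 : X.card + 1 ≤ ∑ i ∈ (Icc 1 r).erase (c z), cn c i := by
      exact_mod_cast (by push_cast; linarith [rg.ν1, cx.rg.δν] :
        ((X.card + 1 : ℕ) : ℝ) ≤ (∑ i ∈ (Icc 1 r).erase (c z), cn c i : ℕ))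
    obtain ⟨v, hv⟩ : ∃ v, v + X.card + 2 = ∑ i ∈ (Icc 1 r).erase (c z), cn c i + r + bk :=
      ⟨∑ i ∈ (Icc 1 r).erase (c z), cn c i + r + bk - X.card - 2, by omega⟩
    have hv' : (v : ℝ) + X.card + 2 = ∑ i ∈ (Icc 1 r).erase (c z), (cn c i : ℝ) + r + bk := by
      exact_mod_cast hv
    have c6 : (1 - bk) * (2 + 2 * (ν / lam G) + 5 * δ') ≤ 3 - bk := by
      nlinarith only [mul_nonneg b0' κ0, mul_nonneg b0' d0.le, k3, δs, b0']
    refine cx.delS h.cand gh (mul_nonneg (by linarith) (by positivity)) ha p p3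
      (fun i _ => ct_le c _ i) a0 a3 b0 (b1.trans (div_le_div_of_nonneg_right (by simp)
        (by linarith [rg.μ5]))) (by simp) (by simp) (by simp [ct]) up c3 (v := v) (σ := 4 * r)
      (by linarith) (by rw [ya]; push_cast; linarith) ?_ le_rfl (by linarith [rg.ν1, cx.rg.δν])
    nlinarith only [cx.νbig, R, sq_nonneg (r : ℝ), a2, a6, c4, cx.rg.δν, rg.ν1]

theorem third {t : ℕ} {c : V → ℕ} (s : FT r t G c) (b1 : bk = 1)
    (hC : 10 * ((r : ℝ) * t + r) ^ 2 ≤ ν) (hC' : (r : ℝ) * t + r ≤ δ' * ν) :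
    Cx r M δ' ν (lam G) n₀ a₀ ∧ ∑ i ∈ Icc 1 r, cn c i = M ∧ DB r G c := by
  obtain ⟨w, z, X, D, hw, hz, hX, hD, p, q, -, q2, m⟩ := s
  lift X to Finset V using Set.toFinite X
  lift D to Finset V using Set.toFinite D
  have rg := h.ex.rg
  have R := h.R
  have he := h.he
  have e := eq_Tg_of_mp (z := w) (w := z) (Set.union_comm _ _ ▸ m)
  have eB : D = ∅ → G = Kc c ⊔ Sg w X := fun d => by
    rw [e, d, Tg, sdiff_bot]
    ext u v
    simp [Sg]
  simp only [pc_ct] at p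
  rw [Set.ncard_coe_finset] at q
  have x1 := sum_ct m.1 hX
  have x2 := sum_le_card_nsmul (Icc 1 r) (ct c X) t fun i hi => (p i hi).2
  have x3 := card_nsmul_le_sum (Icc 1 r) (ct c X) 1 fun i hi => (p i hi).1
  rw [x1, Nat.card_Icc, add_tsub_cancel_right, smul_eq_mul] at x2 x3
  have x4 : ∑ i ∈ Icc 1 r, (ct c X i : ℝ) = X.card := by exact_mod_cast x1
  have x5 : ∑ i ∈ Icc 1 r, (ct c D i : ℝ) = D.card := by exact_mod_cast sum_ct m.1 hD
  have x6 : (X.card : ℝ) ≤ r * t := by exact_mod_cast x2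
  have x7 : (D.card : ℝ) ≤ r := by exact_mod_cast q
  have x8 : (r : ℝ) ≤ X.card := by exact_mod_cast (by omega : r ≤ X.card)
  have x9 : (0 : ℝ) ≤ D.card := Nat.cast_nonneg _
  have a1 : 2 * (ec G : ℝ) = eK2 r (cn c) + 2 * X.card + 2 * D.card := by
    rcases D.eq_empty_or_nonempty with d | d
    · rw [eB d, ec_B m.1 hw hX, d]; simp
    · have k : TgOK r c ⊥ w X z D := ⟨m.1, bot_le, hw, hz, (q2 d).1.symm, hX, fun v hv => Or.inl (hD v hv)⟩
      have := k.ec_eq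
      rw [← e, ec_bot] at this
      rw [← Mo_Kc' m.1]
      exact_mod_cast (by omega : 2 * ec G = 2 * ec (Kc c) + 2 * X.card + 2 * D.card)
  have dν := mul_le_mul_of_nonneg_right h.dd rg.ν0.le
  have rν := mul_le_mul_of_nonneg_right R rg.ν0.le
  have dg := h.ex.deg m.1 (H := ⊥) (e ▸ le_sup_left.trans le_sup_left) (by rw [ec_bot]; omega)
    fun i hi => (m.one i hi).trans' one_le_two
  have cl := h.ex.cl dg (by linarith [rg.δν, rg.ν0])
  obtain ⟨α, β, a0, -, b0, -, up⟩ := upperS (G := G) (c := c) (z := w) (w := z) (Y := X) (X := D)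
    (by rw [e, Tg, sdiff_bot]) m.1 hw hz hX (fun v hv => Or.inl (hD v hv))
    (fun d => not_nonempty_iff_eq_empty.1 fun d' => (q2 d').1 d.symm) h.ex.l2
  have g1 : ((D ∩ X).card : ℝ) ≤ r := le_trans (by exact_mod_cast card_le_card inter_subset_left) x7
  have hy : ∀ d, 0 < d → (X.card : ℝ) ≤ (r - 1) * (1 + 2 * d) * ν := fun d d0 => by
    nlinarith only [mul_pos (mul_pos d0 rg.ν0) (show (0 : ℝ) < r - 1 by linarith), x6, hC', dν, rg.δν,
      rν, R, rg.ν0]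
  rw [b1] at he
  push_cast at he
  obtain ⟨p1, cx, p3⟩ := h.boot (C := r) cl a0 b0 (Nat.cast_nonneg _) g1 (by split_ifs <;> norm_num)
    (by linarith [h.dν]) (x5 ▸ x7) (x4 ▸ hy δ rg.δ0) (abs_le.2 ⟨by linarith, by linarith⟩) up
  have cl' := cx.cl' p3
  have p2 : ∑ i ∈ Icc 1 r, cn c i = M := p1.resolve_right fun p2 => by
    have b2 := WW_eq (j := -1) (n := cn c) (cx.real h.h0) (by
      rw [← h.hM, ← p2]; push_cast; ring)
    linarith [WW0 r ν (cn c), h.W0, rg.δν, rg.ν1]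
  obtain ⟨u, hu⟩ : ∃ u, X.card + D.card = u + r := ⟨X.card + D.card - r, by omega⟩
  have hu' : (X.card : ℝ) + D.card = u + r := by exact_mod_cast hu
  have u0 : u = 0 := by
    by_contra hn
    obtain ⟨Γ, u1, u2⟩ := gainS cx.rg cl' a0 b0 (Nat.cast_nonneg _) g1 (by split_ifs <;> norm_num)
      (by linarith [h.dν]) (x5 ▸ x7) (x4 ▸ hy δ' h.d0) up
    have u3 := unit cx.rg (j := 0) (cx.real h.h0) (by rw [cx.real p2, add_zero]) h.cand u1
    have gh := cx.gc_le h.bk1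
    rw [b1] at gh u3
    push_cast at gh
    obtain ⟨o1, -⟩ := ro_bounds h.r11
    have d0 := h.d0
    refine cx.noAdd p2 (u := u) (s := 0) (C := r * t + r) (θ := 0) (by linarith) le_rfl (by positivity)
      (le_trans (Nat.cast_nonneg _) (hy δ' d0)) (by linarith [rg.δν]) hC
      (Or.inr (Or.inl ⟨by omega, by norm_num⟩)) ?_
    have u4 : ((X.card : ℝ) ^ 2 + r ^ 2) * (ro r * (1 + 6 * δ')) / ν ≤
        (0 ^ 2 + (r * t + r) ^ 2) * (ro r * (1 + 6 * δ')) / ν :=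
      div_le_div_of_nonneg_right (mul_le_mul_of_nonneg_right (by
        nlinarith only [pow_le_pow_left₀ (Nat.cast_nonneg _) x6 2, x6, x8, R]) (by positivity)) rg.ν0.le
    rw [x4] at u2
    linarith
  have d : D = ∅ := card_eq_zero.1 (by omega)
  exact ⟨cx, p2, w, X, m.1, hw, hX, fun i hi => ((sum_eq_sum_iff_of_le (f := fun _ => 1)
    fun i hi => (p i hi).1).1 (by rw [x1]; simp; omega) i hi).symm, eB d, m.one⟩

end Fn

end Pool.Agent.P.MP_094db5_co.Dn
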