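import Pool.Agent.P.MP_094db5_co.DG2

/-! The structure of extremal graphs in the dense range. -/

set_option autoImplicit false

open Finset Classical

noncomputable section

namespace Pool.Agent.P.MP_094db5_co.Dn

lemma Same.congr {I : Finset ℕ} {y y' z z' : ℕ → ℤ} (h : Same I y y') (e : ∀ i ∈ I, z i = y i)
    (e' : ∀ i ∈ I, z' i = y' i) : Same I z z' :=
  ⟨(sum_congr rfl e').trans (h.1.trans (sum_congr rfl e).symm),
    (sum_congr rfl fun i hi => by rw [e' i hi]).trans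
      (h.2.trans (sum_congr rfl fun i hi => by rw [e i hi]))⟩

lemma exists_nat {I : Finset ℕ} {c : ℝ} {y : ℕ → ℤ} (c0 : 0 ≤ c) (h : VV I c y ≤ c ^ 2) :
    ∃ n, ∀ i ∈ I, zz n i = y i :=
  ⟨fun i => (y i).toNat, fun i hi => Int.toNat_of_nonneg (by
    have := (abs_le.1 (abs_le_s (d := fun i => (y i : ℝ) - c) c0 h hi)).1
    exact_mod_cast (by linarith : (0 : ℝ) ≤ y i))⟩

lemma Bal.W {r N : ℕ} (hr : 1 ≤ r) {ν : ℝ} (hN : ν = N / r) {T : ℕ → ℕ} (hT : Bal r N T) :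
    WW r ν T ≤ r := by
  have r0 : (0 : ℝ) < r := by exact_mod_cast hr
  have a1 : ((N / r : ℕ) : ℝ) ≤ ν := hN ▸ Nat.cast_div_le
  have a2 : ν < (N / r : ℕ) + 1 := by
    rw [hN, div_lt_iff₀ r0, mul_comm]
    exact_mod_cast Nat.lt_mul_div_succ N hr
  have := sum_le_card_nsmul (Icc 1 r) (fun i => ((T i : ℝ) - ν) ^ 2) 1 fun i hi => by
    have a3 : ((N / r : ℕ) : ℝ) ≤ T i := by exact_mod_cast (hT.1 i hi).1
    have a4 : (T i : ℝ) ≤ (N / r : ℕ) + 1 := by exact_mod_cast (hT.1 i hi).2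
    exact (sq_le_one_iff_abs_le_one _).2 (abs_le.2 ⟨by linarith, by linarith⟩)
  simpa [WW] using this

/-- the dense candidate -/
lemma exists_cand {r N d : ℕ} (r11 : 11 ≤ r) {ν : ℝ} (hN : ν = N / r) (ν1 : 16 ≤ ν)
    (hd : 2 * (d : ℝ) + r ≤ 4 * ν) : ∃ n₀ a₀, ∑ i ∈ Icc 1 r, n₀ i = N ∧ WW r ν n₀ ≤ 4 * ν ∧
      Top (Icc 1 r) a₀ (zz n₀) ∧ eK2 r n₀ + 2 * d = tu2 r N ∧ ∀ i ∈ Icc 1 r, ν / 2 ≤ n₀ i := by
  obtain ⟨T, hT⟩ := exists_bal (by omega : 1 ≤ r) N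
  obtain ⟨y, y1, y2⟩ := fill_up (I := Icc 1 r) (by simp; omega) (zz T) d
  obtain ⟨y', a, p1, p2⟩ := exists_top (I := Icc 1 r) ⟨1, mem_Icc.2 ⟨le_rfl, by omega⟩⟩ y
  have a1 := VV_add (c := ν) y1.symm y2.symm
  have a2 := Bal.W (by omega) hN hT
  rw [VV_zz, ← p1.vv] at a1
  obtain ⟨n, hn⟩ := exists_nat (c := ν) (y := y') (I := Icc 1 r) (by linarith) (by nlinarith)
  have a3 : WW r ν n = VV (Icc 1 r) ν y' := by
    rw [← VV_zz]; exact sum_congr rfl fun i hi => by rw [hn i hi]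
  have a4 : ∑ i ∈ Icc 1 r, n i = N := by
    have := (sum_congr rfl hn).trans (p1.1.trans y1)
    rw [← hT.2]
    unfold zz at this
    exact_mod_cast this
  have R0 : (r : ℝ) ≠ 0 := Nat.cast_ne_zero.2 (by omega)
  have a5 : ∀ n : ℕ → ℕ, ∑ i ∈ Icc 1 r, n i = N → ∑ i ∈ Icc 1 r, (n i : ℝ) = r * ν := fun n h => by
    rw [hN, mul_div_cancel₀ _ R0, ← h, Nat.cast_sum]
  have a6 := WW_eq (j := 0) (a5 T hT.2) (by rw [a5 n a4, add_zero])
  refine ⟨n, a, a4, by linarith, ⟨p2.1, fun z hz i hi => ?_⟩, by linarith [hT.eK2], fun i hi => ?_⟩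
  · rw [hn a p2.1]
    exact p2.2 z (hz.congr (fun i hi => (hn i hi).symm) fun _ _ => rfl) i hi
  · have := (abs_le.1 (abs_le_s (d := fun i => (n i : ℝ) - ν) (s := ν / 2) (by linarith)
      (by change WW r ν n ≤ _; nlinarith) hi)).1
    linarith

variable {V : Type} [Fintype V]

/-- dense form for cliques -/
def DP (r : ℕ) (G : SimpleGraph V) (c : V → ℕ) : Prop := ∃ z b w X, POK r c z b w X ∧
  (∀ i ∈ Icc 1 r \ {c z, c b}, ct c X i = 1) ∧ G = Pg c z b w X ∧ ∀ i ∈ Icc 1 r, 2 ≤ cn c i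

/-- dense form -/
def DF (r bk N : ℕ) (G : SimpleGraph V) (c : V → ℕ) : Prop :=
  ∑ i ∈ Icc 1 r, cn c i = N ∧ (bk = 1 ∧ DB r G c ∨ bk = 0 ∧ DP r G c)

/-- a star or pair form on a smaller core that misses many vertices -/
def BF (r bk g₀ N : ℕ) (B : ℝ) (G : SimpleGraph V) (c : V → ℕ) : Prop :=
  ∑ i ∈ Icc 1 r, cn c i + 1 = N ∧ (∀ i ∈ Icc 1 r, 1 ≤ cn c i) ∧
    ((∃ z w Y X a, SD r bk g₀ 0 c z w Y X a ∧ G = Tg c ⊥ z Y w X ∧
      B ≤ r * ((Out c a \ Y).card : ℝ)) ∨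
    ∃ z b w X, POK r c z b w X ∧ (∀ i ∈ Icc 1 r \ {c z, c b}, 1 ≤ ct c X i) ∧ G = Pg c z b w X ∧
      B ≤ r * (∑ i ∈ (Icc 1 r).erase (c z), (cn c i : ℝ) - (X.card + 1)))

section
variable {r bk g₀ : ℕ} {c : V → ℕ} {z w : V} {Y X : Finset V} {a : ℕ}

lemma df_empty (s : SD r 1 g₀ 0 c z w ∅ X a) (two : ∀ i ∈ Icc 1 r, 2 ≤ cn c i) :
    DB r (Tg c ⊥ z ∅ w X) c := by
  refine ⟨w, X, s.ok.le, s.ok.w0, fun v hv => (s.ok.hX v hv).resolve_right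
    fun e => one_ne_zero (s.hz.1 (e ▸ hv)), fun i hi => by rw [s.hx i hi, xS, ite_self], ?_, two⟩
  rw [Tg, sdiff_bot]
  ext u v
  simp [Sg]

lemma df_full (s : SD r bk g₀ 0 c z w Y X a) (two : ∀ i ∈ Icc 1 r, 2 ≤ cn c i)
    (e : (Out c a \ Y).card + bk = 1) :
    DF r bk (∑ i ∈ Icc 1 r, cn c i + 1) (Tg c ⊥ z Y w X) (Function.update c z a) := by
  have m := s.mp two
  have e1 := AAdm_eq1 m
  have a0 : a ≠ 0 := by have := mem_Icc.1 s.dat.ha; omega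
  have hw : Function.update c z a w = 0 := by
    rw [Function.update_of_ne s.ok.ow.symm]; exact s.ok.w0
  have lab : ∀ v ∈ X, Function.update c z a v ≠ 0 := fun v hv => by
    by_cases e : v = z
    · rwa [e, Function.update_self]
    · rw [Function.update_of_ne e]; exact (s.ok.hX v hv).resolve_right e
  have p : ∀ i ∈ Icc 1 r, ct (Function.update c z a) X i = 1 := fun i hi => by
    rw [ct_update s.ok.o0 a X (by have := mem_Icc.1 hi; omega), s.hx i hi, xS]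
    have := s.bk1
    have := s.hz
    grind
  simp only [toFinset_coe] at e1
  refine ⟨?_, ?_⟩
  · rw [sum_congr rfl (g := fun i => cn c i + if i = a then 1 else 0) fun i hi => by
      have := ct_update s.ok.o0 a univ (i := i) (by have := mem_Icc.1 hi; omega)
      simp only [mem_univ, true_and] at this
      exact this, sum_add_distrib, sum_ite_eq', if_pos s.dat.ha]
  rcases s.kd with ⟨b0, -, -, q⟩ | ⟨b1, -⟩ | ⟨-, -, q, -⟩
  · obtain ⟨b, hb⟩ := card_eq_one.1 q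
    obtain ⟨b1, b2⟩ := mem_sdiff.1 (hb ▸ mem_singleton_self b : b ∈ X.erase z \ Y)
    have b3 := s.lab b1
    have b4 := s.Xa b0 b (mem_of_mem_erase b1)
    have b5 : Out c a \ Y = {b} := (eq_of_subset_of_card_le (singleton_subset_iff.2
      (mem_sdiff.2 ⟨mem_Out.2 ⟨b3, b4⟩, b2⟩)) (by rw [card_singleton]; omega)).symm
    have zX := s.hz.2 b0
    have bX := mem_of_mem_erase b1
    have u : ∀ {v v'}, v ∈ X → v' ∈ X → Function.update c z a v' = Function.update c z a v → v' = v :=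
      fun {v v'} h h' => ct_uniq (p _ (mem_Icc.2 ⟨Nat.one_le_iff_ne_zero.2 (lab v h), m.1 v⟩)).le h h'
    refine Or.inr ⟨b0, z, b, w, (X.erase b).erase z, ⟨m.1, hw, lab z zX, lab b bX,
      fun e => ne_of_mem_erase b1 (u zX bX e.symm), fun v hv => ?_⟩, fun i hi => ?_, ?_, m.one⟩
    · simp only [mem_erase] at hv
      exact ⟨lab v hv.2.2, fun e => hv.1 (u zX hv.2.2 e), fun e => hv.2.1 (u bX hv.2.2 e)⟩
    · obtain ⟨i1, i2, i3⟩ := mem_J.1 hi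
      obtain ⟨v, hv, ev⟩ := ct_pos.1 (p i i1).ge
      exact le_antisymm ((ct_mono _ ((erase_subset _ _).trans (erase_subset _ _)) i).trans (p i i1).le)
        (ct_pos.2 ⟨v, mem_erase.2 ⟨fun e => i2 (by rw [← ev, e]),
          mem_erase.2 ⟨fun e => i3 (by rw [← ev, e]), hv⟩⟩, ev⟩)
    · rw [e1, b5, Pg, erase_right_comm, insert_erase b1, insert_erase zX]
  · refine Or.inl ⟨b1, w, X, m.1, hw, lab, p, ?_, m.one⟩
    rw [e1, card_eq_zero.1 (by omega : (Out c a \ Y).card = 0)]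
    ext u v
    simp [Sg]
  · omega

end

/-- the forbidden graph -/
abbrev Bk (r t : ℕ) : SimpleGraph (Fin r ⊕ Fin (t + 1)) := join ⊤ ⊥

lemma Bk_adj {r : ℕ} (hr : 3 ≤ r) (t : ℕ) : ∀ a, ∃ b, (Bk r t).Adj a b := by
  rintro (a | a)
  · exact ⟨Sum.inr 0, by simp [join]⟩
  · exact ⟨Sum.inl ⟨0, by omega⟩, by simp [join]⟩

lemma goodS {r t bk g₀ : ℕ} (hr : 3 ≤ r) (ht : bk = 0 ↔ t = 0) : GoodS (Bk r t) r bk g₀ 0 :=
  fun _ _ _ _ _ _ _ _ s two =>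
    ⟨free_of_noBook ((s.famB two rfl ht).noBook hr), (s.famB two rfl ht).nc hr⟩

lemma goodP {r : ℕ} (hr : 3 ≤ r) (t : ℕ) : GoodP (Bk r t) r := fun _ _ _ _ _ _ _ s two hx =>
  ⟨free_of_noBook ((s.famB two hx t).noBook hr), (s.famB two hx t).nc hr⟩

lemma PhK_zero (r : ℕ) (μ : ℝ) (bk g₀ : ℕ) (n : ℕ → ℕ) (a : ℕ) (y : ℕ → ℕ) :
    PhK r μ bk g₀ n a y 0 0 = Qn r μ n := by
  simp [PhK, PhS, ph1, Qn]

lemma big_of {r N : ℕ} (r0 : 0 < r) {B : ℝ} (h : ⌈B * r⌉₊ ≤ N) : B ≤ N / r := by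
  rw [le_div_iff₀ (by exact_mod_cast r0)]; exact Nat.ceil_le.1 h

lemma le_sqrt {r N : ℕ} (r0 : 0 < r) {C : ℝ} (h : C ^ 2 ≤ N / r) : C ≤ √N :=
  Real.le_sqrt_of_sq_le (h.trans (div_le_self (Nat.cast_nonneg _) (by exact_mod_cast r0)))

theorem setup {r : ℕ} (r11 : 11 ≤ r) (t : ℕ) (K : ℝ) : ∃ N₀ : ℕ, ∀ N d m : ℕ, N₀ ≤ N →
    2 * (d : ℝ) + r ≤ 4 * (N / r) → |2 * (m : ℝ) - tu2 r N| ≤ 2 * (r * (N / r)) →
    ∀ (V : Type) [Fintype V] (G : SimpleGraph V), InN (Bk r t) r m G →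
    (∀ (W : Type) [Fintype W] (H : SimpleGraph W), InN (Bk r t) r m H → lam H ≤ lam G) →
    ∃ δ' n₀ a₀, (∀ bk ≤ 1, Qn r (lam G) n₀ ≤ 1 + gc bk (lam G) n₀ →
      Fz r N bk (1 / (1000 * r ^ 2)) δ' (N / r) G n₀ a₀) ∧ K * δ' ≤ 1 ∧ δ' * (N / r) = 8 * √N ∧
      eK2 r n₀ + 2 * d = tu2 r N ∧ (∀ i ∈ Icc 1 r, 2 ≤ n₀ i ∧ (N : ℝ) / r / 2 ≤ n₀ i) ∧ 0 < lam G ∧
      ∃ c, FamB r t G c := by
  have hr : 3 ≤ r := by omega
  have R : (11 : ℝ) ≤ r := by exact_mod_cast r11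
  obtain ⟨m₀, hB⟩ := book_all hr t
  obtain ⟨δ, hδ⟩ : ∃ δ : ℝ, δ = 1 / (1000 * r ^ 2) := ⟨_, rfl⟩
  have δ0 : 0 < δ := by rw [hδ]; positivity
  have δ1 : 1000 * (r : ℝ) ^ 2 * δ = 1 := by rw [hδ]; field_simp
  have η0 : 0 < δ / (30 * r ^ 2) := by positivity
  obtain ⟨m₁, ha⟩ := exists_apr hr (Bk_adj hr t) (fun V _ G => NoBook G r t)
    (fun V _ => cls_book hr t) (fun V _ G => ⟨free_of_noBook, noBook_of_free⟩) η0 (by
    have a1 : (9 : ℝ) ≤ r ^ 2 := by nlinarith only [R]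
    rw [div_le_one (by positivity)]; linarith [mul_le_mul_of_nonneg_right a1 δ0.le])
  obtain ⟨A, A0, A1, A2, A3⟩ : ∃ A : ℝ, 0 ≤ A ∧ K ≤ A ∧ 10000000 * r ≤ A ∧ 1000 * (r : ℝ) ^ 2 ≤ A :=
    ⟨|K| + 10000000 * r + 1000 * r ^ 2, by positivity, by nlinarith only [le_abs_self K, R],
      by nlinarith only [abs_nonneg K], by linarith only [abs_nonneg K, R]⟩
  obtain ⟨B, B1, B3, B4⟩ : ∃ B : ℝ, 2 ≤ δ / (30 * r ^ 2) * B ∧ (m₀ : ℝ) + m₁ + 16 ≤ B ∧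
      (8 * r * A) ^ 2 ≤ B := by
    refine ⟨max (2 / (δ / (30 * r ^ 2))) (max (m₀ + m₁ + 16) ((8 * r * A) ^ 2)), ?_,
      (le_max_left _ _).trans (le_max_right _ _), (le_max_right _ _).trans (le_max_right _ _)⟩
    rw [mul_comm, ← div_le_iff₀ (by positivity)]
    exact le_max_left _ _
  refine ⟨⌈B * r⌉₊, fun N d m hN hd hm V _ G g1 g2 => ?_⟩
  have ν1 := big_of (by omega) hN
  have s3 := le_sqrt (by omega) (B4.trans ν1)
  rw [← hδ]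
  obtain ⟨ν, hν⟩ : ∃ ν : ℝ, ν = N / r := ⟨_, rfl⟩
  rw [← hν] at hd hm ν1 ⊢
  obtain ⟨e1, e2⟩ := abs_le.1 hm
  have m0 : (0 : ℝ) ≤ m₀ := Nat.cast_nonneg _
  have m1 : (0 : ℝ) ≤ m₁ := Nat.cast_nonneg _
  have ν0 : 0 < ν := by linarith
  have eN : (N : ℝ) = r * ν := by rw [hν]; field_simp
  have rν := mul_le_mul_of_nonneg_right R ν0.le
  have N0 : (0 : ℝ) < N := by linarith
  have s0 := Real.sqrt_pos.2 N0
  have s2 := (Real.sq_sqrt N0.le).trans eN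
  generalize √(N : ℝ) = s at *
  have s4 : 8 * s / ν * ν = 8 * s := div_mul_cancel₀ _ ν0.ne'
  have s5 : 0 < 8 * s / ν := by positivity
  have s6 : A * (8 * s / ν) ≤ 1 := by
    rw [← mul_div_assoc, div_le_one ν0]
    refine le_of_mul_le_mul_left ?_ (show (0 : ℝ) < r by linarith)
    nlinarith only [mul_le_mul_of_nonneg_left s3 s0.le, s2]
  have s7 : (8 * s / ν) ^ 2 * ν = 64 * r := by
    rw [show (8 * s / ν) ^ 2 * ν = 64 * s ^ 2 / ν by field_simp; ring, s2]; field_simp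
  generalize 8 * s / ν = δ' at *
  have mm : m₀ + m₁ ≤ m := by
    have a1 := (tu2_bounds (by omega) hν (by linarith)).1
    have a2 : ν ≤ (ν - 1) ^ 2 := by nlinarith only [B3, ν1, m0, m1]
    have a3 := mul_le_mul (show 10 * (r : ℝ) ≤ r * (r - 1) by nlinarith only [R]) a2 ν0.le
      (by nlinarith only [R])
    exact_mod_cast (by push_cast; linarith : ((m₀ + m₁ : ℕ) : ℝ) ≤ m)
  have ap := ha m (by omega) V G g1 g2
  have l0 : 0 < lam G := by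
    by_contra hn
    nlinarith only [ap.big, η0, hn]
  have eG : (ec G : ℝ) = m := congrArg _ g1.1
  obtain ⟨n₀, a₀, p1, p2, p3, p4, p5⟩ := exists_cand r11 hν (by linarith) hd
  exact ⟨δ', n₀, a₀, fun bk bk1 cd => ⟨⟨hr, hν, δ0, δ1.le, ap,
    B1.trans (mul_le_mul_of_nonneg_left ν1 η0.le), by linarith, by linarith⟩, r11, s5,
    le_of_mul_le_mul_left (a := 1000 * (r : ℝ) ^ 2) (by linarith [mul_le_mul_of_nonneg_right A3 s5.le])
      (by positivity), by linarith [mul_le_mul_of_nonneg_right A2 s5.le], by linarith, s7.le, p1, p2, p3,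
    bk1, cd⟩, (mul_le_mul_of_nonneg_right A1 s5.le).trans s6, s4, p4,
    fun i hi => ⟨by exact_mod_cast (by linarith [p5 i hi] : (2 : ℝ) ≤ n₀ i), p5 i hi⟩, l0,
    ((hB m (by omega) V G).1 ⟨g1, g2⟩).1.2⟩

theorem dense_fwd {r t bk g₀ : ℕ} (r11 : 11 ≤ r) (hk : Kind r bk g₀ 0) (ht : bk = 0 ↔ t = 0)
    (K : ℝ) : ∃ N₀ : ℕ, ∀ N d m : ℕ, N₀ ≤ N →
    m + d + (1 - bk) = (SimpleGraph.turanGraph N r).edgeSet.ncard + r →
    2 * (d : ℝ) + r ≤ 4 * (N / r) → ∀ (V : Type) [Fintype V] (G : SimpleGraph V),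
    InN (Bk r t) r m G →
    (∀ (W : Type) [Fintype W] (H : SimpleGraph W), InN (Bk r t) r m H → lam H ≤ lam G) →
    ∃ δ' n₀ a₀, Fn r N bk (1 / (1000 * r ^ 2)) δ' (N / r) G n₀ a₀ ∧ Cx r N δ' (N / r) (lam G) n₀ a₀ ∧
      K * δ' ≤ 1 ∧ δ' * (N / r) = 8 * √N ∧ eK2 r n₀ + 2 * d = tu2 r N ∧
      ∃ c, DF r bk N G c ∨ (WW r (N / r) (cn c) ≤ 4 * r * (N / r) ∧
        BF r bk g₀ N (2 * (r - 1) * (N / r) - 320 * r ^ 2 * √N) G c) := by
  have hr : 3 ≤ r := by omega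
  have R : (11 : ℝ) ≤ r := by exact_mod_cast r11
  have bk1 : bk ≤ 1 := by rcases hk with e | e | e <;> omega
  obtain ⟨N₀, hS⟩ := setup r11 t K
  refine ⟨max N₀ ⌈10 * ((r : ℝ) * t + r) ^ 2 * r⌉₊, fun N d m hN hm hd V _ G g1 g2 => ?_⟩
  have ν1 := big_of (by omega) ((le_max_right _ _).trans hN)
  have s3 : (r : ℝ) * t + r ≤ √N := le_sqrt (r := r) (by omega) (by linarith [sq_nonneg ((r : ℝ) * t + r)])
  have eb : ((1 - bk : ℕ) : ℝ) = 1 - bk := by rw [Nat.cast_sub bk1, Nat.cast_one]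
  have b0 : (0 : ℝ) ≤ bk := Nat.cast_nonneg _
  have b1 : (bk : ℝ) ≤ 1 := by exact_mod_cast bk1
  have d0 : (0 : ℝ) ≤ d := Nat.cast_nonneg _
  have e2 : 2 * (m : ℝ) + 2 * d + 2 * (1 - bk) = tu2 r N + 2 * r := by
    rw [← tu2_eq (by omega), ← eb]
    exact_mod_cast (by omega :
      2 * m + 2 * d + 2 * (1 - bk) = 2 * (SimpleGraph.turanGraph N r).edgeSet.ncard + 2 * r)
  have rν := mul_le_mul_of_nonneg_right R (show (0 : ℝ) ≤ N / r by positivity)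
  obtain ⟨δ', n₀, a₀, fz, s6, s4, p4, p5, l0, c₀, hc⟩ := hS N d m ((le_max_left _ _).trans hN) hd
    (abs_le.2 ⟨by linarith, by linarith⟩) V G g1 g2
  have s0 := Real.sqrt_nonneg (N : ℝ)
  generalize (N : ℝ) / r = ν at *
  generalize √(N : ℝ) = s at *
  have eG : (ec G : ℝ) = m := congrArg _ g1.1
  have two : ∀ i ∈ Icc 1 r, 2 ≤ n₀ i := fun i hi => (p5 i hi).1
  have i1 : 1 ∈ Icc 1 r := mem_Icc.2 ⟨by omega, by omega⟩
  have i2 : 2 ∈ Icc 1 r := mem_Icc.2 ⟨by omega, by omega⟩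
  have h : Fn r N bk (1 / (1000 * r ^ 2)) δ' ν G n₀ a₀ := by
    refine ⟨fz bk bk1 ?_, by linarith⟩
    rcases Nat.eq_zero_or_pos bk with b | b
    · have := orP (goodP hr t) l0 g2 n₀ 1 2 (fun _ => 1) two i1 i2 (by omega)
        (fun i hi => ⟨le_rfl, one_le_two.trans (two i (mem_J.1 hi).1)⟩) (by
          have c1 : ((Icc 1 r \ {1, 2}).card : ℝ) + 2 = r := by
            exact_mod_cast card_pair_sdiff i1 i2 (by omega)
          rw [b] at e2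
          simp only [sum_const, nsmul_eq_mul]
          push_cast at e2 ⊢
          linarith) (1 / (lam G + n₀ 1)) (1 / (lam G + n₀ 2)) 0
      rw [PhP_zero i1 i2 (by omega)] at this
      rw [gc, b]
      push_cast
      linarith
    · obtain rfl : bk = 1 := by omega
      have := orS hk (goodS hr ht) l0 g2 n₀ 1 (fun _ => 0) two
        ⟨i1, rfl, fun i hi => ⟨le_rfl, Nat.zero_le _⟩⟩
        ⟨2, mem_erase.2 ⟨by omega, i2⟩, by have := two 2 i2; omega⟩ (by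
          simp only [Nat.cast_zero, sum_const_zero]
          push_cast at e2
          linarith) 0 0
      rw [PhK_zero] at this
      rw [gc]
      push_cast
      linarith
  have eB : 2 * (r - 1) * ν - 40 * r ^ 2 * δ' * ν = 2 * (r - 1) * ν - 320 * r ^ 2 * s := by
    rw [mul_assoc _ δ', s4]; ring
  suffices key : Cx r N δ' ν (lam G) n₀ a₀ ∧ ∃ c, DF r bk N G c ∨ (WW r ν (cn c) ≤ 4 * r * ν ∧
      BF r bk g₀ N (2 * (r - 1) * ν - 320 * r ^ 2 * s) G c) from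
    ⟨δ', n₀, a₀, h, key.1, s6, s4, p4, key.2⟩
  rcases form2 hc hk ht with ⟨c, z, w, Y, X, a, q, e, p⟩ | ⟨c, z, b, w, X, q, hx, e, p⟩ | ⟨t1, c, q⟩
  · obtain ⟨cx, W, k⟩ := h.star q e p
    have two := cx.rg.two_le (cx.cl' W)
    refine ⟨cx, ?_⟩
    rcases k with ⟨k1, rfl, rfl⟩ | ⟨k1, k | k⟩
    · exact ⟨c, Or.inl ⟨k1, Or.inl ⟨rfl, e ▸ df_empty q two⟩⟩⟩
    · exact ⟨_, Or.inl (e ▸ k1 ▸ df_full q two k)⟩
    · exact ⟨c, Or.inr ⟨W, k1, p, Or.inl ⟨z, w, Y, X, a, q, e, eB ▸ k⟩⟩⟩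
  · obtain ⟨cx, W, k⟩ := h.pair q hx e p
    have two := cx.rg.two_le (cx.cl' W)
    refine ⟨cx, c, ?_⟩
    rcases k with ⟨k1, k2, k3⟩ | ⟨k1, k⟩
    · exact Or.inl ⟨k1, Or.inr ⟨k2, z, b, w, X, q, k3, e, two⟩⟩
    · exact Or.inr ⟨W, k1, p, Or.inr ⟨z, b, w, X, q, hx, e, eB ▸ k⟩⟩
  · have b' : bk = 1 := by have := ht.1; omega
    obtain ⟨cx, k1, k2⟩ := h.third q b' ν1 (by linarith)
    exact ⟨cx, c, Or.inl ⟨k1, Or.inl ⟨b', k2⟩⟩⟩

/-- the forms on a smaller core need many deleted edges -/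
lemma BF.le {r bk g₀ N : ℕ} {B d : ℝ} {G : SimpleGraph V} {c : V → ℕ} (h : BF r bk g₀ N B G c)
    (he : 2 * (ec G : ℝ) + 2 * d + 2 * (1 - bk) = tu2 r N + 2 * r) : B ≤ r * (d + 1) := by
  obtain ⟨h1, -, ⟨z, w, Y, X, a, s, rfl, k⟩ | ⟨z, b, w, X, s, -, rfl, k⟩⟩ := h
  · have a1 := eK2_le (t := 1) s.dat.ha h1.le
    have a2 := s.ec_eq
    have a3 := card_out s.ok.le s.dat.ha s.ok.hS s.dat.ya
    rw [sum_sub_distrib, ← s.dat.sum_eq] at a3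
    push_cast at a1
    refine k.trans (mul_le_mul_of_nonneg_left ?_ (Nat.cast_nonneg _))
    linarith [Nat.cast_nonneg (α := ℝ) bk]
  · have ha : c z ∈ Icc 1 r := mem_Icc.2 ⟨Nat.one_le_iff_ne_zero.2 s.z0, s.le z⟩
    have a1 := eK2_le (t := 1) ha h1.le
    have a2 := s.ec2
    rw [s.sumX] at a2
    push_cast at a1
    refine k.trans (mul_le_mul_of_nonneg_left ?_ (Nat.cast_nonneg _))
    linarith [Nat.cast_nonneg (α := ℝ) bk, Nat.cast_nonneg (α := ℝ) r]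

end Pool.Agent.P.MP_094db5_co.Dn
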