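import Pool.Agent.P.MP_094db5_co.DG3
import Pool.Agent.P.MP_094db5_co.DDefs

/-! The dense range for books. -/

set_option autoImplicit false

open Finset Classical

noncomputable section

namespace Pool.Agent.P.MP_094db5_co.Dn

lemma es_zz (I : Finset ℕ) (n : ℕ → ℕ) (j : ℕ) : es I (zz n) j = kc I n j := by
  simp [es, kc, zz]

lemma es_congr {I : Finset ℕ} {y y' : ℕ → ℤ} (h : ∀ i ∈ I, y i = y' i) (j : ℕ) :
    es I y j = es I y' j :=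
  sum_congr rfl fun _ hS => prod_congr rfl fun i hi => h i ((mem_powersetCard.1 hS).1 hi)

lemma same_of_kc {I : Finset ℕ} {n n' : ℕ → ℕ} {j : ℕ} (hj : 3 ≤ j)
    (h : ∀ i < j, kc I n' i = kc I n i) : Same I (zz n) (zz n') :=
  same_of_pw hj (pw_of_es j fun i hi => by rw [es_zz, es_zz, h i hi])

lemma Same.kc {I : Finset ℕ} {n n' : ℕ → ℕ} (h : Same I (zz n) (zz n')) :
    ∀ i < 3, kc I n' i = kc I n i := fun i hi => by
  have := es_of_pw 3 h.pw i hi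
  rw [es_zz, es_zz] at this
  exact_mod_cast this

theorem lex_nat (k e : ℕ) (A : ℝ) (he : 4 ≤ e + k) : ∃ L₀ : ℝ, ∀ (I : Finset ℕ) (μ c s : ℝ)
    (n : ℕ → ℕ), I.card = k + 8 → Mean I c (zz n) → 1 ≤ s → VV I c (zz n) ≤ s ^ 2 →
    VV I c (zz n) ≤ μ + c → s ^ 2 ^ e ≤ A * (μ + c) → L₀ ≤ μ + c → s ≤ c →
    ((∀ n', Same I (zz n) (zz n') → sg μ I (zz n) ≤ sg μ I (zz n')) ↔ LexMax I n) := by
  obtain ⟨L₀, h⟩ := lex_opt k e A he
  refine ⟨L₀, fun I μ c s n h1 h2 h3 h4 h5 h6 h7 h8 => ?_⟩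
  have key : ∀ z, Same I (zz n) z → ∃ n', Same I (zz n) (zz n') ∧ ∀ i ∈ I, zz n' i = z i :=
    fun z hz => by
      obtain ⟨n', hn⟩ := exists_nat (c := c) (y := z) (I := I) (by linarith)
        (hz.vv ▸ h4.trans (pow_le_pow_left₀ (by linarith) h8 2))
      exact ⟨n', hz.congr (fun _ _ => rfl) hn, hn⟩
  have a1 := h I μ c s (zz n) h1 h2 h3 h4 h5 h6 h7
  refine ⟨fun p n' j hj q => ?_, fun p n' q => a1.2 (fun z hz => ?_) _ q⟩
  · have := lexR_iff.1 (a1.1 (fun z hz => by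
      obtain ⟨n', p1, p2⟩ := key z hz
      exact (p n' p1).trans_eq (sum_congr rfl fun i hi => by rw [p2 i hi])) _ (same_of_kc hj q)) j hj
      fun i hi => by rw [es_zz, es_zz, q i hi]
    rw [es_zz, es_zz] at this
    exact_mod_cast this
  · obtain ⟨n', -, p2⟩ := key z hz
    refine lexR_iff.2 fun j hj q => ?_
    rw [← es_congr p2, es_zz, es_zz]
    exact_mod_cast p n' j hj fun i hi => by
      have := q i hi
      rw [← es_congr p2, es_zz, es_zz] at this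
      exact_mod_cast this

variable {r M a₀ : ℕ} {δ ν μ : ℝ} {n n' n₀ : ℕ → ℕ}

lemma same_iff : Same (Icc 1 r) (zz n) (zz n') ↔
    ∑ i ∈ Icc 1 r, n' i = ∑ i ∈ Icc 1 r, n i ∧ eK2 r n' = eK2 r n := by
  refine ⟨fun ⟨h1, h2⟩ => ?_, fun ⟨h1, h2⟩ => ⟨sum_zz h1, by
    simpa using (sq_zz (u := 0) h1 (by simpa using h2)).symm⟩⟩
  unfold zz at h1 h2
  refine ⟨by exact_mod_cast h1, ?_⟩
  have a1 : ∑ i ∈ Icc 1 r, (n' i : ℝ) = ∑ i ∈ Icc 1 r, (n i : ℝ) := by exact_mod_cast h1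
  have a2 : ∑ i ∈ Icc 1 r, (n' i : ℝ) ^ 2 = ∑ i ∈ Icc 1 r, (n i : ℝ) ^ 2 := by exact_mod_cast h2
  rw [eK2, eK2, a1, a2]

lemma Cx.Wsame (h : Cx r M δ ν μ n₀ a₀) (s : Same (Icc 1 r) (zz n₀) (zz n)) : WW r ν n ≤ 4 * ν := by
  rw [← VV_zz, s.vv, VV_zz]; exact h.W0

lemma Cx.two (h : Cx r M δ ν μ n₀ a₀) (s : Same (Icc 1 r) (zz n₀) (zz n)) :
    ∀ i ∈ Icc 1 r, 2 ≤ n i :=
  h.rg.two_le (h.cl' ((h.Wsame s).trans (by
    linarith [mul_le_mul_of_nonneg_right h.R h.rg.ν0.le, h.rg.ν0])))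

lemma lexB (r11 : 11 ≤ r) : ∃ L₀ : ℝ, ∀ {M a₀ : ℕ} {δ ν μ : ℝ} {n n₀ : ℕ → ℕ},
    Cx r M δ ν μ n₀ a₀ → L₀ ≤ ν → Same (Icc 1 r) (zz n₀) (zz n) →
    ((∀ n', Same (Icc 1 r) (zz n) (zz n') → sg μ (Icc 1 r) (zz n) ≤ sg μ (Icc 1 r) (zz n')) ↔
      LexMax (Icc 1 r) n) := by
  obtain ⟨L₀, h⟩ := lex_nat (r - 8) 1 1 (by omega)
  refine ⟨L₀, fun {M a₀ δ ν μ n n₀} cx L s => ?_⟩
  have a1 := cx.Wsame s
  have a2 := cx.rg.ν1
  have a3 := cx.R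
  have a4 := cx.μ9
  have a5 : √(4 * ν) ^ 2 = 4 * ν := Real.sq_sqrt (by linarith)
  rw [← VV_zz] at a1
  exact h _ μ ν √(4 * ν) n (by simp; omega) (cx.mean.of s.1) (Real.one_le_sqrt.2 (by linarith))
    (by linarith) (by linarith) (by rw [pow_one, a5]; linarith) (by linarith)
    (Real.sqrt_le_iff.2 ⟨by linarith, by nlinarith⟩)

lemma orB {E : ℝ} (μ0 : 0 < μ) (r2 : 2 ≤ r) (o : OrS r 1 0 0 μ E) (two : ∀ i ∈ Icc 1 r, 2 ≤ n i)
    (e : eK2 r n + 2 * r = E) (β : ℝ) : PhB r μ n β ≤ 1 := by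
  have i1 : 1 ∈ Icc 1 r := mem_Icc.2 ⟨by omega, by omega⟩
  have i2 : 2 ∈ Icc 1 r := mem_Icc.2 ⟨by omega, by omega⟩
  have := o n 1 (fun _ => 0) two ⟨i1, rfl, fun i hi => ⟨le_rfl, Nat.zero_le _⟩⟩
    ⟨2, mem_erase.2 ⟨by omega, i2⟩, by have := two 2 i2; omega⟩ (by simpa using e) 0 β
  rw [PhK, show gS r 1 0 (fun _ => 0) = 0 by simp [gS], Nat.cast_one, sub_self,
    PhS_B μ0 (fun _ _ => rfl) fun i _ => by simp [xS]] at this
  simpa using this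

lemma PhB_le_iff (μ0 : 0 < μ) {β : ℝ} (hβ : β < μ) :
    PhB r μ n' β ≤ PhB r μ n β ↔ sg μ (Icc 1 r) (zz n) ≤ sg μ (Icc 1 r) (zz n') := by
  have : 0 < (μ - β) ^ 2 / μ := div_pos (pow_pos (by linarith) 2) μ0
  rw [PhB, PhB, sub_le_sub_iff_right, add_le_add_iff_right, sub_le_sub_iff_left,
    mul_le_mul_iff_right₀ this]

variable {V : Type} [Fintype V] {G : SimpleGraph V} {c : V → ℕ}

lemma DB.mp (h : DB r G c) : ∃ (w : V) (X : Set V), c w = 0 ∧ Tr c (Icc 1 r) X ∧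
    Mp G r c (spokes w X) ∅ := by
  obtain ⟨w, X, h1, h2, h3, h4, rfl, h6⟩ := h
  refine ⟨w, X, h2, ⟨fun v hv => mem_Icc.2 ⟨Nat.one_le_iff_ne_zero.2 (h3 v hv), h1 v⟩,
    fun i hi => by rw [pc_ct, h4 i hi]⟩, h1, fun i hi => by rw [cn_eq]; exact h6 i hi, fun u v => ?_⟩
  have := h3 w
  simp only [SimpleGraph.sup_adj, Kc, cross, Sg, AStr_spokes, mem_coe, Set.mem_empty_iff_false]
  grind

lemma db_of {w : V} {X : Set V} (h1 : c w = 0) (h2 : Tr c (Icc 1 r) X)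
    (h3 : Mp G r c (spokes w X) ∅) : DB r G c := by
  lift X to Finset V using Set.toFinite X
  refine ⟨w, X, h3.1, h1, fun v hv => by have := mem_Icc.1 (h2.1 v hv); omega,
    fun i hi => pc_ct c X i ▸ h2.2 i hi, ?_, h3.one⟩
  ext u v
  have a1 := h3.2.2 u v
  have a2 : G.Adj u v → u ≠ v := G.ne_of_adj
  simp only [AStr_spokes, mem_coe, Set.mem_empty_iff_false] at a1
  simp only [SimpleGraph.sup_adj, Kc, cross, Sg]
  grind

lemma DB.famB (h : DB r G c) (hr : 3 ≤ r) {t : ℕ} (ht : 1 ≤ t) : FamB r t G c := by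
  obtain ⟨w, X, h1, h2, h3⟩ := h.mp
  refine ⟨w, w, X, ∅, h1, fun v hv => by have := mem_Icc.1 (h2.1 v hv); omega, by simp,
    fun i hi => (h2.2 i hi).ge, Or.inr (Or.inr ⟨?_, ht, h1, fun i hi => h2.2 i hi ▸ ht, by simp,
      fun e => ?_, fun e => absurd e Set.not_nonempty_empty⟩)⟩
  · rwa [show spokes w ∅ = ∅ by ext; simp [spokes], Set.union_empty]
  · obtain ⟨v, hv, -⟩ := AAdm_ex (h2.2 1 (mem_Icc.2 ⟨le_rfl, by omega⟩)).ge
    exact e hv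

lemma DB.ec (h : DB r G c) : 2 * (ec G : ℝ) = eK2 r (cn c) + 2 * r := by
  obtain ⟨w, X, h1, h2, h3, h4, rfl, -⟩ := h
  rw [ec_B h1 h2 h3, card_tr h1 h3 h4]

/-- optimal part sizes for books -/
lemma DB.opt (h : DB r G c) (cx : Cx r M δ ν (lam G) n₀ a₀) (s : Same (Icc 1 r) (zz n₀) (zz (cn c)))
    (o : OrS r 1 0 0 (lam G) (2 * Pool.Agent.P.MP_094db5_co.ec G)) :
    (∀ n', Same (Icc 1 r) (zz (cn c)) (zz n') →
      sg (lam G) (Icc 1 r) (zz (cn c)) ≤ sg (lam G) (Icc 1 r) (zz n')) ∧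
    ∀ (W : Type) [Fintype W] (H : SimpleGraph W) (c' : W → ℕ), DB r H c' →
      sg (lam G) (Icc 1 r) (zz (cn c')) ≤ sg (lam G) (Icc 1 r) (zz (cn c)) → lam G ≤ lam H := by
  have e := h.ec
  obtain ⟨w, X, h1, h2, h3, h4, rfl, -⟩ := h
  have μ0 := cx.rg.μ0
  obtain ⟨α, a1, up⟩ := upperB h1 h2 h3 h4 (by linarith [cx.rg.μ5])
  refine ⟨fun n' q => (PhB_le_iff μ0 a1).1 ((orB μ0 (by have := cx.r11; omega) o (cx.two (s.trans q))
    (by rw [(same_iff.1 q).2, e]) α).trans up), ?_⟩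
  rintro W _ H c' ⟨w', X', p1, p2, p3, p4, rfl, -⟩ q
  exact lowerB p1 p2 p3 p4 μ0 (up.trans ((PhB_le_iff μ0 a1).2 q))

lemma no_BF {r N d bk g₀ : ℕ} (r11 : 11 ≤ r) (N1 : 1 ≤ N)
    (hd : (d : ℝ) ≤ 2 * (r - 1) / r * (N / r) - 400 * r * √N)
    (he : 2 * (ec G : ℝ) + 2 * d + 2 * (1 - bk) = tu2 r N + 2 * r) :
    ¬ BF r bk g₀ N (2 * (r - 1) * (N / r) - 320 * r ^ 2 * √N) G c := fun h => by
  have a1 := h.le he
  have R : (11 : ℝ) ≤ r := by exact_mod_cast r11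
  have a2 : (1 : ℝ) ≤ √N := Real.one_le_sqrt.2 (by exact_mod_cast N1)
  have a3 := mul_le_mul_of_nonneg_left hd (show (0 : ℝ) ≤ r by linarith)
  rw [mul_sub, ← mul_assoc, mul_div_cancel₀ _ (by linarith)] at a3
  nlinarith [mul_le_mul_of_nonneg_left a2 (show (0 : ℝ) ≤ r ^ 2 by positivity)]

lemma range_le {r N d : ℕ} (r11 : 11 ≤ r) (N1 : 1 ≤ N)
    (hd : (d : ℝ) ≤ 2 * (r - 1) / r * (N / r) - 400 * r * √N) : 2 * (d : ℝ) + r ≤ 4 * (N / r) := by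
  have R : (11 : ℝ) ≤ r := by exact_mod_cast r11
  have a2 : (1 : ℝ) ≤ √N := Real.one_le_sqrt.2 (by exact_mod_cast N1)
  have a3 : 2 * (r - 1) / r * (N / r : ℝ) ≤ 2 * (N / r) := mul_le_mul_of_nonneg_right
    (by rw [div_le_iff₀ (by linarith)]; linarith) (by positivity)
  nlinarith [mul_le_mul_of_nonneg_left a2 (show (0 : ℝ) ≤ r by positivity)]

end Pool.Agent.P.MP_094db5_co.Dn
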