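import Pool.Agent.P.MP_094db5_co.DC3

/-! The extremal graphs in the dense range. -/

set_option autoImplicit false

open Finset Classical

noncomputable section

namespace Pool.Agent.P.MP_094db5_co.Dn

variable {V : Type} [Fintype V] {G : SimpleGraph V} {c : V → ℕ} {r t N : ℕ}

/-- optimal dense form for cliques -/
def OQ (r : ℕ) (G : SimpleGraph V) (c : V → ℕ) : Prop := ∃ z b w X, POK r c z b w X ∧
  (∀ i ∈ Icc 1 r \ {c z, c b}, ct c X i = 1) ∧ G = Pg c z b w X ∧ (∀ i ∈ Icc 1 r, 2 ≤ cn c i) ∧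
  PairMax r (cn c) (c z) (c b) ∧ LexMax (Icc 1 r \ {c z, c b}) (cn c)

theorem denseB_iff : DenseB r t N G c ↔ ∑ i ∈ Icc 1 r, cn c i = N ∧
    if t = 0 then OQ r G c else DB r G c ∧ LexMax (Icc 1 r) (cn c) := by
  have e1 : ∀ z b : V, spokes z {b} = {s(z, b)} := fun z b => by ext e; simp [spokes]
  rw [DenseB, sz_eq]
  split_ifs with e
  · constructor
    · rintro ⟨w, X, hw, tr, hs, z, hz, b, hb, zb, m, p1, p2⟩
      lift X to Finset V using Set.toFinite X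
      have lab : ∀ v ∈ X, c v ≠ 0 := fun v hv => by have := mem_Icc.1 (tr.1 v hv); omega
      have u : ∀ {v v'}, v ∈ X → v' ∈ X → c v' = c v → v' = v := fun {v v'} h h' =>
        AAdm_uniq (tr.2 _ (tr.1 v h)) h h'
      refine ⟨hs, z, b, w, (X.erase b).erase z, ⟨m.1, hw, lab z hz, lab b hb,
        fun e => zb (u hb hz e), fun v hv => ?_⟩, fun i hi => ?_, ?_, m.one, p1, p2⟩
      · simp only [mem_erase] at hv
        exact ⟨lab v hv.2.2, fun e => hv.1 (u hz hv.2.2 e), fun e => hv.2.1 (u hb hv.2.2 e)⟩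
      · obtain ⟨i1, i2, i3⟩ := mem_J.1 hi
        have p := tr.2 i i1
        rw [pc_ct] at p
        obtain ⟨v, hv, ev⟩ := ct_pos.1 p.ge
        exact le_antisymm ((ct_mono _ ((erase_subset _ _).trans (erase_subset _ _)) i).trans p.le)
          (ct_pos.2 ⟨v, mem_erase.2 ⟨fun e => i2 (by rw [← ev, e]),
            mem_erase.2 ⟨fun e => i3 (by rw [← ev, e]), hv⟩⟩, ev⟩)
      · rw [← e1] at m
        rw [AAdm_eq1 m, Pg, erase_right_comm, insert_erase (mem_erase.2 ⟨zb.symm, hb⟩),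
          insert_erase hz]
        simp
    · rintro ⟨hs, z, b, w, X, s, hx, rfl, two, p1, p2⟩
      have zb := s.zb
      refine ⟨w, (insert z (insert b X) : Finset V), s.w0, ⟨fun v hv => ?_, fun i hi => ?_⟩, hs, z,
        by simp, b, by simp, fun e => zb (e ▸ rfl), e1 z b ▸ s.mp two, p1, p2⟩
      · refine mem_Icc.2 ⟨Nat.one_le_iff_ne_zero.2 ?_, s.le v⟩
        simp only [mem_coe, mem_insert] at hv
        rcases hv with e | e | e
        exacts [e ▸ s.z0, e ▸ s.b0, (s.hX v e).1]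
      · have k : ∀ u, u = z ∨ u = b → ct c (insert z (insert b X)) (c u) = 1 := fun u hu => by
          rw [ct, card_eq_one]
          refine ⟨u, ?_⟩
          ext v
          have := s.hX v
          simp only [mem_filter, mem_insert, mem_singleton]
          grind
        rw [pc_ct]
        by_cases p : i = c z
        · rw [p, k z (Or.inl rfl)]
        · by_cases q : i = c b
          · rw [q, k b (Or.inr rfl)]
          · rw [← hx i (mem_J.2 ⟨hi, p, q⟩), ct, filter_insert, if_neg (Ne.symm p), filter_insert,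
              if_neg (Ne.symm q), ct]
  · exact ⟨fun ⟨w, X, hw, tr, hs, m, p⟩ => ⟨hs, db_of hw tr m, p⟩, fun ⟨hs, d, p⟩ => by
      obtain ⟨w, X, hw, tr, m⟩ := d.mp
      exact ⟨w, X, hw, tr, hs, m, p⟩⟩

lemma POK.ec3 {z b w : V} {X : Finset V} (s : POK r c z b w X)
    (hx : ∀ i ∈ Icc 1 r \ {c z, c b}, ct c X i = 1) :
    2 * (ec (Pg c z b w X) : ℝ) + 2 = eK2 r (cn c) + 2 * r := by
  have e : ((Icc 1 r \ {c z, c b}).card : ℝ) + 2 = r := by
    exact_mod_cast card_pair_sdiff (mem_Icc.2 ⟨Nat.one_le_iff_ne_zero.2 s.z0, s.le z⟩)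
      (mem_Icc.2 ⟨Nat.one_le_iff_ne_zero.2 s.b0, s.le b⟩) s.zb
  rw [s.ec2, sum_congr rfl (g := fun _ => 1) fun i hi => by rw [hx i hi, Nat.cast_one], sum_const,
    nsmul_eq_mul]
  linarith

lemma DenseB.famB (h : DenseB r t N G c) (hr : 3 ≤ r) : FamB r t G c := by
  obtain ⟨-, h⟩ := denseB_iff.1 h
  split_ifs at h with e
  · obtain ⟨z, b, w, X, s, hx, rfl, two, -⟩ := h
    exact s.famB two (fun i hi => (hx i hi).ge) t
  · exact h.1.famB hr (by omega)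

lemma Cx.W_ge {a₀ d : ℕ} {δ ν μ : ℝ} {n₀ : ℕ → ℕ} (h : Cx r N δ ν μ n₀ a₀)
    (e : eK2 r n₀ + 2 * d = tu2 r N) : 2 * d ≤ WW r ν n₀ := by
  obtain ⟨T, hT⟩ := exists_bal (by have := h.r11; omega : 1 ≤ r) N
  linarith [h.WW_add hT.2, hT.eK2, WW0 r ν T]

theorem dense_main {bk g₀ : ℕ} (r11 : 11 ≤ r) (hk : Kind r bk g₀ 0) (ht : bk = 0 ↔ t = 0) (K : ℝ) :
    ∃ N₀ : ℕ, ∀ N d m : ℕ, N₀ ≤ N →
    m + d + (1 - bk) = (SimpleGraph.turanGraph N r).edgeSet.ncard + r →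
    2 * (d : ℝ) + r ≤ 4 * (N / r) → ∀ (V : Type) [Fintype V] (G : SimpleGraph V),
    InN (Bk r t) r m G →
    (∀ (W : Type) [Fintype W] (H : SimpleGraph W), InN (Bk r t) r m H → lam H ≤ lam G) →
    (∃ c, DenseB r t N G c ∧ ((t = 0 → N₀ ≤ d) → ∀ (W : Type) [Fintype W] (H : SimpleGraph W)
      (c' : W → ℕ), ec H = m → DenseB r t N H c' → lam G ≤ lam H)) ∨
    ∃ δ' n₀ a₀ c, Fn r N bk (1 / (1000 * r ^ 2)) δ' (N / r) G n₀ a₀ ∧
      Cx r N δ' (N / r) (lam G) n₀ a₀ ∧ K * δ' ≤ 1 ∧ δ' * (N / r) = 8 * √N ∧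
      WW r (N / r) (cn c) ≤ 4 * r * (N / r) ∧
      BF r bk g₀ N (2 * (r - 1) * (N / r) - 320 * r ^ 2 * √N) G c := by
  have hr : 3 ≤ r := by omega
  have R : (11 : ℝ) ≤ r := by exact_mod_cast r11
  obtain ⟨L₀, hL⟩ := lexB r11
  obtain ⟨K₁, L₁, D₀, hP⟩ := optP r11
  obtain ⟨N₀, h⟩ := dense_fwd r11 hk ht (max K K₁)
  refine ⟨max (max N₀ ⌈D₀⌉₊) ⌈max L₀ L₁ * r⌉₊, fun N d m hN hm hd V _ G g1 g2 => ?_⟩
  have L : max L₀ L₁ ≤ N / r := by
    rw [le_div_iff₀ (by linarith)]; exact Nat.ceil_le.1 ((le_max_right _ _).trans hN)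
  obtain ⟨δ', n₀, a₀, fn, cx, k1, k2, p, c, q | q⟩ := h N d m
    ((le_max_left _ _).trans ((le_max_left _ _).trans hN)) hm hd V G g1 g2
  swap
  · exact Or.inr ⟨δ', n₀, a₀, c, fn, cx,
      (mul_le_mul_of_nonneg_right (le_max_left _ _) fn.d0.le).trans k1, k2, q⟩
  have eG : (ec G : ℝ) = m := congrArg _ g1.1
  have he := fn.he
  have μ0 := cx.rg.μ0
  refine Or.inl ⟨c, ?_⟩
  obtain ⟨q1, ⟨rfl, q3⟩ | ⟨rfl, z, b, w, X, s, hx, e, two⟩⟩ := q
  · have t0 : t ≠ 0 := fun e => one_ne_zero (ht.2 e)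
    obtain rfl : g₀ = 0 := by rcases hk with e | e | e <;> omega
    have sm : ∀ (W : Type) [Fintype W] (H : SimpleGraph W) (c' : W → ℕ), ec H = m →
        ∑ i ∈ Icc 1 r, cn c' i = N → DB r H c' → Same (Icc 1 r) (zz n₀) (zz (cn c')) :=
      fun W _ H c' a b e => same_iff.2 ⟨b.trans cx.h0.symm, by
        have := e.ec
        rw [a] at this
        push_cast at he
        linarith⟩
    have s := sm V G c g1.1 q1 q3
    have L' := (le_max_left _ _).trans L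
    obtain ⟨o1, o2⟩ := q3.opt cx s (eG ▸ orS hk (goodS hr ht) μ0 g2)
    refine ⟨denseB_iff.2 ⟨q1, by rw [if_neg t0]; exact ⟨q3, (hL cx L' s).1 o1⟩⟩,
      fun _ W _ H c' a b => ?_⟩
    obtain ⟨b1, b2⟩ := denseB_iff.1 b
    rw [if_neg t0] at b2
    exact o2 W H c' b2.1 ((hL cx L' (sm W H c' a b1 b2.1)).2 b2.2 _ ((sm W H c' a b1 b2.1).symm.trans s))
  · have t0 := ht.1 rfl
    have sm : ∀ (W : Type) [Fintype W] (c : W → ℕ) (z b w : W) (X : Finset W), POK r c z b w X →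
        (∀ i ∈ Icc 1 r \ {c z, c b}, ct c X i = 1) → ec (Pg c z b w X) = m →
        ∑ i ∈ Icc 1 r, cn c i = N → Same (Icc 1 r) (zz n₀) (zz (cn c)) :=
      fun W _ c z b w X s hx a q => same_iff.2 ⟨q.trans cx.h0.symm, by
        have := POK.ec3 s hx
        rw [a] at this
        push_cast at he
        linarith⟩
    have s' := sm V c z b w X s hx (e ▸ g1.1) q1
    have l2 := fn.ex.l2
    rw [e] at l2
    obtain ⟨α, γ, β, p1, p2, p3, p4, p5, p6, p7⟩ := upperP s l2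
    have a1 := s.ec2
    rw [← e] at p2 p4 p6 p7 a1
    obtain ⟨o1, o2⟩ := hP cx ((mul_le_mul_of_nonneg_right (le_max_right _ _) fn.d0.le).trans k1)
      ((le_max_right _ _).trans L) s' ⟨cx.rg, orP (goodP hr t) μ0 g2, cx.cl' ((cx.Wsame s').trans (by
        linarith [mul_le_mul_of_nonneg_right R cx.rg.ν0.le, cx.rg.ν0])),
      mem_Icc.2 ⟨Nat.one_le_iff_ne_zero.2 s.z0, s.le z⟩,
      mem_Icc.2 ⟨Nat.one_le_iff_ne_zero.2 s.b0, s.le b⟩, s.zb,
      fun i hi => ⟨(hx i hi).ge, ct_le c X i⟩, by linarith, p1, p2, p3, p4, p5, p6, p7⟩ hx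
    refine ⟨denseB_iff.2 ⟨q1, by rw [if_pos t0]; exact ⟨z, b, w, X, s, hx, e, two, o1⟩⟩,
      fun hD W _ H c' a b => ?_⟩
    obtain ⟨b1, b2⟩ := denseB_iff.1 b
    rw [if_pos t0] at b2
    obtain ⟨z', b', w', X', u, hx', rfl, -, u1, u2⟩ := b2
    have d1 : D₀ ≤ d := Nat.ceil_le.1 ((le_max_right _ _).trans ((le_max_left _ _).trans (hD t0)))
    obtain ⟨α', γ', k⟩ := o2 (by linarith [cx.W_ge p, d.cast_nonneg (α := ℝ)]) _ _ _ _
      (mem_Icc.2 ⟨Nat.one_le_iff_ne_zero.2 u.z0, u.le z'⟩)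
      (mem_Icc.2 ⟨Nat.one_le_iff_ne_zero.2 u.b0, u.le b'⟩) u.zb hx' (sm W c' z' b' w' X' u hx' a b1) u1 u2
    exact (lowerP u μ0 α' γ' β).2 k

lemma exists_kind (hr : 3 ≤ r) (t : ℕ) : ∃ bk g₀, Kind r bk g₀ 0 ∧ (bk = 0 ↔ t = 0) ∧
    1 - bk = if t = 0 then 1 else 0 := by
  by_cases e : t = 0
  · exact ⟨0, r - 2, Or.inl ⟨rfl, by omega, rfl⟩, by simp [e], by simp [e]⟩
  · exact ⟨1, 0, Or.inr (Or.inl ⟨rfl, rfl, rfl⟩), by simp [e], by simp [e]⟩

theorem book_dense (r11 : 11 ≤ r) (t : ℕ) : ∃ N₀ : ℕ, ∀ N d m : ℕ, N₀ ≤ N →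
    (m + d + if t = 0 then 1 else 0) = (SimpleGraph.turanGraph N r).edgeSet.ncard + r →
    (d : ℝ) ≤ 2 * (r - 1) / r * (N / r) - 400 * r * √N → (t = 0 → N₀ ≤ d) →
    ∀ (V : Type) [Fintype V] (G : SimpleGraph V), (InN (Bk r t) r m G ∧
      ∀ (W : Type) [Fintype W] (H : SimpleGraph W), InN (Bk r t) r m H → lam H ≤ lam G) ↔
    G.edgeSet.ncard = m ∧ ∃ c, DenseB r t N G c := by
  have hr : 3 ≤ r := by omega
  obtain ⟨bk, g₀, hk, ht, eb⟩ := exists_kind hr t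
  obtain ⟨N₀, h⟩ := dense_main r11 hk ht 0
  refine ⟨N₀ + 1, fun N d m hN hm hd hD => ?_⟩
  rw [← eb] at hm
  have fwd : ∀ (V : Type) [Fintype V] (G : SimpleGraph V), InN (Bk r t) r m G →
      (∀ (W : Type) [Fintype W] (H : SimpleGraph W), InN (Bk r t) r m H → lam H ≤ lam G) →
      ∃ c, DenseB r t N G c ∧ ∀ (W : Type) [Fintype W] (H : SimpleGraph W) (c' : W → ℕ), ec H = m →
        DenseB r t N H c' → lam G ≤ lam H := by
    intro V _ G g1 g2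
    rcases h N d m (by omega) hm (range_le r11 (by omega) hd) V G g1 g2 with
      ⟨c, p, q⟩ | ⟨δ', n₀, a₀, c, fn, -, -, -, -, q⟩
    · exact ⟨c, p, q fun e => by have := hD e; omega⟩
    · refine (no_BF r11 (by omega) hd ?_ q).elim
      rw [← tu2_eq (by omega), show (1 : ℝ) - bk = (1 - bk : ℕ) by rw [Nat.cast_sub fn.bk1, Nat.cast_one],
        show ec G = m from g1.1]
      exact_mod_cast (by omega :
        2 * m + 2 * d + 2 * (1 - bk) = 2 * (SimpleGraph.turanGraph N r).edgeSet.ncard + 2 * r)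
  intro V _ G
  refine ⟨fun ⟨g1, g2⟩ => ⟨g1.1, (fwd V G g1 g2).imp fun c e => e.1⟩, fun ⟨e, c, p⟩ => ?_⟩
  have g1 : InN (Bk r t) r m G :=
    ⟨e, free_of_noBook ((DenseB.famB p hr).noBook hr), (DenseB.famB p hr).nc hr⟩
  obtain ⟨G', g2, g3⟩ := exists_extremal g1 (by omega) (Bk_adj hr t)
  obtain ⟨-, -, k⟩ := fwd _ G' g2 g3
  exact ⟨g1, fun W _ H hH => (g3 W H hH).trans (k V G c e p)⟩

end Pool.Agent.P.MP_094db5_co.Dn
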