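import Pool.Agent.P.MP_094db5_co.DG5

/-! Forms on the Turan core near the dense range and in the Turan range. -/

set_option autoImplicit false

open Finset Classical

noncomputable section

namespace Pool.Agent.P.MP_094db5_co.Dn

variable {V : Type} [Fintype V] {G : SimpleGraph V} {c : V → ℕ} {r t N k bk g₀ a : ℕ} {δ ν E : ℝ}
  {z w b : V} {X Y : Finset V}

lemma optS_mk (s : SD r bk g₀ 0 c z w Y X a) (e : G = Tg c ⊥ z Y w X) (rg : Rg r δ ν (lam G))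
    (cl : ∀ i ∈ Icc 1 r, Cl δ ν (cn c i)) (o : OrS r bk g₀ 0 (lam G) E) (he : 2 * (ec G : ℝ) = E)
    (hd : ∑ i ∈ Icc 1 r, (ct c Y i : ℝ) ≤ th2 r * ν) :
    ∃ α β, OptS r bk g₀ 0 δ ν (lam G) E (cn c) a (ct c Y) α β := by
  have a1 := s.ec_eq
  rw [← e] at a1
  obtain ⟨α, β, a0, a3, b0, b1, up⟩ := upperS (G := G) (c := c) (z := z) (w := w) (Y := Y) (X := X)
    (by rw [e, Tg, sdiff_bot]) s.ok.le s.ok.o0 s.ok.w0 s.ok.hS s.ok.hX
    (fun e => (s.ok.ow e).elim) (by linarith [rg.μ5])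
  rw [s.PhS_eq] at up
  rw [s.card] at b1
  exact ⟨α, β, rg, s.bk1, Nat.zero_le _, by rcases s.kind with e | e | e <;> omega, o, cl, s.dat,
    by linarith, a0, a3, b0, b1, up, o _ _ _ (rg.two_le cl) s.dat
      (rg.room cl s.dat.ha (by rw [← s.dat.sum_eq]; linarith [rg.R3])) (by linarith)⟩

lemma os_fin (s : SD r bk g₀ 0 c z w Y X a) (e : G = Tg c ⊥ z Y w X) {α β : ℝ}
    (o : OptS r bk g₀ 0 δ ν (lam G) E (cn c) a (ct c Y) α β) (hb : Bal r N (cn c))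
    (hd : ∑ i ∈ Icc 1 r, (ct c Y i : ℝ) ≤ th2 r * ν) (d1 : 1 ≤ ∑ i ∈ Icc 1 r, (ct c Y i : ℝ)) :
    OS r bk g₀ 0 G c := by
  obtain ⟨a', o', t, t'⟩ := o.largest hb hd d1
  refine ⟨z, w, Y, X, a', ⟨s.ok, o'.dat, fun i hi => ?_, s.hz, s.kd⟩, e, o.rg.two_le o.cl, t,
    o'.greedy hd d1⟩
  rw [s.hx i hi]
  rcases t' with e | e
  · rw [e]
  · simp [e, xS]

lemma optP_mk (s : POK r c z b w X) (hx : ∀ i ∈ Icc 1 r \ {c z, c b}, 1 ≤ ct c X i)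
    (e : G = Pg c z b w X) (rg : Rg r δ ν (lam G)) (cl : ∀ i ∈ Icc 1 r, Cl δ ν (cn c i))
    (o : OrP r (lam G) E) (he : 2 * (ec G : ℝ) = E) :
    ∃ α γ β, OptP r δ ν (lam G) E (cn c) (c z) (c b) (ct c X) α γ β := by
  have a1 := s.ec2
  have l2 : 2 < lam G := by linarith [rg.μ5]
  rw [e] at l2
  obtain ⟨α, γ, β, p1, p2, p3, p4, p5, p6, p7⟩ := upperP s l2
  rw [← e] at p2 p4 p6 p7 a1
  exact ⟨α, γ, β, rg, o, cl, mem_Icc.2 ⟨Nat.one_le_iff_ne_zero.2 s.z0, s.le z⟩,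
    mem_Icc.2 ⟨Nat.one_le_iff_ne_zero.2 s.b0, s.le b⟩, s.zb, fun i hi => ⟨hx i hi, ct_le c X i⟩,
    by linarith, p1, p2, p3, p4, p5, p6, p7⟩

lemma op_fin (s : POK r c z b w X) (e : G = Pg c z b w X) {α γ β : ℝ}
    (o : OptP r δ ν (lam G) E (cn c) (c z) (c b) (ct c X) α γ β) (hb : Bal r N (cn c))
    (hd : ∑ i ∈ Icc 1 r \ {c z, c b}, (ct c X i : ℝ) ≤ th2 r * ν) : OP r G c :=
  ⟨z, b, w, X, s, e, o.rg.two_le o.cl, fun i hi => ⟨o.largest hb hd i hi,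
    o.symm.largest hb (pair_comm (c z) (c b) ▸ hd) i (pair_comm (c z) (c b) ▸ hi)⟩, o.ad, o.greedy⟩

/-- the forms that miss many vertices lie on the Turan core -/
theorem window {a₀ : ℕ} {δ' : ℝ} {n₀ : ℕ → ℕ} (cx : Cx r (N + 1) δ' ν (lam G) n₀ a₀)
    (rg : Rg r δ ν (lam G)) (hδ : 100 * r ^ 2 * δ' ≤ δ) (W : WW r ν (cn c) ≤ 4 * r * ν)
    (h : BF r bk g₀ (N + 1) (2 * (r - 1) * ν - 40 * r ^ 2 * (δ' * ν)) G c)
    (oS : OrS r bk g₀ 0 (lam G) (tu2 r N + 2 * k)) (oP : OrP r (lam G) (tu2 r N + 2 * k))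
    (he : 2 * (ec G : ℝ) = tu2 r N + 2 * k) (rk : 2 * r ≤ k + 1) :
    Bal r N (cn c) ∧ (OS r bk g₀ 0 G c ∨ OP r G c) := by
  have R := cx.R
  have ν0 := rg.ν0
  have δ0 := rg.δ0
  have d0 := mul_pos cx.rg.δ0 ν0
  have cl := cx.cl' W
  obtain ⟨ε, e1, ε0⟩ : ∃ ε, 2 * r * ε = δ * ν ∧ 0 < ε :=
    ⟨δ * ν / (2 * r), mul_div_cancel₀ _ (by linarith), by positivity⟩
  have a1 : 50 * r * (δ' * ν) ≤ ε := le_of_mul_le_mul_left (a := 2 * (r : ℝ))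
    (by linarith [mul_le_mul_of_nonneg_right hδ ν0.le]) (by linarith)
  have a2 := mul_le_mul_of_nonneg_right R d0.le
  have a3 := mul_le_mul_of_nonneg_right R ε0.le
  have a4 := mul_pos δ0 ε0
  have rg' : Rg r δ (ν + ε) (lam G) := ⟨rg.r3, δ0, rg.δ1, by linarith [rg.big],
    abs_le.2 ⟨by linarith [cx.rg.μ1], by linarith [cx.rg.μ2]⟩⟩
  have cl' : ∀ i ∈ Icc 1 r, Cl δ (ν + ε) (cn c i) := fun i hi =>
    abs_le.2 ⟨by linarith [Rg.n1 (cl i hi)], by linarith [Rg.n2 (cl i hi)]⟩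
  have eθ : th2 r * r = (r - 1) * (r - 2) := div_mul_cancel₀ _ (by linarith)
  have key : ∀ {a : ℕ} {y : ℝ}, a ∈ Icc 1 r → 2 * (r - 1) * ν - 40 * r ^ 2 * (δ' * ν) ≤
      r * (∑ i ∈ (Icc 1 r).erase a, (cn c i : ℝ) - y) → y ≤ th2 r * (ν + ε) := fun {a y} ha h => by
    refine le_of_mul_le_mul_left ?_ (show (0 : ℝ) < r by linarith)
    have b1 := mul_le_mul_of_nonneg_left (cx.rg.sum_erase_le cl ha) (show (0 : ℝ) ≤ r by linarith)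
    have b2 := mul_le_mul_of_nonneg_left a1 (show (0 : ℝ) ≤ r by linarith)
    have b3 := mul_le_mul_of_nonneg_left a3 (show (0 : ℝ) ≤ r by linarith)
    have b4 : r * (th2 r * (ν + ε)) = (r - 1) * (r - 2) * (ν + ε) := by rw [← eθ]; ring
    have b5 := mul_le_mul_of_nonneg_left a2 (show (0 : ℝ) ≤ r by linarith)
    linarith only [b1, b2, b3, b4, b5, h, a2, a3, ε0, d0]
  have rk' : (2 * r : ℝ) ≤ k + 1 := by exact_mod_cast rk
  obtain ⟨h1, -, ⟨z, w, Y, X, a, s, e, q⟩ | ⟨z, b, w, X, s, hx, e, q⟩⟩ := h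
  · rw [card_out s.ok.le s.dat.ha s.ok.hS s.dat.ya, sum_sub_distrib, ← s.dat.sum_eq] at q
    have hd := key s.dat.ha q
    obtain ⟨α, β, o⟩ := optS_mk s e rg' cl' oS he hd
    have hb := o.bal rfl rk (by omega) hd
    exact ⟨hb, Or.inl (os_fin s e o hb hd (by linarith [hb.eK2, o.ed]))⟩
  · have hd := key (mem_Icc.2 ⟨Nat.one_le_iff_ne_zero.2 s.z0, s.le z⟩) q
    rw [← s.sumX] at hd
    obtain ⟨α, γ, β, o⟩ := optP_mk s hx e rg' cl' oP he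
    have hb := o.bal rfl rk (by omega) (by linarith)
    exact ⟨hb, Or.inr (op_fin s e o hb (by linarith))⟩

theorem turan_fwd (hr : 3 ≤ r) (hk : Kind r bk g₀ 0) (ht : bk = 0 ↔ t = 0) :
    ∃ N₀ : ℕ, ∀ N k m : ℕ, N₀ ≤ N → m = (SimpleGraph.turanGraph N r).edgeSet.ncard + k →
      r * t + r < k → 2 * r ≤ k + 1 → (k : ℝ) ≤ th2 r * (N / r) - 1600 * r ^ 2 * √N →
      ∀ (V : Type) [Fintype V] (G : SimpleGraph V), InN (Bk r t) r m G →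
        (∀ (W : Type) [Fintype W] (H : SimpleGraph W), InN (Bk r t) r m H → lam H ≤ lam G) →
        ∃ c, Bal r N (cn c) ∧ (OS r bk g₀ 0 G c ∨ OP r G c) := by
  have R3 : (3 : ℝ) ≤ r := by exact_mod_cast hr
  obtain ⟨m₀, hB⟩ := book_all hr t
  obtain ⟨δ, δ0, δ1⟩ : ∃ δ : ℝ, 0 < δ ∧ 1000 * (r : ℝ) ^ 2 * δ ≤ 1 :=
    ⟨1 / (1000 * r ^ 2), by positivity, (mul_one_div_cancel (by positivity)).le⟩
  have η0 : 0 < δ / (30 * r ^ 2) := by positivity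
  obtain ⟨m₁, ha⟩ := exists_apr hr (Bk_adj hr t) (fun V _ G => NoBook G r t)
    (fun V _ => cls_book hr t) (fun V _ G => ⟨free_of_noBook, noBook_of_free⟩) η0 (by
    have a1 : (9 : ℝ) ≤ r ^ 2 := by nlinarith only [R3]
    rw [div_le_one (by positivity)]; linarith [mul_le_mul_of_nonneg_right a1 δ0.le])
  obtain ⟨C, hC⟩ : ∃ C, C = r * t + r := ⟨_, rfl⟩
  obtain ⟨B, B1, B3, B4⟩ : ∃ B : ℝ, 1 ≤ δ / (30 * r ^ 2) * B ∧ 2 * ((m₀ : ℝ) + m₁) + 2 ≤ B ∧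
      (8 * r / δ + (C + 2)) ^ 2 ≤ B := by
    refine ⟨max (1 / (δ / (30 * r ^ 2))) (max (2 * (m₀ + m₁) + 2) ((8 * r / δ + (C + 2)) ^ 2)), ?_,
      (le_max_left _ _).trans (le_max_right _ _), (le_max_right _ _).trans (le_max_right _ _)⟩
    rw [mul_comm, ← div_le_iff₀ (by positivity)]
    exact le_max_left _ _
  refine ⟨⌈B * r⌉₊, fun N k m hN hm hC' rk kk V _ G g1 g2 => ?_⟩
  have ν1 := big_of (by omega) hN
  have s3 := le_sqrt (by omega) (B4.trans ν1)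
  obtain ⟨ν, hν⟩ : ∃ ν : ℝ, ν = N / r := ⟨_, rfl⟩
  rw [← hν] at ν1 kk
  have ν0 : 0 < ν := lt_of_lt_of_le (by positivity) (B4.trans ν1)
  have eN : (N : ℝ) = r * ν := by rw [hν]; field_simp
  have N0 : (0 : ℝ) < N := by rw [eN]; positivity
  have s0 := Real.sqrt_pos.2 N0
  have s2 := (Real.sq_sqrt N0.le).trans eN
  generalize √(N : ℝ) = s at *
  have s4 : 8 * s / ν * ν = 8 * s := div_mul_cancel₀ _ ν0.ne'
  have s5 : 0 ≤ 8 * r / δ := by positivity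
  have s6 : 8 * s / ν ≤ δ := by
    have a1 : 8 * r / δ ≤ s := by linarith [Nat.cast_nonneg (α := ℝ) C]
    rw [div_le_iff₀ δ0] at a1
    rw [div_le_iff₀ ν0]
    refine le_of_mul_le_mul_left ?_ (show (0 : ℝ) < r by linarith)
    linarith [mul_le_mul_of_nonneg_left a1 s0.le, congrArg (δ * ·) s2]
  have s7 : 51 * (r : ℝ) ≤ (8 * s / ν) ^ 2 * ν := by
    rw [show (8 * s / ν) ^ 2 * ν = 64 * s ^ 2 / ν by field_simp; ring, s2, le_div_iff₀ ν0]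
    linarith only [mul_pos (show (0 : ℝ) < r by linarith) ν0, eN, N0]
  have m0 : (0 : ℝ) ≤ m₀ := Nat.cast_nonneg _
  have m1 : (0 : ℝ) ≤ m₁ := Nat.cast_nonneg _
  have e2 : 2 * (m : ℝ) = tu2 r N + 2 * k := by rw [hm, ← tu2_eq (by omega)]; push_cast; ring
  have mm : m₀ + m₁ ≤ m := by
    have a1 := (tu2_bounds (by omega) hν (by linarith)).1
    have a2 : ν - 1 ≤ (ν - 1) ^ 2 := by nlinarith only [B3, ν1]
    have a3 := mul_le_mul_of_nonneg_right (show (1 : ℝ) ≤ r * (r - 1) by nlinarith only [R3])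
      (sq_nonneg (ν - 1))
    exact_mod_cast (by push_cast; linarith [Nat.cast_nonneg (α := ℝ) k] : ((m₀ + m₁ : ℕ) : ℝ) ≤ m)
  have ap := ha m (by omega) V G g1 g2
  have l0 : 0 < lam G := by
    by_contra hn
    nlinarith only [ap.big, η0, hn]
  have h : Ext r N k bk g₀ 0 (200 * r ^ 2 * (8 * s / ν)) δ (8 * s / ν) ν G :=
    ⟨hr, hν, δ0, δ1, by positivity, s6, s7, le_rfl, ap,
    B1.trans (mul_le_mul_of_nonneg_left ν1 η0.le), by rw [sub_mul, mul_assoc, s4]; linarith, rk,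
    by rw [← e2]; exact congrArg _ (congrArg _ g1.1), hk, e2 ▸ orS hk (goodS hr ht) l0 g2⟩
  obtain ⟨c₀, hc⟩ := ((hB m (by omega) V G).1 ⟨g1, g2⟩).1.2
  rcases hc.form hk ht with ⟨c, z, w, Y, X, a, s, e, p⟩ | ⟨c, z, b, w, X, s, hx, e, p⟩ | hB
  · obtain ⟨a, α, β, s, bal, tp, gr, o⟩ := h.star s e p
    exact ⟨c, bal, Or.inl ⟨z, w, Y, X, a, s, e, o.rg.two_le o.cl, tp, gr⟩⟩
  · obtain ⟨α, γ, β, bal, tp, o⟩ := h.pair s hx e p (e2 ▸ orP (goodP hr t) l0 g2)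
    exact ⟨c, bal, Or.inr ⟨z, b, w, X, s, e, o.rg.two_le o.cl, tp, o.ad, o.greedy⟩⟩
  · exact (h.noB hB hC' (by rw [← hC]; linarith)).elim

end Pool.Agent.P.MP_094db5_co.Dn
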