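import Pool.Agent.P.MP_094db5_co.DH1

/-! Few edges beyond the Turan number. -/

set_option autoImplicit false

open Finset Classical

noncomputable section

namespace Pool.Agent.P.MP_094db5_co.Dn

theorem Cx.noAdd2 {r M a₀ : ℕ} {δ ν μ : ℝ} {n n₀ : ℕ → ℕ} (h : Cx r M δ ν μ n₀ a₀)
    (hs : ∑ i ∈ Icc 1 r, n i = M) {u : ℕ} (e : eK2 r n + 2 * u = eK2 r n₀) {s C θ : ℝ}
    (s0 : 0 ≤ s) (s1 : s ≤ u + C) (s2 : s ≤ (r - 1) * (1 + 2 * δ) * ν) (hu : (u : ℝ) ≤ r * ν)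
    (C0 : 1 ≤ C) (C1 : 10000 * C ^ 2 ≤ ν)
    (hθ : θ ≤ -19 / 10 ∨ (1 ≤ u ∧ θ ≤ 1 / 10) ∨ (2 ≤ u ∧ θ ≤ 23 / 10))
    (E : EE r μ ν n ≤ EE r μ ν n₀ + (s ^ 2 + C ^ 2) * (ro r * (1 + 6 * δ)) / ν + θ) : False := by
  have a1 := h.addE hs e hu
  have R := h.R
  have ν0 := h.rg.ν0
  have δ0 := h.rg.δ0
  have u0 : (0 : ℝ) ≤ u := Nat.cast_nonneg _
  have a5 : θ ≤ -19 / 10 ∨ ((1 : ℝ) ≤ u ∧ θ ≤ 1 / 10) ∨ ((2 : ℝ) ≤ u ∧ θ ≤ 23 / 10) := by
    exact_mod_cast hθ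
  rcases le_total (u : ℝ) (20 * C) with c | c
  · obtain ⟨p0, p1, -, -⟩ := ro_bounds h.r11
    have b1 : ro r * (1 + 6 * δ) ≤ 1 / 8 := by nlinarith only [p0, p1, R, h.δs]
    have b2 : (s ^ 2 + C ^ 2) * (ro r * (1 + 6 * δ)) / ν ≤ 1 / 100 := by
      rw [div_le_iff₀ ν0]
      have := pow_le_pow_left₀ s0 (show s ≤ 21 * C by linarith) 2
      linarith [mul_le_mul (show s ^ 2 + C ^ 2 ≤ 442 * C ^ 2 by linarith) b1 (by positivity)
        (by positivity), sq_nonneg C]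
    rcases a5 with b | b | b <;> linarith
  · have b1 := gain_lin h.rg h.r11 (C := C) s0 s2
    have a3 : C ^ 2 / (8 * ν) ≤ 1 / 80 := by
      rw [div_le_iff₀ (by positivity)]; linarith [sq_nonneg C]
    rcases a5 with b | b | b <;> linarith

lemma bal_of_eq {r N : ℕ} (hr : 1 ≤ r) {n : ℕ → ℕ} (hs : ∑ i ∈ Icc 1 r, n i = N)
    (e : eK2 r n = tu2 r N) : Bal r N n := by
  refine bal_of_close hr hs fun u hu v hv => ?_
  by_contra hn
  obtain ⟨n', -, -, -, e4, e5⟩ := exists_move n hu hv (by omega)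
  have a1 := eK2_le' (e4.trans hs)
  have a2 : (n v : ℝ) + 2 ≤ n u := by exact_mod_cast (by omega : n v + 2 ≤ n u)
  linarith

theorem largest1 {r g₀ : ℕ} {δ ν μ M : ℝ} {n : ℕ → ℕ} {a : ℕ} {y : ℕ → ℕ} {α β : ℝ}
    (h : OptS r 0 g₀ 0 δ ν μ M n a y α β) (hd : ∑ i ∈ Icc 1 r, (y i : ℝ) ≤ th2 r * ν)
    (hd1 : 1 ≤ ∑ i ∈ Icc 1 r, (y i : ℝ)) (hy : ∀ j ∈ (Icc 1 r).erase a, y j = 1) :
    ∀ j ∈ Icc 1 r, n j ≤ n a := by
  intro j hj
  by_contra c0
  have c1 := not_le.1 c0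
  have ja : j ≠ a := fun e => by rw [e] at c1; omega
  have hj' : j ∈ (Icc 1 r).erase a := mem_erase.2 ⟨ja, hj⟩
  have two := h.rg.two_le h.cl
  have c2 := hy j hj'
  have c3 := two a h.dat.ha
  obtain ⟨y', e1, e2, e3⟩ : ∃ y' : ℕ → ℕ, y' a = y j ∧ y' j = 0 ∧ ∀ i, i ≠ a → i ≠ j → y' i = y i :=
    ⟨fun i => if i = a then y j else if i = j then 0 else y i, by simp, by simp [ja],
      fun i b c => by simp [b, c]⟩
  have d' : DatS r 0 0 n j y' := ⟨hj, e2, fun i hi => by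
    by_cases b : i = a
    · rw [b, e1]; omega
    · rw [e3 i b (ne_of_mem_erase hi)]
      exact h.dat.ad i (mem_erase.2 ⟨b, mem_of_mem_erase hi⟩)⟩
  have s0 : ∀ f : ℕ → ℝ, ∑ i ∈ Icc 1 r, f (y' i) = ∑ i ∈ Icc 1 r, f (y i) := fun f => by
    rw [sum_two h.dat.ha hj ja.symm (g := fun i => f (y i)) fun i _ b c => by rw [e3 i b c], e1, e2,
      h.dat.ya]
    ring
  have s1 := s0 fun s => (s : ℝ)
  have s2 : gS r 0 g₀ y' = gS r 0 g₀ y := by
    rw [gS, gS, s0 fun s => ((min s 1 : ℕ) : ℝ)]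
  have s3 : ∑ i ∈ Icc 1 r, (xS 0 j i : ℝ) = ∑ i ∈ Icc 1 r, (xS 0 a i : ℝ) := by
    rw [sum_two h.dat.ha hj ja.symm (g := fun i => (xS 0 a i : ℝ)) fun i _ b c => by
      simp [xS, b, c]]
    simp only [xS, if_true, if_neg ja, if_neg ja.symm]
    ring
  have b1 := (h.or n j y' two d' (h.rg.room h.cl hj (by
    rw [← d'.sum_eq, s1]; linarith [h.rg.R3])) (by rw [s1]; exact h.ed) α β).trans h.up
  simp only [PhK, PhS] at b1
  rw [s1, s2, s3, sum_two h.dat.ha hj ja.symm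
    (g := fun i => ph1 μ (n i) (y i * α + xS 0 a i * β)) fun i _ b c => by
      simp [xS, b, c, e3 i b c], e1, e2, h.dat.ya] at b1
  simp only [xS, if_true, if_neg ja, if_neg ja.symm, Nat.cast_zero, zero_mul, zero_add,
    Nat.cast_one, one_mul] at b1
  have b2 := ph1_swap h.rg.μ0 (n a) (n j) (y j * α + β) 0
  have b4 : 0 < y j * α := mul_pos (by exact_mod_cast (by omega : 0 < y j)) (h.apos hd1)
  have b5 := mul_pos (inv_lt h.rg.μ0 c1) (div_pos (mul_pos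
    (show 0 < y j * α + β - 0 by linarith [h.b0])
    (show 0 < 2 * μ - (y j * α + β) - 0 by
      linarith [h.yα hj, h.βδ, h.rg.δ3, h.rg.μ5])) h.rg.μ0)
  linarith

variable {V : Type} [Fintype V]

/-- the context for few additional edges -/
structure Fs (r M bk k : ℕ) (δ δ' ν C : ℝ) (G : SimpleGraph V) (n₀ : ℕ → ℕ) (a₀ : ℕ) : Prop
    extends Fz r M bk δ δ' ν G n₀ a₀ where
  e0 : eK2 r n₀ = tu2 r M
  he : 2 * (ec G : ℝ) = tu2 r M + 2 * k
  k1 : r + bk ≤ k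
  k2 : k + 1 ≤ C
  C1 : 2 * r ≤ C
  C2 : 10000 * C ^ 2 ≤ ν
  C3 : C ≤ δ' * ν

namespace Fs

variable {r M bk k a₀ : ℕ} {δ δ' ν C : ℝ} {G : SimpleGraph V} {n₀ : ℕ → ℕ}
  (h : Fs r M bk k δ δ' ν C G n₀ a₀)
include h

lemma th : C ≤ th2 r * ν := by
  have R := h.R
  have a1 : 1 ≤ th2 r := by rw [th2, le_div_iff₀ (by linarith)]; nlinarith
  have rg := h.ex.rg
  linarith [mul_le_mul_of_nonneg_right a1 rg.ν0.le, h.C3, mul_le_mul_of_nonneg_right h.dd rg.ν0.le,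
    rg.δν, rg.ν0]

theorem star {g₀ : ℕ} {c : V → ℕ} {z w : V} {Y X : Finset V} {a : ℕ} (s : SD r bk g₀ 0 c z w Y X a)
    (e : G = Tg c ⊥ z Y w X) (h1 : ∀ i ∈ Icc 1 r, 1 ≤ cn c i) (hk : bk = 0 → k + 2 ≤ 2 * r)
    (o : OrS r bk g₀ 0 (lam G) (tu2 r M + 2 * k)) : OS r bk g₀ 0 G c ∧ (Bal r M (cn c) ∨
      (bk = 0 ∧ k + 2 = 2 * r ∧ ∑ i ∈ Icc 1 r, cn c i = M ∧ eK2 r (cn c) + 2 = tu2 r M)) := by
  have rg := h.ex.rg
  have R := h.R
  have he := h.he
  have e0 := h.e0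
  have C1 := h.C1
  have k2 := h.k2
  have k1 : (r : ℝ) + bk ≤ k := by exact_mod_cast h.k1
  obtain ⟨b0', b1'⟩ := h.b01
  have a1 := s.ec_eq
  rw [← e] at a1
  have a2 : ∑ i ∈ Icc 1 r, (ct c Y i : ℝ) ≤ ∑ i ∈ (Icc 1 r).erase a, (cn c i : ℝ) := by
    rw [s.dat.sum_eq]
    exact sum_le_sum fun i _ => by exact_mod_cast ct_le c Y i
  have dg := h.ex.deg s.ok.le (H := ⊥) (e ▸ le_sup_left.trans le_sup_left) (by rw [ec_bot]; omega) h1
  have cl := h.ex.cl dg (by linarith [h.ex.erase_le dg s.dat.ha, h.ex.rν])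
  obtain ⟨α, β, a0, a3, b0, b1, up⟩ := upperS (G := G) (c := c) (z := z) (w := w) (Y := Y) (X := X)
    (by rw [e, Tg, sdiff_bot]) s.ok.le s.ok.o0 s.ok.w0 s.ok.hS s.ok.hX
    (fun e => (s.ok.ow e).elim) h.ex.l2
  rw [s.PhS_eq, PhK] at up
  have g1 : g₀ ≤ r := by rcases s.kind with e | e | e <;> omega
  have g2 := (gS_le s.bk1 g1 (ct c Y)).2.trans C1
  have a5 : ∑ i ∈ Icc 1 r, (xS bk a i : ℝ) ≤ C := by
    have := sum_xS s.dat.ha bk
    have := s.bk1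
    refine le_trans ?_ C1
    exact_mod_cast (by omega : ∑ i ∈ Icc 1 r, xS bk a i ≤ 2 * r)
  have hy : ∀ d, Rg r d ν (lam G) → (∀ i ∈ Icc 1 r, Cl d ν (cn c i)) →
      ∑ i ∈ Icc 1 r, (ct c Y i : ℝ) ≤ (r - 1) * (1 + 2 * d) * ν := fun d rd cl => by
    have := rd.sum_erase_le cl s.dat.ha
    nlinarith only [mul_pos rd.δ0 rg.ν0, R, a2, this]
  obtain ⟨p1, cx, p3⟩ := h.boot cl a0 b0 (gS_le s.bk1 g1 _).1 g2
    (by linarith) h.C3 a5 (hy δ rg cl) (abs_le.2 ⟨by linarith, by linarith⟩) up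
  have cl' := cx.cl' p3
  have gh := cx.gc_le h.bk1
  obtain ⟨-, -, k3⟩ := cx.ratio
  have δs := cx.δs
  have p : ∑ i ∈ Icc 1 r, cn c i = M := p1.resolve_right fun p => by
    have c1 := card_out s.ok.le s.dat.ha s.ok.hS s.dat.ya
    have c2 : 1 ≤ (Out c a \ Y).card + bk := by
      rcases s.kd with ⟨b, -, -, q⟩ | ⟨b, -⟩ | ⟨-, -, b, -⟩
      · refine le_trans ?_ (Nat.le_add_right _ _)
        rw [← q]
        exact card_le_card fun v hv => mem_sdiff.2 ⟨mem_Out.2 ⟨s.lab (mem_sdiff.1 hv).1,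
          s.Xa b v (mem_of_mem_erase (mem_sdiff.1 hv).1)⟩, (mem_sdiff.1 hv).2⟩
      · omega
      · omega
    have c3 : (1 : ℝ) ≤ (Out c a \ Y).card + 2 * bk := by exact_mod_cast (by omega)
    have c4 := eK2_le (t := 1) s.dat.ha p.le
    rw [sum_sub_distrib, ← s.dat.sum_eq] at c1
    push_cast at c4
    have c5 : (0 : ℝ) ≤ (Out c a \ Y).card := Nat.cast_nonneg _
    rcases (by have := h.bk1; omega : bk = 0 ∨ bk = 1) with b | b <;> rw [b] at c3 k1 <;>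
      push_cast at c3 k1 <;> linarith
  obtain ⟨Γ, u1, u2⟩ := gainS cx.rg cl' a0 b0 (gS_le s.bk1 g1 _).1 g2
    (by linarith) h.C3 a5 (hy δ' cx.rg cl') up
  have u3 := unit cx.rg (j := 0) (cx.real h.h0) (by rw [cx.real p, add_zero]) h.cand u1
  have y1 := hy δ' cx.rg cl'
  have c4 := eK2_le' p
  rw [s.sumY] at a1 u2 y1
  obtain ⟨u, hu⟩ := Nat.exists_eq_add_of_le (show k ≤ Y.card + r by
    exact_mod_cast (by push_cast; linarith : (k : ℝ) ≤ (Y.card + r : ℕ)))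
  have hu' : (Y.card : ℝ) + r = k + u := by exact_mod_cast hu
  have key : u + bk ≤ 1 := by
    by_contra hn
    refine cx.noAdd2 p (u := u) (s := Y.card) (C := C) (θ := gc bk (lam G) n₀ * un (lam G) ν)
      (by linarith) (Nat.cast_nonneg _) (by linarith) y1 (by
        linarith only [y1, hu', k1, b0', mul_le_mul_of_nonneg_right h.d1 rg.ν0.le, mul_pos h.d0 rg.ν0,
          rg.ν0]) (by linarith) h.C2 (Or.inr ?_) (by linarith)
    rcases (by have := h.bk1; omega : bk = 0 ∨ bk = 1) with b | b <;> rw [b] at gh ⊢ <;>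
      push_cast at gh
    · exact Or.inr ⟨by omega, by linarith⟩
    · exact Or.inl ⟨by omega, by linarith⟩
  have u1' : (u : ℝ) ≤ 1 := by exact_mod_cast (by omega : u ≤ 1)
  have hd : ∑ i ∈ Icc 1 r, (ct c Y i : ℝ) ≤ th2 r * ν := by rw [s.sumY]; linarith [h.th]
  obtain ⟨α', β', o'⟩ := optS_mk s e rg cl o he hd
  have c1 := sum_ct s.ok.le s.ok.hS
  have c3 := card_er s.dat.ha
  have r11 := h.r11
  rw [← add_sum_erase _ _ s.dat.ha, s.dat.ya] at c1
  rcases Nat.eq_zero_or_pos bk with rfl | b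
  · have c5 : ∀ i ∈ (Icc 1 r).erase a, 1 ≤ ct c Y i := fun i hi => (s.dat.ad i hi).1
    have c2 := card_nsmul_le_sum ((Icc 1 r).erase a) (fun i => ct c Y i) 1 c5
    rw [smul_eq_mul] at c2
    have c6 := hk rfl
    have d1 : 1 ≤ ∑ i ∈ Icc 1 r, (ct c Y i : ℝ) := by
      rw [s.sumY]; exact_mod_cast (by omega : 1 ≤ Y.card)
    obtain rfl : u = 1 := by omega
    exact ⟨⟨z, w, Y, X, a, s, e, rg.two_le cl, largest1 o' hd d1 fun j hj => ((sum_eq_sum_iff_of_le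
      (f := fun _ => 1) c5).1 (by rw [sum_const, smul_eq_mul]; omega) j hj).symm, o'.greedy hd d1⟩,
      Or.inr ⟨rfl, by omega, p, by push_cast at hu'; linarith⟩⟩
  · obtain rfl : u = 0 := by omega
    have hb := bal_of_eq (by omega) p (by push_cast at hu'; linarith)
    refine ⟨os_fin s e o' hb hd ?_, Or.inl hb⟩
    rw [s.sumY]
    exact_mod_cast (by have := h.k1; omega : 1 ≤ Y.card)

theorem pair {c : V → ℕ} {z b w : V} {X : Finset V} (s : POK r c z b w X)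
    (hx : ∀ i ∈ Icc 1 r \ {c z, c b}, 1 ≤ ct c X i) (e : G = Pg c z b w X)
    (h1 : ∀ i ∈ Icc 1 r, 1 ≤ cn c i) (o : OrP r (lam G) (tu2 r M + 2 * k)) :
    Bal r M (cn c) ∧ OP r G c := by
  have rg := h.ex.rg
  have R := h.R
  have he := h.he
  have e0 := h.e0
  have C1 := h.C1
  have k2 := h.k2
  have k1 : (r : ℝ) + bk ≤ k := by exact_mod_cast h.k1
  have r11 := h.r11
  obtain ⟨b0', b1'⟩ := h.b01
  have ha : c z ∈ Icc 1 r := mem_Icc.2 ⟨Nat.one_le_iff_ne_zero.2 s.z0, s.le z⟩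
  have hb : c b ∈ Icc 1 r := mem_Icc.2 ⟨Nat.one_le_iff_ne_zero.2 s.b0, s.le b⟩
  have hb' : c b ∈ (Icc 1 r).erase (c z) := mem_erase.2 ⟨s.zb.symm, hb⟩
  have a1 := s.ec2
  rw [← e] at a1
  have a2 : ∑ i ∈ Icc 1 r \ {c z, c b}, (ct c X i : ℝ) + cn c (c b) ≤
      ∑ i ∈ (Icc 1 r).erase (c z), (cn c i : ℝ) := by
    rw [sum_er hb']
    exact add_le_add (sum_le_sum fun i _ => by exact_mod_cast ct_le c X i) le_rfl
  have dg := h.ex.deg s.le (H := Sg z {b}) (e ▸ le_sup_left) ((ec_Sg_le _ _).trans (by simp)) h1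
  have nb : (0 : ℝ) ≤ cn c (c b) := Nat.cast_nonneg _
  have cl := h.ex.cl dg (by linarith [h.ex.erase_le dg ha, h.ex.rν])
  have lab : ∀ v ∈ insert z (insert b X), c v ≠ 0 := fun v hv => by
    simp only [mem_insert] at hv
    rcases hv with e | e | e
    exacts [e ▸ s.z0, e ▸ s.b0, (s.hX v e).1]
  obtain ⟨α, β, a0, a3, b0, b1, up⟩ := upperS (G := G) (c := c) (z := w) (w := w)
    (Y := insert z (insert b X)) (X := ∅)
    (e ▸ (sup_le_sup_right sdiff_le _).trans le_sup_left) s.le s.w0 s.w0 lab (by simp)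
    (fun _ => rfl) h.ex.l2
  have a5 : ∑ i ∈ Icc 1 r, (ct c (insert z (insert b X)) i : ℝ) = X.card + 2 := by
    have zb : z ≠ b := fun e => s.zb (e ▸ rfl)
    have zX : z ∉ X := fun a => (s.hX z a).2.1 rfl
    have bX : b ∉ X := fun a => (s.hX b a).2.2 rfl
    rw [← Nat.cast_sum, sum_ct s.le lab, card_insert_of_notMem (by simp [zb, zX]),
      card_insert_of_notMem bX]
    push_cast
    ring
  have a6 := s.sumX
  have hy : ∀ d, Rg r d ν (lam G) → (∀ i ∈ Icc 1 r, Cl d ν (cn c i)) →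
      (X.card : ℝ) + 2 ≤ (r - 1) * (1 + 2 * d) * ν := fun d rd cl => by
    have := rd.sum_erase_le cl ha
    nlinarith only [mul_pos rd.δ0 rg.ν0, rd.big, R, a2, a6, this, nb]
  obtain ⟨p1, cx, p3⟩ := h.boot cl a0 b0 (Nat.cast_nonneg _) (by simp; linarith) (by simp)
    h.C3 (by simp [ct]; linarith) (a5 ▸ hy δ rg cl) (abs_le.2 ⟨by linarith, by linarith⟩) up
  have cl' := cx.cl' p3
  have gh := cx.gc_le h.bk1
  obtain ⟨-, -, k3⟩ := cx.ratio
  have κ0 : 0 ≤ ν / lam G := div_nonneg rg.ν0.le rg.μ0.le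
  have δs := cx.δs
  have d0 := h.d0
  have y1 := hy δ' cx.rg cl'
  have rδ := mul_le_mul_of_nonneg_right h.d1 rg.ν0.le
  have dν := mul_pos d0 rg.ν0
  have p : ∑ i ∈ Icc 1 r, cn c i = M := p1.resolve_right fun p => by
    have c4 := eK2_le (t := 1) ha p.le
    push_cast at c4
    linarith
  obtain ⟨α, γ, β, o'⟩ := optP_mk s hx e rg cl o he
  have u1 := cx.unitP h.cand p cl' ha hb s.zb o'.b0 o'.b1 (by
    linarith only [a6, y1, rδ, cx.rg.μ1, dν, rg.ν0, cx.rg.δν, mul_le_mul_of_nonneg_right R rg.ν0.le])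
    o'.up
  have c4 := eK2_le' p
  rw [a6] at u1 a1
  have i1 : 1 / (100 * (r : ℝ)) ≤ 1 / 1000 := one_div_le_one_div_of_le (by norm_num) (by linarith)
  obtain ⟨u, hu⟩ := Nat.exists_eq_add_of_le (show k ≤ X.card + 1 by
    exact_mod_cast (by push_cast; linarith : (k : ℝ) ≤ (X.card + 1 : ℕ)))
  have hu' : (X.card : ℝ) + 1 = k + u := by exact_mod_cast hu
  obtain rfl : u = 0 := by
    by_contra hn
    obtain ⟨o1, -⟩ := ro_bounds h.r11
    have i2 : 0 ≤ C ^ 2 * (ro r * (1 + 6 * δ')) / ν := by have := rg.ν0; positivity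
    refine cx.noAdd2 p (u := u) (s := X.card + 2) (C := C)
      (θ := gc bk (lam G) n₀ * un (lam G) ν - (2 + 2 * (ν / lam G) - 5 * δ') + 1 / (100 * r))
      (by linarith) (by positivity) (by linarith) y1
      (by linarith only [y1, hu', rδ, dν, k1, b0', R, rg.ν0]) (by linarith) h.C2
      (Or.inr (Or.inl ⟨by omega, ?_⟩)) (by rw [add_mul, add_div]; linarith)
    nlinarith only [gh, mul_nonneg b0' κ0, mul_nonneg b0' d0.le, b0', δs, i1]
  push_cast at hu'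
  obtain rfl : bk = 0 := by
    by_contra hn
    have b' : bk = 1 := by have := h.bk1; omega
    obtain ⟨o1, -⟩ := ro_bounds h.r11
    have i2 : 0 ≤ C ^ 2 * (ro r * (1 + 6 * δ')) / ν := by have := rg.ν0; positivity
    refine cx.noAdd2 p (u := 0) (s := X.card + 2) (C := C)
      (θ := gc bk (lam G) n₀ * un (lam G) ν - (2 + 2 * (ν / lam G) - 5 * δ') + 1 / (100 * r))
      (by push_cast; linarith) (by positivity) (by push_cast; linarith) y1
      (by push_cast; linarith [mul_pos (show (0 : ℝ) < r by linarith) rg.ν0]) (by linarith) h.C2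
      (Or.inl ?_) (by rw [add_mul, add_div]; linarith)
    rw [b'] at gh ⊢
    push_cast at gh
    linarith
  have hb := bal_of_eq (by omega) p (by linarith)
  exact ⟨hb, op_fin s e o' hb (by linarith [h.th])⟩

theorem third {t : ℕ} {c : V → ℕ} (s : FT r t G c) (b1 : bk = 1) (hC : (r : ℝ) * t + r ≤ C) :
    Bal r M (cn c) := by
  obtain ⟨w, z, X, D, hw, hz, hX, hD, p, q, -, q2, m⟩ := s
  lift X to Finset V using Set.toFinite X
  lift D to Finset V using Set.toFinite D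
  have rg := h.ex.rg
  have R := h.R
  have he := h.he
  have e0 := h.e0
  have C1 := h.C1
  have C3 := h.C3
  have k2 := h.k2
  have k0 : (0 : ℝ) ≤ k := Nat.cast_nonneg _
  have e := eq_Tg_of_mp (z := w) (w := z) (Set.union_comm _ _ ▸ m)
  have eB : D = ∅ → G = Kc c ⊔ Sg w X := fun d => by
    rw [e, d, Tg, sdiff_bot]
    ext u v
    simp [Sg]
  simp only [pc_ct] at p
  rw [Set.ncard_coe_finset] at q
  have x1 := sum_ct m.1 hX
  have x2 := sum_le_card_nsmul (Icc 1 r) (ct c X) t fun i hi => (p i hi).2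
  rw [x1, Nat.card_Icc, add_tsub_cancel_right, smul_eq_mul] at x2
  have x4 : ∑ i ∈ Icc 1 r, (ct c X i : ℝ) = X.card := by exact_mod_cast x1
  have x5 : ∑ i ∈ Icc 1 r, (ct c D i : ℝ) = D.card := by exact_mod_cast sum_ct m.1 hD
  have x6 : (X.card : ℝ) ≤ r * t := by exact_mod_cast x2
  have x7 : (D.card : ℝ) ≤ r := by exact_mod_cast q
  have x8 : (0 : ℝ) ≤ X.card := Nat.cast_nonneg _
  have x9 : (0 : ℝ) ≤ D.card := Nat.cast_nonneg _
  have a1 : 2 * (ec G : ℝ) = eK2 r (cn c) + 2 * X.card + 2 * D.card := by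
    rcases D.eq_empty_or_nonempty with d | d
    · rw [eB d, ec_B m.1 hw hX, d]; simp
    · have k : TgOK r c ⊥ w X z D := ⟨m.1, bot_le, hw, hz, (q2 d).1.symm, hX, fun v hv => Or.inl (hD v hv)⟩
      have := k.ec_eq
      rw [← e, ec_bot] at this
      rw [← Mo_Kc' m.1]
      exact_mod_cast (by omega : 2 * ec G = 2 * ec (Kc c) + 2 * X.card + 2 * D.card)
  have dν := mul_le_mul_of_nonneg_right h.dd rg.ν0.le
  have rν := mul_le_mul_of_nonneg_right R rg.ν0.le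
  have dg := h.ex.deg m.1 (H := ⊥) (e ▸ le_sup_left.trans le_sup_left) (by rw [ec_bot]; omega)
    fun i hi => (m.one i hi).trans' one_le_two
  have cl := h.ex.cl dg (by linarith [rg.δν, rg.ν0])
  obtain ⟨α, β, a0, -, b0, -, up⟩ := upperS (G := G) (c := c) (z := w) (w := z) (Y := X) (X := D)
    (by rw [e, Tg, sdiff_bot]) m.1 hw hz hX (fun v hv => Or.inl (hD v hv))
    (fun d => not_nonempty_iff_eq_empty.1 fun d' => (q2 d').1 d.symm) h.ex.l2
  have g1 : ((D ∩ X).card : ℝ) ≤ r := le_trans (by exact_mod_cast card_le_card inter_subset_left) x7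
  have hy : ∀ d, 0 < d → (X.card : ℝ) ≤ (r - 1) * (1 + 2 * d) * ν := fun d d0 => by
    nlinarith only [mul_pos (mul_pos d0 rg.ν0) (show (0 : ℝ) < r - 1 by linarith), x6, hC, C3, dν, rg.δν,
      rν, R, rg.ν0]
  obtain ⟨p1, cx, p3⟩ := h.boot (C := C) cl a0 b0 (Nat.cast_nonneg _) (by linarith)
    (by split_ifs <;> norm_num) C3 (by linarith) (x4 ▸ hy δ rg.δ0)
    (abs_le.2 ⟨by linarith, by linarith⟩) up
  have cl' := cx.cl' p3
  have p2 : ∑ i ∈ Icc 1 r, cn c i = M := p1.resolve_right fun p2 => by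
    have b2 := WW_eq (j := -1) (n := cn c) (cx.real h.h0) (by
      rw [← h.hM, ← p2]; push_cast; ring)
    linarith [WW0 r ν (cn c), h.W0, rg.δν, rg.ν1]
  have c4 := eK2_le' p2
  obtain ⟨u, hu⟩ := Nat.exists_eq_add_of_le (show k ≤ X.card + D.card by
    exact_mod_cast (by push_cast; linarith : (k : ℝ) ≤ (X.card + D.card : ℕ)))
  have hu' : (X.card : ℝ) + D.card = k + u := by exact_mod_cast hu
  obtain rfl : u = 0 := by
    by_contra hn
    obtain ⟨Γ, u1, u2⟩ := gainS cx.rg cl' a0 b0 (Nat.cast_nonneg _) g1 (by split_ifs <;> norm_num)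
      (by linarith) (x5 ▸ x7) (x4 ▸ hy δ' h.d0) up
    have u3 := unit cx.rg (j := 0) (cx.real h.h0) (by rw [cx.real p2, add_zero]) h.cand u1
    have gh := cx.gc_le h.bk1
    rw [b1] at gh u3
    push_cast at gh
    obtain ⟨o1, -⟩ := ro_bounds h.r11
    have d0 := h.d0
    refine cx.noAdd2 p2 (u := u) (s := 0) (C := C) (θ := 0) (by linarith) le_rfl
      (by linarith [u.cast_nonneg (α := ℝ)]) (x8.trans (hy δ' d0)) (by linarith [rg.δν]) (by linarith) h.C2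
      (Or.inr (Or.inl ⟨by omega, by norm_num⟩)) ?_
    have u4 : ((X.card : ℝ) ^ 2 + r ^ 2) * (ro r * (1 + 6 * δ')) / ν ≤
        (0 ^ 2 + C ^ 2) * (ro r * (1 + 6 * δ')) / ν :=
      div_le_div_of_nonneg_right (mul_le_mul_of_nonneg_right (by
        nlinarith only [pow_le_pow_left₀ (by linarith) (show X.card + r ≤ C by linarith) 2, x8, R])
        (by positivity)) rg.ν0.le
    rw [x4] at u2
    linarith
  exact bal_of_eq (by have := h.r11; omega) p2 (by push_cast at hu'; linarith)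

end Fs

theorem small_fwd {r t bk g₀ : ℕ} (r11 : 11 ≤ r) (hk : Kind r bk g₀ 0) (ht : bk = 0 ↔ t = 0) :
    ∃ N₀ : ℕ, ∀ N k m : ℕ, N₀ ≤ N → m = (SimpleGraph.turanGraph N r).edgeSet.ncard + k →
      r + bk ≤ k → k ≤ r * t + 2 * r → (bk = 0 → k + 2 ≤ 2 * r) →
      ∀ (V : Type) [Fintype V] (G : SimpleGraph V), InN (Bk r t) r m G →
        (∀ (W : Type) [Fintype W] (H : SimpleGraph W), InN (Bk r t) r m H → lam H ≤ lam G) →
        ∃ c, (Bal r N (cn c) ∧ (OS r bk g₀ 0 G c ∨ OP r G c ∨ 1 ≤ t ∧ FT r t G c)) ∨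
          (bk = 0 ∧ k + 2 = 2 * r ∧ ∑ i ∈ Icc 1 r, cn c i = N ∧ eK2 r (cn c) + 2 = tu2 r N ∧
            OS r bk g₀ 0 G c) := by
  have hr : 3 ≤ r := by omega
  have R : (11 : ℝ) ≤ r := by exact_mod_cast r11
  have bk1 : bk ≤ 1 := by rcases hk with e | e | e <;> omega
  obtain ⟨N₀, hS⟩ := setup r11 t 0
  obtain ⟨C, hC⟩ : ∃ C : ℝ, C = r * t + 2 * r + 1 := ⟨_, rfl⟩
  have rt : (0 : ℝ) ≤ r * t := by positivity
  refine ⟨max N₀ ⌈10000 * C ^ 2 * r⌉₊, fun N k m hN hm k1 k2 k3 V _ G g1 g2 => ?_⟩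
  have ν1 := big_of (by omega) ((le_max_right _ _).trans hN)
  have s3 : C ≤ √N := le_sqrt (r := r) (by omega) (by linarith [sq_nonneg C])
  have C1 : C ≤ C ^ 2 := by nlinarith
  have k4 : (k : ℝ) + 1 ≤ C := by rw [hC]; exact_mod_cast (by omega : k + 1 ≤ r * t + 2 * r + 1)
  have k0 : (0 : ℝ) ≤ k := Nat.cast_nonneg _
  have e2 : 2 * (m : ℝ) = tu2 r N + 2 * k := by rw [hm, ← tu2_eq (by omega)]; push_cast; ring
  have rν := mul_le_mul_of_nonneg_right R (show (0 : ℝ) ≤ N / r by positivity)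
  obtain ⟨δ', n₀, a₀, fz, -, s4, p4, p5, l0, c₀, hc⟩ := hS N 0 m ((le_max_left _ _).trans hN)
    (by push_cast; linarith) (abs_le.2 ⟨by linarith, by linarith⟩) V G g1 g2
  have s0 := Real.sqrt_nonneg (N : ℝ)
  rw [Nat.cast_zero, mul_zero, add_zero] at p4
  generalize (N : ℝ) / r = ν at *
  generalize √(N : ℝ) = s at *
  have eG : (ec G : ℝ) = m := congrArg _ g1.1
  have two : ∀ i ∈ Icc 1 r, 2 ≤ n₀ i := fun i hi => (p5 i hi).1
  have big : ∀ i ∈ Icc 1 r, k + 1 ≤ n₀ i := fun i hi => by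
    exact_mod_cast (by push_cast; linarith [(p5 i hi).2] : ((k + 1 : ℕ) : ℝ) ≤ n₀ i)
  have i1 : 1 ∈ Icc 1 r := mem_Icc.2 ⟨by omega, by omega⟩
  have i2 : 2 ∈ Icc 1 r := mem_Icc.2 ⟨by omega, by omega⟩
  have i3 : 3 ∈ Icc 1 r \ {1, 2} := mem_J.2 ⟨mem_Icc.2 ⟨by omega, by omega⟩, by omega, by omega⟩
  have oS := e2 ▸ orS hk (goodS hr ht) l0 g2
  have oP := e2 ▸ orP (goodP hr t) l0 g2
  have h : Fs r N bk k (1 / (1000 * r ^ 2)) δ' ν C G n₀ a₀ := by
    refine ⟨fz bk bk1 ?_, p4, by linarith, k1, k4, by linarith, ν1, by linarith⟩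
    rcases Nat.eq_zero_or_pos bk with b | b
    · have := oP n₀ 1 2 (fun i => 1 + if i = 3 then k + 1 - r else 0) two i1 i2 (by omega)
        (fun i hi => ⟨Nat.le_add_right _ _, by
          have := big i (mem_J.1 hi).1
          show 1 + _ + 0 ≤ _
          split_ifs <;> omega⟩) (by
          have c1 := card_pair_sdiff i1 i2 (by omega)
          rw [← Nat.cast_sum, sum_add_distrib, sum_ite_eq', if_pos i3, sum_const, smul_eq_mul, p4,
            add_assoc, add_right_inj]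
          exact_mod_cast (by omega)) (1 / (lam G + n₀ 1)) (1 / (lam G + n₀ 2)) 0
      rw [PhP_zero i1 i2 (by omega)] at this
      rw [gc, b]
      push_cast
      linarith
    · obtain rfl : bk = 1 := by omega
      have := oS n₀ 1 (fun i => if i = 2 then k - r else 0) two
        ⟨i1, rfl, fun i hi => ⟨Nat.zero_le _, by
          have := big i (mem_of_mem_erase hi)
          show _ + 0 ≤ _
          split_ifs <;> omega⟩⟩
        ⟨2, mem_erase.2 ⟨by omega, i2⟩, by have := big 2 i2; simp; omega⟩ (by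
          rw [← Nat.cast_sum, sum_ite_eq', if_pos i2, p4, add_assoc, add_right_inj]
          exact_mod_cast (by omega)) 0 0
      rw [PhK_zero] at this
      rw [gc]
      push_cast
      linarith
  rcases form2 hc hk ht with ⟨c, z, w, Y, X, a, q, e, p⟩ | ⟨c, z, b, w, X, q, hx, e, p⟩ | ⟨t1, c, q⟩
  · obtain ⟨o, b | ⟨b1, b2, b3, b4⟩⟩ := h.star q e p k3 oS
    exacts [⟨c, Or.inl ⟨b, Or.inl o⟩⟩, ⟨c, Or.inr ⟨b1, b2, b3, b4, o⟩⟩]
  · obtain ⟨b, o⟩ := h.pair q hx e p oP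
    exact ⟨c, Or.inl ⟨b, Or.inr (Or.inl o)⟩⟩
  · exact ⟨c, Or.inl ⟨h.third q (by have := ht.1; omega) (by linarith), Or.inr (Or.inr ⟨t1, q⟩)⟩⟩

end Pool.Agent.P.MP_094db5_co.Dn
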