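import Pool.Agent.P.MP_094db5_co.DH2

/-! The extremal graphs for all large numbers of edges. -/

set_option autoImplicit false

open Finset Classical

noncomputable section

namespace Pool.Agent.P.MP_094db5_co.Dn

variable {r t N k m d : ℕ}

lemma kc_two (n : ℕ → ℕ) : 2 * (kc (Icc 1 r) n 2 : ℝ) = eK2 r n := by
  have h := newton (Icc 1 r) (zz n) (n := 2) two_pos
  rw [show (antidiagonal 2).filter (fun p : ℕ × ℕ => p.1 ∈ Set.Ioo 0 2) = {(1, 1)} by
    ext ⟨a, b⟩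
    simp only [mem_filter, HasAntidiagonal.mem_antidiagonal, Set.mem_Ioo, mem_singleton, Prod.mk.injEq]
    omega, sum_singleton, es_zz, show es (Icc 1 r) (zz n) 1 = pw (Icc 1 r) (zz n) 1 by
    simp [es, pw, powersetCard_one]] at h
  simp only [pw, zz, pow_one] at h
  have h' := congrArg (Int.cast : ℤ → ℝ) h
  push_cast at h'
  rw [eK2]
  linarith

lemma tu2_succ (r N : ℕ) : tu2 r (N + 1) = tu2 r N + 2 * (N - (N / r : ℕ)) := by
  have h := Nat.succ_div (a := N) (b := r)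
  rw [tu2, tu2, h]
  split_ifs at h ⊢ with e
  · have a := Nat.mul_div_cancel' e
    rw [h] at a
    have a' : (r : ℝ) * ((N / r : ℕ) + 1) = N + 1 := by exact_mod_cast a
    push_cast
    linear_combination 2 * a'
  · push_cast
    ring

lemma psi_eq (r N k : ℕ) : psi r N k = k - th2 r * (N / r) := by
  rw [psi, th2]; ring

lemma d_le (hr : 1 ≤ r) {s : ℕ} (h : tn r N + k + d + s = tn r (N + 1) + r) :
    (d : ℝ) ≤ 2 * (r - 1) / r * (N / r) + (r + 1) - psi r N k := by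
  have r0 : (0 : ℝ) < r := by exact_mod_cast hr
  have a1 : (tn r N : ℝ) + k + d + s = tn r (N + 1) + r := by exact_mod_cast h
  have a2 : 2 * (tn r N : ℝ) = _ := tu2_eq hr N
  have a3 : 2 * (tn r (N + 1) : ℝ) = _ := tu2_eq hr (N + 1)
  have a4 : (N : ℝ) / r < (N / r : ℕ) + 1 := by
    rw [div_lt_iff₀ r0, mul_comm]
    exact_mod_cast Nat.lt_mul_div_succ N hr
  have a5 : (N : ℝ) - N / r = 2 * (r - 1) / r * (N / r) + (r - 1) * (r - 2) * N / r ^ 2 := by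
    field_simp; ring
  rw [psi]
  linarith [tu2_succ r N, s.cast_nonneg (α := ℝ)]

variable {V : Type} [Fintype V] {G : SimpleGraph V}

lemma CandB.inN (hr : 3 ≤ r) (h : CandB r t N m G) : InN (Bk r t) r m G := by
  obtain ⟨bk, g₀, hk, ht, -⟩ := exists_kind hr t
  obtain ⟨e, c, h⟩ := h
  suffices f : ∃ c, FamB r t G c from f.elim fun c f => ⟨e, free_of_noBook (f.noBook hr), f.nc hr⟩
  rcases h with ⟨-, -, h | h | ⟨w, z, X, D, hw, hz, hX, hD, p, q, q1, q2, m⟩⟩ | h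
  · obtain ⟨z, w, Y, X, a, s, rfl, two, -⟩ := (starB_iff hk ht).1 h
    exact ⟨_, s.famB two rfl ht⟩
  · obtain ⟨z, b, w, X, s, rfl, two, -, ad, -⟩ := pairB_iff.1 h
    exact ⟨_, s.famB two (fun i hi => (ad i hi).1) t⟩
  · have := p 1 (mem_Icc.2 ⟨le_rfl, by omega⟩)
    exact ⟨c, w, z, X, D, hw, hX, fun v hv => ⟨hD v hv, hz ▸ hD v hv⟩, fun i hi => (p i hi).1,
      Or.inr (Or.inr ⟨m, by omega, hz, fun i hi => (p i hi).2, q, q1, q2⟩)⟩
  · exact ⟨c, DenseB.famB h hr⟩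

lemma cand_of (hr : 1 ≤ r) (e : G.edgeSet.ncard = m) {c : V → ℕ} (h1 : ∑ i ∈ Icc 1 r, cn c i = N)
    (h2 : tu2 r N ≤ eK2 r (cn c) + 2) (h : StarB r t G c ∨ PairB r G c ∨ SmallB r t G c) :
    CandB r t N m G := by
  refine ⟨e, c, Or.inl ⟨sz_eq c ▸ h1, ?_, h⟩⟩
  rw [← kc_two, ← tu2_eq hr] at h2
  rw [sz_eq, tn]
  exact_mod_cast (by push_cast; linarith :
    ((SimpleGraph.turanGraph N r).edgeSet.ncard : ℝ) ≤ (kc (Icc 1 r) (cn c) 2 + 1 : ℕ))

theorem cand_fwd (r11 : 11 ≤ r) (t : ℕ) : ∃ N₀ : ℕ, ∀ N k m : ℕ, N₀ ≤ N → m = tn r N + k →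
    (r < k + if t = 0 then 1 else 0) → (m + if t = 0 then 1 else 0) ≤ tn r (N + 1) + r →
    ∀ (V : Type) [Fintype V] (G : SimpleGraph V), InN (Bk r t) r m G →
    (∀ (W : Type) [Fintype W] (H : SimpleGraph W), InN (Bk r t) r m H → lam H ≤ lam G) →
    CandB r t N m G := by
  have hr : 3 ≤ r := by omega
  have R : (11 : ℝ) ≤ r := by exact_mod_cast r11
  obtain ⟨bk, g₀, hk, ht, eb⟩ := exists_kind hr t
  have bk1 : bk ≤ 1 := by rcases hk with e | e | e <;> omega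
  obtain ⟨N₁, h₁⟩ := small_fwd r11 hk ht
  obtain ⟨N₂, h₂⟩ := turan_fwd hr hk ht
  obtain ⟨N₃, h₃⟩ := dense_main r11 hk ht (100000 * (r : ℝ) ^ 4)
  refine ⟨N₁ + N₂ + N₃ + ⌈(1000 * (r : ℝ) ^ 4) ^ 2 * r⌉₊, fun N k m hN hm k1 k2 V _ G g1 g2 => ?_⟩
  rw [← eb] at k1 k2
  have key : ∀ c, Bal r N (cn c) → OS r bk g₀ 0 G c ∨ OP r G c → CandB r t N m G := fun c b h =>
    cand_of (by omega) g1.1 b.2 (by linarith [b.eK2])
      (h.imp (starB_iff hk ht).2 fun h => Or.inl (pairB_iff.2 h))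
  by_cases p1 : k ≤ r * t + 2 * r ∧ (bk = 0 → k + 2 ≤ 2 * r)
  · obtain ⟨c, ⟨b, h | h | h⟩ | ⟨-, -, b1, b2, h⟩⟩ :=
      h₁ N k m (by omega) hm (by omega) p1.1 p1.2 V G g1 g2
    · exact key c b (Or.inl h)
    · exact key c b (Or.inr h)
    · exact cand_of (by omega) g1.1 b.2 (by linarith [b.eK2]) (Or.inr (Or.inr h.2))
    · exact cand_of (by omega) g1.1 b1 b2.ge (Or.inl ((starB_iff hk ht).2 h))
  have k3 : r * t + r < k ∧ 2 * r ≤ k + 1 := by
    by_cases b : bk = 0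
    · rw [ht.1 b] at p1 ⊢
      omega
    · omega
  by_cases p2 : (k : ℝ) ≤ th2 r * (N / r) - 1600 * r ^ 2 * √N
  · obtain ⟨c, b, h⟩ := h₂ N k m (by omega) hm k3.1 k3.2 p2 V G g1 g2
    exact key c b h
  obtain ⟨d, hd⟩ := Nat.exists_eq_add_of_le k2
  have d1 := d_le (r := r) (N := N) (k := k) (d := d) (s := 1 - bk) (by omega) (by omega)
  have s3 : 1000 * (r : ℝ) ^ 4 ≤ √N := le_sqrt (r := r) (by omega) (big_of (by omega) (by omega))
  have N0 : (0 : ℝ) ≤ N := Nat.cast_nonneg _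
  have s2 := Real.sq_sqrt N0
  rw [psi_eq] at d1
  have d2 : 2 * (d : ℝ) + r ≤ 4 * ((N + 1 : ℕ) / r) := by
    have a1 : (N : ℝ) / r ≤ (N + 1 : ℕ) / r := by push_cast; gcongr; linarith
    have a2 : 2 * (r - 1) / r * (N / r : ℝ) = 2 * (N / r) - 2 * (N / r ^ 2) := by field_simp
    have a3 : 1000 * r ^ 2 * √N ≤ (N : ℝ) / r ^ 2 := by
      rw [le_div_iff₀ (by positivity)]
      nlinarith only [mul_le_mul_of_nonneg_left s3 (Real.sqrt_nonneg N), s2]
    have a4 : (1 : ℝ) ≤ r ^ 4 := one_le_pow₀ (by linarith)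
    have a5 := mul_le_mul_of_nonneg_left (show 1 ≤ √N by linarith) (sq_nonneg (r : ℝ))
    nlinarith only [a1, a2, a3, a5, d1, p2, R]
  rcases h₃ (N + 1) d m (by omega) (by rw [← tn]; omega) d2 V G g1 g2 with
    ⟨c, h, -⟩ | ⟨δ', n₀, a₀, c, fn, cx, q1, q2, q3, q4⟩
  · exact ⟨g1.1, c, Or.inr h⟩
  have e2 : 2 * (m : ℝ) = tu2 r N + 2 * k := by rw [hm, ← tu2_eq (by omega), tn]; push_cast; ring
  have μ0 := cx.rg.μ0
  obtain ⟨b, h⟩ := window cx fn.ex.rg (by rw [le_div_iff₀ (by positivity)]; linarith) q3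
    (by rw [q2]; convert q4 using 2; ring) (e2 ▸ orS hk (goodS hr ht) μ0 g2)
    (e2 ▸ orP (goodP hr t) μ0 g2) (by rw [← e2]; exact congrArg _ (congrArg _ g1.1)) k3.2
  exact key c b h

theorem book_full (r11 : 11 ≤ r) (t : ℕ) : ∃ N₀ : ℕ, ∀ N k m : ℕ, N₀ ≤ N → m = tn r N + k →
    (r < k + if t = 0 then 1 else 0) → (m + if t = 0 then 1 else 0) ≤ tn r (N + 1) + r →
    ∀ (V : Type) [Fintype V] (G : SimpleGraph V), (InN (Bk r t) r m G ∧
      ∀ (W : Type) [Fintype W] (H : SimpleGraph W), InN (Bk r t) r m H → lam H ≤ lam G) ↔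
    (Win r t N k N₀ → CandB r t N m G ∧
      ∀ (W : Type) [Fintype W] (H : SimpleGraph W), CandB r t N m H → lam H ≤ lam G) ∧
    (¬ Win r t N k N₀ → G.edgeSet.ncard = m ∧ ∃ c, if 0 < psi r N k then DenseB r t (N + 1) G c
      else Turan r N c ∧ if 0 < phi r N k then PairB r G c else StarB r t G c) := by
  have hr : 3 ≤ r := by omega
  have R : (11 : ℝ) ≤ r := by exact_mod_cast r11
  obtain ⟨N₁, h₁⟩ := cand_fwd r11 t
  obtain ⟨N₂, h₂⟩ := book_turan hr t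
  obtain ⟨N₃, h₃⟩ := book_dense r11 t
  refine ⟨N₁ + N₂ + N₃ + 1, fun N k m hN hm k1 k2 V _ G => ?_⟩
  by_cases p : Win r t N k (N₁ + N₂ + N₃ + 1)
  · simp only [p, true_implies, not_true, false_implies, and_true]
    refine ⟨fun ⟨g1, g2⟩ => ⟨h₁ N k m (by omega) hm k1 k2 V G g1 g2,
      fun W _ H h => g2 W H (CandB.inN hr h)⟩, fun ⟨g1, g2⟩ => ⟨CandB.inN hr g1, fun W _ H h => ?_⟩⟩
    obtain ⟨G', g3, g4⟩ := exists_extremal h (by omega) (Bk_adj hr t)
    exact (g4 W H h).trans (g2 _ G' (h₁ N k m (by omega) hm k1 k2 _ G' g3 g4))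
  simp only [p, true_implies, not_false_iff, false_implies, true_and]
  simp only [Win, not_or, not_lt, not_and, not_le] at p
  obtain ⟨p1, p2, p3, p4⟩ := p
  have s1 : (1 : ℝ) ≤ √N := Real.one_le_sqrt.2 (by exact_mod_cast (by omega : 1 ≤ N))
  by_cases q : 0 < psi r N k
  · simp only [q, if_true]
    obtain ⟨d, hd⟩ := Nat.exists_eq_add_of_le k2
    have d1 := d_le (r := r) (N := N) (k := k) (d := d) (s := if t = 0 then 1 else 0) (by omega)
      (by omega)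
    rw [abs_of_pos q] at p3
    refine h₃ (N + 1) d m (by omega) (by rw [← tn]; omega) ?_ (fun e => ?_) V G
    · have a1 : 2 * (r - 1) / r * (N / r : ℝ) ≤ 2 * (r - 1) / r * ((N + 1 : ℕ) / r) :=
        mul_le_mul_of_nonneg_left (by push_cast; gcongr; linarith)
          (div_nonneg (by linarith) (by linarith))
      have a2 : √((N + 1 : ℕ) : ℝ) ≤ 2 * √N := Real.sqrt_le_iff.2 ⟨by linarith, by
        push_cast
        nlinarith only [Real.sq_sqrt (Nat.cast_nonneg (α := ℝ) N), s1]⟩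
      nlinarith only [a1, mul_le_mul_of_nonneg_left a2 (show (0 : ℝ) ≤ r by linarith), d1, p3, R, s1,
        mul_le_mul R s1 zero_le_one (by linarith : (0 : ℝ) ≤ r),
        mul_le_mul_of_nonneg_right R (show (0 : ℝ) ≤ r * √N by positivity)]
    · have := p4 e
      rw [if_pos e] at hd
      omega
  · simp only [q, if_false]
    rw [abs_of_nonpos (not_lt.1 q), psi_eq, th2] at p3
    exact h₂ N k m (by omega) hm (by omega) (by omega) (by linarith) p2 V G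

end Pool.Agent.P.MP_094db5_co.Dn
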