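import Mathlib

set_option autoImplicit false

namespace Pool.Agent.P.MP_094db5_co

open Classical in
/-- The largest eigenvalue of the adjacency matrix. -/
noncomputable def lam {V : Type} [Fintype V] (G : SimpleGraph V) : ℝ :=
  sSup (spectrum ℝ (G.adjMatrix ℝ))

/-- The join of two graphs. -/
def join {α β : Type} (G : SimpleGraph α) (H : SimpleGraph β) : SimpleGraph (α ⊕ β) :=
  G.sum H ⊔ completeBipartiteGraph α β

/-- `G` is obtained from the complete `r`-partite graph whose parts `c⁻¹(1), …, c⁻¹(r)` all have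
size `n` by deleting the pairs in `D` and adding the pairs in `A`; vertices with label `0` lie
outside the parts. -/
def Gad {V : Type} (G : SimpleGraph V) (r n : ℕ) (c : V → ℕ) (A D : Set (Sym2 V)) : Prop :=
  (∀ v, c v ≤ r) ∧ (∀ i ∈ Finset.Icc 1 r, {v | c v = i}.ncard = n) ∧
    ∀ u v, G.Adj u v ↔ (c u ≠ 0 ∧ c v ≠ 0 ∧ c u ≠ c v ∧ s(u, v) ∉ D) ∨ s(u, v) ∈ A

end Pool.Agent.P.MP_094db5_co
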