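import Pool.Agent.P.MP_094db5_co.Rough

set_option autoImplicit false

open Finset Classical

noncomputable section

namespace Pool.Agent.P.MP_094db5_co

variable {V : Type} [Fintype V]

omit [Fintype V] in
lemma NoPlus.ext {G : SimpleGraph V} {r t : ℕ} (h : NoPlus G r t) {B : ℕ → Finset V}
    (h1 : ∀ i ∈ Icc 1 r, t ≤ (B i).card)
    (h2 : ∀ i ∈ Icc 1 r, ∀ j ∈ Icc 1 r, i ≠ j → ∀ a ∈ B i, ∀ b ∈ B j, G.Adj a b) {i : ℕ}
    (hi : i ∈ Icc 1 r) {u v : V} (h3 : ∀ j ∈ Icc 1 r, j ≠ i → ∀ b ∈ B j, G.Adj u b ∧ G.Adj v b) :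
    ¬ G.Adj u v := by
  have key : ∀ j ∈ Icc 1 r, j ≠ i → ∀ a ∈ insert u (insert v (B i)), ∀ b ∈ B j, G.Adj a b := by
    intro j hj hji a ha b hb
    rcases mem_insert.1 ha with rfl | ha
    · exact (h3 j hj hji b hb).1
    rcases mem_insert.1 ha with rfl | ha
    · exact (h3 j hj hji b hb).2
    · exact h2 i hi j hj hji.symm a ha b hb
  refine h (Function.update B i (insert u (insert v (B i)))) (fun j hj => ?_)
    (fun j hj k hk hjk a ha b hb => ?_) i hi u (by simp) v (by simp)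
  · by_cases e : j = i
    · subst e
      rw [Function.update_self]
      exact (h1 j hj).trans (card_le_card ((subset_insert _ _).trans (subset_insert _ _)))
    · rw [Function.update_of_ne e]
      exact h1 j hj
  · by_cases e : j = i
    · subst e
      rw [Function.update_self] at ha
      rw [Function.update_of_ne hjk.symm] at hb
      exact key k hk hjk.symm a ha b hb
    · rw [Function.update_of_ne e] at ha
      by_cases e' : k = i
      · subst e'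
        rw [Function.update_self] at hb
        exact (key j hj e b hb a ha).symm
      · rw [Function.update_of_ne e'] at hb
        exact h2 j hj k hk hjk a ha b hb

lemma Rough.E2 {G : SimpleGraph V} {x : V → ℝ} {μ ξ ζ : ℝ} {r t : ℕ} {c : V → ℕ}
    (h : Rough G x μ ξ r c) (hG : NoPlus G r t) (h0 : 0 ≤ ξ) (h1 : ξ ≤ 1) (hμ : 0 ≤ μ)
    (hζ : r * t * ξ + 2 * t * μ < ζ) (hζ' : ζ ≤ 1 / r - ξ) {u v : V} (huv : G.Adj u v) {i : ℕ}
    (hi : i ∈ Icc 1 r) : ∃ j ∈ Icc 1 r, j ≠ i ∧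
      Wt (fun v => x v ^ 2) (fun w => c w = j ∧ G.Adj u w ∧ G.Adj v w) < ζ := by
  have hp : ∀ v, 0 ≤ x v ^ 2 := fun v => sq_nonneg (x v)
  by_contra hn
  push Not at hn
  obtain ⟨B, b1, b2, b3⟩ := greedy (G := G) (r := r) (t := t)
    (fun j => univ.filter fun w => c w = j ∧ (j = i ∨ G.Adj u w ∧ G.Adj v w)) (by
      intro k hk Z hZ hZt
      by_contra hno
      push Not at hno
      have a1 : ζ ≤ Wt (fun v => x v ^ 2) fun w => c w = k ∧ (k = i ∨ G.Adj u w ∧ G.Adj v w) := by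
        by_cases e : k = i
        · refine (hζ'.trans (h.Pi k hk)).trans ?_
          rw [Pc_eq]
          exact Wt_mono hp fun w hw => ⟨hw, Or.inl e⟩
        · exact (hn k hk e).trans (Wt_mono hp fun w hw => ⟨hw.1, Or.inr hw.2⟩)
      have a0 : ∀ j ∈ Icc 1 r, ∀ z ∈ Z j, c z = j ∧ c z ≠ 0 := fun j hj z hz => by
        have := (mem_filter.1 (hZ j hz)).2.1
        have := mem_Icc.1 hj
        omega
      have a2 := Wt_add hp (S := fun w => c w = k ∧ (k = i ∨ G.Adj u w ∧ G.Adj v w))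
        (T := fun w => ∃ z ∈ Z k, w = z)
        (U := fun w => ∃ j ∈ Icc 1 r, ∃ z ∈ Z j, cross c z w ∧ ¬ G.Adj z w) fun w hw => by
          by_cases e : w ∈ Z k
          · exact Or.inl ⟨w, e, rfl⟩
          · obtain ⟨j, hj, hjk, z, hz, hzw⟩ := hno w (mem_filter.2 ⟨mem_univ _, hw⟩) e
            have := a0 j hj z hz
            have := mem_Icc.1 hk
            exact Or.inr ⟨j, hj, z, hz, ⟨by omega, by omega, by omega⟩, fun a => hzw a.symm⟩
      have a3 : Wt (fun v => x v ^ 2) (fun w => ∃ z ∈ Z k, w = z) ≤ 2 * t * μ := by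
        refine (Wt_exists hp _ _).trans ((sum_le_card_nsmul _ _ (2 * μ) fun z hz => ?_).trans ?_)
        · have := (abs_le.1 (h.typ z (a0 k hk z hz).2)).2
          simp only [Wt, sum_ite_eq', mem_univ, if_true]
          nlinarith
        · have : ((Z k).card : ℝ) ≤ t := by exact_mod_cast hZt k
          rw [nsmul_eq_mul]
          nlinarith
      have a4 : Wt (fun v => x v ^ 2) (fun w => ∃ j ∈ Icc 1 r, ∃ z ∈ Z j, cross c z w ∧
          ¬ G.Adj z w) ≤ r * t * ξ := by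
        refine (Wt_exists hp _ _).trans ((sum_le_card_nsmul _ _ (t * ξ) fun j hj => ?_).trans ?_)
        · refine (Wt_exists hp _ _).trans ((sum_le_card_nsmul _ _ ξ fun z hz =>
            h.miss z (a0 j hj z hz).2).trans ?_)
          rw [nsmul_eq_mul]
          exact mul_le_mul_of_nonneg_right (by exact_mod_cast hZt j) h0
        · simp [mul_assoc]
      linarith)
  exact hG.ext (fun j hj => (b2 j hj).ge) b3 hi
    (fun j _ hji b hb => ((mem_filter.1 (b1 j hb)).2.2).resolve_left hji) huv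

/-- refined rough structure -/
structure Fine (G : SimpleGraph V) (x : V → ℝ) (μ ξ : ℝ) (r : ℕ) (c : V → ℕ) : Prop where
  le : ∀ v, c v ≤ r
  typ : ∀ v, c v ≠ 0 → |x v ^ 2 - μ| ≤ ξ * μ
  P0 : Pc (fun v => x v ^ 2) c 0 ≤ ξ
  Pi : ∀ i ∈ Icc 1 r, 1 / r - ξ ≤ Pc (fun v => x v ^ 2) c i
  E1 : ∀ u, ∃ i ∈ Icc 1 r, Wt (fun v => x v ^ 2) (fun w => c w = i ∧ G.Adj u w) ≤ ξ
  E2 : ∀ u v, G.Adj u v → ∀ i ∈ Icc 1 r, ∃ j ∈ Icc 1 r, j ≠ i ∧
      Wt (fun v => x v ^ 2) (fun w => c w = j ∧ G.Adj u w ∧ G.Adj v w) ≤ ξ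

lemma Rough.fine {G : SimpleGraph V} {x : V → ℝ} {μ ξ ξ' : ℝ} {r t : ℕ} {c : V → ℕ}
    (h : Rough G x μ ξ' r c) (hG : NoPlus G r t) (hr : 1 ≤ r) (h0 : 0 ≤ ξ') (h1 : ξ ≤ 1 / r)
    (hμ : 0 ≤ μ) (hζ : r * t * ξ' + 2 * t * μ < ξ / 2) (hζ' : ξ' ≤ ξ / 2) : Fine G x μ ξ r c := by
  have hp : ∀ v, 0 ≤ x v ^ 2 := fun v => sq_nonneg (x v)
  have hr' : 1 / (r : ℝ) ≤ 1 := by
    rw [div_le_one (by exact_mod_cast hr)]; exact_mod_cast hr
  have E2 := fun u v huv i hi => h.E2 hG h0 (by linarith) hμ hζ (by linarith) (u := u) (v := v)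
    huv (i := i) hi
  have hpos : 0 < ξ / 2 := lt_of_le_of_lt (by positivity) hζ
  refine ⟨h.le, fun v hv => (h.typ v hv).trans (mul_le_mul_of_nonneg_right (by linarith) hμ),
    by linarith [h.P0], fun i hi => by linarith [h.Pi i hi], fun u => ?_, fun u v huv i hi => ?_⟩
  · by_contra hn
    push Not at hn
    have h1r : 1 ∈ Icc 1 r := mem_Icc.2 ⟨le_rfl, hr⟩
    obtain ⟨v, hv, huv⟩ := exists_of_Wt_pos (lt_trans (by linarith) (hn 1 h1r))
    obtain ⟨j, hj, hj1, hlt⟩ := E2 u v huv 1 h1r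
    have a1 := Wt_add hp (S := fun w => c w = j ∧ G.Adj u w)
      (T := fun w => c w = j ∧ G.Adj u w ∧ G.Adj v w) (U := fun w => cross c v w ∧ ¬ G.Adj v w)
      fun w hw => by
        have := mem_Icc.1 hj
        by_cases e : G.Adj v w
        · exact Or.inl ⟨hw.1, hw.2, e⟩
        · exact Or.inr ⟨⟨by omega, by omega, by omega⟩, e⟩
    linarith [hn j hj, h.miss v (by omega)]
  · obtain ⟨j, hj, hj1, hlt⟩ := E2 u v huv i hi
    exact ⟨j, hj, hj1, by linarith⟩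

lemma gap_le {l M ρ C : ℝ} (hM : 0 < M) (h : ρ * M - 2 * C ≤ l ^ 2) :
    ρ - (2 * (l / M) * l - (l / M) ^ 2 * M) ≤ 2 * C / M := by
  rw [show 2 * (l / M) * l - (l / M) ^ 2 * M = l ^ 2 / M by field_simp; ring, sub_le_iff_le_add,
    ← add_div, le_div_iff₀ hM]
  linarith

theorem fine {r : ℕ} (hr : 3 ≤ r) (D t : ℕ) (C : ℝ) {ξ : ℝ} (h0 : 0 < ξ) (h1 : ξ ≤ 1 / r) :
    ∃ M₁ : ℝ, ∀ (V : Type) [Fintype V] (G : SimpleGraph V) (x : V → ℝ), Perron G x → Deg G r D →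
      NoPlus G r t → M₁ ≤ Mo G → (1 - 1 / r) * Mo G - 2 * C ≤ lam G ^ 2 → 0 < lam G →
      ∃ c, Fine G x (lam G / Mo G) ξ r c := by
  obtain ⟨ξ', a0, a1, a2⟩ : ∃ ξ' : ℝ, 0 < ξ' ∧ r * t * ξ' < ξ / 4 ∧ ξ' ≤ ξ / 2 := by
    have : (0 : ℝ) ≤ r * t := by positivity
    refine ⟨ξ / (4 * (r * t + 1)), by positivity, ?_, ?_⟩
    · rw [← mul_div_assoc, div_lt_div_iff₀ (by positivity) (by positivity)]
      nlinarith
    · exact div_le_div_of_nonneg_left h0.le two_pos (by linarith)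
  have e1 : 1 / (2 * (r : ℝ)) = 1 / r / 2 := by
    rw [div_div, mul_comm]
  have hr' : 1 / (r : ℝ) ≤ 1 := by
    rw [div_le_one (by positivity)]; exact_mod_cast (by omega : 1 ≤ r)
  obtain ⟨ε, hε, hε'⟩ : ∃ ε : ℝ, 0 < ε ∧ ε = ξ' ^ 4 / 1000 := ⟨_, by positivity, rfl⟩
  have hε1 : ξ' ^ 4 ≤ ξ' := pow_le_of_le_one a0.le (by linarith) (by norm_num)
  obtain ⟨B, hB, h⟩ := core2 (by omega : 2 ≤ r) D hε
  refine ⟨max (max (1 / (ε / B) ^ 2) (1 / (ξ / (8 * (t + 1))) ^ 2)) (2 * C / ε),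
    fun V _ G x hx hD hP hM hl hl0 => ?_⟩
  simp only [max_le_iff] at hM
  have hM0 : 0 < Mo G := lt_of_lt_of_le (by positivity) hM.1.1
  have := nonempty_of_Mo hM0
  have b1 := mu_small (lam_sq_le G) (by positivity) hM.1.1
  have b2 := mu_small (lam_sq_le G) (by positivity) hM.1.2
  rw [le_div_iff₀ (by positivity)] at b1 b2
  have b3 : 2 * C / Mo G ≤ ε := by
    rw [div_le_iff₀ hM0, mul_comm ε, ← div_le_iff₀ hε]; exact hM.2
  have hμ : 0 < lam G / Mo G := div_pos hl0 hM0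
  obtain ⟨G', hle, c, c1, c2, c3⟩ := h V G x hx.nonneg hx.unit hD
  have c4 := c3 _ hμ.le
  rw [hx.val] at c4
  obtain ⟨c', hc', -⟩ := recolour (G := G') hx.nonneg hμ hr a0 (by linarith) c1 c2 (by linarith)
    (Δ := 3 * ε) (by linarith [gap_le hM0 hl]) (by linarith [pow_pos a0 4])
  exact ⟨c', (hc'.mono hle).fine hP (by omega) a0.le h1 hμ.le (by nlinarith) a2⟩

end Pool.Agent.P.MP_094db5_co
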