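import Pool.Agent.P.MP_094db5_co.Struct

set_option autoImplicit false

open Finset Classical

noncomputable section

namespace Pool.Agent.P.MP_094db5_co

variable {V : Type} [Fintype V]

lemma qf_mono {G H : SimpleGraph V} (h : H ≤ G) {x : V → ℝ} (hx : ∀ v, 0 ≤ x v) :
    qf H x ≤ qf G x :=
  S2_mono fun u v => mul_le_mul_of_nonneg_right (ad_mono h u v) (mul_nonneg (hx u) (hx v))

lemma qf_eq_Mo {G : SimpleGraph V} {x : V → ℝ} (h : ∀ u v, G.Adj u v → x u = 1) : qf G x = Mo G := by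
  refine S2_congr fun u v => ?_
  unfold ad
  split_ifs with a
  · rw [h u v a, h v u a.symm]; norm_num
  · simp

lemma Mo_Kc_eq {c : V → ℕ} {r n : ℕ} (hc : ∀ v, c v ≤ r) (hn : ∀ i ∈ Icc 1 r, cn c i = n) :
    Mo (Kc c) = r * (r - 1) * n ^ 2 := by
  rw [Mo_Kc hc, sum_congr rfl (g := fun _ => (n : ℝ)) fun i hi => by rw [hn i hi],
    sum_congr rfl (f := fun i => (cn c i : ℝ) ^ 2) (g := fun _ => (n : ℝ) ^ 2) fun i hi => by
      rw [hn i hi]]
  simp only [sum_const, Nat.card_Icc, add_tsub_cancel_right, nsmul_eq_mul]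
  ring

theorem lower {G : SimpleGraph V} {c : V → ℕ} {r n : ℕ} (hr : 2 ≤ r) (hc : ∀ v, c v ≤ r)
    (hn : ∀ i ∈ Icc 1 r, cn c i = n) (hp : Proper G c) {w v : V} (hw : c w = 0) (hv : c v ≠ 0)
    (hwv : G.Adj w v) : (1 - 1 / r) * (Mo G - Mo (Bd G c)) < lam G ^ 2 := by
  have hr' : (2 : ℝ) ≤ r := by exact_mod_cast hr
  have hn0 : (0 : ℝ) < n := by
    rw [← hn (c v) (mem_Icc.2 ⟨by omega, hc v⟩)]
    exact_mod_cast card_pos.2 ⟨v, by simp⟩
  obtain ⟨δ, d0, d1⟩ : ∃ δ : ℝ, 0 < δ ∧ (r - 1) * n * δ = 1 := by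
    have : (0 : ℝ) < (r - 1) * n := mul_pos (by linarith) hn0
    exact ⟨1 / ((r - 1) * n), by positivity, mul_one_div_cancel this.ne'⟩
  obtain ⟨y, hy⟩ : ∃ y : V → ℝ, ∀ a, y a = if c a ≠ 0 then 1 else if a = w then δ else 0 :=
    ⟨_, fun _ => rfl⟩
  have y0 : ∀ a, 0 ≤ y a := fun a => by rw [hy]; split_ifs <;> positivity
  have a1 := qf_split hp y
  have a2 := qf_split hp fun _ => 1
  simp only [← Mo_eq_qf] at a2
  rw [qf_eq_Mo (G := Kc c) fun a b h => by rw [hy, if_pos h.1],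
    qf_eq_Mo (G := Kc c \ G) fun a b h => by rw [hy, if_pos h.1.1]] at a1
  have a3 := qf_mono (G := Xe G c) ((SimpleGraph.edge_le_iff _).2 (Or.inr ⟨hwv, Or.inl hw⟩)) y0
  rw [qf_edge hwv.ne, hy, hy, if_neg (not_not.2 hw), if_pos rfl, if_pos hv] at a3
  have a4 : ∑ a, y a ^ 2 = r * n + δ ^ 2 := by
    rw [← sum_Pc _ hc, add_comm]
    congr 1
    · rw [sum_congr rfl (g := fun _ => (n : ℝ))]
      · simp
      · intro i hi
        rw [← hn i hi, ← mul_one (cn c i : ℝ), ← Pc_const]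
        have := mem_Icc.1 hi
        exact le_antisymm (Pc_mono fun a ha => by rw [hy, if_pos (by omega)]; norm_num)
          (Pc_mono fun a ha => by rw [hy, if_pos (by omega)]; norm_num)
    · rw [Pc, sum_eq_single w]
      · rw [if_pos hw, hy, if_neg (not_not.2 hw), if_pos rfl]
      · intro a _ ha
        split_ifs with e
        · rw [hy, if_neg (not_not.2 e), if_neg ha]; norm_num
        · rfl
      · simp
  have a5 := qf_le_lam G y
  have a6 := Mo_mono (show Kc c \ G ≤ Kc c from sdiff_le)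
  have a7 := Mo_nonneg (Kc c \ G)
  rw [Mo_Bd, a2]
  rw [Mo_Kc_eq hc hn] at a1 a6 ⊢
  rw [a4] at a5
  have hN : (0 : ℝ) < r * n := by positivity
  obtain ⟨b, hb⟩ : ∃ b, Mo (Kc c \ G) = r * n * b := ⟨Mo (Kc c \ G) / (r * n), by field_simp⟩
  rw [hb] at a1 a6 a7 ⊢
  have b0 : 0 ≤ b := nonneg_of_mul_nonneg_right a7 hN
  have b1 : b ≤ (r - 1) * n := le_of_mul_le_mul_left (by linarith) hN
  have b2 : (r - 1) * n - b < lam G := by
    by_contra hn
    have c1 := mul_le_mul_of_nonneg_right (not_lt.1 hn) (show 0 ≤ r * n + δ ^ 2 by positivity)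
    have c2 : (r - 1) * n * δ ^ 2 = δ := by rw [sq, ← mul_assoc, d1, one_mul]
    nlinarith [mul_nonneg b0 (sq_nonneg δ)]
  have b3 := mul_self_lt_mul_self (by linarith) b2
  have e : (1 - 1 / (r : ℝ)) * (r * (r - 1) * n ^ 2 - r * n * b + Mo (Xe G c) -
      (Mo (Xe G c) + r * n * b)) = ((r - 1) * n) ^ 2 - 2 * ((r - 1) * n) * b := by
    field_simp; ring
  rw [e]
  nlinarith [sq_nonneg b]

end Pool.Agent.P.MP_094db5_co
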