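import Pool.Agent.P.MP_094db5_co.Reduce

set_option autoImplicit false

open Finset Classical

noncomputable section

namespace Pool.Agent.P.MP_094db5_co

variable {V : Type} [Fintype V]

lemma multi_real {r : ℕ} (hr : 1 ≤ r) {n : ℕ → ℝ} {Λ θ : ℝ} (hΛ : 0 < Λ) (hθ : 0 ≤ θ)
    (hn : ∀ i ∈ Icc 1 r, 0 ≤ n i) (h1 : ∀ i ∈ Icc 1 r, θ * (Λ + n i) ≤ Λ)
    (h : 1 ≤ ∑ i ∈ Icc 1 r, n i / (Λ + n i)) :
    Λ ^ 2 + (2 * θ ^ 2 - (1 - 1 / r)) * ∑ i ∈ Icc 1 r, (n i - (∑ j ∈ Icc 1 r, n j) / r) ^ 2 ≤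
      (1 - 1 / r) * ((∑ i ∈ Icc 1 r, n i) ^ 2 - ∑ i ∈ Icc 1 r, n i ^ 2) := by
  have hr' : (0 : ℝ) < r := by exact_mod_cast hr
  obtain ⟨m, hm⟩ : ∃ m : ℝ, ∑ j ∈ Icc 1 r, n j = r * m := ⟨(∑ j ∈ Icc 1 r, n j) / r, by field_simp⟩
  have hm0 : 0 ≤ m := nonneg_of_mul_nonneg_right (hm ▸ sum_nonneg hn) hr'
  rw [hm, mul_div_cancel_left₀ _ hr'.ne']
  have e1 : ∑ i ∈ Icc 1 r, (n i - m) ^ 2 = ∑ i ∈ Icc 1 r, n i ^ 2 - r * m ^ 2 := by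
    simp only [sub_sq, sum_add_distrib, sum_sub_distrib, ← sum_mul, ← mul_sum, hm, sum_const,
      Nat.card_Icc, add_tsub_cancel_right, nsmul_eq_mul]
    ring
  have hA : 0 < Λ + m := by linarith
  have a1 : (Λ + m) ^ 2 ≤ ∑ i ∈ Icc 1 r,
      ((Λ + m) * m + Λ * (n i - m) - θ * (n i - m) ^ 2) := by
    refine (le_mul_of_one_le_right (sq_nonneg _) h).trans ?_
    rw [mul_sum]
    refine sum_le_sum fun i hi => ?_
    have b1 : 0 < Λ + n i := by linarith [hn i hi]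
    rw [← mul_div_assoc, div_le_iff₀ b1]
    nlinarith [mul_le_mul_of_nonneg_right (h1 i hi) (sq_nonneg (n i - m))]
  simp only [sum_add_distrib, sum_sub_distrib, ← mul_sum, hm, sum_const, Nat.card_Icc,
    add_tsub_cancel_right, nsmul_eq_mul] at a1
  have a2 := sum_le_sum h1
  simp only [sum_add_distrib, ← mul_sum, hm, sum_const, Nat.card_Icc,
    add_tsub_cancel_right, nsmul_eq_mul] at a2
  have a3 : θ * (Λ + m) ≤ Λ := le_of_mul_le_mul_left (by linarith) hr'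
  have hσ : 0 ≤ ∑ i ∈ Icc 1 r, (n i - m) ^ 2 := sum_nonneg fun _ _ => sq_nonneg _
  rw [show ∑ i ∈ Icc 1 r, n i ^ 2 = ∑ i ∈ Icc 1 r, (n i - m) ^ 2 + r * m ^ 2 by linarith]
  generalize ∑ i ∈ Icc 1 r, (n i - m) ^ 2 = σ at *
  have a4 : θ * σ ≤ (Λ + m) * ((r - 1) * m - Λ) := by linarith
  have a5 : 0 ≤ (r - 1) * m - Λ := nonneg_of_mul_nonneg_right (le_trans (by positivity) a4) hA
  have a6 := mul_le_mul_of_nonneg_left a4 hθ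
  have a7 := mul_le_mul_of_nonneg_right a3 a5
  have e2 : (1 - 1 / (r : ℝ)) * ((r * m) ^ 2 - (σ + r * m ^ 2)) =
      ((r - 1) * m) ^ 2 - (1 - 1 / r) * σ := by field_simp; ring
  rw [e2]
  nlinarith [sq_nonneg ((r - 1) * m - Λ)]

/-- the complete multipartite graph on the colour classes -/
def Kc (c : V → ℕ) : SimpleGraph V where
  Adj := cross c
  symm := ⟨fun _ _ a => ⟨a.2.1, a.1, a.2.2.symm⟩⟩
  loopless := ⟨fun _ a => a.2.2 rfl⟩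

/-- size of a colour class -/
def cn (c : V → ℕ) (i : ℕ) : ℕ := (univ.filter fun v => c v = i).card

lemma Pc_const (a : ℝ) (c : V → ℕ) (i : ℕ) : Pc (fun _ => a) c i = cn c i * a := by
  rw [Pc, ← sum_filter, sum_const, nsmul_eq_mul, cn]

lemma Pc_mono {p q : V → ℝ} {c : V → ℕ} {i : ℕ} (h : ∀ v, c v = i → p v ≤ q v) :
    Pc p c i ≤ Pc q c i := sum_le_sum fun v _ => by
  split_ifs with e
  exacts [h v e, le_rfl]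

lemma qf_Kc (f : V → ℝ) {c : V → ℕ} {r : ℕ} (hc : ∀ v, c v ≤ r) :
    qf (Kc c) f = (∑ i ∈ Icc 1 r, Pc f c i) ^ 2 - ∑ i ∈ Icc 1 r, Pc f c i ^ 2 := by
  rw [← cross_eq f hc]
  exact S2_congr fun u v => by simp [ad, Kc]

lemma Mo_Kc {c : V → ℕ} {r : ℕ} (hc : ∀ v, c v ≤ r) :
    Mo (Kc c) = (∑ i ∈ Icc 1 r, (cn c i : ℝ)) ^ 2 - ∑ i ∈ Icc 1 r, (cn c i : ℝ) ^ 2 := by
  simp only [Mo_eq_qf, qf_Kc _ hc, Pc_const, mul_one]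

lemma multi {c : V → ℕ} {r : ℕ} (hr : 1 ≤ r) (hc : ∀ v, c v ≤ r) {z : V → ℝ}
    (hz : ∑ v, z v ^ 2 = 1) {θ : ℝ} (hΛ : 0 < qf (Kc c) z) (hθ : 0 ≤ θ)
    (hn : ∀ i ∈ Icc 1 r, 0 < cn c i) (h1 : ∀ i ∈ Icc 1 r, θ * (qf (Kc c) z + cn c i) ≤ qf (Kc c) z) :
    qf (Kc c) z ^ 2 + (2 * θ ^ 2 - (1 - 1 / r)) *
      ∑ i ∈ Icc 1 r, ((cn c i : ℝ) - (∑ j ∈ Icc 1 r, (cn c j : ℝ)) / r) ^ 2 ≤
      (1 - 1 / r) * Mo (Kc c) := by
  rw [Mo_Kc hc]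
  refine multi_real hr hΛ hθ (fun _ _ => Nat.cast_nonneg _) h1 ?_
  have e := qf_Kc z hc
  generalize qf (Kc c) z = Λ at *
  have hw : ∀ i ∈ Icc 1 r, (0 : ℝ) < cn c i / (Λ + cn c i) := fun i hi => by
    have := hn i hi
    positivity
  have a1 := sq_sum_div_le_sum_sq_div (Icc 1 r) (Pc z c) hw
  have a2 : ∑ i ∈ Icc 1 r, Pc z c i ^ 2 / (cn c i / (Λ + cn c i)) ≤
      ∑ i ∈ Icc 1 r, (Pc z c i ^ 2 + Λ * Pc (fun v => z v ^ 2) c i) := by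
    refine sum_le_sum fun i hi => ?_
    have b1 : Pc z c i ^ 2 ≤ cn c i * Pc (fun v => z v ^ 2) c i := by
      rw [Pc, Pc, ← sum_filter, ← sum_filter]
      exact sq_sum_le_card_mul_sum_sq
    have b2 : (0 : ℝ) < cn c i := by exact_mod_cast hn i hi
    rw [div_div_eq_mul_div, div_le_iff₀ b2]
    nlinarith [mul_le_mul_of_nonneg_left b1 hΛ.le]
  have a3 := sum_Pc (fun v => z v ^ 2) hc
  have a4 := Pc_nonneg (fun v => sq_nonneg (z v)) c 0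
  rw [sum_add_distrib, ← mul_sum] at a2
  have a5 : 0 ≤ ∑ i ∈ Icc 1 r, Pc z c i ^ 2 := sum_nonneg fun _ _ => sq_nonneg _
  have a6 : 0 < ∑ i ∈ Icc 1 r, (cn c i : ℝ) / (Λ + cn c i) :=
    sum_pos hw ⟨1, mem_Icc.2 ⟨le_rfl, hr⟩⟩
  have a7 : (∑ i ∈ Icc 1 r, Pc z c i) ^ 2 / ∑ i ∈ Icc 1 r, (cn c i : ℝ) / (Λ + cn c i) ≤
      (∑ i ∈ Icc 1 r, Pc z c i) ^ 2 := by nlinarith
  rw [div_le_iff₀ a6] at a7
  exact le_of_mul_le_mul_left (a := (∑ i ∈ Icc 1 r, Pc z c i) ^ 2) (by linarith) (by linarith)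

lemma var_half {r : ℕ} (n : ℕ → ℕ) (m : ℝ) {i j : ℕ} (hi : i ∈ Icc 1 r) (hj : j ∈ Icc 1 r)
    (h : n i ≠ n j) : 1 / 2 ≤ ∑ k ∈ Icc 1 r, ((n k : ℝ) - m) ^ 2 := by
  have hij : i ≠ j := fun e => h (e ▸ rfl)
  have a1 := sum_le_sum_of_subset_of_nonneg (f := fun k => ((n k : ℝ) - m) ^ 2)
    (show {i, j} ⊆ Icc 1 r by simp only [insert_subset_iff, singleton_subset_iff, hi, hj, and_self])
    fun _ _ _ => sq_nonneg _
  rw [sum_pair hij] at a1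
  have a2 : (1 : ℝ) ≤ ((n i : ℝ) - n j) ^ 2 := by
    have : (1 : ℤ) ≤ ((n i : ℤ) - n j) ^ 2 := sq_pos_of_ne_zero (a := (n i : ℤ) - n j) (by omega)
    exact_mod_cast this
  nlinarith [sq_nonneg ((n i : ℝ) + n j - 2 * m)]

end Pool.Agent.P.MP_094db5_co
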