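import Pool.Agent.P.MP_094db5_co.Fine

set_option autoImplicit false

open Finset Classical

noncomputable section

namespace Pool.Agent.P.MP_094db5_co

variable {V : Type} [Fintype V]

lemma Mo_eq_qf (G : SimpleGraph V) : Mo G = qf G fun _ => 1 := by simp [Mo, qf]

lemma qf_sdiff {H K : SimpleGraph V} (h : K ≤ H) (x : V → ℝ) : qf (H \ K) x = qf H x - qf K x := by
  rw [qf, qf, qf, S2_sub]
  refine S2_congr fun u v => ?_
  have := @h u v
  unfold ad
  rw [SimpleGraph.sdiff_adj]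
  by_cases a : H.Adj u v <;> by_cases b : K.Adj u v <;> simp_all

lemma Mo_sdiff {H K : SimpleGraph V} (h : K ≤ H) : Mo (H \ K) = Mo H - Mo K := by
  simp only [Mo_eq_qf, qf_sdiff h]

lemma qf_edge {u v : V} (h : u ≠ v) (x : V → ℝ) : qf (SimpleGraph.edge u v) x = 2 * (x u * x v) := by
  have : qf (SimpleGraph.edge u v) x = S2 (fun a b => if a = u ∧ b = v then x u * x v else 0) +
      S2 (fun a b => if a = v ∧ b = u then x u * x v else 0) := by
    rw [S2_add]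
    refine S2_congr fun a b => ?_
    unfold ad
    rw [SimpleGraph.edge_adj]
    split_ifs <;> grind
  rw [this]
  simp [S2, ite_and, two_mul]

lemma Mo_edge {u v : V} (h : u ≠ v) : Mo (SimpleGraph.edge u v) = 2 := by
  rw [Mo_eq_qf, qf_edge h]; norm_num

lemma Wt_compl (p : V → ℝ) (S : V → Prop) : Wt p S + Wt p (fun v => ¬ S v) = ∑ v, p v := by
  rw [Wt, Wt, ← sum_add_distrib]
  exact sum_congr rfl fun v _ => by split_ifs <;> simp_all

lemma core_zero {G : SimpleGraph V} {x : V → ℝ} (hx : ∑ v, x v ^ 2 = 1) {r : ℕ} (hr : 2 ≤ r)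
    (h : G.CliqueFree (r + 1)) :
    ∃ c : V → ℕ, (∀ v, c v ≤ r) ∧ Pc (fun v => x v ^ 2) c 0 ≤ 0 ∧ ∀ μ : ℝ,
      Dev G x μ + ∑ i ∈ Icc 1 r, (Pc (fun v => x v ^ 2) c i - 1 / r) ^ 2 +
        Miss G (fun v => x v ^ 2) c / 2 ≤ 1 - 1 / r - (2 * μ * qf G x - μ ^ 2 * Mo G) := by
  simpa only [mul_zero, add_zero] using core (G := G) hx hr le_rfl zero_le_one (by
    rw [tau_clique (r + 1) 0 ∅ univ (by simp) (by simpa using h) (by simp)]
    positivity)

lemma nikiforov {G : SimpleGraph V} {r : ℕ} (hr : 2 ≤ r) (h : G.CliqueFree (r + 1))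
    (h0 : 0 < Mo G) : lam G ^ 2 ≤ (1 - 1 / r) * Mo G := by
  have := nonempty_of_Mo h0
  obtain ⟨x, hx⟩ := exists_perron G
  obtain ⟨c, -, -, c3⟩ := core_zero hx.unit hr h
  have a2 := c3 (lam G / Mo G)
  have a3 := Dev_nonneg G x (lam G / Mo G)
  have a4 := Miss_nonneg G (fun v => sq_nonneg (x v)) c
  have a5 : 0 ≤ ∑ i ∈ Icc 1 r, (Pc (fun v => x v ^ 2) c i - 1 / r) ^ 2 :=
    sum_nonneg fun _ _ => sq_nonneg _
  have e : 2 * (lam G / Mo G) * qf G x - (lam G / Mo G) ^ 2 * Mo G = lam G ^ 2 / Mo G := by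
    rw [hx.val]; field_simp; ring
  rw [← div_le_iff₀ h0]
  linarith

/-- the hypotheses on a minimiser -/
structure Mini (H : SimpleGraph V) (x : V → ℝ) (s ξ ρ : ℝ) (r : ℕ) (c : V → ℕ) : Prop where
  per : Perron H x
  fine : Fine H x (s ^ 2) ξ r c
  s0 : 0 < s
  x0 : 0 < ξ
  x1 : 200 * ξ ≤ 1 / r
  r3 : 1 / (r : ℝ) ≤ 1 / 3
  rho : ρ = 1 - 1 / r
  lo : ρ - ξ ≤ lam H * s ^ 2
  up : lam H * s ^ 2 ≤ ρ + ξ
  min : ∀ K ≤ H, (ρ - ξ) * Mo K ≤ 2 * lam H * (lam H - lam (H \ K))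

namespace Mini

variable {H : SimpleGraph V} {x : V → ℝ} {s ξ ρ : ℝ} {r : ℕ} {c : V → ℕ} (h : Mini H x s ξ ρ r c)
include h

lemma xi : ξ ≤ 1 / 600 := by linarith [h.x1, h.r3]

lemma rho1 : 2 / 3 ≤ ρ := by linarith [h.rho, h.r3]

lemma rho2 : ρ ≤ 1 := by linarith [h.rho, h.x1, h.x0]

lemma l0 : 0 < lam H := by
  refine (mul_pos_iff_of_pos_right (pow_pos h.s0 2)).1 ?_
  linarith [h.lo, h.rho1, h.xi]

lemma m1 {u v : V} (huv : H.Adj u v) : s ^ 2 ≤ 4 * (x u * x v) := by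
  have hle : SimpleGraph.edge u v ≤ H := (SimpleGraph.edge_le_iff _).2 (Or.inr huv)
  have a1 := h.min _ hle
  have a2 := qf_le_lam (H \ SimpleGraph.edge u v) x
  rw [qf_sdiff hle, qf_edge huv.ne, h.per.val, h.per.unit] at a2
  rw [Mo_edge huv.ne] at a1
  have a3 : ρ - ξ ≤ 2 * lam H * (x u * x v) := by nlinarith [h.l0]
  have a4 := mul_le_mul_of_nonneg_right a3 (sq_nonneg s)
  have a5 := mul_le_mul_of_nonneg_right h.up (mul_nonneg (h.per.nonneg u) (h.per.nonneg v))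
  have a6 : 0 < ρ + ξ := by linarith [h.rho1, h.x0]
  refine le_of_mul_le_mul_left ?_ a6
  nlinarith [h.rho1, h.xi, sq_nonneg s]

lemma col {v : V} (hv : c v ≠ 0) : (1 - ξ) * s ≤ x v := by
  have a1 := (abs_le.1 (h.fine.typ v hv)).1
  refine (abs_le_of_sq_le_sq' ?_ (h.per.nonneg v)).2
  nlinarith [mul_nonneg (mul_nonneg h.x0.le (show 0 ≤ 1 - ξ by linarith [h.xi])) (sq_nonneg s)]

lemma m2 (u : V) : x u ≤ (1 + 15 * ξ) * s := by
  have hp : ∀ v, 0 ≤ x v ^ 2 := fun v => sq_nonneg (x v)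
  have hu := h.per.nonneg u
  have a1 : (1 - ξ) * s ^ 2 * (lam H * x u) ≤
      s * Wt (fun v => x v ^ 2) (fun v => c v ≠ 0 ∧ H.Adj u v) +
      4 * x u * Wt (fun v => x v ^ 2) (fun v => c v = 0) := by
    rw [← h.per.eig u, Wt, Wt, mul_sum, mul_sum, mul_sum, ← sum_add_distrib]
    refine sum_le_sum fun v _ => ?_
    have hv := h.per.nonneg v
    unfold ad
    by_cases b1 : H.Adj u v <;> by_cases b2 : c v = 0 <;>
      simp only [b1, b2, ne_eq, not_true_eq_false, not_false_eq_true, and_self, and_false,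
        false_and, if_true, if_false, one_mul, zero_mul, mul_zero, add_zero, zero_add, le_refl]
    · nlinarith [mul_le_mul_of_nonneg_right (h.m1 b1) hv, mul_nonneg (mul_nonneg h.x0.le
        (sq_nonneg s)) hv]
    · nlinarith [mul_le_mul_of_nonneg_left (h.col b2) (mul_nonneg h.s0.le hv)]
    · positivity
  obtain ⟨i, hi, a2⟩ := h.fine.E1 u
  have a3 := h.fine.Pi i hi
  have a4 := h.fine.P0
  rw [Pc_eq] at a3 a4
  have a5 := Wt_compl (fun v => x v ^ 2) (fun v => c v = i)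
  have a6 := Wt_add hp (S := fun v => c v ≠ 0 ∧ H.Adj u v) (T := fun v => c v = i ∧ H.Adj u v)
    (U := fun v => ¬ c v = i) fun v hv => by tauto
  rw [h.per.unit] at a5
  have a7 := mul_le_mul_of_nonneg_left (show Wt (fun v => x v ^ 2) (fun v => c v ≠ 0 ∧ H.Adj u v) ≤
    ρ + 2 * ξ by linarith [h.rho]) h.s0.le
  have a8 := mul_le_mul_of_nonneg_left a4 hu
  have a9 := mul_le_mul_of_nonneg_left h.lo (mul_nonneg (show 0 ≤ 1 - ξ by linarith [h.xi]) hu)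
  have a10 : (ρ - 6 * ξ) * x u ≤ (ρ + 2 * ξ) * s := by
    nlinarith [mul_nonneg (mul_nonneg h.x0.le hu) (show 0 ≤ 1 - ρ + ξ by linarith [h.rho2, h.x0])]
  refine le_of_mul_le_mul_left (a10.trans ?_) (show 0 < ρ - 6 * ξ by linarith [h.rho1, h.xi])
  nlinarith [mul_nonneg (mul_nonneg h.x0.le h.s0.le)
    (show 0 ≤ 15 * ρ - 90 * ξ - 8 by linarith [h.rho1, h.xi])]

lemma m3 {u v : V} (huv : H.Adj u v) : (1 - 45 * ξ) * s < x u := by
  have hp : ∀ v, 0 ≤ x v ^ 2 := fun v => sq_nonneg (x v)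
  let K : SimpleGraph V :=
    { Adj := fun a b => H.Adj a b ∧ (x a ≤ (1 - 45 * ξ) * s ∨ x b ≤ (1 - 45 * ξ) * s)
      symm := ⟨fun _ _ a => ⟨a.1.symm, a.2.symm⟩⟩
      loopless := ⟨fun _ a => a.1.ne rfl⟩ }
  have hK : ∀ a b, K.Adj a b ↔ H.Adj a b ∧ (x a ≤ (1 - 45 * ξ) * s ∨ x b ≤ (1 - 45 * ξ) * s) :=
    fun _ _ => Iff.rfl
  have a1 := h.min K fun _ _ a => a.1
  obtain ⟨y, hy⟩ : ∃ y : V → ℝ, ∀ a, y a = if x a ≤ (1 - 45 * ξ) * s then 0 else x a :=
    ⟨_, fun _ => rfl⟩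
  have a2 := qf_le_lam (H \ K) y
  have a3 : lam H * ∑ a, y a ^ 2 = S2 fun a b => ad H a b * (y a * x b) := by
    rw [mul_sum]
    refine sum_congr rfl fun a _ => ?_
    calc lam H * y a ^ 2 = y a * (lam H * x a) := by rw [hy]; split_ifs <;> ring
      _ = _ := by
          rw [← h.per.eig a, mul_sum]
          exact sum_congr rfl fun b _ => by ring
  have a4 : 2 * (lam H * ∑ a, y a ^ 2) ≤ 2 * qf (H \ K) y + (1 - 30 * ξ) * s ^ 2 * Mo K := by
    rw [a3, two_mul]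
    nth_rewrite 2 [S2_comm]
    rw [qf, Mo, S2_mul, S2_mul, S2_add, S2_add]
    refine S2_mono fun a b => ?_
    have c0 : 0 ≤ (1 - 45 * ξ) * s := mul_nonneg (by linarith [h.xi]) h.s0.le
    have c1 : (1 - 45 * ξ) * s * ((1 + 15 * ξ) * s) ≤ (1 - 30 * ξ) * s ^ 2 := by
      nlinarith [sq_nonneg (ξ * s)]
    rw [ad_comm H b a, hy, hy]
    unfold ad
    rw [SimpleGraph.sdiff_adj, hK]
    by_cases b1 : H.Adj a b <;> by_cases b2 : x a ≤ (1 - 45 * ξ) * s <;>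
      by_cases b3 : x b ≤ (1 - 45 * ξ) * s <;>
      simp only [b1, b2, b3, not_true_eq_false, not_false_eq_true, and_self, and_false, or_self,
        or_true, true_or, false_and, if_true, if_false, one_mul, zero_mul, mul_zero, add_zero,
        zero_add, le_refl, mul_one]
    · nlinarith [h.xi, sq_nonneg s]
    · nlinarith [mul_le_mul b2 (h.m2 b) (h.per.nonneg b) c0]
    · nlinarith [mul_le_mul b3 (h.m2 a) (h.per.nonneg a) c0]
    · linarith
  have a5 : 1 - ξ ≤ ∑ a, y a ^ 2 := by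
    have b1 := Wt_compl (fun v => x v ^ 2) (fun v => c v = 0)
    have b2 := h.fine.P0
    rw [Pc_eq] at b2
    rw [h.per.unit] at b1
    refine le_trans (by linarith) (show Wt (fun v => x v ^ 2) (fun v => ¬ c v = 0) ≤ _ from
      sum_le_sum fun a _ => ?_)
    by_cases b3 : c a = 0
    · rw [if_neg (not_not.2 b3)]
      positivity
    · rw [if_pos b3, hy, if_neg]
      nlinarith [h.col b3, mul_pos h.x0 h.s0]
  by_contra hn
  have a6 : 1 ≤ Mo K := by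
    have := S2_single (ad_nonneg K) u v
    rwa [ad, if_pos ((hK u v).2 ⟨huv, Or.inl (not_lt.1 hn)⟩)] at this
  generalize ∑ a, y a ^ 2 = β at *
  have a7 := mul_le_mul_of_nonneg_left a1 (show 0 ≤ β by linarith [h.xi])
  have a8 : 2 * β * (lam H - lam (H \ K)) ≤ (1 - 30 * ξ) * s ^ 2 * Mo K := by linarith
  have a9 := mul_le_mul_of_nonneg_left a8 h.l0.le
  have a10 := mul_le_mul_of_nonneg_right h.up (show 0 ≤ (1 - 30 * ξ) * Mo K from
    mul_nonneg (by linarith [h.xi]) (by linarith))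
  have a11 := mul_le_mul_of_nonneg_right a5 (show 0 ≤ (ρ - ξ) * Mo K from
    mul_nonneg (by linarith [h.xi, h.rho1]) (by linarith))
  have a12 : (1 - ξ) * (ρ - ξ) ≤ (ρ + ξ) * (1 - 30 * ξ) :=
    le_of_mul_le_mul_right (by linarith) (show 0 < Mo K by linarith)
  nlinarith [mul_pos h.x0 (show 0 < 29 * ρ - 2 by linarith [h.rho1]), sq_nonneg ξ]

lemma nbr {u v : V} (huv : H.Adj u v) : ρ - 91 * ξ ≤ Wt (fun v => x v ^ 2) (H.Adj u) := by
  have c0 : 0 ≤ (1 - 45 * ξ) * s := mul_nonneg (by linarith [h.xi]) h.s0.le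
  have a1 : (1 - 45 * ξ) * s * (lam H * x u) ≤ Wt (fun v => x v ^ 2) (H.Adj u) := by
    rw [← h.per.eig u, Wt, mul_sum]
    refine sum_le_sum fun w _ => ?_
    unfold ad
    split_ifs with b
    · nlinarith [mul_le_mul_of_nonneg_right (h.m3 b.symm).le (h.per.nonneg w)]
    · simp
  have a2 := mul_le_mul_of_nonneg_left (h.m3 huv).le (mul_nonneg c0 h.l0.le)
  have a3 := mul_le_mul_of_nonneg_left h.lo (sq_nonneg (1 - 45 * ξ))
  nlinarith [mul_nonneg h.x0.le (show 0 ≤ 1 - ρ + ξ by linarith [h.rho2, h.x0]),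
    mul_nonneg (sq_nonneg ξ) (show 0 ≤ ρ - ξ by linarith [h.rho1, h.xi])]

lemma cliqueFree : H.CliqueFree (r + 1) := by
  have hp : ∀ v, 0 ≤ x v ^ 2 := fun v => sq_nonneg (x v)
  choose i hi hw using h.fine.E1
  have a1 : ∀ u v, H.Adj u v → ∀ j, j ≠ i u →
      Wt (fun v => x v ^ 2) (fun w => c w = j ∧ ¬ H.Adj u w) ≤ 93 * ξ := fun u v huv j hj => by
    have b1 := h.nbr huv
    have b2 := Wt_compl (fun v => x v ^ 2) (H.Adj u)
    have b3 := h.fine.Pi _ (hi u)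
    rw [Pc_eq] at b3
    rw [h.per.unit] at b2
    have b4 := Wt_add hp (S := fun w => c w = i u) (T := fun w => c w = i u ∧ H.Adj u w)
      (U := fun w => c w = i u ∧ ¬ H.Adj u w) fun w hw => by tauto
    have b5 := Wt_disj hp (S := fun w => ¬ H.Adj u w) (T := fun w => c w = j ∧ ¬ H.Adj u w)
      (U := fun w => c w = i u ∧ ¬ H.Adj u w) (fun w hw => by tauto)
      fun w a b => hj (a.1.symm.trans b.1)
    linarith [hw u, h.rho]
  have a2 : ∀ u v, H.Adj u v → i u ≠ i v := fun u v huv e => by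
    obtain ⟨j, hj, hji, b1⟩ := h.fine.E2 u v huv _ (hi u)
    have b2 := h.fine.Pi j hj
    rw [Pc_eq] at b2
    have b3 := Wt_add hp (S := fun w => c w = j) (T := fun w => c w = j ∧ H.Adj u w)
      (U := fun w => c w = j ∧ ¬ H.Adj u w) fun w hw => by tauto
    have b4 := Wt_add hp (S := fun w => c w = j ∧ H.Adj u w)
      (T := fun w => c w = j ∧ H.Adj u w ∧ H.Adj v w)
      (U := fun w => c w = j ∧ ¬ H.Adj v w) fun w hw => by tauto
    linarith [a1 u v huv j hji, a1 v u huv.symm j (e ▸ hji), h.x1, h.x0]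
  have := (SimpleGraph.Coloring.mk (G := H) (α := Icc 1 r) (fun u => ⟨i u, hi u⟩)
    fun {u v} huv e => a2 u v huv (congrArg Subtype.val e)).colorable
  rw [Fintype.card_coe, Nat.card_Icc, add_tsub_cancel_right] at this
  exact this.cliqueFree (Nat.lt_succ_self r)

lemma deg (u : V) : 4 * s ^ 2 * ∑ v, ad H u v ≤ 5 := by
  rw [← mul_one (5 : ℝ), ← h.per.unit, mul_sum, mul_sum]
  refine sum_le_sum fun v _ => ?_
  unfold ad
  split_ifs with b
  · have a1 : 9 / 10 * s ≤ x v := by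
      nlinarith [h.m3 b.symm, mul_le_mul_of_nonneg_right h.xi h.s0.le, h.s0]
    nlinarith [mul_self_le_mul_self (by linarith [h.s0]) a1]
  · simp only [mul_zero]
    positivity

end Mini

theorem reduce {r : ℕ} (hr : 3 ≤ r) (D t : ℕ) {C : ℝ} (hC : 0 ≤ C) :
    ∃ M₂ : ℝ, ∀ (V : Type) [Fintype V] (G : SimpleGraph V), Deg G r D → NoPlus G r t →
      M₂ ≤ Mo G → (1 - 1 / r) * Mo G - 2 * C ≤ lam G ^ 2 →
      ∃ H ≤ G, H.CliqueFree (r + 1) ∧ Mo G - Mo H ≤ 400 * r * C ∧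
        ∀ u, (∑ v, ad H u v) ^ 2 ≤ 3 * Mo G := by
  have hr' : (3 : ℝ) ≤ r := by exact_mod_cast hr
  have r3 : 1 / (r : ℝ) ≤ 1 / 3 := one_div_le_one_div_of_le (by norm_num) hr'
  obtain ⟨ξ, x0, x1⟩ : ∃ ξ : ℝ, 0 < ξ ∧ 200 * ξ = 1 / r :=
    ⟨1 / r / 200, by positivity, by ring⟩
  obtain ⟨M₁, h1⟩ := fine hr D t C x0 (by linarith)
  obtain ⟨M₀, hM₀, h0⟩ := rough_upper (by omega : 2 ≤ r) D x0
  obtain ⟨M', b0, b1, b2⟩ : ∃ M' : ℝ, M₀ ≤ M' ∧ M₁ ≤ M' ∧ 2 * C / ξ ≤ M' :=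
    ⟨max M₀ (max M₁ (2 * C / ξ)), by simp, by simp, by simp⟩
  refine ⟨(M' + 2 * C) / ξ, fun V _ G hD hP hM hl => ?_⟩
  rw [div_le_iff₀ x0] at hM b2
  have := nonempty_of_Mo (G := G) (by nlinarith)
  have : Nonempty {H // H ≤ G} := ⟨⟨G, le_rfl⟩⟩
  obtain ⟨⟨H, hle⟩, hmin⟩ := Finite.exists_min fun H : {H // H ≤ G} =>
    (1 - 1 / r - ξ) * Mo H.1 - lam H.1 ^ 2
  have a1 := hmin ⟨G, le_rfl⟩
  simp only at a1
  have a2 := mul_nonneg (show 0 ≤ 1 - 1 / r - ξ by linarith) (Mo_nonneg H)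
  have a3 : M' ≤ lam H ^ 2 := by linarith
  have a4 := a3.trans (lam_sq_le H)
  have a5 := mul_le_mul_of_nonneg_left (Mo_mono hle) x0.le
  have a6 : (1 - 1 / r) * Mo H - 2 * C ≤ lam H ^ 2 := by linarith
  have hM0 : 0 < Mo H := by linarith
  have l0 : 0 < lam H := lt_of_le_of_ne (lam_nonneg H) fun e => by
    rw [← e] at a3
    linarith
  obtain ⟨x, hx⟩ := exists_perron H
  obtain ⟨c, hc⟩ := h1 V H x hx (hD.mono hle) (hP.mono hle) (by linarith) a6 l0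
  have a7 := h0 V H (hD.mono hle) (by linarith)
  obtain ⟨s, s0, hs⟩ : ∃ s : ℝ, 0 < s ∧ s ^ 2 = lam H / Mo H :=
    ⟨√(lam H / Mo H), Real.sqrt_pos.2 (by positivity), Real.sq_sqrt (by positivity)⟩
  have e : lam H * s ^ 2 * Mo H = lam H ^ 2 := by
    rw [hs]; field_simp
  have hm : Mini H x s ξ (1 - 1 / r) r c := ⟨hx, hs ▸ hc, s0, x0, x1.le, r3, rfl,
    le_of_mul_le_mul_right (by nlinarith) hM0, le_of_mul_le_mul_right (by linarith) hM0,
    fun K hK => by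
      have := hmin ⟨H \ K, sdiff_le.trans hle⟩
      simp only [Mo_sdiff hK] at this
      nlinarith [sq_nonneg (lam H - lam (H \ K))]⟩
  refine ⟨H, hle, hm.cliqueFree, ?_, fun u => ?_⟩
  · have a8 := nikiforov (by omega) hm.cliqueFree hM0
    have a9 : ξ * (Mo G - Mo H) ≤ 2 * C := by linarith
    have a10 : 200 * ξ * r = 1 := by rw [x1]; field_simp
    nlinarith
  · have d0 : 0 ≤ ∑ v, ad H u v := sum_nonneg fun v _ => ad_nonneg H u v
    have d1 := mul_self_le_mul_self (by positivity) (hm.deg u)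
    have d2 : s ^ 2 * Mo H = lam H := by rw [hs]; field_simp
    have d3 : 13 / 20 ≤ s ^ 2 * (s ^ 2 * Mo H) := by
      rw [d2]
      linarith [hm.lo, hm.xi]
    have d4 := mul_le_mul_of_nonneg_left d3 (sq_nonneg (∑ v, ad H u v))
    have d5 := mul_le_mul_of_nonneg_right d1 hM0.le
    nlinarith [Mo_mono hle]

end Pool.Agent.P.MP_094db5_co
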