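import Pool.Agent.P.MP_094db5_co.Typ

set_option autoImplicit false

open Finset Classical

noncomputable section

namespace Pool.Agent.P.MP_094db5_co

variable {V : Type} [Fintype V]

/-- weight of a set -/
def Wt (p : V → ℝ) (S : V → Prop) : ℝ := ∑ v, if S v then p v else 0

lemma Pc_eq (p : V → ℝ) (c : V → ℕ) (i : ℕ) : Pc p c i = Wt p fun v => c v = i :=
  sum_congr rfl fun _ _ => by congr

lemma Wt_nonneg {p : V → ℝ} (hp : ∀ v, 0 ≤ p v) (S : V → Prop) : 0 ≤ Wt p S :=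
  sum_nonneg fun v _ => by split_ifs; exacts [hp v, le_rfl]

lemma Wt_mono {p : V → ℝ} (hp : ∀ v, 0 ≤ p v) {S T : V → Prop} (h : ∀ v, S v → T v) :
    Wt p S ≤ Wt p T := sum_le_sum fun v _ => by
  have := hp v
  have := h v
  split_ifs <;> first | linarith | tauto

lemma Wt_add {p : V → ℝ} (hp : ∀ v, 0 ≤ p v) {S T U : V → Prop} (h : ∀ v, S v → T v ∨ U v) :
    Wt p S ≤ Wt p T + Wt p U := by
  rw [Wt, Wt, Wt, ← sum_add_distrib]
  refine sum_le_sum fun v _ => ?_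
  have := hp v
  have := h v
  split_ifs <;> first | linarith | tauto

lemma Wt_disj {p : V → ℝ} (hp : ∀ v, 0 ≤ p v) {S T U : V → Prop} (h : ∀ v, T v ∨ U v → S v)
    (h' : ∀ v, T v → ¬ U v) : Wt p T + Wt p U ≤ Wt p S := by
  rw [Wt, Wt, Wt, ← sum_add_distrib]
  refine sum_le_sum fun v _ => ?_
  have := hp v
  have := h v
  have := h' v
  split_ifs <;> first | linarith | tauto

lemma Wt_le_sum {p : V → ℝ} (hp : ∀ v, 0 ≤ p v) (S : V → Prop) : Wt p S ≤ ∑ v, p v :=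
  sum_le_sum fun v _ => by split_ifs; exacts [le_rfl, hp v]

lemma Wt_single {p : V → ℝ} (hp : ∀ v, 0 ≤ p v) {S : V → Prop} {u : V} (h : S u) :
    p u ≤ Wt p S := by
  have := single_le_sum (f := fun v => if S v then p v else 0)
    (fun v _ => by split_ifs; exacts [hp v, le_rfl]) (mem_univ u)
  rwa [if_pos h] at this

lemma exists_of_Wt_pos {p : V → ℝ} {S : V → Prop} (h : 0 < Wt p S) : ∃ v, S v := by
  by_contra hn
  push Not at hn
  simp [Wt, hn] at h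

lemma Wt_eq_sum (p : V → ℝ) (S : V → Prop) : Wt p S = ∑ v ∈ univ.filter S, p v := by
  rw [Wt, sum_filter]

lemma Wt_exists {p : V → ℝ} (hp : ∀ v, 0 ≤ p v) {α : Type} (Z : Finset α) (T : α → V → Prop) :
    Wt p (fun v => ∃ z ∈ Z, T z v) ≤ ∑ z ∈ Z, Wt p (T z) := by
  simp only [Wt]
  rw [sum_comm]
  refine sum_le_sum fun v _ => ?_
  have h0 : ∀ z ∈ Z, 0 ≤ if T z v then p v else 0 := fun z _ => by
    split_ifs; exacts [hp v, le_rfl]
  split_ifs with h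
  · obtain ⟨z, hz, h⟩ := h
    have := single_le_sum h0 hz
    rwa [if_pos h] at this
  · exact sum_nonneg h0

/-- delete the edges between heavy vertices -/
def lite (G : SimpleGraph V) (p : V → ℝ) (h : ℝ) : SimpleGraph V where
  Adj u v := G.Adj u v ∧ (p u ≤ h ∨ p v ≤ h)
  symm := ⟨fun _ _ a => ⟨a.1.symm, a.2.symm⟩⟩
  loopless := ⟨fun _ a => a.1.ne rfl⟩

lemma qf_lite (G : SimpleGraph V) {x : V → ℝ} (hx : ∀ v, 0 ≤ x v) (h1 : ∑ v, x v ^ 2 = 1) {h : ℝ}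
    (h0 : 0 < h) : qf G x ≤ qf (lite G (fun v => x v ^ 2) h) x + 1 / h := by
  have e : 1 / h = S2 fun u v => 1 / h * (x u ^ 2 * x v ^ 2) := by
    rw [← S2_mul, ← S2_prod, h1]; ring
  rw [e, qf, qf, S2_add]
  refine S2_mono fun u v => ?_
  have a0 := mul_nonneg (hx u) (hx v)
  have a1 : 0 ≤ 1 / h * (x u ^ 2 * x v ^ 2) := by positivity
  unfold ad lite
  by_cases a2 : G.Adj u v
  · by_cases a3 : x u ^ 2 ≤ h ∨ x v ^ 2 ≤ h
    · simp only [a2, a3, and_self, if_true]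
      linarith
    · simp only [a2, a3, and_false, if_true, if_false, one_mul, zero_mul, zero_add]
      push Not at a3
      have a4 : h * h ≤ (x u * x v) * (x u * x v) := by
        nlinarith [mul_le_mul a3.1.le a3.2.le h0.le (sq_nonneg _)]
      have a5 : h ≤ x u * x v := (mul_self_le_mul_self_iff h0.le a0).2 a4
      rw [one_div, ← div_eq_inv_mul, le_div_iff₀ h0]
      nlinarith
  · simp only [a2, false_and, if_false]
    linarith

lemma core2 {r : ℕ} (hr : 2 ≤ r) (D : ℕ) {ε : ℝ} (hε : 0 < ε) : ∃ B : ℝ, 0 < B ∧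
    ∀ (V : Type) [Fintype V] (G : SimpleGraph V) (x : V → ℝ), (∀ v, 0 ≤ x v) → ∑ v, x v ^ 2 = 1 →
    Deg G r D → ∃ G' ≤ G, ∃ c : V → ℕ, (∀ v, c v ≤ r) ∧ Pc (fun v => x v ^ 2) c 0 ≤ ε ∧
      ∀ μ : ℝ, 0 ≤ μ → Dev G' x μ + ∑ i ∈ Icc 1 r, (Pc (fun v => x v ^ 2) c i - 1 / r) ^ 2 +
        Miss G' (fun v => x v ^ 2) c / 2 ≤
      1 - 1 / r - (2 * μ * qf G x - μ ^ 2 * Mo G) + μ * B + ε := by
  obtain ⟨γ, g0, g1, g2⟩ : ∃ γ : ℝ, 0 < γ ∧ γ ≤ 1 ∧ (r + 1) * (r + 4) * γ ≤ ε :=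
    ⟨min 1 (ε / ((r + 1) * (r + 4))), by positivity, min_le_left _ _, by
      rw [mul_comm, ← le_div_iff₀ (by positivity)]; exact min_le_right _ _⟩
  obtain ⟨h, h0, h1⟩ : ∃ h : ℝ, 0 < h ∧ (r + 2) * (2 * D * h) ≤ γ ^ 2 ^ r :=
    ⟨γ ^ 2 ^ r / ((r + 2) * (2 * (D + 1))), by positivity, by
      rw [← mul_div_assoc, ← mul_div_assoc, div_le_iff₀ (by positivity)]
      nlinarith [show 0 ≤ γ ^ 2 ^ r * ((r : ℝ) + 2) by positivity]⟩
  refine ⟨2 / h, by positivity, fun V _ G x hx hx1 hG => ?_⟩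
  have hle : lite G (fun v => x v ^ 2) h ≤ G := fun _ _ a => a.1
  obtain ⟨c, c1, c2, c3⟩ := core hx1 hr g0.le g1 ((tau_bound (fun v => sq_nonneg (x v)) hx1.le hr
    h0.le (hG.mono hle) fun _ _ a => a.2).trans h1)
  refine ⟨_, hle, c, c1, by nlinarith [show 0 ≤ ((r : ℝ) + 1) * (r + 3) * γ by positivity],
    fun μ hμ => (c3 μ).trans ?_⟩
  have a1 := mul_le_mul_of_nonneg_left (qf_lite G hx hx1 h0) hμ
  have a2 := mul_le_mul_of_nonneg_left (Mo_mono hle) (sq_nonneg μ)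
  have : μ * (2 / h) = 2 * (μ * (1 / h)) := by ring
  linarith

lemma mu_small {l M ε : ℝ} (h : l ^ 2 ≤ M) (hε : 0 < ε) (hM : 1 / ε ^ 2 ≤ M) : l / M ≤ ε := by
  have h0 : 0 < M := lt_of_lt_of_le (by positivity) hM
  rw [div_le_iff₀ (by positivity)] at hM
  rw [div_le_iff₀ h0]
  exact abs_le_of_sq_le_sq' (by nlinarith) (by positivity) |>.2

lemma lam_sq_le [Nonempty V] (G : SimpleGraph V) : lam G ^ 2 ≤ Mo G := by
  obtain ⟨x, hx⟩ := exists_perron G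
  rw [← hx.val]
  exact qf_sq_le G hx.unit

lemma rough_upper {r : ℕ} (hr : 2 ≤ r) (D : ℕ) {ε : ℝ} (hε : 0 < ε) : ∃ M₁ : ℝ, 0 < M₁ ∧
    ∀ (V : Type) [Fintype V] [Nonempty V] (G : SimpleGraph V), Deg G r D → M₁ ≤ Mo G →
      lam G ^ 2 ≤ (1 - 1 / r + ε) * Mo G := by
  obtain ⟨B, hB, h⟩ := core2 hr D (half_pos hε)
  refine ⟨1 / (ε / 2 / B) ^ 2, by positivity, fun V _ _ G hG hM => ?_⟩
  obtain ⟨x, hx⟩ := exists_perron G
  obtain ⟨G', -, c, -, -, c3⟩ := h V G x hx.nonneg hx.unit hG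
  have h0 : 0 < Mo G := lt_of_lt_of_le (by positivity) hM
  have a1 := mu_small (lam_sq_le G) (by positivity) hM
  have a2 := c3 _ (div_nonneg (lam_nonneg G) h0.le)
  rw [le_div_iff₀ hB] at a1
  have a3 := Dev_nonneg G' x (lam G / Mo G)
  have a4 := Miss_nonneg G' (fun v => sq_nonneg (x v)) c
  have a5 : 0 ≤ ∑ i ∈ Icc 1 r, (Pc (fun v => x v ^ 2) c i - 1 / r) ^ 2 :=
    sum_nonneg fun _ _ => sq_nonneg _
  have e : 2 * (lam G / Mo G) * qf G x - (lam G / Mo G) ^ 2 * Mo G = lam G ^ 2 / Mo G := by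
    rw [hx.val]; field_simp; ring
  rw [← div_le_iff₀ h0]
  linarith

/-- rough structure -/
structure Rough (G : SimpleGraph V) (x : V → ℝ) (μ ξ : ℝ) (r : ℕ) (c : V → ℕ) : Prop where
  le : ∀ v, c v ≤ r
  typ : ∀ v, c v ≠ 0 → |x v ^ 2 - μ| ≤ ξ * μ
  P0 : Pc (fun v => x v ^ 2) c 0 ≤ ξ
  Pi : ∀ i ∈ Icc 1 r, 1 / r - ξ ≤ Pc (fun v => x v ^ 2) c i
  miss : ∀ u, c u ≠ 0 → Wt (fun v => x v ^ 2) (fun v => cross c u v ∧ ¬ G.Adj u v) ≤ ξ

lemma Rough.mono {G H : SimpleGraph V} {x : V → ℝ} {μ ξ : ℝ} {r : ℕ} {c : V → ℕ}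
    (h : Rough H x μ ξ r c) (hle : H ≤ G) : Rough G x μ ξ r c :=
  ⟨h.le, h.typ, h.P0, h.Pi, fun u hu => (Wt_mono (fun v => sq_nonneg (x v))
    fun _ a => ⟨a.1, fun b => a.2 (hle b)⟩).trans (h.miss u hu)⟩

lemma recolour {G : SimpleGraph V} {x : V → ℝ} (hx : ∀ v, 0 ≤ x v) {μ ξ γ Δ : ℝ} (hμ : 0 < μ)
    {r : ℕ} (hr : 3 ≤ r) (h0 : 0 < ξ) (h1 : ξ ≤ 1 / (2 * r)) {c : V → ℕ} (hc : ∀ v, c v ≤ r)
    (hγ : Pc (fun v => x v ^ 2) c 0 ≤ γ) (hγξ : γ ≤ ξ / 2)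
    (hΔ : Dev G x μ + ∑ i ∈ Icc 1 r, (Pc (fun v => x v ^ 2) c i - 1 / r) ^ 2 +
      Miss G (fun v => x v ^ 2) c / 2 ≤ Δ) (hΔξ : 256 * Δ < ξ ^ 4) :
    ∃ c' : V → ℕ, Rough G x μ ξ r c' ∧ Miss G (fun v => x v ^ 2) c' ≤ 2 * Δ ∧
      ∀ u, c' u = 0 → ξ ^ 3 * x u ^ 2 ≤ 128 * Δ + γ := by
  have hp : ∀ v, 0 ≤ x v ^ 2 := fun v => sq_nonneg (x v)
  have hr' : (3 : ℝ) ≤ r := by exact_mod_cast hr
  have e1 : 1 / (2 * (r : ℝ)) = 1 / r / 2 := by field_simp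
  have e2 : 1 / (r : ℝ) ≤ 1 / 3 := one_div_le_one_div_of_le (by norm_num) hr'
  have a3 := Dev_nonneg G x μ
  have a4 := Miss_nonneg G hp c
  have a5 : 0 ≤ ∑ i ∈ Icc 1 r, (Pc (fun v => x v ^ 2) c i - 1 / r) ^ 2 :=
    sum_nonneg fun _ _ => sq_nonneg _
  have hγ0 := (Pc_nonneg hp c 0).trans hγ
  have a6 : ∀ i ∈ Icc 1 r, 1 / r - ξ / 2 ≤ Pc (fun v => x v ^ 2) c i := fun i hi => by
    have b1 := single_le_sum (f := fun i => (Pc (fun v => x v ^ 2) c i - 1 / r) ^ 2)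
      (fun _ _ => sq_nonneg _) hi
    have b2 : ξ ^ 4 ≤ ξ ^ 2 := pow_le_pow_of_le_one h0.le (by linarith) (by norm_num)
    have := abs_le_of_sq_le_sq' (show (Pc (fun v => x v ^ 2) c i - 1 / r) ^ 2 ≤ (ξ / 2) ^ 2 by
      nlinarith [sq_nonneg ξ]) (by positivity)
    linarith [this.1]
  have a7 := sum_bw_le G hx μ (show 0 < ξ / 4 by positivity) (by linarith) c
  have a8 : ξ ^ 2 * ∑ u, x u ^ 2 * bw G x μ (ξ / 4) c u ≤ 64 * Δ := by nlinarith
  have a9 : ∑ u, x u ^ 2 * bw G x μ (ξ / 4) c u < (ξ / 2) ^ 2 :=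
    lt_of_mul_lt_mul_left (a := ξ ^ 2) (by nlinarith) (by positivity)
  have a10 : Wt (fun v => x v ^ 2) (fun u => ξ / 2 < bw G x μ (ξ / 4) c u) ≤ ξ / 2 := by
    simpa [Wt] using markov hp (bw_nonneg G x μ (ξ / 4) c) univ (by positivity) a9.le
  have hcr : ∀ u v, cross (fun u => if bw G x μ (ξ / 4) c u ≤ ξ / 2 then c u else 0) u v →
      cross c u v := fun u v h => by
    unfold cross at h ⊢
    beta_reduce at h
    split_ifs at h <;> simp_all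
  refine ⟨fun u => if bw G x μ (ξ / 4) c u ≤ ξ / 2 then c u else 0, ⟨fun v => ?_, fun v hv => ?_,
    ?_, fun i hi => ?_, fun u hu => ?_⟩, ?_, fun u hu => ?_⟩
  · split_ifs
    exacts [hc v, Nat.zero_le _]
  · split_ifs at hv with h
    · have := typ hμ (show 0 < ξ / 4 by positivity) (by linarith) hr (show 0 ≤ ξ / 2 by positivity)
        (fun i hi => by linarith [a6 i hi]) a9 hv h
      linarith
    · exact (hv rfl).elim
  · rw [Pc_eq] at hγ ⊢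
    refine (Wt_add hp (T := fun v => c v = 0) (U := fun u => ξ / 2 < bw G x μ (ξ / 4) c u)
      fun v hv => ?_).trans (by linarith)
    split_ifs at hv with h
    exacts [Or.inl hv, Or.inr (not_le.1 h)]
  · have := a6 i hi
    rw [Pc_eq] at this ⊢
    have b1 := Wt_add hp (S := fun v => c v = i)
      (T := fun u => (if bw G x μ (ξ / 4) c u ≤ ξ / 2 then c u else 0) = i)
      (U := fun u => ξ / 2 < bw G x μ (ξ / 4) c u) fun v hv => by
        split_ifs with h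
        exacts [Or.inl hv, Or.inr (not_le.1 h)]
    linarith
  · have b1 : bw G x μ (ξ / 4) c u ≤ ξ / 2 := by
      by_contra h
      exact hu (if_neg h)
    refine (Wt_mono hp (T := fun v => cross c u v ∧ ¬ good G x μ (ξ / 4) u v)
      fun v hv => ⟨hcr u v hv.1, fun h => hv.2 h.1⟩).trans ?_
    have : Wt (fun v => x v ^ 2) (fun v => cross c u v ∧ ¬ good G x μ (ξ / 4) u v) =
      bw G x μ (ξ / 4) c u := by simp [Wt, bw]
    linarith
  · refine le_trans (S2_mono fun u v => ?_) (show Miss G (fun v => x v ^ 2) c ≤ _ by linarith)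
    have := hcr u v
    have := mul_nonneg (hp u) (hp v)
    split_ifs <;> first | linarith | tauto
  · have b0 : ξ ^ 3 ≤ 1 := pow_le_one₀ h0.le (by linarith)
    beta_reduce at hu
    split_ifs at hu with h
    · have := Wt_single hp (S := fun v => c v = 0) hu
      rw [← Pc_eq] at this
      nlinarith [hp u]
    · have b1 := single_le_sum (f := fun u => x u ^ 2 * bw G x μ (ξ / 4) c u)
        (fun u _ => mul_nonneg (hp u) (bw_nonneg _ _ _ _ _ _)) (mem_univ u)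
      have b2 := mul_le_mul_of_nonneg_left (not_le.1 h).le (hp u)
      have b3 := mul_le_mul_of_nonneg_left (b2.trans b1) (sq_nonneg ξ)
      nlinarith

end Pool.Agent.P.MP_094db5_co
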