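import Pool.Agent.P.MP_094db5_co.Multi

set_option autoImplicit false

open Finset Classical

noncomputable section

namespace Pool.Agent.P.MP_094db5_co

variable {V : Type} [Fintype V]

/-- edges touching an uncoloured vertex -/
def Xe (G : SimpleGraph V) (c : V → ℕ) : SimpleGraph V where
  Adj u v := G.Adj u v ∧ (c u = 0 ∨ c v = 0)
  symm := ⟨fun _ _ a => ⟨a.1.symm, a.2.symm⟩⟩
  loopless := ⟨fun _ a => a.1.ne rfl⟩

/-- bad pairs -/
def Bd (G : SimpleGraph V) (c : V → ℕ) : SimpleGraph V := Xe G c ⊔ Kc c \ G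

omit [Fintype V] in
lemma Bd_adj (G : SimpleGraph V) (c : V → ℕ) (u v : V) : (Bd G c).Adj u v ↔
    G.Adj u v ∧ (c u = 0 ∨ c v = 0) ∨ (c u ≠ 0 ∧ c v ≠ 0 ∧ c u ≠ c v) ∧ ¬ G.Adj u v := Iff.rfl

/-- no edges inside the colour classes -/
def Proper (G : SimpleGraph V) (c : V → ℕ) : Prop := ∀ u v, G.Adj u v → c u ≠ 0 → c u ≠ c v

lemma qf_split {G : SimpleGraph V} {c : V → ℕ} (h : Proper G c) (f : V → ℝ) :
    qf G f = qf (Kc c) f - qf (Kc c \ G) f + qf (Xe G c) f := by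
  simp only [qf, S2_sub, S2_add]
  refine S2_congr fun u v => ?_
  have := h u v
  unfold ad
  rw [SimpleGraph.sdiff_adj]
  by_cases a : G.Adj u v <;> by_cases b : c u = 0 <;> by_cases d : c v = 0 <;>
    simp_all [Kc, Xe, cross]

lemma Mo_Bd (G : SimpleGraph V) (c : V → ℕ) : Mo (Bd G c) = Mo (Xe G c) + Mo (Kc c \ G) := by
  simp only [Mo, S2_add]
  refine S2_congr fun u v => ?_
  unfold ad
  rw [Bd_adj, SimpleGraph.sdiff_adj]
  by_cases a : G.Adj u v <;> simp_all [Kc, Xe, cross]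

lemma Rough.proper {G : SimpleGraph V} {x : V → ℝ} {μ ξ : ℝ} {r t : ℕ} {c : V → ℕ}
    (h : Rough G x μ ξ r c) (hG : NoPlus G r t) (h0 : 0 ≤ ξ) (h1 : ξ ≤ 1) (hμ : 0 ≤ μ)
    (hζ : r * t * ξ + 2 * t * μ < 1 / r - 3 * ξ) : Proper G c := by
  have hp : ∀ v, 0 ≤ x v ^ 2 := fun v => sq_nonneg (x v)
  intro u v huv hu e
  obtain ⟨j, hj, hji, b1⟩ := h.E2 hG h0 h1 hμ hζ (by linarith) huv (i := c u)
    (mem_Icc.2 ⟨by omega, h.le u⟩)
  have b2 := h.Pi j hj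
  rw [Pc_eq] at b2
  have := mem_Icc.1 hj
  have b3 := Wt_add hp (S := fun w => c w = j) (T := fun w => c w = j ∧ G.Adj u w)
    (U := fun w => cross c u w ∧ ¬ G.Adj u w) fun w hw => by
      by_cases a : G.Adj u w
      · exact Or.inl ⟨hw, a⟩
      · exact Or.inr ⟨⟨by omega, by omega, by omega⟩, a⟩
  have b4 := Wt_add hp (S := fun w => c w = j ∧ G.Adj u w)
    (T := fun w => c w = j ∧ G.Adj u w ∧ G.Adj v w)
    (U := fun w => cross c v w ∧ ¬ G.Adj v w) fun w hw => by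
      by_cases a : G.Adj v w
      · exact Or.inl ⟨hw.1, hw.2, a⟩
      · exact Or.inr ⟨⟨by omega, by omega, by omega⟩, a⟩
  linarith [h.miss u hu, h.miss v (e ▸ hu)]

lemma Rough.cn_lo {G : SimpleGraph V} {x : V → ℝ} {μ ξ : ℝ} {r : ℕ} {c : V → ℕ}
    (h : Rough G x μ ξ r c) {i : ℕ} (hi : i ∈ Icc 1 r) : 1 / r - ξ ≤ cn c i * ((1 + ξ) * μ) := by
  rw [← Pc_const]
  refine (h.Pi i hi).trans (Pc_mono fun v hv => ?_)
  have := mem_Icc.1 hi
  linarith [(abs_le.1 (h.typ v (by omega))).2]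

lemma Rough.cn_up {G : SimpleGraph V} {x : V → ℝ} {μ ξ : ℝ} {r : ℕ} {c : V → ℕ}
    (h : Rough G x μ ξ r c) (hx : ∑ v, x v ^ 2 = 1) (h0 : 0 ≤ ξ) {i : ℕ} (hi : i ∈ Icc 1 r) :
    cn c i * ((1 - ξ) * μ) ≤ 1 / r + r * ξ := by
  have hi' := mem_Icc.1 hi
  rw [← Pc_const]
  refine (Pc_mono (q := fun v => x v ^ 2) fun v hv => ?_).trans ?_
  · linarith [(abs_le.1 (h.typ v (by omega))).1]
  · have a1 := sum_Pc (fun v => x v ^ 2) h.le
    have a2 := Pc_nonneg (fun v => sq_nonneg (x v)) c 0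
    have a3 := card_nsmul_le_sum ((Icc 1 r).erase i) _ _ fun j hj => h.Pi j (mem_of_mem_erase hj)
    rw [← add_sum_erase _ _ hi, hx] at a1
    rw [card_erase_of_mem hi, Nat.card_Icc, add_tsub_cancel_right, nsmul_eq_mul,
      Nat.cast_sub (by omega), Nat.cast_one] at a3
    have : (r : ℝ) * (1 / r) = 1 := mul_one_div_cancel (by exact_mod_cast (by omega : r ≠ 0))
    nlinarith

lemma account {G : SimpleGraph V} {z : V → ℝ} {μ ξ : ℝ} {r : ℕ} {c : V → ℕ} (hz : Perron G z)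
    (h : Rough G z μ ξ r c) (hl : ∀ u, c u = 0 → z u ^ 2 ≤ ξ ^ 2 * μ) (hp : Proper G c)
    (hr : 3 ≤ r) (h0 : 0 < ξ) (h1 : 200 * r * ξ ≤ 1) (hμ : 0 < μ) (he : μ * Mo G = lam G)
    (lo : 1 - 1 / r - ξ ≤ lam G * μ) (up : lam G * μ ≤ 1) :
    lam G ^ 2 + (1 - 1 / r - 4 * ξ) * Mo (Bd G c) +
      (∑ i ∈ Icc 1 r, ((cn c i : ℝ) - (∑ j ∈ Icc 1 r, (cn c j : ℝ)) / r) ^ 2) / 10 ≤
      (1 - 1 / r) * Mo G := by
  have hr' : (3 : ℝ) ≤ r := by exact_mod_cast hr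
  have r3 : 1 / (r : ℝ) ≤ 1 / 3 := one_div_le_one_div_of_le (by norm_num) hr'
  have r0 : 0 < 1 / (r : ℝ) := by positivity
  have x1 : ξ ≤ 1 / 600 := by nlinarith
  have x2 : 200 * ξ ≤ 1 / r := by rw [le_div_iff₀ (by linarith)]; linarith
  have l0 : 0 < lam G := (mul_pos_iff_of_pos_right hμ).1 (by linarith)
  have a1 : (1 - ξ) * μ * Mo (Kc c \ G) ≤ qf (Kc c \ G) z := by
    rw [Mo, qf, S2_mul]
    refine S2_mono fun u v => ?_
    unfold ad
    split_ifs with b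
    · have b1 := (abs_le.1 (h.typ u b.1.1)).1
      have b2 := (abs_le.1 (h.typ v b.1.2.1)).1
      have b3 : 0 ≤ (1 - ξ) * μ := mul_nonneg (by linarith) hμ.le
      rw [mul_one, one_mul]
      refine (abs_le_of_sq_le_sq' ?_ (mul_nonneg (hz.nonneg u) (hz.nonneg v))).2
      rw [mul_pow (z u), sq]
      exact mul_le_mul (by linarith) (by linarith) b3 (sq_nonneg _)
    · simp
  have a2 : qf (Xe G c) z ≤ 2 * ξ * μ * Mo (Xe G c) := by
    have b0 : ∀ v, z v ^ 2 ≤ 4 * μ := fun v => by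
      by_cases e : c v = 0
      · nlinarith [hl v e, show ξ ^ 2 ≤ 1 by nlinarith]
      · nlinarith [(abs_le.1 (h.typ v e)).2]
    have b1 : ∀ u v, c u = 0 → z u * z v ≤ 2 * ξ * μ := fun u v e => by
      refine (abs_le_of_sq_le_sq' ?_ (by positivity)).2
      rw [mul_pow (z u)]
      nlinarith [mul_le_mul (hl u e) (b0 v) (sq_nonneg _) (by positivity)]
    rw [Mo, qf, S2_mul]
    refine S2_mono fun u v => ?_
    unfold ad
    split_ifs with b
    · rcases b.2 with e | e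
      · linarith [b1 u v e]
      · linarith [b1 v u e]
    · simp
  have a3 := qf_split hp z
  have a4 := qf_split hp fun _ => 1
  simp only [← Mo_eq_qf] at a4
  rw [hz.val] at a3
  have hX := Mo_nonneg (Xe G c)
  have hY := Mo_nonneg (Kc c \ G)
  have a5 : μ * Mo (Xe G c) ≤ lam G :=
    he ▸ mul_le_mul_of_nonneg_left (Mo_mono fun _ _ a => a.1) hμ.le
  have a6 : 0 ≤ (1 - ξ) * μ * Mo (Kc c \ G) := mul_nonneg (mul_nonneg (by linarith) hμ.le) hY
  have a7 : (1 - 2 * ξ) * lam G ≤ qf (Kc c) z := by nlinarith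
  have a8 : 1 - 1 / r - 3 * ξ ≤ qf (Kc c) z * μ := by
    nlinarith [mul_le_mul_of_nonneg_right a7 hμ.le]
  have a9 := multi (θ := 1 - 1 / r - 1 / 50) (by omega) h.le hz.unit (by nlinarith) (by linarith)
    (fun i hi => by
      have := h.cn_lo hi
      rcases Nat.eq_zero_or_pos (cn c i) with e | e
      · rw [e] at this
        simp only [Nat.cast_zero, zero_mul] at this
        linarith
      · exact e)
    (fun i hi => by
      have b1 := h.cn_up hz.unit h0.le hi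
      have b2 : cn c i * μ ≤ 1 / r + 1 / 100 := by
        refine le_of_mul_le_mul_right (a := 1 - ξ) ?_ (by linarith)
        nlinarith
      refine le_of_mul_le_mul_right ?_ hμ
      nlinarith [mul_le_mul_of_nonneg_left b2 (show 0 ≤ 1 - 1 / (r : ℝ) - 1 / 50 by linarith),
        mul_le_mul_of_nonneg_left a8 (show 0 ≤ 1 / (r : ℝ) + 1 / 50 by linarith)])
  have hσ : 0 ≤ ∑ i ∈ Icc 1 r, ((cn c i : ℝ) - (∑ j ∈ Icc 1 r, (cn c j : ℝ)) / r) ^ 2 :=
    sum_nonneg fun _ _ => sq_nonneg _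
  generalize ∑ i ∈ Icc 1 r, ((cn c i : ℝ) - (∑ j ∈ Icc 1 r, (cn c j : ℝ)) / r) ^ 2 = σ at *
  have a10 := mul_le_mul_of_nonneg_right (show 1 / 10 ≤ 2 * (1 - 1 / (r : ℝ) - 1 / 50) ^ 2 -
    (1 - 1 / r) by nlinarith) hσ
  obtain ⟨g, hg⟩ : ∃ g, g = (1 - ξ) * μ * Mo (Kc c \ G) - 2 * ξ * μ * Mo (Xe G c) := ⟨_, rfl⟩
  have a11 : (lam G + g) * (lam G + g) ≤ qf (Kc c) z * qf (Kc c) z :=
    mul_self_le_mul_self (by nlinarith) (by linarith)
  have a12 := mul_le_mul_of_nonneg_right lo (mul_nonneg (show 0 ≤ 1 - ξ by linarith) hY)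
  have a13 := mul_le_mul_of_nonneg_right up (mul_nonneg h0.le hX)
  have a14 : (1 - 1 / r - 2 * ξ) * Mo (Kc c \ G) - 2 * ξ * Mo (Xe G c) ≤ lam G * g := by
    rw [hg]
    nlinarith [mul_nonneg (mul_nonneg h0.le (show 0 ≤ 1 / (r : ℝ) + ξ by linarith)) hY]
  rw [Mo_Bd]
  nlinarith [sq_nonneg g]

/-- the exact structure -/
structure Shape (G : SimpleGraph V) (r L C : ℕ) (c : V → ℕ) : Prop where
  le : ∀ v, c v ≤ r
  big : ∀ i ∈ Icc 1 r, L ≤ cn c i
  proper : Proper G c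
  bad : (Bd G c).edgeSet.ncard ≤ C
  bal : (Bd G c).edgeSet.ncard = C → ∀ i ∈ Icc 1 r, ∀ j ∈ Icc 1 r, cn c i = cn c j

lemma perron_small {G H : SimpleGraph V} {z : V → ℝ} (hz : Perron G z) (hle : H ≤ G) {K μ : ℝ}
    (hK : Mo G - Mo H ≤ K) (hd : ∀ u, (∑ v, ad H u v) ^ 2 ≤ 3 * Mo G) (l0 : 0 < lam G)
    (h1 : K ≤ lam G) (h2 : Mo G ≤ 2 * lam G ^ 2) (h3 : 1 / 2 ≤ lam G * μ) (u : V) :
    z u ^ 2 ≤ 10 * μ := by
  have a1 : (lam G * z u) ^ 2 ≤ ∑ v, ad G u v := by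
    rw [← hz.eig u]
    refine (sum_mul_sq_le_sq_mul_sq _ _ _).trans (le_of_eq ?_)
    rw [hz.unit, mul_one]
    exact sum_congr rfl fun v _ => by unfold ad; split_ifs <;> norm_num
  have a2 : ∑ v, ad G u v ≤ ∑ v, ad H u v + Mo (G \ H) := by
    refine le_trans ?_ (add_le_add_right (single_le_sum (f := fun u => ∑ v, ad (G \ H) u v)
      (fun u _ => sum_nonneg fun v _ => ad_nonneg _ u v) (mem_univ u)) _)
    rw [← sum_add_distrib]
    refine sum_le_sum fun v _ => ?_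
    unfold ad
    rw [SimpleGraph.sdiff_adj]
    by_cases a : G.Adj u v <;> by_cases b : H.Adj u v <;> simp [a, b]
  rw [Mo_sdiff hle] at a2
  have a3 : ∑ v, ad H u v ≤ 5 / 2 * lam G :=
    (abs_le_of_sq_le_sq' (by nlinarith [hd u]) (by positivity)).2
  have a4 : lam G * z u ^ 2 ≤ 7 / 2 := le_of_mul_le_mul_left (by nlinarith) l0
  exact le_of_mul_le_mul_left (by linarith) l0

theorem struct {r : ℕ} (hr : 3 ≤ r) (D t C L : ℕ) :
    ∃ M₃ : ℝ, ∀ (V : Type) [Fintype V] (G : SimpleGraph V), Deg G r D → NoPlus G r t →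
      M₃ ≤ Mo G → (1 - 1 / r) * (Mo G - 2 * C) < lam G ^ 2 → ∃ c, Shape G r L C c := by
  have hr' : (3 : ℝ) ≤ r := by exact_mod_cast hr
  have r3 : 1 / (r : ℝ) ≤ 1 / 3 := one_div_le_one_div_of_le (by norm_num) hr'
  have r0 : 0 < 1 / (r : ℝ) := by positivity
  have r1 : (r : ℝ) * (1 / r) = 1 := mul_one_div_cancel (by positivity)
  have hC : (0 : ℝ) ≤ C := Nat.cast_nonneg _
  have ht : (0 : ℝ) ≤ t := Nat.cast_nonneg _
  obtain ⟨M₂, h2⟩ := reduce hr D t hC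
  obtain ⟨ξ, x0, x1⟩ : ∃ ξ : ℝ, 0 < ξ ∧ ξ * (200 * (r * (r * t) + r + C + 1)) = 1 :=
    ⟨1 / (200 * (r * (r * t) + r + C + 1)), by positivity, by field_simp⟩
  have x2 : 0 ≤ ξ * (r * (r * t)) := by positivity
  have x3 : 0 ≤ ξ * r := by positivity
  have x4 : 0 ≤ ξ * C := by positivity
  have x5 : 200 * ξ ≤ 1 / r := by rw [le_div_iff₀ (by linarith)]; linarith
  have x6 : 200 * (r * t * ξ) ≤ 1 / r := by rw [le_div_iff₀ (by linarith)]; linarith
  obtain ⟨K, hK⟩ : ∃ K : ℝ, K = 4 * C + 20 * (400 * r * C) + 1 := ⟨_, rfl⟩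
  have hK0 : 0 ≤ 400 * (r : ℝ) * C := by positivity
  have hK1 : 1 ≤ K := by linarith
  obtain ⟨ε, e0, e1, e2, e3⟩ : ∃ ε : ℝ, 0 < ε ∧ 512 * K * ε ≤ ξ ^ 5 ∧ 4 * r * (L + 1) * ε ≤ 1 ∧
      (t + 1) * ε ≤ ξ := by
    refine ⟨min (ξ ^ 5 / (512 * K)) (min (1 / (4 * r * (L + 1))) (ξ / (t + 1))), by positivity,
      ?_, ?_, ?_⟩ <;> rw [mul_comm, ← le_div_iff₀ (by positivity)] <;> simp
  refine ⟨max (max M₂ (1 / ε ^ 2)) (2 * C / ξ), fun V _ G hD hP hM hl => ?_⟩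
  simp only [max_le_iff] at hM
  have hM0 : 0 < Mo G := lt_of_lt_of_le (by positivity) hM.1.2
  have := nonempty_of_Mo hM0
  have hl' : (1 - 1 / r) * Mo G - 2 * C ≤ lam G ^ 2 := by linarith [mul_nonneg r0.le hC]
  obtain ⟨H, hle, hf, hK', hd⟩ := h2 V G hD hP hM.1.1 hl'
  obtain ⟨z, hz⟩ := exists_perron G
  have b1 := mu_small (lam_sq_le G) e0 hM.1.2
  have b2 := hM.2
  rw [div_le_iff₀ x0] at b2
  have b3 : (1 - 1 / r - ξ) * Mo G ≤ lam G ^ 2 := by linarith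
  have l0 : 0 < lam G := lt_of_le_of_ne (lam_nonneg G) fun e => by
    rw [← e] at b3
    linarith [mul_pos (show 0 < 1 - 1 / (r : ℝ) - ξ by linarith) hM0]
  have hgap := gap_le hM0 hl'
  obtain ⟨μ, hμ⟩ : ∃ μ, μ = lam G / Mo G := ⟨_, rfl⟩
  rw [← hμ] at b1 hgap
  have μ0 : 0 < μ := hμ ▸ div_pos l0 hM0
  have he : μ * Mo G = lam G := by rw [hμ]; field_simp
  have he2 : lam G * μ * Mo G = lam G ^ 2 := by rw [mul_assoc, he, sq]
  have lo : 1 - 1 / r - ξ ≤ lam G * μ := le_of_mul_le_mul_right (by linarith) hM0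
  have up : lam G * μ ≤ 1 := le_of_mul_le_mul_right (by linarith [lam_sq_le G]) hM0
  have x7 : ξ ^ 5 ≤ ξ := pow_le_of_le_one x0.le (by linarith) (by norm_num)
  have b4 : 512 * K * μ ≤ ξ ^ 5 := le_trans (by gcongr) e1
  have b5 : K ≤ lam G := le_of_mul_le_mul_right (by linarith) μ0
  have b5' := mul_le_mul_of_nonneg_right (show 1 / 2 ≤ 1 - 1 / (r : ℝ) - ξ by linarith) hM0.le
  have b6 := perron_small hz hle hK' hd l0 (by linarith) (by linarith) (μ := μ) (by linarith)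
  have b7 : lam G - 10 * μ * (400 * r * C) ≤ qf H z := by
    have c1 := qf_sdiff hle z
    have c2 : qf (G \ H) z ≤ 10 * μ * Mo (G \ H) := by
      rw [qf, Mo, S2_mul]
      refine S2_mono fun u v => ?_
      rw [mul_comm (10 * μ)]
      refine mul_le_mul_of_nonneg_left ?_ (ad_nonneg _ _ _)
      linarith [b6 u, b6 v, sq_nonneg (z u - z v)]
    rw [Mo_sdiff hle] at c2
    rw [hz.val] at c1
    linarith [mul_le_mul_of_nonneg_left hK' μ0.le]
  obtain ⟨c, c1, c2, c3⟩ := core_zero hz.unit (by omega) hf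
  have b8 : 2 * C / Mo G ≤ 4 * C * μ ^ 2 := by
    rw [div_le_iff₀ hM0]
    have : C * (μ ^ 2 * Mo G) = C * (lam G * μ) := by rw [← he]; ring
    linarith [mul_le_mul_of_nonneg_left (show 1 / 2 ≤ lam G * μ by linarith) hC]
  have b9 : μ ≤ 1 := by linarith [mul_le_mul_of_nonneg_right hK1 μ0.le]
  obtain ⟨c', hc', -, hli⟩ := recolour (G := H) hz.nonneg μ0 hr x0 (by
      rw [mul_comm, ← div_div]; linarith) c1 c2 (by linarith) (Δ := K * μ ^ 2)
    ((c3 μ).trans (by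
      have d1 := mul_le_mul_of_nonneg_left b7 μ0.le
      have d2 := mul_le_mul_of_nonneg_left (Mo_mono hle) (sq_nonneg μ)
      rw [hK]
      linarith [sq_nonneg μ]))
    (by
      have d1 : ξ ^ 5 ≤ ξ ^ 4 := pow_le_pow_of_le_one x0.le (by linarith) (by norm_num)
      have d2 : K * μ ^ 2 ≤ K * μ :=
        mul_le_mul_of_nonneg_left (pow_le_of_le_one μ0.le b9 two_ne_zero) (by linarith)
      linarith [mul_pos (show 0 < K by linarith) μ0])
  have hR := hc'.mono hle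
  have b10 : t * μ ≤ ξ := by linarith [mul_le_mul_of_nonneg_left b1 ht]
  have hpr := hR.proper hP x0.le (by linarith) μ0.le (by linarith)
  have hacc := account hz hR (fun u hu => by
      refine le_of_mul_le_mul_left ((hli u hu).trans ?_) (pow_pos x0 3)
      linarith [mul_le_mul_of_nonneg_right b4 μ0.le,
        mul_pos (show 0 < K by linarith) (pow_pos μ0 2)])
    hpr hr x0 (by linarith) μ0 he lo up
  have hσ : 0 ≤ ∑ i ∈ Icc 1 r, ((cn c' i : ℝ) - (∑ j ∈ Icc 1 r, (cn c' j : ℝ)) / r) ^ 2 :=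
    sum_nonneg fun _ _ => sq_nonneg _
  rw [Mo_eq (Bd G c')] at hacc
  refine ⟨c', hR.le, fun i hi => ?_, hpr, ?_, fun hb i hi j hj => ?_⟩
  · have d1 := hR.cn_lo hi
    by_contra hn
    have d2 : (cn c' i : ℝ) ≤ L + 1 := by exact_mod_cast (by omega : cn c' i ≤ L + 1)
    have d3 : cn c' i * ((1 + ξ) * μ) ≤ (L + 1) * ((1 + ξ) * ε) := by gcongr
    have d4 : (L + 1) * ε ≤ 1 / r / 4 := by
      rw [div_div, le_div_iff₀ (by positivity)]; linarith
    linarith [mul_le_mul_of_nonneg_left d4 (show 0 ≤ 1 + ξ by linarith),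
      mul_le_mul_of_nonneg_right (show ξ ≤ 1 by linarith) r0.le]
  · by_contra hn
    have d1 : (C : ℝ) + 1 ≤ (Bd G c').edgeSet.ncard := by exact_mod_cast not_le.1 hn
    linarith [mul_le_mul_of_nonneg_left d1 (show 0 ≤ 1 - 1 / (r : ℝ) - 4 * ξ by linarith)]
  · by_contra hn
    have d1 := var_half (cn c') ((∑ j ∈ Icc 1 r, (cn c' j : ℝ)) / r) hi hj hn
    rw [hb] at hacc
    linarith

end Pool.Agent.P.MP_094db5_co
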