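import Pool.Agent.P.MP_094db5_co.TN9

/-! A priori bounds for extremal graphs. -/

set_option autoImplicit false

open Finset Classical

noncomputable section

namespace Pool.Agent.P.MP_094db5_co

lemma eK2_eq (r : ℕ) (n : ℕ → ℕ) :
    eK2 r n = ∑ i ∈ Icc 1 r, (n i : ℝ) * ∑ j ∈ (Icc 1 r).erase i, (n j : ℝ) := by
  rw [eK2, sq, sum_mul, ← sum_sub_distrib]
  refine sum_congr rfl fun i hi => ?_
  rw [← add_sum_erase _ (fun j => (n j : ℝ)) hi]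
  ring

lemma sum_er_le {r i : ℕ} (hi : i ∈ Icc 1 r) {f : ℕ → ℝ} {t : ℝ} (h : ∀ j ∈ Icc 1 r, f j ≤ t) :
    ∑ j ∈ (Icc 1 r).erase i, f j ≤ (r - 1) * t := by
  have := sum_le_card_nsmul ((Icc 1 r).erase i) f t fun j hj => h j (mem_of_mem_erase hj)
  have e : (((Icc 1 r).erase i).card : ℝ) + 1 = r := by exact_mod_cast card_er hi
  rwa [nsmul_eq_mul, show (((Icc 1 r).erase i).card : ℝ) = r - 1 by linarith] at this

lemma le_sum_er {r i : ℕ} (hi : i ∈ Icc 1 r) {f : ℕ → ℝ} {t : ℝ} (h : ∀ j ∈ Icc 1 r, t ≤ f j) :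
    (r - 1) * t ≤ ∑ j ∈ (Icc 1 r).erase i, f j := by
  have := sum_er_le hi (f := fun j => -f j) (t := -t) fun j hj => neg_le_neg (h j hj)
  rw [sum_neg_distrib] at this
  linarith

lemma eK2_bounds {r : ℕ} {n : ℕ → ℕ} {a b : ℝ} (a0 : 0 ≤ a)
    (h : ∀ i ∈ Icc 1 r, a ≤ n i ∧ (n i : ℝ) ≤ b) :
    r * (r - 1) * a ^ 2 ≤ eK2 r n ∧ eK2 r n ≤ r * (r - 1) * b ^ 2 := by
  rw [eK2_eq]
  have e : ∀ t : ℝ, ∑ _i ∈ Icc 1 r, t * ((r - 1) * t) = r * (r - 1) * t ^ 2 := fun t => by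
    rw [sum_const, Nat.card_Icc, add_tsub_cancel_right, nsmul_eq_mul]; ring
  rw [← e, ← e]
  refine ⟨sum_le_sum fun i hi => ?_, sum_le_sum fun i hi => ?_⟩
  · have : (1 : ℝ) ≤ r := by have := mem_Icc.1 hi; exact_mod_cast (by omega : 1 ≤ r)
    exact mul_le_mul (h i hi).1 (le_sum_er hi fun j hj => (h j hj).1)
      (mul_nonneg (by linarith) a0) (Nat.cast_nonneg _)
  · exact mul_le_mul (h i hi).2 (sum_er_le hi fun j hj => (h j hj).2)
      (sum_nonneg fun _ _ => Nat.cast_nonneg _) (a0.trans ((h i hi).1.trans (h i hi).2))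

lemma le_sqrt_aux {a b : ℝ} (hb : 0 ≤ b) (h : a ^ 2 ≤ b ^ 2) : a ≤ b :=
  (abs_le_of_sq_le_sq' h hb).2

variable {V : Type} [Fintype V]

/-- the degree -/
def dg (G : SimpleGraph V) (u : V) : ℝ := ∑ v, ad G u v

/-- a priori bounds -/
structure Apr (r : ℕ) (η : ℝ) (G : SimpleGraph V) : Prop where
  deg : ∀ u, dg G u ≤ (1 + 3 * η) * lam G
  lo : r * (r - 1) * ((1 - η) * (lam G / (r - 1))) ^ 2 - 2 * η * lam G ≤ 2 * ec G
  hi : 2 * ec G ≤ r * (r - 1) * ((1 + η) * (lam G / (r - 1))) ^ 2 + 2 * (1 + η) * lam G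
  big : 1 ≤ η * lam G

lemma Mo_Kc' {c : V → ℕ} {r : ℕ} (hc : ∀ v, c v ≤ r) : 2 * (ec (Kc c) : ℝ) = eK2 r (cn c) := by
  rw [← Mo_ec, Mo_Kc hc, eK2]

lemma dg_Kc {c : V → ℕ} {r : ℕ} (hc : ∀ v, c v ≤ r) {v : V} (hv : c v ≠ 0) :
    dg (Kc c) v = ∑ j ∈ (Icc 1 r).erase (c v), (cn c j : ℝ) := by
  have h := op_Kc hc (fun _ => 1) hv
  have hi : c v ∈ Icc 1 r := mem_Icc.2 ⟨by omega, hc v⟩
  simp only [op, Pc_const, mul_one] at h
  rw [dg, h, ← add_sum_erase _ (fun j => (cn c j : ℝ)) hi]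
  ring

theorem St.apr {r : ℕ} (hr : 3 ≤ r) {G : SimpleGraph V} {x : V → ℝ} {η : ℝ} {c : V → ℕ} {z : V}
    (h : St r G x η c z) (η0 : 0 < η) (η1 : η ≤ 1) : Apr r η G := by
  have R3 : (3 : ℝ) ≤ r := by exact_mod_cast hr
  have l0 : 0 < lam G := by
    by_contra hn
    nlinarith [h.big]
  have sz : ∀ i ∈ Icc 1 r, (1 - η) * (lam G / (r - 1)) ≤ cn c i ∧
      (cn c i : ℝ) ≤ (1 + η) * (lam G / (r - 1)) := fun i hi => by
    have := abs_le.1 (h.size i hi)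
    rw [← mul_div_assoc, ← mul_div_assoc, div_le_iff₀ (by linarith), le_div_iff₀ (by linarith)]
    exact ⟨by linarith, by linarith⟩
  have a1 := eK2_bounds (mul_nonneg (by linarith) (div_nonneg l0.le (by linarith))) sz
  have a2 : (ec G : ℝ) + ec (Hm G c) = ec (Kc c) + ec (Xe G c) := by exact_mod_cast ec_split h.proper
  have a3 := Mo_Kc' h.le
  have a4 : (dT G c z : ℝ) ≤ lam G := by
    refine h.dz.trans (mul_le_of_le_one_left l0.le ?_)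
    have : 0 < 1 / (r : ℝ) := by positivity
    have : 1 / (r : ℝ) ≤ 1 := by rw [div_le_one (by linarith)]; linarith
    nlinarith
  have a5 := h.hE
  have a6 := h.hk
  have a7 := h.big
  refine ⟨fun u => ?_, by linarith [Nat.cast_nonneg (α := ℝ) (ec (Xe G c))],
    by linarith [Nat.cast_nonneg (α := ℝ) (ec (Hm G c))], h.big⟩
  by_cases hu : c u = 0
  · have : (G.degree u : ℝ) ≤ ec (Xe G c) := by exact_mod_cast degree_le_Xe hu
    rw [dg, sum_ad]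
    linarith
  · have b1 : dg G u ≤ dg (Kc c) u + ∑ v ∈ Vp c 0, ad G u v := by
      rw [dg, dg, Vp, sum_filter, ← sum_add_distrib]
      refine sum_le_sum fun v _ => ?_
      have := ad_nonneg (Kc c) u v
      split_ifs with e
      · linarith
      · rw [add_zero]
        unfold ad
        by_cases a : G.Adj u v
        · rw [if_pos a, if_pos ⟨hu, e, h.proper u v a hu⟩]
        · rw [if_neg a]; exact this
    have b2 : ∑ v ∈ (Vp c 0).erase z, ad G u v ≤ ∑ v ∈ (Vp c 0).erase z, (dT G c v : ℝ) :=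
      sum_le_sum fun v _ => by
        unfold ad
        split_ifs with a
        · exact_mod_cast card_pos.2 ⟨u, mem_nT.2 ⟨a.symm, hu⟩⟩
        · exact Nat.cast_nonneg _
    have b3 : (ec (Xe G c) : ℝ) = ∑ v ∈ Vp c 0, (dT G c v : ℝ) + ec (Ww G c) := by
      exact_mod_cast ec_Xe G c
    rw [← add_sum_erase _ _ (mem_Vp.2 h.z0)] at b1 b3
    have b4 := sum_er_le (mem_Icc.2 ⟨by omega, h.le u⟩ : c u ∈ Icc 1 r) fun j hj => (sz j hj).2
    rw [← dg_Kc h.le hu, mul_left_comm, mul_div_cancel₀ _ (by linarith)] at b4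
    linarith [ad_le_one G u z, Nat.cast_nonneg (α := ℝ) (ec (Ww G c))]

theorem Apr.comap {W : Type} [Fintype W] {r : ℕ} {η : ℝ} {G : SimpleGraph V} (hG : G ≠ ⊥)
    (h : Apr r η (G.map (Sum.inl : V → V ⊕ W))) (he : ec (G.map (Sum.inl : V → V ⊕ W)) = ec G) :
    Apr r η G := by
  have e := lam_map hG (f := (Sum.inl : V → V ⊕ W)) Sum.inl_injective.injOn
  refine ⟨fun u => ?_, ?_, ?_, ?_⟩
  · refine le_trans ?_ (e ▸ h.deg (Sum.inl u))
    rw [dg, dg, Fintype.sum_sum_type]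
    refine le_add_of_le_of_nonneg (sum_le_sum fun v _ => ?_) (sum_nonneg fun _ _ => ad_nonneg _ _ _)
    unfold ad
    by_cases a : G.Adj u v
    · rw [if_pos a, if_pos (SimpleGraph.map_adj_apply' a fun e => a.ne (Sum.inl_injective e))]
    · rw [if_neg a]; split_ifs <;> norm_num
  · rw [← e, ← he]; exact h.lo
  · rw [← e, ← he]; exact h.hi
  · rw [← e]; exact h.big

theorem exists_apr {α : Type} {F : SimpleGraph α} {r D t : ℕ} (hr : 3 ≤ r)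
    (hF : ∀ a, ∃ b, F.Adj a b) (Fr : ∀ (V : Type) [Fintype V], SimpleGraph V → Prop)
    (h1 : ∀ (V : Type) [Fintype V], Cls r D t (Fr V))
    (h2 : ∀ (V : Type) [Fintype V] (G : SimpleGraph V), Fr V G ↔ F.Free G) {η : ℝ} (η0 : 0 < η)
    (η1 : η ≤ 1) : ∃ m₀ : ℕ, ∀ m, m₀ ≤ m → ∀ (V : Type) [Fintype V] (G : SimpleGraph V),
      InN F r m G → (∀ (W : Type) [Fintype W] (H : SimpleGraph W), InN F r m H → lam H ≤ lam G) →
      Apr r η G := by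
  obtain ⟨M, h⟩ := exists_st hr D t η0
  refine ⟨⌈M⌉₊, fun m hm V _ G g1 g2 => ?_⟩
  obtain ⟨h3, h4⟩ := ex_of_extremal g1 (by omega) hF g2
  have h5 := Nat.ceil_le.1 hm
  obtain ⟨x, c, z, hs⟩ := h _ _ _ (h1 _) ⟨(h2 _ _).2 h3.fr, h3.nc,
    fun H a b => h3.max H a ((h2 _ _).1 b), h3.iso⟩
    (by rw [Mo_ec, h4]; linarith [Nat.cast_nonneg (α := ℝ) m])
  exact (hs.apr hr η0 η1).comap (AMap_ne_bot g1 (by omega)) (h4.trans g1.1.symm)

lemma tu2_bounds {r N : ℕ} (hr : 1 ≤ r) {ν : ℝ} (hN : ν = N / r) (ν1 : 1 ≤ ν) :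
    r * (r - 1) * (ν - 1) ^ 2 ≤ tu2 r N ∧ tu2 r N ≤ r * (r - 1) * (ν + 1) ^ 2 := by
  obtain ⟨T, hT⟩ := exists_bal hr N
  have r0 : (0 : ℝ) < r := by exact_mod_cast hr
  have a1 : ((N / r : ℕ) : ℝ) ≤ ν := hN ▸ Nat.cast_div_le
  have a2 : ν < (N / r : ℕ) + 1 := by
    rw [hN, div_lt_iff₀ r0, mul_comm]
    exact_mod_cast Nat.lt_mul_div_succ N hr
  rw [← hT.eK2]
  refine eK2_bounds (by linarith) fun i hi => ?_
  have a3 : ((N / r : ℕ) : ℝ) ≤ T i := by exact_mod_cast (hT.1 i hi).1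
  have a4 : (T i : ℝ) ≤ (N / r : ℕ) + 1 := by exact_mod_cast (hT.1 i hi).2
  exact ⟨by linarith, by linarith⟩

theorem Apr.near {r N k : ℕ} (hr : 3 ≤ r) {η ν : ℝ} {G : SimpleGraph V} (h : Apr r η G)
    (η0 : 0 < η) (η1 : 100 * η ≤ 1) (hN : ν = N / r) (hν : 1 ≤ η * ν) (hk : (k : ℝ) ≤ r * ν)
    (he : 2 * (ec G : ℝ) = tu2 r N + 2 * k) :
    (1 - 5 * η) * ((r - 1) * ν) ≤ lam G ∧ lam G ≤ (1 + 3 * η) * ((r - 1) * ν) ∧
      r * (r - 1) * ((1 - η) * ν) ^ 2 ≤ 2 * ec G := by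
  have R3 : (3 : ℝ) ≤ r := by exact_mod_cast hr
  have ν1 : 1 ≤ ν := by
    by_contra hn
    nlinarith
  have l0 : 0 < lam G := by
    by_contra hn
    nlinarith [h.big]
  obtain ⟨t1, t2⟩ := tu2_bounds (by omega) hN ν1
  have r1 : (0 : ℝ) < r - 1 := by linarith
  obtain ⟨s, hs⟩ : ∃ s, lam G = (r - 1) * s := ⟨lam G / (r - 1), (mul_div_cancel₀ _ r1.ne').symm⟩
  have a1 := h.lo
  have a2 := h.hi
  have a3 := h.big
  have c0 : (0 : ℝ) < r * (r - 1) := by positivity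
  rw [hs, mul_div_cancel_left₀ _ r1.ne'] at a1 a2
  rw [hs] at a3 l0 ⊢
  have s0 : 0 < s := (pos_iff_pos_of_mul_pos l0).1 r1
  have b1 : (ν + 1) ^ 2 ≤ ((1 + η) * ν) ^ 2 := pow_le_pow_left₀ (by linarith) (by linarith) 2
  have b2 : ((1 - η) * ν) ^ 2 ≤ (ν - 1) ^ 2 :=
    pow_le_pow_left₀ (mul_nonneg (by linarith) (by linarith)) (by linarith) 2
  have b3 : 2 * (k : ℝ) ≤ r * (r - 1) * (η * ν ^ 2) := by
    have e1 : ν ≤ η * ν ^ 2 := by linarith [mul_le_mul_of_nonneg_right hν (show 0 ≤ ν by linarith)]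
    linarith [mul_le_mul_of_nonneg_left e1 c0.le, mul_nonneg (mul_nonneg (show (0 : ℝ) ≤ r by linarith)
      (show (0 : ℝ) ≤ r - 3 by linarith)) (show 0 ≤ ν by linarith)]
  have b4 : (r - 1) * s ≤ r * (r - 1) * (η * s ^ 2) := by
    linarith [mul_le_mul_of_nonneg_left a3 l0.le, mul_pos r1 (mul_pos η0 (pow_pos s0 2))]
  have k0 : (0 : ℝ) ≤ k := Nat.cast_nonneg _
  have b5 := mul_le_mul_of_nonneg_left b1 c0.le
  have b6 := mul_le_mul_of_nonneg_left b2 c0.le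
  have d1 : s ^ 2 * (1 - 2 * η - η ^ 2) ≤ ν ^ 2 * (1 + 3 * η + η ^ 2) := by
    refine le_of_mul_le_mul_left ?_ c0
    linarith [mul_le_mul_of_nonneg_left b4 η0.le]
  have d2 : ν ^ 2 * (1 - η) ^ 2 ≤ s ^ 2 * (1 + 6 * η + η ^ 2) := by
    refine le_of_mul_le_mul_left ?_ c0
    linarith [mul_le_mul_of_nonneg_right (show η ≤ 1 by linarith) l0.le]
  have η2 : η ^ 2 ≤ η / 100 := by nlinarith
  refine ⟨?_, ?_, by linarith⟩
  · rw [mul_left_comm]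
    refine mul_le_mul_of_nonneg_left (le_sqrt_aux s0.le ?_) r1.le
    refine le_of_mul_le_mul_right ?_ (show 0 < 1 + 6 * η + η ^ 2 by positivity)
    refine le_trans ?_ d2
    rw [mul_pow, mul_comm ((1 - 5 * η) ^ 2), mul_assoc]
    refine mul_le_mul_of_nonneg_left ?_ (sq_nonneg _)
    nlinarith [mul_le_mul_of_nonneg_left η2 η0.le, mul_le_mul_of_nonneg_left η2 (sq_nonneg η)]
  · rw [mul_left_comm]
    refine mul_le_mul_of_nonneg_left (le_sqrt_aux (by positivity) ?_) r1.le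
    refine le_of_mul_le_mul_right ?_ (show 0 < 1 - 2 * η - η ^ 2 by linarith)
    refine d1.trans ?_
    rw [mul_pow, mul_comm ((1 + 3 * η) ^ 2), mul_assoc]
    refine mul_le_mul_of_nonneg_left ?_ (sq_nonneg _)
    nlinarith [mul_le_mul_of_nonneg_left η2 η0.le, mul_le_mul_of_nonneg_left η2 (sq_nonneg η)]

theorem sizes {r : ℕ} (hr : 3 ≤ r) {η ν : ℝ} (η0 : 0 < η) (η1 : 100 * η ≤ 1) (ν0 : 0 < ν)
    {n : ℕ → ℕ} (h1 : ∀ i ∈ Icc 1 r, ∑ j ∈ (Icc 1 r).erase i, (n j : ℝ) ≤ (1 + 9 * η) * ((r - 1) * ν))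
    (h2 : r * (r - 1) * ((1 - 8 * η) * ν ^ 2) ≤ eK2 r n) :
    ∀ i ∈ Icc 1 r, Cl (30 * r ^ 2 * η) ν (n i) := by
  have R3 : (3 : ℝ) ≤ r := by exact_mod_cast hr
  have r1 : (0 : ℝ) < r - 1 := by linarith
  obtain ⟨S, hS⟩ : ∃ S, S = ∑ i ∈ Icc 1 r, (n i : ℝ) := ⟨_, rfl⟩
  have e : ∀ i ∈ Icc 1 r, ∑ j ∈ (Icc 1 r).erase i, (n j : ℝ) = S - n i := fun i hi => by
    rw [hS, ← add_sum_erase _ (fun j => (n j : ℝ)) hi]; ring
  have a1 : S ≤ (1 + 9 * η) * (r * ν) := by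
    have b1 := sum_le_sum h1
    rw [sum_congr rfl e, sum_sub_distrib, ← hS, sum_const, sum_const, Nat.card_Icc,
      add_tsub_cancel_right, nsmul_eq_mul, nsmul_eq_mul] at b1
    refine le_of_mul_le_mul_left ?_ r1
    linarith
  have a2 : eK2 r n ≤ S * ((1 + 9 * η) * ((r - 1) * ν)) := by
    rw [eK2_eq, hS, sum_mul]
    exact sum_le_sum fun i hi => mul_le_mul_of_nonneg_left (h1 i hi) (Nat.cast_nonneg _)
  have a3 : (1 - 17 * η) * (r * ν) ≤ S := by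
    refine le_of_mul_le_mul_right (le_trans ?_ (h2.trans a2)) (by positivity)
    have : 0 ≤ r * (r - 1) * ν ^ 2 * η ^ 2 := by positivity
    linarith
  have p1 := mul_pos η0 ν0
  have p2 := mul_le_mul_of_nonneg_right R3 p1.le
  have a4 : ∀ i ∈ Icc 1 r, ν - 26 * r * (η * ν) ≤ n i := fun i hi => by
    have := h1 i hi
    rw [e i hi] at this
    linarith
  intro i hi
  have a5 := le_sum_er hi a4
  rw [e i hi] at a5
  have p3 := mul_le_mul_of_nonneg_right R3 (mul_pos (show (0 : ℝ) < r by linarith) p1).le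
  exact abs_le.2 ⟨by linarith [a4 i hi], by linarith⟩

end Pool.Agent.P.MP_094db5_co
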