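import Pool.Agent.P.MP_094db5_co.ADefs

set_option autoImplicit false

namespace Pool.Agent.P.MP_094db5_co

open Finset

/-- The size of part `i`. -/
noncomputable def sz {V : Type} (c : V → ℕ) (i : ℕ) : ℕ := {v | c v = i}.ncard

/-- The parts `1, …, r` have the sizes of the parts of the Turan graph on `N` vertices. -/
def Turan {V : Type} (r N : ℕ) (c : V → ℕ) : Prop :=
  (∀ i ∈ Icc 1 r, N / r ≤ sz c i ∧ sz c i ≤ N / r + 1) ∧ ∑ i ∈ Icc 1 r, sz c i = N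

/-- `Y` lies in the parts `i ∈ I`, has at least `l` vertices in each of them and misses at least
`u` vertices of each of them; subject to this, smaller parts are filled first and parts of equal
size are filled evenly. -/
def Greedy {V : Type} (c : V → ℕ) (I : Finset ℕ) (l u : ℕ) (Y : Set V) : Prop :=
  (∀ v ∈ Y, c v ∈ I) ∧ (∀ i ∈ I, l ≤ pc c Y i ∧ pc c Y i + u ≤ sz c i) ∧
    ∀ i ∈ I, ∀ j ∈ I, pc c Y i + u < sz c i → l < pc c Y j →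
      sz c j < sz c i ∨ (sz c j = sz c i ∧ pc c Y j ≤ pc c Y i + 1)

/-- `X` consists of one vertex from each part `i ∈ I`. -/
def Tr {V : Type} (c : V → ℕ) (I : Finset ℕ) (X : Set V) : Prop :=
  (∀ v ∈ X, c v ∈ I) ∧ ∀ i ∈ I, pc c X i = 1

/-- Star type for `K_r ∨ (t+1) K_1`. -/
def StarB {V : Type} (r t : ℕ) (G : SimpleGraph V) (c : V → ℕ) : Prop :=
  ∃ (w z : V) (a : ℕ) (X Y : Set V), c w = 0 ∧ c z = 0 ∧ w ≠ z ∧ a ∈ Icc 1 r ∧
    (∀ i ∈ Icc 1 r, sz c i ≤ sz c a) ∧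
    if t = 0 then Greedy c ((Icc 1 r).erase a) 1 0 Y ∧ Tr c ((Icc 1 r).erase a) X ∧
      (X \ Y).ncard = 1 ∧ Mp G r c (spokes w (insert z X) ∪ spokes z Y) ∅
    else Greedy c ((Icc 1 r).erase a) 0 0 Y ∧ Tr c (Icc 1 r) X ∧
      (∀ v ∈ X, v ∈ Y ∨ pc c Y (c v) = 0) ∧ Mp G r c (spokes w X ∪ spokes z Y) ∅

/-- Pair type. -/
def PairB {V : Type} (r : ℕ) (G : SimpleGraph V) (c : V → ℕ) : Prop :=
  ∃ (w z b : V) (X : Set V), c w = 0 ∧ c z ≠ 0 ∧ c b ≠ 0 ∧ c z ≠ c b ∧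
    (∀ i ∈ Icc 1 r \ {c z, c b}, sz c i ≤ sz c (c z) ∧ sz c i ≤ sz c (c b)) ∧
    Greedy c (Icc 1 r \ {c z, c b}) 1 0 X ∧ Mp G r c (spokes w (X ∪ {z, b})) {s(z, b)}

/-- Star type for the even wheels. -/
def StarW {V : Type} (G : SimpleGraph V) (c : V → ℕ) : Prop :=
  ∃ (w z : V) (a : ℕ) (X Y : Set V), c w = 0 ∧ c z = 0 ∧ w ≠ z ∧ a ∈ Icc 1 3 ∧
    (∀ i ∈ Icc 1 3, sz c i ≤ sz c a) ∧ Greedy c ((Icc 1 3).erase a) 1 1 Y ∧
    Tr c ((Icc 1 3).erase a) X ∧ Disjoint X Y ∧ Mp G 3 c (spokes w (insert z X) ∪ spokes z Y) ∅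

/-- The function whose sign decides between the star type and the pair type. -/
noncomputable def phi (r N k : ℕ) : ℝ := (r + 1) * (k * r / N : ℝ) / (r - 1) - 1 -
  if N % r ≤ 1 then (k * r / N : ℝ) ^ 4 / (2 * r * (r - 1) ^ 4 * (r - 2)) else 0

end Pool.Agent.P.MP_094db5_co
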