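import Pool.Agent.P.MP_094db5_co.TA1

/-! Graphs of the star type. -/

set_option autoImplicit false

open Finset Classical

noncomputable section

namespace Pool.Agent.P.MP_094db5_co

variable {V : Type} [Fintype V]

omit [Fintype V] in
lemma pc_ct (c : V → ℕ) (X : Finset V) (i : ℕ) : pc c X i = ct c X i := pc_coe c X i

omit [Fintype V] in
lemma ct_mono (c : V → ℕ) {X Y : Finset V} (h : X ⊆ Y) (i : ℕ) : ct c X i ≤ ct c Y i :=
  card_le_card (filter_subset_filter _ h)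

lemma ct_le (c : V → ℕ) (X : Finset V) (i : ℕ) : ct c X i ≤ cn c i := ct_mono c (subset_univ X) i

omit [Fintype V] in
lemma ct_pos {c : V → ℕ} {X : Finset V} {i : ℕ} : 1 ≤ ct c X i ↔ ∃ v ∈ X, c v = i := by
  rw [ct, Nat.succ_le_iff, card_pos, filter_nonempty_iff]

omit [Fintype V] in
lemma ct_zero {c : V → ℕ} {X : Finset V} {i : ℕ} : ct c X i = 0 ↔ ∀ v ∈ X, c v ≠ i := by
  rw [ct, card_eq_zero, filter_eq_empty_iff]

omit [Fintype V] in
lemma ct_uniq {c : V → ℕ} {X : Finset V} {u v : V} (h : ct c X (c u) ≤ 1) (hu : u ∈ X) (hv : v ∈ X)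
    (e : c v = c u) : v = u :=
  card_le_one.1 h v (mem_filter.2 ⟨hv, e⟩) u (mem_filter.2 ⟨hu, rfl⟩)

omit [Fintype V] in
lemma ct_update {c : V → ℕ} {z : V} (hz : c z = 0) (a : ℕ) (X : Finset V) {i : ℕ} (hi : i ≠ 0) :
    ct (Function.update c z a) X i = ct c X i + if z ∈ X ∧ i = a then 1 else 0 := by
  have hn : z ∉ X.filter fun v => c v = i := fun e => hi ((mem_filter.1 e).2.symm.trans hz)
  unfold ct
  split_ifs with h
  · rw [← card_insert_of_notMem hn]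
    congr 1
    ext v
    by_cases e : v = z
    · simp [e, h.1, h.2]
    · simp [e]
  · rw [add_zero]
    congr 1
    ext v
    by_cases e : v = z
    · subst e
      simp only [mem_filter, Function.update_self, hz]
      exact ⟨fun b => (h ⟨b.1, b.2.symm⟩).elim, fun b => (hi b.2.symm).elim⟩
    · simp [e]

/-- the three kinds of stars -/
def Kind (r bk g₀ cp : ℕ) : Prop :=
  (bk = 0 ∧ g₀ + 2 = r ∧ cp = 0) ∨ (bk = 1 ∧ g₀ = 0 ∧ cp = 0) ∨ (bk = 0 ∧ g₀ = 0 ∧ cp = 1)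

/-- graph data of the star type -/
structure SD (r bk g₀ cp : ℕ) (c : V → ℕ) (z w : V) (Y X : Finset V) (a : ℕ) : Prop where
  ok : TgOK r c ⊥ z Y w X
  dat : DatS r bk cp (cn c) a (ct c Y)
  hx : ∀ i ∈ Icc 1 r, ct c X i = xS bk a i
  hz : z ∈ X ↔ bk = 0
  kd : (bk = 0 ∧ g₀ + 2 = r ∧ cp = 0 ∧ (X.erase z \ Y).card = 1) ∨
    (bk = 1 ∧ g₀ = 0 ∧ cp = 0 ∧ ∀ v ∈ X, v ∈ Y ∨ ct c Y (c v) = 0) ∨
    (bk = 0 ∧ g₀ = 0 ∧ cp = 1 ∧ ∀ v ∈ X, v ∉ Y)

lemma sum_xS {r a : ℕ} (ha : a ∈ Icc 1 r) (bk : ℕ) : ∑ i ∈ Icc 1 r, xS bk a i + 1 = r + bk := by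
  rw [← add_sum_erase _ _ ha, sum_congr rfl (g := fun _ => 1) fun i hi => by
    simp [xS, ne_of_mem_erase hi], sum_const, smul_eq_mul, mul_one]
  have := card_er ha
  simp only [xS, if_true]
  omega

lemma PhS_congr {r : ℕ} {n n' y y' x x' : ℕ → ℕ} (hn : ∀ i ∈ Icc 1 r, n i = n' i)
    (hy : ∀ i ∈ Icc 1 r, y i = y' i) (hx : ∀ i ∈ Icc 1 r, x i = x' i) (μ g e α β : ℝ) :
    PhS r μ n y x g e α β = PhS r μ n' y' x' g e α β := by
  unfold PhS
  rw [sum_congr rfl fun i hi => by rw [hn i hi, hy i hi, hx i hi],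
    sum_congr rfl (f := fun i => (y i : ℝ)) fun i hi => by rw [hy i hi],
    sum_congr rfl (f := fun i => (x i : ℝ)) fun i hi => by rw [hx i hi]]

namespace SD

variable {r bk g₀ cp : ℕ} {c : V → ℕ} {z w : V} {Y X : Finset V} {a : ℕ}
  (h : SD r bk g₀ cp c z w Y X a)
include h

lemma kind : Kind r bk g₀ cp := by
  rcases h.kd with e | e | e
  exacts [Or.inl ⟨e.1, e.2.1, e.2.2.1⟩, Or.inr (Or.inl ⟨e.1, e.2.1, e.2.2.1⟩),
    Or.inr (Or.inr ⟨e.1, e.2.1, e.2.2.1⟩)]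

lemma bk1 : bk ≤ 1 := by rcases h.kind with e | e | e <;> omega

lemma zY : z ∉ Y := fun e => h.ok.hS z e h.ok.o0

lemma lab {v : V} (hv : v ∈ X.erase z) : c v ≠ 0 :=
  (h.ok.hX v (mem_of_mem_erase hv)).resolve_right (ne_of_mem_erase hv)

lemma ct_er {i : ℕ} (hi : i ∈ Icc 1 r) : ct c (X.erase z) i = xS bk a i := by
  rw [← h.hx i hi, ct, ct, filter_erase, erase_eq_of_notMem]
  intro e
  have := (mem_filter.1 e).2
  have := h.ok.o0
  have := mem_Icc.1 hi
  omega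

lemma card_er' : (X.erase z).card + 1 = r + bk := by
  rw [← sum_ct h.ok.le fun v hv => h.lab hv, sum_congr rfl fun i hi => h.ct_er hi, sum_xS h.dat.ha]

lemma card : X.card = r := by
  have a1 := h.card_er'
  have a2 := h.bk1
  by_cases e : z ∈ X
  · have := h.hz.1 e
    have := card_erase_add_one e
    omega
  · have := mt h.hz.2 e
    rw [erase_eq_of_notMem e] at a1
    omega

lemma hg : ((X ∩ Y).card : ℝ) = gS r bk g₀ (ct c Y) := by
  unfold gS
  rcases h.kd with ⟨rfl, e1, -, e⟩ | ⟨rfl, rfl, -, e⟩ | ⟨rfl, rfl, -, e⟩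
  · have a1 := card_sdiff_add_card_inter (X.erase z) Y
    have a2 := h.card_er'
    rw [erase_inter, erase_eq_of_notMem fun b => h.zY (mem_inter.1 b).2] at a1
    rw [show (X ∩ Y).card = g₀ by omega]
    simp
  · rw [← sum_ct h.ok.le fun v hv => h.ok.hS v (mem_inter.1 hv).2]
    simp only [Nat.cast_zero, Nat.cast_one, one_mul, zero_add, Nat.cast_sum]
    refine sum_congr rfl fun i hi => ?_
    have a1 := ct_mono c (inter_subset_left (s₁ := X) (s₂ := Y)) i
    have a2 := ct_mono c (inter_subset_right (s₁ := X) (s₂ := Y)) i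
    have a3 : ct c X i = 1 := by rw [h.hx i hi, xS, ite_self]
    obtain ⟨v, hv, ev⟩ := ct_pos.1 a3.ge
    congr 1
    rcases e v hv with b | b
    · have := ct_pos.2 ⟨v, mem_inter.2 ⟨hv, b⟩, ev⟩
      omega
    · rw [ev] at b; omega
  · rw [card_eq_zero.2 (eq_empty_of_forall_notMem fun v hv => e v (mem_inter.1 hv).1 (mem_inter.1 hv).2)]
    simp

lemma PhS_eq (μ α β : ℝ) :
    PhS r μ (cn c) (ct c Y) (ct c X) (X ∩ Y).card (if z ∈ X then 1 else 0) α β =
      PhK r μ bk g₀ (cn c) a (ct c Y) α β := by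
  have e : (if z ∈ X then 1 else 0 : ℝ) = 1 - bk := by
    have := h.bk1
    split_ifs with b
    · rw [h.hz.1 b]; simp
    · rw [show bk = 1 by have := mt h.hz.2 b; omega]; simp
  rw [e, h.hg, PhK]
  exact PhS_congr (fun _ _ => rfl) (fun _ _ => rfl) h.hx _ _ _ _ _

lemma sumY : ∑ i ∈ Icc 1 r, (ct c Y i : ℝ) = Y.card := by exact_mod_cast sum_ct h.ok.le h.ok.hS

lemma ec_eq : 2 * (ec (Tg c ⊥ z Y w X) : ℝ) =
    eK2 r (cn c) + 2 * ∑ i ∈ Icc 1 r, (ct c Y i : ℝ) + 2 * r := by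
  have a1 := h.ok.ec_eq
  rw [ec_eq_zero.2 rfl, h.card] at a1
  have a2 : (ec (Tg c ⊥ z Y w X) : ℝ) = ec (Kc c) + Y.card + r := by exact_mod_cast a1
  rw [h.sumY, ← Mo_Kc' h.ok.le, a2]
  ring

lemma Ya : ∀ v ∈ Y, c v ≠ a := ct_zero.1 h.dat.ya

lemma mp (two : ∀ i ∈ Icc 1 r, 2 ≤ cn c i) :
    Mp (Tg c ⊥ z Y w X) r (Function.update c z a) (spokes w X)
      (spokes z (Out c a \ Y : Finset V)) := by
  have ok := h.ok
  refine ⟨AStr_le ok.le h.dat.ha, fun i hi => ?_, fun u v => ?_⟩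
  · have a1 := ct_update ok.o0 a univ (i := i) (by have := mem_Icc.1 hi; omega)
    have a2 := two i hi
    rw [cn_eq]
    change cn _ i = cn c i + _ at a1
    omega
  · rw [Tg_adj, AStr_spokes, AStr_spokes]
    have b1 := ok.hS u
    have b1' := ok.hS v
    have b2 := ok.hX w
    have b3 := ok.o0
    have b4 := ok.w0
    have b5 := ok.ow
    have b6 := h.Ya u
    have b7 := h.Ya v
    have b8 := mem_Icc.1 h.dat.ha
    simp only [cross, mem_coe, mem_sdiff, mem_Out, SimpleGraph.bot_adj]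
    by_cases d1 : u = z <;> by_cases d2 : v = z
    · subst d1
      subst d2
      grind
    · subst d1
      rw [Function.update_self, Function.update_of_ne d2]
      grind
    · subst d2
      rw [Function.update_self, Function.update_of_ne d1]
      grind
    · rw [Function.update_of_ne d1, Function.update_of_ne d2]
      grind

lemma mp' (two : ∀ i ∈ Icc 1 r, 2 ≤ cn c i) :
    Mp (Tg c ⊥ z Y w X) r c (spokes w X ∪ spokes z Y) ∅ := by
  have ok := h.ok
  refine ⟨ok.le, fun i hi => by rw [cn_eq]; exact two i hi, fun u v => ?_⟩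
  rw [Tg_adj, Set.mem_union, AStr_spokes, AStr_spokes]
  have b1 := ok.hS z
  have b2 := ok.hX w
  have b3 := ok.o0
  have b4 := ok.w0
  have b5 := ok.ow
  simp only [cross, mem_coe, SimpleGraph.bot_adj, Set.mem_empty_iff_false]
  grind

lemma upd {v : V} (hv : c v ≠ 0) : Function.update c z a v = c v :=
  Function.update_of_ne (fun e : v = z => hv (e ▸ h.ok.o0)) _ _

lemma Xa (e : bk = 0) : ∀ v ∈ X, c v ≠ a := ct_zero.1 (by rw [h.hx a h.dat.ha, xS, if_pos rfl, e])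

lemma exY (e : bk = 0) {v : V} (hv : v ∈ X.erase z) :
    ∃ y ∉ ((Out c a \ Y : Finset V) : Set V),
      Function.update c z a y = Function.update c z a v := by
  have a1 := (h.dat.ad (c v) (mem_erase.2 ⟨h.Xa e v (mem_of_mem_erase hv),
    mem_Icc.2 ⟨Nat.one_le_iff_ne_zero.2 (h.lab hv), h.ok.le v⟩⟩)).1
  rw [e] at a1
  obtain ⟨y, hy, ey⟩ := ct_pos.1 a1
  exact ⟨y, fun b => (mem_sdiff.1 b).2 hy, by rw [h.upd (h.ok.hS y hy), h.upd (h.lab hv), ey]⟩

lemma famB {t : ℕ} (two : ∀ i ∈ Icc 1 r, 2 ≤ cn c i) (h0 : cp = 0) (ht : bk = 0 ↔ t = 0) :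
    FamB r t (Tg c ⊥ z Y w X) (Function.update c z a) := by
  have a0 : a ≠ 0 := by have := mem_Icc.1 h.dat.ha; omega
  have p : ∀ i ∈ Icc 1 r, pc (Function.update c z a) X i = 1 := fun i hi => by
    rw [pc_ct, ct_update h.ok.o0 a X (by have := mem_Icc.1 hi; omega), h.hx i hi, xS]
    have := h.bk1
    have := h.hz
    grind
  refine ⟨w, z, X, (Out c a \ Y : Finset V),
    by rw [Function.update_of_ne h.ok.ow.symm]; exact h.ok.w0, fun v hv => ?_, fun v hv => ?_,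
    fun i hi => (p i hi).ge, Or.inr (Or.inl ⟨h.mp two, by rwa [Function.update_self], p,
      fun e => ?_, fun e => ?_⟩)⟩
  · by_cases e : v = z
    · rwa [e, Function.update_self]
    · rw [Function.update_of_ne e]; exact (h.ok.hX v hv).resolve_right e
  · have := mem_Out.1 (mem_sdiff.1 hv).1
    rwa [h.upd this.1, Function.update_self]
  · have e0 := ht.2 e
    refine ⟨h.hz.2 e0, ?_⟩
    rcases h.kd with ⟨-, -, -, b⟩ | ⟨b, -⟩ | ⟨-, -, b, -⟩
    · obtain ⟨b, hb⟩ := card_eq_one.1 b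
      refine ⟨b, ?_, h.exY e0 (mem_sdiff.1 (hb ▸ mem_singleton_self b)).1⟩
      rw [← coe_singleton, ← hb]
      ext v
      simp only [Set.mem_inter_iff, mem_coe, mem_sdiff, mem_Out, mem_erase]
      have := h.ok.hX v
      have := h.ok.o0
      have := h.Xa e0 v
      grind
    · omega
    · omega
  · have e0 : bk ≠ 0 := fun b => by have := ht.1 b; omega
    refine ⟨mt h.hz.1 e0, fun v hv y hy => ?_⟩
    rcases h.kd with ⟨b, -⟩ | ⟨-, -, -, b⟩ | ⟨b, -⟩
    · omega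
    · obtain ⟨b1, b2⟩ := mem_sdiff.1 hv.2
      have b3 := mem_Out.1 b1
      rw [h.upd b3.1] at hy
      have yz : y ≠ z := fun e => b3.2 (by rw [← hy, e, Function.update_self])
      rw [Function.update_of_ne yz] at hy
      exact mem_coe.2 (mem_sdiff.2 ⟨mem_Out.2 (hy ▸ b3),
        fun e => ct_zero.1 ((b v hv.1).resolve_left b2) y e hy⟩)
    · omega

end SD

lemma SD.three {c : V → ℕ} {z w : V} {Y X : Finset V} {a : ℕ} (h : SD 3 0 0 1 c z w Y X a) :
    ∃ p q, X = {z, p, q} ∧ c p ≠ c q ∧ p ∈ X.erase z ∧ q ∈ X.erase z := by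
  have a1 := h.card_er'
  obtain ⟨p, q, pq, e⟩ := card_eq_two.1 (show (X.erase z).card = 2 by omega)
  have hp : p ∈ X.erase z := e ▸ mem_insert_self _ _
  have hq : q ∈ X.erase z := e ▸ mem_insert_of_mem (mem_singleton_self _)
  refine ⟨p, q, by rw [← e, insert_erase (h.hz.2 rfl)], fun b => pq (ct_uniq ?_ hq hp b), hp, hq⟩
  rw [h.ct_er (mem_Icc.2 ⟨Nat.one_le_iff_ne_zero.2 (h.lab hq), h.ok.le q⟩)]
  exact xS_le (Nat.zero_le _) _ _

lemma SD.famW {c : V → ℕ} {z w : V} {Y X : Finset V} {a : ℕ} (h : SD 3 0 0 1 c z w Y X a)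
    (two : ∀ i ∈ Icc 1 3, 2 ≤ cn c i) : FamW (Tg c ⊥ z Y w X) (Function.update c z a) := by
  obtain ⟨p, q, e, pq, hp, hq⟩ := h.three
  have a0 : a ≠ 0 := by have := mem_Icc.1 h.dat.ha; omega
  have k : ∀ v ∈ X.erase z, v ∈ ((Out c a \ Y : Finset V) : Set V) := fun v hv => by
    rcases h.kd with ⟨-, b, -⟩ | ⟨b, -⟩ | ⟨-, -, -, b⟩
    · omega
    · omega
    · exact mem_coe.2 (mem_sdiff.2 ⟨mem_Out.2 ⟨h.lab hv, h.Xa rfl v (mem_of_mem_erase hv)⟩,
        b v (mem_of_mem_erase hv)⟩)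
  have m := h.mp two
  rw [show ((X : Finset V) : Set V) = {z, p, q} by rw [e]; simp] at m
  refine ⟨w, z, p, q, (Out c a \ Y : Finset V),
    by rw [Function.update_of_ne h.ok.ow.symm]; exact h.ok.w0, by rwa [Function.update_self],
    by rw [h.upd (h.lab hp)]; exact h.lab hp, by rw [h.upd (h.lab hq)]; exact h.lab hq,
    by rwa [h.upd (h.lab hp), h.upd (h.lab hq)], fun v hv => ?_,
    Or.inl ⟨m, fun v hv => ?_, k p hp, k q hq, h.exY rfl hp, h.exY rfl hq⟩⟩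
  · have := mem_Out.1 (mem_sdiff.1 hv).1
    rw [h.upd this.1]; exact this.1
  · have := mem_Out.1 (mem_sdiff.1 hv).1
    rw [h.upd this.1, Function.update_self]; exact this.2

end Pool.Agent.P.MP_094db5_co
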