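import Pool.Agent.P.MP_094db5_co.TG1

/-! Normal forms of the members of the families. -/

set_option autoImplicit false

open Finset Classical

noncomputable section

namespace Pool.Agent.P.MP_094db5_co

variable {V : Type} [Fintype V]

/-- star form -/
def FS (r bk g₀ cp : ℕ) (G : SimpleGraph V) : Prop := ∃ c z w Y X a,
  SD r bk g₀ cp c z w Y X a ∧ G = Tg c ⊥ z Y w X ∧ ∀ i ∈ Icc 1 r, 1 ≤ cn c i

/-- pair form -/
def FP (r : ℕ) (G : SimpleGraph V) : Prop := ∃ c z b w X, POK r c z b w X ∧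
  (∀ i ∈ Icc 1 r \ {c z, c b}, 1 ≤ ct c X i) ∧ G = Pg c z b w X ∧ ∀ i ∈ Icc 1 r, 1 ≤ cn c i

/-- bounded form -/
def FB (r C : ℕ) (G : SimpleGraph V) : Prop := ∃ c z w Y X H,
  G ≤ Kc c ⊔ Sg z Y ⊔ Sg w X ∧ (∀ v, c v ≤ r) ∧ c z = 0 ∧ c w = 0 ∧ (∀ v ∈ Y, c v ≠ 0) ∧
  (∀ v ∈ X, c v ≠ 0 ∨ v = z) ∧ (z = w → X = ∅) ∧ Kc c \ H ≤ G ∧ ec H ≤ 2 ∧
  Y.card + X.card ≤ C ∧ ∀ i ∈ Icc 1 r, 1 ≤ cn c i

lemma Mp.one {G : SimpleGraph V} {r : ℕ} {c : V → ℕ} {A D : Set (Sym2 V)} (h : Mp G r c A D) :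
    ∀ i ∈ Icc 1 r, 2 ≤ cn c i := fun i hi => by rw [← cn_eq]; exact h.2.1 i hi

lemma pc_to (c : V → ℕ) (X : Set V) (i : ℕ) : pc c X i = ct c X.toFinset i := by
  rw [← pc_ct, Set.coe_toFinset]

lemma relabel {G : SimpleGraph V} {r : ℕ} {c : V → ℕ} {w z : V} {X D : Set V}
    (h : Mp G r c (spokes w X) (spokes z D)) (hw : c w = 0) (hz : c z ≠ 0) (hX : ∀ v ∈ X, c v ≠ 0)
    (hD : ∀ v ∈ D, c v ≠ 0 ∧ c v ≠ c z) : ∃ (c' : V → ℕ) (Y : Finset V),
      TgOK r c' ⊥ z Y w X.toFinset ∧ G = Tg c' ⊥ z Y w X.toFinset ∧ (∀ v, v ≠ z → c' v = c v) ∧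
      (∀ v, v ∈ Y ↔ c v ≠ 0 ∧ c v ≠ c z ∧ v ∉ D) ∧ (∀ i ∈ Icc 1 r, 1 ≤ cn c' i) ∧
      ∀ i ∈ Icc 1 r, pc c X i = ct c' X.toFinset i + if z ∈ X ∧ i = c z then 1 else 0 := by
  have wz : w ≠ z := fun e => hz (e ▸ hw)
  have e1 : ∀ v, v ≠ z → Function.update c z 0 v = c v := fun v hv => Function.update_of_ne hv _ _
  have e2 : Function.update c z 0 z = 0 := Function.update_self _ _ _
  have e3 : ∀ (X : Finset V), ∀ i ∈ Icc 1 r, ct c X i = ct (Function.update c z 0) X i +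
      if z ∈ X ∧ i = c z then 1 else 0 := fun X i hi => by
    rw [← ct_update e2 (c z) X (by have := mem_Icc.1 hi; omega), Function.update_idem,
      Function.update_eq_self]
  refine ⟨Function.update c z 0, Out c (c z) \ D.toFinset, ⟨fun v => ?_, bot_le, e2,
    by rw [e1 w wz, hw], wz.symm, fun v hv => ?_, fun v hv => ?_⟩, ?_, e1, fun v => by simp [and_assoc],
    fun i hi => ?_, fun i hi => by rw [pc_to, e3 _ i hi]; simp⟩
  · by_cases e : v = z
    · rw [e, e2]; exact Nat.zero_le _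
    · rw [e1 v e]; exact h.1 v
  · have := mem_Out.1 (mem_sdiff.1 hv).1
    rw [e1 v fun e => this.2 (e ▸ rfl)]; exact this.1
  · by_cases e : v = z
    · exact Or.inr e
    · rw [e1 v e]; exact Or.inl (hX v (Set.mem_toFinset.1 hv))
  · ext u v
    rw [Tg_adj, h.2.2, AStr_spokes, AStr_spokes]
    have b1 := hD u
    have b2 := hD v
    have b3 := hX w
    have b4 := e1 u
    have b5 := e1 v
    simp only [cross, mem_sdiff, mem_Out, SimpleGraph.bot_adj, Set.mem_toFinset]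
    grind
  · have a1 := e3 univ i hi
    have a2 := h.one i hi
    change cn c i = cn _ i + _ at a1
    split_ifs at a1 <;> omega

theorem FamB.form {G : SimpleGraph V} {r t bk g₀ : ℕ} {c : V → ℕ} (h : FamB r t G c)
    (hk : Kind r bk g₀ 0) (ht : bk = 0 ↔ t = 0) : FS r bk g₀ 0 G ∨ FP r G ∨ FB r (r * t + r) G := by
  obtain ⟨w, z, X, D, h1, h2, h3, h4, h5⟩ := h
  rcases h5 with ⟨hM, hz, b, hb, rfl, p1, p2⟩ | ⟨hM, hz, p, q0, q1⟩ | ⟨hM, -, hz, p, hD, -, q⟩
  · have zb := (h3 b rfl).2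
    refine Or.inr (Or.inl ⟨c, z, b, w, (X.toFinset.erase b).erase z, ⟨hM.1, h1, h2 z hz, h2 b hb,
      zb.symm, fun v hv => ?_⟩, fun i hi => ?_, ?_, fun i hi => (hM.one i hi).trans' one_le_two⟩)
    · simp only [mem_erase, Set.mem_toFinset] at hv
      exact ⟨h2 v hv.2.2, fun e => hv.1 (AAdm_uniq p1 hz hv.2.2 e),
        fun e => hv.2.1 (AAdm_uniq p2 hb hv.2.2 e)⟩
    · obtain ⟨v, hv, e⟩ := AAdm_ex (h4 i (mem_J.1 hi).1)
      exact ct_pos.2 ⟨v, mem_erase.2 ⟨fun a => (mem_J.1 hi).2.1 (by rw [← a, e]),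
        mem_erase.2 ⟨fun a => (mem_J.1 hi).2.2 (by rw [← a, e]), Set.mem_toFinset.2 hv⟩⟩, e⟩
    · rw [AAdm_eq1 hM, Pg, Set.toFinset_singleton]
      congr 2
      ext v
      simp only [mem_insert, mem_erase, Set.mem_toFinset]
      grind
  · obtain ⟨c', Y, ok, e, e1, e2, e3, e4⟩ := relabel hM h1 hz h2 h3
    have ha : c z ∈ Icc 1 r := mem_Icc.2 ⟨Nat.one_le_iff_ne_zero.2 hz, hM.1 z⟩
    have eY : ∀ v ∈ Y, c' v = c v := fun v hv => e1 v fun a => ((e2 v).1 hv).2.1 (a ▸ rfl)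
    have hz' : z ∈ X ↔ bk = 0 := ⟨fun a => ht.2 (by by_contra b; exact (q1 (by omega)).1 a),
      fun a => (q0 (ht.1 a)).1⟩
    refine Or.inl ⟨c', z, w, Y, X.toFinset, c z, ⟨ok, ⟨ha, ct_zero.2 fun v hv => ?_, fun i hi =>
      ⟨?_, ct_le _ _ _⟩⟩, fun i hi => ?_, by rwa [Set.mem_toFinset], ?_⟩, e, e3⟩
    · rw [eY v hv]; exact ((e2 v).1 hv).2.1
    · rcases Nat.eq_zero_or_pos bk with a | a
      · obtain ⟨-, b, a1, y, a2, a3⟩ := q0 (ht.1 a)
        obtain ⟨v, hv, ev⟩ := AAdm_ex (h4 i (mem_of_mem_erase hi))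
        have i0 := ne_of_mem_erase hi
        have i1 := h2 v hv
        rw [a]
        by_cases d : v ∈ D
        · have vb : v = b := (a1 ▸ ⟨hv, d⟩ : v ∈ ({b} : Set V))
          have hy := (e2 y).2 ⟨by rwa [a3, ← vb], by rwa [a3, ← vb, ev], a2⟩
          exact ct_pos.2 ⟨y, hy, by rw [eY y hy, a3, ← vb, ev]⟩
        · have hy := (e2 v).2 ⟨i1, by rwa [ev], d⟩
          exact ct_pos.2 ⟨v, hy, by rw [eY v hy, ev]⟩
      · omega
    · have a1 := e4 i hi
      have a2 : bk ≤ 1 := by rcases hk with e | e | e <;> omega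
      rw [p i hi] at a1
      unfold xS
      grind
    · rcases hk with a | a | a
      · obtain ⟨zX, b, a1, -⟩ := q0 (ht.1 a.1)
        refine Or.inl ⟨a.1, a.2.1, rfl, card_eq_one.2 ⟨b, ?_⟩⟩
        ext v
        have b1 : v ∈ X ∧ v ∈ D ↔ v = b := by rw [← Set.mem_inter_iff, a1]; rfl
        have b2 := AAdm_uniq (p _ ha) zX (v := v)
        have b3 := h2 v
        have b4 := h3 v
        simp only [mem_sdiff, mem_erase, Set.mem_toFinset, mem_singleton, e2]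
        grind
      · obtain ⟨zX, a1⟩ := q1 (by have := ht.2; omega)
        refine Or.inr (Or.inl ⟨a.1, a.2.1, rfl, fun v hv => or_iff_not_imp_left.2 fun b =>
          ct_zero.2 fun y hy d => ?_⟩)
        rw [Set.mem_toFinset] at hv
        rw [eY y hy, e1 v fun a => zX (a ▸ hv)] at d
        have b1 := (e2 y).1 hy
        by_cases b2 : v ∈ D
        · exact b1.2.2 (a1 v ⟨hv, b2⟩ y d)
        · exact b ((e2 v).2 ⟨h2 v hv, d ▸ b1.2.1, b2⟩)
      · omega
  · refine Or.inr (Or.inr ⟨c, w, z, X.toFinset, D.toFinset, ⊥, fun u v a => ?_, hM.1, h1, hz,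
      fun v hv => h2 v (Set.mem_toFinset.1 hv), fun v hv => Or.inl (h3 v (Set.mem_toFinset.1 hv)).1,
      fun e => ?_, fun u v a => (hM.2.2 u v).2 (Or.inl ⟨a.1.1, a.1.2.1, a.1.2.2, id⟩),
      by rw [ec_bot]; omega, ?_, fun i hi => (hM.one i hi).trans' one_le_two⟩)
    · have b1 := (hM.2.2 u v).1 a
      have b2 := a.ne
      simp only [Set.mem_union, AStr_spokes] at b1
      simp only [SimpleGraph.sup_adj, Kc, cross, Sg, Set.mem_toFinset]
      grind
    · rw [Set.toFinset_eq_empty]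
      by_contra b
      exact (q (Set.nonempty_iff_ne_empty.2 b)).1 e.symm
    · rw [Set.ncard_eq_toFinset_card'] at hD
      have a1 := sum_le_card_nsmul (Icc 1 r) (ct c X.toFinset) t fun i hi => pc_to c X i ▸ p i hi
      rw [sum_ct hM.1 fun v hv => h2 v (Set.mem_toFinset.1 hv), Nat.card_Icc, smul_eq_mul,
        add_tsub_cancel_right] at a1
      omega

lemma ec_Sg_le (z : V) (D : Finset V) : ec (Sg z D) ≤ D.card := by
  have : Sg z D = Sg z (D.erase z) := by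
    ext u v
    simp only [Sg, mem_erase]
    grind
  rw [this, ec_Sg (notMem_erase _ _)]
  exact card_erase_le

theorem FamW.form {G : SimpleGraph V} {c : V → ℕ} (h : FamW G c) : FS 3 0 0 1 G ∨ FB 3 5 G := by
  obtain ⟨w, z, a, b, D, h1, h2, h3, h4, h5, h6, h7⟩ := h
  rcases h7 with ⟨hM, p1, p2, p3, ⟨y, y1, y2⟩, y', y3, y4⟩ | ⟨w', p0, p1, hM, p2, p3, p4, p5, p6, p7⟩ |
    ⟨w', p0, p1, hM, p2, p3, p4, p5⟩
  · obtain ⟨c', Y, ok, e, e1, e2, e3, e4⟩ := relabel hM h1 h2 (by simp [h2, h3, h4])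
      fun v hv => ⟨h6 v hv, p1 v hv⟩
    have ha : c z ∈ Icc 1 3 := mem_Icc.2 ⟨by omega, hM.1 z⟩
    have eY : ∀ v ∈ Y, c' v = c v := fun v hv => e1 v fun a => ((e2 v).1 hv).2.1 (a ▸ rfl)
    have k1 := p1 a p2
    have k2 := p1 b p3
    have k : ∀ u ∈ D, ∀ y ∉ D, c y = c u → 1 ≤ ct c' Y (c u) ∧ ct c' Y (c u) + 1 ≤ cn c' (c u) :=
      fun u hu y y1 y2 => by
        have hy := (e2 y).2 ⟨y2 ▸ h6 u hu, y2 ▸ p1 u hu, y1⟩
        refine ⟨ct_pos.2 ⟨y, hy, by rw [eY y hy, y2]⟩, card_lt_card ⟨filter_subset_filter _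
          (subset_univ _), fun s => ((e2 u).1 (mem_filter.1 (s (mem_filter.2 ⟨mem_univ u,
            e1 u fun e => p1 u hu (e ▸ rfl)⟩))).1).2.2 hu⟩⟩
    have hi3 : ∀ i ∈ Icc 1 3, i = c z ∨ i = c a ∨ i = c b := fun i hi => by
      have := mem_Icc.1 hi
      have := hM.1 z
      have := hM.1 a
      have := hM.1 b
      omega
    refine Or.inl ⟨c', z, w, Y, _, c z, ⟨ok, ⟨ha, ct_zero.2 fun v hv => ?_, fun i hi => ?_⟩,
      fun i hi => ?_, by simp, Or.inr (Or.inr ⟨rfl, rfl, rfl, fun v hv d => ?_⟩)⟩, e, e3⟩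
    · rw [eY v hv]; exact ((e2 v).1 hv).2.1
    · rcases hi3 i (mem_of_mem_erase hi) with d | d | d
      · exact (ne_of_mem_erase hi d).elim
      · rw [d]; exact k a p2 y y1 y2
      · rw [d]; exact k b p3 y' y3 y4
    · have a1 := e4 i hi
      have a2 : pc c {z, a, b} i = 1 := by
        rw [pc, Set.ncard_eq_one]
        rcases hi3 i hi with d | d | d
        · exact ⟨z, by ext v; simp only [Set.mem_insert_iff, Set.mem_singleton_iff, Set.mem_ofPred_eq]; grind⟩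
        · exact ⟨a, by ext v; simp only [Set.mem_insert_iff, Set.mem_singleton_iff, Set.mem_ofPred_eq]; grind⟩
        · exact ⟨b, by ext v; simp only [Set.mem_insert_iff, Set.mem_singleton_iff, Set.mem_ofPred_eq]; grind⟩
      rw [a2] at a1
      simp only [Set.mem_insert_iff, true_or, true_and] at a1
      unfold xS
      split_ifs at a1 ⊢ <;> omega
    · have := (e2 v).1 d
      simp only [Set.mem_toFinset, Set.mem_insert_iff, Set.mem_singleton_iff] at hv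
      grind
  · rw [Set.ncard_eq_toFinset_card'] at p3
    refine Or.inr ⟨c, w', w, {a, b}, {w', a, b}, Sg z D.toFinset, fun u v d => ?_, hM.1, p1, h1,
      by simp [h3, h4], by simp [h3, h4], fun e => (p0 e).elim, fun u v d => (hM.2.2 u v).2
        (Or.inl ⟨d.1.1, d.1.2.1, d.1.2.2, fun e => d.2 ⟨d.1.ne, ?_⟩⟩), (ec_Sg_le _ _).trans p3,
      add_le_add card_le_two card_le_three, fun i hi => (hM.one i hi).trans' one_le_two⟩
    · have b1 := (hM.2.2 u v).1 d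
      have b2 := d.ne
      simp only [Set.mem_union, AStr_spokes, Set.mem_insert_iff, Set.mem_singleton_iff] at b1
      simp only [SimpleGraph.sup_adj, Kc, cross, Sg, mem_insert, mem_singleton]
      grind
    · simpa [AStr_spokes] using e
  · rw [Set.ncard_eq_toFinset_card'] at p5
    refine Or.inr ⟨c, w', w, D.toFinset, {z, a, b}, Sg z {a, b}, fun u v d => ?_, hM.1, p1, h1,
      fun v hv => h6 v (Set.mem_toFinset.1 hv), by simp [h2, h3, h4], fun e => (p0 e).elim,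
      fun u v d => (hM.2.2 u v).2 (Or.inl ⟨d.1.1, d.1.2.1, d.1.2.2, fun e => d.2 ⟨d.1.ne, ?_⟩⟩),
      (ec_Sg_le _ _).trans card_le_two, add_le_add p5 card_le_three,
      fun i hi => (hM.one i hi).trans' one_le_two⟩
    · have b1 := (hM.2.2 u v).1 d
      have b2 := d.ne
      simp only [Set.mem_union, AStr_spokes, Set.mem_insert_iff, Set.mem_singleton_iff] at b1
      simp only [SimpleGraph.sup_adj, Kc, cross, Sg, mem_insert, mem_singleton, Set.mem_toFinset]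
      grind
    · simpa [AStr_spokes] using e

section
variable {c : V → ℕ} {r : ℕ} {z b w : V} {X : Finset V}

lemma POK.mp (h : POK r c z b w X) (two : ∀ i ∈ Icc 1 r, 2 ≤ cn c i) :
    Mp (Pg c z b w X) r c (spokes w (insert z (insert b X) : Finset V)) (spokes z {b}) := by
  refine ⟨h.le, fun i hi => by rw [cn_eq]; exact two i hi, fun u v => ?_⟩
  have b1 := h.hX w
  have b2 := h.w0
  have b3 := h.z0
  have b4 := h.b0
  simp only [Pg, SimpleGraph.sup_adj, SimpleGraph.sdiff_adj, Kc, cross, Sg, AStr_spokes, mem_coe,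
    mem_insert, mem_singleton, Set.mem_singleton_iff]
  grind

lemma POK.famB (h : POK r c z b w X) (two : ∀ i ∈ Icc 1 r, 2 ≤ cn c i)
    (hx : ∀ i ∈ Icc 1 r \ {c z, c b}, 1 ≤ ct c X i) (t : ℕ) : FamB r t (Pg c z b w X) c := by
  have zb := h.zb
  have k : ∀ u, u = z ∨ u = b → pc c (insert z (insert b X) : Finset V) (c u) = 1 := fun u hu => by
    rw [pc_ct, ct, card_eq_one]
    refine ⟨u, ?_⟩
    ext v
    have := h.hX v
    simp only [mem_filter, mem_insert, mem_singleton]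
    grind
  refine ⟨w, z, (insert z (insert b X) : Finset V), {b}, h.w0, fun v hv => ?_,
    fun v hv => hv ▸ ⟨h.b0, zb.symm⟩, fun i hi => ?_,
    Or.inl ⟨h.mp two, by simp, b, by simp, rfl, k z (Or.inl rfl), k b (Or.inr rfl)⟩⟩
  · simp only [mem_coe, mem_insert] at hv
    rcases hv with e | e | e
    exacts [e ▸ h.z0, e ▸ h.b0, (h.hX v e).1]
  · by_cases p : i = c z
    · rw [p, k z (Or.inl rfl)]
    · by_cases q : i = c b
      · rw [q, k b (Or.inr rfl)]
      · rw [pc_ct]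
        exact (hx i (mem_J.2 ⟨hi, p, q⟩)).trans
          (ct_mono c ((subset_insert _ _).trans (subset_insert _ _)) i)

end

end Pool.Agent.P.MP_094db5_co
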