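import Pool.Agent.P.MP_094db5_co.TG2

/-! Realisation of numerical data by graphs. -/

set_option autoImplicit false

open Finset Classical

noncomputable section

namespace Pool.Agent.P.MP_094db5_co

lemma exists_graph (r : ℕ) (n y : ℕ → ℕ) (h : ∀ i ∈ Icc 1 r, y i ≤ n i) :
    ∃ (W : Type) (_ : Fintype W) (c : W → ℕ) (z w : W) (Y : Finset W), (∀ v, c v ≤ r) ∧ c z = 0 ∧
      c w = 0 ∧ z ≠ w ∧ (∀ i ∈ Icc 1 r, cn c i = n i) ∧ (∀ v ∈ Y, c v ≠ 0) ∧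
      ∀ i ∈ Icc 1 r, ct c Y i = y i := by
  obtain ⟨c, h1, h2, h3⟩ := ALb_label (Fin (∑ i ∈ Icc 1 r, n i + 2)) n r (by simp)
  obtain ⟨z, hz, w, hw, zw⟩ := one_lt_card.1 (show 1 < (Vp c 0).card by
    rw [card_Vp]; rw [Fintype.card_fin] at h3; omega)
  have : ∀ i, ∃ T ⊆ Vp c i, i ∈ Icc 1 r → T.card = y i := fun i => by
    by_cases hi : i ∈ Icc 1 r
    · obtain ⟨T, a, b⟩ := exists_subset_card_eq (s := Vp c i) (n := y i)
        (by rw [card_Vp, h2 i hi]; exact h i hi)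
      exact ⟨T, a, fun _ => b⟩
    · exact ⟨∅, empty_subset _, fun a => (hi a).elim⟩
  choose T T1 T2 using this
  refine ⟨_, _, c, z, w, (Icc 1 r).biUnion T, h1, mem_Vp.1 hz, mem_Vp.1 hw, zw, h2, fun v hv => ?_,
    fun i hi => ?_⟩
  · obtain ⟨i, hi, a⟩ := mem_biUnion.1 hv
    have := mem_Vp.1 (T1 i a)
    have := mem_Icc.1 hi
    omega
  · rw [← T2 i hi, ct]
    congr 1
    ext v
    simp only [mem_filter, mem_biUnion]
    exact ⟨fun ⟨⟨j, _, a⟩, e⟩ => by rwa [← e, mem_Vp.1 (T1 j a)],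
      fun a => ⟨⟨i, hi, a⟩, mem_Vp.1 (T1 i a)⟩⟩

lemma exists_tr2 {V : Type} (c : V → ℕ) (I : Finset ℕ) (P : V → Prop)
    (h : ∀ i ∈ I, ∃ v, c v = i ∧ P v) : ∃ X : Finset V, (∀ v ∈ X, c v ∈ I ∧ P v) ∧
      ∀ i, ct c X i = if i ∈ I then 1 else 0 := by
  choose f f1 f2 using h
  refine ⟨I.attach.image fun i => f i.1 i.2, fun v hv => ?_, fun i => ?_⟩
  · obtain ⟨i, -, rfl⟩ := mem_image.1 hv
    exact ⟨by rw [f1]; exact i.2, f2 _ _⟩
  · split_ifs with hi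
    · refine card_eq_one.2 ⟨f i hi, eq_singleton_iff_unique_mem.2 ⟨mem_filter.2
        ⟨mem_image.2 ⟨⟨i, hi⟩, mem_attach _ _, rfl⟩, f1 _ _⟩, fun v hv => ?_⟩⟩
      obtain ⟨⟨j, hj⟩, -, rfl⟩ := mem_image.1 (mem_filter.1 hv).1
      obtain rfl : j = i := (f1 j hj).symm.trans (mem_filter.1 hv).2
      rfl
    · refine ct_zero.2 fun v hv e => ?_
      obtain ⟨j, -, rfl⟩ := mem_image.1 hv
      exact hi (by rw [← e, f1]; exact j.2)

lemma exists_out {V : Type} [Fintype V] {c : V → ℕ} {Y : Finset V} {i : ℕ}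
    (h : ct c Y i < cn c i) : ∃ v, c v = i ∧ v ∉ Y := by
  obtain ⟨v, a, b⟩ := exists_mem_notMem_of_card_lt_card h
  exact ⟨v, (mem_filter.1 a).2, fun e => b (mem_filter.2 ⟨e, (mem_filter.1 a).2⟩)⟩

lemma exists_SD {r bk g₀ cp a : ℕ} (hk : Kind r bk g₀ cp) {n y : ℕ → ℕ}
    (two : ∀ i ∈ Icc 1 r, 2 ≤ n i) (hd : DatS r bk cp n a y)
    (hj : ∃ j ∈ (Icc 1 r).erase a, y j < n j) :
    ∃ (W : Type) (_ : Fintype W) (c : W → ℕ) (z w : W) (Y X : Finset W), SD r bk g₀ cp c z w Y X a ∧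
      (∀ i ∈ Icc 1 r, cn c i = n i) ∧ ∀ i ∈ Icc 1 r, ct c Y i = y i := by
  obtain ⟨W, iW, c, z, w, Y, h1, h2, h3, h4, h5, h6, h7⟩ := exists_graph r n y fun i hi => hd.le hi
  have d : DatS r bk cp (cn c) a (ct c Y) := ⟨hd.ha, (h7 a hd.ha).trans hd.ya, fun i hi => by
    rw [h5 i (mem_of_mem_erase hi), h7 i (mem_of_mem_erase hi)]; exact hd.ad i hi⟩
  have ins : bk = 0 → ∀ X : Finset W, (∀ v ∈ X, c v ∈ (Icc 1 r).erase a) →
      (∀ i, ct c X i = if i ∈ (Icc 1 r).erase a then 1 else 0) → z ∉ X ∧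
      TgOK r c ⊥ z Y w (insert z X) ∧ ∀ i ∈ Icc 1 r, ct c (insert z X) i = xS bk a i := by
    intro e X x1 x2
    have x3 : ∀ v ∈ X, c v ≠ 0 := fun v hv => by
      have := mem_Icc.1 (mem_of_mem_erase (x1 v hv)); omega
    refine ⟨fun b => x3 z b h2, ⟨h1, bot_le, h2, h3, h4, h6, fun v hv => ?_⟩, fun i hi => ?_⟩
    · exact (mem_insert.1 hv).elim Or.inr fun b => Or.inl (x3 v b)
    · rw [ct, filter_insert, if_neg (by have := mem_Icc.1 hi; omega), ← ct, x2, xS, e]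
      simp only [mem_erase, hi, and_true, ite_not]
  refine ⟨W, iW, c, z, w, Y, ?_⟩
  rcases hk with e | e | e
  · obtain ⟨j, hj, b⟩ := hj
    obtain ⟨X, x1, x2⟩ := exists_tr2 c ((Icc 1 r).erase a) (fun v => v ∈ Y ↔ c v ≠ j)
      fun i hi => by
        by_cases p : i = j
        · obtain ⟨v, v1, v2⟩ := exists_out (c := c) (Y := Y) (i := j) (by
            rwa [h5 j (mem_of_mem_erase hj), h7 j (mem_of_mem_erase hj)])
          exact ⟨v, v1.trans p.symm, iff_of_false v2 fun q => q v1⟩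
        · obtain ⟨v, v1, v2⟩ := ct_pos.1 (show 1 ≤ ct c Y i by have := d.ad i hi; omega)
          exact ⟨v, v2, iff_of_true v1 (v2 ▸ p)⟩
    obtain ⟨k1, k2, k3⟩ := ins e.1 X (fun v hv => (x1 v hv).1) x2
    refine ⟨_, ⟨k2, d, k3, by simp [e.1], Or.inl ⟨e.1, e.2.1, e.2.2, ?_⟩⟩, h5, h7⟩
    have := x2 j
    rw [if_pos hj] at this
    rw [erase_insert k1, ← this, ct]
    congr 1
    ext v
    have := x1 v
    simp only [mem_sdiff, mem_filter]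
    grind
  · obtain ⟨X, x1, x2⟩ := exists_tr2 c (Icc 1 r) (fun v => v ∈ Y ∨ ct c Y (c v) = 0)
      fun i hi => by
        rcases Nat.eq_zero_or_pos (ct c Y i) with p | p
        · obtain ⟨v, v1, -⟩ := exists_out (c := c) (Y := Y) (i := i) (by
            have := two i hi; rw [h5 i hi]; omega)
          exact ⟨v, v1, Or.inr (v1 ▸ p)⟩
        · obtain ⟨v, v1, v2⟩ := ct_pos.1 p
          exact ⟨v, v2, Or.inl v1⟩
    have x3 : ∀ v ∈ X, c v ≠ 0 := fun v hv => by have := mem_Icc.1 (x1 v hv).1; omega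
    exact ⟨X, ⟨⟨h1, bot_le, h2, h3, h4, h6, fun v hv => Or.inl (x3 v hv)⟩, d,
      fun i hi => by rw [x2, if_pos hi, e.1, xS, ite_self],
      iff_of_false (fun b => x3 z b h2) (by omega),
      Or.inr (Or.inl ⟨e.1, e.2.1, e.2.2, fun v hv => (x1 v hv).2⟩)⟩, h5, h7⟩
  · obtain ⟨X, x1, x2⟩ := exists_tr2 c ((Icc 1 r).erase a) (fun v => v ∉ Y)
      fun i hi => exists_out (by have := d.ad i hi; omega)
    obtain ⟨-, k2, k3⟩ := ins e.1 X (fun v hv => (x1 v hv).1) x2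
    refine ⟨_, ⟨k2, d, k3, by simp [e.1], Or.inr (Or.inr ⟨e.1, e.2.1, e.2.2, fun v hv => ?_⟩)⟩, h5, h7⟩
    rcases mem_insert.1 hv with b | b
    · exact fun q => h6 v q (b ▸ h2)
    · exact (x1 v b).2

lemma eK2_congr {r : ℕ} {n n' : ℕ → ℕ} (h : ∀ i ∈ Icc 1 r, n i = n' i) : eK2 r n = eK2 r n' := by
  unfold eK2
  rw [sum_congr rfl fun i hi => by rw [h i hi],
    sum_congr rfl (f := fun i => (n i : ℝ) ^ 2) fun i hi => by rw [h i hi]]

lemma PhK_congr {r : ℕ} {n n' y y' : ℕ → ℕ} (hn : ∀ i ∈ Icc 1 r, n i = n' i)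
    (hy : ∀ i ∈ Icc 1 r, y i = y' i) (μ : ℝ) (bk g₀ a : ℕ) (α β : ℝ) :
    PhK r μ bk g₀ n a y α β = PhK r μ bk g₀ n' a y' α β := by
  unfold PhK gS
  rw [sum_congr rfl fun i hi => by rw [hy i hi]]
  exact PhS_congr hn hy (fun _ _ => rfl) _ _ _ _ _

/-- the graphs of the star type are admissible -/
def GoodS {α : Type} (F : SimpleGraph α) (r bk g₀ cp : ℕ) : Prop :=
  ∀ (V : Type) [Fintype V] (c : V → ℕ) (z w : V) (Y X : Finset V) (a : ℕ),
    SD r bk g₀ cp c z w Y X a → (∀ i ∈ Icc 1 r, 2 ≤ cn c i) →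
      F.Free (Tg c ⊥ z Y w X) ∧ ¬ (Tg c ⊥ z Y w X).Colorable r

/-- the graphs of the pair type are admissible -/
def GoodP {α : Type} (F : SimpleGraph α) (r : ℕ) : Prop :=
  ∀ (V : Type) [Fintype V] (c : V → ℕ) (z b w : V) (X : Finset V), POK r c z b w X →
    (∀ i ∈ Icc 1 r, 2 ≤ cn c i) → (∀ i ∈ Icc 1 r \ {c z, c b}, 1 ≤ ct c X i) →
      F.Free (Pg c z b w X) ∧ ¬ (Pg c z b w X).Colorable r

theorem orS {α : Type} {F : SimpleGraph α} {r bk g₀ cp m : ℕ} (hk : Kind r bk g₀ cp)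
    (hg : GoodS F r bk g₀ cp) {μ : ℝ} (μ0 : 0 < μ)
    (hm : ∀ (W : Type) [Fintype W] (H : SimpleGraph W), InN F r m H → lam H ≤ μ) :
    OrS r bk g₀ cp μ (2 * m) := by
  intro n a y two hd hj he α β
  obtain ⟨W, _, c, z, w, Y, X, h, h1, h2⟩ := exists_SD hk two hd hj
  have a1 := h.ec_eq
  rw [eK2_congr h1, sum_congr rfl fun i hi => by rw [h2 i hi], he] at a1
  by_contra hn
  have a2 := (lowerS h.ok μ0 α β).1 (by rw [h.PhS_eq, PhK_congr h1 h2]; exact not_le.1 hn)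
  exact a2.not_ge (hm _ _ ⟨by exact_mod_cast (by linarith : (ec (Tg c ⊥ z Y w X) : ℝ) = m),
    hg _ c z w Y X a h fun i hi => h1 i hi ▸ two i hi⟩)

lemma POK.sumX {V : Type} [Fintype V] {c : V → ℕ} {r : ℕ} {z b w : V} {X : Finset V}
    (h : POK r c z b w X) : ∑ i ∈ Icc 1 r \ {c z, c b}, (ct c X i : ℝ) = X.card := by
  rw [← sum_ct h.le fun v hv => (h.hX v hv).1, Nat.cast_sum, h.split,
    ct_zero.2 fun v hv => (h.hX v hv).2.1, ct_zero.2 fun v hv => (h.hX v hv).2.2]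
  simp

lemma POK.ec2 {V : Type} [Fintype V] {c : V → ℕ} {r : ℕ} {z b w : V} {X : Finset V}
    (h : POK r c z b w X) : 2 * (ec (Pg c z b w X) : ℝ) =
      eK2 r (cn c) + 2 * ∑ i ∈ Icc 1 r \ {c z, c b}, (ct c X i : ℝ) + 2 := by
  rw [h.ec_eq, h.sumX, ← Mo_Kc' h.le]
  push_cast
  ring

theorem orP {α : Type} {F : SimpleGraph α} {r m : ℕ} (hg : GoodP F r) {μ : ℝ} (μ0 : 0 < μ)
    (hm : ∀ (W : Type) [Fintype W] (H : SimpleGraph W), InN F r m H → lam H ≤ μ) :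
    OrP r μ (2 * m) := by
  intro n a b x two ha hb ab hx he α γ β
  obtain ⟨W, _, c, -, w, X, h1, -, h3, -, h5, h6, h7⟩ := exists_graph r n
    (fun i => if i ∈ Icc 1 r \ {a, b} then x i else 0) fun i _ => by
      split_ifs with e
      exacts [(hx i e).2, Nat.zero_le _]
  have ex : ∀ i ∈ Icc 1 r, ∃ v, c v = i := fun i hi => by
    obtain ⟨v, hv⟩ := card_pos.1 (show 0 < (Vp c i).card by
      have := two i hi; rw [card_Vp, h5 i hi]; omega)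
    exact ⟨v, mem_Vp.1 hv⟩
  obtain ⟨z, rfl⟩ := ex a ha
  obtain ⟨b, rfl⟩ := ex b hb
  have h8 : ∀ i ∈ Icc 1 r \ {c z, c b}, ct c X i = x i := fun i hi => by
    rw [h7 i (mem_J.1 hi).1, if_pos hi]
  have h : POK r c z b w X := ⟨h1, h3, by have := mem_Icc.1 ha; omega, by have := mem_Icc.1 hb; omega,
    ab, fun v hv => ⟨h6 v hv,
      ct_zero.1 (by rw [h7 _ ha, if_neg fun e => (mem_J.1 e).2.1 rfl]) v hv,
      ct_zero.1 (by rw [h7 _ hb, if_neg fun e => (mem_J.1 e).2.2 rfl]) v hv⟩⟩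
  have a1 := h.ec2
  rw [eK2_congr h5, sum_congr rfl fun i hi => by rw [h8 i hi], he] at a1
  by_contra hn
  have a2 := (lowerP h μ0 α γ β).1 (by
    refine (not_le.1 hn).trans_eq ?_
    unfold PhP
    rw [h5 _ ha, h5 _ hb, sum_congr rfl (f := fun i => (ct c X i : ℝ)) fun i hi => by rw [h8 i hi],
      sum_congr rfl (f := fun i => ph1 μ (cn c i) (ct c X i * β)) fun i hi => by
        rw [h8 i hi, h5 i (mem_J.1 hi).1]])
  exact a2.not_ge (hm _ _ ⟨by exact_mod_cast (by linarith : (ec (Pg c z b w X) : ℝ) = m),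
    hg _ c z b w X h (fun i hi => h5 i hi ▸ two i hi) fun i hi => h8 i hi ▸ (hx i hi).1⟩)

end Pool.Agent.P.MP_094db5_co
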