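import Pool.Agent.P.MP_094db5_co.TG3

/-! Extremal graphs in the Turan range. -/

set_option autoImplicit false

open Finset Classical

noncomputable section

namespace Pool.Agent.P.MP_094db5_co

variable {V : Type} [Fintype V]

/-- the context of an extremal graph in the Turan range -/
structure Ext (r N k bk g₀ cp : ℕ) (ε δ δ' ν : ℝ) (G : SimpleGraph V) : Prop where
  r3 : 3 ≤ r
  hN : ν = N / r
  δ0 : 0 < δ
  δ1 : 1000 * (r : ℝ) ^ 2 * δ ≤ 1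
  d0 : 0 < δ'
  d1 : δ' ≤ δ
  d2 : 51 * (r : ℝ) ≤ δ' ^ 2 * ν
  ε1 : 200 * (r : ℝ) ^ 2 * δ' ≤ ε
  apr : Apr r (δ / (30 * r ^ 2)) G
  big : 1 ≤ δ / (30 * r ^ 2) * ν
  hk : (k : ℝ) ≤ (th2 r - ε) * ν
  rk : 2 * r ≤ k + 1
  he : 2 * (ec G : ℝ) = tu2 r N + 2 * k
  kind : Kind r bk g₀ cp
  or : OrS r bk g₀ cp (lam G) (tu2 r N + 2 * k)

lemma ec_le3 {G : SimpleGraph V} {c : V → ℕ} {r : ℕ} (hc : ∀ v, c v ≤ r) {z w : V} {Y X : Finset V}
    (h : G ≤ Kc c ⊔ Sg z Y ⊔ Sg w X) : 2 * (ec G : ℝ) ≤ eK2 r (cn c) + 2 * (Y.card + X.card) := by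
  have a1 : ∀ H K : SimpleGraph V, ec (H ⊔ K) ≤ ec H + ec K := fun H K => by
    unfold ec
    rw [SimpleGraph.edgeSet_sup]
    exact Set.ncard_union_le _ _
  have a2 : ec G ≤ ec (Kc c) + Y.card + X.card := (ec_mono h).trans ((a1 _ _).trans
    (add_le_add ((a1 _ _).trans (add_le_add le_rfl (ec_Sg_le _ _))) (ec_Sg_le _ _)))
  have a3 : (ec G : ℝ) ≤ ec (Kc c) + Y.card + X.card := by exact_mod_cast a2
  linarith [Mo_Kc' hc]

namespace Ext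

variable {r N k bk g₀ cp : ℕ} {ε δ δ' ν : ℝ} {G : SimpleGraph V}
  (h : Ext r N k bk g₀ cp ε δ δ' ν G)
include h

lemma R3 : (3 : ℝ) ≤ r := by exact_mod_cast h.r3

lemma η0 : 0 < δ / (30 * r ^ 2) := by have := h.R3; have := h.δ0; positivity

lemma ηδ : 30 * r ^ 2 * (δ / (30 * r ^ 2)) = δ := by have := h.R3; field_simp

lemma η1 : 100 * (δ / (30 * r ^ 2)) ≤ 1 := by
  have a1 : (9 : ℝ) ≤ r ^ 2 := by nlinarith [h.R3]
  nlinarith [h.ηδ, mul_le_mul_of_nonneg_right a1 h.η0.le, mul_le_mul_of_nonneg_right a1 h.δ0.le, h.δ1]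

lemma ν0 : 0 < ν := by
  by_contra hn
  nlinarith [h.big, h.η0]

lemma hk' : (k : ℝ) ≤ th2 r * ν := by
  have : 0 ≤ ε := le_trans (by have := h.d0; positivity) h.ε1
  linarith [h.hk, mul_nonneg this h.ν0.le]

lemma near : (1 - 5 * (δ / (30 * r ^ 2))) * ((r - 1) * ν) ≤ lam G ∧
    lam G ≤ (1 + 3 * (δ / (30 * r ^ 2))) * ((r - 1) * ν) ∧
      r * (r - 1) * ((1 - δ / (30 * r ^ 2)) * ν) ^ 2 ≤ 2 * ec G := by
  refine h.apr.near h.r3 h.η0 h.η1 h.hN h.big (h.hk'.trans ?_) h.he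
  refine mul_le_mul_of_nonneg_right ?_ h.ν0.le
  rw [th2, div_le_iff₀ (by linarith [h.R3])]
  nlinarith [h.R3]

lemma rg : Rg r δ ν (lam G) := by
  have a1 := h.near
  have a2 := h.ηδ
  have a3 := h.big
  have a4 := mul_pos h.η0 h.ν0
  have R3 := h.R3
  generalize δ / (30 * r ^ 2) = η at *
  have a5 : δ * ν = 30 * r ^ 2 * (η * ν) := by rw [← a2]; ring
  have a6 := mul_le_mul_of_nonneg_right (show 5 * (r - 1 : ℝ) ≤ 30 * r ^ 2 by nlinarith) a4.le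
  refine ⟨h.r3, h.δ0, h.δ1, by nlinarith, abs_le.2 ⟨by linarith [a1.1], ?_⟩⟩
  linarith [a1.2.1, mul_pos (show (0 : ℝ) < r - 1 by linarith) a4]

lemma deg {c : V → ℕ} (hc : ∀ v, c v ≤ r) {H : SimpleGraph V} (h1 : Kc c \ H ≤ G) (h2 : ec H ≤ 2)
    (h3 : ∀ i ∈ Icc 1 r, 1 ≤ cn c i) : ∀ i ∈ Icc 1 r, ∑ j ∈ (Icc 1 r).erase i, (cn c j : ℝ) ≤
      (1 + 9 * (δ / (30 * r ^ 2))) * ((r - 1) * ν) := by
  intro i hi
  obtain ⟨v, hv⟩ := card_pos.1 (h3 i hi)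
  obtain rfl : c v = i := (mem_filter.1 hv).2
  have a1 : dg (Kc c) v ≤ dg G v + dg H v := by
    rw [dg, dg, dg, ← sum_add_distrib]
    refine sum_le_sum fun u _ => ?_
    have b1 := ad_nonneg G v u
    have b2 := ad_nonneg H v u
    by_cases a : (Kc c).Adj v u
    · by_cases b : H.Adj v u
      · linarith [ad_le_one (Kc c) v u, show ad H v u = 1 from if_pos b]
      · linarith [ad_le_one (Kc c) v u, show ad G v u = 1 from if_pos (h1 ⟨a, b⟩)]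
    · linarith [show ad (Kc c) v u = 0 from if_neg a]
  have a2 : dg H v ≤ 2 := by
    rw [dg, sum_ad, ← AHa_deg]
    exact_mod_cast (ec_mono (Sg_le fun u hu => by simpa using hu)).trans h2
  have a3 := h.apr.deg v
  have a4 := h.apr.big
  have a5 := h.near.2.1
  have a6 := h.η0
  have a7 := h.η1
  have a8 := mul_pos (show (0 : ℝ) < r - 1 by linarith [h.R3]) h.ν0
  rw [← dg_Kc hc (by have := mem_Icc.1 hi; omega)]
  generalize δ / (30 * r ^ 2) = η at *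
  have a9 := mul_le_mul_of_nonneg_left a5 (show 0 ≤ 1 + 5 * η by linarith)
  nlinarith [mul_le_mul_of_nonneg_right a7 (mul_pos a6 a8).le, mul_pos a6 a8]

lemma cl {n : ℕ → ℕ} (h1 : ∀ i ∈ Icc 1 r, ∑ j ∈ (Icc 1 r).erase i, (n j : ℝ) ≤
      (1 + 9 * (δ / (30 * r ^ 2))) * ((r - 1) * ν))
    (h2 : 2 * (ec G : ℝ) ≤ eK2 r n + 6 * ((r - 1) * ν)) : ∀ i ∈ Icc 1 r, Cl δ ν (n i) := by
  have a1 := sizes h.r3 h.η0 h.η1 h.ν0 h1 (by
    have a1 := h.near.2.2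
    have a3 := h.big
    have a6 := h.η0
    have R3 := h.R3
    have a8 := mul_pos (show (0 : ℝ) < r - 1 by linarith) h.ν0
    generalize δ / (30 * r ^ 2) = η at *
    have b1 := mul_le_mul_of_nonneg_left a3 a8.le
    have b2 := mul_le_mul_of_nonneg_right R3 (mul_pos a8 (mul_pos a6 h.ν0)).le
    have b3 : 0 ≤ r * (r - 1) * (η * ν) ^ 2 := mul_nonneg (by nlinarith) (sq_nonneg _)
    linarith [mul_pos a8 (mul_pos a6 h.ν0)])
  rwa [h.ηδ] at a1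

lemma erase_le {n : ℕ → ℕ} (h1 : ∀ i ∈ Icc 1 r, ∑ j ∈ (Icc 1 r).erase i, (n j : ℝ) ≤
      (1 + 9 * (δ / (30 * r ^ 2))) * ((r - 1) * ν)) {i : ℕ} (hi : i ∈ Icc 1 r) :
    ∑ j ∈ (Icc 1 r).erase i, (n j : ℝ) ≤ 2 * ((r - 1) * ν) :=
  (h1 i hi).trans (mul_le_mul_of_nonneg_right (by linarith [h.η1])
    (mul_pos (show (0 : ℝ) < r - 1 by linarith [h.R3]) h.ν0).le)

lemma cp1 : cp ≤ 1 := by rcases h.kind with e | e | e <;> omega

lemma l2 : 2 < lam G := by linarith [h.rg.μ5]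

lemma rν : 3 * (r : ℝ) ≤ (r - 1) * ν := by nlinarith [h.rg.ν1, h.R3]

lemma glob {n y x : ℕ → ℕ} (hn : ∀ i ∈ Icc 1 r, Cl δ ν (n i)) (hs : N ≤ ∑ i ∈ Icc 1 r, n i)
    {g e α β C : ℝ} (a0 : 0 ≤ α) (b0 : 0 ≤ β) (g0 : 0 ≤ g) (g1 : g ≤ C) (e1 : e ≤ 1)
    (C1 : C ≤ δ' * ν ∨ C ≤ 2 * r) (hx : ∑ i ∈ Icc 1 r, (x i : ℝ) ≤ C)
    (hy : ∀ d, Rg r d ν (lam G) → (∀ i ∈ Icc 1 r, Cl d ν (n i)) →
      ∑ i ∈ Icc 1 r, (y i : ℝ) ≤ (r - 1) * (1 + 2 * d) * ν)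
    (he : eK2 r n + 2 * ∑ i ∈ Icc 1 r, (y i : ℝ) ≤ tu2 r N + 2 * k + 2 * C)
    (up : 1 ≤ PhS r (lam G) n y x g e α β) :
    ∑ i ∈ Icc 1 r, n i = N ∧ ∑ i ∈ Icc 1 r, (y i : ℝ) ≤ th2 r * ν ∧
      Rg r (50 * r / ν) ν (lam G) := by
  have rg := h.rg
  have R3 := h.R3
  have ν0 := h.ν0
  have d0 := h.d0
  have d3 : δ' ≤ 1 := by linarith [h.d1, rg.δ3]
  have d4 : 51 * r ≤ δ' * ν := h.d2.trans (by
    rw [sq, mul_assoc]; exact mul_le_of_le_one_left (by positivity) d3)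
  have C2 : C ≤ δ' * ν := C1.elim id fun a => by linarith
  have d5 : 1000 * (r : ℝ) ^ 2 * δ' ≤ 1 :=
    (mul_le_mul_of_nonneg_left h.d1 (by positivity)).trans h.δ1
  obtain ⟨T, hT, c⟩ := rg.cand h.hN h.cp1 h.hk' h.rk h.or
  obtain ⟨b1, b2⟩ := rg.boot h.hN (h.hk'.trans rg.th2_le) hT
    ((le_add_of_nonneg_right (div_nonneg (sq_nonneg _) rg.μ0.le)).trans c) hn hs a0 b0 g0 g1 e1
    (C2.trans (mul_le_mul_of_nonneg_right h.d1 ν0.le)) hx (hy δ rg hn) he up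
  have rg' : Rg r δ' ν (lam G) := ⟨h.r3, d0, d5, by linarith, b1.trans (by linarith)⟩
  have cl' : ∀ i ∈ Icc 1 r, Cl δ' ν (n i) := fun i hi => abs_le_of_sq_le_sq ((b2 i hi).trans
    (by linarith [mul_le_mul_of_nonneg_right h.d2 ν0.le])) (by positivity)
  obtain ⟨T, hT, c⟩ := rg'.cand h.hN h.cp1 h.hk' h.rk h.or
  obtain ⟨g2, g3⟩ := rg'.global h.hN h.ε1 h.hk (by have := h.rk; have := h.r3; omega) hT c cl' hs
    a0 b0 g0 g1 e1 C2 hx (hy δ' rg' cl') he up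
  have e : 50 * r / ν * ν = 50 * r := div_mul_cancel₀ _ ν0.ne'
  refine ⟨g2, g3, h.r3, by positivity, ?_, by linarith, b1.trans (by linarith)⟩
  refine le_trans (mul_le_mul_of_nonneg_left ?_ (by positivity)) d5
  rw [div_le_iff₀ ν0]
  linarith

theorem noB {C : ℕ} (hB : FB r C G) (hC : C < k) (C1 : (C : ℝ) + 2 ≤ δ' * ν) : False := by
  obtain ⟨c, z, w, Y, X, H, h1, h2, h3, h4, h5, h6, h7, h8, h9, h10, h11⟩ := hB
  have rg := h.rg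
  have a1 := ec_le3 h2 h1
  have a2 : (Y.card : ℝ) + X.card ≤ C := by exact_mod_cast h10
  have a3 : (C : ℝ) < k := by exact_mod_cast hC
  have y0 : (0 : ℝ) ≤ Y.card := Nat.cast_nonneg _
  have x0 : (0 : ℝ) ≤ X.card := Nat.cast_nonneg _
  have C2 := C1.trans (mul_le_mul_of_nonneg_right h.d1 rg.ν0.le)
  have C3 := mul_le_mul_of_nonneg_right h.R3 rg.ν0.le
  have cl := h.cl (h.deg h2 h8 h9 h11) (by linarith [rg.δν, rg.ν0])
  have a4 : ¬ ∑ i ∈ Icc 1 r, cn c i ≤ N := fun e => by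
    have := eK2_le (a := 1) (t := 0) (mem_Icc.2 ⟨le_rfl, by have := h.r3; omega⟩) e
    simp only [Nat.cast_zero, mul_zero, zero_mul, add_zero] at this
    linarith [h.he]
  obtain ⟨α, β, a0, -, b0, -, up⟩ := upperS h1 h2 h3 h4 h5 h6 h7 h.l2
  have a5 : ∑ i ∈ Icc 1 r, (ct c Y i : ℝ) = Y.card := by exact_mod_cast sum_ct h2 h5
  have a6 : ∑ i ∈ Icc 1 r, (ct c X i : ℝ) ≤ X.card := by
    have := sum_lab h2 X fun _ => (1 : ℝ)
    simp only [sum_ind, sum_const, nsmul_eq_mul, mul_one] at this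
    linarith [Nat.cast_nonneg (α := ℝ) (X.filter fun v => c v = 0).card]
  have a7 : (ec (Kc c) : ℝ) ≤ ec G + 2 := by
    have b1 : ec (Kc c) ≤ ec (G ⊔ H) := ec_mono fun u v a => by
      by_cases b : H.Adj u v
      exacts [Or.inr b, Or.inl (h8 ⟨a, b⟩)]
    have b2 : ec (G ⊔ H) ≤ ec G + ec H := by
      unfold ec
      rw [SimpleGraph.edgeSet_sup]
      exact Set.ncard_union_le _ _
    exact_mod_cast (by omega : ec (Kc c) ≤ ec G + 2)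
  have a8 : ((X ∩ Y).card : ℝ) ≤ X.card := by exact_mod_cast card_le_card inter_subset_left
  refine a4 (h.glob (C := C + 2) cl (not_le.1 a4).le a0 b0 (Nat.cast_nonneg _) (by linarith)
    (by split_ifs <;> norm_num) (Or.inl C1) (by linarith) (fun d rd _ => ?_)
    (by linarith [Mo_Kc' h2, h.he]) up).1.le
  linarith [rg.δν, rg.ν0, mul_le_mul_of_nonneg_right h.R3 (mul_pos rd.δ0 rg.ν0).le,
    mul_pos rd.δ0 rg.ν0]

theorem star {c : V → ℕ} {z w : V} {Y X : Finset V} {a : ℕ} (s : SD r bk g₀ cp c z w Y X a)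
    (e : G = Tg c ⊥ z Y w X) (h1 : ∀ i ∈ Icc 1 r, 1 ≤ cn c i) : ∃ a' α β,
      SD r bk g₀ cp c z w Y X a' ∧ Bal r N (cn c) ∧ (∀ i ∈ Icc 1 r, cn c i ≤ cn c a') ∧
      Gr ((Icc 1 r).erase a') (1 - bk) cp (cn c) (ct c Y) ∧
      OptS r bk g₀ cp (50 * r / ν) ν (lam G) (tu2 r N + 2 * k) (cn c) a' (ct c Y) α β := by
  have rg := h.rg
  have R3 := h.R3
  have a1 := s.ec_eq
  rw [← e] at a1
  have a2 : ∑ i ∈ Icc 1 r, (ct c Y i : ℝ) ≤ ∑ i ∈ (Icc 1 r).erase a, (cn c i : ℝ) := by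
    rw [s.dat.sum_eq]
    exact sum_le_sum fun i _ => by exact_mod_cast ct_le c Y i
  have dg := h.deg s.ok.le (H := ⊥) (e ▸ le_sup_left.trans le_sup_left) (by rw [ec_bot]; omega) h1
  have cl := h.cl dg (by linarith [h.erase_le dg s.dat.ha, h.rν])
  have rk : (2 * r : ℝ) ≤ k + 1 := by exact_mod_cast h.rk
  have a4 : N ≤ ∑ i ∈ Icc 1 r, cn c i := by
    by_contra hn
    have := eK2_le (t := 1) s.dat.ha (show ∑ i ∈ Icc 1 r, cn c i + 1 ≤ N by omega)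
    push_cast at this
    linarith [h.he]
  obtain ⟨α, β, a0, a3, b0, b1, up⟩ := upperS (G := G) (c := c) (z := z) (w := w) (Y := Y) (X := X)
    (by rw [e, Tg, sdiff_bot]) s.ok.le s.ok.o0 s.ok.w0 s.ok.hS s.ok.hX
    (fun e => (s.ok.ow e).elim) h.l2
  rw [s.PhS_eq] at up
  rw [s.card] at b1
  have g1 : g₀ ≤ r := by rcases h.kind with e | e | e <;> omega
  have a5 : ∑ i ∈ Icc 1 r, (xS bk a i : ℝ) ≤ 2 * r := by
    have := sum_xS s.dat.ha bk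
    have := s.bk1
    exact_mod_cast (by omega : ∑ i ∈ Icc 1 r, xS bk a i ≤ 2 * r)
  obtain ⟨g2, g3, g4⟩ := h.glob (C := 2 * r) cl a4 a0 b0 (gS_le s.bk1 g1 _).1 (gS_le s.bk1 g1 _).2
    (by linarith [Nat.cast_nonneg (α := ℝ) bk]) (Or.inr le_rfl) a5 (fun d rd cl => by
      have := rd.sum_erase_le cl s.dat.ha
      nlinarith [mul_pos rd.δ0 rg.ν0]) (by linarith [h.he]) up
  have o : OptS r bk g₀ cp δ ν (lam G) (tu2 r N + 2 * k) (cn c) a (ct c Y) α β :=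
    ⟨rg, s.bk1, h.cp1, g1, h.or, cl, s.dat, by linarith [h.he], a0, a3, b0, b1, up,
      h.or _ _ _ (rg.two_le cl) s.dat (rg.room cl s.dat.ha (by rw [← s.dat.sum_eq]; linarith))
        (by linarith [h.he])⟩
  have hb := o.bal rfl h.rk g2 g3
  have d1 : 1 ≤ ∑ i ∈ Icc 1 r, (ct c Y i : ℝ) := by linarith [hb.eK2, h.he]
  obtain ⟨a', o', t, t'⟩ := o.largest hb g3 d1
  refine ⟨a', α, β, ⟨s.ok, o'.dat, fun i hi => ?_, s.hz, s.kd⟩, hb, t, o'.greedy g3 d1,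
    { o' with rg := g4, cl := fun i hi => g4.cl_of_bal h.hN hb hi }⟩
  rw [s.hx i hi]
  rcases t' with e | e
  · rw [e]
  · simp [e, xS]

theorem pair {c : V → ℕ} {z b w : V} {X : Finset V} (s : POK r c z b w X)
    (hx : ∀ i ∈ Icc 1 r \ {c z, c b}, 1 ≤ ct c X i) (e : G = Pg c z b w X)
    (h1 : ∀ i ∈ Icc 1 r, 1 ≤ cn c i) (op : OrP r (lam G) (tu2 r N + 2 * k)) : ∃ α γ β,
      Bal r N (cn c) ∧ (∀ i ∈ Icc 1 r \ {c z, c b}, cn c i ≤ cn c (c z) ∧ cn c i ≤ cn c (c b)) ∧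
      OptP r (50 * r / ν) ν (lam G) (tu2 r N + 2 * k) (cn c) (c z) (c b) (ct c X) α γ β := by
  have rg := h.rg
  have R3 := h.R3
  have ha : c z ∈ Icc 1 r := mem_Icc.2 ⟨Nat.one_le_iff_ne_zero.2 s.z0, s.le z⟩
  have hb : c b ∈ Icc 1 r := mem_Icc.2 ⟨Nat.one_le_iff_ne_zero.2 s.b0, s.le b⟩
  have a1 := s.ec2
  rw [← e] at a1
  have a2 : ∑ i ∈ Icc 1 r \ {c z, c b}, (ct c X i : ℝ) ≤ ∑ i ∈ (Icc 1 r).erase (c z), (cn c i : ℝ) := by
    rw [sum_er (mem_erase.2 ⟨s.zb.symm, hb⟩)]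
    exact le_add_of_le_of_nonneg (sum_le_sum fun i _ => by exact_mod_cast ct_le c X i)
      (Nat.cast_nonneg _)
  have dg := h.deg s.le (H := Sg z {b}) (e ▸ le_sup_left)
    ((ec_Sg_le _ _).trans (by simp)) h1
  have cl := h.cl dg (by linarith [h.erase_le dg ha, h.rν])
  have rk : (2 * r : ℝ) ≤ k + 1 := by exact_mod_cast h.rk
  have a4 : N ≤ ∑ i ∈ Icc 1 r, cn c i := by
    by_contra hn
    have := eK2_le (t := 1) ha (show ∑ i ∈ Icc 1 r, cn c i + 1 ≤ N by omega)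
    push_cast at this
    linarith [h.he]
  have lab : ∀ v ∈ insert z (insert b X), c v ≠ 0 := fun v hv => by
    simp only [mem_insert] at hv
    rcases hv with e | e | e
    exacts [e ▸ s.z0, e ▸ s.b0, (s.hX v e).1]
  obtain ⟨α, β, a0, -, b0, -, up⟩ := upperS (G := G) (c := c) (z := w) (w := w)
    (Y := insert z (insert b X)) (X := ∅)
    (e ▸ (sup_le_sup_right sdiff_le _).trans le_sup_left) s.le s.w0 s.w0 lab (by simp)
    (fun _ => rfl) h.l2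
  have a5 : ∑ i ∈ Icc 1 r, (ct c (insert z (insert b X)) i : ℝ) = X.card + 2 := by
    have zb : z ≠ b := fun e => s.zb (e ▸ rfl)
    have zX : z ∉ X := fun a => (s.hX z a).2.1 rfl
    have bX : b ∉ X := fun a => (s.hX b a).2.2 rfl
    rw [← Nat.cast_sum, sum_ct s.le lab, card_insert_of_notMem (by simp [zb, zX]),
      card_insert_of_notMem bX]
    push_cast
    ring
  have a6 := s.sumX
  obtain ⟨g2, g3, g5⟩ := h.glob (C := 1) cl a4 a0 b0 (Nat.cast_nonneg _) (by simp) (by simp)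
    (Or.inr (by linarith)) (by simp [ct]) (fun d rd cl => by
      have := rd.sum_erase_le cl ha
      nlinarith [mul_pos rd.δ0 rg.ν0, rd.big]) (by linarith [h.he]) up
  have l2 := h.l2
  rw [e] at l2
  obtain ⟨α, γ, β, p1, p2, p3, p4, p5, p6, p7⟩ := upperP s l2
  rw [← e] at p2 p4 p6 p7
  have o : OptP r δ ν (lam G) (tu2 r N + 2 * k) (cn c) (c z) (c b) (ct c X) α γ β :=
    ⟨rg, op, cl, ha, hb, s.zb, fun i hi => ⟨hx i hi, ct_le c X i⟩, by linarith [h.he],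
      p1, p2, p3, p4, p5, p6, p7⟩
  have g4 : ∑ i ∈ Icc 1 r \ {c z, c b}, (ct c X i : ℝ) ≤ th2 r * ν := by linarith
  have bal := o.bal rfl h.rk g2 g4
  exact ⟨α, γ, β, bal, fun i hi => ⟨o.largest bal g4 i hi,
    o.symm.largest bal (pair_comm (c z) (c b) ▸ g4) i (pair_comm (c z) (c b) ▸ hi)⟩,
    { o with rg := g5, cl := fun i hi => g5.cl_of_bal h.hN bal hi }⟩

end Ext

lemma Bal.top {r N a a₀ : ℕ} {n n₀ : ℕ → ℕ} (h : Bal r N n) (h₀ : Bal r N n₀) (ha : a ∈ Icc 1 r)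
    (ha₀ : a₀ ∈ Icc 1 r) (t : ∀ i ∈ Icc 1 r, n i ≤ n a) : n₀ a₀ ≤ n a := by
  by_contra hn
  have a1 := h.1 a ha
  have a2 := h₀.1 a₀ ha₀
  have a3 : 0 < N % r := h₀.card ▸ card_pos.2 ⟨a₀, mem_filter.2 ⟨ha₀, by omega⟩⟩
  obtain ⟨i, hi⟩ := card_pos.1 (h.card ▸ a3)
  have := t i (mem_filter.1 hi).1
  have := (mem_filter.1 hi).2
  omega

lemma Bal.second {r N a b : ℕ} {n : ℕ → ℕ} (h : Bal r N n) (ha : a ∈ Icc 1 r)
    (hb : b ∈ (Icc 1 r).erase a) (t : ∀ i ∈ Icc 1 r, n i ≤ n a)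
    (t' : ∀ i ∈ Icc 1 r \ {a, b}, n i ≤ n b) : n b = N / r + if N % r ≤ 1 then 0 else 1 := by
  split_ifs with q
  · exact h.small q ha t b hb
  · obtain ⟨i, hi, ia⟩ := exists_mem_ne (s := (Icc 1 r).filter fun i => n i = N / r + 1)
      (by rw [h.card]; omega) a
    obtain ⟨i1, i2⟩ := mem_filter.1 hi
    have := h.1 b (mem_of_mem_erase hb)
    by_cases e : i = b
    · rwa [← e]
    · have := t' i (mem_J.2 ⟨i1, ia, e⟩)
      omega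

lemma Rg.top_le {r N : ℕ} {δ ν μ : ℝ} (h : Rg r δ ν μ) (hN : ν = N / r) :
    ((N / r + 1 : ℕ) : ℝ) ≤ 51 / 100 * μ := by
  have a1 : ((N / r : ℕ) : ℝ) ≤ ν := hN ▸ Nat.cast_div_le
  push_cast
  linarith [h.μ3, h.ν1, h.R3]

theorem OptS.uniq {r bk g₀ cp N : ℕ} {δ ν μ M : ℝ} {n₀ : ℕ → ℕ} {a₀ : ℕ} {y₀ : ℕ → ℕ} {α β : ℝ}
    (h : OptS r bk g₀ cp δ ν μ M n₀ a₀ y₀ α β) (hN : ν = N / r) (b₀ : Bal r N n₀)
    (t₀ : ∀ i ∈ Icc 1 r, n₀ i ≤ n₀ a₀) {n y : ℕ → ℕ} {a : ℕ} (d : DatS r bk cp n a y) (b : Bal r N n)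
    (t : ∀ i ∈ Icc 1 r, n i ≤ n a) (g : Gr ((Icc 1 r).erase a) (1 - bk) cp n y)
    (e : eK2 r n + 2 * ∑ i ∈ Icc 1 r, (y i : ℝ) + 2 * r = M) : 1 ≤ PhK r μ bk g₀ n a y α β := by
  have μ0 := h.rg.μ0
  have e1 : n a = n₀ a₀ := le_antisymm (b₀.top b h.dat.ha d.ha t₀) (b.top b₀ d.ha h.dat.ha t)
  have e2 : ∑ i ∈ (Icc 1 r).erase a₀, y₀ i = ∑ i ∈ (Icc 1 r).erase a, y i := by
    have := h.ed
    rw [b₀.eK2, h.dat.sum_eq] at this
    rw [b.eK2, d.sum_eq] at e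
    exact_mod_cast (by push_cast; linarith : ((∑ i ∈ (Icc 1 r).erase a₀, y₀ i : ℕ) : ℝ) =
      (∑ i ∈ (Icc 1 r).erase a, y i : ℕ))
  have a1 := opt_of_gr (h := hS μ bk α β) d.ad g h.dat.ad (fun i hi => b.1 i (mem_of_mem_erase hi))
    (fun i hi => b₀.1 i (mem_of_mem_erase hi))
    (by have := card_er d.ha; have := card_er h.dat.ha; omega) (by
      have := add_sum_erase _ n d.ha
      have := add_sum_erase _ n₀ h.dat.ha
      have := b.2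
      have := b₀.2
      omega) e2
    (fun n s s' hs => by
      have a1 := hS_m1 μ0 bk h.a0 h.b0 n hs
      have a2 : (s : ℝ) ≤ s' := by exact_mod_cast hs
      have a3 : 0 ≤ 2 * (s' - s) * α ^ 2 / (μ * (μ + n)) :=
        div_nonneg (mul_nonneg (by linarith) (by positivity)) (by positivity)
      linarith)
    fun s s' hs => by
      have a1 := hS_m2 (s' := s') h.bk1 h.a0 h.a1 h.b0 h.b1 (by linarith [h.rg.R3])
        (by linarith [h.rg.μ4, h.rg.R3]) (Nat.lt_succ_self _) (h.rg.top_le hN) hs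
      have a3 : 0 ≤ α / (100 * μ ^ 2) := by have := h.a0; positivity
      linarith
  have a2 := h.up
  rw [PhK_eq h.dat.ha _ _ _ _ h.dat.ya, e2, ← e1] at a2
  rw [PhK_eq d.ha _ _ _ _ d.ya]
  linarith

theorem OptP.uniq {r N : ℕ} {δ ν μ M : ℝ} {n₀ x₀ : ℕ → ℕ} {a₀ b₀ : ℕ} {α γ β : ℝ}
    (h : OptP r δ ν μ M n₀ a₀ b₀ x₀ α γ β) (hN : ν = N / r) (l₀ : Bal r N n₀)
    (t₀ : ∀ i ∈ Icc 1 r \ {a₀, b₀}, n₀ i ≤ n₀ a₀ ∧ n₀ i ≤ n₀ b₀) {n x : ℕ → ℕ} {a b : ℕ}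
    (ha : a ∈ Icc 1 r) (hb : b ∈ Icc 1 r) (ab : a ≠ b) (d : Ad (Icc 1 r \ {a, b}) 1 0 n x)
    (l : Bal r N n) (t : ∀ i ∈ Icc 1 r \ {a, b}, n i ≤ n a ∧ n i ≤ n b)
    (g : Gr (Icc 1 r \ {a, b}) 1 0 n x)
    (e : eK2 r n + 2 * ∑ i ∈ Icc 1 r \ {a, b}, (x i : ℝ) + 2 = M) :
    ∃ α' γ', 1 ≤ PhP r μ n a b x α' γ' β := by
  wlog w₀ : n₀ b₀ ≤ n₀ a₀ generalizing a₀ b₀ α γ
  · exact this h.symm (fun i hi => (t₀ i (pair_comm a₀ b₀ ▸ hi)).symm) (not_le.1 w₀).le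
  wlog w : n b ≤ n a generalizing a b
  · obtain ⟨α', γ', p⟩ := this hb ha ab.symm (pair_comm a b ▸ d)
      (fun i hi => (t i (pair_comm a b ▸ hi)).symm) (pair_comm a b ▸ g) (pair_comm a b ▸ e)
      (not_le.1 w).le
    exact ⟨γ', α', PhP_symm r μ n b a x α' γ' β ▸ p⟩
  have tp : ∀ {n : ℕ → ℕ} {a b : ℕ}, (∀ i ∈ Icc 1 r \ {a, b}, n i ≤ n a ∧ n i ≤ n b) → n b ≤ n a →
      ∀ i ∈ Icc 1 r, n i ≤ n a := fun {n a b} t w i hi => by
    by_cases p : i = a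
    · rw [p]
    · by_cases q : i = b
      · rwa [q]
      · exact (t i (mem_J.2 ⟨hi, p, q⟩)).1
  have μ0 := h.rg.μ0
  have e1 : n a = n₀ a₀ := le_antisymm (l₀.top l h.ha ha (tp t₀ w₀)) (l.top l₀ ha h.ha (tp t w))
  have e3 : n b = n₀ b₀ :=
    (l.second ha (mem_erase.2 ⟨ab.symm, hb⟩) (tp t w) fun i hi => (t i hi).2).trans
      (l₀.second h.ha (mem_erase.2 ⟨h.ab.symm, h.hb⟩) (tp t₀ w₀) fun i hi => (t₀ i hi).2).symm
  have e2 : ∑ i ∈ Icc 1 r \ {a₀, b₀}, (x₀ i : ℝ) = ∑ i ∈ Icc 1 r \ {a, b}, (x i : ℝ) := by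
    linarith [h.ed, l₀.eK2, l.eK2]
  have a1 := opt_of_gr (h := hS μ 0 β 0) d g h.ad (fun i hi => l.1 i (mem_J.1 hi).1)
    (fun i hi => l₀.1 i (mem_J.1 hi).1)
    (by have := card_pair_sdiff ha hb ab; have := card_pair_sdiff h.ha h.hb h.ab; omega) (by
      have p1 := sum_pair_sdiff ha hb ab fun i => (n i : ℝ)
      have p2 := sum_pair_sdiff h.ha h.hb h.ab fun i => (n₀ i : ℝ)
      rw [← Nat.cast_sum, l.2, e1, e3] at p1
      rw [← Nat.cast_sum, l₀.2] at p2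
      exact_mod_cast (by push_cast; linarith : ((∑ i ∈ Icc 1 r \ {a₀, b₀}, n₀ i : ℕ) : ℝ) =
        (∑ i ∈ Icc 1 r \ {a, b}, n i : ℕ))) (by exact_mod_cast e2)
    (fun n s s' hs => by
      have a1 := hS_m1 μ0 0 h.b0 le_rfl n hs
      have a2 : (s : ℝ) ≤ s' := by exact_mod_cast hs
      have a3 : 0 ≤ 2 * (s' - s) * β ^ 2 / (μ * (μ + n)) :=
        div_nonneg (mul_nonneg (by linarith) (by positivity)) (by positivity)
      linarith)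
    fun s s' hs => by
      have a1 := hS_m2 (s' := s') (R := 1) (Nat.zero_le 1) h.b0 h.b1 le_rfl
        (by rw [mul_zero]; exact h.b0.trans h.b1) le_rfl (by linarith [h.rg.μ5])
        (Nat.lt_succ_self _) (h.rg.top_le hN) hs
      have a3 : 0 ≤ β / (100 * μ ^ 2) := by have := h.b0; positivity
      linarith
  have a2 := h.up
  refine ⟨α, γ, ?_⟩
  rw [PhP, e2, ← e1, ← e3] at a2
  rw [PhP]
  simp only [hS, Nat.cast_zero, mul_zero, zero_div, add_zero] at a1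
  linarith

end Pool.Agent.P.MP_094db5_co
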