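import Pool.Agent.P.MP_094db5_co.TG4

/-! Translation between the normal forms and the stated families. -/

set_option autoImplicit false

open Finset Classical

noncomputable section

namespace Pool.Agent.P.MP_094db5_co

variable {V : Type} [Fintype V]

lemma sz_eq (c : V → ℕ) : sz c = cn c := funext fun i => cn_eq c i

lemma turan_iff {r N : ℕ} {c : V → ℕ} : Turan r N c ↔ Bal r N (cn c) := by
  rw [Turan, sz_eq]; rfl

lemma greedy_iff {c : V → ℕ} {I : Finset ℕ} {l u : ℕ} {Y : Finset V} : Greedy c I l u Y ↔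
    (∀ v ∈ Y, c v ∈ I) ∧ Ad I l u (cn c) (ct c Y) ∧ Gr I l u (cn c) (ct c Y) := by
  simp only [Greedy, sz_eq, pc_ct, mem_coe]; rfl

/-- optimal star form -/
def OS (r bk g₀ cp : ℕ) (G : SimpleGraph V) (c : V → ℕ) : Prop := ∃ z w Y X a,
  SD r bk g₀ cp c z w Y X a ∧ G = Tg c ⊥ z Y w X ∧ (∀ i ∈ Icc 1 r, 2 ≤ cn c i) ∧
    (∀ i ∈ Icc 1 r, cn c i ≤ cn c a) ∧ Gr ((Icc 1 r).erase a) (1 - bk) cp (cn c) (ct c Y)

/-- optimal pair form -/
def OP (r : ℕ) (G : SimpleGraph V) (c : V → ℕ) : Prop := ∃ z b w X, POK r c z b w X ∧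
  G = Pg c z b w X ∧ (∀ i ∈ Icc 1 r, 2 ≤ cn c i) ∧
  (∀ i ∈ Icc 1 r \ {c z, c b}, cn c i ≤ cn c (c z) ∧ cn c i ≤ cn c (c b)) ∧
  Ad (Icc 1 r \ {c z, c b}) 1 0 (cn c) (ct c X) ∧ Gr (Icc 1 r \ {c z, c b}) 1 0 (cn c) (ct c X)

omit [Fintype V] in
lemma eq_Tg_of_mp {G : SimpleGraph V} {r : ℕ} {c : V → ℕ} {w z : V} {X Y : Finset V}
    (h : Mp G r c (spokes w X ∪ spokes z Y) ∅) : G = Tg c ⊥ z Y w X := by
  ext u v
  have h1 := h.2.2 u v
  have h2 : G.Adj u v → u ≠ v := G.ne_of_adj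
  simp only [Set.mem_union, AAdm_spokes, mem_coe, Set.mem_empty_iff_false] at h1
  simp only [Tg_adj, cross, SimpleGraph.bot_adj]
  grind

lemma SD.greedy {r bk g₀ cp : ℕ} {c : V → ℕ} {z w : V} {Y X : Finset V} {a : ℕ}
    (h : SD r bk g₀ cp c z w Y X a) (g : Gr ((Icc 1 r).erase a) (1 - bk) cp (cn c) (ct c Y)) :
    Greedy c ((Icc 1 r).erase a) (1 - bk) cp Y :=
  greedy_iff.2 ⟨fun v hv => mem_erase.2 ⟨h.Ya v hv,
    mem_Icc.2 ⟨Nat.one_le_iff_ne_zero.2 (h.ok.hS v hv), h.ok.le v⟩⟩, h.dat.ad, g⟩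

lemma SD.tr {r g₀ cp : ℕ} {c : V → ℕ} {z w : V} {Y X : Finset V} {a : ℕ}
    (h : SD r 0 g₀ cp c z w Y X a) : Tr c ((Icc 1 r).erase a) (X.erase z : Finset V) ∧
      insert z ((X.erase z : Finset V) : Set V) = X :=
  ⟨⟨fun v hv => mem_erase.2 ⟨h.Xa rfl v (mem_of_mem_erase hv),
    mem_Icc.2 ⟨Nat.one_le_iff_ne_zero.2 (h.lab hv), h.ok.le v⟩⟩, fun i hi => by
      rw [pc_ct, h.ct_er (mem_of_mem_erase hi), xS, if_neg (ne_of_mem_erase hi)]⟩,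
    by rw [← coe_insert, insert_erase (h.hz.2 rfl)]⟩

lemma os_of {G : SimpleGraph V} {r bk g₀ cp a : ℕ} {c : V → ℕ} {w z : V} {X Y : Finset V}
    (hw : c w = 0) (hz : c z = 0) (wz : w ≠ z) (ha : a ∈ Icc 1 r)
    (t : ∀ i ∈ Icc 1 r, sz c i ≤ sz c a) (g : Greedy c ((Icc 1 r).erase a) (1 - bk) cp Y)
    (m : Mp G r c (spokes w X ∪ spokes z Y) ∅) (hX : ∀ v ∈ X, c v ≠ 0 ∨ v = z)
    (hx : ∀ i ∈ Icc 1 r, ct c X i = xS bk a i) (zX : z ∈ X ↔ bk = 0)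
    (kd : (bk = 0 ∧ g₀ + 2 = r ∧ cp = 0 ∧ (X.erase z \ Y).card = 1) ∨
      (bk = 1 ∧ g₀ = 0 ∧ cp = 0 ∧ ∀ v ∈ X, v ∈ Y ∨ ct c Y (c v) = 0) ∨
      (bk = 0 ∧ g₀ = 0 ∧ cp = 1 ∧ ∀ v ∈ X, v ∉ Y)) : OS r bk g₀ cp G c := by
  obtain ⟨g1, g2, g3⟩ := greedy_iff.1 g
  rw [sz_eq] at t
  exact ⟨z, w, Y, X, a, ⟨⟨m.1, bot_le, hz, hw, wz.symm,
    fun v hv => by have := mem_Icc.1 (mem_of_mem_erase (g1 v hv)); omega, hX⟩,
    ⟨ha, ct_zero.2 fun v hv => ne_of_mem_erase (g1 v hv), g2⟩, hx, zX, kd⟩, eq_Tg_of_mp m, m.one, t, g3⟩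

omit [Fintype V] in
lemma tr_insert {r a : ℕ} {c : V → ℕ} {z : V} {X : Finset V} (hz : c z = 0)
    (h : Tr c ((Icc 1 r).erase a) X) : z ∉ X ∧ (∀ v ∈ insert z X, c v ≠ 0 ∨ v = z) ∧
      ∀ i ∈ Icc 1 r, ct c (insert z X) i = xS 0 a i := by
  have x3 : ∀ v ∈ X, c v ≠ 0 := fun v hv => by
    have := mem_Icc.1 (mem_of_mem_erase (h.1 v hv)); omega
  refine ⟨fun b => x3 z b hz, fun v hv => (mem_insert.1 hv).elim Or.inr fun b => Or.inl (x3 v b),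
    fun i hi => ?_⟩
  rw [ct, filter_insert, if_neg (by have := mem_Icc.1 hi; omega), ← ct, xS]
  split_ifs with e
  · exact ct_zero.2 fun v hv => e ▸ ne_of_mem_erase (h.1 v hv)
  · rw [← pc_ct]; exact h.2 i (mem_erase.2 ⟨e, hi⟩)

theorem starB_iff {G : SimpleGraph V} {r t bk g₀ : ℕ} {c : V → ℕ} (hk : Kind r bk g₀ 0)
    (ht : bk = 0 ↔ t = 0) : StarB r t G c ↔ OS r bk g₀ 0 G c := by
  constructor
  · rintro ⟨w, z, a, X, Y, hw, hz, wz, ha, tp, h⟩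
    lift X to Finset V using Set.toFinite X
    lift Y to Finset V using Set.toFinite Y
    split_ifs at h with e
    · obtain rfl := ht.2 e
      obtain ⟨g, tr, n1, m⟩ := h
      obtain ⟨k1, k2, k3⟩ := tr_insert hz tr
      rw [← coe_insert] at m
      rw [← coe_sdiff, Set.ncard_coe_finset] at n1
      refine os_of hw hz wz ha tp g m k2 k3 (by simp) (Or.inl ⟨rfl, ?_, rfl, by rwa [erase_insert k1]⟩)
      rcases hk with e | e | e <;> omega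
    · obtain ⟨rfl, rfl⟩ : bk = 1 ∧ g₀ = 0 := by
        have := mt ht.1 e
        rcases hk with e | e | e <;> omega
      obtain ⟨g, tr, n1, m⟩ := h
      have x3 : ∀ v ∈ X, c v ≠ 0 := fun v hv => by have := mem_Icc.1 (tr.1 v hv); omega
      exact os_of hw hz wz ha tp g m (fun v hv => Or.inl (x3 v hv))
        (fun i hi => by rw [← pc_ct, tr.2 i hi, xS, ite_self])
        (iff_of_false (fun b => x3 z b hz) one_ne_zero)
        (Or.inr (Or.inl ⟨rfl, rfl, rfl, fun v hv => pc_ct c Y _ ▸ n1 v hv⟩))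
  · rintro ⟨z, w, Y, X, a, s, rfl, two, tp, g⟩
    have m := s.mp' two
    have g' := s.greedy g
    rw [← sz_eq] at tp
    rcases s.kd with ⟨rfl, -, -, e⟩ | ⟨rfl, -, -, e⟩ | ⟨-, -, e, -⟩
    · refine ⟨w, z, a, (X.erase z : Finset V), Y, s.ok.w0, s.ok.o0, s.ok.ow.symm, s.dat.ha, tp, ?_⟩
      rw [if_pos (ht.1 rfl), s.tr.2, ← coe_sdiff, Set.ncard_coe_finset]
      exact ⟨g', s.tr.1, e, m⟩
    · refine ⟨w, z, a, X, Y, s.ok.w0, s.ok.o0, s.ok.ow.symm, s.dat.ha, tp, ?_⟩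
      rw [if_neg (mt ht.2 one_ne_zero)]
      refine ⟨g', ⟨fun v hv => mem_Icc.2 ⟨Nat.one_le_iff_ne_zero.2 ((s.ok.hX v hv).resolve_right
        fun e => one_ne_zero (s.hz.1 (e ▸ hv))), s.ok.le v⟩, fun i hi => ?_⟩,
        fun v hv => pc_ct c Y _ ▸ e v hv, m⟩
      rw [pc_ct, s.hx i hi, xS, ite_self]
    · omega

theorem starW_iff {G : SimpleGraph V} {c : V → ℕ} : StarW G c ↔ OS 3 0 0 1 G c := by
  constructor
  · rintro ⟨w, z, a, X, Y, hw, hz, wz, ha, tp, g, tr, n1, m⟩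
    lift X to Finset V using Set.toFinite X
    lift Y to Finset V using Set.toFinite Y
    obtain ⟨k1, k2, k3⟩ := tr_insert hz tr
    rw [← coe_insert] at m
    refine os_of hw hz wz ha tp g m k2 k3 (by simp) (Or.inr (Or.inr ⟨rfl, rfl, rfl, fun v hv b => ?_⟩))
    rcases mem_insert.1 hv with e | e
    · have := mem_Icc.1 (mem_of_mem_erase (g.1 v b))
      rw [e] at this
      omega
    · exact Set.disjoint_left.1 n1 e b
  · rintro ⟨z, w, Y, X, a, s, rfl, two, tp, g⟩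
    rw [← sz_eq] at tp
    refine ⟨w, z, a, (X.erase z : Finset V), Y, s.ok.w0, s.ok.o0, s.ok.ow.symm, s.dat.ha, tp,
      s.greedy g, s.tr.1, Set.disjoint_left.2 fun v hv b => ?_, by rw [s.tr.2]; exact s.mp' two⟩
    rcases s.kd with ⟨-, e, -⟩ | ⟨e, -⟩ | ⟨-, -, -, e⟩
    · omega
    · omega
    · exact e v (mem_of_mem_erase hv) b

theorem pairB_iff {G : SimpleGraph V} {r : ℕ} {c : V → ℕ} : PairB r G c ↔ OP r G c := by
  have e1 : ∀ z b : V, spokes z {b} = {s(z, b)} := fun z b => by ext e; simp [spokes]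
  have e2 : ∀ (z b : V) (X : Finset V),
      ((insert z (insert b X) : Finset V) : Set V) = (X : Set V) ∪ {z, b} := fun z b X => by
    ext v; simp only [coe_insert, Set.mem_insert_iff, Set.mem_union, Set.mem_singleton_iff]; tauto
  constructor
  · rintro ⟨w, z, b, X, hw, hz, hb, zb, tp, g, m⟩
    lift X to Finset V using Set.toFinite X
    obtain ⟨g1, g2, g3⟩ := greedy_iff.1 g
    rw [sz_eq] at tp
    have s : POK r c z b w X := ⟨m.1, hw, hz, hb, zb, fun v hv => by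
      have := mem_J.1 (g1 v hv)
      have := mem_Icc.1 this.1
      omega⟩
    refine ⟨z, b, w, X, s, ?_, m.one, tp, g2, g3⟩
    ext u v
    rw [m.2.2, (s.mp m.one).2.2, e1, e2]
  · rintro ⟨z, b, w, X, s, rfl, two, tp, g2, g3⟩
    rw [← sz_eq] at tp
    exact ⟨w, z, b, X, s.w0, s.z0, s.b0, s.zb, tp, greedy_iff.2 ⟨fun v hv => mem_J.2
      ⟨mem_Icc.2 ⟨Nat.one_le_iff_ne_zero.2 (s.hX v hv).1, s.le v⟩, (s.hX v hv).2⟩, g2, g3⟩,
      e1 z b ▸ e2 z b X ▸ s.mp two⟩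

end Pool.Agent.P.MP_094db5_co
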