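import Pool.Agent.P.MP_094db5_co.TG5

/-! The extremal graphs in the Turan range. -/

set_option autoImplicit false

open Finset Classical

noncomputable section

namespace Pool.Agent.P.MP_094db5_co

theorem master {α : Type} {F : SimpleGraph α} {r D t bk g₀ cp C m₀ : ℕ} (hr : 3 ≤ r)
    (hF : ∀ a, ∃ b, F.Adj a b) (Fr : ∀ (V : Type) [Fintype V], SimpleGraph V → Prop)
    (h1 : ∀ (V : Type) [Fintype V], Cls r D t (Fr V))
    (h2 : ∀ (V : Type) [Fintype V] (G : SimpleGraph V), Fr V G ↔ F.Free G)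
    (hk : Kind r bk g₀ cp) (gS : GoodS F r bk g₀ cp) (P : Prop) (gP : P → GoodP F r ∧ cp = 0)
    (form : ∀ m, m₀ ≤ m → ∀ (V : Type) [Fintype V] (G : SimpleGraph V), InN F r m G →
      (∀ (W : Type) [Fintype W] (H : SimpleGraph W), InN F r m H → lam H ≤ lam G) →
      FS r bk g₀ cp G ∨ (P ∧ FP r G) ∨ FB r C G) :
    ∃ N₀ : ℕ, ∀ N k m : ℕ, N₀ ≤ N → m = (SimpleGraph.turanGraph N r).edgeSet.ncard + k → C < k →
      2 * r ≤ k + 1 → (k : ℝ) ≤ th2 r * (N / r) - 1600 * r ^ 2 * √N →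
      (P → 1600 * (r : ℝ) ^ 3 ≤ N * |phi r N k|) →
      ∀ (V : Type) [Fintype V] (G : SimpleGraph V),
        (InN F r m G ∧ ∀ (W : Type) [Fintype W] (H : SimpleGraph W), InN F r m H → lam H ≤ lam G) ↔
        G.edgeSet.ncard = m ∧ ∃ c, Bal r N (cn c) ∧
          if P ∧ 0 < phi r N k then OP r G c else OS r bk g₀ cp G c := by
  have R3 : (3 : ℝ) ≤ r := by exact_mod_cast hr
  obtain ⟨δ, δ0, δ1⟩ : ∃ δ : ℝ, 0 < δ ∧ 1000 * (r : ℝ) ^ 2 * δ ≤ 1 :=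
    ⟨1 / (1000 * r ^ 2), by positivity, (mul_one_div_cancel (by positivity)).le⟩
  have η0 : 0 < δ / (30 * r ^ 2) := by positivity
  obtain ⟨m₁, ha⟩ := exists_apr hr hF Fr h1 h2 η0 (by
    have a1 : (9 : ℝ) ≤ r ^ 2 := by nlinarith
    rw [div_le_one (by positivity)]; linarith [mul_le_mul_of_nonneg_right a1 δ0.le])
  obtain ⟨B, B1, B3, B4⟩ : ∃ B : ℝ, 1 ≤ δ / (30 * r ^ 2) * B ∧ 2 * ((m₀ : ℝ) + m₁) + 2 ≤ B ∧
      (8 * r / δ + (C + 2)) ^ 2 ≤ B := by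
    refine ⟨max (1 / (δ / (30 * r ^ 2))) (max (2 * (m₀ + m₁) + 2) ((8 * r / δ + (C + 2)) ^ 2)), ?_,
      (le_max_left _ _).trans (le_max_right _ _), (le_max_right _ _).trans (le_max_right _ _)⟩
    rw [mul_comm, ← div_le_iff₀ (by positivity)]
    exact le_max_left _ _
  refine ⟨⌈B * r⌉₊, fun N k m hN hm hC rk kk hφ => ?_⟩
  obtain ⟨ν, hν⟩ : ∃ ν : ℝ, ν = N / r := ⟨_, rfl⟩
  have ν1 : B ≤ ν := by rw [hν, le_div_iff₀ (by linarith)]; exact Nat.ceil_le.1 hN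
  have ν0 : 0 < ν := lt_of_lt_of_le (by positivity) (B4.trans ν1)
  have eN : (N : ℝ) = r * ν := by rw [hν]; field_simp
  have N0 : (0 : ℝ) < N := by rw [eN]; positivity
  obtain ⟨s, s0, s1, s2⟩ : ∃ s : ℝ, 0 < s ∧ s = √N ∧ s ^ 2 = r * ν :=
    ⟨_, Real.sqrt_pos.2 N0, rfl, (Real.sq_sqrt N0.le).trans eN⟩
  have s3 : 8 * r / δ + (C + 2) ≤ s := le_sqrt_aux s0.le (by
    linarith [mul_le_mul_of_nonneg_right R3 ν0.le])
  have s4 : 8 * s / ν * ν = 8 * s := div_mul_cancel₀ _ ν0.ne'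
  have s5 : 0 ≤ 8 * r / δ := by positivity
  have s6 : 8 * s / ν ≤ δ := by
    have a1 : 8 * r / δ ≤ s := by linarith [Nat.cast_nonneg (α := ℝ) C]
    rw [div_le_iff₀ δ0] at a1
    rw [div_le_iff₀ ν0]
    refine le_of_mul_le_mul_left ?_ (show (0 : ℝ) < r by linarith)
    linarith [mul_le_mul_of_nonneg_left a1 s0.le, congrArg (δ * ·) s2]
  have s7 : 51 * (r : ℝ) ≤ (8 * s / ν) ^ 2 * ν := by
    rw [show (8 * s / ν) ^ 2 * ν = 64 * s ^ 2 / ν by field_simp; ring, s2, le_div_iff₀ ν0]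
    linarith [mul_pos (show (0 : ℝ) < r by linarith) ν0]
  have s8 : P → 30 * (r * (50 * r / ν)) < |phi r N k| := fun hP => by
    have a1 := hφ hP
    rw [eN] at a1
    rw [show 30 * (r * (50 * r / ν)) = 1500 * r ^ 3 / (r * ν) by field_simp; ring,
      div_lt_iff₀ (by positivity)]
    linarith [pow_pos (show (0 : ℝ) < r by linarith) 3]
  have m0 : (0 : ℝ) ≤ m₀ := Nat.cast_nonneg _
  have m1 : (0 : ℝ) ≤ m₁ := Nat.cast_nonneg _
  have e2 : 2 * (m : ℝ) = tu2 r N + 2 * k := by rw [hm, ← tu2_eq (by omega)]; push_cast; ring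
  have mm : m₀ + m₁ ≤ m := by
    have a1 := (tu2_bounds (by omega) hν (by linarith)).1
    have a2 : ν - 1 ≤ (ν - 1) ^ 2 := by nlinarith
    have a3 := mul_le_mul_of_nonneg_right (show (1 : ℝ) ≤ r * (r - 1) by nlinarith) (sq_nonneg (ν - 1))
    exact_mod_cast (by push_cast; linarith [Nat.cast_nonneg (α := ℝ) k] : ((m₀ + m₁ : ℕ) : ℝ) ≤ m)
  have fwd : ∀ (V : Type) [Fintype V] (G : SimpleGraph V), InN F r m G →
      (∀ (W : Type) [Fintype W] (H : SimpleGraph W), InN F r m H → lam H ≤ lam G) →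
      ∃ c, Bal r N (cn c) ∧ ((¬ (P ∧ 0 < phi r N k) ∧ OS r bk g₀ cp G c ∧ ∃ a y α β,
        OptS r bk g₀ cp (50 * r / ν) ν (lam G) (tu2 r N + 2 * k) (cn c) a y α β ∧
          ∀ i ∈ Icc 1 r, cn c i ≤ cn c a) ∨
      ((P ∧ 0 < phi r N k) ∧ OP r G c ∧ ∃ a b x α γ β,
        OptP r (50 * r / ν) ν (lam G) (tu2 r N + 2 * k) (cn c) a b x α γ β ∧
          ∀ i ∈ Icc 1 r \ {a, b}, cn c i ≤ cn c a ∧ cn c i ≤ cn c b)) := by
    intro V _ G g1 g2
    have ap := ha m (by omega) V G g1 g2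
    have l0 : 0 < lam G := by
      by_contra hn
      nlinarith [ap.big]
    have h : Ext r N k bk g₀ cp (200 * r ^ 2 * (8 * s / ν)) δ (8 * s / ν) ν G :=
      ⟨hr, hν, δ0, δ1, by positivity, s6, s7, le_rfl, ap,
      B1.trans (mul_le_mul_of_nonneg_left ν1 η0.le), by
        rw [← hν, ← s1] at kk
        rw [sub_mul, mul_assoc, s4]; linarith, rk,
      by rw [← e2]; exact congrArg _ (congrArg _ g1.1), hk, e2 ▸ orS hk gS l0 g2⟩
    rcases form m (by omega) V G g1 g2 with ⟨c, z, w, Y, X, a, s, e, p⟩ |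
      ⟨hP, c, z, b, w, X, s, hx, e, p⟩ | hB
    · obtain ⟨a, α, β, s, bal, tp, gr, o⟩ := h.star s e p
      refine ⟨c, bal, Or.inl ⟨fun ⟨hP, q⟩ => ?_, ⟨z, w, Y, X, a, s, e, o.rg.two_le o.cl, tp, gr⟩,
        a, _, α, β, o, tp⟩⟩
      obtain ⟨g, rfl⟩ := gP hP
      have := o.phi_le hν rfl rk h.hk' bal tp (e2 ▸ orP g l0 g2)
      have := s8 hP
      rw [abs_of_pos q] at this
      linarith
    · obtain ⟨g, rfl⟩ := gP hP
      obtain ⟨α, γ, β, bal, tp, o⟩ := h.pair s hx e p (e2 ▸ orP g l0 g2)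
      refine ⟨c, bal, Or.inr ⟨⟨hP, ?_⟩, ⟨z, b, w, X, s, e, o.rg.two_le o.cl, tp, o.ad, o.greedy⟩,
        _, _, _, α, γ, β, o, tp⟩⟩
      have key : -(30 * (r * (50 * r / ν))) ≤ phi r N k := by
        rcases le_total (cn c (c b)) (cn c (c z)) with w | w
        · refine o.phi_ge hν rfl rk h.hk' bal (fun i hi => ?_) h.or
          by_cases p : i = c z
          · rw [p]
          · by_cases q : i = c b
            · rwa [q]
            · exact (tp i (mem_J.2 ⟨hi, p, q⟩)).1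
        · refine o.symm.phi_ge hν rfl rk h.hk' bal (fun i hi => ?_) h.or
          by_cases p : i = c z
          · rwa [p]
          · by_cases q : i = c b
            · rw [q]
            · exact (tp i (mem_J.2 ⟨hi, p, q⟩)).2
      by_contra q
      have := s8 hP
      rw [abs_of_nonpos (not_lt.1 q)] at this
      linarith
    · exact (h.noB hB hC (by linarith)).elim
  intro V _ G
  refine ⟨fun ⟨g1, g2⟩ => ⟨g1.1, ?_⟩, fun ⟨e, c, bal, h⟩ => ?_⟩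
  · obtain ⟨c, bal, h | h⟩ := fwd V G g1 g2
    · exact ⟨c, bal, by rw [if_neg h.1]; exact h.2.1⟩
    · exact ⟨c, bal, by rw [if_pos h.1]; exact h.2.1⟩
  have e' : 2 * (ec G : ℝ) = tu2 r N + 2 * k := by rw [← e2]; exact congrArg _ (congrArg _ e)
  split_ifs at h with q
  · obtain ⟨z, b, w, X, s, rfl, two, tp, ad, gr⟩ := h
    have g1 : InN F r m _ := ⟨e, (gP q.1).1 V c z b w X s two fun i hi => (ad i hi).1⟩
    obtain ⟨G', g2, g3⟩ := exists_extremal g1 (by omega) hF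
    refine ⟨g1, fun W _ H hH => (g3 W H hH).trans ?_⟩
    obtain ⟨c', bal', h | ⟨-, -, a', b', x', α, γ, β, o, tp'⟩⟩ := fwd _ G' g2 g3
    · exact (h.1 q).elim
    · obtain ⟨α', γ', p⟩ := o.uniq hν bal' tp' (mem_Icc.2 ⟨Nat.one_le_iff_ne_zero.2 s.z0, s.le z⟩)
        (mem_Icc.2 ⟨Nat.one_le_iff_ne_zero.2 s.b0, s.le b⟩) s.zb ad bal tp gr (s.ec2 ▸ e')
      exact (lowerP s o.rg.μ0 α' γ' β).2 p
  · obtain ⟨z, w, Y, X, a, s, rfl, two, tp, gr⟩ := h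
    have g1 : InN F r m _ := ⟨e, gS V c z w Y X a s two⟩
    obtain ⟨G', g2, g3⟩ := exists_extremal g1 (by omega) hF
    refine ⟨g1, fun W _ H hH => (g3 W H hH).trans ?_⟩
    obtain ⟨c', bal', ⟨-, -, a', y', α, β, o, tp'⟩ | h⟩ := fwd _ G' g2 g3
    · exact (lowerS s.ok o.rg.μ0 α β).2
        (s.PhS_eq _ _ _ ▸ o.uniq hν bal' tp' s.dat bal tp gr (s.ec_eq ▸ e'))
    · exact (q h.1).elim

theorem book_turan {r : ℕ} (hr : 3 ≤ r) (t : ℕ) : ∃ N₀ : ℕ, ∀ N k m : ℕ,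
    N₀ ≤ N → m = (SimpleGraph.turanGraph N r).edgeSet.ncard + k → r * t + r < k → 2 * r ≤ k + 1 →
    (k : ℝ) ≤ ((r : ℝ) - 1) * (r - 2) / r * (N / r) - 1600 * r ^ 2 * √N →
    1600 * (r : ℝ) ^ 3 ≤ N * |phi r N k| →
    ∀ (V : Type) [Fintype V] (G : SimpleGraph V),
    (InN (join (⊤ : SimpleGraph (Fin r)) (⊥ : SimpleGraph (Fin (t + 1)))) r m G ∧
      ∀ (W : Type) [Fintype W] (H : SimpleGraph W),
        InN (join (⊤ : SimpleGraph (Fin r)) (⊥ : SimpleGraph (Fin (t + 1)))) r m H →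
          lam H ≤ lam G) ↔
    G.edgeSet.ncard = m ∧ ∃ c, Turan r N c ∧
      if 0 < phi r N k then PairB r G c else StarB r t G c := by
  obtain ⟨m₀, h⟩ := book_all hr t
  have hF : ∀ a, ∃ b, (join (⊤ : SimpleGraph (Fin r)) (⊥ : SimpleGraph (Fin (t + 1)))).Adj a b := by
    rintro (a | a)
    · exact ⟨Sum.inr 0, by simp [join]⟩
    · exact ⟨Sum.inl ⟨0, by omega⟩, by simp [join]⟩
  obtain ⟨bk, g₀, hk, ht⟩ : ∃ bk g₀, Kind r bk g₀ 0 ∧ (bk = 0 ↔ t = 0) := by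
    by_cases e : t = 0
    · exact ⟨0, r - 2, Or.inl ⟨rfl, by omega, rfl⟩, by simp [e]⟩
    · exact ⟨1, 0, Or.inr (Or.inl ⟨rfl, rfl, rfl⟩), by simp [e]⟩
  obtain ⟨N₀, H⟩ := master (m₀ := m₀) (C := r * t + r) hr hF (fun V _ G => NoBook G r t)
    (fun V _ => cls_book hr t) (fun V _ G => ⟨free_of_noBook, noBook_of_free⟩) hk
    (fun V _ c z w Y X a s two =>
      ⟨free_of_noBook ((s.famB two rfl ht).noBook hr), (s.famB two rfl ht).nc hr⟩) True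
    (fun _ => ⟨fun V _ c z b w X s two hx =>
      ⟨free_of_noBook ((s.famB two hx t).noBook hr), (s.famB two hx t).nc hr⟩, rfl⟩)
    (fun m hm V _ G g1 g2 => by
      obtain ⟨c, hc⟩ := ((h m hm V G).1 ⟨g1, g2⟩).1.2
      simpa only [true_and] using hc.form hk ht)
  refine ⟨N₀, fun N k m h1 h2 h3 h4 h5 h6 V _ G => ?_⟩
  rw [H N k m h1 h2 h3 h4 h5 fun _ => h6]
  simp only [true_and, turan_iff, pairB_iff, starB_iff hk ht]

theorem wheel_turan {q : ℕ} (hq : 2 ≤ q) : ∃ N₀ : ℕ, ∀ N k m : ℕ,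
    N₀ ≤ N → m = (SimpleGraph.turanGraph N 3).edgeSet.ncard + k → 6 ≤ k →
    (k : ℝ) ≤ 2 / 9 * N - 14400 * √N → ∀ (V : Type) [Fintype V] (G : SimpleGraph V),
    (InN (Whl q) 3 m G ∧ ∀ (W : Type) [Fintype W] (H : SimpleGraph W),
      InN (Whl q) 3 m H → lam H ≤ lam G) ↔
    G.edgeSet.ncard = m ∧ ∃ c, Turan 3 N c ∧ StarW G c := by
  obtain ⟨m₀, h⟩ := wheel_all hq
  have hF : ∀ a, ∃ b, (Whl q).Adj a b := by
    rintro (a | a)
    · exact ⟨Sum.inr 0, by simp [join]⟩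
    · exact ⟨Sum.inl 0, by simp [join]⟩
  obtain ⟨N₀, H⟩ := master (m₀ := m₀) (C := 5) le_rfl hF (fun V _ G => (Whl q).Free G)
    (fun V _ => cls_wheel hq) (fun V _ G => Iff.rfl) (Or.inr (Or.inr ⟨rfl, rfl, rfl⟩))
    (fun V _ c z w Y X a s two => ⟨(s.famW two).free hq, (s.famW two).nc⟩) False False.elim
    (fun m hm V _ G g1 g2 => by
      obtain ⟨c, hc⟩ := ((h m hm V G).1 ⟨g1, g2⟩).1.2
      simpa only [false_and, false_or] using hc.form)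
  refine ⟨N₀, fun N k m h1 h2 h3 h5 V _ G => ?_⟩
  rw [H N k m h1 h2 (by omega) (by omega) (by rw [th2]; push_cast; linarith) False.elim]
  simp only [false_and, if_false, turan_iff, starW_iff]

end Pool.Agent.P.MP_094db5_co
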