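import Pool.Agent.P.MP_094db5_co.TPh

/-! Discrete optimisation: greedy distributions, Turan numbers. -/

set_option autoImplicit false

open Finset Classical

noncomputable section

namespace Pool.Agent.P.MP_094db5_co

lemma ph1_eq {μ : ℝ} (hμ : 0 < μ) (n : ℕ) (F : ℝ) :
    ph1 μ n F = 1 - (μ - F) ^ 2 / (μ * (μ + n)) := by
  have : (0 : ℝ) < μ + n := by positivity
  unfold ph1
  field_simp
  ring

lemma exists_mid (J : Finset ℕ) (lo hi : ℕ → ℕ) (h : ∀ i ∈ J, lo i ≤ hi i) :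
    ∀ T, ∑ i ∈ J, lo i ≤ T → T ≤ ∑ i ∈ J, hi i →
      ∃ y : ℕ → ℕ, (∀ i ∈ J, lo i ≤ y i ∧ y i ≤ hi i) ∧ (∀ i ∉ J, y i = 0) ∧ ∑ i ∈ J, y i = T := by
  induction J using Finset.induction_on with
  | empty => exact fun T _ h2 => ⟨fun _ => 0, by simp, by simp, by simp at h2; simp [h2]⟩
  | insert a J ha ih =>
    intro T h1 h2
    rw [sum_insert ha] at h1 h2
    have h3 := h a (mem_insert_self _ _)
    have h4 : ∑ i ∈ J, lo i ≤ ∑ i ∈ J, hi i := sum_le_sum fun i hi => h i (mem_insert_of_mem hi)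
    obtain ⟨s, s1, s2, s3, s4⟩ : ∃ s, lo a ≤ s ∧ s ≤ hi a ∧ ∑ i ∈ J, lo i + s ≤ T ∧
        T ≤ ∑ i ∈ J, hi i + s := ⟨min (hi a) (T - ∑ i ∈ J, lo i), by omega⟩
    obtain ⟨y, y1, y2, y3⟩ := ih (fun i hi => h i (mem_insert_of_mem hi)) (T - s) (by omega) (by omega)
    refine ⟨Function.update y a s, fun i hi => ?_, fun i hi => ?_, ?_⟩
    · rcases mem_insert.1 hi with rfl | hi'
      · simp [s1, s2]
      · rw [Function.update_of_ne fun e : i = a => ha (e ▸ hi')]; exact y1 i hi'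
    · simp only [mem_insert, not_or] at hi
      rw [Function.update_of_ne hi.1]; exact y2 i hi.2
    · rw [sum_insert ha, Function.update_self, sum_update_of_notMem ha, y3]; omega

lemma quad_zero {d H : ℝ} (h : ∀ t : ℝ, 2 * t * d - H * t ^ 2 ≤ 0) : d = 0 := by
  have h1 : 0 < |H| + 1 := by positivity
  have h2 := h (d / (|H| + 1))
  obtain ⟨t, ht⟩ : ∃ t, t = d / (|H| + 1) := ⟨_, rfl⟩
  rw [← ht] at h2
  rw [eq_div_iff h1.ne'] at ht
  have h3 : t ^ 2 * (2 * (|H| + 1) - H) ≤ 0 := by rw [← ht] at h2; nlinarith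
  have h4 : 0 < 2 * (|H| + 1) - H := by linarith [le_abs_self H, abs_nonneg H]
  have h5 : t = 0 := pow_eq_zero_iff two_ne_zero |>.1
    (le_antisymm (nonpos_of_mul_nonpos_left h3 h4) (sq_nonneg _))
  rw [← ht, h5, zero_mul]

/-- greedy distributions -/
def Gr (J : Finset ℕ) (l u : ℕ) (n y : ℕ → ℕ) : Prop :=
  ∀ i ∈ J, ∀ j ∈ J, y i + u < n i → l < y j → n j < n i ∨ (n j = n i ∧ y j ≤ y i + 1)

/-- admissible distributions -/
def Ad (J : Finset ℕ) (l u : ℕ) (n y : ℕ → ℕ) : Prop := ∀ i ∈ J, l ≤ y i ∧ y i + u ≤ n i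

lemma sum_two {J : Finset ℕ} {i j : ℕ} (hi : i ∈ J) (hj : j ∈ J) (hij : i ≠ j) {f g : ℕ → ℝ}
    (h : ∀ k ∈ J, k ≠ i → k ≠ j → f k = g k) :
    ∑ k ∈ J, f k = ∑ k ∈ J, g k + (f i - g i) + (f j - g j) := by
  have h1 : ({i, j} : Finset ℕ) ⊆ J := fun k hk => by
    rcases mem_insert.1 hk with e | e
    exacts [e ▸ hi, mem_singleton.1 e ▸ hj]
  rw [← sum_sdiff h1, ← sum_sdiff h1 (f := g), sum_pair hij, sum_pair hij,
    sum_congr rfl fun k hk => by
      simp only [mem_sdiff, mem_insert, mem_singleton, not_or] at hk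
      exact h k hk.1 hk.2.1 hk.2.2]
  ring

/-- optimal distributions are greedy -/
lemma gr_of_opt {J : Finset ℕ} {l u : ℕ} {n y : ℕ → ℕ} {h : ℕ → ℕ → ℝ} (ha : Ad J l u n y)
    (m1 : ∀ i ∈ J, ∀ s s', s < s' → h (n i) (s' + 1) - h (n i) s' < h (n i) (s + 1) - h (n i) s)
    (m2 : ∀ i ∈ J, ∀ j ∈ J, n i < n j → ∀ s s', s < n i →
      h (n j) (s' + 1) - h (n j) s' < h (n i) (s + 1) - h (n i) s)
    (opt : ∀ y' : ℕ → ℕ, Ad J l u n y' → (∀ i ∉ J, y' i = y i) → ∑ i ∈ J, y' i = ∑ i ∈ J, y i →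
      ∑ i ∈ J, h (n i) (y' i) ≤ ∑ i ∈ J, h (n i) (y i)) : Gr J l u n y := by
  intro i hi j hj h1 h2
  by_contra hn
  have hij : i ≠ j := by rintro rfl; exact hn (Or.inr ⟨rfl, by omega⟩)
  obtain ⟨s, hs⟩ : ∃ s, y j = s + 1 := ⟨y j - 1, by omega⟩
  obtain ⟨y', e1, e2, e3⟩ : ∃ y' : ℕ → ℕ, y' i = y i + 1 ∧ y' j = s ∧ ∀ k, k ≠ i → k ≠ j → y' k = y k :=
    ⟨fun k => if k = i then y i + 1 else if k = j then s else y k, by simp, by simp [hij.symm],
      fun k a b => by simp [a, b]⟩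
  have a1 := opt y' (fun k hk => by
    by_cases a : k = i
    · have := ha i hi
      rw [a]; omega
    · by_cases b : k = j
      · have := ha j hj
        rw [b]; omega
      · rw [e3 k a b]; exact ha k hk)
    (fun k hk => e3 k (fun e => hk (e ▸ hi)) fun e => hk (e ▸ hj)) (by
      have := sum_two hi hj hij (f := fun k => (y' k : ℝ)) (g := fun k => (y k : ℝ))
        fun k _ a b => by rw [e3 k a b]
      rw [e1, e2, hs] at this
      push_cast at this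
      exact_mod_cast (by push_cast; linarith : ((∑ i ∈ J, y' i : ℕ) : ℝ) = (∑ i ∈ J, y i : ℕ)))
  rw [sum_two hi hj hij (f := fun k => h (n k) (y' k)) (g := fun k => h (n k) (y k))
    fun k _ a b => by rw [e3 k a b], e1, e2, hs] at a1
  rcases lt_trichotomy (n i) (n j) with b | b | b
  · linarith [m2 i hi j hj b (y i) s (by omega)]
  · have := m1 i hi (y i) s (by omega)
    rw [← b] at a1
    linarith
  · exact hn (Or.inl b)

lemma conc_le {f : ℕ → ℝ} {τ : ℝ} {y s : ℕ}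
    (m : ∀ s s', s ≤ s' → f (s' + 1) - f s' ≤ f (s + 1) - f s)
    (h1 : y < s → f (y + 1) - f y ≤ τ) (h2 : s < y → ∀ y', y = y' + 1 → τ ≤ f (y' + 1) - f y') :
    f s - τ * s ≤ f y - τ * y := by
  rcases lt_trichotomy y s with a | a | a
  · obtain ⟨t, rfl⟩ := Nat.exists_eq_add_of_le a.le
    have h3 := h1 a
    clear h1 h2 a
    induction t with
    | zero => simp
    | succ t ih =>
      have := m y (y + t) (by omega)
      rw [← add_assoc]
      push_cast at ih ⊢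
      linarith
  · rw [a]
  · obtain ⟨y', rfl⟩ : ∃ y', y = y' + 1 := ⟨y - 1, by omega⟩
    have h3 := h2 a y' rfl
    have key : ∀ t s, s + t = y' + 1 → f s - τ * s ≤ f (y' + 1) - τ * (y' + 1 : ℕ) := by
      intro t
      induction t with
      | zero => intro s e; rw [← e]; simp
      | succ t ih =>
        intro s e
        have := ih (s + 1) (by omega)
        have := m s y' (by omega)
        push_cast at *
        linarith
    exact key (y' + 1 - s) s (by omega)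

lemma sum_le_of_card {S T : Finset ℕ} {f g : ℕ → ℝ} (h : S.card = T.card)
    (h1 : ∀ j ∈ S, ∀ i ∈ T, f j ≤ g i) : ∑ j ∈ S, f j ≤ ∑ i ∈ T, g i := by
  rcases T.eq_empty_or_nonempty with rfl | hT
  · rw [card_eq_zero.1 h]; simp
  · have h0 : (0 : ℝ) < T.card := by exact_mod_cast hT.card_pos
    refine le_of_mul_le_mul_left ?_ h0
    calc (T.card : ℝ) * ∑ j ∈ S, f j = ∑ i ∈ T, ∑ j ∈ S, f j := by rw [sum_const, nsmul_eq_mul]
      _ ≤ ∑ i ∈ T, ∑ _j ∈ S, g i := sum_le_sum fun i hi => sum_le_sum fun j hj => h1 j hj i hi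
      _ = _ := by simp only [sum_const, nsmul_eq_mul, ← mul_sum, h]

lemma card_big {J : Finset ℕ} {n : ℕ → ℕ} {ν : ℕ} (h : ∀ i ∈ J, ν ≤ n i ∧ n i ≤ ν + 1) :
    ∑ i ∈ J, n i = J.card * ν + (J.filter fun i => n i = ν + 1).card := by
  rw [card_filter, ← smul_eq_mul, ← sum_const, ← sum_add_distrib]
  refine sum_congr rfl fun i hi => ?_
  have := h i hi
  split_ifs <;> omega

/-- greedy distributions are optimal -/
lemma opt_of_gr {J J₀ : Finset ℕ} {l u ν : ℕ} {n y n₀ y₀ : ℕ → ℕ} {h : ℕ → ℕ → ℝ}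
    (ha : Ad J l u n y) (hg : Gr J l u n y) (ha₀ : Ad J₀ l u n₀ y₀)
    (hn : ∀ i ∈ J, ν ≤ n i ∧ n i ≤ ν + 1) (hn₀ : ∀ i ∈ J₀, ν ≤ n₀ i ∧ n₀ i ≤ ν + 1)
    (hc : J₀.card = J.card) (hs : ∑ i ∈ J₀, n₀ i = ∑ i ∈ J, n i)
    (hy : ∑ i ∈ J₀, y₀ i = ∑ i ∈ J, y i)
    (m1 : ∀ n s s', s ≤ s' → h n (s' + 1) - h n s' ≤ h n (s + 1) - h n s)
    (m2 : ∀ s s', s < ν → h (ν + 1) (s' + 1) - h (ν + 1) s' ≤ h ν (s + 1) - h ν s) :
    ∑ i ∈ J₀, h (n₀ i) (y₀ i) ≤ ∑ i ∈ J, h (n i) (y i) := by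
  have pw : ∀ i ∈ J, y i + u < n i → ∀ j ∈ J, l < y j → ∀ s, y j = s + 1 →
      h (n i) (y i + 1) - h (n i) (y i) ≤ h (n j) (s + 1) - h (n j) s := by
    intro i hi h1 j hj h2 s e
    have := hn i hi
    have := hn j hj
    have := ha j hj
    rcases hg i hi j hj h1 h2 with a | a
    · rw [show n i = ν + 1 by omega, show n j = ν by omega]
      exact m2 _ _ (by omega)
    · rw [a.1]; exact m1 _ _ _ (by omega)
  obtain ⟨τ, t1, t2⟩ : ∃ τ : ℝ, (∀ i ∈ J, y i + u < n i → h (n i) (y i + 1) - h (n i) (y i) ≤ τ) ∧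
      ∀ j ∈ J, l < y j → ∀ s, y j = s + 1 → τ ≤ h (n j) (s + 1) - h (n j) s := by
    rcases (J.filter fun i => y i + u < n i).eq_empty_or_nonempty with e | e
    · obtain ⟨τ, hτ⟩ := (J.image fun j => h (n j) (y j - 1 + 1) - h (n j) (y j - 1)).bddBelow
      refine ⟨τ, fun i hi a => (filter_eq_empty_iff.1 e hi a).elim, fun j hj _ s e => hτ ?_⟩
      exact mem_coe.2 (mem_image.2 ⟨j, hj, by rw [e]; rfl⟩)
    · obtain ⟨i, hi, hm⟩ := exists_max_image _ (fun i => h (n i) (y i + 1) - h (n i) (y i)) e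
      exact ⟨_, fun k hk a => hm k (mem_filter.2 ⟨hk, a⟩),
        pw i (mem_filter.1 hi).1 (mem_filter.1 hi).2⟩
  have key : ∀ j ∈ J₀, ∀ i ∈ J, n₀ j = n i →
      h (n₀ j) (y₀ j) - τ * y₀ j ≤ h (n i) (y i) - τ * y i := by
    intro j hj i hi e
    have := ha₀ j hj
    rw [e]
    exact conc_le (m1 (n i)) (fun a => t1 i hi (by omega)) fun a => t2 i hi (by omega)
  have c1 : (J₀.filter fun i => n₀ i = ν + 1).card = (J.filter fun i => n i = ν + 1).card := by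
    have a1 := card_big hn
    have a2 := card_big hn₀
    rw [hc] at a2
    omega
  have c2 : (J₀.filter fun i => ¬ n₀ i = ν + 1).card = (J.filter fun i => ¬ n i = ν + 1).card := by
    have a1 := card_filter_add_card_filter_not (s := J) fun i => n i = ν + 1
    have a2 := card_filter_add_card_filter_not (s := J₀) fun i => n₀ i = ν + 1
    omega
  have s1 := sum_le_of_card c1 (f := fun j => h (n₀ j) (y₀ j) - τ * y₀ j)
    (g := fun i => h (n i) (y i) - τ * y i) fun j hj i hi =>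
      key j (mem_filter.1 hj).1 i (mem_filter.1 hi).1
        ((mem_filter.1 hj).2.trans (mem_filter.1 hi).2.symm)
  have s2 := sum_le_of_card c2 (f := fun j => h (n₀ j) (y₀ j) - τ * y₀ j)
    (g := fun i => h (n i) (y i) - τ * y i) fun j hj i hi => by
      rw [mem_filter] at hi hj
      have := hn i hi.1
      have := hn₀ j hj.1
      exact key j hj.1 i hi.1 (by omega)
  have s3 := add_le_add s1 s2
  rw [sum_filter_add_sum_filter_not, sum_filter_add_sum_filter_not] at s3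
  simp only [sum_sub_distrib, ← mul_sum, ← Nat.cast_sum, hy] at s3
  linarith

/-- twice the number of edges of the complete multipartite graph -/
def eK2 (r : ℕ) (n : ℕ → ℕ) : ℝ := (∑ i ∈ Icc 1 r, (n i : ℝ)) ^ 2 - ∑ i ∈ Icc 1 r, (n i : ℝ) ^ 2

/-- twice the Turan number -/
def tu2 (r N : ℕ) : ℝ :=
  (N : ℝ) ^ 2 - (2 * (N / r : ℕ) + 1) * N + r * (N / r : ℕ) * ((N / r : ℕ) + 1)

/-- balanced part sizes -/
def Bal (r N : ℕ) (n : ℕ → ℕ) : Prop :=
  (∀ i ∈ Icc 1 r, N / r ≤ n i ∧ n i ≤ N / r + 1) ∧ ∑ i ∈ Icc 1 r, n i = N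

lemma eK2_sub {r N : ℕ} {n : ℕ → ℕ} (h : ∑ i ∈ Icc 1 r, n i = N) : tu2 r N - eK2 r n =
    ∑ i ∈ Icc 1 r, ((n i : ℝ) - (N / r : ℕ)) * (n i - (N / r : ℕ) - 1) := by
  have h1 : ∑ i ∈ Icc 1 r, (n i : ℝ) = N := by exact_mod_cast h
  rw [sum_congr rfl (g := fun i => (n i : ℝ) ^ 2 - (2 * (N / r : ℕ) + 1) * n i +
    (N / r : ℕ) * ((N / r : ℕ) + 1)) fun i _ => by ring]
  simp only [sum_add_distrib, sum_sub_distrib, ← mul_sum, h1, sum_const, Nat.card_Icc,
    add_tsub_cancel_right, nsmul_eq_mul, tu2, eK2]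
  ring

lemma Bal.eK2 {r N : ℕ} {n : ℕ → ℕ} (h : Bal r N n) : eK2 r n = tu2 r N := by
  have := eK2_sub h.2
  rw [sum_eq_zero fun i hi => by
    have := h.1 i hi
    rcases (by omega : n i = N / r ∨ n i = N / r + 1) with e | e <;> rw [e] <;> push_cast <;> ring]
    at this
  linarith

lemma eK2_le' {r N : ℕ} {n : ℕ → ℕ} (h : ∑ i ∈ Icc 1 r, n i = N) : eK2 r n ≤ tu2 r N := by
  have := eK2_sub h
  have h2 : 0 ≤ ∑ i ∈ Icc 1 r, ((n i : ℝ) - (N / r : ℕ)) * (n i - (N / r : ℕ) - 1) := by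
    refine sum_nonneg fun i _ => ?_
    rcases le_or_gt (n i) (N / r) with a | a
    · have : (n i : ℝ) ≤ (N / r : ℕ) := by exact_mod_cast a
      exact mul_nonneg_of_nonpos_of_nonpos (by linarith) (by linarith)
    · have : ((N / r : ℕ) : ℝ) + 1 ≤ n i := by exact_mod_cast a
      exact mul_nonneg (by linarith) (by linarith)
  linarith

lemma sum_upd {J : Finset ℕ} {a : ℕ} (ha : a ∈ J) (n : ℕ → ℕ) (s : ℕ) (f : ℕ → ℝ) :
    ∑ i ∈ J, f (Function.update n a s i) = ∑ i ∈ J, f (n i) + (f s - f (n a)) := by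
  rw [← add_sum_erase _ _ ha, ← add_sum_erase _ (fun i => f (n i)) ha, Function.update_self,
    sum_congr rfl fun i hi => by rw [Function.update_of_ne (ne_of_mem_erase hi)]]
  ring

lemma eK2_add {r a : ℕ} (ha : a ∈ Icc 1 r) (n : ℕ → ℕ) (t : ℕ) :
    eK2 r (Function.update n a (n a + t)) =
      eK2 r n + 2 * t * ∑ i ∈ (Icc 1 r).erase a, (n i : ℝ) := by
  rw [eK2, eK2, sum_upd ha n _ fun s => (s : ℝ), sum_upd ha n _ fun s => (s : ℝ) ^ 2,
    ← add_sum_erase _ (fun i => (n i : ℝ)) ha]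
  push_cast
  ring

/-- adding a vertex to part `a` -/
lemma eK2_le {r N a : ℕ} (ha : a ∈ Icc 1 r) {n : ℕ → ℕ} {t : ℕ} (h : ∑ i ∈ Icc 1 r, n i + t ≤ N) :
    eK2 r n + 2 * t * ∑ i ∈ (Icc 1 r).erase a, (n i : ℝ) ≤ tu2 r N := by
  obtain ⟨s, hs⟩ := Nat.exists_eq_add_of_le h
  have h1 := eK2_le' (r := r) (N := N) (n := Function.update n a (n a + (t + s))) (by
    have := sum_upd ha n (n a + (t + s)) fun s => (s : ℝ)
    rw [hs]
    push_cast at this
    exact_mod_cast (by push_cast; linarith :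
      ((∑ i ∈ Icc 1 r, Function.update n a (n a + (t + s)) i : ℕ) : ℝ) =
        (∑ i ∈ Icc 1 r, n i + t + s : ℕ)))
  rw [eK2_add ha] at h1
  push_cast at h1
  nlinarith [mul_nonneg (Nat.cast_nonneg (α := ℝ) s)
    (sum_nonneg fun i (_ : i ∈ (Icc 1 r).erase a) => Nat.cast_nonneg (α := ℝ) (n i))]

lemma bal_of_close {r N : ℕ} (hr : 1 ≤ r) {n : ℕ → ℕ} (h : ∑ i ∈ Icc 1 r, n i = N)
    (h1 : ∀ u ∈ Icc 1 r, ∀ v ∈ Icc 1 r, n u ≤ n v + 1) : Bal r N n := by
  refine ⟨fun i hi => ⟨?_, ?_⟩, h⟩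
  · by_contra hn
    have h2 : ∑ i ∈ Icc 1 r, n i < ∑ _i ∈ Icc 1 r, N / r :=
      sum_lt_sum (fun j hj => by have := h1 j hj i hi; omega) ⟨i, hi, by omega⟩
    simp only [h, sum_const, Nat.card_Icc, add_tsub_cancel_right, smul_eq_mul] at h2
    exact absurd (Nat.mul_div_le N r) (by omega)
  · by_contra hn
    have h2 : ∑ _i ∈ Icc 1 r, (N / r + 1) ≤ ∑ i ∈ Icc 1 r, n i :=
      sum_le_sum fun j hj => by have := h1 i hi j hj; omega
    simp only [h, sum_const, Nat.card_Icc, add_tsub_cancel_right, smul_eq_mul] at h2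
    have := Nat.lt_mul_div_succ N (show 0 < r by omega)
    omega

lemma exists_bal {r : ℕ} (hr : 1 ≤ r) (N : ℕ) : ∃ n, Bal r N n := by
  obtain ⟨n, h1, -, h2⟩ := exists_mid (Icc 1 r) (fun _ => N / r) (fun _ => N / r + 1)
    (fun _ _ => by omega) N (by simpa using Nat.mul_div_le N r)
    (by simpa using (Nat.lt_mul_div_succ N (show 0 < r by omega)).le)
  exact ⟨n, h1, h2⟩

lemma Bal.card {r N : ℕ} {n : ℕ → ℕ} (h : Bal r N n) :
    ((Icc 1 r).filter fun i => n i = N / r + 1).card = N % r := by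
  have h1 := card_big h.1
  have h2 := Nat.div_add_mod N r
  rw [h.2, Nat.card_Icc, add_tsub_cancel_right] at h1
  omega

lemma tu2_eq {r : ℕ} (hr : 1 ≤ r) (N : ℕ) :
    2 * ((SimpleGraph.turanGraph N r).edgeSet.ncard : ℝ) = tu2 r N := by
  rw [← SimpleGraph.coe_edgeFinset, Set.ncard_coe_finset, SimpleGraph.card_edgeFinset_turanGraph,
    tu2]
  obtain ⟨r, rfl⟩ := Nat.exists_eq_add_of_le' hr
  have h2 := Nat.div_add_mod N (r + 1)
  generalize N / (r + 1) = ν at *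
  generalize N % (r + 1) = q at *
  subst h2
  obtain ⟨w, hw⟩ : Even (r * (r + 1)) := Nat.even_mul_succ_self r
  have e1 : (((r + 1) * ν + q) ^ 2 - q ^ 2) * (r + 1 - 1) / (2 * (r + 1)) = w * ν ^ 2 + r * ν * q := by
    rw [show ((r + 1) * ν + q) ^ 2 = (r + 1) * ((r + 1) * ν ^ 2 + 2 * ν * q) + q ^ 2 by ring,
      add_tsub_cancel_right, add_tsub_cancel_right]
    refine Nat.div_eq_of_eq_mul_right (by omega) ?_
    have : (r + 1) * ((r + 1) * ν ^ 2 + 2 * ν * q) * r =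
        (r + 1) * (r * (r + 1) * ν ^ 2 + 2 * (r * ν * q)) := by ring
    rw [this, hw]
    ring
  have hw' : (r : ℝ) * (r + 1) = w + w := by exact_mod_cast hw
  rw [e1]
  push_cast
  rw [Nat.cast_choose_two]
  linear_combination (-(ν : ℝ) ^ 2) * hw'

end Pool.Agent.P.MP_094db5_co
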