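import Pool.Agent.P.MP_094db5_co.TN1

/-! The range of the parameters, marginal values, stationarity. -/

set_option autoImplicit false

open Finset Classical

noncomputable section

namespace Pool.Agent.P.MP_094db5_co

/-- the range of the real parameters -/
structure Rg (r : ℕ) (δ ν μ : ℝ) : Prop where
  r3 : 3 ≤ r
  δ0 : 0 < δ
  δ1 : 1000 * (r : ℝ) ^ 2 * δ ≤ 1
  big : 10 * (r : ℝ) ≤ δ * ν
  hμ : |μ - (r - 1) * ν| ≤ δ * ν

/-- a part size close to the mean -/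
def Cl (δ ν : ℝ) (n : ℕ) : Prop := |(n : ℝ) - ν| ≤ δ * ν

namespace Rg

variable {r : ℕ} {δ ν μ : ℝ} (h : Rg r δ ν μ)
include h

lemma R3 : (3 : ℝ) ≤ r := by exact_mod_cast h.r3

lemma δ2 : 3000 * (r : ℝ) * δ ≤ 1 := by
  nlinarith [h.R3, h.δ0, h.δ1, mul_pos (show (0 : ℝ) < r by linarith [h.R3]) h.δ0]

lemma δ3 : 9000 * δ ≤ 1 := by nlinarith [h.R3, h.δ0, h.δ2]

lemma ν0 : 0 < ν := by
  by_contra hn
  nlinarith [h.R3, h.big, h.δ0]

lemma δν : δ * ν ≤ ν / 9000 := by nlinarith [h.δ3, h.ν0]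

lemma ν1 : 90000 * (r : ℝ) ≤ ν := by linarith [h.δν, h.big]

lemma μ1 : (r - 1) * ν - δ * ν ≤ μ := by linarith [(abs_le.1 h.hμ).1]

lemma μ2 : μ ≤ (r - 1) * ν + δ * ν := by linarith [(abs_le.1 h.hμ).2]

lemma μ3 : 199 / 100 * ν ≤ μ := by nlinarith [h.μ1, h.δν, h.R3, h.ν0]

lemma μ4 : 100000 * (r : ℝ) ≤ μ := by linarith [h.μ3, h.ν1, h.R3]

lemma μ5 : 300000 ≤ μ := by linarith [h.μ4, h.R3]

lemma μ0 : 0 < μ := by linarith [h.μ5]

lemma L0 : 0 < μ + ν := by linarith [h.μ0, h.ν0]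

omit h in
lemma n1 {n : ℕ} (hn : Cl δ ν n) : ν - δ * ν ≤ n := by linarith [(abs_le.1 hn).1]

omit h in
lemma n2 {n : ℕ} (hn : Cl δ ν n) : (n : ℝ) ≤ ν + δ * ν := by linarith [(abs_le.1 hn).2]

lemma n3 {n : ℕ} (hn : Cl δ ν n) : (n : ℝ) ≤ 51 / 100 * μ := by
  linarith [n2 hn, h.δν, h.μ3, h.ν0]

lemma n4 {n : ℕ} (hn : Cl δ ν n) : 80000 * r ≤ n := by
  have : (80000 * r : ℝ) ≤ n := by linarith [n1 hn, h.δν, h.ν1, h.R3]
  exact_mod_cast this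

lemma p1 {n : ℕ} (hn : Cl δ ν n) : (1 - δ) / (μ + ν) ≤ 1 / (μ + n) := by
  rw [div_le_div_iff₀ h.L0 (by linarith [h.μ0, Nat.cast_nonneg (α := ℝ) n])]
  nlinarith [n2 hn, n1 hn, h.δ0, h.μ3, h.ν0, h.δν]

lemma p2 {n : ℕ} (hn : Cl δ ν n) : 1 / (μ + n) ≤ (1 + δ) / (μ + ν) := by
  rw [div_le_div_iff₀ (by linarith [h.μ0, Nat.cast_nonneg (α := ℝ) n]) h.L0]
  nlinarith [n2 hn, n1 hn, h.δ0, h.μ3, h.ν0, h.δν]

lemma cl_bal {N : ℕ} (hN : ν = N / r) {n : ℕ → ℕ} (hb : Bal r N n) {i : ℕ} (hi : i ∈ Icc 1 r) :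
    |(n i : ℝ) - ν| ≤ 1 := by
  have r0 : (0 : ℝ) < r := by linarith [h.R3]
  have a1 : ((N / r : ℕ) : ℝ) ≤ ν := hN ▸ Nat.cast_div_le
  have a2 : ν < (N / r : ℕ) + 1 := by
    rw [hN, div_lt_iff₀ r0, mul_comm]
    exact_mod_cast Nat.lt_mul_div_succ N (show 0 < r by have := h.r3; omega)
  have a3 : ((N / r : ℕ) : ℝ) ≤ n i := by exact_mod_cast (hb.1 i hi).1
  have a4 : (n i : ℝ) ≤ (N / r : ℕ) + 1 := by exact_mod_cast (hb.1 i hi).2
  exact abs_le.2 ⟨by linarith, by linarith⟩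

lemma cl_of_bal {N : ℕ} (hN : ν = N / r) {n : ℕ → ℕ} (hb : Bal r N n) {i : ℕ} (hi : i ∈ Icc 1 r) :
    Cl δ ν (n i) := (h.cl_bal hN hb hi).trans (by linarith [h.big, h.R3])

end Rg

/-- contribution of a part as a function of the number of neighbours of the main outer vertex -/
def hS (μ : ℝ) (bk : ℕ) (α β : ℝ) (n y : ℕ) : ℝ :=
  ph1 μ n (y * α + β) + 2 * bk * (min y 1 : ℕ) * α * β / μ

lemma hS_mg {μ : ℝ} (hμ : 0 < μ) (bk : ℕ) (α β : ℝ) (n s : ℕ) :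
    hS μ bk α β n (s + 1) - hS μ bk α β n s =
      α * (2 * μ - (2 * s + 1) * α - 2 * β) / (μ * (μ + n)) +
        2 * bk * (if s = 0 then 1 else 0) * α * β / μ := by
  have : (0 : ℝ) < μ + n := by positivity
  have e : ((min (s + 1) 1 : ℕ) : ℝ) = (min s 1 : ℕ) + if s = 0 then 1 else 0 := by
    rcases s with _ | s <;> simp
  rw [hS, hS, ph1_eq hμ, ph1_eq hμ, e]
  push_cast
  field_simp
  ring

lemma hS_m1 {μ : ℝ} (hμ : 0 < μ) (bk : ℕ) {α β : ℝ} (a0 : 0 ≤ α) (b0 : 0 ≤ β) (n : ℕ) {s s' : ℕ}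
    (h : s ≤ s') : hS μ bk α β n (s' + 1) - hS μ bk α β n s' +
      2 * (s' - s) * α ^ 2 / (μ * (μ + n)) ≤ hS μ bk α β n (s + 1) - hS μ bk α β n s := by
  rw [hS_mg hμ, hS_mg hμ]
  have h1 : 2 * bk * (if s' = 0 then 1 else 0) * α * β / μ ≤
      2 * bk * (if s = 0 then 1 else 0) * α * β / μ := by
    gcongr
    split_ifs <;> first | omega | norm_num
  have h2 : α * (2 * μ - (2 * s' + 1) * α - 2 * β) / (μ * (μ + n)) +
      2 * (s' - s) * α ^ 2 / (μ * (μ + n)) = α * (2 * μ - (2 * s + 1) * α - 2 * β) / (μ * (μ + n)) := by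
    ring
  linarith

lemma hS_m2 {μ R : ℝ} {bk : ℕ} (hb : bk ≤ 1) {α β : ℝ} (a0 : 0 ≤ α) (a1 : α ≤ 1 / (μ - 2))
    (b0 : 0 ≤ β) (b1 : μ * β ≤ R / (μ - 2)) (hR : 1 ≤ R) (hμ : 1000 * R ≤ μ) {n n' s s' : ℕ}
    (h1 : n < n') (h2 : (n' : ℝ) ≤ 51 / 100 * μ) (h3 : s < n) :
    hS μ bk α β n' (s' + 1) - hS μ bk α β n' s' + α / (100 * μ ^ 2) ≤
      hS μ bk α β n (s + 1) - hS μ bk α β n s := by
  have μ0 : 0 < μ := by linarith
  rw [hS_mg μ0, hS_mg μ0]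
  have n0 : (0 : ℝ) ≤ n := Nat.cast_nonneg _
  have c1 : (n : ℝ) + 1 ≤ n' := by exact_mod_cast h1
  have c2 : (s : ℝ) + 1 ≤ n := by exact_mod_cast h3
  have c3 : (bk : ℝ) ≤ 1 := by exact_mod_cast hb
  rw [le_div_iff₀ (by linarith)] at a1 b1
  have a2 : α * μ ≤ 1003 / 1000 := by nlinarith
  have b2 : β * μ ≤ 11 / 10000 := by nlinarith [mul_nonneg b0 μ0.le]
  have d1 : 2 * bk * (if s' = 0 then 1 else 0) * α * β / μ ≤ α * (22 / 10000) / μ ^ 2 := by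
    calc _ ≤ 2 * 1 * 1 * α * β / μ := by
          gcongr
          split_ifs <;> norm_num
      _ = α * (2 * (β * μ)) / μ ^ 2 := by field_simp
      _ ≤ _ := by gcongr; linarith
  have d2 : 0 ≤ 2 * bk * (if s = 0 then 1 else 0) * α * β / μ := by
    split_ifs <;> positivity
  have d3 : α * (2 * μ - (2 * s' + 1) * α - 2 * β) / (μ * (μ + n')) ≤ α * 2 / (μ + n + 1) := by
    calc _ ≤ α * (2 * μ) / (μ * (μ + n')) := by
          gcongr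
          nlinarith [mul_nonneg (show (0 : ℝ) ≤ 2 * s' + 1 by positivity) a0]
      _ = α * 2 / (μ + n') := by field_simp
      _ ≤ _ := div_le_div_of_nonneg_left (by positivity) (by positivity) (by linarith)
  have d4 : α * (2 * μ - 103 / 100) / (μ * (μ + n)) ≤
      α * (2 * μ - (2 * s + 1) * α - 2 * β) / (μ * (μ + n)) := by
    refine div_le_div_of_nonneg_right (mul_le_mul_of_nonneg_left ?_ a0) (by positivity)
    have : (2 * s + 1) * α ≤ 102 / 100 * μ * α := mul_le_mul_of_nonneg_right (by linarith) a0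
    have : β ≤ 1 / 1000 := by nlinarith
    nlinarith
  have d5 : 2 / (μ + n + 1) + (122 / 10000) / μ ^ 2 ≤ (2 * μ - 103 / 100) / (μ * (μ + n)) := by
    rw [div_add_div _ _ (by positivity) (by positivity), div_le_div_iff₀ (by positivity) (by positivity)]
    have e1 : (n : ℝ) + 1 ≤ 51 / 100 * μ := by linarith
    have e2 : (μ + n + 1) * (μ + n) ≤ 151 / 100 * μ * (151 / 100 * μ) :=
      mul_le_mul (by linarith) (by linarith) (by positivity) (by positivity)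
    have e3 : 0 ≤ μ * (μ * μ * (2 * μ - 103 / 100 * (μ + n + 1)) / μ - 122 / 10000 * ((μ + n + 1) * (μ + n))) := by
      refine mul_nonneg μ0.le ?_
      rw [mul_comm μ μ, mul_assoc, mul_div_cancel_left₀ _ μ0.ne']
      nlinarith
    rw [mul_comm μ μ, mul_assoc, mul_div_cancel_left₀ _ μ0.ne'] at e3
    nlinarith
  have d6 := mul_le_mul_of_nonneg_left d5 a0
  have d7 : α / (100 * μ ^ 2) = α * (1 / 100) / μ ^ 2 := by field_simp
  rw [mul_add, ← mul_div_assoc, ← mul_div_assoc, ← mul_div_assoc] at d6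
  have d8 : α * 122 / 10000 / μ ^ 2 = α * (22 / 10000) / μ ^ 2 + α * (1 / 100) / μ ^ 2 := by ring
  rw [← mul_div_assoc] at d6
  linarith

/-- neighbours of the small outer vertex -/
def xS (bk a : ℕ) (i : ℕ) : ℕ := if i = a then bk else 1

/-- common neighbours of the two outer vertices -/
def gS (r bk g₀ : ℕ) (y : ℕ → ℕ) : ℝ := g₀ + bk * ∑ i ∈ Icc 1 r, ((min (y i) 1 : ℕ) : ℝ)

/-- the secular function of the star type -/
def PhK (r : ℕ) (μ : ℝ) (bk g₀ : ℕ) (n : ℕ → ℕ) (a : ℕ) (y : ℕ → ℕ) (α β : ℝ) : ℝ :=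
  PhS r μ n y (xS bk a) (gS r bk g₀ y) (1 - bk) α β

/-- data of the star type -/
structure DatS (r bk cp : ℕ) (n : ℕ → ℕ) (a : ℕ) (y : ℕ → ℕ) : Prop where
  ha : a ∈ Icc 1 r
  ya : y a = 0
  ad : Ad ((Icc 1 r).erase a) (1 - bk) cp n y

lemma PhK_eq {r a : ℕ} (ha : a ∈ Icc 1 r) (μ : ℝ) (bk g₀ : ℕ) (n : ℕ → ℕ) {y : ℕ → ℕ} (ya : y a = 0)
    (α β : ℝ) : PhK r μ bk g₀ n a y α β =
      ∑ i ∈ (Icc 1 r).erase a, hS μ bk α β (n i) (y i) + ph1 μ (n a) (bk * β) +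
      ((∑ i ∈ (Icc 1 r).erase a, y i : ℕ) * α ^ 2 + (r - 1 + bk) * β ^ 2 + 2 * g₀ * α * β) / μ -
      μ * α ^ 2 - μ * β ^ 2 + 2 * (1 - bk) * α * β := by
  have hr : 1 ≤ r := by have := mem_Icc.1 ha; omega
  have e1 : ∑ i ∈ (Icc 1 r).erase a, (xS bk a i : ℝ) = r - 1 := by
    rw [sum_congr rfl (g := fun _ => 1) fun i hi => by simp [xS, ne_of_mem_erase hi], sum_const,
      card_erase_of_mem ha]
    simp [Nat.cast_sub hr]
  have e2 : ∑ i ∈ (Icc 1 r).erase a, ph1 μ (n i) (y i * α + xS bk a i * β) =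
      ∑ i ∈ (Icc 1 r).erase a, ph1 μ (n i) (y i * α + β) :=
    sum_congr rfl fun i hi => by simp [xS, ne_of_mem_erase hi]
  simp only [PhK, PhS, gS, hS, ← add_sum_erase _ _ ha, e1, e2, ya, sum_add_distrib, ← sum_div,
    ← sum_mul, ← mul_sum, Nat.cast_sum]
  simp only [xS, if_true, Nat.cast_zero, zero_mul, zero_add, zero_le, inf_of_le_left]
  ring

lemma PhS_stat {r : ℕ} {μ : ℝ} {n y x : ℕ → ℕ} {g e α β : ℝ}
    (h : ∀ α', PhS r μ n y x g e α' β ≤ PhS r μ n y x g e α β) :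
    μ * α = ∑ i ∈ Icc 1 r, y i * (1 - (y i * α + x i * β) / μ) / (μ + n i) +
      ((∑ i ∈ Icc 1 r, (y i : ℝ)) * α + g * β) / μ + e * β := by
  have key := quad_zero (d := ∑ i ∈ Icc 1 r, y i * (1 - (y i * α + x i * β) / μ) / (μ + n i) +
      ((∑ i ∈ Icc 1 r, (y i : ℝ)) * α + g * β) / μ + e * β - μ * α)
    (H := ∑ i ∈ Icc 1 r, (y i : ℝ) ^ 2 / μ / (μ + n i) - (∑ i ∈ Icc 1 r, (y i : ℝ)) / μ + μ)
    fun t => by
      have h1 := h (α + t)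
      have h2 : ∑ i ∈ Icc 1 r, ph1 μ (n i) (y i * (α + t) + x i * β) =
          ∑ i ∈ Icc 1 r, ph1 μ (n i) (y i * α + x i * β) +
          2 * t * ∑ i ∈ Icc 1 r, y i * (1 - (y i * α + x i * β) / μ) / (μ + n i) -
          t ^ 2 * ∑ i ∈ Icc 1 r, (y i : ℝ) ^ 2 / μ / (μ + n i) := by
        simp only [mul_sum, ← sum_add_distrib, ← sum_sub_distrib]
        exact sum_congr rfl fun i _ => by unfold ph1; ring
      rw [PhS, PhS, h2] at h1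
      have h3 : ((∑ i ∈ Icc 1 r, (y i : ℝ)) * (α + t) ^ 2 + (∑ i ∈ Icc 1 r, (x i : ℝ)) * β ^ 2 +
          2 * g * (α + t) * β) / μ =
          ((∑ i ∈ Icc 1 r, (y i : ℝ)) * α ^ 2 + (∑ i ∈ Icc 1 r, (x i : ℝ)) * β ^ 2 +
          2 * g * α * β) / μ + 2 * t * (((∑ i ∈ Icc 1 r, (y i : ℝ)) * α + g * β) / μ) +
          t ^ 2 * ((∑ i ∈ Icc 1 r, (y i : ℝ)) / μ) := by ring
      rw [h3] at h1
      nlinarith
  linarith

lemma PhP_symm (r : ℕ) (μ : ℝ) (n : ℕ → ℕ) (a b : ℕ) (x : ℕ → ℕ) (α γ β : ℝ) :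
    PhP r μ n a b x α γ β = PhP r μ n b a x γ α β := by
  rw [PhP, PhP, pair_comm]
  ring

lemma PhP_statβ {r : ℕ} {μ : ℝ} {n x : ℕ → ℕ} {a b : ℕ} {α γ β : ℝ}
    (h : ∀ β', PhP r μ n a b x α γ β' ≤ PhP r μ n a b x α γ β) :
    μ * β = ∑ i ∈ Icc 1 r \ {a, b}, x i * (1 - (x i * β) / μ) / (μ + n i) +
      (∑ i ∈ Icc 1 r \ {a, b}, (x i : ℝ)) * β / μ + (α + γ) := by
  have key := quad_zero (d := ∑ i ∈ Icc 1 r \ {a, b}, x i * (1 - (x i * β) / μ) / (μ + n i) +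
      (∑ i ∈ Icc 1 r \ {a, b}, (x i : ℝ)) * β / μ + (α + γ) - μ * β)
    (H := ∑ i ∈ Icc 1 r \ {a, b}, (x i : ℝ) ^ 2 / μ / (μ + n i) -
      (∑ i ∈ Icc 1 r \ {a, b}, (x i : ℝ)) / μ + μ)
    fun t => by
      have h1 := h (β + t)
      have h2 : ∑ i ∈ Icc 1 r \ {a, b}, ph1 μ (n i) (x i * (β + t)) =
          ∑ i ∈ Icc 1 r \ {a, b}, ph1 μ (n i) (x i * β) +
          2 * t * ∑ i ∈ Icc 1 r \ {a, b}, x i * (1 - (x i * β) / μ) / (μ + n i) -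
          t ^ 2 * ∑ i ∈ Icc 1 r \ {a, b}, (x i : ℝ) ^ 2 / μ / (μ + n i) := by
        simp only [mul_sum, ← sum_add_distrib, ← sum_sub_distrib]
        exact sum_congr rfl fun i _ => by unfold ph1; ring
      rw [PhP, PhP, h2] at h1
      have h3 : (∑ i ∈ Icc 1 r \ {a, b}, (x i : ℝ)) * (β + t) ^ 2 / μ =
          (∑ i ∈ Icc 1 r \ {a, b}, (x i : ℝ)) * β ^ 2 / μ +
          2 * t * ((∑ i ∈ Icc 1 r \ {a, b}, (x i : ℝ)) * β / μ) +
          t ^ 2 * ((∑ i ∈ Icc 1 r \ {a, b}, (x i : ℝ)) / μ) := by ring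
      rw [h3] at h1
      nlinarith
  linarith

lemma PhP_statα {r : ℕ} {μ : ℝ} {n x : ℕ → ℕ} {a b : ℕ} {α γ β : ℝ}
    (h : ∀ α', PhP r μ n a b x α' γ β ≤ PhP r μ n a b x α γ β) :
    μ * (μ + n a) / (μ + n a - 1) * (α - 1 / (μ + n a)) = β - γ := by
  have key := quad_zero (d := β - γ - μ * (μ + n a) / (μ + n a - 1) * (α - 1 / (μ + n a)))
    (H := μ * (μ + n a) / (μ + n a - 1)) fun t => by
      have h1 := h (α + t)
      simp only [PhP, ph2] at h1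
      generalize μ * (μ + n a) / (μ + n a - 1) = c at *
      nlinarith
  linarith

end Pool.Agent.P.MP_094db5_co
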