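import Pool.Agent.P.MP_094db5_co.TN2

/-! The global comparison with the Turan candidate. -/

set_option autoImplicit false

open Finset Classical

noncomputable section

namespace Pool.Agent.P.MP_094db5_co

/-- secular function of the complete multipartite graph -/
def Qn (r : ℕ) (μ : ℝ) (n : ℕ → ℕ) : ℝ := ∑ i ∈ Icc 1 r, (n i : ℝ) / (μ + n i)

lemma PhS_le {r : ℕ} {μ pm g e α β : ℝ} {n y x : ℕ → ℕ} (hμ : 3 < μ) (a0 : 0 ≤ α) (b0 : 0 ≤ β)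
    (hp : ∀ i ∈ Icc 1 r, 1 / (μ + n i) ≤ pm) (g0 : 0 ≤ g) (e1 : e ≤ 1)
    (h1 : ∑ i ∈ Icc 1 r, (y i : ℝ) + g ≤ 2 * μ) (h2 : ∑ i ∈ Icc 1 r, (x i : ℝ) + g ≤ μ) :
    PhS r μ n y x g e α β ≤ Qn r μ n +
      (((∑ i ∈ Icc 1 r, (y i : ℝ)) * pm) ^ 2 + ((∑ i ∈ Icc 1 r, (x i : ℝ)) * pm) ^ 2) / (μ - 3) := by
  have μ0 : 0 < μ := by linarith
  have k1 : ∑ i ∈ Icc 1 r, ph1 μ (n i) (y i * α + x i * β) ≤
      ∑ i ∈ Icc 1 r, ((n i : ℝ) / (μ + n i) + (2 * α * pm * y i + 2 * β * pm * x i)) := by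
    refine sum_le_sum fun i hi => ?_
    have c0 : (0 : ℝ) < μ + n i := by positivity
    have c1 : 0 ≤ y i * α + x i * β := by positivity
    have c2 := mul_le_mul_of_nonneg_left (hp i hi) c1
    have c3 : 0 ≤ (y i * α + x i * β) ^ 2 / μ / (μ + n i) := by positivity
    have c4 : ph1 μ (n i) (y i * α + x i * β) = n i / (μ + n i) +
        2 * ((y i * α + x i * β) * (1 / (μ + n i))) - (y i * α + x i * β) ^ 2 / μ / (μ + n i) := by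
      unfold ph1; ring
    linarith
  simp only [sum_add_distrib, ← mul_sum] at k1
  rw [PhS, Qn]
  generalize ∑ i ∈ Icc 1 r, (y i : ℝ) = d at *
  generalize ∑ i ∈ Icc 1 r, (x i : ℝ) = s at *
  have k2 : (d * α ^ 2 + s * β ^ 2 + 2 * g * α * β) / μ ≤ 2 * α ^ 2 + β ^ 2 := by
    rw [div_le_iff₀ μ0]
    nlinarith [mul_nonneg g0 (sq_nonneg (α - β)), mul_le_mul_of_nonneg_right h1 (sq_nonneg α),
      mul_le_mul_of_nonneg_right h2 (sq_nonneg β)]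
  have k3 : 2 * α * pm * d + 2 * β * pm * s - (μ - 3) * α ^ 2 - (μ - 3) * β ^ 2 ≤
      ((d * pm) ^ 2 + (s * pm) ^ 2) / (μ - 3) := by
    rw [le_div_iff₀ (by linarith)]
    nlinarith [sq_nonneg ((μ - 3) * α - d * pm), sq_nonneg ((μ - 3) * β - s * pm)]
  nlinarith [mul_le_mul_of_nonneg_right e1 (mul_nonneg a0 b0), sq_nonneg (α - β), sq_nonneg β]

lemma PhS_ge {r : ℕ} {μ pm g e : ℝ} {n y x : ℕ → ℕ} (μ0 : 0 < μ) (p0 : 0 ≤ pm)
    (hp : ∀ i ∈ Icc 1 r, pm ≤ 1 / (μ + n i)) (hy : ∀ i ∈ Icc 1 r, y i ≤ n i) :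
    Qn r μ n + ((∑ i ∈ Icc 1 r, (y i : ℝ)) * pm) ^ 2 / μ ≤
      PhS r μ n y x g e ((∑ i ∈ Icc 1 r, (y i : ℝ)) * pm / μ) 0 := by
  have d0 : 0 ≤ ∑ i ∈ Icc 1 r, (y i : ℝ) := sum_nonneg fun _ _ => Nat.cast_nonneg _
  obtain ⟨α, hα⟩ : ∃ α, α = (∑ i ∈ Icc 1 r, (y i : ℝ)) * pm / μ := ⟨_, rfl⟩
  have a0 : 0 ≤ α := by rw [hα]; positivity
  have k1 : ∑ i ∈ Icc 1 r, ((n i : ℝ) / (μ + n i) + (2 * α * pm * y i - α ^ 2 / μ * y i)) ≤
      ∑ i ∈ Icc 1 r, ph1 μ (n i) (y i * α + x i * 0) := by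
    refine sum_le_sum fun i hi => ?_
    have c0 : (0 : ℝ) < μ + n i := by positivity
    have c1 : 0 ≤ y i * α := by positivity
    have c2 := mul_le_mul_of_nonneg_left (hp i hi) c1
    have c3 : (y i : ℝ) / (μ + n i) ≤ 1 := by
      rw [div_le_one c0]
      have : (y i : ℝ) ≤ n i := by exact_mod_cast hy i hi
      linarith
    have c5 := mul_le_mul_of_nonneg_left c3 (show 0 ≤ α ^ 2 / μ * y i by positivity)
    have c4 : ph1 μ (n i) (y i * α + x i * 0) = n i / (μ + n i) +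
        2 * ((y i * α) * (1 / (μ + n i))) - α ^ 2 / μ * y i * (y i / (μ + n i)) := by
      unfold ph1; ring
    linarith
  simp only [sum_add_distrib, sum_sub_distrib, ← mul_sum] at k1
  rw [PhS, Qn, ← hα]
  generalize ∑ i ∈ Icc 1 r, (y i : ℝ) = d at *
  have e1 : (d * pm) ^ 2 / μ = 2 * α * pm * d - μ * α ^ 2 := by rw [hα]; field_simp; ring
  have e2 : (d * α ^ 2 + (∑ i ∈ Icc 1 r, (x i : ℝ)) * 0 ^ 2 + 2 * g * α * 0) / μ = α ^ 2 / μ * d := by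
    ring
  linarith

lemma Qn_eq {r : ℕ} {μ ν : ℝ} (μ0 : 0 < μ) (ν0 : 0 < ν) (n : ℕ → ℕ) :
    Qn r μ n = r * ν / (μ + ν) + μ * (∑ i ∈ Icc 1 r, (n i : ℝ) - r * ν) / (μ + ν) ^ 2 -
      μ / (μ + ν) ^ 2 * ∑ i ∈ Icc 1 r, ((n i : ℝ) - ν) ^ 2 * (1 / (μ + n i)) := by
  rw [Qn, sum_congr rfl (g := fun i => ν / (μ + ν) + μ / (μ + ν) ^ 2 * ((n i : ℝ) - ν) -
    μ / (μ + ν) ^ 2 * (((n i : ℝ) - ν) ^ 2 * (1 / (μ + n i)))) fun i _ => by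
      have : (0 : ℝ) < μ + n i := by positivity
      field_simp
      ring]
  simp only [sum_add_distrib, sum_sub_distrib, ← mul_sum, sum_const, Nat.card_Icc,
    add_tsub_cancel_right, nsmul_eq_mul]
  ring

lemma var_eq (r : ℕ) (ν : ℝ) (n : ℕ → ℕ) : ∑ i ∈ Icc 1 r, ((n i : ℝ) - ν) ^ 2 =
    (∑ i ∈ Icc 1 r, (n i : ℝ)) ^ 2 - eK2 r n - 2 * ν * ∑ i ∈ Icc 1 r, (n i : ℝ) + r * ν ^ 2 := by
  simp only [sub_sq, sum_add_distrib, sum_sub_distrib, ← sum_mul, ← mul_sum, sum_const,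
    Nat.card_Icc, add_tsub_cancel_right, nsmul_eq_mul, eK2]
  ring

lemma g1core {R δ ε ρ θ κ x x' : ℝ} {j : ℕ} (R3 : 3 ≤ R) (δ0 : 0 < δ) (δ1 : 1000 * R ^ 2 * δ ≤ 1)
    (ε1 : 200 * R ^ 2 * δ ≤ ε) (hρ : ρ * (R - 1) ^ 2 = R)
    (hθ : θ * R = (R - 1) * (R - 2)) (κ0 : 0 ≤ κ) (κ1 : κ ≤ θ - ε) (x0 : 0 ≤ x)
    (x1 : x ≤ (R - 1) * (1 + 2 * δ)) (y1 : κ - δ ≤ x')
    (h : -δ + x' ^ 2 * (ρ * (1 - 5 * δ)) ≤ j * (R * (1 + δ)) -
      (1 - δ) * (2 * (x - κ - δ) + 2 * j * (R - 1)) + (x ^ 2 + δ ^ 2) * (ρ * (1 + 6 * δ))) :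
    j = 0 ∧ x ≤ θ := by
  have Rδ : 3000 * (R * δ) ≤ 1 := by nlinarith [mul_pos (show 0 < R by linarith) δ0]
  have δ2 : 9000 * δ ≤ 1 := by nlinarith
  have Rδ0 := mul_pos (show 0 < R by linarith) δ0
  have ε0 : 0 < ε := by linarith [mul_pos (show 0 < R by linarith) Rδ0]
  have ρ0 : 0 < ρ := by
    by_contra hn
    nlinarith [sq_nonneg (R - 1)]
  have ρ1 : ρ * (R - 1) ≤ 3 / 2 := by
    refine le_of_mul_le_mul_right ?_ (show 0 < R - 1 by linarith)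
    nlinarith
  have ρ2 : ρ ≤ 3 / 4 := by nlinarith
  have ρ3 : 1 ≤ ρ * R := by
    refine le_of_mul_le_mul_right ?_ (show 0 < (R - 1) ^ 2 by nlinarith)
    nlinarith
  have θ1 : θ ≤ R - 2 := by
    refine le_of_mul_le_mul_right ?_ (show 0 < R by linarith)
    nlinarith
  have θ2 : ρ * (θ + (R - 1)) = 2 := by
    have : ρ * (θ + (R - 1)) * (R * (R - 1)) = 2 * (R * (R - 1)) := by
      linear_combination ρ * (R - 1) * hθ + 2 * (R - 1) * hρ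
    exact mul_right_cancel₀ (by nlinarith) this
  have θ3 : ρ * θ * (R - 1) = R - 2 := by
    have : ρ * θ * (R - 1) * R = (R - 2) * R := by
      linear_combination ρ * (R - 1) * hθ + (R - 2) * hρ
    exact mul_right_cancel₀ (by linarith) this
  have xρ : x * ρ ≤ 151 / 100 := by nlinarith [mul_le_mul_of_nonneg_right x1 ρ0.le]
  have κρ : κ * ρ ≤ 3 / 2 := by nlinarith [mul_le_mul_of_nonneg_right (show κ ≤ R - 1 by linarith) ρ0.le]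
  have xR : x ≤ R := by nlinarith
  have a1 : κ ^ 2 - 2 * κ * δ ≤ x' ^ 2 := by
    rcases le_total κ δ with b | b
    · nlinarith [sq_nonneg x']
    · nlinarith [pow_le_pow_left₀ (by linarith : 0 ≤ κ - δ) y1 2]
  have a2 : κ ^ 2 * ρ - 11 * (R * δ) ≤ x' ^ 2 * (ρ * (1 - 5 * δ)) := by
    have b1 := mul_le_mul_of_nonneg_right a1 (show 0 ≤ ρ * (1 - 5 * δ) by
      exact mul_nonneg ρ0.le (by linarith))
    have b2 : κ * (κ * ρ) ≤ R * (3 / 2) := mul_le_mul (by linarith) κρ (by positivity) (by linarith)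
    have b3 := mul_le_mul_of_nonneg_right b2 δ0.le
    have b4 := mul_le_mul_of_nonneg_right κρ δ0.le
    have b5 : 0 ≤ κ * ρ * δ ^ 2 := by positivity
    nlinarith
  have a3 : (x ^ 2 + δ ^ 2) * (ρ * (1 + 6 * δ)) ≤ x ^ 2 * ρ + 10 * (R * δ) := by
    have b2 : x * (x * ρ) ≤ R * (151 / 100) := mul_le_mul xR xρ (by positivity) (by linarith)
    have b3 := mul_le_mul_of_nonneg_right b2 δ0.le
    have b4 : δ ^ 2 * (ρ * (1 + 6 * δ)) ≤ δ * 1 := by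
      rw [sq, mul_assoc]
      refine mul_le_mul_of_nonneg_left ?_ δ0.le
      nlinarith [mul_pos δ0 ρ0]
    nlinarith
  have a4 : κ ^ 2 * ρ + j * (R - 2 - 3 * (R * δ)) + 2 * (x - κ) - x ^ 2 * ρ ≤ 25 * (R * δ) := by
    have b1 : 0 ≤ (j : ℝ) * δ := by positivity
    nlinarith [mul_le_mul_of_nonneg_right xR δ0.le, mul_nonneg κ0 δ0.le]
  have ε2 : 200 * (R * δ) ≤ ρ * ε := by
    linarith [mul_le_mul_of_nonneg_left ε1 ρ0.le, mul_le_mul_of_nonneg_right ρ3 Rδ0.le]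
  have j0 : j = 0 := by
    by_contra hn
    have b1 : (1 : ℝ) ≤ j := by exact_mod_cast Nat.one_le_iff_ne_zero.2 hn
    have b2 := mul_le_mul_of_nonneg_right b1 (show 0 ≤ R - 2 - 3 * (R * δ) by linarith)
    have b3 : 0 ≤ x * (2 - x * ρ) := mul_nonneg x0 (by linarith)
    have b4 : κ ^ 2 * ρ - 2 * κ + (R - 2) = ρ * (θ - κ) * (R - 1 - κ) := by
      linear_combination κ * θ2 - θ3
    have b5 : ρ * ε * 1 ≤ ρ * (θ - κ) * (R - 1 - κ) :=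
      mul_le_mul (mul_le_mul_of_nonneg_left (by linarith) ρ0.le) (by linarith) (by norm_num)
        (mul_nonneg ρ0.le (by linarith))
    linarith
  refine ⟨j0, ?_⟩
  by_contra hn
  rw [j0, Nat.cast_zero, zero_mul] at a4
  rcases le_total (1 / 2) (x - κ) with w | w
  · have b1 : ρ * ε - 3 * δ ≤ 2 - (x + κ) * ρ := by
      linarith [mul_le_mul_of_nonneg_right x1 ρ0.le, mul_le_mul_of_nonneg_right κ1 ρ0.le,
        mul_le_mul_of_nonneg_right ρ1 δ0.le]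
    have b2 := mul_le_mul_of_nonneg_right R3 δ0.le
    have b3 : 1 / 2 * (ρ * ε / 2) ≤ (x - κ) * (2 - (x + κ) * ρ) :=
      mul_le_mul w (by linarith) (by positivity) (by linarith)
    linarith
  · have b1 : ρ / 2 ≤ 2 - (x + κ) * ρ := by
      linarith [mul_le_mul_of_nonneg_right (show x + κ ≤ θ + (R - 1) - 1 / 2 by linarith) ρ0.le]
    have b3 : ε * (ρ / 2) ≤ (x - κ) * (2 - (x + κ) * ρ) :=
      mul_le_mul (by linarith) b1 (by positivity) (by linarith)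
    linarith

/-- the end of the Turan range -/
def th2 (r : ℕ) : ℝ := ((r : ℝ) - 1) * (r - 2) / r

namespace Rg

variable {r : ℕ} {δ ν μ : ℝ} (h : Rg r δ ν μ)
include h

lemma L1 : μ + ν ≤ r * (1 + δ) * ν := by
  nlinarith [h.μ2, h.R3, mul_pos h.δ0 h.ν0]

lemma L2 : r * (1 - δ) * ν ≤ μ + ν := by
  nlinarith [h.μ1, h.R3, mul_pos h.δ0 h.ν0]

lemma w1 : r / (r - 1) ^ 2 * (1 - 3 * δ) ≤ (μ + ν) * ν / μ ^ 2 := by
  have r1 : (0 : ℝ) < r - 1 := by linarith [h.R3]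
  have := h.μ0
  have := h.ν0
  have := h.δ0
  have := h.δ3
  have a1 : μ ≤ (r - 1) * ν * (1 + δ / 2) := by nlinarith [h.μ2, h.R3, mul_pos h.δ0 h.ν0]
  rw [div_mul_eq_mul_div, div_le_div_iff₀ (by positivity) (by positivity)]
  calc r * (1 - 3 * δ) * μ ^ 2 ≤ r * (1 - 3 * δ) * ((r - 1) * ν * (1 + δ / 2)) ^ 2 := by
        have : 0 ≤ 1 - 3 * δ := by linarith
        gcongr
    _ = r * ((1 - 3 * δ) * (1 + δ / 2) ^ 2) * ν * ν * (r - 1) ^ 2 := by ring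
    _ ≤ r * (1 - δ) * ν * ν * (r - 1) ^ 2 := by
        gcongr
        nlinarith [sq_nonneg δ, mul_pos h.δ0 (mul_pos h.δ0 h.δ0)]
    _ ≤ _ := by gcongr; exact h.L2

lemma w2 : (μ + ν) * ν / (μ * (μ - 3)) ≤ r / (r - 1) ^ 2 * (1 + 3 * δ) := by
  have r1 : (0 : ℝ) < r - 1 := by linarith [h.R3]
  have := h.μ0
  have := h.ν0
  have := h.δ0
  have := h.δ3
  have m3 : 0 < μ - 3 := by linarith [h.μ5]
  have a1 : (r - 1) * ν * (1 - δ / 2) ≤ μ := by nlinarith [h.μ1, h.R3, mul_pos h.δ0 h.ν0]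
  have a2 : (r - 1) * ν * (1 - δ) ≤ μ - 3 := by
    nlinarith [h.μ1, h.R3, mul_pos h.δ0 h.ν0, h.big]
  rw [div_mul_eq_mul_div, div_le_div_iff₀ (by positivity) (by positivity)]
  have b0 : 0 ≤ 1 - δ := by linarith
  have b1 : 0 ≤ 1 - δ / 2 := by linarith
  calc (μ + ν) * ν * (r - 1) ^ 2 ≤ r * (1 + δ) * ν * ν * (r - 1) ^ 2 := by gcongr; exact h.L1
    _ ≤ r * ((1 + 3 * δ) * ((1 - δ / 2) * (1 - δ))) * ν * ν * (r - 1) ^ 2 := by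
        gcongr
        nlinarith [sq_nonneg δ, mul_pos h.δ0 (mul_pos h.δ0 h.δ0)]
    _ = r * (1 + 3 * δ) * ((r - 1) * ν * (1 - δ / 2) * ((r - 1) * ν * (1 - δ))) := by ring
    _ ≤ _ := by gcongr

lemma sum_erase_le {n : ℕ → ℕ} (hn : ∀ i ∈ Icc 1 r, Cl δ ν (n i)) {a : ℕ} (ha : a ∈ Icc 1 r) :
    ∑ i ∈ (Icc 1 r).erase a, (n i : ℝ) ≤ (r - 1) * (ν + δ * ν) := by
  have := sum_le_card_nsmul ((Icc 1 r).erase a) (fun i => (n i : ℝ)) (ν + δ * ν)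
    fun i hi => n2 (hn i (mem_of_mem_erase hi))
  rwa [card_erase_of_mem ha, Nat.card_Icc, add_tsub_cancel_right, nsmul_eq_mul,
    Nat.cast_sub (by have := h.r3; omega), Nat.cast_one] at this

lemma le_sum_erase {n : ℕ → ℕ} (hn : ∀ i ∈ Icc 1 r, Cl δ ν (n i)) {a : ℕ} (ha : a ∈ Icc 1 r) :
    (r - 1) * (ν - δ * ν) ≤ ∑ i ∈ (Icc 1 r).erase a, (n i : ℝ) := by
  have := card_nsmul_le_sum ((Icc 1 r).erase a) (fun i => (n i : ℝ)) (ν - δ * ν)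
    fun i hi => n1 (hn i (mem_of_mem_erase hi))
  rwa [card_erase_of_mem ha, Nat.card_Icc, add_tsub_cancel_right, nsmul_eq_mul,
    Nat.cast_sub (by have := h.r3; omega), Nat.cast_one] at this

/-- the global comparison -/
theorem global {N k : ℕ} (hN : ν = N / r) {ε : ℝ}
    (ε1 : 200 * (r : ℝ) ^ 2 * δ ≤ ε) (hk : (k : ℝ) ≤ (th2 r - ε) * ν) (rk : r ≤ k)
    {T n y x : ℕ → ℕ} (hT : Bal r N T)
    (cand : Qn r μ T + (((k : ℝ) - r) * ((1 - δ) / (μ + ν))) ^ 2 / μ ≤ 1)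
    (hn : ∀ i ∈ Icc 1 r, Cl δ ν (n i)) (hs : N ≤ ∑ i ∈ Icc 1 r, n i) {g e α β C : ℝ}
    (a0 : 0 ≤ α) (b0 : 0 ≤ β) (g0 : 0 ≤ g) (g1 : g ≤ C) (e1 : e ≤ 1) (C1 : C ≤ δ * ν)
    (hx : ∑ i ∈ Icc 1 r, (x i : ℝ) ≤ C)
    (hy : ∑ i ∈ Icc 1 r, (y i : ℝ) ≤ (r - 1) * (1 + 2 * δ) * ν)
    (he : eK2 r n + 2 * ∑ i ∈ Icc 1 r, (y i : ℝ) ≤ tu2 r N + 2 * k + 2 * C)
    (up : 1 ≤ PhS r μ n y x g e α β) :
    ∑ i ∈ Icc 1 r, n i = N ∧ ∑ i ∈ Icc 1 r, (y i : ℝ) ≤ th2 r * ν := by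
  have μ0 := h.μ0
  have ν0 := h.ν0
  have δ0 := h.δ0
  have δ3 := h.δ3
  have R3 := h.R3
  have L0 := h.L0
  have m3 : 0 < μ - 3 := by linarith [h.μ5]
  have eN : (N : ℝ) = r * ν := by rw [hN]; field_simp
  obtain ⟨j, hj⟩ := Nat.exists_eq_add_of_le hs
  have hj' : ∑ i ∈ Icc 1 r, (n i : ℝ) = r * ν + j := by rw [← eN]; exact_mod_cast hj
  have hT' : ∑ i ∈ Icc 1 r, (T i : ℝ) = r * ν := by rw [← eN]; exact_mod_cast hT.2
  have u1 := PhS_le (e := e) (y := y) (x := x) (by linarith) a0 b0 (fun i hi => h.p2 (hn i hi)) g0 e1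
    (by nlinarith [h.μ1, h.δν, h.δ2, mul_pos δ0 ν0]) (by linarith [h.δν, h.μ3])
  have x0 : 0 ≤ ∑ i ∈ Icc 1 r, (x i : ℝ) := sum_nonneg fun _ _ => Nat.cast_nonneg _
  have d0 : 0 ≤ ∑ i ∈ Icc 1 r, (y i : ℝ) := sum_nonneg fun _ _ => Nat.cast_nonneg _
  have v1 : (∑ i ∈ Icc 1 r, ((n i : ℝ) - ν) ^ 2) * ((1 - δ) / (μ + ν)) ≤
      ∑ i ∈ Icc 1 r, ((n i : ℝ) - ν) ^ 2 * (1 / (μ + n i)) := by
    rw [sum_mul]
    exact sum_le_sum fun i hi => mul_le_mul_of_nonneg_left (h.p1 (hn i hi)) (sq_nonneg _)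
  have v2 : ∑ i ∈ Icc 1 r, ((T i : ℝ) - ν) ^ 2 * (1 / (μ + T i)) ≤ r * ((1 + δ) / (μ + ν)) := by
    have := sum_le_card_nsmul (Icc 1 r) (fun i => ((T i : ℝ) - ν) ^ 2 * (1 / (μ + T i)))
      (1 * ((1 + δ) / (μ + ν))) fun i hi => mul_le_mul ((sq_le_one_iff_abs_le_one _).2
        (h.cl_bal hN hT hi)) (h.p2 (h.cl_of_bal hN hT hi)) (by positivity) (by norm_num)
    rwa [Nat.card_Icc, add_tsub_cancel_right, nsmul_eq_mul, one_mul] at this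
  have v3 := var_eq r ν n
  have v4 := var_eq r ν T
  have v5 : 0 ≤ ∑ i ∈ Icc 1 r, ((T i : ℝ) - ν) ^ 2 := sum_nonneg fun _ _ => sq_nonneg _
  rw [hT.eK2, hT'] at v4
  rw [hj'] at v3
  rw [Qn_eq μ0 ν0, hT'] at cand
  rw [Qn_eq μ0 ν0, hj'] at u1
  generalize ∑ i ∈ Icc 1 r, (x i : ℝ) = s at *
  generalize ∑ i ∈ Icc 1 r, (y i : ℝ) = d at *
  generalize ∑ i ∈ Icc 1 r, ((n i : ℝ) - ν) ^ 2 * (1 / (μ + n i)) = W at *
  generalize ∑ i ∈ Icc 1 r, ((T i : ℝ) - ν) ^ 2 * (1 / (μ + T i)) = W' at *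
  have v6 : 2 * (d - k - δ * ν) + 2 * j * (r - 1) * ν ≤ ∑ i ∈ Icc 1 r, ((n i : ℝ) - ν) ^ 2 := by
    nlinarith [sq_nonneg (j : ℝ)]
  generalize ∑ i ∈ Icc 1 r, ((n i : ℝ) - ν) ^ 2 = Vn at *
  have k0 : (0 : ℝ) ≤ k - r := by
    have : (r : ℝ) ≤ k := by exact_mod_cast rk
    linarith
  have c0 : 0 < μ / (μ + ν) ^ 2 := by positivity
  have main : -(μ / (μ + ν) ^ 2 * (r * ((1 + δ) / (μ + ν)))) +
      ((k - r) * ((1 - δ) / (μ + ν))) ^ 2 / μ ≤ μ * j / (μ + ν) ^ 2 -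
      μ / (μ + ν) ^ 2 * (Vn * ((1 - δ) / (μ + ν))) +
      ((d * ((1 + δ) / (μ + ν))) ^ 2 + (s * ((1 + δ) / (μ + ν))) ^ 2) / (μ - 3) := by
    have b1 := mul_le_mul_of_nonneg_left v1 c0.le
    have b2 := mul_le_mul_of_nonneg_left v2 c0.le
    simp only [sub_self, mul_zero, zero_div, add_zero, add_sub_cancel_left] at cand u1
    linarith
  have main2 := mul_le_mul_of_nonneg_right main (show 0 ≤ (μ + ν) ^ 3 / (μ * ν) by positivity)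
  have e1 : (-(μ / (μ + ν) ^ 2 * (r * ((1 + δ) / (μ + ν)))) +
      ((k - r) * ((1 - δ) / (μ + ν))) ^ 2 / μ) * ((μ + ν) ^ 3 / (μ * ν)) =
      -(r * (1 + δ) / ν) + ((k - r) / ν) ^ 2 * ((μ + ν) * ν / μ ^ 2 * (1 - δ) ^ 2) := by
    field_simp
  have e2 : (μ * j / (μ + ν) ^ 2 - μ / (μ + ν) ^ 2 * (Vn * ((1 - δ) / (μ + ν))) +
      ((d * ((1 + δ) / (μ + ν))) ^ 2 + (s * ((1 + δ) / (μ + ν))) ^ 2) / (μ - 3)) *
      ((μ + ν) ^ 3 / (μ * ν)) = j * ((μ + ν) / ν) - (1 - δ) * (Vn / ν) +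
      ((d / ν) ^ 2 + (s / ν) ^ 2) * ((μ + ν) * ν / (μ * (μ - 3)) * (1 + δ) ^ 2) := by
    field_simp
  rw [e1, e2] at main2
  have ρ0 : (0 : ℝ) < r / (r - 1) ^ 2 := by
    have : (0 : ℝ) < r - 1 := by linarith
    positivity
  have f1 : r * (1 + δ) / ν ≤ δ := by
    rw [div_le_iff₀ ν0]; nlinarith [h.big]
  have f2 : r / (r - 1) ^ 2 * (1 - 5 * δ) ≤ (μ + ν) * ν / μ ^ 2 * (1 - δ) ^ 2 := by
    refine le_trans ?_ (mul_le_mul_of_nonneg_right h.w1 (sq_nonneg _))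
    rw [mul_assoc]
    refine mul_le_mul_of_nonneg_left ?_ ρ0.le
    nlinarith [mul_pos δ0 δ0]
  have f3 : (μ + ν) * ν / (μ * (μ - 3)) * (1 + δ) ^ 2 ≤ r / (r - 1) ^ 2 * (1 + 6 * δ) := by
    refine le_trans (mul_le_mul_of_nonneg_right h.w2 (sq_nonneg _)) ?_
    rw [mul_assoc]
    refine mul_le_mul_of_nonneg_left ?_ ρ0.le
    nlinarith [mul_pos δ0 δ0]
  have f4 : (μ + ν) / ν ≤ r * (1 + δ) := by rw [div_le_iff₀ ν0]; exact h.L1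
  have f5 : 2 * (d / ν - k / ν - δ) + 2 * j * (r - 1) ≤ Vn / ν := by
    rw [le_div_iff₀ ν0]
    have : (2 * (d / ν - k / ν - δ) + 2 * j * (r - 1)) * ν =
        2 * (d - k - δ * ν) + 2 * j * (r - 1) * ν := by field_simp
    linarith
  have f6 : (s / ν) ^ 2 ≤ δ ^ 2 :=
    pow_le_pow_left₀ (by positivity) (by rw [div_le_iff₀ ν0]; linarith) 2
  have key := g1core (R := r) (ρ := r / (r - 1) ^ 2) (θ := th2 r) (κ := k / ν) (x := d / ν)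
    (x' := (k - r) / ν) (j := j) R3 δ0 h.δ1 ε1
    (div_mul_cancel₀ _ (pow_ne_zero 2 (by linarith))) (div_mul_cancel₀ _ (by linarith))
    (by positivity) (by rw [div_le_iff₀ ν0]; exact hk) (by positivity)
    (by rw [div_le_iff₀ ν0]; exact hy) (by
      rw [sub_div]
      have : r / ν ≤ δ := by rw [div_le_iff₀ ν0]; linarith [h.big]
      linarith) (by
      have g1 := mul_le_mul_of_nonneg_left f2 (sq_nonneg ((k - r) / ν))
      have g2 := mul_le_mul (add_le_add_right f6 ((d / ν) ^ 2)) f3 (by positivity) (by positivity)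
      have g3 := mul_le_mul_of_nonneg_left f4 (Nat.cast_nonneg (α := ℝ) j)
      have g4 := mul_le_mul_of_nonneg_left f5 (show 0 ≤ 1 - δ by linarith)
      linarith)
  exact ⟨by rw [hj, key.1, add_zero], (div_le_iff₀ ν0).1 key.2⟩

/-- sharper bounds for the sizes and the spectral radius -/
theorem boot {N k : ℕ} (hN : ν = N / r) (hk : (k : ℝ) ≤ (r - 2) * ν) {T n y x : ℕ → ℕ}
    (hT : Bal r N T) (cand : Qn r μ T ≤ 1)
    (hn : ∀ i ∈ Icc 1 r, Cl δ ν (n i)) (hs : N ≤ ∑ i ∈ Icc 1 r, n i) {g e α β C : ℝ}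
    (a0 : 0 ≤ α) (b0 : 0 ≤ β) (g0 : 0 ≤ g) (g1 : g ≤ C) (e1 : e ≤ 1) (C1 : C ≤ δ * ν)
    (hx : ∑ i ∈ Icc 1 r, (x i : ℝ) ≤ C)
    (hy : ∑ i ∈ Icc 1 r, (y i : ℝ) ≤ (r - 1) * (1 + 2 * δ) * ν)
    (he : eK2 r n + 2 * ∑ i ∈ Icc 1 r, (y i : ℝ) ≤ tu2 r N + 2 * k + 2 * C)
    (up : 1 ≤ PhS r μ n y x g e α β) :
    |μ - (r - 1) * ν| ≤ 46 ∧ ∀ i ∈ Icc 1 r, ((n i : ℝ) - ν) ^ 2 ≤ 51 * r * ν := by
  have μ0 := h.μ0
  have ν0 := h.ν0
  have δ0 := h.δ0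
  have δ3 := h.δ3
  have R3 := h.R3
  have L0 := h.L0
  have m3 : 0 < μ - 3 := by linarith [h.μ5]
  have eN : (N : ℝ) = r * ν := by rw [hN]; field_simp
  obtain ⟨j, hj⟩ := Nat.exists_eq_add_of_le hs
  have hj' : ∑ i ∈ Icc 1 r, (n i : ℝ) = r * ν + j := by rw [← eN]; exact_mod_cast hj
  have hT' : ∑ i ∈ Icc 1 r, (T i : ℝ) = r * ν := by rw [← eN]; exact_mod_cast hT.2
  have rδ := mul_le_mul_of_nonneg_right h.δ2 ν0.le
  have δν := mul_pos δ0 ν0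
  have u1 := PhS_le (e := e) (y := y) (x := x) (by linarith) a0 b0 (fun i hi => h.p2 (hn i hi)) g0 e1
    (by linarith [h.μ1, h.δν, mul_le_mul_of_nonneg_right R3 ν0.le]) (by linarith [h.δν, h.μ3])
  have x0 : 0 ≤ ∑ i ∈ Icc 1 r, (x i : ℝ) := sum_nonneg fun _ _ => Nat.cast_nonneg _
  have d0 : 0 ≤ ∑ i ∈ Icc 1 r, (y i : ℝ) := sum_nonneg fun _ _ => Nat.cast_nonneg _
  have v1 : (∑ i ∈ Icc 1 r, ((n i : ℝ) - ν) ^ 2) * ((1 - δ) / (μ + ν)) ≤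
      ∑ i ∈ Icc 1 r, ((n i : ℝ) - ν) ^ 2 * (1 / (μ + n i)) := by
    rw [sum_mul]
    exact sum_le_sum fun i hi => mul_le_mul_of_nonneg_left (h.p1 (hn i hi)) (sq_nonneg _)
  have v2 : ∑ i ∈ Icc 1 r, ((T i : ℝ) - ν) ^ 2 * (1 / (μ + T i)) ≤ r * ((1 + δ) / (μ + ν)) := by
    have := sum_le_card_nsmul (Icc 1 r) (fun i => ((T i : ℝ) - ν) ^ 2 * (1 / (μ + T i)))
      (1 * ((1 + δ) / (μ + ν))) fun i hi => mul_le_mul ((sq_le_one_iff_abs_le_one _).2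
        (h.cl_bal hN hT hi)) (h.p2 (h.cl_of_bal hN hT hi)) (by positivity) (by norm_num)
    rwa [Nat.card_Icc, add_tsub_cancel_right, nsmul_eq_mul, one_mul] at this
  have v3 := var_eq r ν n
  have v4 := var_eq r ν T
  have v5 : 0 ≤ ∑ i ∈ Icc 1 r, ((T i : ℝ) - ν) ^ 2 := sum_nonneg fun _ _ => sq_nonneg _
  have v7 : ∀ i ∈ Icc 1 r, ((n i : ℝ) - ν) ^ 2 ≤ ∑ i ∈ Icc 1 r, ((n i : ℝ) - ν) ^ 2 := fun i hi =>
    single_le_sum (f := fun i => ((n i : ℝ) - ν) ^ 2) (fun _ _ => sq_nonneg _) hi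
  have v8 : 0 ≤ ∑ i ∈ Icc 1 r, ((n i : ℝ) - ν) ^ 2 := sum_nonneg fun _ _ => sq_nonneg _
  rw [hT.eK2, hT'] at v4
  rw [hj'] at v3
  rw [Qn_eq μ0 ν0, hT'] at cand
  rw [Qn_eq μ0 ν0, hj'] at u1
  generalize ∑ i ∈ Icc 1 r, (x i : ℝ) = s at *
  generalize ∑ i ∈ Icc 1 r, (y i : ℝ) = d at *
  generalize ∑ i ∈ Icc 1 r, ((n i : ℝ) - ν) ^ 2 * (1 / (μ + n i)) = W at *
  generalize ∑ i ∈ Icc 1 r, ((T i : ℝ) - ν) ^ 2 * (1 / (μ + T i)) = W' at *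
  have v6 : 2 * j * (r - 1) * ν - 2 * r * ν ≤ ∑ i ∈ Icc 1 r, ((n i : ℝ) - ν) ^ 2 := by
    linarith [sq_nonneg (j : ℝ), h.δν]
  generalize ∑ i ∈ Icc 1 r, ((n i : ℝ) - ν) ^ 2 = Vn at *
  have c0 : 0 < μ / (μ + ν) ^ 2 := by positivity
  have f1 : ∀ t : ℝ, 0 ≤ t → t ≤ (r - 1) * (1 + 2 * δ) * ν → (t * ((1 + δ) / (μ + ν))) ^ 2 ≤ 1 := by
    intro t t0 t1
    refine pow_le_one₀ (by positivity) ?_
    rw [← mul_div_assoc, div_le_one L0]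
    have := mul_le_mul_of_nonneg_right t1 (show 0 ≤ 1 + δ by linarith)
    have := mul_le_mul_of_nonneg_right (show δ ≤ 1 by linarith) (mul_pos (show (0 : ℝ) < r by linarith) δν).le
    linarith [h.μ1, mul_pos δ0 δν]
  have f2 : ((d * ((1 + δ) / (μ + ν))) ^ 2 + (s * ((1 + δ) / (μ + ν))) ^ 2) / (μ - 3) ≤ 3 / μ := by
    rw [div_le_div_iff₀ m3 μ0]
    have := mul_le_mul_of_nonneg_right (add_le_add (f1 d d0 hy) (f1 s x0 (by
      linarith [h.δν, mul_le_mul_of_nonneg_right R3 ν0.le, mul_le_mul_of_nonneg_right R3 δν.le]))) μ0.le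
    linarith [h.μ5]
  have b1 := mul_le_mul_of_nonneg_left v1 c0.le
  have b2 := mul_le_mul_of_nonneg_left v2 c0.le
  simp only [sub_self, mul_zero, zero_div, add_zero, add_sub_cancel_left] at cand u1
  have L3 : μ + ν ≤ 151 / 100 * μ := by linarith [h.μ3]
  have w1 : (μ + ν) / μ ≤ 151 / 100 := by rw [div_le_iff₀ μ0]; exact L3
  have main := mul_le_mul_of_nonneg_right (show μ / (μ + ν) ^ 2 * (Vn * ((1 - δ) / (μ + ν))) ≤
    μ * j / (μ + ν) ^ 2 + 3 / μ + μ / (μ + ν) ^ 2 * (r * ((1 + δ) / (μ + ν))) by linarith)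
    (show 0 ≤ (μ + ν) ^ 3 / μ by positivity)
  rw [show μ / (μ + ν) ^ 2 * (Vn * ((1 - δ) / (μ + ν))) * ((μ + ν) ^ 3 / μ) = Vn * (1 - δ) by field_simp,
    show (μ * j / (μ + ν) ^ 2 + 3 / μ + μ / (μ + ν) ^ 2 * (r * ((1 + δ) / (μ + ν)))) *
      ((μ + ν) ^ 3 / μ) = j * (μ + ν) + 3 * ((μ + ν) / μ) ^ 2 * (μ + ν) + r * (1 + δ) by
        field_simp] at main
  have w2 := mul_le_mul_of_nonneg_right (pow_le_pow_left₀ (by positivity) w1 2) L0.le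
  have j0 : (0 : ℝ) ≤ j := Nat.cast_nonneg _
  have w3 : Vn * (1 - δ) ≤ (j + 8) * (r * (1 + δ) * ν) := by
    have := mul_le_mul_of_nonneg_left h.L1 (show 0 ≤ (j : ℝ) + 8 by linarith)
    linarith [h.μ4, mul_le_mul_of_nonneg_left (show δ ≤ 1 by linarith) (show (0 : ℝ) ≤ r by linarith)]
  have j1 : (j : ℝ) ≤ 41 := by
    have a1 := (mul_le_mul_of_nonneg_right v6 (show 0 ≤ 1 - δ by linarith)).trans w3
    have a2 : (2 * j * (r - 1) - 2 * r) * (1 - δ) ≤ (j + 8) * (r * (1 + δ)) :=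
      le_of_mul_le_mul_right (by linarith) ν0
    by_contra hn
    have a3 := mul_le_mul_of_nonneg_right (not_le.1 hn).le (show (0 : ℝ) ≤ r by linarith)
    have a4 := mul_le_mul_of_nonneg_left δ3 (mul_nonneg j0 (show (0 : ℝ) ≤ r by linarith))
    have a5 := mul_le_mul_of_nonneg_left R3 j0
    linarith [mul_nonneg j0 δ0.le, h.δ2]
  refine ⟨abs_le.2 ⟨?_, ?_⟩, fun i hi => (v7 i hi).trans ?_⟩
  · have a1 : μ / (μ + ν) ^ 2 * (r * ((1 + δ) / (μ + ν))) ≤ 1 / (μ + ν) := by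
      rw [show μ / (μ + ν) ^ 2 * (r * ((1 + δ) / (μ + ν))) =
        μ * (r * (1 + δ)) / (μ + ν) ^ 2 / (μ + ν) by field_simp]
      refine div_le_div_of_nonneg_right ((div_le_one (by positivity)).2 ?_) L0.le
      rw [sq]
      refine mul_le_mul (by linarith) ?_ (by positivity) L0.le
      linarith [h.μ4, mul_le_mul_of_nonneg_left (show δ ≤ 1 by linarith) (show (0 : ℝ) ≤ r by linarith)]
    have a2 : (r * ν - 1) / (μ + ν) ≤ 1 := by rw [sub_div]; linarith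
    rw [div_le_one L0] at a2
    linarith
  · have a1 : μ * j / (μ + ν) ^ 2 ≤ 41 / (μ + ν) := by
      rw [sq, ← div_div]
      refine div_le_div_of_nonneg_right ?_ L0.le
      rw [div_le_iff₀ L0]
      linarith [mul_le_mul_of_nonneg_left j1 μ0.le]
    have a2 : 3 / μ ≤ 5 / (μ + ν) := by rw [div_le_div_iff₀ μ0 L0]; linarith
    have a3 : 0 ≤ μ / (μ + ν) ^ 2 * (Vn * ((1 - δ) / (μ + ν))) :=
      mul_nonneg c0.le (mul_nonneg v8 (div_nonneg (by linarith) L0.le))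
    have a4 : 1 ≤ (r * ν + 46) / (μ + ν) := by
      rw [show (r * ν + 46) / (μ + ν) = r * ν / (μ + ν) + 41 / (μ + ν) + 5 / (μ + ν) by ring]
      linarith
    rw [one_le_div L0] at a4
    linarith
  · have a1 := mul_pos (show (0 : ℝ) < r by linarith) ν0
    have a2 := mul_le_mul_of_nonneg_right (show (j : ℝ) + 8 ≤ 49 by linarith)
      (show 0 ≤ r * (1 + δ) * ν by positivity)
    have a3 := mul_le_mul_of_nonneg_left δ3 a1.le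
    have a4 := mul_le_mul_of_nonneg_left δ3 v8
    linarith

end Rg

end Pool.Agent.P.MP_094db5_co
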