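import Pool.Agent.P.MP_094db5_co.TN3

/-! Rebalancing moves and estimates of the outer entries. -/

set_option autoImplicit false

open Finset Classical

noncomputable section

namespace Pool.Agent.P.MP_094db5_co

namespace Rg

variable {r : ℕ} {δ ν μ : ℝ} (h : Rg r δ ν μ)
include h

lemma L3 : μ + ν ≤ 151 / 100 * μ := by linarith [h.μ3, h.μ0]

lemma inv1 {α : ℝ} (a1 : α ≤ 1 / (μ - 2)) : α * μ ≤ 101 / 100 := by
  have := h.μ5
  rw [le_div_iff₀ (by linarith)] at a1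
  by_contra hn
  have : 0 < α := by
    by_contra hn'
    nlinarith
  nlinarith

lemma inv2 {β : ℝ} (b1 : μ * β ≤ r / (μ - 2)) : β * μ ≤ δ := by
  have := h.μ5
  rw [mul_comm]
  refine b1.trans ?_
  rw [div_le_iff₀ (by linarith)]
  nlinarith [h.big, h.μ3, h.δ0, h.δ3, h.R3]

lemma P_bounds {J : Finset ℕ} {n y : ℕ → ℕ} {F : ℕ → ℝ} (hn : ∀ i ∈ J, Cl δ ν (n i))
    (hF : ∀ i ∈ J, 0 ≤ F i ∧ F i ≤ 1) :
    (∑ i ∈ J, (y i : ℝ)) * (1 - δ) ^ 2 / (μ + ν) ≤ ∑ i ∈ J, y i * (1 - F i / μ) / (μ + n i) ∧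
      ∑ i ∈ J, y i * (1 - F i / μ) / (μ + n i) ≤ (∑ i ∈ J, (y i : ℝ)) * (1 + δ) / (μ + ν) := by
  have μ0 := h.μ0
  have L0 := h.L0
  have δ3 := h.δ3
  simp only [sum_mul, sum_div]
  refine ⟨sum_le_sum fun i hi => ?_, sum_le_sum fun i hi => ?_⟩
  · have a1 : F i / μ ≤ δ := by
      rw [div_le_iff₀ μ0]
      nlinarith [(hF i hi).2, h.big, h.μ3, h.δ0, h.R3]
    calc (y i : ℝ) * (1 - δ) ^ 2 / (μ + ν) = y i * (1 - δ) * ((1 - δ) / (μ + ν)) := by ring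
      _ ≤ y i * (1 - F i / μ) * (1 / (μ + n i)) :=
          mul_le_mul (mul_le_mul_of_nonneg_left (by linarith) (Nat.cast_nonneg _)) (h.p1 (hn i hi))
            (div_nonneg (by linarith) L0.le) (mul_nonneg (Nat.cast_nonneg _) (by linarith))
      _ = _ := by ring
  · have a1 : 0 ≤ F i / μ := div_nonneg (hF i hi).1 μ0.le
    calc (y i : ℝ) * (1 - F i / μ) / (μ + n i) = y i * (1 - F i / μ) * (1 / (μ + n i)) := by ring
      _ ≤ y i * 1 * ((1 + δ) / (μ + ν)) :=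
          mul_le_mul (mul_le_mul_of_nonneg_left (by linarith) (Nat.cast_nonneg _)) (h.p2 (hn i hi))
            (by positivity) (by positivity)
      _ = _ := by ring

lemma stat_bound {α d P E : ℝ} (a0 : 0 ≤ α) (d0 : 0 ≤ d) (d1 : d ≤ (r - 1) * ν)
    (P1 : d * (1 - δ) ^ 2 / (μ + ν) ≤ P) (P2 : P ≤ d * (1 + δ) / (μ + ν)) (E0 : 0 ≤ E)
    (E1 : (E - α) * (μ + ν) ≤ 4) (e : μ * α = P + E) :
    |α * (μ + ν) - d / ((r - 1) * ν)| ≤ 5 * δ := by
  have L0 := h.L0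
  have δ0 := h.δ0
  have δ3 := h.δ3
  have c0 : 0 < (r - 1) * ν := mul_pos (by linarith [h.R3]) h.ν0
  have c1 : 2 * ν ≤ (r - 1) * ν := by nlinarith [h.R3, h.ν0]
  rw [div_le_iff₀ L0] at P1
  rw [le_div_iff₀ L0] at P2
  obtain ⟨κ, hκ⟩ : ∃ κ, d = κ * ((r - 1) * ν) := ⟨_, (div_mul_cancel₀ d c0.ne').symm⟩
  have κ0 : 0 ≤ κ := by
    by_contra hn
    nlinarith
  have κ1 : κ ≤ 1 := by
    by_contra hn
    nlinarith
  rw [hκ, mul_div_cancel_right₀ _ c0.ne']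
  have m1 : (r - 1) * ν * (1 - δ) ≤ μ - 1 := by
    nlinarith [h.μ1, mul_le_mul_of_nonneg_right c1 δ0.le, h.big, h.R3]
  have m2 : μ ≤ (r - 1) * ν * (1 + δ) := by
    nlinarith [h.μ2, mul_le_mul_of_nonneg_right c1 δ0.le, mul_pos δ0 h.ν0]
  have m3 : 4 ≤ δ * ((r - 1) * ν) := by
    nlinarith [mul_le_mul_of_nonneg_left c1 δ0.le, h.big, h.R3]
  have A0 : 0 ≤ α * (μ + ν) := mul_nonneg a0 L0.le
  have e1 : μ * (α * (μ + ν)) = P * (μ + ν) + E * (μ + ν) := by linear_combination (μ + ν) * e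
  have e2 : (E - α) * (μ + ν) = E * (μ + ν) - α * (μ + ν) := by ring
  have e3 : 0 ≤ E * (μ + ν) := mul_nonneg E0 L0.le
  rw [hκ] at P1 P2
  generalize α * (μ + ν) = A at *
  generalize (r - 1) * ν = c at *
  refine abs_le.2 ⟨?_, ?_⟩
  · have b1 : κ * (1 - δ) ^ 2 * c ≤ A * (1 + δ) * c := by
      nlinarith [mul_le_mul_of_nonneg_right m2 A0]
    have b2 := le_of_mul_le_mul_right b1 c0
    by_contra hn
    nlinarith [mul_nonneg κ0 (sq_nonneg δ), mul_le_mul_of_nonneg_right κ1 δ0.le, mul_pos δ0 δ0]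
  · have b1 : A * (1 - δ) * c ≤ (κ * (1 + δ) + δ) * c := by
      nlinarith [mul_le_mul_of_nonneg_right m1 A0]
    have b2 := le_of_mul_le_mul_right b1 c0
    by_contra hn
    nlinarith [mul_le_mul_of_nonneg_right κ1 δ0.le, mul_pos δ0 δ0]

lemma th2_le : th2 r * ν ≤ (r - 2) * ν := by
  refine mul_le_mul_of_nonneg_right ?_ h.ν0.le
  rw [th2, div_le_iff₀ (by linarith [h.R3])]
  nlinarith [h.R3]

lemma th2_div {d : ℝ} (hd : d ≤ th2 r * ν) : d / ((r - 1) * ν) ≤ 1 - 2 / r := by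
  have r0 : (0 : ℝ) < r := by linarith [h.R3]
  rw [div_le_iff₀ (mul_pos (by linarith [h.R3]) h.ν0)]
  refine hd.trans (le_of_eq ?_)
  rw [th2]
  field_simp

/-- moving one vertex from a large part to a small part -/
lemma move_core {n n' y y' : ℕ → ℕ} {s : ℕ → ℝ} {u v : ℕ} {α : ℝ}
    (hn : ∀ i ∈ Icc 1 r, Cl δ ν (n i)) (hu : u ∈ Icc 1 r) (hv : v ∈ Icc 1 r)
    (huv : n v + 2 ≤ n u) (e1 : n' u + 1 = n u) (e2 : n' v = n v + 1)
    (e3 : ∀ i, i ≠ u → i ≠ v → n' i = n i) (hy : ∀ i ∈ Icc 1 r, y' i ≤ y i ∧ y i ≤ n i)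
    (hs : ∀ i ∈ Icc 1 r, 0 ≤ s i ∧ s i ≤ δ)
    (hg : ∑ i ∈ Icc 1 r, (y i : ℝ) ≤ ∑ i ∈ Icc 1 r, (y' i : ℝ) + (n u - n v - 1))
    (a0 : 0 ≤ α) (a1 : α * (μ + ν) ≤ 1 - 2 / r + 5 * δ) :
    ∑ i ∈ Icc 1 r, ph1 μ (n i) (y i * α + s i) + (n u - n v - 1) * (3 / r ^ 2) / (μ + ν) ^ 2 ≤
      ∑ i ∈ Icc 1 r, ph1 μ (n' i) (y' i * α + s i) := by
  have μ0 := h.μ0
  have L0 := h.L0
  have δ0 := h.δ0
  have δ3 := h.δ3
  have r0 : (0 : ℝ) < r := by linarith [h.R3]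
  have c1 : (n v : ℝ) + 2 ≤ n u := by exact_mod_cast huv
  have c2 : (n' u : ℝ) = n u - 1 := by rw [← e1]; push_cast; ring
  have c3 : (n' v : ℝ) = n v + 1 := by rw [e2]; push_cast; ring
  have hn' : ∀ i ∈ Icc 1 r, Cl δ ν (n' i) := fun i hi => by
    have b1 := n1 (hn v hv)
    have b2 := n2 (hn u hu)
    by_cases a : i = u
    · rw [a, Cl, c2]; exact abs_le.2 ⟨by linarith, by linarith⟩
    · by_cases b : i = v
      · rw [b, Cl, c3]; exact abs_le.2 ⟨by linarith, by linarith⟩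
      · rw [e3 i a b]; exact hn i hi
  have k1 : ∑ i ∈ Icc 1 r, (ph1 μ (n' i) (y i * α + s i) -
      2 * α * ((1 + δ) / (μ + ν)) * (y i - y' i)) ≤ ∑ i ∈ Icc 1 r, ph1 μ (n' i) (y' i * α + s i) := by
    refine sum_le_sum fun i hi => ?_
    have b1 : (y' i : ℝ) ≤ y i := by exact_mod_cast (hy i hi).1
    have b2 : 0 ≤ (y i - y' i) * α := mul_nonneg (by linarith) a0
    have b3 := mul_le_mul_of_nonneg_left (h.p2 (hn' i hi)) b2
    have b4 : 0 ≤ (y i - y' i) * α * ((y i * α + s i + (y' i * α + s i)) / (μ * (μ + n' i))) := by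
      have := (hs i hi).1
      positivity
    have b5 : ph1 μ (n' i) (y' i * α + s i) = ph1 μ (n' i) (y i * α + s i) -
        2 * ((y i - y' i) * α * (1 / (μ + n' i))) +
        (y i - y' i) * α * ((y i * α + s i + (y' i * α + s i)) / (μ * (μ + n' i))) := by
      have : (0 : ℝ) < μ + n' i := by positivity
      unfold ph1
      field_simp
      ring
    linarith
  simp only [sum_sub_distrib, ← mul_sum] at k1
  rw [sum_two hu hv (fun e => by rw [e] at huv; omega)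
    (g := fun i => ph1 μ (n i) (y i * α + s i)) fun i _ a b => by rw [e3 i a b]] at k1
  have hF : ∀ i ∈ Icc 1 r, 0 ≤ y i * α + s i ∧ y i * α + s i ≤ 1 / r - 2 / r ^ 2 + 8 * δ := by
    intro i hi
    refine ⟨add_nonneg (by positivity) (hs i hi).1, ?_⟩
    have b1 : (y i : ℝ) ≤ n i := by exact_mod_cast (hy i hi).2
    have b2 : (y i : ℝ) ≤ (1 / r + δ) * (μ + ν) := by
      have b3 := mul_le_mul_of_nonneg_left h.L2 (show 0 ≤ 1 / (r : ℝ) + δ by positivity)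
      have b4 : (1 / (r : ℝ) + δ) * (r * (1 - δ) * ν) = (1 + r * δ) * (1 - δ) * ν := by field_simp
      have b5 : (1 + δ) * ν ≤ (1 + r * δ) * (1 - δ) * ν := by
        refine mul_le_mul_of_nonneg_right ?_ h.ν0.le
        nlinarith [h.R3, h.δ2]
      linarith [n2 (hn i hi)]
    have b3 := mul_le_mul_of_nonneg_right b2 a0
    have b4 := mul_le_mul_of_nonneg_left a1 (show 0 ≤ 1 / (r : ℝ) + δ by positivity)
    have b5 : (1 / (r : ℝ) + δ) * (1 - 2 / r + 5 * δ) =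
        1 / r - 2 / r ^ 2 + δ * (1 + 3 * (1 / r) + 5 * δ) := by ring
    have b6 : 1 / (r : ℝ) ≤ 1 := by rw [div_le_one r0]; linarith [h.R3]
    nlinarith [(hs i hi).2]
  obtain ⟨t, ht⟩ : ∃ t : ℝ, t = 1 / r := ⟨_, rfl⟩
  have t0 : 0 < t := by rw [ht]; positivity
  have t1 : t ≤ 1 / 3 := by rw [ht]; exact one_div_le_one_div_of_le (by norm_num) h.R3
  have t2 : 1000 * δ ≤ t ^ 2 := by
    rw [ht, div_pow, le_div_iff₀ (by positivity)]
    linarith [h.δ1]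
  have t3 : 2 / (r : ℝ) = 2 * t := by rw [ht]; ring
  have t4 : 2 / (r : ℝ) ^ 2 = 2 * t ^ 2 := by rw [ht]; ring
  have t5 : 3 / (r : ℝ) ^ 2 = 3 * t ^ 2 := by rw [ht]; ring
  have t6 : (1 - t - δ) * (μ + ν) ≤ μ := by
    have b1 : t * r = 1 := by rw [ht]; field_simp
    refine le_of_mul_le_mul_left ?_ r0
    have : r * ((1 - t - δ) * (μ + ν)) = (r - 1 - r * δ) * (μ + ν) := by
      linear_combination (-(μ + ν)) * b1
    nlinarith [h.μ1, h.R3, mul_pos δ0 h.ν0, mul_pos δ0 μ0]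
  rw [← ht, t4] at hF
  rw [t3] at a1
  rw [t5]
  have pu := h.p1 (hn u hu)
  have pu' := h.p1 (hn' u hu)
  have pv := h.p1 (hn v hv)
  have pv' := h.p1 (hn' v hv)
  have qv := h.p2 (hn v hv)
  have qv' := h.p2 (hn' v hv)
  have nu : (0 : ℝ) < μ + n u := by positivity
  have nv : (0 : ℝ) < μ + n v := by positivity
  have nu' : (0 : ℝ) < μ + n' u := by positivity
  have nv' : (0 : ℝ) < μ + n' v := by positivity
  have ku : -(μ * (1 / (μ + n u) * (1 / (μ + n' u)))) ≤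
      ph1 μ (n' u) (y u * α + s u) - ph1 μ (n u) (y u * α + s u) := by
    have b1 := hF u hu
    rw [ph1_eq μ0, ph1_eq μ0]
    generalize y u * α + s u = F at *
    have b2 : (μ - F) ^ 2 ≤ μ ^ 2 := by nlinarith [h.μ5]
    have b3 : 1 - (μ - F) ^ 2 / (μ * (μ + n' u)) - (1 - (μ - F) ^ 2 / (μ * (μ + n u))) =
        -((μ - F) ^ 2 / μ * (1 / (μ + n u) * (1 / (μ + n' u)))) := by
      rw [c2] at nu' ⊢
      field_simp
      ring
    rw [b3, neg_le_neg_iff]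
    refine mul_le_mul_of_nonneg_right ?_ (by positivity)
    rw [div_le_iff₀ μ0]
    linarith
  have kv : (μ - 2 * (t - 2 * t ^ 2 + 8 * δ)) * (1 / (μ + n v) * (1 / (μ + n' v))) ≤
      ph1 μ (n' v) (y v * α + s v) - ph1 μ (n v) (y v * α + s v) := by
    have b1 := hF v hv
    rw [ph1_eq μ0, ph1_eq μ0]
    generalize y v * α + s v = F at *
    have b3 : 1 - (μ - F) ^ 2 / (μ * (μ + n' v)) - (1 - (μ - F) ^ 2 / (μ * (μ + n v))) =
        (μ - F) ^ 2 / μ * (1 / (μ + n v) * (1 / (μ + n' v))) := by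
      rw [c3] at nv' ⊢
      field_simp
      ring
    rw [b3]
    refine mul_le_mul_of_nonneg_right ?_ (by positivity)
    rw [le_div_iff₀ μ0]
    nlinarith [sq_nonneg F]
  have kd : 1 / (μ + n v) * (1 / (μ + n' v)) - 1 / (μ + n u) * (1 / (μ + n' u)) =
      (n u - n v - 1) * (2 * μ + n u + n v) *
        (1 / (μ + n u) * (1 / (μ + n' u)) * (1 / (μ + n v)) * (1 / (μ + n' v))) := by
    rw [c2] at nu' ⊢
    rw [c3] at nv' ⊢
    field_simp
    ring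
  have d1 : 0 ≤ (1 - δ) / (μ + ν) := div_nonneg (by linarith) L0.le
  have k2 : (n u - n v - 1) * (2 * (μ + ν) * (1 - δ)) * ((1 - δ) / (μ + ν) * ((1 - δ) / (μ + ν)) *
      ((1 - δ) / (μ + ν)) * ((1 - δ) / (μ + ν))) ≤ (n u - n v - 1) * (2 * μ + n u + n v) *
        (1 / (μ + n u) * (1 / (μ + n' u)) * (1 / (μ + n v)) * (1 / (μ + n' v))) := by
    have b1 : (0 : ℝ) ≤ n u - n v - 1 := by linarith
    have b2 : 2 * (μ + ν) * (1 - δ) ≤ 2 * μ + n u + n v := by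
      nlinarith [n1 (hn u hu), n1 (hn v hv), mul_pos δ0 μ0]
    gcongr
  have k3 : 1 / (μ + n v) * (1 / (μ + n' v)) ≤ (1 + δ) / (μ + ν) * ((1 + δ) / (μ + ν)) := by gcongr
  rw [← kd] at k2
  have g1 : (1 : ℝ) ≤ n u - n v - 1 := by linarith
  generalize (n u : ℝ) - n v - 1 = g at *
  generalize 1 / (μ + n v) * (1 / (μ + n' v)) = Pv at *
  generalize 1 / (μ + n u) * (1 / (μ + n' u)) = Pu at *
  have k4 : g * (2 * (1 - t - δ) * (1 - δ) ^ 5) / (μ + ν) ^ 2 ≤ μ * (Pv - Pu) := by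
    refine le_trans ?_ (mul_le_mul (t6) k2 (by have : 0 ≤ 1 - δ := by linarith
                                               positivity) μ0.le)
    refine le_of_eq ?_
    field_simp
  have k5 : 2 * (t - 2 * t ^ 2 + 8 * δ) * Pv ≤
      g * (2 * (t - 2 * t ^ 2 + 8 * δ) * (1 + δ) ^ 2) / (μ + ν) ^ 2 := by
    have b1 : 0 ≤ 2 * (t - 2 * t ^ 2 + 8 * δ) := by nlinarith
    calc _ ≤ 2 * (t - 2 * t ^ 2 + 8 * δ) * ((1 + δ) / (μ + ν) * ((1 + δ) / (μ + ν))) :=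
          mul_le_mul_of_nonneg_left k3 b1
      _ = 1 * (2 * (t - 2 * t ^ 2 + 8 * δ) * (1 + δ) ^ 2) / (μ + ν) ^ 2 := by field_simp
      _ ≤ _ := by gcongr
  have k6 : 2 * α * ((1 + δ) / (μ + ν)) * (∑ i ∈ Icc 1 r, (y i : ℝ) - ∑ i ∈ Icc 1 r, (y' i : ℝ)) ≤
      g * (2 * (1 - 2 * t + 5 * δ) * (1 + δ)) / (μ + ν) ^ 2 := by
    calc _ ≤ 2 * α * ((1 + δ) / (μ + ν)) * g :=
          mul_le_mul_of_nonneg_left (by linarith) (by positivity)
      _ = g * (2 * (α * (μ + ν)) * (1 + δ)) / (μ + ν) ^ 2 := by field_simp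
      _ ≤ _ := by gcongr
  have k7 : 3 * t ^ 2 + 2 * (1 - 2 * t + 5 * δ) * (1 + δ) +
      2 * (t - 2 * t ^ 2 + 8 * δ) * (1 + δ) ^ 2 ≤ 2 * (1 - t - δ) * (1 - δ) ^ 5 := by
    have b1 : 1 - 5 * δ ≤ (1 - δ) ^ 5 := by
      have := one_add_mul_le_pow (a := -δ) (by linarith) 5
      push_cast at this
      linarith [show (1 + -δ) ^ 5 = (1 - δ) ^ 5 by ring]
    have b2 := mul_le_mul_of_nonneg_left b1 (show 0 ≤ 2 * (1 - t - δ) by linarith)
    have b3 : (1 + δ) ^ 2 ≤ 1 + 3 * δ := by nlinarith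
    have b4 := mul_le_mul_of_nonneg_left b3 (show 0 ≤ 2 * (t - 2 * t ^ 2 + 8 * δ) by nlinarith)
    nlinarith [mul_pos t0 δ0, mul_pos δ0 δ0, mul_nonneg (sq_nonneg t) δ0.le]
  have k8 := div_le_div_of_nonneg_right (mul_le_mul_of_nonneg_left k7 (show 0 ≤ g by linarith))
    (sq_nonneg (μ + ν))
  rw [mul_add, mul_add, add_div, add_div] at k8
  nlinarith

end Rg

end Pool.Agent.P.MP_094db5_co
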