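import Pool.Agent.P.MP_094db5_co.TN4

/-! Optimal data of the star type. -/

set_option autoImplicit false

open Finset Classical

noncomputable section

namespace Pool.Agent.P.MP_094db5_co

/-- all admissible data of the star type have secular function at most one -/
def OrS (r bk g₀ cp : ℕ) (μ M : ℝ) : Prop :=
  ∀ (n : ℕ → ℕ) (a : ℕ) (y : ℕ → ℕ), (∀ i ∈ Icc 1 r, 2 ≤ n i) → DatS r bk cp n a y →
    (∃ j ∈ (Icc 1 r).erase a, y j < n j) →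
    eK2 r n + 2 * ∑ i ∈ Icc 1 r, (y i : ℝ) + 2 * r = M → ∀ α β, PhK r μ bk g₀ n a y α β ≤ 1

/-- all admissible data of the pair type have secular function at most one -/
def OrP (r : ℕ) (μ M : ℝ) : Prop :=
  ∀ (n : ℕ → ℕ) (a b : ℕ) (x : ℕ → ℕ), (∀ i ∈ Icc 1 r, 2 ≤ n i) → a ∈ Icc 1 r → b ∈ Icc 1 r →
    a ≠ b → Ad (Icc 1 r \ {a, b}) 1 0 n x →
    eK2 r n + 2 * ∑ i ∈ Icc 1 r \ {a, b}, (x i : ℝ) + 2 = M → ∀ α γ β, PhP r μ n a b x α γ β ≤ 1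

lemma DatS.sum_eq {r bk cp a : ℕ} {n y : ℕ → ℕ} (h : DatS r bk cp n a y) :
    ∑ i ∈ Icc 1 r, (y i : ℝ) = ∑ i ∈ (Icc 1 r).erase a, (y i : ℝ) := by
  rw [← add_sum_erase _ _ h.ha, h.ya, Nat.cast_zero, zero_add]

lemma DatS.le {r bk cp a : ℕ} {n y : ℕ → ℕ} (h : DatS r bk cp n a y) {i : ℕ} (hi : i ∈ Icc 1 r) :
    y i ≤ n i := by
  by_cases e : i = a
  · rw [e, h.ya]; exact Nat.zero_le _
  · have := (h.ad i (mem_erase.2 ⟨e, hi⟩)).2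
    omega

lemma card_er {r a : ℕ} (ha : a ∈ Icc 1 r) : ((Icc 1 r).erase a).card + 1 = r := by
  rw [card_erase_add_one ha]; simp

namespace Rg

variable {r : ℕ} {δ ν μ : ℝ} (h : Rg r δ ν μ)
include h

lemma two_le {n : ℕ → ℕ} (hn : ∀ i ∈ Icc 1 r, Cl δ ν (n i)) : ∀ i ∈ Icc 1 r, 2 ≤ n i := fun i hi => by
  have := h.n4 (hn i hi)
  have := h.r3
  omega

lemma slack {n : ℕ → ℕ} (hn : ∀ i ∈ Icc 1 r, Cl δ ν (n i)) {a : ℕ} (ha : a ∈ Icc 1 r) :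
    th2 r * ν + 3 * r ≤ ∑ i ∈ (Icc 1 r).erase a, (n i : ℝ) := by
  have := h.le_sum_erase hn ha
  nlinarith [h.th2_le, h.ν1, h.δ2, h.ν0, mul_le_mul_of_nonneg_right h.δ2 h.ν0.le,
    mul_pos h.δ0 h.ν0]

lemma room {n y : ℕ → ℕ} (hn : ∀ i ∈ Icc 1 r, Cl δ ν (n i)) {a : ℕ} (ha : a ∈ Icc 1 r)
    (hd : ∑ i ∈ (Icc 1 r).erase a, (y i : ℝ) ≤ th2 r * ν + 2 * r) :
    ∃ j ∈ (Icc 1 r).erase a, y j < n j := by
  by_contra hn'
  push Not at hn'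
  have : ∑ i ∈ (Icc 1 r).erase a, (n i : ℝ) ≤ ∑ i ∈ (Icc 1 r).erase a, (y i : ℝ) :=
    sum_le_sum fun i hi => by exact_mod_cast hn' i hi
  linarith [h.slack hn ha, h.R3]

lemma exists_dat {n : ℕ → ℕ} (hn : ∀ i ∈ Icc 1 r, Cl δ ν (n i)) {a : ℕ} (ha : a ∈ Icc 1 r)
    {bk cp d : ℕ} (hcp : cp ≤ 1) (h1 : r ≤ d + 1) (h2 : (d : ℝ) ≤ th2 r * ν) :
    ∃ y, DatS r bk cp n a y ∧ ∑ i ∈ Icc 1 r, (y i : ℝ) = d := by
  have c := card_er ha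
  obtain ⟨y, y1, y2, y3⟩ := exists_mid ((Icc 1 r).erase a) (fun _ => 1) (fun i => n i - 1)
    (fun i hi => by have := h.two_le hn i (mem_of_mem_erase hi); omega) d (by simp; omega) (by
      have a1 : ∑ i ∈ (Icc 1 r).erase a, n i ≤ ∑ i ∈ (Icc 1 r).erase a, (n i - 1 + 1) :=
        sum_le_sum fun i _ => by omega
      rw [sum_add_distrib, sum_const, smul_eq_mul, mul_one] at a1
      have a2 : d + 3 * r ≤ ∑ i ∈ (Icc 1 r).erase a, n i := by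
        have := h.slack hn ha
        exact_mod_cast (by push_cast; linarith : ((d + 3 * r : ℕ) : ℝ) ≤
          (∑ i ∈ (Icc 1 r).erase a, n i : ℕ))
      omega)
  have hd : DatS r bk cp n a y := ⟨ha, y2 a (notMem_erase _ _), fun i hi => by
    have := y1 i hi
    have := h.two_le hn i (mem_of_mem_erase hi)
    omega⟩
  exact ⟨y, hd, by rw [hd.sum_eq]; exact_mod_cast y3⟩

/-- the Turan candidate -/
lemma cand {N k bk g₀ cp : ℕ} (hN : ν = N / r) (hcp : cp ≤ 1) (hk : (k : ℝ) ≤ th2 r * ν)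
    (rk : 2 * r ≤ k + 1) (o : OrS r bk g₀ cp μ (tu2 r N + 2 * k)) : ∃ T, Bal r N T ∧
      Qn r μ T + (((k : ℝ) - r) * ((1 - δ) / (μ + ν))) ^ 2 / μ ≤ 1 := by
  have r3 := h.r3
  obtain ⟨T, hT⟩ := exists_bal (show 1 ≤ r by omega) N
  have cl : ∀ i ∈ Icc 1 r, Cl δ ν (T i) := fun i hi => h.cl_of_bal hN hT hi
  have h1 : 1 ∈ Icc 1 r := mem_Icc.2 ⟨le_rfl, by omega⟩
  have e : ((k - r : ℕ) : ℝ) = k - r := Nat.cast_sub (by omega)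
  obtain ⟨y, y1, y2⟩ := h.exists_dat cl h1 (bk := bk) (d := k - r) hcp (by omega)
    (by rw [e]; linarith [h.R3])
  rw [e] at y2
  have a1 := o T 1 y (h.two_le cl) y1 (h.room cl h1 (by rw [← y1.sum_eq, y2]; linarith [h.R3]))
    (by rw [hT.eK2, y2]; ring)
  have a2 := PhS_ge (g := gS r bk g₀ y) (e := 1 - bk) (y := y) (x := xS bk 1) h.μ0
    (div_nonneg (by linarith [h.δ3]) h.L0.le) (fun i hi => h.p1 (cl i hi)) fun i hi => y1.le hi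
  rw [y2] at a2
  exact ⟨T, hT, a2.trans (a1 _ _)⟩

end Rg

lemma exists_move (n : ℕ → ℕ) {r u v : ℕ} (hu : u ∈ Icc 1 r) (hv : v ∈ Icc 1 r)
    (huv : n v + 2 ≤ n u) : ∃ n' : ℕ → ℕ, n' u + 1 = n u ∧ n' v = n v + 1 ∧
      (∀ i, i ≠ u → i ≠ v → n' i = n i) ∧ ∑ i ∈ Icc 1 r, n' i = ∑ i ∈ Icc 1 r, n i ∧
      eK2 r n' = eK2 r n + 2 * (n u - n v - 1) := by
  have hne : u ≠ v := fun e => by rw [e] at huv; omega
  obtain ⟨n', e1, e2, e3⟩ : ∃ n' : ℕ → ℕ, n' u + 1 = n u ∧ n' v = n v + 1 ∧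
      ∀ i, i ≠ u → i ≠ v → n' i = n i :=
    ⟨fun i => if i = u then n u - 1 else if i = v then n v + 1 else n i, by simp; omega,
      by simp [hne.symm], fun i a b => by simp [a, b]⟩
  have c2 : (n' u : ℝ) = n u - 1 := by rw [← e1]; push_cast; ring
  have c3 : (n' v : ℝ) = n v + 1 := by rw [e2]; push_cast; ring
  have s1 := sum_two hu hv hne (f := fun i => (n' i : ℝ)) (g := fun i => (n i : ℝ))
    fun i _ a b => by rw [e3 i a b]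
  have s2 := sum_two hu hv hne (f := fun i => (n' i : ℝ) ^ 2) (g := fun i => (n i : ℝ) ^ 2)
    fun i _ a b => by rw [e3 i a b]
  rw [c2, c3] at s1 s2
  refine ⟨n', e1, e2, e3, ?_, ?_⟩
  · exact_mod_cast (by push_cast; linarith : ((∑ i ∈ Icc 1 r, n' i : ℕ) : ℝ) =
      (∑ i ∈ Icc 1 r, n i : ℕ))
  · rw [eK2, eK2, s1, s2]; ring

lemma cl_move {δ ν : ℝ} {n n' : ℕ → ℕ} {r u v : ℕ} (hn : ∀ i ∈ Icc 1 r, Cl δ ν (n i))
    (hu : u ∈ Icc 1 r) (hv : v ∈ Icc 1 r) (huv : n v + 2 ≤ n u) (e1 : n' u + 1 = n u)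
    (e2 : n' v = n v + 1) (e3 : ∀ i, i ≠ u → i ≠ v → n' i = n i) :
    ∀ i ∈ Icc 1 r, Cl δ ν (n' i) := fun i hi => by
  have c1 : (n v : ℝ) + 2 ≤ n u := by exact_mod_cast huv
  have c2 : (n' u : ℝ) = n u - 1 := by rw [← e1]; push_cast; ring
  have c3 : (n' v : ℝ) = n v + 1 := by rw [e2]; push_cast; ring
  have b1 := Rg.n1 (hn v hv)
  have b2 := Rg.n2 (hn u hu)
  by_cases a : i = u
  · rw [a, Cl, c2]; exact abs_le.2 ⟨by linarith, by linarith⟩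
  · by_cases b : i = v
    · rw [b, Cl, c3]; exact abs_le.2 ⟨by linarith, by linarith⟩
    · rw [e3 i a b]; exact hn i hi

/-- removing `g` units while respecting the new capacities -/
lemma exists_less {J : Finset ℕ} {l c u g : ℕ} {n n' y : ℕ → ℕ} (ha : Ad J l c n y)
    (h1 : ∀ i ∈ J, l + c ≤ n' i) (h2 : ∀ i ∈ J, i ≠ u → n i ≤ n' i) (h3 : n u ≤ n' u + 1)
    (g1 : 1 ≤ g) (g2 : J.card * l + g ≤ ∑ i ∈ J, y i) : ∃ y' : ℕ → ℕ, Ad J l c n' y' ∧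
      (∀ i ∈ J, y' i ≤ y i) ∧ (∀ i ∉ J, y' i = 0) ∧ ∑ i ∈ J, y' i + g = ∑ i ∈ J, y i := by
  obtain ⟨y', y1, y2, y3⟩ := exists_mid J (fun _ => l) (fun i => min (y i) (n' i - c))
    (fun i hi => by have := ha i hi; have := h1 i hi; omega) (∑ i ∈ J, y i - g)
    (by rw [sum_const, smul_eq_mul]; omega) (by
      have a1 : ∑ i ∈ J, y i ≤ ∑ i ∈ J, (min (y i) (n' i - c) + if i = u then 1 else 0) :=
        sum_le_sum fun i hi => by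
          have := ha i hi
          split_ifs with e
          · rw [e] at this ⊢; omega
          · have := h2 i hi e; omega
      rw [sum_add_distrib, sum_ite_eq'] at a1
      split_ifs at a1 <;> omega)
  exact ⟨y', fun i hi => by have := y1 i hi; have := h1 i hi; omega,
    fun i hi => by have := y1 i hi; omega, y2, by omega⟩

/-- optimal data of the star type -/
structure OptS (r bk g₀ cp : ℕ) (δ ν μ M : ℝ) (n : ℕ → ℕ) (a : ℕ) (y : ℕ → ℕ) (α β : ℝ) :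
    Prop where
  rg : Rg r δ ν μ
  bk1 : bk ≤ 1
  cp1 : cp ≤ 1
  g1 : g₀ ≤ r
  or : OrS r bk g₀ cp μ M
  cl : ∀ i ∈ Icc 1 r, Cl δ ν (n i)
  dat : DatS r bk cp n a y
  ed : eK2 r n + 2 * ∑ i ∈ Icc 1 r, (y i : ℝ) + 2 * r = M
  a0 : 0 ≤ α
  a1 : α ≤ 1 / (μ - 2)
  b0 : 0 ≤ β
  b1 : μ * β ≤ r / (μ - 2)
  up : 1 ≤ PhK r μ bk g₀ n a y α β
  self : ∀ α' β', PhK r μ bk g₀ n a y α' β' ≤ 1

lemma xS_le {bk : ℕ} (h : bk ≤ 1) (a i : ℕ) : xS bk a i ≤ 1 := by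
  unfold xS; split_ifs <;> omega

lemma gS_le {r bk g₀ : ℕ} (h : bk ≤ 1) (h1 : g₀ ≤ r) (y : ℕ → ℕ) :
    0 ≤ gS r bk g₀ y ∧ gS r bk g₀ y ≤ 2 * r := by
  have a1 : ∑ i ∈ Icc 1 r, ((min (y i) 1 : ℕ) : ℝ) ≤ r := by
    have := sum_le_card_nsmul (Icc 1 r) (fun i => ((min (y i) 1 : ℕ) : ℝ)) 1
      fun i _ => by exact_mod_cast min_le_right _ _
    simpa using this
  have a2 : 0 ≤ ∑ i ∈ Icc 1 r, ((min (y i) 1 : ℕ) : ℝ) := sum_nonneg fun _ _ => Nat.cast_nonneg _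
  have a3 : (bk : ℝ) ≤ 1 := by exact_mod_cast h
  have a4 : (g₀ : ℝ) ≤ r := by exact_mod_cast h1
  unfold gS
  exact ⟨by positivity, by nlinarith⟩

namespace OptS

variable {r bk g₀ cp : ℕ} {δ ν μ M : ℝ} {n : ℕ → ℕ} {a : ℕ} {y : ℕ → ℕ} {α β : ℝ}
  (h : OptS r bk g₀ cp δ ν μ M n a y α β)
include h

lemma βδ : β ≤ δ / 300000 := by
  have := h.rg.inv2 h.b1
  nlinarith [h.rg.μ5, h.b0]

lemma sb (i : ℕ) : 0 ≤ xS bk a i * β ∧ xS bk a i * β ≤ β := by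
  have : (xS bk a i : ℝ) ≤ 1 := by exact_mod_cast xS_le h.bk1 a i
  exact ⟨mul_nonneg (Nat.cast_nonneg _) h.b0, mul_le_of_le_one_left h.b0 this⟩

lemma yα {i : ℕ} (hi : i ∈ Icc 1 r) : y i * α ≤ 52 / 100 := by
  have a1 : (y i : ℝ) ≤ n i := by exact_mod_cast h.dat.le hi
  have a2 := mul_le_mul_of_nonneg_right (a1.trans (h.rg.n3 (h.cl i hi))) h.a0
  linarith [h.rg.inv1 h.a1]

lemma hF : ∀ i ∈ Icc 1 r, 0 ≤ y i * α + xS bk a i * β ∧ y i * α + xS bk a i * β ≤ 1 := fun i hi =>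
  ⟨add_nonneg (mul_nonneg (Nat.cast_nonneg _) h.a0) (h.sb i).1,
    by linarith [h.yα hi, (h.sb i).2, h.βδ, h.rg.δ3]⟩

lemma stat0 : μ * α = ∑ i ∈ Icc 1 r, y i * (1 - (y i * α + xS bk a i * β) / μ) / (μ + n i) +
    (((∑ i ∈ Icc 1 r, (y i : ℝ)) * α + gS r bk g₀ y * β) / μ + (1 - bk) * β) := by
  rw [← add_assoc]
  exact PhS_stat fun α' => (h.self α' β).trans h.up

lemma E0 : 0 ≤ ((∑ i ∈ Icc 1 r, (y i : ℝ)) * α + gS r bk g₀ y * β) / μ + (1 - bk) * β := by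
  have a3 : (bk : ℝ) ≤ 1 := by exact_mod_cast h.bk1
  have := (gS_le h.bk1 h.g1 y).1
  have := h.a0
  have := h.b0
  have := h.rg.μ0
  exact add_nonneg (by positivity) (mul_nonneg (by linarith) h.b0)

lemma apos (hd : 1 ≤ ∑ i ∈ Icc 1 r, (y i : ℝ)) : 0 < α := by
  have a1 := (h.rg.P_bounds (y := y) h.cl h.hF).1
  have a2 : 0 < (∑ i ∈ Icc 1 r, (y i : ℝ)) * (1 - δ) ^ 2 / (μ + ν) :=
    div_pos (mul_pos (by linarith) (pow_pos (by linarith [h.rg.δ3]) 2)) h.rg.L0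
  by_contra hn
  nlinarith [h.stat0, h.E0, h.rg.μ0]

lemma stat (hd : ∑ i ∈ Icc 1 r, (y i : ℝ) ≤ th2 r * ν) :
    |α * (μ + ν) - (∑ i ∈ Icc 1 r, (y i : ℝ)) / ((r - 1) * ν)| ≤ 5 * δ := by
  have a1 := h.rg.P_bounds (y := y) h.cl h.hF
  have a2 := h.rg.th2_le
  have μ0 := h.rg.μ0
  refine h.rg.stat_bound h.a0 (sum_nonneg fun _ _ => Nat.cast_nonneg _) (by linarith [h.rg.ν0])
    a1.1 a1.2 h.E0 ?_ h.stat0
  have b1 : ((∑ i ∈ Icc 1 r, (y i : ℝ)) * α + gS r bk g₀ y * β) / μ ≤ α + β := by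
    rw [div_le_iff₀ μ0]
    have c1 : ∑ i ∈ Icc 1 r, (y i : ℝ) ≤ μ := by linarith [h.rg.μ1, h.rg.δν, h.rg.ν0]
    have c2 : gS r bk g₀ y ≤ μ := by linarith [(gS_le h.bk1 h.g1 y).2, h.rg.μ4, h.rg.R3]
    nlinarith [mul_le_mul_of_nonneg_right c1 h.a0, mul_le_mul_of_nonneg_right c2 h.b0]
  have b2 : (1 - bk) * β ≤ β := by nlinarith [mul_nonneg (Nat.cast_nonneg (α := ℝ) bk) h.b0]
  have b3 := mul_le_mul_of_nonneg_left h.rg.L3 h.b0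
  have b4 := h.rg.inv2 h.b1
  calc _ ≤ (2 * β) * (μ + ν) := mul_le_mul_of_nonneg_right (by linarith) h.rg.L0.le
    _ ≤ 4 := by nlinarith [h.rg.δ3]

lemma greedy (hd : ∑ i ∈ Icc 1 r, (y i : ℝ) ≤ th2 r * ν) (hd1 : 1 ≤ ∑ i ∈ Icc 1 r, (y i : ℝ)) :
    Gr ((Icc 1 r).erase a) (1 - bk) cp n y := by
  have a0 := h.apos hd1
  have μ0 := h.rg.μ0
  refine gr_of_opt (h := hS μ bk α β) h.dat.ad (fun i _ s s' hs => ?_)
    (fun i _ j hj hij s s' hs => ?_) fun y' h1 h2 h3 => ?_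
  · have a1 := hS_m1 μ0 bk h.a0 h.b0 (n i) hs.le
    have a2 : (s : ℝ) < s' := by exact_mod_cast hs
    have a3 : 0 < 2 * (s' - s) * α ^ 2 / (μ * (μ + n i)) :=
      div_pos (mul_pos (by linarith) (by positivity)) (by positivity)
    linarith
  · have a1 := hS_m2 (s' := s') h.bk1 h.a0 h.a1 h.b0 h.b1 (by linarith [h.rg.R3])
      (by linarith [h.rg.μ4, h.rg.R3]) hij (h.rg.n3 (h.cl j (mem_of_mem_erase hj))) hs
    have a3 : 0 < α / (100 * μ ^ 2) := by positivity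
    linarith
  · have d' : DatS r bk cp n a y' := ⟨h.dat.ha, (h2 a (notMem_erase _ _)).trans h.dat.ya, h1⟩
    have e : ∑ i ∈ (Icc 1 r).erase a, (y' i : ℝ) = ∑ i ∈ (Icc 1 r).erase a, (y i : ℝ) := by
      exact_mod_cast h3
    have a1 := (h.or n a y' (h.rg.two_le h.cl) d' (h.rg.room h.cl h.dat.ha (by
      rw [e, ← h.dat.sum_eq]; linarith [h.rg.R3])) (by
      rw [d'.sum_eq, e, ← h.dat.sum_eq]; exact h.ed) α β).trans h.up
    rw [PhK_eq d'.ha _ _ _ _ d'.ya, PhK_eq d'.ha _ _ _ _ h.dat.ya, h3] at a1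
    linarith

end OptS

end Pool.Agent.P.MP_094db5_co
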