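import Pool.Agent.P.MP_094db5_co.TN5

/-! Balanced cores and largest parts. -/

set_option autoImplicit false

open Finset Classical

noncomputable section

namespace Pool.Agent.P.MP_094db5_co

lemma Rg.μ6 {r : ℕ} {δ ν μ : ℝ} (h : Rg r δ ν μ) : 10000 * (r : ℝ) ^ 2 ≤ μ := by
  have a1 := mul_le_mul_of_nonneg_right h.δ1 h.ν0.le
  have a2 := mul_le_mul_of_nonneg_left h.big (show 0 ≤ 1000 * (r : ℝ) ^ 2 by positivity)
  nlinarith [h.μ3, h.R3, sq_nonneg (r : ℝ), h.ν0]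

lemma Rg.tiny {r : ℕ} {δ ν μ : ℝ} (h : Rg r δ ν μ) {E : ℝ} (hE : E * μ ^ 3 ≤ 100) :
    E < 3 / r ^ 2 / (μ + ν) ^ 2 := by
  have μ0 := h.μ0
  have L0 := h.L0
  have r0 : (0 : ℝ) < r := by linarith [h.R3]
  have a1 : (μ + ν) ^ 2 ≤ (151 / 100 * μ) ^ 2 := pow_le_pow_left₀ L0.le h.L3 2
  calc E ≤ 100 / μ ^ 3 := by rw [le_div_iff₀ (by positivity)]; exact hE
    _ < _ := by
      rw [div_div, div_lt_div_iff₀ (by positivity) (by positivity)]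
      nlinarith [mul_le_mul_of_nonneg_left a1 (sq_nonneg (r : ℝ)),
        mul_le_mul_of_nonneg_right h.μ6 (sq_nonneg μ), pow_pos μ0 3]

lemma ph1_swap {μ : ℝ} (μ0 : 0 < μ) (n n' : ℕ) (F F' : ℝ) :
    ph1 μ n F - ph1 μ n F' + (ph1 μ n' F' - ph1 μ n' F) =
      (1 / (μ + n) - 1 / (μ + n')) * ((F - F') * (2 * μ - F - F') / μ) := by
  have : (0 : ℝ) < μ + n := by positivity
  have : (0 : ℝ) < μ + n' := by positivity
  unfold ph1
  field_simp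
  ring

lemma inv_lt {μ : ℝ} (μ0 : 0 < μ) {n n' : ℕ} (h : n < n') : 0 < 1 / (μ + n) - 1 / (μ + n') := by
  have : (n : ℝ) < n' := by exact_mod_cast h
  exact sub_pos.2 (one_div_lt_one_div_of_lt (by positivity) (by linarith))

namespace OptS

variable {r bk g₀ cp : ℕ} {δ ν μ M : ℝ} {n : ℕ → ℕ} {a : ℕ} {y : ℕ → ℕ} {α β : ℝ}
  (h : OptS r bk g₀ cp δ ν μ M n a y α β)
include h

theorem bal {N k : ℕ} (hM : M = tu2 r N + 2 * k) (rk : 2 * r ≤ k + 1)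
    (hs : ∑ i ∈ Icc 1 r, n i = N) (hd : ∑ i ∈ Icc 1 r, (y i : ℝ) ≤ th2 r * ν) : Bal r N n := by
  have r3 := h.rg.r3
  refine bal_of_close (by omega) hs fun u hu v hv => ?_
  by_contra hn
  have huv : n v + 2 ≤ n u := by omega
  obtain ⟨n', e1, e2, e3, e4, e5⟩ := exists_move n hu hv huv
  have cl' := cl_move h.cl hu hv huv e1 e2 e3
  obtain ⟨g, hg⟩ : ∃ g, n u = n v + 1 + g := ⟨n u - n v - 1, by omega⟩
  have eg : (n u : ℝ) - n v - 1 = g := by rw [hg]; push_cast; ring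
  have a1 := eK2_le' (e4.trans hs)
  have a2 := h.ed
  have c := card_er h.dat.ha
  rw [h.dat.sum_eq] at a2
  have a3 : k + g ≤ ∑ i ∈ (Icc 1 r).erase a, y i + r := by
    exact_mod_cast (by push_cast; linarith : ((k + g : ℕ) : ℝ) ≤
      (∑ i ∈ (Icc 1 r).erase a, y i + r : ℕ))
  have := h.bk1
  have := h.cp1
  obtain ⟨y', y1, y2, y3, y4⟩ := exists_less (n' := n') (u := u) (g := g) h.dat.ad
    (fun i hi => by have := h.rg.two_le cl' i (mem_of_mem_erase hi); omega)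
    (fun i _ b => by
      by_cases e : i = v
      · rw [e]; omega
      · rw [e3 i b e])
    (by omega) (by omega) (by
      have : ((Icc 1 r).erase a).card * (1 - bk) ≤ ((Icc 1 r).erase a).card * 1 :=
        Nat.mul_le_mul_left _ (by omega)
      omega)
  have d' : DatS r bk cp n' a y' := ⟨h.dat.ha, y3 a (notMem_erase _ _), y1⟩
  have y5 : ∑ i ∈ Icc 1 r, (y' i : ℝ) + g = ∑ i ∈ Icc 1 r, (y i : ℝ) := by
    rw [d'.sum_eq, h.dat.sum_eq]; exact_mod_cast y4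
  have y6 : ∀ i ∈ Icc 1 r, y' i ≤ y i := fun i hi => by
    by_cases e : i = a
    · rw [e, d'.ya]; exact Nat.zero_le _
    · exact y2 i (mem_erase.2 ⟨e, hi⟩)
  have g0 : (0 : ℝ) ≤ g := Nat.cast_nonneg _
  have b1 := (h.or n' a y' (h.rg.two_le cl') d' (h.rg.room cl' h.dat.ha (by
    rw [← d'.sum_eq]; linarith [h.rg.R3])) (by rw [← h.ed]; linarith) α β).trans h.up
  have b2 := h.rg.move_core (α := α) (s := fun i => xS bk a i * β) h.cl hu hv huv e1 e2 e3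
    (fun i hi => ⟨y6 i hi, h.dat.le hi⟩)
    (fun i _ => ⟨(h.sb i).1, by linarith [(h.sb i).2, h.βδ, h.rg.δ0]⟩) (by linarith) h.a0
    (by linarith [(abs_le.1 (h.stat hd)).2, h.rg.th2_div hd])
  have b3 : gS r bk g₀ y - g ≤ gS r bk g₀ y' := by
    have c1 : ∑ i ∈ Icc 1 r, (((min (y i) 1 : ℕ) : ℝ) + y' i) ≤
        ∑ i ∈ Icc 1 r, (((min (y' i) 1 : ℕ) : ℝ) + y i) := sum_le_sum fun i hi => by
      have := y6 i hi
      exact_mod_cast (by omega : min (y i) 1 + y' i ≤ min (y' i) 1 + y i)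
    rw [sum_add_distrib, sum_add_distrib] at c1
    unfold gS
    rcases (by omega : bk = 0 ∨ bk = 1) with e | e <;> rw [e] <;>
      simp only [Nat.cast_zero, Nat.cast_one] <;> linarith
  have μ0 := h.rg.μ0
  have b4 : ((∑ i ∈ Icc 1 r, (y i : ℝ)) * α ^ 2 + (∑ i ∈ Icc 1 r, (xS bk a i : ℝ)) * β ^ 2 +
      2 * gS r bk g₀ y * α * β) / μ ≤ ((∑ i ∈ Icc 1 r, (y' i : ℝ)) * α ^ 2 +
      (∑ i ∈ Icc 1 r, (xS bk a i : ℝ)) * β ^ 2 + 2 * gS r bk g₀ y' * α * β) / μ +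
      g * ((α ^ 2 + 2 * α * β) / μ) := by
    rw [← mul_div_assoc, ← add_div, ← y5]
    refine div_le_div_of_nonneg_right ?_ μ0.le
    nlinarith [mul_le_mul_of_nonneg_right b3 (mul_nonneg h.a0 h.b0)]
  have b5 := h.rg.tiny (E := (α ^ 2 + 2 * α * β) / μ) (by
    have c1 := h.rg.inv1 h.a1
    have c2 := h.rg.inv2 h.b1
    have c3 : (α ^ 2 + 2 * α * β) / μ * μ ^ 3 = (α * μ) ^ 2 + 2 * (α * μ) * (β * μ) := by
      field_simp
    rw [c3]
    nlinarith [mul_nonneg h.a0 μ0.le, mul_nonneg h.b0 μ0.le, h.rg.δ3])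
  have g1 : (0 : ℝ) < g := by exact_mod_cast (by omega : 0 < g)
  have b6 := mul_lt_mul_of_pos_left b5 g1
  rw [eg, mul_div_assoc] at b2
  simp only [PhK, PhS] at b1
  linarith

theorem largest {N : ℕ} (hb : Bal r N n) (hd : ∑ i ∈ Icc 1 r, (y i : ℝ) ≤ th2 r * ν)
    (hd1 : 1 ≤ ∑ i ∈ Icc 1 r, (y i : ℝ)) : ∃ a', OptS r bk g₀ cp δ ν μ M n a' y α β ∧
      (∀ i ∈ Icc 1 r, n i ≤ n a') ∧ (a' = a ∨ bk = 1) := by
  obtain ⟨j, hj, hm⟩ := exists_max_image (Icc 1 r) n ⟨a, h.dat.ha⟩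
  rcases le_or_gt (n j) (n a) with c1 | c1
  · exact ⟨a, h, fun i hi => (hm i hi).trans c1, Or.inl rfl⟩
  have ja : j ≠ a := fun e => by rw [e] at c1; omega
  have hj' : j ∈ (Icc 1 r).erase a := mem_erase.2 ⟨ja, hj⟩
  have two := h.rg.two_le h.cl
  have cp1 := h.cp1
  have bk1 := h.bk1
  have adj := h.dat.ad j hj'
  rcases Nat.eq_zero_or_pos (y j) with c2 | c2
  · obtain rfl : bk = 1 := by omega
    have e : xS 1 j = xS 1 a := by funext i; simp [xS]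
    refine ⟨j, ⟨h.rg, h.bk1, h.cp1, h.g1, h.or, h.cl, ⟨hj, c2, fun i hi => ⟨by omega, ?_⟩⟩, h.ed,
      h.a0, h.a1, h.b0, h.b1, ?_, fun α' β' => ?_⟩, hm, Or.inr rfl⟩
    · by_cases b : i = a
      · have := two a h.dat.ha
        rw [b, h.dat.ya]; omega
      · exact (h.dat.ad i (mem_erase.2 ⟨b, mem_of_mem_erase hi⟩)).2
    · rw [PhK, e]; exact h.up
    · rw [PhK, e]; exact h.self _ _
  exfalso
  have c3 : y j + cp ≤ n a := by
    by_contra hn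
    obtain ⟨i, hi, b⟩ := h.rg.room (y := fun i => y i + 2) h.cl h.dat.ha (by
      have := card_er h.dat.ha
      have e : (((Icc 1 r).erase a).card : ℝ) + 1 = r := by exact_mod_cast this
      push_cast
      rw [sum_add_distrib, ← h.dat.sum_eq, sum_const, nsmul_eq_mul]
      linarith)
    have b1 := hb.1 j hj
    have b2 := hb.1 a h.dat.ha
    have b3 := hm i (mem_of_mem_erase hi)
    have b4 := h.rg.n4 (h.cl j hj)
    have := h.rg.r3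
    have := h.greedy hd hd1 i hi j hj' (by omega) (by omega)
    omega
  obtain ⟨y', e1, e2, e3⟩ : ∃ y' : ℕ → ℕ, y' a = y j ∧ y' j = 0 ∧ ∀ i, i ≠ a → i ≠ j → y' i = y i :=
    ⟨fun i => if i = a then y j else if i = j then 0 else y i, by simp, by simp [ja],
      fun i b c => by simp [b, c]⟩
  have d' : DatS r bk cp n j y' := ⟨hj, e2, fun i hi => by
    by_cases b : i = a
    · rw [b, e1]; omega
    · rw [e3 i b (ne_of_mem_erase hi)]
      exact h.dat.ad i (mem_erase.2 ⟨b, mem_of_mem_erase hi⟩)⟩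
  have s0 : ∀ f : ℕ → ℝ, ∑ i ∈ Icc 1 r, f (y' i) = ∑ i ∈ Icc 1 r, f (y i) := fun f => by
    rw [sum_two h.dat.ha hj ja.symm (g := fun i => f (y i)) fun i _ b c => by rw [e3 i b c], e1, e2,
      h.dat.ya]
    ring
  have s1 := s0 fun s => (s : ℝ)
  have s2 : gS r bk g₀ y' = gS r bk g₀ y := by
    rw [gS, gS, s0 fun s => ((min s 1 : ℕ) : ℝ)]
  have s3 : ∑ i ∈ Icc 1 r, (xS bk j i : ℝ) = ∑ i ∈ Icc 1 r, (xS bk a i : ℝ) := by
    rw [sum_two h.dat.ha hj ja.symm (g := fun i => (xS bk a i : ℝ)) fun i _ b c => by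
      simp [xS, b, c]]
    simp only [xS, if_true, if_neg ja, if_neg ja.symm]
    ring
  have b1 := (h.or n j y' two d' (h.rg.room h.cl hj (by
    rw [← d'.sum_eq, s1]; linarith [h.rg.R3])) (by rw [s1]; exact h.ed) α β).trans h.up
  simp only [PhK, PhS] at b1
  rw [s1, s2, s3, sum_two h.dat.ha hj ja.symm
    (g := fun i => ph1 μ (n i) (y i * α + xS bk a i * β)) fun i _ b c => by
      simp [xS, b, c, e3 i b c], e1, e2, h.dat.ya] at b1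
  simp only [xS, if_true, if_neg ja, if_neg ja.symm, Nat.cast_zero, zero_mul, zero_add,
    Nat.cast_one, one_mul] at b1
  have b2 := ph1_swap h.rg.μ0 (n a) (n j) (y j * α + β) (bk * β)
  have b3 : (bk : ℝ) * β ≤ β := mul_le_of_le_one_left h.b0 (by exact_mod_cast bk1)
  have b4 : 0 < y j * α := mul_pos (by exact_mod_cast c2) (h.apos hd1)
  have b5 := mul_pos (inv_lt h.rg.μ0 c1) (div_pos (mul_pos
    (show 0 < y j * α + β - bk * β by linarith)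
    (show 0 < 2 * μ - (y j * α + β) - bk * β by
      linarith [h.yα hj, h.βδ, h.rg.δ3, h.rg.μ5])) h.rg.μ0)
  linarith

end OptS

/-- optimal data of the pair type -/
structure OptP (r : ℕ) (δ ν μ M : ℝ) (n : ℕ → ℕ) (a b : ℕ) (x : ℕ → ℕ) (α γ β : ℝ) : Prop where
  rg : Rg r δ ν μ
  or : OrP r μ M
  cl : ∀ i ∈ Icc 1 r, Cl δ ν (n i)
  ha : a ∈ Icc 1 r
  hb : b ∈ Icc 1 r
  ab : a ≠ b
  ad : Ad (Icc 1 r \ {a, b}) 1 0 n x
  ed : eK2 r n + 2 * ∑ i ∈ Icc 1 r \ {a, b}, (x i : ℝ) + 2 = M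
  a0 : 0 ≤ α
  a1 : α ≤ 1 / (μ - 2)
  c0 : 0 ≤ γ
  c1 : γ ≤ 1 / (μ - 2)
  b0 : 0 ≤ β
  b1 : β ≤ 1 / (μ - 2)
  up : 1 ≤ PhP r μ n a b x α γ β

lemma card_pair_sdiff {r a b : ℕ} (ha : a ∈ Icc 1 r) (hb : b ∈ Icc 1 r) (ab : a ≠ b) :
    (Icc 1 r \ {a, b}).card + 2 = r := by
  have h1 : ({a, b} : Finset ℕ) ⊆ Icc 1 r := fun k hk => by
    rcases mem_insert.1 hk with e | e
    exacts [e ▸ ha, mem_singleton.1 e ▸ hb]
  have := card_sdiff_add_card_eq_card h1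
  rwa [card_pair ab, Nat.card_Icc, add_tsub_cancel_right] at this

lemma sum_pair_sdiff {r a b : ℕ} (ha : a ∈ Icc 1 r) (hb : b ∈ Icc 1 r) (ab : a ≠ b) (f : ℕ → ℝ) :
    ∑ i ∈ Icc 1 r, f i = ∑ i ∈ Icc 1 r \ {a, b}, f i + f a + f b := by
  have h1 : ({a, b} : Finset ℕ) ⊆ Icc 1 r := fun k hk => by
    rcases mem_insert.1 hk with e | e
    exacts [e ▸ ha, mem_singleton.1 e ▸ hb]
  rw [← sum_sdiff h1, sum_pair ab, add_assoc]

lemma mem_J {r a b i : ℕ} : i ∈ Icc 1 r \ {a, b} ↔ i ∈ Icc 1 r ∧ i ≠ a ∧ i ≠ b := by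
  simp only [mem_sdiff, mem_insert, mem_singleton, not_or]

namespace OptP

variable {r : ℕ} {δ ν μ M : ℝ} {n : ℕ → ℕ} {a b : ℕ} {x : ℕ → ℕ} {α γ β : ℝ}
  (h : OptP r δ ν μ M n a b x α γ β)
include h

lemma symm : OptP r δ ν μ M n b a x γ α β :=
  ⟨h.rg, h.or, h.cl, h.hb, h.ha, h.ab.symm, pair_comm a b ▸ h.ad, pair_comm a b ▸ h.ed, h.c0, h.c1,
    h.a0, h.a1, h.b0, h.b1, PhP_symm r μ n a b x α γ β ▸ h.up⟩

lemma self (α' γ' β' : ℝ) : PhP r μ n a b x α' γ' β' ≤ PhP r μ n a b x α γ β :=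
  (h.or n a b x (h.rg.two_le h.cl) h.ha h.hb h.ab h.ad h.ed _ _ _).trans h.up

lemma hF : ∀ i ∈ Icc 1 r \ {a, b}, 0 ≤ x i * β ∧ x i * β ≤ 52 / 100 := fun i hi => by
  have a1 : (x i : ℝ) ≤ n i := by exact_mod_cast (h.ad i hi).2
  have a2 := mul_le_mul_of_nonneg_right (a1.trans (h.rg.n3 (h.cl i (mem_J.1 hi).1))) h.b0
  exact ⟨mul_nonneg (Nat.cast_nonneg _) h.b0, by linarith [h.rg.inv1 h.b1]⟩

lemma Pb : (∑ i ∈ Icc 1 r \ {a, b}, (x i : ℝ)) * (1 - δ) ^ 2 / (μ + ν) ≤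
      ∑ i ∈ Icc 1 r \ {a, b}, x i * (1 - x i * β / μ) / (μ + n i) ∧
    ∑ i ∈ Icc 1 r \ {a, b}, x i * (1 - x i * β / μ) / (μ + n i) ≤
      (∑ i ∈ Icc 1 r \ {a, b}, (x i : ℝ)) * (1 + δ) / (μ + ν) :=
  h.rg.P_bounds (F := fun i => x i * β) (fun i hi => h.cl i (mem_J.1 hi).1)
    fun i hi => ⟨(h.hF i hi).1, by linarith [(h.hF i hi).2]⟩

lemma stat0 : μ * β = ∑ i ∈ Icc 1 r \ {a, b}, x i * (1 - x i * β / μ) / (μ + n i) +
    ((∑ i ∈ Icc 1 r \ {a, b}, (x i : ℝ)) * β / μ + (α + γ)) := by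
  rw [← add_assoc]
  exact PhP_statβ fun β' => h.self _ _ _

lemma E0 : 0 ≤ (∑ i ∈ Icc 1 r \ {a, b}, (x i : ℝ)) * β / μ + (α + γ) := by
  have := h.a0
  have := h.b0
  have := h.c0
  have := h.rg.μ0
  positivity

lemma one_le : 1 ≤ ∑ i ∈ Icc 1 r \ {a, b}, (x i : ℝ) := by
  have a1 := card_pair_sdiff h.ha h.hb h.ab
  have a2 : (Icc 1 r \ {a, b}).card • 1 ≤ ∑ i ∈ Icc 1 r \ {a, b}, x i :=
    card_nsmul_le_sum _ x 1 fun i hi => (h.ad i hi).1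
  have := h.rg.r3
  rw [smul_eq_mul, mul_one] at a2
  exact_mod_cast (by omega : 1 ≤ ∑ i ∈ Icc 1 r \ {a, b}, x i)

lemma bpos : 0 < β := by
  have a2 : 0 < (∑ i ∈ Icc 1 r \ {a, b}, (x i : ℝ)) * (1 - δ) ^ 2 / (μ + ν) :=
    div_pos (mul_pos (by linarith [h.one_le]) (pow_pos (by linarith [h.rg.δ3]) 2)) h.rg.L0
  by_contra hn
  nlinarith [h.stat0, h.E0, h.rg.μ0, h.Pb.1]

lemma stat (hd : ∑ i ∈ Icc 1 r \ {a, b}, (x i : ℝ) ≤ th2 r * ν) :
    |β * (μ + ν) - (∑ i ∈ Icc 1 r \ {a, b}, (x i : ℝ)) / ((r - 1) * ν)| ≤ 5 * δ := by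
  have a2 := h.rg.th2_le
  have μ0 := h.rg.μ0
  refine h.rg.stat_bound h.b0 (sum_nonneg fun _ _ => Nat.cast_nonneg _) (by linarith [h.rg.ν0])
    h.Pb.1 h.Pb.2 h.E0 ?_ h.stat0
  have b1 : (∑ i ∈ Icc 1 r \ {a, b}, (x i : ℝ)) * β / μ ≤ β := by
    rw [div_le_iff₀ μ0]
    have c1 : ∑ i ∈ Icc 1 r \ {a, b}, (x i : ℝ) ≤ μ := by linarith [h.rg.μ1, h.rg.δν, h.rg.ν0]
    nlinarith [mul_le_mul_of_nonneg_right c1 h.b0]
  have b3 := mul_le_mul_of_nonneg_left h.rg.L3 (add_nonneg h.a0 h.c0)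
  calc _ ≤ (α + γ) * (μ + ν) := mul_le_mul_of_nonneg_right (by linarith) h.rg.L0.le
    _ ≤ 4 := by nlinarith [h.rg.inv1 h.a1, h.rg.inv1 h.c1]

/-- the entry of the special vertex is close to the generic entry -/
lemma dev : |α - 1 / (μ + n a)| * μ ^ 2 ≤ 2 := by
  have a1 := PhP_statα fun α' => h.self α' γ β
  have μ0 := h.rg.μ0
  have n0 : (0 : ℝ) ≤ n a := Nat.cast_nonneg _
  have a2 : μ ≤ μ * (μ + n a) / (μ + n a - 1) := by
    rw [le_div_iff₀ (by linarith [h.rg.μ5])]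
    nlinarith
  have a3 : |β - γ| * μ ≤ 2 := by
    have := h.rg.inv1 h.b1
    have := h.rg.inv1 h.c1
    rcases abs_cases (β - γ) with e | e <;> rw [e.1] <;>
      nlinarith [mul_nonneg h.b0 μ0.le, mul_nonneg h.c0 μ0.le]
  rw [← a1, abs_mul, abs_of_pos (μ0.trans_le a2)] at a3
  nlinarith [mul_le_mul_of_nonneg_right a2 (mul_nonneg (abs_nonneg (α - 1 / (μ + n a))) μ0.le)]

lemma greedy : Gr (Icc 1 r \ {a, b}) 1 0 n x := by
  have a0 := h.bpos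
  have μ0 := h.rg.μ0
  refine gr_of_opt (h := hS μ 0 β 0) h.ad (fun i _ s s' hs => ?_)
    (fun i _ j hj hij s s' hs => ?_) fun y' h1 h2 h3 => ?_
  · have a1 := hS_m1 μ0 0 h.b0 le_rfl (n i) hs.le
    have a2 : (s : ℝ) < s' := by exact_mod_cast hs
    have a3 : 0 < 2 * (s' - s) * β ^ 2 / (μ * (μ + n i)) :=
      div_pos (mul_pos (by linarith) (by positivity)) (by positivity)
    linarith
  · have a1 := hS_m2 (s' := s') (R := 1) (Nat.zero_le 1) h.b0 h.b1 le_rfl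
      (by rw [mul_zero]; exact h.b0.trans h.b1) le_rfl (by linarith [h.rg.μ5]) hij
      (h.rg.n3 (h.cl j (mem_J.1 hj).1)) hs
    have a3 : 0 < β / (100 * μ ^ 2) := by positivity
    linarith
  · have e : ∑ i ∈ Icc 1 r \ {a, b}, (y' i : ℝ) = ∑ i ∈ Icc 1 r \ {a, b}, (x i : ℝ) := by
      exact_mod_cast h3
    have a1 := (h.or n a b y' (h.rg.two_le h.cl) h.ha h.hb h.ab h1 (by rw [e]; exact h.ed)
      α γ β).trans h.up
    rw [PhP, PhP, e] at a1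
    simp only [hS, Nat.cast_zero, mul_zero, zero_div, add_zero]
    linarith

end OptP

end Pool.Agent.P.MP_094db5_co
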