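import Pool.Agent.P.MP_094db5_co.TN6

/-! Optimal data of the pair type. -/

set_option autoImplicit false

open Finset Classical

noncomputable section

namespace Pool.Agent.P.MP_094db5_co

lemma ph2_le {μ : ℝ} (hμ : 2 ≤ μ) (n : ℕ) (α : ℝ) : ph2 μ n α ≤ ph1 μ n 0 := by
  have n0 : (0 : ℝ) ≤ n := Nat.cast_nonneg _
  have : 0 ≤ μ * (μ + n) / (μ + n - 1) * (α - 1 / (μ + n)) ^ 2 :=
    mul_nonneg (div_nonneg (by positivity) (by linarith)) (sq_nonneg _)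
  simp only [ph1, ph2, mul_zero, add_zero, ne_eq, OfNat.ofNat_ne_zero, not_false_eq_true, zero_pow,
    zero_div, sub_zero]
  linarith

lemma ph2_eq' (μ : ℝ) (n : ℕ) (d : ℝ) :
    ph2 μ n (d + 1 / (μ + n)) = ph1 μ n 0 - μ * (μ + n) / (μ + n - 1) * d ^ 2 := by
  simp [ph1, ph2]

lemma ph2_ge {μ : ℝ} (hμ : 2 ≤ μ) (n : ℕ) (d : ℝ) :
    ph1 μ n 0 - 2 * μ * d ^ 2 ≤ ph2 μ n (d + 1 / (μ + n)) := by
  have n0 : (0 : ℝ) ≤ n := Nat.cast_nonneg _
  have : μ * (μ + n) / (μ + n - 1) ≤ 2 * μ := by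
    rw [div_le_iff₀ (by linarith)]
    nlinarith
  rw [ph2_eq']
  linarith [mul_le_mul_of_nonneg_right this (sq_nonneg d)]

lemma inv_step {μ : ℝ} (hμ : 0 < μ) {n n' : ℕ} (h1 : n ≤ n' + 1) (h2 : n' ≤ n + 1) :
    |1 / (μ + n') - 1 / (μ + n)| * μ ^ 2 ≤ 1 := by
  have a1 : (n : ℝ) ≤ n' + 1 := by exact_mod_cast h1
  have a2 : (n' : ℝ) ≤ n + 1 := by exact_mod_cast h2
  have n0 : (0 : ℝ) ≤ n := Nat.cast_nonneg _
  have n0' : (0 : ℝ) ≤ n' := Nat.cast_nonneg _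
  have a3 : |(n : ℝ) - n'| ≤ 1 := abs_le.2 ⟨by linarith, by linarith⟩
  rw [show 1 / (μ + n') - 1 / (μ + n) = (n - n') / ((μ + n') * (μ + n)) by field_simp; ring, abs_div,
    abs_of_pos (show 0 < (μ + n') * (μ + n) by positivity), div_mul_eq_mul_div,
    div_le_one (by positivity)]
  nlinarith [mul_le_mul_of_nonneg_right a3 (sq_nonneg μ), mul_nonneg n0 n0']

lemma Rg.slackP {r : ℕ} {δ ν μ : ℝ} (h : Rg r δ ν μ) {n : ℕ → ℕ}
    (hn : ∀ i ∈ Icc 1 r, Cl δ ν (n i)) {a b : ℕ} (ha : a ∈ Icc 1 r) (hb : b ∈ Icc 1 r)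
    (ab : a ≠ b) : th2 r * ν + 3 * r ≤ ∑ i ∈ Icc 1 r \ {a, b}, (n i : ℝ) := by
  have a1 := card_nsmul_le_sum (Icc 1 r \ {a, b}) (fun i => (n i : ℝ)) (ν - δ * ν)
    fun i hi => Rg.n1 (hn i (mem_J.1 hi).1)
  have a2 : ((Icc 1 r \ {a, b}).card : ℝ) = r - 2 := by
    have : ((Icc 1 r \ {a, b}).card : ℝ) + 2 = r := by exact_mod_cast card_pair_sdiff ha hb ab
    linarith
  rw [nsmul_eq_mul, a2] at a1
  have r0 : (0 : ℝ) < r := by linarith [h.R3]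
  have a3 : th2 r ≤ r - 2 - 1 / 3 := by
    rw [th2, div_le_iff₀ r0]
    nlinarith [h.R3]
  nlinarith [mul_le_mul_of_nonneg_right a3 h.ν0.le, h.ν1, mul_le_mul_of_nonneg_right h.δ2 h.ν0.le,
    mul_pos h.δ0 h.ν0]

namespace OptP

variable {r : ℕ} {δ ν μ M : ℝ} {n : ℕ → ℕ} {a b : ℕ} {x : ℕ → ℕ} {α γ β : ℝ}
  (h : OptP r δ ν μ M n a b x α γ β)
include h

theorem bal {N k : ℕ} (hM : M = tu2 r N + 2 * k) (rk : 2 * r ≤ k + 1)
    (hs : ∑ i ∈ Icc 1 r, n i = N) (hd : ∑ i ∈ Icc 1 r \ {a, b}, (x i : ℝ) ≤ th2 r * ν) :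
    Bal r N n := by
  have r3 := h.rg.r3
  refine bal_of_close (by omega) hs fun u hu v hv => ?_
  by_contra hn
  have huv : n v + 2 ≤ n u := by omega
  obtain ⟨n', e1, e2, e3, e4, e5⟩ := exists_move n hu hv huv
  have cl' := cl_move h.cl hu hv huv e1 e2 e3
  have st : ∀ i, n i ≤ n' i + 1 ∧ n' i ≤ n i + 1 := fun i => by
    by_cases p : i = u
    · rw [p]; omega
    · by_cases q : i = v
      · rw [q]; omega
      · rw [e3 i p q]; omega
  obtain ⟨g, hg⟩ : ∃ g, n u = n v + 1 + g := ⟨n u - n v - 1, by omega⟩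
  have eg : (n u : ℝ) - n v - 1 = g := by rw [hg]; push_cast; ring
  have a1 := eK2_le' (e4.trans hs)
  have a2 := h.ed
  have c := card_pair_sdiff h.ha h.hb h.ab
  have a3 : k + g ≤ ∑ i ∈ Icc 1 r \ {a, b}, x i + 1 := by
    exact_mod_cast (by push_cast; linarith : ((k + g : ℕ) : ℝ) ≤
      (∑ i ∈ Icc 1 r \ {a, b}, x i + 1 : ℕ))
  obtain ⟨x', y1, y2, y3, y4⟩ := exists_less (n' := n') (u := u) (g := g) h.ad
    (fun i hi => by have := h.rg.two_le cl' i (mem_J.1 hi).1; omega)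
    (fun i _ b => by
      by_cases e : i = v
      · rw [e]; omega
      · rw [e3 i b e])
    (by omega) (by omega) (by omega)
  have y5 : ∑ i ∈ Icc 1 r \ {a, b}, (x' i : ℝ) + g = ∑ i ∈ Icc 1 r \ {a, b}, (x i : ℝ) := by
    exact_mod_cast y4
  obtain ⟨d, hd1⟩ : ∃ d, α = d + 1 / (μ + n a) := ⟨α - 1 / (μ + n a), by ring⟩
  obtain ⟨d', hd2⟩ : ∃ d, γ = d + 1 / (μ + n b) := ⟨γ - 1 / (μ + n b), by ring⟩
  have b1 := (h.or n' a b x' (h.rg.two_le cl') h.ha h.hb h.ab y1 (by rw [← h.ed]; linarith)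
    (d + 1 / (μ + n' a)) (d' + 1 / (μ + n' b)) β).trans h.up
  obtain ⟨z, z1, z2⟩ : ∃ z : ℕ → ℕ, (∀ i ∈ Icc 1 r \ {a, b}, z i = x i) ∧
      ∀ i ∉ Icc 1 r \ {a, b}, z i = 0 := ⟨fun i => if i ∈ Icc 1 r \ {a, b} then x i else 0,
    fun i hi => if_pos hi, fun i hi => if_neg hi⟩
  have na : a ∉ Icc 1 r \ {a, b} := fun e => (mem_J.1 e).2.1 rfl
  have nb : b ∉ Icc 1 r \ {a, b} := fun e => (mem_J.1 e).2.2 rfl
  have sp := sum_pair_sdiff h.ha h.hb h.ab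
  have b2 := h.rg.move_core (α := β) (s := fun _ => 0) (y := z) (y' := x') h.cl hu hv huv e1 e2 e3
    (fun i _ => by
      by_cases e : i ∈ Icc 1 r \ {a, b}
      · rw [z1 i e]; exact ⟨y2 i e, (h.ad i e).2⟩
      · rw [z2 i e, y3 i e]; exact ⟨le_rfl, Nat.zero_le _⟩)
    (fun _ _ => ⟨le_rfl, h.rg.δ0.le⟩) (by
      rw [sp, sp fun i => (x' i : ℝ), sum_congr rfl fun i hi => by rw [z1 i hi], z2 a na, z2 b nb,
        y3 a na, y3 b nb]
      linarith) h.b0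
    (by linarith [(abs_le.1 (h.stat hd)).2, h.rg.th2_div hd])
  rw [sp, sp fun i => ph1 μ (n' i) (x' i * β + 0), sum_congr rfl fun i hi => by rw [z1 i hi],
    z2 a na, z2 b nb, y3 a na, y3 b nb, eg, mul_div_assoc] at b2
  simp only [Nat.cast_zero, zero_mul, add_zero] at b2
  have μ0 := h.rg.μ0
  have μ5 := h.rg.μ5
  have c1 := ph2_le (μ := μ) (by linarith) (n a) α
  have c2 := ph2_le (μ := μ) (by linarith) (n b) γ
  have c3 := ph2_ge (μ := μ) (by linarith) (n' a) d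
  have c4 := ph2_ge (μ := μ) (by linarith) (n' b) d'
  have c5 := h.dev
  have c6 := h.symm.dev
  have c7 := inv_step μ0 (st a).1 (st a).2
  have c8 := inv_step μ0 (st b).1 (st b).2
  rw [show α - 1 / (μ + n a) = d by linarith] at c5
  rw [show γ - 1 / (μ + n b) = d' by linarith] at c6
  rw [PhP, PhP, ← y5] at b1
  obtain ⟨s, hs1⟩ : ∃ s, 1 / (μ + n' a) = 1 / (μ + n a) + s := ⟨_, (add_sub_cancel _ _).symm⟩
  obtain ⟨s', hs2⟩ : ∃ s, 1 / (μ + n' b) = 1 / (μ + n b) + s := ⟨_, (add_sub_cancel _ _).symm⟩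
  rw [hs1, add_sub_cancel_left] at c7
  rw [hs2, add_sub_cancel_left] at c8
  have f1 : d + 1 / (μ + n' a) = α + s := by linarith
  have f2 : d' + 1 / (μ + n' b) = γ + s' := by linarith
  generalize ph2 μ (n' a) (d + 1 / (μ + n' a)) = P at *
  generalize ph2 μ (n' b) (d' + 1 / (μ + n' b)) = P' at *
  rw [f1, f2] at b1
  have g1 : (1 : ℝ) ≤ g := by exact_mod_cast (by omega : 1 ≤ g)
  have i1 := h.rg.inv1 h.a1
  have i2 := h.rg.inv1 h.c1
  have i3 := h.rg.inv1 h.b1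
  have j1 := mul_nonneg h.a0 μ0.le
  have j2 := mul_nonneg h.c0 μ0.le
  have j3 := mul_nonneg h.b0 μ0.le
  have k1 : ∀ t : ℝ, |t| * μ ^ 2 ≤ 2 → 2 * μ * t ^ 2 * μ ^ 3 ≤ 8 := fun t ht => by
    have := pow_le_pow_left₀ (by positivity) ht 2
    rw [mul_pow, sq_abs] at this
    linarith
  have k2 : ∀ t u : ℝ, |t| * μ ^ 2 ≤ 1 → |u| * μ ≤ 2 → t * u * μ ^ 3 ≤ 2 := fun t u ht hu => by
    have := mul_le_mul ht hu (by positivity) (by norm_num)
    have e := mul_le_mul_of_nonneg_right (le_abs_self (t * u)) (pow_pos μ0 3).le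
    rw [abs_mul] at e
    linarith
  have k3 : |s'| * μ ≤ 1 / 100 := by nlinarith [abs_nonneg s', mul_nonneg (abs_nonneg s') μ0.le]
  have k4 := k2 s (γ + s' - β) c7 (by
    have := abs_le.1 (show |s' * μ| ≤ 1 / 100 by rwa [abs_mul, abs_of_pos μ0])
    rw [← abs_of_pos μ0, ← abs_mul]
    exact abs_le.2 ⟨by linarith, by linarith⟩)
  have k5 := k2 s' (α - β) c8 (by
    rw [← abs_of_pos μ0, ← abs_mul]
    exact abs_le.2 ⟨by linarith, by linarith⟩)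
  have k6 : β ^ 2 / μ * μ ^ 3 ≤ 2 := by
    rw [show β ^ 2 / μ * μ ^ 3 = (β * μ) ^ 2 by field_simp]
    nlinarith
  obtain ⟨E, hE⟩ : ∃ E, E = 2 * μ * d ^ 2 + 2 * μ * d' ^ 2 + 2 * (s * (γ + s' - β)) +
    2 * (s' * (α - β)) := ⟨_, rfl⟩
  have l1 : E * μ ^ 3 ≤ 24 := by rw [hE]; linarith [k1 d c5, k1 d' c6]
  have l2 := h.rg.tiny (E := max E 0 + β ^ 2 / μ) (by
    rcases le_total E 0 with e | e
    · rw [max_eq_right e]; linarith
    · rw [max_eq_left e]; linarith)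
  have l3 := mul_lt_mul_of_pos_left l2 (show (0 : ℝ) < g by linarith)
  have l4 := mul_le_mul_of_nonneg_right g1 (le_max_right E 0)
  have l5 := le_max_left E 0
  have l6 : (∑ i ∈ Icc 1 r \ {a, b}, (x' i : ℝ) + g) * β ^ 2 / μ =
    (∑ i ∈ Icc 1 r \ {a, b}, (x' i : ℝ)) * β ^ 2 / μ + g * (β ^ 2 / μ) := by ring
  linarith

theorem largest {N : ℕ} (hb : Bal r N n)
    (hd : ∑ i ∈ Icc 1 r \ {a, b}, (x i : ℝ) ≤ th2 r * ν) : ∀ i ∈ Icc 1 r \ {a, b}, n i ≤ n a := by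
  intro j hj
  by_contra c0
  have c1 : n a < n j := not_le.1 c0
  obtain ⟨hj1, ja, jb⟩ := mem_J.1 hj
  have adj := h.ad j hj
  have c3 : x j ≤ n a := by
    by_contra hn
    have b1 : ∑ i ∈ Icc 1 r \ {a, b}, (n i : ℝ) ≤ ∑ i ∈ Icc 1 r \ {a, b}, ((x i : ℝ) + 1) := by
      refine sum_le_sum fun i hi => ?_
      have := hb.1 j hj1
      have := hb.1 a h.ha
      have := hb.1 i (mem_J.1 hi).1
      have := h.rg.two_le h.cl a h.ha
      have := h.greedy i hi j hj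
      exact_mod_cast (by omega : n i ≤ x i + 1)
    have b2 : ((Icc 1 r \ {a, b}).card : ℝ) + 2 = r := by
      exact_mod_cast card_pair_sdiff h.ha h.hb h.ab
    rw [sum_add_distrib, sum_const, nsmul_eq_mul] at b1
    linarith [h.rg.slackP h.cl h.ha h.hb h.ab, h.rg.R3]
  obtain ⟨x', e1, e3⟩ : ∃ x' : ℕ → ℕ, x' a = x j ∧ ∀ i, i ≠ a → x' i = x i :=
    ⟨Function.update x a (x j), by simp, fun i b => Function.update_of_ne b _ _⟩
  have aj : a ∈ Icc 1 r \ {j, b} := mem_J.2 ⟨h.ha, ja.symm, h.ab⟩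
  have s0 : ∀ f : ℕ → ℕ → ℝ, ∑ i ∈ Icc 1 r \ {j, b}, f i (x' i) =
      ∑ i ∈ Icc 1 r \ {a, b}, f i (x i) + f a (x j) - f j (x j) := fun f => by
    rw [← add_sum_erase _ _ aj, ← add_sum_erase _ (fun i => f i (x i)) hj, e1,
      show (Icc 1 r \ {a, b}).erase j = (Icc 1 r \ {j, b}).erase a by
        ext i; simp only [mem_erase, mem_J]; tauto,
      sum_congr rfl fun i hi => by rw [e3 i (ne_of_mem_erase hi)]]
    ring
  have s1 := s0 fun _ s => (s : ℝ)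
  rw [add_sub_cancel_right] at s1
  obtain ⟨d, hd1⟩ : ∃ d, α = d + 1 / (μ + n a) := ⟨α - 1 / (μ + n a), by ring⟩
  have b1 := (h.or n j b x' (h.rg.two_le h.cl) hj1 h.hb jb (fun i hi => by
    by_cases p : i = a
    · rw [p, e1]; omega
    · rw [e3 i p]; exact h.ad i (mem_J.2 ⟨(mem_J.1 hi).1, p, (mem_J.1 hi).2.2⟩))
    (by rw [s1]; exact h.ed) (d + 1 / (μ + n j)) γ β).trans h.up
  have μ0 := h.rg.μ0
  have μ5 := h.rg.μ5
  rw [PhP, PhP, s1, s0 fun i s => ph1 μ (n i) (s * β), ph2_eq', hd1, ph2_eq'] at b1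
  have b2 := ph1_swap μ0 (n a) (n j) (x j * β) 0
  have n0 : (0 : ℝ) ≤ n a := Nat.cast_nonneg _
  have c4 : (n a : ℝ) < n j := by exact_mod_cast c1
  have b3 : μ * (μ + n j) / (μ + n j - 1) ≤ μ * (μ + n a) / (μ + n a - 1) := by
    rw [div_le_div_iff₀ (by linarith) (by linarith)]
    nlinarith
  have b4 := mul_le_mul_of_nonneg_right b3 (sq_nonneg d)
  have b5 : 0 < (x j * β - 0) * (2 * μ - x j * β - 0) / μ + 2 * (γ - β) := by
    have f1 : β ≤ x j * β := le_mul_of_one_le_left h.b0 (by exact_mod_cast adj.1)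
    have f2 := h.hF j hj
    have f3 := (abs_le.1 ((le_div_iff₀ (by positivity)).2 h.symm.dev)).1
    have f4 : 1 / (2 * μ) ≤ 1 / (μ + n b) :=
      one_div_le_one_div_of_le (by positivity) (by linarith [h.rg.n3 (h.cl b h.hb)])
    have f5 : 2 / μ ^ 2 ≤ 1 / (4 * μ) := by
      rw [div_le_div_iff₀ (by positivity) (by positivity)]; nlinarith
    have f6 : 1 / (4 * μ) ≤ γ := by
      have : 1 / (2 * μ) = 2 * (1 / (4 * μ)) := by field_simp; ring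
      linarith
    rw [div_le_iff₀ (by positivity)] at f6
    have f7 : β ≤ 1 / 100 := by nlinarith [h.rg.inv1 h.b1, h.b0]
    generalize x j * β = F at *
    rw [show (F - 0) * (2 * μ - F - 0) / μ + 2 * (γ - β) =
      (F * (2 * μ - F) + 2 * (γ - β) * μ) / μ by field_simp; ring]
    refine div_pos ?_ μ0
    nlinarith [mul_nonneg (sub_nonneg.2 f1) (show 0 ≤ 2 * μ - F - β by linarith), h.b0]
  have b6 := mul_pos (inv_lt μ0 c1) b5
  linarith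

end OptP

end Pool.Agent.P.MP_094db5_co
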