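import Pool.Agent.P.MP_094db5_co.TN7
import Pool.Agent.P.MP_094db5_co.TDefs

/-! Comparison of the star type and the pair type. -/

set_option autoImplicit false

open Finset Classical

noncomputable section

namespace Pool.Agent.P.MP_094db5_co

lemma ph1_sub {μ : ℝ} (μ0 : 0 < μ) (n : ℕ) (s t θ : ℝ) : ph1 μ n (s * θ) - ph1 μ n (t * θ) =
    (s - t) * (θ * (2 - (s + t) * θ / μ) * (1 / (μ + n))) := by
  have : (0 : ℝ) < μ + n := by positivity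
  unfold ph1
  field_simp
  ring

lemma sum_ph1_const {μ : ℝ} (J : Finset ℕ) {n : ℕ → ℕ} {m : ℕ} (h : ∀ i ∈ J, n i = m) (y : ℕ → ℕ)
    (θ : ℝ) : ∑ i ∈ J, ph1 μ (n i) (y i * θ) = (J.card * m + 2 * θ * ∑ i ∈ J, (y i : ℝ) -
      θ ^ 2 * (∑ i ∈ J, (y i : ℝ) ^ 2) / μ) * (1 / (μ + m)) := by
  rw [sum_congr rfl (g := fun i => (m + 2 * θ * (y i : ℝ) - θ ^ 2 * (y i : ℝ) ^ 2 / μ) * (1 / (μ + m)))
    fun i hi => by rw [h i hi, ph1]; ring, ← sum_mul]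
  simp only [sum_add_distrib, sum_sub_distrib, ← mul_sum, ← sum_div, sum_const, nsmul_eq_mul]

lemma exists_even {J : Finset ℕ} (hJ : 0 < J.card) {T : ℕ} (hT : J.card ≤ T) :
    ∃ y : ℕ → ℕ, (∀ i ∈ J, 1 ≤ y i ∧ (y i : ℝ) ≤ T / J.card + 1) ∧ (∀ i ∉ J, y i = 0) ∧
      ∑ i ∈ J, y i = T ∧ ∑ i ∈ J, (y i : ℝ) ^ 2 ≤ T ^ 2 / J.card + T := by
  obtain ⟨y, y1, y2, y3⟩ := exists_mid J (fun _ => T / J.card) (fun _ => T / J.card + 1)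
    (fun _ _ => by omega) T (by simpa using Nat.mul_div_le T J.card)
    (by simpa using (Nat.lt_mul_div_succ T hJ).le)
  have a1 : ∀ i ∈ J, (y i : ℝ) ≤ T / J.card + 1 := fun i hi => by
    have : (y i : ℝ) ≤ (T / J.card : ℕ) + 1 := by exact_mod_cast (y1 i hi).2
    linarith [Nat.cast_div_le (α := ℝ) (m := T) (n := J.card)]
  refine ⟨y, fun i hi => ⟨((Nat.one_le_div_iff hJ).2 hT).trans (y1 i hi).1, a1 i hi⟩, y2, y3, ?_⟩
  calc ∑ i ∈ J, (y i : ℝ) ^ 2 ≤ ∑ i ∈ J, (y i : ℝ) * (T / J.card + 1) :=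
        sum_le_sum fun i hi => by
          rw [sq]; exact mul_le_mul_of_nonneg_left (a1 i hi) (Nat.cast_nonneg _)
    _ = _ := by rw [← sum_mul, ← Nat.cast_sum, y3]; ring

lemma sq_div_le {J : Finset ℕ} (hJ : 0 < J.card) (y : ℕ → ℕ) :
    (∑ i ∈ J, (y i : ℝ)) ^ 2 / J.card ≤ ∑ i ∈ J, (y i : ℝ) ^ 2 := by
  rw [div_le_iff₀ (by exact_mod_cast hJ), mul_comm]
  exact sq_sum_le_card_mul_sum_sq

lemma g5a_core {R δ b B A Γ W D : ℝ} (R3 : 3 ≤ R) (δ0 : 0 < δ) (δ1 : 9000 * δ ≤ 1)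
    (hB : |B - b| ≤ 6 * δ) (B0 : 0 ≤ B) (B1 : B ≤ 1) (b1 : b ≤ 1) (hA : |A - 1| ≤ 2 * δ)
    (hΓ : |Γ - 1| ≤ 2 * δ) (W0 : 0 ≤ W) (W1 : W ≤ 1)
    (hD : -(2 * B * (R - 1)) + B ^ 2 * W - 5 * (R * δ) ≤ D)
    (h : D - δ + 2 * A * Γ - 2 * B * (A + Γ) ≤ 0) :
    -(30 * (R * δ)) ≤ (R + 1) * b - 1 - b ^ 2 * W / 2 := by
  obtain ⟨a1, a2⟩ := abs_le.1 hB
  obtain ⟨a3, a4⟩ := abs_le.1 hA
  obtain ⟨a5, a6⟩ := abs_le.1 hΓ
  have c1 : 1 - 4 * δ ≤ A * Γ := by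
    nlinarith [mul_le_mul (show 1 - 2 * δ ≤ A by linarith) (show 1 - 2 * δ ≤ Γ by linarith)
      (by linarith) (by linarith), sq_nonneg δ]
  have c2 : B * (A + Γ) ≤ 2 * B + 4 * δ := by nlinarith
  have c3 : b ^ 2 - 12 * δ ≤ B ^ 2 := by nlinarith
  have c4 : b ^ 2 * W - 12 * δ ≤ B ^ 2 * W := by nlinarith [mul_le_mul_of_nonneg_right c3 W0]
  nlinarith [mul_le_mul_of_nonneg_left a2 (show 0 ≤ R + 1 by linarith)]

lemma g5b_core {R δ b A p q W D : ℝ} (R3 : 3 ≤ R) (δ0 : 0 < δ) (δ1 : 9000 * δ ≤ 1)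
    (hA : |A - b| ≤ 6 * δ) (A0 : 0 ≤ A) (A1 : A ≤ 1) (b1 : b ≤ 1) (hp : |p - 1| ≤ δ)
    (hq : |q - 1| ≤ δ) (W0 : 0 ≤ W) (W1 : W ≤ 1)
    (hD : 2 * A * (R - 1) - A ^ 2 * W - 5 * (R * δ) ≤ D)
    (h : D - 2 * p * q + 2 * A * (p + q) - 10 * (R * δ) ≤ 0) :
    (R + 1) * b - 1 - b ^ 2 * W / 2 ≤ 30 * (R * δ) := by
  obtain ⟨a1, a2⟩ := abs_le.1 hA
  obtain ⟨a3, a4⟩ := abs_le.1 hp
  obtain ⟨a5, a6⟩ := abs_le.1 hq
  have c1 : p * q ≤ 1 + 3 * δ := by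
    nlinarith [mul_le_mul (show p ≤ 1 + δ by linarith) (show q ≤ 1 + δ by linarith)
      (by linarith) (by linarith)]
  have c2 : 2 * A - 2 * δ ≤ A * (p + q) := by nlinarith
  have c3 : A ^ 2 ≤ b ^ 2 + 12 * δ := by nlinarith
  have c4 : A ^ 2 * W ≤ b ^ 2 * W + 12 * δ := by nlinarith [mul_le_mul_of_nonneg_right c3 W0]
  nlinarith [mul_le_mul_of_nonneg_left a1 (show 0 ≤ R + 1 by linarith)]

namespace Rg

variable {r : ℕ} {δ ν μ : ℝ} (h : Rg r δ ν μ)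
include h

lemma pL {n : ℕ} (hn : Cl δ ν n) : |1 / (μ + n) * (μ + ν) - 1| ≤ δ := by
  have a1 := h.p1 hn
  have a2 := h.p2 hn
  rw [div_le_iff₀ h.L0] at a1
  rw [le_div_iff₀ h.L0] at a2
  exact abs_le.2 ⟨by linarith, by linarith⟩

lemma q1 : (1 - 2 * δ) / (r * (r - 1)) ≤ ν ^ 2 / (μ * (μ + ν)) := by
  have r1 : (0 : ℝ) < r - 1 := by linarith [h.R3]
  have := h.μ0
  have := h.ν0
  have := h.L0
  have := h.δ0
  have := h.δ3
  have a1 : μ ≤ (r - 1) * ν * (1 + δ) := by nlinarith [h.μ2, h.R3, mul_pos h.δ0 h.ν0]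
  rw [div_le_div_iff₀ (by nlinarith) (by positivity)]
  calc (1 - 2 * δ) * (μ * (μ + ν)) ≤ (1 - 2 * δ) * ((r - 1) * ν * (1 + δ) * (r * (1 + δ) * ν)) := by
        have : 0 ≤ 1 - 2 * δ := by linarith
        gcongr
        exact h.L1
    _ = (1 - 2 * δ) * (1 + δ) ^ 2 * (ν ^ 2 * (r * (r - 1))) := by ring
    _ ≤ 1 * (ν ^ 2 * (r * (r - 1))) := by
        refine mul_le_mul_of_nonneg_right ?_ (by have := h.R3; positivity)
        nlinarith [mul_pos h.δ0 (mul_pos h.δ0 h.δ0), sq_nonneg δ]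
    _ = _ := one_mul _

lemma q2 : ν ^ 2 / (μ * (μ + ν)) ≤ (1 + 3 * δ) / (r * (r - 1)) := by
  have r1 : (0 : ℝ) < r - 1 := by linarith [h.R3]
  have := h.μ0
  have := h.ν0
  have := h.L0
  have := h.δ0
  have := h.δ3
  have := h.R3
  have a1 : (r - 1) * ν * (1 - δ) ≤ μ := by nlinarith [h.μ1, h.R3, mul_pos h.δ0 h.ν0]
  rw [div_le_div_iff₀ (by positivity) (by nlinarith)]
  have b0 : 0 ≤ 1 - δ := by linarith
  calc ν ^ 2 * (r * (r - 1)) = 1 * (ν ^ 2 * (r * (r - 1))) := (one_mul _).symm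
    _ ≤ (1 + 3 * δ) * (1 - δ) ^ 2 * (ν ^ 2 * (r * (r - 1))) := by
        refine mul_le_mul_of_nonneg_right ?_ (by positivity)
        nlinarith [mul_pos h.δ0 (mul_pos h.δ0 h.δ0), sq_nonneg δ]
    _ = (1 + 3 * δ) * ((r - 1) * ν * (1 - δ) * (r * (1 - δ) * ν)) := by ring
    _ ≤ _ := by gcongr; exact h.L2

lemma q3 {t : ℝ} (ht : t ≤ 10 * r * ν) : t / (μ * (μ + ν)) ≤ δ := by
  rw [div_le_iff₀ (mul_pos h.μ0 h.L0)]
  have a1 := mul_le_mul_of_nonneg_right h.big h.ν0.le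
  have a2 : ν * ν ≤ μ * (μ + ν) :=
    mul_le_mul (by linarith [h.μ3, h.ν0]) (by linarith [h.μ0]) h.ν0.le h.μ0.le
  nlinarith [mul_le_mul_of_nonneg_left a2 h.δ0.le]

lemma kb {k d A : ℝ} (hk : k ≤ th2 r * ν) (h1 : d ≤ k) (h2 : k ≤ d + r)
    (hA : |A - d / ((r - 1) * ν)| ≤ 5 * δ) :
    |A - k / ν / (r - 1)| ≤ 6 * δ ∧ A ≤ 1 ∧ k / ν / (r - 1) ≤ 1 := by
  have c0 : 0 < (r - 1) * ν := mul_pos (by linarith [h.R3]) h.ν0
  have a1 := h.th2_div hk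
  have a2 : d / ((r - 1) * ν) ≤ k / ((r - 1) * ν) := div_le_div_of_nonneg_right h1 c0.le
  have a3 : k / ((r - 1) * ν) ≤ d / ((r - 1) * ν) + δ := by
    rw [div_add' _ _ _ c0.ne', div_le_div_iff_of_pos_right c0]
    nlinarith [h.big, h.R3, mul_pos h.δ0 h.ν0]
  have a4 : 5 * δ ≤ 2 / r := by
    rw [le_div_iff₀ (by linarith [h.R3])]
    linarith [h.δ2]
  obtain ⟨b1, b2⟩ := abs_le.1 hA
  rw [div_div, mul_comm ν]
  exact ⟨abs_le.2 ⟨by linarith, by linarith [h.δ0]⟩, by linarith, by linarith [h.δ0]⟩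

lemma Wb {k : ℝ} (k0 : 0 ≤ k) (hk : k ≤ th2 r * ν) :
    0 ≤ (k / ν) ^ 2 / (r * (r - 1) ^ 2 * (r - 2)) ∧
      (k / ν) ^ 2 / (r * (r - 1) ^ 2 * (r - 2)) ≤ 1 := by
  have R3 := h.R3
  have r2 : (0 : ℝ) < r - 2 := by linarith
  have r1 : (0 : ℝ) < r - 1 := by linarith
  have a1 : k / ν ≤ r - 2 := by rw [div_le_iff₀ h.ν0]; linarith [h.th2_le]
  have a2 := pow_le_pow_left₀ (div_nonneg k0 h.ν0.le) a1 2
  refine ⟨by positivity, (div_le_one (by positivity)).2 (a2.trans ?_)⟩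
  rw [sq]
  refine mul_le_mul_of_nonneg_right ?_ r2.le
  nlinarith

/-- the quadratic term for equal part sizes -/
lemma quad {k S : ℝ} (k0 : 0 ≤ k) (hk : k ≤ th2 r * ν) :
    (k ^ 2 / ((r - 1) * (r - 2)) - 4 * k ≤ S →
      (k / ν) ^ 2 / (r * (r - 1) ^ 2 * (r - 2)) - 3 * δ ≤ S / (μ * (μ + ν))) ∧
    (S ≤ k ^ 2 / ((r - 1) * (r - 2)) + 4 * k →
      S / (μ * (μ + ν)) ≤ (k / ν) ^ 2 / (r * (r - 1) ^ 2 * (r - 2)) + 4 * δ) := by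
  have R3 := h.R3
  have r2 : (0 : ℝ) < r - 2 := by linarith
  have r1 : (0 : ℝ) < r - 1 := by linarith
  have ν0 := h.ν0
  have c0 := mul_pos h.μ0 h.L0
  have a1 := h.q3 (t := 4 * k) (by nlinarith [h.th2_le])
  have a2 := h.Wb k0 hk
  have a3 : k ^ 2 / ((r - 1) * (r - 2)) / (μ * (μ + ν)) =
      (k / ν) ^ 2 / ((r - 1) * (r - 2)) * (ν ^ 2 / (μ * (μ + ν))) := by field_simp
  have a4 : 0 ≤ (k / ν) ^ 2 / ((r - 1) * (r - 2)) := by positivity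
  have a5 := mul_le_mul_of_nonneg_left h.q1 a4
  have a6 := mul_le_mul_of_nonneg_left h.q2 a4
  have a7 : ∀ t : ℝ, (k / ν) ^ 2 / ((r - 1) * (r - 2)) * (t / (r * (r - 1))) =
      (k / ν) ^ 2 / (r * (r - 1) ^ 2 * (r - 2)) * t := fun t => by field_simp
  rw [a7] at a5 a6
  refine ⟨fun e => ?_, fun e => ?_⟩
  · have := div_le_div_of_nonneg_right e c0.le
    rw [sub_div, a3] at this
    nlinarith [mul_le_mul_of_nonneg_right a2.2 h.δ0.le]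
  · have := div_le_div_of_nonneg_right e c0.le
    rw [add_div, a3] at this
    nlinarith [mul_le_mul_of_nonneg_right a2.2 h.δ0.le]

end Rg

lemma phi_eq {r N k : ℕ} {ν : ℝ} (hN : ν = N / r) : phi r N k = (r + 1) * (k / ν / (r - 1)) - 1 -
    (k / ν / (r - 1)) ^ 2 *
      (if N % r ≤ 1 then (k / ν) ^ 2 / (r * (r - 1) ^ 2 * (r - 2)) else 0) / 2 := by
  have e : (k * r / N : ℝ) = k / ν := by rw [hN, div_div_eq_mul_div]
  rw [phi, e]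
  split_ifs
  · simp only [div_eq_mul_inv, mul_inv, ← inv_pow]; ring
  · ring

lemma Bal.small {r N a : ℕ} {n : ℕ → ℕ} (h : Bal r N n) (hq : N % r ≤ 1) (ha : a ∈ Icc 1 r)
    (hm : ∀ i ∈ Icc 1 r, n i ≤ n a) : ∀ i ∈ (Icc 1 r).erase a, n i = N / r := by
  intro i hi
  have hi' := mem_of_mem_erase hi
  by_contra hn
  have a1 := h.1 i hi'
  have a2 := h.1 a ha
  have a3 := hm i hi'
  have a4 : ({i, a} : Finset ℕ) ⊆ (Icc 1 r).filter fun i => n i = N / r + 1 := fun j hj => by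
    rcases mem_insert.1 hj with e | e
    · rw [e]; exact mem_filter.2 ⟨hi', by omega⟩
    · rw [mem_singleton.1 e]; exact mem_filter.2 ⟨ha, by omega⟩
  have := card_le_card a4
  rw [card_pair (ne_of_mem_erase hi), h.card] at this
  omega

lemma erase_eq {r a b : ℕ} : (Icc 1 r \ {a, b}) = ((Icc 1 r).erase a).erase b := by
  ext i; simp only [mem_erase, mem_J]; tauto

end Pool.Agent.P.MP_094db5_co
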