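import Pool.Agent.P.MP_094db5_co.TN8

/-! The sign of the deciding function. -/

set_option autoImplicit false

open Finset Classical

noncomputable section

namespace Pool.Agent.P.MP_094db5_co

lemma sum_er {r a b : ℕ} (hb : b ∈ (Icc 1 r).erase a) (f : ℕ → ℝ) :
    ∑ i ∈ (Icc 1 r).erase a, f i = ∑ i ∈ Icc 1 r \ {a, b}, f i + f b := by
  rw [erase_eq, add_comm, add_sum_erase _ _ hb]

theorem OptP.phi_ge {r bk g₀ N k : ℕ} {δ ν μ M : ℝ} {n : ℕ → ℕ} {a b : ℕ} {x : ℕ → ℕ} {α γ β : ℝ}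
    (h : OptP r δ ν μ M n a b x α γ β) (hN : ν = N / r) (hM : M = tu2 r N + 2 * k)
    (rk : 2 * r ≤ k + 1) (hk : (k : ℝ) ≤ th2 r * ν) (hb : Bal r N n)
    (hm : ∀ i ∈ Icc 1 r, n i ≤ n a) (o : OrS r bk g₀ 0 μ M) : -(30 * (r * δ)) ≤ phi r N k := by
  have rg := h.rg
  have μ0 := rg.μ0
  have L0 := rg.L0
  have R3 := rg.R3
  have r3 := rg.r3
  have δ0 := rg.δ0
  have δ3 := rg.δ3
  have k0 : (0 : ℝ) ≤ k := Nat.cast_nonneg _
  have ex : ∑ i ∈ Icc 1 r \ {a, b}, (x i : ℝ) = k - 1 := by linarith [h.ed, hb.eK2]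
  have ex' : ∑ i ∈ Icc 1 r \ {a, b}, x i + 1 = k := by
    exact_mod_cast (by push_cast; linarith : ((∑ i ∈ Icc 1 r \ {a, b}, x i + 1 : ℕ) : ℝ) = k)
  have st := h.stat (by linarith)
  rw [ex] at st
  obtain ⟨s1, s2, s3⟩ := rg.kb hk (by linarith) (by linarith) st
  have hba : b ∈ (Icc 1 r).erase a := mem_erase.2 ⟨h.ab.symm, h.hb⟩
  have B0 := mul_nonneg h.b0 L0.le
  have ent : ∀ {a b : ℕ} {α γ : ℝ}, OptP r δ ν μ M n a b x α γ β → |α * (μ + ν) - 1| ≤ 2 * δ := by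
    intro a b α γ h
    have a1 := abs_le.1 (rg.pL (h.cl a h.ha))
    have a2 : |α - 1 / (μ + n a)| * (μ + ν) ≤ δ := by
      refine le_of_mul_le_mul_right ?_ (pow_pos μ0 2)
      have b1 := mul_le_mul_of_nonneg_right h.dev L0.le
      have b2 : 4 ≤ δ * μ := by nlinarith [rg.big, rg.μ3]
      nlinarith [rg.L3, mul_le_mul_of_nonneg_right b2 μ0.le]
    rw [← abs_of_pos L0, ← abs_mul, sub_mul] at a2
    have a3 := abs_le.1 a2
    exact abs_le.2 ⟨by linarith, by linarith⟩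
  have key : ∀ (y : ℕ → ℕ) (W : ℝ), DatS r bk 0 n a y → ∑ i ∈ (Icc 1 r).erase a, y i + r = k →
      0 ≤ W → W ≤ 1 → -(2 * (β * (μ + ν)) * (r - 1)) + (β * (μ + ν)) ^ 2 * W - 5 * (r * δ) ≤
        (∑ i ∈ (Icc 1 r).erase a, ph1 μ (n i) (y i * β) -
          (∑ i ∈ Icc 1 r \ {a, b}, ph1 μ (n i) (x i * β) + ph1 μ (n b) 0)) * (μ + ν) ^ 2 →
      -(30 * (r * δ)) ≤ (r + 1) * (k / ν / (r - 1)) - 1 - (k / ν / (r - 1)) ^ 2 * W / 2 := by
    intro y W hy e W0 W1 hD
    have e' : ((∑ i ∈ (Icc 1 r).erase a, y i : ℕ) : ℝ) = k - r := by rw [← e]; push_cast; ring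
    have e'' := e'
    push_cast at e''
    have a1 := (o n a y (rg.two_le h.cl) hy (rg.room h.cl h.ha (by linarith))
      (by rw [hy.sum_eq, hb.eK2]; linarith) β 0).trans h.up
    rw [PhK_eq h.ha _ _ _ _ hy.ya, PhP, e', ex] at a1
    simp only [hS, mul_zero, add_zero, zero_div, ne_eq, OfNat.ofNat_ne_zero, not_false_eq_true,
      zero_pow, sub_zero] at a1
    have a2 := ph2_le (μ := μ) (by linarith [rg.μ5]) (n a) α
    have a3 := ph2_le (μ := μ) (by linarith [rg.μ5]) (n b) γ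
    refine g5a_core R3 δ0 δ3 s1 B0 s2 s3 (ent h) (ent h.symm) W0 W1 hD ?_
    have a4 : (r - 1) * (β * (μ + ν)) ^ 2 / μ ≤ δ := by
      rw [div_le_iff₀ μ0]
      have : (β * (μ + ν)) ^ 2 ≤ 1 := by nlinarith
      nlinarith [rg.big, rg.μ3]
    have a5 : (∑ i ∈ (Icc 1 r).erase a, ph1 μ (n i) (y i * β) -
        (∑ i ∈ Icc 1 r \ {a, b}, ph1 μ (n i) (x i * β) + ph1 μ (n b) 0) - (r - 1) * β ^ 2 / μ +
        2 * α * γ - 2 * β * (α + γ)) * (μ + ν) ^ 2 ≤ 0 := by
      refine mul_nonpos_of_nonpos_of_nonneg ?_ (sq_nonneg _)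
      have : (k - r) * β ^ 2 / μ = (k - 1) * β ^ 2 / μ - (r - 1) * β ^ 2 / μ := by ring
      linarith
    have a6 : (r - 1) * β ^ 2 / μ * (μ + ν) ^ 2 = (r - 1) * (β * (μ + ν)) ^ 2 / μ := by ring
    linarith
  have cJ := card_pair_sdiff h.ha h.hb h.ab
  have cE := card_er h.ha
  rw [phi_eq hN]
  split_ifs with hq
  · have sm := hb.small hq h.ha hm
    have cl := h.cl b h.hb
    obtain ⟨y, y1, y2, y3, y4⟩ := exists_even (J := (Icc 1 r).erase a) (by omega) (T := k - r)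
      (by omega)
    have cE' : (((Icc 1 r).erase a).card : ℝ) = r - 1 := by
      have : (((Icc 1 r).erase a).card : ℝ) + 1 = r := by exact_mod_cast cE
      linarith
    have cJ' : ((Icc 1 r \ {a, b}).card : ℝ) = r - 2 := by
      have : ((Icc 1 r \ {a, b}).card : ℝ) + 2 = r := by exact_mod_cast cJ
      linarith
    have ek : ((k - r : ℕ) : ℝ) = k - r := Nat.cast_sub (by omega)
    have rk' : (2 * r : ℝ) ≤ k + 1 := by exact_mod_cast rk
    rw [ek, cE'] at y1 y4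
    have Wb := rg.Wb k0 hk
    refine key y _ ⟨h.ha, y2 a (notMem_erase _ _), fun i hi => ⟨by have := (y1 i hi).1; omega, ?_⟩⟩
      (by omega) Wb.1 Wb.2 ?_
    · have a1 := rg.slack (n := fun _ => n i) (fun _ _ => h.cl i (mem_of_mem_erase hi)) h.ha
      rw [sum_const, nsmul_eq_mul, cE'] at a1
      have a2 : ((k : ℝ) - r) / (r - 1) + 1 ≤ n i := by
        rw [div_add_one (by linarith), div_le_iff₀ (by linarith)]
        linarith
      exact_mod_cast (y1 i hi).2.trans a2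
    · have a1 := sum_ph1_const (μ := μ) _ sm y β
      have a2 := sum_ph1_const (μ := μ) (Icc 1 r \ {a, b}) (n := n) (m := N / r)
        (fun i hi => sm i (mem_erase.2 ⟨(mem_J.1 hi).2.1, (mem_J.1 hi).1⟩)) x β
      have a3 := sq_div_le (J := Icc 1 r \ {a, b}) (by omega) x
      have a4 := abs_le.1 (rg.pL cl)
      rw [a1, a2, ph1, sm b hba, cE', cJ', ex, ← Nat.cast_sum, y3, ek]
      rw [cJ', ex] at a3
      rw [sm b hba] at a4
      have a5 := (rg.quad (S := ∑ i ∈ Icc 1 r \ {a, b}, (x i : ℝ) ^ 2 -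
        ∑ i ∈ (Icc 1 r).erase a, (y i : ℝ) ^ 2) k0 hk).1 (by
          have b1 : (k : ℝ) ^ 2 / ((r - 1) * (r - 2)) = k ^ 2 / (r - 2) - k ^ 2 / (r - 1) := by
            rw [div_sub_div _ _ (by linarith) (by linarith), mul_comm ((r : ℝ) - 2) (r - 1)]
            congr 1; ring
          have b2 : (k : ℝ) ^ 2 / (r - 2) - 2 * k ≤ (k - 1) ^ 2 / (r - 2) := by
            rw [le_div_iff₀ (by linarith), sub_mul, div_mul_cancel₀ _ (by linarith)]
            nlinarith
          have b3 : ((k : ℝ) - r) ^ 2 / (r - 1) ≤ k ^ 2 / (r - 1) :=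
            div_le_div_of_nonneg_right (by nlinarith) (by linarith)
          linarith)
      generalize ∑ i ∈ Icc 1 r \ {a, b}, (x i : ℝ) ^ 2 = Sx at *
      generalize ∑ i ∈ (Icc 1 r).erase a, (y i : ℝ) ^ 2 = Sy at *
      generalize ((k : ℝ) / ν) ^ 2 / (r * (r - 1) ^ 2 * (r - 2)) = W at *
      obtain ⟨p, hp⟩ : ∃ p, p = 1 / (μ + (N / r : ℕ)) * (μ + ν) := ⟨_, rfl⟩
      have a6 : (((r - 1) * (N / r : ℕ) + 2 * β * (k - r) - β ^ 2 * Sy / μ) * (1 / (μ + (N / r : ℕ))) -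
          (((r - 2) * (N / r : ℕ) + 2 * β * (k - 1) - β ^ 2 * Sx / μ) * (1 / (μ + (N / r : ℕ))) +
            ((N / r : ℕ) + 2 * 0 - 0 ^ 2 / μ) / (μ + (N / r : ℕ)))) * (μ + ν) ^ 2 =
          -(2 * (β * (μ + ν)) * (r - 1)) * p + (β * (μ + ν)) ^ 2 * p * ((Sx - Sy) / (μ * (μ + ν))) := by
        rw [hp]; field_simp; ring
      rw [a6]
      rw [← hp] at a4
      generalize β * (μ + ν) = B at *
      have c1 : B ^ 2 ≤ 1 := by nlinarith
      have c2 := mul_le_mul_of_nonneg_left a5 (mul_nonneg (sq_nonneg B) (show 0 ≤ p by linarith))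
      have c3 : B ^ 2 * W ≤ 1 := mul_le_one₀ c1 Wb.1 Wb.2
      have c4 : B ^ 2 * p ≤ 1 * 2 := mul_le_mul c1 (by linarith) (by linarith) zero_le_one
      have c5 : B * (r - 1) ≤ 1 * r := mul_le_mul s2 (by linarith) (by linarith) zero_le_one
      linarith [mul_le_mul_of_nonneg_left a4.1 (mul_nonneg (sq_nonneg B) Wb.1),
        mul_le_mul_of_nonneg_left a4.2 (mul_nonneg B0 (show (0 : ℝ) ≤ r - 1 by linarith)),
        mul_le_mul_of_nonneg_right c5 δ0.le, mul_le_mul_of_nonneg_right c4 δ0.le,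
        mul_le_mul_of_nonneg_right c3 δ0.le, mul_le_mul_of_nonneg_right R3 δ0.le]
  · obtain ⟨y, y1, y2, y3⟩ := exists_mid (Icc 1 r \ {a, b}) (fun _ => 1) x
      (fun i hi => (h.ad i hi).1) (k - r - 1) (by simp only [sum_const, smul_eq_mul]; omega)
      (by omega)
    have nb : b ∉ Icc 1 r \ {a, b} := fun e => (mem_J.1 e).2.2 rfl
    have sy : ∀ f : ℕ → ℕ → ℝ, ∑ i ∈ (Icc 1 r).erase a, f i (Function.update y b 1 i) =
        ∑ i ∈ Icc 1 r \ {a, b}, f i (y i) + f b 1 := fun f => by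
      rw [sum_er hba, Function.update_self,
        sum_congr rfl fun i hi => by rw [Function.update_of_ne (mem_J.1 hi).2.2]]
    have ey : ∑ i ∈ Icc 1 r \ {a, b}, (y i : ℝ) = k - r - 1 := by
      have : ∑ i ∈ Icc 1 r \ {a, b}, y i + r + 1 = k := by omega
      rw [← this]; push_cast; ring
    refine key (Function.update y b 1) 0 ⟨h.ha, by
      rw [Function.update_of_ne h.ab]; exact y2 a fun e => (mem_J.1 e).2.1 rfl, fun i hi => ?_⟩ ?_
      le_rfl zero_le_one ?_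
    · by_cases e : i = b
      · have := rg.two_le h.cl b h.hb
        rw [e, Function.update_self]; omega
      · have hi' := mem_J.2 ⟨mem_of_mem_erase hi, ne_of_mem_erase hi, e⟩
        have := y1 i hi'
        have := h.ad i hi'
        rw [Function.update_of_ne e]; omega
    · have := sy fun _ s => (s : ℝ)
      exact_mod_cast (by push_cast at this ⊢; linarith :
        ((∑ i ∈ (Icc 1 r).erase a, Function.update y b 1 i + r : ℕ) : ℝ) = k)
    · rw [sy fun i s => ph1 μ (n i) (s * β)]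
      have a1 : ∑ i ∈ Icc 1 r \ {a, b}, (ph1 μ (n i) (x i * β) -
          (x i - y i) * (β * 2 * ((1 + δ) / (μ + ν)))) ≤
          ∑ i ∈ Icc 1 r \ {a, b}, ph1 μ (n i) (y i * β) := by
        refine sum_le_sum fun i hi => ?_
        have b1 := ph1_sub μ0 (n i) (x i) (y i) β
        have b2 : (y i : ℝ) ≤ x i := by exact_mod_cast (y1 i hi).2
        have b3 : β * (2 - (x i + y i) * β / μ) * (1 / (μ + n i)) ≤ β * 2 * ((1 + δ) / (μ + ν)) := by
          have := h.b0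
          refine mul_le_mul (mul_le_mul_of_nonneg_left ?_ h.b0) (rg.p2 (h.cl i (mem_J.1 hi).1))
            (by positivity) (by positivity)
          linarith [show 0 ≤ (x i + y i) * β / μ by positivity]
        linarith [mul_le_mul_of_nonneg_left b3 (sub_nonneg.2 b2)]
      rw [sum_sub_distrib, ← sum_mul, sum_sub_distrib, ex, ey] at a1
      have a2 := ph1_sub μ0 (n b) 1 0 β
      have a3 : β * (2 - δ) * ((1 - δ) / (μ + ν)) ≤ β * (2 - (1 + 0) * β / μ) * (1 / (μ + n b)) := by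
        have b1 : (1 + 0) * β / μ ≤ δ := by
          rw [div_le_iff₀ μ0]
          nlinarith [rg.inv1 h.b1, rg.big, rg.μ3, rg.μ5, h.b0]
        exact mul_le_mul (mul_le_mul_of_nonneg_left (by linarith) h.b0) (rg.p1 (h.cl b h.hb))
          (div_nonneg (by linarith) L0.le) (mul_nonneg h.b0 (by linarith))
      have a4 : (β * (2 - δ) * ((1 - δ) / (μ + ν)) - r * (β * 2 * ((1 + δ) / (μ + ν)))) *
          (μ + ν) ^ 2 = β * (μ + ν) * ((2 - δ) * (1 - δ) - 2 * r * (1 + δ)) := by field_simp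
      simp only [zero_mul, Nat.cast_one] at a2 ⊢
      refine le_trans ?_ (mul_le_mul_of_nonneg_right (show β * (2 - δ) * ((1 - δ) / (μ + ν)) -
        r * (β * 2 * ((1 + δ) / (μ + ν))) ≤ _ by linarith) (sq_nonneg _))
      rw [a4]
      generalize β * (μ + ν) = B at *
      linarith [mul_le_mul_of_nonneg_right s2 δ0.le, mul_nonneg B0 (sq_nonneg δ),
        mul_le_mul_of_nonneg_right s2 (mul_pos (show (0 : ℝ) < r by linarith) δ0).le,
        mul_le_mul_of_nonneg_right R3 δ0.le]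

lemma ph1_add_le {μ : ℝ} (μ0 : 0 < μ) (n : ℕ) {F s : ℝ} (F0 : 0 ≤ F) (s0 : 0 ≤ s) :
    ph1 μ n (F + s) ≤ ph1 μ n F + 2 * s / μ := by
  have n0 : (0 : ℝ) ≤ n := Nat.cast_nonneg _
  have a1 : ph1 μ n (F + s) = ph1 μ n F + 2 * s / (μ + n) - s * (2 * F + s) / μ / (μ + n) := by
    unfold ph1; ring
  have a2 : 2 * s / (μ + n) ≤ 2 * s / μ := div_le_div_of_nonneg_left (by positivity) μ0 (by linarith)
  have a3 : 0 ≤ s * (2 * F + s) / μ / (μ + n) := by positivity
  linarith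

lemma OptS.err {r bk g₀ cp : ℕ} {δ ν μ M : ℝ} {n : ℕ → ℕ} {a : ℕ} {y : ℕ → ℕ} {α β : ℝ}
    (h : OptS r bk g₀ cp δ ν μ M n a y α β) : ∃ E, E * (μ + ν) ^ 2 ≤ 10 * (r * δ) ∧
      1 ≤ ∑ i ∈ (Icc 1 r).erase a, ph1 μ (n i) (y i * α) + ph1 μ (n a) 0 +
        (∑ i ∈ Icc 1 r, (y i : ℝ)) * α ^ 2 / μ - μ * α ^ 2 + E := by
  have rg := h.rg
  have μ0 := rg.μ0
  have a0 := h.a0
  have b0 := h.b0
  have R3 := rg.R3
  refine ⟨4 * r * β / μ, ?_, h.up.trans ?_⟩
  · have a1 : (μ + ν) ^ 2 ≤ (151 / 100 * μ) ^ 2 := pow_le_pow_left₀ rg.L0.le rg.L3 2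
    have a2 := mul_le_mul_of_nonneg_left (rg.inv2 h.b1) (show (0 : ℝ) ≤ r by linarith)
    calc _ ≤ 4 * r * β / μ * (151 / 100 * μ) ^ 2 := mul_le_mul_of_nonneg_left a1 (by positivity)
      _ = 4 * (151 / 100) ^ 2 * (r * (β * μ)) := by field_simp
      _ ≤ _ := by nlinarith [mul_pos (show (0 : ℝ) < r by linarith) rg.δ0]
  · have a1 : ∑ i ∈ Icc 1 r, ph1 μ (n i) (y i * α + xS bk a i * β) ≤
        ∑ i ∈ Icc 1 r, (ph1 μ (n i) (y i * α) + 2 * β / μ) := sum_le_sum fun i _ => by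
      have := ph1_add_le μ0 (n i) (show 0 ≤ y i * α by positivity) (h.sb i).1
      have : 2 * (xS bk a i * β) / μ ≤ 2 * β / μ :=
        div_le_div_of_nonneg_right (by linarith [(h.sb i).2]) μ0.le
      linarith
    rw [sum_add_distrib, ← add_sum_erase _ (fun i => ph1 μ (n i) (y i * α)) h.dat.ha, h.dat.ya,
      sum_const, Nat.card_Icc, add_tsub_cancel_right, nsmul_eq_mul, Nat.cast_zero, zero_mul] at a1
    have a2 : ∑ i ∈ Icc 1 r, (xS bk a i : ℝ) ≤ r := by
      have := sum_le_card_nsmul (Icc 1 r) (fun i => (xS bk a i : ℝ)) 1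
        fun i _ => by exact_mod_cast xS_le h.bk1 a i
      simpa using this
    have a3 := gS_le h.bk1 h.g1 y
    have a4 : ((∑ i ∈ Icc 1 r, (xS bk a i : ℝ)) * β ^ 2 + 2 * gS r bk g₀ y * α * β) / μ ≤
        μ * β ^ 2 + α * β := by
      rw [div_le_iff₀ μ0]
      have c1 : (r : ℝ) ≤ μ * μ := by nlinarith [rg.μ4, rg.μ5]
      nlinarith [mul_le_mul_of_nonneg_right (a2.trans c1) (sq_nonneg β),
        mul_le_mul_of_nonneg_right (show 2 * gS r bk g₀ y ≤ μ by linarith [rg.μ4])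
          (mul_nonneg a0 b0)]
    have a5 : 3 * (α * β) ≤ 2 * r * β / μ := by
      rw [le_div_iff₀ μ0]
      nlinarith [mul_le_mul_of_nonneg_right (rg.inv1 h.a1) b0, mul_le_mul_of_nonneg_right R3 b0]
    have a6 : 0 ≤ bk * (α * β) := by positivity
    rw [PhK, PhS, add_assoc (_ * α ^ 2), add_div]
    have a7 : 4 * r * β / μ = r * (2 * β / μ) + 2 * r * β / μ := by ring
    linarith

theorem OptS.phi_le {r bk g₀ N k : ℕ} {δ ν μ M : ℝ} {n : ℕ → ℕ} {a : ℕ} {y : ℕ → ℕ} {α β : ℝ}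
    (h : OptS r bk g₀ 0 δ ν μ M n a y α β) (hN : ν = N / r) (hM : M = tu2 r N + 2 * k)
    (rk : 2 * r ≤ k + 1) (hk : (k : ℝ) ≤ th2 r * ν) (hb : Bal r N n)
    (hm : ∀ i ∈ Icc 1 r, n i ≤ n a) (o : OrP r μ M) : phi r N k ≤ 30 * (r * δ) := by
  have rg := h.rg
  have μ0 := rg.μ0
  have L0 := rg.L0
  have R3 := rg.R3
  have r3 := rg.r3
  have δ0 := rg.δ0
  have δ3 := rg.δ3
  have ha := h.dat.ha
  have k0 : (0 : ℝ) ≤ k := Nat.cast_nonneg _
  have rk' : (2 * r : ℝ) ≤ k + 1 := by exact_mod_cast rk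
  have ey : ∑ i ∈ Icc 1 r, (y i : ℝ) = k - r := by linarith [h.ed, hb.eK2]
  have ey1 : ∑ i ∈ (Icc 1 r).erase a, (y i : ℝ) = k - r := by rw [← h.dat.sum_eq, ey]
  have st := h.stat (by linarith)
  rw [ey] at st
  obtain ⟨s1, s2, s3⟩ := rg.kb hk (by linarith) (by linarith) st
  have A0 := mul_nonneg h.a0 L0.le
  have key : ∀ (b : ℕ) (x : ℕ → ℕ) (W : ℝ), b ∈ (Icc 1 r).erase a → Ad (Icc 1 r \ {a, b}) 1 0 n x →
      ∑ i ∈ Icc 1 r \ {a, b}, (x i : ℝ) = k - 1 → 0 ≤ W → W ≤ 1 →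
      2 * (α * (μ + ν)) * (r - 1) - (α * (μ + ν)) ^ 2 * W - 5 * (r * δ) ≤
        (∑ i ∈ Icc 1 r \ {a, b}, ph1 μ (n i) (x i * α) + ph1 μ (n b) 0 -
          ∑ i ∈ (Icc 1 r).erase a, ph1 μ (n i) (y i * α)) * (μ + ν) ^ 2 →
      (r + 1) * (k / ν / (r - 1)) - 1 - (k / ν / (r - 1)) ^ 2 * W / 2 ≤ 30 * (r * δ) := by
    intro b x W hba hx e W0 W1 hD
    have hb1 := mem_of_mem_erase hba
    obtain ⟨E, E1, E2⟩ := h.err
    have a1 := (o n a b x (rg.two_le h.cl) ha hb1 (ne_of_mem_erase hba).symm hx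
      (by rw [hb.eK2]; linarith) (0 + 1 / (μ + n a)) (0 + 1 / (μ + n b)) α).trans E2
    rw [PhP, ph2_eq', ph2_eq', e, ey] at a1
    refine g5b_core R3 δ0 δ3 s1 A0 s2 s3 (rg.pL (h.cl a ha)) (rg.pL (h.cl b hb1)) W0 W1 hD ?_
    have a5 : (∑ i ∈ Icc 1 r \ {a, b}, ph1 μ (n i) (x i * α) + ph1 μ (n b) 0 -
        ∑ i ∈ (Icc 1 r).erase a, ph1 μ (n i) (y i * α) - 2 * (1 / (μ + n a)) * (1 / (μ + n b)) +
        2 * α * (1 / (μ + n a) + 1 / (μ + n b)) - E) * (μ + ν) ^ 2 ≤ 0 := by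
      refine mul_nonpos_of_nonpos_of_nonneg ?_ (sq_nonneg _)
      have : (k - r) * α ^ 2 / μ ≤ (k - 1) * α ^ 2 / μ :=
        div_le_div_of_nonneg_right (mul_le_mul_of_nonneg_right (by linarith) (sq_nonneg _)) μ0.le
      linarith
    linarith
  have cE := card_er ha
  have cJ : ∀ b ∈ (Icc 1 r).erase a, ((Icc 1 r \ {a, b}).card : ℝ) = r - 2 := fun b hba => by
    have : ((Icc 1 r \ {a, b}).card : ℝ) + 2 = r := by
      exact_mod_cast card_pair_sdiff ha (mem_of_mem_erase hba) (ne_of_mem_erase hba).symm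
    linarith
  have ek : ((k - 1 : ℕ) : ℝ) = k - 1 := by rw [Nat.cast_sub (by omega), Nat.cast_one]
  rw [phi_eq hN]
  split_ifs with hq
  · have sm := hb.small hq ha hm
    obtain ⟨b, hba⟩ : ((Icc 1 r).erase a).Nonempty := card_pos.1 (by omega)
    have hb1 := mem_of_mem_erase hba
    have ab := (ne_of_mem_erase hba).symm
    have cl := h.cl b hb1
    have cJ1 := card_pair_sdiff ha hb1 ab
    obtain ⟨x, y1, -, y3, y4⟩ := exists_even (J := Icc 1 r \ {a, b}) (by omega) (T := k - 1)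
      (by omega)
    have cE' : (((Icc 1 r).erase a).card : ℝ) = r - 1 := by
      have : (((Icc 1 r).erase a).card : ℝ) + 1 = r := by exact_mod_cast cE
      linarith
    have cJ' := cJ b hba
    rw [ek, cJ'] at y1 y4
    have Wb := rg.Wb k0 hk
    have ex : ∑ i ∈ Icc 1 r \ {a, b}, (x i : ℝ) = k - 1 := by rw [← Nat.cast_sum, y3, ek]
    refine key b x _ hba (fun i hi => ⟨(y1 i hi).1, ?_⟩) ex Wb.1 Wb.2 ?_
    · have a1 := rg.slackP (n := fun _ => n i) (fun _ _ => h.cl i (mem_J.1 hi).1) ha hb1 ab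
      rw [sum_const, nsmul_eq_mul, cJ'] at a1
      have a2 : ((k : ℝ) - 1) / (r - 2) + 1 ≤ n i := by
        rw [div_add_one (by linarith), div_le_iff₀ (by linarith)]
        linarith
      exact_mod_cast (y1 i hi).2.trans a2
    · have a1 := sum_ph1_const (μ := μ) _ sm y α
      have a2 := sum_ph1_const (μ := μ) (Icc 1 r \ {a, b}) (n := n) (m := N / r)
        (fun i hi => sm i (mem_erase.2 ⟨(mem_J.1 hi).2.1, (mem_J.1 hi).1⟩)) x α
      have a3 := sq_div_le (J := (Icc 1 r).erase a) (by omega) y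
      have a4 := abs_le.1 (rg.pL cl)
      rw [a1, a2, ph1, sm b hba, cE', cJ', ex, ey1]
      rw [cE', ey1] at a3
      rw [sm b hba] at a4
      have a5 := (rg.quad (S := ∑ i ∈ Icc 1 r \ {a, b}, (x i : ℝ) ^ 2 -
        ∑ i ∈ (Icc 1 r).erase a, (y i : ℝ) ^ 2) k0 hk).2 (by
          have b1 : (k : ℝ) ^ 2 / ((r - 1) * (r - 2)) = k ^ 2 / (r - 2) - k ^ 2 / (r - 1) := by
            rw [div_sub_div _ _ (by linarith) (by linarith), mul_comm ((r : ℝ) - 2) (r - 1)]
            congr 1; ring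
          have b2 : (k : ℝ) ^ 2 / (r - 1) - 3 * k ≤ (k - r) ^ 2 / (r - 1) := by
            rw [le_div_iff₀ (by linarith), sub_mul, div_mul_cancel₀ _ (by linarith)]
            nlinarith [mul_le_mul_of_nonneg_left R3 k0]
          have b3 : ((k : ℝ) - 1) ^ 2 / (r - 2) ≤ k ^ 2 / (r - 2) :=
            div_le_div_of_nonneg_right (by nlinarith) (by linarith)
          linarith)
      generalize ∑ i ∈ Icc 1 r \ {a, b}, (x i : ℝ) ^ 2 = Sx at *
      generalize ∑ i ∈ (Icc 1 r).erase a, (y i : ℝ) ^ 2 = Sy at *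
      generalize ((k : ℝ) / ν) ^ 2 / (r * (r - 1) ^ 2 * (r - 2)) = W at *
      obtain ⟨p, hp⟩ : ∃ p, p = 1 / (μ + (N / r : ℕ)) * (μ + ν) := ⟨_, rfl⟩
      have a6 : (((r - 2) * (N / r : ℕ) + 2 * α * (k - 1) - α ^ 2 * Sx / μ) * (1 / (μ + (N / r : ℕ))) +
            ((N / r : ℕ) + 2 * 0 - 0 ^ 2 / μ) / (μ + (N / r : ℕ)) -
          ((r - 1) * (N / r : ℕ) + 2 * α * (k - r) - α ^ 2 * Sy / μ) * (1 / (μ + (N / r : ℕ)))) *
          (μ + ν) ^ 2 =
          2 * (α * (μ + ν)) * (r - 1) * p - (α * (μ + ν)) ^ 2 * p * ((Sx - Sy) / (μ * (μ + ν))) := by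
        rw [hp]; field_simp; ring
      rw [a6]
      rw [← hp] at a4
      generalize α * (μ + ν) = B at *
      have c1 : B ^ 2 ≤ 1 := by nlinarith
      have c2 := mul_le_mul_of_nonneg_left a5 (mul_nonneg (sq_nonneg B) (show 0 ≤ p by linarith))
      have c3 : B ^ 2 * W ≤ 1 := mul_le_one₀ c1 Wb.1 Wb.2
      have c4 : B ^ 2 * p ≤ 1 * 2 := mul_le_mul c1 (by linarith) (by linarith) zero_le_one
      have c5 : B * (r - 1) ≤ 1 * r := mul_le_mul s2 (by linarith) (by linarith) zero_le_one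
      linarith [mul_le_mul_of_nonneg_left a4.2 (mul_nonneg (sq_nonneg B) Wb.1),
        mul_le_mul_of_nonneg_left a4.1 (mul_nonneg A0 (show (0 : ℝ) ≤ r - 1 by linarith)),
        mul_le_mul_of_nonneg_right c5 δ0.le, mul_le_mul_of_nonneg_right c4 δ0.le,
        mul_le_mul_of_nonneg_right c3 δ0.le, mul_le_mul_of_nonneg_right R3 δ0.le]
  · have cq := hb.card
    have ql := Nat.mod_lt N (show 0 < r by omega)
    obtain ⟨b, hbq, ba⟩ := exists_mem_ne (s := (Icc 1 r).filter fun i => n i = N / r + 1)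
      (by omega) a
    obtain ⟨hb1, nb⟩ := mem_filter.1 hbq
    have hba := mem_erase.2 ⟨ba, hb1⟩
    have cJ1 := card_pair_sdiff ha hb1 ba.symm
    have ey2 := sum_er hba fun i => (y i : ℝ)
    rw [ey1] at ey2
    obtain ⟨x, x1, -, x3⟩ := exists_mid (Icc 1 r \ {a, b}) (fun i => max (y i) 1) n
      (fun i hi => by
        have := h.dat.le (mem_J.1 hi).1
        have := rg.two_le h.cl i (mem_J.1 hi).1
        omega) (k - 1) (by
        have a1 : ∑ i ∈ Icc 1 r \ {a, b}, max (y i) 1 ≤ ∑ i ∈ Icc 1 r \ {a, b}, (y i + 1) :=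
          sum_le_sum fun i _ => by omega
        have a2 : ∑ i ∈ Icc 1 r \ {a, b}, y i + y b + r = k := by
          exact_mod_cast (by push_cast; linarith :
            ((∑ i ∈ Icc 1 r \ {a, b}, y i + y b + r : ℕ) : ℝ) = k)
        rw [sum_add_distrib, sum_const, smul_eq_mul] at a1
        omega) (by
        have := rg.slackP h.cl ha hb1 ba.symm
        exact_mod_cast (by rw [ek]; push_cast; linarith : ((k - 1 : ℕ) : ℝ) ≤
          (∑ i ∈ Icc 1 r \ {a, b}, n i : ℕ)))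
    have ex : ∑ i ∈ Icc 1 r \ {a, b}, (x i : ℝ) = k - 1 := by rw [← Nat.cast_sum, x3, ek]
    have hx : Ad (Icc 1 r \ {a, b}) 1 0 n x := fun i hi => by have := x1 i hi; omega
    obtain ⟨p, hp⟩ : ∃ p, p = 1 / (μ + n b) * (μ + ν) := ⟨_, rfl⟩
    have a4 := abs_le.1 (rg.pL (h.cl b hb1))
    rw [← hp] at a4
    have hD : 2 * (α * (μ + ν)) * (r - 1) * p - (α * (μ + ν)) ^ 2 * p *
        ((r - 1 + y b) * (2 * (ν + δ * ν)) / (μ * (μ + ν))) ≤
        (∑ i ∈ Icc 1 r \ {a, b}, ph1 μ (n i) (x i * α) + ph1 μ (n b) 0 -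
          ∑ i ∈ (Icc 1 r).erase a, ph1 μ (n i) (y i * α)) * (μ + ν) ^ 2 := by
      have a0 := h.a0
      have a1 : ∑ i ∈ Icc 1 r \ {a, b}, (ph1 μ (n i) (y i * α) + (x i - y i) *
          (α * (2 - 2 * (ν + δ * ν) * α / μ) * (1 / (μ + n b)))) ≤
          ∑ i ∈ Icc 1 r \ {a, b}, ph1 μ (n i) (x i * α) := by
        refine sum_le_sum fun i hi => ?_
        have hi1 := (mem_J.1 hi).1
        have b1 := ph1_sub μ0 (n i) (x i) (y i) α
        have b2 : (y i : ℝ) ≤ x i := by exact_mod_cast (le_max_left _ _).trans (x1 i hi).1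
        have b4 : (x i : ℝ) ≤ n i := by exact_mod_cast (x1 i hi).2
        have b5 : (n i : ℝ) ≤ n b := by exact_mod_cast nb ▸ (hb.1 i hi1).2
        have b6 : (x i + y i) * α / μ ≤ 2 * (ν + δ * ν) * α / μ :=
          div_le_div_of_nonneg_right (mul_le_mul_of_nonneg_right
            (by linarith [Rg.n2 (h.cl i hi1)]) a0) μ0.le
        have b7 : 2 * (ν + δ * ν) * α / μ ≤ 2 := by
          rw [div_le_iff₀ μ0]
          have : ν + δ * ν ≤ μ := by linarith [rg.δν, rg.μ3, rg.ν0]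
          nlinarith [mul_le_mul_of_nonneg_right this a0, rg.inv1 h.a1, rg.μ5]
        have b3 : α * (2 - 2 * (ν + δ * ν) * α / μ) * (1 / (μ + n b)) ≤
            α * (2 - (x i + y i) * α / μ) * (1 / (μ + n i)) :=
          mul_le_mul (mul_le_mul_of_nonneg_left (by linarith) a0)
            (one_div_le_one_div_of_le (by positivity) (by linarith)) (by positivity)
            (mul_nonneg a0 (by linarith))
        linarith [mul_le_mul_of_nonneg_left b3 (sub_nonneg.2 b2)]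
      rw [sum_add_distrib, ← sum_mul, sum_sub_distrib, ex] at a1
      have a2 := ph1_sub μ0 (n b) (y b) 0 α
      have a3 : 0 ≤ (y b - 0) * (α * ((y b + 0) * α / μ) * (1 / (μ + n b))) := by
        rw [sub_zero]; positivity
      rw [zero_mul] at a2
      rw [sum_er hba fun i => ph1 μ (n i) (y i * α)]
      refine le_trans (le_of_eq ?_) (mul_le_mul_of_nonneg_right (show (r - 1 + y b) *
        (α * (2 - 2 * (ν + δ * ν) * α / μ) * (1 / (μ + n b))) - y b * (α * 2 * (1 / (μ + n b))) ≤ _ by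
          rw [show (k : ℝ) - 1 - ∑ i ∈ Icc 1 r \ {a, b}, (y i : ℝ) = r - 1 + y b by linarith] at a1
          linarith) (sq_nonneg _))
      rw [hp]; field_simp; ring
    have fin : ∀ W T : ℝ, 0 ≤ W → W ≤ 1 → T ≤ W + δ → 2 * (α * (μ + ν)) * (r - 1) - (α * (μ + ν)) ^ 2 * W -
        5 * (r * δ) ≤ 2 * (α * (μ + ν)) * (r - 1) * p - (α * (μ + ν)) ^ 2 * p * T := by
      intro W T W0 W1 hT
      generalize α * (μ + ν) = B at *
      have c1 : B ^ 2 ≤ 1 := by nlinarith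
      have c2 := mul_le_mul_of_nonneg_left hT (mul_nonneg (sq_nonneg B) (show 0 ≤ p by linarith))
      have c3 : B ^ 2 * W ≤ 1 := mul_le_one₀ c1 W0 W1
      have c4 : B ^ 2 * p ≤ 1 * 2 := mul_le_mul c1 (by linarith) (by linarith) zero_le_one
      have c5 : B * (r - 1) ≤ 1 * r := mul_le_mul s2 (by linarith) (by linarith) zero_le_one
      linarith [mul_le_mul_of_nonneg_left a4.2 (mul_nonneg (sq_nonneg B) W0),
        mul_le_mul_of_nonneg_left a4.1 (mul_nonneg A0 (show (0 : ℝ) ≤ r - 1 by linarith)),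
        mul_le_mul_of_nonneg_right c5 δ0.le, mul_le_mul_of_nonneg_right c4 δ0.le,
        mul_le_mul_of_nonneg_right c3 δ0.le, mul_le_mul_of_nonneg_right R3 δ0.le]
    have ν0 := rg.ν0
    have δν := rg.δν
    rcases le_or_gt (y b) 1 with c | c
    · refine key b x 0 hba hx ex le_rfl zero_le_one ((fin 0 _ le_rfl zero_le_one ?_).trans hD)
      have c' : (y b : ℝ) ≤ 1 := by exact_mod_cast c
      rw [zero_add]
      refine rg.q3 ((mul_le_mul (show r - 1 + (y b : ℝ) ≤ r by linarith)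
        (show 2 * (ν + δ * ν) ≤ 10 * ν by linarith) (by positivity) (by linarith)).trans ?_)
      linarith
    · exfalso
      obtain ⟨s, hs, ns⟩ : ∃ s ∈ Icc 1 r, ¬ n s = N / r + 1 := by
        by_contra hn
        push Not at hn
        rw [filter_true_of_mem hn, Nat.card_Icc] at cq
        omega
      have d1 := hb.1 s hs
      have d2 := hm b hb1
      have sa : s ∈ (Icc 1 r).erase a := mem_erase.2 ⟨fun e => by rw [e] at d1 ns; omega, hs⟩
      have d3 := h.greedy (by linarith) (by linarith) s sa b hba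
      have d4 : (n s : ℝ) ≤ y s := by exact_mod_cast (by omega : n s ≤ y s)
      have d5 := single_le_sum (f := fun i => (y i : ℝ)) (fun _ _ => Nat.cast_nonneg _) sa
      have d6 : 1 - δ ≤ k / ν := by
        rw [le_div_iff₀ ν0]; linarith [Rg.n1 (h.cl s hs)]
      have r1 : (0 : ℝ) < r - 1 := by linarith
      have W1 : 3 / ((r : ℝ) * (r - 1)) ≤ 1 := by
        rw [div_le_one (by positivity)]; nlinarith
      have W0 : 0 ≤ 3 / ((r : ℝ) * (r - 1)) := by positivity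
      have d7 := key b x _ hba hx ex W0 W1 ((fin _ _ W0 W1 (by
        have e1 : (y b : ℝ) ≤ n b := by exact_mod_cast h.dat.le hb1
        have e2 : (r - 1 + y b) * (2 * (ν + δ * ν)) ≤ (11 / 10 * ν) * (21 / 10 * ν) :=
          mul_le_mul (by linarith [Rg.n2 (h.cl b hb1), rg.ν1]) (by linarith) (by positivity)
            (by positivity)
        have e3 := div_le_div_of_nonneg_right e2 (mul_pos μ0 L0).le
        have e4 := rg.q2
        have e5 : 231 / 100 * ((1 + 3 * δ) / (r * (r - 1))) ≤ 3 / (r * (r - 1)) := by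
          rw [← mul_div_assoc]
          exact div_le_div_of_nonneg_right (by linarith) (by positivity)
        have e6 : 11 / 10 * ν * (21 / 10 * ν) / (μ * (μ + ν)) =
          231 / 100 * (ν ^ 2 / (μ * (μ + ν))) := by ring
        linarith)).trans hD)
      have d8 : (1 - δ) / (r - 1) ≤ k / ν / (r - 1) := div_le_div_of_nonneg_right d6 r1.le
      have d9 : 0 ≤ k / ν / (r - 1) := by positivity
      generalize k / ν / (r - 1) = t at *
      have f1 : t ^ 2 * (3 / (r * (r - 1))) ≤ 1 * (3 / (r * (r - 1))) :=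
        mul_le_mul_of_nonneg_right (by nlinarith) W0
      have f2 : 3 / ((r : ℝ) * (r - 1)) ≤ 1 / (r - 1) := by
        rw [div_le_div_iff₀ (by positivity) r1]; nlinarith
      have f3 : 1000 * (r * δ) ≤ 1 / (r - 1) := by
        rw [le_div_iff₀ r1]; nlinarith [rg.δ1, mul_pos (show (0 : ℝ) < r by linarith) δ0]
      have f4 : (r + 1) * ((1 - δ) / (r - 1)) = 1 + 2 * (1 / (r - 1)) - (r + 1) * δ / (r - 1) := by
        field_simp; ring
      have f5 : (r + 1) * δ / (r - 1) ≤ r * δ := by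
        rw [div_le_iff₀ r1]
        nlinarith [mul_le_mul_of_nonneg_right (show (r : ℝ) + 1 ≤ r * (r - 1) by nlinarith) δ0.le]
      have f6 := mul_le_mul_of_nonneg_left d8 (show (0 : ℝ) ≤ r + 1 by linarith)
      linarith [mul_pos (show (0 : ℝ) < r by linarith) δ0]

end Pool.Agent.P.MP_094db5_co
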