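import Pool.Agent.P.MP_094db5_co.AMain

/-! The secular function of a complete multipartite graph with a few special vertices. -/

set_option autoImplicit false

open Finset Classical

noncomputable section

namespace Pool.Agent.P.MP_094db5_co

variable {V : Type} [Fintype V]

/-- contribution of a part without special vertex -/
def ph1 (μ : ℝ) (n : ℕ) (F : ℝ) : ℝ := (n + 2 * F - F ^ 2 / μ) / (μ + n)

/-- contribution of a part of size `n` that contains a special vertex of value `α` -/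
def ph2 (μ : ℝ) (n : ℕ) (α : ℝ) : ℝ :=
  n / (μ + n) - μ * (μ + n) / (μ + n - 1) * (α - 1 / (μ + n)) ^ 2

/-- secular function, two outer vertices -/
def PhS (r : ℕ) (μ : ℝ) (n y x : ℕ → ℕ) (g e α β : ℝ) : ℝ :=
  ∑ i ∈ Icc 1 r, ph1 μ (n i) (y i * α + x i * β) +
    ((∑ i ∈ Icc 1 r, (y i : ℝ)) * α ^ 2 + (∑ i ∈ Icc 1 r, (x i : ℝ)) * β ^ 2 + 2 * g * α * β) / μ -
    μ * α ^ 2 - μ * β ^ 2 + 2 * e * α * β

/-- secular function, one outer vertex and one deleted edge -/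
def PhP (r : ℕ) (μ : ℝ) (n : ℕ → ℕ) (a b : ℕ) (x : ℕ → ℕ) (α γ β : ℝ) : ℝ :=
  ∑ i ∈ Icc 1 r \ {a, b}, ph1 μ (n i) (x i * β) +
    (∑ i ∈ Icc 1 r \ {a, b}, (x i : ℝ)) * β ^ 2 / μ - μ * β ^ 2 + ph2 μ (n a) α + ph2 μ (n b) γ -
    2 * α * γ + 2 * β * (α + γ)

/-- number of vertices of `Y` in part `i` -/
def ct (c : V → ℕ) (Y : Finset V) (i : ℕ) : ℕ := (Y.filter fun v => c v = i).card

omit [Fintype V] in
lemma part_le (s : Finset V) {μ : ℝ} (hμ : 0 < μ) (A : ℝ) (f y : V → ℝ) :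
    2 * (A + ∑ v ∈ s, y v) - (A + ∑ v ∈ s, y v) ^ 2 - μ * ∑ v ∈ s, y v ^ 2 + 2 * ∑ v ∈ s, f v * y v ≤
      2 * A - A ^ 2 + (s.card * (1 - A) ^ 2 + 2 * (1 - A) * (∑ v ∈ s, f v) - (∑ v ∈ s, f v) ^ 2 / μ) /
        (μ + s.card) + (∑ v ∈ s, f v ^ 2) / μ := by
  have hn : (0 : ℝ) < μ + s.card := by positivity
  obtain ⟨S, hS⟩ : ∃ S : ℝ, S * (μ + s.card) = s.card * (1 - A) + ∑ v ∈ s, f v :=
    ⟨_, div_mul_cancel₀ _ hn.ne'⟩
  have h1 : ∑ v ∈ s, (2 * (1 - A - S) * y v + 2 * (f v * y v) - μ * y v ^ 2) ≤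
      ∑ v ∈ s, ((1 - A - S) ^ 2 + 2 * (1 - A - S) * f v + f v ^ 2) / μ := by
    refine sum_le_sum fun v _ => ?_
    rw [le_div_iff₀ hμ]
    nlinarith [sq_nonneg (μ * y v - (1 - A - S + f v))]
  simp only [sum_add_distrib, sum_sub_distrib, ← mul_sum, ← sum_div, sum_const, nsmul_eq_mul] at h1
  generalize ∑ v ∈ s, y v = Y at *
  generalize ∑ v ∈ s, f v = F at *
  generalize ∑ v ∈ s, f v ^ 2 = T at *
  generalize (s.card : ℝ) = n at *
  have e : (n * (1 - A) ^ 2 + 2 * (1 - A) * F - F ^ 2 / μ) / (μ + n) + T / μ =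
      (n * (1 - A - S) ^ 2 + 2 * (1 - A - S) * F + T) / μ + S ^ 2 := by
    have hF : F = S * (μ + n) - n * (1 - A) := by linarith
    rw [hF]
    field_simp
    ring
  nlinarith [sq_nonneg (Y - S)]

omit [Fintype V] in
lemma part_eq (s : Finset V) {μ : ℝ} (hμ : 0 < μ) (A : ℝ) (f y : V → ℝ)
    (hy : ∀ v ∈ s, y v = (1 - A + f v - (s.card * (1 - A) + ∑ u ∈ s, f u) / (μ + s.card)) / μ) :
    2 * (A + ∑ v ∈ s, y v) - (A + ∑ v ∈ s, y v) ^ 2 - μ * ∑ v ∈ s, y v ^ 2 + 2 * ∑ v ∈ s, f v * y v =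
      2 * A - A ^ 2 + (s.card * (1 - A) ^ 2 + 2 * (1 - A) * (∑ v ∈ s, f v) - (∑ v ∈ s, f v) ^ 2 / μ) /
        (μ + s.card) + (∑ v ∈ s, f v ^ 2) / μ := by
  have hn : (0 : ℝ) < μ + s.card := by positivity
  obtain ⟨S, hS⟩ : ∃ S : ℝ, S = (s.card * (1 - A) + ∑ v ∈ s, f v) / (μ + s.card) := ⟨_, rfl⟩
  rw [← hS] at hy
  have h1 : ∑ v ∈ s, y v = (s.card * (1 - A - S) + ∑ v ∈ s, f v) / μ := by
    rw [sum_congr rfl hy, ← sum_div]
    simp only [sum_add_distrib, sum_sub_distrib, sum_const, nsmul_eq_mul]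
    ring
  have h2 : ∑ v ∈ s, y v ^ 2 =
      (s.card * (1 - A - S) ^ 2 + 2 * (1 - A - S) * (∑ v ∈ s, f v) + ∑ v ∈ s, f v ^ 2) / μ ^ 2 := by
    rw [sum_congr rfl (g := fun v => ((1 - A - S) ^ 2 + 2 * (1 - A - S) * f v + f v ^ 2) / μ ^ 2)
      fun v hv => by rw [hy v hv]; ring, ← sum_div]
    simp only [sum_add_distrib, ← mul_sum, sum_const, nsmul_eq_mul]
  have h3 : ∑ v ∈ s, f v * y v = ((1 - A - S) * (∑ v ∈ s, f v) + ∑ v ∈ s, f v ^ 2) / μ := by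
    rw [sum_congr rfl (g := fun v => ((1 - A - S) * f v + f v ^ 2) / μ)
      fun v hv => by rw [hy v hv]; ring, ← sum_div]
    simp only [sum_add_distrib, ← mul_sum]
  rw [h1, h2, h3]
  rw [eq_div_iff hn.ne'] at hS
  generalize ∑ v ∈ s, f v = F at *
  generalize ∑ v ∈ s, f v ^ 2 = T at *
  generalize (s.card : ℝ) = n at *
  have hF : F = S * (μ + n) - n * (1 - A) := by linarith
  rw [hF]
  field_simp
  ring

lemma Pc_Vp (f : V → ℝ) (c : V → ℕ) (i : ℕ) : Pc f c i = ∑ v ∈ Vp c i, f v := by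
  rw [Pc, Vp, sum_filter]

lemma sum_parts (f : V → ℝ) {c : V → ℕ} {r : ℕ} (hc : ∀ v, c v ≤ r) :
    ∑ v, f v = ∑ v ∈ Vp c 0, f v + ∑ i ∈ Icc 1 r, ∑ v ∈ Vp c i, f v := by
  simp only [← Pc_Vp]
  exact (sum_Pc f hc).symm

lemma sum_ind (c : V → ℕ) (Y : Finset V) (i : ℕ) (a : ℝ) :
    ∑ v ∈ Vp c i, (if v ∈ Y then a else 0) = ct c Y i * a := by
  rw [← sum_filter, sum_const, nsmul_eq_mul, ct]
  congr 3
  ext v
  simp [and_comm]

lemma sum_lab {c : V → ℕ} {r : ℕ} (hc : ∀ v, c v ≤ r) (Y : Finset V) (f : V → ℝ) :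
    ∑ v ∈ Y, f v = ∑ v ∈ Y.filter (fun v => c v = 0), f v +
      ∑ i ∈ Icc 1 r, ∑ v ∈ Vp c i, (if v ∈ Y then f v else 0) := by
  rw [← sum_ite_mem_eq Y f, sum_parts _ hc]
  congr 1
  rw [← sum_filter]
  congr 1
  ext v
  simp [and_comm]

lemma sum_ct {c : V → ℕ} {r : ℕ} (hc : ∀ v, c v ≤ r) {Y : Finset V} (hY : ∀ v ∈ Y, c v ≠ 0) :
    ∑ i ∈ Icc 1 r, ct c Y i = Y.card := by
  have h := sum_lab hc Y fun _ => (1 : ℝ)
  rw [filter_eq_empty_iff.2 hY, sum_empty] at h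
  simp only [sum_ind, zero_add, sum_const, nsmul_eq_mul, mul_one] at h
  exact_mod_cast h.symm

/-- the forcing term of two stars -/
def frc (Y X : Finset V) (α β : ℝ) (v : V) : ℝ :=
  (if v ∈ Y then α else 0) + if v ∈ X then β else 0

lemma sum_frc (c : V → ℕ) (Y X : Finset V) (α β : ℝ) (i : ℕ) :
    ∑ v ∈ Vp c i, frc Y X α β v = ct c Y i * α + ct c X i * β := by
  simp only [frc, sum_add_distrib, sum_ind]

lemma sum_frc_sq (c : V → ℕ) (Y X : Finset V) (α β : ℝ) (i : ℕ) :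
    ∑ v ∈ Vp c i, frc Y X α β v ^ 2 =
      ct c Y i * α ^ 2 + ct c X i * β ^ 2 + ct c (X ∩ Y) i * (2 * α * β) := by
  simp only [← sum_ind, ← sum_add_distrib]
  refine sum_congr rfl fun v _ => ?_
  unfold frc
  by_cases a : v ∈ Y <;> by_cases b : v ∈ X <;> simp [a, b]
  ring

/-- the basic decomposition for two stars -/
lemma psiS {c : V → ℕ} {r : ℕ} (hc : ∀ v, c v ≤ r) {z : V} {Y X : Finset V} (hz : c z = 0)
    (hY : ∀ v ∈ Y, c v ≠ 0) (hX : ∀ v ∈ X, c v ≠ 0 ∨ v = z) (μ β : ℝ) (y : V → ℝ) :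
    qf (Kc c) y + 2 * (y z * ∑ v ∈ Y, y v) + 2 * (β * ∑ v ∈ X, y v) - μ * ∑ v, y v ^ 2 =
      (∑ i ∈ Icc 1 r, ∑ v ∈ Vp c i, y v - 1) ^ 2 - 1 +
      ∑ i ∈ Icc 1 r, (2 * (0 + ∑ v ∈ Vp c i, y v) - (0 + ∑ v ∈ Vp c i, y v) ^ 2 -
        μ * ∑ v ∈ Vp c i, y v ^ 2 + 2 * ∑ v ∈ Vp c i, frc Y X (y z) β v * y v) -
      μ * ∑ v ∈ Vp c 0, y v ^ 2 + 2 * (if z ∈ X then 1 else 0) * y z * β := by
  have e1 : ∑ v ∈ X.filter (fun v => c v = 0), y v = (if z ∈ X then 1 else 0) * y z := by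
    split_ifs with h
    · rw [show X.filter (fun v => c v = 0) = {z} from by
        ext v
        simp only [mem_filter, mem_singleton]
        exact ⟨fun a => (hX v a.1).resolve_left fun b => b a.2, fun a => a ▸ ⟨h, hz⟩⟩]
      simp
    · rw [filter_eq_empty_iff.2 fun v hv a => (hX v hv).elim (fun b => b a) fun b => h (b ▸ hv)]
      simp
  have e2 : ∑ i ∈ Icc 1 r, ∑ v ∈ Vp c i, frc Y X (y z) β v * y v =
      y z * ∑ i ∈ Icc 1 r, ∑ v ∈ Vp c i, (if v ∈ Y then y v else 0) +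
        β * ∑ i ∈ Icc 1 r, ∑ v ∈ Vp c i, (if v ∈ X then y v else 0) := by
    simp only [mul_sum, ← sum_add_distrib]
    refine sum_congr rfl fun i _ => sum_congr rfl fun v _ => ?_
    unfold frc
    split_ifs <;> ring
  rw [qf_Kc y hc, sum_lab hc Y y, sum_lab hc X y, filter_eq_empty_iff.2 hY, e1,
    sum_parts (fun v => y v ^ 2) hc]
  simp only [Pc_Vp, sum_add_distrib, sum_sub_distrib, ← mul_sum, zero_add, e2, sum_empty]
  ring

lemma sumS {c : V → ℕ} {r : ℕ} (hc : ∀ v, c v ≤ r) {Y X : Finset V} (hY : ∀ v ∈ Y, c v ≠ 0)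
    (μ e α β : ℝ) :
    ∑ i ∈ Icc 1 r, (2 * (0 : ℝ) - 0 ^ 2 + ((Vp c i).card * (1 - 0) ^ 2 +
      2 * (1 - 0) * (∑ v ∈ Vp c i, frc Y X α β v) - (∑ v ∈ Vp c i, frc Y X α β v) ^ 2 / μ) /
        (μ + (Vp c i).card) + (∑ v ∈ Vp c i, frc Y X α β v ^ 2) / μ) =
      PhS r μ (cn c) (ct c Y) (ct c X) (X ∩ Y).card e α β + μ * α ^ 2 + μ * β ^ 2 -
        2 * e * α * β := by
  have h := sum_ct hc (Y := X ∩ Y) fun v hv => hY v (mem_inter.1 hv).2
  rw [← h]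
  simp only [PhS, ph1, sum_frc, sum_frc_sq, card_Vp, sum_add_distrib, ← sum_div, ← sum_mul,
    Nat.cast_sum]
  simp only [mul_zero, sub_zero, one_pow, mul_one, ne_eq, OfNat.ofNat_ne_zero, not_false_eq_true,
    zero_pow, sum_const_zero]
  ring

/-- lower bound for the spectral radius from the secular function -/
lemma lam_of_psi {G : SimpleGraph V} {μ Φ S : ℝ} {y : V → ℝ}
    (h : qf G y - μ * ∑ v, y v ^ 2 = (S - 1) ^ 2 - 1 + Φ) (h0 : (∀ v, y v = 0) → S = 0) :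
    (1 < Φ → μ < lam G) ∧ (1 ≤ Φ → μ ≤ lam G) := by
  have h1 := qf_le_lam G y
  have h2 : 0 ≤ ∑ v, y v ^ 2 := sum_nonneg fun v _ => sq_nonneg _
  refine ⟨fun a => ?_, fun a => ?_⟩
  · by_contra hn
    nlinarith [mul_le_mul_of_nonneg_right (not_lt.1 hn) h2, sq_nonneg (S - 1)]
  · by_contra hn
    rcases h2.lt_or_eq with h3 | h3
    · nlinarith [mul_lt_mul_of_pos_right (not_le.1 hn) h3, sq_nonneg (S - 1)]
    · have h4 : ∀ v, y v = 0 := fun v => by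
        have := (sum_eq_zero_iff_of_nonneg fun v _ => sq_nonneg (y v)).1 h3.symm v (mem_univ v)
        exact pow_eq_zero_iff two_ne_zero |>.1 this
      have h5 : qf G y = 0 := by simp [qf, S2, h4]
      rw [h5, ← h3, h0 h4] at h
      linarith

theorem lowerS {c : V → ℕ} {r : ℕ} {z w : V} {Y X : Finset V} (ok : TgOK r c ⊥ z Y w X) {μ : ℝ}
    (hμ : 0 < μ) (α β : ℝ) :
    (1 < PhS r μ (cn c) (ct c Y) (ct c X) (X ∩ Y).card (if z ∈ X then 1 else 0) α β →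
      μ < lam (Tg c ⊥ z Y w X)) ∧
    (1 ≤ PhS r μ (cn c) (ct c Y) (ct c X) (X ∩ Y).card (if z ∈ X then 1 else 0) α β →
      μ ≤ lam (Tg c ⊥ z Y w X)) := by
  obtain ⟨y, hy⟩ : ∃ y : V → ℝ, ∀ v, y v = if c v = 0 then (if v = z then α else if v = w then β else 0)
      else (1 - 0 + frc Y X α β v - ((Vp c (c v)).card * (1 - 0) +
        ∑ u ∈ Vp c (c v), frc Y X α β u) / (μ + (Vp c (c v)).card)) / μ := ⟨_, fun _ => rfl⟩
  have yz : y z = α := by rw [hy, if_pos ok.o0, if_pos rfl]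
  have yw : y w = β := by rw [hy, if_pos ok.w0, if_neg ok.ow.symm, if_pos rfl]
  have e0 : ∑ v ∈ Vp c 0, y v ^ 2 = α ^ 2 + β ^ 2 := by
    rw [← sum_subset (s₁ := {z, w}) (fun v hv => by
      rcases mem_insert.1 hv with e | e
      · rw [e]; exact mem_Vp.2 ok.o0
      · rw [mem_singleton.1 e]; exact mem_Vp.2 ok.w0) fun v hv hn => by
      simp only [mem_insert, mem_singleton, not_or] at hn
      rw [hy, if_pos (mem_Vp.1 hv), if_neg hn.1, if_neg hn.2]; simp, sum_pair ok.ow, yz, yw]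
  have e1 := psiS ok.le ok.o0 ok.hS ok.hX μ β y
  rw [yz, e0, sum_congr rfl fun i hi => part_eq (Vp c i) hμ 0 (frc Y X α β) y fun v hv => by
    have := mem_Vp.1 hv
    have := mem_Icc.1 hi
    rw [hy, if_neg (by omega), ‹c v = i›], sumS ok.le ok.hS μ (if z ∈ X then 1 else 0)] at e1
  refine lam_of_psi (y := y) (S := ∑ i ∈ Icc 1 r, ∑ v ∈ Vp c i, y v) ?_ fun h => by simp [h]
  rw [ok.qf_eq, yz, yw, show qf (⊥ : SimpleGraph V) y = 0 by simp [qf, S2, ad]]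
  linarith

lemma qf_sup_le (G H : SimpleGraph V) {x : V → ℝ} (hx : ∀ v, 0 ≤ x v) :
    qf (G ⊔ H) x ≤ qf G x + qf H x := by
  simp only [qf, S2_add]
  refine S2_mono fun u v => ?_
  have := mul_nonneg (hx u) (hx v)
  simp only [ad, SimpleGraph.sup_adj]
  by_cases a : G.Adj u v <;> by_cases b : H.Adj u v <;> simp [a, b, this]

lemma qf_mono' {G H : SimpleGraph V} (h : G ≤ H) {x : V → ℝ} (hx : ∀ v, 0 ≤ x v) :
    qf G x ≤ qf H x :=
  S2_mono fun u v => mul_le_mul_of_nonneg_right (ad_mono h u v) (mul_nonneg (hx u) (hx v))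

/-- a Perron vector with labelled mass one -/
lemma exists_norm {G : SimpleGraph V} {c : V → ℕ} {r : ℕ} (hc : ∀ v, c v ≤ r) {z w : V}
    (h : ∀ u v, G.Adj u v → c v = 0 → v = z ∨ v = w) (hl : 2 < lam G) :
    ∃ x : V → ℝ, (∀ v, 0 ≤ x v) ∧ (∀ v, x v ≤ 1 / (lam G - 2)) ∧
      (∀ u, ∑ v, ad G u v * x v = lam G * x u) ∧ ∑ i ∈ Icc 1 r, ∑ v ∈ Vp c i, x v = 1 ∧
      qf G x = lam G * ∑ v, x v ^ 2 := by
  have : Nonempty V := ⟨z⟩
  obtain ⟨x, hx⟩ := exists_perron G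
  obtain ⟨v₀, -, hv⟩ := exists_max_image univ x univ_nonempty
  obtain ⟨S, hS⟩ : ∃ S, S = ∑ i ∈ Icc 1 r, ∑ v ∈ Vp c i, x v := ⟨_, rfl⟩
  have h1 : lam G * x v₀ ≤ S + 2 * x v₀ := by
    rw [← hx.eig, sum_parts _ hc, hS, add_comm]
    refine add_le_add (sum_le_sum fun i _ => sum_le_sum fun v _ =>
      mul_le_of_le_one_left (hx.nonneg v) (ad_le_one G _ _)) ?_
    calc ∑ v ∈ Vp c 0, ad G v₀ v * x v ≤ ∑ v ∈ Vp c 0, if v ∈ ({z, w} : Finset V) then x v₀ else 0 := by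
          refine sum_le_sum fun v hv' => ?_
          unfold ad
          by_cases a : G.Adj v₀ v
          · rw [if_pos a, if_pos (by simpa using h _ _ a (mem_Vp.1 hv')), one_mul]
            exact hv v (mem_univ v)
          · rw [if_neg a, zero_mul]
            split_ifs
            exacts [hx.nonneg _, le_rfl]
      _ ≤ _ := by
          rw [sum_ind]
          refine mul_le_mul_of_nonneg_right ?_ (hx.nonneg _)
          exact_mod_cast (card_filter_le _ _).trans card_le_two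
  have h2 : 0 < x v₀ := by
    by_contra hn
    have h3 : ∀ v, x v = 0 := fun v => le_antisymm ((hv v (mem_univ v)).trans (not_lt.1 hn)) (hx.nonneg v)
    have := hx.unit
    simp [h3] at this
  have h3 : 0 < S := by nlinarith
  refine ⟨fun v => x v / S, fun v => div_nonneg (hx.nonneg v) h3.le, fun v => ?_, fun u => ?_, ?_, ?_⟩
  · rw [div_le_div_iff₀ h3 (by linarith)]
    nlinarith [hv v (mem_univ v)]
  · simp only [← mul_div_assoc, ← sum_div, hx.eig]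
  · simp only [← sum_div, ← hS, div_self h3.ne']
  · rw [qf_eq, mul_sum]
    refine sum_congr rfl fun v _ => ?_
    simp only [← mul_div_assoc, ← sum_div, hx.eig]
    ring

theorem upperS {G : SimpleGraph V} {c : V → ℕ} {r : ℕ} {z w : V} {Y X : Finset V}
    (hG : G ≤ Kc c ⊔ Sg z Y ⊔ Sg w X) (hc : ∀ v, c v ≤ r) (hz : c z = 0) (hw : c w = 0)
    (hY : ∀ v ∈ Y, c v ≠ 0) (hX : ∀ v ∈ X, c v ≠ 0 ∨ v = z) (hzw : z = w → X = ∅)
    (hl : 2 < lam G) : ∃ α β : ℝ, 0 ≤ α ∧ α ≤ 1 / (lam G - 2) ∧ 0 ≤ β ∧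
      lam G * β ≤ X.card / (lam G - 2) ∧
      1 ≤ PhS r (lam G) (cn c) (ct c Y) (ct c X) (X ∩ Y).card (if z ∈ X then 1 else 0) α β := by
  have hzY : z ∉ Y := fun a => hY z a hz
  have hwX : w ∉ X := fun a => (hX w a).elim (fun b => b hw) fun b => by
    rw [hzw b.symm] at a; exact notMem_empty _ a
  obtain ⟨x, x0, x1, x2, x3, x4⟩ := exists_norm (G := G) hc (z := z) (w := w) (fun u v a b => by
    rcases hG a with (d | ⟨-, d | d⟩) | ⟨-, d | d⟩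
    exacts [(d.2.1 b).elim, (hY v d.2 b).elim, Or.inl d.1,
      Or.inl ((hX v d.2).resolve_left fun e => e b), Or.inr d.1]) hl
  obtain ⟨β, hβ⟩ : ∃ β : ℝ, β = if z = w then 0 else x w := ⟨_, rfl⟩
  have b0 : 0 ≤ β := by rw [hβ]; split_ifs; exacts [le_rfl, x0 w]
  have e0 : x z ^ 2 + β ^ 2 ≤ ∑ v ∈ Vp c 0, x v ^ 2 := by
    rw [hβ]
    split_ifs with h
    · simpa using single_le_sum (f := fun v => x v ^ 2) (fun v _ => sq_nonneg _) (mem_Vp.2 hz)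
    · rw [← sum_pair (f := fun v => x v ^ 2) h]
      refine sum_le_sum_of_subset_of_nonneg (fun v hv => ?_) fun v _ _ => sq_nonneg _
      rcases mem_insert.1 hv with e | e
      · rw [e]; exact mem_Vp.2 hz
      · rw [mem_singleton.1 e]; exact mem_Vp.2 hw
  have e1 := psiS hc hz hY hX (lam G) β x
  have e2 := sum_le_sum fun i (_ : i ∈ Icc 1 r) =>
    part_le (Vp c i) (μ := lam G) (by linarith) 0 (frc Y X (x z) β) x
  rw [sumS hc hY (lam G) (if z ∈ X then 1 else 0)] at e2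
  have e3 : qf G x ≤ qf (Kc c) x + 2 * (x z * ∑ v ∈ Y, x v) + 2 * (β * ∑ v ∈ X, x v) := by
    have a1 := (qf_mono' hG x0).trans (qf_sup_le _ _ x0)
    have a2 := qf_sup_le (Kc c) (Sg z Y) x0
    rw [qf_Sg hwX] at a1
    rw [qf_Sg hzY] at a2
    have a3 : x w * ∑ v ∈ X, x v = β * ∑ v ∈ X, x v := by
      rw [hβ]
      split_ifs with h
      · simp [hzw h]
      · rfl
    linarith
  refine ⟨x z, β, x0 z, x1 z, b0, ?_, ?_⟩
  · rw [hβ]
    split_ifs with h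
    · rw [mul_zero]; exact div_nonneg (Nat.cast_nonneg _) (by linarith)
    · rw [← x2]
      calc ∑ v, ad G w v * x v ≤ ∑ v, if v ∈ X then 1 / (lam G - 2) else 0 := by
            refine sum_le_sum fun v _ => ?_
            unfold ad
            by_cases a : G.Adj w v
            · rw [if_pos a, one_mul, if_pos]
              · exact x1 v
              · rcases hG a with (d | ⟨-, d | d⟩) | ⟨-, d | d⟩
                exacts [(d.1 hw).elim, (h d.1.symm).elim, (hY w d.2 hw).elim, d.2, (hwX d.2).elim]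
            · rw [if_neg a, zero_mul]
              split_ifs
              exacts [(x0 v).trans (x1 v), le_rfl]
        _ = _ := by rw [sum_ite_mem_eq, sum_const, nsmul_eq_mul, mul_one_div]
  · rw [x3] at e1
    nlinarith [mul_le_mul_of_nonneg_left e0 (by linarith : 0 ≤ lam G)]

/-- data of a graph with one deleted edge -/
structure POK (r : ℕ) (c : V → ℕ) (z b w : V) (X : Finset V) : Prop where
  le : ∀ v, c v ≤ r
  w0 : c w = 0
  z0 : c z ≠ 0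
  b0 : c b ≠ 0
  zb : c z ≠ c b
  hX : ∀ v ∈ X, c v ≠ 0 ∧ c v ≠ c z ∧ c v ≠ c b

/-- the graph with one deleted edge -/
def Pg (c : V → ℕ) (z b w : V) (X : Finset V) : SimpleGraph V :=
  Kc c \ Sg z {b} ⊔ Sg w (insert z (insert b X))

section
variable {c : V → ℕ} {r : ℕ} {z b w : V} {X : Finset V}

lemma POK.qf_eq (h : POK r c z b w X) (y : V → ℝ) : qf (Pg c z b w X) y =
    qf (Kc c) y - 2 * (y z * y b) + 2 * (y w * (y z + y b + ∑ v ∈ X, y v)) := by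
  have zb : z ≠ b := fun e => h.zb (e ▸ rfl)
  have zX : z ∉ X := fun a => (h.hX z a).2.1 rfl
  have bX : b ∉ X := fun a => (h.hX b a).2.2 rfl
  have hw : w ∉ insert z (insert b X) := by
    simp only [mem_insert, not_or]
    exact ⟨fun e => h.z0 (e ▸ h.w0), fun e => h.b0 (e ▸ h.w0), fun a => (h.hX w a).1 h.w0⟩
  have e1 := qf_Sg hw y
  have e2 := qf_Sg (w := z) (X := {b}) (by simpa using zb) y
  rw [sum_insert (by simp [zb, zX]), sum_insert bX, ← add_assoc] at e1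
  rw [sum_singleton] at e2
  rw [← e1, ← e2]
  simp only [qf, S2_sub, S2_add]
  refine S2_congr fun u v => ?_
  have a1 : (Sg z {b}).Adj u v → (Kc c).Adj u v := by
    rintro ⟨-, ⟨rfl, a⟩ | ⟨rfl, a⟩⟩ <;> rw [mem_singleton.1 a]
    exacts [⟨h.z0, h.b0, h.zb⟩, ⟨h.b0, h.z0, h.zb.symm⟩]
  have a3 : (Sg w (insert z (insert b X))).Adj u v → ¬(Kc c).Adj u v := by
    rintro ⟨-, ⟨rfl, -⟩ | ⟨rfl, -⟩⟩ b
    exacts [b.1 h.w0, b.2.1 h.w0]
  simp only [ad, Pg, SimpleGraph.sup_adj, SimpleGraph.sdiff_adj]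
  by_cases b1 : (Kc c).Adj u v <;> by_cases b2 : (Sg z {b}).Adj u v <;>
    by_cases b4 : (Sg w (insert z (insert b X))).Adj u v <;> simp_all

lemma POK.ec_eq (h : POK r c z b w X) : ec (Pg c z b w X) = ec (Kc c) + X.card + 1 := by
  have h1 := h.qf_eq fun _ => 1
  simp only [← Mo_eq_qf, Mo_ec, sum_const, nsmul_eq_mul, mul_one, one_mul] at h1
  exact_mod_cast (by linarith : (ec (Pg c z b w X) : ℝ) = ec (Kc c) + X.card + 1)

lemma POK.split (h : POK r c z b w X) (f : ℕ → ℝ) :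
    ∑ i ∈ Icc 1 r, f i = ∑ i ∈ Icc 1 r \ {c z, c b}, f i + f (c z) + f (c b) := by
  have h1 : ({c z, c b} : Finset ℕ) ⊆ Icc 1 r := fun i hi => by
    have := h.le z
    have := h.le b
    have := h.z0
    have := h.b0
    simp only [mem_insert, mem_singleton, mem_Icc] at hi ⊢
    omega
  rw [← sum_sdiff h1, sum_pair h.zb, add_assoc]

lemma psiP (h : POK r c z b w X) (μ : ℝ) (y : V → ℝ) :
    qf (Pg c z b w X) y - μ * ∑ v, y v ^ 2 =
      (∑ i ∈ Icc 1 r, ∑ v ∈ Vp c i, y v - 1) ^ 2 - 1 +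
      (∑ i ∈ Icc 1 r \ {c z, c b}, (2 * (0 + ∑ v ∈ Vp c i, y v) - (0 + ∑ v ∈ Vp c i, y v) ^ 2 -
        μ * ∑ v ∈ Vp c i, y v ^ 2 + 2 * ∑ v ∈ Vp c i, frc ∅ X 0 (y w) v * y v) +
      (2 * (y z + ∑ v ∈ (Vp c (c z)).erase z, y v) - (y z + ∑ v ∈ (Vp c (c z)).erase z, y v) ^ 2 -
        μ * ∑ v ∈ (Vp c (c z)).erase z, y v ^ 2 + 2 * ∑ v ∈ (Vp c (c z)).erase z, 0 * y v) +
      (2 * (y b + ∑ v ∈ (Vp c (c b)).erase b, y v) - (y b + ∑ v ∈ (Vp c (c b)).erase b, y v) ^ 2 -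
        μ * ∑ v ∈ (Vp c (c b)).erase b, y v ^ 2 + 2 * ∑ v ∈ (Vp c (c b)).erase b, 0 * y v) -
      μ * y z ^ 2 - μ * y b ^ 2 - μ * ∑ v ∈ Vp c 0, y v ^ 2 - 2 * y z * y b +
        2 * y w * (y z + y b)) := by
  have e1 : ∑ v ∈ X, y v = ∑ i ∈ Icc 1 r \ {c z, c b}, ∑ v ∈ Vp c i, (if v ∈ X then y v else 0) := by
    rw [sum_lab h.le X y, filter_eq_empty_iff.2 fun v hv => (h.hX v hv).1, h.split, sum_empty,
      sum_eq_zero (s := Vp c (c z)) fun v hv => if_neg fun a => (h.hX v a).2.1 (mem_Vp.1 hv),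
      sum_eq_zero (s := Vp c (c b)) fun v hv => if_neg fun a => (h.hX v a).2.2 (mem_Vp.1 hv)]
    ring
  have e2 : ∑ i ∈ Icc 1 r \ {c z, c b}, ∑ v ∈ Vp c i, frc ∅ X 0 (y w) v * y v =
      y w * ∑ i ∈ Icc 1 r \ {c z, c b}, ∑ v ∈ Vp c i, (if v ∈ X then y v else 0) := by
    simp only [mul_sum]
    refine sum_congr rfl fun i _ => sum_congr rfl fun v _ => ?_
    unfold frc
    split_ifs <;> ring
  have e3 : ∀ (f : V → ℝ) (u : V), ∑ v ∈ Vp c (c u), f v = f u + ∑ v ∈ (Vp c (c u)).erase u, f v :=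
    fun f u => (add_sum_erase _ _ (mem_Vp.2 rfl)).symm
  rw [h.qf_eq, qf_Kc y h.le, e1, sum_parts (fun v => y v ^ 2) h.le]
  simp only [Pc_Vp, sum_add_distrib, sum_sub_distrib, ← mul_sum, zero_add, e2]
  rw [h.split fun i => (∑ v ∈ Vp c i, y v) ^ 2, h.split fun i => ∑ v ∈ Vp c i, y v ^ 2,
    h.split fun i => ∑ v ∈ Vp c i, y v, e3 y z, e3 y b, e3 (fun v => y v ^ 2) z,
    e3 (fun v => y v ^ 2) b]
  ring

lemma ph2_eq (u : V) {μ : ℝ} (hμ : 0 < μ) (A : ℝ) :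
    2 * A - A ^ 2 + (((Vp c (c u)).erase u).card * (1 - A) ^ 2 +
      2 * (1 - A) * (∑ _v ∈ (Vp c (c u)).erase u, (0 : ℝ)) -
      (∑ _v ∈ (Vp c (c u)).erase u, (0 : ℝ)) ^ 2 / μ) / (μ + ((Vp c (c u)).erase u).card) +
      (∑ _v ∈ (Vp c (c u)).erase u, (0 : ℝ) ^ 2) / μ = ph2 μ (cn c (c u)) A + μ * A ^ 2 := by
  rw [← card_Vp, ← card_erase_add_one (mem_Vp.2 rfl : u ∈ Vp c (c u)), ph2]
  generalize ((Vp c (c u)).erase u).card = n
  have : (0 : ℝ) < μ + n := by positivity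
  push_cast
  rw [show μ + (n + 1) - 1 = μ + n by ring]
  simp only [sum_const_zero, ne_eq, OfNat.ofNat_ne_zero, not_false_eq_true, zero_pow]
  field_simp
  ring

lemma sumP (c : V → ℕ) (X : Finset V) (I : Finset ℕ) (μ β : ℝ) :
    ∑ i ∈ I, (2 * (0 : ℝ) - 0 ^ 2 + ((Vp c i).card * (1 - 0) ^ 2 +
      2 * (1 - 0) * (∑ v ∈ Vp c i, frc ∅ X 0 β v) - (∑ v ∈ Vp c i, frc ∅ X 0 β v) ^ 2 / μ) /
        (μ + (Vp c i).card) + (∑ v ∈ Vp c i, frc ∅ X 0 β v ^ 2) / μ) =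
      ∑ i ∈ I, ph1 μ (cn c i) (ct c X i * β) + (∑ i ∈ I, (ct c X i : ℝ)) * β ^ 2 / μ := by
  rw [sum_mul, sum_div, ← sum_add_distrib]
  refine sum_congr rfl fun i _ => ?_
  rw [sum_frc, sum_frc_sq, card_Vp, ph1]
  ring

theorem lowerP (h : POK r c z b w X) {μ : ℝ} (hμ : 0 < μ) (α γ β : ℝ) :
    (1 < PhP r μ (cn c) (c z) (c b) (ct c X) α γ β → μ < lam (Pg c z b w X)) ∧
    (1 ≤ PhP r μ (cn c) (c z) (c b) (ct c X) α γ β → μ ≤ lam (Pg c z b w X)) := by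
  have zb : z ≠ b := fun e => h.zb (e ▸ rfl)
  obtain ⟨y, hy⟩ : ∃ y : V → ℝ, ∀ v, y v = if c v = 0 then (if v = w then β else 0)
      else if v = z then α else if v = b then γ else
      if c v = c z then (1 - α + 0 - (((Vp c (c z)).erase z).card * (1 - α) +
        ∑ _u ∈ (Vp c (c z)).erase z, 0) / (μ + ((Vp c (c z)).erase z).card)) / μ else
      if c v = c b then (1 - γ + 0 - (((Vp c (c b)).erase b).card * (1 - γ) +
        ∑ _u ∈ (Vp c (c b)).erase b, 0) / (μ + ((Vp c (c b)).erase b).card)) / μ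
      else (1 - 0 + frc ∅ X 0 β v - ((Vp c (c v)).card * (1 - 0) +
        ∑ u ∈ Vp c (c v), frc ∅ X 0 β u) / (μ + (Vp c (c v)).card)) / μ := ⟨_, fun _ => rfl⟩
  have yz : y z = α := by rw [hy, if_neg h.z0, if_pos rfl]
  have yb : y b = γ := by rw [hy, if_neg h.b0, if_neg zb.symm, if_pos rfl]
  have yw : y w = β := by rw [hy, if_pos h.w0, if_pos rfl]
  have e0 : ∑ v ∈ Vp c 0, y v ^ 2 = β ^ 2 := by
    rw [sum_eq_single_of_mem w (mem_Vp.2 h.w0) fun v hv hn => by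
      rw [hy, if_pos (mem_Vp.1 hv), if_neg hn]; simp, yw]
  have e1 := psiP h μ y
  rw [yz, yb, yw, e0, sum_congr rfl fun i hi => part_eq (Vp c i) hμ 0 (frc ∅ X 0 β) y fun v hv => by
      have e := mem_Vp.1 hv
      simp only [mem_sdiff, mem_Icc, mem_insert, mem_singleton, not_or] at hi
      rw [hy, if_neg (by omega), if_neg (fun a => hi.2.1 (by rw [← a, e])),
        if_neg (fun a => hi.2.2 (by rw [← a, e])), if_neg (by omega), if_neg (by omega), e],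
    sumP, part_eq _ hμ α (fun _ => 0) y fun v hv => by
      have e := mem_Vp.1 (mem_of_mem_erase hv)
      rw [hy, if_neg (e ▸ h.z0), if_neg (ne_of_mem_erase hv),
        if_neg (fun a => h.zb (by rw [← e, a])), if_pos e],
    part_eq _ hμ γ (fun _ => 0) y fun v hv => by
      have e := mem_Vp.1 (mem_of_mem_erase hv)
      rw [hy, if_neg (e ▸ h.b0), if_neg (fun a => h.zb (by rw [← e, a])),
        if_neg (ne_of_mem_erase hv), if_neg (fun a => h.zb (by rw [← e, a])), if_pos e],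
    ph2_eq z hμ, ph2_eq b hμ] at e1
  refine lam_of_psi (y := y) (S := ∑ i ∈ Icc 1 r, ∑ v ∈ Vp c i, y v) ?_ fun h => by simp [h]
  rw [e1, PhP]
  ring

theorem upperP (h : POK r c z b w X) (hl : 2 < lam (Pg c z b w X)) :
    ∃ α γ β : ℝ, 0 ≤ α ∧ α ≤ 1 / (lam (Pg c z b w X) - 2) ∧ 0 ≤ γ ∧
      γ ≤ 1 / (lam (Pg c z b w X) - 2) ∧ 0 ≤ β ∧ β ≤ 1 / (lam (Pg c z b w X) - 2) ∧
      1 ≤ PhP r (lam (Pg c z b w X)) (cn c) (c z) (c b) (ct c X) α γ β := by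
  obtain ⟨x, x0, x1, -, x3, x4⟩ := exists_norm (G := Pg c z b w X) h.le (z := w) (w := w)
    (fun u v a e => by
      rcases a with d | ⟨-, d | d⟩
      · exact (d.1.2.1 e).elim
      · simp only [mem_insert] at d
        rcases d.2 with f | f | f
        exacts [(h.z0 (f ▸ e)).elim, (h.b0 (f ▸ e)).elim, ((h.hX v f).1 e).elim]
      · exact Or.inl d.1) hl
  have e1 := psiP h (lam (Pg c z b w X)) x
  generalize lam (Pg c z b w X) = μ at *
  have hμ : 0 < μ := by linarith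
  have e0 : x w ^ 2 ≤ ∑ v ∈ Vp c 0, x v ^ 2 :=
    single_le_sum (f := fun v => x v ^ 2) (fun v _ => sq_nonneg _) (mem_Vp.2 h.w0)
  have e2 := sum_le_sum fun i (_ : i ∈ Icc 1 r \ {c z, c b}) =>
    part_le (Vp c i) hμ 0 (frc ∅ X 0 (x w)) x
  have e3 := part_le ((Vp c (c z)).erase z) hμ (x z) (fun _ => 0) x
  have e4 := part_le ((Vp c (c b)).erase b) hμ (x b) (fun _ => 0) x
  rw [sumP] at e2
  rw [ph2_eq z hμ] at e3
  rw [ph2_eq b hμ] at e4
  refine ⟨x z, x b, x w, x0 z, x1 z, x0 b, x1 b, x0 w, x1 w, ?_⟩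
  rw [x3, x4] at e1
  rw [PhP]
  nlinarith [mul_le_mul_of_nonneg_left e0 hμ.le]

end

end Pool.Agent.P.MP_094db5_co
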