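import Pool.Agent.P.MP_094db5_co.Basic

set_option autoImplicit false

open Finset Classical

noncomputable section

namespace Pool.Agent.P.MP_094db5_co

variable {V : Type} [Fintype V]

/-- neighbours inside a finite set -/
def nb (G : SimpleGraph V) (S : Finset V) (v : V) : Finset V := S.filter (G.Adj v)

omit [Fintype V] in
@[simp] lemma mem_nb {G : SimpleGraph V} {S : Finset V} {v u : V} :
    u ∈ nb G S v ↔ u ∈ S ∧ G.Adj v u := mem_filter

/-- weighted count of ordered cliques -/
def tau (G : SimpleGraph V) (p : V → ℝ) : ℕ → Finset V → ℝ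
  | 0, _ => 1
  | j + 1, S => ∑ v ∈ S, p v * tau G p j (nb G S v)

omit [Fintype V] in
lemma tau_succ (G : SimpleGraph V) (p : V → ℝ) (j : ℕ) (S : Finset V) :
    tau G p (j + 1) S = ∑ v ∈ S, p v * tau G p j (nb G S v) := rfl

omit [Fintype V] in
lemma tau_nonneg (G : SimpleGraph V) {p : V → ℝ} (hp : ∀ v, 0 ≤ p v) (j : ℕ) (S : Finset V) :
    0 ≤ tau G p j S := by
  induction j generalizing S with
  | zero => exact zero_le_one
  | succ j ih => exact sum_nonneg fun v _ => mul_nonneg (hp v) (ih _)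

/-- common neighbourhoods of cliques of size r-1 are degenerate -/
def Deg (G : SimpleGraph V) (r D : ℕ) : Prop :=
  ∀ K : Finset V, G.IsNClique (r - 1) K → ∀ S : Finset V, S.Nonempty →
    (∀ v ∈ S, ∀ u ∈ K, G.Adj u v) → ∃ v ∈ S, (nb G S v).card ≤ D

omit [Fintype V] in
lemma Deg.mono {G H : SimpleGraph V} {r D : ℕ} (h : Deg G r D) (hle : H ≤ G) : Deg H r D := by
  intro K hK S hS hadj
  obtain ⟨v, hv, h1⟩ := h K (hK.mono hle) S hS fun v hv u hu => hle (hadj v hv u hu)
  refine ⟨v, hv, (card_le_card fun u hu => ?_).trans h1⟩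
  rw [mem_nb] at hu ⊢
  exact ⟨hu.1, hle hu.2⟩

omit [Fintype V] in
lemma tau_clique {G : SimpleGraph V} {p : V → ℝ} (j : ℕ) :
    ∀ (n : ℕ) (K S : Finset V), G.IsNClique n K → G.CliqueFree (n + j) →
      (∀ v ∈ S, ∀ u ∈ K, G.Adj u v) → tau G p j S = 0 := by
  induction j with
  | zero => exact fun n K S hK hf _ => (hf K hK).elim
  | succ j ih =>
    intro n K S hK hf hS
    refine sum_eq_zero fun v hv => mul_eq_zero_of_right _ (ih (n + 1) (insert v K) _
      (hK.insert fun u hu => (hS v hv u hu).symm) (by rwa [add_right_comm, add_assoc]) ?_)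
    intro w hw u hu
    rw [mem_nb] at hw
    rcases mem_insert.1 hu with rfl | hu
    · exact hw.2
    · exact hS w hw.1 u hu

omit [Fintype V] in
lemma tau_two_le {G : SimpleGraph V} {p : V → ℝ} (hp : ∀ v, 0 ≤ p v) {D : ℕ} {h : ℝ}
    (S : Finset V) (hS : ∀ T ⊆ S, T.Nonempty → ∃ v ∈ T, (nb G T v).card ≤ D)
    (hl : ∀ v ∈ S, p v ≤ h) : tau G p 2 S ≤ 2 * D * h * ∑ v ∈ S, p v := by
  have e : ∀ S : Finset V, tau G p 2 S = ∑ v ∈ S, ∑ u ∈ S, ad G v u * (p v * p u) := fun S => by
    simp only [tau, mul_one, nb, sum_filter, mul_sum, ad]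
    refine sum_congr rfl fun v _ => sum_congr rfl fun u _ => ?_
    split_ifs <;> simp
  rw [e]
  induction S using Finset.strongInduction with
  | H S ih =>
    rcases S.eq_empty_or_nonempty with rfl | hne
    · simp
    obtain ⟨v, hv, hD⟩ := hS S subset_rfl hne
    have h0 : 0 ≤ h := (hp v).trans (hl v hv)
    have h1 := ih (S.erase v) (erase_ssubset hv)
      (fun T hT => hS T (hT.trans (erase_subset _ _))) fun u hu => hl u (mem_of_mem_erase hu)
    have h2 : ∑ u ∈ S.erase v, ad G v u * (p v * p u) ≤ D * h * p v := by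
      calc ∑ u ∈ S.erase v, ad G v u * (p v * p u) ≤ ∑ u ∈ S, ad G v u * (p v * h) := by
            refine (sum_le_sum fun u hu => ?_).trans (sum_le_sum_of_subset_of_nonneg
              (erase_subset v S) fun u _ _ => mul_nonneg (ad_nonneg _ _ _) (mul_nonneg (hp v) h0))
            exact mul_le_mul_of_nonneg_left (mul_le_mul_of_nonneg_left
              (hl u (mem_of_mem_erase hu)) (hp v)) (ad_nonneg _ _ _)
        _ = (nb G S v).card * (p v * h) := by
            rw [← sum_mul]
            simp [ad, nb]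
        _ ≤ D * (p v * h) := mul_le_mul_of_nonneg_right (by exact_mod_cast hD)
            (mul_nonneg (hp v) h0)
        _ = _ := by ring
    have h3 : ∑ u ∈ S.erase v, ad G u v * (p u * p v) =
        ∑ u ∈ S.erase v, ad G v u * (p v * p u) :=
      sum_congr rfl fun u _ => by rw [ad_comm, mul_comm (p u)]
    have h4 : ad G v v = 0 := by simp [ad]
    simp only [← add_sum_erase S _ hv, sum_add_distrib]
    rw [h3, h4]
    linarith

omit [Fintype V] in
lemma tau_light {G : SimpleGraph V} {p : V → ℝ} (hp : ∀ v, 0 ≤ p v) {r D : ℕ} {h : ℝ}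
    (h0 : 0 ≤ h) (hG : Deg G r D) (j : ℕ) : ∀ (n : ℕ) (K S : Finset V), G.IsNClique n K →
      n + j = r - 1 → (∀ v ∈ S, ∀ u ∈ K, G.Adj u v) → (∀ v ∈ S, p v ≤ h) → ∑ v ∈ S, p v ≤ 1 →
      tau G p (j + 2) S ≤ 2 * D * h := by
  induction j with
  | zero =>
    intro n K S hK hn hS hl h1
    rw [add_zero] at hn
    refine (tau_two_le hp S (fun T hT hne => hG K (hn ▸ hK) T hne fun v hv => hS v (hT hv))
      hl).trans (mul_le_of_le_one_right (by positivity) h1)
  | succ j ih =>
    intro n K S hK hn hS hl h1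
    calc tau G p (j + 1 + 2) S = ∑ v ∈ S, p v * tau G p (j + 2) (nb G S v) := rfl
      _ ≤ ∑ v ∈ S, p v * (2 * D * h) := by
          refine sum_le_sum fun v hv => mul_le_mul_of_nonneg_left (ih (n + 1) (insert v K) _
            (hK.insert fun u hu => (hS v hv u hu).symm) (by omega) ?_
            (fun u hu => hl u (mem_nb.1 hu).1) ((sum_le_sum_of_subset_of_nonneg
              (filter_subset _ _) fun u _ _ => hp u).trans h1)) (hp v)
          intro w hw u hu
          rw [mem_nb] at hw
          rcases mem_insert.1 hu with rfl | hu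
          · exact hw.2
          · exact hS w hw.1 u hu
      _ ≤ _ := by
          rw [← sum_mul]
          exact mul_le_of_le_one_left (by positivity) h1

omit [Fintype V] in
lemma tau_heavy {G : SimpleGraph V} {p : V → ℝ} (L : V → Prop)
    (hL : ∀ u v, G.Adj u v → L u ∨ L v) (j : ℕ) : ∀ S : Finset V,
    tau G p (j + 1) S = tau G p (j + 1) (S.filter L) +
      (j + 1) * ∑ a ∈ S.filter (fun a => ¬ L a), p a * tau G p j (nb G (S.filter L) a) := by
  induction j with
  | zero =>
    intro S
    simp only [tau, mul_one, Nat.cast_zero, zero_add, one_mul]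
    exact (sum_filter_add_sum_filter_not _ _ _).symm
  | succ j ih =>
    intro S
    rw [tau_succ, ← sum_filter_add_sum_filter_not S L]
    have e1 : ∀ a ∈ S.filter (fun a => ¬ L a), nb G S a = nb G (S.filter L) a := fun a ha => by
      ext u
      simp only [mem_nb, mem_filter] at ha ⊢
      exact ⟨fun h => ⟨⟨h.1, (hL a u h.2).resolve_left ha.2⟩, h.2⟩, fun h => ⟨h.1.1, h.2⟩⟩
    have e2 : ∀ v, (nb G S v).filter L = nb G (S.filter L) v := fun v => by
      ext u
      simp only [mem_nb, mem_filter]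
      tauto
    have e3 : ∑ v ∈ S.filter L, p v * ∑ a ∈ (nb G S v).filter (fun a => ¬ L a),
        p a * tau G p j (nb G (nb G (S.filter L) v) a) =
        ∑ a ∈ S.filter (fun a => ¬ L a), p a * tau G p (j + 1) (nb G (S.filter L) a) := by
      simp only [tau_succ, mul_sum]
      rw [sum_comm' (t' := S.filter (fun a => ¬ L a)) (s' := fun a => nb G (S.filter L) a)]
      · refine sum_congr rfl fun a _ => sum_congr rfl fun v _ => ?_
        have : nb G (nb G (S.filter L) v) a = nb G (nb G (S.filter L) a) v := by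
          ext u
          simp only [mem_nb]
          tauto
        rw [this]
        ring
      · intro v a
        simp only [mem_nb, mem_filter, G.adj_comm v a]
        tauto
    have e4 : ∑ a ∈ S.filter (fun a => ¬ L a), p a * tau G p (j + 1) (nb G S a) =
        ∑ a ∈ S.filter (fun a => ¬ L a), p a * tau G p (j + 1) (nb G (S.filter L) a) :=
      sum_congr rfl fun a ha => by rw [e1 a ha]
    have e5 : ∑ v ∈ S.filter L, p v * tau G p (j + 1) (nb G S v) =
        tau G p (j + 1 + 1) (S.filter L) + (j + 1) *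
          ∑ a ∈ S.filter (fun a => ¬ L a), p a * tau G p (j + 1) (nb G (S.filter L) a) := by
      rw [← e3, tau_succ G p (j + 1) (S.filter L), mul_sum, ← sum_add_distrib]
      refine sum_congr rfl fun v _ => ?_
      rw [ih (nb G S v), e2]
      ring
    rw [e4, e5]
    push_cast
    ring

lemma tau_bound {G : SimpleGraph V} {p : V → ℝ} (hp : ∀ v, 0 ≤ p v) (h1 : ∑ v, p v ≤ 1)
    {r D : ℕ} (hr : 2 ≤ r) {h : ℝ} (h0 : 0 ≤ h) (hG : Deg G r D)
    (hL : ∀ u v, G.Adj u v → p u ≤ h ∨ p v ≤ h) :
    tau G p (r + 1) univ ≤ (r + 2) * (2 * D * h) := by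
  have hs : ∀ S : Finset V, ∑ v ∈ S, p v ≤ 1 := fun S =>
    (sum_le_sum_of_subset_of_nonneg (subset_univ _) fun u _ _ => hp u).trans h1
  obtain ⟨k, rfl⟩ := Nat.exists_eq_add_of_le' hr
  rw [tau_heavy (fun v => p v ≤ h) hL]
  have a1 := tau_light hp h0 hG (k + 1) 0 ∅ (univ.filter fun v => p v ≤ h)
    (by simp [SimpleGraph.isNClique_empty]) (by omega) (by simp) (by simp) (hs _)
  have a2 : ∑ a ∈ univ.filter (fun a => ¬ p a ≤ h),
      p a * tau G p (k + 2) (nb G (univ.filter fun v => p v ≤ h) a) ≤ 2 * D * h := by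
    refine (sum_le_sum (g := fun a => p a * (2 * D * h)) fun a _ => mul_le_mul_of_nonneg_left
      (tau_light hp h0 hG k 1 {a} _ (by simp) (by omega) (by simp +contextual)
        (by simp +contextual) (hs _)) (hp a)).trans ?_
    rw [← sum_mul]
    exact mul_le_of_le_one_left (by positivity) (hs _)
  have a3 : tau G p (k + 2 + 1) (univ.filter fun v => p v ≤ h) ≤ 2 * D * h := a1
  push_cast at a2 ⊢
  nlinarith [mul_le_mul_of_nonneg_left a2 (show (0 : ℝ) ≤ k + 2 + 1 by positivity)]

end Pool.Agent.P.MP_094db5_co
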