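import Pool.Agent.P.MP_094db5_co.Core

set_option autoImplicit false

open Finset Classical

noncomputable section

namespace Pool.Agent.P.MP_094db5_co

variable {V : Type} [Fintype V]

/-- good pairs -/
def good (G : SimpleGraph V) (x : V → ℝ) (μ η : ℝ) (u v : V) : Prop :=
  G.Adj u v ∧ |x u * x v - μ| < η * μ

/-- bad weight at a vertex -/
def bw (G : SimpleGraph V) (x : V → ℝ) (μ η : ℝ) (c : V → ℕ) (u : V) : ℝ :=
  ∑ v, if cross c u v ∧ ¬ good G x μ η u v then x v ^ 2 else 0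

lemma bw_nonneg (G : SimpleGraph V) (x : V → ℝ) (μ η : ℝ) (c : V → ℕ) (u : V) :
    0 ≤ bw G x μ η c u := sum_nonneg fun v _ => by split_ifs <;> positivity

lemma sum_bw_eq (G : SimpleGraph V) (x : V → ℝ) (μ η : ℝ) (c : V → ℕ) :
    ∑ u, x u ^ 2 * bw G x μ η c u =
      S2 fun u v => if cross c u v ∧ ¬ good G x μ η u v then x u ^ 2 * x v ^ 2 else 0 := by
  simp only [bw, S2, mul_sum, mul_ite, mul_zero]

lemma sum_bw_le (G : SimpleGraph V) {x : V → ℝ} (hx : ∀ v, 0 ≤ x v) (μ : ℝ) {η : ℝ}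
    (h0 : 0 < η) (h1 : η ≤ 1) (c : V → ℕ) :
    η ^ 2 * ∑ u, x u ^ 2 * bw G x μ η c u ≤ 4 * Dev G x μ + Miss G (fun v => x v ^ 2) c := by
  rw [sum_bw_eq, Dev, Miss, S2_mul, S2_mul, S2_add]
  refine S2_mono fun u v => ?_
  have a0 := mul_nonneg (hx u) (hx v)
  have e : x u ^ 2 * x v ^ 2 = (x u * x v) ^ 2 := by ring
  rw [e]
  unfold good ad
  generalize x u * x v = a at *
  have b1 : η ^ 2 ≤ 1 := by nlinarith
  by_cases a1 : cross c u v <;> by_cases a2 : G.Adj u v <;> by_cases a3 : |a - μ| < η * μ <;>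
    simp only [a1, a2, a3, and_false, and_true, not_true_eq_false,
      not_false_eq_true, if_true, if_false, mul_zero, add_zero, one_mul, zero_mul, zero_add] <;>
    try positivity
  · rw [not_lt] at a3
    have a4 : η * a ≤ 2 * |a - μ| := by
      have := le_abs_self (a - μ)
      nlinarith [abs_nonneg (a - μ)]
    have a5 := mul_self_le_mul_self (by positivity) a4
    nlinarith [sq_abs (a - μ)]
  · nlinarith [sq_nonneg a]
  · nlinarith [sq_nonneg a]

lemma exists_third {r : ℕ} (hr : 3 ≤ r) (i : ℕ) :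
    ∃ j k, j ∈ Icc 1 r ∧ k ∈ Icc 1 r ∧ j ≠ i ∧ k ≠ i ∧ j ≠ k := by
  simp only [mem_Icc]
  by_cases h1 : i = 1
  · exact ⟨2, 3, by omega⟩
  · by_cases h2 : i = 2
    · exact ⟨1, 3, by omega⟩
    · exact ⟨1, 2, by omega⟩

lemma typ {G : SimpleGraph V} {x : V → ℝ} {μ η : ℝ} (hμ : 0 < μ)
    (h0 : 0 < η) (h1 : η ≤ 1 / 5) {r : ℕ} (hr : 3 ≤ r) {c : V → ℕ} {δ : ℝ} (hδ : 0 ≤ δ)
    (hP : ∀ i ∈ Icc 1 r, 2 * δ ≤ Pc (fun v => x v ^ 2) c i)
    (hB : ∑ u, x u ^ 2 * bw G x μ η c u < δ ^ 2) {u : V} (hu : c u ≠ 0)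
    (hb : bw G x μ η c u ≤ δ) : |x u ^ 2 - μ| ≤ 4 * η * μ := by
  obtain ⟨j, k, hj, hk, hji, hki, hjk⟩ := exists_third hr (c u)
  have key : ∀ i ∈ Icc 1 r, i ≠ c u →
      δ ≤ ∑ v, if c v = i ∧ good G x μ η u v then x v ^ 2 else 0 := fun i hi hne => by
    have : Pc (fun v => x v ^ 2) c i ≤ (∑ v, if c v = i ∧ good G x μ η u v then x v ^ 2 else 0) +
        bw G x μ η c u := by
      rw [Pc, bw, ← sum_add_distrib]
      refine sum_le_sum fun v _ => ?_
      have := mem_Icc.1 hi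
      unfold cross
      split_ifs <;> first | positivity | linarith | (exfalso; grind)
    linarith [hP i hi]
  obtain ⟨v, w, hv, hw, hvw⟩ : ∃ v w, (c v = j ∧ good G x μ η u v) ∧ (c w = k ∧ good G x μ η u w) ∧
      good G x μ η v w := by
    by_contra hn
    push Not at hn
    have a1 := mul_le_mul (key j hj hji) (key k hk hki) hδ (hδ.trans (key j hj hji))
    rw [S2_prod] at a1
    rw [sum_bw_eq] at hB
    refine absurd (a1.trans (S2_mono fun v w => ?_)) (by rw [← sq]; exact not_le.2 hB)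
    have := mem_Icc.1 hj
    have := mem_Icc.1 hk
    have := hn v w
    unfold cross
    simp only [ite_mul, mul_ite, zero_mul, mul_zero]
    split_ifs <;> first | positivity | linarith | (exfalso; grind)
  have a1 := abs_lt.1 hv.2.2
  have a2 := abs_lt.1 hw.2.2
  have a3 := abs_lt.1 hvw.2
  have e : x u ^ 2 * (x v * x w) = (x u * x v) * (x u * x w) := by ring
  generalize x u * x v = a at *
  generalize x u * x w = b at *
  generalize x v * x w = d at *
  have hs := sq_nonneg (x u)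
  generalize x u ^ 2 = s at *
  have hημ : 0 < η * μ := mul_pos h0 hμ
  have hημ' : η * μ ≤ μ / 5 := by nlinarith
  generalize hθ : η * μ = θ at *
  rw [mul_assoc, hθ, abs_le]
  constructor
  · have b1 : (μ - θ) * (μ - θ) ≤ a * b := mul_le_mul (by linarith) (by linarith) (by linarith)
      (by linarith)
    have b2 : s * d ≤ s * (μ + θ) := mul_le_mul_of_nonneg_left (by linarith) hs
    by_contra hn
    have b3 : s * (μ + θ) ≤ (μ - 4 * θ) * (μ + θ) :=
      mul_le_mul_of_nonneg_right (by linarith) (by linarith)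
    nlinarith
  · have b1 : a * b ≤ (μ + θ) * (μ + θ) := mul_le_mul (by linarith) (by linarith) (by linarith)
      (by linarith)
    have b2 : s * (μ - θ) ≤ s * d := mul_le_mul_of_nonneg_left (by linarith) hs
    by_contra hn
    have b3 : (μ + 4 * θ) * (μ - θ) < s * (μ - θ) :=
      mul_lt_mul_of_pos_right (by linarith) (by linarith)
    nlinarith

/-- no complete `r`-partite graph with parts of size `t` and an extra edge -/
def NoPlus (G : SimpleGraph V) (r t : ℕ) : Prop :=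
  ∀ B : ℕ → Finset V, (∀ i ∈ Icc 1 r, t ≤ (B i).card) →
    (∀ i ∈ Icc 1 r, ∀ j ∈ Icc 1 r, i ≠ j → ∀ a ∈ B i, ∀ b ∈ B j, G.Adj a b) →
    ∀ i ∈ Icc 1 r, ∀ a ∈ B i, ∀ b ∈ B i, ¬ G.Adj a b

omit [Fintype V] in
lemma NoPlus.mono {G H : SimpleGraph V} {r t : ℕ} (h : NoPlus G r t) (hle : H ≤ G) :
    NoPlus H r t := fun B h1 h2 i hi a ha b hb hab =>
  h B h1 (fun i hi j hj hij a ha b hb => hle (h2 i hi j hj hij a ha b hb)) i hi a ha b hb (hle hab)

lemma exists_max_image_of_bdd {α : Type} (P : α → Prop) (f : α → ℕ) (n : ℕ) (h0 : ∃ a, P a)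
    (hb : ∀ a, P a → f a ≤ n) : ∃ a, P a ∧ ∀ b, P b → f b ≤ f a := by
  have hne : {k | ∃ a, P a ∧ f a = k}.Nonempty := let ⟨a, ha⟩ := h0; ⟨_, a, ha, rfl⟩
  have hbd : BddAbove {k | ∃ a, P a ∧ f a = k} := ⟨n, by rintro _ ⟨a, ha, rfl⟩; exact hb a ha⟩
  obtain ⟨a, ha, e⟩ := Nat.sSup_mem hne hbd
  exact ⟨a, ha, fun b hb => e ▸ le_csSup hbd ⟨b, hb, rfl⟩⟩

omit [Fintype V] in
/-- greedy construction of a complete multipartite subgraph -/
lemma greedy {G : SimpleGraph V} {r t : ℕ} (A : ℕ → Finset V)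
    (h : ∀ i ∈ Icc 1 r, ∀ Z : ℕ → Finset V, (∀ j, Z j ⊆ A j) → (∀ j, (Z j).card ≤ t) →
      ∃ u ∈ A i, u ∉ Z i ∧ ∀ j ∈ Icc 1 r, j ≠ i → ∀ z ∈ Z j, G.Adj u z) :
    ∃ B : ℕ → Finset V, (∀ i, B i ⊆ A i) ∧ (∀ i ∈ Icc 1 r, (B i).card = t) ∧
      ∀ i ∈ Icc 1 r, ∀ j ∈ Icc 1 r, i ≠ j → ∀ a ∈ B i, ∀ b ∈ B j, G.Adj a b := by
  obtain ⟨B, ⟨h1, h2, h3⟩, hmax⟩ := exists_max_image_of_bdd
    (fun B : ℕ → Finset V => (∀ i, B i ⊆ A i) ∧ (∀ i, (B i).card ≤ t) ∧
      ∀ i ∈ Icc 1 r, ∀ j ∈ Icc 1 r, i ≠ j → ∀ a ∈ B i, ∀ b ∈ B j, G.Adj a b)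
    (fun B => ∑ i ∈ Icc 1 r, (B i).card) (r * t) ⟨fun _ => ∅, by simp⟩
    (fun B hB => by simpa using sum_le_card_nsmul (Icc 1 r) _ t fun i _ => hB.2.1 i)
  refine ⟨B, h1, fun i hi => ?_, h3⟩
  by_contra hne
  obtain ⟨u, hu, hu', hadj⟩ := h i hi B h1 h2
  have := hmax (Function.update B i (insert u (B i))) ⟨fun j => ?_, fun j => ?_, ?_⟩
  · rw [← add_sum_erase _ _ hi, ← add_sum_erase _ _ hi, Function.update_self,
      card_insert_of_notMem hu', sum_congr rfl fun j hj => by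
        rw [Function.update_of_ne (ne_of_mem_erase hj)]] at this
    omega
  · by_cases e : j = i
    · subst e; simpa [insert_subset_iff, hu] using h1 j
    · simpa [Function.update_of_ne e] using h1 j
  · by_cases e : j = i
    · subst e
      rw [Function.update_self, card_insert_of_notMem hu']
      have := h2 j
      omega
    · simpa [Function.update_of_ne e] using h2 j
  · intro j hj k hk hjk a ha b hb
    by_cases e : j = i
    · subst e
      rw [Function.update_self] at ha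
      rw [Function.update_of_ne hjk.symm] at hb
      rcases mem_insert.1 ha with rfl | ha
      · exact hadj k hk hjk.symm b hb
      · exact h3 j hj k hk hjk a ha b hb
    · rw [Function.update_of_ne e] at ha
      by_cases e' : k = i
      · subst e'
        rw [Function.update_self] at hb
        rcases mem_insert.1 hb with rfl | hb
        · exact (hadj j hj e a ha).symm
        · exact h3 j hj k hk hjk a ha b hb
      · rw [Function.update_of_ne e'] at hb
        exact h3 j hj k hk hjk a ha b hb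

end Pool.Agent.P.MP_094db5_co
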