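import Pool.Agent.P.MP_094db5_co.XT

set_option autoImplicit false

namespace Pool.Agent.P.MP_094db5_co.VariantBookTuran

open Pool.Agent.P.MP_094db5_co

theorem result (r t : ℕ) (hr : 3 ≤ r) : ∃ N₀ : ℕ, ∀ N k m : ℕ, N₀ ≤ N →
    m = (SimpleGraph.turanGraph N r).edgeSet.ncard + k → r * t + r < k → 2 * r ≤ k + 1 →
    (k : ℝ) ≤ ((r : ℝ) - 1) * (r - 2) / r * (N / r) - 1600 * r ^ 2 * √N →
    1600 * (r : ℝ) ^ 3 ≤ N * |phi r N k| →
    ∀ (V : Type) [Fintype V] (G : SimpleGraph V),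
    (InN (join (⊤ : SimpleGraph (Fin r)) (⊥ : SimpleGraph (Fin (t + 1)))) r m G ∧
      ∀ (W : Type) [Fintype W] (H : SimpleGraph W),
        InN (join (⊤ : SimpleGraph (Fin r)) (⊥ : SimpleGraph (Fin (t + 1)))) r m H →
          lam H ≤ lam G) ↔
    G.edgeSet.ncard = m ∧ ∃ c, Turan r N c ∧
      if 0 < phi r N k then PairB r G c else StarB r t G c :=
  book_turan hr t

end Pool.Agent.P.MP_094db5_co.VariantBookTuran
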