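import Pool.Agent.P.MP_094db5_co.Whl

set_option autoImplicit false

open Finset Classical SimpleGraph

noncomputable section

namespace Pool.Agent.P.MP_094db5_co

variable {V : Type}

lemma Gad.norm3 {G : SimpleGraph V} {n : ℕ} {c : V → ℕ} {A D : Set (Sym2 V)} (h : Gad G 3 n c A D)
    {i j l : ℕ} (hi : i ∈ Icc 1 3) (hj : j ∈ Icc 1 3) (hl : l ∈ Icc 1 3) (hij : i ≠ j)
    (hil : i ≠ l) (hjl : j ≠ l) : ∃ c' : V → ℕ, Gad G 3 n c' A D ∧
      ∀ v, (c v = 0 → c' v = 0) ∧ (c v = i → c' v = 1) ∧ (c v = j → c' v = 2) ∧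
        (c v = l → c' v = 3) := by
  have a1 := mem_Icc.1 hi
  have a2 := mem_Icc.1 hj
  have a3 := mem_Icc.1 hl
  refine ⟨fun v => if c v = i then 1 else if c v = j then 2 else if c v = l then 3 else 0,
    ⟨fun v => by grind, fun p hp => ?_, fun u v => ?_⟩, fun v => by grind⟩
  · have : p = 1 ∨ p = 2 ∨ p = 3 := by have := mem_Icc.1 hp; omega
    rcases this with rfl | rfl | rfl
    · rw [← h.2.1 i hi]; congr 1; ext v; simp only [Set.mem_ofPred_eq]; grind
    · rw [← h.2.1 j hj]; congr 1; ext v; simp only [Set.mem_ofPred_eq]; grind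
    · rw [← h.2.1 l hl]; congr 1; ext v; simp only [Set.mem_ofPred_eq]; grind
  · have := h.1 u
    have := h.1 v
    rw [h.2.2]
    refine or_congr_left (by grind)

/-- large fully joined subsets of the parts -/
def Cores (G : SimpleGraph V) (r N : ℕ) (c : V → ℕ) : Prop :=
  ∀ i ∈ Icc 1 r, ∃ P : Finset V, N ≤ P.card ∧ ∀ v ∈ P, c v = i ∧ ∀ u, c u ≠ 0 → c u ≠ i → G.Adj u v

lemma Shape.cores [Fintype V] {G : SimpleGraph V} {r N C : ℕ} {c : V → ℕ}
    (h : Shape G r (N + 2 * C) C c) : Cores G r N c := fun i hi => by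
  have a1 : (univ.filter fun v => ∃ u, (Kc c \ G).Adj v u).card ≤ 2 * C := by
    have b1 : ((univ.filter fun v => ∃ u, (Kc c \ G).Adj v u).card : ℝ) ≤ Mo (Kc c \ G) := by
      rw [card_filter, Mo, S2]
      push_cast
      refine sum_le_sum fun v _ => ?_
      split_ifs with e
      · obtain ⟨u, hu⟩ := e
        have := single_le_sum (fun u _ => ad_nonneg (Kc c \ G) v u) (mem_univ u)
        rwa [ad, if_pos hu] at this
      · exact sum_nonneg fun u _ => ad_nonneg _ v u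
    rw [Mo_eq] at b1
    have b2 : (univ.filter fun v => ∃ u, (Kc c \ G).Adj v u).card ≤
      2 * (Kc c \ G).edgeSet.ncard := by exact_mod_cast b1
    have := ncard_Bd G c
    have := h.bad
    omega
  refine ⟨(univ.filter fun v => c v = i) \ univ.filter fun v => ∃ u, (Kc c \ G).Adj v u, ?_,
    fun v hv => ?_⟩
  · have := le_card_sdiff (univ.filter fun v => ∃ u, (Kc c \ G).Adj v u)
      (univ.filter fun v => c v = i)
    have := h.big i hi
    unfold cn at this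
    omega
  · simp only [mem_sdiff, mem_filter, mem_univ, true_and, not_exists] at hv
    have := mem_Icc.1 hi
    refine ⟨hv.1, fun u h1 h2 => ?_⟩
    by_contra hn
    exact hv.2 u ⟨⟨by omega, h1, by omega⟩, fun a => hn a.symm⟩

lemma Cores.wheel {G : SimpleGraph V} {k : ℕ} {c : V → ℕ} (H : Cores G 3 (2 * k + 3) c)
    (hk : 2 ≤ k) {j l : ℕ} (hj : j ∈ Icc 1 3) (hl : l ∈ Icc 1 3) (hjl : j ≠ l) {h a b d e : V}
    (hab : G.Adj a b) (hbd : G.Adj b d) (hea : G.Adj e a) (ha : G.Adj h a) (hb : G.Adj h b)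
    (hd : G.Adj h d) (he : G.Adj h e) (hde : d ≠ e) (ca : c a = 0) (cb : c b ≠ l) (cd : c d = l)
    (ce : c e = l) (c0 : c h ≠ 0) (c1 : c h ≠ j) (c2 : c h ≠ l) : ¬ (Whl k).Free G := by
  obtain ⟨P, p1, p2⟩ := H j hj
  obtain ⟨Q, q1, q2⟩ := H l hl
  have c1 : ∀ (T : Finset V) (x y : V), 2 * k + 3 ≤ T.card → 2 * k < (T \ {x, y}).card :=
    fun T x y hT => by
      have := le_card_sdiff {x, y} T
      have := card_le_two (a := x) (b := y)
      omega
  have c3 := c1 P b b p1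
  have c4 := c1 Q d e q1
  clear c1 p1 q1
  have := mem_Icc.1 hj
  have := mem_Icc.1 hl
  refine wheel_of_sets hk c3 c4 hab hbd hea ha hb hd he (by grind) (by grind)
    hde (fun p hp => ?_) (fun q hq => ?_) fun p hp q hq => ?_ <;> clear c3 c4 <;>
    simp only [mem_sdiff, mem_insert, mem_singleton, not_or] at * <;> grind

lemma ncard3 {c : V → ℕ} {w a b d : V} (h1 : c a ≠ c b) (h2 : c a ≠ c d) (h3 : c b ≠ c d) :
    ({s(w, a), s(w, b), s(w, d)} : Set (Sym2 V)).ncard = 3 := by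
  rw [Set.ncard_insert_of_notMem (by simp; grind), Set.ncard_pair (by simp; grind)]

lemma ncard5 {c : V → ℕ} {w w' a b a' b' : V} (h0 : w ≠ w') (h1 : c w = 0) (h2 : c w' = 0)
    (h3 : c a ≠ 0) (h4 : c b ≠ 0) (h5 : c a' ≠ 0) (h6 : c b' ≠ 0) (h7 : c a ≠ c b)
    (h8 : c a' ≠ c b') :
    ({s(w, w'), s(w, a), s(w, b), s(w', a'), s(w', b')} : Set (Sym2 V)).ncard = 5 := by
  rw [Set.ncard_insert_of_notMem (by simp; grind), Set.ncard_insert_of_notMem (by simp; grind),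
    Set.ncard_insert_of_notMem (by simp; grind), Set.ncard_pair (by simp; grind)]

/-- the first gadget -/
def Gad1 (G : SimpleGraph V) (n : ℕ) : Prop :=
  ∃ (c : V → ℕ) (w a b d : V), c w = 0 ∧ c a = 1 ∧ c b = 2 ∧ c d = 3 ∧
    Gad G 3 n c {s(w, a), s(w, b), s(w, d)} {s(a, b), s(a, d)}

/-- the gadgets with two new vertices -/
def Gad2 (G : SimpleGraph V) (n : ℕ) (c : V → ℕ) (w w' a b a' b' : V) : Prop :=
  w ≠ w' ∧ c w = 0 ∧ c w' = 0 ∧ c a = 2 ∧ c a' = 2 ∧ c b = 3 ∧ c b' = 3 ∧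
    Gad G 3 n c {s(w, w'), s(w, a), s(w, b), s(w', a'), s(w', b')} ∅

lemma free1 {G : SimpleGraph V} {k n : ℕ} (hk : 2 ≤ k) {c : V → ℕ} {w a b d : V} (h1 : c a = 1)
    (h2 : c b = 2) (h3 : c d = 3)
    (h : Wf G 3 n c {s(w, a), s(w, b), s(w, d)} {s(a, b), s(a, d)}) : (Whl k).Free G := by
  intro hn
  obtain ⟨u, g, H⟩ := win_of_copy hk (not_not.2 hn)
  have a1 : ∀ x y, G.Adj x y → c x = 0 → y = a ∨ y = b ∨ y = d := fun x y hxy hx => by
    have := (h.gad.2.2 x y).1 hxy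
    simp only [Set.mem_insert_iff, Set.mem_singleton_iff, Sym2.eq_iff] at this
    grind
  have a2 : s(a, b) ∈ (Kc c \ G).edgeSet := by rw [h.eM]; simp
  have a3 : s(a, d) ∈ (Kc c \ G).edgeSet := by rw [h.eM]; simp
  have a4 : ¬ G.Adj a b := a2.2
  have a5 : ¬ G.Adj a d := a3.2
  rcases H.uncol h.gad.1 h.proper with e | ⟨m, e⟩
  · exact H.not_hub fun v hv => a1 u v hv e
  · have := a1 _ _ (H.hub (m + 2)).symm e
    have := a1 _ _ (H.step (m + 1)).symm e
    have := a1 _ _ (H.step (m + 2)) e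
    have := H.hub (m + 1)
    have := H.hub (m + 2 + 1)
    have := (H.hub (m + 1)).symm
    have := (H.hub (m + 2 + 1)).symm
    have := (H.hub (m + 1)).ne
    have := (H.hub (m + 2 + 1)).ne
    have := H.d2 (m + 1)
    grind

lemma Gad2.wf {G : SimpleGraph V} {n : ℕ} {c : V → ℕ} {w w' a b a' b' : V}
    (h : Gad2 G n c w w' a b a' b') :
    Wf G 3 n c {s(w, w'), s(w, a), s(w, b), s(w', a'), s(w', b')} ∅ :=
  ⟨h.2.2.2.2.2.2.2, fun u v e => by
    have := h.2.1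
    have := h.2.2.1
    simp only [Set.mem_insert_iff, Set.mem_singleton_iff, Sym2.eq_iff] at e
    grind, fun _ _ e => e.elim⟩

lemma Gad2.nbr {G : SimpleGraph V} {n : ℕ} {c : V → ℕ} {w w' a b a' b' : V}
    (h : Gad2 G n c w w' a b a' b') (x y : V) (hxy : G.Adj x y) (hx : c x = 0) :
    x = w ∧ (y = w' ∨ y = a ∨ y = b) ∨ x = w' ∧ (y = w ∨ y = a' ∨ y = b') := by
  obtain ⟨h0, h1, h2, h3, h4, h5, h6, hg⟩ := h
  have := (hg.2.2 x y).1 hxy
  simp only [Set.mem_insert_iff, Set.mem_singleton_iff, Sym2.eq_iff] at this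
  grind

lemma Gad2.free {G : SimpleGraph V} {k n : ℕ} (hk : 2 ≤ k) {c : V → ℕ} {w w' a b a' b' : V}
    (h : Gad2 G n c w w' a b a' b') (hab : a = a' ↔ b = b') : (Whl k).Free G := by
  intro hn
  obtain ⟨u, g, H⟩ := win_of_copy hk (not_not.2 hn)
  have a1 := h.nbr
  have a2 : c u ≠ 0 := fun e => by
    rcases a1 _ _ (H.hub 0) e with e' | e'
    · exact H.not_hub (a := w') (b := a) (d := b) fun v hv => by
        have := a1 _ _ hv e
        have := h.1
        grind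
    · exact H.not_hub (a := w) (b := a') (d := b') fun v hv => by
        have := a1 _ _ hv e
        have := h.1
        grind
  obtain ⟨m, e⟩ := (H.uncol h.wf.gad.1 h.wf.proper).resolve_left a2
  obtain ⟨h0, h1, h2, h3, h4, h5, h6, -⟩ := h
  have b1 := a1 _ _ (H.hub (m + 2)).symm e
  have b2 := a1 _ _ (H.step (m + 1)).symm e
  have b3 := a1 _ _ (H.step (m + 2)) e
  have := (H.hub (m + 1)).ne
  have := (H.hub (m + 3)).ne
  have := H.d2 (m + 1)
  have b4 : c (g (m + 1)) = 0 ∨ c (g (m + 3)) = 0 := by grind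
  rcases b4 with b4 | b4
  · have := a1 _ _ (H.hub (m + 1)).symm b4
    have := a1 _ _ (H.step m).symm b4
    have := (H.step (m + 1)).ne
    have := (H.hub m).ne
    have := H.d2 m
    have := H.d3 m
    grind
  · have := a1 _ _ (H.hub (m + 3)).symm b4
    have := a1 _ _ (H.step (m + 3)) b4
    have := (H.step (m + 2)).ne
    have := (H.hub (m + 4)).ne
    have := H.d2 (m + 2)
    have := H.d3 (m + 1)
    grind

variable [Fintype V]

lemma Gad2.count {G : SimpleGraph V} {n : ℕ} {c : V → ℕ} {w w' a b a' b' : V}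
    (h : Gad2 G n c w w' a b a' b') : G.edgeSet.ncard = 3 * n ^ 2 + 5 := by
  have := h.wf.count
  obtain ⟨h0, h1, h2, h3, h4, h5, h6, -⟩ := h
  rwa [ncard5 h0 h1 h2 (by omega) (by omega) (by omega) (by omega) (by omega) (by omega),
    Set.ncard_empty] at this

lemma Gad2.good {G : SimpleGraph V} {n : ℕ} {c : V → ℕ} {w w' a b a' b' : V}
    (h : Gad2 G n c w w' a b a' b') (hn : 0 < n) : ¬ G.Colorable 3 ∧
      2 * (1 - 1 / (3 : ℕ)) * ((G.edgeSet.ncard : ℝ) - (5 : ℕ)) < lam G ^ 2 := by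
  have hW := h.wf
  obtain ⟨h0, h1, h2, h3, h4, h5, h6, hg⟩ := h
  refine ⟨fun hc => ?_, hW.lower (by omega) h1 (v := a) (by omega) (by simp) ?_⟩
  · obtain ⟨e, e1, e2, e3⟩ := hW.rigid ∅ hn (fun _ _ e => e.elim) hc
    have := e3 w w' ((hg.2.2 _ _).2 (by simp))
    have := e3 w a ((hg.2.2 _ _).2 (by simp))
    have := e3 w b ((hg.2.2 _ _).2 (by simp))
    have := e3 w' a' ((hg.2.2 _ _).2 (by simp))
    have := e3 w' b' ((hg.2.2 _ _).2 (by simp))
    have := e2 a (by omega)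
    have := e2 b (by omega)
    have := e2 a' (by omega)
    have := e2 b' (by omega)
    have := mem_Icc.1 (e1 w)
    have := mem_Icc.1 (e1 w')
    omega
  · rw [ncard5 h0 h1 h2 (by omega) (by omega) (by omega) (by omega) (by omega) (by omega),
      Set.ncard_empty]
    norm_num

lemma wf1 {V : Type} {G : SimpleGraph V} {n : ℕ} {c : V → ℕ} {w a b d : V} (h0 : c w = 0)
    (h1 : c a = 1) (h2 : c b = 2) (h3 : c d = 3)
    (h : Gad G 3 n c {s(w, a), s(w, b), s(w, d)} {s(a, b), s(a, d)}) :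
    Wf G 3 n c {s(w, a), s(w, b), s(w, d)} {s(a, b), s(a, d)} :=
  ⟨h, fun u v e => by
    simp only [Set.mem_insert_iff, Set.mem_singleton_iff, Sym2.eq_iff] at e
    grind, fun u v e => by
    simp only [Set.mem_insert_iff, Set.mem_singleton_iff, Sym2.eq_iff] at e
    unfold cross
    grind⟩

lemma case1 {G : SimpleGraph V} {k : ℕ} (hk : 2 ≤ k) {c : V → ℕ}
    (hc : Shape G 3 (2 * k + 3 + 2 * 5) 5 c) (hf : (Whl k).Free G) {w : V} (hw : c w = 0)
    (hs : Sees G 3 c w) : ∃ n, Gad1 G n := by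
  have : Nonempty V := ⟨w⟩
  choose! x hx hwx using hs
  have a1 : ∀ i ∈ Icc 1 3, ∀ j ∈ Icc 1 3, ∀ l ∈ Icc 1 3, i ≠ j → i ≠ l → j ≠ l →
      G.Adj (x i) (x j) → ¬ G.Adj (x i) (x l) := fun i hi j hj l hl hij hil hjl h1 h2 => by
    obtain ⟨P, p1, p2⟩ := hc.cores l hl
    obtain ⟨d, hd, hdl⟩ := exists_mem_ne (s := P) (by omega) (x l)
    have := mem_Icc.1 hi
    have := mem_Icc.1 hj
    have := hx i hi
    have := hx j hj
    exact hc.cores.wheel hk hj hl hjl (hwx j hj) ((p2 d hd).2 _ (by omega) (by omega))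
      (hwx l hl).symm (hwx i hi).symm h1 ((p2 d hd).2 _ (by omega) (by omega)) h2 hdl hw
      (by omega) (p2 d hd).1 (hx l hl) (by omega) (by omega) (by omega) hf
  obtain ⟨i, hi, j, hj, l, hl, hij, hil, hjl, h1, h2⟩ : ∃ i ∈ Icc 1 3, ∃ j ∈ Icc 1 3, ∃ l ∈ Icc 1 3,
      i ≠ j ∧ i ≠ l ∧ j ≠ l ∧ ¬ G.Adj (x i) (x j) ∧ ¬ G.Adj (x i) (x l) := by
    by_cases e1 : G.Adj (x 1) (x 2)
    · exact ⟨3, by simp, 1, by simp, 2, by simp, by simp, by simp, by simp,
        fun a => a1 1 (by simp) 2 (by simp) 3 (by simp) (by simp) (by simp) (by simp) e1 a.symm,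
        fun a => a1 2 (by simp) 1 (by simp) 3 (by simp) (by simp) (by simp) (by simp) e1.symm a.symm⟩
    · by_cases e2 : G.Adj (x 1) (x 3)
      · exact ⟨2, by simp, 1, by simp, 3, by simp, by simp, by simp, by simp, fun a => e1 a.symm,
          fun a => a1 3 (by simp) 1 (by simp) 2 (by simp) (by simp) (by simp) (by simp) e2.symm
            a.symm⟩
      · exact ⟨1, by simp, 2, by simp, 3, by simp, by simp, by simp, by simp, e1, e2⟩
  have b1 := hx i hi
  have b2 := hx j hj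
  have b3 := hx l hl
  have := mem_Icc.1 hi
  have := mem_Icc.1 hj
  have := mem_Icc.1 hl
  obtain ⟨n, hg⟩ := hc.gad (by omega) (A := {s(w, x i), s(w, x j), s(w, x l)})
    (D := {s(x i, x j), s(x i, x l)})
    (by
      rintro _ (rfl | rfl | rfl)
      exacts [⟨hwx i hi, Or.inl hw⟩, ⟨hwx j hj, Or.inl hw⟩, ⟨hwx l hl, Or.inl hw⟩])
    (by
      rintro _ (rfl | rfl)
      exacts [⟨show cross c (x i) (x j) from ⟨by omega, by omega, by omega⟩, h1⟩,
        ⟨show cross c (x i) (x l) from ⟨by omega, by omega, by omega⟩, h2⟩])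
    (by rw [ncard3 (c := c) (by omega) (by omega) (by omega), Set.ncard_pair (by simp; grind)])
  obtain ⟨c', hg', h'⟩ := hg.norm3 hi hj hl hij hil hjl
  exact ⟨n, c', w, _, _, _, (h' w).1 hw, (h' _).2.1 b1, (h' _).2.2.1 b2, (h' _).2.2.2 b3, hg'⟩

lemma case2 {G : SimpleGraph V} {k : ℕ} (hk : 2 ≤ k) {c : V → ℕ}
    (hc : Shape G 3 (2 * k + 3 + 2 * 5) 5 c) (hf : (Whl k).Free G) (hn : ¬ G.Colorable 3)
    (hs : ∀ w, c w = 0 → ¬ Sees G 3 c w) :
    ∃ n c w w' a b a' b', Gad2 G n c w w' a b a' b' ∧ (a = a' ↔ b = b') := by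
  have a0 : ∀ w, c w = 0 → ∃ v, c v = 0 ∧ v ≠ w ∧ 3 ≤ G.degree v := fun w hw => by
    by_contra hno
    push Not at hno
    exact hs w hw (one_heavy hc.le hc.proper hn w hno)
  obtain ⟨w₀, hw₀, -⟩ : ∃ w, c w = 0 ∧ 3 ≤ G.degree w := by
    by_contra hno
    push Not at hno
    exact hn (extend _ c rfl hc.le hc.proper hno)
  obtain ⟨w, hw, -, dw⟩ := a0 w₀ hw₀
  obtain ⟨w', hw', hne, dw'⟩ := a0 w hw
  have a1 : ∀ v, c v = 0 → v ≠ w → v ≠ w' → G.degree v < 3 := fun v hv h1 h2 => by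
    by_contra hd
    have b1 := heavy_count G c (r := 3) {v, w, w'} (by simp [hv, hw, hw', dw, dw', not_lt.1 hd])
    rw [card_insert_of_notMem (by simp [h1, h2]), card_pair hne.symm] at b1
    have b2 : (Xe G c).edgeSet.ncard ≤ 5 := by
      have := ncard_Bd G c
      have := hc.bad
      omega
    have b3 : ((Xe G c).edgeSet.ncard : ℝ) ≤ 5 := by exact_mod_cast b2
    norm_num at b1
    linarith
  have a2 : ∀ u u' : V, (∀ v, c v = 0 → v ≠ u → v ≠ u' → G.degree v < 3) → ∀ i ∈ Icc 1 3,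
      (∀ x, G.Adj u x → c x ≠ i) → Sees G 3 (Function.update c u i) u' := fun u u' h1 i hi h2 => by
    have := mem_Icc.1 hi
    have := hc.le
    exact one_heavy (fun v => by grind) (hc.proper.update h2) hn u' fun v h3 h4 =>
      h1 v (by grind) (by grind) h4
  have a3 := hs w hw
  have a4 := hs w' hw'
  unfold Sees at a3 a4
  push Not at a3 a4
  obtain ⟨i, hi, a3⟩ := a3
  obtain ⟨i', hi', a4⟩ := a4
  have a5 := a2 w w' a1 i hi fun x h e => a3 x e h
  have a6 := a2 w' w (fun v h1 h2 h3 => a1 v h1 h3 h2) i' hi' fun x h e => a4 x e h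
  obtain ⟨a7, a8⟩ : i' = i ∧ G.Adj w' w := by
    obtain ⟨x, h1, h2⟩ := a5 i' hi'
    have := a4 x
    grind
  subst a7
  obtain ⟨j, l, hj, hl, hji, hli, hjl⟩ := exists_third le_rfl i'
  obtain ⟨a, ha, hwa⟩ := a6 j hj
  obtain ⟨b, hb, hwb⟩ := a6 l hl
  obtain ⟨a', ha', hwa'⟩ := a5 j hj
  obtain ⟨b', hb', hwb'⟩ := a5 l hl
  replace ha : c a = j := by grind
  replace hb : c b = l := by grind
  replace ha' : c a' = j := by grind
  replace hb' : c b' = l := by grind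
  have := mem_Icc.1 hj
  have := mem_Icc.1 hl
  obtain ⟨n, hg⟩ := hc.gad (by omega) (A := {s(w, w'), s(w, a), s(w, b), s(w', a'), s(w', b')})
    (D := ∅)
    (by
      rintro _ (rfl | rfl | rfl | rfl | rfl)
      exacts [⟨a8.symm, Or.inl hw⟩, ⟨hwa, Or.inl hw⟩, ⟨hwb, Or.inl hw⟩, ⟨hwa', Or.inl hw'⟩,
        ⟨hwb', Or.inl hw'⟩]) (Set.empty_subset _)
    (by rw [ncard5 hne.symm hw hw' (by omega) (by omega) (by omega) (by omega) (by omega)
      (by omega), Set.ncard_empty])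
  have a9 : ∀ u v, c u = j → c v = l → G.Adj u v := fun u v h1 h2 =>
    (hg.2.2 u v).2 (Or.inl ⟨by omega, by omega, by omega, fun e => e⟩)
  obtain ⟨c', hg', h'⟩ := hg.norm3 hi hj hl hji.symm hli.symm hjl
  refine ⟨n, c', w, w', a, b, a', b', ⟨hne.symm, (h' _).1 hw, (h' _).1 hw', (h' _).2.2.1 ha,
    (h' _).2.2.1 ha', (h' _).2.2.2 hb, (h' _).2.2.2 hb', hg'⟩, fun e => ?_, fun e => ?_⟩
  · subst e
    by_contra hd
    exact hc.cores.wheel hk hi hl hli.symm a8.symm hwb' hwb.symm hwa.symm hwa'.symm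
      (a9 _ _ ha hb') (a9 _ _ ha hb) (Ne.symm hd) hw (by omega) hb' hb (by omega) (by omega)
      (by omega) hf
  · subst e
    by_contra hd
    exact hc.cores.wheel hk hi hj hji.symm a8.symm hwa' hwa.symm hwb.symm hwb'.symm
      (a9 _ _ ha' hb).symm (a9 _ _ ha hb).symm (Ne.symm hd) hw (by omega) ha' ha (by omega)
      (by omega) (by omega) hf

theorem wheel_main {k : ℕ} (hk : 2 ≤ k) : ∃ m₀ : ℕ, ∀ (V : Type) [Fintype V]
    (G : SimpleGraph V), m₀ ≤ G.edgeSet.ncard →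
    (((Whl k).Free G ∧ ¬ G.Colorable 3 ∧
      2 * (1 - 1 / (3 : ℕ)) * ((G.edgeSet.ncard : ℝ) - (5 : ℕ)) < lam G ^ 2) ↔
    ∃ n : ℕ, (G.edgeSet.ncard = 3 * n ^ 2 + 1 ∧ Gad1 G n) ∨ (G.edgeSet.ncard = 3 * n ^ 2 + 5 ∧
      ∃ c w w' a b a' b', Gad2 G n c w w' a b a' b' ∧ (a = a' ↔ b = b'))) := by
  obtain ⟨m₀, h⟩ := shape_of le_rfl (2 * k) (2 * k + 3) 5 (2 * k + 3 + 2 * 5)
  refine ⟨max m₀ 33, fun V _ G hm => ?_⟩
  rw [max_le_iff] at hm
  constructor
  · rintro ⟨hf, hn, hl⟩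
    obtain ⟨c, hc⟩ := h V G (deg_of_free (by omega) hf) (noPlus_of_free hk hf) hm.1 hl
    by_cases hs : ∃ w, c w = 0 ∧ Sees G 3 c w
    · obtain ⟨w, hw, hs⟩ := hs
      obtain ⟨n, c, w, a, b, d, h0, h1, h2, h3, hg⟩ := case1 hk hc hf hw hs
      refine ⟨n, Or.inl ⟨?_, c, w, a, b, d, h0, h1, h2, h3, hg⟩⟩
      have := (wf1 h0 h1 h2 h3 hg).count
      rw [ncard3 (c := c) (by omega) (by omega) (by omega), Set.ncard_pair (by simp; grind),
        show Nat.choose 3 2 = 3 from rfl] at this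
      omega
    · push Not at hs
      obtain ⟨n, c, w, w', a, b, a', b', hg, e⟩ := case2 hk hc hf hn hs
      exact ⟨n, Or.inr ⟨hg.count, c, w, w', a, b, a', b', hg, e⟩⟩
  · rintro ⟨n, ⟨hcount, c, w, a, b, d, h0, h1, h2, h3, hg⟩ | ⟨hcount, c, w, w', a, b, a', b', hg, e⟩⟩
    · have hW := wf1 h0 h1 h2 h3 hg
      refine ⟨free1 hk h1 h2 h3 hW, hW.not_colorable {a, b, d} (card_le_three.trans_lt
        (big_n (r := 3) hcount (by simp; omega))) (fun u v e => ?_) (w := w) fun l hl => ?_,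
        hW.lower (by omega) h0 (v := a) (by omega) (by simp) ?_⟩
      · simp only [Set.mem_insert_iff, Set.mem_singleton_iff, Sym2.eq_iff] at e
        grind
      · have : l = 1 ∨ l = 2 ∨ l = 3 := by have := mem_Icc.1 hl; omega
        rcases this with rfl | rfl | rfl
        exacts [⟨a, h1, (hg.2.2 _ _).2 (by simp)⟩, ⟨b, h2, (hg.2.2 _ _).2 (by simp)⟩,
          ⟨d, h3, (hg.2.2 _ _).2 (by simp)⟩]
      · rw [ncard3 (c := c) (by omega) (by omega) (by omega), Set.ncard_pair (by simp; grind)]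
        norm_num
    · exact ⟨hg.free hk e, hg.good (big_n (r := 3) hcount (by simp; omega))⟩

end Pool.Agent.P.MP_094db5_co
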