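import Pool.Agent.P.MP_094db5_co.Book

set_option autoImplicit false

open Finset Classical SimpleGraph

noncomputable section

namespace Pool.Agent.P.MP_094db5_co

variable {V : Type}

lemma cyc_adj {n : ℕ} (u v : Fin n) : (cycleGraph n).Adj u v ↔
    u.val = v.val + 1 ∨ v.val = u.val + 1 ∨ (u.val + 1 = n ∧ v.val = 0 ∧ 1 < n) ∨
      (v.val + 1 = n ∧ u.val = 0 ∧ 1 < n) := by
  rw [cycleGraph_adj']
  have := u.2
  have := v.2
  rcases lt_trichotomy u v with h | h | h
  · rw [Fin.coe_sub_iff_lt.2 h, Fin.sub_val_of_le h.le]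
    have := Fin.lt_def.1 h
    omega
  · subst h
    rw [Fin.sub_val_of_le le_rfl]
    omega
  · rw [Fin.coe_sub_iff_lt.2 h, Fin.sub_val_of_le h.le]
    have := Fin.lt_def.1 h
    omega

/-- the even wheel -/
abbrev Whl (k : ℕ) := join (⊤ : SimpleGraph (Fin 1)) (cycleGraph (2 * k + 1))

lemma wheel_of_fun {G : SimpleGraph V} {k : ℕ} (h : V) (f : ℕ → V)
    (inj : ∀ i j, i ≤ 2 * k → j ≤ 2 * k → f i = f j → i = j) (hub : ∀ i ≤ 2 * k, G.Adj h (f i))
    (step : ∀ i < 2 * k, G.Adj (f i) (f (i + 1))) (close : G.Adj (f (2 * k)) (f 0)) :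
    ¬ (Whl k).Free G := by
  refine not_not.2 ⟨⟨⟨Sum.elim (fun _ => h) (fun i => f i), ?_⟩, ?_⟩⟩
  · rintro (a | a) (b | b) hab
    · simp [join, Subsingleton.elim a b] at hab
    · exact hub _ (by omega)
    · exact (hub _ (by omega)).symm
    · have : (cycleGraph (2 * k + 1)).Adj a b := by simpa [join] using hab
      have := a.2
      have := b.2
      show G.Adj (f a) (f b)
      rcases (cyc_adj a b).1 ‹_› with e | e | ⟨e, e', -⟩ | ⟨e, e', -⟩
      · rw [e]; exact (step _ (by omega)).symm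
      · rw [e]; exact step _ (by omega)
      · rw [e', show a.val = 2 * k by omega]; exact close
      · rw [e', show b.val = 2 * k by omega]; exact close.symm
  · rintro (a | a) (b | b) hab
    · rw [Subsingleton.elim a b]
    · exact ((hub b (by omega)).ne hab).elim
    · exact ((hub a (by omega)).ne hab.symm).elim
    · rw [Fin.ext (inj a b (by omega) (by omega) hab)]

lemma exists_enum {P : Finset V} {N : ℕ} (h : N < P.card) :
    ∃ p : ℕ → V, (∀ i ≤ N, p i ∈ P) ∧ ∀ i j, i ≤ N → j ≤ N → p i = p j → i = j := by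
  refine ⟨fun i => P.equivFin.symm ⟨min i N, by omega⟩, fun i _ => Subtype.property _,
    fun i j hi hj e => ?_⟩
  have := congrArg Fin.val (P.equivFin.symm.injective (Subtype.ext e))
  simp only at this
  omega

lemma wheel_of_sets {G : SimpleGraph V} {k : ℕ} (hk : 2 ≤ k) {h a b d e : V} {P Q : Finset V}
    (cP : 2 * k < P.card) (cQ : 2 * k < Q.card) (hab : G.Adj a b) (hbd : G.Adj b d)
    (hea : G.Adj e a) (ha : G.Adj h a) (hb : G.Adj h b) (hd : G.Adj h d) (he : G.Adj h e)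
    (had : a ≠ d) (hbe : b ≠ e) (hde : d ≠ e)
    (hP : ∀ p ∈ P, G.Adj d p ∧ G.Adj e p ∧ G.Adj h p ∧ p ≠ a ∧ p ≠ b)
    (hQ : ∀ q ∈ Q, G.Adj h q ∧ q ≠ a ∧ q ≠ b ∧ q ≠ d ∧ q ≠ e)
    (hPQ : ∀ p ∈ P, ∀ q ∈ Q, G.Adj p q) : ¬ (Whl k).Free G := by
  obtain ⟨p, p1, p2⟩ := exists_enum cP
  obtain ⟨q, q1, q2⟩ := exists_enum cQ
  obtain ⟨f, hf⟩ : ∃ f : ℕ → V, ∀ i, f i = if i = 0 then a else if i = 1 then b else
    if i = 2 then d else if i = 2 * k then e else if i % 2 = 1 then p i else q i := ⟨_, fun _ => rfl⟩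
  refine wheel_of_fun h f (fun i j hi hj => ?_) (fun i hi => ?_) (fun i hi => ?_) ?_
  · have a1 := hP _ (p1 i hi)
    have a2 := hP _ (p1 j hj)
    have := hQ _ (q1 i hi)
    have := hQ _ (q1 j hj)
    have := (hPQ _ (p1 i hi) _ (q1 j hj)).ne
    have := (hPQ _ (p1 j hj) _ (q1 i hi)).ne
    have := p2 i j hi hj
    have := q2 i j hi hj
    have := hab.ne
    have := hbd.ne
    have := hea.ne
    have := a1.1.ne
    have := a1.2.1.ne
    have := a2.1.ne
    have := a2.2.1.ne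
    rw [hf, hf]
    clear hf hP hQ hPQ p1 p2 q1 q2
    split_ifs <;> grind
  · have := hP _ (p1 i hi)
    have := hQ _ (q1 i hi)
    rw [hf]
    grind
  · have := hP _ (p1 (i + 1) hi)
    have := (hP _ (p1 i hi.le)).2.1.symm
    have := hPQ _ (p1 i hi.le) _ (q1 (i + 1) hi)
    have := (hPQ _ (p1 (i + 1) hi) _ (q1 i hi.le)).symm
    rw [hf, hf]
    grind
  · rw [hf, hf]
    grind

lemma exists_path {G : SimpleGraph V} {D : ℕ} {S : Finset V} (hS : S.Nonempty)
    (h : ∀ v ∈ S, D < (nb G S v).card) (j : ℕ) : j ≤ D → ∃ g : ℕ → V, (∀ i ≤ j, g i ∈ S) ∧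
      (∀ i i', i ≤ j → i' ≤ j → g i = g i' → i = i') ∧ ∀ i < j, G.Adj (g i) (g (i + 1)) := by
  induction j with
  | zero => exact fun _ => let ⟨v, hv⟩ := hS; ⟨fun _ => v, fun _ _ => hv, by omega, by omega⟩
  | succ j ih =>
    intro hj
    obtain ⟨g, g1, g2, g3⟩ := ih (by omega)
    obtain ⟨u, hu, hu'⟩ := exists_mem_notMem_of_card_lt_card (s := (range (j + 1)).image g)
      (t := nb G S (g j)) (card_image_le.trans_lt (by
        have := h _ (g1 j le_rfl)
        rw [card_range]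
        omega))
    rw [mem_nb] at hu
    have a1 : ∀ i ≤ j, g i ≠ u := fun i hi e => hu' (mem_image.2 ⟨i, mem_range.2 (by omega), e⟩)
    exact ⟨Function.update g (j + 1) u, fun i hi => by grind, fun i i' hi hi' => by grind,
      fun i hi => by grind⟩

lemma deg_of_free {G : SimpleGraph V} {k : ℕ} (hk : 1 ≤ k) (h : (Whl k).Free G) :
    Deg G 3 (2 * k) := by
  intro K hK S hS hadj
  by_contra hn
  push Not at hn
  obtain ⟨a, b, hab, rfl⟩ := card_eq_two.1 hK.card_eq
  obtain ⟨g, g1, g2, g3⟩ := exists_path hS hn (2 * k - 1) (by omega)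
  have a1 : ∀ i ≤ 2 * k - 1, G.Adj a (g i) ∧ G.Adj b (g i) := fun i hi =>
    ⟨hadj _ (g1 i hi) a (by simp), hadj _ (g1 i hi) b (by simp)⟩
  have a2 : G.Adj a b := hK.isClique (by simp) (by simp) hab
  refine wheel_of_fun a (Function.update g (2 * k) b) (fun i j hi hj => ?_) (fun i hi => by grind)
    (fun i hi => ?_) (by grind) h
  · have := fun e => (a1 i e).2.ne
    have := fun e => (a1 j e).2.ne
    grind
  · have := fun e => (a1 i e).2.symm
    grind

lemma noPlus_of_free {G : SimpleGraph V} {k : ℕ} (hk : 2 ≤ k) (h : (Whl k).Free G) :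
    NoPlus G 3 (2 * k + 3) := by
  intro B h1 h2 i hi a ha b hb hab
  obtain ⟨j, l, hj, hl, hji, hli, hjl⟩ := exists_third le_rfl i
  obtain ⟨u, hu⟩ := card_pos.1 (show 0 < (B j).card by have := h1 j hj; omega)
  obtain ⟨d, hd, e, he, hde⟩ := one_lt_card.1 (show 1 < (B l).card by have := h1 l hl; omega)
  have c1 : ∀ (T : Finset V) (x y : V), 2 * k + 3 ≤ T.card → 2 * k < (T \ {x, y}).card :=
    fun T x y hT => by
      have := le_card_sdiff {x, y} T
      have := card_le_two (a := x) (b := y)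
      omega
  have b1 := h2 i hi l hl hli.symm
  have b2 := h2 l hl i hi hli
  have b3 := h2 j hj i hi hji
  have b4 := h2 j hj l hl hjl
  exact wheel_of_sets hk (c1 _ a b (h1 i hi)) (c1 _ d e (h1 l hl)) hab (b1 b hb d hd)
    (b2 e he a ha) (b3 u hu a ha) (b3 u hu b hb) (b4 u hu d hd) (b4 u hu e he) (b1 a ha d hd).ne
    (b1 b hb e he).ne hde (fun p hp => by grind)
    (fun q hq => by
      have := fun x => (b1 a ha q x).ne
      have := fun x => (b1 b hb q x).ne
      grind) (fun p hp q hq => by grind) h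

/-- a wheel unrolled along the rim -/
structure WIn (G : SimpleGraph V) (k : ℕ) (h : V) (g : ℕ → V) : Prop where
  hub : ∀ n, G.Adj h (g n)
  step : ∀ n, G.Adj (g n) (g (n + 1))
  per : ∀ n, g (n + (2 * k + 1)) = g n
  d2 : ∀ n, g n ≠ g (n + 2)
  d3 : ∀ n, g n ≠ g (n + 3)

lemma win_of_copy {G : SimpleGraph V} {k : ℕ} (hk : 2 ≤ k) (h : ¬ (Whl k).Free G) :
    ∃ h g, WIn G k h g := by
  obtain ⟨f⟩ := not_not.1 h
  have key : ∀ n j, 0 < j → j < 2 * k + 1 → n % (2 * k + 1) ≠ (n + j) % (2 * k + 1) :=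
    fun n j h0 h1 e => by
      have := Nat.le_of_dvd h0 ((Nat.modEq_iff_dvd' (Nat.le_add_right n j)).1 e |>.trans
        (by simp))
      omega
  refine ⟨f (Sum.inl 0), fun n => f (Sum.inr ⟨n % (2 * k + 1), Nat.mod_lt _ (by omega)⟩),
    fun n => f.toHom.map_rel (by simp [join]), fun n => f.toHom.map_rel ?_, fun n => by simp,
    fun n e => key n 2 (by omega) (by omega) (by simpa using f.injective e),
    fun n e => key n 3 (by omega) (by omega) (by simpa using f.injective e)⟩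
  have : (cycleGraph (2 * k + 1)).Adj ⟨n % (2 * k + 1), Nat.mod_lt _ (by omega)⟩
      ⟨(n + 1) % (2 * k + 1), Nat.mod_lt _ (by omega)⟩ := by
    rw [cyc_adj]
    have := Nat.mod_lt n (show 0 < 2 * k + 1 by omega)
    simp only
    rw [← Nat.mod_add_mod]
    rcases (Nat.succ_le_of_lt this).eq_or_lt with e | e
    · rw [Nat.succ_eq_add_one] at e
      rw [e, Nat.mod_self]
      omega
    · rw [Nat.mod_eq_of_lt e]
      omega
  simpa [join] using this

namespace WIn

variable {G : SimpleGraph V} {k : ℕ} {h : V} {g : ℕ → V} (H : WIn G k h g)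
include H

lemma uncol {c : V → ℕ} (h1 : ∀ v, c v ≤ 3) (h2 : Proper G c) : c h = 0 ∨ ∃ n, c (g (n + 2)) = 0 := by
  by_contra hn
  push Not at hn
  have a1 : ∀ n, c (g (n + 2 + 2)) = c (g (n + 2)) := fun n => by
    have := h2 _ _ (H.hub (n + 2)) hn.1
    have := h2 _ _ (H.hub (n + 1 + 2)) hn.1
    have := h2 _ _ (H.hub (n + 2 + 2)) hn.1
    have := h2 _ _ (H.step (n + 2)) (hn.2 n)
    have := h2 _ _ (H.step (n + 1 + 2)) (hn.2 (n + 1))
    have := h1 h
    have := h1 (g (n + 2))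
    have := h1 (g (n + 1 + 2))
    have := h1 (g (n + 2 + 2))
    have := hn.2 n
    have := hn.2 (n + 1)
    have := hn.2 (n + 2)
    grind
  have a2 : ∀ j, c (g (2 * j + 2)) = c (g 2) := fun j => by
    induction j with
    | zero => rfl
    | succ j ih => exact (a1 (2 * j)).trans ih
  have a3 := a2 (k + 1)
  rw [show 2 * (k + 1) + 2 = 2 + 1 + (2 * k + 1) by ring, H.per] at a3
  exact h2 _ _ (H.step 2) (hn.2 0) a3.symm

lemma not_hub {a b d : V} (hN : ∀ v, G.Adj h v → v = a ∨ v = b ∨ v = d) : False := by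
  have := hN _ (H.hub 0)
  have := hN _ (H.hub 1)
  have := hN _ (H.hub 2)
  have := hN _ (H.hub 3)
  have := (H.step 0).ne
  have := (H.step 1).ne
  have := (H.step 2).ne
  have := H.d2 0
  have := H.d2 1
  have := H.d3 0
  grind

end WIn

end Pool.Agent.P.MP_094db5_co
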