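import Pool.Agent.P.MP_094db5_co.XA2

section

/-! Finite combinatorial lemmas. -/

set_option autoImplicit false

open Finset Classical

noncomputable section

namespace Pool.Agent.P.MP_094db5_co

theorem sq_one {α : Type} {s : Finset α} {d : α → ℕ} {e : ℕ} (h0 : 1 ≤ e) (h1 : ∑ u ∈ s, d u ≤ e)
    (h2 : e ^ 2 ≤ ∑ u ∈ s, d u ^ 2) : ∃ u ∈ s, d u = e := by
  by_contra hc
  push Not at hc
  have h3 : ∑ u ∈ s, d u ^ 2 ≤ ∑ u ∈ s, (e - 1) * d u := sum_le_sum fun u hu => by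
    have a1 : d u ≤ e := (single_le_sum (f := d) (fun _ _ => Nat.zero_le _) hu).trans h1
    have a2 := hc u hu
    rw [sq]
    exact Nat.mul_le_mul_right _ (by omega)
  rw [← mul_sum] at h3
  obtain ⟨e, rfl⟩ : ∃ e', e = e' + 1 := ⟨e - 1, by omega⟩
  rw [Nat.add_sub_cancel] at h3
  nlinarith only [Nat.mul_le_mul_left e h1, h1, h2, h3]

theorem sq_two {α : Type} {s : Finset α} {d : α → ℕ} {m e : ℕ} {z : α} (hz : z ∈ s) (h0 : 1 ≤ e)
    (hem : e ≤ m) (h1 : ∑ u ∈ s, d u ≤ m + e) (h2 : ∀ u ∈ s, d u ≤ d z) (h3 : d z ≤ m)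
    (h4 : m ^ 2 + e ^ 2 ≤ ∑ u ∈ s, d u ^ 2) : d z = m ∧ ∃ u ∈ s, u ≠ z ∧ d u = e := by
  rw [← add_sum_erase _ _ hz] at h1 h4
  have q1 : ∑ u ∈ s.erase z, d u ^ 2 ≤ (∑ u ∈ s.erase z, d u) * ∑ u ∈ s.erase z, d u := by
    rw [mul_sum]
    refine sum_le_sum fun u hu => ?_
    rw [sq]
    exact Nat.mul_le_mul_right _ (single_le_sum (f := d) (fun _ _ => Nat.zero_le _) hu)
  have q2 : ∑ u ∈ s.erase z, d u ^ 2 ≤ d z * ∑ u ∈ s.erase z, d u := by
    rw [mul_sum]
    refine sum_le_sum fun u hu => ?_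
    rw [sq]
    exact Nat.mul_le_mul_right _ (h2 u (mem_of_mem_erase hu))
  have hm : d z = m := by
    by_contra hne
    have hlt : d z + 1 ≤ m := by omega
    generalize ∑ u ∈ s.erase z, d u ^ 2 = Q at *
    generalize ∑ u ∈ s.erase z, d u = R at *
    generalize d z = a at *
    rcases le_or_gt a e with h | h
    · have t1 : a * (a + R) ≤ a * (m + e) := Nat.mul_le_mul_left a h1
      have t2 : (a + 1) * m ≤ m * m := Nat.mul_le_mul_right m hlt
      have t3 : a * e ≤ e * e := Nat.mul_le_mul_right e h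
      nlinarith only [h0, hem, h4, q2, t1, t2, t3]
    · obtain ⟨p, rfl⟩ : ∃ p, a = e + 1 + p := ⟨a - (e + 1), by omega⟩
      obtain ⟨q, rfl⟩ : ∃ q, m = e + 1 + p + 1 + q := ⟨m - (e + 1 + p + 1), by omega⟩
      have t0 : R ≤ e + 1 + q := by omega
      have t1 : R * R ≤ (e + 1 + q) * (e + 1 + q) := Nat.mul_le_mul t0 t0
      nlinarith only [Nat.zero_le (p * q), q1, h4, t1]
  refine ⟨hm, ?_⟩
  rw [hm] at h1 h4
  obtain ⟨u, hu, hd⟩ := sq_one (s := s.erase z) (d := d) h0 (by omega) (by omega)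
  exact ⟨u, mem_of_mem_erase hu, ne_of_mem_erase hu, hd⟩

variable {V : Type}

/-- adjusting a set to a prescribed size -/
theorem adjust {x : V → ℝ} {η : ℝ} (h0 : 0 ≤ η) {S U Y : Finset V} {σ : ℕ} (hY : Y ⊆ U)
    (h1 : Y.card ≤ σ) (h2 : σ ≤ U.card) (hS : ∀ v ∈ S, |x v - 1| ≤ η)
    (hU : ∀ v ∈ U, |x v - 1| ≤ η) : ∃ S', Y ⊆ S' ∧ S' ⊆ U ∧ S'.card = σ ∧
      ∑ v ∈ S, x v + (σ - S.card) - η * (|(σ : ℝ) - S.card| + 2 * ((S \ U).card + Y.card)) ≤
        ∑ v ∈ S', x v := by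
  have key : ∀ S' ⊆ U, S'.card = σ →
      ((S \ S').card ≤ (S \ U).card ∨ (S' \ S).card ≤ Y.card) →
      ∑ v ∈ S, x v + (σ - S.card) - η * (|(σ : ℝ) - S.card| + 2 * ((S \ U).card + Y.card)) ≤
        ∑ v ∈ S', x v := by
    intro S' hU' hc h
    have e1 := sum_inter_add_sum_sdiff S S' x
    have e2 := sum_inter_add_sum_sdiff S' S x
    rw [inter_comm] at e2
    have c1 : ((S \ S').card : ℝ) + (S ∩ S').card = S.card := by
      exact_mod_cast card_sdiff_add_card_inter S S'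
    have c2 : ((S' \ S).card : ℝ) + (S ∩ S').card = σ := by
      rw [← hc, inter_comm]
      exact_mod_cast card_sdiff_add_card_inter S' S
    have b1 : ∑ v ∈ S \ S', x v ≤ (S \ S').card * (1 + η) := by
      rw [← nsmul_eq_mul]
      exact sum_le_card_nsmul _ _ _ fun v hv => by
        linarith [(abs_le.1 (hS v (mem_sdiff.1 hv).1)).2]
    have b2 : (S' \ S).card * (1 - η) ≤ ∑ v ∈ S' \ S, x v := by
      rw [← nsmul_eq_mul]
      exact card_nsmul_le_sum _ _ _ fun v hv => by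
        linarith [(abs_le.1 (hU v (hU' (mem_sdiff.1 hv).1))).1]
    have b3 : ((S' \ S).card : ℝ) + (S \ S').card
        ≤ |(σ : ℝ) - S.card| + 2 * ((S \ U).card + Y.card) := by
      have n1 : (0 : ℝ) ≤ (S \ U).card := Nat.cast_nonneg _
      have n2 : (0 : ℝ) ≤ Y.card := Nat.cast_nonneg _
      rcases h with h | h
      · have : ((S \ S').card : ℝ) ≤ (S \ U).card := by exact_mod_cast h
        linarith only [le_abs_self ((σ : ℝ) - S.card), c1, c2, this]
      · have : ((S' \ S).card : ℝ) ≤ Y.card := by exact_mod_cast h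
        linarith only [neg_abs_le ((σ : ℝ) - S.card), c1, c2, this]
    linarith only [mul_le_mul_of_nonneg_left b3 h0, h0, e1, e2, c1, c2, b1, b2, b3]
  have hS0 : S ∩ U ∪ Y ⊆ U := union_subset inter_subset_right hY
  rcases le_total (S ∩ U ∪ Y).card σ with h | h
  · obtain ⟨S', a1, a2, a3⟩ := exists_subsuperset_card_eq hS0 h h2
    refine ⟨S', subset_union_right.trans a1, a2, a3, key S' a2 a3 (Or.inl (card_le_card ?_))⟩
    intro v hv
    rw [mem_sdiff] at hv ⊢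
    exact ⟨hv.1, fun hu => hv.2 (a1 (mem_union_left _ (mem_inter.2 ⟨hv.1, hu⟩)))⟩
  · obtain ⟨S', a1, a2, a3⟩ := exists_subsuperset_card_eq (subset_union_right (s₁ := S ∩ U)) h1 h
    refine ⟨S', a1, a2.trans hS0, a3, key S' (a2.trans hS0) a3 (Or.inr (card_le_card ?_))⟩
    intro v hv
    rw [mem_sdiff] at hv
    rcases mem_union.1 (a2 hv.1) with h' | h'
    · exact absurd (mem_inter.1 h').1 hv.2
    · exact h'

variable [Fintype V] {r : ℕ} {c : V → ℕ} {G H : SimpleGraph V}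

lemma AHb_qf (hH : ∀ u v, H.Adj u v → c u ≠ c v) {i : ℕ} {p q : V → ℝ}
    (hq : ∀ v, q v = if c v = i then 0 else p v) :
    qf H p = qf H q + 2 * ∑ v ∈ Vp c i, p v * op H q v := by
  have e : ∑ v ∈ Vp c i, p v * op H q v
      = S2 fun u v => ad H u v * ((if c u = i then p u else 0) * q v) := by
    rw [Vp, sum_filter, S2]
    refine sum_congr rfl fun u _ => ?_
    split_ifs
    · rw [op, mul_sum]
      exact sum_congr rfl fun v _ => by ring
    · simp
  rw [two_mul, e]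
  nth_rewrite 2 [S2_comm]
  rw [qf, qf, S2_add, S2_add]
  refine S2_congr fun u v => ?_
  rw [hq, hq, ad_comm H v u]
  by_cases h : H.Adj u v
  · have := hH u v h
    split_ifs with h1 h2 h2
    · exact absurd (h1.trans h2.symm) this
    · ring
    · ring
    · ring
  · simp [ad, h]

lemma AHb_round (hH : ∀ u v, H.Adj u v → c u ≠ c v) (I : Finset ℕ) (p : V → ℝ)
    (p0 : ∀ v, 0 ≤ p v) (p1 : ∀ i ∈ I, ∑ v ∈ Vp c i, p v = 1) :
    ∃ p' : V → ℝ, (∀ v, c v ∉ I → p' v = p v) ∧ (∀ i ∈ I, ∃ a, c a = i ∧ 0 < p a ∧ p' a = 1) ∧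
      (∀ v, 0 ≤ p' v) ∧ qf H p' ≤ qf H p := by
  induction I using Finset.induction_on with
  | empty => exact ⟨p, fun _ _ => rfl, by simp, p0, le_rfl⟩
  | insert i I hi ih =>
    obtain ⟨p', a1, a2, a3, a4⟩ := ih fun j hj => p1 j (mem_insert_of_mem hj)
    have hs := p1 i (mem_insert_self _ _)
    obtain ⟨q, hq⟩ : ∃ q : V → ℝ, ∀ v, q v = if c v = i then 0 else p' v := ⟨_, fun _ => rfl⟩
    have hne : ((Vp c i).filter fun v => 0 < p v).Nonempty := by
      by_contra h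
      rw [not_nonempty_iff_eq_empty, filter_eq_empty_iff] at h
      have := sum_nonpos (s := Vp c i) (f := p) fun v hv => not_lt.1 (h hv)
      linarith
    obtain ⟨a, ha, hmin⟩ := exists_min_image _ (op H q) hne
    obtain ⟨hai, hpa⟩ := mem_filter.1 ha
    have hci := mem_Vp.1 hai
    refine ⟨fun v => if c v = i then (if v = a then 1 else 0) else p' v, fun v hv => ?_,
      fun j hj => ?_, fun v => ?_, le_trans ?_ a4⟩
    · rw [mem_insert, not_or] at hv
      simp only [if_neg hv.1]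
      exact a1 v hv.2
    · rcases mem_insert.1 hj with rfl | hj
      · exact ⟨a, hci, hpa, by simp [hci]⟩
      · obtain ⟨b, b1, b2, b3⟩ := a2 j hj
        have : c b ≠ i := fun e => hi (e ▸ b1 ▸ hj)
        exact ⟨b, b1, b2, by simp only [if_neg this, b3]⟩
    · have := a3 v
      dsimp only
      split_ifs
      exacts [zero_le_one, le_rfl, this]
    · rw [AHb_qf hH hq, AHb_qf hH (i := i) (q := q) fun v => by rw [hq]; split_ifs <;> rfl]
      have e1 : ∑ v ∈ Vp c i, (if c v = i then (if v = a then 1 else 0) else p' v) * op H q v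
          = op H q a := by
        rw [sum_eq_single_of_mem a hai]
        · simp [hci]
        · intro v hv hva
          simp [mem_Vp.1 hv, hva]
      have e2 : ∑ v ∈ Vp c i, p v * op H q a ≤ ∑ v ∈ Vp c i, p' v * op H q v := by
        refine sum_le_sum fun v hv => ?_
        rw [a1 v (by rw [mem_Vp.1 hv]; exact hi)]
        rcases (p0 v).eq_or_lt with h | h
        · rw [← h, zero_mul, zero_mul]
        · exact mul_le_mul_of_nonneg_left (hmin v (mem_filter.2 ⟨hv, h⟩)) h.le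
      rw [← sum_mul, hs, one_mul] at e2
      rw [e1]
      linarith

/-- if no transversal of `S` is a clique then two small classes contain a missing pair -/
theorem exists_small_pair {S : Finset V} {I : Finset ℕ} (h0 : 0 ∉ I)
    (h1 : ∀ i ∈ I, ∃ v ∈ S, c v = i)
    (h2 : ∀ K ⊆ S, (∀ v ∈ K, c v ∈ I) → ¬ G.IsNClique I.card K) :
    ∃ a ∈ S, ∃ b ∈ S, (Hm G c).Adj a b ∧
      (S.filter fun v => c v = c a).card * (S.filter fun v => c v = c b).card ≤ ec (Hm G c) := by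
  by_contra hc
  push Not at hc
  obtain ⟨n, hn⟩ : ∃ n : ℕ → ℕ, ∀ i, n i = (S.filter fun v => c v = i).card := ⟨_, fun _ => rfl⟩
  simp only [← hn] at hc
  obtain ⟨p, hp⟩ : ∃ p : V → ℝ, ∀ v, p v = if v ∈ S then ((n (c v) : ℝ))⁻¹ else 0 :=
    ⟨_, fun _ => rfl⟩
  have p0 : ∀ v, 0 ≤ p v := fun v => by
    rw [hp]
    split_ifs
    · positivity
    · exact le_rfl
  have p1 : ∀ i ∈ I, ∑ v ∈ Vp c i, p v = 1 := fun i hi => by
    obtain ⟨w, hw, hwi⟩ := h1 i hi
    have hpos : 0 < n i := by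
      rw [hn]
      exact card_pos.2 ⟨w, mem_filter.2 ⟨hw, hwi⟩⟩
    have e : ∑ v ∈ Vp c i, p v = ∑ v ∈ S.filter (fun v => c v = i), ((n i : ℝ))⁻¹ := by
      simp only [hp]
      rw [← sum_filter]
      refine sum_congr (by ext v; simp [and_comm]) fun v hv => ?_
      rw [(mem_filter.1 hv).2]
    rw [e, sum_const, ← hn, nsmul_eq_mul]
    exact mul_inv_cancel₀ (Nat.cast_ne_zero.2 hpos.ne')
  have hq : qf (Hm G c) p < 2 := by
    have hk : (0 : ℝ) < ec (Hm G c) + 1 := by positivity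
    have a1 : qf (Hm G c) p ≤ ((ec (Hm G c) : ℝ) + 1)⁻¹ * Mo (Hm G c) := by
      rw [Mo, S2_mul]
      refine S2_mono fun u v => ?_
      unfold ad
      split_ifs with h
      · rw [one_mul, mul_one, hp, hp]
        split_ifs with hu hv
        · rw [← mul_inv]
          exact inv_anti₀ hk (by exact_mod_cast hc u hu v hv h)
        · rw [mul_zero]; positivity
        · rw [zero_mul]; positivity
        · rw [zero_mul]; positivity
      · simp
    rw [Mo_ec, ← div_eq_inv_mul, le_div_iff₀ hk] at a1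
    by_contra h
    nlinarith only [not_lt.1 h, a1, h]
  obtain ⟨p', -, a2, a3, a4⟩ := AHb_round (H := Hm G c) (c := c) (fun u v h => h.1.2.2) I p p0 p1
  have : Nonempty V := by
    rcases I.eq_empty_or_nonempty with rfl | ⟨i, hi⟩
    · exact absurd (by simp) (h2 ∅ (empty_subset _) (by simp))
    · exact (h1 i hi).nonempty
  choose! z hz using a2
  have zS : ∀ i ∈ I, z i ∈ S := fun i hi => by
    by_contra h
    have := (hz i hi).2.1
    rw [hp, if_neg h] at this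
    exact lt_irrefl _ this
  refine h2 (I.image z) (fun v hv => ?_) (fun v hv => ?_) (clique_image fun i hi j hj hij => ?_)
  · obtain ⟨i, hi, rfl⟩ := mem_image.1 hv
    exact zS i hi
  · obtain ⟨i, hi, rfl⟩ := mem_image.1 hv
    rwa [(hz i hi).1]
  · by_contra hn
    have hadj : (Hm G c).Adj (z i) (z j) := by
      refine Hm_adj.2 ⟨?_, hn⟩
      unfold cross
      rw [(hz i hi).1, (hz j hj).1]
      exact ⟨fun e => h0 (e ▸ hi), fun e => h0 (e ▸ hj), hij⟩
    have b1 : ∑ u ∈ {z i, z j}, p' u * op (Hm G c) p' u ≤ qf (Hm G c) p' := by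
      rw [qf_op]
      exact sum_le_sum_of_subset_of_nonneg (subset_univ _) fun u _ _ =>
        mul_nonneg (a3 u) (op_nonneg a3 u)
    rw [sum_pair hadj.ne, (hz i hi).2.2, (hz j hj).2.2] at b1
    have b2 := le_op a3 hadj
    have b3 := le_op a3 hadj.symm
    rw [(hz j hj).2.2] at b2
    rw [(hz i hi).2.2] at b3
    linarith

/-- ordered adjacent pairs -/
def AHb_P (H : SimpleGraph V) : Finset (V × V) := univ.filter fun p => H.Adj p.1 p.2

lemma AHb_mem {p : V × V} : p ∈ AHb_P H ↔ H.Adj p.1 p.2 := by simp [AHb_P]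

lemma AHb_fst (H : SimpleGraph V) (f : V → ℕ) :
    ∑ p ∈ AHb_P H, f p.1 = ∑ v, H.degree v * f v := by
  rw [AHb_P, sum_filter, ← univ_product_univ, sum_product]
  refine sum_congr rfl fun u _ => ?_
  dsimp only
  rw [← sum_filter, sum_const, smul_eq_mul, ← SimpleGraph.card_neighborFinset_eq_degree,
    SimpleGraph.neighborFinset_eq_filter]

lemma AHb_ec (H : SimpleGraph V) : ec H = H.edgeFinset.card := by
  rw [ec, Set.ncard_eq_toFinset_card']
  rfl

lemma AHb_card (H : SimpleGraph V) : (AHb_P H).card = 2 * ec H := by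
  have h := AHb_fst H fun _ => 1
  simp only [sum_const, smul_eq_mul, mul_one] at h
  rw [h, AHb_ec, H.sum_degrees_eq_twice_card_edges]

lemma AHb_sum (H : SimpleGraph V) :
    ∑ p ∈ AHb_P H, (H.degree p.1 + H.degree p.2) = 2 * ∑ v, H.degree v ^ 2 := by
  have h1 := AHb_fst H fun v => H.degree v
  have h2 : ∑ p ∈ AHb_P H, H.degree p.2 = ∑ p ∈ AHb_P H, H.degree p.1 :=
    sum_equiv (Equiv.prodComm V V) (fun p => by simp [AHb_mem, H.adj_comm]) fun p _ => rfl
  rw [sum_add_distrib, h2, h1, two_mul]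
  simp only [sq]

lemma AHb_inc {u v : V} (h : H.Adj u v) :
    H.degree u + H.degree v = (H.incidenceFinset u ∪ H.incidenceFinset v).card + 1 := by
  rw [← H.card_incidenceFinset_eq_degree, ← H.card_incidenceFinset_eq_degree,
    ← card_union_add_card_inter]
  have : H.incidenceFinset u ∩ H.incidenceFinset v = {s(u, v)} := by
    ext e
    rw [mem_inter, SimpleGraph.mem_incidenceFinset, SimpleGraph.mem_incidenceFinset,
      ← Set.mem_inter_iff, H.incidenceSet_inter_incidenceSet_of_adj h]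
    simp
  rw [this, card_singleton]

lemma AHb_deg {u v : V} (h : H.Adj u v) : H.degree u + H.degree v ≤ ec H + 1 := by
  rw [AHb_inc h, AHb_ec]
  exact Nat.succ_le_succ (card_le_card (union_subset (H.incidenceFinset_subset u)
    (H.incidenceFinset_subset v)))

lemma AHb_deg' {u v a b : V} (h : H.Adj u v) (h' : H.Adj a b) (h1 : u ≠ a) (h2 : u ≠ b)
    (h3 : v ≠ a) (h4 : v ≠ b) : H.degree u + H.degree v ≤ ec H := by
  rw [AHb_inc h, AHb_ec]
  refine card_lt_card ⟨union_subset (H.incidenceFinset_subset u) (H.incidenceFinset_subset v),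
    fun hs => ?_⟩
  have := hs (SimpleGraph.mem_edgeFinset.2 (show s(a, b) ∈ H.edgeSet from h'))
  simp [SimpleGraph.incidenceSet, h1, h2, h3, h4] at this

theorem sum_degree_sq_le (H : SimpleGraph V) : ∑ v, H.degree v ^ 2 ≤ ec H ^ 2 + ec H := by
  have h := AHb_sum H
  have h1 : ∑ p ∈ AHb_P H, (H.degree p.1 + H.degree p.2) ≤ (AHb_P H).card • (ec H + 1) :=
    sum_le_card_nsmul _ _ _ fun p hp => AHb_deg (AHb_mem.1 hp)
  rw [AHb_card, smul_eq_mul] at h1
  nlinarith only [h, h1]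

theorem sum_degree_sq_le' {a b d e : V} (h1 : H.Adj a b) (h2 : H.Adj d e) (h3 : a ≠ d)
    (h4 : a ≠ e) (h5 : b ≠ d) (h6 : b ≠ e) :
    3 * ∑ v, H.degree v ^ 2 + ec H ≤ 3 * (ec H ^ 2 + ec H) := by
  have h := AHb_sum H
  obtain ⟨B, hB⟩ : ∃ B : Finset (V × V), B = (AHb_P H).filter fun p =>
    (p.1 = a ∨ p.1 = b ∨ p.2 = a ∨ p.2 = b) ∧ (p.1 = d ∨ p.1 = e ∨ p.2 = d ∨ p.2 = e) := ⟨_, rfl⟩
  have hab := h1.ne
  have hde := h2.ne
  have k1 : ∑ p ∈ AHb_P H, (H.degree p.1 + H.degree p.2)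
      ≤ ∑ p ∈ AHb_P H, (ec H + if p ∈ B then 1 else 0) := sum_le_sum fun p hp => by
    have hp' := AHb_mem.1 hp
    split_ifs with hpB
    · exact AHb_deg hp'
    · rw [hB, mem_filter, not_and, not_and_or] at hpB
      rcases hpB hp with t | t
      · exact AHb_deg' hp' h1 (by tauto) (by tauto) (by tauto) (by tauto)
      · exact AHb_deg' hp' h2 (by tauto) (by tauto) (by tauto) (by tauto)
  have hBP : B ⊆ AHb_P H := hB ▸ filter_subset _ _
  rw [h, sum_add_distrib, sum_const, sum_ite_mem, inter_eq_right.2 hBP, sum_const, AHb_card,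
    smul_eq_mul, smul_eq_mul, mul_one] at k1
  have k2 : B.card ≤ 8 := by
    have : B ⊆ ({a, b} ×ˢ {d, e}) ∪ ({d, e} ×ˢ {a, b}) := by
      rintro ⟨u, v⟩ hp
      rw [hB, mem_filter] at hp
      simp only [mem_union, mem_product, mem_insert, mem_singleton]
      have := hp.2
      grind
    refine (card_le_card this).trans ((card_union_le _ _).trans ?_)
    rw [card_product, card_product, card_pair hab, card_pair hde]
  have k3 : B.card + 4 ≤ 2 * ec H := by
    have d1 : Disjoint B {(a, b), (b, a), (d, e), (e, d)} := by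
      rw [disjoint_left]
      rintro ⟨u, v⟩ hp hq
      rw [hB, mem_filter] at hp
      simp only [mem_insert, mem_singleton, Prod.mk.injEq] at hq
      have := hp.2
      grind
    have d2 : ({(a, b), (b, a), (d, e), (e, d)} : Finset (V × V)).card = 4 := by
      rw [card_insert_of_notMem (by simp; grind), card_insert_of_notMem (by simp; grind),
        card_pair (by simp; grind)]
    rw [← d2, ← card_union_of_disjoint d1, ← AHb_card]
    refine card_le_card (union_subset hBP fun p hp => AHb_mem.2 ?_)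
    simp only [mem_insert, mem_singleton] at hp
    rcases hp with rfl | rfl | rfl | rfl
    exacts [h1, h1.symm, h2, h2.symm]
  have k4 : 3 * B.card ≤ 4 * ec H := by omega
  nlinarith only [k1, k2, k3]

omit [Fintype V] in
theorem star_of_inter {a₀ b₀ : V} (h0 : H.Adj a₀ b₀)
    (h1 : ∀ a b d e, H.Adj a b → H.Adj d e → a = d ∨ a = e ∨ b = d ∨ b = e)
    (h2 : ∀ a b d, H.Adj a b → H.Adj b d → ¬ H.Adj a d) :
    ∃ a, ∀ u v, H.Adj u v → u = a ∨ v = a := by
  by_contra hc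
  push Not at hc
  obtain ⟨u, v, huv, hu, hv⟩ := hc a₀
  obtain ⟨u', v', huv', hu', hv'⟩ := hc b₀
  obtain ⟨d, hd, hda⟩ : ∃ d, H.Adj b₀ d ∧ d ≠ a₀ := by
    rcases h1 _ _ _ _ h0 huv with e | e | e | e
    · exact absurd e.symm hu
    · exact absurd e.symm hv
    · exact ⟨v, e ▸ huv, hv⟩
    · exact ⟨u, e ▸ huv.symm, hu⟩
  obtain ⟨e, he, heb⟩ : ∃ e, H.Adj a₀ e ∧ e ≠ b₀ := by
    rcases h1 _ _ _ _ h0 huv' with e | e | e | e
    · exact ⟨v', e ▸ huv', hv'⟩
    · exact ⟨u', e ▸ huv'.symm, hu'⟩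
    · exact absurd e.symm hu'
    · exact absurd e.symm hv'
  rcases h1 _ _ _ _ hd he with t | t | t | t
  · exact h0.ne t.symm
  · exact heb t.symm
  · exact hda t
  · exact h2 _ _ _ h0 hd (t ▸ he)

/-- a set with exactly `t` elements in each part -/
theorem exists_full {S : Finset V} {t : ℕ} (hc : ∀ v, c v ≤ r) (h0 : ∀ v ∈ S, c v ≠ 0)
    (h1 : ∀ i, (S.filter fun v => c v = i).card ≤ t) (hb : ∀ i ∈ Icc 1 r, t ≤ cn c i) :
    ∃ U, S ⊆ U ∧ (∀ v ∈ U, c v ≠ 0) ∧ U.card = r * t ∧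
      ∀ i, (U.filter fun v => c v = i).card ≤ t := by
  have : ∀ i ∈ Icc 1 r, ∃ W : Finset V, (S.filter fun v => c v = i) ⊆ W ∧ W ⊆ Vp c i ∧
      W.card = t := fun i hi =>
    exists_subsuperset_card_eq (fun v hv => mem_Vp.2 (mem_filter.1 hv).2) (h1 i) (hb i hi)
  choose! W hW using this
  have hWc : ∀ i ∈ Icc 1 r, ∀ v ∈ W i, c v = i := fun i hi v hv => mem_Vp.1 ((hW i hi).2.1 hv)
  refine ⟨(Icc 1 r).biUnion W, fun v hv => ?_, fun v hv => ?_, ?_, fun i => ?_⟩
  · have hi : c v ∈ Icc 1 r := mem_Icc.2 ⟨Nat.one_le_iff_ne_zero.2 (h0 v hv), hc v⟩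
    exact mem_biUnion.2 ⟨c v, hi, (hW _ hi).1 (mem_filter.2 ⟨hv, rfl⟩)⟩
  · obtain ⟨i, hi, hv⟩ := mem_biUnion.1 hv
    have := (mem_Icc.1 hi).1
    rw [hWc i hi v hv]
    omega
  · rw [card_biUnion, sum_congr rfl fun i hi => (hW i hi).2.2, sum_const, Nat.card_Icc,
      add_tsub_cancel_right, smul_eq_mul]
    intro i hi j hj hij
    exact disjoint_left.2 fun v h h' => hij ((hWc i hi v h).symm.trans (hWc j hj v h'))
  · by_cases hi : i ∈ Icc 1 r
    · rw [← (hW i hi).2.2]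
      refine card_le_card fun v hv => ?_
      obtain ⟨hv, hvi⟩ := mem_filter.1 hv
      obtain ⟨j, hj, hv⟩ := mem_biUnion.1 hv
      rwa [← hvi, hWc j hj v hv]
    · rw [filter_eq_empty_iff.2, card_empty]
      · exact Nat.zero_le _
      · intro v hv hvi
        obtain ⟨j, hj, hv⟩ := mem_biUnion.1 hv
        exact hi (hvi ▸ (hWc j hj v hv).symm ▸ hj)

omit [Fintype V] in
theorem card_le_of_parts {S : Finset V} {t : ℕ} (hc : ∀ v, c v ≤ r) (h0 : ∀ v ∈ S, c v ≠ 0)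
    (h1 : ∀ i ∈ Icc 1 r, (S.filter fun v => c v = i).card ≤ t) : S.card ≤ r * t ∧
      (S.card = r * t → ∀ i ∈ Icc 1 r, (S.filter fun v => c v = i).card = t) := by
  have e : S.card = ∑ i ∈ Icc 1 r, (S.filter fun v => c v = i).card :=
    card_eq_sum_card_fiberwise fun v hv =>
      mem_coe.2 (mem_Icc.2 ⟨Nat.one_le_iff_ne_zero.2 (h0 v hv), hc v⟩)
  have e' : r * t = ∑ _i ∈ Icc 1 r, t := by
    rw [sum_const, Nat.card_Icc, add_tsub_cancel_right, smul_eq_mul]
  rw [e, e']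
  exact ⟨sum_le_sum h1, fun h => (sum_eq_sum_iff_of_le h1).1 h⟩

end Pool.Agent.P.MP_094db5_co

end
end

section

/-! Basic facts in the final structure. -/

set_option autoImplicit false

open Finset Classical

noncomputable section

namespace Pool.Agent.P.MP_094db5_co

variable {V : Type} [Fintype V] {r C : ℕ} {Fr : SimpleGraph V → Prop} {G : SimpleGraph V}
  {x : V → ℝ} {η : ℝ} {c : V → ℕ} {z : V}

lemma AQb_op_congr {H : SimpleGraph V} {y y' : V → ℝ} {u : V} (h : ∀ v, H.Adj u v → y v = y' v) :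
    op H y u = op H y' u := by
  refine sum_congr rfl fun v _ => ?_
  unfold ad
  split_ifs with a
  · rw [h v a]
  · simp

lemma AQb_op_zero {H : SimpleGraph V} {y : V → ℝ} {u : V} (h : ∀ v, ¬ H.Adj u v) :
    op H y u = 0 := by
  refine sum_eq_zero fun v _ => ?_
  simp [ad, h v]

lemma AQb_op_upd (H : SimpleGraph V) (y : V → ℝ) (u w : V) :
    op H y u = op H (fun v => if v = w then 0 else y v) u + ad H u w * y w := by
  have e : ∀ v, ad H u v * y v = ad H u v * (if v = w then 0 else y v) +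
      if v = w then ad H u w * y w else 0 := fun v => by
    split_ifs with a
    · subst a; simp
    · simp
  unfold op
  rw [sum_congr rfl fun v _ => e v, sum_add_distrib]
  simp

lemma AQb_qf_congr {H : SimpleGraph V} {y y' : V → ℝ} (h : ∀ u v, H.Adj u v → y u = y' u) :
    qf H y = qf H y' := by
  refine S2_congr fun u v => ?_
  unfold ad
  split_ifs with a
  · rw [h u v a, h v u a.symm]
  · simp

lemma AQb_card_inter {i j : ℕ} (hj : j ≠ 0) (hij : i ≠ j) :
    (Out c i).card = (Out c i ∩ Out c j).card + cn c j := by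
  rw [← card_Vp, ← card_union_of_disjoint]
  · congr 1
    ext v
    simp only [mem_union, mem_inter, mem_Out, mem_Vp]
    omega
  · rw [disjoint_left]
    intro v h1 h2
    simp only [mem_inter, mem_Out, mem_Vp] at h1 h2
    omega

lemma AQb_r1 {R t : ℝ} (h3 : 3 ≤ R) (ht : t = 1 / R) : 0 < t ∧ R * t = 1 ∧ 3 * t ≤ 1 := by
  have a : 0 < R := by linarith
  have b : 0 < t := by rw [ht]; positivity
  have e : R * t = 1 := by rw [ht]; field_simp
  exact ⟨b, e, by nlinarith⟩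

lemma AQb_cap2 {R t l η E N n : ℝ} (h3 : 3 ≤ R) (t0 : 0 < t) (ht : R * t = 1) (t3 : 3 * t ≤ 1)
    (l0 : 0 < l) (hη : 3 * R ^ 3 * η ≤ 1) (η0 : 0 < η) (hb : 1 ≤ η * l)
    (hE : E ≤ (1 - t) ^ 2 * l + η * l) (hN : (1 - η) * l ≤ N + n)
    (hn : (R - 1) * n ≤ l + η * l) : E + 1 ≤ N := by
  have a1 : 3 * R * η ≤ t ^ 2 := by
    have e : 3 * R * η = t ^ 2 * (3 * R ^ 3 * η) := by
      calc 3 * R * η = 3 * R * η * (R * t) ^ 2 := by rw [ht]; ring
        _ = _ := by ring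
    rw [e]
    exact mul_le_of_le_one_right (by positivity) hη
  have a2 : (R - 1) * (1 - t) ^ 2 = R - 3 + 3 * t - t ^ 2 := by
    have e : (R - 1) * (1 - t) ^ 2 = R - 2 * (R * t) + (R * t) * t - 1 + 2 * t - t ^ 2 := by ring
    rw [e, ht]; ring
  have a3 : (R - 1) * (1 - t) ^ 2 + 3 * R * η ≤ R - 2 := by linarith
  have a4 := mul_le_mul_of_nonneg_right a3 l0.le
  have a5 : (0 : ℝ) < R - 1 := by linarith
  have a6 := mul_le_mul_of_nonneg_left hE a5.le
  have a7 := mul_le_mul_of_nonneg_left hN a5.le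
  have a8 := mul_le_mul_of_nonneg_left hb a5.le
  have a9 : 0 < η * l := by positivity
  refine le_of_mul_le_mul_left ?_ a5
  linarith

namespace Ctx

variable (h : Ctx r C Fr G x η c z)
include h

lemma AQb_C3 : (3 : ℝ) ≤ C := by exact_mod_cast h.r3.trans h.rC

lemma AQb_r3 : (3 : ℝ) ≤ r := by exact_mod_cast h.r3

lemma AQb_rC : (r : ℝ) ≤ C := by exact_mod_cast h.rC

theorem l_big : 10 ^ 5 * (C : ℝ) ^ 5 ≤ lam G := by
  have a1 := h.st.big
  have a2 : 0 < lam G := (mul_pos_iff_of_pos_left h.η0).1 (zero_lt_one.trans_le a1)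
  have a3 := mul_le_mul_of_nonneg_right h.sm a2.le
  have a4 : (0 : ℝ) ≤ 10 ^ 5 * (C : ℝ) ^ 5 := by positivity
  linarith [mul_le_mul_of_nonneg_left a1 a4]

theorem l0 : 0 < lam G := by
  have := h.AQb_C3
  exact lt_of_lt_of_le (by positivity) h.l_big

lemma AQb_pow {n : ℕ} (hn : n ≤ 5) : 3 ^ (5 - n) * (C : ℝ) ^ n ≤ C ^ 5 := by
  have a := h.AQb_C3
  calc (3 : ℝ) ^ (5 - n) * (C : ℝ) ^ n ≤ C ^ (5 - n) * (C : ℝ) ^ n := by gcongr
    _ = _ := by rw [← pow_add, Nat.sub_add_cancel hn]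

theorem η_small : 10 ^ 5 * 81 * (C : ℝ) * η ≤ 1 := by
  have a := h.AQb_pow (n := 1) (by norm_num)
  norm_num at a
  linarith [h.sm, mul_le_mul_of_nonneg_right a h.η0.le]

lemma AQb_η1 : 10 ^ 5 * η ≤ 1 := by
  linarith [h.η_small, mul_le_mul_of_nonneg_right h.AQb_C3 h.η0.le, h.η0]

lemma AQb_η2 : 10 ^ 5 * ((C : ℝ) ^ 2 * η) ≤ 1 := by
  have a := h.AQb_pow (n := 2) (by norm_num)
  norm_num at a
  have b : 0 ≤ (C : ℝ) ^ 2 * η := mul_nonneg (by positivity) h.η0.le
  linarith [h.sm, mul_le_mul_of_nonneg_right a h.η0.le]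

lemma AQb_η3 : 10 ^ 5 * ((C : ℝ) ^ 3 * η) ≤ 1 := by
  have a := h.AQb_pow (n := 3) (by norm_num)
  norm_num at a
  have b : 0 ≤ (C : ℝ) ^ 3 * η := mul_nonneg (by positivity) h.η0.le
  linarith only [h.sm, mul_le_mul_of_nonneg_right a h.η0.le, a]

theorem room {i : ℕ} (hi : i ∈ Icc 1 r) : 4 * ec (Hm G c) + 10 * C ≤ cn c i := by
  have a1 := (abs_le.1 (h.st.size i hi)).1
  have a2 := h.st.hk
  have a3 := h.AQb_C3
  have a4 := h.l0
  have a5 := h.AQb_pow (n := 2) (by norm_num)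
  norm_num at a5
  have a6 : ((r : ℝ) - 1) * cn c i ≤ C * cn c i :=
    mul_le_mul_of_nonneg_right (by linarith [h.AQb_rC]) (by positivity)
  have a7 := mul_le_mul_of_nonneg_left a2 (show (0 : ℝ) ≤ C by positivity)
  have a8 := mul_le_mul_of_nonneg_right h.η_small a4.le
  have a9 := mul_le_mul_of_nonneg_right h.AQb_η1 a4.le
  have b : (C : ℝ) * (4 * ec (Hm G c) + 10 * C) ≤ C * cn c i := by
    linarith only [h.l_big, sq_nonneg (C : ℝ), a1, a4, a5, a6, a7, a8, a9]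
  have b' := le_of_mul_le_mul_left b (by linarith)
  exact_mod_cast b'

theorem pos {v : V} (hv : c v ≠ 0) : 1 / 2 ≤ x v := by
  linarith only [(abs_le.1 (h.st.typ v hv)).1, h.AQb_η1, hv]

theorem other (u : V) : ∃ o, c o = 0 ∧ o ≠ u := by
  have a0 : 1 ≤ lam G := by
    have a := h.AQb_pow (n := 0) (by norm_num)
    norm_num at a
    linarith [h.l_big]
  have a1 := h.ex.spare h.st.eig a0 (c := c) fun v hv => by linarith [h.pos hv]
  have a2 : (1 : ℝ) < cn c 0 := by linarith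
  have a3 : 1 < (Vp c 0).card := by rw [card_Vp]; exact_mod_cast a2
  obtain ⟨o, h1, h2⟩ := exists_mem_ne a3 u
  exact ⟨o, mem_Vp.1 h1, h2⟩

lemma AQb_Out {l : ℕ} (hl : l ∈ Icc 1 r) : (1 - η) * lam G ≤ (Out c l).card := by
  have a0 : (0 : ℝ) < r - 1 := by linarith [h.AQb_r3]
  have a1 : (((Icc 1 r).erase l).card : ℝ) = r - 1 := by
    rw [card_erase_of_mem hl, Nat.card_Icc, Nat.add_sub_cancel, Nat.cast_sub (by
      linarith [h.r3]), Nat.cast_one]
  have a2 := card_nsmul_le_sum ((Icc 1 r).erase l) (fun i => ((r : ℝ) - 1) * cn c i)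
    ((1 - η) * lam G) fun i hi => by
      linarith [(abs_le.1 (h.st.size i (mem_of_mem_erase hi))).1]
  rw [nsmul_eq_mul, a1, ← mul_sum] at a2
  rw [card_Out h.st.le, Nat.cast_sum]
  exact le_of_mul_le_mul_left a2 a0

lemma AQb_t : 100 * η ≤ 1 / (r : ℝ) := by
  have a := h.AQb_r3
  rw [le_div_iff₀ (by linarith)]
  have b : 0 ≤ (C : ℝ) * η := mul_nonneg (by positivity) h.η0.le
  linarith [h.η_small, mul_le_mul_of_nonneg_right h.AQb_rC h.η0.le]

lemma AQb_dz : (dT G c z : ℝ) ≤ (1 - 100 * η) * lam G := by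
  obtain ⟨t0, -, t3⟩ := AQb_r1 h.AQb_r3 rfl
  refine h.st.dz.trans (mul_le_mul_of_nonneg_right ?_ h.l0.le)
  nlinarith only [h.AQb_t, t0, t3]

theorem cap1 {l : ℕ} (hl : l ∈ Icc 1 r) : ec (Xe G c) + 3 ≤ (Out c l).card := by
  have b : (ec (Xe G c) : ℝ) + 3 ≤ (Out c l).card := by
    linarith [h.AQb_Out hl, h.AQb_dz, h.st.hE, h.st.big]
  exact_mod_cast b

theorem cap2 {i j : ℕ} (hi : i ∈ Icc 1 r) (hj : j ∈ Icc 1 r) (hij : i ≠ j) :
    ec (Xe G c) + 1 ≤ (Out c i ∩ Out c j).card := by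
  obtain ⟨t0, t1, t3⟩ := AQb_r1 h.AQb_r3 rfl
  have a1 := h.AQb_Out hi
  rw [AQb_card_inter (j := j) (by have := (mem_Icc.1 hj).1; omega) hij, Nat.cast_add] at a1
  have a2 : (r : ℝ) ^ 3 ≤ C ^ 3 := pow_le_pow_left₀ (by positivity) h.AQb_rC 3
  have a3 : 0 ≤ (C : ℝ) ^ 3 * η := mul_nonneg (by positivity) h.η0.le
  have b := AQb_cap2 h.AQb_r3 t0 t1 t3 h.l0
    (by linarith only [h.AQb_η3, mul_le_mul_of_nonneg_right a2 h.η0.le, t0, t3, a2]) h.η0 h.st.big
    (E := ec (Xe G c)) (by linarith only [h.st.hE, h.st.dz]) a1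
    (by linarith [(abs_le.1 (h.st.size j hj)).2])
  exact_mod_cast b

theorem ni : NI G c := h.st.eig.ni h.l0 fun v hv => by linarith [h.pos hv]

lemma AQb_E : dT G c z + ∑ u ∈ (Vp c 0).erase z, dT G c u + ec (Ww G c) = ec (Xe G c) := by
  rw [ec_Xe, add_sum_erase _ _ (mem_Vp.2 h.st.z0)]

theorem dT_le : dT G c z ≤ ec (Xe G c) := by
  have := h.AQb_E
  omega

theorem aT_le (u : V) : aT G c x u ≤ (1 + η) * dT G c u := by
  have a := sum_le_card_nsmul (nT G c u) x (1 + η) fun v hv => by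
    linarith [(abs_le.1 (h.st.typ v (mem_nT.1 hv).2)).2]
  rw [nsmul_eq_mul, mul_comm] at a
  exact a

theorem le_aT (u : V) : (1 - η) * dT G c u ≤ aT G c x u := by
  have a := card_nsmul_le_sum (nT G c u) x (1 - η) fun v hv => by
    linarith [(abs_le.1 (h.st.typ v (mem_nT.1 hv).2)).1]
  rw [nsmul_eq_mul, mul_comm] at a
  exact a

lemma AQb_aT0 (u : V) : 0 ≤ aT G c x u := sum_nonneg fun v _ => h.st.eig.nonneg v

lemma AQb_F0 : (0 : ℝ) ≤ ec (Xe G c) - dT G c z := by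
  have : (dT G c z : ℝ) ≤ ec (Xe G c) := by exact_mod_cast h.dT_le
  linarith

lemma AQb_Ww (u : V) :
    op (Ww G c) x u ≤ η * (ec (Xe G c) - dT G c z) + ad (Ww G c) u z * x z := by
  have a1 := op_le (H := Ww G c) (x := fun v => if v = z then 0 else x v) h.η0.le
    (fun a b hab => by
      split_ifs with e
      · exact h.η0.le
      · exact h.st.small a hab.2.1 e) u
  have a2 : dT G c z + ec (Ww G c) ≤ ec (Xe G c) := by
    have := h.AQb_E
    omega
  have a3 : (dT G c z : ℝ) + ec (Ww G c) ≤ ec (Xe G c) := by exact_mod_cast a2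
  rw [AQb_op_upd _ x u z]
  linarith [mul_le_mul_of_nonneg_right a3 h.η0.le]

lemma AQb_Wz : op (Ww G c) x z ≤ η * (ec (Xe G c) - dT G c z) := by
  have a := h.AQb_Ww z
  have e : ad (Ww G c) z z = 0 := by simp [ad]
  rwa [e, zero_mul, add_zero] at a

theorem lam_z : lam G * x z ≤ aT G c x z + η * (ec (Xe G c) - dT G c z) := by
  rw [← h.st.eig.eig, op_split0 x h.st.z0]
  linarith [h.AQb_Wz]

lemma AQb_xz : x z < 1 - η := by
  have a0 := h.l0
  have a1 := h.η0
  have a2 := h.AQb_η1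
  have a3 : 0 < η * lam G := by positivity
  have a4 : η * ((ec (Xe G c) : ℝ) - dT G c z) ≤ η * lam G := by
    refine mul_le_mul_of_nonneg_left ?_ a1.le
    nlinarith only [h.st.hE, a0, a2]
  have a5 : η * (dT G c z : ℝ) ≤ η * lam G := by
    refine mul_le_mul_of_nonneg_left ?_ a1.le
    linarith [h.AQb_dz]
  refine lt_of_mul_lt_mul_left ?_ a0.le
  linarith [h.lam_z, h.aT_le z, h.AQb_dz]

theorem xz_lt {v : V} (hv : c v ≠ 0) : x z < x v := by
  linarith [h.AQb_xz, (abs_le.1 (h.st.typ v hv)).1]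

theorem le_two (v : V) : x v ≤ 2 := by
  by_cases hv : c v = 0
  · linarith only [h.st.zmax v hv, h.AQb_xz, h.η0, hv]
  · linarith [(abs_le.1 (h.st.typ v hv)).2, h.AQb_η1]

theorem aT_le_z {u : V} (hu : c u = 0) :
    aT G c x u ≤ aT G c x z + η * (ec (Xe G c) - dT G c z) := by
  have a1 := h.st.eig.eig u
  rw [op_split0 x hu] at a1
  linarith [op_nonneg (H := Ww G c) h.st.eig.nonneg u, h.lam_z,
    mul_le_mul_of_nonneg_left (h.st.zmax u hu) h.l0.le]

lemma AQb_sum : ∑ u ∈ (Vp c 0).erase z, aT G c x u ≤ 2 * (ec (Xe G c) - dT G c z) := by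
  have a2 : dT G c z + ∑ u ∈ (Vp c 0).erase z, dT G c u ≤ ec (Xe G c) := by
    have := h.AQb_E
    omega
  have a3 : (dT G c z : ℝ) + ∑ u ∈ (Vp c 0).erase z, (dT G c u : ℝ) ≤ ec (Xe G c) := by
    exact_mod_cast a2
  have a4 : ∑ u ∈ (Vp c 0).erase z, aT G c x u ≤ ∑ u ∈ (Vp c 0).erase z, 2 * (dT G c u : ℝ) :=
    sum_le_sum fun u _ => (h.aT_le u).trans
      (mul_le_mul_of_nonneg_right (by linarith [h.AQb_η1]) (by positivity))
  rw [← mul_sum] at a4
  linarith

theorem Q_le : lam G * Qw G c x ≤ aT G c x z ^ 2 + ∑ u ∈ (Vp c 0).erase z, aT G c x u ^ 2 +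
    6 * η * (ec (Xe G c) - dT G c z) * (aT G c x z + (ec (Xe G c) - dT G c z)) := by
  have e1 : lam G * Qw G c x = ∑ u ∈ Vp c 0, (aT G c x u ^ 2 + op (Ww G c) x u * aT G c x u) := by
    rw [Qw, mul_sum]
    refine sum_congr rfl fun u hu => ?_
    rw [← mul_assoc, ← h.st.eig.eig, op_split0 x (mem_Vp.1 hu)]
    ring
  have η0 := h.η0
  have F0 := h.AQb_F0
  have A0 := h.AQb_aT0 z
  have hs := h.AQb_sum
  have hz := h.AQb_Wz
  have hl := h.lam_z
  have hW := h.AQb_Ww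
  generalize (ec (Xe G c) : ℝ) - dT G c z = F at *
  have a1 : x z ≤ η * (aT G c x z + F) := by
    have b1 := mul_le_mul_of_nonneg_right h.st.big (h.st.eig.nonneg z)
    have b2 := mul_le_mul_of_nonneg_left hl η0.le
    have b3 : η * F ≤ F := mul_le_of_le_one_left F0 (by linarith [h.AQb_η1])
    linarith [mul_le_mul_of_nonneg_left b3 η0.le]
  have a2 : ∑ u ∈ (Vp c 0).erase z, op (Ww G c) x u * aT G c x u ≤
      ∑ u ∈ (Vp c 0).erase z, η * (aT G c x z + 2 * F) * aT G c x u :=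
    sum_le_sum fun u _ => mul_le_mul_of_nonneg_right (by
      linarith [hW u, mul_le_of_le_one_left (h.st.eig.nonneg z) (ad_le_one (Ww G c) u z)])
      (h.AQb_aT0 u)
  rw [← mul_sum] at a2
  have a3 := mul_le_mul_of_nonneg_left hs (show 0 ≤ η * (aT G c x z + 2 * F) by positivity)
  have a4 := mul_le_mul_of_nonneg_right hz A0
  have a5 : 0 ≤ η * F * aT G c x z := by positivity
  have a6 : 0 ≤ η * F * F := by positivity
  rw [e1, ← add_sum_erase _ _ (mem_Vp.2 h.st.z0), sum_add_distrib]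
  linarith

lemma AQb_err : ((ec (Xe G c) : ℝ) - dT G c z) * (aT G c x z + (ec (Xe G c) - dT G c z)) ≤
    2 * (ec (Xe G c) : ℝ) ^ 2 := by
  have F0 := h.AQb_F0
  have d0 : (0 : ℝ) ≤ dT G c z := by positivity
  have a1 : aT G c x z ≤ 2 * dT G c z :=
    (h.aT_le z).trans (mul_le_mul_of_nonneg_right (by linarith [h.AQb_η1]) d0)
  calc _ ≤ (ec (Xe G c) : ℝ) * (2 * ec (Xe G c)) :=
        mul_le_mul (by linarith) (by linarith) (by linarith [h.AQb_aT0 z]) (by positivity)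
    _ = _ := by ring

theorem Q_crude : lam G * Qw G c x ≤ 20 * (ec (Xe G c) : ℝ) ^ 2 := by
  have F0 := h.AQb_F0
  have d0 : (0 : ℝ) ≤ dT G c z := by positivity
  have a1 : aT G c x z ≤ 2 * dT G c z :=
    (h.aT_le z).trans (mul_le_mul_of_nonneg_right (by linarith [h.AQb_η1]) d0)
  have a2 := pow_le_pow_left₀ (h.AQb_aT0 z) a1 2
  have a3 := sum_sq_le_sq_sum_of_nonneg (s := (Vp c 0).erase z) fun u _ => h.AQb_aT0 u
  have a4 := pow_le_pow_left₀ (sum_nonneg fun u _ => h.AQb_aT0 u) h.AQb_sum 2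
  have a5 := mul_le_mul_of_nonneg_left h.AQb_err h.η0.le
  have a6 : η * (ec (Xe G c) : ℝ) ^ 2 ≤ (ec (Xe G c) : ℝ) ^ 2 :=
    mul_le_of_le_one_left (by positivity) (by linarith [h.AQb_η1])
  linarith only [h.Q_le, mul_nonneg d0 F0, sq_nonneg (ec (Xe G c) : ℝ), F0, d0, a2, a3, a4, a5, a6]

theorem Q_sq (hE : ec (Xe G c) ≤ C) : lam G * Qw G c x ≤ D2 G c + 30 * C ^ 2 * η := by
  have η0 := h.η0
  have a0 : (ec (Xe G c) : ℝ) ^ 2 ≤ C ^ 2 :=
    pow_le_pow_left₀ (by positivity) (by exact_mod_cast hE) 2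
  have a1 : ∑ u ∈ Vp c 0, aT G c x u ^ 2 ≤ ∑ u ∈ Vp c 0, (1 + η) ^ 2 * (dT G c u : ℝ) ^ 2 :=
    sum_le_sum fun u _ => by
      rw [← mul_pow]
      exact pow_le_pow_left₀ (h.AQb_aT0 u) (h.aT_le u) 2
  have a2 : (D2 G c : ℝ) = ∑ u ∈ Vp c 0, (dT G c u : ℝ) ^ 2 := by simp [D2]
  rw [← mul_sum, ← a2, ← add_sum_erase _ _ (mem_Vp.2 h.st.z0)] at a1
  have a3 : D2 G c ≤ ec (Xe G c) ^ 2 :=
    (sum_sq_le_sq_sum_of_nonneg fun u _ => Nat.zero_le _).trans
      (Nat.pow_le_pow_left (by rw [ec_Xe]; omega) 2)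
  have a4 : (D2 G c : ℝ) ≤ C ^ 2 := le_trans (by exact_mod_cast a3) a0
  have a5 : (1 + η) ^ 2 ≤ 1 + 3 * η := by nlinarith only [h.AQb_η1, η0]
  have a6 := mul_le_mul_of_nonneg_right a5 (show (0 : ℝ) ≤ D2 G c by positivity)
  have a7 := mul_le_mul_of_nonneg_left h.AQb_err η0.le
  have a8 : 0 ≤ (C : ℝ) ^ 2 * η := by positivity
  linarith only [h.Q_le, mul_le_mul_of_nonneg_left a0 η0.le, mul_le_mul_of_nonneg_left a4 η0.le, η0, a0, a1, a4, a6, a7, a8]

theorem W_small (hE : ec (Xe G c) ≤ C) {u : V} (hu : c u = 0) : x u ≤ 2 * C * η := by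
  have a1 : op G x u ≤ ∑ v, ad G u v * 2 :=
    sum_le_sum fun v _ => mul_le_mul_of_nonneg_left (h.le_two v) (ad_nonneg G u v)
  have a2 : (G.degree u : ℝ) ≤ C := by exact_mod_cast (degree_le_Xe hu).trans hE
  rw [← sum_mul, sum_ad, h.st.eig.eig] at a1
  have a3 : lam G * x u ≤ 2 * C := by linarith
  linarith [mul_le_mul_of_nonneg_left a3 h.η0.le,
    mul_le_mul_of_nonneg_right h.st.big (h.st.eig.nonneg u)]

theorem dT_le_z (hE : ec (Xe G c) ≤ C) {u : V} (hu : c u = 0) : dT G c u ≤ dT G c z := by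
  have a1 : dT G c u ≤ C := by
    have b := single_le_sum (f := dT G c) (fun _ _ => Nat.zero_le _) (mem_Vp.2 hu)
    have := ec_Xe G c
    omega
  have a2 : (dT G c u : ℝ) ≤ C := by exact_mod_cast a1
  have a3 : (ec (Xe G c) : ℝ) ≤ C := by exact_mod_cast hE
  have a4 : 0 ≤ (C : ℝ) * η := mul_nonneg (by positivity) h.η0.le
  have b : (dT G c u : ℝ) < dT G c z + 1 := by
    linarith only [h.le_aT u, h.aT_le_z hu, h.aT_le z, mul_le_mul_of_nonneg_left a2 h.η0.le,
      mul_le_mul_of_nonneg_left a3 h.η0.le, h.η_small, hu, a2, a3]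
  have b' : dT G c u < dT G c z + 1 := by exact_mod_cast b
  omega

/-- comparison with a target on the same base -/
theorem cmp {H : SimpleGraph V} {o w : V} {S X : Finset V} (ha : Adm r Fr c H o S w X)
    (he : S.card + X.card + ec (Hm G c) = ec (Xe G c) + ec H) :
    (∑ v ∈ S, x v) ^ 2 + (∑ v ∈ X.erase o, x v) ^ 2 + lam G * (qf (Hm G c) x - qf H x) ≤
      lam G * Qw G c x := by
  have a1 := ha.master (y := rT c x) h.ex (by
      have b1 := ha.ok.ec_eq
      have b2 := ec_split h.st.proper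
      omega) h.l0
    (fun v => by
      unfold rT
      split_ifs
      exacts [le_rfl, h.st.eig.nonneg v])
    (fun v hv => if_pos hv)
  have a2 : qf H (rT c x) = qf H x := AQb_qf_congr fun u v a => if_neg (ha.ok.hH a).1
  have a3 : ∑ v ∈ S, rT c x v = ∑ v ∈ S, x v := sum_congr rfl fun v hv => if_neg (ha.ok.hS v hv)
  have a4 : ∑ v ∈ X, rT c x v = ∑ v ∈ X.erase o, x v := by
    rw [← sum_erase X (f := rT c x) (a := o) (if_pos ha.ok.o0)]
    exact sum_congr rfl fun v hv => if_neg ((ha.ok.hX v (mem_of_mem_erase hv)).resolve_right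
      (ne_of_mem_erase hv))
  rw [h.st.eig.ident h.st.proper, a2, a3, a4] at a1
  linarith only [a1]

/-- two vertices of one part -/
theorem lt_of_fresh (hE : ec (Xe G c) ≤ C) {a b y : V} (hab : (Hm G c).Adj a b) (hy : c y = c a)
    (hf : ∀ u, ¬ (Hm G c).Adj y u) : x a < x y := by
  have ha : c a ≠ 0 := (Hm_le G c hab).1
  have hb : c b ≠ 0 := (Hm_le G c hab).2.1
  have η0 := h.η0
  have a1 := op_split h.st.proper x ha
  have a2 := op_split h.st.proper x (hy ▸ ha : c y ≠ 0)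
  rw [h.st.eig.eig] at a1 a2
  rw [AQb_op_zero hf, op_Kc_congr x hy] at a2
  have a3 := le_op h.st.eig.nonneg hab
  have a4 := op_nonneg (H := Xe G c) h.st.eig.nonneg y
  have a5 : op (Xe G c) x a = op (Xe G c) (fun v => if c v = 0 then x v else 0) a :=
    AQb_op_congr fun v hv => (if_pos (hv.2.resolve_left ha)).symm
  have a6 := op_le (H := Xe G c) (x := fun v => if c v = 0 then x v else 0) (a := 2 * C * η)
    (by positivity) (fun u v _ => by
      split_ifs with e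
      · exact h.W_small hE e
      · positivity) a
  have a7 : (ec (Xe G c) : ℝ) ≤ C := by exact_mod_cast hE
  have a8 := mul_le_mul_of_nonneg_right a7 (show 0 ≤ 2 * C * η by positivity)
  refine lt_of_mul_lt_mul_left ?_ h.l0.le
  linarith only [h.pos hb, h.AQb_η2, hb, a1, a2, a3, a4, a5, a6, a8]

end Ctx

end Pool.Agent.P.MP_094db5_co

end
end

section

/-! Comparison lemmas on the same base. -/

set_option autoImplicit false

open Finset Classical

noncomputable section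

namespace Pool.Agent.P.MP_094db5_co

variable {V : Type} [Fintype V] {r C : ℕ} {Fr : SimpleGraph V → Prop} {G : SimpleGraph V}
  {x : V → ℝ} {η : ℝ} {c : V → ℕ} {z : V}

lemma ABig_kreal {l η C E κ f k D : ℝ} (h0 : 0 < η) (hC : 3 ≤ C) (hs : 10 ^ 5 * C ^ 5 * η ≤ 1)
    (hs' : 10 ^ 5 * 81 * C * η ≤ 1) (hl : 0 < l) (hκ : 1 ≤ κ) (hκk : κ ≤ k) (hk : k ≤ η * l)
    (hE0 : 0 ≤ E) (hE : E ≤ C * κ) (hf : f ≤ C)
    (hD : 2 * (κ + f) * (1 - η) ^ 2 - 2 * f * (1 + η) ^ 2 ≤ D) (h : l * D ≤ 20 * E ^ 2) :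
    False := by
  have a1 : C * η ≤ 1 / 100 := by linarith only [mul_pos (show 0 < C by linarith) h0, hs']
  have a2 : η ≤ 1 / 100 := by linarith [mul_le_mul_of_nonneg_right hC h0.le]
  have a3 : f * η ≤ C * η := mul_le_mul_of_nonneg_right hf h0.le
  have a4 : κ * η ≤ κ * (1 / 100) := mul_le_mul_of_nonneg_left a2 (by linarith)
  have a5 : 0 ≤ κ * η ^ 2 := by positivity
  have a6 : κ ≤ D := by linarith only [h0, hs', hκ, hD, a2, a3, a4, a5]
  have b1 : E ≤ C * (η * l) := hE.trans (mul_le_mul_of_nonneg_left (hκk.trans hk) (by linarith))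
  have b2 : E * E ≤ (C * κ) * (C * (η * l)) := mul_le_mul hE b1 hE0 (by positivity)
  have b3 : l * κ ≤ l * D := mul_le_mul_of_nonneg_left a6 hl.le
  have c1 : 27 ≤ C ^ 3 := by
    have := pow_le_pow_left₀ (by norm_num) hC 3
    linarith only [this]
  have c2 : 27 * (C ^ 2 * η) ≤ C ^ 3 * (C ^ 2 * η) :=
    mul_le_mul_of_nonneg_right c1 (by positivity)
  have c3 : C ^ 2 * η ≤ 1 / 40 := by linarith only [h0, hs, a2, c2]
  have c4 : (l * κ) * (C ^ 2 * η) ≤ (l * κ) * (1 / 40) :=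
    mul_le_mul_of_nonneg_left c3 (by positivity)
  have c5 : 0 < l * κ := by positivity
  linarith only [h, b2, b3, c4, c5]

lemma ABig_sreal {η C s b A B D : ℝ} (h0 : 0 < η) (hC : 3 ≤ C) (hs : 10 ^ 5 * C ^ 5 * η ≤ 1)
    (h1 : η ≤ 1) (hs0 : 0 ≤ s) (hb0 : 0 ≤ b) (hsb : s + b ≤ C) (hA : (1 - η) * s ≤ A)
    (hB : (1 - η) * b ≤ B) (h : A ^ 2 + B ^ 2 ≤ D + 30 * C ^ 2 * η) : s ^ 2 + b ^ 2 < D + 1 := by
  have a0 : 0 ≤ 1 - η := by linarith
  have a1 := pow_le_pow_left₀ (mul_nonneg a0 hs0) hA 2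
  have a2 := pow_le_pow_left₀ (mul_nonneg a0 hb0) hB 2
  have a3 := pow_le_pow_left₀ (add_nonneg hs0 hb0) hsb 2
  have a4 : s ^ 2 + b ^ 2 ≤ C ^ 2 := by linarith [mul_nonneg hs0 hb0]
  have a5 : (s ^ 2 + b ^ 2) * η ≤ C ^ 2 * η := mul_le_mul_of_nonneg_right a4 h0.le
  have a6 : 0 ≤ (s ^ 2 + b ^ 2) * η ^ 2 := by positivity
  have c1 : 27 ≤ C ^ 3 := by
    have := pow_le_pow_left₀ (by norm_num) hC 3
    linarith
  have c2 : 27 * (C ^ 2 * η) ≤ C ^ 3 * (C ^ 2 * η) :=
    mul_le_mul_of_nonneg_right c1 (by positivity)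
  linarith only [hs, h, a1, a2, a5, a6, c2]

lemma ABig_alpha {η r l d α : ℝ} (h0 : 0 < η) (hr : 3 ≤ r) (h1 : r * η ≤ 1) (hl : 0 < l)
    (hd : d ≤ (1 - 1 / r) ^ 2 * l) (hα : α ≤ (1 + η) * d) : α ≤ (1 - 1 / r) * l := by
  have r0 : 0 < r := by linarith
  have a1 : η ≤ 1 / r := by rw [le_div_iff₀ r0]; linarith
  have a2 : 1 / r ≤ 1 / 3 := one_div_le_one_div_of_le (by norm_num) hr
  have a3 : 0 < 1 / r := by positivity
  have a4 : (1 + η) * (1 - 1 / r) ≤ 1 := by linarith only [mul_pos h0 a3, h0, a1, a3]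
  have a5 : 0 ≤ (1 - 1 / r) * l := mul_nonneg (by linarith only [h0, a1, a2]) hl.le
  have a6 := mul_le_mul_of_nonneg_right a4 a5
  have a7 := mul_le_mul_of_nonneg_left hd (show 0 ≤ 1 + η by linarith only [h0, a1, a2])
  linarith only [hα, a6, a7]

namespace Ctx

variable (h : Ctx r C Fr G x η c z)
include h

lemma ABig_C3 : (3 : ℝ) ≤ C := by exact_mod_cast h.r3.trans h.rC

lemma ABig_eta : η ≤ 1 := by
  linarith [h.η_small, mul_le_mul_of_nonneg_right h.ABig_C3 h.η0.le, h.η0]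

lemma ABig_sum {S : Finset V} (hS : ∀ v ∈ S, c v ≠ 0) : (1 - η) * S.card ≤ ∑ v ∈ S, x v := by
  have := card_nsmul_le_sum S x (1 - η) fun v hv => by
    linarith [(abs_le.1 (h.st.typ v (hS v hv))).1]
  rwa [nsmul_eq_mul, mul_comm] at this

lemma ABig_low {H : SimpleGraph V} (hH : H ≤ Kc c) : 2 * ec H * (1 - η) ^ 2 ≤ qf H x :=
  qf_lower (by linarith [h.ABig_eta]) fun u _ huv => by
    linarith [(abs_le.1 (h.st.typ u (hH huv).1)).1]

lemma ABig_up {H : SimpleGraph V} (hH : H ≤ Kc c) : qf H x ≤ 2 * ec H * (1 + η) ^ 2 :=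
  qf_upper fun u _ huv => by
    rw [abs_of_nonneg (h.st.eig.nonneg u)]
    linarith [(abs_le.1 (h.st.typ u (hH huv).1)).2]

lemma ABig_a0 (u : V) : 0 ≤ aT G c x u := sum_nonneg fun v _ => h.st.eig.nonneg v

theorem big {H : SimpleGraph V} {o w : V} {U Y X : Finset V} {σ : ℕ} (hH : H ≤ Hm G c)
    (hU : ∀ v ∈ U, c v ≠ 0) (hY : Y ⊆ U) (h1 : Y.card ≤ σ) (h2 : σ ≤ U.card)
    (ha : ∀ S, Y ⊆ S → S ⊆ U → S.card = σ → Adm r Fr c H o S w X)
    (he : σ + X.card + ec (Hm G c) = ec (Xe G c) + ec H)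
    (hj : dT G c z + X.card ≤ ec (Xe G c)) (hX : X.card ≤ r)
    (hu : (nT G c z \ U).card + Y.card + C * ec H ≤ C * (1 + ec (Hm G c)))
    (hw : o ∈ X → ec H = ec (Hm G c) → ∃ u v, (Ww G c).Adj u v) :
    ec H = ec (Hm G c) ∧ ec (Xe G c) = dT G c z + X.card := by
  by_contra hcon
  obtain ⟨κ, hκ⟩ := Nat.exists_eq_add_of_le (ec_mono hH)
  obtain ⟨j, hjj⟩ := Nat.exists_eq_add_of_le hj
  have hjκ : 1 ≤ j + κ := by omega
  have hC := h.ABig_C3
  have hη := h.η0
  have hη1 := h.ABig_eta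
  have hr : (3 : ℝ) ≤ r := by exact_mod_cast h.r3
  have hrC : (r : ℝ) ≤ C := by exact_mod_cast h.rC
  obtain ⟨S, hYS, hSU, hSc, hadj⟩ := adjust (x := x) hη.le (S := nT G c z) hY h1 h2
    (fun v hv => h.st.typ v (mem_nT.1 hv).2) (fun v hv => h.st.typ v (hU v hv))
  have adm := ha S hYS hSU hSc
  have cm := h.cmp adm (by rw [hSc]; exact he)
  have hXe : ∀ v ∈ X.erase o, c v ≠ 0 := fun v hv =>
    (adm.ok.hX v (mem_of_mem_erase hv)).resolve_right (ne_of_mem_erase hv)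
  have sX := h.ABig_sum hXe
  have q1 := h.ABig_low (H := Hm G c \ H) (sdiff_le.trans (Hm_le G c))
  have e1 : ec (Hm G c \ H) = κ := by have := ec_sdiff hH; omega
  rw [qf_sdiff hH, e1] at q1
  have Q := h.Q_le
  have eE : (ec (Xe G c) : ℝ) - dT G c z = X.card + j := by
    rw [hjj]; push_cast; ring
  have eσ : (σ : ℝ) - (nT G c z).card = j - κ := by
    have : σ + κ = dT G c z + j := by omega
    have e : (σ : ℝ) + κ = dT G c z + j := by exact_mod_cast this
    have e' : ((nT G c z).card : ℝ) = dT G c z := rfl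
    rw [e']; linarith only [e]
  have hz : z ∈ Vp c 0 := mem_Vp.2 h.st.z0
  have eF : ∑ u ∈ (Vp c 0).erase z, dT G c u + ec (Ww G c) = X.card + j := by
    have a := ec_Xe G c
    rw [← add_sum_erase _ _ hz] at a
    omega
  have hbX : (X.erase o).card ≤ X.card := card_erase_le
  have hF : ∑ u ∈ (Vp c 0).erase z, dT G c u ≤
      (if κ = 0 then (X.erase o).card else X.card) + j := by
    split_ifs with hk
    · by_cases ho : o ∈ X
      · obtain ⟨u, v, huv⟩ := hw ho (by omega)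
        have a1 : ec (Ww G c) ≠ 0 := fun e => by
          rw [ec_eq_zero] at e
          rw [e] at huv
          exact huv
        have a2 := card_erase_add_one ho
        omega
      · rw [erase_eq_of_notMem ho]; omega
    · omega
  have hu' : ((nT G c z \ U).card : ℝ) + Y.card ≤ C * (1 + κ) := by
    have : (nT G c z \ U).card + Y.card ≤ C * (1 + κ) := by
      rw [hκ, ← add_assoc, add_right_comm 1, mul_add C (1 + κ)] at hu
      omega
    exact_mod_cast this
  have hjκ' : (1 : ℝ) ≤ j + κ := by exact_mod_cast hjκ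
  have j0 : (0 : ℝ) ≤ j := Nat.cast_nonneg j
  have κ0 : (0 : ℝ) ≤ κ := Nat.cast_nonneg κ
  have x0 : (0 : ℝ) ≤ X.card := Nat.cast_nonneg _
  have hXr : (X.card : ℝ) ≤ r := by exact_mod_cast hX
  have F0 : (0 : ℝ) ≤ ∑ u ∈ (Vp c 0).erase z, (dT G c u : ℝ) :=
    sum_nonneg fun _ _ => Nat.cast_nonneg _
  have sF : ∑ u ∈ (Vp c 0).erase z, aT G c x u ≤
      (1 + η) * ∑ u ∈ (Vp c 0).erase z, (dT G c u : ℝ) := by
    rw [mul_sum]
    exact sum_le_sum fun u _ => h.aT_le u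
  refine big_real (l := lam G) (η := η) (r := r) (C := C) (α := aT G c x z)
    (α' := ∑ v ∈ S, x v) (P := ∑ u ∈ (Vp c 0).erase z, aT G c x u ^ 2)
    (F := ∑ u ∈ (Vp c 0).erase z, (dT G c u : ℝ)) (E := (ec (Xe G c) : ℝ) - dT G c z)
    (b := (X.erase o).card) (b' := ((if κ = 0 then (X.erase o).card else X.card : ℕ) : ℝ))
    (j := j) (κ := κ) hr hrC hη ?_ h.st.big (h.ABig_a0 z) ?_ hjκ (by linarith only [eE])
    (by linarith only [h.st.hE]) ?_ (by linarith only [eE, hXr]) F0 (by exact_mod_cast hF) (Nat.cast_nonneg _) ?_ ?_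
    (fun e => by rw [if_pos e]) ?_ ?_ (sum_nonneg fun v _ => h.st.eig.nonneg v) ?_ ?_
  · have a := mul_le_mul_of_nonneg_right hC (show 0 ≤ (C : ℝ) ^ 4 * η by positivity)
    have b : 0 ≤ (C : ℝ) ^ 4 * η := by positivity
    linarith only [h.sm, a]
  · refine ABig_alpha hη hr ?_ h.l0 h.st.dz (h.aT_le z)
    linarith only [h.η_small, mul_le_mul_of_nonneg_right hrC hη.le, mul_pos (show (0 : ℝ) < C by linarith only [hC]) hη, hη, hrC]
  · have a : (κ : ℝ) ≤ ec (Hm G c) := by exact_mod_cast (by omega : κ ≤ ec (Hm G c))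
    exact a.trans h.st.hk
  · split_ifs
    · exact le_rfl
    · exact_mod_cast hbX
  · split_ifs
    · exact_mod_cast hbX.trans hX
    · exact hXr
  · refine (sum_sq_le_sq_sum_of_nonneg fun u _ => h.ABig_a0 u).trans ?_
    exact pow_le_pow_left₀ (sum_nonneg fun u _ => h.ABig_a0 u) sF 2
  · have a0 : 0 ≤ aT G c x z + η * ((ec (Xe G c) : ℝ) - dT G c z) :=
      add_nonneg (h.ABig_a0 z) (mul_nonneg hη.le (by linarith only [eE]))
    refine le_trans ?_ (mul_le_mul_of_nonneg_right sF a0)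
    rw [sum_mul]
    refine sum_le_sum fun u hu => ?_
    rw [pow_two]
    exact mul_le_mul_of_nonneg_left (h.aT_le_z (mem_Vp.1 (mem_of_mem_erase hu))) (h.ABig_a0 u)
  · rw [eσ] at hadj
    have a1 : |(j : ℝ) - κ| ≤ j + κ := abs_le.2 ⟨by linarith only [], by linarith only []⟩
    have a2 : 1 * ((j : ℝ) + κ) ≤ C * (j + κ) :=
      mul_le_mul_of_nonneg_right (by linarith only [hC]) (by linarith only [hjκ'])
    have a3 : (C : ℝ) * (1 + κ) ≤ C * (2 * (j + κ)) :=
      mul_le_mul_of_nonneg_left (by linarith only [hjκ']) (by linarith only [hC])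
    have a4 : |(j : ℝ) - κ| + 2 * (((nT G c z \ U).card : ℝ) + Y.card) ≤ 5 * C * (j + κ) := by
      linarith only [hu', a1, a2, a3]
    have a5 := mul_le_mul_of_nonneg_left a4 hη.le
    have e : aT G c x z = ∑ v ∈ nT G c z, x v := rfl
    rw [e]
    linarith only [hadj, a5]
  · have a1 := pow_le_pow_left₀ (mul_nonneg (by linarith only [hη1]) (Nat.cast_nonneg _)) sX 2
    have a2 := mul_le_mul_of_nonneg_left q1 h.l0.le
    linarith only [cm, Q, a1, a2]

theorem kmin {H : SimpleGraph V} {o w : V} {S X : Finset V} (ha : Adm r Fr c H o S w X)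
    (he : S.card + X.card + ec (Hm G c) = ec (Xe G c) + ec H) (hlt : ec H < ec (Hm G c))
    (hE : ec (Xe G c) + C * ec H ≤ C * ec (Hm G c)) (hf : ec (H \ Hm G c) ≤ r) : False := by
  have cm := h.cmp ha he
  obtain ⟨κ, hκ⟩ := Nat.exists_eq_add_of_le hlt.le
  have i1 : H ⊓ Hm G c ≤ H := inf_le_left
  have i2 : H ⊓ Hm G c ≤ Hm G c := inf_le_right
  have e1 : H \ (H ⊓ Hm G c) = H \ Hm G c := sdiff_inf_self_left _ _
  have e2 : Hm G c \ (H ⊓ Hm G c) = Hm G c \ H := sdiff_inf_self_right _ _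
  have c1 := ec_sdiff i1
  have c2 := ec_sdiff i2
  have q1 := qf_sdiff i1 x
  have q2 := qf_sdiff i2 x
  rw [e1] at c1 q1
  rw [e2] at c2 q2
  have l1 := h.ABig_low (H := Hm G c \ H) (sdiff_le.trans (Hm_le G c))
  have l2 := h.ABig_up (H := H \ Hm G c) (sdiff_le.trans ha.ok.hH)
  have c3 : ec (Hm G c \ H) = κ + ec (H \ Hm G c) := by omega
  rw [c3] at l1
  push_cast at l1
  have hE' : ec (Xe G c) ≤ C * κ := by
    rw [hκ, mul_add] at hE
    omega
  refine ABig_kreal (E := ec (Xe G c)) (κ := κ) (f := ec (H \ Hm G c)) (k := ec (Hm G c))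
    (D := qf (Hm G c) x - qf H x) h.η0 h.ABig_C3 h.sm h.η_small h.l0
    (by exact_mod_cast (by omega : 1 ≤ κ)) (by exact_mod_cast (by omega : κ ≤ ec (Hm G c)))
    h.st.hk (Nat.cast_nonneg _) (by exact_mod_cast hE') (by exact_mod_cast hf.trans h.rC)
    (by linarith only [q1, q2, l2, l1]) ?_
  linarith only [h.Q_crude, sq_nonneg (∑ v ∈ S, x v), sq_nonneg (∑ v ∈ X.erase o, x v), cm]

theorem squares {o w : V} {S X : Finset V} (ha : Adm r Fr c (Hm G c) o S w X)
    (he : S.card + X.card = ec (Xe G c)) (hE : ec (Xe G c) ≤ C) :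
    S.card ^ 2 + (X.erase o).card ^ 2 ≤ D2 G c := by
  have cm := h.cmp ha (by rw [he])
  rw [sub_self, mul_zero, add_zero] at cm
  have hXe : ∀ v ∈ X.erase o, c v ≠ 0 := fun v hv =>
    (ha.ok.hX v (mem_of_mem_erase hv)).resolve_right (ne_of_mem_erase hv)
  have hbX : (X.erase o).card ≤ X.card := card_erase_le
  have a := ABig_sreal (D := D2 G c) h.η0 h.ABig_C3 h.sm h.ABig_eta (Nat.cast_nonneg S.card)
    (Nat.cast_nonneg (X.erase o).card)
    (by exact_mod_cast (by omega : S.card + (X.erase o).card ≤ C))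
    (h.ABig_sum ha.ok.hS) (h.ABig_sum hXe) (cm.trans (h.Q_sq hE))
  have b : S.card ^ 2 + (X.erase o).card ^ 2 < D2 G c + 1 := by exact_mod_cast a
  omega

end Ctx

end Pool.Agent.P.MP_094db5_co

end
end

section

/-! Structure of the unlabelled part, and translation to the final families. -/

set_option autoImplicit false

open Finset Classical

noncomputable section

namespace Pool.Agent.P.MP_094db5_co

variable {V : Type} [Fintype V] {r C : ℕ} {Fr : SimpleGraph V → Prop} {G : SimpleGraph V}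
  {x : V → ℝ} {η : ℝ} {c : V → ℕ} {z : V}

omit [Fintype V] in
lemma AStr_spokes {w u v : V} {X : Set V} :
    s(u, v) ∈ spokes w X ↔ (u = w ∧ v ∈ X) ∨ (v = w ∧ u ∈ X) := by
  simp only [spokes, Set.mem_ofPred_eq, Sym2.eq_iff]
  constructor
  · rintro ⟨y, hy, ⟨rfl, rfl⟩ | ⟨rfl, rfl⟩⟩
    · exact Or.inl ⟨rfl, hy⟩
    · exact Or.inr ⟨rfl, hy⟩
  · rintro (⟨rfl, h⟩ | ⟨rfl, h⟩)
    · exact ⟨v, h, Or.inl ⟨rfl, rfl⟩⟩
    · exact ⟨u, h, Or.inr ⟨rfl, rfl⟩⟩

omit [Fintype V] in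
lemma AStr_edge {a : V} {D : Finset V} (ha : a ∉ D) : (Sg a D).edgeSet = spokes a D := by
  ext e
  induction e using Sym2.ind with
  | _ u v =>
    rw [SimpleGraph.mem_edgeSet, AStr_spokes]
    simp only [Sg, mem_coe]
    grind

lemma AStr_proper (hp : Proper G c) {l : ℕ} (hl : l ∈ Icc 1 r) (hz : ∀ v ∈ nT G c z, c v ≠ l) :
    Proper G (Function.update c z l) := by
  refine hp.update fun u hu => ?_
  have := mem_Icc.1 hl
  by_cases h0 : c u = 0
  · omega
  · exact hz u (mem_nT.2 ⟨hu, h0⟩)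

omit [Fintype V] in
lemma AStr_le (hc : ∀ v, c v ≤ r) {l : ℕ} (hl : l ∈ Icc 1 r) (v : V) :
    Function.update c z l v ≤ r := by
  have := mem_Icc.1 hl
  have := hc v
  grind

omit [Fintype V] in
lemma AStr_zero {l : ℕ} (hl : l ∈ Icc 1 r) {v : V} (hv : Function.update c z l v = 0) :
    v ≠ z ∧ c v = 0 := by
  have := mem_Icc.1 hl
  grind

lemma AStr_dT_le {u : V} (hu : c u = 0) : dT G c u ≤ ec (Xe G c) := by
  rw [ec_Xe]
  exact (single_le_sum (f := dT G c) (fun _ _ => Nat.zero_le _) (mem_Vp.2 hu)).trans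
    (Nat.le_add_right _ _)

namespace Ctx

variable (h : Ctx r C Fr G x η c z)
include h

theorem E_ge : r ≤ ec (Xe G c) := by
  by_contra hE
  exact h.ex.nc (extend _ c rfl h.st.le h.st.proper fun w hw =>
    (degree_le_Xe hw).trans_lt (not_le.1 hE))

theorem sees_small (hE : ec (Xe G c) + 1 < 2 * r) : ∃ w, c w = 0 ∧ Sees G r c w := by
  exact sees_of_small h.st.le h.st.proper h.ex.nc hE

theorem sees_noWw (hW : ∀ u v, ¬ (Ww G c).Adj u v) : ∃ w, c w = 0 ∧ Sees G r c w := by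
  by_contra hn
  have h1 : ∀ w, ∃ i, c w = 0 → i ∈ Icc 1 r ∧ ∀ y, c y = i → ¬ G.Adj w y := by
    intro w
    by_cases hw : c w = 0
    · have h2 : ¬ Sees G r c w := fun a => hn ⟨w, hw, a⟩
      unfold Sees at h2
      push Not at h2
      obtain ⟨i, hi, h3⟩ := h2
      exact ⟨i, fun _ => ⟨hi, h3⟩⟩
    · exact ⟨0, fun a => (hw a).elim⟩
  choose f hf using h1
  refine h.ex.nc (colorable_of_labels (fun u => if c u = 0 then f u else c u) (fun u => ?_)
    fun u v huv => ?_)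
  · by_cases hu : c u = 0
    · rw [if_pos hu]
      exact (hf u hu).1
    · rw [if_neg hu]
      exact mem_Icc.2 ⟨Nat.pos_of_ne_zero hu, h.st.le u⟩
  · by_cases hu : c u = 0 <;> by_cases hv : c v = 0
    · exact (hW u v ⟨huv, hu, hv⟩).elim
    · rw [if_pos hu, if_neg hv]
      exact fun e => (hf u hu).2 v e.symm huv
    · rw [if_neg hu, if_pos hv]
      exact fun e => (hf v hv).2 u e huv.symm
    · rw [if_neg hu, if_neg hv]
      exact h.st.proper u v huv hu

/-- one vertex carries all outer edges -/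
theorem one {u : V} (hu : c u = 0) (hE : ec (Xe G c) ≤ dT G c u) : ∃ o,
    TgOK r c (Hm G c) o ∅ u (nT G c u) ∧ G = Tg c (Hm G c) o ∅ u (nT G c u) ∧ Sees G r c u ∧
      D2 G c = ec (Xe G c) ^ 2 := by
  obtain ⟨o, ho, hou⟩ := h.other u
  have ok : TgOK r c (Hm G c) o ∅ u (nT G c u) :=
    ⟨h.st.le, Hm_le G c, ho, hu, hou, by simp, fun v hv => Or.inl (mem_nT.1 hv).2⟩
  have e1 := ec_Xe G c
  rw [← add_sum_erase _ _ (mem_Vp.2 hu)] at e1
  have e2 : ∑ v ∈ (Vp c 0).erase u, dT G c v = 0 := by omega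
  have e3 : ec (Ww G c) = 0 := by omega
  have e4 : ec (Xe G c) = dT G c u := by omega
  rw [sum_eq_zero_iff] at e2
  refine ⟨o, ok, eq_Tg h.st.proper ok (by simp) (fun v hv => (mem_nT.1 hv).1) (by
    rw [card_empty, zero_add]; exact hE), ?_, ?_⟩
  · obtain ⟨w, hw, hs⟩ := h.sees_noWw (by rw [ec_eq_zero.1 e3]; simp)
    by_cases hwu : w = u
    · exact hwu ▸ hs
    · have r3 := h.r3
      obtain ⟨y, hy, hwy⟩ := hs 1 (mem_Icc.2 ⟨le_rfl, by omega⟩)
      have h0 := e2 w (mem_erase.2 ⟨hwu, mem_Vp.2 hw⟩)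
      exact (card_ne_zero_of_mem (mem_nT.2 ⟨hwy, by omega⟩) h0).elim
  · rw [D2, ← add_sum_erase _ _ (mem_Vp.2 hu), e4, sum_eq_zero fun v hv => by rw [e2 v hv]; rfl,
      add_zero]

/-- two vertices carry all outer edges -/
theorem two {u w : V} (hu : c u = 0) (hw : c w = 0) (huw : u ≠ w)
    (hE : ec (Xe G c) ≤ dT G c u + dT G c w) :
    TgOK r c (Hm G c) u (nT G c u) w (nT G c w) ∧
      G = Tg c (Hm G c) u (nT G c u) w (nT G c w) := by
  have ok : TgOK r c (Hm G c) u (nT G c u) w (nT G c w) :=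
    ⟨h.st.le, Hm_le G c, hu, hw, huw, fun v hv => (mem_nT.1 hv).2,
      fun v hv => Or.inl (mem_nT.1 hv).2⟩
  exact ⟨ok, eq_Tg h.st.proper ok (fun v hv => (mem_nT.1 hv).1) (fun v hv => (mem_nT.1 hv).1) hE⟩

theorem single (hE : ec (Xe G c) = r) :
    ∃ u, c u = 0 ∧ dT G c u = r ∧ Trans r c (nT G c u) := by
  have r3 := h.r3
  obtain ⟨u, hu, hs⟩ := h.sees_small (by omega)
  have ht : Trans r c (nT G c u) := by
    refine trans_of_card ((AStr_dT_le hu).trans hE.le) fun i hi => ?_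
    obtain ⟨y, hy, huy⟩ := hs i hi
    have := mem_Icc.1 hi
    exact ⟨y, mem_nT.2 ⟨huy, by omega⟩, hy⟩
  exact ⟨u, hu, ht.card h.st.le, ht⟩

theorem avoid {l : ℕ} (hl : l ∈ Icc 1 r) (hz : ∀ v ∈ nT G c z, c v ≠ l) :
    dT G c z + r ≤ ec (Xe G c) := by
  by_contra hE
  refine h.ex.nc (extend _ (Function.update c z l) rfl (AStr_le h.st.le hl)
    (AStr_proper h.st.proper hl hz) fun w hw => ?_)
  obtain ⟨h1, h2⟩ := AStr_zero hl hw
  have := dT_add_degree_le (G := G) h.st.z0 h2 h1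
  omega

theorem avoid_eq {l : ℕ} (hl : l ∈ Icc 1 r) (hz : ∀ v ∈ nT G c z, c v ≠ l)
    (hE : ec (Xe G c) = dT G c z + r) : ∃ u X, TgOK r c (Hm G c) z (nT G c z) u X ∧
      G = Tg c (Hm G c) z (nT G c z) u X ∧ Trans r (Function.update c z l) X ∧
      (z ∈ X → ∀ i ∈ Icc 1 r, i ≠ l → ∃ v ∈ nT G c z, c v = i) := by
  have r3 := h.r3
  have z0 := h.st.z0
  obtain ⟨u, hu', hd⟩ : ∃ u, Function.update c z l u = 0 ∧ r ≤ G.degree u := by
    by_contra hn
    push Not at hn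
    exact h.ex.nc (extend _ (Function.update c z l) rfl (AStr_le h.st.le hl)
      (AStr_proper h.st.proper hl hz) hn)
  obtain ⟨huz, hu⟩ := AStr_zero hl hu'
  have h1 := dT_add_degree_le (G := G) z0 hu huz
  have hX : (G.neighborFinset u).card = r := by
    rw [SimpleGraph.card_neighborFinset_eq_degree]
    omega
  have hmem : ∀ v, v ∈ G.neighborFinset u ↔ G.Adj u v := fun v => by simp
  generalize G.neighborFinset u = X at hX hmem
  have hle : Sg z (nT G c z) ⊔ Sg u X ≤ Xe G c :=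
    sup_le (Sg_le fun v hv => ⟨(mem_nT.1 hv).1, Or.inl z0⟩)
      (Sg_le fun v hv => ⟨(hmem v).1 hv, Or.inl hu⟩)
  have hdis : Disjoint (Sg z (nT G c z)) (Sg u X) := by
    rw [disjoint_iff_inf_le]
    rintro a b ⟨⟨-, a1⟩, ⟨-, a2⟩⟩
    simp only [mem_nT] at a1
    exfalso
    grind
  have heq : Sg z (nT G c z) ⊔ Sg u X = Xe G c := by
    refine eq_of_ec_le hle ?_
    rw [ec_sup hdis, ec_Sg (fun a => (mem_nT.1 a).2 z0), ec_Sg fun a => ((hmem u).1 a).ne rfl, hX,
      hE]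
    exact le_rfl
  have hsm : ∀ v, c v = 0 → v ≠ z → v ≠ u → G.degree v < r := by
    intro v hv hvz hvu
    have : G.neighborFinset v ⊆ {u} := by
      intro y hy
      have a : (Xe G c).Adj v y := ⟨by simpa using hy, Or.inl hv⟩
      rw [← heq] at a
      simp only [SimpleGraph.sup_adj, Sg, mem_nT] at a
      rw [mem_singleton]
      grind
    have := card_le_card this
    rw [SimpleGraph.card_neighborFinset_eq_degree, card_singleton] at this
    omega
  have hsee : ∀ i ∈ Icc 1 r, (∀ v ∈ nT G c z, c v ≠ i) → Sees G r (Function.update c z i) u :=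
    fun i hi hz' => one_heavy (AStr_le h.st.le hi) (AStr_proper h.st.proper hi hz') h.ex.nc u
      fun v hv hvu => hsm v (AStr_zero hi hv).2 (AStr_zero hi hv).1 hvu
  have ht : Trans r (Function.update c z l) X := by
    refine trans_of_card hX.le fun i hi => ?_
    obtain ⟨y, hy, huy⟩ := hsee l hl hz i hi
    exact ⟨y, (hmem y).2 huy, hy⟩
  have ok : TgOK r c (Hm G c) z (nT G c z) u X := by
    refine ⟨h.st.le, Hm_le G c, z0, hu, huz.symm, fun v hv => (mem_nT.1 hv).2, fun v hv => ?_⟩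
    have := ht.1 v hv
    by_cases hvz : v = z
    · exact Or.inr hvz
    · rw [Function.update_of_ne hvz] at this
      exact Or.inl this
  refine ⟨u, X, ok, eq_Tg h.st.proper ok (fun v hv => (mem_nT.1 hv).1) (fun v hv => (hmem v).1 hv)
    (by rw [hX]; exact hE.le), ht, fun hzX i hi hil => ?_⟩
  by_contra hn
  push Not at hn
  obtain ⟨v, hv, huv⟩ := hsee i hi hn l hl
  have hvz : v ≠ z := by
    rintro rfl
    rw [Function.update_self] at hv
    exact hil hv
  rw [Function.update_of_ne hvz] at hv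
  exact hvz (ht.2.2 v ((hmem v).2 huv) z hzX (by
    rw [Function.update_of_ne hvz, Function.update_self, hv]))

theorem mp {H : SimpleGraph V} {o w : V} {S X : Finset V} (ok : TgOK r c H o S w X)
    (e : G = Tg c H o S w X) : Mp G r c (spokes w X ∪ spokes o S) H.edgeSet := by
  refine ⟨ok.le, fun i hi => ?_, fun u v => ?_⟩
  · have := h.room hi
    have := h.r3
    have := h.rC
    rw [cn_eq]
    omega
  · have a := Tg_adj (c := c) (H := H) (o := o) (S := S) (w := w) (X := X) u v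
    rw [← e] at a
    rw [a, Set.mem_union, AStr_spokes, AStr_spokes, SimpleGraph.mem_edgeSet]
    have b1 := ok.hS o
    have b2 := ok.hX w
    have b3 := ok.o0
    have b4 := ok.w0
    have b5 := ok.ow
    simp only [cross, mem_coe]
    grind

theorem mp_star {a o w : V} {D S X : Finset V} (ok : TgOK r c (Sg a D) o S w X) (ha : a ∉ D)
    (e : G = Tg c (Sg a D) o S w X) : Mp G r c (spokes w X ∪ spokes o S) (spokes a D) := by
  rw [← AStr_edge ha]
  exact h.mp ok e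

theorem mp_star' {a o w : V} {D X : Finset V} (ok : TgOK r c (Sg a D) o ∅ w X) (ha : a ∉ D)
    (e : G = Tg c (Sg a D) o ∅ w X) : Mp G r c (spokes w X) (spokes a D) := by
  have a := h.mp_star ok ha e
  have b : spokes o ((∅ : Finset V) : Set V) = ∅ := by simp [spokes]
  rwa [b, Set.union_empty] at a

/-- the vertex `o` is put into part `l` -/
theorem mp_update {o w : V} {S X : Finset V} (ok : TgOK r c ⊥ o S w X) (e : G = Tg c ⊥ o S w X)
    {l : ℕ} (hl : l ∈ Icc 1 r) (hS : ∀ v ∈ S, c v ≠ l) :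
    Mp G r (Function.update c o l) (spokes w X) (spokes o (Out c l \ S : Finset V)) := by
  refine ⟨AStr_le ok.le hl, fun i hi => ?_, fun u v => ?_⟩
  · have a1 := h.room hi
    have a2 := h.r3
    have a3 := h.rC
    have a4 := mem_Icc.1 hi
    have a5 : {v | c v = i} ⊆ {v | Function.update c o l v = i} := by
      intro v hv
      have b1 : c v = i := hv
      have b2 : v ≠ o := by
        rintro rfl
        have := ok.o0
        omega
      show Function.update c o l v = i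
      rwa [Function.update_of_ne b2]
    have a6 := Set.ncard_le_ncard a5
    rw [cn_eq] at a6
    omega
  · have a := Tg_adj (c := c) (H := ⊥) (o := o) (S := S) (w := w) (X := X) u v
    rw [← e] at a
    rw [a, AStr_spokes, AStr_spokes]
    have b1 := ok.hS u
    have b1' := ok.hS v
    have b2 := ok.hX w
    have b3 := ok.o0
    have b4 := ok.w0
    have b5 := ok.ow
    have b6 := hS u
    have b7 := hS v
    have b8 := mem_Icc.1 hl
    simp only [cross, mem_coe, mem_sdiff, mem_Out, SimpleGraph.bot_adj]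
    by_cases d1 : u = o <;> by_cases d2 : v = o
    · subst d1
      subst d2
      grind
    · subst d1
      rw [Function.update_self, Function.update_of_ne d2]
      grind
    · subst d2
      rw [Function.update_self, Function.update_of_ne d1]
      grind
    · rw [Function.update_of_ne d1, Function.update_of_ne d2]
      grind

theorem ni_update {o v : V} (l : ℕ) (ho : G.Adj o v) : NI G (Function.update c o l) := by
  intro u hu
  by_cases e : u = o
  · exact ⟨v, e ▸ ho⟩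
  · rw [Function.update_of_ne e] at hu
    exact h.ni u hu

/-- two vertices of one part when no pair is missing -/
theorem le_of_bot {o w : V} {S X : Finset V} (ok : TgOK r c ⊥ o S w X) (e : G = Tg c ⊥ o S w X)
    (hx : x w ≤ x o) {a b : V} (ha : c a ≠ 0) (hab : c b = c a) (h1 : a ∉ S) (h2 : b ∈ S) :
    x a ≤ x b := by
  have a1 := ok.op_eq x ha
  have a2 := ok.op_eq x (v := b) (hab ▸ ha)
  have a3 : ∀ v, op (⊥ : SimpleGraph V) x v = 0 := fun v => by simp [op, ad]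
  rw [← e, h.st.eig.eig, a3] at a1 a2
  rw [if_neg h1] at a1
  rw [if_pos h2, op_Kc_congr x hab] at a2
  have a4 := h.st.eig.nonneg w
  have a5 : (if a ∈ X then x w else 0) ≤ x w := by split_ifs <;> linarith
  have a6 : 0 ≤ (if b ∈ X then x w else 0) := by split_ifs <;> linarith
  exact le_of_mul_le_mul_left (by linarith) h.l0

end Ctx

omit [Fintype V] in
theorem pc_coe (c : V → ℕ) (X : Finset V) (i : ℕ) :
    pc c X i = (X.filter fun v => c v = i).card := by
  rw [pc, ← Set.ncard_coe_finset]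
  congr 1
  ext v
  simp

omit [Fintype V] in
theorem Trans.pc_eq {X : Finset V} (h : Trans r c X) {i : ℕ} (hi : i ∈ Icc 1 r) : pc c X i = 1 := by
  obtain ⟨v, hv, e⟩ := h.2.1 i hi
  rw [pc_coe, card_eq_one]
  refine ⟨v, eq_singleton_iff_unique_mem.2 ⟨mem_filter.2 ⟨hv, e⟩, fun u hu => ?_⟩⟩
  exact h.2.2 u (mem_filter.1 hu).1 v hv ((mem_filter.1 hu).2.trans e.symm)

omit [Fintype V] in
theorem one_le_pc {X : Finset V} {i : ℕ} (h : ∃ v ∈ X, c v = i) : 1 ≤ pc c X i := by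
  obtain ⟨v, hv, e⟩ := h
  rw [pc_coe]
  exact card_pos.2 ⟨v, mem_filter.2 ⟨hv, e⟩⟩

end Pool.Agent.P.MP_094db5_co

end
end

section

/-! The sizes of the parts differ when there are free missing pairs. -/

set_option autoImplicit false

open Finset Classical

noncomputable section

namespace Pool.Agent.P.MP_094db5_co

variable {V : Type} [Fintype V] {r C : ℕ} {Fr : SimpleGraph V → Prop} {G : SimpleGraph V}
  {x : V → ℝ} {η : ℝ} {c : V → ℕ} {z : V}

lemma AGap_real1 {l L k C r η a b b' Q : ℝ} (l0 : 0 < l) (hL : 1 ≤ L) (hr : 3 ≤ r) (hC : r ≤ C)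
    (η0 : 0 < η) (sm : 10 ^ 5 * C ^ 5 * η ≤ 1) (hk : k ≤ η * l) (big : 1 ≤ η * l)
    (h1 : l * (a - Q) - 2 * (1 - 1 / r + 10 * (C * η)) * l * L - 16 * (4 * k + 1) ≤ l * b')
    (h2 : l * b' ≤ l * b + 18 * k) (h3 : 2 * L * (1 - η) ^ 2 ≤ a - b) (h4 : l * Q ≤ 20 * C ^ 2) :
    False := by
  have C3 : 3 ≤ C := hr.trans hC
  have C0 : 0 < C := by linarith only [hr, hC]
  have a1 : 1 / C ≤ 1 / r := one_div_le_one_div_of_le (by linarith only [hr]) hC
  have a2 : C ^ 3 * η * 900000 ≤ 1 := by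
    have : 9 ≤ C ^ 2 := by nlinarith only [hr, hC]
    have e : 10 ^ 5 * C ^ 5 * η = 10 ^ 5 * (C ^ 3 * η) * C ^ 2 := by ring
    have : 0 ≤ C ^ 3 * η := by positivity
    nlinarith
  have a3 : C ^ 2 * η * 900000 ≤ 1 / C := by
    rw [le_div_iff₀ C0]
    linarith only [show C ^ 2 * η * 900000 * C = C ^ 3 * η * 900000 by ring, a2]
  have a4 : C * η ≤ C ^ 2 * η := mul_le_mul_of_nonneg_right (by nlinarith only [hr, hC]) η0.le
  have a5 : η ≤ C * η := le_mul_of_one_le_left η0.le (by linarith only [hr, hC])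
  have a6 : 1000 * (C ^ 2 * η) ≤ (1 - η) ^ 2 - (1 - 1 / r + 10 * (C * η)) := by
    nlinarith only [sq_nonneg η, η0, a1, a3, a4, a5]
  have a7 : 0 ≤ C ^ 2 * η := by positivity
  have a8 : l * (1000 * (C ^ 2 * η)) ≤ l * L * ((1 - η) ^ 2 - (1 - 1 / r + 10 * (C * η))) :=
    mul_le_mul (le_mul_of_one_le_right l0.le hL) a6 (by positivity) (by positivity)
  have a9 := mul_le_mul_of_nonneg_left h3 l0.le
  have b1 : C ^ 2 ≤ C ^ 2 * (η * l) := le_mul_of_one_le_right (by positivity) big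
  have b2 : η * l ≤ C ^ 2 * (η * l) := le_mul_of_one_le_left (by positivity) (by nlinarith only [l0, hk, big, h1, h2, h4, a4, a5, a8, a9, b1])
  nlinarith only [hk, big, h1, h2, h4, a8, a9, b1, b2]

lemma AGap_real2 {l k R η S e ni nj Pi Pj : ℝ} (l0 : 10000 ≤ l) (hk : 1 ≤ k) (hR : 2 ≤ R)
    (η0 : 0 < η) (η1 : 1000 * η ≤ 1) (he : e = 4 * k + 1) (i0 : 0 ≤ ni) (j0 : 0 ≤ nj)
    (si : |R * ni - l| ≤ η * l)
    (hS : (1 - 5 * η) * (R + 1) * l ≤ R * S) (hi : |(l + ni) * Pi - ni * S| ≤ e)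
    (hj : |(l + nj) * Pj - nj * S| ≤ e) (hg : 3 * nj + k ≤ 3 * ni) : Pj + k / 10 ≤ Pi := by
  have l1 : 0 < l := by linarith
  have a0 : η * l ≤ l / 1000 := by nlinarith only [l0, η1]
  have a1 : ni ≤ 51 / 100 * l := by nlinarith only [(abs_le.1 si).2, l0, hR, η0, η1, i0, si, a0]
  have a2 : nj ≤ 51 / 100 * l := by linarith only [hk, η0, η1, hg, a1]
  have a3 : 99 / 100 * l ≤ S := by
    have b1 : R * (99 / 100 * l) ≤ (1 - 5 * η) * (R + 1) * l := by
      have : R * (99 / 100) ≤ (1 - 5 * η) * (R + 1) := by nlinarith only [hR, η0, η1]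
      nlinarith only [l0, this]
    exact le_of_mul_le_mul_left (b1.trans hS) (by linarith only [hR, η0, η1])
  have a4 := mul_le_mul_of_nonneg_left (abs_le.1 hi).1 (show 0 ≤ l + nj by linarith only [l0, η0, η1, j0])
  have a5 := mul_le_mul_of_nonneg_left (abs_le.1 hj).2 (show 0 ≤ l + ni by linarith only [l0, hk, η0, η1, j0, hg])
  have a6 : 99 / 100 * l * l * (k / 3) ≤ S * l * (ni - nj) :=
    mul_le_mul (mul_le_mul_of_nonneg_right a3 l1.le) (by linarith only [hg]) (by linarith only [hk, η0, η1]) (by nlinarith only [l0, η0, η1, a3])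
  have a7 : (l + ni) * (l + nj) ≤ 151 / 100 * l * (151 / 100 * l) :=
    mul_le_mul (by linarith only [a1]) (by linarith only [hk, η0, η1, hg, a1]) (by linarith only [l0, η0, η1, j0]) (by linarith only [l0, η0, η1])
  have a8 : (l + ni + (l + nj)) * e ≤ 4 * l * (5 * k) :=
    mul_le_mul (by linarith only [l0, hk, η0, η1, hg, a1]) (by linarith only [hk, he]) (by linarith) (by linarith only [l0, η0, η1])
  have a9 := mul_le_mul_of_nonneg_right a7 (show 0 ≤ k / 10 by linarith only [hk, η0, η1])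
  have b1 : 10000 * (l * k) ≤ l * (l * k) := mul_le_mul_of_nonneg_right l0 (by positivity)
  have b2 : 0 ≤ l * k := by positivity
  have b3 : (l + ni) * (l + nj) * (k / 10) ≤ (l + ni) * (l + nj) * (Pi - Pj) := by
    linarith only [a4, a5, a6, a8, a9, b1, b2]
  have := le_of_mul_le_mul_left b3 (by positivity)
  linarith only [this]

lemma AGap_real3 {l a b a' b' : ℝ} (l0 : 4 ≤ l) (a0 : 0 ≤ a) (a2 : a ≤ 2) (b2 : b ≤ 2)
    (b0 : 0 ≤ b') (ha : l * |a' - a| ≤ 2) (hb : l * |b' - b| ≤ 2) :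
    l * (a' * b') ≤ l * (a * b) + 9 := by
  have l1 : 0 ≤ l := by linarith
  have c1 : l * (a' - a) ≤ 2 := (mul_le_mul_of_nonneg_left (le_abs_self _) l1).trans ha
  have c2 : l * (b' - b) ≤ 2 := (mul_le_mul_of_nonneg_left (le_abs_self _) l1).trans hb
  have c3 : b' ≤ 5 / 2 := by nlinarith only [l0, b2, b0, c2]
  have c4 := mul_le_mul_of_nonneg_right c1 b0
  have c5 := mul_le_mul_of_nonneg_right c2 a0
  linarith

namespace Ctx

variable (h : Ctx r C Fr G x η c z)
include h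

theorem total : ((r : ℝ) - 1) * ∑ l ∈ Icc 1 r, Pc x c l ≤ (1 + 5 * η) * r * lam G ∧
    (1 - 5 * η) * r * lam G ≤ ((r : ℝ) - 1) * ∑ l ∈ Icc 1 r, Pc x c l := by
  have r3 : (3 : ℝ) ≤ r := by exact_mod_cast h.r3
  have rC : (r : ℝ) ≤ C := by exact_mod_cast h.rC
  have η0 := h.η0
  have l0 := h.l0
  have η1 : η ≤ 1 := by nlinarith [h.η_small]
  have key : ∀ l ∈ Icc 1 r, ((r : ℝ) - 1) * Pc x c l ≤ (1 + 5 * η) * lam G ∧
      (1 - 5 * η) * lam G ≤ ((r : ℝ) - 1) * Pc x c l := by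
    intro l hl
    have hl' := mem_Icc.1 hl
    have a1 : Pc x c l ≤ cn c l * (1 + η) := by
      rw [← Pc_const]
      exact Pc_mono fun v hv => by linarith [(abs_le.1 (h.st.typ v (by omega))).2]
    have a2 : cn c l * (1 - η) ≤ Pc x c l := by
      rw [← Pc_const]
      exact Pc_mono fun v hv => by linarith [(abs_le.1 (h.st.typ v (by omega))).1]
    obtain ⟨a3, a4⟩ := abs_le.1 (h.st.size l hl)
    have a5 := mul_le_mul_of_nonneg_left a1 (show (0 : ℝ) ≤ r - 1 by linarith)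
    have a6 := mul_le_mul_of_nonneg_left a2 (show (0 : ℝ) ≤ r - 1 by linarith)
    have a7 := mul_le_mul_of_nonneg_right a3 (show 0 ≤ 1 - η by linarith)
    have a8 := mul_le_mul_of_nonneg_right a4 (show 0 ≤ 1 + η by linarith)
    have a9 : 0 ≤ η * lam G := by positivity
    have b1 : η * (η * lam G) ≤ 1 * (η * lam G) := mul_le_mul_of_nonneg_right η1 a9
    have b2 : 0 ≤ η * (η * lam G) := by positivity
    constructor <;> linarith only [a3, a4, a5, a7, a8, a6]
  rw [mul_sum]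
  have c1 := sum_le_sum fun l hl => (key l hl).1
  have c2 := sum_le_sum fun l hl => (key l hl).2
  rw [sum_const, Nat.card_Icc, add_tsub_cancel_right, nsmul_eq_mul] at c1 c2
  constructor <;> linarith

theorem err_le (hE : ec (Xe G c) ≤ C) :
    ∑ v, op (Hm G c) x v + ∑ u ∈ Vp c 0, x u * dT G c u ≤ 4 * ec (Hm G c) + 1 := by
  have a1 : ∑ v, op (Hm G c) x v ≤ 2 * ec (Hm G c) * 2 := sum_op_le fun u _ _ => h.le_two u
  have hE' : (ec (Xe G c) : ℝ) ≤ C := by exact_mod_cast hE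
  have a2 : (∑ u ∈ Vp c 0, (dT G c u : ℝ)) ≤ C := by
    have := ec_Xe G c
    exact_mod_cast (by omega : ∑ u ∈ Vp c 0, dT G c u ≤ C)
  have a3 : ∑ u ∈ Vp c 0, x u * dT G c u ≤ ∑ u ∈ Vp c 0, 2 * C * η * dT G c u :=
    sum_le_sum fun u hu =>
      mul_le_mul_of_nonneg_right (h.W_small hE (mem_Vp.1 hu)) (Nat.cast_nonneg _)
  rw [← mul_sum] at a3
  have η0 := h.η0
  have C3 : (3 : ℝ) ≤ C := by exact_mod_cast h.r3.trans h.rC
  have a4 := mul_le_mul_of_nonneg_left a2 (show 0 ≤ 2 * (C : ℝ) * η by positivity)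
  have a5 : (C : ℝ) ^ 2 * η ≤ C ^ 5 * η :=
    mul_le_mul_of_nonneg_right (pow_le_pow_right₀ (by linarith) (by norm_num)) η0.le
  have a6 : 0 ≤ (C : ℝ) ^ 5 * η := by positivity
  linarith [h.sm]

theorem gap {H₀ : SimpleGraph V} (h0 : H₀ ≤ Hm G c) {o w : V} {S X : Finset V}
    (he : S.card + X.card = ec (Xe G c)) (hE : ec (Xe G c) ≤ C)
    (ha : ∀ (c' : V → ℕ) (H : SimpleGraph V), (∀ v, c' v ≤ r) → (∀ v, c' v = 0 ↔ c v = 0) →
      (∀ v ∈ S ∪ X, c' v = c v) → H₀ ≤ H → H ≤ Kc c' → (∀ i ∈ Icc 1 r, 2 * ec H < cn c' i) →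
      Adm r Fr c' H o S w X)
    {i j : ℕ} (hi : i ∈ Icc 1 r) (hj : j ∈ Icc 1 r) (hij : i ≠ j) (hle : cn c j ≤ cn c i) :
    cn c j + ec (Hm G c) ≤ cn c i + ec H₀ := by
  by_contra hn
  have hi' := mem_Icc.1 hi
  have hj' := mem_Icc.1 hj
  have r3 := h.r3
  have rC := h.rC
  have r3' : (3 : ℝ) ≤ r := by exact_mod_cast r3
  have rC' : (r : ℝ) ≤ C := by exact_mod_cast rC
  have η0 := h.η0
  have l0 := h.l0
  obtain ⟨L, hL⟩ : ∃ L, cn c j + L = cn c i + 1 := ⟨cn c i + 1 - cn c j, by omega⟩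
  obtain ⟨y0, y1, y2, y3⟩ := exists_fresh (c := c) (i := j) (Hm G c) (S ∪ X) (by
    have := card_union_le S X
    have := h.room hj
    omega)
  have hM : ∀ v ∈ ({y0} : Finset V), c v = j := fun v hv => by rw [mem_singleton.1 hv, y1]
  have mv1 : mv c {y0} i y0 = i := by simp [mv]
  have mv2 : ∀ v, v ≠ y0 → mv c {y0} i v = c v := fun v hv => by simp [mv, hv]
  obtain ⟨H', H1, H2, H3⟩ := exists_between h0 (n := ec (Hm G c) - L) (by omega) (by omega)
  have mv0 : ∀ v, mv c {y0} i v = 0 ↔ c v = 0 := fun v => by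
    by_cases e : v = y0
    · rw [e, mv1, y1]; omega
    · rw [mv2 v e]
  obtain ⟨n1, n2, n3⟩ := cn_mv hij hM
  rw [card_singleton] at n1 n2
  have adm := ha (mv c {y0} i) H'
    (fun v => by
      by_cases e : v = y0
      · rw [e, mv1]; exact hi'.2
      · rw [mv2 v e]; exact h.st.le v)
    mv0 (fun v hv => mv2 v fun e => y2 (e ▸ hv)) H1
    (fun u v huv => by
      have a := H2 huv
      have e1 : u ≠ y0 := fun e => y3 v (e ▸ a)
      have e2 : v ≠ y0 := fun e => y3 u (e ▸ a.symm)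
      show cross _ u v
      unfold cross
      rw [mv2 u e1, mv2 v e2]
      exact a.1)
    (fun l hl => by
      have := h.room hl
      by_cases e1 : l = i
      · subst e1; omega
      · by_cases e2 : l = j
        · subst e2; omega
        · rw [n3 l e1 e2]; omega)
  have e1 := adm.ok.ec_eq
  have e2 := ec_mv h.st.le hi hj hij hM
  rw [card_singleton] at e2
  have e3 := ec_split h.st.proper
  have ηC : η ≤ C * η := le_mul_of_one_le_left η0.le (by linarith only [r3', rC'])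
  have ηl : η * lam G ≤ C * η * lam G := mul_le_mul_of_nonneg_right ηC l0.le
  obtain ⟨y, p0, p1, p2, p3⟩ := base_change h.st.eig h.st.le h.st.proper r3 hi hj hij hle hM
    (η := C * η) (e := 4 * ec (Hm G c) + 1) (mul_pos (by linarith only [r3', rC']) η0)
    (by have : 0 ≤ C * η := by positivity
        linarith only [h.η_small, η0, ηC]) l0
    (fun v hv => (h.st.typ v (by rw [hM v hv]; omega)).trans ηC) (fun v hv => h.pos hv)
    (fun l hl => (h.st.size l hl).trans ηl)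
    (by
      have := mul_le_mul_of_nonneg_left h.st.big (show (0 : ℝ) ≤ C by linarith only [r3', rC'])
      rw [card_singleton]
      push_cast
      linarith only [rC', this])
    (h.total.1.trans (by gcongr)) (h.err_le hE)
  rw [card_singleton] at p2 p3
  have ms := adm.master h.ex (by omega) l0 p0 fun v hv => p1 v ((mv0 v).1 hv)
  have l4 : 4 ≤ lam G := by
    have : (1 : ℝ) ≤ C ^ 5 := one_le_pow₀ (by linarith only [r3', rC'])
    linarith only [h.l_big, this]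
  have q1 : lam G * qf H' y ≤ lam G * qf H' x + 9 * Mo H' := by
    simp only [qf, Mo, S2_mul, S2_add]
    refine S2_mono fun u v => ?_
    unfold ad
    split_ifs with a
    · have b := (H2 a).1
      have := AGap_real3 l4 (h.st.eig.nonneg u) (h.le_two u) (h.le_two v) (p0 v)
        (by simpa using p2 u b.1) (by simpa using p2 v b.2.1)
      linarith only [this]
    · simp
  have q2 : (ec H' : ℝ) ≤ ec (Hm G c) := by exact_mod_cast ec_mono H2
  have η1 : η ≤ 1 := by nlinarith only [h.η_small, ηC]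
  have q3 := qf_lower (H := Hm G c \ H') (x := x) (a := 1 - η) (by linarith only [η1]) fun u v huv => by
    linarith only [(abs_le.1 (h.st.typ u huv.1.1.1)).1]
  have q4 : ec (Hm G c \ H') = L := by
    have := ec_sdiff H2
    omega
  rw [q4, qf_sdiff H2] at q3
  have q5 : (cn c i : ℝ) - cn c j + 1 = L := by
    have : (cn c j : ℝ) + L = cn c i + 1 := by exact_mod_cast hL
    linarith only [this]
  have hE' : (ec (Xe G c) : ℝ) ≤ C := by exact_mod_cast hE
  have q6 : (ec (Xe G c) : ℝ) ^ 2 ≤ C ^ 2 := pow_le_pow_left₀ (Nat.cast_nonneg _) hE' 2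
  rw [h.st.eig.ident h.st.proper, Nat.cast_one, q5] at p3
  rw [Mo_ec] at q1
  refine AGap_real1 (L := L) (b' := qf H' y) (Q := Qw G c x) l0
    (by exact_mod_cast (by omega : 1 ≤ L)) r3' rC' η0 h.sm h.st.hk h.st.big ?_ (by linarith only [q1, q2]) q3
    (by linarith only [h.Q_crude, q6])
  linarith only [sq_nonneg (∑ v ∈ S, y v), sq_nonneg (∑ v ∈ X, y v), p3, ms]

/-- a gap in the sizes gives a gap in the part sums -/
theorem gap_sum (hE : ec (Xe G c) ≤ C) (hk : 1 ≤ ec (Hm G c)) {i j : ℕ} (hi : i ∈ Icc 1 r)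
    (hj : j ∈ Icc 1 r) (hg : 3 * cn c j + ec (Hm G c) ≤ 3 * cn c i) :
    Pc x c j + ec (Hm G c) / 10 ≤ Pc x c i := by
  have r3' : (3 : ℝ) ≤ r := by exact_mod_cast h.r3
  have rC' : (r : ℝ) ≤ C := by exact_mod_cast h.rC
  have η0 := h.η0
  refine AGap_real2 (R := r - 1) (l := lam G) (S := ∑ l ∈ Icc 1 r, Pc x c l) ?_
    (by exact_mod_cast hk) (by linarith) η0 (by nlinarith only [h.η_small, r3', rC']) rfl (Nat.cast_nonneg _)
    (Nat.cast_nonneg _) (h.st.size i hi) ?_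
    (part_sum h.st.eig h.st.le h.st.proper hi (h.err_le hE))
    (part_sum h.st.eig h.st.le h.st.proper hj (h.err_le hE)) (by exact_mod_cast hg)
  · have : (1 : ℝ) ≤ C ^ 5 := one_le_pow₀ (by linarith)
    linarith [h.l_big]
  · rw [sub_add_cancel]
    exact h.total.2

end Ctx

end Pool.Agent.P.MP_094db5_co

end
end

section

/-! Second order comparison of two sets of missing pairs. -/

set_option autoImplicit false

open Finset Classical

noncomputable section

namespace Pool.Agent.P.MP_094db5_co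

variable {V : Type} [Fintype V] {r C : ℕ} {Fr : SimpleGraph V → Prop} {G : SimpleGraph V}
  {x : V → ℝ} {η : ℝ} {c : V → ℕ} {z : V}

lemma ASa_qf_add (G : SimpleGraph V) (p u : V → ℝ) (t : ℝ) :
    qf G (fun v => p v + t * u v) = qf G p + 2 * t * ∑ v, u v * op G p v + t ^ 2 * qf G u := by
  have h1 : ∑ v, u v * op G p v = S2 fun a b => ad G a b * (u a * p b) := by
    simp only [op, S2, mul_sum]
    exact sum_congr rfl fun a _ => sum_congr rfl fun b _ => by ring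
  have h2 : ∑ v, u v * op G p v = S2 fun a b => ad G a b * (p a * u b) := by
    rw [h1, S2_comm]
    exact S2_congr fun a b => by rw [ad_comm]; ring
  have h3 : 2 * t * ∑ v, u v * op G p v =
      t * (S2 fun a b => ad G a b * (u a * p b)) + t * S2 fun a b => ad G a b * (p a * u b) := by
    rw [← h1, ← h2]; ring
  rw [h3]
  simp only [qf, S2_mul, S2_add]
  exact S2_congr fun a b => by ring

lemma ASa_qf_abs (G : SimpleGraph V) (u : V → ℝ) {a : ℝ} (h : ∑ v, |u v| ≤ a) :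
    |qf G u| ≤ a ^ 2 := by
  have h0 : 0 ≤ ∑ v, |u v| := sum_nonneg fun v _ => abs_nonneg _
  refine le_trans ?_ (pow_le_pow_left₀ h0 h 2)
  rw [sq, S2_prod, abs_le]
  have key : ∀ a b, |ad G a b * (u a * u b)| ≤ |u a| * |u b| := fun a b => by
    rw [abs_mul, abs_mul, abs_of_nonneg (ad_nonneg G a b)]
    exact mul_le_of_le_one_left (by positivity) (ad_le_one G a b)
  constructor
  · rw [← neg_one_mul, S2_mul]
    exact S2_mono fun a b => by linarith [(abs_le.1 (key a b)).1]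
  · exact S2_mono fun a b => (abs_le.1 (key a b)).2

lemma ASa_op_congr {H : SimpleGraph V} {x y : V → ℝ} {v : V} (h : ∀ u, H.Adj v u → x u = y u) :
    op H x v = op H y v := by
  refine sum_congr rfl fun u _ => ?_
  unfold ad
  split_ifs with e
  · rw [h u e]
  · simp

lemma ASa_qf_rT {H : SimpleGraph V} (hH : H ≤ Kc c) (x : V → ℝ) : qf H x = qf H (rT c x) := by
  refine S2_congr fun u v => ?_
  unfold ad
  split_ifs with e
  · have h1 : c u ≠ 0 := (hH e).1
    have h2 : c v ≠ 0 := (hH e).2.1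
    simp [rT, h1, h2]
  · simp

lemma ASa_op_zero {H : SimpleGraph V} (hH : H ≤ Kc c) (x : V → ℝ) {v : V} (hv : c v = 0) :
    op H x v = 0 := by
  refine sum_eq_zero fun u _ => ?_
  unfold ad
  split_ifs with e
  · exact absurd hv (hH e).1
  · simp

lemma ASa_point {l p u a b : ℝ} (hl : l ≠ 0) :
    l * (2 * l⁻¹ * ((a - b) * (l * p)) - l * ((p + -l⁻¹ * u + l⁻¹ * (a - b)) ^ 2 -
      (p + -l⁻¹ * u) ^ 2) + 2 * -l⁻¹ * (u * a) - 2 * l⁻¹ * ((a - u - b) * b)) = b ^ 2 - a ^ 2 := by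
  field_simp
  ring

omit [Fintype V] in
lemma ASa_sq {s : Finset V} {y : V → ℝ} {η : ℝ} (h1 : 3 * η ≤ 1)
    (h : ∀ v ∈ s, 1 - 3 * η ≤ y v) :
    (s.card : ℝ) ^ 2 - 6 * η * (s.card : ℝ) ^ 2 ≤ (∑ v ∈ s, y v) ^ 2 := by
  have h2 : (s.card : ℝ) * (1 - 3 * η) ≤ ∑ v ∈ s, y v := by
    have := card_nsmul_le_sum s y _ h
    rwa [nsmul_eq_mul] at this
  have h3 : 0 ≤ (s.card : ℝ) * (1 - 3 * η) := mul_nonneg (Nat.cast_nonneg _) (by linarith)
  have h4 := pow_le_pow_left₀ h3 h2 2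
  nlinarith only [sq_nonneg ((s.card : ℝ) * η), h4]

lemma ASa_div {l k η a q : ℝ} (hl : 0 < l) (hk : 0 ≤ k) (h : k ≤ η * l)
    (hq : |q| ≤ (a * k) ^ 2) : |l * (l⁻¹ ^ 2 * q)| ≤ a ^ 2 * η * k := by
  have e : l * (l⁻¹ ^ 2 * q) = q / l := by field_simp
  rw [e, abs_div, abs_of_pos hl, div_le_iff₀ hl]
  have h1 := mul_le_mul_of_nonneg_left h (mul_nonneg (sq_nonneg a) hk)
  nlinarith only [hq, h1]

/-- the value of a vertex without missing pairs -/
def pp (G : SimpleGraph V) (c : V → ℕ) (x : V → ℝ) (v : V) : ℝ := op (Kc c) x v / lam G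

namespace Ctx

variable (h : Ctx r C Fr G x η c z)
include h

theorem pp_near (hE : ec (Xe G c) ≤ C) {v : V} (hv : c v ≠ 0) : |pp G c x v - 1| ≤ 4 * η := by
  have l0 := h.l0
  have η0 := h.η0
  have hC : (3 : ℝ) ≤ C := by exact_mod_cast h.r3.trans h.rC
  have hE' : (ec (Xe G c) : ℝ) ≤ C := by exact_mod_cast hE
  have e1 := op_split h.st.proper x hv
  rw [h.st.eig.eig] at e1
  have a0 : 0 ≤ op (Hm G c) x v := op_nonneg h.st.eig.nonneg v
  have a1 : op (Hm G c) x v ≤ ec (Hm G c) * 2 := op_le (by norm_num) (fun u _ _ => h.le_two u) v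
  have b0 : 0 ≤ op (Xe G c) x v := op_nonneg h.st.eig.nonneg v
  have b1 : op (Xe G c) x v = op (Xe G c) (fun u => if c u = 0 then x u else 0) v :=
    ASa_op_congr fun u hu => by rw [if_pos (hu.2.resolve_left hv)]
  have b2 : op (Xe G c) (fun u => if c u = 0 then x u else 0) v ≤ ec (Xe G c) * (2 * C * η) := by
    refine op_le (by positivity) (fun u _ _ => ?_) v
    split_ifs with e
    · exact h.W_small hE e
    · positivity
  have b3 : (ec (Xe G c) : ℝ) * (2 * C * η) ≤ C * (2 * C * η) :=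
    mul_le_mul_of_nonneg_right hE' (by positivity)
  have b4 : 2 * (C : ℝ) ^ 2 ≤ lam G := by
    have h1 := h.l_big
    have h2 : (C : ℝ) ^ 2 ≤ C ^ 5 := pow_le_pow_right₀ (by linarith only [hC]) (by norm_num)
    have h3 : (0 : ℝ) ≤ C ^ 5 := by positivity
    linarith
  have b5 := mul_le_mul_of_nonneg_left b4 η0.le
  have hk := h.st.hk
  obtain ⟨t1, t2⟩ := abs_le.1 (h.st.typ v hv)
  have t3 := mul_le_mul_of_nonneg_left t1 l0.le
  have t4 := mul_le_mul_of_nonneg_left t2 l0.le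
  have t5 := mul_pos η0 l0
  rw [pp, abs_le, neg_le_sub_iff_le_add, ← sub_le_iff_le_add, le_div_iff₀ l0, sub_le_iff_le_add,
    div_le_iff₀ l0]
  constructor <;> linarith only [e1, a0, b1, b2, b3, b5, t3, t5, a1, b0, hk, t4]

theorem second {H : SimpleGraph V} {o w : V} {S X : Finset V} (ha : Adm r Fr c H o S w X)
    (hH : ec H = ec (Hm G c)) (hk : 1 ≤ ec (Hm G c)) (he : S.card + X.card = ec (Xe G c))
    (hE : ec (Xe G c) ≤ C) (hsq : D2 G c ≤ S.card ^ 2 + (X.erase o).card ^ 2) :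
    lam G * (qf (Hm G c) (pp G c x) - qf H (pp G c x)) + ∑ v, op H (pp G c x) v ^ 2 -
      ∑ v, op (Hm G c) (pp G c x) v ^ 2 ≤ 300 * C ^ 2 * η * ec (Hm G c) := by
  have l0 := h.l0
  have η0 := h.η0
  have hC : (3 : ℝ) ≤ C := by exact_mod_cast h.r3.trans h.rC
  have hη : 100 * η ≤ 1 := by
    have h1 := h.η_small
    nlinarith only [hC, h1]
  have hk1 : (1 : ℝ) ≤ ec (Hm G c) := by exact_mod_cast hk
  have hkl := h.st.hk
  have hA : Hm G c ≤ Kc c := Hm_le G c
  have hB : H ≤ Kc c := ha.ok.hH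
  obtain ⟨p, hp⟩ : ∃ p, p = pp G c x := ⟨_, rfl⟩
  rw [← hp]
  have p0 : ∀ v, c v = 0 → p v = 0 := fun v hv => by
    rw [hp, pp, ASa_op_zero le_rfl x hv, zero_div]
  have p1 : ∀ v, 0 ≤ p v := fun v => by
    rw [hp, pp]; exact div_nonneg (op_nonneg h.st.eig.nonneg v) l0.le
  have p2 : ∀ v, p v ≤ 2 := fun v => by
    by_cases hv : c v = 0
    · rw [p0 v hv]; norm_num
    · rw [hp]; linarith [(abs_le.1 (h.pp_near hE hv)).2]
  have p3 : ∀ v, op (Kc c) (rT c x) v = lam G * p v := fun v => by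
    rw [hp, pp, mul_div_cancel₀ _ l0.ne']
    exact ASa_op_congr fun u hu => by rw [rT, if_neg hu.2.1]
  obtain ⟨a, hda⟩ : ∃ a, a = op (Hm G c) p := ⟨_, rfl⟩
  obtain ⟨b, hdb⟩ : ∃ b, b = op H p := ⟨_, rfl⟩
  obtain ⟨u, hu⟩ : ∃ u, u = rT c fun v => op (Hm G c) x v - op (Xe G c) x v := ⟨_, rfl⟩
  have ex : rT c x = fun v => p v + -(lam G)⁻¹ * u v := by
    funext v
    by_cases hv : c v = 0
    · rw [hu, rT, rT, if_pos hv, if_pos hv, p0 v hv]; ring
    · have e1 := op_split h.st.proper x hv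
      rw [h.st.eig.eig] at e1
      rw [hu, rT, rT, if_neg hv, if_neg hv, hp, pp]
      field_simp
      linarith only [e1]
  have a0 : ∀ v, 0 ≤ a v := fun v => hda ▸ op_nonneg p1 v
  have b0 : ∀ v, 0 ≤ b v := fun v => hdb ▸ op_nonneg p1 v
  have a1 : ∑ v, a v ≤ 2 * ec (Hm G c) * 2 := hda ▸ sum_op_le fun u _ _ => p2 u
  have b1 : ∑ v, b v ≤ 2 * ec (Hm G c) * 2 := by
    rw [← hH, hdb]; exact sum_op_le fun u _ _ => p2 u
  have b2 : ∀ v, b v ≤ ec (Hm G c) * 2 := fun v => by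
    rw [← hH, hdb]; exact op_le (by norm_num) (fun u _ _ => p2 u) v
  have u1 : ∑ v, |u v| ≤ 5 * ec (Hm G c) := by
    have h1 := h.err_le hE
    rw [← sum_op_Xe, sum_filter, ← sum_add_distrib] at h1
    refine le_trans (sum_le_sum fun v _ => ?_) (h1.trans (by linarith))
    have h2 : 0 ≤ op (Hm G c) x v := op_nonneg h.st.eig.nonneg v
    have h3 : 0 ≤ op (Xe G c) x v := op_nonneg h.st.eig.nonneg v
    by_cases hv : c v = 0
    · rw [hu, rT, if_pos hv, if_neg (not_not.2 hv), abs_zero]; linarith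
    · rw [hu, rT, if_neg hv, if_pos hv, abs_le]; constructor <;> linarith only [h2, h3]
  have d1 : ∑ v, |a v - b v| ≤ 8 * ec (Hm G c) := by
    have h1 : ∑ v, |a v - b v| ≤ ∑ v, (a v + b v) := sum_le_sum fun v _ => by
      rw [abs_le]; constructor <;> linarith only [a0 v, b0 v]
    rw [sum_add_distrib] at h1
    linarith
  have w1 : ∑ v, |a v - u v - b v| ≤ 13 * ec (Hm G c) := by
    have h1 : ∑ v, |a v - u v - b v| ≤ ∑ v, (|a v - b v| + |u v|) := sum_le_sum fun v _ => by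
      rw [sub_right_comm]; exact abs_sub _ _
    rw [sum_add_distrib] at h1
    linarith
  obtain ⟨y, hy⟩ : ∃ y : V → ℝ, y = fun v => rT c x v + (lam G)⁻¹ * (a v - b v) := ⟨_, rfl⟩
  have y1 : ∀ v, c v = 0 → y v = 0 := fun v hv => by
    simp only [hy, hda, hdb, ASa_op_zero hA p hv, ASa_op_zero hB p hv, rT, if_pos hv]
    ring
  have y2 : ∀ v, c v ≠ 0 → 1 - 3 * η ≤ y v := fun v hv => by
    have h1 := (abs_le.1 (h.st.typ v hv)).1
    have h2 : -(2 * η) ≤ (lam G)⁻¹ * (a v - b v) := by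
      rw [le_inv_mul_iff₀ l0]
      linarith [a0 v, b2 v]
    simp only [hy, rT, if_neg hv]
    linarith
  have y0 : ∀ v, 0 ≤ y v := fun v => by
    by_cases hv : c v = 0
    · exact (y1 v hv).ge
    · linarith only [y2 v hv, η0, hη, hv]
  have y3 : y = fun v => p v + (lam G)⁻¹ * (a v - u v - b v) := by
    funext v
    simp only [hy, ex]
    ring
  have hec : ec (Tg c H o S w X) = ec G := by
    have h1 := ha.ok.ec_eq
    have h2 := ec_split h.st.proper
    omega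
  have M := ha.master h.ex hec l0 y0 y1
  have I := h.st.eig.ident h.st.proper
  have E1 : qf (Kc c) y = qf (Kc c) (rT c x) +
      2 * (lam G)⁻¹ * ∑ v, (a v - b v) * (lam G * p v) +
        (lam G)⁻¹ ^ 2 * qf (Kc c) fun v => a v - b v := by
    rw [hy, ASa_qf_add]
    simp only [p3]
  have E2 : qf (Hm G c) x = qf (Hm G c) p + 2 * -(lam G)⁻¹ * ∑ v, u v * a v +
      (lam G)⁻¹ ^ 2 * qf (Hm G c) u := by
    rw [ASa_qf_rT hA, ex, ASa_qf_add, ← hda, neg_sq]
  have E3 : qf H y = qf H p + 2 * (lam G)⁻¹ * ∑ v, (a v - u v - b v) * b v +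
      (lam G)⁻¹ ^ 2 * qf H fun v => a v - u v - b v := by
    rw [y3, ASa_qf_add, ← hdb]
  have E4 : lam G * (2 * (lam G)⁻¹ * ∑ v, (a v - b v) * (lam G * p v) -
      lam G * (∑ v, y v ^ 2 - ∑ v, rT c x v ^ 2) + 2 * -(lam G)⁻¹ * ∑ v, u v * a v -
      2 * (lam G)⁻¹ * ∑ v, (a v - u v - b v) * b v) = ∑ v, b v ^ 2 - ∑ v, a v ^ 2 := by
    simp only [mul_sum, ← sum_sub_distrib, ← sum_add_distrib]
    refine sum_congr rfl fun v _ => ?_
    simp only [hy, ex]
    exact ASa_point l0.ne'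
  have k0 : (0 : ℝ) ≤ ec (Hm G c) := by linarith only [η0, hη, hk1]
  have B1 := (abs_le.1 (ASa_div l0 k0 hkl (ASa_qf_abs (Kc c) _ d1))).1
  have B2 := (abs_le.1 (ASa_div l0 k0 hkl (ASa_qf_abs (Hm G c) _ u1))).1
  have B3 := (abs_le.1 (ASa_div l0 k0 hkl (ASa_qf_abs H _ w1))).2
  have Q := h.Q_sq hE
  have S1 := ASa_sq (s := S) (by linarith only [η0, hη]) fun v hv => y2 v (ha.ok.hS v hv)
  have S2' := ASa_sq (s := X.erase o) (by linarith only [η0, hη]) fun v hv =>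
    y2 v ((ha.ok.hX v (mem_erase.1 hv).2).resolve_right (mem_erase.1 hv).1)
  have S3 : ∑ v ∈ X.erase o, y v = ∑ v ∈ X, y v := sum_erase _ (y1 o ha.ok.o0)
  rw [S3] at S2'
  have hsq' : (D2 G c : ℝ) ≤ (S.card : ℝ) ^ 2 + ((X.erase o).card : ℝ) ^ 2 := by
    exact_mod_cast hsq
  have hcard : (S.card : ℝ) ^ 2 + ((X.erase o).card : ℝ) ^ 2 ≤ (C : ℝ) ^ 2 := by
    have h1 : S.card + (X.erase o).card ≤ C := by
      have := card_erase_le (s := X) (a := o)
      omega
    have h2 : (S.card : ℝ) + (X.erase o).card ≤ C := by exact_mod_cast h1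
    have h3 := pow_le_pow_left₀ (by positivity) h2 2
    have h4 : (0 : ℝ) ≤ (S.card : ℝ) * (X.erase o).card := by positivity
    nlinarith only [h3, h4]
  have F1 := mul_le_mul_of_nonneg_left hcard η0.le
  have F2 : (C : ℝ) ^ 2 * η ≤ C ^ 2 * η * ec (Hm G c) :=
    le_mul_of_one_le_right (by positivity) hk1
  have F3 : 9 * (η * ec (Hm G c)) ≤ C ^ 2 * (η * ec (Hm G c)) :=
    mul_le_mul_of_nonneg_right (by nlinarith only [hC]) (by positivity)
  have F4 : 0 ≤ η * ec (Hm G c) := by positivity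
  rw [← hda, ← hdb]
  unfold Ph at M I
  rw [E1, E3] at M
  rw [E2] at I
  have I' := congrArg (lam G * ·) I
  linarith only [M, E4, B1, B2, B3, Q, S1, S2', hsq', F1, F2, F3, F4, I']

end Ctx

end Pool.Agent.P.MP_094db5_co

end
end

section

/-! The star maximises the second order functional. -/

set_option autoImplicit false

open Finset Classical

noncomputable section

namespace Pool.Agent.P.MP_094db5_co

variable {V : Type} [Fintype V] {c : V → ℕ} {H : SimpleGraph V}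

lemma ASb_pos {a b : ℝ} (ha : 0 ≤ a) (h : 0 < a * b) : 0 < b := by
  by_contra hb
  exact absurd h (not_lt.2 (mul_nonpos_of_nonneg_of_nonpos ha (not_lt.1 hb)))

lemma ASb_big {k l ε A B Q Γ Δ : ℝ} (hk : 1 ≤ k) (h0 : 0 ≤ ε) (h1 : 1000 * ε ≤ 1)
    (hl : k ≤ ε * l) (l0 : 0 < l) (hA : 1 - ε ≤ A) (hB : B ≤ 1 + ε) (hAB : A ≤ B)
    (hQ : Q ≤ k ^ 2 + k) (hΔ : Γ ≤ Δ) (hΓ : k / 10 ≤ l * Γ)
    (h : l * A * Δ + k ^ 2 * B ^ 2 + k * A ^ 2 - B ^ 2 * Q - (2 * B + 2 * ε) * k * Γ ≤ k / 20) :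
    False := by
  have A0 : 0 ≤ A := by linarith only [h1, hA]
  have G0 : 0 ≤ Γ := (ASb_pos l0.le (by linarith)).le
  have X0 : 0 ≤ l * Γ := by linarith
  have a1 : l * A * Γ ≤ l * A * Δ := mul_le_mul_of_nonneg_left hΔ (mul_nonneg l0.le A0)
  have a2 : (999 / 1000) * (l * Γ) ≤ A * (l * Γ) := mul_le_mul_of_nonneg_right (by linarith) X0
  have a3 : k * Γ ≤ ε * l * Γ := mul_le_mul_of_nonneg_right hl G0
  have a4 : ε * (l * Γ) ≤ (1 / 1000) * (l * Γ) := mul_le_mul_of_nonneg_right (by linarith only [h1]) X0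
  have a5 : (2 * B + 2 * ε) * (k * Γ) ≤ 3 * (k * Γ) :=
    mul_le_mul_of_nonneg_right (by linarith) (mul_nonneg (by linarith only [hk]) G0)
  have a6 : B ^ 2 * Q ≤ B ^ 2 * (k ^ 2 + k) := mul_le_mul_of_nonneg_left hQ (sq_nonneg B)
  have a7 : B ^ 2 - A ^ 2 ≤ 1 / 100 := by nlinarith only [h0, h1, hA, hB, hAB]
  have a8 : k * (B ^ 2 - A ^ 2) ≤ k * (1 / 100) := mul_le_mul_of_nonneg_left a7 (by linarith only [hk])
  linarith only [hk, hΓ, h, a1, a2, a3, a4, a5, a6, a8]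

lemma ASb_small {k l ε A B Q Γ Δ : ℝ} (hk : 1 ≤ k) (h0 : 0 ≤ ε) (h1 : 1000 * ε ≤ 1)
    (l0 : 0 < l) (hA : 1 - ε ≤ A) (hB : B ≤ 1 + ε) (hAB : A ≤ B)
    (hQ : 3 * Q + k ≤ 3 * (k ^ 2 + k)) (hΔ : 0 ≤ Δ) (hΓ : Γ ≤ 4 * ε)
    (h : l * A * Δ + k ^ 2 * B ^ 2 + k * A ^ 2 - B ^ 2 * Q - (2 * B + 2 * ε) * k * Γ ≤ k / 20) :
    False := by
  have A0 : 0 ≤ A := by linarith only [h1, hA]
  have a1 : 0 ≤ l * A * Δ := mul_nonneg (mul_nonneg l0.le A0) hΔ
  have a2 : B ^ 2 * Q ≤ B ^ 2 * (k ^ 2 + 2 / 3 * k) :=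
    mul_le_mul_of_nonneg_left (by linarith only [hQ]) (sq_nonneg B)
  have a3 : (2 * B + 2 * ε) * Γ ≤ 1 / 50 := by nlinarith only [h0, h1, hA, hB, hAB, hΓ]
  have a4 : 3 / 10 ≤ A ^ 2 - 2 / 3 * B ^ 2 := by nlinarith only [h0, h1, hA, hB, hAB]
  have a5 : k * ((2 * B + 2 * ε) * Γ) ≤ k * (1 / 50) := mul_le_mul_of_nonneg_left a3 (by linarith only [hk])
  have a6 : k * (3 / 10) ≤ k * (A ^ 2 - 2 / 3 * B ^ 2) := mul_le_mul_of_nonneg_left a4 (by linarith only [hk])
  linarith only [hk, h, a1, a2, a5, a6]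

lemma ASb_sum (g : V → ℝ) : ∑ v, op H g v = ∑ u, g u * H.degree u := by
  unfold op
  rw [sum_comm]
  refine sum_congr rfl fun u _ => ?_
  rw [← sum_ad, mul_sum]
  exact sum_congr rfl fun v _ => by rw [ad_comm, mul_comm]

lemma ASb_single {g : V → ℝ} (hg : ∀ u, 0 ≤ g u) {u : V} {n : ℕ} (hn : n ≤ H.degree u) :
    n * g u ≤ ∑ v, op H g v := by
  rw [ASb_sum]
  have h1 : (n : ℝ) ≤ H.degree u := by exact_mod_cast hn
  calc n * g u ≤ g u * H.degree u := by rw [mul_comm]; exact mul_le_mul_of_nonneg_left h1 (hg u)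
    _ ≤ _ := single_le_sum (f := fun u => g u * (H.degree u : ℝ))
      (fun v _ => mul_nonneg (hg v) (Nat.cast_nonneg _)) (mem_univ u)

lemma ASb_deg2 {a b d : V} (h1 : H.Adj a b) (h2 : H.Adj a d) (h : b ≠ d) : 2 ≤ H.degree a := by
  rw [← SimpleGraph.card_neighborFinset_eq_degree]
  exact one_lt_card.2 ⟨b, by simpa using h1, d, by simpa using h2, h⟩

lemma ASb_op_sq {p g : V → ℝ} {B e : ℝ} (hB : 0 ≤ B) (he : 0 ≤ e) (hg0 : ∀ u, 0 ≤ g u)
    (hge : ∀ u, g u ≤ e) (hp : ∀ u v, H.Adj u v → 0 ≤ p v ∧ p v ≤ B + g v) :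
    ∑ v, op H p v ^ 2 ≤
      B ^ 2 * ((∑ v, H.degree v ^ 2 : ℕ) : ℝ) + (2 * B + e) * ec H * ∑ v, op H g v := by
  push_cast
  rw [mul_sum, mul_sum, ← sum_add_distrib]
  refine sum_le_sum fun v _ => ?_
  have a0 : 0 ≤ op H p v := sum_nonneg fun u _ => by
    unfold ad
    split_ifs with h
    · rw [one_mul]; exact (hp v u h).1
    · rw [zero_mul]
  have a1 : op H p v ≤ B * H.degree v + op H g v := by
    unfold op
    rw [← sum_ad, mul_sum, ← sum_add_distrib]
    refine sum_le_sum fun u _ => ?_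
    unfold ad
    split_ifs with h
    · linarith [(hp v u h).2]
    · simp
  have a2 : (H.degree v : ℝ) ≤ ec H := by
    have := op_le (H := H) (x := fun _ => 1) zero_le_one (fun _ _ _ => le_rfl) v
    unfold op at this
    simpa only [mul_one, sum_ad] using this
  have a3 : 0 ≤ op H g v := op_nonneg hg0 v
  have a4 : op H g v ≤ ec H * e := op_le he (fun u _ _ => hge u) v
  have a5 : op H p v ^ 2 ≤ (B * H.degree v + op H g v) ^ 2 := pow_le_pow_left₀ a0 a1 2
  have a6 : B * H.degree v ≤ B * ec H := mul_le_mul_of_nonneg_left a2 hB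
  have a7 : op H g v * (2 * (B * H.degree v) + op H g v) ≤ op H g v * (2 * (B * ec H) + ec H * e) :=
    mul_le_mul_of_nonneg_left (by linarith) a3
  linarith

lemma ASb_qf {p g : V → ℝ} {A M s t : ℝ}
    (hp : ∀ u v, H.Adj u v → M + A * (s * g u + t * g v) ≤ p u * p v) :
    2 * ec H * M + A * ((s + t) * ∑ v, op H g v) ≤ qf H p := by
  have e1 : ∑ v, op H g v = S2 fun u v => ad H u v * g v := rfl
  have e2 : ∑ v, op H g v = S2 fun u v => ad H u v * g u := by
    rw [e1, S2_comm]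
    exact S2_congr fun u v => by rw [ad_comm]
  have e3 : 2 * ec H * M + A * ((s + t) * ∑ v, op H g v) =
      M * Mo H + (A * s) * (∑ v, op H g v) + (A * t) * ∑ v, op H g v := by
    rw [Mo_ec]; ring
  rw [e3]
  nth_rewrite 2 [e1]
  rw [e2, Mo, S2_mul, S2_mul, S2_mul, S2_add, S2_add]
  refine S2_mono fun u v => ?_
  unfold ad
  split_ifs with h
  · linarith [hp u v h]
  · simp

lemma ASb_star {p : V → ℝ} {a : V} {D : Finset V} (ha : a ∉ D) :
    (∑ v ∈ D, p v) ^ 2 + D.card * p a ^ 2 ≤ ∑ v, op (Sg a D) p v ^ 2 := by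
  refine le_trans (le_of_eq ?_) (sum_le_univ_sum_of_nonneg (s := insert a D)
    (f := fun v => op (Sg a D) p v ^ 2) fun v => sq_nonneg _)
  rw [sum_insert ha, op_Sg_self ha, ← nsmul_eq_mul, ← sum_const]
  congr 1
  refine sum_congr rfl fun v hv => ?_
  rw [op_Sg ha p (fun e => ha (e ▸ hv)), if_pos hv]

/-- `P` is the value on the parts, `i` and `j` are the two cheapest parts; `f` is the number of
leaves of the star outside part `j` -/
theorem star_of_second {P : ℕ → ℝ} {p : V → ℝ} {l ε : ℝ} {i j : ℕ} {a : V} {D D₁ : Finset V}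
    (hH : H ≤ Kc c) (hp : ∀ v, c v ≠ 0 → p v = P (c v)) (h0 : 0 ≤ ε) (h1 : 1000 * ε ≤ 1)
    (hε : ∀ v, c v ≠ 0 → |p v - 1| ≤ ε) (hk : 1 ≤ ec H) (hl : (ec H : ℝ) ≤ ε * l) (hij : i ≠ j)
    (hj : j ≠ 0) (hP : P i ≤ P j)
    (hgap : ∀ v, c v ≠ 0 → c v ≠ i → c v ≠ j → ec H / 10 ≤ l * (p v - P j))
    (ha : c a = i) (hi : i ≠ 0) (hD : D.card = ec H) (hD₁ : D₁ ⊆ D) (hDj : ∀ v ∈ D \ D₁, c v = j)
    (hne : (D \ D₁).Nonempty) (hf : D₁.card ≤ 1)
    (hf' : ∀ v ∈ D₁, c v ≠ 0 ∧ c v ≠ i ∧ c v ≠ j ∧ (∀ u, c u = 0 ∨ c u = i ∨ c u = j ∨ c u = c v) ∧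
      ∃ u u', H.Adj u u' ∧ c u = c v)
    (h : l * (qf H p - qf (Sg a D) p) + ∑ v, op (Sg a D) p v ^ 2 - ∑ v, op H p v ^ 2 ≤
      ec H / 20) : ∃ a, ∀ u v, H.Adj u v → u = a ∨ v = a := by
  have hk' : (1 : ℝ) ≤ ec H := by exact_mod_cast hk
  have l0 : 0 < l := ASb_pos h0 (by linarith)
  have pa : p a = P i := by rw [hp a (ha ▸ hi), ha]
  have hA : 1 - ε ≤ P i := by
    have := (abs_le.1 (hε a (ha ▸ hi))).1
    linarith
  obtain ⟨b, hb⟩ := hne
  have pj : ∀ v, c v = j → p v = P j := fun v e => by rw [hp v (e ▸ hj), e]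
  have pi : ∀ v, c v = i → p v = P i := fun v e => by rw [hp v (e ▸ hi), e]
  have hB : P j ≤ 1 + ε := by
    have := (abs_le.1 (hε b (hDj b hb ▸ hj))).2
    linarith [pj b (hDj b hb)]
  have A0 : 0 ≤ P i := by linarith
  obtain ⟨g, g1, g2⟩ : ∃ g : V → ℝ, (∀ u, c u ≠ 0 → c u ≠ i → c u ≠ j → g u = p u - P j) ∧
      ∀ u, c u = 0 ∨ c u = i ∨ c u = j → g u = 0 := by
    refine ⟨fun u => if c u = 0 ∨ c u = i ∨ c u = j then 0 else p u - P j, fun u a b d => ?_,
      fun u e => if_pos e⟩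
    exact if_neg (by tauto)
  have gc : ∀ u, (c u = 0 ∨ c u = i ∨ c u = j) ∨ (c u ≠ 0 ∧ c u ≠ i ∧ c u ≠ j) := fun u => by tauto
  have gl : ∀ u, c u ≠ 0 → c u ≠ i → c u ≠ j → ec H / 10 ≤ l * g u := fun u a b d => by
    rw [g1 u a b d]; exact hgap u a b d
  have g0 : ∀ u, 0 ≤ g u := fun u => by
    rcases gc u with e | ⟨a, b, d⟩
    · exact (g2 u e).ge
    · exact (ASb_pos l0.le (by linarith only [gl u a b d, hk', a, b, d])).le
  have ge : ∀ u, g u ≤ 2 * ε := fun u => by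
    rcases gc u with e | ⟨a, b, d⟩
    · rw [g2 u e]; linarith
    · rw [g1 u a b d]
      linarith [(abs_le.1 (hε u a)).2]
  have pg : ∀ u, c u ≠ 0 → c u ≠ i → p u = P j + g u := fun u a b => by
    by_cases d : c u = j
    · rw [pj u d, g2 u (Or.inr (Or.inr d)), add_zero]
    · rw [g1 u a b d]; ring
  have pl : ∀ u, c u ≠ 0 → P i ≤ p u := fun u a => by
    by_cases d : c u = i
    · exact (pi u d).ge
    · linarith only [pg u a d, g0 u, hP, a, d]
  have pu : ∀ u, c u ≠ 0 → p u ≤ P j + g u := fun u a => by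
    by_cases d : c u = i
    · linarith [pi u d, g0 u]
    · exact (pg u a d).le
  have edge : ∀ u v, H.Adj u v → P i * P j + P i * g u ≤ p u * p v := fun u v e => by
    obtain ⟨a, b, d⟩ := hH e
    by_cases hu : c u = i
    · rw [pi u hu, g2 u (Or.inr (Or.inl hu)), pg v b (fun e => d (hu.trans e.symm))]
      linarith [mul_nonneg A0 (g0 v)]
    · rw [pg u a hu]
      have : (P j + g u) * P i ≤ (P j + g u) * p v :=
        mul_le_mul_of_nonneg_left (pl v b) (by linarith [g0 u])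
      linarith
  have aD : a ∉ D := fun e => by
    by_cases e1 : a ∈ D₁
    · exact (hf' a e1).2.1 ha
    · exact hij (ha.symm.trans (hDj a (mem_sdiff.2 ⟨e, e1⟩)))
  have sD : ∑ v ∈ D, p v = ec H * P j + ∑ v ∈ D₁, g v := by
    have e1 : ∑ v ∈ D₁, g v = ∑ v ∈ D, g v :=
      sum_subset hD₁ fun v e e' => g2 v (Or.inr (Or.inr (hDj v (mem_sdiff.2 ⟨e, e'⟩))))
    rw [e1, ← hD, ← nsmul_eq_mul, ← sum_const, ← sum_add_distrib]
    refine sum_congr rfl fun v e => ?_
    by_cases e' : v ∈ D₁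
    · exact pg v (hf' v e').1 (hf' v e').2.1
    · have := hDj v (mem_sdiff.2 ⟨e, e'⟩)
      exact pg v (this ▸ hj) (this ▸ hij.symm)
  have s1 := ASb_op_sq (H := H) (p := p) (B := P j) (e := 2 * ε) (by linarith only [h1, hP, hA]) (by linarith) g0 ge
    fun u v e => ⟨A0.trans (pl v (hH e).2.1), pu v (hH e).2.1⟩
  have s2 := ASb_star (p := p) aD
  rw [qf_Sg aD, pa, sD] at h
  rw [pa, sD, hD] at s2
  have γ0 : 0 ≤ ∑ v ∈ D₁, g v := sum_nonneg fun v _ => g0 v
  have q1 : ((∑ v, H.degree v ^ 2 : ℕ) : ℝ) ≤ (ec H : ℝ) ^ 2 + ec H := by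
    exact_mod_cast sum_degree_sq_le H
  generalize hΓ : ∑ v, op H g v = Γ at s1
  generalize hγ : ∑ v ∈ D₁, g v = γ at h s2 γ0
  have main : ∀ M, 2 * ec H * (P i * P j) + P i * M ≤ qf H p →
      l * P i * (M - 2 * γ) + (ec H : ℝ) ^ 2 * P j ^ 2 + ec H * P i ^ 2 -
        P j ^ 2 * ((∑ v, H.degree v ^ 2 : ℕ) : ℝ) - (2 * P j + 2 * ε) * ec H * Γ ≤ ec H / 20 := by
    intro M hM
    have b1 := mul_le_mul_of_nonneg_left hM l0.le
    have b2 : 0 ≤ γ * (2 * (ec H * P j) + γ) :=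
      mul_nonneg γ0 (by linarith only [mul_nonneg (zero_le_one.trans hk') (A0.trans hP), hP, hk', A0, γ0])
    linarith only [s1, h, s2, b1, b2]
  obtain ⟨a₀, b₀, h00⟩ := exists_adj_of_ec hk
  have fin : ∀ M, 2 * ec H * (P i * P j) + P i * M ≤ qf H p → 0 ≤ M - 2 * γ → Γ ≤ 4 * ε →
      (∀ a b d, H.Adj a b → H.Adj b d → ¬ H.Adj a d) → ∃ a, ∀ u v, H.Adj u v → u = a ∨ v = a := by
    intro M hM m0 m1 tri
    refine star_of_inter h00 (fun a b d e h1' h2' => ?_) tri
    by_contra hn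
    simp only [not_or] at hn
    have q2 : 3 * ((∑ v, H.degree v ^ 2 : ℕ) : ℝ) + ec H ≤ 3 * ((ec H : ℝ) ^ 2 + ec H) := by
      exact_mod_cast sum_degree_sq_le' h1' h2' hn.1 hn.2.1 hn.2.2.1 hn.2.2.2
    exact ASb_small hk' h0 h1 l0 hA hB hP q2 m0 m1 (main M hM)
  rcases D₁.eq_empty_or_nonempty with e | ⟨w, hw⟩
  · rw [e, sum_empty] at hγ
    subst hγ
    have hM := ASb_qf (H := H) (p := p) (g := g) (A := P i) (M := P i * P j) (s := 1) (t := 0)
      fun u v e => by linarith [edge u v e]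
    rw [hΓ] at hM
    have Γ0 : 0 ≤ Γ := hΓ ▸ sum_nonneg fun v _ => op_nonneg g0 v
    by_cases big : ec H / 10 ≤ l * Γ
    · exact (ASb_big hk' h0 h1 hl l0 hA hB hP q1 (by linarith) big (main _ hM)).elim
    have col : ∀ u v, H.Adj u v → c u = i ∨ c u = j := fun u v e => by
      by_contra hn
      simp only [not_or] at hn
      have b1 := ASb_single (H := H) g0 (n := 1) (e.degree_pos_left)
      rw [hΓ] at b1
      have b2 : l * g u ≤ l * Γ := mul_le_mul_of_nonneg_left (by simpa using b1) l0.le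
      exact big ((gl u (hH e).1 hn.1 hn.2).trans b2)
    refine fin _ hM (by linarith only [Γ0]) ?_ fun x y z e1 e2 e3 => ?_
    · refine le_of_mul_le_mul_left ?_ l0
      linarith only [not_le.1 big, hl, hk', big]
    · have c1 := col _ _ e1
      have c2 := col _ _ e2
      have c3 := col _ _ e3.symm
      have d1 := (hH e1).2.2
      have d2 := (hH e2).2.2
      have d3 := (hH e3).2.2
      omega
  · have eD : D₁ = {w} := eq_singleton_iff_unique_mem.2
      ⟨hw, fun v hv => card_le_one.1 hf v hv w hw⟩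
    rw [eD, sum_singleton] at hγ
    subst hγ
    obtain ⟨w0, wi, wj, wall, u₀, u₁, hu, hcu⟩ := hf' w hw
    have gw : ∀ u, c u = c w → g u = g w := fun u e => by
      rw [g1 u (e ▸ w0) (e ▸ wi) (e ▸ wj), g1 w w0 wi wj, hp u (e ▸ w0), hp w w0, e]
    have hM := ASb_qf (H := H) (p := p) (g := g) (A := P i) (M := P i * P j) (s := 1) (t := 1)
      fun u v e => by
        have e1 := edge u v e
        have e2 := edge v u e.symm
        have d := (hH e).2.2
        by_cases hu : c u = c w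
        · have : g v = 0 := g2 v (by have := wall v; omega)
          rw [this]
          linarith only [e1]
        · have : g u = 0 := g2 u (by have := wall u; omega)
          rw [this]
          linarith only [e2]
    rw [hΓ] at hM
    have b1 := ASb_single (H := H) g0 (n := 1) (hu.degree_pos_left)
    rw [hΓ, gw u₀ hcu] at b1
    have b1' : g w ≤ Γ := by simpa using b1
    by_cases big : 2 * g w ≤ Γ
    · have b2 : l * g w ≤ l * Γ := mul_le_mul_of_nonneg_left b1' l0.le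
      exact (ASb_big hk' h0 h1 hl l0 hA hB hP q1 (by linarith only [big]) ((gl w w0 wi wj).trans b2)
        (main _ hM)).elim
    have two : ∀ x y z, H.Adj x y → H.Adj x z → y ≠ z → c x ≠ c w := fun x y z e1 e2 e3 e => by
      have b2 := ASb_single (H := H) g0 (ASb_deg2 e1 e2 e3)
      rw [hΓ, gw x e] at b2
      exact big (by simpa using b2)
    refine fin _ hM (by linarith only [b1']) (by linarith only [not_le.1 big, ge w, big]) fun x y z e1 e2 e3 => ?_
    have t1 := two _ _ _ e1 e3 e2.ne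
    have t2 := two _ _ _ e1.symm e2 e3.ne
    have t3 := two _ _ _ e2.symm e3.symm e1.ne.symm
    have c1 := wall x
    have c2 := wall y
    have c3 := wall z
    obtain ⟨x0, y0, d1⟩ := hH e1
    obtain ⟨_, z0, d2⟩ := hH e2
    have d3 := (hH e3).2.2
    omega

end Pool.Agent.P.MP_094db5_co

end
end

section

/-! The missing pairs form a star. -/

set_option autoImplicit false

open Finset Classical

noncomputable section

namespace Pool.Agent.P.MP_094db5_co

variable {V : Type} [Fintype V] {r C : ℕ} {Fr : SimpleGraph V → Prop} {G : SimpleGraph V}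
  {x : V → ℝ} {η : ℝ} {c : V → ℕ} {z : V}

theorem ASc_third {i j : ℕ} (hi : i ∈ Icc 1 3) (hj : j ∈ Icc 1 3) (hij : i ≠ j) :
    ∃ m ∈ Icc 1 3, m ≠ i ∧ m ≠ j ∧ ∀ n, n ≤ 3 → n = 0 ∨ n = i ∨ n = j ∨ n = m := by
  rw [mem_Icc] at hi hj
  exact ⟨6 - i - j, mem_Icc.2 (by omega), by omega, by omega, fun n hn => by omega⟩

theorem ASc_core (h : Ctx r C Fr G x η c z) (hE : ec (Xe G c) ≤ C) (hk : 2 ≤ ec (Hm G c))
    {i j : ℕ} (hi : i ∈ Icc 1 r) (hj : j ∈ Icc 1 r) (hij : i ≠ j) (hP : Pc x c j ≤ Pc x c i)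
    (hgap : ∀ m ∈ Icc 1 r, m ≠ i → m ≠ j → Pc x c m + ec (Hm G c) / 10 ≤ Pc x c j)
    {a : V} {D D₁ : Finset V} (ha : c a = i) (haD : a ∉ D) (hD : D.card = ec (Hm G c))
    (hD₁ : D₁ ⊆ D) (hDj : ∀ v ∈ D \ D₁, c v = j) (hne : (D \ D₁).Nonempty) (hf : D₁.card ≤ 1)
    (hf' : ∀ v ∈ D₁, c v ≠ 0 ∧ c v ≠ i ∧ c v ≠ j ∧ (∀ u, c u = 0 ∨ c u = i ∨ c u = j ∨ c u = c v) ∧
      ∃ u u', (Hm G c).Adj u u' ∧ c u = c v)
    {o w : V} {S X : Finset V} (had : Adm r Fr c (Sg a D) o S w X)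
    (he : S.card + X.card = ec (Xe G c)) (hsq : D2 G c ≤ S.card ^ 2 + (X.erase o).card ^ 2) :
    ∃ a, ∀ u v, (Hm G c).Adj u v → u = a ∨ v = a := by
  have l0 := h.l0
  have η0 := h.η0
  have hC : (1 : ℝ) ≤ C := by
    have := h.r3
    have := h.rC
    exact_mod_cast (by omega : 1 ≤ C)
  have hk0 : (0 : ℝ) ≤ ec (Hm G c) := Nat.cast_nonneg _
  have hp : ∀ v, c v ≠ 0 → pp G c x v =
      (fun m => (∑ n ∈ Icc 1 r, Pc x c n - Pc x c m) / lam G) (c v) := fun v hv => by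
    rw [pp, op_Kc h.st.le x hv]
  have hsm : 10 ^ 5 * (C ^ 2 * η) ≤ 1 := by
    have h3 : (C : ℝ) ^ 2 ≤ C ^ 5 := pow_le_pow_right₀ hC (by norm_num)
    have := mul_le_mul_of_nonneg_right h3 η0.le
    linarith only [h.sm, this]
  have hη : 10 ^ 5 * η ≤ 1 := by
    have h3 : (1 : ℝ) ≤ C ^ 2 := one_le_pow₀ hC
    have := mul_le_mul_of_nonneg_right h3 η0.le
    linarith
  have sec := h.second had ((ec_Sg haD).trans hD) (by omega) he hE hsq
  refine star_of_second (P := fun m => (∑ n ∈ Icc 1 r, Pc x c n - Pc x c m) / lam G)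
    (p := pp G c x) (l := lam G) (ε := 4 * η) (Hm_le G c) hp (by positivity) (by linarith)
    (fun v hv => h.pp_near hE hv) (by omega) ?_ hij ?_ ?_ ?_ ha ?_ hD hD₁ hDj hne hf hf' ?_
  · have := h.st.hk
    have := mul_pos η0 l0
    linarith
  · have := (mem_Icc.1 hj).1
    omega
  · exact div_le_div_of_nonneg_right (by linarith) l0.le
  · intro v hv hvi hvj
    have := hgap (c v) (mem_Icc.2 ⟨Nat.one_le_iff_ne_zero.2 hv, h.st.le v⟩) hvi hvj
    rw [hp v hv]
    simp only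
    rw [← sub_div, mul_div_cancel₀ _ l0.ne']
    linarith
  · have := (mem_Icc.1 hi).1
    omega
  · have := mul_le_mul_of_nonneg_right hsm hk0
    have := mul_nonneg (mul_nonneg (sq_nonneg (C : ℝ)) η0.le) hk0
    linarith

theorem Ctx.star (h : Ctx r C Fr G x η c z) (hE : ec (Xe G c) ≤ C) (hk : 2 ≤ ec (Hm G c))
    (hg : ∀ i ∈ Icc 1 r, ∀ j ∈ Icc 1 r, i ≠ j → cn c j ≤ cn c i →
      3 * cn c j + ec (Hm G c) ≤ 3 * cn c i) (fl : Prop)
    (hf : fl → r = 3 ∧ ∀ i ∈ Icc 1 r, ∃ u v, (Hm G c).Adj u v ∧ c u = i)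
    (hs : ∀ (a : V) (D : Finset V), (∀ v ∈ D, cross c a v) → D.card = ec (Hm G c) →
      (fl → ∀ i ∈ Icc 1 r, i ≠ c a → ∃ v ∈ D, c v = i) → ∃ o S w X, Adm r Fr c (Sg a D) o S w X ∧
        S.card + X.card = ec (Xe G c) ∧ D2 G c ≤ S.card ^ 2 + (X.erase o).card ^ 2) :
    ∃ a, ∀ u v, (Hm G c).Adj u v → u = a ∨ v = a := by
  have r3 := h.r3
  obtain ⟨i, hi, hiM⟩ := exists_max_image (Icc 1 r) (Pc x c) ⟨1, mem_Icc.2 (by omega)⟩
  obtain ⟨j, hj', hjM⟩ := exists_max_image ((Icc 1 r).erase i) (Pc x c)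
    (card_pos.1 (by rw [card_erase_of_mem hi, Nat.card_Icc]; omega))
  obtain ⟨hji, hj⟩ := mem_erase.1 hj'
  have hi0 : i ≠ 0 := by have := (mem_Icc.1 hi).1; omega
  have hj0 : j ≠ 0 := by have := (mem_Icc.1 hj).1; omega
  have hgap : ∀ m ∈ Icc 1 r, m ≠ i → m ≠ j → Pc x c m + ec (Hm G c) / 10 ≤ Pc x c j := by
    intro m hm hmi hmj
    rcases le_total (cn c m) (cn c j) with e | e
    · exact h.gap_sum hE (by omega) hj hm (hg j hj m hm hmj.symm e)
    · have h1 := h.gap_sum hE (by omega) hm hj (hg m hm j hj hmj e)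
      have h2 := hjM m (mem_erase.2 ⟨hmi, hm⟩)
      have h3 : (2 : ℝ) ≤ ec (Hm G c) := by exact_mod_cast hk
      linarith only [h1, h2, h3]
  have hpt : ∀ m ∈ Icc 1 r, ∃ v, c v = m := fun m hm => by
    have := h.room hm
    obtain ⟨v, hv⟩ := card_pos.1 (show 0 < (Vp c m).card by rw [card_Vp]; omega)
    exact ⟨v, mem_Vp.1 hv⟩
  obtain ⟨a, ha⟩ := hpt i hi
  have hroom := h.room hj
  by_cases hfl : fl
  · obtain ⟨e3, hall⟩ := hf hfl
    obtain ⟨m, hm, hmi, hmj, hcov⟩ := ASc_third (e3 ▸ hi) (e3 ▸ hj) hji.symm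
    rw [← e3] at hm
    have hm0 : m ≠ 0 := by have := (mem_Icc.1 hm).1; omega
    obtain ⟨b, hb⟩ := hpt m hm
    obtain ⟨D, hD, hDc⟩ := exists_subset_card_eq
      (show ec (Hm G c) - 1 ≤ (Vp c j).card by rw [card_Vp]; omega)
    have hDj : ∀ v ∈ D, c v = j := fun v hv => mem_Vp.1 (hD hv)
    have hbD : b ∉ D := fun e => hmj (hb.symm.trans (hDj b e))
    obtain ⟨d, hd⟩ := card_pos.1 (show 0 < D.card by omega)
    have hcard : (insert b D).card = ec (Hm G c) := by rw [card_insert_of_notMem hbD]; omega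
    have hcr : ∀ v ∈ insert b D, cross c a v := by
      intro v hv
      rcases mem_insert.1 hv with e | e
      · rw [e]
        exact ⟨ha ▸ hi0, hb ▸ hm0, by rw [ha, hb]; exact hmi.symm⟩
      · exact ⟨ha ▸ hi0, (hDj v e).symm ▸ hj0, by rw [ha, hDj v e]; exact hji.symm⟩
    obtain ⟨o, S, w, X, had, he, hsq⟩ := hs a (insert b D) hcr hcard (by
      intro _ n hn hna
      have hn' := mem_Icc.1 hn
      rcases hcov n (by omega) with e | e | e | e
      · omega
      · exact absurd (e.trans ha.symm) hna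
      · exact ⟨d, mem_insert_of_mem hd, (hDj d hd).trans e.symm⟩
      · exact ⟨b, mem_insert_self _ _, hb.trans e.symm⟩)
    refine ASc_core h hE hk hi hj hji.symm (hiM j hj) hgap (D₁ := {b}) ha
      (fun e => (hcr a e).2.2 rfl) hcard (by simp) ?_ ?_ (by simp) ?_ had he hsq
    · intro v hv
      obtain ⟨h1, h2⟩ := mem_sdiff.1 hv
      exact hDj v ((mem_insert.1 h1).resolve_left fun e => h2 (mem_singleton.2 e))
    · exact ⟨d, mem_sdiff.2 ⟨mem_insert_of_mem hd, fun e => hbD (mem_singleton.1 e ▸ hd)⟩⟩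
    · intro v hv
      rw [mem_singleton.1 hv, hb]
      exact ⟨hm0, hmi, hmj, fun u => hcov (c u) (e3 ▸ h.st.le u), hall m hm⟩
  · obtain ⟨D, hD, hDc⟩ := exists_subset_card_eq
      (show ec (Hm G c) ≤ (Vp c j).card by rw [card_Vp]; omega)
    have hDj : ∀ v ∈ D, c v = j := fun v hv => mem_Vp.1 (hD hv)
    have hcr : ∀ v ∈ D, cross c a v := fun v e =>
      ⟨ha ▸ hi0, (hDj v e).symm ▸ hj0, by rw [ha, hDj v e]; exact hji.symm⟩
    obtain ⟨o, S, w, X, had, he, hsq⟩ := hs a D hcr hDc fun e => absurd e hfl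
    refine ASc_core h hE hk hi hj hji.symm (hiM j hj) hgap (D₁ := ∅) ha
      (fun e => (hcr a e).2.2 rfl) hDc (empty_subset _) ?_ ?_ (by simp) (by simp) had he hsq
    · intro v hv
      exact hDj v (mem_sdiff.1 hv).1
    · rw [sdiff_empty]
      exact card_pos.1 (by omega)

end Pool.Agent.P.MP_094db5_co

end
end
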