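import Pool.Agent.P.MP_094db5_co.XA3
import Pool.Agent.P.MP_094db5_co.XA4

section

/-! Books: the vertex of largest weight avoids a part. -/

set_option autoImplicit false

open Finset Classical

noncomputable section

namespace Pool.Agent.P.MP_094db5_co

variable {V : Type} [Fintype V] {r t C : ℕ} {G : SimpleGraph V} {x : V → ℝ} {η : ℝ} {c : V → ℕ}
  {z : V}

omit [Fintype V] in
theorem ABk1_clique (h : NoBook G r 0) {y : ℕ → V} {w : V}
    (h1 : ∀ i ∈ Icc 1 r, ∀ j ∈ Icc 1 r, i ≠ j → G.Adj (y i) (y j))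
    (h2 : ∀ i ∈ Icc 1 r, G.Adj w (y i)) : False := by
  have hK := clique_image h1
  rw [Nat.card_Icc, Nat.add_sub_cancel] at hK
  have := h _ hK {w} fun v hv u hu => by
    obtain ⟨i, hi, rfl⟩ := mem_image.1 hu
    rw [mem_singleton.1 hv]
    exact (h2 i hi).symm
  simp at this

omit [Fintype V] in
theorem ABk1_adj (hk : Hm G c = ⊥) {u v : V} (h : cross c u v) : G.Adj u v := by
  by_contra hn
  have : (Hm G c).Adj u v := Hm_adj.2 ⟨h, hn⟩
  rw [hk] at this
  exact this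

omit [Fintype V] in
theorem ABk1_trans {X : Finset V} {l : ℕ} (h : Trans r (Function.update c z l) X) (hz : z ∉ X) :
    Trans r c X := by
  have e : ∀ v ∈ X, Function.update c z l v = c v := fun v hv =>
    Function.update_of_ne (fun e : v = z => hz (e ▸ hv)) _ _
  refine ⟨fun v hv => e v hv ▸ h.1 v hv, fun i hi => ?_, fun u hu v hv huv => h.2.2 u hu v hv ?_⟩
  · obtain ⟨v, hv, hi⟩ := h.2.1 i hi
    exact ⟨v, hv, e v hv ▸ hi⟩
  · rw [e u hu, e v hv, huv]

omit [Fintype V] in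
theorem ABk1_adjX {H : SimpleGraph V} {o w v : V} {S X : Finset V} (ok : TgOK r c H o S w X)
    (e : G = Tg c H o S w X) (hv : v ∈ X) : G.Adj w v := by
  rw [e, Tg_adj]
  refine Or.inr (Or.inr ⟨fun hh => ?_, Or.inl ⟨rfl, hv⟩⟩)
  rcases ok.hX v hv with h | h
  · exact h (hh ▸ ok.w0)
  · exact ok.ow (hh.trans h).symm

namespace Ctx

variable (h : Ctx r C (fun G : SimpleGraph V => NoBook G r t) G x η c z) (hC : 4 * r * (t + 1) ≤ C)
include h hC

omit hC in
theorem ABk1_room {i : ℕ} (hi : i ∈ Icc 1 r) : 2 ≤ cn c i := by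
  have := h.room hi
  have := h.r3
  have := h.rC
  omega

omit hC in
theorem ABk1_hb : ∀ i ∈ Icc 1 r, 2 * ec (⊥ : SimpleGraph V) < cn c i := fun i hi => by
  have := h.ABk1_room hi
  rw [ec_bot]
  omega

omit hC in
theorem ABk1_pos {u v : V} (huv : G.Adj u v) (hv : c v ≠ 0) : 0 < x u :=
  h.st.eig.pos_of_adj huv (by linarith [h.pos hv])

omit hC in
theorem ABk1_mem {v : V} (hv : c v ≠ 0) : c v ∈ Icc 1 r :=
  mem_Icc.2 ⟨Nat.one_le_iff_ne_zero.2 hv, h.st.le v⟩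

/-- without missing pairs no outer vertex sees all parts of a clique-free graph -/
theorem not_sees (ht : t = 0) (hk : ec (Hm G c) = 0) (w : V) : ¬ Sees G r c w := by
  intro hs
  have _ := hC
  subst ht
  have : Nonempty V := ⟨w⟩
  choose! y hy using hs
  refine ABk1_clique h.ex.fr (y := y) (w := w) (fun i hi j hj hij => ?_) fun i hi => (hy i hi).2
  have h1 := (mem_Icc.1 hi).1
  have h2 := (mem_Icc.1 hj).1
  refine ABk1_adj (ec_eq_zero.1 hk) ⟨?_, ?_, ?_⟩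
  · rw [(hy i hi).1]; omega
  · rw [(hy j hj).1]; omega
  · rw [(hy i hi).1, (hy j hj).1]; exact hij

theorem ABk1_big0 (ht : t = 0) {l : ℕ} (hl : l ∈ Icc 1 r) (hz : ∀ v ∈ nT G c z, c v ≠ l)
    (hΔ : ec (Hm G c) + 2 * r ≤ ec (Xe G c) + 1) :
    ec (Hm G c) = 0 ∧ ec (Xe G c) = dT G c z + r := by
  have r3 := h.r3
  have hl' := mem_Icc.1 hl
  obtain ⟨o, o0, oz⟩ := h.other z
  have hI : ((Icc 1 r).erase l).card = r - 1 := by rw [card_erase_of_mem hl, Nat.card_Icc]; omega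
  have hex : ∀ B : Finset V, B.card ≤ 1 → ∀ i ∈ (Icc 1 r).erase l, ∃ v ∈ Out c l \ B, c v = i := by
    intro B hB i hi
    obtain ⟨hil, hi⟩ := mem_erase.1 hi
    have := h.ABk1_room hi
    obtain ⟨y, hy, hyB, -⟩ := exists_fresh (c := c) (i := i) ⊥ B (by rw [ec_bot]; omega)
    have := (mem_Icc.1 hi).1
    exact ⟨y, mem_sdiff.2 ⟨mem_Out.2 ⟨by omega, by omega⟩, hyB⟩, hy⟩
  obtain ⟨R, hR, Rc, R1, R2, R3⟩ := exists_reps c _ (hex ∅ (by simp))
  obtain ⟨b, hb⟩ : R.Nonempty := card_pos.1 (by omega)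
  obtain ⟨Y, hY, Yc, -, Y2, -⟩ := exists_reps c _ (hex {b} (by simp))
  have hRo : ∀ v ∈ R, c v ≠ 0 ∧ c v ≠ l := fun v hv => mem_Out.1 (mem_sdiff.1 (hR hv)).1
  have hoR : o ∉ R := fun hh => (hRo o hh).1 o0
  have hXc : (insert o R).card = r := by rw [card_insert_of_notMem hoR]; omega
  have hUc : (Out c l).card ≤ (Out c l \ {b}).card + 1 := by
    have := le_card_sdiff ({b} : Finset V) (Out c l)
    rw [card_singleton] at this
    omega
  have hcap := h.cap1 hl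
  have hav := h.avoid hl hz
  have key := h.big (H := ⊥) (o := o) (w := z) (U := Out c l \ {b}) (Y := Y) (X := insert o R)
    (σ := ec (Xe G c) - ec (Hm G c) - r) bot_le
    (fun v hv => (mem_Out.1 (mem_sdiff.1 hv).1).1) hY (by omega) (by omega) ?_
    (by rw [ec_bot]; omega) (by omega) (by omega) ?_ ?_
  · rw [ec_bot, hXc] at key
    exact ⟨key.1.symm, key.2⟩
  · intro S hYS hSU _
    have hS : ∀ v ∈ S, c v ≠ 0 ∧ c v ≠ l := fun v hv => mem_Out.1 (mem_sdiff.1 (hSU hv)).1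
    have ok : TgOK r c ⊥ o S z (insert o R) :=
      ⟨h.st.le, bot_le, o0, h.st.z0, oz, fun v hv => (hS v hv).1, fun v hv =>
        (mem_insert.1 hv).elim Or.inr fun hh => Or.inl (hRo v hh).1⟩
    refine ⟨ok, ok.freeB0 hl (fun v hv => (hS v hv).2) (fun v hv => ?_) (hRo b hb).1 (hRo b hb).2
      (fun hh => (mem_sdiff.1 (hSU hh)).2 (mem_singleton_self b)) fun v hv e => ?_,
      ok.nc2 h.ABk1_hb (mem_insert_self _ _) (l := l) (fun i hi hil => ?_) fun i hi hil => ?_⟩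
    · rcases mem_insert.1 hv with rfl | hv
      · omega
      · exact (hRo v hv).2
    · rcases mem_insert.1 hv with rfl | hv
      · exact absurd (e ▸ o0) (hRo b hb).1
      · exact R3 v hv b hb e
    · obtain ⟨v, hv, e⟩ := Y2 i (mem_erase.2 ⟨hil, hi⟩)
      exact ⟨v, hYS hv, e⟩
    · obtain ⟨v, hv, e⟩ := R2 i (mem_erase.2 ⟨hil, hi⟩)
      exact ⟨v, mem_insert_of_mem hv, e⟩
  · have : nT G c z \ (Out c l \ {b}) ⊆ {b} := fun v hv => by
      by_contra hn
      obtain ⟨h1, h2⟩ := mem_sdiff.1 hv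
      exact h2 (mem_sdiff.2 ⟨mem_Out.2 ⟨(mem_nT.1 h1).2, hz v h1⟩, hn⟩)
    have h1 := card_le_card this
    have h2 := h.rC
    rw [card_singleton] at h1
    rw [ec_bot, mul_add]
    omega
  · intro _ hk
    by_contra hn
    obtain ⟨w, -, hw⟩ := h.sees_noWw fun u v huv => hn ⟨u, v, huv⟩
    exact h.not_sees hC ht (hk ▸ ec_bot) w hw

omit hC in
theorem ABk1_fam {l : ℕ} (hl : l ∈ Icc 1 r) (hz : ∀ v ∈ nT G c z, c v ≠ l) {u : V} {X : Finset V}
    (ok : TgOK r c ⊥ z (nT G c z) u X) (e : G = Tg c ⊥ z (nT G c z) u X)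
    (hT : Trans r (Function.update c z l) X)
    (h0 : t = 0 → z ∈ X ∧ ∃ b ∈ X, c b ≠ 0 ∧ c b ≠ l ∧ b ∉ nT G c z ∧
      (∀ v ∈ X, c v ≠ 0 → v ∉ nT G c z → v = b) ∧ ∃ y ∈ nT G c z, c y = c b)
    (h1 : 1 ≤ t → z ∉ X ∧ ∀ v ∈ X, c v ≠ l → v ∉ nT G c z → ∀ y ∈ nT G c z, c y ≠ c v) :
    FamB r t G (Function.update c z l) := by
  have hl' := mem_Icc.1 hl
  have z0 := h.st.z0
  have up : ∀ v, c v ≠ 0 → Function.update c z l v = c v := fun v hv =>
    Function.update_of_ne (fun e : v = z => hv (e ▸ z0)) _ _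
  refine ⟨u, z, X, (Out c l \ nT G c z : Finset V), ?_, hT.1, fun v hv => ?_,
    fun i hi => (hT.pc_eq hi).ge, Or.inr (Or.inl ⟨h.mp_update ok e hl hz, ?_,
      fun i hi => hT.pc_eq hi, fun ht => ?_, fun ht => ?_⟩)⟩
  · rw [Function.update_of_ne ok.ow.symm]; exact ok.w0
  · have := mem_Out.1 (mem_sdiff.1 hv).1
    rw [up v this.1, Function.update_self]
    exact this
  · rw [Function.update_self]; omega
  · obtain ⟨hzX, b, b1, b2, b3, b4, b5, y, y1, y2⟩ := h0 ht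
    refine ⟨hzX, b, Set.eq_singleton_iff_unique_mem.2 ⟨⟨b1, ?_⟩, fun v hv => ?_⟩, y,
      fun hh => (mem_sdiff.1 hh).2 y1, ?_⟩
    · exact mem_coe.2 (mem_sdiff.2 ⟨mem_Out.2 ⟨b2, b3⟩, b4⟩)
    · have := mem_sdiff.1 hv.2
      exact b5 v hv.1 (mem_Out.1 this.1).1 this.2
    · rw [up y (mem_nT.1 y1).2, up b b2, y2]
  · obtain ⟨hzX, h2⟩ := h1 ht
    refine ⟨hzX, fun v hv y hy => ?_⟩
    obtain ⟨v1, v2⟩ := mem_sdiff.1 hv.2
    obtain ⟨v0, vl⟩ := mem_Out.1 v1
    rw [up v v0] at hy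
    have yz : y ≠ z := fun e => vl (by rw [← hy, e, Function.update_self])
    rw [Function.update_of_ne yz] at hy
    exact mem_coe.2 (mem_sdiff.2 ⟨mem_Out.2 ⟨hy ▸ v0, hy ▸ vl⟩, fun hh => h2 v hv.1 vl v2 y hh hy⟩)

theorem book_avoid0 (ht : t = 0) {l : ℕ} (hl : l ∈ Icc 1 r) (hz : ∀ v ∈ nT G c z, c v ≠ l)
    (hΔ : ec (Hm G c) + 2 * r ≤ ec (Xe G c) + 1) : ∃ c', FamB r t G c' ∧ NI G c' := by
  obtain ⟨hk, hE⟩ := h.ABk1_big0 hC ht hl hz hΔ
  obtain ⟨u, X, ok, e, hT, hlast⟩ := h.avoid_eq hl hz hE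
  have hb := ec_eq_zero.1 hk
  rw [hb] at ok e
  have hl' := mem_Icc.1 hl
  have z0 := h.st.z0
  have up : ∀ v, v ≠ z → Function.update c z l v = c v := fun v hv =>
    Function.update_of_ne hv _ _
  have hzX : z ∈ X := by
    by_contra hn
    refine h.not_sees hC ht hk u fun i hi => ?_
    obtain ⟨v, hv, hi⟩ := (ABk1_trans hT hn).2.1 i hi
    exact ⟨v, hi, ABk1_adjX ok e hv⟩
  have X0 : ∀ v ∈ X, v ≠ z → c v ≠ 0 := fun v hv hn => up v hn ▸ hT.1 v hv
  have Xl : ∀ v ∈ X, c v ≠ l := fun v hv hh => by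
    have hn : v ≠ z := fun e => by rw [e] at hh; omega
    exact hn (hT.2.2 v hv z hzX (by rw [up v hn, Function.update_self, hh]))
  have Xi : ∀ v ∈ X, ∀ v' ∈ X, c v' ≠ 0 → c v = c v' → v = v' := fun v hv v' hv' h0 hh =>
    hT.2.2 v hv v' hv' (by
      rw [up v fun e => h0 (by rw [← hh, e, z0]), up v' fun e => h0 (by rw [e, z0]), hh])
  obtain ⟨b, b1, b2, b3⟩ : ∃ b ∈ X, b ≠ z ∧ b ∉ nT G c z := by
    by_contra hn
    have hn' : ∀ b ∈ X, b ≠ z → G.Adj z b := fun b h1 h2 => by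
      by_contra h3
      exact hn ⟨b, h1, h2, fun h4 => h3 (mem_nT.1 h4).1⟩
    have : Nonempty V := ⟨u⟩
    choose! y hy using hT.2.1
    subst ht
    refine ABk1_clique h.ex.fr (y := y) (w := u) (fun i hi j hj hij => ?_) fun i hi =>
      ABk1_adjX ok e (hy i hi).1
    have hne : y i ≠ y j := fun e => hij (by rw [← (hy i hi).2, e, (hy j hj).2])
    by_cases h1 : y i = z
    · rw [h1] at hne ⊢
      exact hn' _ (hy j hj).1 hne.symm
    by_cases h2 : y j = z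
    · rw [h2]
      exact (hn' _ (hy i hi).1 h1).symm
    refine ABk1_adj hb ⟨X0 _ (hy i hi).1 h1, X0 _ (hy j hj).1 h2, fun hh => hne ?_⟩
    exact Xi _ (hy i hi).1 _ (hy j hj).1 (X0 _ (hy j hj).1 h2) hh
  have b0 := X0 b b1 b2
  obtain ⟨y, y1, y2⟩ := hlast hzX _ (h.ABk1_mem b0) (Xl b b1)
  refine ⟨_, h.ABk1_fam hl hz ok e hT (fun _ => ⟨hzX, b, b1, b0, Xl b b1, b3, fun v v1 v0 v3 => ?_,
    y, y1, y2⟩) fun h1 => by omega, h.ni_update l (mem_nT.1 y1).1⟩
  by_contra hvb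
  have yX : y ∉ X := fun hh => b3 (Xi y hh b b1 b0 y2 ▸ y1)
  have ok' : TgOK r c ⊥ z (nT G c z) u (insert y (X.erase b)) :=
    ⟨ok.le, ok.hH, ok.o0, ok.w0, ok.ow, ok.hS, fun a ha => (mem_insert.1 ha).elim
      (fun e => Or.inl (e ▸ (mem_nT.1 y1).2)) fun hh => ok.hX a (mem_of_mem_erase hh)⟩
  refine h.ex.switch h.st.eig ok e b1 yX ⟨ok', ok'.freeB0 hl hz (fun a ha => ?_) v0 (Xl v v1) v3
    fun a ha hh => ?_, ok'.nc2 h.ABk1_hb (mem_insert_of_mem (mem_erase.2 ⟨b2.symm, hzX⟩))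
      (hlast hzX) fun i hi hil => ?_⟩
    (h.le_of_bot ok e (h.st.zmax u ok.w0) b0 y2 b3 y1) (h.ABk1_pos (ABk1_adjX ok e b1) b0)
  · rcases mem_insert.1 ha with rfl | ha
    · exact hz a y1
    · exact Xl a (mem_of_mem_erase ha)
  · rcases mem_insert.1 ha with rfl | ha
    · exact absurd (Xi v v1 b b1 b0 (hh.symm.trans y2)) hvb
    · exact Xi a (mem_of_mem_erase ha) v v1 v0 hh
  · obtain ⟨a, ha, hai⟩ := hT.2.1 i hi
    have az : a ≠ z := fun e => hil (by rw [← hai, e, Function.update_self])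
    rw [up a az] at hai
    by_cases hab : a = b
    · exact ⟨y, mem_insert_self _ _, by rw [y2, ← hab, hai]⟩
    · exact ⟨a, mem_insert_of_mem (mem_erase.2 ⟨hab, ha⟩), hai⟩

omit hC in
theorem ABk1_adm (ht : 1 ≤ t) {l : ℕ} (hl : l ∈ Icc 1 r) {o w : V} (ho : c o = 0) (hw : c w = 0)
    (how : o ≠ w) {S X : Finset V} (hS : S ⊆ Out c l) (hT : Trans r c X) :
    Adm r (fun G : SimpleGraph V => NoBook G r t) c ⊥ o S w X :=
  admB1 ht h.st.le bot_le h.ABk1_hb ho hw how hl hS hT.1 hT.2.1 fun i => (hT.filter_le i).trans ht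

theorem book_avoid1 (ht : 1 ≤ t) {l : ℕ} (hl : l ∈ Icc 1 r) (hz : ∀ v ∈ nT G c z, c v ≠ l)
    (hΔ : ec (Hm G c) + r ≤ ec (Xe G c)) : ∃ c', FamB r t G c' ∧ NI G c' := by
  have _ := hC
  have r3 := h.r3
  have hl' := mem_Icc.1 hl
  have z0 := h.st.z0
  have hzO : nT G c z ⊆ Out c l := fun v hv => mem_Out.2 ⟨(mem_nT.1 hv).2, hz v hv⟩
  obtain ⟨hk, hE⟩ : ec (Hm G c) = 0 ∧ ec (Xe G c) = dT G c z + r := by
    obtain ⟨o, o0, oz⟩ := h.other z
    obtain ⟨X, hT, -, -⟩ := exists_trans h.st.le (Y := ∅) ∅ (by simp) (by simp) fun i hi => by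
      have := h.ABk1_room hi
      rw [card_empty]; omega
    have hXc := hT.card h.st.le
    have hcap := h.cap1 hl
    have hav := h.avoid hl hz
    have key := h.big (H := ⊥) (o := o) (w := z) (U := Out c l) (Y := ∅) (X := X)
      (σ := ec (Xe G c) - ec (Hm G c) - r) bot_le (fun v hv => (mem_Out.1 hv).1) (empty_subset _)
      (by simp) (by omega) (fun S _ hS _ => h.ABk1_adm ht hl o0 z0 oz hS hT)
      (by rw [ec_bot]; omega) (by omega) (by omega)
      (by rw [sdiff_eq_empty_iff_subset.2 hzO, ec_bot]; simp) fun hh => absurd o0 (hT.1 o hh)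
    rw [ec_bot, hXc] at key
    exact ⟨key.1.symm, key.2⟩
  obtain ⟨u, X, ok, e, hT, -⟩ := h.avoid_eq hl hz hE
  rw [ec_eq_zero.1 hk] at ok e
  have hu : 0 < x u := by
    obtain ⟨i, hi, hil⟩ : ∃ i ∈ Icc 1 r, i ≠ l := by
      by_cases h1 : l = 1
      · exact ⟨2, mem_Icc.2 ⟨by omega, by omega⟩, by omega⟩
      · exact ⟨1, mem_Icc.2 ⟨by omega, by omega⟩, by omega⟩
    obtain ⟨a, ha, hai⟩ := hT.2.1 i hi
    have az : a ≠ z := fun e => hil (by rw [← hai, e, Function.update_self])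
    exact h.ABk1_pos (ABk1_adjX ok e ha) ((ok.hX a ha).resolve_right az)
  have hzX : z ∉ X := fun hzX => by
    have := h.ABk1_room hl
    obtain ⟨y, hy, -, -⟩ := exists_fresh (c := c) (i := l) ⊥ ∅ (by rw [ec_bot, card_empty]; omega)
    have yz : y ≠ z := fun e => by rw [e] at hy; omega
    have e1 : Function.update c z l y = Function.update c z l z := by
      rw [Function.update_of_ne yz, Function.update_self, hy]
    refine h.ex.switch h.st.eig ok e hzX (fun hh => yz (hT.2.2 y hh z hzX e1))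
      (h.ABk1_adm ht hl z0 ok.w0 ok.ow hzO (ABk1_trans (hT.switch hzX e1) fun hh => ?_))
      (h.xz_lt (by omega)).le hu
    rcases mem_insert.1 hh with h1 | h1
    · exact yz h1.symm
    · exact (mem_erase.1 h1).1 rfl
  have hT' := ABk1_trans hT hzX
  rcases (nT G c z).eq_empty_or_nonempty with hd | ⟨y, hy⟩
  · have hm := h.mp ok e
    rw [hd, coe_empty, SimpleGraph.edgeSet_bot] at hm
    obtain ⟨a, ha, -⟩ := hT'.2.1 l hl
    exact ⟨c, ⟨u, z, X, ∅, ok.w0, hT'.1, by simp, fun i hi => (hT'.pc_eq hi).ge,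
      Or.inr (Or.inr ⟨hm, ht, z0, fun i hi => (hT'.pc_eq hi).le.trans ht, by simp,
        fun hh => hh ha, fun hh => absurd hh Set.not_nonempty_empty⟩)⟩, h.ni⟩
  · refine ⟨_, h.ABk1_fam hl hz ok e hT (fun h0 => by omega) fun _ =>
      ⟨hzX, fun v v1 _ v3 a a1 a2 => ?_⟩, h.ni_update l (mem_nT.1 hy).1⟩
    exact h.ex.switch h.st.eig ok e v1 (fun hh => v3 (hT'.2.2 a hh v v1 a2 ▸ a1))
      (h.ABk1_adm ht hl z0 ok.w0 ok.ow hzO (hT'.switch v1 a2))
      (h.le_of_bot ok e (h.st.zmax u ok.w0) (hT'.1 v v1) a2 v3 a1) hu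

end Ctx

end Pool.Agent.P.MP_094db5_co

end
end

section

/-! Books: the vertex of largest weight sees all parts. -/

set_option autoImplicit false

open Finset Classical

noncomputable section

namespace Pool.Agent.P.MP_094db5_co

variable {V : Type} [Fintype V] {r t C : ℕ} {G : SimpleGraph V} {x : V → ℝ} {η : ℝ} {c : V → ℕ}
  {z : V}

namespace Ctx

variable (h : Ctx r C (fun G : SimpleGraph V => NoBook G r t) G x η c z) (hC : 4 * r * (t + 1) ≤ C)
include h hC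

/-- the first type -/
theorem book_typeA {u a b : V} (hu : c u = 0) (hE : ec (Xe G c) ≤ dT G c u)
    (hk : ec (Hm G c) = 1) (ha : a ∈ nT G c u) (hb : b ∈ nT G c u) (hab : (Hm G c).Adj a b)
    (hp : ((nT G c u).filter fun v => c v = c a).card *
      ((nT G c u).filter fun v => c v = c b).card ≤ 1) : FamB r t G c := by
  obtain ⟨o, ok, e, hs, -⟩ := h.one hu hE
  have hH : Hm G c = Sg a {b} := eq_Sg_of_ec (by simpa using hab) (by simp [hk])
  rw [hH] at ok e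
  have A : 0 < ((nT G c u).filter fun v => c v = c a).card := card_pos.2 ⟨a, mem_filter.2 ⟨ha, rfl⟩⟩
  have B : 0 < ((nT G c u).filter fun v => c v = c b).card := card_pos.2 ⟨b, mem_filter.2 ⟨hb, rfl⟩⟩
  refine ⟨u, a, nT G c u, {b}, hu, fun v hv => (mem_nT.1 hv).2, ?_, fun i hi => ?_, Or.inl
    ⟨by simpa using h.mp_star' ok (by simpa using hab.ne) e, ha, b, hb, rfl, ?_, ?_⟩⟩
  · rintro v rfl
    exact ⟨hab.1.2.1, hab.1.2.2.symm⟩
  · obtain ⟨y, rfl, hy⟩ := hs i hi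
    exact one_le_pc ⟨y, mem_nT.2 ⟨hy, by have := mem_Icc.1 hi; omega⟩, rfl⟩
  · rw [pc_coe]; nlinarith only [hp, A, B]
  · rw [pc_coe]; nlinarith only [hp, A, B]

theorem book_pair (hz : Sees G r c z) (hΔ : ec (Hm G c) + r ≤ ec (Xe G c)) {a b : V}
    (ha : a ∈ nT G c z) (hb : b ∈ nT G c z) (hab : (Hm G c).Adj a b)
    (hp : ((nT G c z).filter fun v => c v = c a).card *
      ((nT G c z).filter fun v => c v = c b).card ≤ ec (Hm G c)) : FamB r t G c := by
  have r3 := h.r3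
  have e1 : ec (Sg a {b}) = 1 := by rw [ec_Sg (by simpa using hab.ne), card_singleton]
  have hH : Sg a {b} ≤ Hm G c := Sg_le (by simpa using hab)
  have k1 := ec_mono hH
  have C4 : 4 * r ≤ C := by nlinarith only [hC]
  obtain ⟨w, w0, wz⟩ := h.other z
  obtain ⟨a0, b0, ab⟩ := hab.1
  obtain ⟨Y, tY, hY, -⟩ := exists_trans h.st.le (Y := {a, b}) ∅ (by simp [a0, b0])
    (by simp [ab, ab.symm]) fun i hi => by have := h.room hi; simp; omega
  have aY : a ∈ Y := hY (by simp)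
  have bY : b ∈ Y := hY (by simp)
  have hU : ∀ v ∈ {a, b} ∪ (Out c (c a) ∩ Out c (c b)), c v ≠ 0 ∧ (c v = c a → v = a) ∧
      (c v = c b → v = b) := fun v hv => by
    simp only [mem_union, mem_insert, mem_singleton, mem_inter, mem_Out] at hv
    grind
  have A : 0 < ((nT G c z).filter fun v => c v = c a).card := card_pos.2 ⟨a, mem_filter.2 ⟨ha, rfl⟩⟩
  have B : 0 < ((nT G c z).filter fun v => c v = c b).card := card_pos.2 ⟨b, mem_filter.2 ⟨hb, rfl⟩⟩
  have le : (nT G c z \ ({a, b} ∪ (Out c (c a) ∩ Out c (c b)))).card ≤ ec (Hm G c) + 1 := by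
    refine ((card_le_card fun v hv => ?_).trans (card_union_le
      ((nT G c z).filter fun v => c v = c a) ((nT G c z).filter fun v => c v = c b))).trans ?_
    · simp only [mem_sdiff, mem_union, mem_inter, mem_Out, mem_filter, mem_nT] at hv ⊢
      tauto
    · obtain ⟨A, hA⟩ := Nat.exists_eq_add_of_lt A
      obtain ⟨B, hB⟩ := Nat.exists_eq_add_of_lt B
      rw [hA, hB] at hp ⊢
      nlinarith only [Nat.zero_le (A * B), hp]
  have yc := tY.card h.st.le
  obtain ⟨q1, q2⟩ := h.big (o := z) (w := w) (X := ∅) (Y := Y) (σ := ec (Xe G c) + 1 - ec (Hm G c))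
    hH (fun v hv => (hU v hv).1) (fun v hv => by
      have := tY.1 v hv
      have := tY.2.2 v hv a aY
      have := tY.2.2 v hv b bY
      simp only [mem_union, mem_insert, mem_singleton, mem_inter, mem_Out]
      tauto) (by omega)
    (((Nat.sub_le _ _).trans (h.cap2 (mem_Icc.2 ⟨by omega, h.st.le a⟩)
      (mem_Icc.2 ⟨by omega, h.st.le b⟩) ab)).trans (card_le_card subset_union_right))
    (fun S h1 h2 _ => (admA h.st.le (hH.trans (Hm_le G c))
      (fun i hi => by have := h.room hi; omega) w0 h.st.z0 wz (fun v hv => (hU v (h2 hv)).1)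
      (fun i hi => (tY.2.1 i hi).imp fun v hv => ⟨h1 hv.1, hv.2⟩) (a := a) (b := b)
      ⟨hab.ne, by simp⟩ (fun v hv => (hU v (h2 hv)).2.1) fun v hv => (hU v (h2 hv)).2.2).swap
        fun hw => (hU w (h2 hw)).1 w0)
    (by rw [card_empty]; omega) (by simpa using h.dT_le) (by simp) (by rw [e1, yc]; nlinarith only [r3, e1, k1, C4, le])
    (by simp)
  exact h.book_typeA hC h.st.z0 (by simpa using q2.le) (by omega) ha hb hab (by omega)

/-- either there is a small pair or the degree is small -/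
theorem book_alt {u : V} (hu : Sees G r c u) :
    (∃ a ∈ nT G c u, ∃ b ∈ nT G c u, (Hm G c).Adj a b ∧
      ((nT G c u).filter fun v => c v = c a).card *
        ((nT G c u).filter fun v => c v = c b).card ≤ ec (Hm G c)) ∨
    1 ≤ t ∧ ∀ i ∈ Icc 1 r, ((nT G c u).filter fun v => c v = i).card ≤ ec (Hm G c) + t := by
  have r3 := h.r3
  have hs : ∀ i ∈ Icc 1 r, ∃ v ∈ nT G c u, c v = i := fun i hi => by
    obtain ⟨y, rfl, hy⟩ := hu i hi
    exact ⟨y, mem_nT.2 ⟨hy, by have := mem_Icc.1 hi; omega⟩, rfl⟩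
  rcases Nat.eq_zero_or_pos t with rfl | ht
  · refine Or.inl (exists_small_pair (I := Icc 1 r) (by simp) hs fun K hK _ hc => ?_)
    simpa using h.ex.fr K (by simpa using hc) {u} (by simpa using fun v hv => (mem_nT.1 (hK hv)).1.symm)
  refine or_iff_not_imp_right.2 fun hn => ?_
  obtain ⟨i, hi, hlt⟩ : ∃ i ∈ Icc 1 r, ec (Hm G c) + t < ((nT G c u).filter fun v => c v = i).card := by
    by_contra h'
    exact hn ⟨ht, fun i hi => not_lt.1 fun h'' => h' ⟨i, hi, h''⟩⟩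
  refine exists_small_pair (I := (Icc 1 r).erase i) (by simp)
    (fun j hj => hs j (mem_of_mem_erase hj)) fun K hK hl hc => ?_
  have hc' := hc.insert fun v hv => (mem_nT.1 (hK hv)).1
  rw [card_erase_add_one hi, Nat.card_Icc, Nat.add_sub_cancel] at hc'
  set P := (nT G c u).filter fun v => c v = i with hP
  have t1 := h.ex.fr _ hc' (P.filter fun v => ∀ w ∈ K, G.Adj w v) fun v hv w hw => by
    rcases mem_insert.1 hw with rfl | hw
    · exact (mem_nT.1 (mem_filter.1 (mem_filter.1 hv).1).1).1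
    · exact (mem_filter.1 hv).2 w hw
  have t2 : (P.filter fun v => ¬ ∀ w ∈ K, G.Adj w v).card ≤ ec (Hm G c) := by
    have : ∀ v, ∃ w, (¬ ∀ w ∈ K, G.Adj w v) → w ∈ K ∧ ¬ G.Adj w v := fun v => by
      by_cases hv : ∀ w ∈ K, G.Adj w v
      · exact ⟨v, fun h => absurd hv h⟩
      · push Not at hv
        exact hv.imp fun _ h _ => h
    choose f hf using this
    have q : ∀ v ∈ P.filter fun v => ¬ ∀ w ∈ K, G.Adj w v, c v = i ∧ c (f v) ≠ i ∧
        (Hm G c).Adj (f v) v := fun v hv => by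
      obtain ⟨h1, h2⟩ := mem_filter.1 hv
      obtain ⟨h1, h3⟩ := mem_filter.1 h1
      have h4 := (mem_erase.1 (hl _ (hf v h2).1)).1
      exact ⟨h3, h4, ⟨(mem_nT.1 (hK (hf v h2).1)).2, (mem_nT.1 h1).2, h3 ▸ h4⟩, (hf v h2).2⟩
    rw [← Set.ncard_coe_finset]
    refine Set.ncard_le_ncard_of_injOn (fun v => s(f v, v)) (fun v hv => (q v hv).2.2)
      (fun v hv v' hv' e => ?_) (Set.toFinite _)
    rcases Sym2.eq_iff.1 e with e | e
    · exact e.2
    · exact absurd (e.1 ▸ (q v' hv').1) (q v hv).2.1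
  have := card_filter_add_card_filter_not (s := P) fun v => ∀ w ∈ K, G.Adj w v
  omega

theorem ABk2_adm (ht : 1 ≤ t) : ∃ Y, Trans r c Y ∧ (∀ X, Y ⊆ X → (∀ v ∈ X, c v ≠ 0) →
    (∀ i, (X.filter fun v => c v = i).card ≤ t) → ∃ w, c w = 0 ∧ ∀ S ⊆ Out c 1,
      Adm r (fun G : SimpleGraph V => NoBook G r t) c ⊥ z S w X) ∧
    ∃ U, Y ⊆ U ∧ (∀ v ∈ U, c v ≠ 0) ∧ U.card = r * t ∧
      ∀ i, (U.filter fun v => c v = i).card ≤ t := by
  have r3 := h.r3
  have : t < C := by nlinarith only [hC, ht, r3]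
  obtain ⟨Y, tY, -⟩ := exists_trans h.st.le (Y := ∅) ∅ (by simp) (by simp)
    fun i hi => by have := h.room hi; simp; omega
  obtain ⟨w, w0, wz⟩ := h.other z
  exact ⟨Y, tY, fun X h1 h2 h3 => ⟨w, w0, fun S hS => admB1 ht h.st.le bot_le
    (fun i hi => by have := h.room hi; rw [ec_bot]; omega) h.st.z0 w0 wz.symm
    (mem_Icc.2 ⟨le_rfl, by omega⟩) hS h2 (fun i hi => (tY.2.1 i hi).imp fun v hv => ⟨h1 hv.1, hv.2⟩)
    h3⟩, exists_full h.st.le tY.1 (fun i => (tY.filter_le i).trans ht)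
      fun i hi => by have := h.room hi; omega⟩

theorem ABk2_big (ht : 1 ≤ t) (hΔ : ec (Hm G c) + r ≤ ec (Xe G c))
    (hj : dT G c z + r ≤ ec (Xe G c)) (hd : dT G c z ≤ C * (1 + ec (Hm G c))) :
    ec (Hm G c) = 0 ∧ ec (Xe G c) = dT G c z + r := by
  have r3 := h.r3
  obtain ⟨X, tX, ad, -⟩ := h.ABk2_adm hC ht
  obtain ⟨w, w0, ad⟩ := ad X Subset.rfl tX.1 fun i => (tX.filter_le i).trans ht
  have xc := tX.card h.st.le
  have cap := h.cap1 (l := 1) (mem_Icc.2 ⟨le_rfl, by omega⟩)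
  have := h.big (Y := ∅) (U := Out c 1) (σ := ec (Xe G c) - ec (Hm G c) - r) bot_le
    (fun v hv => (mem_Out.1 hv).1) (empty_subset _) (by simp) (by omega) (fun S _ h2 _ => ad S h2)
    (by rw [ec_bot]; omega) (by omega) xc.le
    (by rw [ec_bot]; simpa using (card_le_card sdiff_subset).trans hd)
    fun hz => absurd h.st.z0 (tX.1 z hz)
  rw [ec_bot, xc] at this
  exact ⟨this.1.symm, this.2⟩

theorem book_none (ht : 1 ≤ t) (hΔ : ec (Hm G c) + r ≤ ec (Xe G c)) (hk : 1 ≤ ec (Hm G c))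
    (hd : dT G c z ≤ r * (ec (Hm G c) + t)) : False := by
  have r3 := h.r3
  obtain ⟨X, tX, ad, -⟩ := h.ABk2_adm hC ht
  obtain ⟨w, w0, ad⟩ := ad X Subset.rfl tX.1 fun i => (tX.filter_le i).trans ht
  have xc := tX.card h.st.le
  have cap := h.cap1 (l := 1) (mem_Icc.2 ⟨le_rfl, by omega⟩)
  by_cases hj : dT G c z + r ≤ ec (Xe G c)
  · have := (h.ABk2_big hC ht hΔ hj (hd.trans (by nlinarith only [h.rC, hC, ht, r3]))).1
    omega
  · obtain ⟨S, h1, h2⟩ := exists_subset_card_eq (s := Out c 1) (n := ec (Xe G c) - ec (Hm G c) - r)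
      (by omega)
    refine h.kmin (ad S h1) (by rw [ec_bot]; omega) (by rw [ec_bot]; omega) ?_
      (by rw [bot_sdiff, ec_bot]; omega)
    have : r * (t + 1) ≤ r * (t + 1) * ec (Hm G c) := Nat.le_mul_of_pos_right _ hk
    have : 4 * r * (t + 1) * ec (Hm G c) ≤ C * ec (Hm G c) := Nat.mul_le_mul_right _ hC
    rw [ec_bot]
    nlinarith [Nat.zero_le (r * t * ec (Hm G c))]

theorem book_typeC (ht : 1 ≤ t) (hz : Sees G r c z) (hk : ec (Hm G c) = 0)
    (hd : ∀ i ∈ Icc 1 r, ((nT G c z).filter fun v => c v = i).card ≤ t) : FamB r t G c := by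
  have r3 := h.r3
  have hH := ec_eq_zero.1 hk
  have Eg := h.E_ge
  obtain ⟨d1, d2⟩ := card_le_of_parts h.st.le (fun v hv => (mem_nT.1 hv).2) hd
  have rt : r ≤ r * t := Nat.le_mul_of_pos_right _ ht
  have hC' : 4 * (r * t) + 4 * r ≤ C := by nlinarith only [hC]
  have hs : ∀ i ∈ Icc 1 r, ∃ v ∈ nT G c z, c v = i := fun i hi => by
    obtain ⟨y, rfl, hy⟩ := hz i hi
    exact ⟨y, mem_nT.2 ⟨hy, by have := mem_Icc.1 hi; omega⟩, rfl⟩
  have dz : dT G c z ≤ r * t := d1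
  have hE : ec (Xe G c) ≤ r * t + r := by
    by_contra hn
    have := (h.ABk2_big hC ht (by omega) (by omega) (by rw [hk]; omega)).2
    omega
  obtain ⟨Y, tY, ad, U, YU, U0, Uc, Ut⟩ := h.ABk2_adm hC ht
  have sm : ∑ u ∈ Vp c 0, dT G c u ≤ ec (Xe G c) := by rw [ec_Xe]; omega
  by_cases hE' : ec (Xe G c) ≤ r * t
  · obtain ⟨X, h1, h2, h3⟩ := exists_subsuperset_card_eq YU (n := ec (Xe G c))
      (by rwa [tY.card h.st.le]) (by omega)
    obtain ⟨w, w0, ad⟩ := ad X h1 (fun v hv => U0 v (h2 hv)) fun i =>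
      (card_le_card (filter_subset_filter _ h2)).trans (Ut i)
    have := h.squares (hH ▸ ad ∅ (empty_subset _)) (by simpa) (by omega)
    rw [erase_eq_of_notMem fun hz => U0 z (h2 hz) h.st.z0, h3] at this
    obtain ⟨u, hu, du⟩ := sq_one (by omega) sm (by simpa [D2] using this)
    obtain ⟨o, ok, e, -, -⟩ := h.one h.st.z0 (du ▸ h.dT_le_z (by omega) (mem_Vp.1 hu))
    obtain ⟨v, hv, -⟩ := hs 1 (mem_Icc.2 ⟨le_rfl, by omega⟩)
    exact ⟨z, o, nT G c z, ∅, h.st.z0, fun v hv => (mem_nT.1 hv).2, by simp,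
      fun i hi => one_le_pc (hs i hi), Or.inr (Or.inr ⟨by simpa [hH] using h.mp ok e, ht, ok.o0,
        fun i hi => by rw [pc_coe]; exact hd i hi, by simp, fun h => h hv, by simp⟩)⟩
  obtain ⟨w, w0, ad⟩ := ad U YU U0 Ut
  have cap := h.cap1 (l := 1) (mem_Icc.2 ⟨le_rfl, by omega⟩)
  obtain ⟨S, h1, h2⟩ := exists_subset_card_eq (s := Out c 1) (n := ec (Xe G c) - r * t) (by omega)
  have := h.squares (hH ▸ ad S h1) (by omega) (by omega)
  rw [erase_eq_of_notMem fun hz => U0 z hz h.st.z0, h2, Uc, add_comm] at this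
  obtain ⟨dz', u, hu, uz, du⟩ := sq_two (d := dT G c) (m := r * t) (e := ec (Xe G c) - r * t)
    (mem_Vp.2 h.st.z0) (by omega) (by omega) (by omega)
    (fun u hu => h.dT_le_z (by omega) (mem_Vp.1 hu)) dz this
  obtain ⟨ok, e⟩ := h.two (mem_Vp.1 hu) h.st.z0 uz (by omega)
  refine ⟨z, u, nT G c z, nT G c u, h.st.z0, fun v hv => (mem_nT.1 hv).2,
    fun v hv => ⟨(mem_nT.1 hv).2, ok.o0 ▸ (mem_nT.1 hv).2⟩, fun i hi => one_le_pc (hs i hi),
    Or.inr (Or.inr ⟨by simpa [hH] using h.mp ok e, ht, ok.o0,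
      fun i hi => by rw [pc_coe]; exact hd i hi, ?_, fun hs' => ?_,
      fun _ => ⟨uz, fun i hi => by rw [pc_coe]; exact d2 dz' i hi⟩⟩)⟩
  · rw [Set.ncard_coe_finset]
    exact du.le.trans (by omega)
  · have : dT G c z ≤ dT G c u := card_le_card hs'
    have : Nonempty V := ⟨z⟩
    choose! f f1 f2 using hs
    have cl := clique_image (G := G) (I := Icc 1 r) (z := f) fun i hi j hj ij => by
      by_contra hn
      exact (hH ▸ Hm_adj.2 ⟨⟨(mem_nT.1 (f1 i hi)).2, (mem_nT.1 (f1 j hj)).2,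
        by rwa [f2 i hi, f2 j hj]⟩, hn⟩ : (⊥ : SimpleGraph V).Adj (f i) (f j))
    have := h.ex.fr _ (by simpa using cl) {u, z} fun v hv y hy => by
      obtain ⟨i, hi, rfl⟩ := mem_image.1 hy
      rcases mem_insert.1 hv with rfl | hv
      · exact (mem_nT.1 (hs' (f1 i hi))).1.symm
      · exact mem_singleton.1 hv ▸ (mem_nT.1 (f1 i hi)).1.symm
    rw [card_pair uz] at this
    have := Nat.mul_le_mul_left r this
    omega

theorem book_sees (hz : Sees G r c z) (hΔ : ec (Hm G c) + r ≤ ec (Xe G c)) : FamB r t G c := by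
  rcases h.book_alt hC hz with ⟨a, ha, b, hb, h1, h2⟩ | ⟨ht, h1⟩
  · exact h.book_pair hC hz hΔ ha hb h1 h2
  · rcases Nat.eq_zero_or_pos (ec (Hm G c)) with hk | hk
    · exact h.book_typeC hC ht hz hk (by simpa [hk] using h1)
    · exact (h.book_none hC ht hΔ hk
        (card_le_of_parts h.st.le (fun v hv => (mem_nT.1 hv).2) h1).1).elim

end Ctx

end Pool.Agent.P.MP_094db5_co

end
end

section

/-! Books: few outer edges, and the main structure theorem. -/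

set_option autoImplicit false

open Finset Classical

noncomputable section

namespace Pool.Agent.P.MP_094db5_co

variable {V : Type} [Fintype V] {r t C : ℕ} {G : SimpleGraph V} {x : V → ℝ} {η : ℝ} {c : V → ℕ}
  {z : V}

theorem ABk3_adm {H : SimpleGraph V} {o w a b : V} {X : Finset V} (hc : ∀ v, c v ≤ r)
    (hH : H ≤ Kc c) (hb : ∀ i ∈ Icc 1 r, 2 * ec H < cn c i) (ho : c o = 0) (hw : c w = 0)
    (how : o ≠ w) (hX : Trans r c X) (hab : H.Adj a b) (ha : a ∈ X) (hb' : b ∈ X) :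
    Adm r (fun G : SimpleGraph V => NoBook G r t) c H o ∅ w X :=
  admA hc hH hb ho hw how hX.1 hX.2.1 hab (fun v hv e => hX.2.2 v hv a ha e)
    fun v hv e => hX.2.2 v hv b hb' e

omit [Fintype V] in
theorem ABk3_le {H : SimpleGraph V} {a b : V} (h : H.Adj a b) : Sg a {b} ≤ H :=
  Sg_le fun v hv => by rwa [mem_singleton.1 hv]

omit [Fintype V] in
theorem ABk3_adj {a b : V} {D : Finset V} (h : a ≠ b) (hb : b ∈ D) : (Sg a D).Adj a b :=
  ⟨h, Or.inl ⟨rfl, hb⟩⟩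

theorem ABk3_ec {a b : V} (h : a ≠ b) : ec (Sg a {b}) = 1 := by
  rw [ec_Sg (by simpa using h), card_singleton]

omit [Fintype V] in
theorem ABk3_sdiff {H H' : SimpleGraph V} (h : H ≤ H') : ec (H \ H') ≤ r := by
  rw [sdiff_eq_bot_iff.2 h, ec_bot]
  exact Nat.zero_le _

theorem ABk3_sum (G : SimpleGraph V) (c : V → ℕ) : ∑ u ∈ Vp c 0, dT G c u ≤ ec (Xe G c) := by
  rw [ec_Xe]
  exact Nat.le_add_right _ _

namespace Ctx

theorem ABk3_room {Fr : SimpleGraph V → Prop} (h : Ctx r C Fr G x η c z) {n : ℕ}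
    (hn : n ≤ ec (Hm G c)) : ∀ i ∈ Icc 1 r, 2 * n < cn c i := fun i hi => by
  have := h.room hi
  have := h.r3
  have := h.rC
  omega

theorem ABk3_trans {Fr : SimpleGraph V → Prop} (h : Ctx r C Fr G x η c z) {a b : V}
    (hab : cross c a b) : ∃ X, Trans r c X ∧ a ∈ X ∧ b ∈ X := by
  obtain ⟨X, h1, h2, -⟩ := exists_trans h.st.le (Y := {a, b}) ∅
    (fun v hv => by
      rcases mem_insert.1 hv with rfl | hv
      exacts [hab.1, mem_singleton.1 hv ▸ hab.2.1])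
    (fun u hu v hv e => by
      have := hab.2.2
      simp only [mem_insert, mem_singleton] at hu hv
      grind)
    (fun i hi => h.ABk3_room (Nat.zero_le _) i hi)
  exact ⟨X, h1, h2 (by simp), h2 (by simp)⟩

variable (h : Ctx r C (fun G : SimpleGraph V => NoBook G r t) G x η c z) (hC : 4 * r * (t + 1) ≤ C)
include h hC

theorem book_E (hΔ : ec (Xe G c) < ec (Hm G c) + r) : ec (Xe G c) = r := by
  have h1 := h.E_ge
  by_contra hne
  obtain ⟨a, b, hab⟩ := exists_adj_of_ec (H := Hm G c) (by omega)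
  obtain ⟨X, hX, ha, hb⟩ := h.ABk3_trans hab.1
  obtain ⟨o, ho, hoz⟩ := h.other z
  obtain ⟨H, h2, h3, h4⟩ := exists_between (ABk3_le hab) (n := ec (Hm G c) + r - ec (Xe G c))
    (by rw [ABk3_ec hab.ne]; omega) (by omega)
  have h5 := hX.card h.st.le
  refine h.kmin (ABk3_adm h.st.le (h3.trans (Hm_le G c)) (h.ABk3_room (ec_mono h3)) ho h.st.z0 hoz
    hX (h2 (ABk3_adj hab.ne (by simp))) ha hb) (by rw [card_empty]; omega) (by omega) ?_
    (ABk3_sdiff h3)
  obtain ⟨d, hd⟩ : ∃ d, ec (Xe G c) = r + (d + 1) := ⟨ec (Xe G c) - r - 1, by omega⟩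
  have h6 : ec (Hm G c) = ec H + (d + 1) := by omega
  have h7 : 4 * r ≤ C := le_trans (Nat.le_mul_of_pos_right _ (by omega)) hC
  have := h.r3
  rw [h6, hd]
  nlinarith only [h7, this]

theorem book_star (hE : ec (Xe G c) = r) (hk : 1 ≤ ec (Hm G c)) :
    ∃ a, ∀ u v, (Hm G c).Adj u v → u = a ∨ v = a := by
  obtain ⟨a, b, hab⟩ := exists_adj_of_ec hk
  obtain ⟨o, ho, hoz⟩ := h.other z
  rcases hk.eq_or_lt with hk1 | hk2
  · have e : Hm G c = Sg a {b} :=
      eq_Sg_of_ec (fun v hv => by rwa [mem_singleton.1 hv]) (by rw [card_singleton]; omega)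
    refine ⟨a, fun u v huv => ?_⟩
    rw [e] at huv
    exact huv.2.imp And.left And.left
  obtain ⟨X, hX, ha, hb⟩ := h.ABk3_trans hab.1
  have hE' : ec (Xe G c) ≤ C := hE ▸ h.rC
  refine h.star hE' hk2 (fun i hi j hj hij hle => ?_) False False.elim fun a' D hD hDc _ => ?_
  · have := h.gap (ABk3_le hab) (o := o) (w := z) (S := ∅) (X := X)
      (by rw [card_empty, hX.card h.st.le, hE, zero_add]) hE'
      (fun c' H h1 h2 h3 h4 h5 h6 => by
        have h7 : ∀ v ∈ X, c' v = c v := fun v hv => h3 v (mem_union_right _ hv)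
        refine ABk3_adm h1 h5 h6 ((h2 o).2 ho) ((h2 z).2 h.st.z0) hoz
          ⟨fun v hv => h7 v hv ▸ hX.1 v hv, fun i hi => ?_, fun u hu v hv e => ?_⟩
          (h4 (ABk3_adj hab.ne (by simp))) ha hb
        · obtain ⟨v, hv, e⟩ := hX.2.1 i hi
          exact ⟨v, hv, (h7 v hv).trans e⟩
        · exact hX.2.2 u hu v hv (by rw [← h7 u hu, e, h7 v hv])) hi hj hij hle
    rw [ABk3_ec hab.ne] at this
    omega
  · obtain ⟨b', hb'⟩ : D.Nonempty := card_pos.1 (by omega)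
    obtain ⟨Y, hY, ha', hbY⟩ := h.ABk3_trans (hD b' hb')
    have haD : a' ∉ D := fun e => (hD a' e).2.2 rfl
    refine ⟨o, ∅, z, Y, ABk3_adm h.st.le (Sg_le (H := Kc c) hD)
      (h.ABk3_room (by rw [ec_Sg haD, hDc])) ho h.st.z0 hoz hY
      (ABk3_adj (fun e => haD (e ▸ hb')) hb') ha' hbY,
      by rw [card_empty, hY.card h.st.le, hE, zero_add], ?_⟩
    rw [erase_eq_of_notMem fun e => hY.1 o e ho, hY.card h.st.le, ← hE]
    refine le_add_left ((sum_sq_le_sq_sum_of_nonneg fun _ _ => Nat.zero_le _).trans ?_)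
    exact Nat.pow_le_pow_left (ABk3_sum G c) 2

theorem book_small (hΔ : ec (Xe G c) < ec (Hm G c) + r) : FamB r t G c := by
  have hE := h.book_E hC hΔ
  have hk : 1 ≤ ec (Hm G c) := by omega
  have hE' : ec (Xe G c) ≤ C := hE ▸ h.rC
  obtain ⟨u, hu, hd, hX⟩ := h.single hE
  obtain ⟨o, ok, e, -, -⟩ := h.one hu (by omega)
  obtain ⟨a, ha⟩ := h.book_star hC hE hk
  have hadj : ∀ v ∈ nT G c u, G.Adj u v := fun v hv => (mem_nT.1 hv).1
  rw [dT] at hd
  generalize nT G c u = X at hX ok e hadj hd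
  obtain ⟨D, hD⟩ : ∃ D : Finset V, D = univ.filter fun v => (Hm G c).Adj a v := ⟨_, rfl⟩
  have hH : Hm G c = Sg a D := hD ▸ eq_Sg_of_star ha
  have hD' : ∀ v, v ∈ D ↔ (Hm G c).Adj a v := fun v => by simp [hD]
  have haD : a ∉ D := fun e => ((hD' a).1 e).ne rfl
  have hb := h.ABk3_room le_rfl
  have hfr : ∀ v, c v ≠ 0 → ∃ y, c y = c v ∧ ∀ u, ¬ (Hm G c).Adj y u := fun v hv => by
    obtain ⟨y, h1, -, h2⟩ := exists_fresh (Hm G c) ∅ (i := c v)
      (by simpa using hb _ (mem_Icc.2 ⟨Nat.pos_of_ne_zero hv, h.st.le v⟩))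
    exact ⟨y, h1, h2⟩
  have hsw : ∀ v ∈ X, ∀ v', (Hm G c).Adj v v' → (∀ y, c y = c v →
      Adm r (fun G : SimpleGraph V => NoBook G r t) c (Hm G c) o ∅ u (insert y (X.erase v))) →
      False := fun v hv v' hvv hA => by
    obtain ⟨y, h1, h2⟩ := hfr v (hX.1 v hv)
    refine h.ex.switch h.st.eig ok e hv (fun hy => h2 v' (hX.2.2 y hy v hv h1 ▸ hvv)) (hA y h1)
      (h.lt_of_fresh hE' hvv h1 h2).le (h.st.eig.pos_of_adj (hadj v hv) ?_)
    linarith only [h.pos (hX.1 v hv)]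
  obtain ⟨b0, hb0⟩ : ∃ b, (Hm G c).Adj a b := by
    obtain ⟨p, q, hpq⟩ := exists_adj_of_ec hk
    rcases ha p q hpq with rfl | rfl
    exacts [⟨q, hpq⟩, ⟨p, hpq.symm⟩]
  refine ⟨u, a, X, D, hu, hX.1, fun v hv => ⟨((hD' v).1 hv).1.2.1, ((hD' v).1 hv).1.2.2.symm⟩,
    fun i hi => one_le_pc (hX.2.1 i hi), Or.inr (Or.inl ⟨h.mp_star' (hH ▸ ok) haD (hH ▸ e),
      hb0.1.1, fun i hi => hX.pc_eq hi, fun ht => ?_, fun ht => ?_⟩)⟩
  · obtain ⟨p, hp, q, hq, hpq⟩ : ∃ p ∈ X, ∃ q ∈ X, (Hm G c).Adj p q := by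
      by_contra hn
      push Not at hn
      have := h.ex.fr X ⟨fun p hp q hq hpq => ?_, hd⟩ {u}
        (fun v hv w hw => mem_singleton.1 hv ▸ (hadj w hw).symm)
      · rw [card_singleton] at this
        omega
      · by_contra hG
        exact hn p hp q hq ⟨⟨hX.1 p hp, hX.1 q hq, fun e => hpq (hX.2.2 p hp q hq e)⟩, hG⟩
    obtain ⟨b, haX, hbX, hab⟩ : ∃ b, a ∈ X ∧ b ∈ X ∧ (Hm G c).Adj a b := by
      rcases ha p q hpq with rfl | rfl
      exacts [⟨q, hp, hq, hpq⟩, ⟨p, hq, hp, hpq.symm⟩]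
    obtain ⟨y, h1, h2⟩ := hfr b (hX.1 b hbX)
    refine ⟨haX, b, Set.eq_singleton_iff_unique_mem.2 ⟨⟨hbX, (hD' b).2 hab⟩, fun v hv => ?_⟩,
      y, fun hy => h2 a ((hD' y).1 hy).symm, h1⟩
    by_contra hvb
    have hav := (hD' v).1 hv.2
    exact hsw v hv.1 a hav.symm fun y hy => ABk3_adm h.st.le (Hm_le G c) hb ok.o0 hu ok.ow
      (hX.switch hv.1 hy) hab (mem_insert_of_mem (mem_erase.2 ⟨hav.ne, haX⟩))
      (mem_insert_of_mem (mem_erase.2 ⟨Ne.symm hvb, hbX⟩))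
  · have key : ∀ v ∈ X, ∀ v', ¬ (Hm G c).Adj v v' := fun v hv v' hvv =>
      hsw v hv v' hvv fun y hy => by
        have hY := hX.switch hv hy
        refine admB1 ht h.st.le (Hm_le G c) hb ok.o0 hu ok.ow (l := 1)
          (mem_Icc.2 ⟨le_rfl, by have := h.r3; omega⟩) (empty_subset _) hY.1 hY.2.1
          fun i => le_trans (card_le_one.2 fun p hp q hq => ?_) ht
        rw [mem_filter] at hp hq
        exact hY.2.2 p hp.1 q hq.1 (hp.2.trans hq.2.symm)
    exact ⟨fun haX => key a haX b0 hb0, fun v hv => absurd ((hD' v).1 hv.2).symm (key v hv.1 a)⟩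

theorem book_mid (ht : t = 0) (h1 : ec (Hm G c) + r ≤ ec (Xe G c))
    (h2 : ec (Xe G c) + 2 ≤ ec (Hm G c) + 2 * r) : FamB r t G c := by
  rcases Nat.eq_zero_or_pos (ec (Hm G c)) with hk | hk
  · obtain ⟨w, -, hw⟩ := h.sees_small (by omega)
    exact (h.not_sees hC ht hk w hw).elim
  have h7 : 4 * r ≤ C := le_trans (Nat.le_mul_of_pos_right _ (by omega)) hC
  have hr := h.r3
  obtain ⟨a, b, hab⟩ := exists_adj_of_ec hk
  obtain ⟨Y, hY, ha, hb⟩ := h.ABk3_trans hab.1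
  obtain ⟨o, ho, hoz⟩ := h.other z
  obtain ⟨ha0, hb0, hne⟩ := hab.1
  have hcap := h.cap2 (mem_Icc.2 ⟨Nat.pos_of_ne_zero ha0, h.st.le a⟩)
    (mem_Icc.2 ⟨Nat.pos_of_ne_zero hb0, h.st.le b⟩) hne
  obtain ⟨X, hYX, hXU, hX⟩ := exists_subsuperset_card_eq
    (s := Y) (t := {a, b} ∪ (Out c (c a) ∩ Out c (c b))) (n := ec (Xe G c) + 1 - ec (Hm G c))
    (fun v hv => by
      have e0 := hY.1 v hv
      have e1 := hY.2.2 v hv a ha
      have e2 := hY.2.2 v hv b hb
      simp only [mem_union, mem_insert, mem_singleton, mem_inter, mem_Out]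
      grind)
    (by rw [hY.card h.st.le]; omega)
    (le_trans (by omega) (card_le_card subset_union_right))
  have hU : ∀ v ∈ X, c v ≠ 0 ∧ (c v = c a → v = a) ∧ (c v = c b → v = b) := fun v hv => by
    have := hXU hv
    simp only [mem_union, mem_insert, mem_singleton, mem_inter, mem_Out] at this
    grind
  have hA : ∀ H, H ≤ Hm G c → H.Adj a b →
      Adm r (fun G : SimpleGraph V => NoBook G r t) c H o ∅ z X := fun H hH hadj =>
    admA h.st.le (hH.trans (Hm_le G c)) (h.ABk3_room (ec_mono hH)) ho h.st.z0 hoz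
      (fun v hv => (hU v hv).1) (fun i hi => let ⟨v, hv, e⟩ := hY.2.1 i hi; ⟨v, hYX hv, e⟩) hadj
      (fun v hv => (hU v hv).2.1) fun v hv => (hU v hv).2.2
  rcases (Nat.succ_le_of_lt hk).eq_or_lt with hk1 | hk2
  · have hs := h.squares (hA _ le_rfl hab) (by rw [card_empty]; omega) (by omega)
    rw [erase_eq_of_notMem fun e => (hU o e).1 ho, hX, card_empty] at hs
    obtain ⟨u, hu, hd⟩ := sq_one (s := Vp c 0) (d := dT G c) (e := ec (Xe G c)) (by omega)
      (ABk3_sum G c) (by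
        rw [show ec (Xe G c) + 1 - ec (Hm G c) = ec (Xe G c) by omega] at hs
        exact le_trans (Nat.le_add_left _ _) hs)
    rw [mem_Vp] at hu
    obtain ⟨-, -, -, hS, -⟩ := h.one hu hd.ge
    rcases h.book_alt hC hS with ⟨p, hp, q, hq, hpq, hle⟩ | ⟨h3, -⟩
    · exact h.book_typeA hC hu hd.ge hk1.symm hp hq hpq (by omega)
    · omega
  · have e1 := ABk3_ec hab.ne
    refine (h.kmin (hA _ (ABk3_le hab) (ABk3_adj hab.ne (by simp))) (by rw [card_empty]; omega)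
      (by omega) ?_ (ABk3_sdiff (ABk3_le hab))).elim
    obtain ⟨d, hd⟩ : ∃ d, ec (Hm G c) = d + 2 := ⟨ec (Hm G c) - 2, by omega⟩
    rw [e1, hd]
    have : d ≤ C * d := Nat.le_mul_of_pos_left _ (by omega)
    rw [mul_add]
    omega

theorem book_fam : ∃ c', FamB r t G c' ∧ NI G c' := by
  rcases lt_or_ge (ec (Xe G c)) (ec (Hm G c) + r) with h1 | h1
  · exact ⟨c, h.book_small hC h1, h.ni⟩
  by_cases hz : Sees G r c z
  · exact ⟨c, h.book_sees hC hz h1, h.ni⟩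
  obtain ⟨l, hl, hz'⟩ : ∃ l ∈ Icc 1 r, ∀ v ∈ nT G c z, c v ≠ l := by
    by_contra hn
    push Not at hn
    exact hz fun l hl => let ⟨v, hv, e⟩ := hn l hl; ⟨v, e, (mem_nT.1 hv).1⟩
  rcases Nat.eq_zero_or_pos t with ht | ht
  · rcases le_or_gt (ec (Hm G c) + 2 * r) (ec (Xe G c) + 1) with h2 | h2
    · exact h.book_avoid0 hC ht hl hz' h2
    · exact ⟨c, h.book_mid hC ht h1 (by omega), h.ni⟩
  · exact h.book_avoid1 hC ht hl hz' h1

end Ctx

end Pool.Agent.P.MP_094db5_co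

end
end

section

/-! Wheels: basic facts and many outer edges. -/

set_option autoImplicit false

open Finset Classical

noncomputable section

namespace Pool.Agent.P.MP_094db5_co

variable {V : Type} [Fintype V] {q C : ℕ} {G : SimpleGraph V} {x : V → ℝ} {η : ℝ} {c : V → ℕ}
  {z : V}

namespace Ctx

variable (h : Ctx 3 C (fun G : SimpleGraph V => (Whl q).Free G) G x η c z) (hq : 2 ≤ q)
  (hC : 2 * q + 20 ≤ C)
include h hq hC

theorem cores : Cores G 3 (2 * q + 3) c := by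
  intro i hi
  have a1 := card_supp_le (Hm G c)
  have a2 := h.room hi
  refine ⟨Vp c i \ univ.filter fun v => ∃ u, (Hm G c).Adj v u, ?_, fun v hv => ?_⟩
  · have := le_card_sdiff (univ.filter fun v => ∃ u, (Hm G c).Adj v u) (Vp c i)
    rw [card_Vp] at this
    omega
  · simp only [mem_sdiff, mem_filter, mem_univ, true_and, not_exists, mem_Vp] at hv
    have := mem_Icc.1 hi
    refine ⟨hv.1, fun u h1 h2 => ?_⟩
    by_contra hn
    exact hv.2 u ⟨⟨by omega, h1, by omega⟩, fun a => hn a.symm⟩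

theorem AWh1_key {w a b e : V} (hw : c w = 0) (ha : a ∈ nT G c w) (hb : b ∈ nT G c w)
    (he : e ∈ nT G c w) (hab : c a ≠ c b) (hae : c a ≠ c e) (hbe : c b ≠ c e) (h1 : G.Adj a b)
    (h2 : G.Adj a e) : False := by
  rw [mem_nT] at ha hb he
  have hj : c b ∈ Icc 1 3 := mem_Icc.2 ⟨by omega, h.st.le b⟩
  have hl : c e ∈ Icc 1 3 := mem_Icc.2 ⟨by omega, h.st.le e⟩
  obtain ⟨P, p1, p2⟩ := h.cores hq hC _ hl
  obtain ⟨d, hd, hde⟩ := exists_mem_ne (s := P) (by omega) e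
  exact (h.cores hq hC).wheel hq hj hl hbe hb.1 ((p2 d hd).2 _ hb.2 hbe) he.1.symm ha.1.symm h1
    ((p2 d hd).2 _ ha.2 hae) h2 hde hw hbe (p2 d hd).1 rfl ha.2 hab hae h.ex.fr

theorem AWh1_tri {w a b e : V} (hw : c w = 0) (ha : a ∈ nT G c w) (hb : b ∈ nT G c w)
    (he : e ∈ nT G c w) (hab : c a ≠ c b) (hae : c a ≠ c e) (hbe : c b ≠ c e) :
    (Hm G c).Adj a b ∧ (Hm G c).Adj a e ∨ (Hm G c).Adj b a ∧ (Hm G c).Adj b e ∨
      (Hm G c).Adj e a ∧ (Hm G c).Adj e b := by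
  have a0 := (mem_nT.1 ha).2
  have b0 := (mem_nT.1 hb).2
  have e0 := (mem_nT.1 he).2
  by_cases e1 : G.Adj a b
  · exact Or.inr (Or.inr ⟨⟨⟨e0, a0, hae.symm⟩,
      fun x => h.AWh1_key hq hC hw ha hb he hab hae hbe e1 x.symm⟩, ⟨e0, b0, hbe.symm⟩,
      fun x => h.AWh1_key hq hC hw hb ha he hab.symm hbe hae e1.symm x.symm⟩)
  · by_cases e2 : G.Adj a e
    · exact Or.inr (Or.inl ⟨⟨⟨b0, a0, hab.symm⟩, fun x => e1 x.symm⟩, ⟨b0, e0, hbe⟩,
        fun x => h.AWh1_key hq hC hw he ha hb hae.symm hbe.symm hab e2.symm x.symm⟩)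
    · exact Or.inl ⟨⟨⟨a0, b0, hab⟩, e1⟩, ⟨a0, e0, hae⟩, e2⟩

/-- a vertex that sees all parts forces two missing pairs -/
theorem wheel_path {w : V} (hw : c w = 0) (hs : Sees G 3 c w) : ∃ a ∈ nT G c w, ∃ b ∈ nT G c w,
    ∃ e ∈ nT G c w, (Hm G c).Adj a b ∧ (Hm G c).Adj a e ∧ c b ≠ c e := by
  obtain ⟨a, a1, a2⟩ := hs 1 (by simp)
  obtain ⟨b, b1, b2⟩ := hs 2 (by simp)
  obtain ⟨e, e1, e2⟩ := hs 3 (by simp)
  have ha : a ∈ nT G c w := mem_nT.2 ⟨a2, by omega⟩
  have hb : b ∈ nT G c w := mem_nT.2 ⟨b2, by omega⟩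
  have he : e ∈ nT G c w := mem_nT.2 ⟨e2, by omega⟩
  rcases h.AWh1_tri hq hC hw ha hb he (by omega) (by omega) (by omega) with t | t | t
  · exact ⟨a, ha, b, hb, e, he, t.1, t.2, by omega⟩
  · exact ⟨b, hb, a, ha, e, he, t.1, t.2, by omega⟩
  · exact ⟨e, he, a, ha, b, hb, t.1, t.2, by omega⟩

theorem wheel_two {w : V} (hw : c w = 0) (hs : Sees G 3 c w) : 2 ≤ ec (Hm G c) := by
  obtain ⟨a, -, b, -, e, -, h1, h2, h3⟩ := h.wheel_path hq hC hw hs
  have hbe : b ≠ e := fun x => h3 (x ▸ rfl)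
  have a1 : Sg a {b, e} ≤ Hm G c := Sg_le fun v hv => by
    rcases mem_insert.1 hv with rfl | hv
    · exact h1
    · rw [mem_singleton.1 hv]; exact h2
  have a2 := ec_mono a1
  rwa [ec_Sg (by simp [h1.ne, h2.ne]), card_pair hbe] at a2

theorem wheel_cover {w : V} (hw : c w = 0) (hs : Sees G 3 c w) :
    ∀ v ∈ nT G c w, ∃ u, (Hm G c).Adj v u := by
  intro v hv
  obtain ⟨j, l, hj, hl, hji, hli, hjl⟩ := exists_third (r := 3) le_rfl (c v)
  obtain ⟨b, b1, b2⟩ := hs j hj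
  obtain ⟨e, e1, e2⟩ := hs l hl
  have := mem_Icc.1 hj
  have := mem_Icc.1 hl
  rcases h.AWh1_tri hq hC hw hv (mem_nT.2 ⟨b2, by omega⟩) (mem_nT.2 ⟨e2, by omega⟩) (by omega)
    (by omega) (by omega) with t | t | t
  · exact ⟨b, t.1⟩
  · exact ⟨b, t.1.symm⟩
  · exact ⟨e, t.1.symm⟩

/-- the comparison target with two adjacent new vertices -/
theorem AWh1_target {l : ℕ} (hl : l ∈ Icc 1 3) : ∃ (o w : V) (U Y X : Finset V),
    (∀ v ∈ U, c v ≠ 0) ∧ Y ⊆ U ∧ Y.card ≤ 2 ∧ ec (Xe G c) + 1 ≤ U.card ∧ X.card = 3 ∧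
      (Out c l \ U).card ≤ 2 ∧ ∀ S, Y ⊆ S → S ⊆ U →
        Adm 3 (fun G : SimpleGraph V => (Whl q).Free G) c ⊥ o S w X := by
  obtain ⟨i, j, hi, hj, hil, hjl, hij⟩ := exists_third (r := 3) le_rfl l
  have two : ∀ m ∈ Icc 1 3, ∃ a a', c a = m ∧ c a' = m ∧ a ≠ a' := fun m hm => by
    have := h.room hm
    obtain ⟨a, ha, a', ha', e⟩ := one_lt_card.1 (show 1 < (Vp c m).card by rw [card_Vp]; omega)
    exact ⟨a, a', mem_Vp.1 ha, mem_Vp.1 ha', e⟩
  obtain ⟨a, a', ha, ha', haa⟩ := two i hi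
  obtain ⟨b, b', hb, hb', hbb⟩ := two j hj
  obtain ⟨w, hw, hwz⟩ := h.other z
  have hz := h.st.z0
  have i1 := mem_Icc.1 hi
  have j1 := mem_Icc.1 hj
  have l1 := mem_Icc.1 hl
  have hX : ({z, a, b} : Finset V).card = 3 := by
    rw [card_insert_of_notMem (by simp only [mem_insert, mem_singleton]; grind),
      card_pair (by grind)]
  refine ⟨z, w, Out c l \ {a, b}, {a', b'}, {z, a, b}, fun v hv => (mem_Out.1 (mem_sdiff.1 hv).1).1,
    fun v hv => ?_, card_le_two, ?_, hX, ?_, fun S h1 h2 => ?_⟩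
  · simp only [mem_insert, mem_singleton, mem_sdiff, mem_Out] at hv ⊢
    grind
  · have := le_card_sdiff {a, b} (Out c l)
    have := card_le_two (a := a) (b := b)
    have := h.cap1 hl
    omega
  · refine (card_le_card fun v hv => ?_).trans (card_le_two (a := a) (b := b))
    simp only [mem_sdiff] at hv
    grind
  · have hS : ∀ v ∈ S, c v ≠ 0 ∧ c v ≠ l ∧ v ≠ a ∧ v ≠ b := fun v hv => by
      have := h2 hv
      simp only [mem_insert, mem_singleton, mem_sdiff, mem_Out] at this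
      grind
    have ok : TgOK 3 c ⊥ z S w {z, a, b} := ⟨h.st.le, bot_le, hz, hw, hwz.symm,
      fun v hv => (hS v hv).1, fun v hv => by
        simp only [mem_insert, mem_singleton] at hv
        grind⟩
    refine ⟨ok, ok.gad (cls_wheel hq) hl (fun v hv => (hS v hv).2.1) hX.le (a := z) (by simp)
      fun v hv => ?_, ok.nc2 (l := l) (fun m hm => ?_) (by simp) (fun m hm hml => ?_)
        fun m hm hml => ?_⟩
    · rw [Tg_adj]
      simp only [mem_insert, mem_singleton] at hv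
      have := hS v
      have := hS z
      unfold cross
      grind
    · have := h.room hm
      rw [ec_bot]
      omega
    · have := mem_Icc.1 hm
      by_cases e : m = i
      · exact ⟨a', h1 (by simp), by omega⟩
      · exact ⟨b', h1 (by simp), by omega⟩
    · have := mem_Icc.1 hm
      by_cases e : m = i
      · exact ⟨a, by simp, by omega⟩
      · exact ⟨b, by simp, by omega⟩

theorem wheel_sees (hz : Sees G 3 c z) (hΔ : ec (Hm G c) + 6 ≤ ec (Xe G c)) : False := by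
  obtain ⟨o, w, U, Y, X, t1, t2, t3, t4, t5, -, t7⟩ := h.AWh1_target hq hC (l := 1) (by simp)
  have k2 := h.wheel_two hq hC h.st.z0 hz
  have d2 : dT G c z ≤ 2 * ec (Hm G c) :=
    (card_le_card fun v hv => mem_filter.2
      ⟨mem_univ _, h.wheel_cover hq hC h.st.z0 hz v hv⟩).trans (card_supp_le (Hm G c))
  have hCk : 3 * ec (Hm G c) ≤ C * ec (Hm G c) := Nat.mul_le_mul_right _ (by omega)
  by_cases hd : dT G c z + 3 ≤ ec (Xe G c)
  · have := h.big (H := ⊥) (σ := ec (Xe G c) - ec (Hm G c) - 3) bot_le t1 t2 (by omega) (by omega)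
      (fun S h1 h2 _ => t7 S h1 h2) (by rw [ec_bot]; omega) (by omega) t5.le (by
        have : (nT G c z \ U).card ≤ dT G c z := card_le_card sdiff_subset
        rw [ec_bot, mul_add]
        omega) (by rw [ec_bot]; omega)
    rw [ec_bot] at this
    omega
  · obtain ⟨S, s1, s2, s3⟩ := exists_subsuperset_card_eq (n := ec (Xe G c) - ec (Hm G c) - 3) t2
      (by omega) (by omega)
    refine h.kmin (t7 S s1 s2) (by rw [ec_bot]; omega) (by rw [ec_bot]; omega)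
      (by rw [ec_bot]; omega) ?_
    rw [bot_sdiff, ec_bot]
    omega

/-- a second neighbour in a part gives a wheel -/
theorem AWh1_hub (hk : Hm G c = ⊥) {l : ℕ} (hl : l ∈ Icc 1 3) {u a b d : V} (hu : c u = 0)
    (h1 : G.Adj u z) (h2 : G.Adj u a) (h3 : G.Adj u b) (ha : a ∈ nT G c z) (hd : d ∈ nT G c z)
    (hdb : d ≠ b) (cd : c d = c b) (cab : c a ≠ c b) (cal : c a ≠ l) (cbl : c b ≠ l) : False := by
  rw [mem_nT] at ha hd
  have full : ∀ p p', c p ≠ 0 → c p' ≠ 0 → c p ≠ c p' → G.Adj p p' := fun p p' e1 e2 e3 => by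
    by_contra hn
    have : (Hm G c).Adj p p' := ⟨⟨e1, e2, e3⟩, hn⟩
    rw [hk] at this
    exact this
  have hz := h.st.z0
  exact (h.cores hq hC).wheel hq hl (l := c b) (mem_Icc.2 ⟨by omega, h.st.le b⟩) cbl.symm h1 hd.1
    h3.symm h2.symm ha.1.symm (full _ _ ha.2 hd.2 (by omega)) (full _ _ ha.2 (by omega) cab) hdb hu
    (by omega) cd rfl ha.2 cal cab h.ex.fr

theorem AWh1_not (hk : Hm G c = ⊥) {l : ℕ} (hl : l ∈ Icc 1 3) (hz : ∀ v ∈ nT G c z, c v ≠ l)
    (hd : 3 ≤ dT G c z) {u a b : V} (hu : c u = 0) (h1 : G.Adj u z) (h2 : G.Adj u a)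
    (h3 : G.Adj u b) (b0 : c b ≠ 0) (cab : c a ≠ c b) (cal : c a ≠ l) (cbl : c b ≠ l)
    (hb : ∃ v ∈ nT G c z, c v = c b) : a ∉ nT G c z := by
  intro ha
  have e1 : ∀ d ∈ nT G c z, c d = c b → d = b := fun d hd' cd => by
    by_contra hn
    exact h.AWh1_hub hq hC hk hl hu h1 h2 h3 ha hd' hn cd cab cal cbl
  obtain ⟨v, hv, cv⟩ := hb
  obtain rfl := e1 v hv cv
  obtain ⟨d, d1, d2⟩ := exists_mem_notMem_of_card_lt_card (s := {a, v}) (t := nT G c z)
    (card_le_two.trans_lt hd)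
  simp only [mem_insert, mem_singleton, not_or] at d2
  have a0 := (mem_nT.1 ha).2
  have d0 := (mem_nT.1 d1).2
  have := hz d d1
  have := h.st.le a
  have := h.st.le v
  have := h.st.le d
  have := mem_Icc.1 hl
  have : c d ≠ c v := fun e => d2.2 (e1 d d1 e)
  exact h.AWh1_hub hq hC hk hl hu h1 h3 h2 hv d1 d2.1 (by omega) cab.symm cbl cal

theorem wheel_avoid {l : ℕ} (hl : l ∈ Icc 1 3) (hz : ∀ v ∈ nT G c z, c v ≠ l)
    (hΔ : ec (Hm G c) + 6 ≤ ec (Xe G c)) : ∃ c', FamW G c' ∧ NI G c' := by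
  obtain ⟨o, w, U, Y, X₀, t1, t2, t3, t4, t5, t6, t7⟩ := h.AWh1_target hq hC hl
  obtain ⟨k0, hE⟩ := h.big (H := ⊥) (σ := ec (Xe G c) - ec (Hm G c) - 3) bot_le t1 t2 (by omega)
    (by omega) (fun S h1 h2 _ => t7 S h1 h2) (by rw [ec_bot]; omega)
    (by rw [t5]; exact h.avoid hl hz) t5.le (by
      have : (nT G c z \ U).card ≤ (Out c l \ U).card := card_le_card
        (sdiff_subset_sdiff (fun v hv => mem_Out.2 ⟨(mem_nT.1 hv).2, hz v hv⟩) Subset.rfl)
      rw [ec_bot, mul_add]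
      omega) (fun _ e => by
      by_contra hn
      push Not at hn
      obtain ⟨p, p1, p2⟩ := h.sees_noWw hn
      have := h.wheel_two hq hC p1 p2
      rw [ec_bot] at e
      omega)
  rw [ec_bot] at k0
  rw [t5] at hE
  have hk : Hm G c = ⊥ := ec_eq_zero.1 k0.symm
  obtain ⟨u, X, ok, e, tr, last⟩ := h.avoid_eq hl hz hE
  have l1 := mem_Icc.1 hl
  have hu := ok.w0
  have z0 := h.st.z0
  have adj : ∀ v ∈ X, G.Adj u v := fun v hv => by
    have hne : u ≠ v := by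
      have := ok.hX v hv
      have := ok.ow
      grind
    rw [e, Tg_adj]
    exact Or.inr (Or.inr ⟨hne, Or.inl ⟨rfl, hv⟩⟩)
  have hzX : z ∈ X := by
    by_contra hn
    have : Sees G 3 c u := fun i hi => by
      obtain ⟨v, v1, v2⟩ := tr.2.1 i hi
      rw [Function.update_of_ne (by rintro rfl; exact hn v1)] at v2
      exact ⟨v, v2, adj v v1⟩
    have := h.wheel_two hq hC hu this
    omega
  replace last := last hzX
  obtain ⟨i, j, hi, hj, hil, hjl, hij⟩ := exists_third (r := 3) le_rfl l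
  have i1 := mem_Icc.1 hi
  have j1 := mem_Icc.1 hj
  obtain ⟨a, a1, a2⟩ := tr.2.1 i hi
  obtain ⟨b, b1, b2⟩ := tr.2.1 j hj
  have az : a ≠ z := by rintro rfl; rw [Function.update_self] at a2; omega
  have bz : b ≠ z := by rintro rfl; rw [Function.update_self] at b2; omega
  have a3 : c a = i := by rwa [Function.update_of_ne az] at a2
  have b3 : c b = j := by rwa [Function.update_of_ne bz] at b2
  have hX : (X : Set V) = {z, a, b} := by
    ext v
    simp only [mem_coe, Set.mem_insert_iff, Set.mem_singleton_iff]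
    refine ⟨fun hv => ?_, by rintro (rfl | rfl | rfl) <;> assumption⟩
    have x0 := tr.1 v hv
    have x1 := tr.2.2 v hv z hzX
    have x2 := tr.2.2 v hv a a1
    have x3 := tr.2.2 v hv b b1
    have x4 : Function.update c z l v ≤ 3 := by
      have := h.st.le v
      grind
    rw [Function.update_self] at x1
    rw [a2] at x2
    rw [b2] at x3
    generalize Function.update c z l v = n at *
    have : n = l ∨ n = i ∨ n = j := by omega
    tauto
  have na := h.AWh1_not hq hC hk hl hz (by omega) hu (adj z hzX) (adj a a1) (adj b b1) (by omega)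
    (by omega) (by omega) (by omega) (b3 ▸ last j hj hjl)
  have nb := h.AWh1_not hq hC hk hl hz (by omega) hu (adj z hzX) (adj b b1) (adj a a1) (by omega)
    (by omega) (by omega) (by omega) (a3 ▸ last i hi hil)
  rw [hk] at ok e
  have mp := h.mp_update ok e hl hz
  rw [hX] at mp
  have up : ∀ v, c v ≠ 0 → Function.update c z l v = c v := fun v hv =>
    Function.update_of_ne (by rintro rfl; exact hv z0) _ _
  refine ⟨Function.update c z l, ⟨u, z, a, b, (Out c l \ nT G c z : Finset V), ?_, ?_, by omega,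
    by omega, by omega, fun v hv => ?_, Or.inl ⟨mp, fun v hv => ?_, ?_, ?_, ?_, ?_⟩⟩,
    h.ni_update l (adj z hzX).symm⟩
  · rw [Function.update_of_ne ok.ow.symm, hu]
  · rw [Function.update_self]; omega
  · have := mem_Out.1 (mem_sdiff.1 (mem_coe.1 hv)).1
    rw [up v this.1]
    exact this.1
  · have := mem_Out.1 (mem_sdiff.1 (mem_coe.1 hv)).1
    rw [up v this.1, Function.update_self]
    exact this.2
  · exact mem_coe.2 (mem_sdiff.2 ⟨mem_Out.2 (by omega), na⟩)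
  · exact mem_coe.2 (mem_sdiff.2 ⟨mem_Out.2 (by omega), nb⟩)
  · obtain ⟨y, y1, y2⟩ := last i hi hil
    exact ⟨y, fun hy => (mem_sdiff.1 (mem_coe.1 hy)).2 y1, by rw [up y (by omega), a2, y2]⟩
  · obtain ⟨y, y1, y2⟩ := last j hj hjl
    exact ⟨y, fun hy => (mem_sdiff.1 (mem_coe.1 hy)).2 y1, by rw [up y (by omega), b2, y2]⟩

end Ctx

end Pool.Agent.P.MP_094db5_co

end
end

section

/-! Wheels: few outer edges, first part. -/

set_option autoImplicit false

open Finset Classical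

noncomputable section

namespace Pool.Agent.P.MP_094db5_co

variable {V : Type} [Fintype V] {q C : ℕ} {G : SimpleGraph V} {x : V → ℝ} {η : ℝ} {c : V → ℕ}
  {z : V}

omit [Fintype V] in
lemma AWh2_card3 {a b e : V} (h1 : c a ≠ c b) (h2 : c a ≠ c e) (h3 : c b ≠ c e) :
    ({a, b, e} : Finset V).card = 3 :=
  card_eq_three.mpr ⟨a, b, e, fun h => h1 (congrArg c h), fun h => h2 (congrArg c h),
    fun h => h3 (congrArg c h), rfl⟩

omit [Fintype V] in
lemma AWh2_card2 {b e : V} (h3 : c b ≠ c e) : ({b, e} : Finset V).card = 2 :=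
  card_pair fun h => h3 (congrArg c h)

omit [Fintype V] in
lemma AWh2_nm {a b e : V} (h1 : c a ≠ c b) (h2 : c a ≠ c e) : a ∉ ({b, e} : Finset V) := by
  simp only [mem_insert, mem_singleton, not_or]
  exact ⟨fun h => h1 (congrArg c h), fun h => h2 (congrArg c h)⟩

omit [Fintype V] in
lemma AWh2_adj {a v : V} {D : Finset V} (ha : a ∉ D) (hv : v ∈ D) : (Sg a D).Adj a v :=
  ⟨fun h => ha (h ▸ hv), Or.inl ⟨rfl, hv⟩⟩

omit [Fintype V] in
lemma AWh2_erase {o a b e : V} (ho : c o = 0) (h1 : c a ≠ 0) (h2 : c b ≠ 0) (h3 : c e ≠ 0) :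
    ({a, b, e} : Finset V).erase o = {a, b, e} := by
  refine erase_eq_of_notMem ?_
  simp only [mem_insert, mem_singleton, not_or]
  exact ⟨fun h => h1 (h ▸ ho), fun h => h2 (h ▸ ho), fun h => h3 (h ▸ ho)⟩

namespace Ctx

variable (h : Ctx 3 C (fun G : SimpleGraph V => (Whl q).Free G) G x η c z) (hq : 2 ≤ q)
  (hC : 2 * q + 20 ≤ C)
include h hq hC

omit hq in
lemma AWh2_fresh {i : ℕ} (hi : i ∈ Icc 1 3) : ∃ y, c y = i ∧ ∀ u, ¬ (Hm G c).Adj y u := by
  have := h.room hi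
  obtain ⟨y, h1, -, h2⟩ := exists_fresh (c := c) (Hm G c) ∅ (i := i) (by rw [card_empty]; omega)
  exact ⟨y, h1, h2⟩

omit hq in
lemma AWh2_set {s : ℕ} (hs : s ≤ 2) : ∃ S : Finset V, S.card = s ∧ ∀ v ∈ S, c v ≠ 0 := by
  have := h.room (i := 1) (by decide)
  obtain ⟨S, h1, h2⟩ := exists_subset_card_eq (s := Vp c 1) (n := s) (by rw [card_Vp]; omega)
  refine ⟨S, h2, fun v hv => ?_⟩
  rw [mem_Vp.mp (h1 hv)]
  exact one_ne_zero

omit hq in
lemma AWh2_room {H : SimpleGraph V} (hH : ec H ≤ ec (Hm G c)) :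
    ∀ i ∈ Icc 1 3, 2 * ec H < cn c i := fun i hi => by
  have := h.room hi
  omega

lemma AWh2_one {s : ℕ} (hs : s ≤ 2) (h1 : ec (Xe G c) ≤ ec (Hm G c) + s + 1)
    (h2 : s + 4 ≤ ec (Xe G c)) : False := by
  obtain ⟨a, ha, hf⟩ := h.AWh2_fresh hC (i := 1) (by decide)
  obtain ⟨b, hb, -⟩ := h.AWh2_fresh hC (i := 2) (by decide)
  obtain ⟨e, he, -⟩ := h.AWh2_fresh hC (i := 3) (by decide)
  obtain ⟨S, hS, hS0⟩ := h.AWh2_set hC hs
  obtain ⟨o, ho, hoz⟩ := h.other z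
  obtain ⟨H, -, hH, hn⟩ := exists_between (H₀ := ⊥) (H := Hm G c) bot_le
    (n := ec (Hm G c) + s + 1 - ec (Xe G c)) (by rw [ec_bot]; omega) (by omega)
  have hab : c a ≠ c b := by omega
  have hae : c a ≠ c e := by omega
  have hbe : c b ≠ c e := by omega
  have hnm := AWh2_nm hab hae
  have h2' : ec (Sg a {b, e}) = 2 := by rw [ec_Sg hnm, AWh2_card2 hbe]
  have hd : Disjoint H (Sg a {b, e}) := by
    rw [disjoint_iff_inf_le]
    rintro u v ⟨h1, -, ⟨rfl, -⟩ | ⟨rfl, -⟩⟩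
    · exact (hf v (hH h1)).elim
    · exact (hf u (hH h1.symm)).elim
  have hec := ec_sup hd
  have hle : Sg a {b, e} ≤ Kc c := Sg_le fun v hv => by
    simp only [mem_insert, mem_singleton] at hv
    rcases hv with rfl | rfl
    · exact ⟨by omega, by omega, hab⟩
    · exact ⟨by omega, by omega, hae⟩
  have adm := admW1 (q := q) (H := H ⊔ Sg a {b, e}) (S := S) (a := a) (b := b) (e := e) hq
    h.st.le (sup_le (hH.trans (Hm_le G c)) hle) (h.AWh2_room hC (by omega)) ho h.st.z0 hoz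
    (Or.inr (AWh2_adj hnm (by simp))) (Or.inr (AWh2_adj hnm (by simp))) hbe hS0 (by omega)
  refine h.kmin adm (by rw [AWh2_card3 hab hae hbe]; omega) (by omega) ?_ ?_
  · obtain ⟨t, ht⟩ : ∃ t, ec (Xe G c) = s + 4 + t := ⟨ec (Xe G c) - (s + 4), by omega⟩
    have e1 : ec (Hm G c) = ec (H ⊔ Sg a {b, e}) + (t + 1) := by omega
    rw [e1, mul_add]
    have : 24 * (t + 1) ≤ C * (t + 1) := Nat.mul_le_mul_right _ (by omega)
    omega
  · have : (H ⊔ Sg a {b, e}) \ Hm G c ≤ Sg a {b, e} := by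
      rintro u v ⟨h1 | h1, h2⟩
      · exact (h2 (hH h1)).elim
      · exact h1
    have := ec_mono this
    omega

lemma AWh2_two (h1 : ec (Xe G c) ≤ ec (Hm G c) + 5) (h2 : 6 ≤ ec (Xe G c)) : False := by
  obtain ⟨a, ha, -⟩ := h.AWh2_fresh hC (i := 1) (by decide)
  obtain ⟨b, hb, -⟩ := h.AWh2_fresh hC (i := 2) (by decide)
  obtain ⟨o, ho, hoz⟩ := h.other z
  obtain ⟨H, -, hH, hn⟩ := exists_between (H₀ := ⊥) (H := Hm G c) bot_le
    (n := ec (Hm G c) + 5 - ec (Xe G c)) (by rw [ec_bot]; omega) (by omega)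
  have hab : c a ≠ c b := by omega
  have adm := admW2 (q := q) (H := H) (a := a) (b := b) hq h.st.le (hH.trans (Hm_le G c))
    (h.AWh2_room hC (by omega)) ho h.st.z0 hoz ⟨by omega, by omega, hab⟩
  refine h.kmin adm ?_ (by omega) ?_ ?_
  · rw [AWh2_card2 hab, AWh2_card3 (c := c) (by omega) (by omega) hab]
    omega
  · obtain ⟨t, ht⟩ : ∃ t, ec (Xe G c) = 6 + t := ⟨ec (Xe G c) - 6, by omega⟩
    have e1 : ec (Hm G c) = ec H + (t + 1) := by omega
    rw [e1, mul_add]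
    have : 24 * (t + 1) ≤ C * (t + 1) := Nat.mul_le_mul_right _ (by omega)
    omega
  · rw [sdiff_eq_bot_iff.mpr hH, ec_bot]
    omega

theorem wheel_E (hΔ : ec (Xe G c) ≤ ec (Hm G c) + 5) :
    ec (Xe G c) = 3 ∨ (ec (Xe G c) = 4 ∧ ec (Hm G c) = 2) ∨
      (ec (Xe G c) = 5 ∧ ec (Hm G c) ≤ 2) := by
  have h3 := h.E_ge
  by_cases h6 : 6 ≤ ec (Xe G c)
  · exact (h.AWh2_two hq hC hΔ h6).elim
  by_cases e3 : ec (Xe G c) = 3
  · exact Or.inl e3
  by_cases e4 : ec (Xe G c) = 4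
  · obtain ⟨w, hw, hs⟩ := h.sees_small (by omega)
    have := h.wheel_two hq hC hw hs
    refine Or.inr (Or.inl ⟨e4, ?_⟩)
    by_contra hk
    exact h.AWh2_one hq hC (s := 0) (by omega) (by omega) (by omega)
  · refine Or.inr (Or.inr ⟨by omega, ?_⟩)
    by_contra hk
    exact h.AWh2_one hq hC (s := 1) (by omega) (by omega) (by omega)

lemma AWh2_star (hE : ec (Xe G c) = 3) (hk : 3 ≤ ec (Hm G c)) {u o a b e : V} (hu : c u = 0)
    (ho : c o = 0) (hou : o ≠ u) (hs : Sees G 3 c u) (hD : D2 G c = 9)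
    (hab : (Hm G c).Adj a b) (hae : (Hm G c).Adj a e) (hbe : c b ≠ c e) :
    ∃ a, ∀ u v, (Hm G c).Adj u v → u = a ∨ v = a := by
  have hnm := AWh2_nm hab.1.2.2 hae.1.2.2
  refine h.star (by omega) (by omega) ?_ True ?_ ?_
  · intro i hi j hj hij hle
    have h0 : Sg a {b, e} ≤ Hm G c := Sg_le fun v hv => by
      simp only [mem_insert, mem_singleton] at hv
      rcases hv with rfl | rfl
      · exact hab
      · exact hae
    have := h.gap h0 (o := o) (w := u) (S := ∅) (X := {a, b, e})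
      (by rw [AWh2_card3 hab.1.2.2 hae.1.2.2 hbe, card_empty, hE]) (by omega)
      (fun c' H h1 h2 h3 h4 h5 h6 => admW1 hq h1 h5 h6 ((h2 o).mpr ho) ((h2 u).mpr hu) hou
        (h4 (AWh2_adj hnm (by simp))) (h4 (AWh2_adj hnm (by simp)))
        (by rw [h3 b (by simp), h3 e (by simp)]; exact hbe) (by simp) (by simp)) hi hj hij hle
    rw [ec_Sg hnm, AWh2_card2 hbe] at this
    omega
  · refine fun _ => ⟨rfl, fun i hi => ?_⟩
    obtain ⟨v, hv, hv'⟩ := hs i hi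
    have hi1 := (mem_Icc.mp hi).1
    obtain ⟨y, hy⟩ := h.wheel_cover hq hC hu hs v (mem_nT.mpr ⟨hv', by omega⟩)
    exact ⟨v, y, hy, hv⟩
  · intro a' D h1 h2 h3
    obtain ⟨v, hv⟩ : D.Nonempty := card_pos.mp (by omega)
    have a0 := (h1 v hv).1
    have a3 := h.st.le a'
    have hnD : a' ∉ D := fun hh => (h1 a' hh).2.2 rfl
    obtain ⟨i, j, hi, hj, hia, hja, hij⟩ : ∃ i j, i ∈ Icc 1 3 ∧ j ∈ Icc 1 3 ∧ i ≠ c a' ∧
        j ≠ c a' ∧ i ≠ j := by
      refine ⟨c a' % 3 + 1, (c a' + 1) % 3 + 1, ?_, ?_, ?_, ?_, ?_⟩ <;>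
        first | omega | (rw [mem_Icc]; omega)
    obtain ⟨b', hb', eb⟩ := h3 trivial i hi hia
    obtain ⟨e', he', ee⟩ := h3 trivial j hj hja
    have n3 : c b' ≠ c e' := by omega
    have c3 := AWh2_card3 (h1 b' hb').2.2 (h1 e' he').2.2 n3
    refine ⟨o, ∅, u, {a', b', e'}, admW1 hq h.st.le (Sg_le h1)
      (h.AWh2_room hC (by rw [ec_Sg hnD, h2])) ho hu hou (AWh2_adj hnD hb') (AWh2_adj hnD he') n3
      (by simp) (by simp), by rw [c3, card_empty, hE], ?_⟩
    rw [AWh2_erase ho a0 (h1 b' hb').2.1 (h1 e' he').2.1, c3, hD, card_empty]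
    norm_num

theorem wheel_three (hE : ec (Xe G c) = 3) : FamW G c := by
  obtain ⟨u, hu, hd, -⟩ := h.single hE
  obtain ⟨o, ok, eG, hs, hD⟩ := h.one hu (by omega)
  obtain ⟨a, ha, b, hb, e, he, hab, hae, hbe⟩ := h.wheel_path hq hC hu hs
  have hX : nT G c u = {a, b, e} := by
    refine (eq_of_subset_of_card_le (fun v hv => ?_) ?_).symm
    · simp only [mem_insert, mem_singleton] at hv
      rcases hv with rfl | rfl | rfl <;> assumption
    · rw [AWh2_card3 hab.1.2.2 hae.1.2.2 hbe]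
      exact hd.le
  have hst : ∀ u v, (Hm G c).Adj u v → u = a ∨ v = a := by
    by_cases hk : 3 ≤ ec (Hm G c)
    · obtain ⟨a', h'⟩ := h.AWh2_star hq hC hE hk hu ok.o0 ok.ow hs (by rw [hD, hE]; rfl) hab hae hbe
      have : a = a' := by
        by_contra hn
        exact hbe (congrArg c (((h' a b hab).resolve_left hn).trans
          ((h' a e hae).resolve_left hn).symm))
      rwa [this]
    · have := eq_Sg_of_ec (H := Hm G c) (a := a) (D := {b, e}) (fun v hv => by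
        simp only [mem_insert, mem_singleton] at hv
        rcases hv with rfl | rfl <;> assumption) (by rw [AWh2_card2 hbe]; omega)
      intro u v huv
      rw [this] at huv
      exact huv.2.imp And.left And.left
  obtain ⟨D, hDe, hD'⟩ : ∃ D : Finset V, Hm G c = Sg a D ∧ ∀ v, v ∈ D ↔ (Hm G c).Adj a v :=
    ⟨_, eq_Sg_of_star hst, fun v => by simp⟩
  rw [hDe, hX] at ok eG
  have mp := h.mp_star' ok (fun hh => ((hD' a).mp hh).ne rfl) eG
  have fr : ∀ v, c v ≠ 0 → ∃ y ∉ (D : Set V), c y = c v := fun v hv => by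
    have := h.st.le v
    obtain ⟨y, h1, h2⟩ := h.AWh2_fresh hC (i := c v) (by rw [mem_Icc]; omega)
    exact ⟨y, fun hh => h2 a ((hD' y).mp hh).symm, h1⟩
  refine ⟨u, a, b, e, D, hu, hab.1.1, hab.1.2.1, hae.1.2.1, hbe,
    fun v hv => ((hD' v).mp hv).1.2.1, Or.inl ⟨?_, fun v hv => ((hD' v).mp hv).1.2.2.symm,
      (hD' b).mpr hab, (hD' e).mpr hae, fr b hab.1.2.1, fr e hae.1.2.1⟩⟩
  simpa only [coe_insert, coe_singleton] using mp

theorem wheel_type3 {w : V} (hw : c w = 0) (hs : Sees G 3 c w) (hk : ec (Hm G c) ≤ 2)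
    (hE : ec (Xe G c) = 4 ∨ ec (Xe G c) = 5) : FamW G c := by
  obtain ⟨a, ha, b, hb, e, he, hab, hae, hbe⟩ := h.wheel_path hq hC hw hs
  have hnm := AWh2_nm hab.1.2.2 hae.1.2.2
  have c3 := AWh2_card3 hab.1.2.2 hae.1.2.2 hbe
  have hH := eq_Sg_of_ec (H := Hm G c) (a := a) (D := {b, e}) (fun v hv => by
    simp only [mem_insert, mem_singleton] at hv
    rcases hv with rfl | rfl <;> assumption) (by rw [AWh2_card2 hbe]; omega)
  have hX : nT G c w = {a, b, e} := by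
    refine Subset.antisymm (fun v hv => ?_) (fun v hv => ?_)
    · obtain ⟨y, hy⟩ := h.wheel_cover hq hC hw hs v hv
      rw [hH] at hy
      rcases hy.2 with ⟨rfl, -⟩ | ⟨-, h1⟩
      · exact mem_insert_self _ _
      · exact mem_insert_of_mem h1
    · simp only [mem_insert, mem_singleton] at hv
      rcases hv with rfl | rfl | rfl <;> assumption
  have hd : dT G c w = 3 := by rw [dT, hX, c3]
  obtain ⟨S, hS, hS0⟩ := h.AWh2_set hC (s := ec (Xe G c) - 3) (by omega)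
  obtain ⟨o, ho, how⟩ := h.other w
  have sq := h.squares (admW1 hq h.st.le (Hm_le G c) (h.AWh2_room hC le_rfl) ho hw how hab hae hbe
    hS0 (by omega)) (by omega) (by omega)
  rw [AWh2_erase ho hab.1.1 hab.1.2.1 hae.1.2.1, c3, hS, D2,
    ← add_sum_erase _ _ (mem_Vp.mpr hw), hd] at sq
  have e1 := ec_Xe G c
  rw [← add_sum_erase _ _ (mem_Vp.mpr hw), hd] at e1
  obtain ⟨u, hu, hdu⟩ := sq_one (s := (Vp c 0).erase w) (d := dT G c) (e := ec (Xe G c) - 3)
    (by omega) (by omega) (by omega)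
  have huw := ne_of_mem_erase hu
  have hu0 := mem_Vp.mp (mem_of_mem_erase hu)
  obtain ⟨ok, eG⟩ := h.two hu0 hw huw (by omega)
  rw [hH, hX] at ok eG
  have mp := h.mp_star ok hnm eG
  have hn : ((nT G c u : Finset V) : Set V).ncard = ec (Xe G c) - 3 := by
    rw [Set.ncard_coe_finset]
    exact hdu
  refine ⟨w, a, b, e, nT G c u, hw, hab.1.1, hab.1.2.1, hae.1.2.1, hbe,
    fun v hv => (mem_nT.mp hv).2, Or.inr (Or.inr ⟨u, huw, hu0, ?_, hab.1.2.2, hae.1.2.2,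
      by omega, by omega⟩)⟩
  simpa only [coe_insert, coe_singleton] using mp

end Ctx

end Pool.Agent.P.MP_094db5_co

end
end

section

/-! Wheels: the glued clique, and the main structure theorem. -/

set_option autoImplicit false
set_option linter.unusedSectionVars false

open Finset Classical

noncomputable section

namespace Pool.Agent.P.MP_094db5_co

variable {V : Type} [Fintype V] {q C : ℕ} {G : SimpleGraph V} {x : V → ℝ} {η : ℝ} {c : V → ℕ}
  {z : V}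

omit [Fintype V] in
theorem AWh3_not {o a b : V} (ho : c o = 0) (h : cross c a b) : o ∉ ({a, b} : Finset V) := by
  rw [mem_insert, mem_singleton]
  rintro (rfl | rfl)
  exacts [h.1 ho, h.2.1 ho]

omit [Fintype V] in
theorem AWh3_two {a b : V} (h : cross c a b) : ({a, b} : Finset V).card = 2 :=
  card_pair fun e => h.2.2 (congrArg c e)

omit [Fintype V] in
theorem AWh3_three {o a b : V} (ho : c o = 0) (h : cross c a b) :
    ({o, a, b} : Finset V).card = 3 := by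
  rw [card_insert_of_notMem (AWh3_not ho h), AWh3_two h]

omit [Fintype V] in
theorem AWh3_sum2 {a b : V} (h : cross c a b) : ∑ v ∈ ({a, b} : Finset V), x v = x a + x b :=
  sum_pair fun e => h.2.2 (congrArg c e)

omit [Fintype V] in
theorem AWh3_sum3 {o a b : V} (ho : c o = 0) (h : cross c a b) :
    ∑ v ∈ ({o, a, b} : Finset V), x v = x o + (x a + x b) := by
  rw [sum_insert (AWh3_not ho h), AWh3_sum2 h]

namespace Ctx

variable (h : Ctx 3 C (fun G : SimpleGraph V => (Whl q).Free G) G x η c z) (hq : 2 ≤ q)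
  (hC : 2 * q + 20 ≤ C)
include h hq hC

theorem wheel_pair (hE : ec (Xe G c) = 5) (hs : ∀ w, c w = 0 → ¬ Sees G 3 c w) :
    ∃ o w a b a' b', TgOK 3 c (Hm G c) o {a', b'} w {o, a, b} ∧
      G = Tg c (Hm G c) o {a', b'} w {o, a, b} ∧ cross c a b ∧ c a' = c a ∧ c b' = c b := by
  have hle := h.st.le
  have hp := h.st.proper
  have hn := h.ex.nc
  have a0 : ∀ w, c w = 0 → ∃ v, c v = 0 ∧ v ≠ w ∧ 3 ≤ G.degree v := fun w hw => by
    by_contra hno
    push Not at hno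
    exact hs w hw (one_heavy hle hp hn w hno)
  obtain ⟨w, hw, -, dw⟩ := a0 z h.st.z0
  obtain ⟨w', hw', hne, dw'⟩ := a0 w hw
  have a1 : ∀ v, c v = 0 → v ≠ w → v ≠ w' → G.degree v < 3 := fun v hv h1 h2 => by
    by_contra hd
    have b1 := heavy_count G c (r := 3) {v, w, w'} (by simp [hv, hw, hw', dw, dw', not_lt.1 hd])
    rw [card_insert_of_notMem (by simp [h1, h2]), card_pair hne.symm,
      show (Xe G c).edgeSet.ncard = 5 from hE] at b1
    norm_num at b1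
  have a2 : ∀ u u' : V, (∀ v, c v = 0 → v ≠ u → v ≠ u' → G.degree v < 3) → ∀ i ∈ Icc 1 3,
      (∀ x, G.Adj u x → c x ≠ i) → Sees G 3 (Function.update c u i) u' := fun u u' h1 i hi h2 => by
    have := mem_Icc.1 hi
    exact one_heavy (fun v => by grind) (hp.update h2) hn u' fun v h3 h4 =>
      h1 v (by grind) (by grind) h4
  have a3 := hs w hw
  have a4 := hs w' hw'
  unfold Sees at a3 a4
  push Not at a3 a4
  obtain ⟨i, hi, a3⟩ := a3
  obtain ⟨i', hi', a4⟩ := a4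
  have a5 := a2 w w' a1 i hi fun x h e => a3 x e h
  have a6 := a2 w' w (fun v h1 h2 h3 => a1 v h1 h3 h2) i' hi' fun x h e => a4 x e h
  obtain ⟨a7, a8⟩ : i' = i ∧ G.Adj w' w := by
    obtain ⟨x, h1, h2⟩ := a5 i' hi'
    have := a4 x
    grind
  subst a7
  obtain ⟨j, l, hj, hl, hji, hli, hjl⟩ := exists_third le_rfl i'
  obtain ⟨a, ha, hwa⟩ := a6 j hj
  obtain ⟨b, hb, hwb⟩ := a6 l hl
  obtain ⟨a', ha', hwa'⟩ := a5 j hj
  obtain ⟨b', hb', hwb'⟩ := a5 l hl
  replace ha : c a = j := by grind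
  replace hb : c b = l := by grind
  replace ha' : c a' = j := by grind
  replace hb' : c b' = l := by grind
  have := mem_Icc.1 hj
  have := mem_Icc.1 hl
  have hab : cross c a b := ⟨by omega, by omega, by omega⟩
  have hab' : cross c a' b' := ⟨by omega, by omega, by omega⟩
  have ok : TgOK 3 c (Hm G c) w' {a', b'} w {w', a, b} :=
    ⟨hle, Hm_le G c, hw', hw, hne, by simp [hab'.1, hab'.2.1], by simp [hab.1, hab.2.1]⟩
  exact ⟨w', w, a, b, a', b', ok, eq_Tg hp ok (by simp [hwa', hwb']) (by simp [a8.symm, hwa, hwb])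
    (by rw [AWh3_two hab', AWh3_three hw' hab, hE]), hab, by omega, by omega⟩

omit hC in
theorem AWh3_move {o w a b a' b' s t : V} (ok : TgOK 3 c (Hm G c) o {a', b'} w {o, a, b})
    (e : G = Tg c (Hm G c) o {a', b'} w {o, a, b}) (hab : cross c a b) (ha : c a' = c a)
    (hb : c b' = c b) (hs : c s = c a) (ht : c t = c b) (h1 : x a ≤ x s) (h2 : x a' ≤ x s)
    (h3 : x b ≤ x t) (h4 : x b' ≤ x t) : a = s ∧ a' = s ∧ b = t ∧ b' = t := by
  have hab' : cross c a' b' := by rw [cross, ha, hb]; exact hab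
  have hst : cross c s t := by rw [cross, hs, ht]; exact hab
  have r3 := h.rC
  have ad := admW2 hq ok.le ok.hH (fun i hi => by have := h.room hi; omega) ok.o0 ok.w0 ok.ow hst
  have xo : 0 < x o := h.st.eig.pos_of_adj (v := a') (by
    rw [e, Tg_adj]
    exact Or.inr (Or.inl ⟨fun e' => hab'.1 (e' ▸ ok.o0), Or.inl ⟨rfl, by simp⟩⟩))
    (by linarith [h.pos hab'.1])
  have xw : 0 < x w := h.st.eig.pos_of_adj (v := o) (by
    rw [e, Tg_adj]
    exact Or.inr (Or.inr ⟨ok.ow.symm, Or.inl ⟨rfl, by simp⟩⟩)) xo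
  have e1 := ok.ec_eq
  have e2 := ad.ok.ec_eq
  rw [← e, AWh3_two hab', AWh3_three ok.o0 hab] at e1
  rw [AWh3_two hst, AWh3_three ok.o0 hst] at e2
  have q1 := ok.qf_eq x
  have q2 := ad.ok.qf_eq x
  rw [← e, AWh3_sum2 hab', AWh3_sum3 ok.o0 hab] at q1
  rw [AWh3_sum2 hst, AWh3_sum3 ok.o0 hst] at q2
  have wk := h.ex.weak h.st.eig (by omega) ad.fr ad.nc (by
    rw [q1, q2]
    linarith only [mul_le_mul_of_nonneg_left (add_le_add h2 h4) xo.le,
      mul_le_mul_of_nonneg_left (add_le_add h1 h3) xw.le, h1, h2, h3, h4, xo, xw])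
  have key : ∀ u, c u ≠ 0 → u ∈ ({a', b'} : Finset V) ∨ u ∈ ({o, a, b} : Finset V) →
      u = s ∨ u = t := fun u hu hm => by
    by_contra hno
    have o1 := ok.op_eq x hu
    have o2 := ad.ok.op_eq x hu
    have n1 : u ≠ o := fun e' => hu (e' ▸ ok.o0)
    rw [not_or] at hno
    rw [← e] at o1
    rw [wk u, if_neg (by simp [hno.1, hno.2]), if_neg (by simp [hno.1, hno.2, n1])] at o2
    rcases hm with hm | hm
    · rw [if_pos hm] at o1
      split_ifs at o1 <;> linarith only [xo, xw, o2, o1]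
    · rw [if_pos hm] at o1
      split_ifs at o1 <;> linarith only [xo, xw, o2, o1]
  have := hab.2.2
  exact ⟨(key a hab.1 (by simp)).resolve_right fun e' => this (e' ▸ ht),
    (key a' hab'.1 (by simp)).resolve_right fun e' => this (by rw [← ha, e', ht]),
    (key b hab.2.1 (by simp)).resolve_left fun e' => this (by rw [e', hs]),
    (key b' hab'.2.1 (by simp)).resolve_left fun e' => this (by rw [← hb, e', hs])⟩

theorem wheel_glue (hE : ec (Xe G c) = 5) (hs : ∀ w, c w = 0 → ¬ Sees G 3 c w) :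
    ∃ o w a b, TgOK 3 c (Hm G c) o {a, b} w {o, a, b} ∧ G = Tg c (Hm G c) o {a, b} w {o, a, b} ∧
      cross c a b ∧ (∀ u, ¬ (Hm G c).Adj a u) ∧ ∀ u, ¬ (Hm G c).Adj b u := by
  obtain ⟨o, w, a, b, a', b', ok, e, hab, ha, hb⟩ := h.wheel_pair hq hC hE hs
  obtain ⟨s, s1, s2, s3⟩ : ∃ s, c s = c a ∧ x a ≤ x s ∧ x a' ≤ x s :=
    (le_total (x a) (x a')).elim (fun h => ⟨a', ha, h, le_rfl⟩) fun h => ⟨a, rfl, le_rfl, h⟩
  obtain ⟨t, t1, t2, t3⟩ : ∃ t, c t = c b ∧ x b ≤ x t ∧ x b' ≤ x t :=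
    (le_total (x b) (x b')).elim (fun h => ⟨b', hb, h, le_rfl⟩) fun h => ⟨b, rfl, le_rfl, h⟩
  obtain ⟨rfl, rfl, rfl, rfl⟩ := h.AWh3_move hq ok e hab ha hb s1 t1 s2 s3 t2 t3
  have fr : ∀ v u, (Hm G c).Adj v u → ∃ y, c y = c v ∧ x v < x y := fun v u hv => by
    have := h.room (i := c v) (mem_Icc.2 ⟨Nat.pos_of_ne_zero hv.1.1, h.st.le v⟩)
    obtain ⟨y, y1, -, y2⟩ := exists_fresh (c := c) (Hm G c) ∅ (i := c v) (by
      rw [card_empty]; omega)
    exact ⟨y, y1, h.lt_of_fresh (by omega) hv y1 y2⟩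
  refine ⟨o, w, _, _, ok, e, hab, fun u hu => ?_, fun u hu => ?_⟩
  · obtain ⟨y, y1, y2⟩ := fr _ u hu
    exact y2.ne (congrArg x (h.AWh3_move hq ok e hab rfl rfl y1 rfl y2.le y2.le le_rfl le_rfl).1)
  · obtain ⟨y, y1, y2⟩ := fr _ u hu
    exact y2.ne
      (congrArg x (h.AWh3_move hq ok e hab rfl rfl rfl y1 le_rfl le_rfl y2.le y2.le).2.2.1)

theorem wheel_type2 (hE : ec (Xe G c) = 5) (hk : ec (Hm G c) ≤ 2)
    (hs : ∀ w, c w = 0 → ¬ Sees G 3 c w) : FamW G c := by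
  obtain ⟨o, w, a, b, ok, e, hab, ha, hb⟩ := h.wheel_glue hq hC hE hs
  have c5 : ({a, b} : Finset V).card + ({o, a, b} : Finset V).card = ec (Xe G c) := by
    rw [AWh3_two hab, AWh3_three ok.o0 hab, hE]
  obtain ⟨y, y0, ya, yb, st⟩ : ∃ y, c y ≠ 0 ∧ y ≠ a ∧ y ≠ b ∧
      ∀ u v, (Hm G c).Adj u v → u = y ∨ v = y := by
    rcases Nat.eq_zero_or_pos (ec (Hm G c)) with k0 | k0
    · have := h.room (i := 1) (by simp)
      obtain ⟨y, y1, y2, -⟩ := exists_fresh (c := c) (Hm G c) {a, b} (i := 1) (by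
        rw [AWh3_two hab]; omega)
      rw [mem_insert, mem_singleton, not_or] at y2
      exact ⟨y, by omega, y2.1, y2.2, fun u v huv => by simp [ec_eq_zero.1 k0] at huv⟩
    obtain ⟨u₀, v₀, h0⟩ := exists_adj_of_ec k0
    obtain ⟨y, st⟩ : ∃ y, ∀ u v, (Hm G c).Adj u v → u = y ∨ v = y := by
      rcases Nat.lt_or_ge (ec (Hm G c)) 2 with k1 | k1
      · refine ⟨u₀, fun u v huv => ?_⟩
        rw [eq_Sg_of_ec (H := Hm G c) (a := u₀) (D := {v₀}) (by simpa using h0) (by simp; omega)] at huv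
        exact huv.2.imp And.left And.left
      refine h.star (by omega) k1 (fun i hi j hj hij hle => ?_) False (fun f => f.elim)
        fun y D hD hc _ => ?_
      · have := h.gap bot_le c5 (by omega) (fun c' H h1 h2 h3 _ h5 h6 =>
          admW2 hq h1 h5 h6 ((h2 o).2 ok.o0) ((h2 w).2 ok.w0) ok.ow (by
            rw [cross, h3 a (by simp), h3 b (by simp)]; exact hab)) hi hj hij hle
        rw [ec_bot] at this
        omega
      · refine ⟨o, {a, b}, w, {o, a, b}, admW2 hq ok.le (Sg_le hD) (fun i hi => ?_) ok.o0 ok.w0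
          ok.ow hab, c5, ?_⟩
        · have := h.room hi
          rw [ec_Sg fun hy => (hD y hy).2.2 rfl]
          omega
        · rw [erase_insert (AWh3_not ok.o0 hab), AWh3_two hab]
          have nb : ∀ u, c u = 0 → ∀ v ∈ nT G c u, (u = o ∨ u = w) ∧ (v = a ∨ v = b) :=
            fun u hu v hv => by
              obtain ⟨h1, h2⟩ := mem_nT.1 hv
              rw [e, Tg_adj] at h1
              have := ok.o0
              have := ok.w0
              simp only [cross, mem_insert, mem_singleton] at h1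
              grind
          have nc : ∀ u, c u = 0 → dT G c u ^ 2 ≤ 2 ^ 2 := fun u hu =>
            Nat.pow_le_pow_left ((card_le_card fun v hv => by
              simpa using (nb u hu v hv).2).trans (card_le_two (a := a) (b := b))) 2
          refine (sum_le_sum_of_ne_zero (t := {o, w}) fun u hu h0 => ?_).trans ?_
          · obtain ⟨v, hv⟩ := card_ne_zero.1 (ne_zero_pow two_ne_zero h0)
            simpa using (nb u (mem_Vp.1 hu) v hv).1
          · rw [sum_pair ok.ow]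
            exact add_le_add (nc o ok.o0) (nc w ok.w0)
    obtain ⟨v, hv⟩ : ∃ v, (Hm G c).Adj y v :=
      (st _ _ h0).elim (fun e' => ⟨v₀, e' ▸ h0⟩) fun e' => ⟨u₀, e' ▸ h0.symm⟩
    exact ⟨y, hv.1.1, fun e' => ha v (e' ▸ hv), fun e' => hb v (e' ▸ hv), st⟩
  have es := eq_Sg_of_star st
  obtain ⟨D, hD⟩ : ∃ D, D = univ.filter fun v => (Hm G c).Adj y v := ⟨_, rfl⟩
  have mD : ∀ v ∈ D, (Hm G c).Adj y v := fun v hv => by simpa [hD] using hv
  have yD : y ∉ D := fun hy => (mD y hy).ne rfl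
  rw [← hD] at es
  have mp := h.mp_star (es ▸ ok) yD (es ▸ e)
  rw [es, ec_Sg yD] at hk
  refine ⟨w, y, a, b, D, ok.w0, y0, hab.1, hab.2.1, hab.2.2, fun v hv => (mD v hv).1.2.1,
    Or.inr (Or.inl ⟨o, ok.ow, ok.o0, by simpa using mp, fun v hv => (mD v hv).1.2.2.symm,
      by rwa [Set.ncard_coe_finset], ya, yb, fun hv => ha y (mD a hv).symm,
      fun hv => hb y (mD b hv).symm⟩)⟩

theorem wheel_fam : ∃ c', FamW G c' ∧ NI G c' := by
  rcases le_or_gt (ec (Hm G c) + 6) (ec (Xe G c)) with h1 | h1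
  · by_cases hz : Sees G 3 c z
    · exact (h.wheel_sees hq hC hz h1).elim
    obtain ⟨l, hl, hz'⟩ : ∃ l ∈ Icc 1 3, ∀ v ∈ nT G c z, c v ≠ l := by
      by_contra hn
      push Not at hn
      exact hz fun l hl => let ⟨v, hv, e⟩ := hn l hl; ⟨v, e, (mem_nT.1 hv).1⟩
    exact h.wheel_avoid hq hC hl hz' h1
  refine ⟨c, ?_, h.ni⟩
  rcases h.wheel_E hq hC (by omega) with e | ⟨e, e'⟩ | ⟨e, e'⟩
  · exact h.wheel_three hq hC e
  · obtain ⟨w, hw, hs⟩ := h.sees_small (by omega)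
    exact h.wheel_type3 hq hC hw hs e'.le (Or.inl e)
  · by_cases hs : ∃ w, c w = 0 ∧ Sees G 3 c w
    · obtain ⟨w, hw, hs⟩ := hs
      exact h.wheel_type3 hq hC hw hs e' (Or.inr e)
    · exact h.wheel_type2 hq hC e e' fun w hw a => hs ⟨w, hw, a⟩

end Ctx

end Pool.Agent.P.MP_094db5_co

end
end

section

/-! The structure theorems. -/

set_option autoImplicit false

open Finset Classical

noncomputable section

namespace Pool.Agent.P.MP_094db5_co

theorem exists_ctx {r : ℕ} (hr : 3 ≤ r) (D t C : ℕ) (hC : r ≤ C) : ∃ m₀ : ℕ,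
    ∀ (V : Type) [Fintype V] (Fr : SimpleGraph V → Prop) (G : SimpleGraph V), Cls r D t Fr →
      Ex r Fr G → m₀ ≤ ec G → ∃ x η c z, Ctx r C Fr G x η c z := by
  have h0 : (0 : ℝ) < 10 ^ 5 * C ^ 5 := by
    have : 0 < C := by omega
    positivity
  obtain ⟨M, h⟩ := exists_st hr D t (one_div_pos.2 h0)
  refine ⟨⌈M⌉₊, fun V _ Fr G h1 h2 h3 => ?_⟩
  have h4 := Nat.ceil_le.1 h3
  have h5 : (0 : ℝ) ≤ ec G := Nat.cast_nonneg _
  obtain ⟨x, c, z, hs⟩ := h V Fr G h1 h2 (by rw [Mo_ec]; linarith)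
  exact ⟨x, _, c, z, h2, hs, hr, hC, one_div_pos.2 h0, (mul_one_div_cancel h0.ne').le⟩

theorem book_all {r : ℕ} (hr : 3 ≤ r) (t : ℕ) : ∃ m₀ : ℕ, ∀ m, m₀ ≤ m →
    ∀ (V : Type) [Fintype V] (G : SimpleGraph V),
    (InN (join (⊤ : SimpleGraph (Fin r)) (⊥ : SimpleGraph (Fin (t + 1)))) r m G ∧
      ∀ (W : Type) [Fintype W] (H : SimpleGraph W),
        InN (join (⊤ : SimpleGraph (Fin r)) (⊥ : SimpleGraph (Fin (t + 1)))) r m H →
          lam H ≤ lam G) ↔
    (G.edgeSet.ncard = m ∧ ∃ c, FamB r t G c) ∧ ∀ (W : Type) [Fintype W] (H : SimpleGraph W),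
      (H.edgeSet.ncard = m ∧ ∃ c, FamB r t H c) → lam H ≤ lam G := by
  obtain ⟨m₀, h⟩ := exists_ctx hr t (t + 1) (4 * r * (t + 1)) (by nlinarith only [hr])
  have hF : ∀ a, ∃ b, (join (⊤ : SimpleGraph (Fin r)) (⊥ : SimpleGraph (Fin (t + 1)))).Adj a b := by
    rintro (a | a)
    · exact ⟨Sum.inr 0, by simp [join]⟩
    · exact ⟨Sum.inl ⟨0, by omega⟩, by simp [join]⟩
  refine ⟨m₀, fun m hm => iff_of_fam (by omega) hF (fun V _ G => ∃ c, FamB r t G c)
    (fun V _ G ⟨c, hc⟩ => ⟨free_of_noBook (hc.noBook hr), hc.nc hr⟩) fun V _ G h1 h2 => ?_⟩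
  obtain ⟨h3, h4⟩ := ex_of_extremal h1 (by omega) hF h2
  obtain ⟨x, η, c, z, hc⟩ := h _ (fun G => NoBook G r t) _ (cls_book hr t)
    ⟨noBook_of_free h3.fr, h3.nc, fun H a b => h3.max H a (free_of_noBook b), h3.iso⟩ (hm.trans h4.ge)
  obtain ⟨c', h5, h6⟩ := hc.book_fam le_rfl
  exact ⟨_, h5.comap Sum.inl_injective (by omega) h6⟩

theorem wheel_all {q : ℕ} (hq : 2 ≤ q) : ∃ m₀ : ℕ, ∀ m, m₀ ≤ m →
    ∀ (V : Type) [Fintype V] (G : SimpleGraph V),
    (InN (Whl q) 3 m G ∧ ∀ (W : Type) [Fintype W] (H : SimpleGraph W),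
      InN (Whl q) 3 m H → lam H ≤ lam G) ↔
    (G.edgeSet.ncard = m ∧ ∃ c, FamW G c) ∧ ∀ (W : Type) [Fintype W] (H : SimpleGraph W),
      (H.edgeSet.ncard = m ∧ ∃ c, FamW H c) → lam H ≤ lam G := by
  obtain ⟨m₀, h⟩ := exists_ctx le_rfl (2 * q) (2 * q + 3) (2 * q + 20) (by omega)
  have hF : ∀ a, ∃ b, (Whl q).Adj a b := by
    rintro (a | a)
    · exact ⟨Sum.inr 0, by simp [join]⟩
    · exact ⟨Sum.inl 0, by simp [join]⟩
  refine ⟨m₀, fun m hm => iff_of_fam (by omega) hF (fun V _ G => ∃ c, FamW G c)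
    (fun V _ G ⟨c, hc⟩ => ⟨hc.free hq, hc.nc⟩) fun V _ G h1 h2 => ?_⟩
  obtain ⟨h3, h4⟩ := ex_of_extremal h1 (by omega) hF h2
  obtain ⟨x, η, c, z, hc⟩ := h _ _ _ (cls_wheel hq) h3 (hm.trans h4.ge)
  obtain ⟨c', h5, h6⟩ := hc.wheel_fam hq le_rfl
  exact ⟨_, h5.comap Sum.inl_injective h6⟩

end Pool.Agent.P.MP_094db5_co

end
end
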