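import Pool.Agent.P.MP_094db5_co.Defs

section

set_option autoImplicit false

open Finset Classical

noncomputable section

namespace Pool.Agent.P.MP_094db5_co

variable {V : Type} [Fintype V]

/-- double sum -/
def S2 (f : V → V → ℝ) : ℝ := ∑ u, ∑ v, f u v

lemma S2_add (f g : V → V → ℝ) : S2 f + S2 g = S2 fun u v => f u v + g u v := by
  simp [S2, sum_add_distrib]

lemma S2_sub (f g : V → V → ℝ) : S2 f - S2 g = S2 fun u v => f u v - g u v := by
  simp [S2, sum_sub_distrib]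

lemma S2_mul (a : ℝ) (f : V → V → ℝ) : a * S2 f = S2 fun u v => a * f u v := by
  simp [S2, mul_sum]

lemma S2_mono {f g : V → V → ℝ} (h : ∀ u v, f u v ≤ g u v) : S2 f ≤ S2 g :=
  sum_le_sum fun u _ => sum_le_sum fun v _ => h u v

lemma S2_congr {f g : V → V → ℝ} (h : ∀ u v, f u v = g u v) : S2 f = S2 g :=
  sum_congr rfl fun u _ => sum_congr rfl fun v _ => h u v

lemma S2_nonneg {f : V → V → ℝ} (h : ∀ u v, 0 ≤ f u v) : 0 ≤ S2 f :=
  sum_nonneg fun u _ => sum_nonneg fun v _ => h u v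

lemma S2_comm (f : V → V → ℝ) : S2 f = S2 fun u v => f v u := sum_comm

lemma S2_prod (f g : V → ℝ) : (∑ u, f u) * (∑ v, g v) = S2 fun u v => f u * g v :=
  sum_mul_sum _ _ _ _

lemma S2_single {f : V → V → ℝ} (h : ∀ u v, 0 ≤ f u v) (a b : V) : f a b ≤ S2 f :=
  (single_le_sum (f := f a) (fun v _ => h a v) (mem_univ b)).trans
    (single_le_sum (f := fun u => ∑ v, f u v) (fun u _ => sum_nonneg fun v _ => h u v) (mem_univ a))

/-- adjacency indicator -/
def ad (G : SimpleGraph V) (u v : V) : ℝ := if G.Adj u v then 1 else 0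

omit [Fintype V] in
lemma ad_nonneg (G : SimpleGraph V) (u v : V) : 0 ≤ ad G u v := by
  unfold ad; split_ifs <;> norm_num

omit [Fintype V] in
lemma ad_le_one (G : SimpleGraph V) (u v : V) : ad G u v ≤ 1 := by
  unfold ad; split_ifs <;> norm_num

omit [Fintype V] in
lemma ad_comm (G : SimpleGraph V) (u v : V) : ad G u v = ad G v u := by
  simp [ad, G.adj_comm]

omit [Fintype V] in
lemma ad_mono {G H : SimpleGraph V} (h : H ≤ G) (u v : V) : ad H u v ≤ ad G u v := by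
  unfold ad
  by_cases h1 : H.Adj u v
  · simp [h1, h h1]
  · rw [if_neg h1]; split_ifs <;> norm_num

/-- quadratic form -/
def qf (G : SimpleGraph V) (x : V → ℝ) : ℝ := S2 fun u v => ad G u v * (x u * x v)

/-- twice the number of edges -/
def Mo (G : SimpleGraph V) : ℝ := S2 (ad G)

lemma Mo_nonneg (G : SimpleGraph V) : 0 ≤ Mo G := S2_nonneg (ad_nonneg G)

lemma Mo_mono {G H : SimpleGraph V} (h : H ≤ G) : Mo H ≤ Mo G := S2_mono (ad_mono h)

lemma sum_ad (G : SimpleGraph V) (u : V) : ∑ v, ad G u v = G.degree u := by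
  rw [← SimpleGraph.card_neighborFinset_eq_degree, SimpleGraph.neighborFinset_eq_filter]
  simp [ad]

lemma Mo_eq (G : SimpleGraph V) : Mo G = 2 * (G.edgeSet.ncard : ℝ) := by
  have h := G.sum_degrees_eq_twice_card_edges
  rw [Set.ncard_eq_toFinset_card', Mo, S2]
  simp only [sum_ad]
  exact_mod_cast h

lemma qf_nonneg (G : SimpleGraph V) {x : V → ℝ} (hx : ∀ v, 0 ≤ x v) : 0 ≤ qf G x :=
  S2_nonneg fun u v => mul_nonneg (ad_nonneg G u v) (mul_nonneg (hx u) (hx v))

lemma qf_eq (G : SimpleGraph V) (x : V → ℝ) : qf G x = ∑ u, x u * ∑ v, ad G u v * x v := by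
  simp only [qf, S2, mul_sum]
  exact sum_congr rfl fun u _ => sum_congr rfl fun v _ => by ring

lemma mulVec_eq (G : SimpleGraph V) (x : V → ℝ) (u : V) :
    (G.adjMatrix ℝ).mulVec x u = ∑ v, ad G u v * x v := by
  simp [Matrix.mulVec, dotProduct, ad]

lemma posSemidef_lam (G : SimpleGraph V) :
    (algebraMap ℝ (Matrix V V ℝ) (lam G) - G.adjMatrix ℝ).PosSemidef := by
  rw [Matrix.posSemidef_iff_isHermitian_and_spectrum_nonneg]
  constructor
  · refine Matrix.IsHermitian.sub ?_ (G.isHermitian_adjMatrix ℝ)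
    rw [Matrix.algebraMap_eq_diagonal]
    exact Matrix.isHermitian_diagonal _
  · rw [← spectrum.singleton_sub_eq]
    rintro _ ⟨a, rfl, b, hb, rfl⟩
    exact sub_nonneg.2 (le_csSup (Matrix.finite_real_spectrum).bddAbove hb)

lemma dot_lam (G : SimpleGraph V) (x : V → ℝ) :
    star x ⬝ᵥ (algebraMap ℝ (Matrix V V ℝ) (lam G) - G.adjMatrix ℝ).mulVec x =
      lam G * ∑ v, x v ^ 2 - qf G x := by
  rw [Matrix.sub_mulVec, dotProduct_sub, qf_eq, Algebra.algebraMap_eq_smul_one,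
    Matrix.smul_mulVec, Matrix.one_mulVec]
  simp only [dotProduct, mulVec_eq, star_trivial, Pi.smul_apply, smul_eq_mul, mul_sum]
  congr 1
  exact sum_congr rfl fun u _ => by ring

lemma qf_le_lam (G : SimpleGraph V) (x : V → ℝ) : qf G x ≤ lam G * ∑ v, x v ^ 2 := by
  have := (posSemidef_lam G).dotProduct_mulVec_nonneg x
  rw [dot_lam] at this
  linarith

lemma eigen_of_eq (G : SimpleGraph V) {x : V → ℝ} (h : lam G * ∑ v, x v ^ 2 ≤ qf G x) (u : V) :
    ∑ v, ad G u v * x v = lam G * x u := by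
  have h1 := ((posSemidef_lam G).dotProduct_mulVec_zero_iff x).1 (by
    rw [dot_lam]; linarith [qf_le_lam G x])
  have h2 := congrFun h1 u
  rw [Matrix.sub_mulVec, Algebra.algebraMap_eq_smul_one, Matrix.smul_mulVec, Matrix.one_mulVec,
    Pi.sub_apply, mulVec_eq] at h2
  simp only [Pi.smul_apply, smul_eq_mul, Pi.zero_apply] at h2
  linarith

/-- Perron vector -/
structure Perron (G : SimpleGraph V) (x : V → ℝ) : Prop where
  nonneg : ∀ v, 0 ≤ x v
  unit : ∑ v, x v ^ 2 = 1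
  eig : ∀ u, ∑ v, ad G u v * x v = lam G * x u
  val : qf G x = lam G

lemma exists_perron [Nonempty V] (G : SimpleGraph V) : ∃ x, Perron G x := by
  have hA := G.isHermitian_adjMatrix ℝ
  have hmem : lam G ∈ spectrum ℝ (G.adjMatrix ℝ) := by
    refine Set.Nonempty.csSup_mem ?_ Matrix.finite_real_spectrum
    rw [hA.spectrum_real_eq_range_eigenvalues]
    exact Set.range_nonempty _
  rw [hA.spectrum_real_eq_range_eigenvalues] at hmem
  obtain ⟨i, hi⟩ := hmem
  have h1 := hA.mulVec_eigenvectorBasis i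
  have h2 : ∑ v, (hA.eigenvectorBasis i v) ^ 2 = 1 := by
    have := EuclideanSpace.real_norm_sq_eq (hA.eigenvectorBasis i)
    rw [hA.eigenvectorBasis.orthonormal.1 i] at this
    linarith
  generalize (hA.eigenvectorBasis i).ofLp = y at h1 h2
  have h3 : qf G y = lam G := by
    rw [qf_eq]
    simp only [← mulVec_eq, h1, hi, Pi.smul_apply, smul_eq_mul]
    calc ∑ u, y u * (lam G * y u) = lam G * ∑ u, y u ^ 2 := by
          rw [mul_sum]; exact sum_congr rfl fun u _ => by ring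
      _ = _ := by rw [h2, mul_one]
  have h4 : ∑ v, |y v| ^ 2 = 1 := by simpa only [sq_abs] using h2
  have h5 : lam G ≤ qf G fun v => |y v| := by
    rw [← h3]
    refine S2_mono fun u v => mul_le_mul_of_nonneg_left ?_ (ad_nonneg G u v)
    rw [← abs_mul]; exact le_abs_self _
  have h6 := qf_le_lam G fun v => |y v|
  rw [h4, mul_one] at h6
  exact ⟨fun v => |y v|, fun v => abs_nonneg _, h4, eigen_of_eq G (by rw [h4, mul_one]; exact h5),
    le_antisymm h6 h5⟩

lemma lam_nonneg [Nonempty V] (G : SimpleGraph V) : 0 ≤ lam G := by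
  obtain ⟨x, hx⟩ := exists_perron G
  rw [← hx.val]; exact qf_nonneg G hx.nonneg

lemma nonempty_of_Mo {G : SimpleGraph V} (h : 0 < Mo G) : Nonempty V := by
  by_contra hn
  rw [not_nonempty_iff] at hn
  simp [Mo, S2] at h

/-- deviation -/
def Dev (G : SimpleGraph V) (x : V → ℝ) (μ : ℝ) : ℝ := S2 fun u v => ad G u v * (x u * x v - μ) ^ 2

lemma Dev_nonneg (G : SimpleGraph V) (x : V → ℝ) (μ : ℝ) : 0 ≤ Dev G x μ :=
  S2_nonneg fun u v => mul_nonneg (ad_nonneg G u v) (sq_nonneg _)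

lemma Dev_eq (G : SimpleGraph V) (x : V → ℝ) (μ : ℝ) :
    Dev G x μ = qf G (fun v => x v ^ 2) - 2 * μ * qf G x + μ ^ 2 * Mo G := by
  simp only [Dev, qf, Mo, S2_mul, S2_sub, S2_add]
  exact S2_congr fun u v => by ring

lemma qf_sq_le (G : SimpleGraph V) {x : V → ℝ} (hx : ∑ v, x v ^ 2 = 1) : qf G x ^ 2 ≤ Mo G := by
  have h1 : qf G (fun v => x v ^ 2) ≤ 1 := by
    calc qf G (fun v => x v ^ 2) ≤ S2 fun u v => x u ^ 2 * x v ^ 2 :=
          S2_mono fun u v => mul_le_of_le_one_left (by positivity) (ad_le_one G u v)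
      _ = 1 := by rw [← S2_prod, hx, mul_one]
  rcases (Mo_nonneg G).eq_or_lt with h | h
  · by_contra hn
    have hq : qf G x ≠ 0 := fun h0 => hn (by rw [h0, ← h]; norm_num)
    have := Dev_nonneg G x (qf G x)⁻¹
    rw [Dev_eq, ← h, mul_assoc, inv_mul_cancel₀ hq] at this
    linarith
  · have := Dev_nonneg G x (qf G x / Mo G)
    rw [Dev_eq] at this
    have e : 2 * (qf G x / Mo G) * qf G x - (qf G x / Mo G) ^ 2 * Mo G = qf G x ^ 2 / Mo G := by
      field_simp; ring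
    have : qf G x ^ 2 / Mo G ≤ 1 := by linarith only [h1, this, e]
    rwa [div_le_one h] at this

end Pool.Agent.P.MP_094db5_co

end
end

section

set_option autoImplicit false

open Finset Classical

noncomputable section

namespace Pool.Agent.P.MP_094db5_co

variable {V : Type} [Fintype V]

/-- neighbours inside a finite set -/
def nb (G : SimpleGraph V) (S : Finset V) (v : V) : Finset V := S.filter (G.Adj v)

omit [Fintype V] in
@[simp] lemma mem_nb {G : SimpleGraph V} {S : Finset V} {v u : V} :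
    u ∈ nb G S v ↔ u ∈ S ∧ G.Adj v u := mem_filter

/-- weighted count of ordered cliques -/
def tau (G : SimpleGraph V) (p : V → ℝ) : ℕ → Finset V → ℝ
  | 0, _ => 1
  | j + 1, S => ∑ v ∈ S, p v * tau G p j (nb G S v)

omit [Fintype V] in
lemma tau_succ (G : SimpleGraph V) (p : V → ℝ) (j : ℕ) (S : Finset V) :
    tau G p (j + 1) S = ∑ v ∈ S, p v * tau G p j (nb G S v) := rfl

omit [Fintype V] in
lemma tau_nonneg (G : SimpleGraph V) {p : V → ℝ} (hp : ∀ v, 0 ≤ p v) (j : ℕ) (S : Finset V) :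
    0 ≤ tau G p j S := by
  induction j generalizing S with
  | zero => exact zero_le_one
  | succ j ih => exact sum_nonneg fun v _ => mul_nonneg (hp v) (ih _)

/-- common neighbourhoods of cliques of size r-1 are degenerate -/
def Deg (G : SimpleGraph V) (r D : ℕ) : Prop :=
  ∀ K : Finset V, G.IsNClique (r - 1) K → ∀ S : Finset V, S.Nonempty →
    (∀ v ∈ S, ∀ u ∈ K, G.Adj u v) → ∃ v ∈ S, (nb G S v).card ≤ D

omit [Fintype V] in
lemma Deg.mono {G H : SimpleGraph V} {r D : ℕ} (h : Deg G r D) (hle : H ≤ G) : Deg H r D := by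
  intro K hK S hS hadj
  obtain ⟨v, hv, h1⟩ := h K (hK.mono hle) S hS fun v hv u hu => hle (hadj v hv u hu)
  refine ⟨v, hv, (card_le_card fun u hu => ?_).trans h1⟩
  rw [mem_nb] at hu ⊢
  exact ⟨hu.1, hle hu.2⟩

omit [Fintype V] in
lemma tau_clique {G : SimpleGraph V} {p : V → ℝ} (j : ℕ) :
    ∀ (n : ℕ) (K S : Finset V), G.IsNClique n K → G.CliqueFree (n + j) →
      (∀ v ∈ S, ∀ u ∈ K, G.Adj u v) → tau G p j S = 0 := by
  induction j with
  | zero => exact fun n K S hK hf _ => (hf K hK).elim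
  | succ j ih =>
    intro n K S hK hf hS
    refine sum_eq_zero fun v hv => mul_eq_zero_of_right _ (ih (n + 1) (insert v K) _
      (hK.insert fun u hu => (hS v hv u hu).symm) (by rwa [add_right_comm, add_assoc]) ?_)
    intro w hw u hu
    rw [mem_nb] at hw
    rcases mem_insert.1 hu with rfl | hu
    · exact hw.2
    · exact hS w hw.1 u hu

omit [Fintype V] in
lemma tau_two_le {G : SimpleGraph V} {p : V → ℝ} (hp : ∀ v, 0 ≤ p v) {D : ℕ} {h : ℝ}
    (S : Finset V) (hS : ∀ T ⊆ S, T.Nonempty → ∃ v ∈ T, (nb G T v).card ≤ D)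
    (hl : ∀ v ∈ S, p v ≤ h) : tau G p 2 S ≤ 2 * D * h * ∑ v ∈ S, p v := by
  have e : ∀ S : Finset V, tau G p 2 S = ∑ v ∈ S, ∑ u ∈ S, ad G v u * (p v * p u) := fun S => by
    simp only [tau, mul_one, nb, sum_filter, mul_sum, ad]
    refine sum_congr rfl fun v _ => sum_congr rfl fun u _ => ?_
    split_ifs <;> simp
  rw [e]
  induction S using Finset.strongInduction with
  | H S ih =>
    rcases S.eq_empty_or_nonempty with rfl | hne
    · simp
    obtain ⟨v, hv, hD⟩ := hS S subset_rfl hne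
    have h0 : 0 ≤ h := (hp v).trans (hl v hv)
    have h1 := ih (S.erase v) (erase_ssubset hv)
      (fun T hT => hS T (hT.trans (erase_subset _ _))) fun u hu => hl u (mem_of_mem_erase hu)
    have h2 : ∑ u ∈ S.erase v, ad G v u * (p v * p u) ≤ D * h * p v := by
      calc ∑ u ∈ S.erase v, ad G v u * (p v * p u) ≤ ∑ u ∈ S, ad G v u * (p v * h) := by
            refine (sum_le_sum fun u hu => ?_).trans (sum_le_sum_of_subset_of_nonneg
              (erase_subset v S) fun u _ _ => mul_nonneg (ad_nonneg _ _ _) (mul_nonneg (hp v) h0))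
            exact mul_le_mul_of_nonneg_left (mul_le_mul_of_nonneg_left
              (hl u (mem_of_mem_erase hu)) (hp v)) (ad_nonneg _ _ _)
        _ = (nb G S v).card * (p v * h) := by
            rw [← sum_mul]
            simp [ad, nb]
        _ ≤ D * (p v * h) := mul_le_mul_of_nonneg_right (by exact_mod_cast hD)
            (mul_nonneg (hp v) h0)
        _ = _ := by ring
    have h3 : ∑ u ∈ S.erase v, ad G u v * (p u * p v) =
        ∑ u ∈ S.erase v, ad G v u * (p v * p u) :=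
      sum_congr rfl fun u _ => by rw [ad_comm, mul_comm (p u)]
    have h4 : ad G v v = 0 := by simp [ad]
    simp only [← add_sum_erase S _ hv, sum_add_distrib]
    rw [h3, h4]
    linarith

omit [Fintype V] in
lemma tau_light {G : SimpleGraph V} {p : V → ℝ} (hp : ∀ v, 0 ≤ p v) {r D : ℕ} {h : ℝ}
    (h0 : 0 ≤ h) (hG : Deg G r D) (j : ℕ) : ∀ (n : ℕ) (K S : Finset V), G.IsNClique n K →
      n + j = r - 1 → (∀ v ∈ S, ∀ u ∈ K, G.Adj u v) → (∀ v ∈ S, p v ≤ h) → ∑ v ∈ S, p v ≤ 1 →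
      tau G p (j + 2) S ≤ 2 * D * h := by
  induction j with
  | zero =>
    intro n K S hK hn hS hl h1
    rw [add_zero] at hn
    refine (tau_two_le hp S (fun T hT hne => hG K (hn ▸ hK) T hne fun v hv => hS v (hT hv))
      hl).trans (mul_le_of_le_one_right (by positivity) h1)
  | succ j ih =>
    intro n K S hK hn hS hl h1
    calc tau G p (j + 1 + 2) S = ∑ v ∈ S, p v * tau G p (j + 2) (nb G S v) := rfl
      _ ≤ ∑ v ∈ S, p v * (2 * D * h) := by
          refine sum_le_sum fun v hv => mul_le_mul_of_nonneg_left (ih (n + 1) (insert v K) _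
            (hK.insert fun u hu => (hS v hv u hu).symm) (by omega) ?_
            (fun u hu => hl u (mem_nb.1 hu).1) ((sum_le_sum_of_subset_of_nonneg
              (filter_subset _ _) fun u _ _ => hp u).trans h1)) (hp v)
          intro w hw u hu
          rw [mem_nb] at hw
          rcases mem_insert.1 hu with rfl | hu
          · exact hw.2
          · exact hS w hw.1 u hu
      _ ≤ _ := by
          rw [← sum_mul]
          exact mul_le_of_le_one_left (by positivity) h1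

omit [Fintype V] in
lemma tau_heavy {G : SimpleGraph V} {p : V → ℝ} (L : V → Prop)
    (hL : ∀ u v, G.Adj u v → L u ∨ L v) (j : ℕ) : ∀ S : Finset V,
    tau G p (j + 1) S = tau G p (j + 1) (S.filter L) +
      (j + 1) * ∑ a ∈ S.filter (fun a => ¬ L a), p a * tau G p j (nb G (S.filter L) a) := by
  induction j with
  | zero =>
    intro S
    simp only [tau, mul_one, Nat.cast_zero, zero_add, one_mul]
    exact (sum_filter_add_sum_filter_not _ _ _).symm
  | succ j ih =>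
    intro S
    rw [tau_succ, ← sum_filter_add_sum_filter_not S L]
    have e1 : ∀ a ∈ S.filter (fun a => ¬ L a), nb G S a = nb G (S.filter L) a := fun a ha => by
      ext u
      simp only [mem_nb, mem_filter] at ha ⊢
      exact ⟨fun h => ⟨⟨h.1, (hL a u h.2).resolve_left ha.2⟩, h.2⟩, fun h => ⟨h.1.1, h.2⟩⟩
    have e2 : ∀ v, (nb G S v).filter L = nb G (S.filter L) v := fun v => by
      ext u
      simp only [mem_nb, mem_filter]
      tauto
    have e3 : ∑ v ∈ S.filter L, p v * ∑ a ∈ (nb G S v).filter (fun a => ¬ L a),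
        p a * tau G p j (nb G (nb G (S.filter L) v) a) =
        ∑ a ∈ S.filter (fun a => ¬ L a), p a * tau G p (j + 1) (nb G (S.filter L) a) := by
      simp only [tau_succ, mul_sum]
      rw [sum_comm' (t' := S.filter (fun a => ¬ L a)) (s' := fun a => nb G (S.filter L) a)]
      · refine sum_congr rfl fun a _ => sum_congr rfl fun v _ => ?_
        have : nb G (nb G (S.filter L) v) a = nb G (nb G (S.filter L) a) v := by
          ext u
          simp only [mem_nb]
          tauto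
        rw [this]
        ring
      · intro v a
        simp only [mem_nb, mem_filter, G.adj_comm v a]
        tauto
    have e4 : ∑ a ∈ S.filter (fun a => ¬ L a), p a * tau G p (j + 1) (nb G S a) =
        ∑ a ∈ S.filter (fun a => ¬ L a), p a * tau G p (j + 1) (nb G (S.filter L) a) :=
      sum_congr rfl fun a ha => by rw [e1 a ha]
    have e5 : ∑ v ∈ S.filter L, p v * tau G p (j + 1) (nb G S v) =
        tau G p (j + 1 + 1) (S.filter L) + (j + 1) *
          ∑ a ∈ S.filter (fun a => ¬ L a), p a * tau G p (j + 1) (nb G (S.filter L) a) := by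
      rw [← e3, tau_succ G p (j + 1) (S.filter L), mul_sum, ← sum_add_distrib]
      refine sum_congr rfl fun v _ => ?_
      rw [ih (nb G S v), e2]
      ring
    rw [e4, e5]
    push_cast
    ring

lemma tau_bound {G : SimpleGraph V} {p : V → ℝ} (hp : ∀ v, 0 ≤ p v) (h1 : ∑ v, p v ≤ 1)
    {r D : ℕ} (hr : 2 ≤ r) {h : ℝ} (h0 : 0 ≤ h) (hG : Deg G r D)
    (hL : ∀ u v, G.Adj u v → p u ≤ h ∨ p v ≤ h) :
    tau G p (r + 1) univ ≤ (r + 2) * (2 * D * h) := by
  have hs : ∀ S : Finset V, ∑ v ∈ S, p v ≤ 1 := fun S =>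
    (sum_le_sum_of_subset_of_nonneg (subset_univ _) fun u _ _ => hp u).trans h1
  obtain ⟨k, rfl⟩ := Nat.exists_eq_add_of_le' hr
  rw [tau_heavy (fun v => p v ≤ h) hL]
  have a1 := tau_light hp h0 hG (k + 1) 0 ∅ (univ.filter fun v => p v ≤ h)
    (by simp [SimpleGraph.isNClique_empty]) (by omega) (by simp) (by simp) (hs _)
  have a2 : ∑ a ∈ univ.filter (fun a => ¬ p a ≤ h),
      p a * tau G p (k + 2) (nb G (univ.filter fun v => p v ≤ h) a) ≤ 2 * D * h := by
    refine (sum_le_sum (g := fun a => p a * (2 * D * h)) fun a _ => mul_le_mul_of_nonneg_left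
      (tau_light hp h0 hG k 1 {a} _ (by simp) (by omega) (by simp +contextual)
        (by simp +contextual) (hs _)) (hp a)).trans ?_
    rw [← sum_mul]
    exact mul_le_of_le_one_left (by positivity) (hs _)
  have a3 : tau G p (k + 2 + 1) (univ.filter fun v => p v ≤ h) ≤ 2 * D * h := a1
  push_cast at a2 ⊢
  nlinarith only [mul_le_mul_of_nonneg_left a2 (show (0 : ℝ) ≤ k + 2 + 1 by positivity), a1, a2]

end Pool.Agent.P.MP_094db5_co

end
end

section

set_option autoImplicit false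

open Finset Classical

noncomputable section

namespace Pool.Agent.P.MP_094db5_co

variable {V : Type} [Fintype V]

/-- pairs with different nonzero colours -/
def cross (c : V → ℕ) (u v : V) : Prop := c u ≠ 0 ∧ c v ≠ 0 ∧ c u ≠ c v

/-- weight of a colour class -/
def Pc (p : V → ℝ) (c : V → ℕ) (i : ℕ) : ℝ := ∑ v, if c v = i then p v else 0

/-- weight of the missing cross pairs -/
def Miss (G : SimpleGraph V) (p : V → ℝ) (c : V → ℕ) : ℝ :=
  S2 fun u v => if cross c u v ∧ ¬ G.Adj u v then p u * p v else 0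

/-- weight of the edges inside colour classes -/
def Ins (G : SimpleGraph V) (p : V → ℝ) (c : V → ℕ) : ℝ :=
  S2 fun u v => if c u ≠ 0 ∧ c u = c v ∧ G.Adj u v then p u * p v else 0

lemma Pc_nonneg {p : V → ℝ} (hp : ∀ v, 0 ≤ p v) (c : V → ℕ) (i : ℕ) : 0 ≤ Pc p c i :=
  sum_nonneg fun v _ => by split_ifs; exacts [hp v, le_rfl]

lemma Miss_nonneg (G : SimpleGraph V) {p : V → ℝ} (hp : ∀ v, 0 ≤ p v) (c : V → ℕ) :
    0 ≤ Miss G p c :=
  S2_nonneg fun u v => by split_ifs; exacts [mul_nonneg (hp u) (hp v), le_rfl]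

omit [Fintype V] in
lemma tau_mono (G : SimpleGraph V) {p : V → ℝ} (hp : ∀ v, 0 ≤ p v) (j : ℕ) :
    ∀ S T : Finset V, S ⊆ T → tau G p j S ≤ tau G p j T := by
  induction j with
  | zero => exact fun _ _ _ => le_rfl
  | succ j ih =>
    intro S T h
    refine (sum_le_sum fun v _ => mul_le_mul_of_nonneg_left (ih _ (nb G T v) ?_) (hp v)).trans
      (sum_le_sum_of_subset_of_nonneg h fun v _ _ => mul_nonneg (hp v) (tau_nonneg G hp _ _))
    exact filter_subset_filter _ h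

omit [Fintype V] in
lemma markov {p f : V → ℝ} (hp : ∀ v, 0 ≤ p v) (hf : ∀ v, 0 ≤ f v) (S : Finset V) {g : ℝ}
    (hg : 0 ≤ g) (h : ∑ v ∈ S, p v * f v ≤ g ^ 2) :
    ∑ v ∈ S, (if g < f v then p v else 0) ≤ g := by
  rcases hg.eq_or_lt with rfl | hg
  · refine (sum_eq_zero fun v hv => ?_).le
    split_ifs with h1
    · have := (single_le_sum (f := fun v => p v * f v) (fun v _ => mul_nonneg (hp v) (hf v))
        hv).trans h
      nlinarith only [hp v, h1, this]
    · rfl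
  · refine le_of_mul_le_mul_left ?_ hg
    rw [mul_sum, ← sq]
    refine (sum_le_sum fun v _ => ?_).trans h
    split_ifs with h1
    · nlinarith only [hp v, h1]
    · nlinarith [hp v, hf v]

lemma approx_furedi {G : SimpleGraph V} {p : V → ℝ} (hp : ∀ v, 0 ≤ p v) (h1 : ∑ v, p v ≤ 1)
    {γ : ℝ} (h0 : 0 ≤ γ) (hγ : γ ≤ 1) (j : ℕ) : ∀ S : Finset V,
    tau G p (j + 1) S ≤ γ ^ 2 ^ j → ∃ c : V → ℕ, (∀ v, c v ≤ j) ∧ (∀ v, c v ≠ 0 → v ∈ S) ∧
      (∑ v, if v ∈ S ∧ c v = 0 then p v else 0) ≤ (j + 1) * γ ∧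
      2 * Ins G p c ≤ Miss G p c + j * (j + 1) * γ := by
  induction j with
  | zero =>
    intro S h
    refine ⟨fun _ => 0, fun _ => le_rfl, by simp, ?_, by simp [Ins, Miss, cross, S2]⟩
    simpa [tau] using h
  | succ j ih =>
    intro S h
    set g := γ ^ 2 ^ j with hg
    have hg0 : 0 ≤ g := pow_nonneg h0 _
    have hgγ : g ≤ γ := pow_le_of_le_one h0 hγ (by positivity)
    have hX := markov hp (fun v => tau_nonneg G hp (j + 1) (nb G S v)) S hg0
      (by rw [hg, ← pow_mul, ← pow_succ]; exact h)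
    set S' := S.filter fun v => ¬ g < tau G p (j + 1) (nb G S v) with hS'
    have hX' : (∑ v, if v ∈ S ∧ v ∉ S' then p v else 0) ≤ γ := by
      refine le_trans (le_of_eq ?_) (hX.trans hgγ)
      rw [← sum_filter, ← sum_filter]
      refine sum_congr ?_ fun _ _ => rfl
      ext v
      simp +contextual [hS']
    rcases S'.eq_empty_or_nonempty with he | hne
    · refine ⟨fun _ => 0, fun _ => Nat.zero_le _, by simp, ?_, ?_⟩
      · simp only [he, notMem_empty, not_false_eq_true] at hX'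
        push_cast
        nlinarith only [mul_nonneg (Nat.cast_nonneg (α := ℝ) j) h0, h0, hX']
      · simp only [Ins, Miss, cross, S2]
        simp
        positivity
    obtain ⟨v, hv, hmax⟩ := exists_max_image S'
      (fun u => ∑ w, if w ∈ S' ∧ G.Adj u w then p w else 0) hne
    obtain ⟨c, c1, c2, c3, c4⟩ := ih (nb G S' v) ((tau_mono G hp _ _ _
      (filter_subset_filter _ (filter_subset _ _))).trans (not_lt.1 (mem_filter.1 hv).2))
    have c5 : ∀ w, w ∈ S' ∧ ¬ G.Adj v w → c w = 0 := fun w hw => by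
      by_contra h
      exact hw.2 (mem_nb.1 (c2 w h)).2
    refine ⟨fun w => if w ∈ S' ∧ ¬ G.Adj v w then j + 1 else c w, fun w => ?_, fun w hw => ?_,
      ?_, ?_⟩
    · beta_reduce
      split_ifs
      exacts [le_rfl, (c1 w).trans (Nat.le_succ _)]
    · beta_reduce at hw
      split_ifs at hw with h'
      · exact (mem_filter.1 h'.1).1
      · exact (mem_filter.1 (mem_nb.1 (c2 w hw)).1).1
    · refine le_trans ?_ (show (∑ w, if w ∈ S ∧ w ∉ S' then p w else 0) +
        (∑ w, if w ∈ nb G S' v ∧ c w = 0 then p w else 0) ≤ _ by push_cast; linarith)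
      rw [← sum_add_distrib]
      refine sum_le_sum fun w _ => ?_
      have := hp w
      by_cases a1 : w ∈ S <;> by_cases a2 : w ∈ S' <;> by_cases a3 : G.Adj v w <;>
        by_cases a4 : c w = 0 <;> simp [a1, a2, a3, a4, this]
    · have e1 : Ins G p (fun w => if w ∈ S' ∧ ¬ G.Adj v w then j + 1 else c w) ≤ Ins G p c +
          S2 fun u w => if (u ∈ S' ∧ ¬ G.Adj v u) ∧ (w ∈ S' ∧ ¬ G.Adj v w) ∧ G.Adj u w
            then p u * p w else 0 := by
        rw [Ins, Ins, S2_add]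
        refine S2_mono fun u w => ?_
        have := mul_nonneg (hp u) (hp w)
        have b1 := c1 u
        have b2 := c1 w
        by_cases a1 : u ∈ S' ∧ ¬ G.Adj v u <;> by_cases a2 : w ∈ S' ∧ ¬ G.Adj v w <;>
          simp only [a1, a2, if_true, if_false, true_and, false_and, and_false, not_false_eq_true,
            and_self, add_zero] <;> split_ifs <;> first | linarith | omega | simp_all
      have e2 : Miss G p c + 2 * (S2 fun u w => if (u ∈ S' ∧ ¬ G.Adj v u) ∧ c w ≠ 0 ∧ ¬ G.Adj u w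
            then p u * p w else 0) ≤
          Miss G p (fun w => if w ∈ S' ∧ ¬ G.Adj v w then j + 1 else c w) := by
        rw [two_mul]
        nth_rewrite 2 [S2_comm]
        rw [Miss, Miss, S2_add, S2_add]
        refine S2_mono fun u w => ?_
        have := mul_nonneg (hp u) (hp w)
        have b1 := c1 u
        have b2 := c1 w
        have b3 := c5 u
        have b4 := c5 w
        rw [mul_comm (p w), G.adj_comm w u]
        unfold cross
        by_cases a1 : u ∈ S' ∧ ¬ G.Adj v u <;> by_cases a2 : w ∈ S' ∧ ¬ G.Adj v w <;>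
          by_cases a3 : G.Adj u w <;>
          simp only [a1, a2, a3, if_true, if_false, true_and, false_and, and_false, and_true,
            not_false_eq_true, not_true_eq_false, and_self, add_zero, forall_const] at b3 b4 ⊢ <;>
          (try split_ifs) <;> first | linarith | omega
      have e3 : (S2 fun u w => if (u ∈ S' ∧ ¬ G.Adj v u) ∧ (w ∈ S' ∧ ¬ G.Adj v w) ∧ G.Adj u w
            then p u * p w else 0) ≤
          (S2 fun u w => if (u ∈ S' ∧ ¬ G.Adj v u) ∧ c w ≠ 0 ∧ ¬ G.Adj u w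
            then p u * p w else 0) + (∑ u, p u) * ((j + 1) * γ) := by
        rw [S2, S2, sum_mul, ← sum_add_distrib]
        refine sum_le_sum fun u _ => ?_
        by_cases a1 : u ∈ S' ∧ ¬ G.Adj v u
        · have d1 : (∑ w, if (w ∈ S' ∧ ¬ G.Adj v w) ∧ G.Adj u w then p w else 0) +
              (∑ w, if w ∈ S' ∧ G.Adj v w then p w else 0) ≤
              (∑ w, if w ∈ S' ∧ G.Adj u w then p w else 0) +
              (∑ w, if c w ≠ 0 ∧ ¬ G.Adj u w then p w else 0) +
              (∑ w, if w ∈ nb G S' v ∧ c w = 0 then p w else 0) := by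
            simp only [← sum_add_distrib]
            refine sum_le_sum fun w _ => ?_
            have := hp w
            by_cases a2 : w ∈ S' <;> by_cases a3 : G.Adj v w <;> by_cases a4 : G.Adj u w <;>
              by_cases a5 : c w = 0 <;> simp [a2, a3, a4, a5, this]
          have d2 := hmax u a1.1
          have d3 : (∑ w, if (w ∈ S' ∧ ¬ G.Adj v w) ∧ G.Adj u w then p w else 0) ≤
              (∑ w, if c w ≠ 0 ∧ ¬ G.Adj u w then p w else 0) + (j + 1) * γ := by linarith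
          have d4 := mul_le_mul_of_nonneg_left d3 (hp u)
          simp only [mul_add, mul_sum, mul_ite, mul_zero] at d4
          simpa only [a1, not_false_eq_true, and_self, true_and] using d4
        · simp only [a1, false_and, if_false, sum_const_zero, zero_add]
          exact mul_nonneg (hp u) (by positivity)
      have e4 : (∑ u, p u) * ((j + 1) * γ) ≤ (j + 1) * γ :=
        mul_le_of_le_one_left (by positivity) h1
      push_cast
      linarith

lemma sum_Pc (p : V → ℝ) {c : V → ℕ} {r : ℕ} (hc : ∀ v, c v ≤ r) :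
    Pc p c 0 + ∑ i ∈ Icc 1 r, Pc p c i = ∑ v, p v := by
  simp only [Pc]
  rw [sum_comm, ← sum_add_distrib]
  refine sum_congr rfl fun v _ => ?_
  rw [sum_ite_eq]
  have := hc v
  by_cases h : c v = 0
  · simp [h]
  · rw [if_neg h, if_pos (mem_Icc.2 ⟨by omega, this⟩), zero_add]

lemma cross_eq (f : V → ℝ) {c : V → ℕ} {r : ℕ} (hc : ∀ v, c v ≤ r) :
    (S2 fun u v => if cross c u v then f u * f v else 0) =
      (∑ i ∈ Icc 1 r, Pc f c i) ^ 2 - ∑ i ∈ Icc 1 r, Pc f c i ^ 2 := by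
  have h1 : ∑ i ∈ Icc 1 r, Pc f c i = ∑ v, if c v ≠ 0 then f v else 0 := by
    have := sum_Pc f hc
    rw [← sub_eq_iff_eq_add'.2 this.symm, Pc, ← sum_sub_distrib]
    refine sum_congr rfl fun v _ => ?_
    by_cases h : c v = 0 <;> simp [h]
  have h2 : ∑ i ∈ Icc 1 r, Pc f c i ^ 2 =
      S2 fun u v => if c u ≠ 0 ∧ c u = c v then f u * f v else 0 := by
    simp only [sq, Pc, S2_prod, S2]
    rw [sum_comm]
    refine sum_congr rfl fun u _ => ?_
    rw [sum_comm]
    refine sum_congr rfl fun v _ => ?_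
    have := hc u
    simp only [ite_mul, zero_mul, sum_ite_eq, mem_Icc, mul_ite, mul_zero]
    split_ifs <;> first | rfl | omega
  rw [h1, h2, sq, S2_prod, S2_sub]
  refine S2_congr fun u v => ?_
  unfold cross
  by_cases a1 : c u = 0 <;> by_cases a2 : c v = 0 <;> by_cases a3 : c u = c v <;>
    simp_all

lemma var_ineq {r : ℕ} (hr : 2 ≤ r) (P : ℕ → ℝ) (h0 : 0 ≤ ∑ i ∈ Icc 1 r, P i)
    (h1 : ∑ i ∈ Icc 1 r, P i ≤ 1) :
    (∑ i ∈ Icc 1 r, P i) ^ 2 - ∑ i ∈ Icc 1 r, P i ^ 2 ≤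
      1 - 1 / r - ∑ i ∈ Icc 1 r, (P i - 1 / r) ^ 2 := by
  have hr' : (2 : ℝ) ≤ r := by exact_mod_cast hr
  have e : ∑ i ∈ Icc 1 r, (P i - 1 / r) ^ 2 =
      ∑ i ∈ Icc 1 r, P i ^ 2 - 2 * (1 / r) * ∑ i ∈ Icc 1 r, P i + 1 / r := by
    simp only [sub_sq, sum_add_distrib, sum_sub_distrib, sum_const, Nat.card_Icc,
      add_tsub_cancel_right, nsmul_eq_mul, ← sum_mul, ← mul_sum]
    field_simp
  have a1 : 1 / (r : ℝ) ≤ 1 / 2 := one_div_le_one_div_of_le two_pos hr'
  rw [e]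
  nlinarith only [h0, h1, a1]

/-- the basic stability inequality -/
lemma core {G : SimpleGraph V} {x : V → ℝ} (hx : ∑ v, x v ^ 2 = 1) {r : ℕ} (hr : 2 ≤ r)
    {γ : ℝ} (h0 : 0 ≤ γ) (hγ : γ ≤ 1) (h : tau G (fun v => x v ^ 2) (r + 1) univ ≤ γ ^ 2 ^ r) :
    ∃ c : V → ℕ, (∀ v, c v ≤ r) ∧ Pc (fun v => x v ^ 2) c 0 ≤ (r + 1) * γ ∧ ∀ μ : ℝ,
      Dev G x μ + ∑ i ∈ Icc 1 r, (Pc (fun v => x v ^ 2) c i - 1 / r) ^ 2 +
        Miss G (fun v => x v ^ 2) c / 2 ≤
      1 - 1 / r - (2 * μ * qf G x - μ ^ 2 * Mo G) + (r + 1) * (r + 4) * γ := by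
  have hp : ∀ v, 0 ≤ x v ^ 2 := fun v => sq_nonneg _
  obtain ⟨c, c1, -, c3, c4⟩ := approx_furedi hp hx.le h0 hγ r univ h
  simp only [mem_univ, true_and] at c3
  refine ⟨c, c1, c3, fun μ => ?_⟩
  generalize hpe : (fun v => x v ^ 2) = p at *
  have hp' : ∀ v, 0 ≤ p v := fun v => hpe ▸ hp v
  have hx' : ∑ v, p v = 1 := hpe ▸ hx
  have c3' : Pc p c 0 ≤ (r + 1) * γ := by rw [← hpe]; exact c3
  have e1 := sum_Pc p c1
  have e2 := cross_eq p c1
  have e3 := var_ineq hr (Pc p c) (sum_nonneg fun i _ => Pc_nonneg hp' c i)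
    (by linarith only [Pc_nonneg hp' c 0, hx, e1])
  have e4 : qf G p + Miss G p c ≤ (S2 fun u v => if cross c u v then p u * p v else 0) +
      Ins G p c + (Pc p c 0 * ∑ v, p v + (∑ v, p v) * Pc p c 0) := by
    simp only [qf, Miss, Ins, Pc, S2_prod, S2_add]
    refine S2_mono fun u v => ?_
    have := mul_nonneg (hp' u) (hp' v)
    unfold cross ad
    by_cases a1 : c u = 0 <;> by_cases a2 : c v = 0 <;> by_cases a3 : c u = c v <;>
      by_cases a4 : G.Adj u v <;> simp_all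
  rw [Dev_eq, hpe]
  rw [hx'] at e4
  have : 0 ≤ (r : ℝ) * (r + 1) * γ := by positivity
  have : 0 ≤ ((r : ℝ) + 1) * γ := by positivity
  nlinarith

end Pool.Agent.P.MP_094db5_co

end
end

section

set_option autoImplicit false

open Finset Classical

noncomputable section

namespace Pool.Agent.P.MP_094db5_co

variable {V : Type} [Fintype V]

/-- good pairs -/
def good (G : SimpleGraph V) (x : V → ℝ) (μ η : ℝ) (u v : V) : Prop :=
  G.Adj u v ∧ |x u * x v - μ| < η * μ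

/-- bad weight at a vertex -/
def bw (G : SimpleGraph V) (x : V → ℝ) (μ η : ℝ) (c : V → ℕ) (u : V) : ℝ :=
  ∑ v, if cross c u v ∧ ¬ good G x μ η u v then x v ^ 2 else 0

lemma bw_nonneg (G : SimpleGraph V) (x : V → ℝ) (μ η : ℝ) (c : V → ℕ) (u : V) :
    0 ≤ bw G x μ η c u := sum_nonneg fun v _ => by split_ifs <;> positivity

lemma sum_bw_eq (G : SimpleGraph V) (x : V → ℝ) (μ η : ℝ) (c : V → ℕ) :
    ∑ u, x u ^ 2 * bw G x μ η c u =
      S2 fun u v => if cross c u v ∧ ¬ good G x μ η u v then x u ^ 2 * x v ^ 2 else 0 := by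
  simp only [bw, S2, mul_sum, mul_ite, mul_zero]

lemma sum_bw_le (G : SimpleGraph V) {x : V → ℝ} (hx : ∀ v, 0 ≤ x v) (μ : ℝ) {η : ℝ}
    (h0 : 0 < η) (h1 : η ≤ 1) (c : V → ℕ) :
    η ^ 2 * ∑ u, x u ^ 2 * bw G x μ η c u ≤ 4 * Dev G x μ + Miss G (fun v => x v ^ 2) c := by
  rw [sum_bw_eq, Dev, Miss, S2_mul, S2_mul, S2_add]
  refine S2_mono fun u v => ?_
  have a0 := mul_nonneg (hx u) (hx v)
  have e : x u ^ 2 * x v ^ 2 = (x u * x v) ^ 2 := by ring
  rw [e]
  unfold good ad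
  generalize x u * x v = a at *
  have b1 : η ^ 2 ≤ 1 := by nlinarith only [h0, h1]
  by_cases a1 : cross c u v <;> by_cases a2 : G.Adj u v <;> by_cases a3 : |a - μ| < η * μ <;>
    simp only [a1, a2, a3, and_false, and_true, not_true_eq_false,
      not_false_eq_true, if_true, if_false, mul_zero, add_zero, one_mul, zero_mul, zero_add] <;>
    try positivity
  · rw [not_lt] at a3
    have a4 : η * a ≤ 2 * |a - μ| := by
      have := le_abs_self (a - μ)
      nlinarith only [abs_nonneg (a - μ), h0, h1, a3, this]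
    have a5 := mul_self_le_mul_self (by positivity) a4
    nlinarith only [sq_abs (a - μ), a5]
  · nlinarith only [sq_nonneg a, b1]
  · nlinarith only [sq_nonneg a, b1]

lemma exists_third {r : ℕ} (hr : 3 ≤ r) (i : ℕ) :
    ∃ j k, j ∈ Icc 1 r ∧ k ∈ Icc 1 r ∧ j ≠ i ∧ k ≠ i ∧ j ≠ k := by
  simp only [mem_Icc]
  by_cases h1 : i = 1
  · exact ⟨2, 3, by omega⟩
  · by_cases h2 : i = 2
    · exact ⟨1, 3, by omega⟩
    · exact ⟨1, 2, by omega⟩

lemma typ {G : SimpleGraph V} {x : V → ℝ} {μ η : ℝ} (hμ : 0 < μ)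
    (h0 : 0 < η) (h1 : η ≤ 1 / 5) {r : ℕ} (hr : 3 ≤ r) {c : V → ℕ} {δ : ℝ} (hδ : 0 ≤ δ)
    (hP : ∀ i ∈ Icc 1 r, 2 * δ ≤ Pc (fun v => x v ^ 2) c i)
    (hB : ∑ u, x u ^ 2 * bw G x μ η c u < δ ^ 2) {u : V} (hu : c u ≠ 0)
    (hb : bw G x μ η c u ≤ δ) : |x u ^ 2 - μ| ≤ 4 * η * μ := by
  obtain ⟨j, k, hj, hk, hji, hki, hjk⟩ := exists_third hr (c u)
  have key : ∀ i ∈ Icc 1 r, i ≠ c u →
      δ ≤ ∑ v, if c v = i ∧ good G x μ η u v then x v ^ 2 else 0 := fun i hi hne => by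
    have : Pc (fun v => x v ^ 2) c i ≤ (∑ v, if c v = i ∧ good G x μ η u v then x v ^ 2 else 0) +
        bw G x μ η c u := by
      rw [Pc, bw, ← sum_add_distrib]
      refine sum_le_sum fun v _ => ?_
      have := mem_Icc.1 hi
      unfold cross
      split_ifs <;> first | positivity | linarith | (exfalso; grind)
    linarith [hP i hi]
  obtain ⟨v, w, hv, hw, hvw⟩ : ∃ v w, (c v = j ∧ good G x μ η u v) ∧ (c w = k ∧ good G x μ η u w) ∧
      good G x μ η v w := by
    by_contra hn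
    push Not at hn
    have a1 := mul_le_mul (key j hj hji) (key k hk hki) hδ (hδ.trans (key j hj hji))
    rw [S2_prod] at a1
    rw [sum_bw_eq] at hB
    refine absurd (a1.trans (S2_mono fun v w => ?_)) (by rw [← sq]; exact not_le.2 hB)
    have := mem_Icc.1 hj
    have := mem_Icc.1 hk
    have := hn v w
    unfold cross
    simp only [ite_mul, mul_ite, zero_mul, mul_zero]
    split_ifs <;> first | positivity | linarith | (exfalso; grind)
  have a1 := abs_lt.1 hv.2.2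
  have a2 := abs_lt.1 hw.2.2
  have a3 := abs_lt.1 hvw.2
  have e : x u ^ 2 * (x v * x w) = (x u * x v) * (x u * x w) := by ring
  generalize x u * x v = a at *
  generalize x u * x w = b at *
  generalize x v * x w = d at *
  have hs := sq_nonneg (x u)
  generalize x u ^ 2 = s at *
  have hημ : 0 < η * μ := mul_pos h0 hμ
  have hημ' : η * μ ≤ μ / 5 := by nlinarith only [hμ, h1]
  generalize hθ : η * μ = θ at *
  rw [mul_assoc, hθ, abs_le]
  constructor
  · have b1 : (μ - θ) * (μ - θ) ≤ a * b := mul_le_mul (by linarith) (by linarith) (by linarith only [a1, hημ'])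
      (by linarith)
    have b2 : s * d ≤ s * (μ + θ) := mul_le_mul_of_nonneg_left (by linarith only [a3]) hs
    by_contra hn
    have b3 : s * (μ + θ) ≤ (μ - 4 * θ) * (μ + θ) :=
      mul_le_mul_of_nonneg_right (by linarith) (by linarith)
    nlinarith only [hμ, e, a1, hημ', b1, b2, b3]
  · have b1 : a * b ≤ (μ + θ) * (μ + θ) := mul_le_mul (by linarith) (by linarith) (by linarith)
      (by linarith)
    have b2 : s * (μ - θ) ≤ s * d := mul_le_mul_of_nonneg_left (by linarith) hs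
    by_contra hn
    have b3 : (μ + 4 * θ) * (μ - θ) < s * (μ - θ) :=
      mul_lt_mul_of_pos_right (by linarith) (by linarith)
    nlinarith only [e, a1, hημ', b1, b2, b3]

/-- no complete `r`-partite graph with parts of size `t` and an extra edge -/
def NoPlus (G : SimpleGraph V) (r t : ℕ) : Prop :=
  ∀ B : ℕ → Finset V, (∀ i ∈ Icc 1 r, t ≤ (B i).card) →
    (∀ i ∈ Icc 1 r, ∀ j ∈ Icc 1 r, i ≠ j → ∀ a ∈ B i, ∀ b ∈ B j, G.Adj a b) →
    ∀ i ∈ Icc 1 r, ∀ a ∈ B i, ∀ b ∈ B i, ¬ G.Adj a b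

omit [Fintype V] in
lemma NoPlus.mono {G H : SimpleGraph V} {r t : ℕ} (h : NoPlus G r t) (hle : H ≤ G) :
    NoPlus H r t := fun B h1 h2 i hi a ha b hb hab =>
  h B h1 (fun i hi j hj hij a ha b hb => hle (h2 i hi j hj hij a ha b hb)) i hi a ha b hb (hle hab)

lemma exists_max_image_of_bdd {α : Type} (P : α → Prop) (f : α → ℕ) (n : ℕ) (h0 : ∃ a, P a)
    (hb : ∀ a, P a → f a ≤ n) : ∃ a, P a ∧ ∀ b, P b → f b ≤ f a := by
  have hne : {k | ∃ a, P a ∧ f a = k}.Nonempty := let ⟨a, ha⟩ := h0; ⟨_, a, ha, rfl⟩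
  have hbd : BddAbove {k | ∃ a, P a ∧ f a = k} := ⟨n, by rintro _ ⟨a, ha, rfl⟩; exact hb a ha⟩
  obtain ⟨a, ha, e⟩ := Nat.sSup_mem hne hbd
  exact ⟨a, ha, fun b hb => e ▸ le_csSup hbd ⟨b, hb, rfl⟩⟩

omit [Fintype V] in
/-- greedy construction of a complete multipartite subgraph -/
lemma greedy {G : SimpleGraph V} {r t : ℕ} (A : ℕ → Finset V)
    (h : ∀ i ∈ Icc 1 r, ∀ Z : ℕ → Finset V, (∀ j, Z j ⊆ A j) → (∀ j, (Z j).card ≤ t) →
      ∃ u ∈ A i, u ∉ Z i ∧ ∀ j ∈ Icc 1 r, j ≠ i → ∀ z ∈ Z j, G.Adj u z) :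
    ∃ B : ℕ → Finset V, (∀ i, B i ⊆ A i) ∧ (∀ i ∈ Icc 1 r, (B i).card = t) ∧
      ∀ i ∈ Icc 1 r, ∀ j ∈ Icc 1 r, i ≠ j → ∀ a ∈ B i, ∀ b ∈ B j, G.Adj a b := by
  obtain ⟨B, ⟨h1, h2, h3⟩, hmax⟩ := exists_max_image_of_bdd
    (fun B : ℕ → Finset V => (∀ i, B i ⊆ A i) ∧ (∀ i, (B i).card ≤ t) ∧
      ∀ i ∈ Icc 1 r, ∀ j ∈ Icc 1 r, i ≠ j → ∀ a ∈ B i, ∀ b ∈ B j, G.Adj a b)
    (fun B => ∑ i ∈ Icc 1 r, (B i).card) (r * t) ⟨fun _ => ∅, by simp⟩
    (fun B hB => by simpa using sum_le_card_nsmul (Icc 1 r) _ t fun i _ => hB.2.1 i)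
  refine ⟨B, h1, fun i hi => ?_, h3⟩
  by_contra hne
  obtain ⟨u, hu, hu', hadj⟩ := h i hi B h1 h2
  have := hmax (Function.update B i (insert u (B i))) ⟨fun j => ?_, fun j => ?_, ?_⟩
  · rw [← add_sum_erase _ _ hi, ← add_sum_erase _ _ hi, Function.update_self,
      card_insert_of_notMem hu', sum_congr rfl fun j hj => by
        rw [Function.update_of_ne (ne_of_mem_erase hj)]] at this
    omega
  · by_cases e : j = i
    · subst e; simpa [insert_subset_iff, hu] using h1 j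
    · simpa [Function.update_of_ne e] using h1 j
  · by_cases e : j = i
    · subst e
      rw [Function.update_self, card_insert_of_notMem hu']
      have := h2 j
      omega
    · simpa [Function.update_of_ne e] using h2 j
  · intro j hj k hk hjk a ha b hb
    by_cases e : j = i
    · subst e
      rw [Function.update_self] at ha
      rw [Function.update_of_ne hjk.symm] at hb
      rcases mem_insert.1 ha with rfl | ha
      · exact hadj k hk hjk.symm b hb
      · exact h3 j hj k hk hjk a ha b hb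
    · rw [Function.update_of_ne e] at ha
      by_cases e' : k = i
      · subst e'
        rw [Function.update_self] at hb
        rcases mem_insert.1 hb with rfl | hb
        · exact (hadj j hj e a ha).symm
        · exact h3 j hj k hk hjk a ha b hb
      · rw [Function.update_of_ne e'] at hb
        exact h3 j hj k hk hjk a ha b hb

end Pool.Agent.P.MP_094db5_co

end
end

section

set_option autoImplicit false

open Finset Classical

noncomputable section

namespace Pool.Agent.P.MP_094db5_co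

variable {V : Type} [Fintype V]

/-- weight of a set -/
def Wt (p : V → ℝ) (S : V → Prop) : ℝ := ∑ v, if S v then p v else 0

lemma Pc_eq (p : V → ℝ) (c : V → ℕ) (i : ℕ) : Pc p c i = Wt p fun v => c v = i :=
  sum_congr rfl fun _ _ => by congr

lemma Wt_mono {p : V → ℝ} (hp : ∀ v, 0 ≤ p v) {S T : V → Prop} (h : ∀ v, S v → T v) :
    Wt p S ≤ Wt p T := sum_le_sum fun v _ => by
  have := hp v
  have := h v
  split_ifs <;> first | linarith | tauto

lemma Wt_add {p : V → ℝ} (hp : ∀ v, 0 ≤ p v) {S T U : V → Prop} (h : ∀ v, S v → T v ∨ U v) :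
    Wt p S ≤ Wt p T + Wt p U := by
  rw [Wt, Wt, Wt, ← sum_add_distrib]
  refine sum_le_sum fun v _ => ?_
  have := hp v
  have := h v
  split_ifs <;> first | linarith | tauto

lemma Wt_disj {p : V → ℝ} (hp : ∀ v, 0 ≤ p v) {S T U : V → Prop} (h : ∀ v, T v ∨ U v → S v)
    (h' : ∀ v, T v → ¬ U v) : Wt p T + Wt p U ≤ Wt p S := by
  rw [Wt, Wt, Wt, ← sum_add_distrib]
  refine sum_le_sum fun v _ => ?_
  have := hp v
  have := h v
  have := h' v
  split_ifs <;> first | linarith | tauto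

lemma Wt_single {p : V → ℝ} (hp : ∀ v, 0 ≤ p v) {S : V → Prop} {u : V} (h : S u) :
    p u ≤ Wt p S := by
  have := single_le_sum (f := fun v => if S v then p v else 0)
    (fun v _ => by split_ifs; exacts [hp v, le_rfl]) (mem_univ u)
  rwa [if_pos h] at this

lemma exists_of_Wt_pos {p : V → ℝ} {S : V → Prop} (h : 0 < Wt p S) : ∃ v, S v := by
  by_contra hn
  push Not at hn
  simp [Wt, hn] at h

lemma Wt_exists {p : V → ℝ} (hp : ∀ v, 0 ≤ p v) {α : Type} (Z : Finset α) (T : α → V → Prop) :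
    Wt p (fun v => ∃ z ∈ Z, T z v) ≤ ∑ z ∈ Z, Wt p (T z) := by
  simp only [Wt]
  rw [sum_comm]
  refine sum_le_sum fun v _ => ?_
  have h0 : ∀ z ∈ Z, 0 ≤ if T z v then p v else 0 := fun z _ => by
    split_ifs; exacts [hp v, le_rfl]
  split_ifs with h
  · obtain ⟨z, hz, h⟩ := h
    have := single_le_sum h0 hz
    rwa [if_pos h] at this
  · exact sum_nonneg h0

/-- delete the edges between heavy vertices -/
def lite (G : SimpleGraph V) (p : V → ℝ) (h : ℝ) : SimpleGraph V where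
  Adj u v := G.Adj u v ∧ (p u ≤ h ∨ p v ≤ h)
  symm := ⟨fun _ _ a => ⟨a.1.symm, a.2.symm⟩⟩
  loopless := ⟨fun _ a => a.1.ne rfl⟩

lemma qf_lite (G : SimpleGraph V) {x : V → ℝ} (hx : ∀ v, 0 ≤ x v) (h1 : ∑ v, x v ^ 2 = 1) {h : ℝ}
    (h0 : 0 < h) : qf G x ≤ qf (lite G (fun v => x v ^ 2) h) x + 1 / h := by
  have e : 1 / h = S2 fun u v => 1 / h * (x u ^ 2 * x v ^ 2) := by
    rw [← S2_mul, ← S2_prod, h1]; ring
  rw [e, qf, qf, S2_add]
  refine S2_mono fun u v => ?_
  have a0 := mul_nonneg (hx u) (hx v)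
  have a1 : 0 ≤ 1 / h * (x u ^ 2 * x v ^ 2) := by positivity
  unfold ad lite
  by_cases a2 : G.Adj u v
  · by_cases a3 : x u ^ 2 ≤ h ∨ x v ^ 2 ≤ h
    · simp only [a2, a3, and_self, if_true]
      linarith
    · simp only [a2, a3, and_false, if_true, if_false, one_mul, zero_mul, zero_add]
      push Not at a3
      have a4 : h * h ≤ (x u * x v) * (x u * x v) := by
        nlinarith only [mul_le_mul a3.1.le a3.2.le h0.le (sq_nonneg _), h0, a3]
      have a5 : h ≤ x u * x v := (mul_self_le_mul_self_iff h0.le a0).2 a4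
      rw [one_div, ← div_eq_inv_mul, le_div_iff₀ h0]
      nlinarith only [a0, a5]
  · simp only [a2, false_and, if_false]
    linarith

lemma core2 {r : ℕ} (hr : 2 ≤ r) (D : ℕ) {ε : ℝ} (hε : 0 < ε) : ∃ B : ℝ, 0 < B ∧
    ∀ (V : Type) [Fintype V] (G : SimpleGraph V) (x : V → ℝ), (∀ v, 0 ≤ x v) → ∑ v, x v ^ 2 = 1 →
    Deg G r D → ∃ G' ≤ G, ∃ c : V → ℕ, (∀ v, c v ≤ r) ∧ Pc (fun v => x v ^ 2) c 0 ≤ ε ∧
      ∀ μ : ℝ, 0 ≤ μ → Dev G' x μ + ∑ i ∈ Icc 1 r, (Pc (fun v => x v ^ 2) c i - 1 / r) ^ 2 +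
        Miss G' (fun v => x v ^ 2) c / 2 ≤
      1 - 1 / r - (2 * μ * qf G x - μ ^ 2 * Mo G) + μ * B + ε := by
  obtain ⟨γ, g0, g1, g2⟩ : ∃ γ : ℝ, 0 < γ ∧ γ ≤ 1 ∧ (r + 1) * (r + 4) * γ ≤ ε :=
    ⟨min 1 (ε / ((r + 1) * (r + 4))), by positivity, min_le_left _ _, by
      rw [mul_comm, ← le_div_iff₀ (by positivity)]; exact min_le_right _ _⟩
  obtain ⟨h, h0, h1⟩ : ∃ h : ℝ, 0 < h ∧ (r + 2) * (2 * D * h) ≤ γ ^ 2 ^ r :=
    ⟨γ ^ 2 ^ r / ((r + 2) * (2 * (D + 1))), by positivity, by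
      rw [← mul_div_assoc, ← mul_div_assoc, div_le_iff₀ (by positivity)]
      nlinarith only [show 0 ≤ γ ^ 2 ^ r * ((r : ℝ) + 2) by positivity, hr, g0]⟩
  refine ⟨2 / h, by positivity, fun V _ G x hx hx1 hG => ?_⟩
  have hle : lite G (fun v => x v ^ 2) h ≤ G := fun _ _ a => a.1
  obtain ⟨c, c1, c2, c3⟩ := core hx1 hr g0.le g1 ((tau_bound (fun v => sq_nonneg (x v)) hx1.le hr
    h0.le (hG.mono hle) fun _ _ a => a.2).trans h1)
  refine ⟨_, hle, c, c1, by nlinarith only [show 0 ≤ ((r : ℝ) + 1) * (r + 3) * γ by positivity, hr, g0, g2, c2],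
    fun μ hμ => (c3 μ).trans ?_⟩
  have a1 := mul_le_mul_of_nonneg_left (qf_lite G hx hx1 h0) hμ
  have a2 := mul_le_mul_of_nonneg_left (Mo_mono hle) (sq_nonneg μ)
  have : μ * (2 / h) = 2 * (μ * (1 / h)) := by ring
  linarith only [g2, a1, a2, this]

lemma mu_small {l M ε : ℝ} (h : l ^ 2 ≤ M) (hε : 0 < ε) (hM : 1 / ε ^ 2 ≤ M) : l / M ≤ ε := by
  have h0 : 0 < M := lt_of_lt_of_le (by positivity) hM
  rw [div_le_iff₀ (by positivity)] at hM
  rw [div_le_iff₀ h0]
  exact abs_le_of_sq_le_sq' (by nlinarith only [h, hM]) (by positivity) |>.2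

lemma lam_sq_le [Nonempty V] (G : SimpleGraph V) : lam G ^ 2 ≤ Mo G := by
  obtain ⟨x, hx⟩ := exists_perron G
  rw [← hx.val]
  exact qf_sq_le G hx.unit

lemma rough_upper {r : ℕ} (hr : 2 ≤ r) (D : ℕ) {ε : ℝ} (hε : 0 < ε) : ∃ M₁ : ℝ, 0 < M₁ ∧
    ∀ (V : Type) [Fintype V] [Nonempty V] (G : SimpleGraph V), Deg G r D → M₁ ≤ Mo G →
      lam G ^ 2 ≤ (1 - 1 / r + ε) * Mo G := by
  obtain ⟨B, hB, h⟩ := core2 hr D (half_pos hε)
  refine ⟨1 / (ε / 2 / B) ^ 2, by positivity, fun V _ _ G hG hM => ?_⟩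
  obtain ⟨x, hx⟩ := exists_perron G
  obtain ⟨G', -, c, -, -, c3⟩ := h V G x hx.nonneg hx.unit hG
  have h0 : 0 < Mo G := lt_of_lt_of_le (by positivity) hM
  have a1 := mu_small (lam_sq_le G) (by positivity) hM
  have a2 := c3 _ (div_nonneg (lam_nonneg G) h0.le)
  rw [le_div_iff₀ hB] at a1
  have a3 := Dev_nonneg G' x (lam G / Mo G)
  have a4 := Miss_nonneg G' (fun v => sq_nonneg (x v)) c
  have a5 : 0 ≤ ∑ i ∈ Icc 1 r, (Pc (fun v => x v ^ 2) c i - 1 / r) ^ 2 :=
    sum_nonneg fun _ _ => sq_nonneg _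
  have e : 2 * (lam G / Mo G) * qf G x - (lam G / Mo G) ^ 2 * Mo G = lam G ^ 2 / Mo G := by
    rw [hx.val]; field_simp; ring
  rw [← div_le_iff₀ h0]
  linarith only [a1, a2, a3, a4, a5, e]

/-- rough structure -/
structure Rough (G : SimpleGraph V) (x : V → ℝ) (μ ξ : ℝ) (r : ℕ) (c : V → ℕ) : Prop where
  le : ∀ v, c v ≤ r
  typ : ∀ v, c v ≠ 0 → |x v ^ 2 - μ| ≤ ξ * μ
  P0 : Pc (fun v => x v ^ 2) c 0 ≤ ξ
  Pi : ∀ i ∈ Icc 1 r, 1 / r - ξ ≤ Pc (fun v => x v ^ 2) c i
  miss : ∀ u, c u ≠ 0 → Wt (fun v => x v ^ 2) (fun v => cross c u v ∧ ¬ G.Adj u v) ≤ ξ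

lemma Rough.mono {G H : SimpleGraph V} {x : V → ℝ} {μ ξ : ℝ} {r : ℕ} {c : V → ℕ}
    (h : Rough H x μ ξ r c) (hle : H ≤ G) : Rough G x μ ξ r c :=
  ⟨h.le, h.typ, h.P0, h.Pi, fun u hu => (Wt_mono (fun v => sq_nonneg (x v))
    fun _ a => ⟨a.1, fun b => a.2 (hle b)⟩).trans (h.miss u hu)⟩

lemma recolour {G : SimpleGraph V} {x : V → ℝ} (hx : ∀ v, 0 ≤ x v) {μ ξ γ Δ : ℝ} (hμ : 0 < μ)
    {r : ℕ} (hr : 3 ≤ r) (h0 : 0 < ξ) (h1 : ξ ≤ 1 / (2 * r)) {c : V → ℕ} (hc : ∀ v, c v ≤ r)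
    (hγ : Pc (fun v => x v ^ 2) c 0 ≤ γ) (hγξ : γ ≤ ξ / 2)
    (hΔ : Dev G x μ + ∑ i ∈ Icc 1 r, (Pc (fun v => x v ^ 2) c i - 1 / r) ^ 2 +
      Miss G (fun v => x v ^ 2) c / 2 ≤ Δ) (hΔξ : 256 * Δ < ξ ^ 4) :
    ∃ c' : V → ℕ, Rough G x μ ξ r c' ∧ Miss G (fun v => x v ^ 2) c' ≤ 2 * Δ ∧
      ∀ u, c' u = 0 → ξ ^ 3 * x u ^ 2 ≤ 128 * Δ + γ := by
  have hp : ∀ v, 0 ≤ x v ^ 2 := fun v => sq_nonneg (x v)
  have hr' : (3 : ℝ) ≤ r := by exact_mod_cast hr
  have e1 : 1 / (2 * (r : ℝ)) = 1 / r / 2 := by field_simp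
  have e2 : 1 / (r : ℝ) ≤ 1 / 3 := one_div_le_one_div_of_le (by norm_num) hr'
  have a3 := Dev_nonneg G x μ
  have a4 := Miss_nonneg G hp c
  have a5 : 0 ≤ ∑ i ∈ Icc 1 r, (Pc (fun v => x v ^ 2) c i - 1 / r) ^ 2 :=
    sum_nonneg fun _ _ => sq_nonneg _
  have hγ0 := (Pc_nonneg hp c 0).trans hγ
  have a6 : ∀ i ∈ Icc 1 r, 1 / r - ξ / 2 ≤ Pc (fun v => x v ^ 2) c i := fun i hi => by
    have b1 := single_le_sum (f := fun i => (Pc (fun v => x v ^ 2) c i - 1 / r) ^ 2)
      (fun _ _ => sq_nonneg _) hi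
    have b2 : ξ ^ 4 ≤ ξ ^ 2 := pow_le_pow_of_le_one h0.le (by linarith only [h1, e1, e2]) (by norm_num)
    have := abs_le_of_sq_le_sq' (show (Pc (fun v => x v ^ 2) c i - 1 / r) ^ 2 ≤ (ξ / 2) ^ 2 by
      nlinarith only [sq_nonneg ξ, hΔ, hΔξ, a3, a4, a5, b1, b2]) (by positivity)
    linarith [this.1]
  have a7 := sum_bw_le G hx μ (show 0 < ξ / 4 by positivity) (by linarith) c
  have a8 : ξ ^ 2 * ∑ u, x u ^ 2 * bw G x μ (ξ / 4) c u ≤ 64 * Δ := by nlinarith only [hΔ, a4, a5, a7]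
  have a9 : ∑ u, x u ^ 2 * bw G x μ (ξ / 4) c u < (ξ / 2) ^ 2 :=
    lt_of_mul_lt_mul_left (a := ξ ^ 2) (by nlinarith only [hΔ, hΔξ, a4, a5, a7]) (by positivity)
  have a10 : Wt (fun v => x v ^ 2) (fun u => ξ / 2 < bw G x μ (ξ / 4) c u) ≤ ξ / 2 := by
    simpa [Wt] using markov hp (bw_nonneg G x μ (ξ / 4) c) univ (by positivity) a9.le
  have hcr : ∀ u v, cross (fun u => if bw G x μ (ξ / 4) c u ≤ ξ / 2 then c u else 0) u v →
      cross c u v := fun u v h => by
    unfold cross at h ⊢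
    beta_reduce at h
    split_ifs at h <;> simp_all
  refine ⟨fun u => if bw G x μ (ξ / 4) c u ≤ ξ / 2 then c u else 0, ⟨fun v => ?_, fun v hv => ?_,
    ?_, fun i hi => ?_, fun u hu => ?_⟩, ?_, fun u hu => ?_⟩
  · split_ifs
    exacts [hc v, Nat.zero_le _]
  · split_ifs at hv with h
    · have := typ hμ (show 0 < ξ / 4 by positivity) (by linarith only [h0, h1, e1, e2]) hr (show 0 ≤ ξ / 2 by positivity)
        (fun i hi => by linarith only [a6 i hi, h0, h1, e1]) a9 hv h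
      linarith only [this]
    · exact (hv rfl).elim
  · rw [Pc_eq] at hγ ⊢
    refine (Wt_add hp (T := fun v => c v = 0) (U := fun u => ξ / 2 < bw G x μ (ξ / 4) c u)
      fun v hv => ?_).trans (by linarith only [hγ, hγξ, a10])
    split_ifs at hv with h
    exacts [Or.inl hv, Or.inr (not_le.1 h)]
  · have := a6 i hi
    rw [Pc_eq] at this ⊢
    have b1 := Wt_add hp (S := fun v => c v = i)
      (T := fun u => (if bw G x μ (ξ / 4) c u ≤ ξ / 2 then c u else 0) = i)
      (U := fun u => ξ / 2 < bw G x μ (ξ / 4) c u) fun v hv => by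
        split_ifs with h
        exacts [Or.inl hv, Or.inr (not_le.1 h)]
    linarith only [a10, this, b1]
  · have b1 : bw G x μ (ξ / 4) c u ≤ ξ / 2 := by
      by_contra h
      exact hu (if_neg h)
    refine (Wt_mono hp (T := fun v => cross c u v ∧ ¬ good G x μ (ξ / 4) u v)
      fun v hv => ⟨hcr u v hv.1, fun h => hv.2 h.1⟩).trans ?_
    have : Wt (fun v => x v ^ 2) (fun v => cross c u v ∧ ¬ good G x μ (ξ / 4) u v) =
      bw G x μ (ξ / 4) c u := by simp [Wt, bw]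
    linarith only [h0, b1, this]
  · refine le_trans (S2_mono fun u v => ?_) (show Miss G (fun v => x v ^ 2) c ≤ _ by linarith only [hΔ, a3, a5])
    have := hcr u v
    have := mul_nonneg (hp u) (hp v)
    split_ifs <;> first | linarith | tauto
  · have b0 : ξ ^ 3 ≤ 1 := pow_le_one₀ h0.le (by linarith)
    beta_reduce at hu
    split_ifs at hu with h
    · have := Wt_single hp (S := fun v => c v = 0) hu
      rw [← Pc_eq] at this
      nlinarith only [hp u, hγ, hΔ, a3, a4, a5, b0, this]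
    · have b1 := single_le_sum (f := fun u => x u ^ 2 * bw G x μ (ξ / 4) c u)
        (fun u _ => mul_nonneg (hp u) (bw_nonneg _ _ _ _ _ _)) (mem_univ u)
      have b2 := mul_le_mul_of_nonneg_left (not_le.1 h).le (hp u)
      have b3 := mul_le_mul_of_nonneg_left (b2.trans b1) (sq_nonneg ξ)
      nlinarith only [hΔ, a4, a5, hγ0, a7, b3]

end Pool.Agent.P.MP_094db5_co

end
end

section

set_option autoImplicit false

open Finset Classical

noncomputable section

namespace Pool.Agent.P.MP_094db5_co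

variable {V : Type} [Fintype V]

omit [Fintype V] in
lemma NoPlus.ext {G : SimpleGraph V} {r t : ℕ} (h : NoPlus G r t) {B : ℕ → Finset V}
    (h1 : ∀ i ∈ Icc 1 r, t ≤ (B i).card)
    (h2 : ∀ i ∈ Icc 1 r, ∀ j ∈ Icc 1 r, i ≠ j → ∀ a ∈ B i, ∀ b ∈ B j, G.Adj a b) {i : ℕ}
    (hi : i ∈ Icc 1 r) {u v : V} (h3 : ∀ j ∈ Icc 1 r, j ≠ i → ∀ b ∈ B j, G.Adj u b ∧ G.Adj v b) :
    ¬ G.Adj u v := by
  have key : ∀ j ∈ Icc 1 r, j ≠ i → ∀ a ∈ insert u (insert v (B i)), ∀ b ∈ B j, G.Adj a b := by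
    intro j hj hji a ha b hb
    rcases mem_insert.1 ha with rfl | ha
    · exact (h3 j hj hji b hb).1
    rcases mem_insert.1 ha with rfl | ha
    · exact (h3 j hj hji b hb).2
    · exact h2 i hi j hj hji.symm a ha b hb
  refine h (Function.update B i (insert u (insert v (B i)))) (fun j hj => ?_)
    (fun j hj k hk hjk a ha b hb => ?_) i hi u (by simp) v (by simp)
  · by_cases e : j = i
    · subst e
      rw [Function.update_self]
      exact (h1 j hj).trans (card_le_card ((subset_insert _ _).trans (subset_insert _ _)))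
    · rw [Function.update_of_ne e]
      exact h1 j hj
  · by_cases e : j = i
    · subst e
      rw [Function.update_self] at ha
      rw [Function.update_of_ne hjk.symm] at hb
      exact key k hk hjk.symm a ha b hb
    · rw [Function.update_of_ne e] at ha
      by_cases e' : k = i
      · subst e'
        rw [Function.update_self] at hb
        exact (key j hj e b hb a ha).symm
      · rw [Function.update_of_ne e'] at hb
        exact h2 j hj k hk hjk a ha b hb

lemma Rough.E2 {G : SimpleGraph V} {x : V → ℝ} {μ ξ ζ : ℝ} {r t : ℕ} {c : V → ℕ}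
    (h : Rough G x μ ξ r c) (hG : NoPlus G r t) (h0 : 0 ≤ ξ) (h1 : ξ ≤ 1) (hμ : 0 ≤ μ)
    (hζ : r * t * ξ + 2 * t * μ < ζ) (hζ' : ζ ≤ 1 / r - ξ) {u v : V} (huv : G.Adj u v) {i : ℕ}
    (hi : i ∈ Icc 1 r) : ∃ j ∈ Icc 1 r, j ≠ i ∧
      Wt (fun v => x v ^ 2) (fun w => c w = j ∧ G.Adj u w ∧ G.Adj v w) < ζ := by
  have hp : ∀ v, 0 ≤ x v ^ 2 := fun v => sq_nonneg (x v)
  by_contra hn
  push Not at hn
  obtain ⟨B, b1, b2, b3⟩ := greedy (G := G) (r := r) (t := t)
    (fun j => univ.filter fun w => c w = j ∧ (j = i ∨ G.Adj u w ∧ G.Adj v w)) (by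
      intro k hk Z hZ hZt
      by_contra hno
      push Not at hno
      have a1 : ζ ≤ Wt (fun v => x v ^ 2) fun w => c w = k ∧ (k = i ∨ G.Adj u w ∧ G.Adj v w) := by
        by_cases e : k = i
        · refine (hζ'.trans (h.Pi k hk)).trans ?_
          rw [Pc_eq]
          exact Wt_mono hp fun w hw => ⟨hw, Or.inl e⟩
        · exact (hn k hk e).trans (Wt_mono hp fun w hw => ⟨hw.1, Or.inr hw.2⟩)
      have a0 : ∀ j ∈ Icc 1 r, ∀ z ∈ Z j, c z = j ∧ c z ≠ 0 := fun j hj z hz => by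
        have := (mem_filter.1 (hZ j hz)).2.1
        have := mem_Icc.1 hj
        omega
      have a2 := Wt_add hp (S := fun w => c w = k ∧ (k = i ∨ G.Adj u w ∧ G.Adj v w))
        (T := fun w => ∃ z ∈ Z k, w = z)
        (U := fun w => ∃ j ∈ Icc 1 r, ∃ z ∈ Z j, cross c z w ∧ ¬ G.Adj z w) fun w hw => by
          by_cases e : w ∈ Z k
          · exact Or.inl ⟨w, e, rfl⟩
          · obtain ⟨j, hj, hjk, z, hz, hzw⟩ := hno w (mem_filter.2 ⟨mem_univ _, hw⟩) e
            have := a0 j hj z hz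
            have := mem_Icc.1 hk
            exact Or.inr ⟨j, hj, z, hz, ⟨by omega, by omega, by omega⟩, fun a => hzw a.symm⟩
      have a3 : Wt (fun v => x v ^ 2) (fun w => ∃ z ∈ Z k, w = z) ≤ 2 * t * μ := by
        refine (Wt_exists hp _ _).trans ((sum_le_card_nsmul _ _ (2 * μ) fun z hz => ?_).trans ?_)
        · have := (abs_le.1 (h.typ z (a0 k hk z hz).2)).2
          simp only [Wt, sum_ite_eq', mem_univ, if_true]
          nlinarith only [h0, h1, this]
        · have : ((Z k).card : ℝ) ≤ t := by exact_mod_cast hZt k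
          rw [nsmul_eq_mul]
          nlinarith only [hμ, this]
      have a4 : Wt (fun v => x v ^ 2) (fun w => ∃ j ∈ Icc 1 r, ∃ z ∈ Z j, cross c z w ∧
          ¬ G.Adj z w) ≤ r * t * ξ := by
        refine (Wt_exists hp _ _).trans ((sum_le_card_nsmul _ _ (t * ξ) fun j hj => ?_).trans ?_)
        · refine (Wt_exists hp _ _).trans ((sum_le_card_nsmul _ _ ξ fun z hz =>
            h.miss z (a0 j hj z hz).2).trans ?_)
          rw [nsmul_eq_mul]
          exact mul_le_mul_of_nonneg_right (by exact_mod_cast hZt j) h0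
        · simp [mul_assoc]
      linarith)
  exact hG.ext (fun j hj => (b2 j hj).ge) b3 hi
    (fun j _ hji b hb => ((mem_filter.1 (b1 j hb)).2.2).resolve_left hji) huv

/-- refined rough structure -/
structure Fine (G : SimpleGraph V) (x : V → ℝ) (μ ξ : ℝ) (r : ℕ) (c : V → ℕ) : Prop where
  le : ∀ v, c v ≤ r
  typ : ∀ v, c v ≠ 0 → |x v ^ 2 - μ| ≤ ξ * μ
  P0 : Pc (fun v => x v ^ 2) c 0 ≤ ξ
  Pi : ∀ i ∈ Icc 1 r, 1 / r - ξ ≤ Pc (fun v => x v ^ 2) c i
  E1 : ∀ u, ∃ i ∈ Icc 1 r, Wt (fun v => x v ^ 2) (fun w => c w = i ∧ G.Adj u w) ≤ ξ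
  E2 : ∀ u v, G.Adj u v → ∀ i ∈ Icc 1 r, ∃ j ∈ Icc 1 r, j ≠ i ∧
      Wt (fun v => x v ^ 2) (fun w => c w = j ∧ G.Adj u w ∧ G.Adj v w) ≤ ξ

lemma Rough.fine {G : SimpleGraph V} {x : V → ℝ} {μ ξ ξ' : ℝ} {r t : ℕ} {c : V → ℕ}
    (h : Rough G x μ ξ' r c) (hG : NoPlus G r t) (hr : 1 ≤ r) (h0 : 0 ≤ ξ') (h1 : ξ ≤ 1 / r)
    (hμ : 0 ≤ μ) (hζ : r * t * ξ' + 2 * t * μ < ξ / 2) (hζ' : ξ' ≤ ξ / 2) : Fine G x μ ξ r c := by
  have hp : ∀ v, 0 ≤ x v ^ 2 := fun v => sq_nonneg (x v)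
  have hr' : 1 / (r : ℝ) ≤ 1 := by
    rw [div_le_one (by exact_mod_cast hr)]; exact_mod_cast hr
  have E2 := fun u v huv i hi => h.E2 hG h0 (by linarith only [h1, hζ', hr']) hμ hζ (by linarith only [h1, hζ']) (u := u) (v := v)
    huv (i := i) hi
  have hpos : 0 < ξ / 2 := lt_of_le_of_lt (by positivity) hζ
  refine ⟨h.le, fun v hv => (h.typ v hv).trans (mul_le_mul_of_nonneg_right (by linarith only [hζ', hpos]) hμ),
    by linarith only [h.P0, hζ', hpos], fun i hi => by linarith [h.Pi i hi], fun u => ?_, fun u v huv i hi => ?_⟩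
  · by_contra hn
    push Not at hn
    have h1r : 1 ∈ Icc 1 r := mem_Icc.2 ⟨le_rfl, hr⟩
    obtain ⟨v, hv, huv⟩ := exists_of_Wt_pos (lt_trans (by linarith) (hn 1 h1r))
    obtain ⟨j, hj, hj1, hlt⟩ := E2 u v huv 1 h1r
    have a1 := Wt_add hp (S := fun w => c w = j ∧ G.Adj u w)
      (T := fun w => c w = j ∧ G.Adj u w ∧ G.Adj v w) (U := fun w => cross c v w ∧ ¬ G.Adj v w)
      fun w hw => by
        have := mem_Icc.1 hj
        by_cases e : G.Adj v w
        · exact Or.inl ⟨hw.1, hw.2, e⟩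
        · exact Or.inr ⟨⟨by omega, by omega, by omega⟩, e⟩
    linarith [hn j hj, h.miss v (by omega)]
  · obtain ⟨j, hj, hj1, hlt⟩ := E2 u v huv i hi
    exact ⟨j, hj, hj1, by linarith⟩

lemma gap_le {l M ρ C : ℝ} (hM : 0 < M) (h : ρ * M - 2 * C ≤ l ^ 2) :
    ρ - (2 * (l / M) * l - (l / M) ^ 2 * M) ≤ 2 * C / M := by
  rw [show 2 * (l / M) * l - (l / M) ^ 2 * M = l ^ 2 / M by field_simp; ring, sub_le_iff_le_add,
    ← add_div, le_div_iff₀ hM]
  linarith

theorem fine {r : ℕ} (hr : 3 ≤ r) (D t : ℕ) (C : ℝ) {ξ : ℝ} (h0 : 0 < ξ) (h1 : ξ ≤ 1 / r) :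
    ∃ M₁ : ℝ, ∀ (V : Type) [Fintype V] (G : SimpleGraph V) (x : V → ℝ), Perron G x → Deg G r D →
      NoPlus G r t → M₁ ≤ Mo G → (1 - 1 / r) * Mo G - 2 * C ≤ lam G ^ 2 → 0 < lam G →
      ∃ c, Fine G x (lam G / Mo G) ξ r c := by
  obtain ⟨ξ', a0, a1, a2⟩ : ∃ ξ' : ℝ, 0 < ξ' ∧ r * t * ξ' < ξ / 4 ∧ ξ' ≤ ξ / 2 := by
    have : (0 : ℝ) ≤ r * t := by positivity
    refine ⟨ξ / (4 * (r * t + 1)), by positivity, ?_, ?_⟩
    · rw [← mul_div_assoc, div_lt_div_iff₀ (by positivity) (by positivity)]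
      nlinarith only [h0]
    · exact div_le_div_of_nonneg_left h0.le two_pos (by linarith)
  have e1 : 1 / (2 * (r : ℝ)) = 1 / r / 2 := by
    rw [div_div, mul_comm]
  have hr' : 1 / (r : ℝ) ≤ 1 := by
    rw [div_le_one (by positivity)]; exact_mod_cast (by omega : 1 ≤ r)
  obtain ⟨ε, hε, hε'⟩ : ∃ ε : ℝ, 0 < ε ∧ ε = ξ' ^ 4 / 1000 := ⟨_, by positivity, rfl⟩
  have hε1 : ξ' ^ 4 ≤ ξ' := pow_le_of_le_one a0.le (by linarith only [h1, a0, a2, hr']) (by norm_num)
  obtain ⟨B, hB, h⟩ := core2 (by omega : 2 ≤ r) D hε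
  refine ⟨max (max (1 / (ε / B) ^ 2) (1 / (ξ / (8 * (t + 1))) ^ 2)) (2 * C / ε),
    fun V _ G x hx hD hP hM hl hl0 => ?_⟩
  simp only [max_le_iff] at hM
  have hM0 : 0 < Mo G := lt_of_lt_of_le (by positivity) hM.1.1
  have := nonempty_of_Mo hM0
  have b1 := mu_small (lam_sq_le G) (by positivity) hM.1.1
  have b2 := mu_small (lam_sq_le G) (by positivity) hM.1.2
  rw [le_div_iff₀ (by positivity)] at b1 b2
  have b3 : 2 * C / Mo G ≤ ε := by
    rw [div_le_iff₀ hM0, mul_comm ε, ← div_le_iff₀ hε]; exact hM.2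
  have hμ : 0 < lam G / Mo G := div_pos hl0 hM0
  obtain ⟨G', hle, c, c1, c2, c3⟩ := h V G x hx.nonneg hx.unit hD
  have c4 := c3 _ hμ.le
  rw [hx.val] at c4
  obtain ⟨c', hc', -⟩ := recolour (G := G') hx.nonneg hμ hr a0 (by linarith only [h1, a2, e1]) c1 c2 (by linarith only [hε, hε', hε1])
    (Δ := 3 * ε) (by linarith only [gap_le hM0 hl, hl, hM0, b1, b3, c4]) (by linarith only [pow_pos a0 4, hε, hε'])
  exact ⟨c', (hc'.mono hle).fine hP (by omega) a0.le h1 hμ.le (by nlinarith only [a1, b2, hμ]) a2⟩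

end Pool.Agent.P.MP_094db5_co

end
end

section

set_option autoImplicit false

open Finset Classical

noncomputable section

namespace Pool.Agent.P.MP_094db5_co

variable {V : Type} [Fintype V]

lemma Mo_eq_qf (G : SimpleGraph V) : Mo G = qf G fun _ => 1 := by simp [Mo, qf]

lemma qf_sdiff {H K : SimpleGraph V} (h : K ≤ H) (x : V → ℝ) : qf (H \ K) x = qf H x - qf K x := by
  rw [qf, qf, qf, S2_sub]
  refine S2_congr fun u v => ?_
  have := @h u v
  unfold ad
  rw [SimpleGraph.sdiff_adj]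
  by_cases a : H.Adj u v <;> by_cases b : K.Adj u v <;> simp_all

lemma Mo_sdiff {H K : SimpleGraph V} (h : K ≤ H) : Mo (H \ K) = Mo H - Mo K := by
  simp only [Mo_eq_qf, qf_sdiff h]

lemma qf_edge {u v : V} (h : u ≠ v) (x : V → ℝ) : qf (SimpleGraph.edge u v) x = 2 * (x u * x v) := by
  have : qf (SimpleGraph.edge u v) x = S2 (fun a b => if a = u ∧ b = v then x u * x v else 0) +
      S2 (fun a b => if a = v ∧ b = u then x u * x v else 0) := by
    rw [S2_add]
    refine S2_congr fun a b => ?_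
    unfold ad
    rw [SimpleGraph.edge_adj]
    split_ifs <;> grind
  rw [this]
  simp [S2, ite_and, two_mul]

lemma Mo_edge {u v : V} (h : u ≠ v) : Mo (SimpleGraph.edge u v) = 2 := by
  rw [Mo_eq_qf, qf_edge h]; norm_num

lemma Wt_compl (p : V → ℝ) (S : V → Prop) : Wt p S + Wt p (fun v => ¬ S v) = ∑ v, p v := by
  rw [Wt, Wt, ← sum_add_distrib]
  exact sum_congr rfl fun v _ => by split_ifs <;> simp_all

lemma core_zero {G : SimpleGraph V} {x : V → ℝ} (hx : ∑ v, x v ^ 2 = 1) {r : ℕ} (hr : 2 ≤ r)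
    (h : G.CliqueFree (r + 1)) :
    ∃ c : V → ℕ, (∀ v, c v ≤ r) ∧ Pc (fun v => x v ^ 2) c 0 ≤ 0 ∧ ∀ μ : ℝ,
      Dev G x μ + ∑ i ∈ Icc 1 r, (Pc (fun v => x v ^ 2) c i - 1 / r) ^ 2 +
        Miss G (fun v => x v ^ 2) c / 2 ≤ 1 - 1 / r - (2 * μ * qf G x - μ ^ 2 * Mo G) := by
  simpa only [mul_zero, add_zero] using core (G := G) hx hr le_rfl zero_le_one (by
    rw [tau_clique (r + 1) 0 ∅ univ (by simp) (by simpa using h) (by simp)]
    positivity)

lemma nikiforov {G : SimpleGraph V} {r : ℕ} (hr : 2 ≤ r) (h : G.CliqueFree (r + 1))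
    (h0 : 0 < Mo G) : lam G ^ 2 ≤ (1 - 1 / r) * Mo G := by
  have := nonempty_of_Mo h0
  obtain ⟨x, hx⟩ := exists_perron G
  obtain ⟨c, -, -, c3⟩ := core_zero hx.unit hr h
  have a2 := c3 (lam G / Mo G)
  have a3 := Dev_nonneg G x (lam G / Mo G)
  have a4 := Miss_nonneg G (fun v => sq_nonneg (x v)) c
  have a5 : 0 ≤ ∑ i ∈ Icc 1 r, (Pc (fun v => x v ^ 2) c i - 1 / r) ^ 2 :=
    sum_nonneg fun _ _ => sq_nonneg _
  have e : 2 * (lam G / Mo G) * qf G x - (lam G / Mo G) ^ 2 * Mo G = lam G ^ 2 / Mo G := by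
    rw [hx.val]; field_simp; ring
  rw [← div_le_iff₀ h0]
  linarith only [a2, a3, a4, a5, e]

/-- the hypotheses on a minimiser -/
structure Mini (H : SimpleGraph V) (x : V → ℝ) (s ξ ρ : ℝ) (r : ℕ) (c : V → ℕ) : Prop where
  per : Perron H x
  fine : Fine H x (s ^ 2) ξ r c
  s0 : 0 < s
  x0 : 0 < ξ
  x1 : 200 * ξ ≤ 1 / r
  r3 : 1 / (r : ℝ) ≤ 1 / 3
  rho : ρ = 1 - 1 / r
  lo : ρ - ξ ≤ lam H * s ^ 2
  up : lam H * s ^ 2 ≤ ρ + ξ
  min : ∀ K ≤ H, (ρ - ξ) * Mo K ≤ 2 * lam H * (lam H - lam (H \ K))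

namespace Mini

variable {H : SimpleGraph V} {x : V → ℝ} {s ξ ρ : ℝ} {r : ℕ} {c : V → ℕ} (h : Mini H x s ξ ρ r c)
include h

lemma xi : ξ ≤ 1 / 600 := by linarith only [h.x1, h.r3]

lemma rho1 : 2 / 3 ≤ ρ := by linarith only [h.rho, h.r3]

lemma rho2 : ρ ≤ 1 := by linarith [h.rho, h.x1, h.x0]

lemma l0 : 0 < lam H := by
  refine (mul_pos_iff_of_pos_right (pow_pos h.s0 2)).1 ?_
  linarith only [h.lo, h.rho1, h.xi]

lemma m1 {u v : V} (huv : H.Adj u v) : s ^ 2 ≤ 4 * (x u * x v) := by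
  have hle : SimpleGraph.edge u v ≤ H := (SimpleGraph.edge_le_iff _).2 (Or.inr huv)
  have a1 := h.min _ hle
  have a2 := qf_le_lam (H \ SimpleGraph.edge u v) x
  rw [qf_sdiff hle, qf_edge huv.ne, h.per.val, h.per.unit] at a2
  rw [Mo_edge huv.ne] at a1
  have a3 : ρ - ξ ≤ 2 * lam H * (x u * x v) := by nlinarith only [h.l0, a1, a2]
  have a4 := mul_le_mul_of_nonneg_right a3 (sq_nonneg s)
  have a5 := mul_le_mul_of_nonneg_right h.up (mul_nonneg (h.per.nonneg u) (h.per.nonneg v))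
  have a6 : 0 < ρ + ξ := by linarith [h.rho1, h.x0]
  refine le_of_mul_le_mul_left ?_ a6
  nlinarith only [h.rho1, h.xi, sq_nonneg s, a4, a5]

lemma col {v : V} (hv : c v ≠ 0) : (1 - ξ) * s ≤ x v := by
  have a1 := (abs_le.1 (h.fine.typ v hv)).1
  refine (abs_le_of_sq_le_sq' ?_ (h.per.nonneg v)).2
  nlinarith only [mul_nonneg (mul_nonneg h.x0.le (show 0 ≤ 1 - ξ by linarith [h.xi])) (sq_nonneg s), a1]

lemma m2 (u : V) : x u ≤ (1 + 15 * ξ) * s := by
  have hp : ∀ v, 0 ≤ x v ^ 2 := fun v => sq_nonneg (x v)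
  have hu := h.per.nonneg u
  have a1 : (1 - ξ) * s ^ 2 * (lam H * x u) ≤
      s * Wt (fun v => x v ^ 2) (fun v => c v ≠ 0 ∧ H.Adj u v) +
      4 * x u * Wt (fun v => x v ^ 2) (fun v => c v = 0) := by
    rw [← h.per.eig u, Wt, Wt, mul_sum, mul_sum, mul_sum, ← sum_add_distrib]
    refine sum_le_sum fun v _ => ?_
    have hv := h.per.nonneg v
    unfold ad
    by_cases b1 : H.Adj u v <;> by_cases b2 : c v = 0 <;>
      simp only [b1, b2, ne_eq, not_true_eq_false, not_false_eq_true, and_self, and_false,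
        false_and, if_true, if_false, one_mul, zero_mul, mul_zero, add_zero, zero_add, le_refl]
    · nlinarith only [mul_le_mul_of_nonneg_right (h.m1 b1) hv, mul_nonneg (mul_nonneg h.x0.le
        (sq_nonneg s)) hv, hv]
    · nlinarith only [mul_le_mul_of_nonneg_left (h.col b2) (mul_nonneg h.s0.le hv), hv, b2]
    · positivity
  obtain ⟨i, hi, a2⟩ := h.fine.E1 u
  have a3 := h.fine.Pi i hi
  have a4 := h.fine.P0
  rw [Pc_eq] at a3 a4
  have a5 := Wt_compl (fun v => x v ^ 2) (fun v => c v = i)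
  have a6 := Wt_add hp (S := fun v => c v ≠ 0 ∧ H.Adj u v) (T := fun v => c v = i ∧ H.Adj u v)
    (U := fun v => ¬ c v = i) fun v hv => by tauto
  rw [h.per.unit] at a5
  have a7 := mul_le_mul_of_nonneg_left (show Wt (fun v => x v ^ 2) (fun v => c v ≠ 0 ∧ H.Adj u v) ≤
    ρ + 2 * ξ by linarith [h.rho]) h.s0.le
  have a8 := mul_le_mul_of_nonneg_left a4 hu
  have a9 := mul_le_mul_of_nonneg_left h.lo (mul_nonneg (show 0 ≤ 1 - ξ by linarith only [h.xi]) hu)
  have a10 : (ρ - 6 * ξ) * x u ≤ (ρ + 2 * ξ) * s := by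
    nlinarith only [mul_nonneg (mul_nonneg h.x0.le hu) (show 0 ≤ 1 - ρ + ξ by linarith [h.rho2, h.x0]), hu, a1, a7, a8, a9]
  refine le_of_mul_le_mul_left (a10.trans ?_) (show 0 < ρ - 6 * ξ by linarith only [h.rho1, h.xi])
  nlinarith only [mul_nonneg (mul_nonneg h.x0.le h.s0.le)
    (show 0 ≤ 15 * ρ - 90 * ξ - 8 by linarith only [h.rho1, h.xi])]

lemma m3 {u v : V} (huv : H.Adj u v) : (1 - 45 * ξ) * s < x u := by
  have hp : ∀ v, 0 ≤ x v ^ 2 := fun v => sq_nonneg (x v)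
  let K : SimpleGraph V :=
    { Adj := fun a b => H.Adj a b ∧ (x a ≤ (1 - 45 * ξ) * s ∨ x b ≤ (1 - 45 * ξ) * s)
      symm := ⟨fun _ _ a => ⟨a.1.symm, a.2.symm⟩⟩
      loopless := ⟨fun _ a => a.1.ne rfl⟩ }
  have hK : ∀ a b, K.Adj a b ↔ H.Adj a b ∧ (x a ≤ (1 - 45 * ξ) * s ∨ x b ≤ (1 - 45 * ξ) * s) :=
    fun _ _ => Iff.rfl
  have a1 := h.min K fun _ _ a => a.1
  obtain ⟨y, hy⟩ : ∃ y : V → ℝ, ∀ a, y a = if x a ≤ (1 - 45 * ξ) * s then 0 else x a :=
    ⟨_, fun _ => rfl⟩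
  have a2 := qf_le_lam (H \ K) y
  have a3 : lam H * ∑ a, y a ^ 2 = S2 fun a b => ad H a b * (y a * x b) := by
    rw [mul_sum]
    refine sum_congr rfl fun a _ => ?_
    calc lam H * y a ^ 2 = y a * (lam H * x a) := by rw [hy]; split_ifs <;> ring
      _ = _ := by
          rw [← h.per.eig a, mul_sum]
          exact sum_congr rfl fun b _ => by ring
  have a4 : 2 * (lam H * ∑ a, y a ^ 2) ≤ 2 * qf (H \ K) y + (1 - 30 * ξ) * s ^ 2 * Mo K := by
    rw [a3, two_mul]
    nth_rewrite 2 [S2_comm]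
    rw [qf, Mo, S2_mul, S2_mul, S2_add, S2_add]
    refine S2_mono fun a b => ?_
    have c0 : 0 ≤ (1 - 45 * ξ) * s := mul_nonneg (by linarith [h.xi]) h.s0.le
    have c1 : (1 - 45 * ξ) * s * ((1 + 15 * ξ) * s) ≤ (1 - 30 * ξ) * s ^ 2 := by
      nlinarith [sq_nonneg (ξ * s)]
    rw [ad_comm H b a, hy, hy]
    unfold ad
    rw [SimpleGraph.sdiff_adj, hK]
    by_cases b1 : H.Adj a b <;> by_cases b2 : x a ≤ (1 - 45 * ξ) * s <;>
      by_cases b3 : x b ≤ (1 - 45 * ξ) * s <;>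
      simp only [b1, b2, b3, not_true_eq_false, not_false_eq_true, and_self, and_false, or_self,
        or_true, true_or, false_and, if_true, if_false, one_mul, zero_mul, mul_zero, add_zero,
        zero_add, le_refl, mul_one]
    · nlinarith only [h.xi, sq_nonneg s]
    · nlinarith only [mul_le_mul b2 (h.m2 b) (h.per.nonneg b) c0, c0, c1, b2]
    · nlinarith only [mul_le_mul b3 (h.m2 a) (h.per.nonneg a) c0, c0, c1, b3]
    · linarith
  have a5 : 1 - ξ ≤ ∑ a, y a ^ 2 := by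
    have b1 := Wt_compl (fun v => x v ^ 2) (fun v => c v = 0)
    have b2 := h.fine.P0
    rw [Pc_eq] at b2
    rw [h.per.unit] at b1
    refine le_trans (by linarith) (show Wt (fun v => x v ^ 2) (fun v => ¬ c v = 0) ≤ _ from
      sum_le_sum fun a _ => ?_)
    by_cases b3 : c a = 0
    · rw [if_neg (not_not.2 b3)]
      positivity
    · rw [if_pos b3, hy, if_neg]
      nlinarith only [h.col b3, mul_pos h.x0 h.s0, b3]
  by_contra hn
  have a6 : 1 ≤ Mo K := by
    have := S2_single (ad_nonneg K) u v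
    rwa [ad, if_pos ((hK u v).2 ⟨huv, Or.inl (not_lt.1 hn)⟩)] at this
  generalize ∑ a, y a ^ 2 = β at *
  have a7 := mul_le_mul_of_nonneg_left a1 (show 0 ≤ β by linarith [h.xi])
  have a8 : 2 * β * (lam H - lam (H \ K)) ≤ (1 - 30 * ξ) * s ^ 2 * Mo K := by linarith
  have a9 := mul_le_mul_of_nonneg_left a8 h.l0.le
  have a10 := mul_le_mul_of_nonneg_right h.up (show 0 ≤ (1 - 30 * ξ) * Mo K from
    mul_nonneg (by linarith [h.xi]) (by linarith))
  have a11 := mul_le_mul_of_nonneg_right a5 (show 0 ≤ (ρ - ξ) * Mo K from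
    mul_nonneg (by linarith [h.xi, h.rho1]) (by linarith))
  have a12 : (1 - ξ) * (ρ - ξ) ≤ (ρ + ξ) * (1 - 30 * ξ) :=
    le_of_mul_le_mul_right (by linarith) (show 0 < Mo K by linarith)
  nlinarith only [mul_pos h.x0 (show 0 < 29 * ρ - 2 by linarith [h.rho1]), sq_nonneg ξ, a12]

lemma nbr {u v : V} (huv : H.Adj u v) : ρ - 91 * ξ ≤ Wt (fun v => x v ^ 2) (H.Adj u) := by
  have c0 : 0 ≤ (1 - 45 * ξ) * s := mul_nonneg (by linarith [h.xi]) h.s0.le
  have a1 : (1 - 45 * ξ) * s * (lam H * x u) ≤ Wt (fun v => x v ^ 2) (H.Adj u) := by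
    rw [← h.per.eig u, Wt, mul_sum]
    refine sum_le_sum fun w _ => ?_
    unfold ad
    split_ifs with b
    · nlinarith [mul_le_mul_of_nonneg_right (h.m3 b.symm).le (h.per.nonneg w)]
    · simp
  have a2 := mul_le_mul_of_nonneg_left (h.m3 huv).le (mul_nonneg c0 h.l0.le)
  have a3 := mul_le_mul_of_nonneg_left h.lo (sq_nonneg (1 - 45 * ξ))
  nlinarith only [mul_nonneg h.x0.le (show 0 ≤ 1 - ρ + ξ by linarith [h.rho2, h.x0]),
    mul_nonneg (sq_nonneg ξ) (show 0 ≤ ρ - ξ by linarith [h.rho1, h.xi]), a1, a2, a3]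

lemma cliqueFree : H.CliqueFree (r + 1) := by
  have hp : ∀ v, 0 ≤ x v ^ 2 := fun v => sq_nonneg (x v)
  choose i hi hw using h.fine.E1
  have a1 : ∀ u v, H.Adj u v → ∀ j, j ≠ i u →
      Wt (fun v => x v ^ 2) (fun w => c w = j ∧ ¬ H.Adj u w) ≤ 93 * ξ := fun u v huv j hj => by
    have b1 := h.nbr huv
    have b2 := Wt_compl (fun v => x v ^ 2) (H.Adj u)
    have b3 := h.fine.Pi _ (hi u)
    rw [Pc_eq] at b3
    rw [h.per.unit] at b2
    have b4 := Wt_add hp (S := fun w => c w = i u) (T := fun w => c w = i u ∧ H.Adj u w)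
      (U := fun w => c w = i u ∧ ¬ H.Adj u w) fun w hw => by tauto
    have b5 := Wt_disj hp (S := fun w => ¬ H.Adj u w) (T := fun w => c w = j ∧ ¬ H.Adj u w)
      (U := fun w => c w = i u ∧ ¬ H.Adj u w) (fun w hw => by tauto)
      fun w a b => hj (a.1.symm.trans b.1)
    linarith [hw u, h.rho]
  have a2 : ∀ u v, H.Adj u v → i u ≠ i v := fun u v huv e => by
    obtain ⟨j, hj, hji, b1⟩ := h.fine.E2 u v huv _ (hi u)
    have b2 := h.fine.Pi j hj
    rw [Pc_eq] at b2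
    have b3 := Wt_add hp (S := fun w => c w = j) (T := fun w => c w = j ∧ H.Adj u w)
      (U := fun w => c w = j ∧ ¬ H.Adj u w) fun w hw => by tauto
    have b4 := Wt_add hp (S := fun w => c w = j ∧ H.Adj u w)
      (T := fun w => c w = j ∧ H.Adj u w ∧ H.Adj v w)
      (U := fun w => c w = j ∧ ¬ H.Adj v w) fun w hw => by tauto
    linarith only [a1 u v huv j hji, a1 v u huv.symm j (e ▸ hji), h.x1, h.x0, e, hji, b1, b2, b3, b4]
  have := (SimpleGraph.Coloring.mk (G := H) (α := Icc 1 r) (fun u => ⟨i u, hi u⟩)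
    fun {u v} huv e => a2 u v huv (congrArg Subtype.val e)).colorable
  rw [Fintype.card_coe, Nat.card_Icc, add_tsub_cancel_right] at this
  exact this.cliqueFree (Nat.lt_succ_self r)

lemma deg (u : V) : 4 * s ^ 2 * ∑ v, ad H u v ≤ 5 := by
  rw [← mul_one (5 : ℝ), ← h.per.unit, mul_sum, mul_sum]
  refine sum_le_sum fun v _ => ?_
  unfold ad
  split_ifs with b
  · have a1 : 9 / 10 * s ≤ x v := by
      nlinarith only [h.m3 b.symm, mul_le_mul_of_nonneg_right h.xi h.s0.le, h.s0]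
    nlinarith only [mul_self_le_mul_self (by linarith only [h.s0]) a1, a1]
  · simp only [mul_zero]
    positivity

end Mini

end Pool.Agent.P.MP_094db5_co

end
end

section

set_option autoImplicit false

open Finset Classical

noncomputable section

namespace Pool.Agent.P.MP_094db5_co

variable {V : Type} [Fintype V]

/-- the complete multipartite graph on the colour classes -/
def Kc (c : V → ℕ) : SimpleGraph V where
  Adj := cross c
  symm := ⟨fun _ _ a => ⟨a.2.1, a.1, a.2.2.symm⟩⟩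
  loopless := ⟨fun _ a => a.2.2 rfl⟩

/-- size of a colour class -/
def cn (c : V → ℕ) (i : ℕ) : ℕ := (univ.filter fun v => c v = i).card

lemma Pc_const (a : ℝ) (c : V → ℕ) (i : ℕ) : Pc (fun _ => a) c i = cn c i * a := by
  rw [Pc, ← sum_filter, sum_const, nsmul_eq_mul, cn]

lemma Pc_mono {p q : V → ℝ} {c : V → ℕ} {i : ℕ} (h : ∀ v, c v = i → p v ≤ q v) :
    Pc p c i ≤ Pc q c i := sum_le_sum fun v _ => by
  split_ifs with e
  exacts [h v e, le_rfl]

lemma qf_Kc (f : V → ℝ) {c : V → ℕ} {r : ℕ} (hc : ∀ v, c v ≤ r) :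
    qf (Kc c) f = (∑ i ∈ Icc 1 r, Pc f c i) ^ 2 - ∑ i ∈ Icc 1 r, Pc f c i ^ 2 := by
  rw [← cross_eq f hc]
  exact S2_congr fun u v => by simp [ad, Kc]

lemma Mo_Kc {c : V → ℕ} {r : ℕ} (hc : ∀ v, c v ≤ r) :
    Mo (Kc c) = (∑ i ∈ Icc 1 r, (cn c i : ℝ)) ^ 2 - ∑ i ∈ Icc 1 r, (cn c i : ℝ) ^ 2 := by
  simp only [Mo_eq_qf, qf_Kc _ hc, Pc_const, mul_one]

end Pool.Agent.P.MP_094db5_co

end
end

section

set_option autoImplicit false

open Finset Classical

noncomputable section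

namespace Pool.Agent.P.MP_094db5_co

variable {V : Type} [Fintype V]

/-- edges touching an uncoloured vertex -/
def Xe (G : SimpleGraph V) (c : V → ℕ) : SimpleGraph V where
  Adj u v := G.Adj u v ∧ (c u = 0 ∨ c v = 0)
  symm := ⟨fun _ _ a => ⟨a.1.symm, a.2.symm⟩⟩
  loopless := ⟨fun _ a => a.1.ne rfl⟩

/-- bad pairs -/
def Bd (G : SimpleGraph V) (c : V → ℕ) : SimpleGraph V := Xe G c ⊔ Kc c \ G

/-- no edges inside the colour classes -/
def Proper (G : SimpleGraph V) (c : V → ℕ) : Prop := ∀ u v, G.Adj u v → c u ≠ 0 → c u ≠ c v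

lemma qf_split {G : SimpleGraph V} {c : V → ℕ} (h : Proper G c) (f : V → ℝ) :
    qf G f = qf (Kc c) f - qf (Kc c \ G) f + qf (Xe G c) f := by
  simp only [qf, S2_sub, S2_add]
  refine S2_congr fun u v => ?_
  have := h u v
  unfold ad
  rw [SimpleGraph.sdiff_adj]
  by_cases a : G.Adj u v <;> by_cases b : c u = 0 <;> by_cases d : c v = 0 <;>
    simp_all [Kc, Xe, cross]

lemma Rough.proper {G : SimpleGraph V} {x : V → ℝ} {μ ξ : ℝ} {r t : ℕ} {c : V → ℕ}
    (h : Rough G x μ ξ r c) (hG : NoPlus G r t) (h0 : 0 ≤ ξ) (h1 : ξ ≤ 1) (hμ : 0 ≤ μ)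
    (hζ : r * t * ξ + 2 * t * μ < 1 / r - 3 * ξ) : Proper G c := by
  have hp : ∀ v, 0 ≤ x v ^ 2 := fun v => sq_nonneg (x v)
  intro u v huv hu e
  obtain ⟨j, hj, hji, b1⟩ := h.E2 hG h0 h1 hμ hζ (by linarith) huv (i := c u)
    (mem_Icc.2 ⟨by omega, h.le u⟩)
  have b2 := h.Pi j hj
  rw [Pc_eq] at b2
  have := mem_Icc.1 hj
  have b3 := Wt_add hp (S := fun w => c w = j) (T := fun w => c w = j ∧ G.Adj u w)
    (U := fun w => cross c u w ∧ ¬ G.Adj u w) fun w hw => by
      by_cases a : G.Adj u w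
      · exact Or.inl ⟨hw, a⟩
      · exact Or.inr ⟨⟨by omega, by omega, by omega⟩, a⟩
  have b4 := Wt_add hp (S := fun w => c w = j ∧ G.Adj u w)
    (T := fun w => c w = j ∧ G.Adj u w ∧ G.Adj v w)
    (U := fun w => cross c v w ∧ ¬ G.Adj v w) fun w hw => by
      by_cases a : G.Adj v w
      · exact Or.inl ⟨hw.1, hw.2, a⟩
      · exact Or.inr ⟨⟨by omega, by omega, by omega⟩, a⟩
  linarith only [h.miss u hu, h.miss v (e ▸ hu), hu, e, b1, b2, b3, b4]

lemma Rough.cn_lo {G : SimpleGraph V} {x : V → ℝ} {μ ξ : ℝ} {r : ℕ} {c : V → ℕ}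
    (h : Rough G x μ ξ r c) {i : ℕ} (hi : i ∈ Icc 1 r) : 1 / r - ξ ≤ cn c i * ((1 + ξ) * μ) := by
  rw [← Pc_const]
  refine (h.Pi i hi).trans (Pc_mono fun v hv => ?_)
  have := mem_Icc.1 hi
  linarith [(abs_le.1 (h.typ v (by omega))).2]

lemma Rough.cn_up {G : SimpleGraph V} {x : V → ℝ} {μ ξ : ℝ} {r : ℕ} {c : V → ℕ}
    (h : Rough G x μ ξ r c) (hx : ∑ v, x v ^ 2 = 1) (h0 : 0 ≤ ξ) {i : ℕ} (hi : i ∈ Icc 1 r) :
    cn c i * ((1 - ξ) * μ) ≤ 1 / r + r * ξ := by
  have hi' := mem_Icc.1 hi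
  rw [← Pc_const]
  refine (Pc_mono (q := fun v => x v ^ 2) fun v hv => ?_).trans ?_
  · linarith [(abs_le.1 (h.typ v (by omega))).1]
  · have a1 := sum_Pc (fun v => x v ^ 2) h.le
    have a2 := Pc_nonneg (fun v => sq_nonneg (x v)) c 0
    have a3 := card_nsmul_le_sum ((Icc 1 r).erase i) _ _ fun j hj => h.Pi j (mem_of_mem_erase hj)
    rw [← add_sum_erase _ _ hi, hx] at a1
    rw [card_erase_of_mem hi, Nat.card_Icc, add_tsub_cancel_right, nsmul_eq_mul,
      Nat.cast_sub (by omega), Nat.cast_one] at a3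
    have : (r : ℝ) * (1 / r) = 1 := mul_one_div_cancel (by exact_mod_cast (by omega : r ≠ 0))
    nlinarith only [h0, a1, a2, a3, this]

/-- the exact structure -/
structure Shape (G : SimpleGraph V) (r L C : ℕ) (c : V → ℕ) : Prop where
  le : ∀ v, c v ≤ r
  big : ∀ i ∈ Icc 1 r, L ≤ cn c i
  proper : Proper G c
  bad : (Bd G c).edgeSet.ncard ≤ C
  bal : (Bd G c).edgeSet.ncard = C → ∀ i ∈ Icc 1 r, ∀ j ∈ Icc 1 r, cn c i = cn c j

end Pool.Agent.P.MP_094db5_co

end
end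

section

set_option autoImplicit false

open Finset Classical

noncomputable section

namespace Pool.Agent.P.MP_094db5_co

variable {V : Type} [Fintype V]

end Pool.Agent.P.MP_094db5_co

end
end

section

set_option autoImplicit false

open Finset Classical

noncomputable section

namespace Pool.Agent.P.MP_094db5_co

variable {V : Type} [Fintype V]

omit [Fintype V] in
lemma Proper.update {G : SimpleGraph V} {c : V → ℕ} (h : Proper G c) {w : V} {i : ℕ}
    (hi : ∀ u, G.Adj w u → c u ≠ i) : Proper G (Function.update c w i) := by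
  intro u v huv hu
  have := huv.ne
  have := h u v huv
  have := hi v
  have := hi u
  have := huv.symm
  grind

omit [Fintype V] in
lemma colorable_of_labels {G : SimpleGraph V} {r : ℕ} (e : V → ℕ) (h1 : ∀ u, e u ∈ Icc 1 r)
    (h2 : ∀ u v, G.Adj u v → e u ≠ e v) : G.Colorable r := by
  have := (SimpleGraph.Coloring.mk (G := G) (α := Icc 1 r) (fun u => ⟨e u, h1 u⟩)
    fun {u v} huv a => h2 u v huv (congrArg Subtype.val a)).colorable
  rwa [Fintype.card_coe, Nat.card_Icc, add_tsub_cancel_right] at this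

/-- greedy extension of a colouring -/
lemma extend {G : SimpleGraph V} {r : ℕ} (k : ℕ) : ∀ c : V → ℕ, cn c 0 = k → (∀ v, c v ≤ r) →
    Proper G c → (∀ w, c w = 0 → G.degree w < r) → G.Colorable r := by
  induction k with
  | zero =>
    intro c h0 h1 h2 _
    have h3 : ∀ v, c v ≠ 0 := by simpa [cn] using h0
    exact colorable_of_labels c (fun u => mem_Icc.2 ⟨Nat.pos_of_ne_zero (h3 u), h1 u⟩)
      fun u v huv => h2 u v huv (h3 u)
  | succ k ih =>
    intro c h0 h1 h2 h3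
    obtain ⟨w, hw⟩ := card_pos.1 (show 0 < cn c 0 by omega)
    have hw' := (mem_filter.1 hw).2
    obtain ⟨i, hi, hi'⟩ := exists_mem_notMem_of_card_lt_card (s := (G.neighborFinset w).image c)
      (t := Icc 1 r) (card_image_le.trans_lt (by simpa using h3 w hw'))
    have hi2 := mem_Icc.1 hi
    refine ih (Function.update c w i) ?_ (fun v => by grind)
      (h2.update fun u hu e => hi' (mem_image.2 ⟨u, by simpa using hu, e⟩)) fun v hv => h3 v (by
        grind)
    have : (univ.filter fun v => Function.update c w i v = 0) =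
        (univ.filter fun v => c v = 0).erase w := by
      ext v
      simp only [mem_filter, mem_univ, true_and, mem_erase]
      grind
    rw [cn, this, card_erase_of_mem hw]
    exact congrArg (· - 1) h0

lemma heavy_count (G : SimpleGraph V) (c : V → ℕ) {r : ℕ} (S : Finset V)
    (hS : ∀ w ∈ S, c w = 0 ∧ r ≤ G.degree w) :
    (S.card : ℝ) * (2 * r + 1 - S.card) ≤ 2 * (Xe G c).edgeSet.ncard := by
  rw [← Mo_eq]
  have a1 : (S.card : ℝ) * r ≤ S2 fun u v => (if u ∈ S then 1 else 0) * ad G u v := by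
    simp only [S2, ← mul_sum, sum_ad]
    simpa using card_nsmul_le_sum S (fun u => (G.degree u : ℝ)) r fun u hu => by
      exact_mod_cast (hS u hu).2
  have a2 : (S.card : ℝ) = S2 fun u v => if u ∈ S ∧ u = v then 1 else 0 := by
    simp [S2, ite_and]
  have a3 : (S.card : ℝ) * S.card =
      S2 fun u v => (if u ∈ S then 1 else 0) * (if v ∈ S then 1 else 0) := by
    rw [← S2_prod]; simp
  have a4 : (S2 fun u v => (if u ∈ S then 1 else 0) * ad G u v) +
      (S2 fun u v => (if u ∈ S then 1 else 0) * ad G u v) + S.card ≤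
      Mo (Xe G c) + S.card * S.card := by
    nth_rewrite 2 [S2_comm]
    rw [a3, a2, Mo, S2_add, S2_add, S2_add]
    refine S2_mono fun u v => ?_
    have b1 := hS u
    have b2 := hS v
    have b3 := G.irrefl (v := u)
    rw [ad_comm G v u]
    unfold ad Xe
    by_cases d1 : u ∈ S <;> by_cases d2 : v ∈ S <;> by_cases d3 : u = v <;>
      by_cases d4 : G.Adj u v <;> simp_all
    split_ifs <;> norm_num
  linarith

/-- a vertex outside the parts sees all colours -/
def Sees (G : SimpleGraph V) (r : ℕ) (c : V → ℕ) (w : V) : Prop :=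
  ∀ i ∈ Icc 1 r, ∃ x, c x = i ∧ G.Adj w x

lemma one_heavy {G : SimpleGraph V} {r : ℕ} {c : V → ℕ} (h1 : ∀ v, c v ≤ r) (h2 : Proper G c)
    (hn : ¬ G.Colorable r) (w : V) (h3 : ∀ v, c v = 0 → v ≠ w → G.degree v < r) : Sees G r c w := by
  intro i hi
  by_contra hx
  have := mem_Icc.1 hi
  exact hn (extend _ (Function.update c w i) rfl (fun v => by grind)
    (h2.update fun u hu e => hx ⟨u, e, hu⟩) fun v hv => h3 v (by grind) (by grind))

lemma sees_of_small {G : SimpleGraph V} {r : ℕ} {c : V → ℕ} (h1 : ∀ v, c v ≤ r) (h2 : Proper G c)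
    (hn : ¬ G.Colorable r) (h : (Xe G c).edgeSet.ncard + 1 < 2 * r) :
    ∃ w, c w = 0 ∧ Sees G r c w := by
  by_cases h0 : ∃ w, c w = 0 ∧ r ≤ G.degree w
  · obtain ⟨w, hw, hd⟩ := h0
    refine ⟨w, hw, one_heavy h1 h2 hn w fun v hv hvw => ?_⟩
    by_contra hv'
    have := heavy_count G c (r := r) {v, w} (by simp [hw, hd, hv, not_lt.1 hv'])
    rw [card_pair hvw] at this
    have h' : ((Xe G c).edgeSet.ncard : ℝ) + 1 < 2 * r := by exact_mod_cast h
    push_cast at this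
    linarith
  · push Not at h0
    exact (hn (extend _ c rfl h1 h2 h0)).elim

lemma cn_eq (c : V → ℕ) (i : ℕ) : {v | c v = i}.ncard = cn c i := by
  rw [cn, ← Set.ncard_coe_finset]
  simp

/-- well-formed gadget -/
structure Wf (G : SimpleGraph V) (r n : ℕ) (c : V → ℕ) (A D : Set (Sym2 V)) : Prop where
  gad : Gad G r n c A D
  hA : ∀ u v, s(u, v) ∈ A → c u = 0 ∨ c v = 0
  hD : ∀ u v, s(u, v) ∈ D → cross c u v

namespace Wf

variable {G : SimpleGraph V} {r n : ℕ} {c : V → ℕ} {A D : Set (Sym2 V)} (h : Wf G r n c A D)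
include h

end Wf

end Pool.Agent.P.MP_094db5_co

end
end

section

set_option autoImplicit false

open Finset Classical

noncomputable section

namespace Pool.Agent.P.MP_094db5_co

variable {V : Type}

/-- every `r`-clique has at most `k` common neighbours -/
def NoBook (G : SimpleGraph V) (r k : ℕ) : Prop :=
  ∀ K : Finset V, G.IsNClique r K → ∀ T : Finset V, (∀ v ∈ T, ∀ u ∈ K, G.Adj u v) → T.card ≤ k

lemma NoBook.deg {G : SimpleGraph V} {r k : ℕ} (h : NoBook G r k) (hr : 1 ≤ r) : Deg G r k := by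
  intro K hK S ⟨v, hv⟩ hS
  refine ⟨v, hv, h (insert v K) ?_ _ fun w hw u hu => ?_⟩
  · have := hK.insert fun u hu => (hS v hv u hu).symm
    rwa [Nat.sub_add_cancel hr] at this
  · rw [mem_nb] at hw
    rcases mem_insert.1 hu with rfl | hu
    exacts [hw.2, hS w hw.1 u hu]

lemma clique_image {G : SimpleGraph V} {I : Finset ℕ} {z : ℕ → V}
    (h : ∀ i ∈ I, ∀ j ∈ I, i ≠ j → G.Adj (z i) (z j)) : G.IsNClique I.card (I.image z) := by
  refine ⟨fun a ha b hb hab => ?_, card_image_of_injOn fun i hi j hj e => ?_⟩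
  · obtain ⟨i, hi, rfl⟩ := mem_image.1 ha
    obtain ⟨j, hj, rfl⟩ := mem_image.1 hb
    exact h i hi j hj fun e => hab (e ▸ rfl)
  · by_contra hij
    exact (h i hi j hj hij).ne e

lemma NoBook.noPlus {G : SimpleGraph V} {r k : ℕ} (h : NoBook G r k) (hr : 3 ≤ r) :
    NoPlus G r (k + 1) := by
  intro B h1 h2 i hi a ha b hb hab
  obtain ⟨l, -, hl, -, hli, -⟩ := exists_third hr i
  have : ∀ j, ∃ y, j ∈ Icc 1 r → y ∈ B j := fun j => by
    by_cases hj : j ∈ Icc 1 r
    · obtain ⟨y, hy⟩ := card_pos.1 (lt_of_lt_of_le (Nat.succ_pos k) (h1 j hj))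
      exact ⟨y, fun _ => hy⟩
    · exact ⟨a, fun e => (hj e).elim⟩
  choose y hy using this
  have hK := clique_image (G := G) (I := Icc 1 r)
    (z := fun j => if j = i then a else if j = l then b else y j) fun p hp q hq hpq => by
      have := hab.symm
      have := h2 i hi p hp
      have := h2 i hi q hq
      have := h2 p hp i hi
      have := h2 p hp q hq
      have := hy p hp
      have := hy q hq
      grind
  rw [Nat.card_Icc, add_tsub_cancel_right] at hK
  have := h _ hK (B l) fun v hv u hu => by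
    obtain ⟨p, hp, rfl⟩ := mem_image.1 hu
    have := h2 i hi l hl
    have := h2 p hp l hl
    have := hy p hp
    grind
  have := h1 l hl
  omega

lemma noBook_of_cliqueFree {G : SimpleGraph V} {r : ℕ} (h : G.CliqueFree (r + 1)) :
    NoBook G r 0 := fun K hK T hT => by
  by_contra hn
  obtain ⟨v, hv⟩ := card_pos.1 (not_le.1 hn)
  exact h _ (hK.insert fun u hu => (hT v hv u hu).symm)

lemma noBook_of_free {G : SimpleGraph V} {r k : ℕ}
    (h : (join (⊤ : SimpleGraph (Fin r)) (⊥ : SimpleGraph (Fin (k + 1)))).Free G) :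
    NoBook G r k := fun K hK T hT => by
  by_contra hn
  obtain ⟨T', hT', hc⟩ := exists_subset_card_eq (not_le.1 hn : k + 1 ≤ T.card)
  let e1 := (equivFinOfCardEq hK.card_eq).symm
  let e2 := (equivFinOfCardEq hc).symm
  have hadj : ∀ i j, G.Adj (e1 i) (e2 j) := fun i j => hT _ (hT' (e2 j).2) _ (e1 i).2
  refine h ⟨⟨⟨Sum.elim (fun i => e1 i) (fun j => e2 j), ?_⟩, ?_⟩⟩
  · rintro (a | a) (b | b) hab
    · exact hK.isClique (e1 a).2 (e1 b).2 fun e => by
        simp [join, e1.injective (Subtype.ext e)] at hab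
    · exact hadj a b
    · exact (hadj b a).symm
    · simp [join] at hab
  · rintro (a | a) (b | b) hab
    · rw [e1.injective (Subtype.ext hab)]
    · exact ((hadj a b).ne hab).elim
    · exact ((hadj b a).ne hab.symm).elim
    · rw [e2.injective (Subtype.ext hab)]

/-- the star at `w` -/
def star (r : ℕ) (w : V) (x : ℕ → V) : Set (Sym2 V) := {e | ∃ l ∈ Icc 1 r, e = s(w, x l)}

variable [Fintype V]

end Pool.Agent.P.MP_094db5_co

end
end

section

set_option autoImplicit false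

open Finset Classical SimpleGraph

noncomputable section

namespace Pool.Agent.P.MP_094db5_co

variable {V : Type}

lemma cyc_adj {n : ℕ} (u v : Fin n) : (cycleGraph n).Adj u v ↔
    u.val = v.val + 1 ∨ v.val = u.val + 1 ∨ (u.val + 1 = n ∧ v.val = 0 ∧ 1 < n) ∨
      (v.val + 1 = n ∧ u.val = 0 ∧ 1 < n) := by
  rw [cycleGraph_adj']
  have := u.2
  have := v.2
  rcases lt_trichotomy u v with h | h | h
  · rw [Fin.coe_sub_iff_lt.2 h, Fin.sub_val_of_le h.le]
    have := Fin.lt_def.1 h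
    omega
  · subst h
    rw [Fin.sub_val_of_le le_rfl]
    omega
  · rw [Fin.coe_sub_iff_lt.2 h, Fin.sub_val_of_le h.le]
    have := Fin.lt_def.1 h
    omega

/-- the even wheel -/
abbrev Whl (k : ℕ) := join (⊤ : SimpleGraph (Fin 1)) (cycleGraph (2 * k + 1))

lemma wheel_of_fun {G : SimpleGraph V} {k : ℕ} (h : V) (f : ℕ → V)
    (inj : ∀ i j, i ≤ 2 * k → j ≤ 2 * k → f i = f j → i = j) (hub : ∀ i ≤ 2 * k, G.Adj h (f i))
    (step : ∀ i < 2 * k, G.Adj (f i) (f (i + 1))) (close : G.Adj (f (2 * k)) (f 0)) :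
    ¬ (Whl k).Free G := by
  refine not_not.2 ⟨⟨⟨Sum.elim (fun _ => h) (fun i => f i), ?_⟩, ?_⟩⟩
  · rintro (a | a) (b | b) hab
    · simp [join, Subsingleton.elim a b] at hab
    · exact hub _ (by omega)
    · exact (hub _ (by omega)).symm
    · have : (cycleGraph (2 * k + 1)).Adj a b := by simpa [join] using hab
      have := a.2
      have := b.2
      show G.Adj (f a) (f b)
      rcases (cyc_adj a b).1 ‹_› with e | e | ⟨e, e', -⟩ | ⟨e, e', -⟩
      · rw [e]; exact (step _ (by omega)).symm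
      · rw [e]; exact step _ (by omega)
      · rw [e', show a.val = 2 * k by omega]; exact close
      · rw [e', show b.val = 2 * k by omega]; exact close.symm
  · rintro (a | a) (b | b) hab
    · rw [Subsingleton.elim a b]
    · exact ((hub b (by omega)).ne hab).elim
    · exact ((hub a (by omega)).ne hab.symm).elim
    · rw [Fin.ext (inj a b (by omega) (by omega) hab)]

lemma exists_enum {P : Finset V} {N : ℕ} (h : N < P.card) :
    ∃ p : ℕ → V, (∀ i ≤ N, p i ∈ P) ∧ ∀ i j, i ≤ N → j ≤ N → p i = p j → i = j := by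
  refine ⟨fun i => P.equivFin.symm ⟨min i N, by omega⟩, fun i _ => Subtype.property _,
    fun i j hi hj e => ?_⟩
  have := congrArg Fin.val (P.equivFin.symm.injective (Subtype.ext e))
  simp only at this
  omega

lemma wheel_of_sets {G : SimpleGraph V} {k : ℕ} (hk : 2 ≤ k) {h a b d e : V} {P Q : Finset V}
    (cP : 2 * k < P.card) (cQ : 2 * k < Q.card) (hab : G.Adj a b) (hbd : G.Adj b d)
    (hea : G.Adj e a) (ha : G.Adj h a) (hb : G.Adj h b) (hd : G.Adj h d) (he : G.Adj h e)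
    (had : a ≠ d) (hbe : b ≠ e) (hde : d ≠ e)
    (hP : ∀ p ∈ P, G.Adj d p ∧ G.Adj e p ∧ G.Adj h p ∧ p ≠ a ∧ p ≠ b)
    (hQ : ∀ q ∈ Q, G.Adj h q ∧ q ≠ a ∧ q ≠ b ∧ q ≠ d ∧ q ≠ e)
    (hPQ : ∀ p ∈ P, ∀ q ∈ Q, G.Adj p q) : ¬ (Whl k).Free G := by
  obtain ⟨p, p1, p2⟩ := exists_enum cP
  obtain ⟨q, q1, q2⟩ := exists_enum cQ
  obtain ⟨f, hf⟩ : ∃ f : ℕ → V, ∀ i, f i = if i = 0 then a else if i = 1 then b else
    if i = 2 then d else if i = 2 * k then e else if i % 2 = 1 then p i else q i := ⟨_, fun _ => rfl⟩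
  refine wheel_of_fun h f (fun i j hi hj => ?_) (fun i hi => ?_) (fun i hi => ?_) ?_
  · have a1 := hP _ (p1 i hi)
    have a2 := hP _ (p1 j hj)
    have := hQ _ (q1 i hi)
    have := hQ _ (q1 j hj)
    have := (hPQ _ (p1 i hi) _ (q1 j hj)).ne
    have := (hPQ _ (p1 j hj) _ (q1 i hi)).ne
    have := p2 i j hi hj
    have := q2 i j hi hj
    have := hab.ne
    have := hbd.ne
    have := hea.ne
    have := a1.1.ne
    have := a1.2.1.ne
    have := a2.1.ne
    have := a2.2.1.ne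
    rw [hf, hf]
    clear hf hP hQ hPQ p1 p2 q1 q2
    split_ifs <;> grind
  · have := hP _ (p1 i hi)
    have := hQ _ (q1 i hi)
    rw [hf]
    grind
  · have := hP _ (p1 (i + 1) hi)
    have := (hP _ (p1 i hi.le)).2.1.symm
    have := hPQ _ (p1 i hi.le) _ (q1 (i + 1) hi)
    have := (hPQ _ (p1 (i + 1) hi) _ (q1 i hi.le)).symm
    rw [hf, hf]
    grind
  · rw [hf, hf]
    grind

lemma exists_path {G : SimpleGraph V} {D : ℕ} {S : Finset V} (hS : S.Nonempty)
    (h : ∀ v ∈ S, D < (nb G S v).card) (j : ℕ) : j ≤ D → ∃ g : ℕ → V, (∀ i ≤ j, g i ∈ S) ∧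
      (∀ i i', i ≤ j → i' ≤ j → g i = g i' → i = i') ∧ ∀ i < j, G.Adj (g i) (g (i + 1)) := by
  induction j with
  | zero => exact fun _ => let ⟨v, hv⟩ := hS; ⟨fun _ => v, fun _ _ => hv, by omega, by omega⟩
  | succ j ih =>
    intro hj
    obtain ⟨g, g1, g2, g3⟩ := ih (by omega)
    obtain ⟨u, hu, hu'⟩ := exists_mem_notMem_of_card_lt_card (s := (range (j + 1)).image g)
      (t := nb G S (g j)) (card_image_le.trans_lt (by
        have := h _ (g1 j le_rfl)
        rw [card_range]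
        omega))
    rw [mem_nb] at hu
    have a1 : ∀ i ≤ j, g i ≠ u := fun i hi e => hu' (mem_image.2 ⟨i, mem_range.2 (by omega), e⟩)
    exact ⟨Function.update g (j + 1) u, fun i hi => by grind, fun i i' hi hi' => by grind,
      fun i hi => by grind⟩

lemma deg_of_free {G : SimpleGraph V} {k : ℕ} (hk : 1 ≤ k) (h : (Whl k).Free G) :
    Deg G 3 (2 * k) := by
  intro K hK S hS hadj
  by_contra hn
  push Not at hn
  obtain ⟨a, b, hab, rfl⟩ := card_eq_two.1 hK.card_eq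
  obtain ⟨g, g1, g2, g3⟩ := exists_path hS hn (2 * k - 1) (by omega)
  have a1 : ∀ i ≤ 2 * k - 1, G.Adj a (g i) ∧ G.Adj b (g i) := fun i hi =>
    ⟨hadj _ (g1 i hi) a (by simp), hadj _ (g1 i hi) b (by simp)⟩
  have a2 : G.Adj a b := hK.isClique (by simp) (by simp) hab
  refine wheel_of_fun a (Function.update g (2 * k) b) (fun i j hi hj => ?_) (fun i hi => by grind)
    (fun i hi => ?_) (by grind) h
  · have := fun e => (a1 i e).2.ne
    have := fun e => (a1 j e).2.ne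
    grind
  · have := fun e => (a1 i e).2.symm
    grind

lemma noPlus_of_free {G : SimpleGraph V} {k : ℕ} (hk : 2 ≤ k) (h : (Whl k).Free G) :
    NoPlus G 3 (2 * k + 3) := by
  intro B h1 h2 i hi a ha b hb hab
  obtain ⟨j, l, hj, hl, hji, hli, hjl⟩ := exists_third le_rfl i
  obtain ⟨u, hu⟩ := card_pos.1 (show 0 < (B j).card by have := h1 j hj; omega)
  obtain ⟨d, hd, e, he, hde⟩ := one_lt_card.1 (show 1 < (B l).card by have := h1 l hl; omega)
  have c1 : ∀ (T : Finset V) (x y : V), 2 * k + 3 ≤ T.card → 2 * k < (T \ {x, y}).card :=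
    fun T x y hT => by
      have := le_card_sdiff {x, y} T
      have := card_le_two (a := x) (b := y)
      omega
  have b1 := h2 i hi l hl hli.symm
  have b2 := h2 l hl i hi hli
  have b3 := h2 j hj i hi hji
  have b4 := h2 j hj l hl hjl
  exact wheel_of_sets hk (c1 _ a b (h1 i hi)) (c1 _ d e (h1 l hl)) hab (b1 b hb d hd)
    (b2 e he a ha) (b3 u hu a ha) (b3 u hu b hb) (b4 u hu d hd) (b4 u hu e he) (b1 a ha d hd).ne
    (b1 b hb e he).ne hde (fun p hp => by grind)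
    (fun q hq => by
      have := fun x => (b1 a ha q x).ne
      have := fun x => (b1 b hb q x).ne
      grind) (fun p hp q hq => by grind) h

/-- a wheel unrolled along the rim -/
structure WIn (G : SimpleGraph V) (k : ℕ) (h : V) (g : ℕ → V) : Prop where
  hub : ∀ n, G.Adj h (g n)
  step : ∀ n, G.Adj (g n) (g (n + 1))
  per : ∀ n, g (n + (2 * k + 1)) = g n
  d2 : ∀ n, g n ≠ g (n + 2)
  d3 : ∀ n, g n ≠ g (n + 3)

lemma win_of_copy {G : SimpleGraph V} {k : ℕ} (hk : 2 ≤ k) (h : ¬ (Whl k).Free G) :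
    ∃ h g, WIn G k h g := by
  obtain ⟨f⟩ := not_not.1 h
  have key : ∀ n j, 0 < j → j < 2 * k + 1 → n % (2 * k + 1) ≠ (n + j) % (2 * k + 1) :=
    fun n j h0 h1 e => by
      have := Nat.le_of_dvd h0 ((Nat.modEq_iff_dvd' (Nat.le_add_right n j)).1 e |>.trans
        (by simp))
      omega
  refine ⟨f (Sum.inl 0), fun n => f (Sum.inr ⟨n % (2 * k + 1), Nat.mod_lt _ (by omega)⟩),
    fun n => f.toHom.map_rel (by simp [join]), fun n => f.toHom.map_rel ?_, fun n => by simp,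
    fun n e => key n 2 (by omega) (by omega) (by simpa using f.injective e),
    fun n e => key n 3 (by omega) (by omega) (by simpa using f.injective e)⟩
  have : (cycleGraph (2 * k + 1)).Adj ⟨n % (2 * k + 1), Nat.mod_lt _ (by omega)⟩
      ⟨(n + 1) % (2 * k + 1), Nat.mod_lt _ (by omega)⟩ := by
    rw [cyc_adj]
    have := Nat.mod_lt n (show 0 < 2 * k + 1 by omega)
    simp only
    rw [← Nat.mod_add_mod]
    rcases (Nat.succ_le_of_lt this).eq_or_lt with e | e
    · rw [Nat.succ_eq_add_one] at e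
      rw [e, Nat.mod_self]
      omega
    · rw [Nat.mod_eq_of_lt e]
      omega
  simpa [join] using this

namespace WIn

variable {G : SimpleGraph V} {k : ℕ} {h : V} {g : ℕ → V} (H : WIn G k h g)
include H

lemma uncol {c : V → ℕ} (h1 : ∀ v, c v ≤ 3) (h2 : Proper G c) : c h = 0 ∨ ∃ n, c (g (n + 2)) = 0 := by
  by_contra hn
  push Not at hn
  have a1 : ∀ n, c (g (n + 2 + 2)) = c (g (n + 2)) := fun n => by
    have := h2 _ _ (H.hub (n + 2)) hn.1
    have := h2 _ _ (H.hub (n + 1 + 2)) hn.1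
    have := h2 _ _ (H.hub (n + 2 + 2)) hn.1
    have := h2 _ _ (H.step (n + 2)) (hn.2 n)
    have := h2 _ _ (H.step (n + 1 + 2)) (hn.2 (n + 1))
    have := h1 h
    have := h1 (g (n + 2))
    have := h1 (g (n + 1 + 2))
    have := h1 (g (n + 2 + 2))
    have := hn.2 n
    have := hn.2 (n + 1)
    have := hn.2 (n + 2)
    grind
  have a2 : ∀ j, c (g (2 * j + 2)) = c (g 2) := fun j => by
    induction j with
    | zero => rfl
    | succ j ih => exact (a1 (2 * j)).trans ih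
  have a3 := a2 (k + 1)
  rw [show 2 * (k + 1) + 2 = 2 + 1 + (2 * k + 1) by ring, H.per] at a3
  exact h2 _ _ (H.step 2) (hn.2 0) a3.symm

lemma not_hub {a b d : V} (hN : ∀ v, G.Adj h v → v = a ∨ v = b ∨ v = d) : False := by
  have := hN _ (H.hub 0)
  have := hN _ (H.hub 1)
  have := hN _ (H.hub 2)
  have := hN _ (H.hub 3)
  have := (H.step 0).ne
  have := (H.step 1).ne
  have := (H.step 2).ne
  have := H.d2 0
  have := H.d2 1
  have := H.d3 0
  grind

end WIn

end Pool.Agent.P.MP_094db5_co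

end
end

section

set_option autoImplicit false

open Finset Classical SimpleGraph

noncomputable section

namespace Pool.Agent.P.MP_094db5_co

variable {V : Type}

/-- large fully joined subsets of the parts -/
def Cores (G : SimpleGraph V) (r N : ℕ) (c : V → ℕ) : Prop :=
  ∀ i ∈ Icc 1 r, ∃ P : Finset V, N ≤ P.card ∧ ∀ v ∈ P, c v = i ∧ ∀ u, c u ≠ 0 → c u ≠ i → G.Adj u v

lemma Cores.wheel {G : SimpleGraph V} {k : ℕ} {c : V → ℕ} (H : Cores G 3 (2 * k + 3) c)
    (hk : 2 ≤ k) {j l : ℕ} (hj : j ∈ Icc 1 3) (hl : l ∈ Icc 1 3) (hjl : j ≠ l) {h a b d e : V}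
    (hab : G.Adj a b) (hbd : G.Adj b d) (hea : G.Adj e a) (ha : G.Adj h a) (hb : G.Adj h b)
    (hd : G.Adj h d) (he : G.Adj h e) (hde : d ≠ e) (ca : c a = 0) (cb : c b ≠ l) (cd : c d = l)
    (ce : c e = l) (c0 : c h ≠ 0) (c1 : c h ≠ j) (c2 : c h ≠ l) : ¬ (Whl k).Free G := by
  obtain ⟨P, p1, p2⟩ := H j hj
  obtain ⟨Q, q1, q2⟩ := H l hl
  have c1 : ∀ (T : Finset V) (x y : V), 2 * k + 3 ≤ T.card → 2 * k < (T \ {x, y}).card :=
    fun T x y hT => by
      have := le_card_sdiff {x, y} T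
      have := card_le_two (a := x) (b := y)
      omega
  have c3 := c1 P b b p1
  have c4 := c1 Q d e q1
  clear c1 p1 q1
  have := mem_Icc.1 hj
  have := mem_Icc.1 hl
  refine wheel_of_sets hk c3 c4 hab hbd hea ha hb hd he (by grind) (by grind)
    hde (fun p hp => ?_) (fun q hq => ?_) fun p hp q hq => ?_ <;> clear c3 c4 <;>
    simp only [mem_sdiff, mem_insert, mem_singleton, not_or] at * <;> grind

/-- the first gadget -/
def Gad1 (G : SimpleGraph V) (n : ℕ) : Prop :=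
  ∃ (c : V → ℕ) (w a b d : V), c w = 0 ∧ c a = 1 ∧ c b = 2 ∧ c d = 3 ∧
    Gad G 3 n c {s(w, a), s(w, b), s(w, d)} {s(a, b), s(a, d)}

/-- the gadgets with two new vertices -/
def Gad2 (G : SimpleGraph V) (n : ℕ) (c : V → ℕ) (w w' a b a' b' : V) : Prop :=
  w ≠ w' ∧ c w = 0 ∧ c w' = 0 ∧ c a = 2 ∧ c a' = 2 ∧ c b = 3 ∧ c b' = 3 ∧
    Gad G 3 n c {s(w, w'), s(w, a), s(w, b), s(w', a'), s(w', b')} ∅

variable [Fintype V]

end Pool.Agent.P.MP_094db5_co

end
end

section

set_option autoImplicit false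

open Finset Classical SimpleGraph

noncomputable section

namespace Pool.Agent.P.MP_094db5_co

variable {V W : Type}

lemma lam_le_of_map [Fintype V] [Fintype W] [Nonempty V] {G : SimpleGraph V} {H : SimpleGraph W}
    (f : V → W) (T : Finset V) (hf : Set.InjOn f T) (hT : ∀ u v, G.Adj u v → u ∈ T)
    (hadj : ∀ u v, G.Adj u v → H.Adj (f u) (f v)) : lam G ≤ lam H := by
  have : Nonempty W := Nonempty.map f ‹_›
  obtain ⟨x, hx⟩ := exists_perron G
  obtain ⟨y, y0, y1, y2⟩ : ∃ y : W → ℝ, (∀ u, 0 ≤ y u) ∧ (∀ v ∈ T, y (f v) = x v) ∧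
      ∀ u, u ∉ T.image f → y u = 0 := by
    refine ⟨fun u => if h : ∃ v ∈ T, f v = u then x h.choose else 0, fun u => ?_, fun v hv => ?_,
      fun u hu => dif_neg (by simpa using hu)⟩
    · beta_reduce
      split_ifs
      exacts [hx.nonneg _, le_rfl]
    · have h : ∃ v' ∈ T, f v' = f v := ⟨v, hv, rfl⟩
      beta_reduce
      rw [dif_pos h, hf h.choose_spec.1 hv h.choose_spec.2]
  have a1 : ∑ u, y u ^ 2 ≤ 1 := by
    rw [← sum_subset (subset_univ (T.image f)) fun u _ hu => by rw [y2 u hu]; norm_num,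
      sum_image hf, sum_congr rfl fun v hv => by rw [y1 v hv], ← hx.unit]
    exact sum_le_sum_of_subset_of_nonneg (subset_univ _) fun _ _ _ => sq_nonneg _
  have h0 : ∀ u v, 0 ≤ ad H u v * (y u * y v) := fun u v =>
    mul_nonneg (ad_nonneg _ _ _) (mul_nonneg (y0 u) (y0 v))
  have a2 : qf G x ≤ qf H y := by
    calc qf G x = ∑ u ∈ T, ∑ v ∈ T, ad G u v * (x u * x v) := by
          rw [qf, S2, ← sum_subset (subset_univ T) fun u _ hu => sum_eq_zero fun v _ => by
            rw [ad, if_neg fun a => hu (hT _ _ a), zero_mul]]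
          refine sum_congr rfl fun u _ => (sum_subset (subset_univ T) fun v _ hv => ?_).symm
          rw [ad, if_neg fun a => hv (hT _ _ a.symm), zero_mul]
      _ ≤ ∑ u ∈ T, ∑ v ∈ T, ad H (f u) (f v) * (y (f u) * y (f v)) := by
          refine sum_le_sum fun u hu => sum_le_sum fun v hv => ?_
          rw [y1 u hu, y1 v hv]
          refine mul_le_mul_of_nonneg_right ?_ (mul_nonneg (hx.nonneg u) (hx.nonneg v))
          have := hadj u v
          unfold ad
          split_ifs <;> first | linarith | tauto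
      _ = ∑ u ∈ T.image f, ∑ v ∈ T.image f, ad H u v * (y u * y v) := by
          rw [sum_image hf]
          exact sum_congr rfl fun u _ => by rw [sum_image hf]
      _ ≤ _ := (sum_le_sum fun u _ => sum_le_sum_of_subset_of_nonneg (subset_univ _)
            fun v _ _ => h0 u v).trans (sum_le_sum_of_subset_of_nonneg (subset_univ _)
            fun u _ _ => sum_nonneg fun v _ => h0 u v)
  rw [← hx.val]
  exact a2.trans ((qf_le_lam H y).trans (mul_le_of_le_one_right (lam_nonneg H) a1))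

variable [Fintype V]

end Pool.Agent.P.MP_094db5_co

end
end

section

/-! Reduction to a clique-free subgraph when the deficiency is linear in the spectral radius. -/

set_option autoImplicit false

open Finset Classical

noncomputable section

namespace Pool.Agent.P.MP_094db5_co

theorem fine_eps {r : ℕ} (hr : 3 ≤ r) (D t : ℕ) {ξ : ℝ} (h0 : 0 < ξ) (h1 : ξ ≤ 1 / r) :
    ∃ ε : ℝ, 0 < ε ∧ ε ≤ ξ ∧ ∃ M₁ : ℝ, ∀ (V : Type) [Fintype V] (G : SimpleGraph V) (x : V → ℝ),
      Perron G x → Deg G r D → NoPlus G r t → M₁ ≤ Mo G →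
      (1 - 1 / r) * Mo G - ε * Mo G ≤ lam G ^ 2 → 0 < lam G →
      ∃ c, Fine G x (lam G / Mo G) ξ r c := by
  obtain ⟨ξ', a0, a1, a2⟩ : ∃ ξ' : ℝ, 0 < ξ' ∧ r * t * ξ' < ξ / 4 ∧ ξ' ≤ ξ / 2 := by
    have : (0 : ℝ) ≤ r * t := by positivity
    refine ⟨ξ / (4 * (r * t + 1)), by positivity, ?_, ?_⟩
    · rw [← mul_div_assoc, div_lt_div_iff₀ (by positivity) (by positivity)]
      nlinarith only [h0]
    · exact div_le_div_of_nonneg_left h0.le two_pos (by linarith)
  have e1 : 1 / (2 * (r : ℝ)) = 1 / r / 2 := by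
    rw [div_div, mul_comm]
  have hr' : 1 / (r : ℝ) ≤ 1 := by
    rw [div_le_one (by positivity)]; exact_mod_cast (by omega : 1 ≤ r)
  obtain ⟨ε, hε, hε'⟩ : ∃ ε : ℝ, 0 < ε ∧ ε = ξ' ^ 4 / 1000 := ⟨_, by positivity, rfl⟩
  have hε1 : ξ' ^ 4 ≤ ξ' := pow_le_of_le_one a0.le (by linarith only [h1, a0, a2, hr']) (by norm_num)
  obtain ⟨B, hB, h⟩ := core2 (by omega : 2 ≤ r) D hε
  refine ⟨ε, hε, by linarith only [a0, a2, hε', hε1], max (1 / (ε / B) ^ 2) (1 / (ξ / (8 * (t + 1))) ^ 2),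
    fun V _ G x hx hD hP hM hl hl0 => ?_⟩
  simp only [max_le_iff] at hM
  have hM0 : 0 < Mo G := lt_of_lt_of_le (by positivity) hM.1
  have := nonempty_of_Mo hM0
  have b1 := mu_small (lam_sq_le G) (by positivity) hM.1
  have b2 := mu_small (lam_sq_le G) (by positivity) hM.2
  rw [le_div_iff₀ (by positivity)] at b1 b2
  have b3 := gap_le (l := lam G) (ρ := 1 - 1 / r) (C := ε * Mo G / 2) hM0 (by linarith only [hl])
  rw [show 2 * (ε * Mo G / 2) / Mo G = ε by field_simp] at b3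
  have hμ : 0 < lam G / Mo G := div_pos hl0 hM0
  obtain ⟨G', hle, c, c1, c2, c3⟩ := h V G x hx.nonneg hx.unit hD
  have c4 := c3 _ hμ.le
  rw [hx.val] at c4
  obtain ⟨c', hc', -⟩ := recolour (G := G') hx.nonneg hμ hr a0 (by linarith only [h1, a2, e1]) c1 c2 (by linarith only [hε, hε', hε1])
    (Δ := 3 * ε) (by linarith only [b1, b3, c4]) (by linarith only [pow_pos a0 4, hε, hε'])
  exact ⟨c', (hc'.mono hle).fine hP (by omega) a0.le h1 hμ.le (by nlinarith only [a1, b2, hμ]) a2⟩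

theorem reduce_lin {r : ℕ} (hr : 3 ≤ r) (D t : ℕ) {C : ℝ} (hC : 0 ≤ C) :
    ∃ M₂ : ℝ, ∀ (V : Type) [Fintype V] (G : SimpleGraph V), Deg G r D → NoPlus G r t →
      M₂ ≤ Mo G → (1 - 1 / r) * Mo G - C * lam G ≤ lam G ^ 2 →
      ∃ H ≤ G, H.CliqueFree (r + 1) ∧ Mo G - Mo H ≤ 200 * r * C * lam G ∧
        ∀ u, (∑ v, ad H u v) ^ 2 ≤ 3 * Mo G := by
  have hr' : (3 : ℝ) ≤ r := by exact_mod_cast hr
  have r3 : 1 / (r : ℝ) ≤ 1 / 3 := one_div_le_one_div_of_le (by norm_num) hr'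
  obtain ⟨ξ, x0, x1⟩ : ∃ ξ : ℝ, 0 < ξ ∧ 200 * ξ = 1 / r :=
    ⟨1 / r / 200, by positivity, by ring⟩
  obtain ⟨ε, e0, e1, M₁, h1⟩ := fine_eps hr D t x0 (by linarith)
  obtain ⟨M₀, hM₀, h0⟩ := rough_upper (by omega : 2 ≤ r) D x0
  obtain ⟨M', b0, b1⟩ : ∃ M' : ℝ, M₀ ≤ M' ∧ M₁ ≤ M' := ⟨max M₀ M₁, by simp, by simp⟩
  refine ⟨max (2 * M' / ξ) (1 / (ε * ξ / (2 * (C + 1))) ^ 2), fun V _ G hD hP hM hl => ?_⟩
  rw [max_le_iff, div_le_iff₀ x0] at hM
  have hG0 : 0 < Mo G := lt_of_lt_of_le (by positivity) hM.2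
  have := nonempty_of_Mo hG0
  have b2 := mu_small (lam_sq_le G) (by positivity) hM.2
  rw [div_le_div_iff₀ hG0 (by positivity)] at b2
  have b3 : 2 * (C * lam G) ≤ ε * (ξ * Mo G) := by linarith only [lam_nonneg G, b2]
  have b4 : ε * (ξ * Mo G) ≤ ξ * Mo G := mul_le_of_le_one_left (by positivity) (by linarith only [r3, x0, x1, e1])
  have : Nonempty {H // H ≤ G} := ⟨⟨G, le_rfl⟩⟩
  obtain ⟨⟨H, hle⟩, hmin⟩ := Finite.exists_min fun H : {H // H ≤ G} =>
    (1 - 1 / r - ξ) * Mo H.1 - lam H.1 ^ 2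
  have a1 := hmin ⟨G, le_rfl⟩
  simp only at a1
  have a2 := mul_nonneg (show 0 ≤ 1 - 1 / r - ξ by linarith only [r3, x0, x1]) (Mo_nonneg H)
  have a3 : ξ * Mo G / 2 ≤ lam H ^ 2 := by linarith only [hl, b3, b4, a1, a2]
  have a4 := a3.trans (lam_sq_le H)
  have a5 := mul_le_mul_of_nonneg_left (Mo_mono hle) x0.le
  have a6 : (1 - 1 / r) * Mo H - ε * Mo H ≤ lam H ^ 2 := by
    linarith only [mul_le_mul_of_nonneg_left a4 e0.le, e0, hl, b3, a1, a4, a5]
  have hM0 : 0 < Mo H := by linarith only [hM.1, hM₀, b0, hM, a4]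
  have l0 : 0 < lam H := lt_of_le_of_ne (lam_nonneg H) fun e => by
    rw [← e] at a3
    linarith only [hM.1, hM₀, b0, hM, a3]
  obtain ⟨x, hx⟩ := exists_perron H
  obtain ⟨c, hc⟩ := h1 V H x hx (hD.mono hle) (hP.mono hle) (by linarith only [hM.1, b1, hM, a4]) a6 l0
  have a7 := h0 V H (hD.mono hle) (by linarith only [hM.1, b0, hM, a4])
  obtain ⟨s, s0, hs⟩ : ∃ s : ℝ, 0 < s ∧ s ^ 2 = lam H / Mo H :=
    ⟨√(lam H / Mo H), Real.sqrt_pos.2 (by positivity), Real.sq_sqrt (by positivity)⟩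
  have e : lam H * s ^ 2 * Mo H = lam H ^ 2 := by
    rw [hs]; field_simp
  have hm : Mini H x s ξ (1 - 1 / r) r c := ⟨hx, hs ▸ hc, s0, x0, x1.le, r3, rfl,
    le_of_mul_le_mul_right (by linarith only [mul_le_mul_of_nonneg_right e1 hM0.le, hM₀, b0, hM, hl, b3, b4, a1, e]) hM0,
    le_of_mul_le_mul_right (by linarith only [a7, e]) hM0,
    fun K hK => by
      have := hmin ⟨H \ K, sdiff_le.trans hle⟩
      simp only [Mo_sdiff hK] at this
      nlinarith only [sq_nonneg (lam H - lam (H \ K)), this]⟩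
  refine ⟨H, hle, hm.cliqueFree, ?_, fun u => ?_⟩
  · have a8 := nikiforov (by omega) hm.cliqueFree hM0
    have a9 : ξ * (Mo G - Mo H) ≤ C * lam G := by linarith only [hl, a1, a8]
    have a10 : 200 * r * ξ = 1 := by rw [mul_right_comm, x1]; field_simp
    have a11 := mul_le_mul_of_nonneg_left a9 (show (0 : ℝ) ≤ 200 * r by positivity)
    rw [← mul_assoc, a10] at a11
    linarith only [a11]
  · have d0 : 0 ≤ ∑ v, ad H u v := sum_nonneg fun v _ => ad_nonneg H u v
    have d1 := mul_self_le_mul_self (by positivity) (hm.deg u)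
    have d2 : s ^ 2 * Mo H = lam H := by rw [hs]; field_simp
    have d3 : 13 / 20 ≤ s ^ 2 * (s ^ 2 * Mo H) := by
      rw [d2]
      linarith only [hm.lo, hm.xi, r3, x0, x1]
    have d4 := mul_le_mul_of_nonneg_left d3 (sq_nonneg (∑ v, ad H u v))
    have d5 := mul_le_mul_of_nonneg_right d1 hM0.le
    nlinarith only [Mo_mono hle, hG0, hle, d4, d5]

end Pool.Agent.P.MP_094db5_co

end
end
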