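import Pool.Agent.P.MP_094db5_co.ADefs
import Pool.Agent.P.MP_094db5_co.XA1

section

/-! Shared definitions for the structure theorem. -/

set_option autoImplicit false

open Finset Classical

noncomputable section

namespace Pool.Agent.P.MP_094db5_co

variable {V : Type}

/-- number of edges -/
def ec (G : SimpleGraph V) : ℕ := G.edgeSet.ncard

/-- the star with centre `w` and leaves `X` -/
def Sg (w : V) (X : Finset V) : SimpleGraph V where
  Adj u v := u ≠ v ∧ (u = w ∧ v ∈ X ∨ v = w ∧ u ∈ X)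
  symm := ⟨fun _ _ a => ⟨a.1.symm, a.2.symm⟩⟩
  loopless := ⟨fun _ a => a.1 rfl⟩

/-- target graphs: complete multipartite minus `H` plus two stars -/
def Tg (c : V → ℕ) (H : SimpleGraph V) (o : V) (S : Finset V) (w : V) (X : Finset V) :
    SimpleGraph V := Kc c \ H ⊔ Sg o S ⊔ Sg w X

/-- missing cross pairs -/
def Hm (G : SimpleGraph V) (c : V → ℕ) : SimpleGraph V := Kc c \ G

/-- edges between vertices with label zero -/
def Ww (G : SimpleGraph V) (c : V → ℕ) : SimpleGraph V where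
  Adj u v := G.Adj u v ∧ c u = 0 ∧ c v = 0
  symm := ⟨fun _ _ a => ⟨a.1.symm, a.2.2, a.2.1⟩⟩
  loopless := ⟨fun _ a => a.1.ne rfl⟩

/-- restriction to the labelled vertices -/
def rT (c : V → ℕ) (x : V → ℝ) (v : V) : ℝ := if c v = 0 then 0 else x v

/-- well formed data of a target graph -/
structure TgOK (r : ℕ) (c : V → ℕ) (H : SimpleGraph V) (o : V) (S : Finset V) (w : V)
    (X : Finset V) : Prop where
  le : ∀ v, c v ≤ r
  hH : H ≤ Kc c
  o0 : c o = 0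
  w0 : c w = 0
  ow : o ≠ w
  hS : ∀ v ∈ S, c v ≠ 0
  hX : ∀ v ∈ X, c v ≠ 0 ∨ v = o

/-- admissible targets -/
structure Adm (r : ℕ) (Fr : SimpleGraph V → Prop) (c : V → ℕ) (H : SimpleGraph V) (o : V)
    (S : Finset V) (w : V) (X : Finset V) : Prop where
  ok : TgOK r c H o S w X
  fr : Fr (Tg c H o S w X)
  nc : ¬ (Tg c H o S w X).Colorable r

/-- transversals of the parts -/
def Trans (r : ℕ) (c : V → ℕ) (X : Finset V) : Prop :=
  (∀ v ∈ X, c v ≠ 0) ∧ (∀ i ∈ Icc 1 r, ∃ v ∈ X, c v = i) ∧ ∀ u ∈ X, ∀ v ∈ X, c u = c v → u = v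

/-- labelled vertices are not isolated -/
def NI (G : SimpleGraph V) (c : V → ℕ) : Prop := ∀ v, c v ≠ 0 → ∃ u, G.Adj v u

/-- the properties of the class of `F`-free graphs that are used -/
structure Cls (r D t : ℕ) (Fr : SimpleGraph V → Prop) : Prop where
  deg : ∀ G, Fr G → Deg G r D
  noplus : ∀ G, Fr G → NoPlus G r t
  gad : ∀ (G : SimpleGraph V) (w a : V) (X : Finset V), G.Colorable r → (∀ v, ¬ G.Adj w v) →
    X.card ≤ r → a ∈ X → (∀ b ∈ X, ¬ G.Adj a b) → Fr (G ⊔ Sg w X)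

variable [Fintype V]

/-- a part -/
def Vp (c : V → ℕ) (i : ℕ) : Finset V := univ.filter fun v => c v = i

@[simp] lemma mem_Vp {c : V → ℕ} {i : ℕ} {v : V} : v ∈ Vp c i ↔ c v = i := by simp [Vp]

lemma card_Vp (c : V → ℕ) (i : ℕ) : (Vp c i).card = cn c i := rfl

/-- labelled vertices outside part `l` -/
def Out (c : V → ℕ) (l : ℕ) : Finset V := univ.filter fun v => c v ≠ 0 ∧ c v ≠ l

@[simp] lemma mem_Out {c : V → ℕ} {l : ℕ} {v : V} : v ∈ Out c l ↔ c v ≠ 0 ∧ c v ≠ l := by simp [Out]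

/-- labelled neighbours -/
def nT (G : SimpleGraph V) (c : V → ℕ) (u : V) : Finset V :=
  univ.filter fun v => G.Adj u v ∧ c v ≠ 0

@[simp] lemma mem_nT {G : SimpleGraph V} {c : V → ℕ} {u v : V} :
    v ∈ nT G c u ↔ G.Adj u v ∧ c v ≠ 0 := by simp [nT]

/-- number of labelled neighbours -/
def dT (G : SimpleGraph V) (c : V → ℕ) (u : V) : ℕ := (nT G c u).card

/-- weight of the labelled neighbours -/
def aT (G : SimpleGraph V) (c : V → ℕ) (x : V → ℝ) (u : V) : ℝ := ∑ v ∈ nT G c u, x v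

/-- contribution of the unlabelled vertices -/
def Qw (G : SimpleGraph V) (c : V → ℕ) (x : V → ℝ) : ℝ := ∑ u ∈ Vp c 0, x u * aT G c x u

/-- sum of the squares of the degrees of the unlabelled vertices -/
def D2 (G : SimpleGraph V) (c : V → ℕ) : ℕ := ∑ u ∈ Vp c 0, dT G c u ^ 2

/-- adjacency operator -/
def op (G : SimpleGraph V) (x : V → ℝ) (u : V) : ℝ := ∑ v, ad G u v * x v

/-- shifted quadratic form -/
def Ph (G : SimpleGraph V) (l : ℝ) (y : V → ℝ) : ℝ := qf G y - l * ∑ v, y v ^ 2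

/-- nonnegative eigenvector -/
structure Eig (G : SimpleGraph V) (x : V → ℝ) : Prop where
  nonneg : ∀ v, 0 ≤ x v
  eig : ∀ u, op G x u = lam G * x u

/-- extremal graphs with many isolated vertices -/
structure Ex (r : ℕ) (Fr : SimpleGraph V → Prop) (G : SimpleGraph V) : Prop where
  fr : Fr G
  nc : ¬ G.Colorable r
  max : ∀ H : SimpleGraph V, ec H = ec G → Fr H → ¬ H.Colorable r → lam H ≤ lam G
  iso : 2 * ec G + 2 ≤ (univ.filter fun v => ∀ u, ¬ G.Adj v u).card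

/-- first structure -/
structure St1 (r : ℕ) (G : SimpleGraph V) (x : V → ℝ) (ξ C η : ℝ) (c : V → ℕ) (Z : Finset V) :
    Prop where
  eig : Eig G x
  le : ∀ v, c v ≤ r
  proper : Proper G c
  typ : ∀ v, c v ≠ 0 → |x v - 1| ≤ ξ
  zc : (Z.card : ℝ) ≤ η * lam G
  good : ∀ v, c v ≠ 0 → v ∉ Z → |x v - 1| ≤ η
  size : ∀ i ∈ Icc 1 r, |((r : ℝ) - 1) * cn c i - lam G| ≤ η * lam G
  hk : (ec (Hm G c) : ℝ) ≤ C * lam G
  hE : (ec (Xe G c) : ℝ) ≤ C * lam G
  xm : ∀ v, x v ≤ C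
  big : 1 ≤ η ^ 3 * lam G

/-- additional properties before the absorption step -/
structure Pre (r : ℕ) (G : SimpleGraph V) (ξ η : ℝ) (c : V → ℕ) : Prop where
  miss : ∀ u, ((univ.filter fun v => (Hm G c).Adj u v).card : ℝ) ≤ 2 * ξ * lam G
  E1 : ∀ u, ∃ i ∈ Icc 1 r, ((univ.filter fun v => c v = i ∧ G.Adj u v).card : ℝ) ≤ η * lam G
  E2 : ∀ u v, G.Adj u v → ∀ i ∈ Icc 1 r, ∃ j ∈ Icc 1 r, j ≠ i ∧
    ((univ.filter fun w => c w = j ∧ G.Adj u w ∧ G.Adj v w).card : ℝ) ≤ η * lam G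

/-- the context after the absorption step -/
structure Mid (r D t : ℕ) (Fr : SimpleGraph V → Prop) (G : SimpleGraph V) (x : V → ℝ)
    (ξ C η : ℝ) (c : V → ℕ) (Z : Finset V) : Prop where
  cls : Cls r D t Fr
  ex : Ex r Fr G
  st : St1 r G x ξ C η c Z
  wdeg : ∀ u, c u = 0 → (dT G c u : ℝ) ≤ (1 - 9 / 10 * ξ) * lam G
  r3 : 3 ≤ r
  C1 : 1 ≤ C
  η0 : 0 < η
  ξ0 : 0 < ξ
  ξ1 : 100 * r * ξ ≤ 1
  sm : 10 ^ 4 * r ^ 2 * C ^ 4 * η ≤ ξ ^ 2

/-- final structure -/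
structure St (r : ℕ) (G : SimpleGraph V) (x : V → ℝ) (η : ℝ) (c : V → ℕ) (z : V) : Prop where
  eig : Eig G x
  le : ∀ v, c v ≤ r
  proper : Proper G c
  typ : ∀ v, c v ≠ 0 → |x v - 1| ≤ η
  size : ∀ i ∈ Icc 1 r, |((r : ℝ) - 1) * cn c i - lam G| ≤ η * lam G
  hk : (ec (Hm G c) : ℝ) ≤ η * lam G
  z0 : c z = 0
  zmax : ∀ u, c u = 0 → x u ≤ x z
  dz : (dT G c z : ℝ) ≤ (1 - 1 / r) ^ 2 * lam G
  small : ∀ u, c u = 0 → u ≠ z → x u ≤ η
  hE : (ec (Xe G c) : ℝ) ≤ dT G c z + η * lam G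
  big : 1 ≤ η * lam G

/-- the context of the exact analysis -/
structure Ctx (r C : ℕ) (Fr : SimpleGraph V → Prop) (G : SimpleGraph V) (x : V → ℝ) (η : ℝ)
    (c : V → ℕ) (z : V) : Prop where
  ex : Ex r Fr G
  st : St r G x η c z
  r3 : 3 ≤ r
  rC : r ≤ C
  η0 : 0 < η
  sm : 10 ^ 5 * C ^ 5 * η ≤ 1

end Pool.Agent.P.MP_094db5_co

end
end

section

/-! Target graphs: counting, quadratic form, master inequality, weak switches. -/

set_option autoImplicit false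

open Finset Classical

noncomputable section

namespace Pool.Agent.P.MP_094db5_co

variable {V : Type} [Fintype V] {r : ℕ} {c : V → ℕ} {H G : SimpleGraph V} {o w : V}
  {S X : Finset V} {Fr : SimpleGraph V → Prop} {x y : V → ℝ}

lemma Mo_ec (G : SimpleGraph V) : Mo G = 2 * (ec G : ℝ) := Mo_eq G

lemma qf_op (G : SimpleGraph V) (x : V → ℝ) : qf G x = ∑ u, x u * op G x u := qf_eq G x

lemma ATg_op (hw : w ∉ X) (y : V → ℝ) {v : V} (hv : v ≠ w) :
    op (Sg w X) y v = if v ∈ X then y w else 0 := by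
  rw [op, sum_eq_single w (fun u _ hu => by simp [ad, Sg, hv, hu]) (by simp)]
  by_cases a : v ∈ X <;> simp [ad, Sg, hv, a]

lemma ATg_op_self (hw : w ∉ X) (y : V → ℝ) : op (Sg w X) y w = ∑ v ∈ X, y v := by
  rw [op, ← sum_ite_mem_eq X y]
  refine sum_congr rfl fun v _ => ?_
  by_cases a : v ∈ X
  · simp [ad, Sg, a, show w ≠ v from fun e => hw (e ▸ a)]
  · simp [ad, Sg, a, hw]

omit [Fintype V] in
lemma ATg_oS (h : TgOK r c H o S w X) : o ∉ S := fun a => h.hS o a h.o0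

omit [Fintype V] in
lemma ATg_wX (h : TgOK r c H o S w X) : w ∉ X := fun a =>
  (h.hX w a).elim (fun b => b h.w0) fun b => h.ow b.symm

omit [Fintype V] in
lemma ATg_ad (h : TgOK r c H o S w X) (u v : V) : ad (Tg c H o S w X) u v =
    ad (Kc c) u v - ad H u v + ad (Sg o S) u v + ad (Sg w X) u v := by
  have a1 : H.Adj u v → (Kc c).Adj u v := fun a => h.hH a
  have a2 : (Sg o S).Adj u v → ¬(Kc c).Adj u v := by
    rintro ⟨-, ⟨rfl, -⟩ | ⟨rfl, -⟩⟩ b
    exacts [b.1 h.o0, b.2.1 h.o0]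
  have a3 : (Sg w X).Adj u v → ¬(Kc c).Adj u v := by
    rintro ⟨-, ⟨rfl, -⟩ | ⟨rfl, -⟩⟩ b
    exacts [b.1 h.w0, b.2.1 h.w0]
  have a4 : (Sg o S).Adj u v → ¬(Sg w X).Adj u v := by
    rintro ⟨-, ⟨rfl, a⟩ | ⟨rfl, a⟩⟩ ⟨-, ⟨b, -⟩ | ⟨b, -⟩⟩
    exacts [h.ow b, h.hS _ a (b ▸ h.w0), h.hS _ a (b ▸ h.w0), h.ow b]
  simp only [ad, Tg, SimpleGraph.sup_adj, SimpleGraph.sdiff_adj]
  by_cases b1 : (Kc c).Adj u v <;> by_cases b2 : H.Adj u v <;> by_cases b3 : (Sg o S).Adj u v <;>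
    by_cases b4 : (Sg w X).Adj u v <;> simp_all

lemma ATg_op_eq (h : TgOK r c H o S w X) (y : V → ℝ) (v : V) : op (Tg c H o S w X) y v =
    op (Kc c) y v - op H y v + op (Sg o S) y v + op (Sg w X) y v := by
  simp only [op, ← sum_sub_distrib, ← sum_add_distrib]
  exact sum_congr rfl fun u _ => by rw [ATg_ad h]; ring

theorem qf_Sg (hw : w ∉ X) (y : V → ℝ) : qf (Sg w X) y = 2 * (y w * ∑ v ∈ X, y v) := by
  rw [qf_op, ← add_sum_erase _ _ (mem_univ w), ATg_op_self hw, two_mul]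
  congr 1
  rw [mul_sum, sum_congr rfl fun v hv => congrArg (y v * ·) (ATg_op hw y (ne_of_mem_erase hv))]
  simp only [mul_ite, mul_zero]
  rw [← sum_filter, show (univ.erase w).filter (fun v => v ∈ X) = X by
    ext v; simp only [mem_filter, mem_erase, mem_univ, and_true]
    exact ⟨fun h => h.2, fun h => ⟨fun e => hw (e ▸ h), h⟩⟩]
  exact sum_congr rfl fun v _ => mul_comm _ _

theorem ec_Sg (hw : w ∉ X) : ec (Sg w X) = X.card := by
  have h := Mo_ec (Sg w X)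
  rw [Mo_eq_qf, qf_Sg hw] at h
  simp only [sum_const, nsmul_eq_mul, mul_one, one_mul] at h
  exact_mod_cast (by linarith : (ec (Sg w X) : ℝ) = X.card)

theorem op_Sg (hw : w ∉ X) (y : V → ℝ) {v : V} (hv : v ≠ w) :
    op (Sg w X) y v = if v ∈ X then y w else 0 := by
  exact ATg_op hw y hv

theorem op_Sg_self (hw : w ∉ X) (y : V → ℝ) : op (Sg w X) y w = ∑ v ∈ X, y v := by
  exact ATg_op_self hw y

omit [Fintype V] in
theorem Tg_swap (c : V → ℕ) (H : SimpleGraph V) (o : V) (S : Finset V) (w : V) (X : Finset V) :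
    Tg c H o S w X = Tg c H w X o S := by
  rw [Tg, Tg, sup_right_comm]

omit [Fintype V] in
theorem Adm.swap (h : Adm r Fr c H o S w X) (ho : o ∉ X) : Adm r Fr c H w X o S := by
  have k := h.ok
  refine ⟨⟨k.le, k.hH, k.w0, k.o0, k.ow.symm, fun v hv => (k.hX v hv).resolve_right
    fun e => ho (e ▸ hv), fun v hv => Or.inl (k.hS v hv)⟩, ?_, ?_⟩
  · rw [← Tg_swap]; exact h.fr
  · rw [← Tg_swap]; exact h.nc

omit [Fintype V] in
theorem Tg_adj (u v : V) : (Tg c H o S w X).Adj u v ↔ (cross c u v ∧ ¬ H.Adj u v) ∨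
    (u ≠ v ∧ (u = o ∧ v ∈ S ∨ v = o ∧ u ∈ S)) ∨ u ≠ v ∧ (u = w ∧ v ∈ X ∨ v = w ∧ u ∈ X) := by
  exact or_assoc

theorem TgOK.qf_eq (h : TgOK r c H o S w X) (y : V → ℝ) : qf (Tg c H o S w X) y =
    qf (Kc c) y - qf H y + 2 * (y o * ∑ v ∈ S, y v) + 2 * (y w * ∑ v ∈ X, y v) := by
  rw [← qf_Sg (ATg_oS h), ← qf_Sg (ATg_wX h)]
  simp only [qf, S2_sub, S2_add]
  exact S2_congr fun u v => by rw [ATg_ad h]; ring

theorem TgOK.ec_eq (h : TgOK r c H o S w X) :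
    ec (Tg c H o S w X) + ec H = ec (Kc c) + S.card + X.card := by
  have h1 := h.qf_eq fun _ => 1
  simp only [← Mo_eq_qf, Mo_ec, sum_const, nsmul_eq_mul, mul_one, one_mul] at h1
  exact_mod_cast (by linarith : (ec (Tg c H o S w X) : ℝ) + ec H = ec (Kc c) + S.card + X.card)

theorem TgOK.op_eq (h : TgOK r c H o S w X) (y : V → ℝ) {v : V} (hv : c v ≠ 0) :
    op (Tg c H o S w X) y v = op (Kc c) y v - op H y v + (if v ∈ S then y o else 0) +
      if v ∈ X then y w else 0 := by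
  rw [ATg_op_eq h, ATg_op (v := v) (ATg_oS h) y fun e => hv (e ▸ h.o0),
    ATg_op (v := v) (ATg_wX h) y fun e => hv (e ▸ h.w0)]

theorem op_Kc_congr (y : V → ℝ) {u v : V} (h : c u = c v) : op (Kc c) y u = op (Kc c) y v := by
  refine sum_congr rfl fun t _ => ?_
  have : (Kc c).Adj u t ↔ (Kc c).Adj v t := by simp only [Kc, cross, h]
  simp only [ad, this]

theorem op_Kc (hc : ∀ v, c v ≤ r) (y : V → ℝ) {v : V} (hv : c v ≠ 0) :
    op (Kc c) y v = ∑ i ∈ Icc 1 r, Pc y c i - Pc y c (c v) := by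
  have h1 := sum_Pc y hc
  rw [show ∑ i ∈ Icc 1 r, Pc y c i = ∑ u, y u - Pc y c 0 by linarith]
  simp only [op, Pc, ← sum_sub_distrib]
  refine sum_congr rfl fun u _ => ?_
  simp only [ad, Kc, cross]
  by_cases a : c u = 0
  · simp [a, hv, hv.symm]
  · by_cases b : c u = c v
    · simp [b, hv]
    · simp [a, b, hv, Ne.symm b]

theorem Eig.qf_eq (h : Eig G x) : qf G x = lam G * ∑ v, x v ^ 2 := by
  rw [qf_op, mul_sum]
  exact sum_congr rfl fun v _ => by rw [h.eig]; ring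

/-- master inequality -/
theorem Adm.master (h : Adm r Fr c H o S w X) (hG : Ex r Fr G)
    (he : ec (Tg c H o S w X) = ec G) (l0 : 0 < lam G) (h0 : ∀ v, 0 ≤ y v)
    (h1 : ∀ v, c v = 0 → y v = 0) :
    lam G * (Ph (Kc c) (lam G) y - qf H y) + (∑ v ∈ S, y v) ^ 2 + (∑ v ∈ X, y v) ^ 2 ≤ 0 := by
  have k := h.ok
  set A := ∑ v ∈ S, y v with hA
  set B := ∑ v ∈ X, y v with hB
  set l := lam G with hl
  have A0 : 0 ≤ A := sum_nonneg fun v _ => h0 v
  have B0 : 0 ≤ B := sum_nonneg fun v _ => h0 v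
  let z : V → ℝ := fun v => if v = o then A / l else if v = w then B / l else y v
  have zo : z o = A / l := if_pos rfl
  have zw : z w = B / l := by simp [z, k.ow.symm]
  have zT : ∀ v, c v ≠ 0 → z v = y v := fun v hv => by
    simp [z, show v ≠ o from fun e => hv (e ▸ k.o0), show v ≠ w from fun e => hv (e ▸ k.w0)]
  have e1 : ∀ K : SimpleGraph V, K ≤ Kc c → qf K z = qf K y := fun K hK =>
    S2_congr fun u v => by
      by_cases a : K.Adj u v
      · rw [zT u (hK a).1, zT v (hK a).2.1]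
      · simp [ad, a]
  have e2 : ∑ v ∈ S, z v = A := sum_congr rfl fun v hv => zT v (k.hS v hv)
  have e3 : B ≤ ∑ v ∈ X, z v := sum_le_sum fun v hv => by
    rcases k.hX v hv with a | rfl
    · rw [zT v a]
    · rw [zo, h1 _ k.o0]; positivity
  have e4 : ∑ v, z v ^ 2 = ∑ v, y v ^ 2 + (A / l) ^ 2 + (B / l) ^ 2 := by
    have a : ∀ v, z v ^ 2 = y v ^ 2 + (if v = o then (A / l) ^ 2 else 0) +
        if v = w then (B / l) ^ 2 else 0 := by
      intro v
      by_cases a : v = o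
      · rw [a, zo, h1 _ k.o0]; simp [k.ow]
      · by_cases b : v = w
        · rw [b, zw, h1 _ k.w0]; simp [k.ow.symm]
        · simp [z, a, b]
    simp only [a, sum_add_distrib, sum_ite_eq', mem_univ, if_true]
  have e5 := qf_le_lam (Tg c H o S w X) z
  have e6 := mul_le_mul_of_nonneg_right (hG.max _ he h.fr h.nc)
    (sum_nonneg fun v (_ : v ∈ univ) => sq_nonneg (z v))
  rw [k.qf_eq, e1 _ le_rfl, e1 _ k.hH, e2, zo, zw] at e5
  rw [← hl] at e6
  have e7 := mul_le_mul_of_nonneg_left e3 (div_nonneg B0 l0.le)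
  have e8 : qf (Kc c) y - qf H y + 2 * (A / l * A) + 2 * (B / l * B) ≤
      l * (∑ v, y v ^ 2 + (A / l) ^ 2 + (B / l) ^ 2) := by rw [← e4]; linarith only [e5, e6, e7]
  have e9 := mul_le_mul_of_nonneg_left e8 l0.le
  have f1 : l * (A / l * A) = A ^ 2 := by field_simp
  have f2 : l * (B / l * B) = B ^ 2 := by field_simp
  have f3 : l * (l * (A / l) ^ 2) = A ^ 2 := by field_simp
  have f4 : l * (l * (B / l) ^ 2) = B ^ 2 := by field_simp
  rw [Ph]
  linarith only [e9, f1, f2, f3, f4]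

/-- basic identity -/
theorem Eig.ident (h : Eig G x) (hp : Proper G c) :
    Ph (Kc c) (lam G) (rT c x) = qf (Hm G c) x - Qw G c x := by
  have e1 : qf (Kc c) (rT c x) = qf (Kc c) x := S2_congr fun u v => by
    by_cases a : (Kc c).Adj u v
    · simp [rT, a.1, a.2.1]
    · simp [ad, a]
  have e2 : lam G * ∑ v, rT c x v ^ 2 =
      S2 fun u v => if c u = 0 then 0 else ad G u v * (x u * x v) := by
    rw [mul_sum, S2]
    refine sum_congr rfl fun u _ => ?_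
    by_cases a : c u = 0
    · simp [rT, a]
    · have := h.eig u
      simp only [rT, a, if_false]
      rw [show lam G * x u ^ 2 = x u * (lam G * x u) by ring, ← this, op, mul_sum]
      exact sum_congr rfl fun v _ => by ring
  have e3 : Qw G c x =
      S2 fun u v => if c v = 0 ∧ c u ≠ 0 then ad G u v * (x u * x v) else 0 := by
    rw [S2_comm, S2, Qw, Vp, sum_filter]
    refine sum_congr rfl fun u _ => ?_
    by_cases a : c u = 0
    · simp only [a, if_true, true_and, aT, nT, sum_filter, mul_sum]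
      refine sum_congr rfl fun v _ => ?_
      by_cases b : G.Adj u v <;> by_cases d : c v = 0 <;>
        simp [ad, b, d, G.adj_comm v u, mul_comm]
    · simp [a]
  rw [Ph, e1, e2, e3, qf, qf, S2_sub, S2_sub]
  refine S2_congr fun u v => ?_
  have := hp u v
  simp only [ad, Hm, SimpleGraph.sdiff_adj, Kc, cross]
  by_cases a : c u = 0 <;> by_cases b : c v = 0 <;> by_cases d : G.Adj u v <;>
    by_cases e : c u = c v <;> simp_all

/-- weak switch -/
theorem Ex.weak (hG : Ex r Fr G) (hx : Eig G x) (he : ec H = ec G) (h1 : Fr H)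
    (h2 : ¬ H.Colorable r) (hq : qf G x ≤ qf H x) (u : V) : op H x u = op G x u := by
  have a1 := hG.max H he h1 h2
  have a2 := hx.qf_eq
  have a3 : 0 ≤ ∑ v, x v ^ 2 := sum_nonneg fun v _ => sq_nonneg _
  have a4 := mul_le_mul_of_nonneg_right a1 a3
  have a5 := eigen_of_eq H (x := x) (by linarith) u
  have a6 := qf_le_lam H x
  rw [hx.eig, op, a5]
  rcases a1.eq_or_lt with e | e
  · rw [e]
  · have a7 : ∑ v, x v ^ 2 ≤ 0 := by nlinarith only [hq, a2, a6, e]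
    have a8 := single_le_sum (f := fun v => x v ^ 2) (fun v _ => sq_nonneg _) (mem_univ u)
    rw [pow_eq_zero_iff (two_ne_zero) |>.1 (le_antisymm (a8.trans a7) (sq_nonneg _))]
    simp

/-- moving one edge at `w` -/
theorem Ex.switch (hG : Ex r Fr G) (hx : Eig G x) (ok : TgOK r c H o S w X)
    (e : G = Tg c H o S w X) {a b : V} (ha : a ∈ X) (hb : b ∉ X)
    (h : Adm r Fr c H o S w (insert b (X.erase a))) (hab : x a ≤ x b) (hw : 0 < x w) : False := by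
  have hb' : b ∉ X.erase a := fun h => hb (mem_of_mem_erase h)
  have a1 := ok.ec_eq
  have a2 := h.ok.ec_eq
  rw [card_insert_of_notMem hb', card_erase_add_one ha, ← a1, ← e] at a2
  have a3 := ok.qf_eq x
  have a4 := h.ok.qf_eq x
  rw [sum_insert hb'] at a4
  rw [← add_sum_erase _ _ ha, ← e] at a3
  have a5 := hG.weak hx (Nat.add_right_cancel a2) h.fr h.nc
    (by nlinarith only [mul_le_mul_of_nonneg_left hab hw.le, hab, hw, a3, a4]) a
  have aw : a ≠ w := fun e => ATg_wX ok (e ▸ ha)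
  rw [e, ATg_op_eq ok, ATg_op_eq h.ok, ATg_op (ATg_wX ok) x aw, ATg_op (ATg_wX h.ok) x aw,
    if_pos ha, if_neg (by simp [show a ≠ b from fun e => hb (e ▸ ha)])] at a5
  linarith

/-- an unlabelled-vertex count -/
theorem Ex.spare (hG : Ex r Fr G) (hx : Eig G x) (l1 : 1 ≤ lam G) (h : ∀ v, c v ≠ 0 → 0 < x v) :
    lam G + 2 ≤ cn c 0 := by
  have a1 := hG.iso
  have a2 : (univ.filter fun v => ∀ u, ¬ G.Adj v u).card ≤ cn c 0 := by
    refine card_le_card fun v hv => mem_filter.2 ⟨mem_univ _, ?_⟩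
    by_contra hc
    have b1 := hx.eig v
    have b2 := h v hc
    rw [op, sum_eq_zero fun u _ => by simp [ad, (mem_filter.1 hv).2 u]] at b1
    nlinarith only [l1, b1, b2]
  obtain ⟨v, -⟩ := card_pos.1 (lt_of_lt_of_le (by omega) a1)
  have : Nonempty V := ⟨v⟩
  obtain ⟨z, hz⟩ := exists_perron G
  have a3 := qf_sq_le G hz.unit
  rw [hz.val, Mo_ec] at a3
  have a4 : (2 * ec G + 2 : ℝ) ≤ cn c 0 := by exact_mod_cast a1.trans a2
  nlinarith only [l1, a3, a4]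

theorem Eig.ni (hx : Eig G x) (l0 : 0 < lam G) (h : ∀ v, c v ≠ 0 → 0 < x v) : NI G c := by
  intro v hc
  by_contra hn
  have b1 := hx.eig v
  have b2 := h v hc
  rw [op, sum_eq_zero fun u _ => by simp [ad, not_exists.1 hn u]] at b1
  nlinarith

theorem Eig.pos_of_adj (hx : Eig G x) {u v : V} (h : G.Adj u v) (hv : 0 < x v) : 0 < x u := by
  have b1 := hx.eig u
  have b2 := single_le_sum (f := fun t => ad G u t * x t)
    (fun t _ => mul_nonneg (ad_nonneg G u t) (hx.nonneg t)) (mem_univ v)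
  rw [← op, b1, ad, if_pos h, one_mul] at b2
  rcases (hx.nonneg u).eq_or_lt with e | e
  · rw [← e] at b2; linarith
  · exact e

end Pool.Agent.P.MP_094db5_co

end
end

section

/-! Targets are not colourable; transversals; the common gadget. -/

set_option autoImplicit false

open Finset Classical

noncomputable section

namespace Pool.Agent.P.MP_094db5_co

variable {V : Type} [Fintype V] {r D t : ℕ} {c : V → ℕ} {H G : SimpleGraph V} {o w : V}
  {S X : Finset V} {Fr : SimpleGraph V → Prop}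

theorem card_supp_le (H : SimpleGraph V) :
    (univ.filter fun v => ∃ u, H.Adj v u).card ≤ 2 * ec H := by
  have b1 : ((univ.filter fun v => ∃ u, H.Adj v u).card : ℝ) ≤ Mo H := by
    rw [card_filter, Mo, S2]
    push_cast
    refine sum_le_sum fun v _ => ?_
    split_ifs with e
    · obtain ⟨u, hu⟩ := e
      have := single_le_sum (fun u _ => ad_nonneg H v u) (mem_univ u)
      rwa [ad, if_pos hu] at this
    · exact sum_nonneg fun u _ => ad_nonneg _ v u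
  rw [Mo_ec] at b1
  exact_mod_cast b1

theorem exists_fresh (H : SimpleGraph V) (B : Finset V) {i : ℕ} (h : B.card + 2 * ec H < cn c i) :
    ∃ y, c y = i ∧ y ∉ B ∧ ∀ u, ¬ H.Adj y u := by
  have a1 := card_supp_le H
  have a2 := card_union_le B (univ.filter fun v => ∃ u, H.Adj v u)
  obtain ⟨y, h1, h2⟩ := exists_mem_notMem_of_card_lt_card
    (s := B ∪ univ.filter fun v => ∃ u, H.Adj v u) (t := Vp c i) (by rw [card_Vp]; omega)
  rw [mem_union, not_or] at h2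
  exact ⟨y, mem_Vp.1 h1, h2.1, fun u hu => h2.2 (mem_filter.2 ⟨mem_univ _, u, hu⟩)⟩

/-- every colouring agrees with the labels -/
theorem rigid_of (hc : ∀ v, c v ≤ r) (hle : Kc c \ H ≤ G)
    (hb : ∀ i ∈ Icc 1 r, 2 * ec H < cn c i) (h : G.Colorable r) :
    ∃ e : V → ℕ, (∀ u, e u ∈ Icc 1 r) ∧ (∀ v, c v ≠ 0 → e v = c v) ∧
      ∀ u v, G.Adj u v → e u ≠ e v := by
  obtain ⟨φ⟩ := h
  have : ∀ i : Icc 1 r, ∃ y, c y = i ∧ ∀ u, ¬ H.Adj y u := fun i => by
    obtain ⟨y, h1, _, h2⟩ := exists_fresh (c := c) (i := i) H ∅ (by simpa using hb i i.2)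
    exact ⟨y, h1, h2⟩
  choose y hy hyZ using this
  have hadj : ∀ (i : Icc 1 r) v, c v ≠ 0 → c v ≠ i → G.Adj (y i) v := fun i v h1 h2 => by
    have := mem_Icc.1 i.2
    refine hle ((SimpleGraph.sdiff_adj _ _ _ _).2 ⟨⟨?_, h1, ?_⟩, hyZ i v⟩)
    · rw [hy]; omega
    · rw [hy]; omega
  have hinj : Function.Injective fun i => φ (y i) := fun i j e => by
    by_contra hij
    have := mem_Icc.1 j.2
    exact φ.valid (hadj i (y j) (by rw [hy]; omega) (by
      rw [hy]; exact fun a => hij (Subtype.ext a).symm)) e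
  choose g hg using ((Fintype.bijective_iff_injective_and_card _).2 ⟨hinj, by simp⟩).2
  refine ⟨fun u => g (φ u), fun u => (g (φ u)).2, fun v hv => ?_, fun u v huv e => ?_⟩
  · by_contra hne
    exact φ.valid (hadj (g (φ v)) v hv (Ne.symm hne)) (hg _)
  · exact φ.valid huv (by rw [← hg (φ u), ← hg (φ v), Subtype.ext e])

theorem TgOK.nc1 (h : TgOK r c H o S w X) (hb : ∀ i ∈ Icc 1 r, 2 * ec H < cn c i)
    (hX : ∀ i ∈ Icc 1 r, ∃ v ∈ X, c v = i) : ¬ (Tg c H o S w X).Colorable r := by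
  intro hcol
  obtain ⟨e, e1, e2, e3⟩ := rigid_of h.le (le_sup_left.trans le_sup_left) hb hcol
  obtain ⟨v, hv, hv'⟩ := hX _ (e1 w)
  have a1 := mem_Icc.1 (e1 w)
  have a2 : c v ≠ 0 := by omega
  have a3 : w ≠ v := fun a => a2 (a ▸ h.w0)
  exact e3 w v (Or.inr ⟨a3, Or.inl ⟨rfl, hv⟩⟩) (by rw [e2 v a2, hv'])

theorem TgOK.nc2 (h : TgOK r c H o S w X) (hb : ∀ i ∈ Icc 1 r, 2 * ec H < cn c i) (ho : o ∈ X)
    {l : ℕ} (hS : ∀ i ∈ Icc 1 r, i ≠ l → ∃ v ∈ S, c v = i)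
    (hX : ∀ i ∈ Icc 1 r, i ≠ l → ∃ v ∈ X, c v = i) : ¬ (Tg c H o S w X).Colorable r := by
  intro hcol
  obtain ⟨e, e1, e2, e3⟩ := rigid_of h.le (le_sup_left.trans le_sup_left) hb hcol
  have b1 : e w = l := by
    by_contra hne
    obtain ⟨v, hv, hv'⟩ := hX _ (e1 w) hne
    have a1 := mem_Icc.1 (e1 w)
    have a2 : c v ≠ 0 := by omega
    have a3 : w ≠ v := fun a => a2 (a ▸ h.w0)
    exact e3 w v (Or.inr ⟨a3, Or.inl ⟨rfl, hv⟩⟩) (by rw [e2 v a2, hv'])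
  have b2 : e o = l := by
    by_contra hne
    obtain ⟨v, hv, hv'⟩ := hS _ (e1 o) hne
    have a1 := mem_Icc.1 (e1 o)
    have a2 : c v ≠ 0 := by omega
    have a3 : o ≠ v := fun a => a2 (a ▸ h.o0)
    exact e3 o v (Or.inl (Or.inr ⟨a3, Or.inl ⟨rfl, hv⟩⟩)) (by rw [e2 v a2, hv'])
  exact e3 w o (Or.inr ⟨h.ow.symm, Or.inl ⟨rfl, ho⟩⟩) (by rw [b1, b2])

omit [Fintype V] in
/-- labels for the target without `w` -/
theorem TgOK.labels (h : TgOK r c H o S w X) {l : ℕ} (hl : l ∈ Icc 1 r) (hS : ∀ v ∈ S, c v ≠ l) :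
    ∃ e : V → ℕ, (∀ u, e u ∈ Icc 1 r) ∧ (∀ v, c v ≠ 0 → e v = c v) ∧ e o = l ∧
      ∀ u v, (Kc c \ H ⊔ Sg o S).Adj u v → e u ≠ e v := by
  refine ⟨fun v => if c v = 0 then l else c v, fun u => ?_, fun v hv => if_neg hv, if_pos h.o0,
    fun u v huv => ?_⟩
  · by_cases e : c u = 0
    · simpa only [if_pos e] using hl
    · simpa only [if_neg e] using mem_Icc.2 ⟨Nat.pos_of_ne_zero e, h.le u⟩
  · rcases huv with ⟨⟨a1, a2, a3⟩, _⟩ | ⟨_, ⟨rfl, a2⟩ | ⟨rfl, a2⟩⟩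
    · simpa only [if_neg a1, if_neg a2] using a3
    · simpa only [if_pos h.o0, if_neg (h.hS _ a2)] using (hS _ a2).symm
    · simpa only [if_pos h.o0, if_neg (h.hS _ a2)] using hS _ a2

theorem TgOK.gad (h : TgOK r c H o S w X) (hC : Cls r D t Fr) {l : ℕ} (hl : l ∈ Icc 1 r)
    (hS : ∀ v ∈ S, c v ≠ l) (hX : X.card ≤ r) {a : V} (ha : a ∈ X)
    (hn : ∀ b ∈ X, ¬ (Tg c H o S w X).Adj a b) : Fr (Tg c H o S w X) := by
  obtain ⟨e, e1, _, _, e4⟩ := h.labels hl hS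
  refine hC.gad (Kc c \ H ⊔ Sg o S) w a X (colorable_of_labels e e1 e4) (fun v hv => ?_) hX ha
    fun b hb hab => hn b hb (Or.inl hab)
  rcases hv with ⟨⟨a1, _⟩, _⟩ | ⟨_, ⟨a1, _⟩ | ⟨_, a2⟩⟩
  · exact a1 h.w0
  · exact h.ow a1.symm
  · exact h.hS _ a2 h.w0

omit [Fintype V] in
theorem Trans.card (h : Trans r c X) (hc : ∀ v, c v ≤ r) : X.card = r := by
  have a1 : X.image c = Icc 1 r := by
    ext i
    rw [mem_image]
    constructor
    · rintro ⟨v, hv, rfl⟩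
      exact mem_Icc.2 ⟨Nat.pos_of_ne_zero (h.1 v hv), hc v⟩
    · exact h.2.1 i
  rw [← card_image_of_injOn (f := c) fun u hu v hv => h.2.2 u hu v hv, a1, Nat.card_Icc,
    add_tsub_cancel_right]

omit [Fintype V] in
theorem trans_of_card (hX : X.card ≤ r) (h : ∀ i ∈ Icc 1 r, ∃ v ∈ X, c v = i) : Trans r c X := by
  have a1 : Icc 1 r ⊆ X.image c := fun i hi => mem_image.2 (h i hi)
  have a2 : (X.image c).card ≤ X.card := card_image_le
  have a3 : (Icc 1 r).card = r := by simp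
  have a4 := card_le_card a1
  have a5 := eq_of_subset_of_card_le a1 (by omega)
  have a6 := card_image_iff.1 (show (X.image c).card = X.card by omega)
  refine ⟨fun v hv => ?_, h, fun u hu v hv => a6 hu hv⟩
  have := mem_Icc.1 (a5 ▸ mem_image_of_mem c hv)
  omega

omit [Fintype V] in
theorem anc_reps (c : V → ℕ) (I : Finset ℕ) (h : ∀ i ∈ I, ∃ v ∈ S, c v = i) :
    ∃ Y ⊆ S, Y.card = I.card ∧ (∀ v ∈ Y, c v ∈ I) ∧ (∀ i ∈ I, ∃ v ∈ Y, c v = i) ∧
      ∀ u ∈ Y, ∀ v ∈ Y, c u = c v → u = v := by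
  choose g g1 g2 using h
  have hinj : Function.Injective fun i : I => g i.1 i.2 := fun i j e =>
    Subtype.ext (by rw [← g2 i.1 i.2, ← g2 j.1 j.2]; exact congrArg c e)
  refine ⟨I.attach.image fun i => g i.1 i.2, fun v hv => ?_, ?_, fun v hv => ?_, fun i hi => ?_,
    fun u hu v hv e => ?_⟩
  · obtain ⟨i, _, rfl⟩ := mem_image.1 hv
    exact g1 _ _
  · rw [card_image_of_injective _ hinj, card_attach]
  · obtain ⟨i, _, rfl⟩ := mem_image.1 hv
    rw [g2]; exact i.2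
  · exact ⟨g i hi, mem_image.2 ⟨⟨i, hi⟩, mem_attach _ _, rfl⟩, g2 i hi⟩
  · obtain ⟨i, _, rfl⟩ := mem_image.1 hu
    obtain ⟨j, _, rfl⟩ := mem_image.1 hv
    rw [g2, g2] at e
    rw [Subtype.ext e]

theorem exists_trans (hc : ∀ v, c v ≤ r) {Y : Finset V} (B : Finset V) (h0 : ∀ v ∈ Y, c v ≠ 0)
    (h1 : ∀ u ∈ Y, ∀ v ∈ Y, c u = c v → u = v) (hB : ∀ i ∈ Icc 1 r, B.card < cn c i) :
    ∃ X, Trans r c X ∧ Y ⊆ X ∧ ∀ v ∈ X, v ∈ Y ∨ v ∉ B := by
  obtain ⟨X, x1, _, x3, x4, x5⟩ := anc_reps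
    (S := Y ∪ univ.filter fun v => v ∉ B ∧ ∀ u ∈ Y, c u ≠ c v) c (Icc 1 r) fun i hi => by
      by_cases e : ∃ v ∈ Y, c v = i
      · obtain ⟨v, hv, hv'⟩ := e
        exact ⟨v, mem_union_left _ hv, hv'⟩
      · obtain ⟨y, y1, y2⟩ := exists_mem_notMem_of_card_lt_card (s := B) (t := Vp c i) (hB i hi)
        have y3 := mem_Vp.1 y1
        exact ⟨y, mem_union_right _ (mem_filter.2 ⟨mem_univ _, y2,
          fun u hu a => e ⟨u, hu, a.trans y3⟩⟩), y3⟩
  refine ⟨X, ⟨fun v hv => ?_, x4, x5⟩, fun y hy => ?_, fun v hv => ?_⟩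
  · have := mem_Icc.1 (x3 v hv)
    omega
  · obtain ⟨v, hv, hv'⟩ := x4 (c y) (mem_Icc.2 ⟨Nat.pos_of_ne_zero (h0 y hy), hc y⟩)
    rcases mem_union.1 (x1 hv) with a | a
    · rwa [← h1 v a y hy hv']
    · exact absurd hv'.symm ((mem_filter.1 a).2.2 y hy)
  · exact (mem_union.1 (x1 hv)).imp_right fun a => (mem_filter.1 a).2.1

omit [Fintype V] in
theorem Trans.switch (h : Trans r c X) {a b : V} (ha : a ∈ X) (hab : c b = c a) :
    Trans r c (insert b (X.erase a)) := by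
  obtain ⟨h1, h2, h3⟩ := h
  refine ⟨fun v hv => ?_, fun i hi => ?_, fun u hu v hv huv => ?_⟩
  · rcases mem_insert.1 hv with rfl | a1
    · exact hab ▸ h1 a ha
    · exact h1 v (mem_of_mem_erase a1)
  · obtain ⟨v, hv, hv'⟩ := h2 i hi
    by_cases e : v = a
    · exact ⟨b, mem_insert_self _ _, by rw [hab, ← e, hv']⟩
    · exact ⟨v, mem_insert_of_mem (mem_erase.2 ⟨e, hv⟩), hv'⟩
  · rcases mem_insert.1 hu with rfl | a1 <;> rcases mem_insert.1 hv with rfl | a2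
    · rfl
    · exact absurd (h3 v (mem_of_mem_erase a2) a ha (huv.symm.trans hab)) (ne_of_mem_erase a2)
    · exact absurd (h3 u (mem_of_mem_erase a1) a ha (huv.trans hab)) (ne_of_mem_erase a1)
    · exact h3 u (mem_of_mem_erase a1) v (mem_of_mem_erase a2) huv

omit [Fintype V] in
/-- representatives inside a set that meets the parts in `I` -/
theorem exists_reps (c : V → ℕ) (I : Finset ℕ) (h : ∀ i ∈ I, ∃ v ∈ S, c v = i) :
    ∃ Y ⊆ S, Y.card = I.card ∧ (∀ v ∈ Y, c v ∈ I) ∧ (∀ i ∈ I, ∃ v ∈ Y, c v = i) ∧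
      ∀ u ∈ Y, ∀ v ∈ Y, c u = c v → u = v := by
  exact anc_reps c I h

/-- the common gadget -/
theorem Cls.adm (hC : Cls r D t Fr) (hr : 1 ≤ r) (hc : ∀ v, c v ≤ r)
    (hb : ∀ i ∈ Icc 1 r, 2 * r < cn c i) (ho : c o = 0) (hw : c w = 0) (how : o ≠ w) {l : ℕ}
    (hl : l ∈ Icc 1 r) (hS : S ⊆ Out c l) :
    ∃ H X, Adm r Fr c H o S w X ∧ X.card = r ∧ ec H + 1 = r := by
  obtain ⟨X, hX, -, -⟩ := exists_trans (Y := ∅) hc ∅ (by simp) (by simp)
    fun i hi => by have := hb i hi; simp only [card_empty]; omega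
  have hcard := hX.card hc
  obtain ⟨a, ha, -⟩ := hX.2.1 1 (mem_Icc.2 ⟨le_rfl, hr⟩)
  have he : ec (Sg a (X.erase a)) + 1 = r := by
    rw [ec_Sg (notMem_erase a X), card_erase_add_one ha, hcard]
  have ok : TgOK r c (Sg a (X.erase a)) o S w X := by
    refine ⟨hc, fun u v huv => ?_, ho, hw, how, fun v hv => (mem_Out.1 (hS hv)).1,
      fun v hv => Or.inl (hX.1 v hv)⟩
    obtain ⟨a1, ⟨rfl, a2⟩ | ⟨rfl, a2⟩⟩ := huv
    · exact ⟨hX.1 _ ha, hX.1 _ (mem_of_mem_erase a2),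
        fun e => a1 (hX.2.2 _ ha _ (mem_of_mem_erase a2) e)⟩
    · exact ⟨hX.1 _ (mem_of_mem_erase a2), hX.1 _ ha,
        fun e => a1 (hX.2.2 _ (mem_of_mem_erase a2) _ ha e)⟩
  refine ⟨Sg a (X.erase a), X, ⟨ok, ok.gad hC hl (fun v hv => (mem_Out.1 (hS hv)).2) hcard.le ha
    fun b hb' hab => ?_, ok.nc1 (fun i hi => by have := hb i hi; omega) hX.2.1⟩, hcard, he⟩
  have a1 := hX.1 a ha
  have a2 := hX.1 b hb'
  rcases (Tg_adj a b).1 hab with ⟨_, a3⟩ | ⟨_, ⟨a3, _⟩ | ⟨a3, _⟩⟩ | ⟨_, ⟨a3, _⟩ | ⟨a3, _⟩⟩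
  · exact a3 ⟨hab.ne, Or.inl ⟨rfl, mem_erase.2 ⟨hab.ne.symm, hb'⟩⟩⟩
  · exact a1 (a3 ▸ ho)
  · exact a2 (a3 ▸ ho)
  · exact a1 (a3 ▸ hw)
  · exact a2 (a3 ▸ hw)

/-- the inequality given by the common gadget -/
theorem Cls.ineq (hC : Cls r D t Fr) (hG : Ex r Fr G) (hr : 1 ≤ r) (hc : ∀ v, c v ≤ r)
    (hb : ∀ i ∈ Icc 1 r, 2 * r < cn c i) (h2 : 2 ≤ cn c 0) {l : ℕ} (hl : l ∈ Icc 1 r)
    (hS : S ⊆ Out c l) (he : ec (Kc c) + S.card + 1 = ec G) (l0 : 0 < lam G) {y : V → ℝ}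
    (y0 : ∀ v, 0 ≤ y v) (y1 : ∀ v, c v = 0 → y v = 0) (y2 : ∀ v, y v ≤ 2) :
    lam G * Ph (Kc c) (lam G) y + (∑ v ∈ S, y v) ^ 2 ≤ 8 * r * lam G := by
  obtain ⟨o, ho, w, hw, how⟩ := one_lt_card.1 (show 1 < (Vp c 0).card from h2)
  obtain ⟨H, X, h, h3, h4⟩ := hC.adm hr hc hb (mem_Vp.1 ho) (mem_Vp.1 hw) how hl hS
  have a1 := h.ok.ec_eq
  have a2 := h.master hG (by omega) l0 y0 y1
  have a3 : qf H y ≤ 4 * Mo H := by
    rw [qf, Mo, S2_mul]
    refine S2_mono fun u v => ?_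
    have b1 : y u * y v ≤ 2 * 2 := mul_le_mul (y2 u) (y2 v) (y0 v) (by norm_num)
    have b2 := mul_le_mul_of_nonneg_left b1 (ad_nonneg H u v)
    linarith only [b2]
  have a4 : (ec H : ℝ) + 1 = r := by exact_mod_cast h4
  rw [Mo_ec] at a3
  have a5 := mul_le_mul_of_nonneg_left (show qf H y ≤ 8 * r by linarith only [a3, a4]) l0.le
  linarith only [sq_nonneg (∑ v ∈ X, y v), a2, a5]

end Pool.Agent.P.MP_094db5_co

end
end

section

/-! Counting lemmas. -/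

set_option autoImplicit false

open Finset Classical

noncomputable section

namespace Pool.Agent.P.MP_094db5_co

variable {V : Type} [Fintype V] {r : ℕ} {c : V → ℕ} {H H₀ G : SimpleGraph V} {o w z u : V}

theorem ec_mono (h : H ≤ G) : ec H ≤ ec G := by
  exact Set.ncard_le_ncard (SimpleGraph.edgeSet_subset_edgeSet.2 h) (Set.toFinite _)

theorem eq_of_ec_le (h : H ≤ G) (h' : ec G ≤ ec H) : H = G := by
  exact SimpleGraph.edgeSet_inj.1
    (Set.eq_of_subset_of_ncard_le (SimpleGraph.edgeSet_subset_edgeSet.2 h) h' (Set.toFinite _))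

theorem ec_sdiff (h : H ≤ G) : ec (G \ H) + ec H = ec G := by
  unfold ec
  rw [SimpleGraph.edgeSet_sdiff]
  exact Set.ncard_sdiff_add_ncard_of_subset (SimpleGraph.edgeSet_subset_edgeSet.2 h)
    (Set.toFinite _)

theorem ec_sup (h : Disjoint H G) : ec (H ⊔ G) = ec H + ec G := by
  unfold ec
  rw [SimpleGraph.edgeSet_sup]
  exact Set.ncard_union_eq (SimpleGraph.disjoint_edgeSet.2 h) (Set.toFinite _) (Set.toFinite _)

omit [Fintype V] in
theorem ec_bot : ec (⊥ : SimpleGraph V) = 0 := by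
  simp [ec]

theorem ec_eq_zero : ec H = 0 ↔ H = ⊥ := by
  unfold ec
  rw [Set.ncard_eq_zero (Set.toFinite _), SimpleGraph.edgeSet_eq_empty]

theorem exists_adj_of_ec (h : 1 ≤ ec H) : ∃ a b, H.Adj a b := by
  by_contra hn
  have : H = ⊥ := by
    ext a b
    exact ⟨fun hab => hn ⟨a, b, hab⟩, fun hab => hab.elim⟩
  rw [this, ec_bot] at h
  omega

theorem exists_between (h : H₀ ≤ H) {n : ℕ} (h0 : ec H₀ ≤ n) (h1 : n ≤ ec H) :
    ∃ H', H₀ ≤ H' ∧ H' ≤ H ∧ ec H' = n := by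
  obtain ⟨s, h2, h3, h4⟩ := Set.exists_subsuperset_card_eq
    (SimpleGraph.edgeSet_subset_edgeSet.2 h) h0 h1
  have e : (SimpleGraph.fromEdgeSet s).edgeSet = s := by
    rw [SimpleGraph.edgeSet_fromEdgeSet]
    ext e
    constructor
    · exact fun a => a.1
    · exact fun a => ⟨a, H.not_isDiag_of_mem_edgeSet (h3 a)⟩
  refine ⟨SimpleGraph.fromEdgeSet s, SimpleGraph.edgeSet_subset_edgeSet.1 ?_,
    SimpleGraph.edgeSet_subset_edgeSet.1 ?_, ?_⟩
  · rw [e]; exact h2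
  · rw [e]; exact h3
  · unfold ec; rw [e]; exact h4

omit [Fintype V] in
theorem Sg_le {a : V} {D : Finset V} (h : ∀ v ∈ D, H.Adj a v) : Sg a D ≤ H := by
  rintro u v ⟨-, ⟨rfl, b⟩ | ⟨rfl, b⟩⟩
  · exact h _ b
  · exact (h _ b).symm

theorem eq_Sg_of_ec {a : V} {D : Finset V} (h : ∀ v ∈ D, H.Adj a v) (h' : ec H ≤ D.card) :
    H = Sg a D := by
  have ha : a ∉ D := fun b => (h a b).ne rfl
  refine (eq_of_ec_le (Sg_le h) ?_).symm
  rw [ec_Sg ha]; exact h'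

theorem eq_Sg_of_star {a : V} (h : ∀ u v, H.Adj u v → u = a ∨ v = a) :
    H = Sg a (univ.filter fun v => H.Adj a v) := by
  ext u v
  constructor
  · intro b
    refine ⟨b.ne, ?_⟩
    rcases h u v b with rfl | rfl
    · exact Or.inl ⟨rfl, by simpa using b⟩
    · exact Or.inr ⟨rfl, by simpa using b.symm⟩
  · intro b
    exact Sg_le (H := H) (fun v hv => by simpa using hv) b

theorem ec_split (h : Proper G c) : ec G + ec (Hm G c) = ec (Kc c) + ec (Xe G c) := by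
  have e := qf_split h fun _ => 1
  rw [← Mo_eq_qf, ← Mo_eq_qf, ← Mo_eq_qf, ← Mo_eq_qf, Mo_ec, Mo_ec, Mo_ec, Mo_ec] at e
  have e2 : (ec G : ℝ) + ec (Hm G c) = ec (Kc c) + ec (Xe G c) := by
    unfold Hm; linarith
  exact_mod_cast e2

/-- indicator of an edge from an unlabelled to a labelled vertex -/
def AHa_A (G : SimpleGraph V) (c : V → ℕ) (u v : V) : ℝ :=
  if c u = 0 ∧ G.Adj u v ∧ c v ≠ 0 then 1 else 0

lemma AHa_row (G : SimpleGraph V) (c : V → ℕ) (u : V) :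
    ∑ v, AHa_A G c u v = if c u = 0 then (dT G c u : ℝ) else 0 := by
  unfold AHa_A dT nT
  split_ifs with b
  · simp [b]
  · simp [b]

lemma AHa_S2 (G : SimpleGraph V) (c : V → ℕ) :
    S2 (AHa_A G c) = ∑ u ∈ Vp c 0, (dT G c u : ℝ) := by
  rw [Vp, sum_filter]
  exact sum_congr rfl fun u _ => AHa_row G c u

lemma AHa_deg (G : SimpleGraph V) (u : V) : ec (Sg u (G.neighborFinset u)) = G.degree u := by
  rw [ec_Sg (by simp)]
  rfl

lemma AHa_le (hu : c u = 0) : Sg u (G.neighborFinset u) ≤ Xe G c :=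
  Sg_le fun _ hv => ⟨by simpa using hv, Or.inl hu⟩

theorem ec_Xe (G : SimpleGraph V) (c : V → ℕ) :
    ec (Xe G c) = ∑ u ∈ Vp c 0, dT G c u + ec (Ww G c) := by
  have e1 : Mo (Xe G c) = S2 (AHa_A G c) + S2 (fun u v => AHa_A G c v u) + Mo (Ww G c) := by
    simp only [Mo, S2_add]
    refine S2_congr fun u v => ?_
    unfold ad AHa_A
    by_cases a : G.Adj u v
    · have a' := a.symm
      by_cases b : c u = 0 <;> by_cases d : c v = 0 <;> simp [Xe, Ww, a, a', b, d]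
    · have a' : ¬ G.Adj v u := fun e => a e.symm
      simp [Xe, Ww, a, a']
  rw [← S2_comm (AHa_A G c), AHa_S2, Mo_ec, Mo_ec] at e1
  have e2 : (ec (Xe G c) : ℝ) = ((∑ u ∈ Vp c 0, dT G c u : ℕ) : ℝ) + ec (Ww G c) := by
    push_cast; linarith
  exact_mod_cast e2

theorem degree_le_Xe (hu : c u = 0) : G.degree u ≤ ec (Xe G c) := by
  rw [← AHa_deg]
  exact ec_mono (AHa_le hu)

theorem dT_add_degree_le (hz : c z = 0) (hu : c u = 0) (h : u ≠ z) :
    dT G c z + G.degree u ≤ ec (Xe G c) := by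
  have h1 : Sg z (nT G c z) ≤ Xe G c := Sg_le fun v hv => ⟨(mem_nT.1 hv).1, Or.inl hz⟩
  have h2 : z ∉ nT G c z := fun a => (mem_nT.1 a).2 hz
  have h3 : Disjoint (Sg z (nT G c z)) (Sg u (G.neighborFinset u)) := by
    rw [disjoint_iff_inf_le]
    rintro p q ⟨⟨-, ⟨rfl, a⟩ | ⟨rfl, a⟩⟩, ⟨-, ⟨e, -⟩ | ⟨e, -⟩⟩⟩
    · exact h e.symm
    · exact (mem_nT.1 a).2 (e ▸ hu)
    · exact (mem_nT.1 a).2 (e ▸ hu)
    · exact h e.symm
  have h4 := ec_mono (sup_le h1 (AHa_le hu))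
  rw [ec_sup h3, ec_Sg h2, AHa_deg] at h4
  exact h4

omit [Fintype V] in
theorem Hm_le (G : SimpleGraph V) (c : V → ℕ) : Hm G c ≤ Kc c := sdiff_le

omit [Fintype V] in
theorem Hm_adj {u v : V} : (Hm G c).Adj u v ↔ cross c u v ∧ ¬ G.Adj u v := Iff.rfl

/-- recognising a target graph by counting -/
theorem eq_Tg {S X : Finset V} (hp : Proper G c) (ok : TgOK r c (Hm G c) o S w X)
    (hS : ∀ v ∈ S, G.Adj o v) (hX : ∀ v ∈ X, G.Adj w v)
    (h : ec (Xe G c) ≤ S.card + X.card) : G = Tg c (Hm G c) o S w X := by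
  have h1 : Tg c (Hm G c) o S w X ≤ G := by
    refine sup_le (sup_le ?_ (Sg_le hS)) (Sg_le hX)
    intro u v a
    by_contra b
    exact a.2 ⟨a.1, b⟩
  refine (eq_of_ec_le h1 ?_).symm
  have h2 := ok.ec_eq
  have h3 := ec_split hp
  omega

theorem card_Out (hc : ∀ v, c v ≤ r) (l : ℕ) :
    (Out c l).card = ∑ i ∈ (Icc 1 r).erase l, cn c i := by
  rw [card_eq_sum_card_fiberwise (f := c) (t := (Icc 1 r).erase l)]
  · refine sum_congr rfl fun i hi => ?_
    unfold cn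
    congr 1
    ext v
    simp only [mem_erase, mem_Icc] at hi
    simp only [mem_filter, mem_Out, mem_univ, true_and]
    constructor
    · exact fun a => a.2
    · intro a
      refine ⟨⟨?_, ?_⟩, a⟩ <;> omega
  · intro v hv
    have h1 := mem_Out.1 (mem_coe.1 hv)
    have h2 := hc v
    simp only [coe_erase, coe_Icc, Set.mem_sdiff, Set.mem_Icc, Set.mem_singleton_iff]
    omega

theorem qf_lower {x : V → ℝ} {a : ℝ} (h0 : 0 ≤ a) (h : ∀ u v, H.Adj u v → a ≤ x u) :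
    2 * ec H * a ^ 2 ≤ qf H x := by
  rw [← Mo_ec, mul_comm, Mo, S2_mul, qf]
  refine S2_mono fun u v => ?_
  unfold ad
  split_ifs with b
  · have h1 := h u v b
    have h2 := h v u b.symm
    nlinarith only [mul_le_mul h1 h2 h0 (h0.trans h1), h0, h1, h2]
  · simp

theorem qf_upper {x : V → ℝ} {a : ℝ} (h : ∀ u v, H.Adj u v → |x u| ≤ a) :
    qf H x ≤ 2 * ec H * a ^ 2 := by
  rw [← Mo_ec, mul_comm, Mo, S2_mul, qf]
  refine S2_mono fun u v => ?_
  unfold ad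
  split_ifs with b
  · have h1 := h u v b
    have h2 := h v u b.symm
    have h3 := mul_le_mul h1 h2 (abs_nonneg _) ((abs_nonneg _).trans h1)
    rw [← abs_mul] at h3
    nlinarith only [le_abs_self (x u * x v), h3]
  · simp

theorem sum_op_le {x : V → ℝ} {a : ℝ} (h : ∀ u v, H.Adj u v → x u ≤ a) :
    ∑ v, op H x v ≤ 2 * ec H * a := by
  rw [← Mo_ec, mul_comm, Mo, S2_mul]
  refine S2_mono (f := fun u v => ad H u v * x v) fun u v => ?_
  unfold ad
  split_ifs with b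
  · simpa using h v u b.symm
  · simp

theorem op_le {x : V → ℝ} {a : ℝ} (h0 : 0 ≤ a) (h : ∀ u v, H.Adj u v → x u ≤ a) (v : V) :
    op H x v ≤ ec H * a := by
  have h1 : op H x v ≤ ∑ u, ad H v u * a := by
    refine sum_le_sum fun u _ => ?_
    unfold ad
    split_ifs with b
    · simpa using h u v b.symm
    · simp
  rw [← sum_mul, sum_ad] at h1
  refine h1.trans (mul_le_mul_of_nonneg_right ?_ h0)
  have h2 : H.degree v ≤ ec H := by
    rw [← AHa_deg]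
    exact ec_mono (Sg_le fun u hu => by simpa using hu)
  exact_mod_cast h2

theorem op_nonneg {x : V → ℝ} (h : ∀ v, 0 ≤ x v) (v : V) : 0 ≤ op H x v := by
  exact sum_nonneg fun u _ => mul_nonneg (ad_nonneg _ _ _) (h u)

theorem le_op {x : V → ℝ} (h : ∀ v, 0 ≤ x v) {u v : V} (huv : H.Adj u v) : x v ≤ op H x u := by
  have h1 := single_le_sum (f := fun v => ad H u v * x v) (s := univ)
    (fun v _ => mul_nonneg (ad_nonneg _ _ _) (h v)) (mem_univ v)
  have h2 : ad H u v = 1 := if_pos huv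
  rw [h2, one_mul] at h1
  exact h1

/-- splitting the neighbourhood of a labelled vertex -/
theorem op_split (hp : Proper G c) (x : V → ℝ) {v : V} (hv : c v ≠ 0) :
    op G x v = op (Kc c) x v - op (Hm G c) x v + op (Xe G c) x v := by
  unfold op
  rw [← sum_sub_distrib, ← sum_add_distrib]
  refine sum_congr rfl fun u _ => ?_
  have := hp v u
  unfold ad
  rw [Hm_adj]
  by_cases a : G.Adj v u <;> by_cases d : c u = 0 <;> simp_all [Kc, Xe, cross]

/-- splitting the neighbourhood of an unlabelled vertex -/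
theorem op_split0 (x : V → ℝ) {v : V} (hv : c v = 0) :
    op G x v = aT G c x v + op (Ww G c) x v := by
  unfold op aT nT
  rw [sum_filter, ← sum_add_distrib]
  refine sum_congr rfl fun u _ => ?_
  unfold ad
  by_cases a : G.Adj v u <;> by_cases d : c u = 0 <;> simp [Ww, a, d, hv]

/-- the total outer weight seen from the labelled vertices -/
theorem sum_op_Xe (G : SimpleGraph V) (c : V → ℕ) (x : V → ℝ) :
    ∑ v ∈ univ.filter (fun v => c v ≠ 0), op (Xe G c) x v = ∑ u ∈ Vp c 0, x u * dT G c u := by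
  have e1 : ∑ v ∈ univ.filter (fun v => c v ≠ 0), op (Xe G c) x v =
      S2 fun v u => x u * AHa_A G c u v := by
    rw [sum_filter]
    refine sum_congr rfl fun v _ => ?_
    split_ifs with b
    · refine sum_congr rfl fun u _ => ?_
      unfold ad AHa_A
      by_cases a : G.Adj v u
      · have a' := a.symm
        by_cases d : c u = 0 <;> simp [Xe, a, a', b, d]
      · have a' : ¬ G.Adj u v := fun e => a e.symm
        simp [Xe, a, a']
    · symm
      refine sum_eq_zero fun u _ => ?_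
      simp [AHa_A, b]
  rw [e1, S2_comm, Vp, sum_filter]
  refine sum_congr rfl fun u _ => ?_
  rw [← mul_sum, AHa_row]
  split_ifs <;> simp

end Pool.Agent.P.MP_094db5_co

end
end

section

/-! Real inequalities. -/

set_option autoImplicit false

open Finset Classical

noncomputable section

namespace Pool.Agent.P.MP_094db5_co

theorem ANz_K {L : ℤ} {a b ε κ ξ δ s t : ℝ} (h0 : 0 < ξ) (h1 : 100 * ξ ≤ 1) (ha : 0 ≤ a)
    (hb : 0 ≤ b) (hε : 0 ≤ ε) (hκ : 0 ≤ κ) (hδ : δ ≤ ξ ^ 2 / 10) (hs : s ≤ a / 2) (ht : t ≤ b / 2)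
    (h : ∀ q : ℤ, 0 ≤ L - a + b + ε - κ - q → L - a + b + ε - κ - q ≤ 1 →
      q + (L - a + b + ε - κ - q) ^ 2 + 2 * κ * (1 - 2 * ξ) ≤ L - 2 * a + s + t + δ) :
    ((b + ε) ^ 2 - t) + ((a + κ) ^ 2 - s - 4 * ξ * κ) + 4 / 5 * min (b + ε) (a + κ) ≤ δ := by
  have hκξ : ξ * κ ≤ 1 / 100 * κ := mul_le_mul_of_nonneg_right (by linarith) hκ
  have hξ2 : ξ ^ 2 ≤ 1 / 100 * ξ := by nlinarith only [h0, h1]
  have h2 : (b + ε) + (a + κ) ≤ 51 / 100 := by
    have h3 := Int.floor_le ((L : ℝ) - a + b + ε - κ)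
    have h4 := Int.lt_floor_add_one ((L : ℝ) - a + b + ε - κ)
    have h5 := h _ (sub_nonneg.2 h3) (by linarith)
    have h6 := sq_nonneg ((L : ℝ) - a + b + ε - κ - ⌊(L : ℝ) - a + b + ε - κ⌋ - 1 / 2)
    nlinarith only [h0, h1, hε, hκ, hδ, hs, ht, hκξ, hξ2, h5, h6]
  rcases le_total (a + κ) (b + ε) with h3 | h3
  · rw [min_eq_right h3]
    have h5 := h L (by linarith only [h3]) (by linarith only [h0, h1, ha, hκ, h2])
    have h6 : (a + κ) * (b + ε) ≤ (a + κ) * (51 / 100) :=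
      mul_le_mul_of_nonneg_left (by linarith) (by linarith only [ha, hκ])
    nlinarith only [ha, hκ, h5, h6]
  · rw [min_eq_left h3]
    have h5 := h (L - 1) (by push_cast; linarith only [h0, h1, hb, hε, h2]) (by push_cast; linarith)
    push_cast at h5
    have h6 : (b + ε) * (a + κ) ≤ (b + ε) * (51 / 100) :=
      mul_le_mul_of_nonneg_left (by linarith only [hb, hε, h2]) (by linarith only [hb, hε])
    nlinarith only [hb, hε, h5, h6]

theorem ANz_one {β p X κ ξ δ : ℝ} (h0 : 0 < ξ) (h1 : 100 * ξ ≤ 1) (hδ : δ ≤ ξ ^ 2 / 10)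
    (hκ : 0 ≤ κ) (e4 : 17 / 20 * ξ ≤ β) (hp : 0 ≤ X) (hm : 0 ≤ min p (β + κ))
    (K : X + ((β + κ) ^ 2 - β ^ 2 - 4 * ξ * κ) + 4 / 5 * min p (β + κ) ≤ δ) : p + κ ≤ 5 * ξ := by
  have e5 := mul_le_mul_of_nonneg_right e4 hκ
  have hξ2 : ξ * (100 * ξ) ≤ ξ * 1 := mul_le_mul_of_nonneg_left h1 h0.le
  have e8 : κ ≤ 47 / 20 * ξ := by
    by_contra hc
    have hc' := (not_le.1 hc).le
    have a1 := mul_le_mul_of_nonneg_left hc' hκ
    have a2 := mul_le_mul_of_nonneg_left hc' h0.le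
    have a3 := mul_pos h0 h0
    linarith only [hδ, hp, hm, K, e5, a1, a2, a3]
  have a4 := sq_nonneg (κ - 23 / 20 * ξ)
  rcases le_total p (β + κ) with h3 | h3
  · rw [min_eq_left h3] at K
    linarith only [h0, hδ, hp, K, e5, hξ2, e8, a4]
  · rw [min_eq_right h3] at K
    linarith only [h0, hδ, hκ, e4, hp, K, e5, hξ2, a4]

/-- all but one of the numbers are small -/
theorem convex_one {α : Type} {W : Finset α} (hW : W.Nonempty) {θ : α → ℝ} {ξ ε κ δ : ℝ}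
    (h0 : 0 < ξ) (h1 : 100 * ξ ≤ 1) (hθ : ∀ u ∈ W, 0 ≤ θ u ∧ θ u ≤ 1 - 17 / 20 * ξ) (hε : 0 ≤ ε)
    (hκ : 0 ≤ κ) (hδ : δ ≤ ξ ^ 2 / 10)
    (h : ∀ q : ℤ, 0 ≤ ∑ u ∈ W, θ u + ε - κ - q → ∑ u ∈ W, θ u + ε - κ - q ≤ 1 →
      q + (∑ u ∈ W, θ u + ε - κ - q) ^ 2 + 2 * κ * (1 - 2 * ξ) ≤ ∑ u ∈ W, θ u ^ 2 + δ) :
    ∃ z ∈ W, ∑ u ∈ W.erase z, θ u + ε + κ ≤ 5 * ξ := by
  obtain ⟨A, hA⟩ : ∃ A, A = W.filter (fun u => 1 / 2 ≤ θ u) := ⟨_, rfl⟩
  obtain ⟨B, hB⟩ : ∃ B, B = W.filter (fun u => ¬ 1 / 2 ≤ θ u) := ⟨_, rfl⟩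
  have mA : ∀ u ∈ A, u ∈ W ∧ 1 / 2 ≤ θ u := fun u hu => mem_filter.1 (hA ▸ hu)
  have mB : ∀ u ∈ B, u ∈ W ∧ ¬ 1 / 2 ≤ θ u := fun u hu => mem_filter.1 (hB ▸ hu)
  have sp : ∀ f : α → ℝ, ∑ u ∈ W, f u = ∑ u ∈ A, f u + ∑ u ∈ B, f u := fun f => by
    rw [hA, hB, sum_filter_add_sum_filter_not]
  have e1 : ∑ u ∈ W, θ u = ((A.card : ℤ) : ℝ) - ∑ u ∈ A, (1 - θ u) + ∑ u ∈ B, θ u := by
    rw [sp, sum_sub_distrib]; simp
  have e2 : ∑ u ∈ W, θ u ^ 2 = ((A.card : ℤ) : ℝ) - 2 * ∑ u ∈ A, (1 - θ u)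
      + ∑ u ∈ A, (1 - θ u) ^ 2 + ∑ u ∈ B, θ u ^ 2 := by
    rw [sp]
    congr 1
    have : ((A.card : ℤ) : ℝ) = ∑ u ∈ A, (1 : ℝ) := by simp
    rw [this, mul_sum, ← sum_sub_distrib, ← sum_add_distrib]
    exact sum_congr rfl (fun u _ => by ring)
  have hβ : ∀ u ∈ A, 17 / 20 * ξ ≤ 1 - θ u := fun u hu => by linarith [(hθ u (mA u hu).1).2]
  have ha : 0 ≤ ∑ u ∈ A, (1 - θ u) := sum_nonneg (fun u hu => by linarith [hβ u hu])
  have hb : 0 ≤ ∑ u ∈ B, θ u := sum_nonneg (fun u hu => (hθ u (mB u hu).1).1)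
  have hs : ∑ u ∈ A, (1 - θ u) ^ 2 ≤ (∑ u ∈ A, (1 - θ u)) / 2 := by
    rw [sum_div]
    refine sum_le_sum (fun u hu => ?_)
    have := hβ u hu
    have := (mA u hu).2
    nlinarith
  have ht : ∑ u ∈ B, θ u ^ 2 ≤ (∑ u ∈ B, θ u) / 2 := by
    rw [sum_div]
    refine sum_le_sum (fun u hu => ?_)
    have := (hθ u (mB u hu).1).1
    have := not_le.1 (mB u hu).2
    nlinarith
  have ht2 : ∑ u ∈ B, θ u ^ 2 ≤ (∑ u ∈ B, θ u) ^ 2 :=
    sum_sq_le_sq_sum_of_nonneg (fun u hu => (hθ u (mB u hu).1).1)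
  rw [e1, e2] at h
  have K := ANz_K h0 h1 ha hb hε hκ hδ hs ht h
  have hξ2 : ξ ^ 2 ≤ 1 / 100 * ξ := by nlinarith only [h0, h1]
  have hm : 0 ≤ min (∑ u ∈ B, θ u + ε) (∑ u ∈ A, (1 - θ u) + κ) :=
    le_min (by linarith) (by linarith only [hκ, ha])
  have hp : 0 ≤ (∑ u ∈ B, θ u + ε) ^ 2 - ∑ u ∈ B, θ u ^ 2 := by nlinarith only [h0, h1, hε, hb, ht2]
  rcases A.eq_empty_or_nonempty with hA0 | ⟨z, hz⟩
  · obtain ⟨z, hz, hmax⟩ := exists_max_image W θ hW
    refine ⟨z, hz, ?_⟩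
    have e3 : ∑ u ∈ B, θ u = ∑ u ∈ W.erase z, θ u + θ z := by
      rw [sum_erase_add _ _ hz, sp, hA0, sum_empty, zero_add]
    have e4 : ∑ u ∈ B, θ u ^ 2 ≤ θ z * ∑ u ∈ B, θ u := by
      rw [mul_sum]
      refine sum_le_sum (fun u hu => ?_)
      have := (hθ u (mB u hu).1).1
      have := hmax u (mB u hu).1
      nlinarith
    have e5 : 0 ≤ ∑ u ∈ W.erase z, θ u :=
      sum_nonneg (fun u hu => (hθ u (mem_of_mem_erase hu)).1)
    have e6 := (hθ z hz).1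
    simp only [hA0, sum_empty, zero_add, sub_zero] at K hm
    rw [e3] at K e4 hm
    generalize ∑ u ∈ W.erase z, θ u = R at K e4 e5 hm ⊢
    generalize ∑ u ∈ B, θ u ^ 2 = t at K e4
    have e7 : (R + ε) ^ 2 ≤ (R + θ z + ε) ^ 2 - t := by
      nlinarith only [mul_nonneg e6 e5, mul_nonneg e6 hε, hε, e6, e5, e4]
    have e8 : κ ≤ 403 / 100 * ξ := by
      by_contra hc
      have hc' := not_le.1 hc
      nlinarith only [sq_nonneg (R + ε), h0, hκ, hδ, hm, K, e7, hc]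
    rcases le_total (R + θ z + ε) κ with h3 | h3
    · rw [min_eq_left h3] at K
      nlinarith only [sq_nonneg (R + ε), sq_nonneg (κ - 2 * ξ), h0, hδ, hξ2, e6, K, e7, e8]
    · rw [min_eq_right h3] at K
      have e9 : ξ * κ ≤ 1 / 100 * κ := mul_le_mul_of_nonneg_right (by linarith only [h1]) hκ
      have e10 : (R + ε) ^ 2 ≤ (1 / 2 * ξ) ^ 2 := by nlinarith only [sq_nonneg κ, hκ, hδ, K, e7, e9]
      have := (abs_le_of_sq_le_sq' e10 (by linarith only [h0])).2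
      linarith only [h0, e8, this]
  · rcases (A.erase z).eq_empty_or_nonempty with hA1 | ⟨z', hz'⟩
    · refine ⟨z, (mA z hz).1, ?_⟩
      have eA : ∀ f : α → ℝ, ∑ u ∈ A, f u = f z := fun f => by
        rw [← sum_erase_add _ _ hz, hA1, sum_empty, zero_add]
      have e3 : ∑ u ∈ W.erase z, θ u = ∑ u ∈ B, θ u := by
        have := sum_erase_add W θ (mA z hz).1
        rw [sp θ, eA] at this
        linarith only [this]
      rw [e3]
      rw [eA, eA] at K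
      rw [eA] at hm
      exact ANz_one h0 h1 hδ hκ (hβ z hz) hp hm K
    · exfalso
      have e3 : ∀ u ∈ A, 17 / 20 * ξ ≤ ∑ v ∈ A, (1 - θ v) - (1 - θ u) := by
        intro u hu
        obtain ⟨v, hv⟩ : ∃ v, v ∈ A.erase u := by
          by_cases h2 : u = z
          · exact ⟨z', h2 ▸ hz'⟩
          · exact ⟨z, mem_erase.2 ⟨Ne.symm h2, hz⟩⟩
        have h2 := sum_erase_add A (fun v => 1 - θ v) hu
        have h3 := single_le_sum (f := fun v => 1 - θ v) (s := A.erase u)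
          (fun w hw => by linarith only [hβ w (mem_of_mem_erase hw), h0]) hv
        have h4 := hβ v (mem_of_mem_erase hv)
        linarith only [h2, h3, h4]
      have e4 : ∑ u ∈ A, (1 - θ u) ^ 2
          ≤ (∑ v ∈ A, (1 - θ v) - 17 / 20 * ξ) * ∑ u ∈ A, (1 - θ u) := by
        rw [mul_sum]
        refine sum_le_sum (fun u hu => ?_)
        have h2 := e3 u hu
        have h3 := hβ u hu
        rw [sq]
        exact mul_le_mul_of_nonneg_right (by linarith only [h2]) (by linarith only [h0, h3])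
      have e5 : 17 / 10 * ξ ≤ ∑ v ∈ A, (1 - θ v) := by linarith only [e3 z hz, hβ z hz]
      generalize ∑ v ∈ A, (1 - θ v) = a at K e4 e5 hm
      have e6 := mul_le_mul_of_nonneg_right e5 hκ
      have e7 := mul_le_mul_of_nonneg_right e5 h0.le
      nlinarith only [sq_nonneg (κ - 3 / 10 * ξ), sq_pos_of_pos h0, h0, hδ, hp, K, e4, hm, e6, e7]

/-- the exceptional number is not large -/
theorem not_large {r θ τ κ P ξ η δ : ℝ} (hr : 3 ≤ r) (h0 : 0 < ξ) (h1 : 100 * r * ξ ≤ 1)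
    (h2 : 2 * r ^ 2 * η ≤ 1) (h3 : 10 * r ^ 2 * δ ≤ ξ) (hθ : θ ≤ 1 - 17 / 20 * ξ)
    (hθ' : (1 - 1 / r) ^ 2 - η ≤ θ) (hτ : 0 ≤ τ) (hτ' : τ ≤ 5 * ξ) (hκ : 0 ≤ κ)
    (hP : P ≤ θ ^ 2 + 5 * ξ * τ)
    (ha : θ + τ - κ ≤ 1 → 1 + 2 * κ * (1 - 2 * ξ) - 2 * (1 - 1 / r) * (1 - (θ + τ - κ)) ≤ P + δ)
    (hb : 1 < θ + τ - κ → 1 ≤ P + δ) : False := by
  have hr0 : 0 < r := by linarith
  have s0 : 0 < 1 / r := by positivity
  have s1 : 1 / r ≤ 1 / 3 := one_div_le_one_div_of_le (by norm_num) hr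
  have s2 : 100 * ξ ≤ 1 / r := by rw [le_div_iff₀ hr0]; linarith
  have s3 : 2 * η ≤ (1 / r) ^ 2 := by rw [div_pow, one_pow, le_div_iff₀ (by positivity)]; linarith
  have s4 : 10 * δ ≤ ξ * (1 / r) ^ 2 := by
    rw [div_pow, one_pow, mul_one_div, le_div_iff₀ (by positivity)]; linarith only [h3]
  generalize 1 / r = s at *
  have s5 : s ^ 2 ≤ 1 / 9 := by nlinarith only [s0, s1]
  have s6 := mul_le_mul_of_nonneg_left s5 h0.le
  rcases le_or_gt (θ + τ - κ) 1 with h | h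
  · have h4 := ha h
    have h5 : 0 ≤ κ * (s - 2 * ξ) := mul_nonneg hκ (by linarith only [h0, s2])
    have h6 : 0 ≤ τ * (2 * (1 - s) - 5 * ξ) := mul_nonneg hτ (by linarith only [h0, s1, s2])
    have h7 : (17 / 20 * ξ) * (s ^ 2 / 2) ≤ (1 - θ) * (1 + θ - 2 * (1 - s)) :=
      mul_le_mul (by linarith only [hθ]) (by nlinarith only [hθ', s3]) (by positivity) (by linarith only [h0, hθ])
    have h8 : 0 < ξ * s ^ 2 := by positivity
    nlinarith only [hP, s4, h4, h5, h6, h7, h8]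
  · have h4 := hb h
    have h5 : θ ^ 2 ≤ (1 - 17 / 20 * ξ) ^ 2 := pow_le_pow_left₀ (by nlinarith only [h0, hτ', hκ, s1, s2, h]) hθ 2
    have h6 := mul_le_mul_of_nonneg_left hτ' h0.le
    have h7 : ξ * ξ ≤ ξ * (1 / 300) := mul_le_mul_of_nonneg_left (by linarith only [s1, s2]) h0.le
    nlinarith only [h0, hP, s4, s6, h4, h5, h6, h7]

theorem ANz_small {C η : ℝ} (hC : 3 ≤ C) (h0 : 0 < η) (h1 : 10 ^ 4 * C ^ 4 * η ≤ 1) :
    C ^ 3 * η ≤ 1 / 30000 ∧ C ^ 2 * η ≤ 1 / 90000 ∧ C * η ≤ 1 / 270000 ∧ η ≤ 1 / 810000 := by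
  have a3 : 3 * (C ^ 3 * η) ≤ C * (C ^ 3 * η) := mul_le_mul_of_nonneg_right hC (by positivity)
  have a2 : 3 * (C ^ 2 * η) ≤ C * (C ^ 2 * η) := mul_le_mul_of_nonneg_right hC (by positivity)
  have a1 : 3 * (C * η) ≤ C * (C * η) := mul_le_mul_of_nonneg_right hC (by positivity)
  have a0 : 3 * η ≤ C * η := mul_le_mul_of_nonneg_right hC (by positivity)
  refine ⟨?_, ?_, ?_, ?_⟩ <;> nlinarith only [h1, a3, a2, a1, a0]

/-- the gain -/
theorem ANz_gain {l η r C α κ : ℝ} (hr : 3 ≤ r) (hC : r ≤ C) (h0 : 0 < η)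
    (h1 : 10 ^ 4 * C ^ 4 * η ≤ 1) (hl : 0 ≤ l) (hα1 : α ≤ (1 - 1 / r) * l) (hκ : 0 ≤ κ) :
    κ * (l / C) ≤ 2 * κ * (1 - η) ^ 2 * l - 2 * α * (κ * (1 + 5 * (C * η))) := by
  obtain ⟨c3, c2, c1, c0⟩ := ANz_small (hr.trans hC) h0 h1
  have hC0 : 0 < C := by linarith
  have s1 : 1 / C ≤ 1 / r := one_div_le_one_div_of_le (by linarith) hC
  have s0 : 0 < 1 / C := by positivity
  have s2 : 100 * (C * η) ≤ 1 / C := by rw [le_div_iff₀ hC0]; nlinarith only [h0, c2, c0]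
  have s3 : η ≤ C * η := le_mul_of_one_le_left h0.le (by linarith only [hr, hC, h0, c0])
  have x0 : 0 ≤ C * η := by positivity
  have h2 : α * (κ * (1 + 5 * (C * η))) ≤ (1 - 1 / C) * l * (κ * (1 + 5 * (C * η))) :=
    mul_le_mul_of_nonneg_right (hα1.trans (mul_le_mul_of_nonneg_right (by linarith only [s1]) hl))
      (by positivity)
  have h3 : 1 / C ≤ 2 * (1 - η) ^ 2 - 2 * (1 - 1 / C) * (1 + 5 * (C * η)) := by
    nlinarith only [mul_nonneg s0.le x0, sq_nonneg η, h0, s0, s2, s3, x0]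
  have h4 := mul_le_mul_of_nonneg_left h3 (mul_nonneg hκ hl)
  have h5 : κ * (l / C) = κ * l * (1 / C) := by ring
  rw [h5]
  nlinarith only [h2, h4]

theorem ANz_sq {α α' u : ℝ} (hα : 0 ≤ α) (hα' : 0 ≤ α') (h : α + u ≤ α') :
    α ^ 2 + 2 * α * u ≤ α' ^ 2 ∧ (0 ≤ u → α ^ 2 + 2 * α * u + u ^ 2 ≤ α' ^ 2) := by
  constructor
  · rcases le_total 0 (α + u) with h1 | h1
    · nlinarith only [pow_le_pow_left₀ h1 h 2, sq_nonneg u, h, h1]
    · nlinarith only [mul_nonneg hα (neg_nonneg.2 h1), sq_nonneg α', sq_nonneg α, hα, h1]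
  · intro hu
    nlinarith [pow_le_pow_left₀ (add_nonneg hα hu) h 2]

/-- many extra edges -/
theorem ANz_large {η x α P F E j : ℝ} (h0 : 0 < η) (c0 : η ≤ 1 / 1000) (c1 : x ≤ 1 / 1000)
    (hα : 0 ≤ α) (hj : 0 ≤ j) (hE0 : 0 ≤ E) (hE : E ≤ 3 / 2 * j) (hF : F ≤ 3 / 2 * j)
    (hP2 : P ≤ (1 + η) * F * (α + η * E)) :
    P + 6 * η * E * (α + E) ≤ 2 * α * (j * (1 - 5 * x)) + 16 * η * j ^ 2 := by
  have h1 : (1 + η) * F * (α + η * E) ≤ (1 + η) * (3 / 2 * j) * (α + η * (3 / 2 * j)) := by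
    refine le_trans (mul_le_mul_of_nonneg_right
      (mul_le_mul_of_nonneg_left hF (by positivity)) (by positivity)) ?_
    gcongr
  have h2 : 6 * η * E * (α + E) ≤ 6 * η * (3 / 2 * j) * (α + 3 / 2 * j) := by gcongr
  have h3 : 0 ≤ α * j := mul_nonneg hα hj
  have h4 := mul_le_mul_of_nonneg_left c0 h3
  have h5 := mul_le_mul_of_nonneg_left c1 h3
  have h6 : 0 ≤ η * j ^ 2 := by positivity
  have h7 := mul_le_mul_of_nonneg_left c0 h6
  nlinarith only [hP2, h1, h2, h3, h4, h5, h6, h7]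

theorem ANz_zero {η C α P F E b j : ℝ} (hC : 3 ≤ C) (h0 : 0 < η) (h1 : 10 ^ 4 * C ^ 4 * η ≤ 1)
    (hα : 0 ≤ α) (hj1 : 1 ≤ j) (hj : j ≤ 2 * C) (hE0 : 0 ≤ E) (hE : E ≤ 3 * C) (hF0 : 0 ≤ F)
    (hF : F ≤ b + j) (hb0 : 0 ≤ b) (hb : b ≤ C) (hP1 : P ≤ ((1 + η) * F) ^ 2)
    (hP2 : P ≤ (1 + η) * F * (α + η * E))
    (h : 2 * α * (j * (1 - 5 * (C * η))) + (j * (1 - 5 * (C * η))) ^ 2 + ((1 - η) * b) ^ 2
      ≤ P + 6 * η * E * (α + E)) : False := by
  obtain ⟨c3, c2, c1, c0⟩ := ANz_small hC h0 h1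
  have hC0 : 0 < C := by linarith only [hC, h0, c0]
  have x0 : 0 ≤ C * η := by positivity
  have l1 : j ^ 2 - 1 / 100 ≤ (j * (1 - 5 * (C * η))) ^ 2 := by
    have : j ^ 2 * (C * η) ≤ (2 * C) ^ 2 * (C * η) := by gcongr
    linarith only [sq_nonneg (j * (C * η)), h0, c3, c0, this]
  have l2 : b ^ 2 - 1 / 100 ≤ ((1 - η) * b) ^ 2 := by
    have : b ^ 2 * η ≤ C ^ 2 * η := by gcongr
    linarith only [sq_nonneg (b * η), h0, c2, c0, this]
  have l3 : 2 * α * j - 20 * (C ^ 2 * η) * α ≤ 2 * α * (j * (1 - 5 * (C * η))) := by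
    have : α * (C * η) * j ≤ α * (C * η) * (2 * C) := by gcongr
    linarith only [this]
  have l4 : 6 * η * E * (α + E) ≤ 6 * (C ^ 2 * η) * α + 1 / 100 := by
    have a1 : 6 * η * E * (α + E) ≤ 6 * η * (3 * C) * (α + 3 * C) := by gcongr
    have a2 : 3 * (C * η * α) ≤ C * (C * η * α) := mul_le_mul_of_nonneg_right hC (by positivity)
    linarith only [h0, c2, c0, a1, a2]
  rcases le_total (b + 1 / 4) α with h2 | h2
  · have l5 : P ≤ (b + j) ^ 2 + 1 / 100 := by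
      have a1 : ((1 + η) * F) ^ 2 ≤ ((1 + η) * (b + j)) ^ 2 := by gcongr
      have a2 : η * (b + j) ^ 2 ≤ η * (3 * C) ^ 2 := by gcongr; linarith only [hj, hb]
      have a3 : η * (η * (b + j) ^ 2) ≤ 1 * (η * (b + j) ^ 2) := by gcongr; linarith only [h0, c0]
      linarith only [h0, hP1, c2, c0, a1, a2, a3]
    have a4 : (α - b) * 1 ≤ (α - b) * j := mul_le_mul_of_nonneg_left hj1 (by linarith only [h0, c0, h2])
    have a5 : (C ^ 2 * η) * (α - b) ≤ 1 / 90000 * (α - b) :=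
      mul_le_mul_of_nonneg_right c2 (by linarith only [h0, c0, h2])
    have a6 : (C ^ 2 * η) * b ≤ (C ^ 2 * η) * C := by gcongr
    linarith only [h0, h, c3, c0, l1, l2, l3, l4, h2, l5, a4, a5, a6]
  · have hα2 : α ≤ 2 * C := by linarith only [hC, h0, hb, c0, h2]
    have l5 : P ≤ (b + j) * α + 1 / 100 := by
      have a1 : (1 + η) * F * (α + η * E) ≤ (1 + η) * (b + j) * (α + η * E) := by gcongr
      have a2 : η * (b + j) * α ≤ η * (3 * C) * (2 * C) := by gcongr; linarith only [hj, hb]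
      have a3 : (1 + η) * (b + j) * (η * E) ≤ 2 * (3 * C) * (η * (3 * C)) := by
        gcongr <;> linarith only [h0, c0, hj, hb]
      linarith only [h0, hP2, c2, c0, a1, a2, a3]
    have a6 : (C ^ 2 * η) * α ≤ (C ^ 2 * η) * (2 * C) := by gcongr
    have a7 : 1 ≤ j ^ 2 + b ^ 2 + α * (j - b) := by
      rcases le_total b j with h3 | h3
      · linarith only [mul_nonneg hα (sub_nonneg.2 h3), sq_nonneg b,
          mul_le_mul_of_nonneg_left hj1 (by linarith only [h0, hj1, c0] : 0 ≤ j), h0, hα, hj1, h, c3, c0, l1, l2, l3, l4, l5, a6, h3]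
      · linarith only [mul_le_mul_of_nonneg_right h2 (sub_nonneg.2 h3),
          mul_le_mul_of_nonneg_left hj1 hb0, mul_le_mul_of_nonneg_left hj1 (by linarith only [h0, hj1, c0] : 0 ≤ j), h0, hj1, hb0, h, c3, c0, l1, l2, l3, l4, h2, l5, a6, h3]
    linarith only [h0, h, c3, c0, l1, l2, l3, l4, l5, a6, a7]

/-- comparison of two configurations with a large star -/
theorem big_real {l η r C α α' P F E b b' : ℝ} {j κ : ℕ} (hr : 3 ≤ r) (hC : r ≤ C) (h0 : 0 < η)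
    (h1 : 10 ^ 4 * C ^ 4 * η ≤ 1) (hl : 1 ≤ η * l) (hα : 0 ≤ α) (hα1 : α ≤ (1 - 1 / r) * l)
    (hjκ : 1 ≤ j + κ) (hj : j ≤ E) (hE : E ≤ η * l) (hκ : κ ≤ η * l) (hE' : E ≤ r + j)
    (hF0 : 0 ≤ F) (hF : F ≤ b' + j) (hb0 : 0 ≤ b) (hb : b ≤ b') (hb' : b' ≤ r)
    (hbb : κ = 0 → b' = b) (hP1 : P ≤ ((1 + η) * F) ^ 2) (hP2 : P ≤ (1 + η) * F * (α + η * E))
    (hα' : 0 ≤ α') (hadj : α + j - κ - 5 * C * η * (j + κ) ≤ α')
    (h : α' ^ 2 + ((1 - η) * b) ^ 2 + 2 * κ * (1 - η) ^ 2 * l ≤ α ^ 2 + P + 6 * η * E * (α + E)) :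
    False := by
  obtain ⟨c3, c2, c1, c0⟩ := ANz_small (hr.trans hC) h0 h1
  have hC3 : 3 ≤ C := hr.trans hC
  have hC0 : 0 < C := by linarith only [hr, hC, h0, c0]
  have hl0 : 0 < l := (mul_pos_iff_of_pos_left h0).1 (lt_of_lt_of_le one_pos hl)
  have hj0 : (0 : ℝ) ≤ j := Nat.cast_nonneg _
  have hκ0 : (0 : ℝ) ≤ κ := Nat.cast_nonneg _
  have hE0 : 0 ≤ E := hj0.trans hj
  have x0 : 0 ≤ C * η := by positivity
  have g := ANz_gain hr hC h0 h1 hl0.le hα1 hκ0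
  obtain ⟨q1, q2⟩ := ANz_sq (u := j * (1 - 5 * (C * η)) - κ * (1 + 5 * (C * η))) hα hα'
    (by linarith only [hadj])
  have hb2 := sq_nonneg ((1 - η) * b)
  have g0 : 0 ≤ (κ : ℝ) * (l / C) := by positivity
  rcases le_total (2 * r) j with h2 | h2
  · have m := ANz_large (x := C * η) (j := j) h0 (by linarith only [h0, c0]) (by linarith only [h0, c1, c0]) hα hj0 hE0
      (by linarith only [hE', h2]) (by linarith only [hF, hb', h2]) hP2
    have hjp : (0 : ℝ) < j := by linarith only [hr, h0, c0, h2]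
    rcases le_total (3 * (κ : ℝ)) j with h3 | h3
    · have a1 : (j : ℝ) * (C * η) ≤ j * (1 / 270000) := by gcongr
      have a2 : (κ : ℝ) * (C * η) ≤ κ * (1 / 270000) := by gcongr
      have a3 : 1 / 2 * (j : ℝ) ≤ j * (1 - 5 * (C * η)) - κ * (1 + 5 * (C * η)) := by linarith only [hr, h0, c0, h2, h3, a1, a2]
      have a4 := q2 (by linarith only [hr, h0, c0, h2, h3, a1, a2])
      have a5 := pow_le_pow_left₀ (by linarith only [hr, h0, c0, h2]) a3 2
      have a6 : η * (j : ℝ) ^ 2 ≤ 1 / 810000 * (j : ℝ) ^ 2 := by gcongr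
      have a7 : 0 < (j : ℝ) ^ 2 := by positivity
      linarith only [h, g, hb2, g0, m, a4, a5, a6, a7]
    · have a1 : η * ((j : ℝ) * j) ≤ η * ((3 * κ) * (η * l)) := by gcongr; linarith only [hj, hE]
      have a2 : η * η * C ≤ 1 / 100 := by nlinarith only [hr, hC, h0, c1, c0, x0]
      have a3 : 0 < (κ : ℝ) * (l / C) := by
        have : (0 : ℝ) < κ := by linarith only [hr, h0, c0, h2, h3]
        positivity
      have a4 := mul_le_mul_of_nonneg_left a2 a3.le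
      have a5 : (κ : ℝ) * (l / C) * (η * η * C) = η * (κ * (η * l)) := by field_simp
      linarith only [h, g, q1, hb2, m, a1, a3, a4, a5]
  · rcases Nat.eq_zero_or_pos κ with h3 | h3
    · have hj1 : (1 : ℝ) ≤ j := by exact_mod_cast (by omega : 1 ≤ j)
      have hb3 := hbb h3
      subst h3
      simp only [Nat.cast_zero, zero_mul, mul_zero, sub_zero, add_zero] at q2 h
      have a4 := q2 (mul_nonneg hj0 (by linarith only [h0, c1, c0]))
      exact ANz_zero hC3 h0 h1 hα hj1 (by linarith only [hC, h2]) hE0 (by linarith only [hC, hE', h2]) hF0 (hb3 ▸ hF) hb0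
        (by linarith only [hC, hb, hb']) hP1 hP2 (by linarith only [h, a4])
    · have hκ1 : (1 : ℝ) ≤ κ := by exact_mod_cast h3
      have a1 : l / C ≤ κ * (l / C) := le_mul_of_one_le_left (by positivity) hκ1
      have a2 : 0 ≤ α * (j * (1 - 5 * (C * η))) := mul_nonneg hα (mul_nonneg hj0 (by linarith only [h0, c1, c0]))
      have a3 : ((1 + η) * F) ^ 2 ≤ (2 * (3 * C)) ^ 2 := by gcongr <;> linarith only [h0, c0, hC, hF, hb', h2]
      have a4 : α ≤ l := hα1.trans (mul_le_of_le_one_left hl0.le (by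
        have : 0 < 1 / r := by
          have : 0 < r := by linarith only [hr, h0, c0]
          positivity
        linarith only [this]))
      have a5 : 6 * η * E * (α + E) ≤ 6 * η * (3 * C) * (l + 3 * C) := by gcongr <;> linarith only [hC, hE', h2]
      have a6 : l / C * (C ^ 2 * η) ≤ l / C * (1 / 90000) := by gcongr
      have a7 : l / C * (C ^ 2 * η) = η * C * l := by field_simp
      have a8 : 10 ^ 4 * C ^ 3 ≤ l / C := by
        rw [le_div_iff₀ hC0]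
        have b1 := mul_le_mul_of_nonneg_left hl (by positivity : 0 ≤ 10 ^ 4 * C ^ 4)
        have b2 := mul_le_mul_of_nonneg_right h1 hl0.le
        linarith only [b1, b2]
      have a9 : 3 * C ^ 2 ≤ C * C ^ 2 := mul_le_mul_of_nonneg_right hC3 (by positivity)
      have a10 : 9 ≤ C ^ 2 := by linarith only [pow_le_pow_left₀ (by norm_num) hC3 2, h0, hP1, h, c2, c0, hC3, g, q1, hb2, a1, a2, a3, a5, a6, a7, a8, a9]
      linarith only [h0, hP1, h, c2, c0, g, q1, hb2, a1, a2, a3, a5, a6, a7, a8, a9, a10]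

end Pool.Agent.P.MP_094db5_co

end
end

section

/-! Changing the sizes of two parts. -/

set_option autoImplicit false

open Finset Classical

noncomputable section

namespace Pool.Agent.P.MP_094db5_co

variable {V : Type} [Fintype V] {r : ℕ} {c : V → ℕ}

/-- moving the set `M` to part `i` -/
def mv (c : V → ℕ) (M : Finset V) (i : ℕ) (v : V) : ℕ := if v ∈ M then i else c v

lemma ABc_sum (M : Finset V) (f : V → ℝ) : ∑ v, (if v ∈ M then f v else 0) = ∑ v ∈ M, f v := by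
  rw [sum_ite_mem, univ_inter]

lemma ABc_Pc {M : Finset V} {i j : ℕ} (hij : i ≠ j) (hM : ∀ v ∈ M, c v = j) (f : V → ℝ) :
    Pc f (mv c M i) i = Pc f c i + ∑ v ∈ M, f v ∧ Pc f (mv c M i) j = Pc f c j - ∑ v ∈ M, f v ∧
      ∀ l, l ≠ i → l ≠ j → Pc f (mv c M i) l = Pc f c l := by
  refine ⟨?_, ?_, fun l h1 h2 => ?_⟩
  · rw [← ABc_sum, Pc, Pc, ← sum_add_distrib]
    refine sum_congr rfl fun v _ => ?_
    by_cases h : v ∈ M
    · simp [mv, h, hM v h, hij.symm]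
    · simp [mv, h]
  · rw [← ABc_sum, Pc, Pc, ← sum_sub_distrib]
    refine sum_congr rfl fun v _ => ?_
    by_cases h : v ∈ M
    · simp [mv, h, hM v h, hij]
    · simp [mv, h]
  · refine sum_congr rfl fun v _ => ?_
    by_cases h : v ∈ M
    · simp [mv, h, hM v h, h1.symm, h2.symm]
    · simp [mv, h]

lemma ABc_cn {M : Finset V} {i j : ℕ} (hij : i ≠ j) (hM : ∀ v ∈ M, c v = j) :
    (cn (mv c M i) i : ℝ) = cn c i + M.card ∧ (cn (mv c M i) j : ℝ) = cn c j - M.card ∧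
      ∀ l, l ≠ i → l ≠ j → (cn (mv c M i) l : ℝ) = cn c l := by
  simpa only [Pc_const, mul_one, sum_const, nsmul_eq_mul] using ABc_Pc hij hM fun _ => 1

theorem cn_mv {M : Finset V} {i j : ℕ} (hij : i ≠ j) (hM : ∀ v ∈ M, c v = j) :
    cn (mv c M i) i = cn c i + M.card ∧ cn (mv c M i) j + M.card = cn c j ∧
      ∀ l, l ≠ i → l ≠ j → cn (mv c M i) l = cn c l := by
  obtain ⟨h1, h2, h3⟩ := ABc_cn hij hM
  refine ⟨by exact_mod_cast h1, ?_, fun l a b => by exact_mod_cast h3 l a b⟩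
  exact_mod_cast (by linarith : (cn (mv c M i) j : ℝ) + M.card = cn c j)

lemma ABc_two {s : Finset ℕ} {i j : ℕ} (hi : i ∈ s) (hj : j ∈ s) (hij : i ≠ j) {F F' : ℕ → ℝ}
    (h : ∀ l ∈ s, l ≠ i → l ≠ j → F' l = F l) :
    ∑ l ∈ s, F' l = ∑ l ∈ s, F l + (F' i - F i) + (F' j - F j) := by
  have h1 : ∑ l ∈ {i, j}, (F' l - F l) = ∑ l ∈ s, (F' l - F l) := by
    refine sum_subset (by simp only [insert_subset_iff, singleton_subset_iff, hi, hj, and_self])
      fun l hl hn => ?_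
    rw [mem_insert, mem_singleton, not_or] at hn
    rw [h l hl hn.1 hn.2, sub_self]
  rw [sum_pair hij, sum_sub_distrib] at h1
  linarith

omit [Fintype V] in
lemma ABc_le (hc : ∀ v, c v ≤ r) (M : Finset V) {i : ℕ} (hi : i ∈ Icc 1 r) (v : V) :
    mv c M i v ≤ r := by
  unfold mv
  split_ifs
  exacts [(mem_Icc.1 hi).2, hc v]

theorem ec_mv (hc : ∀ v, c v ≤ r) {M : Finset V} {i j : ℕ} (hi : i ∈ Icc 1 r) (hj : j ∈ Icc 1 r)
    (hij : i ≠ j) (hM : ∀ v ∈ M, c v = j) :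
    ec (Kc (mv c M i)) + M.card * (cn c i + M.card) = ec (Kc c) + M.card * cn c j := by
  obtain ⟨h1, h2, h3⟩ := ABc_cn hij hM
  have a1 := Mo_Kc hc
  have a2 := Mo_Kc (ABc_le hc M hi)
  have b1 := ABc_two hi hj hij (F := fun l => (cn c l : ℝ)) (F' := fun l => cn (mv c M i) l)
    fun l _ a b => h3 l a b
  have b2 := ABc_two hi hj hij (F := fun l => (cn c l : ℝ) ^ 2)
    (F' := fun l => (cn (mv c M i) l : ℝ) ^ 2) fun l _ a b => by simp only [h3 l a b]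
  rw [b1, b2, h1, h2] at a2
  rw [Mo_ec] at a1 a2
  have : (ec (Kc (mv c M i)) : ℝ) + M.card * (cn c i + M.card) = ec (Kc c) + M.card * cn c j := by
    linarith
  exact_mod_cast this

lemma ABc_part {G : SimpleGraph V} {x : V → ℝ} (hx : Eig G x) (hc : ∀ v, c v ≤ r)
    (hp : Proper G c) {j : ℕ} (hj : j ∈ Icc 1 r) {e : ℝ}
    (he : ∑ v, op (Hm G c) x v + ∑ u ∈ Vp c 0, x u * dT G c u ≤ e) {M : Finset V}
    (hM : ∀ v ∈ M, c v = j) :
    |lam G * ∑ v ∈ M, x v - M.card * (∑ l ∈ Icc 1 r, Pc x c l - Pc x c j)| ≤ e := by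
  have hj0 : ∀ v ∈ M, c v ≠ 0 := fun v hv => by
    have := hM v hv
    have := (mem_Icc.1 hj).1
    omega
  have a1 : lam G * ∑ v ∈ M, x v = M.card * (∑ l ∈ Icc 1 r, Pc x c l - Pc x c j) -
      ∑ v ∈ M, op (Hm G c) x v + ∑ v ∈ M, op (Xe G c) x v := by
    rw [mul_sum, ← nsmul_eq_mul, ← sum_const, ← sum_sub_distrib, ← sum_add_distrib]
    refine sum_congr rfl fun v hv => ?_
    rw [← hx.eig, op_split hp x (hj0 v hv), op_Kc hc x (hj0 v hv), hM v hv]
  have a2 : ∑ v ∈ M, op (Hm G c) x v ≤ ∑ v, op (Hm G c) x v :=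
    sum_le_sum_of_subset_of_nonneg (subset_univ _) fun v _ _ => op_nonneg hx.nonneg v
  have a3 : ∑ v ∈ M, op (Xe G c) x v ≤ ∑ u ∈ Vp c 0, x u * dT G c u := by
    rw [← sum_op_Xe]
    exact sum_le_sum_of_subset_of_nonneg (fun v hv => mem_filter.2 ⟨mem_univ _, hj0 v hv⟩)
      fun v _ _ => op_nonneg hx.nonneg v
  have a4 : 0 ≤ ∑ v ∈ M, op (Hm G c) x v := sum_nonneg fun v _ => op_nonneg hx.nonneg v
  have a5 : 0 ≤ ∑ v ∈ M, op (Xe G c) x v := sum_nonneg fun v _ => op_nonneg hx.nonneg v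
  rw [abs_le]
  constructor <;> linarith

/-- the part sums -/
theorem part_sum {G : SimpleGraph V} {x : V → ℝ} (hx : Eig G x) (hc : ∀ v, c v ≤ r)
    (hp : Proper G c) {i : ℕ} (hi : i ∈ Icc 1 r) {e : ℝ}
    (he : ∑ v, op (Hm G c) x v + ∑ u ∈ Vp c 0, x u * dT G c u ≤ e) :
    |(lam G + cn c i) * Pc x c i - cn c i * ∑ j ∈ Icc 1 r, Pc x c j| ≤ e := by
  have h := ABc_part hx hc hp hi he (M := Vp c i) fun v hv => mem_Vp.1 hv
  have e1 : ∑ v ∈ Vp c i, x v = Pc x c i := by rw [Vp, sum_filter, Pc]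
  rw [e1, card_Vp] at h
  convert h using 2
  ring

lemma ABc_diff {l η e q S Pi Pj ni nj : ℝ} (l0 : 0 < l) (h0 : 0 < η) (h1 : 100 * η ≤ 1)
    (q0 : 0 < q) (q3 : q ≤ 1 / 3) (hj0 : 0 ≤ nj) (hle : nj ≤ ni) (hS0 : 0 ≤ S)
    (hj : (1 - η) * q * l ≤ (1 - q) * nj) (hS : (1 - q) * S ≤ (1 + 5 * η) * l)
    (ri : |(l + ni) * Pi - ni * S| ≤ e) (rj : |(l + nj) * Pj - nj * S| ≤ e) :
    -(2 * e) ≤ l * (Pi - Pj) ∧ l * (Pi - Pj) ≤ (1 - q + 6 * η) * l * (ni - nj) + 2 * e := by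
  have e0 : 0 ≤ e := (abs_nonneg _).trans ri
  have pi : 0 < l + ni := by linarith
  have pj : 0 < l + nj := by linarith
  have key : ∀ n R : ℝ, 0 ≤ n → |R| ≤ e → |l * (R / (l + n))| ≤ e := by
    intro n R hn hR
    have p : 0 < l + n := by linarith
    rw [abs_mul, abs_div, abs_of_pos l0, abs_of_pos p, ← mul_div_assoc, div_le_iff₀ p]
    nlinarith only [mul_le_mul_of_nonneg_left hR l0.le, mul_nonneg e0 hn, l0, e0, hn, hR]
  have k1 := abs_le.1 (key ni _ (by linarith) ri)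
  have k2 := abs_le.1 (key nj _ hj0 rj)
  have e1 : l * (Pi - Pj) = l * (ni - nj) * (S * l / ((l + ni) * (l + nj))) +
      l * (((l + ni) * Pi - ni * S) / (l + ni)) - l * (((l + nj) * Pj - nj * S) / (l + nj)) := by
    field_simp
    ring
  have a0 : 0 ≤ S * l / ((l + ni) * (l + nj)) := by positivity
  have a1 : S * l / ((l + ni) * (l + nj)) ≤ 1 - q + 6 * η := by
    rw [div_le_iff₀ (mul_pos pi pj)]
    have b1 : (1 - η / 3) * l ≤ (1 - q) * (l + nj) := by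
      nlinarith only [mul_le_mul_of_nonneg_left q3 (mul_pos h0 l0).le, l0, h0, q3, hj]
    have b2 : (1 - η / 3) * l ≤ (1 - q) * (l + ni) :=
      b1.trans (mul_le_mul_of_nonneg_left (by linarith) (by linarith))
    have b0 : 0 ≤ (1 - η / 3) * l := mul_nonneg (by linarith) l0.le
    have b3 := mul_le_mul b2 b1 b0 (b0.trans b2)
    have b4 : 1 + 5 * η ≤ (1 + 6 * η) * ((1 - η / 3) * (1 - η / 3)) := by
      nlinarith only [mul_pos h0 h0, mul_pos (mul_pos h0 h0) h0, h0, h1]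
    have b5 : (1 - q) * (S * l) ≤ (1 - q) * ((1 + 6 * η) * (1 - q) * ((l + ni) * (l + nj))) := by
      have c1 := mul_le_mul_of_nonneg_right hS l0.le
      have c2 := mul_le_mul_of_nonneg_right b4 (mul_pos l0 l0).le
      have c3 := mul_le_mul_of_nonneg_left b3 (show 0 ≤ 1 + 6 * η by linarith only [h0, h1])
      linarith only [c1, c2, c3]
    refine (le_of_mul_le_mul_left b5 (by linarith)).trans ?_
    refine mul_le_mul_of_nonneg_right ?_ (mul_pos pi pj).le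
    nlinarith only [mul_pos h0 q0, h0, q0]
  have d0 : 0 ≤ l * (ni - nj) := mul_nonneg l0.le (by linarith)
  have a2 := mul_nonneg d0 a0
  have a3 := mul_le_mul_of_nonneg_left a1 d0
  constructor <;> linarith only [k1, k2, e1, a2, a3]

lemma ABc_first {l η q μ s a b : ℝ} (l0 : 0 < l) (h0 : 0 < η) (h1 : 100 * η ≤ 1)
    (q0 : 0 < q) (q3 : q ≤ 1 / 3) (m0 : 0 ≤ μ) (hs : l * s = (1 - q) * μ)
    (lo : 2 * (1 - η) * q * l ≤ (1 - q) * (a + b)) (up : (1 - q) * (a + b) ≤ 2 * (1 + η) * q * l) :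
    2 * q * (1 - 2 * η) * μ ^ 2 ≤ 2 * s * μ * (a + b) - 2 * s ^ 2 * (a * b) - l * s ^ 2 * (a + b) := by
  obtain ⟨w, hw⟩ : ∃ w, w = s * (a + b) := ⟨_, rfl⟩
  have e1 : l * w = μ * ((1 - q) * (a + b)) := by rw [hw, ← mul_assoc, hs]; ring
  have w1 : 2 * (1 - η) * q * μ ≤ w := by
    refine le_of_mul_le_mul_left ?_ l0
    rw [e1]
    linarith [mul_le_mul_of_nonneg_left lo m0]
  have w2 : w ≤ 2 * (1 + η) * q * μ := by
    refine le_of_mul_le_mul_left ?_ l0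
    rw [e1]
    linarith [mul_le_mul_of_nonneg_left up m0]
  have w0 : 0 ≤ 2 * (1 - η) * q * μ := by
    have : 0 ≤ 1 - η := by linarith
    positivity
  have e2 : l * s ^ 2 * (a + b) = (1 - q) * μ * w := by rw [← hs, hw]; ring
  have e3 : 2 * s ^ 2 * (a * b) ≤ w ^ 2 / 2 := by
    rw [hw]
    nlinarith only [sq_nonneg (s * (a - b))]
  have e4 : 2 * s * μ * (a + b) = 2 * μ * w := by rw [hw]; ring
  have a1 : (1 - η) * μ ≤ (1 + q) * μ - w / 2 := by
    nlinarith only [mul_le_mul_of_nonneg_right (show q ≤ 1 by linarith) (mul_nonneg h0.le m0), h0, h1, q3, m0, w2]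
  have a2 := mul_le_mul w1 a1 (mul_nonneg (by linarith) m0) (w0.trans w1)
  rw [e2, e4]
  nlinarith only [mul_nonneg (mul_nonneg q0.le (sq_nonneg η)) (sq_nonneg μ), q0, e3, a2]

lemma ABc_second {η q t μ F : ℝ} (h0 : 0 < η) (h1 : 100 * η ≤ 1) (q0 : 0 < q) (q3 : q ≤ 1 / 3)
    (m0 : 0 ≤ μ) (m1 : μ ≤ (1 + η) * t) (f : 2 * q * (1 - 2 * η) * μ ^ 2 ≤ F) :
    -(2 * (1 - q + 10 * η) * t ^ 2) ≤ -2 * μ ^ 2 + F := by
  have b1 : μ ^ 2 ≤ ((1 + η) * t) ^ 2 := pow_le_pow_left₀ m0 m1 2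
  have b2 : 0 ≤ 1 - q + η := by linarith
  have b3 := mul_le_mul_of_nonneg_left b1 b2
  have b4 : (1 - q + η) * (1 + η) ^ 2 ≤ 1 - q + 10 * η := by
    have c1 : (1 + η) ^ 2 ≤ 1 + 3 * η := by nlinarith only [h0, h1]
    have c2 := mul_le_mul_of_nonneg_left c1 b2
    nlinarith only [mul_pos h0 q0, h0, q0, c1, c2]
  have b5 := mul_le_mul_of_nonneg_right b4 (sq_nonneg t)
  have b6 := mul_le_mul_of_nonneg_right q3 (mul_nonneg h0.le (sq_nonneg μ))
  have b7 := mul_nonneg h0.le (sq_nonneg μ)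
  linarith

lemma ABc_real {l η e q t μ s S Pi Pj ni nj : ℝ} (l0 : 0 < l) (h0 : 0 < η) (h1 : 100 * η ≤ 1)
    (q0 : 0 < q) (q3 : q ≤ 1 / 3) (hj0 : 0 ≤ nj) (hle : nj ≤ ni) (hS0 : 0 ≤ S) (t0 : 0 ≤ t)
    (m0 : 0 ≤ μ) (m1 : μ ≤ (1 + η) * t) (hs : l * s = (1 - q) * μ) (ht : 2 * t ≤ η * l)
    (hj : (1 - η) * q * l ≤ (1 - q) * nj) (hi : (1 - q) * ni ≤ (1 + η) * q * l)
    (hS : (1 - q) * S ≤ (1 + 5 * η) * l)
    (ri : |(l + ni) * Pi - ni * S| ≤ e) (rj : |(l + nj) * Pj - nj * S| ≤ e)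
    (rm : |l * μ - t * (S - Pj)| ≤ e) :
    -(2 * (1 - q + 10 * η) * l * (t * (ni - nj + t))) - 16 * t * e ≤
      l * (-2 * μ * (Pi - Pj) - 2 * μ ^ 2 +
        (2 * s * μ * ((ni + t) + (nj - t)) - 2 * s ^ 2 * ((ni + t) * (nj - t)) -
          l * s ^ 2 * ((ni + t) + (nj - t))) +
        2 * s * (2 * (l * μ - t * (S - Pj)) + t * (Pi - Pj)) +
        2 * s * (((l + ni) * Pi - ni * S) - ((l + nj) * Pj - nj * S))) := by
  have e0 : 0 ≤ e := (abs_nonneg _).trans ri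
  have hq : 0 ≤ 1 - q := by linarith
  obtain ⟨d1, d2⟩ := ABc_diff l0 h0 h1 q0 q3 hj0 hle hS0 hj hS ri rj
  have n1 := mul_le_mul_of_nonneg_left hle hq
  have f := ABc_first (a := ni + t) (b := nj - t) l0 h0 h1 q0 q3 m0 hs (by linarith) (by linarith)
  generalize 2 * s * μ * ((ni + t) + (nj - t)) - 2 * s ^ 2 * ((ni + t) * (nj - t)) -
    l * s ^ 2 * ((ni + t) + (nj - t)) = F at f
  obtain ⟨ri1, -⟩ := abs_le.1 ri
  obtain ⟨-, rj2⟩ := abs_le.1 rj
  obtain ⟨rm1, -⟩ := abs_le.1 rm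
  generalize (l + ni) * Pi - ni * S = A at *
  generalize (l + nj) * Pj - nj * S = B at *
  generalize l * μ - t * (S - Pj) = C at *
  generalize Pi - Pj = D at *
  have δ0 : 0 ≤ ni - nj := by linarith
  generalize ni - nj = δ at *
  have m2 : μ ≤ 101 / 100 * t := by nlinarith only [h1, t0, m1]
  have te : 0 ≤ t * e := mul_nonneg t0 e0
  have me : μ * e ≤ 101 / 100 * (t * e) := by linarith [mul_le_mul_of_nonneg_right m2 e0]
  have σ0 : 0 ≤ (1 - q) * μ := mul_nonneg hq m0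
  have σ1 : (1 - q) * μ * e ≤ μ * e :=
    mul_le_mul_of_nonneg_right (by linarith [mul_nonneg q0.le m0]) e0
  -- first term
  have a1 : μ * (l * D) ≤ (1 - q + 10 * η) * l * (t * δ) + 2 * (μ * e) := by
    have b1 := mul_le_mul_of_nonneg_left d2 m0
    have b2 : μ * (1 - q + 6 * η) ≤ t * (1 - q + 10 * η) := by
      have c1 := mul_le_mul_of_nonneg_right m1 (show 0 ≤ 1 - q + 6 * η by linarith)
      have c2 : (1 + η) * (1 - q + 6 * η) ≤ 1 - q + 10 * η := by nlinarith only [mul_pos h0 q0, h0, h1, q0]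
      linarith [mul_le_mul_of_nonneg_left c2 t0]
    linarith only [mul_le_mul_of_nonneg_right b2 (mul_nonneg l0.le δ0), l0, δ0, b1, b2]
  -- second and third terms
  have a2 := ABc_second h0 h1 q0 q3 m0 m1 f
  have a3 := mul_le_mul_of_nonneg_left a2 l0.le
  -- the error terms
  have a4 : -e ≤ t * D := by
    refine le_of_mul_le_mul_left ?_ l0
    have b1 := mul_le_mul_of_nonneg_left d1 t0
    have b2 := mul_le_mul_of_nonneg_right ht e0
    have b3 := mul_le_mul_of_nonneg_right (show η ≤ 1 by linarith) (mul_nonneg l0.le e0)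
    linarith
  have a5 := mul_le_mul_of_nonneg_left (show -(5 * e) ≤ 2 * C + t * D + (A - B) by linarith) σ0
  have e1 : l * (-2 * μ * D - 2 * μ ^ 2 + F + 2 * s * (2 * C + t * D) + 2 * s * (A - B)) =
      -2 * (μ * (l * D)) + l * (-2 * μ ^ 2 + F) +
        2 * ((1 - q) * μ * (2 * C + t * D + (A - B))) := by
    rw [← hs]
    ring
  rw [e1]
  linarith only [te, me, σ1, a1, a3, a5]

lemma ABc_aff (x : V → ℝ) (α β : ℝ) (c : V → ℕ) (k : ℕ) :
    Pc (fun v => α * x v + β) c k = α * Pc x c k + cn c k * β := by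
  rw [← Pc_const, Pc, Pc, Pc, mul_sum, ← sum_add_distrib]
  refine sum_congr rfl fun v _ => ?_
  split_ifs <;> simp

lemma ABc_congr {f g : V → ℝ} {k : ℕ} (h : ∀ v, c v = k → f v = g v) : Pc f c k = Pc g c k :=
  le_antisymm (Pc_mono fun v hv => (h v hv).le) (Pc_mono fun v hv => (h v hv).ge)

/-- base change -/
theorem base_change {G : SimpleGraph V} {x : V → ℝ} (hx : Eig G x) (hc : ∀ v, c v ≤ r)
    (hp : Proper G c) (hr : 3 ≤ r) {i j : ℕ} (hi : i ∈ Icc 1 r) (hj : j ∈ Icc 1 r) (hij : i ≠ j)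
    (hle : cn c j ≤ cn c i) {M : Finset V} (hM : ∀ v ∈ M, c v = j) {η e : ℝ} (h0 : 0 < η)
    (h1 : 100 * η ≤ 1) (l0 : 0 < lam G) (hxM : ∀ v ∈ M, |x v - 1| ≤ η)
    (hxT : ∀ v, c v ≠ 0 → 1 / 2 ≤ x v)
    (hs : ∀ l ∈ Icc 1 r, |((r : ℝ) - 1) * cn c l - lam G| ≤ η * lam G)
    (ht : ((r : ℝ) - 1) * M.card ≤ η * lam G)
    (hS : ((r : ℝ) - 1) * ∑ l ∈ Icc 1 r, Pc x c l ≤ (1 + 5 * η) * r * lam G)
    (he : ∑ v, op (Hm G c) x v + ∑ u ∈ Vp c 0, x u * dT G c u ≤ e) :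
    ∃ y : V → ℝ, (∀ v, 0 ≤ y v) ∧ (∀ v, c v = 0 → y v = 0) ∧
      (∀ v, c v ≠ 0 → lam G * |y v - x v| ≤ 2 * M.card) ∧
      lam G * Ph (Kc c) (lam G) (rT c x) - 2 * (1 - 1 / r + 10 * η) * lam G *
        (M.card * (cn c i - cn c j + M.card)) - 16 * M.card * e ≤
        lam G * Ph (Kc (mv c M i)) (lam G) y := by
  have hr' : (3 : ℝ) ≤ r := by exact_mod_cast hr
  have q3 : 1 / (r : ℝ) ≤ 1 / 3 := one_div_le_one_div_of_le (by norm_num) hr'
  have q0 : 0 < 1 / (r : ℝ) := by positivity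
  have q1 : (r : ℝ) * (1 / r) = 1 := mul_one_div_cancel (by positivity)
  generalize 1 / (r : ℝ) = q at *
  have qq : ((r : ℝ) - 1) * q = 1 - q := by linarith
  have i0 : i ≠ 0 := by have := (mem_Icc.1 hi).1; omega
  have j0 : j ≠ 0 := by have := (mem_Icc.1 hj).1; omega
  have ri := part_sum hx hc hp hi he
  have rj := part_sum hx hc hp hj he
  have rm := ABc_part hx hc hp hj he hM
  have t0 : (0 : ℝ) ≤ M.card := Nat.cast_nonneg _
  have m0 : 0 ≤ ∑ v ∈ M, x v := sum_nonneg fun v _ => hx.nonneg v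
  have m1 : ∑ v ∈ M, x v ≤ (1 + η) * M.card := by
    rw [mul_comm, ← nsmul_eq_mul]
    exact sum_le_card_nsmul _ _ _ fun v hv => by linarith [(abs_le.1 (hxM v hv)).2]
  have ht' : 2 * (M.card : ℝ) ≤ η * lam G :=
    le_trans (mul_le_mul_of_nonneg_right (by linarith) t0) ht
  obtain ⟨s, hs'⟩ : ∃ s, lam G * s = (1 - q) * ∑ v ∈ M, x v :=
    ⟨(1 - q) * (∑ v ∈ M, x v) / lam G, by field_simp⟩
  have σ0 : 0 ≤ lam G * s := hs' ▸ mul_nonneg (by linarith) m0
  have s0 : 0 ≤ s := (mul_nonneg_iff_of_pos_left l0).1 σ0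
  have σ1 : lam G * s ≤ 2 * M.card := by
    rw [hs']
    nlinarith only [mul_nonneg q0.le m0, h1, q0, m0, m1]
  have s1 : s ≤ 1 / 2 := by
    refine le_of_mul_le_mul_left ?_ l0
    nlinarith only [h0, h1, l0, ht', σ1]
  have key := ABc_real l0 h0 h1 q0 q3 (Nat.cast_nonneg _) (Nat.cast_le.2 hle)
    (sum_nonneg fun l _ => Pc_nonneg hx.nonneg c l) t0 m0 m1 hs' ht'
    (by
      have := mul_le_mul_of_nonneg_right (abs_le.1 (hs j hj)).1 q0.le
      rw [← qq]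
      linarith)
    (by
      have := mul_le_mul_of_nonneg_right (abs_le.1 (hs i hi)).2 q0.le
      rw [← qq]
      linarith)
    (by
      have := mul_le_mul_of_nonneg_right hS q0.le
      have e1 : (1 + 5 * η) * r * lam G * q = (1 + 5 * η) * lam G * (r * q) := by ring
      rw [e1, q1] at this
      rw [← qq]
      linarith) ri rj rm
  have z0 : ∀ v, mv c M i v = 0 ↔ c v = 0 := fun v => by
    unfold mv
    split_ifs with h
    · simp [i0, hM v h, j0]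
    · rfl
  obtain ⟨y, hy⟩ : ∃ y : V → ℝ, ∀ v, y v = rT c x v - (if mv c M i v = i then s else 0) +
    if mv c M i v = j then s else 0 := ⟨_, fun _ => rfl⟩
  have y0 : ∀ v, c v = 0 → y v = 0 := fun v h => by
    rw [hy, rT, if_pos h, (z0 v).2 h, if_neg i0.symm, if_neg j0.symm]
    ring
  have rx : ∀ v, mv c M i v ≠ 0 → rT c x v = x v := fun v h => if_neg fun a => h ((z0 v).2 a)
  have yi : ∀ v, mv c M i v = i → y v = 1 * x v + -s := fun v h => by
    rw [hy, rx v (h.trans_ne i0), h, if_pos rfl, if_neg hij]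
    ring
  have yj : ∀ v, mv c M i v = j → y v = 1 * x v + s := fun v h => by
    rw [hy, rx v (h.trans_ne j0), h, if_pos rfl, if_neg hij.symm]
    ring
  have yl : ∀ v, mv c M i v ≠ i → mv c M i v ≠ j → y v = rT c x v := fun v a b => by
    rw [hy, if_neg a, if_neg b]
    ring
  have yc : ∀ v, c v ≠ 0 → |y v - x v| ≤ s ∧ x v - s ≤ y v := fun v h => by
    by_cases a : mv c M i v = i
    · rw [yi v a, abs_le]
      refine ⟨⟨?_, ?_⟩, ?_⟩ <;> linarith
    by_cases b : mv c M i v = j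
    · rw [yj v b, abs_le]
      refine ⟨⟨?_, ?_⟩, ?_⟩ <;> linarith only [s0]
    · rw [yl v a b, rT, if_neg h, abs_le]
      refine ⟨⟨?_, ?_⟩, ?_⟩ <;> linarith only [s0]
  refine ⟨y, fun v => ?_, y0, fun v h => ?_, ?_⟩
  · by_cases h : c v = 0
    · rw [y0 v h]
    · linarith [(yc v h).2, hxT v h]
  · exact (mul_le_mul_of_nonneg_left (yc v h).1 l0.le).trans σ1
  obtain ⟨p1, p2, p3⟩ := ABc_Pc hij hM x
  obtain ⟨n1, n2, -⟩ := ABc_cn hij hM
  have u0 : ∀ l ∈ Icc 1 r, Pc (rT c x) c l = Pc x c l := fun l hl =>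
    ABc_congr fun v hv => if_neg (by have := (mem_Icc.1 hl).1; omega)
  have u1 : Pc y (mv c M i) i = Pc x c i + ∑ v ∈ M, x v - (cn c i + M.card) * s := by
    rw [ABc_congr yi, ABc_aff, p1, n1]
    ring
  have u2 : Pc y (mv c M i) j = Pc x c j - ∑ v ∈ M, x v + (cn c j - M.card) * s := by
    rw [ABc_congr yj, ABc_aff, p2, n2]
    ring
  have u3 : ∀ l ∈ Icc 1 r, l ≠ i → l ≠ j → Pc y (mv c M i) l = Pc x c l := fun l hl a b => by
    rw [← p3 l a b]
    refine ABc_congr fun v hv => ?_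
    rw [yl v (hv.trans_ne a) (hv.trans_ne b), rx v (by have := (mem_Icc.1 hl).1; omega)]
  have u4 : ∑ v, y v ^ 2 = ∑ v, rT c x v ^ 2 + Pc (fun v => -(2 * s) * x v + s ^ 2) (mv c M i) i +
      Pc (fun v => 2 * s * x v + s ^ 2) (mv c M i) j := by
    rw [Pc, Pc, ← sum_add_distrib, ← sum_add_distrib]
    refine sum_congr rfl fun v _ => ?_
    by_cases a : mv c M i v = i
    · rw [yi v a, rx v (a.trans_ne i0), if_pos a, if_neg (a.trans_ne hij)]
      ring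
    by_cases b : mv c M i v = j
    · rw [yj v b, rx v (b.trans_ne j0), if_neg a, if_pos b]
      ring
    · rw [yl v a b, if_neg a, if_neg b]
      ring
  rw [ABc_aff, ABc_aff, p1, p2, n1, n2] at u4
  have v1 : ∑ l ∈ Icc 1 r, Pc (rT c x) c l = ∑ l ∈ Icc 1 r, Pc x c l := sum_congr rfl u0
  have v2 : ∑ l ∈ Icc 1 r, Pc (rT c x) c l ^ 2 = ∑ l ∈ Icc 1 r, Pc x c l ^ 2 :=
    sum_congr rfl fun l hl => by rw [u0 l hl]
  have v3 := ABc_two hi hj hij u3
  have v4 := ABc_two hi hj hij (F := fun l => Pc x c l ^ 2) (F' := fun l => Pc y (mv c M i) l ^ 2)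
    fun l hl a b => by simp only [u3 l hl a b]
  rw [Ph, Ph, qf_Kc _ hc, qf_Kc _ (ABc_le hc M hi), u4, v1, v2, v3, v4, u1, u2]
  linarith only [key]

end Pool.Agent.P.MP_094db5_co

end
end

section

/-! Freeness of the targets for books and wheels. -/

set_option autoImplicit false
set_option linter.unusedSectionVars false

open Finset Classical

noncomputable section

namespace Pool.Agent.P.MP_094db5_co

variable {V : Type} [Fintype V] {r t q : ℕ} {c : V → ℕ} {H G : SimpleGraph V} {o w : V}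
  {S X : Finset V}

omit [Fintype V] in
lemma AFr_adj (u v : V) : (G ⊔ Sg w X).Adj u v ↔
    G.Adj u v ∨ u ≠ v ∧ (u = w ∧ v ∈ X ∨ v = w ∧ u ∈ X) := Iff.rfl

omit [Fintype V] in
lemma AFr_card {e : V → ℕ} (h2 : ∀ u v, G.Adj u v → e u ≠ e v) {n : ℕ} {K : Finset V}
    (hK : G.IsNClique n K) : (K.image e).card = n := by
  rw [← hK.card_eq]
  refine card_image_of_injOn fun u hu v hv huv => ?_
  by_contra hne
  exact h2 u v (hK.isClique hu hv hne) huv

omit [Fintype V] in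
lemma AFr_sub {e : V → ℕ} (h1 : ∀ u, e u ∈ Icc 1 r) (K : Finset V) : K.image e ⊆ Icc 1 r := by
  intro i hi
  obtain ⟨v, -, rfl⟩ := mem_image.1 hi
  exact h1 v

omit [Fintype V] in
lemma AFr_all {e : V → ℕ} (h1 : ∀ u, e u ∈ Icc 1 r) (h2 : ∀ u v, G.Adj u v → e u ≠ e v)
    {K : Finset V} (hK : G.IsNClique r K) (v : V) : ∃ u ∈ K, e u = e v := by
  have : K.image e = Icc 1 r := eq_of_subset_of_card_le (AFr_sub h1 K) (by
    rw [AFr_card h2 hK, Nat.card_Icc]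
    omega)
  exact mem_image.1 (this ▸ h1 v)

omit [Fintype V] in
lemma AFr_out {n : ℕ} {K : Finset V} (hK : (G ⊔ Sg w X).IsNClique n K) (hw : w ∉ K) :
    G.IsNClique n K := by
  refine ⟨fun u hu v hv huv => ?_, hK.card_eq⟩
  rcases (AFr_adj u v).1 (hK.isClique hu hv huv) with h | ⟨-, ⟨rfl, -⟩ | ⟨rfl, -⟩⟩
  exacts [h, (hw hu).elim, (hw hv).elim]

omit [Fintype V] in
lemma AFr_erase {n : ℕ} {K : Finset V} (hK : G.IsNClique (n + 1) K) (hw : w ∈ K) :
    G.IsNClique n (K.erase w) :=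
  ⟨hK.isClique.subset (coe_subset.2 (erase_subset _ _)), by
    rw [card_erase_of_mem hw, hK.card_eq, add_tsub_cancel_right]⟩

omit [Fintype V] in
lemma AFr_mem (hw : ∀ v, ¬ G.Adj w v) {v : V} (h : (G ⊔ Sg w X).Adj w v) : v ∈ X := by
  rcases (AFr_adj w v).1 h with h | ⟨h, ⟨-, h'⟩ | ⟨h', -⟩⟩
  exacts [(hw v h).elim, h', (h h'.symm).elim]

omit [Fintype V] in
lemma AFr_old {u v : V} (h : (G ⊔ Sg w X).Adj u v) (hu : u ≠ w) (hv : v ≠ w) : G.Adj u v := by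
  rcases (AFr_adj u v).1 h with h | ⟨-, ⟨h', -⟩ | ⟨h', -⟩⟩
  exacts [h, (hu h').elim, (hv h').elim]

omit [Fintype V] in
lemma AFr_iso (h : TgOK r c H o S w X) (v : V) : ¬ (Kc c \ H ⊔ Sg o S).Adj w v := by
  rintro (h' | ⟨-, ⟨h', -⟩ | ⟨-, h'⟩⟩)
  exacts [h'.1.1 h.w0, h.ow h'.symm, h.hS w h' h.w0]

omit [Fintype V] in
lemma AFr_three (hX : X.card ≤ 3) {a : V} (ha : a ∈ X) :
    ∃ b d, ∀ v ∈ X, v = a ∨ v = b ∨ v = d := by
  have : Nonempty V := ⟨a⟩
  have h1 := card_erase_of_mem ha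
  rcases (X.erase a).eq_empty_or_nonempty with h | ⟨b, hb⟩
  · refine ⟨a, a, fun v hv => Or.inl ?_⟩
    by_contra hn
    exact notMem_empty v (h ▸ mem_erase.2 ⟨hn, hv⟩)
  · have h2 := card_erase_of_mem hb
    obtain ⟨d, hd⟩ := card_le_one_iff_subset_singleton.1
      (show ((X.erase a).erase b).card ≤ 1 by omega)
    refine ⟨b, d, fun v hv => ?_⟩
    by_contra hn
    push Not at hn
    exact hn.2.2 (mem_singleton.1 (hd (mem_erase.2 ⟨hn.2.1, mem_erase.2 ⟨hn.1, hv⟩⟩)))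

theorem free_of_noBook (h : NoBook G r t) :
    (join (⊤ : SimpleGraph (Fin r)) (⊥ : SimpleGraph (Fin (t + 1)))).Free G := by
  rintro ⟨f⟩
  have a1 : G.IsNClique r (univ.image fun i => f (Sum.inl i)) := by
    refine ⟨fun a ha b hb hab => ?_, ?_⟩
    · obtain ⟨i, -, rfl⟩ := mem_image.1 ha
      obtain ⟨i', -, rfl⟩ := mem_image.1 hb
      exact f.toHom.map_rel (by simpa [join] using fun e : i = i' => hab (e ▸ rfl))
    · exact (card_image_of_injective _ fun _ _ e => Sum.inl_injective (f.injective e)).trans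
        (by simp)
  have a2 := h _ a1 (univ.image fun j => f (Sum.inr j)) fun v hv u hu => by
    obtain ⟨i, -, rfl⟩ := mem_image.1 hu
    obtain ⟨j, -, rfl⟩ := mem_image.1 hv
    exact f.toHom.map_rel (by simp [join])
  have a3 : (univ.image fun j : Fin (t + 1) => f (Sum.inr j)).card = t + 1 :=
    (card_image_of_injective _ fun _ _ e => Sum.inr_injective (f.injective e)).trans (by simp)
  omega

/-- no clique of size `r` inside `X` -/
theorem noBook0 {e : V → ℕ} (h1 : ∀ u, e u ∈ Icc 1 r) (h2 : ∀ u v, G.Adj u v → e u ≠ e v)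
    (hw : ∀ v, ¬ G.Adj w v) (hX : ∀ K ⊆ X, ¬ G.IsNClique r K) : NoBook (G ⊔ Sg w X) r t := by
  have key : (G ⊔ Sg w X).CliqueFree (r + 1) := by
    intro K hK
    by_cases h : w ∈ K
    · refine hX (K.erase w) (fun v hv => ?_) (AFr_out (AFr_erase hK h) (notMem_erase _ _))
      exact AFr_mem hw (hK.isClique h (mem_of_mem_erase hv) (ne_of_mem_erase hv).symm)
    · have a1 := AFr_card h2 (AFr_out hK h)
      have a2 := card_le_card (AFr_sub h1 K)
      rw [a1, Nat.card_Icc] at a2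
      omega
  exact fun K hK T hT => (noBook_of_cliqueFree key K hK T hT).trans (Nat.zero_le _)

/-- at most `t` neighbours in each class -/
theorem noBook1 {e : V → ℕ} (h1 : ∀ u, e u ∈ Icc 1 r) (h2 : ∀ u v, G.Adj u v → e u ≠ e v)
    (hw : ∀ v, ¬ G.Adj w v) (ht : 1 ≤ t) (hX : ∀ i, (X.filter fun v => e v = i).card ≤ t) :
    NoBook (G ⊔ Sg w X) r t := by
  intro K hK T hT
  by_cases h : w ∈ K
  · rcases T.eq_empty_or_nonempty with rfl | ⟨v₀, hv₀⟩
    · simp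
    refine le_trans (card_le_card fun v hv => mem_filter.2 ⟨AFr_mem hw (hT v hv w h), ?_⟩)
      (hX (e v₀))
    have a1 : (G ⊔ Sg w X).IsNClique (r + 1) (insert v K) :=
      hK.insert fun u hu => (hT v hv u hu).symm
    have a2 := AFr_out (AFr_erase a1 (mem_insert_of_mem h)) (notMem_erase _ _)
    obtain ⟨u, hu, hu'⟩ := AFr_all h1 h2 a2 v₀
    rcases mem_insert.1 (mem_of_mem_erase hu) with rfl | hu2
    · exact hu'
    · exact (h2 u v₀ (AFr_old (hT v₀ hv₀ u hu2) (ne_of_mem_erase hu) (hT v₀ hv₀ w h).ne') hu').elim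
  · refine le_trans (card_le_card (t := {w}) fun v hv => mem_singleton.2 ?_) (by simpa using ht)
    by_contra hn
    obtain ⟨u, hu, hu'⟩ := AFr_all h1 h2 (AFr_out hK h) v
    exact h2 u v (AFr_old (hT v hv u hu) (fun e => h (e ▸ hu)) hn) hu'

/-- two classes between which `X` spans no edge -/
theorem no_clique_of_pair {e : V → ℕ} (h1 : ∀ u, e u ∈ Icc 1 r)
    (h2 : ∀ u v, G.Adj u v → e u ≠ e v) {a b : V} (hab : e a ≠ e b) (hn : ¬ G.Adj a b)
    (ha : ∀ v ∈ X, e v = e a → v = a) (hb : ∀ v ∈ X, e v = e b → v = b) :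
    ∀ K ⊆ X, ¬ G.IsNClique r K := by
  intro K hKX hK
  obtain ⟨u, hu, hu'⟩ := AFr_all h1 h2 hK a
  obtain ⟨v, hv, hv'⟩ := AFr_all h1 h2 hK b
  obtain rfl := ha u (hKX hu) hu'
  obtain rfl := hb v (hKX hv) hv'
  exact hn (hK.isClique hu hv fun e => hab (e ▸ rfl))

theorem cls_book (hr : 3 ≤ r) (t : ℕ) : Cls r t (t + 1) fun G : SimpleGraph V => NoBook G r t := by
  refine ⟨fun G h => h.deg (by omega), fun G h => h.noPlus hr, fun G w a X hc hw hX ha hn => ?_⟩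
  obtain ⟨C⟩ := hc
  refine noBook0 (e := fun u => (C u : ℕ) + 1) (fun u => ?_) (fun u v huv e => ?_) hw
    fun K hKX hK => ?_
  · have := (C u).2
    rw [mem_Icc]
    omega
  · exact C.valid huv (Fin.ext (by omega))
  · have a1 : K = X := eq_of_subset_of_card_le hKX (hK.card_eq ▸ hX)
    subst a1
    obtain ⟨b, hb, hba⟩ := exists_mem_ne (s := K) (by rw [hK.card_eq]; omega) a
    exact hn b hb (hK.isClique ha hb hba.symm)

theorem cls_wheel (hq : 2 ≤ q) :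
    Cls 3 (2 * q) (2 * q + 3) fun G : SimpleGraph V => (Whl q).Free G := by
  refine ⟨fun G h => deg_of_free (by omega) h, fun G h => noPlus_of_free hq h,
    fun G w a X hc hw hX ha hn hf => ?_⟩
  obtain ⟨C⟩ := hc
  obtain ⟨u, g, W⟩ := win_of_copy hq (not_not.2 hf)
  obtain ⟨b, d, hbd⟩ := AFr_three hX ha
  have a0 : ∀ v, (if v = w then 0 else (C v : ℕ) + 1) = 0 → v = w := fun v hv => by
    by_contra hne
    rw [if_neg hne] at hv
    omega
  rcases W.uncol (c := fun v => if v = w then 0 else (C v : ℕ) + 1) (fun v => by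
      have := (C v).2
      split_ifs <;> omega) (fun x y hxy hx e => by
      have hx' : x ≠ w := fun e' => hx (if_pos e')
      have hy' : y ≠ w := fun e' => hx (e.trans (if_pos e'))
      simp only [if_neg hx', if_neg hy'] at e
      exact C.valid (AFr_old hxy hx' hy') (Fin.ext (by omega))) with e | ⟨m, e⟩
  · obtain rfl := a0 _ e
    exact W.not_hub fun v hv => hbd v (AFr_mem hw hv)
  · have e' := a0 _ e
    have b1 : (G ⊔ Sg w X).Adj w u := e' ▸ (W.hub (m + 2)).symm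
    have b2 : (G ⊔ Sg w X).Adj w (g (m + 1)) := e' ▸ (W.step (m + 1)).symm
    have b3 : (G ⊔ Sg w X).Adj w (g (m + 2 + 1)) := e' ▸ W.step (m + 2)
    have c1 := AFr_mem hw b1
    have c2 := AFr_mem hw b2
    have c3 := AFr_mem hw b3
    have d2 := AFr_old (W.hub (m + 1)) b1.ne' b2.ne'
    have d3 := AFr_old (W.hub (m + 2 + 1)) b1.ne' b3.ne'
    have e1 : u ≠ a := fun e => hn _ c2 (e ▸ d2)
    have e2 : g (m + 1) ≠ a := fun e => hn _ c1 (e ▸ d2.symm)
    have e3 : g (m + 2 + 1) ≠ a := fun e => hn _ c1 (e ▸ d3.symm)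
    have := hbd _ c1
    have := hbd _ c2
    have := hbd _ c3
    have := d2.ne
    have := d3.ne
    have : g (m + 1) ≠ g (m + 2 + 1) := W.d2 (m + 1)
    grind

theorem TgOK.freeA (h : TgOK r c H o ∅ w X) (hr : 1 ≤ r) (ho : o ∉ X) {a b : V} (hab : H.Adj a b)
    (ha : ∀ v ∈ X, c v = c a → v = a) (hb : ∀ v ∈ X, c v = c b → v = b) :
    NoBook (Tg c H o ∅ w X) r t := by
  obtain ⟨e, e1, e2, -, e4⟩ := h.labels (l := 1) (mem_Icc.2 ⟨le_rfl, hr⟩) (by simp)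
  obtain ⟨c1, c2, c3⟩ : cross c a b := h.hH hab
  have a1 : ∀ v ∈ X, e v = c v := fun v hv =>
    e2 v ((h.hX v hv).resolve_right fun e' => ho (e' ▸ hv))
  refine noBook0 e1 e4 (AFr_iso h) (no_clique_of_pair e1 e4 (a := a) (b := b) ?_ ?_ ?_ ?_)
  · rwa [e2 a c1, e2 b c2]
  · rintro (h' | ⟨-, ⟨-, h'⟩ | ⟨-, h'⟩⟩)
    exacts [h'.2 hab, notMem_empty _ h', notMem_empty _ h']
  · exact fun v hv e' => ha v hv (by rw [← a1 v hv, e', e2 a c1])
  · exact fun v hv e' => hb v hv (by rw [← a1 v hv, e', e2 b c2])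

theorem TgOK.freeB0 (h : TgOK r c H o S w X) {l : ℕ} (hl : l ∈ Icc 1 r) (hS : ∀ v ∈ S, c v ≠ l)
    (hX : ∀ v ∈ X, c v ≠ l) {b : V} (h0 : c b ≠ 0) (hbl : c b ≠ l) (hbS : b ∉ S)
    (hb : ∀ v ∈ X, c v = c b → v = b) : NoBook (Tg c H o S w X) r t := by
  obtain ⟨e, e1, e2, e3, e4⟩ := h.labels hl hS
  refine noBook0 e1 e4 (AFr_iso h) (no_clique_of_pair e1 e4 (a := o) (b := b) ?_ ?_ ?_ ?_)
  · rw [e3, e2 b h0]
    exact hbl.symm
  · rintro (h' | ⟨-, ⟨-, h'⟩ | ⟨-, h'⟩⟩)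
    exacts [h'.1.1 h.o0, hbS h', h.hS o h' h.o0]
  · intro v hv e'
    refine (h.hX v hv).resolve_left fun hc => hX v hv ?_
    rw [← e2 v hc, e', e3]
  · intro v hv e'
    rcases h.hX v hv with hc | rfl
    · exact hb v hv (by rw [← e2 v hc, e', e2 b h0])
    · exact (hbl (by rw [← e2 b h0, ← e', e3])).elim

theorem TgOK.freeB1 (h : TgOK r c H o S w X) (ht : 1 ≤ t) (ho : o ∉ X) {l : ℕ} (hl : l ∈ Icc 1 r)
    (hS : ∀ v ∈ S, c v ≠ l) (hX : ∀ i, (X.filter fun v => c v = i).card ≤ t) :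
    NoBook (Tg c H o S w X) r t := by
  obtain ⟨e, e1, e2, -, e4⟩ := h.labels hl hS
  refine noBook1 e1 e4 (AFr_iso h) ht fun i => le_trans (le_of_eq ?_) (hX i)
  congr 1
  refine filter_congr fun v hv => ?_
  rw [e2 v ((h.hX v hv).resolve_right fun e' => ho (e' ▸ hv))]

omit [Fintype V] in
theorem Trans.filter_le (h : Trans r c X) (i : ℕ) : (X.filter fun v => c v = i).card ≤ 1 := by
  refine card_le_one.2 fun u hu v hv => ?_
  rw [mem_filter] at hu hv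
  exact h.2.2 u hu.1 v hv.1 (hu.2.trans hv.2.symm)

/-- two adjacent new vertices with the same two neighbours -/
theorem TgOK.freeW2 {a b : V} (h : TgOK 3 c H o {a, b} w {o, a, b}) (hq : 2 ≤ q) :
    (Whl q).Free (Tg c H o {a, b} w {o, a, b}) := by
  intro hn
  obtain ⟨u, g, W⟩ := win_of_copy hq (not_not.2 hn)
  have h0 := h.ow
  have h1 := h.o0
  have h2 := h.w0
  have h3 : c a ≠ 0 := h.hS a (by simp)
  have h4 : c b ≠ 0 := h.hS b (by simp)
  have a1 : ∀ x y, (Tg c H o {a, b} w {o, a, b}).Adj x y → c x = 0 →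
      x = w ∧ (y = o ∨ y = a ∨ y = b) ∨ x = o ∧ (y = w ∨ y = a ∨ y = b) := fun x y hxy hx => by
    rw [Tg_adj] at hxy
    simp only [mem_insert, mem_singleton, cross] at hxy
    grind
  have hp : Proper (Tg c H o {a, b} w {o, a, b}) c := fun x y hxy hx => by
    rw [Tg_adj] at hxy
    simp only [cross] at hxy
    grind
  have a2 : c u ≠ 0 := fun e => by
    rcases a1 _ _ (W.hub 0) e with e' | e'
    · exact W.not_hub (a := o) (b := a) (d := b) fun v hv => by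
        have := a1 _ _ hv e
        grind
    · exact W.not_hub (a := w) (b := a) (d := b) fun v hv => by
        have := a1 _ _ hv e
        grind
  obtain ⟨m, e⟩ := (W.uncol h.le hp).resolve_left a2
  have b1 := a1 _ _ (W.hub (m + 2)).symm e
  have b2 := a1 _ _ (W.step (m + 1)).symm e
  have b3 := a1 _ _ (W.step (m + 2)) e
  have := (W.hub (m + 1)).ne
  have := (W.hub (m + 3)).ne
  have := W.d2 (m + 1)
  have b4 : c (g (m + 1)) = 0 ∨ c (g (m + 3)) = 0 := by grind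
  rcases b4 with b4 | b4
  · have := a1 _ _ (W.hub (m + 1)).symm b4
    have := a1 _ _ (W.step m).symm b4
    have := (W.step (m + 1)).ne
    have := (W.hub m).ne
    have := W.d2 m
    have := W.d3 m
    grind
  · have := a1 _ _ (W.hub (m + 3)).symm b4
    have := a1 _ _ (W.step (m + 3)) b4
    have := (W.step (m + 2)).ne
    have := (W.hub (m + 4)).ne
    have := W.d2 (m + 2)
    have := W.d3 (m + 1)
    grind

theorem admW2 {a b : V} (hq : 2 ≤ q) (hc : ∀ v, c v ≤ 3) (hH : H ≤ Kc c)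
    (hb : ∀ i ∈ Icc 1 3, 2 * ec H < cn c i) (ho : c o = 0) (hw : c w = 0) (how : o ≠ w)
    (h1 : cross c a b) :
    Adm 3 (fun G : SimpleGraph V => (Whl q).Free G) c H o {a, b} w {o, a, b} := by
  obtain ⟨c1, c2, c3⟩ := h1
  have ok : TgOK 3 c H o {a, b} w {o, a, b} := ⟨hc, hH, ho, hw, how, fun v hv => by
    simp only [mem_insert, mem_singleton] at hv
    grind, fun v hv => by
    simp only [mem_insert, mem_singleton] at hv
    grind⟩
  have a1 : ∀ i ∈ Icc 1 3, i ≠ 6 - c a - c b → c a = i ∨ c b = i := fun i hi hl => by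
    have := mem_Icc.1 hi
    have := hc a
    have := hc b
    omega
  refine ⟨ok, ok.freeW2 hq, ok.nc2 hb (by simp) (l := 6 - c a - c b) (fun i hi hl => ?_)
    fun i hi hl => ?_⟩
  · rcases a1 i hi hl with e | e
    exacts [⟨a, by simp, e⟩, ⟨b, by simp, e⟩]
  · rcases a1 i hi hl with e | e
    exacts [⟨a, by simp, e⟩, ⟨b, by simp, e⟩]

theorem admW1 {a b e : V} (hq : 2 ≤ q) (hc : ∀ v, c v ≤ 3) (hH : H ≤ Kc c)
    (hb : ∀ i ∈ Icc 1 3, 2 * ec H < cn c i) (ho : c o = 0) (hw : c w = 0) (how : o ≠ w)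
    (h1 : H.Adj a b) (h2 : H.Adj a e) (h3 : c b ≠ c e) (hS : ∀ v ∈ S, c v ≠ 0) (hS2 : S.card ≤ 2) :
    Adm 3 (fun G : SimpleGraph V => (Whl q).Free G) c H o S w {a, b, e} := by
  obtain ⟨c1, c2, c3⟩ : cross c a b := hH h1
  obtain ⟨-, c4, c5⟩ : cross c a e := hH h2
  have ok : TgOK 3 c H o S w {a, b, e} := ⟨hc, hH, ho, hw, how, hS, fun v hv => by
    simp only [mem_insert, mem_singleton] at hv
    grind⟩
  obtain ⟨l, hl, hl'⟩ := exists_mem_notMem_of_card_lt_card (s := S.image c) (t := Icc 1 3)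
    (card_image_le.trans_lt (by simp; omega))
  refine ⟨ok, ok.gad (cls_wheel hq) hl (fun v hv e' => hl' (mem_image.2 ⟨v, hv, e'⟩))
    card_le_three (a := a) (by simp) fun y hy hay => ?_, ok.nc1 hb fun i hi => ?_⟩
  · rw [Tg_adj] at hay
    simp only [mem_insert, mem_singleton, cross] at hay hy
    grind
  · have := mem_Icc.1 hi
    have := hc a
    have := hc b
    have := hc e
    have : c a = i ∨ c b = i ∨ c e = i := by omega
    rcases this with e' | e' | e'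
    exacts [⟨a, by simp, e'⟩, ⟨b, by simp, e'⟩, ⟨e, by simp, e'⟩]

theorem admA (hc : ∀ v, c v ≤ r) (hH : H ≤ Kc c) (hb : ∀ i ∈ Icc 1 r, 2 * ec H < cn c i)
    (ho : c o = 0) (hw : c w = 0) (how : o ≠ w) (h0 : ∀ v ∈ X, c v ≠ 0)
    (hX : ∀ i ∈ Icc 1 r, ∃ v ∈ X, c v = i) {a b : V} (hab : H.Adj a b)
    (ha : ∀ v ∈ X, c v = c a → v = a) (hb' : ∀ v ∈ X, c v = c b → v = b) :
    Adm r (fun G : SimpleGraph V => NoBook G r t) c H o ∅ w X := by
  have ok : TgOK r c H o ∅ w X := ⟨hc, hH, ho, hw, how, by simp, fun v hv => Or.inl (h0 v hv)⟩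
  have c1 : c a ≠ 0 := (hH hab).1
  have := hc a
  exact ⟨ok, ok.freeA (by omega) (fun e => h0 o e ho) hab ha hb', ok.nc1 hb hX⟩

theorem admB1 (ht : 1 ≤ t) (hc : ∀ v, c v ≤ r) (hH : H ≤ Kc c)
    (hb : ∀ i ∈ Icc 1 r, 2 * ec H < cn c i) (ho : c o = 0) (hw : c w = 0) (how : o ≠ w) {l : ℕ}
    (hl : l ∈ Icc 1 r) (hS : S ⊆ Out c l) (h0 : ∀ v ∈ X, c v ≠ 0)
    (hX : ∀ i ∈ Icc 1 r, ∃ v ∈ X, c v = i) (hX' : ∀ i, (X.filter fun v => c v = i).card ≤ t) :
    Adm r (fun G : SimpleGraph V => NoBook G r t) c H o S w X := by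
  have ok : TgOK r c H o S w X := ⟨hc, hH, ho, hw, how, fun v hv => (mem_Out.1 (hS hv)).1,
    fun v hv => Or.inl (h0 v hv)⟩
  exact ⟨ok, ok.freeB1 ht (fun e => h0 o e ho) hl (fun v hv => (mem_Out.1 (hS hv)).2) hX',
    ok.nc1 hb hX⟩

end Pool.Agent.P.MP_094db5_co

end
end
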