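import Pool.Agent.P.MP_094db5_co.XA2

section

/-! Absorbing the unlabelled vertices of almost full degree. -/

set_option autoImplicit false

open Finset Classical

noncomputable section

namespace Pool.Agent.P.MP_094db5_co

variable {V : Type} [Fintype V] {r : ℕ} {G : SimpleGraph V} {x : V → ℝ} {ξ C η : ℝ} {c : V → ℕ}
  {Z : Finset V}

theorem St1.out_size (h : St1 r G x ξ C η c Z) (hr : 2 ≤ r) {l : ℕ} (hl : l ∈ Icc 1 r) :
    |((Out c l).card : ℝ) - lam G| ≤ η * lam G := by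
  have hr' : (2 : ℝ) ≤ r := by exact_mod_cast hr
  have hc : (((Icc 1 r).erase l).card : ℝ) = r - 1 := by
    rw [card_erase_of_mem hl, Nat.card_Icc, Nat.add_sub_cancel, Nat.cast_sub (by omega)]
    norm_num
  have e : ((r : ℝ) - 1) * (((Out c l).card : ℝ) - lam G) =
      ∑ i ∈ (Icc 1 r).erase l, (((r : ℝ) - 1) * cn c i - lam G) := by
    rw [card_Out h.le, sum_sub_distrib, ← mul_sum, sum_const, nsmul_eq_mul, hc]
    push_cast
    ring
  have a : |∑ i ∈ (Icc 1 r).erase l, (((r : ℝ) - 1) * cn c i - lam G)| ≤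
      ((r : ℝ) - 1) * (η * lam G) := by
    refine (abs_sum_le_sum_abs _ _).trans ?_
    refine (sum_le_sum fun i hi => h.size i (mem_of_mem_erase hi)).trans ?_
    rw [sum_const, nsmul_eq_mul, hc]
  rw [← e, abs_mul, abs_of_pos (by linarith : (0 : ℝ) < r - 1)] at a
  exact le_of_mul_le_mul_left a (by linarith)

theorem St1.sum_W (h : St1 r G x ξ C η c Z) (l0 : 0 < lam G) :
    ∑ u ∈ Vp c 0, x u ≤ 2 * C ^ 2 := by
  have c0 : 0 ≤ C := by
    have : (0 : ℝ) ≤ C * lam G := (Nat.cast_nonneg _).trans h.hE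
    exact nonneg_of_mul_nonneg_left this l0
  have a1 : lam G * ∑ u ∈ Vp c 0, x u = ∑ u ∈ Vp c 0, op (Xe G c) x u := by
    rw [mul_sum]
    refine sum_congr rfl fun u hu => ?_
    rw [← h.eig.eig u]
    refine sum_congr rfl fun v _ => ?_
    have : (Xe G c).Adj u v ↔ G.Adj u v := ⟨fun a => a.1, fun a => ⟨a, Or.inl (mem_Vp.1 hu)⟩⟩
    simp only [ad, this]
  have a2 : ∑ u ∈ Vp c 0, op (Xe G c) x u ≤ ∑ u, op (Xe G c) x u :=
    sum_le_sum_of_subset_of_nonneg (subset_univ _) fun u _ _ => op_nonneg h.eig.nonneg u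
  have a3 : ∑ u, op (Xe G c) x u ≤ 2 * ec (Xe G c) * C := sum_op_le fun u _ _ => h.xm u
  have a4 := mul_le_mul_of_nonneg_right h.hE c0
  refine le_of_mul_le_mul_left ?_ l0
  nlinarith only [a1, a2, a3, a4]

/-- weight of a set of labelled vertices -/
theorem St1.sum_set (h : St1 r G x ξ C η c Z) (h0 : 0 ≤ η) (h1 : ξ ≤ 1) (h2 : 0 ≤ ξ)
    {S : Finset V} (hS : ∀ v ∈ S, c v ≠ 0) :
    |∑ v ∈ S, x v - S.card| ≤ η * S.card + η * lam G := by
  have _ := h2
  have e : ∑ v ∈ S, x v - S.card = ∑ v ∈ S, (x v - 1) := by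
    rw [sum_sub_distrib, sum_const, nsmul_eq_mul, mul_one]
  have a1 : ∑ v ∈ S, |x v - 1| ≤ ∑ v ∈ S, (η + if v ∈ Z then 1 else 0) := by
    refine sum_le_sum fun v hv => ?_
    split_ifs with hz
    · linarith [h.typ v (hS v hv)]
    · linarith [h.good v (hS v hv) hz]
  have a2 : ∑ v ∈ S, (if v ∈ Z then (1 : ℝ) else 0) ≤ Z.card := by
    rw [sum_boole]
    exact_mod_cast card_le_card fun v hv => (mem_filter.1 hv).2
  rw [sum_add_distrib, sum_const, nsmul_eq_mul] at a1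
  rw [e]
  linarith [abs_sum_le_sum_abs (fun v => x v - 1) S, h.zc]

omit [Fintype V] in
lemma AAbs_card_le {A B D : Finset V} (h : A ⊆ B ∪ D) : (A.card : ℝ) ≤ B.card + D.card := by
  exact_mod_cast (card_le_card h).trans (card_union_le _ _)

lemma AAbs_num {r' l : ℝ} (hr : 3 ≤ r') (hC : 1 ≤ C) (h0 : 0 < η) (h1 : 100 * r' * ξ ≤ 1)
    (h2 : 100 * r' * C ^ 2 * η ≤ ξ) (hb : 1 ≤ η ^ 3 * l) :
    0 < l ∧ 300 * η ≤ ξ ∧ 300 * ξ ≤ 1 ∧ 2 * (r' * C) ≤ η * l ∧ 2 * C ^ 2 ≤ η * l := by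
  have l0 : 0 < l := by
    by_contra hn
    have := mul_nonpos_of_nonneg_of_nonpos (pow_pos h0 3).le (not_lt.1 hn)
    linarith
  have c2 : C ≤ C ^ 2 := by nlinarith
  have k1 : 3 ≤ r' * C ^ 2 := by nlinarith
  have a1 : 300 * η ≤ ξ := by nlinarith
  have a2 : 300 * ξ ≤ 1 := by nlinarith only [hr, h0, h1, a1]
  have a3 : 2 * (r' * C ^ 2) * η ^ 2 ≤ η * l * η ^ 2 := by
    have b1 : r' * C ^ 2 * η ≤ 1 := by nlinarith only [h0, h2, a1, a2]
    have b2 : r' * C ^ 2 * η * η ≤ 1 * η := mul_le_mul_of_nonneg_right b1 h0.le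
    nlinarith only [h0, hb, a1, a2, b2]
  have a4 : 2 * (r' * C ^ 2) ≤ η * l := le_of_mul_le_mul_right a3 (pow_pos h0 2)
  refine ⟨l0, a1, a2, ?_, ?_⟩
  · nlinarith only [hr, c2, a4]
  · nlinarith only [hr, h0, k1, a1, a2, a4]

lemma AAbs_op_Ww (hx : ∀ v, 0 ≤ x v) (u : V) : op (Ww G c) x u ≤ ∑ v ∈ Vp c 0, x v := by
  rw [Vp, sum_filter]
  refine sum_le_sum fun v _ => ?_
  unfold ad
  by_cases a : (Ww G c).Adj u v
  · rw [if_pos a, if_pos a.2.2, one_mul]
  · rw [if_neg a, zero_mul]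
    split_ifs
    exacts [hx v, le_rfl]

lemma AAbs_ec {H H' : SimpleGraph V} {A : Finset V} {d : ℝ}
    (h : ∀ u v, H'.Adj u v → u ∉ A → v ∉ A → H.Adj u v)
    (hd : ∀ u ∈ A, ((univ.filter fun v => H'.Adj u v).card : ℝ) ≤ d) :
    (ec H' : ℝ) ≤ ec H + A.card * d := by
  have a1 : S2 (fun u v => if u ∈ A then ad H' u v else 0) ≤ A.card * d := by
    calc S2 (fun u v => if u ∈ A then ad H' u v else 0) ≤ ∑ u, if u ∈ A then d else 0 := by
          refine sum_le_sum fun u _ => ?_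
          split_ifs with hu
          · refine le_trans (le_of_eq ?_) (hd u hu)
            simp [ad, hu]
          · simp [hu]
      _ = A.card * d := by rw [sum_ite_mem, univ_inter, sum_const, nsmul_eq_mul]
  have a2 : S2 (fun u v => if u ∈ A then ad H' u v else 0) =
      S2 (fun u v => if v ∈ A then ad H' u v else 0) := by
    rw [S2_comm]
    exact S2_congr fun u v => by rw [ad_comm]
  have a3 : Mo H' ≤ Mo H + S2 (fun u v => if u ∈ A then ad H' u v else 0) +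
      S2 (fun u v => if v ∈ A then ad H' u v else 0) := by
    rw [Mo, Mo, S2_add, S2_add]
    refine S2_mono fun u v => ?_
    have b1 := ad_nonneg H u v
    have b2 := ad_nonneg H' u v
    by_cases hu : u ∈ A <;> by_cases hv : v ∈ A <;> simp only [hu, hv, if_true, if_false]
    · linarith
    · linarith
    · linarith
    · unfold ad
      by_cases a : H'.Adj u v
      · rw [if_pos a, if_pos (h u v a hu hv)]
        norm_num
      · rw [if_neg a]
        split_ifs <;> norm_num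
  rw [Mo_ec, Mo_ec] at a3
  linarith

theorem absorb (h : St1 r G x (19 / 20 * ξ) C η c Z) (hp : Pre r G (19 / 20 * ξ) η c)
    (hr : 3 ≤ r) (hC : 1 ≤ C) (h0 : 0 < η) (h1 : 100 * r * ξ ≤ 1)
    (h2 : 100 * r * C ^ 2 * η ≤ ξ) : ∃ c' Z', St1 r G x ξ (2 * C) (2 * η) c' Z' ∧
      ∀ u, c' u = 0 → (dT G c' u : ℝ) ≤ (1 - 9 / 10 * ξ) * lam G := by
  have hr' : (3 : ℝ) ≤ r := by exact_mod_cast hr
  obtain ⟨l0, n1, n2, n3, n4⟩ := AAbs_num hr' hC h0 h1 h2 h.big
  have hl1 : 300 * (η * lam G) ≤ ξ * lam G := by nlinarith only [l0, n1]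
  have hl2 : 300 * (ξ * lam G) ≤ lam G := by nlinarith only [h1, hr', l0, n4, hl1]
  have hl0 : 0 < η * lam G := mul_pos h0 l0
  have n5 : 2 * C ≤ η * lam G := by nlinarith only [hC, h0, hr', n1, n2, n3, n4]
  choose i hi hE1 using hp.E1
  obtain ⟨A, hA⟩ : ∃ A : Finset V, ∀ u, u ∈ A ↔
      c u = 0 ∧ (1 - 23 / 25 * ξ) * lam G < dT G c u :=
    ⟨univ.filter fun u => c u = 0 ∧ (1 - 23 / 25 * ξ) * lam G < dT G c u, fun u => by simp⟩
  have hAc : (A.card : ℝ) ≤ 2 * C := by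
    have a1 : (A.card : ℝ) * (lam G / 2) ≤ ∑ u ∈ A, (dT G c u : ℝ) := by
      rw [← nsmul_eq_mul, ← sum_const]
      exact sum_le_sum fun u hu => by linarith only [((hA u).1 hu).2, hC, h0, n1, n2, hl1, hl2, n5]
    have a2 : ∑ u ∈ A, dT G c u ≤ ec (Xe G c) := by
      rw [ec_Xe]
      exact (sum_le_sum_of_subset fun u hu => mem_Vp.2 ((hA u).1 hu).1).trans (Nat.le_add_right _ _)
    have a3 : ∑ u ∈ A, (dT G c u : ℝ) ≤ ec (Xe G c) := by exact_mod_cast a2
    refine le_of_mul_le_mul_right ?_ (half_pos l0)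
    linarith only [h.hE, a1, a3]
  obtain ⟨c', hin, hout⟩ : ∃ c' : V → ℕ, (∀ u ∈ A, c' u = i u) ∧ ∀ u ∉ A, c' u = c u :=
    ⟨fun u => if u ∈ A then i u else c u, fun u hu => if_pos hu, fun u hu => if_neg hu⟩
  have hz : ∀ u, c' u = 0 → u ∉ A ∧ c u = 0 := fun u hu => by
    by_cases a : u ∈ A
    · have := (mem_Icc.1 (hi u)).1
      rw [hin u a] at hu
      omega
    · exact ⟨a, hout u a ▸ hu⟩
  have hle : ∀ u, c' u ≤ r := fun u => by
    by_cases a : u ∈ A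
    · rw [hin u a]
      exact (mem_Icc.1 (hi u)).2
    · rw [hout u a]
      exact h.le u
  -- degrees and missing pairs of the absorbed vertices
  have hdeg : ∀ u, (dT G c u : ℝ) ≤ η * lam G + ((Out c (i u)).filter fun v => G.Adj u v).card :=
    fun u => by
      refine le_trans (AAbs_card_le (B := univ.filter fun v => c v = i u ∧ G.Adj u v)
        (D := (Out c (i u)).filter fun v => G.Adj u v) fun v hv => ?_) (by linarith [hE1 u])
      obtain ⟨a, b⟩ := mem_nT.1 hv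
      by_cases e : c v = i u <;> simp [a, b, e]
  have hsplit : ∀ u, (((Out c (i u)).filter fun v => G.Adj u v).card : ℝ) +
      ((Out c (i u)).filter fun v => ¬ G.Adj u v).card ≤ lam G + η * lam G := fun u => by
    have a1 := (abs_le.1 (h.out_size (by omega) (hi u))).2
    have a2 := card_filter_add_card_filter_not (s := Out c (i u)) (fun v => G.Adj u v)
    have a3 : (((Out c (i u)).filter fun v => G.Adj u v).card : ℝ) +
      ((Out c (i u)).filter fun v => ¬ G.Adj u v).card = (Out c (i u)).card := by exact_mod_cast a2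
    linarith
  have hmiss : ∀ u ∈ A, (((Out c (i u)).filter fun v => ¬ G.Adj u v).card : ℝ) ≤ ξ * lam G :=
    fun u hu => by linarith only [hdeg u, hsplit u, ((hA u).1 hu).2, hC, h0, n1, n2, hl1, n5]
  have hm2 : ∀ u, c' u ≠ 0 → ∀ j ∈ Icc 1 r, j ≠ c' u →
      ((univ.filter fun w => c w = j ∧ ¬ G.Adj u w).card : ℝ) ≤ 2 * (ξ * lam G) :=
    fun u hu j hj hne => by
      have j1 := (mem_Icc.1 hj).1
      by_cases a : u ∈ A
      · rw [hin u a] at hne
        refine le_trans ?_ ((hmiss u a).trans (by linarith))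
        refine Nat.cast_le.2 (card_le_card fun w hw => ?_)
        obtain ⟨b1, b2⟩ := (mem_filter.1 hw).2
        exact mem_filter.2 ⟨mem_Out.2 ⟨by omega, by omega⟩, b2⟩
      · rw [hout u a] at hne hu
        refine le_trans ?_ ((hp.miss u).trans (by linarith only [hC, h0, n1, n2, hl1, n5]))
        refine Nat.cast_le.2 (card_le_card fun w hw => ?_)
        obtain ⟨b1, b2⟩ := (mem_filter.1 hw).2
        exact mem_filter.2 ⟨mem_univ _, Hm_adj.2 ⟨⟨hu, by omega, by omega⟩, b2⟩⟩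
  refine ⟨c', Z ∪ A, ⟨h.eig, hle, ?_, ?_, ?_, ?_, ?_, ?_, ?_, ?_, ?_⟩, ?_⟩
  · intro u v huv hu e
    obtain ⟨j, hj, hne, hcom⟩ := hp.E2 u v huv (c' u) (mem_Icc.2 ⟨by omega, hle u⟩)
    have a1 := hm2 u hu j hj hne
    have a2 := hm2 v (e ▸ hu) j hj (e ▸ hne)
    have a3 : (cn c j : ℝ) ≤ ((univ.filter fun w => c w = j ∧ G.Adj u w ∧ G.Adj v w) ∪
        univ.filter fun w => c w = j ∧ ¬ G.Adj u w).card +
        (univ.filter fun w => c w = j ∧ ¬ G.Adj v w).card := by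
      refine AAbs_card_le fun w hw => ?_
      have b := (mem_filter.1 hw).2
      by_cases b1 : G.Adj u w <;> by_cases b2 : G.Adj v w <;> simp [b, b1, b2]
    have a4 := AAbs_card_le (Subset.refl ((univ.filter fun w => c w = j ∧ G.Adj u w ∧ G.Adj v w) ∪
        univ.filter fun w => c w = j ∧ ¬ G.Adj u w))
    have a5 : (cn c j : ℝ) ≤ 5 * (ξ * lam G) := by linarith only [hC, h0, n1, n2, hl1, n5, hcom, a1, a2, a3, a4]
    have a6 := (abs_le.1 (h.size j hj)).1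
    have a7 : ((r : ℝ) - 1) * cn c j ≤ r * (5 * (ξ * lam G)) :=
      mul_le_mul (by linarith) a5 (Nat.cast_nonneg _) (by linarith)
    have a8 := mul_le_mul_of_nonneg_right h1 l0.le
    linarith
  · intro u hu
    by_cases a : u ∈ A
    · obtain ⟨b1, b2⟩ := (hA u).1 a
      have a1 := h.eig.eig u
      rw [op_split0 x b1] at a1
      have a2 := abs_le.1 (h.sum_set h0.le (by linarith only [h0, n1, n2]) (by linarith) (S := nT G c u)
        fun v hv => (mem_nT.1 hv).2)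
      have a3 := (AAbs_op_Ww (G := G) (c := c) h.eig.nonneg u).trans (h.sum_W l0)
      have a4 : 0 ≤ op (Ww G c) x u := op_nonneg h.eig.nonneg u
      have a5 : (dT G c u : ℝ) ≤ lam G + 2 * (η * lam G) := by
        linarith [hdeg u, hsplit u,
          (Nat.cast_nonneg ((Out c (i u)).filter fun v => ¬ G.Adj u v).card : (0 : ℝ) ≤ _)]
      have a6 : η * (dT G c u : ℝ) ≤ η * (2 * lam G) :=
        mul_le_mul_of_nonneg_left (by linarith) h0.le
      unfold aT at a1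
      unfold dT at a5 a6 b2
      rw [abs_le]
      constructor
      · refine le_of_mul_le_mul_left ?_ l0
        linarith [a2.1]
      · refine le_of_mul_le_mul_left ?_ l0
        linarith [a2.2]
    · rw [hout u a] at hu
      linarith [h.typ u hu]
  · linarith [AAbs_card_le (Subset.refl (Z ∪ A)), h.zc]
  · intro v hv hZ
    rw [mem_union, not_or] at hZ
    rw [hout v hZ.2] at hv
    linarith [h.good v hv hZ.1]
  · intro j hj
    have j1 := (mem_Icc.1 hj).1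
    have a1 : (cn c j : ℝ) ≤ cn c' j := by
      refine Nat.cast_le.2 (card_le_card fun v hv => ?_)
      have b := (mem_filter.1 hv).2
      have b1 : v ∉ A := fun a => by have := ((hA v).1 a).1; omega
      exact mem_filter.2 ⟨mem_univ _, by rw [hout v b1, b]⟩
    have a2 : (cn c' j : ℝ) ≤ cn c j + A.card := by
      refine AAbs_card_le (A := Vp c' j) (B := Vp c j) fun v hv => ?_
      by_cases a : v ∈ A
      · exact mem_union_right _ a
      · exact mem_union_left _ (mem_Vp.2 (hout v a ▸ mem_Vp.1 hv))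
    have a3 := abs_le.1 (h.size j hj)
    have a4 := mul_le_mul_of_nonneg_left a1 (by linarith : (0 : ℝ) ≤ r - 1)
    have a5 := mul_le_mul_of_nonneg_left a2 (by linarith : (0 : ℝ) ≤ r - 1)
    have a6 : ((r : ℝ) - 1) * A.card ≤ r * (2 * C) :=
      mul_le_mul (by linarith) hAc (Nat.cast_nonneg _) (by linarith)
    rw [abs_le]
    constructor <;> linarith only [a3.1, a3.2, hC, h0, n1, n2, n5, a3, a4, n3, a5, a6]
  · have a1 := AAbs_ec (H := Hm G c) (H' := Hm G c') (A := A) (d := lam G / 2)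
      (fun u v a hu hv => by
        rw [Hm_adj, cross] at a ⊢
        rwa [hout u hu, hout v hv] at a)
      (fun u hu => by
        refine le_trans (AAbs_card_le (B := (Out c (i u)).filter fun v => ¬ G.Adj u v) (D := A)
          fun v hv => ?_) (by linarith [hmiss u hu])
        obtain ⟨⟨-, b2, b3⟩, b4⟩ := Hm_adj.1 (mem_filter.1 hv).2
        by_cases a : v ∈ A
        · exact mem_union_right _ a
        · rw [hout v a] at b2 b3
          rw [hin u hu] at b3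
          exact mem_union_left _ (mem_filter.2 ⟨mem_Out.2 ⟨b2, b3.symm⟩, b4⟩))
    have a2 := mul_le_mul_of_nonneg_right hAc (half_pos l0).le
    linarith only [h.hk, a1, a2]
  · have a1 : ec (Xe G c') ≤ ec (Xe G c) :=
      ec_mono fun u v a => ⟨a.1, a.2.imp (fun b => (hz u b).2) fun b => (hz v b).2⟩
    have a2 : (ec (Xe G c') : ℝ) ≤ ec (Xe G c) := by exact_mod_cast a1
    have a3 : 0 ≤ C * lam G := mul_nonneg (by linarith) l0.le
    linarith [h.hE]
  · intro v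
    linarith [h.xm v]
  · linarith [h.big]
  · intro u hu
    obtain ⟨b1, b2⟩ := hz u hu
    have a1 : (dT G c u : ℝ) ≤ (1 - 23 / 25 * ξ) * lam G :=
      not_lt.1 fun a => b1 ((hA u).2 ⟨b2, a⟩)
    have a2 : (dT G c' u : ℝ) ≤ dT G c u + A.card := by
      refine AAbs_card_le (A := nT G c' u) (B := nT G c u) fun v hv => ?_
      by_cases a : v ∈ A
      · exact mem_union_right _ a
      · obtain ⟨d1, d2⟩ := mem_nT.1 hv
        exact mem_union_left _ (mem_nT.2 ⟨d1, hout v a ▸ d2⟩)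
    linarith

end Pool.Agent.P.MP_094db5_co

end
end

section

/-! Comparison with clones. -/

set_option autoImplicit false

open Finset Classical

noncomputable section

namespace Pool.Agent.P.MP_094db5_co

variable {V : Type} [Fintype V] {r D t : ℕ} {Fr : SimpleGraph V → Prop} {G : SimpleGraph V}
  {x : V → ℝ} {ξ C η : ℝ} {c : V → ℕ} {Z : Finset V}

/-- the part of the form that does not involve part one -/
def ACl_rest (c : V → ℕ) (f : V → ℝ) : ℝ :=
  ∑ u ∈ Out c 1, ∑ v ∈ Out c 1, if c u = c v then 0 else f u * f v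

lemma ACl_qf (c : V → ℕ) (f : V → ℝ) :
    qf (Kc c) f = 2 * ((∑ v ∈ Vp c 1, f v) * ∑ v ∈ Out c 1, f v) + ACl_rest c f := by
  have e1 : (∑ v ∈ Vp c 1, f v) * ∑ v ∈ Out c 1, f v =
      S2 fun u v => (if c u = 1 then f u else 0) * if c v ≠ 0 ∧ c v ≠ 1 then f v else 0 := by
    rw [← S2_prod, Vp, Out, sum_filter, sum_filter]
  have e2 : ACl_rest c f = S2 fun u v => if c u ≠ 0 ∧ c u ≠ 1 then
      (if c v ≠ 0 ∧ c v ≠ 1 then (if c u = c v then 0 else f u * f v) else 0) else 0 := by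
    rw [ACl_rest, Out, sum_filter, S2]
    refine sum_congr rfl fun u _ => ?_
    split_ifs
    · rw [sum_filter]
    · simp
  rw [two_mul, e2]
  nth_rewrite 1 [e1]
  rw [e1.trans (S2_comm _), S2_add, S2_add, qf]
  refine S2_congr fun u v => ?_
  have e3 : (Kc c).Adj u v ↔ c u ≠ 0 ∧ c v ≠ 0 ∧ c u ≠ c v := Iff.rfl
  unfold ad
  rw [e3]
  split_ifs <;> first | ring1 | omega

/-- replacing part one by `P` -/
def ACl_re (c : V → ℕ) (P : Finset V) (v : V) : ℕ :=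
  if v ∈ Out c 1 then c v else if v ∈ P then 1 else 0

lemma ACl_out (c : V → ℕ) (P : Finset V) : Out (ACl_re c P) 1 = Out c 1 := by
  ext v
  rw [mem_Out, ACl_re]
  split_ifs with h1 h2
  · exact iff_of_true (mem_Out.1 h1) h1
  · simpa using h1
  · simpa using h1

lemma ACl_vp {P : Finset V} (hP : P ⊆ (Out c 1)ᶜ) : Vp (ACl_re c P) 1 = P := by
  ext v
  rw [mem_Vp, ACl_re]
  split_ifs with h1 h2
  · exact iff_of_false (mem_Out.1 h1).2 fun h => mem_compl.1 (hP h) h1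
  · simpa using h2
  · simpa using h2

lemma ACl_vp0 (P : Finset V) : Vp (ACl_re c P) 0 = (Out c 1)ᶜ \ P := by
  ext v
  rw [mem_Vp, ACl_re, mem_sdiff, mem_compl]
  split_ifs with h1 h2
  · exact iff_of_false (mem_Out.1 h1).1 fun h => h.1 h1
  · simp [h2]
  · simp only [true_iff]
    exact ⟨h1, h2⟩

lemma ACl_vpi (P : Finset V) {i : ℕ} (h0 : i ≠ 0) (h1 : i ≠ 1) : Vp (ACl_re c P) i = Vp c i := by
  ext v
  rw [mem_Vp, mem_Vp, ACl_re]
  split_ifs with a1 a2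
  · rfl
  · rw [mem_Out] at a1
    omega
  · rw [mem_Out] at a1
    omega

lemma ACl_rest_congr (P : Finset V) {f g : V → ℝ} (h : ∀ v ∈ Out c 1, f v = g v) :
    ACl_rest (ACl_re c P) f = ACl_rest c g := by
  rw [ACl_rest, ACl_rest, ACl_out]
  refine sum_congr rfl fun u hu => sum_congr rfl fun v hv => ?_
  rw [ACl_re, ACl_re, if_pos hu, if_pos hv, h u hu, h v hv]

lemma ACl_compl (c : V → ℕ) : ((Out c 1)ᶜ).card = cn c 0 + cn c 1 := by
  rw [← card_Vp, ← card_Vp, ← card_union_of_disjoint]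
  · congr 1
    ext v
    simp only [mem_compl, mem_Out, mem_union, mem_Vp]
    omega
  · rw [disjoint_left]
    intro v h0 h1
    rw [mem_Vp] at h0 h1
    omega

lemma ACl_Ph (c : V → ℕ) (l : ℝ) {f : V → ℝ} (h : ∀ v, c v = 0 → f v = 0) :
    l * Ph (Kc c) l f = l * (ACl_rest c f - l * ∑ v ∈ Out c 1, f v ^ 2) +
      (Vp c 1).card * (∑ v ∈ Out c 1, f v) ^ 2 -
        ∑ u ∈ Vp c 1, ((∑ v ∈ Out c 1, f v) - l * f u) ^ 2 := by
  have e : ∑ v, f v ^ 2 = ∑ v ∈ Out c 1, f v ^ 2 + ∑ v ∈ Vp c 1, f v ^ 2 := by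
    rw [Out, Vp, sum_filter, sum_filter, ← sum_add_distrib]
    refine sum_congr rfl fun v _ => ?_
    by_cases h0 : c v = 0
    · simp [h0, h v h0]
    · by_cases h1 : c v = 1 <;> simp [h0, h1]
  rw [Ph, ACl_qf, e]
  generalize ∑ v ∈ Out c 1, f v = B
  have e2 : ∑ u ∈ Vp c 1, (B - l * f u) ^ 2 = (Vp c 1).card * B ^ 2 -
      2 * B * l * ∑ u ∈ Vp c 1, f u + l ^ 2 * ∑ u ∈ Vp c 1, f u ^ 2 := by
    rw [mul_sum, mul_sum, ← nsmul_eq_mul, ← sum_const, ← sum_sub_distrib, ← sum_add_distrib]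
    exact sum_congr rfl fun u _ => by ring
  rw [e2]
  ring

lemma ACl_ec {P : Finset V} (hP : P ⊆ (Out c 1)ᶜ) :
    (ec (Kc (ACl_re c P)) : ℝ) + cn c 1 * (Out c 1).card = ec (Kc c) + P.card * (Out c 1).card := by
  have h1 := Mo_ec (Kc (ACl_re c P))
  have h2 := Mo_ec (Kc c)
  rw [Mo_eq_qf, ACl_qf] at h1 h2
  rw [ACl_out, ACl_vp hP, ACl_rest_congr P (g := fun _ => 1) fun _ _ => rfl] at h1
  simp only [sum_const, nsmul_eq_mul, mul_one, card_Vp] at h1 h2
  linarith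

/-- the test vector for the clone -/
lemma ACl_test {P : Finset V} (hP : P ⊆ (Out c 1)ᶜ) {l : ℝ} (l0 : 0 < l) (x0 : ∀ v, 0 ≤ x v)
    (x2 : ∀ v, c v ≠ 0 → x v ≤ 2) (hB : ∑ v ∈ Out c 1, x v ≤ 2 * l) :
    ∃ y : V → ℝ, (∀ v, 0 ≤ y v) ∧ (∀ v, ACl_re c P v = 0 → y v = 0) ∧ (∀ v, y v ≤ 2) ∧
      (∀ v ∈ Out c 1, y v = x v) ∧
      l * Ph (Kc c) l (rT c x) + ((P.card : ℝ) - cn c 1) * (∑ v ∈ Out c 1, x v) ^ 2 ≤
        l * Ph (Kc (ACl_re c P)) l y := by
  have hB0 : 0 ≤ ∑ v ∈ Out c 1, x v := sum_nonneg fun v _ => x0 v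
  obtain ⟨y, hy⟩ : ∃ y : V → ℝ, ∀ v, y v = if ACl_re c P v = 0 then 0 else
      if c v = 0 then (∑ v ∈ Out c 1, x v) / l else x v := ⟨_, fun _ => rfl⟩
  have y1 : ∀ v, ACl_re c P v = 0 → y v = 0 := fun v hv => by rw [hy, if_pos hv]
  have y3 : ∀ v ∈ Out c 1, y v = x v := fun v hv => by
    have h0 := (mem_Out.1 hv).1
    rw [hy, ACl_re, if_pos hv, if_neg h0, if_neg h0]
  have r3 : ∀ v ∈ Out c 1, rT c x v = x v := fun v hv => if_neg (mem_Out.1 hv).1
  refine ⟨y, fun v => ?_, y1, fun v => ?_, y3, ?_⟩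
  · rw [hy]
    split_ifs
    exacts [le_rfl, div_nonneg hB0 l0.le, x0 v]
  · rw [hy]
    split_ifs with a1 a2
    exacts [zero_le_two, (div_le_iff₀ l0).2 hB, x2 v a2]
  · rw [ACl_Ph _ l y1, ACl_Ph c l (f := rT c x) fun v hv => if_pos hv, ACl_out, ACl_vp hP,
      ACl_rest_congr P (g := rT c x) fun v hv => (y3 v hv).trans (r3 v hv).symm,
      sum_congr rfl y3, sum_congr rfl r3, sum_congr rfl fun v hv => congrArg (· ^ 2) (y3 v hv),
      sum_congr rfl fun v hv => congrArg (· ^ 2) (r3 v hv), card_Vp]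
    have key : ∑ u ∈ P, ((∑ v ∈ Out c 1, x v) - l * y u) ^ 2 ≤
        ∑ u ∈ Vp c 1, ((∑ v ∈ Out c 1, x v) - l * rT c x u) ^ 2 := by
      rw [← sum_filter_add_sum_filter_not P fun u => c u = 0, sum_eq_zero, zero_add]
      · refine le_trans (le_of_eq (sum_congr rfl fun u hu => ?_))
          (sum_le_sum_of_subset_of_nonneg (fun u hu => ?_) fun _ _ _ => sq_nonneg _)
        · rw [mem_filter] at hu
          rw [hy, rT, if_neg hu.2, if_neg hu.2, if_neg]
          rw [ACl_re, if_neg (mem_compl.1 (hP hu.1)), if_pos hu.1]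
          exact one_ne_zero
        · rw [mem_filter] at hu
          have := mem_compl.1 (hP hu.1)
          rw [mem_Out] at this
          rw [mem_Vp]
          omega
      · intro u hu
        rw [mem_filter] at hu
        rw [hy, if_neg, if_pos hu.2, mul_div_cancel₀ _ l0.ne']
        · simp
        · rw [ACl_re, if_neg (mem_compl.1 (hP hu.1)), if_pos hu.1]
          exact one_ne_zero
    linarith

lemma ACl_sq {a b e N : ℝ} (h : |a - b| ≤ e * N) (h0 : 0 ≤ b) (h1 : b ≤ N) (e1 : e ≤ 1) :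
    |a ^ 2 - b ^ 2| ≤ 3 * e * N ^ 2 := by
  have hN : 0 ≤ N := h0.trans h1
  have h2 : |a + b| ≤ 3 * N := by
    have := mul_le_mul_of_nonneg_right e1 hN
    rw [abs_le] at h ⊢
    constructor <;> linarith [h.1, h.2]
  rw [sq_sub_sq, abs_mul]
  exact (mul_le_mul h2 h (abs_nonneg _) (by positivity)).trans (le_of_eq (by ring))

namespace Mid

variable (h : Mid r D t Fr G x ξ C η c Z)
include h

theorem η_small : 10 ^ 8 * r ^ 4 * C ^ 4 * η ≤ 1 := by
  have h1 := pow_le_one₀ (n := 2) (by have := h.ξ0; positivity) h.ξ1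
  have h2 := mul_le_mul_of_nonneg_left h.sm (show (0 : ℝ) ≤ 10 ^ 4 * r ^ 2 by positivity)
  linarith

theorem l_big : 10 ^ 8 * r ^ 4 * C ^ 4 ≤ η ^ 2 * lam G := by
  have h1 := h.st.big
  have h2 : 0 ≤ η ^ 2 * lam G := by
    refine le_of_mul_le_mul_left ?_ h.η0
    linarith
  have h3 := mul_le_mul_of_nonneg_right h.η_small h2
  have h4 := mul_le_mul_of_nonneg_left h1 (show (0 : ℝ) ≤ 10 ^ 8 * r ^ 4 * C ^ 4 by positivity)
  linarith

lemma ACl_num : η ≤ 1 / 100 ∧ ξ ≤ 1 / 100 ∧ 100 ≤ lam G ∧ 100 * C ^ 2 ≤ η * lam G ∧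
    100 * r ≤ η * lam G ∧ 100 * (r * (r * C)) ≤ lam G ∧ 10 * C ≤ lam G := by
  have r3 : (3 : ℝ) ≤ r := by exact_mod_cast h.r3
  have C1 := h.C1
  have η0 := h.η0
  have a1 : C ≤ r * C := le_mul_of_one_le_left (by linarith) (by linarith)
  have a2 : r ≤ r * C := le_mul_of_one_le_right (by linarith) C1
  have a3 : 1 ≤ r * C := by linarith
  have a4 : (r * C) ^ 2 ≤ (r * C) ^ 4 := pow_le_pow_right₀ a3 (by norm_num)
  have a5 : r * C ≤ (r * C) ^ 2 := le_self_pow₀ a3 two_ne_zero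
  have a6 : C ^ 2 ≤ (r * C) ^ 2 := pow_le_pow_left₀ (by linarith) a1 2
  have a7 : r * (r * C) ≤ (r * C) ^ 2 := by
    rw [sq]
    exact mul_le_mul_of_nonneg_right a2 (by linarith)
  have b1 : η ≤ 1 / 100 := by
    have := h.η_small
    have := mul_le_mul_of_nonneg_right (a3.trans (a5.trans a4)) η0.le
    linarith
  have b2 : ξ ≤ 1 / 100 := by
    have := h.ξ1
    have := mul_le_mul_of_nonneg_right r3 h.ξ0.le
    linarith
  have b3 := h.l_big
  have l0 : 0 ≤ lam G := by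
    refine le_of_mul_le_mul_left ?_ (pow_pos η0 2)
    linarith
  have b4 : η ^ 2 * lam G ≤ η * lam G :=
    mul_le_mul_of_nonneg_right (pow_le_of_le_one η0.le (by linarith) two_ne_zero) l0
  have b5 : η * lam G ≤ lam G := mul_le_of_le_one_left l0 (by linarith)
  refine ⟨b1, b2, ?_, ?_, ?_, ?_, ?_⟩ <;> linarith only [r3, η0, a2, a4, a5, b1, b3, b4, b5, a6, a7, a1]

lemma ACl_N : 99 / 100 * lam G ≤ (Out c 1).card ∧ ((Out c 1).card : ℝ) ≤ 101 / 100 * lam G := by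
  obtain ⟨b1, -, l1, -⟩ := h.ACl_num
  have r3 := h.r3
  have a1 := abs_le.1 (h.st.out_size (l := 1) (by omega) (mem_Icc.2 ⟨le_rfl, by omega⟩))
  have a2 := mul_le_mul_of_nonneg_right b1 (show 0 ≤ lam G by linarith)
  constructor <;> linarith [a1.1, a1.2]

lemma ACl_Q : lam G * Qw G c x ≤ D2 G c + 7 * C * η * lam G ^ 2 := by
  obtain ⟨b1, b2, l1, b3, -⟩ := h.ACl_num
  have η0 := h.η0
  have l0 : 0 < lam G := by linarith
  have x0 := h.st.eig.nonneg
  have a1 : ∀ u ∈ Vp c 0, lam G * (x u * aT G c x u) ≤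
      (dT G c u : ℝ) ^ 2 + 7 * η * lam G * dT G c u := by
    intro u hu
    rw [mem_Vp] at hu
    have e1 : op (Ww G c) x u ≤ 2 * C ^ 2 := by
      refine le_trans ?_ (h.st.sum_W l0)
      rw [op, Vp, sum_filter]
      refine sum_le_sum fun v _ => ?_
      unfold ad
      split_ifs with a b b
      exacts [(one_mul _).le, absurd a.2.2 b, by rw [zero_mul]; exact x0 v, (zero_mul _).le]
    have e2 : 0 ≤ aT G c x u := sum_nonneg fun v _ => x0 v
    have e3 : aT G c x u ≤ 2 * dT G c u := by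
      have := sum_le_card_nsmul (nT G c u) x 2 fun v hv => by
        linarith only [(abs_le.1 (h.st.typ v (mem_nT.1 hv).2)).2, b1, b2, η0]
      rw [nsmul_eq_mul, mul_comm] at this
      exact this
    have e4 : aT G c x u - dT G c u ≤ η * dT G c u + η * lam G :=
      (abs_le.1 (h.st.sum_set η0.le (by linarith) h.ξ0.le fun v hv => (mem_nT.1 hv).2)).2
    have e5 : (dT G c u : ℝ) ≤ lam G :=
      (h.wdeg u hu).trans (mul_le_of_le_one_left l0.le (by linarith [h.ξ0]))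
    have e6 : (0 : ℝ) ≤ dT G c u := Nat.cast_nonneg _
    rw [← mul_assoc, ← h.st.eig.eig u, op_split0 x hu]
    generalize aT G c x u = a at *
    generalize (dT G c u : ℝ) = d at *
    have f1 : a - d ≤ 2 * η * lam G := by linarith [mul_le_mul_of_nonneg_left e5 η0.le]
    have f2 := mul_le_mul_of_nonneg_right f1 (add_nonneg e2 e6)
    have f3 := mul_le_mul_of_nonneg_left (show a + d ≤ 3 * d by linarith)
      (show 0 ≤ 2 * η * lam G by positivity)
    have f4 := mul_le_mul e1 e3 e2 (by positivity)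
    have f5 := mul_le_mul_of_nonneg_right b3 e6
    have f6 : 0 ≤ C ^ 2 * d := by positivity
    linarith
  have a2 : ∑ u ∈ Vp c 0, (dT G c u : ℝ) ≤ C * lam G := by
    refine le_trans ?_ h.st.hE
    rw [ec_Xe]
    push_cast
    exact le_add_of_nonneg_right (Nat.cast_nonneg _)
  have a3 := mul_le_mul_of_nonneg_left a2 (show 0 ≤ 7 * η * lam G by positivity)
  rw [Qw, mul_sum]
  refine (sum_le_sum a1).trans ?_
  rw [sum_add_distrib, ← mul_sum, D2]
  push_cast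
  linarith

theorem base : 2 * ec (Hm G c) * (1 - 2 * ξ) * (Out c 1).card - D2 G c -
    20 * C * η * ((Out c 1).card : ℝ) ^ 2 ≤ lam G * Ph (Kc c) (lam G) (rT c x) := by
  obtain ⟨b1, b2, l1, -⟩ := h.ACl_num
  have η0 := h.η0
  have ξ0 := h.ξ0
  have C1 := h.C1
  have r3 := h.r3
  have l0 : 0 < lam G := by linarith
  have a1 := qf_lower (H := Hm G c) (x := x) (a := 1 - ξ) (by linarith) fun u v huv => by
    linarith [(abs_le.1 (h.st.typ u huv.1.1)).1]
  have a2 := (abs_le.1 (h.st.out_size (l := 1) (by omega) (mem_Icc.2 ⟨le_rfl, by omega⟩))).2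
  have a3 := h.ACl_Q
  have a4 := h.st.hk
  have a5 : (99 / 100 * lam G) ^ 2 ≤ ((Out c 1).card : ℝ) ^ 2 :=
    pow_le_pow_left₀ (by positivity) h.ACl_N.1 2
  rw [h.st.eig.ident h.st.proper]
  have k0 : (0 : ℝ) ≤ ec (Hm G c) := Nat.cast_nonneg _
  generalize (ec (Hm G c) : ℝ) = k at *
  generalize ((Out c 1).card : ℝ) = N at *
  have f1 := mul_le_mul_of_nonneg_left a1 l0.le
  have f2 : 0 ≤ lam G * (k * ξ ^ 2) := by positivity
  have f3 := mul_le_mul_of_nonneg_left a2 (mul_nonneg k0 (show 0 ≤ 1 - 2 * ξ by linarith only [b1, b2, η0]))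
  have f4 : 0 ≤ k * ξ * (η * lam G) := by positivity
  have f5 := mul_le_mul_of_nonneg_right a4 (show 0 ≤ η * lam G by positivity)
  have f6 := mul_le_mul_of_nonneg_left a5 (show 0 ≤ C * η by positivity)
  have f7 : 0 ≤ C * η * N ^ 2 := by positivity
  linarith only [a3, f1, f2, f3, f4, f5, f6, f7]

theorem clone (q : ℤ) (s : ℕ) (hs : s ≤ (Out c 1).card)
    (he : q * (Out c 1).card + s + 1 + ec (Hm G c) = ec (Xe G c)) :
    q * ((Out c 1).card : ℝ) ^ 2 + (s : ℝ) ^ 2 + 2 * ec (Hm G c) * (1 - 2 * ξ) * (Out c 1).card ≤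
      D2 G c + 300 * C * η * ((Out c 1).card : ℝ) ^ 2 := by
  obtain ⟨b1, b2, l1, -, b4, b5, b6⟩ := h.ACl_num
  obtain ⟨N1, N2⟩ := h.ACl_N
  have η0 := h.η0
  have ξ0 := h.ξ0
  have C1 := h.C1
  have r3 := h.r3
  have r3' : (3 : ℝ) ≤ r := by exact_mod_cast r3
  have l0 : 0 < lam G := by linarith only [b1, l1, η0]
  have N0 : (0 : ℝ) < (Out c 1).card := by linarith only [b1, l1, N1, η0]
  have x0 := h.st.eig.nonneg
  have he' : (q : ℝ) * (Out c 1).card + s + 1 + ec (Hm G c) = ec (Xe G c) := by exact_mod_cast he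
  have hs' : (s : ℝ) ≤ (Out c 1).card := by exact_mod_cast hs
  have hq : |(q : ℝ)| ≤ 5 * C := by
    have f1 := mul_le_mul_of_nonneg_left N1 (show 0 ≤ C by linarith)
    have f2 := mul_le_mul_of_nonneg_right C1 N0.le
    have f3 := h.st.hk
    have f4 := h.st.hE
    have f5 : (0 : ℝ) ≤ ec (Hm G c) := Nat.cast_nonneg _
    have f6 : (0 : ℝ) ≤ ec (Xe G c) := Nat.cast_nonneg _
    have f7 : (0 : ℝ) ≤ s := Nat.cast_nonneg _
    rw [abs_le]
    constructor <;> refine le_of_mul_le_mul_right ?_ N0 <;> linarith only [b1, l1, N1, η0, he', hs', f1, f2, f3, f4]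
  have hq' := abs_le.1 hq
  have hn : ∀ i ∈ Icc 1 r, 2 * r + 5 * C < (cn c i : ℝ) := by
    intro i hi
    have f1 := (abs_le.1 (h.st.size i hi)).1
    have f2 := mul_le_mul_of_nonneg_right b1 l0.le
    have f3 : (0 : ℝ) ≤ cn c i := Nat.cast_nonneg _
    have f4 : 99 * (r * C) ≤ (cn c i : ℝ) := by
      refine le_of_mul_le_mul_left ?_ (show (0 : ℝ) < r by linarith)
      linarith
    have f5 := mul_le_mul_of_nonneg_left C1 (show (0 : ℝ) ≤ r by linarith only [b1, η0, r3'])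
    have f6 := mul_le_mul_of_nonneg_right r3' (show 0 ≤ C by linarith)
    linarith
  have h1r : 1 ∈ Icc 1 r := mem_Icc.2 ⟨le_rfl, by omega⟩
  have hsp := h.ex.spare (c := c) h.st.eig (by linarith) fun v hv => by
    linarith only [(abs_le.1 (h.st.typ v hv)).1, b1, b2, η0, hv]
  have i1 : (2 * r : ℤ) < cn c 1 + q := by
    have : (2 * r : ℝ) < cn c 1 + q := by linarith [hn 1 h1r]
    exact_mod_cast this
  have i2 : q + 2 ≤ (cn c 0 : ℤ) := by
    have : (q : ℝ) + 2 ≤ cn c 0 := by linarith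
    exact_mod_cast this
  obtain ⟨P, hP, hPc⟩ := exists_subset_card_eq (s := (Out c 1)ᶜ) (n := (cn c 1 + q).toNat)
    (by rw [ACl_compl]; omega)
  have hPc' : (P.card : ℤ) = cn c 1 + q := by omega
  have hPr : (P.card : ℝ) - cn c 1 = q := by
    have : (P.card : ℝ) = cn c 1 + q := by exact_mod_cast hPc'
    linarith only [this]
  obtain ⟨S, hS, rfl⟩ := exists_subset_card_eq hs
  have set : ∀ U ⊆ Out c 1, |∑ v ∈ U, x v - U.card| ≤ 3 * η * (Out c 1).card := by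
    intro U hU
    have f1 := h.st.sum_set η0.le (by linarith) ξ0.le fun v hv => (mem_Out.1 (hU hv)).1
    have f2 : (U.card : ℝ) ≤ (Out c 1).card := by exact_mod_cast card_le_card hU
    have f3 := mul_le_mul_of_nonneg_left f2 η0.le
    have f4 := mul_le_mul_of_nonneg_left N1 η0.le
    have f5 := mul_pos η0 N0
    linarith only [b1, b4, η0, r3', f1, f3, f4]
  have s1 := set _ Subset.rfl
  obtain ⟨y, y0, y1, y2, y3, y4⟩ := ACl_test (x := x) hP l0 x0
    (fun v hv => by linarith [(abs_le.1 (h.st.typ v hv)).2])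
    (by linarith [(abs_le.1 s1).2, mul_le_mul_of_nonneg_right b1 N0.le])
  have key := h.cls.ineq (c := ACl_re c P) (S := S) h.ex (by omega) (fun v => by
      unfold ACl_re
      split_ifs
      exacts [h.st.le v, by omega, Nat.zero_le _]) (fun i hi => by
      by_cases e : i = 1
      · rw [e, ← card_Vp, ACl_vp hP]
        omega
      · rw [← card_Vp, ACl_vpi P (by have := mem_Icc.1 hi; omega) e, card_Vp]
        have : (2 * r : ℝ) < cn c i := by linarith [hn i hi]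
        exact_mod_cast this)
    (by rw [← card_Vp, ACl_vp0, card_sdiff_of_subset hP, ACl_compl]; omega) h1r
    (by rw [ACl_out]; exact hS) (by
      have f1 := ACl_ec hP
      have f2 : (ec G : ℝ) + ec (Hm G c) = ec (Kc c) + ec (Xe G c) := by
        exact_mod_cast ec_split h.st.proper
      have f3 : (ec (Kc (ACl_re c P)) : ℝ) + S.card + 1 = ec G := by
        rw [← hPr] at he'
        linarith only [he', f1, f2]
      exact_mod_cast f3) l0 y0 y1 y2
  rw [sum_congr rfl fun v hv => y3 v (hS hv)] at key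
  rw [hPr] at y4
  have s2 := ACl_sq s1 N0.le le_rfl (by linarith)
  have s3 := (abs_le.1 (ACl_sq (set S hS) (Nat.cast_nonneg _) hs' (by linarith))).1
  have s4 : |(q : ℝ) * ((∑ v ∈ Out c 1, x v) ^ 2 - ((Out c 1).card : ℝ) ^ 2)| ≤
      5 * C * (3 * (3 * η) * ((Out c 1).card : ℝ) ^ 2) := by
    rw [abs_mul]
    exact mul_le_mul hq s2 (abs_nonneg _) (by linarith)
  have s5 := (abs_le.1 s4).1
  have s6 := h.base
  have s7 : (99 / 100 * lam G) ^ 2 ≤ ((Out c 1).card : ℝ) ^ 2 :=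
    pow_le_pow_left₀ (by positivity) N1 2
  have s8 := mul_le_mul_of_nonneg_left s7 η0.le
  have s9 := mul_le_mul_of_nonneg_right b4 l0.le
  have s10 := mul_le_mul_of_nonneg_right C1 (show 0 ≤ η * ((Out c 1).card : ℝ) ^ 2 by positivity)
  have s11 : 0 ≤ η * ((Out c 1).card : ℝ) ^ 2 := by positivity
  have s12 : 0 ≤ r * lam G := by positivity
  linarith only [y4, key, s3, s5, s6, s8, s9, s10, s11]

end Mid

end Pool.Agent.P.MP_094db5_co

end
end

section

/-! Comparison with a less balanced base and one more full vertex. -/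

set_option autoImplicit false

open Finset Classical

noncomputable section

namespace Pool.Agent.P.MP_094db5_co

variable {V : Type} [Fintype V] {r D t : ℕ} {Fr : SimpleGraph V → Prop} {G : SimpleGraph V}
  {x : V → ℝ} {ξ C η : ℝ} {c : V → ℕ} {Z : Finset V}

lemma ACm_sumT (p : V → ℝ) (hc : ∀ v, c v ≤ r) :
    ∑ i ∈ Icc 1 r, Pc p c i = ∑ v ∈ univ.filter (fun v => c v ≠ 0), p v := by
  have h1 := sum_Pc p hc
  have h2 := sum_filter_add_sum_filter_not univ (fun v => c v = 0) p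
  have h3 : Pc p c 0 = ∑ v ∈ univ.filter (fun v => c v = 0), p v := by rw [Pc, sum_filter]
  linarith

lemma ACm_max (d g : ℕ) : ∃ t : ℕ, t * (d + t) ≤ g ∧ g ≤ t * (d + t) + d + 2 * t := by
  have hex : ∃ t : ℕ, g < (t + 1) * (d + (t + 1)) := ⟨g, by nlinarith⟩
  refine ⟨Nat.find hex, ?_, ?_⟩
  · rcases h0 : Nat.find hex with _ | t
    · simp
    · exact not_lt.1 (Nat.find_min hex (m := t) (by omega))
  · have := Nat.find_spec hex
    nlinarith

/-- numerical consequences of the smallness assumptions -/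
lemma ACm_num {r C η l : ℝ} (hr : 3 ≤ r) (hC : 1 ≤ C) (h0 : 0 < η)
    (hs : 10 ^ 8 * r ^ 4 * C ^ 4 * η ≤ 1) (hb : 10 ^ 8 * r ^ 4 * C ^ 4 ≤ η ^ 2 * l) :
    10 ^ 4 * r * η ≤ 1 ∧ 0 < l ∧ 10 ^ 4 * r ^ 2 ≤ η * l ∧
      ∀ t : ℝ, 0 ≤ t → t ^ 2 ≤ 4 * l → 5000 * (r ^ 2 * C ^ 2) * t ≤ η * l := by
  have c4 : 1 ≤ C ^ 4 := one_le_pow₀ hC
  have r3 : 1 ≤ r ^ 3 := one_le_pow₀ (by linarith)
  have r2 : 1 ≤ r ^ 2 := one_le_pow₀ (by linarith)
  have r0 : 0 < r := by linarith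
  have a1 : r ≤ r ^ 4 * C ^ 4 := by
    calc r = r * 1 * 1 := by ring
      _ ≤ r * r ^ 3 * C ^ 4 := by gcongr
      _ = r ^ 4 * C ^ 4 := by ring
  have a2 : r ^ 2 ≤ r ^ 4 * C ^ 4 := by
    calc r ^ 2 = r ^ 2 * 1 * 1 := by ring
      _ ≤ r ^ 2 * r ^ 2 * C ^ 4 := by gcongr
      _ = r ^ 4 * C ^ 4 := by ring
  have a3 : 10 ^ 8 * (r * η) ≤ 1 := by linarith [mul_le_mul_of_nonneg_right a1 h0.le]
  have rη : 0 < r * η := mul_pos r0 h0
  have η1 : η ≤ 1 := by linarith [mul_le_mul_of_nonneg_right hr h0.le]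
  have l0 : 0 < l := by
    have : 0 < η ^ 2 * l := by linarith
    exact (mul_pos_iff_of_pos_left (pow_pos h0 2)).1 this
  have a4 : η ^ 2 * l ≤ η * l := by
    have : η ^ 2 ≤ η := by nlinarith only [hr, h0, hs, a1]
    exact mul_le_mul_of_nonneg_right this l0.le
  refine ⟨by linarith, l0, by linarith, fun t t0 ht => ?_⟩
  refine abs_le_of_sq_le_sq' ?_ (mul_pos h0 l0).le |>.2
  have k0 : 0 ≤ r ^ 4 * C ^ 4 := by positivity
  calc (5000 * (r ^ 2 * C ^ 2) * t) ^ 2 = 25000000 * (r ^ 4 * C ^ 4) * t ^ 2 := by ring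
    _ ≤ 25000000 * (r ^ 4 * C ^ 4) * (4 * l) := by gcongr
    _ = (10 ^ 8 * r ^ 4 * C ^ 4) * l := by ring
    _ ≤ (η ^ 2 * l) * l := by gcongr
    _ = (η * l) ^ 2 := by ring

lemma ACm_fin {N l K Q P P' A g L t η C ρ r : ℝ} (hr : 3 ≤ r) (hC : 1 ≤ C) (h0 : 0 < η)
    (h1 : 10 ^ 4 * r * η ≤ 1) (l0 : 0 < l) (hb : 10 ^ 4 * r ^ 2 ≤ η * l) (ρ0 : 0 ≤ ρ) (ρ1 : ρ ≤ 1)
    (hN : |N - l| ≤ η * l) (ht : 5000 * (r ^ 2 * C ^ 2) * t ≤ η * l) (t0 : 0 ≤ t)
    (hL : L ≤ g) (g0 : 0 ≤ g) (hg : g ≤ 2 * N) (hA : (1 - 5 * η) * N ≤ A)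
    (hbase : K - Q - 20 * C * η * N ^ 2 ≤ P)
    (hbc : P - 2 * (ρ + 10 * η) * l * L - 16 * t * (3 * C ^ 2 * l) ≤ P')
    (hin : P' + A ^ 2 ≤ 8 * r * l) : N ^ 2 + K - 2 * ρ * g * N ≤ Q + 300 * C * η * N ^ 2 := by
  obtain ⟨n1, n2⟩ := abs_le.1 hN
  have η1 : η ≤ 1 / 30000 := by linarith [mul_le_mul_of_nonneg_right hr h0.le]
  have ηl : η * l ≤ 1 / 30000 * l := mul_le_mul_of_nonneg_right η1 l0.le
  have lN : l ≤ 101 / 100 * N := by linarith
  have N0 : 0 < N := by linarith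
  have ηN : 0 < η * N := mul_pos h0 N0
  have a1 : (1 - 10 * η) * N ^ 2 ≤ A ^ 2 := by
    have b0 : 0 ≤ (1 - 5 * η) * N := mul_nonneg (by linarith) N0.le
    have b1 := pow_le_pow_left₀ b0 hA 2
    linarith [sq_nonneg (η * N)]
  have b2 : η * l ≤ 101 / 100 * (η * N) := by linarith [mul_le_mul_of_nonneg_left lN h0.le]
  have a2 : 2 * (ρ + 10 * η) * l * L ≤ 2 * ρ * g * N + 45 * (η * N ^ 2) := by
    have c1 : 2 * (ρ + 10 * η) * l * L ≤ 2 * (ρ + 10 * η) * l * g :=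
      mul_le_mul_of_nonneg_left hL (by positivity)
    have c2 : ρ * g * l ≤ ρ * g * (N + η * l) :=
      mul_le_mul_of_nonneg_left (by linarith) (mul_nonneg ρ0 g0)
    have c3 : η * l * g ≤ 101 / 100 * (η * N) * (2 * N) :=
      mul_le_mul b2 hg g0 (by positivity)
    have c4 : ρ * (η * l * g) ≤ 1 * (η * l * g) :=
      mul_le_mul_of_nonneg_right ρ1 (by positivity)
    linarith only [mul_pos ηN N0, N0, ηN, c1, c2, c3, c4]
  have ll : η * l * l ≤ 101 / 100 * (η * N) * (101 / 100 * N) :=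
    mul_le_mul b2 lN l0.le (by positivity)
  have a3 : 16 * t * (3 * C ^ 2 * l) ≤ η * N ^ 2 := by
    have c0 : 1 ≤ r ^ 2 := one_le_pow₀ (by linarith)
    have c1 : 1 * (C ^ 2 * t) ≤ r ^ 2 * (C ^ 2 * t) :=
      mul_le_mul_of_nonneg_right c0 (by positivity)
    have c2 : 5000 * (C ^ 2 * t) * l ≤ η * l * l :=
      mul_le_mul_of_nonneg_right (by linarith) l0.le
    linarith [mul_pos ηN N0]
  have a4 : 8 * r * l ≤ η * N ^ 2 := by
    have c1 : 10 ^ 4 * r ≤ η * l := by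
      linarith only [mul_le_mul_of_nonneg_right hr (show 0 ≤ r by linarith only [hr, h0, η1]), hr, h0, hb, η1]
    have c2 : 10 ^ 4 * r * l ≤ η * l * l := mul_le_mul_of_nonneg_right c1 l0.le
    linarith only [mul_pos ηN N0, mul_pos (show 0 < r by linarith only [hr, h0, η1]) l0, N0, ηN, ll, c2]
  have a5 : 1 * (η * N ^ 2) ≤ C * (η * N ^ 2) := mul_le_mul_of_nonneg_right hC (by positivity)
  linarith only [mul_pos ηN N0, hbase, hbc, hin, N0, ηN, a1, a2, a3, a4, a5]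

lemma ACm_A {N l s t d η X Y : ℝ} (h0 : 0 < η) (η1 : η ≤ 1 / 30000) (l0 : 0 < l)
    (hN : |N - l| ≤ η * l) (t0 : 0 ≤ t) (ht : 45000 * t ≤ η * l) (hd : d ≤ η * l)
    (hs : N ≤ s + d + 2 * t) (hs' : s ≤ N) (hX : |X - s| ≤ η * s + η * l)
    (hY : l * X - s * (2 * t) ≤ l * Y) : (1 - 5 * η) * N ≤ Y := by
  obtain ⟨n1, n2⟩ := abs_le.1 hN
  obtain ⟨x1, -⟩ := abs_le.1 hX
  have ηl : η * l ≤ 1 / 30000 * l := mul_le_mul_of_nonneg_right η1 l0.le
  have b1 : η * s ≤ η * N := mul_le_mul_of_nonneg_left hs' h0.le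
  have b2 : η * l ≤ η * (101 / 100 * N) := mul_le_mul_of_nonneg_left (by linarith) h0.le
  have b3 : s * (2 * t) ≤ l * (4 * t) := by
    linarith [mul_le_mul_of_nonneg_right (show s ≤ 2 * l by linarith) t0]
  have b4 : X - 4 * t ≤ Y := le_of_mul_le_mul_left (by linarith) l0
  have b5 : 0 < η * l := mul_pos h0 l0
  linarith

theorem ACm_main (h : Mid r D t Fr G x ξ C η c Z) (g : ℕ) (hg : g ≤ 2 * (Out c 1).card)
    (he : g + ec (Xe G c) = (Out c 1).card + 1 + ec (Hm G c)) {i j : ℕ} (hi : i ∈ Icc 2 r)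
    (hj : j ∈ Icc 2 r) (hij : i ≠ j) (hle : cn c j ≤ cn c i) :
    ((Out c 1).card : ℝ) ^ 2 + 2 * ec (Hm G c) * (1 - 2 * ξ) * (Out c 1).card -
      2 * (1 - 1 / r) * g * (Out c 1).card ≤ D2 G c + 300 * C * η * ((Out c 1).card : ℝ) ^ 2 := by
  have r3 := h.r3
  have hr : (3 : ℝ) ≤ r := by exact_mod_cast r3
  have st := h.st
  have η0 := h.η0
  have hC := h.C1
  obtain ⟨ηr, l0, lb, hsq⟩ := ACm_num hr hC η0 h.η_small h.l_big
  have η1 : η ≤ 1 / 30000 := by linarith [mul_le_mul_of_nonneg_right hr η0.le]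
  have ξ0 := h.ξ0
  have ξ1 : ξ ≤ 1 / 300 := by linarith [h.ξ1, mul_le_mul_of_nonneg_right hr ξ0.le]
  have hi2 := mem_Icc.1 hi
  have hj2 := mem_Icc.1 hj
  have hi1 : i ∈ Icc 1 r := mem_Icc.2 ⟨by omega, hi2.2⟩
  have hj1 : j ∈ Icc 1 r := mem_Icc.2 ⟨by omega, hj2.2⟩
  have one : 1 ∈ Icc 1 r := mem_Icc.2 ⟨le_rfl, by omega⟩
  have hN := st.out_size (by omega) one
  obtain ⟨n1, n2⟩ := abs_le.1 hN
  have ηl : η * lam G ≤ 1 / 30000 * lam G := mul_le_mul_of_nonneg_right η1 l0.le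
  have ηl0 : 0 < η * lam G := mul_pos η0 l0
  have rηl : 10 ^ 4 * r * η * lam G ≤ 1 * lam G := mul_le_mul_of_nonneg_right ηr l0.le
  obtain ⟨d, hd⟩ := Nat.exists_eq_add_of_le hle
  obtain ⟨u, u1, u2⟩ := ACm_max d g
  have hdR : (cn c i : ℝ) = cn c j + d := by exact_mod_cast hd
  have d0 : (0 : ℝ) ≤ d := Nat.cast_nonneg d
  have u0 : (0 : ℝ) ≤ u := Nat.cast_nonneg u
  have dle : (d : ℝ) ≤ η * lam G := by
    have a1 := (abs_le.1 (st.size i hi1)).2
    have a2 := (abs_le.1 (st.size j hj1)).1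
    rw [hdR] at a1
    linarith only [mul_le_mul_of_nonneg_right hr d0, hr, d0, a1, a2]
  have hgR : (g : ℝ) ≤ 2 * (Out c 1).card := by exact_mod_cast hg
  have u1R : (u : ℝ) * (d + u) ≤ g := by exact_mod_cast u1
  have hu := hsq u u0 (by linarith only [mul_nonneg u0 d0, n2, ηl, ηl0, d0, u0, hgR, u1R])
  have rr : 3 * (r : ℝ) ≤ r * r := mul_le_mul_of_nonneg_right hr (Nat.cast_nonneg r)
  have rc : 3 * (r : ℝ) ≤ r ^ 2 * C ^ 2 := by
    linarith only [mul_le_mul_of_nonneg_left (one_le_pow₀ hC : 1 ≤ C ^ 2) (sq_nonneg (r : ℝ)), hC, rr]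
  have ru := mul_le_mul_of_nonneg_right hr u0
  have rcu := mul_le_mul_of_nonneg_right rc u0
  have hu1 : 45000 * (u : ℝ) ≤ η * lam G := by linarith only [hu, ru, rcu]
  have hu2 : ((r : ℝ) - 1) * u ≤ η * lam G / 5000 := by linarith
  -- the moved set
  have hroom : u ≤ (Vp c j \ Z).card := by
    have a1 : (Vp c j).card ≤ (Vp c j \ Z).card + Z.card := card_le_card_sdiff_add_card
    have a2 : (cn c j : ℝ) ≤ (Vp c j \ Z).card + Z.card := by exact_mod_cast a1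
    have a3 := (abs_le.1 (st.size j hj1)).1
    have a4 : ((r : ℝ) - 1) * Z.card ≤ (r - 1) * (η * lam G) :=
      mul_le_mul_of_nonneg_left st.zc (by linarith only [hr, η0, η1])
    have a5 : ((r : ℝ) - 1) * cn c j ≤ (r - 1) * ((Vp c j \ Z).card + Z.card) :=
      mul_le_mul_of_nonneg_left a2 (by linarith only [hr, η0, η1])
    have a6 : ((r : ℝ) - 1) * u ≤ (r - 1) * (Vp c j \ Z).card := by linarith only [hr, η0, lb, η1, ηl, rηl, hu, rr, rcu, a3, a4, a5]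
    exact_mod_cast le_of_mul_le_mul_left a6 (by linarith only [hr, η0, η1])
  obtain ⟨M, hM, hMc⟩ := exists_subset_card_eq hroom
  have hMj : ∀ v ∈ M, c v = j := fun v hv => mem_Vp.1 (mem_sdiff.1 (hM hv)).1
  have hMZ : ∀ v ∈ M, v ∉ Z := fun v hv => (mem_sdiff.1 (hM hv)).2
  have xlo : ∀ v, c v ≠ 0 → 1 / 2 ≤ x v := fun v hv => by
    linarith only [(abs_le.1 (st.typ v hv)).1, η0, η1, ξ1, hv]
  -- base change
  have hS : ((r : ℝ) - 1) * ∑ l ∈ Icc 1 r, Pc x c l ≤ (1 + 5 * η) * r * lam G := by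
    have a1 := st.sum_set η0.le (by linarith only [η0, η1, ξ1]) ξ0.le
      (S := univ.filter (fun v => c v ≠ 0)) (fun v hv => (mem_filter.1 hv).2)
    have a2 := ACm_sumT (fun _ => (1 : ℝ)) st.le
    simp only [Pc_const, mul_one, sum_const, nsmul_eq_mul] at a2
    have a3 : ((r : ℝ) - 1) * ∑ l ∈ Icc 1 r, (cn c l : ℝ) ≤ r * ((1 + η) * lam G) := by
      rw [mul_sum]
      refine (sum_le_card_nsmul _ _ ((1 + η) * lam G) fun l hl => ?_).trans ?_
      · linarith only [(abs_le.1 (st.size l hl)).2]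
      · simp
    rw [ACm_sumT x st.le]
    rw [a2] at a3
    generalize ((univ.filter (fun v => c v ≠ 0)).card : ℝ) = T at a1 a3
    have a4 := mul_le_mul_of_nonneg_left (abs_le.1 a1).2 (show (0 : ℝ) ≤ r - 1 by linarith only [hr, η0, η1])
    have a5 := mul_le_mul_of_nonneg_left a3 η0.le
    have a6 : η * (r * (η * lam G)) ≤ 1 * (r * (η * lam G)) :=
      mul_le_mul_of_nonneg_right (by linarith only [η0, η1]) (by positivity)
    have a7 : 0 ≤ r * (η * lam G) := by positivity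
    linarith only [hr, η0, lb, η1, rr, a3, a4, a5, a6, a7]
  have hee : ∑ v, op (Hm G c) x v + ∑ w ∈ Vp c 0, x w * dT G c w ≤ 3 * C ^ 2 * lam G := by
    have a1 := sum_op_le (H := Hm G c) (x := x) (a := C) fun w _ _ => st.xm w
    have a2 : ∑ w ∈ Vp c 0, x w * dT G c w ≤ C * ∑ w ∈ Vp c 0, (dT G c w : ℝ) := by
      rw [mul_sum]
      exact sum_le_sum fun w _ => mul_le_mul_of_nonneg_right (st.xm w) (Nat.cast_nonneg _)
    have a3 : ∑ w ∈ Vp c 0, (dT G c w : ℝ) ≤ ec (Xe G c) := by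
      have : ∑ w ∈ Vp c 0, dT G c w ≤ ec (Xe G c) := by rw [ec_Xe]; omega
      exact_mod_cast this
    have a4 := mul_le_mul_of_nonneg_left (a3.trans st.hE) (show 0 ≤ C by linarith only [η0, hC, η1])
    have a5 := mul_le_mul_of_nonneg_left st.hk (show 0 ≤ C by linarith only [η0, hC, η1])
    linarith only [a1, a2, a4, a5]
  obtain ⟨y, y0, y1, y2, hy⟩ := base_change st.eig st.le st.proper r3 hi1 hj1 hij hle hMj η0
    (by linarith only [η0, η1]) l0 (fun v hv => st.good v (by rw [hMj v hv]; omega) (hMZ v hv)) xlo st.size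
    (by rw [hMc]; linarith only [hr, η0, lb, η1, hu, rr, rcu]) hS hee
  rw [hMc] at y2 hy
  -- the new labelling
  obtain ⟨m1, m2, m3⟩ := cn_mv hij hMj
  have hec := ec_mv st.le hi1 hj1 hij hMj
  rw [hMc] at m1 m2 hec
  have hc' : ∀ v, mv c M i v ≤ r := fun v => by
    unfold mv; split_ifs
    exacts [hi2.2, st.le v]
  have hOut : Out (mv c M i) 1 = Out c 1 := by
    ext v
    simp only [mem_Out, mv]
    split_ifs with hv
    · rw [hMj v hv]; omega
    · rfl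
  have h0' : ∀ v, mv c M i v = 0 → c v = 0 := fun v => by
    unfold mv; split_ifs
    · omega
    · exact id
  have l1 : (10 : ℝ) ^ 4 * r ^ 2 ≤ lam G := by linarith only [hr, η0, lb, η1, ηl, rr]
  have hbig : ∀ l ∈ Icc 1 r, 2 * r + u < cn c l := fun l hl => by
    have a1 := (abs_le.1 (st.size l hl)).1
    have a2 : ((r : ℝ) - 1) * (2 * r + u) < (r - 1) * cn c l := by linarith only [hr, η0, lb, η1, ηl, hu, rr, rcu, a1]
    exact_mod_cast lt_of_mul_lt_mul_left a2 (by linarith only [hr, η0, η1])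
  have hb' : ∀ l ∈ Icc 1 r, 2 * r < cn (mv c M i) l := fun l hl => by
    have a1 := hbig l hl
    by_cases e1 : l = i
    · subst e1; omega
    · by_cases e2 : l = j
      · subst e2; omega
      · rw [m3 l e1 e2]; omega
  have h2' : 2 ≤ cn (mv c M i) 0 := by
    rw [m3 0 (by omega) (by omega)]
    have a1 := h.ex.spare (c := c) st.eig (by linarith only [hr, η0, lb, η1, ηl, rr]) fun v hv => by linarith only [xlo v hv, η0, η1, hv]
    have a2 : (2 : ℝ) ≤ cn c 0 := by linarith only [hr, η0, lb, η1, ηl, rr, a1]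
    exact_mod_cast a2
  have hfit : d + 2 * u ≤ (Out c 1).card := by
    have : (d : ℝ) + 2 * u ≤ (Out c 1).card := by linarith only [hr, η0, lb, η1, n1, ηl, dle, hu, rr, ru, rcu]
    exact_mod_cast this
  obtain ⟨s, hs⟩ : ∃ s, s + g = (Out c 1).card + u * (d + u) := ⟨(Out c 1).card + u * (d + u) - g,
    by omega⟩
  obtain ⟨S, hSs, hSc⟩ := exists_subset_card_eq (s := Out c 1) (n := s) (by omega)
  have hsplit := ec_split st.proper
  have hcount : ec (Kc (mv c M i)) + S.card + 1 = ec G := by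
    rw [hSc]
    have a1 : u * (cn c i + u) = u * cn c j + u * (d + u) := by rw [hd]; ring
    omega
  have yle : ∀ v, y v ≤ 2 := fun v => by
    by_cases hv : c v = 0
    · rw [y1 v hv]; norm_num
    · have a1 := y2 v hv
      have a2 : lam G * |y v - x v| ≤ lam G * (1 / 2) := by linarith only [hr, η0, lb, η1, ηl, hu, rr, ru, rcu, a1]
      have a3 := (abs_le.1 (le_of_mul_le_mul_left a2 l0)).2
      linarith only [(abs_le.1 (st.typ v hv)).2, η0, η1, ξ1, hv, a3]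
  have hin := h.cls.ineq h.ex (by omega) hc' hb' h2' one (hOut ▸ hSs) hcount l0 y0
    (fun v hv => y1 v (h0' v hv)) yle
  have hS0 : ∀ v ∈ S, c v ≠ 0 := fun v hv => (mem_Out.1 (hSs hv)).1
  have hX := st.sum_set η0.le (by linarith only [η0, η1, ξ1]) ξ0.le hS0
  have hY : lam G * ∑ v ∈ S, x v - S.card * (2 * u) ≤ lam G * ∑ v ∈ S, y v := by
    rw [mul_sum, mul_sum, ← nsmul_eq_mul, ← sum_const, ← sum_sub_distrib]
    refine sum_le_sum fun v hv => ?_
    have a1 := y2 v (hS0 v hv)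
    have a2 := mul_le_mul_of_nonneg_left (neg_abs_le (y v - x v)) l0.le
    linarith only [a1, a2]
  rw [hSc] at hX hY
  have s1 : ((Out c 1).card : ℝ) ≤ s + d + 2 * u := by
    have : (Out c 1).card ≤ s + d + 2 * u := by omega
    exact_mod_cast this
  have s2 : (s : ℝ) ≤ (Out c 1).card := by
    have : s ≤ (Out c 1).card := by omega
    exact_mod_cast this
  have hA := ACm_A η0 η1 l0 hN u0 hu1 dle s1 s2 hX hY
  have ir0 : (0 : ℝ) ≤ 1 / r := by positivity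
  have ir1 : (1 : ℝ) / r ≤ 1 := (div_le_one (by linarith only [hr, η0, η1])).2 (by linarith only [hr, η0, η1])
  refine ACm_fin (L := (u : ℝ) * (cn c i - cn c j + u)) hr hC η0 ηr l0 lb (by linarith only [ir1])
    (by linarith only [ir0]) hN hu u0 ?_ (Nat.cast_nonneg g) hgR hA h.base hy hin
  rw [hdR, add_sub_cancel_left]
  exact u1R

theorem Mid.fill (h : Mid r D t Fr G x ξ C η c Z) (g : ℕ) (hg : g ≤ 2 * (Out c 1).card)
    (he : g + ec (Xe G c) = (Out c 1).card + 1 + ec (Hm G c)) :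
    ((Out c 1).card : ℝ) ^ 2 + 2 * ec (Hm G c) * (1 - 2 * ξ) * (Out c 1).card -
      2 * (1 - 1 / r) * g * (Out c 1).card ≤ D2 G c + 300 * C * η * ((Out c 1).card : ℝ) ^ 2 := by
  have r3 := h.r3
  have h2 : 2 ∈ Icc 2 r := mem_Icc.2 ⟨le_rfl, by omega⟩
  have h3 : 3 ∈ Icc 2 r := mem_Icc.2 ⟨by omega, r3⟩
  rcases le_total (cn c 3) (cn c 2) with hle | hle
  · exact ACm_main h g hg he h2 h3 (by omega) hle
  · exact ACm_main h g hg he h3 h2 (by omega) hle

end Pool.Agent.P.MP_094db5_co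

end
end

section

/-! The first structure. -/

set_option autoImplicit false

open Finset Classical

noncomputable section

namespace Pool.Agent.P.MP_094db5_co

section

variable {V : Type} [Fintype V]

lemma recolour2 {G : SimpleGraph V} {x : V → ℝ} (hx : ∀ v, 0 ≤ x v) {μ ξ γ Δ : ℝ} (hμ : 0 < μ)
    {r : ℕ} (hr : 3 ≤ r) (h0 : 0 < ξ) (h1 : ξ ≤ 1 / (2 * r)) {c : V → ℕ} (hc : ∀ v, c v ≤ r)
    (hγ : Pc (fun v => x v ^ 2) c 0 ≤ γ) (hγξ : γ ≤ ξ / 2)
    (hΔ : Dev G x μ + ∑ i ∈ Icc 1 r, (Pc (fun v => x v ^ 2) c i - 1 / r) ^ 2 +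
      Miss G (fun v => x v ^ 2) c / 2 ≤ Δ) (hΔξ : 256 * Δ < ξ ^ 4) :
    ∃ c' : V → ℕ, Rough G x μ ξ r c' ∧ Miss G (fun v => x v ^ 2) c' ≤ 2 * Δ ∧
      (∀ u, c' u ≠ 0 → c' u = c u) ∧
      ξ ^ 3 * Pc (fun v => x v ^ 2) c' 0 ≤ 128 * Δ + γ := by
  have hp : ∀ v, 0 ≤ x v ^ 2 := fun v => sq_nonneg (x v)
  have hr' : (3 : ℝ) ≤ r := by exact_mod_cast hr
  have e1 : 1 / (2 * (r : ℝ)) = 1 / r / 2 := by field_simp
  have e2 : 1 / (r : ℝ) ≤ 1 / 3 := one_div_le_one_div_of_le (by norm_num) hr'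
  have a3 := Dev_nonneg G x μ
  have a4 := Miss_nonneg G hp c
  have a5 : 0 ≤ ∑ i ∈ Icc 1 r, (Pc (fun v => x v ^ 2) c i - 1 / r) ^ 2 :=
    sum_nonneg fun _ _ => sq_nonneg _
  have hγ0 := (Pc_nonneg hp c 0).trans hγ
  have a6 : ∀ i ∈ Icc 1 r, 1 / r - ξ / 2 ≤ Pc (fun v => x v ^ 2) c i := fun i hi => by
    have b1 := single_le_sum (f := fun i => (Pc (fun v => x v ^ 2) c i - 1 / r) ^ 2)
      (fun _ _ => sq_nonneg _) hi
    have b2 : ξ ^ 4 ≤ ξ ^ 2 := pow_le_pow_of_le_one h0.le (by linarith only [h1, e1, e2]) (by norm_num)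
    have := abs_le_of_sq_le_sq' (show (Pc (fun v => x v ^ 2) c i - 1 / r) ^ 2 ≤ (ξ / 2) ^ 2 by
      nlinarith only [sq_nonneg ξ, hΔ, hΔξ, a3, a4, a5, b1, b2]) (by positivity)
    linarith only [this.1, this]
  have a7 := sum_bw_le G hx μ (show 0 < ξ / 4 by positivity) (by linarith only [h1, e1, e2]) c
  have a8 : ξ ^ 2 * ∑ u, x u ^ 2 * bw G x μ (ξ / 4) c u ≤ 64 * Δ := by nlinarith only [hΔ, a4, a5, a7]
  have a9 : ∑ u, x u ^ 2 * bw G x μ (ξ / 4) c u < (ξ / 2) ^ 2 :=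
    lt_of_mul_lt_mul_left (a := ξ ^ 2) (by nlinarith only [hΔ, hΔξ, a4, a5, a7]) (by positivity)
  have a10 : Wt (fun v => x v ^ 2) (fun u => ξ / 2 < bw G x μ (ξ / 4) c u) ≤ ξ / 2 := by
    simpa [Wt] using markov hp (bw_nonneg G x μ (ξ / 4) c) univ (by positivity) a9.le
  have hcr : ∀ u v, cross (fun u => if bw G x μ (ξ / 4) c u ≤ ξ / 2 then c u else 0) u v →
      cross c u v := fun u v h => by
    unfold cross at h ⊢
    beta_reduce at h
    split_ifs at h <;> simp_all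
  refine ⟨fun u => if bw G x μ (ξ / 4) c u ≤ ξ / 2 then c u else 0, ⟨fun v => ?_, fun v hv => ?_,
    ?_, fun i hi => ?_, fun u hu => ?_⟩, ?_, fun u hu => ?_, ?_⟩
  · split_ifs
    exacts [hc v, Nat.zero_le _]
  · split_ifs at hv with h
    · have := typ hμ (show 0 < ξ / 4 by positivity) (by linarith only [h0, h1, e1, e2]) hr (show 0 ≤ ξ / 2 by positivity)
        (fun i hi => by linarith only [a6 i hi, h0, h1, e1]) a9 hv h
      linarith only [this]
    · exact (hv rfl).elim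
  · rw [Pc_eq] at hγ ⊢
    refine (Wt_add hp (T := fun v => c v = 0) (U := fun u => ξ / 2 < bw G x μ (ξ / 4) c u)
      fun v hv => ?_).trans (by linarith only [hγ, hγξ, a10])
    split_ifs at hv with h
    exacts [Or.inl hv, Or.inr (not_le.1 h)]
  · have := a6 i hi
    rw [Pc_eq] at this ⊢
    have b1 := Wt_add hp (S := fun v => c v = i)
      (T := fun u => (if bw G x μ (ξ / 4) c u ≤ ξ / 2 then c u else 0) = i)
      (U := fun u => ξ / 2 < bw G x μ (ξ / 4) c u) fun v hv => by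
        split_ifs with h
        exacts [Or.inl hv, Or.inr (not_le.1 h)]
    linarith only [a10, this, b1]
  · have b1 : bw G x μ (ξ / 4) c u ≤ ξ / 2 := by
      by_contra h
      exact hu (if_neg h)
    refine (Wt_mono hp (T := fun v => cross c u v ∧ ¬ good G x μ (ξ / 4) u v)
      fun v hv => ⟨hcr u v hv.1, fun h => hv.2 h.1⟩).trans ?_
    have : Wt (fun v => x v ^ 2) (fun v => cross c u v ∧ ¬ good G x μ (ξ / 4) u v) =
      bw G x μ (ξ / 4) c u := by simp [Wt, bw]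
    linarith only [h0, b1, this]
  · refine le_trans (S2_mono fun u v => ?_) (show Miss G (fun v => x v ^ 2) c ≤ _ by linarith only [hΔ, a3, a5])
    have := hcr u v
    have := mul_nonneg (hp u) (hp v)
    split_ifs <;> first | linarith | tauto
  · beta_reduce at hu ⊢
    split_ifs at hu ⊢ with h
    exacts [rfl, (hu rfl).elim]
  · have b0 : ξ ^ 3 ≤ 1 := pow_le_one₀ h0.le (by linarith only [h1, e1, e2])
    have b1 := Wt_add hp (S := fun u => (if bw G x μ (ξ / 4) c u ≤ ξ / 2 then c u else 0) = 0)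
      (T := fun v => c v = 0) (U := fun u => ξ / 2 < bw G x μ (ξ / 4) c u) fun v hv => by
        split_ifs at hv with h
        exacts [Or.inl hv, Or.inr (not_le.1 h)]
    have b2 : ξ / 2 * Wt (fun v => x v ^ 2) (fun u => ξ / 2 < bw G x μ (ξ / 4) c u) ≤
        ∑ u, x u ^ 2 * bw G x μ (ξ / 4) c u := by
      rw [Wt, mul_sum]
      refine sum_le_sum fun u _ => ?_
      split_ifs with h
      · rw [mul_comm]
        exact mul_le_mul_of_nonneg_left h.le (hp u)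
      · rw [mul_zero]
        exact mul_nonneg (hp u) (bw_nonneg _ _ _ _ _ _)
    have b3 := mul_le_mul_of_nonneg_left b2 (sq_nonneg ξ)
    rw [← Pc_eq, ← Pc_eq] at b1
    have b4 := mul_le_mul_of_nonneg_left b1 (pow_pos h0 3).le
    have b5 := mul_le_mul_of_nonneg_left hγ (pow_pos h0 3).le
    have b6 := mul_le_of_le_one_left hγ0 b0
    linarith only [hΔ, a4, a5, a7, b3, b4, b5, b6]

lemma card_le_Wt {p : V → ℝ} {a : ℝ} (S : V → Prop) [DecidablePred S] (h : ∀ v, S v → a ≤ p v) :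
    ((univ.filter S).card : ℝ) * a ≤ Wt p S := by
  have := card_nsmul_le_sum _ _ _ fun v (hv : v ∈ univ.filter S) => h v (mem_filter.1 hv).2
  rw [nsmul_eq_mul, sum_filter] at this
  exact this.trans (le_of_eq (sum_congr rfl fun v _ => by congr))

lemma perron_small2 {G H : SimpleGraph V} {z : V → ℝ} (hz : Perron G z) (hle : H ≤ G) {K μ : ℝ}
    (hK : Mo G - Mo H ≤ K * lam G) (hd : ∀ u, (∑ v, ad H u v) ^ 2 ≤ 3 * Mo G) (l0 : 0 < lam G)
    (h1 : 0 ≤ K) (h2 : Mo G ≤ 2 * lam G ^ 2) (h3 : 1 / 2 ≤ lam G * μ) (u : V) :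
    z u ^ 2 ≤ (5 + 2 * K) * μ := by
  have a1 : (lam G * z u) ^ 2 ≤ ∑ v, ad G u v := by
    rw [← hz.eig u]
    refine (sum_mul_sq_le_sq_mul_sq _ _ _).trans (le_of_eq ?_)
    rw [hz.unit, mul_one]
    exact sum_congr rfl fun v _ => by unfold ad; split_ifs <;> norm_num
  have a2 : ∑ v, ad G u v ≤ ∑ v, ad H u v + Mo (G \ H) := by
    refine le_trans ?_ (add_le_add_right (single_le_sum (f := fun u => ∑ v, ad (G \ H) u v)
      (fun u _ => sum_nonneg fun v _ => ad_nonneg _ u v) (mem_univ u)) _)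
    rw [← sum_add_distrib]
    refine sum_le_sum fun v _ => ?_
    unfold ad
    rw [SimpleGraph.sdiff_adj]
    by_cases a : G.Adj u v <;> by_cases b : H.Adj u v <;> simp [a, b]
  rw [Mo_sdiff hle] at a2
  have a3 : ∑ v, ad H u v ≤ 5 / 2 * lam G :=
    (abs_le_of_sq_le_sq' (by nlinarith only [hd u, h2]) (by positivity)).2
  have a4 : lam G * z u ^ 2 ≤ 5 / 2 + K := le_of_mul_le_mul_left (by linarith) l0
  exact le_of_mul_le_mul_left
    (by linarith only [mul_le_mul_of_nonneg_left h3 (show 0 ≤ 5 + 2 * K by linarith), h1, h3, a4]) l0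

lemma Mo_Xe_le {G H : SimpleGraph V} (hle : H ≤ G) {z : V → ℝ} (h0 : ∀ v, 0 ≤ z v)
    (h1 : ∑ v, z v ^ 2 = 1) (μ : ℝ) (c : V → ℕ) : μ ^ 2 * Mo (Xe G c) ≤
      μ ^ 2 * (Mo G - Mo H) + 4 * Dev H z μ + 8 * Pc (fun v => z v ^ 2) c 0 := by
  have e1 : Pc (fun v => z v ^ 2) c 0 = S2 fun u v => (if c u = 0 then z u ^ 2 else 0) * z v ^ 2 := by
    rw [← S2_prod, h1, mul_one, Pc]
  have e2 : Pc (fun v => z v ^ 2) c 0 = S2 fun u v => z u ^ 2 * if c v = 0 then z v ^ 2 else 0 := by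
    rw [← S2_prod, h1, one_mul, Pc]
  have e3 : 8 * Pc (fun v => z v ^ 2) c 0 =
      4 * Pc (fun v => z v ^ 2) c 0 + 4 * Pc (fun v => z v ^ 2) c 0 := by ring
  rw [e3, ← Mo_sdiff hle]
  nth_rw 1 [e1]
  rw [e2]
  simp only [Mo, Dev, S2_mul, S2_add]
  refine S2_mono fun u v => ?_
  have a0 := mul_nonneg (h0 u) (h0 v)
  have a1 : μ ^ 2 ≤ 4 * (z u * z v - μ) ^ 2 + 4 * (z u ^ 2 * z v ^ 2) := by
    nlinarith only [sq_nonneg (2 * (z u * z v) - μ), sq_nonneg μ, sq_nonneg (z u * z v - μ)]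
  have a2 : 0 ≤ z u ^ 2 * z v ^ 2 := by positivity
  have a3 := sq_nonneg (z u * z v - μ)
  have a4 := sq_nonneg μ
  have := @hle u v
  unfold ad
  simp only [Xe, SimpleGraph.sdiff_adj]
  by_cases b1 : G.Adj u v <;> by_cases b2 : H.Adj u v <;> by_cases b3 : c u = 0 <;>
    by_cases b4 : c v = 0 <;> simp only [b1, b2, b3, b4, false_and, and_false, or_false,
      false_or, or_self, if_true, if_false, not_true, not_false_iff, and_self] <;> linarith only [a1, a2, a3, a4]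

lemma Mo_Hm_le {G H : SimpleGraph V} (hle : H ≤ G) {z : V → ℝ} {μ : ℝ} (hμ : 0 ≤ μ) {c : V → ℕ}
    (h : ∀ v, c v ≠ 0 → μ / 2 ≤ z v ^ 2) :
    μ ^ 2 * Mo (Hm G c) ≤ 4 * Miss H (fun v => z v ^ 2) c := by
  simp only [Mo, Miss, S2_mul]
  refine S2_mono fun u v => ?_
  have a2 : 0 ≤ z u ^ 2 * z v ^ 2 := by positivity
  unfold ad
  by_cases b : (Hm G c).Adj u v
  · rw [if_pos b, if_pos ⟨b.1, fun a => b.2 (hle a)⟩]
    linarith [mul_le_mul (h u b.1.1) (h v b.1.2.1) (by positivity) (sq_nonneg _)]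
  · rw [if_neg b]
    split_ifs <;> linarith

lemma near_one {z s a : ℝ} (hz : 0 ≤ z) (hs : 0 < s) (h : |z ^ 2 - s ^ 2| ≤ a * s ^ 2) :
    |z / s - 1| ≤ a := by
  have e : z / s - 1 = (z - s) / s := by field_simp
  rw [e, abs_div, abs_of_pos hs, div_le_iff₀ hs]
  refine le_of_mul_le_mul_right ?_ hs
  have : |z ^ 2 - s ^ 2| = |z - s| * (z + s) := by
    rw [show z ^ 2 - s ^ 2 = (z - s) * (z + s) by ring, abs_mul, abs_of_pos (add_pos_of_nonneg_of_pos hz hs)]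
  linarith [mul_nonneg (abs_nonneg (z - s)) hz]

lemma card_swap (c c' : V → ℕ) (i : ℕ) (p : V → Prop) :
    ((univ.filter fun v => c v = i ∧ p v).card : ℝ) ≤ (univ.filter fun v => c' v = i ∧ p v).card +
      (univ.filter fun v => c v ≠ c' v).card := by
  refine mod_cast (card_le_card fun v hv => ?_).trans (card_union_le _ _)
  simp only [mem_filter, mem_union, mem_univ, true_and] at hv ⊢
  by_cases e : c v = c' v
  · exact Or.inl ⟨e ▸ hv.1, hv.2⟩
  · exact Or.inr e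

lemma size_real {r n n' l μ ε η ζ : ℝ} (hr : 3 ≤ r) (μ0 : 0 < μ) (h0 : 0 < ε)
    (h1 : 64 * r ^ 2 * ε ≤ η) (h2 : η ≤ 1 / 100) (lo : 1 - 1 / r - ε ≤ l * μ)
    (up : l * μ ≤ 1 - 1 / r + ε) (hm : 1 / 2 ≤ l * μ) (a1 : 1 / r - ε ≤ n' * ((1 + ε) * μ))
    (a2 : n' * ((1 - ε) * μ) ≤ 1 / r + r * ε) (b1 : n ≤ n' + ζ) (b2 : n' ≤ n + ζ)
    (hζ : 4 * r * ζ ≤ η * l) (hζ0 : 0 ≤ ζ) : |(r - 1) * n - l| ≤ η * l := by
  have r1 : r * (1 / r) = 1 := mul_one_div_cancel (by linarith)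
  have r0 : 0 < 1 / r := by positivity
  have r3 : 1 / r ≤ 1 / 3 := one_div_le_one_div_of_le (by norm_num) hr
  have e1 : 3 * (r * ε) ≤ r ^ 2 * ε := by nlinarith only [mul_pos (show 0 < r by linarith only [hr]) h0, hr, h0]
  have e2 : 3 * ε ≤ r * ε := by nlinarith only [hr, h0]
  have c1 : n' * μ ≤ 1 := by
    by_contra hn
    nlinarith only [mul_le_mul_of_nonneg_right (not_le.1 hn).le (show 0 ≤ 1 - ε by linarith only [h0, h1, h2, e1, e2]), h0, h1, h2, up, hm, a2, e1, e2, hn]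
  have c2 := mul_le_of_le_one_left h0.le c1
  have c3 : (r - 1) * (n' * μ) ≤ (r - 1) * (1 / r + r * ε + ε) :=
    mul_le_mul_of_nonneg_left (by linarith only [a2, c2]) (by linarith)
  have c4 : (r - 1) * (1 / r - ε - ε) ≤ (r - 1) * (n' * μ) :=
    mul_le_mul_of_nonneg_left (by linarith only [a1, c2]) (by linarith only [hr, h0, h1, h2, e1, e2])
  have c5 := mul_le_mul_of_nonneg_left hm (show 0 ≤ η by linarith only [h0, h1, e1, e2])
  have c6 : (r - 1) * n' - l ≤ η / 2 * l := le_of_mul_le_mul_right (by linarith only [h0, h1, lo, r1, e1, e2, c3, c5]) μ0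
  have c7 : -(η / 2 * l) ≤ (r - 1) * n' - l := le_of_mul_le_mul_right (by linarith only [h0, h1, up, r1, e1, e2, c4, c5]) μ0
  have c8 := mul_le_mul_of_nonneg_left b1 (show 0 ≤ r - 1 by linarith only [hr, h0, h1, h2, e1, e2])
  have c9 := mul_le_mul_of_nonneg_left b2 (show 0 ≤ r - 1 by linarith only [hr, h0, h1, h2, e1, e2])
  have c10 := mul_nonneg (show 0 ≤ r by linarith only [hr, h0, h1, h2, e1, e2]) hζ0
  rw [abs_le]
  constructor <;> linarith only [b1, b2, hζ, c6, c7, c9, c8]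

lemma st1_of_rough {r t : ℕ} (hr : 3 ≤ r) {G : SimpleGraph V} (hP : NoPlus G r t) {z : V → ℝ}
    (hz : Perron G z) {μ ξ η ε C : ℝ} (μ0 : 0 < μ) (e0 : 0 < ε)
    (e1 : 64 * (r * t + r ^ 2) * ε ≤ η) (e2 : η ≤ ξ) (e3 : 100 * r * (r * t + 1) * ξ ≤ 1)
    (m1 : μ ≤ ε) (m2 : 2 * μ ≤ η ^ 3) (lo : 1 - 1 / r - ε ≤ lam G * μ)
    (up : lam G * μ ≤ 1 - 1 / r + ε) {c c' : V → ℕ} (hc : Rough G z μ ξ r c)
    (hc' : Rough G z μ ε r c')
    (hZ : 4 * r * ((univ.filter fun v => c v ≠ c' v).card : ℝ) ≤ η * lam G)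
    (hk : (ec (Hm G c) : ℝ) ≤ C * lam G) (hE : (ec (Xe G c) : ℝ) ≤ C * lam G) (hC : 1 ≤ C)
    (hx : ∀ v, z v ^ 2 ≤ C * μ) : ∃ x c Z, St1 r G x ξ C η c Z ∧ Pre r G ξ η c := by
  have hr' : (3 : ℝ) ≤ r := by exact_mod_cast hr
  have r3 : 1 / (r : ℝ) ≤ 1 / 3 := one_div_le_one_div_of_le (by norm_num) hr'
  have ht : (0 : ℝ) ≤ t := Nat.cast_nonneg _
  have a1 : 0 ≤ r * t * ε := by positivity
  have a2 : 9 * ε ≤ r ^ 2 * ε := mul_le_mul_of_nonneg_right (by nlinarith only [hr']) e0.le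
  have η0 : 0 < η := by linarith
  have ξ0 : 0 < ξ := by linarith
  have a3 : 100 * (r * t * ξ) + 100 * ξ ≤ 1 / r := by rw [le_div_iff₀ (by linarith)]; linarith
  have a4 : 0 ≤ r * t * ξ := by positivity
  have a5 : 3 * (t * μ) ≤ r * t * ε := by
    linarith only [mul_le_mul_of_nonneg_left m1 ht, mul_le_mul_of_nonneg_right hr' (mul_nonneg ht e0.le), e0, m1, hr', ht]
  have hm : 3 / 5 ≤ lam G * μ := by linarith only [e0, e1, e2, lo, r3, a1, a2, a3, a4]
  have l0 : 0 < lam G := (mul_pos_iff_of_pos_right μ0).1 (by linarith only [e0, e1, e2, lo, r3, a1, a2, a3, a4])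
  have hF := hc'.fine hP (by omega) e0.le (ξ := η / 8) (by linarith only [e0, e1, e2, a1, a2, a3, a4]) μ0.le (by linarith only [e0, e1, a1, a2, a5])
    (by linarith only [e0, e1, a1, a2])
  obtain ⟨s, s0, hs⟩ : ∃ s : ℝ, 0 < s ∧ s ^ 2 = μ := ⟨√μ, Real.sqrt_pos.2 μ0, Real.sq_sqrt μ0.le⟩
  have Z0 : (0 : ℝ) ≤ (univ.filter fun v => c v ≠ c' v).card := Nat.cast_nonneg _
  have Z1 : ((univ.filter fun v => c v ≠ c' v).card : ℝ) ≤ η * lam G / 2 := by
    linarith only [mul_le_mul_of_nonneg_right hr' Z0, hZ, hr', Z0]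
  have key : ∀ j ∈ Icc 1 r, ∀ p : V → Prop,
      Wt (fun v => z v ^ 2) (fun w => c' w = j ∧ p w) ≤ η / 8 →
      ((univ.filter fun w => c w = j ∧ p w).card : ℝ) ≤ η * lam G := fun j hj p h => by
    have b1 := card_le_Wt (p := fun v => z v ^ 2) (a := μ / 2) (fun w => c' w = j ∧ p w)
      fun v hv => by
        have := mem_Icc.1 hj
        linarith only [(abs_le.1 (hc'.typ v (by omega))).1,
          mul_le_mul_of_nonneg_right (show ε ≤ 1 / 2 by linarith only [e0, e1, e2, r3, a1, a2, a3, a4]) μ0.le, μ0, e0, e1, e2, r3, a1, a2, a3, a4, hv, this]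
    have b2 : ((univ.filter fun w => c' w = j ∧ p w).card : ℝ) ≤ η * lam G / 2 :=
      le_of_mul_le_mul_right (by linarith only [mul_le_mul_of_nonneg_left hm η0.le, e0, e1, a1, a2, η0, hm, h, b1]) μ0
    linarith only [card_swap c c' j p, Z1, b2]
  refine ⟨fun v => z v / s, c, univ.filter fun v => c v ≠ c' v, ⟨⟨fun v => div_nonneg (hz.nonneg v)
    s0.le, fun u => ?_⟩, hc.le, hc.proper hP ξ0.le (by linarith only [e0, e1, e2, r3, a1, a2, a3, a4]) μ0.le (by linarith only [e0, e1, e2, a1, a2, a3, a4, a5]),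
    fun v hv => near_one (hz.nonneg v) s0 (hs ▸ hc.typ v hv), by linarith only [Z1], fun v hv hv' => ?_,
    fun i hi => ?_, hk, hE, fun v => ?_, ?_⟩, fun u => ?_, fun u => ?_, fun u v huv i hi => ?_⟩
  · rw [← mul_div_assoc, ← hz.eig u, op, sum_div]
    exact sum_congr rfl fun v _ => (mul_div_assoc _ _ _).symm
  · have : c v = c' v := by simpa using hv'
    exact (near_one (hz.nonneg v) s0 (hs ▸ hc'.typ v (this ▸ hv))).trans (by linarith only [e0, e1, a1, a2])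
  · have b1 := card_swap c c' i fun _ => True
    have b2 := card_swap c' c i fun _ => True
    simp only [and_true, ne_comm (a := c' _)] at b1 b2
    exact size_real hr' μ0 e0 (by linarith only [e1, a1]) (by linarith only [e0, e1, e2, r3, a1, a2, a3, a4]) lo up (by linarith only [e0, e1, e2, lo, r3, a1, a2, a3, a4]) (hc'.cn_lo hi)
      (hc'.cn_up hz.unit e0.le hi) b1 b2 hZ Z0
  · rw [div_le_iff₀ s0]
    refine (abs_le_of_sq_le_sq' ?_ (by positivity)).2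
    rw [mul_pow, hs]
    exact (hx v).trans (mul_le_mul_of_nonneg_right (by nlinarith only [hC]) μ0.le)
  · linarith only [mul_le_mul_of_nonneg_right m2 l0.le, e0, e1, e2, m2, lo, r3, a1, a2, a3, a4, l0]
  · by_cases hu : c u = 0
    · rw [filter_eq_empty_iff.2 fun v _ a => a.1.1 hu, card_empty, Nat.cast_zero]
      positivity
    · have b1 := card_le_Wt (p := fun v => z v ^ 2) (a := 9 / 10 * μ)
        (fun v => cross c u v ∧ ¬ G.Adj u v) fun v hv => by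
          linarith only [(abs_le.1 (hc.typ v hv.1.2.1)).1,
            mul_le_mul_of_nonneg_right (show ξ ≤ 1 / 10 by linarith only [e0, e1, e2, r3, a1, a2, a3, a4]) μ0.le, μ0, e0, e1, e2, r3, a1, a2, a3, a4, hv]
      have b2 : ((univ.filter fun v => cross c u v ∧ ¬ G.Adj u v).card : ℝ) ≤ 2 * ξ * lam G :=
        le_of_mul_le_mul_right
          (by linarith only [hc.miss u hu, mul_le_mul_of_nonneg_left hm ξ0.le, e0, e1, e2, a1, a2, ξ0, hm, hu, b1]) μ0
      convert b2 using 3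
      exact filter_congr fun _ _ => Iff.rfl
  · obtain ⟨i, hi, h⟩ := hF.E1 u
    exact ⟨i, hi, key i hi _ h⟩
  · obtain ⟨j, hj, hji, h⟩ := hF.E2 u v huv i hi
    exact ⟨j, hj, hji, by convert key j hj _ h⟩

end

theorem exists_st1 {r : ℕ} (hr : 3 ≤ r) (D t : ℕ) {C₀ ξ : ℝ} (hC : 0 ≤ C₀) (h0 : 0 < ξ)
    (h1 : 100 * r * (r * t + 1) * ξ ≤ 1) : ∃ C : ℝ, 1 ≤ C ∧ ∀ η : ℝ, 0 < η → η ≤ ξ → ∃ M : ℝ,
    ∀ (V : Type) [Fintype V] (G : SimpleGraph V), Deg G r D → NoPlus G r t → M ≤ Mo G →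
      (1 - 1 / r) * Mo G - C₀ * lam G ≤ lam G ^ 2 →
      ∃ x c Z, St1 r G x ξ C η c Z ∧ Pre r G ξ η c := by
  have hr' : (3 : ℝ) ≤ r := by exact_mod_cast hr
  have r3 : 1 / (r : ℝ) ≤ 1 / 3 := one_div_le_one_div_of_le (by norm_num) hr'
  have ht : (0 : ℝ) ≤ r * t := by positivity
  have x1 : 100 * ξ ≤ 1 / r := by
    rw [le_div_iff₀ (by linarith)]
    linarith only [mul_nonneg (mul_nonneg (show (0 : ℝ) ≤ r by linarith) ht) h0.le, h0, h1, hr', ht]
  obtain ⟨M₂, h2⟩ := reduce_lin hr D t hC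
  obtain ⟨K, hK⟩ : ∃ K : ℝ, K = 200 * r * C₀ := ⟨_, rfl⟩
  have K0 : 0 ≤ K := by rw [hK]; positivity
  obtain ⟨L, hL⟩ : ∃ L : ℝ, L = C₀ + 2 * K * (5 + 2 * K) + 1 := ⟨_, rfl⟩
  have K1 : 0 ≤ 2 * K * (5 + 2 * K) := by positivity
  have L1 : 1 ≤ L := by linarith
  obtain ⟨B, B0, hB⟩ : ∃ B : ℝ, 0 ≤ B ∧ ξ ^ 3 * B = 128 * L :=
    ⟨128 * L / ξ ^ 3, by positivity, by field_simp⟩
  refine ⟨5 + 2 * K + 8 * L + 8 * B, by linarith only [hC, h0, r3, x1, K0, hL, K1, B0], fun η η0 η1 => ?_⟩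
  obtain ⟨ε, e0, e1⟩ : ∃ ε : ℝ, 0 < ε ∧ 64 * (r * t + r ^ 2) * ε = η :=
    ⟨η / (64 * (r * t + r ^ 2)), by positivity, by field_simp⟩
  have e2 : 9 * ε ≤ r ^ 2 * ε := mul_le_mul_of_nonneg_right (by nlinarith only [hr']) e0.le
  have e3 : 576 * ε ≤ η := by linarith [mul_nonneg ht e0.le]
  obtain ⟨δ, d0, d1⟩ : ∃ δ : ℝ, 0 < δ ∧ 4096 * r * L * δ = ε ^ 4 :=
    ⟨ε ^ 4 / (4096 * r * L), by positivity, by field_simp⟩
  refine ⟨max M₂ (1 / δ ^ 2), fun V _ G hD hP hM hl => ?_⟩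
  rw [max_le_iff] at hM
  have hM0 : 0 < Mo G := lt_of_lt_of_le (by positivity) hM.2
  have := nonempty_of_Mo hM0
  obtain ⟨H, hle, hf, hK', hd⟩ := h2 V G hD hP hM.1 hl
  rw [← hK] at hK'
  obtain ⟨z, hz⟩ := exists_perron G
  have hp : ∀ v, 0 ≤ z v ^ 2 := fun v => sq_nonneg (z v)
  have b1 := mu_small (lam_sq_le G) d0 hM.2
  have l0 : 0 < lam G := lt_of_le_of_ne (lam_nonneg G) fun e => by
    rw [← e] at hl
    linarith only [mul_pos (show 0 < 1 - 1 / (r : ℝ) by linarith only [r3, x1, η1, e0, e3]) hM0, r3, x1, η1, e0, e3, hl, hM0]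
  obtain ⟨μ, hμ⟩ : ∃ μ, μ = lam G / Mo G := ⟨_, rfl⟩
  rw [← hμ] at b1
  have μ0 : 0 < μ := hμ ▸ div_pos l0 hM0
  have he : μ * Mo G = lam G := by rw [hμ]; field_simp
  have he2 : lam G * μ * Mo G = lam G ^ 2 := by rw [mul_assoc, he, sq]
  have Lμ : 0 < L * μ := by positivity
  have b2 : 4096 * r * (L * μ) ≤ ε ^ 4 := by
    linarith only [mul_le_mul_of_nonneg_left b1 (show 0 ≤ 4096 * r * L by positivity), hr, L1, d1, b1]
  have b3 : 12288 * (L * μ) ≤ ε ^ 4 := by linarith only [mul_le_mul_of_nonneg_right hr' Lμ.le, hr', Lμ, b2]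
  have p1 : ε ^ 4 ≤ ε ^ 3 := pow_le_pow_of_le_one e0.le (by linarith only [r3, x1, η1, e0, e3]) (by norm_num)
  have p2 : ε ^ 3 ≤ ε := pow_le_of_le_one e0.le (by linarith only [r3, x1, η1, e0, e3]) (by norm_num)
  have p3 : ε ^ 3 ≤ η ^ 3 := pow_le_pow_left₀ e0.le (by linarith only [e3, Lμ, b3, p1, p2]) 3
  have p4 : ε ^ 4 ≤ ξ ^ 4 := pow_le_pow_left₀ e0.le (by linarith only [η1, e3, Lμ, b3, p1, p2]) 4
  have p5 : ε ^ 3 ≤ ξ ^ 3 := pow_le_pow_left₀ e0.le (by linarith only [η1, e3, Lμ, b3, p1, p2]) 3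
  have m0 : μ ≤ L * μ := le_mul_of_one_le_left μ0.le L1
  have lo : 1 - 1 / r - C₀ * μ ≤ lam G * μ :=
    le_of_mul_le_mul_right (by rw [sub_mul, mul_assoc C₀, he]; linarith only [hl, he2]) hM0
  have m1 : C₀ * μ + 2 * K * (5 + 2 * K) * μ + μ = L * μ := by rw [hL]; ring
  have m2 := mul_nonneg K1 μ0.le
  have m3 := mul_nonneg hC μ0.le
  have hm : 1 / 2 ≤ lam G * μ := by linarith only [r3, x1, η1, e3, μ0, Lμ, b3, p1, p2, lo, m1, m2]
  have up1 : lam G * μ ≤ 1 := le_of_mul_le_mul_right (by linarith only [lam_sq_le G, he2]) hM0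
  have b6 := perron_small2 hz hle hK' hd l0 K0
    (by linarith only [mul_le_mul_of_nonneg_right hm hM0.le, hM0, he2, hm]) hm
  have b7 : lam G - (5 + 2 * K) * K ≤ qf H z := by
    have c1 := qf_sdiff hle z
    have c2 : qf (G \ H) z ≤ (5 + 2 * K) * μ * Mo (G \ H) := by
      rw [qf, Mo, S2_mul]
      refine S2_mono fun u v => ?_
      rw [mul_comm ((5 + 2 * K) * μ)]
      refine mul_le_mul_of_nonneg_left ?_ (ad_nonneg _ _ _)
      linarith only [b6 u, b6 v, sq_nonneg (z u - z v)]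
    rw [Mo_sdiff hle] at c2
    rw [hz.val] at c1
    linarith only [mul_le_mul_of_nonneg_left hK' (show 0 ≤ (5 + 2 * K) * μ by positivity),
      mul_le_mul_of_nonneg_left up1 K1, K0, K1, hK', μ0, up1, c1, c2]
  obtain ⟨c₀, c1, c2, c3⟩ := core_zero hz.unit (by omega) hf
  have c4 := c3 μ
  have c5 : 1 - 1 / r - (2 * μ * qf H z - μ ^ 2 * Mo H) ≤
      1 - 1 / r - lam G * μ + 2 * K * (5 + 2 * K) * μ := by
    have d1 := mul_le_mul_of_nonneg_left b7 μ0.le
    have d2 := mul_le_mul_of_nonneg_left (Mo_mono hle) (sq_nonneg μ)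
    have d3 : μ ^ 2 * Mo G = lam G * μ := by rw [← he]; ring
    linarith only [d1, d2, d3]
  have c6 := Dev_nonneg H z μ
  have c7 := Miss_nonneg H hp c₀
  have c8 : 0 ≤ ∑ i ∈ Icc 1 r, (Pc (fun v => z v ^ 2) c₀ i - 1 / r) ^ 2 :=
    sum_nonneg fun _ _ => sq_nonneg _
  have e4 : 1 / (2 * (r : ℝ)) = 1 / r / 2 := by rw [div_div, mul_comm]
  obtain ⟨c, hc, f1, f2, f3⟩ := recolour2 (G := H) hz.nonneg μ0 hr h0 (by linarith only [x1, η1, e3, Lμ, b3, p1, p2, e4]) c1 c2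
    (by linarith only [η1, e3, Lμ, b3, p1, p2]) (Δ := L * μ) (by linarith only [μ0, lo, m1, c4, c5]) (by linarith only [Lμ, b3, p4])
  obtain ⟨c', hc', -, g2, g3⟩ := recolour2 (G := H) hz.nonneg μ0 hr e0 (by linarith only [x1, η1, e3, Lμ, b3, p1, p2, e4]) c1 c2
    (by linarith only [Lμ, b3, p1, p2]) (Δ := L * μ) (by linarith only [μ0, lo, m1, c4, c5]) (by linarith only [Lμ, b3])
  have t1 : ∀ v, c v ≠ 0 → μ / 2 ≤ z v ^ 2 := fun v hv => by
    linarith only [(abs_le.1 (hc.typ v hv)).1,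
      mul_le_mul_of_nonneg_right (show ξ ≤ 1 / 2 by linarith only [r3, x1, η1, e3, Lμ, b3, p1, p2]) μ0.le, r3, x1, η1, e3, μ0, Lμ, b3, p1, p2, hv]
  have t2 : ∀ v, c' v ≠ 0 → μ / 2 ≤ z v ^ 2 := fun v hv => by
    linarith only [(abs_le.1 (hc'.typ v hv)).1,
      mul_le_mul_of_nonneg_right (show ε ≤ 1 / 2 by linarith only [r3, x1, η1, e3, Lμ, b3, p1, p2]) μ0.le, r3, x1, η1, e3, μ0, Lμ, b3, p1, p2, hv]
  have hLl := mul_le_mul_of_nonneg_left hm (show 0 ≤ L by linarith only [hC, r3, x1, hL, K1, η1, e3, Lμ, b3, p1, p2])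
  have Kl := mul_nonneg K0 l0.le
  have Bl := mul_nonneg B0 l0.le
  have Ll := mul_nonneg (show 0 ≤ L by linarith only [hC, r3, x1, hL, K1, η1, e3, Lμ, b3, p1, p2]) l0.le
  refine st1_of_rough hr hP hz μ0 e0 e1.le η1 h1 (by linarith only [Lμ, b3, p1, p2, m0]) (by linarith only [Lμ, b3, p1, p3, m0]) (by linarith only [μ0, Lμ, b3, p1, p2, lo, m1, m2])
    (by linarith only [μ0, Lμ, b3, p1, p2, m1, m3, c4, c5, c6, c7, c8]) (hc.mono hle) (hc'.mono hle) ?_ ?_ ?_ (by linarith only [hC, r3, x1, K0, hL, K1, B0, η1, e3, Lμ, b3, p1, p2]) fun v => (b6 v).trans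
      (mul_le_mul_of_nonneg_right (by linarith only [hC, r3, x1, hL, K1, B0, η1, e3, Lμ, b3, p1, p2]) μ0.le)
  · have d1 := card_le_Wt (p := fun v => z v ^ 2) (a := μ / 2) (fun v => c v ≠ c' v) fun v hv => by
      by_cases e : c v = 0
      · exact t2 v fun e' => hv (e.trans e'.symm)
      · exact t1 v e
    have d2 := Wt_add hp (S := fun v => c v ≠ c' v) (T := fun v => c v = 0) (U := fun v => c' v = 0)
      fun v hv => by
        by_contra hn
        push Not at hn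
        exact hv ((f2 v hn.1).trans (g2 v hn.2).symm)
    rw [← Pc_eq, ← Pc_eq] at d2
    have d3 := mul_le_mul_of_nonneg_right p5 (Pc_nonneg hp c 0)
    have d4 := mul_le_mul_of_nonneg_left (d1.trans d2) (pow_pos e0 3).le
    have d5 : ε ^ 3 * ((univ.filter fun v => c v ≠ c' v).card : ℝ) ≤ 512 * L :=
      le_of_mul_le_mul_right (by linarith only [f3, g3, d3, d4]) μ0
    have d6 := mul_le_mul_of_nonneg_left d5 (show 0 ≤ 4 * r * μ by positivity)
    have d7 : ε ≤ η * (2 * (lam G * μ)) := by nlinarith only [h0, r3, x1, η0, η1, e3, μ0, b3, p1, p2, lo, m1, m2]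
    have d8 := mul_le_mul_of_nonneg_left d7 (pow_pos e0 3).le
    exact le_of_mul_le_mul_left (a := ε ^ 3 * μ) (by linarith only [b2, d6, d8]) (by positivity)
  · have d1 := Mo_Hm_le hle μ0.le t1
    rw [Mo_ec] at d1
    have d2 : μ * ec (Hm G c) ≤ 4 * L := le_of_mul_le_mul_left (by linarith only [f1, d1]) μ0
    have d3 : (ec (Hm G c) : ℝ) ≤ 8 * L * lam G := le_of_mul_le_mul_left (by linarith only [hLl, d2]) μ0
    linarith only [l0, Kl, Bl, d3]
  · have d1 := Mo_Xe_le hle hz.nonneg hz.unit μ c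
    rw [Mo_ec] at d1
    have d2 : Pc (fun v => z v ^ 2) c 0 ≤ B * μ :=
      le_of_mul_le_mul_left (by rw [← mul_assoc, hB]; linarith only [f3]) (pow_pos h0 3)
    have d3 := mul_le_mul_of_nonneg_left hK' (sq_nonneg μ)
    have d4 : μ * (2 * ec (Xe G c)) ≤ K * (lam G * μ) + 4 * L + 8 * B :=
      le_of_mul_le_mul_left (by linarith only [μ0, lo, m1, c4, c5, c7, c8, d1, d2, d3]) μ0
    have d5 : (ec (Xe G c) : ℝ) ≤ (K + 4 * L + 8 * B) * lam G := le_of_mul_le_mul_left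
      (by linarith only [mul_le_mul_of_nonneg_left hm B0, mul_nonneg Kl μ0.le, B0, μ0, hm, hLl, Kl, d4]) μ0
    linarith only [l0, Kl, Ll, d5]

end Pool.Agent.P.MP_094db5_co

end
end

section

/-! The lower bound for the spectral radius of an extremal graph. -/

set_option autoImplicit false

open Finset Classical

noncomputable section

namespace Pool.Agent.P.MP_094db5_co

theorem ALb_label (V : Type) [Fintype V] (k : ℕ → ℕ) (r : ℕ)
    (h : ∑ i ∈ Icc 1 r, k i ≤ Fintype.card V) :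
    ∃ c : V → ℕ, (∀ v, c v ≤ r) ∧ (∀ i ∈ Icc 1 r, cn c i = k i) ∧
      cn c 0 + ∑ i ∈ Icc 1 r, k i = Fintype.card V := by
  induction r with
  | zero => exact ⟨fun _ => 0, fun _ => le_rfl, by simp, by simp [cn]⟩
  | succ r ih =>
    rw [sum_Icc_succ_top (by omega)] at h ⊢
    obtain ⟨c, h1, h2, h3⟩ := ih (by omega)
    obtain ⟨T, hT, hTc⟩ := exists_subset_card_eq (s := Vp c 0) (n := k (r + 1))
      (by rw [card_Vp]; omega)
    have hT0 : ∀ v ∈ T, c v = 0 := fun v hv => mem_Vp.1 (hT hv)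
    refine ⟨fun v => if v ∈ T then r + 1 else c v, fun v => ?_, fun i hi => ?_, ?_⟩
    · have := h1 v
      dsimp only
      split_ifs <;> omega
    · have hi' := mem_Icc.1 hi
      by_cases e : i = r + 1
      · subst e
        rw [← hTc, cn]
        congr 1
        ext v
        have := h1 v
        by_cases hv : v ∈ T
        · simp [hv]
        · simp only [mem_filter, mem_univ, true_and, hv, if_false, iff_false]
          omega
      · rw [← h2 i (mem_Icc.2 ⟨hi'.1, by omega⟩), cn, cn]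
        congr 1
        ext v
        by_cases hv : v ∈ T
        · have := hT0 v hv
          simp only [mem_filter, mem_univ, true_and, hv, if_true]
          omega
        · simp [hv]
    · have h4 : cn (fun v => if v ∈ T then r + 1 else c v) 0 = (Vp c 0 \ T).card := by
        rw [cn]
        congr 1
        ext v
        by_cases hv : v ∈ T <;> simp [hv]
      rw [h4, card_sdiff_of_subset hT, card_Vp, hTc]
      have := card_le_card hT
      rw [card_Vp, hTc] at this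
      omega

theorem ALb_Pc {V : Type} [Fintype V] (g : ℕ → ℝ) (c : V → ℕ) (i : ℕ) :
    Pc (fun v => g (c v)) c i = cn c i * g i := by
  rw [← Pc_const]
  exact le_antisymm (Pc_mono fun v e => by rw [e]) (Pc_mono fun v e => by rw [e])

theorem ALb_nat {A p m : ℕ} (hA : 0 < A) (hp : 0 < p) (K : ℕ) (hK : 0 < K)
    (hm : A * K ^ 2 + 1 ≤ m) :
    ∃ n q s : ℕ, K ≤ n ∧ s < p * n ∧ A * n ^ 2 + q * (p * n) + s + 1 = m ∧ m ≤ A * (n + 1) ^ 2 := by
  set n := Nat.sqrt ((m - 1) / A) with hn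
  have h1 : A * n ^ 2 ≤ m - 1 :=
    (Nat.mul_le_mul_left A (Nat.sqrt_le' _)).trans (Nat.mul_div_le _ _)
  have h2 : m - 1 < A * (n + 1) ^ 2 := by
    rw [mul_comm]
    exact (Nat.div_lt_iff_lt_mul hA).1 (Nat.lt_succ_sqrt' _)
  have h3 : K ≤ n := by
    by_contra h
    have := Nat.mul_le_mul_left A (Nat.pow_le_pow_left (show n + 1 ≤ K by omega) 2)
    omega
  have h4 : 0 < p * n := Nat.mul_pos hp (by omega)
  refine ⟨n, (m - 1 - A * n ^ 2) / (p * n), (m - 1 - A * n ^ 2) % (p * n), h3,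
    Nat.mod_lt _ h4, ?_, by omega⟩
  have := Nat.div_add_mod' (m - 1 - A * n ^ 2) (p * n)
  omega

theorem ALb_real {p n A m l : ℝ} (hp : 2 ≤ p) (hn : 8 ≤ n) (hA : (p + 1) * p = 2 * A)
    (hm : m ≤ A * (n + 1) ^ 2)
    (h : (p + 1) * p * n ^ 2 - l * ((p + 1) * n) ≤ 8 * (p + 1)) :
    (1 - 1 / (p + 1)) * (2 * m) - 3 * (p + 1) ^ 2 * l ≤ l ^ 2 := by
  have h1 : p * n ^ 2 - l * n ≤ 8 := by
    refine le_of_mul_le_mul_left ?_ (show 0 < p + 1 by linarith)
    linarith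
  have h2 : p * n - 1 ≤ l := by
    refine le_of_mul_le_mul_right ?_ (show 0 < n by linarith)
    nlinarith only [hn, h1]
  have h3 : 1 ≤ l := by nlinarith only [hp, hn, h2]
  have h4 : (1 - 1 / (p + 1)) * (2 * m) ≤ (p * (n + 1)) ^ 2 := by
    have e : 1 - 1 / (p + 1) = p / (p + 1) := by
      field_simp
      ring
    rw [e, div_mul_eq_mul_div, div_le_iff₀ (by linarith)]
    have := mul_le_mul_of_nonneg_left hm (show 0 ≤ 2 * p by linarith)
    have e2 : 2 * p * (A * (n + 1) ^ 2) = (p * (n + 1)) ^ 2 * (p + 1) := by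
      linear_combination (-(p * (n + 1) ^ 2)) * hA
    linarith
  have h5 : (p * (n + 1)) ^ 2 ≤ (l + (p + 1)) ^ 2 :=
    pow_le_pow_left₀ (by positivity) (by linarith) 2
  have h6 : 0 ≤ (p + 1) ^ 2 * (l - 1) := mul_nonneg (sq_nonneg _) (by linarith)
  have h7 : 0 ≤ (p + 1) * p * l := by positivity
  nlinarith only [h4, h5, h6, h7]

theorem lower_all {r : ℕ} (hr : 3 ≤ r) : ∃ M : ℝ, ∀ (V : Type) [Fintype V] (D t : ℕ)
    (Fr : SimpleGraph V → Prop) (G : SimpleGraph V), Cls r D t Fr → Ex r Fr G → M ≤ Mo G →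
    (1 - 1 / r) * Mo G - 3 * r ^ 2 * lam G ≤ lam G ^ 2 := by
  obtain ⟨p, rfl⟩ : ∃ p, r = p + 1 := ⟨r - 1, by omega⟩
  obtain ⟨A, hA⟩ : ∃ A, (p + 1) * p = 2 * A := by
    rw [mul_comm]
    exact (Nat.even_mul_succ_self p).two_dvd
  have hA0 : 0 < A := by
    have := Nat.mul_pos (show 0 < p + 1 by omega) (show 0 < p by omega)
    omega
  refine ⟨2 * ((A * (2 * p + 8) ^ 2 + 1 : ℕ) : ℝ), ?_⟩
  intro V _ D t Fr G hC hG hM
  rw [Mo_ec] at hM
  have hM' : A * (2 * p + 8) ^ 2 + 1 ≤ ec G := by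
    exact_mod_cast le_of_mul_le_mul_left hM two_pos
  obtain ⟨n, q, s, hn, hs, hm, hm'⟩ := ALb_nat hA0 (show 0 < p by omega) _ (by omega) hM'
  have hV : 2 * ec G + 2 ≤ Fintype.card V := hG.iso.trans (card_le_univ _)
  let k : ℕ → ℕ := fun i => n + if i = 1 then q else 0
  have h1 : (1 : ℕ) ∈ Icc 1 (p + 1) := by simp
  have hk : ∑ i ∈ Icc 1 (p + 1), k i = (p + 1) * n + q := by
    simp [k, sum_add_distrib]
  have hsz : (p + 1) * n + q ≤ 2 * ec G := by
    have e1 : (p + 1) * n ≤ 2 * (A * n ^ 2) := by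
      rw [← mul_assoc, ← hA, mul_assoc]
      exact Nat.mul_le_mul_left _ (by nlinarith only [hr, hn])
    have e2 : q ≤ q * (p * n) := Nat.le_mul_of_pos_right _ (by omega)
    omega
  obtain ⟨c, hc, hcn, hc0⟩ := ALb_label V k (p + 1) (by omega)
  have hkn : ∀ i, n ≤ k i := fun i => Nat.le_add_right _ _
  have hOut : (Out c 1).card = p * n := by
    rw [card_Out hc, sum_congr rfl (g := fun _ => n) fun i hi => by
      rw [hcn i (mem_of_mem_erase hi)]
      simp [k, ne_of_mem_erase hi]]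
    simp
  obtain ⟨S, hS, hSc⟩ := exists_subset_card_eq (s := Out c 1) (n := s) (by omega)
  have hA' : ((p : ℝ) + 1) * p = 2 * A := by exact_mod_cast hA
  have hK : ec (Kc c) = A * n ^ 2 + q * (p * n) := by
    have e1 := Mo_Kc hc
    have e2 : ∑ i ∈ Icc 1 (p + 1), (cn c i : ℝ) = (p + 1) * n + q := by
      rw [sum_congr rfl fun i hi => by rw [hcn i hi]]
      exact_mod_cast hk
    have e3 : ∑ i ∈ Icc 1 (p + 1), (cn c i : ℝ) ^ 2 = (p + 1) * n ^ 2 + (2 * n * q + q ^ 2) := by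
      rw [sum_congr rfl (g := fun i => (n : ℝ) ^ 2 + if i = 1 then (2 * n * q + q ^ 2 : ℝ) else 0)
        fun i hi => by
          rw [hcn i hi]
          by_cases e : i = 1
          · simp only [k, e, if_true]
            push_cast
            ring
          · simp [k, e]]
      simp [sum_add_distrib]
    rw [Mo_ec, e2, e3] at e1
    have e4 : (ec (Kc c) : ℝ) = A * n ^ 2 + q * (p * n) := by
      linear_combination (1 / 2) * e1 + (n : ℝ) ^ 2 / 2 * hA'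
    exact_mod_cast e4
  have l0 : 0 < lam G := by
    have e1 := qf_le_lam G (fun _ => 1)
    rw [← Mo_eq_qf, Mo_ec] at e1
    have e2 : (0 : ℝ) < ec G := by exact_mod_cast (by omega : 0 < ec G)
    by_contra e3
    have := mul_nonpos_of_nonpos_of_nonneg (not_lt.1 e3)
      (sum_nonneg (s := (univ : Finset V)) fun _ _ => sq_nonneg (1 : ℝ))
    linarith only [e1, e2, this]
  have hn0 : (0 : ℝ) < n := by exact_mod_cast (by omega : 0 < n)
  have hk0 : ∀ i, (n : ℝ) ≤ k i := fun i => by exact_mod_cast hkn i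
  let g : ℕ → ℝ := fun i => if i = 0 then 0 else n / k i
  have hg0 : ∀ i, 0 ≤ g i := fun i => by
    simp only [g]
    split_ifs
    · exact le_rfl
    · positivity
  have hg1 : ∀ i, g i ≤ 1 := fun i => by
    simp only [g]
    split_ifs
    · exact zero_le_one
    · exact div_le_one_of_le₀ (hk0 i) (Nat.cast_nonneg _)
  have hP : ∀ i ∈ Icc 1 (p + 1), (cn c i : ℝ) * g i = n := fun i hi => by
    have e : i ≠ 0 := by
      have := (mem_Icc.1 hi).1
      omega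
    have := (hn0.trans_le (hk0 i)).ne'
    simp only [g, hcn i hi, if_neg e]
    field_simp
  have key := hC.ineq hG (by omega) hc (fun i hi => by
      have := hkn i
      rw [hcn i hi]
      omega) (by omega) h1 hS (by omega) l0 (y := fun v => g (c v)) (fun v => hg0 _)
    (fun v hv => by simp [g, hv]) (fun v => (hg1 _).trans one_le_two)
  have hq : qf (Kc c) (fun v => g (c v)) = (p + 1) * p * n ^ 2 := by
    rw [qf_Kc _ hc, sum_congr rfl (g := fun _ => (n : ℝ)) fun i hi => by rw [ALb_Pc, hP i hi],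
      sum_congr rfl (f := fun i => Pc (fun v => g (c v)) c i ^ 2) (g := fun _ => (n : ℝ) ^ 2)
        fun i hi => by rw [ALb_Pc, hP i hi]]
    simp only [sum_const, Nat.card_Icc, Nat.add_sub_cancel, nsmul_eq_mul]
    push_cast
    ring
  have hy : ∑ v, g (c v) ^ 2 ≤ (p + 1) * n := by
    have e1 := sum_Pc (fun v => g (c v) ^ 2) hc
    have e2 : ∑ i ∈ Icc 1 (p + 1), Pc (fun v => g (c v) ^ 2) c i
        ≤ ∑ _i ∈ Icc 1 (p + 1), (n : ℝ) :=
      sum_le_sum fun i hi => by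
        rw [ALb_Pc (fun i => g i ^ 2), pow_two, ← mul_assoc, hP i hi]
        exact mul_le_of_le_one_right hn0.le (hg1 i)
    have e3 : g 0 = 0 := if_pos rfl
    rw [ALb_Pc (fun i => g i ^ 2), e3] at e1
    rw [sum_const, Nat.card_Icc, Nat.add_sub_cancel, nsmul_eq_mul] at e2
    push_cast at e2
    linarith only [e1, e2]
  rw [Mo_ec]
  push_cast
  refine ALb_real (A := A) (n := n) (by exact_mod_cast (by omega : 2 ≤ p))
    (by exact_mod_cast (by omega : 8 ≤ n)) hA' (by exact_mod_cast hm') ?_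
  refine le_of_mul_le_mul_left ?_ l0
  rw [Ph, hq] at key
  push_cast at key
  have e1 := mul_le_mul_of_nonneg_left hy (mul_nonneg l0.le l0.le)
  nlinarith only [sq_nonneg (∑ v ∈ S, g (c v)), key, e1]

end Pool.Agent.P.MP_094db5_co

end
end

section

/-! The final structure. -/

set_option autoImplicit false

open Finset Classical

noncomputable section

namespace Pool.Agent.P.MP_094db5_co

theorem AFin_par {r C η ξ l : ℝ} (hr : 3 ≤ r) (hC : 1 ≤ C) (h0 : 0 < η) (h1 : 0 < ξ)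
    (h2 : 100 * r * ξ ≤ 1) (h3 : 10 ^ 4 * r ^ 2 * C ^ 4 * η ≤ ξ ^ 2)
    (h4 : 10 ^ 8 * r ^ 4 * C ^ 4 ≤ η ^ 2 * l) : 300 * ξ ≤ 1 ∧ 100 * η ≤ ξ ∧ 2 * r ^ 2 * η ≤ 1 ∧
      301 * C * η ≤ ξ ^ 2 / 10 ∧ 10 * r ^ 2 * (301 * C * η) ≤ ξ ∧ 0 < l ∧
      100 * C ^ 2 ≤ η * l := by
  have a1 : 300 * ξ ≤ 1 := by nlinarith only [hr, h1, h2]
  have a2 : ξ ^ 2 ≤ ξ := by nlinarith only [hr, h1, h2]
  have a3 : 9 ≤ r ^ 2 := by nlinarith only [hr]
  have a4 : C ≤ C ^ 2 := by nlinarith only [hC]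
  have a5 : C ^ 2 ≤ C ^ 4 := by nlinarith only [hC, a4]
  have b0 : 0 ≤ r ^ 2 * η := by positivity
  have b1 : r ^ 2 * η * C ≤ r ^ 2 * η * C ^ 4 := mul_le_mul_of_nonneg_left (a4.trans a5) b0
  have b2 : r ^ 2 * η * 1 ≤ r ^ 2 * η * C := mul_le_mul_of_nonneg_left hC b0
  have b3 : 9 * η ≤ r ^ 2 * η := mul_le_mul_of_nonneg_right a3 h0.le
  have b4 : 9 * (C * η) ≤ r ^ 2 * (C * η) := mul_le_mul_of_nonneg_right a3 (by positivity)
  have b5 : 1 * C ^ 4 ≤ r ^ 4 * C ^ 4 :=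
    mul_le_mul_of_nonneg_right (by nlinarith only [h0, h3, a1, a2, a3, b1, b2, b3]) (by positivity)
  have l0 : 0 < l := by
    by_contra hc
    have := mul_nonneg (sq_nonneg η) (neg_nonneg.2 (not_lt.1 hc))
    nlinarith only [hC, h0, h3, h4, a1, a2, a4, a5, b1, b2, b3, b5, this]
  have b6 : η * (η * l) ≤ 1 * (η * l) :=
    mul_le_mul_of_nonneg_right (by linarith) (by positivity)
  refine ⟨a1, by linarith, by linarith, by linarith only [h0, h3, b1, b2, b3, b4], by linarith, l0, by nlinarith only [hC, h0, h3, h4, a1, a2, a4, a5, b1, b2, b3, b5, b6]⟩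

section

variable {V : Type} [Fintype V] {r D t : ℕ} {Fr : SimpleGraph V → Prop} {G : SimpleGraph V}
  {x : V → ℝ} {ξ C η : ℝ} {c : V → ℕ} {Z : Finset V}

theorem AFin_aT (h : ∀ v, c v ≠ 0 → |x v - 1| ≤ ξ) (u : V) :
    (1 - ξ) * dT G c u ≤ aT G c x u ∧ aT G c x u ≤ (1 + ξ) * dT G c u := by
  unfold aT dT
  constructor
  · rw [mul_comm, ← nsmul_eq_mul]
    exact card_nsmul_le_sum _ _ _ fun v hv => by linarith [(abs_le.1 (h v (mem_nT.1 hv).2)).1]
  · rw [mul_comm, ← nsmul_eq_mul]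
    exact sum_le_card_nsmul _ _ _ fun v hv => by linarith [(abs_le.1 (h v (mem_nT.1 hv).2)).2]

theorem AFin_op (h : ∀ v, 0 ≤ x v) (u : V) : op (Ww G c) x u ≤ ∑ v ∈ Vp c 0, x v := by
  unfold op Vp
  rw [sum_filter]
  refine sum_le_sum fun v _ => ?_
  unfold ad
  by_cases h1 : (Ww G c).Adj u v
  · rw [if_pos h1, if_pos h1.2.2, one_mul]
  · rw [if_neg h1, zero_mul]
    split_ifs
    · exact h v
    · exact le_rfl

theorem AFin_one (h : Mid r D t Fr G x ξ C η c Z) : ∃ z, c z = 0 ∧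
    (∑ u ∈ (Vp c 0).erase z, (dT G c u : ℝ)) + ec (Ww G c) + (ec (Hm G c) + 1) ≤
      5 * ξ * (Out c 1).card ∧ (dT G c z : ℝ) ≤ (1 - 1 / r) ^ 2 * lam G := by
  have hr : (3 : ℝ) ≤ r := by exact_mod_cast h.r3
  obtain ⟨p1, p2, p3, p4, p5, l0, p6⟩ := AFin_par hr h.C1 h.η0 h.ξ0 h.ξ1 h.sm h.l_big
  have hC := h.C1
  have η0 := h.η0
  have ξ0 := h.ξ0
  obtain ⟨n1, n2⟩ := abs_le.1 (h.st.out_size (l := 1) (by have := h.r3; omega)
    (mem_Icc.2 ⟨le_rfl, by have := h.r3; omega⟩))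
  have hcl := h.clone
  have hfi := h.fill
  have hE := ec_Xe G c
  have hD : (D2 G c : ℝ) = ∑ u ∈ Vp c 0, (dT G c u : ℝ) ^ 2 := by simp [D2]
  have q1 : η * lam G ≤ 1 / 2 * lam G := mul_le_mul_of_nonneg_right (by linarith only [p1, p2, η0]) l0.le
  have q2 : 1 ≤ C ^ 2 := by nlinarith only [hC]
  have hW : (Vp c 0).Nonempty := by
    have h1 := h.ex.spare h.st.eig (c := c) (by linarith only [p1, p2, p6, η0, q1, q2]) fun v hv => by
      linarith only [(abs_le.1 (h.st.typ v hv)).1, p1, p2, η0, hv]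
    rw [← card_pos, card_Vp]
    exact_mod_cast (show (0 : ℝ) < cn c 0 by linarith only [p1, p2, p6, η0, q1, q2, h1])
  generalize (Out c 1).card = N at *
  generalize ec (Hm G c) = k at *
  generalize ec (Xe G c) = E at *
  generalize ec (Ww G c) = e at *
  generalize D2 G c = P at *
  have N0 : (0 : ℝ) < N := by linarith
  have hEr : (E : ℝ) = ∑ u ∈ Vp c 0, (dT G c u : ℝ) + e := by rw [hE]; push_cast; rfl
  have q3 : 2 * (N : ℝ) ≤ C * η * N ^ 2 := by
    have a1 : η * (1 / 2 * lam G) ≤ η * N := mul_le_mul_of_nonneg_left (by linarith only [q1, n1]) η0.le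
    have a2 : 1 * (η * N) ≤ C * (η * N) := mul_le_mul_of_nonneg_right hC (by positivity)
    have a3 : 2 * (N : ℝ) ≤ C * (η * N) * N := mul_le_mul_of_nonneg_right (by linarith only [p1, p2, p6, η0, q2, a1, a2]) N0.le
    linarith only [a3]
  have hθ : ∀ u ∈ Vp c 0, 0 ≤ (dT G c u : ℝ) / N ∧ (dT G c u : ℝ) / N ≤ 1 - 17 / 20 * ξ := by
    intro u hu
    refine ⟨by positivity, (div_le_iff₀ N0).2 ((h.wdeg u (mem_Vp.1 hu)).trans ?_)⟩
    have a1 : (1 - 17 / 20 * ξ) * ((1 - η) * lam G) ≤ (1 - 17 / 20 * ξ) * N :=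
      mul_le_mul_of_nonneg_left (by linarith) (by linarith only [p1, p2, η0])
    have a2 : (1 - 9 / 10 * ξ) * lam G ≤ (1 - 17 / 20 * ξ) * (1 - η) * lam G :=
      mul_le_mul_of_nonneg_right (by nlinarith only [mul_pos ξ0 η0, p2, η0, ξ0]) l0.le
    linarith only [a1, a2]
  have hP : ∑ u ∈ Vp c 0, ((dT G c u : ℝ) / N) ^ 2 = P / N ^ 2 := by
    rw [hD, sum_div]
    exact sum_congr rfl fun u _ => div_pow _ _ _
  have q4 : 2 * (1 - 2 * ξ) * (N : ℝ) ≤ 2 * N := mul_le_mul_of_nonneg_right (by linarith only [p2, η0]) N0.le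
  obtain ⟨z, hz, hz1⟩ := convex_one hW (θ := fun u => (dT G c u : ℝ) / N) (ε := e / N)
    (κ := (k + 1) / N) (δ := 301 * C * η) ξ0 (by linarith only [p1, p2, η0]) hθ (by positivity) (by positivity) p4
    (fun q a1 a2 => by
      have e1 : ∑ u ∈ Vp c 0, (dT G c u : ℝ) / N + e / N - (k + 1) / N - q =
          (E - k - 1 - q * N) / N := by
        rw [← sum_div, hEr]
        field_simp
        ring
      rw [e1] at a1 a2 ⊢
      rw [le_div_iff₀ N0, zero_mul] at a1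
      rw [div_le_iff₀ N0, one_mul] at a2
      have a3 : (0 : ℤ) ≤ E - k - 1 - q * N := by exact_mod_cast a1
      obtain ⟨s, hs⟩ := Int.eq_ofNat_of_zero_le a3
      have a4 : (E : ℝ) - k - 1 - q * N = s := by exact_mod_cast hs
      rw [a4] at a2 ⊢
      have a5 := hcl q s (by exact_mod_cast a2) (by linarith only [hs])
      rw [hP, ← sub_nonneg]
      have e2 : (P : ℝ) / N ^ 2 + 301 * C * η - (q + ((s : ℝ) / N) ^ 2 +
          2 * ((k + 1) / N) * (1 - 2 * ξ)) = (P + 301 * C * η * N ^ 2 - (q * N ^ 2 + s ^ 2 +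
          2 * (k + 1) * (1 - 2 * ξ) * N)) / N ^ 2 := by
        field_simp
      rw [e2]
      exact div_nonneg (by linarith only [q3, q4, a5]) (by positivity))
  have hR0 : 0 ≤ ∑ u ∈ (Vp c 0).erase z, (dT G c u : ℝ) := sum_nonneg fun u _ => by positivity
  have hP2 : (P : ℝ) ≤ (dT G c z : ℝ) ^ 2 + (∑ u ∈ (Vp c 0).erase z, (dT G c u : ℝ)) ^ 2 := by
    rw [hD, ← add_sum_erase _ _ hz]
    exact add_le_add le_rfl (sum_sq_le_sq_sum_of_nonneg fun u _ => by positivity)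
  rw [← add_sum_erase _ _ hz] at hEr
  have hθz := (hθ z hz).2
  rw [← sum_div, ← add_div, ← add_div, div_le_iff₀ N0] at hz1
  refine ⟨z, mem_Vp.1 hz, hz1, ?_⟩
  generalize ∑ u ∈ (Vp c 0).erase z, (dT G c u : ℝ) = R at *
  have e0 : (0 : ℝ) ≤ e := Nat.cast_nonneg e
  have k0 : (0 : ℝ) ≤ k := Nat.cast_nonneg k
  have d0 : (0 : ℝ) ≤ dT G c z := Nat.cast_nonneg _
  have q5 : 5 * ξ * (N : ℝ) ≤ 1 * N := mul_le_mul_of_nonneg_right (by linarith only [p1, p2, η0]) N0.le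
  have hd : (dT G c z : ℝ) / N < (1 - 1 / r) ^ 2 - η := by
    by_contra hc
    have e1 : (dT G c z : ℝ) / N + (R + e) / N - (k + 1) / N = (E - k - 1) / N := by
      rw [hEr]
      field_simp
      ring
    refine not_large (τ := (R + e) / N) (κ := (k + 1) / N) (P := P / N ^ 2) hr ξ0 h.ξ1 p3 p5 hθz
      (not_lt.1 hc) (by positivity) ((div_le_iff₀ N0).2 (by linarith only [p1, p2, η0, hz1])) (by positivity) ?_
      (fun a1 => ?_) fun a1 => ?_
    · rw [div_le_iff₀ (by positivity)]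
      have e2 : (((dT G c z : ℝ) / N) ^ 2 + 5 * ξ * ((R + e) / N)) * N ^ 2 =
          (dT G c z : ℝ) ^ 2 + 5 * ξ * N * (R + e) := by
        field_simp
      rw [e2]
      have a2 : R * R ≤ 5 * ξ * N * (R + e) :=
        mul_le_mul (by linarith only [p1, p2, η0, hz1]) (by linarith only []) hR0 (by positivity)
      linarith only [hP2, a2]
    · rw [e1] at a1 ⊢
      rw [div_le_iff₀ N0, one_mul] at a1
      have a2 : E ≤ N + 1 + k := by exact_mod_cast (show (E : ℝ) ≤ N + 1 + k by linarith only [a1])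
      obtain ⟨g, hg⟩ := Nat.exists_eq_add_of_le a2
      have a3 : (N : ℝ) + 1 + k = E + g := by exact_mod_cast hg
      have a4 := hfi g (by exact_mod_cast (show (g : ℝ) ≤ 2 * N by linarith only [hz1, hR0, q5, a3])) (by omega)
      have a5 : (E : ℝ) - k - 1 = N - g := by linarith only [a3]
      rw [a5, ← sub_nonneg]
      have e2 : (P : ℝ) / N ^ 2 + 301 * C * η - (1 + 2 * ((k + 1) / N) * (1 - 2 * ξ) -
          2 * (1 - 1 / r) * (1 - (N - g) / N)) = (P + 301 * C * η * N ^ 2 - (N ^ 2 +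
          2 * (k + 1) * (1 - 2 * ξ) * N - 2 * (1 - 1 / r) * g * N)) / N ^ 2 := by
        generalize (1 : ℝ) - 1 / r = ρ
        field_simp
        ring
      rw [e2]
      exact div_nonneg (by linarith only [p1, p2, η0, q3, hz1, hR0, a4]) (by positivity)
    · rw [e1, lt_div_iff₀ N0, one_mul] at a1
      have a2 : N + 1 + k ≤ E := by exact_mod_cast (show (N : ℝ) + 1 + k ≤ E by linarith only [a1])
      obtain ⟨s, hs⟩ := Nat.exists_eq_add_of_le a2
      have a3 : (E : ℝ) = N + 1 + k + s := by exact_mod_cast hs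
      rw [div_le_iff₀ N0] at hθz
      have a6 : (1 - 17 / 20 * ξ) * (N : ℝ) ≤ 1 * N :=
        mul_le_mul_of_nonneg_right (by linarith only [p2, η0]) N0.le
      have a4 := hcl 1 s (by exact_mod_cast (show (s : ℝ) ≤ N by linarith only [p1, p2, p6, η0, q1, q2, n1, hθz, hEr, hz1, q5, a3])) (by omega)
      have a5 : 0 ≤ 2 * (k : ℝ) * (1 - 2 * ξ) * N :=
        mul_nonneg (mul_nonneg (by positivity) (by linarith only [p1, p2, η0])) N0.le
      rw [← sub_nonneg]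
      have e2 : (P : ℝ) / N ^ 2 + 301 * C * η - 1 = (P + 301 * C * η * N ^ 2 - N ^ 2) / N ^ 2 := by
        field_simp
      rw [e2]
      push_cast at a4
      exact div_nonneg (by linarith only [sq_nonneg (s : ℝ), p1, p2, p6, η0, q1, q2, n1, q3, a5, a4]) (by positivity)
  rw [div_lt_iff₀ N0] at hd
  have r1 : 0 < 1 / (r : ℝ) := by positivity
  have r2 : 1 / (r : ℝ) ≤ 1 := by rw [div_le_one (by linarith only [hr, p1, p2, η0])]; linarith only [hr, p1, p2, η0]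
  have r3 : (1 - 1 / (r : ℝ)) ^ 2 ≤ 1 := by nlinarith only [p1, p2, η0, r1, r2]
  have r4 := sq_nonneg (1 - 1 / (r : ℝ))
  generalize (1 - 1 / (r : ℝ)) ^ 2 = ρ at *
  have a1 : 0 ≤ ρ - η := by
    by_contra hc
    have := mul_pos (neg_pos.2 (not_le.1 hc)) N0
    linarith only [hd, this]
  have a2 : (ρ - η) * N ≤ (ρ - η) * ((1 + η) * lam G) := mul_le_mul_of_nonneg_left (by linarith only [n2]) a1
  have a3 : (ρ - η) * (1 + η) * lam G ≤ ρ * lam G :=
    mul_le_mul_of_nonneg_right (by nlinarith only [l0, p6, η0, r3]) l0.le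
  linarith only [hd, a2, a3]

end

theorem Mid.fin {V : Type} [Fintype V] {r D t : ℕ} {Fr : SimpleGraph V → Prop} {G : SimpleGraph V}
    {x : V → ℝ} {ξ C η : ℝ} {c : V → ℕ} {Z : Finset V} (h : Mid r D t Fr G x ξ C η c Z) :
    ∃ z, St r G x (20 * ξ) c z := by
  have hr : (3 : ℝ) ≤ r := by exact_mod_cast h.r3
  obtain ⟨p1, p2, -, -, -, l0, p6⟩ := AFin_par hr h.C1 h.η0 h.ξ0 h.ξ1 h.sm h.l_big
  have η0 := h.η0
  have ξ0 := h.ξ0
  have q2 : 1 ≤ C ^ 2 := one_le_pow₀ h.C1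
  obtain ⟨-, n2⟩ := abs_le.1 (h.st.out_size (l := 1) (by have := h.r3; omega)
    (mem_Icc.2 ⟨le_rfl, by have := h.r3; omega⟩))
  obtain ⟨w, w0, hw, hd⟩ := AFin_one h
  have hwW : w ∈ Vp c 0 := mem_Vp.2 w0
  have hE : (ec (Xe G c) : ℝ) = dT G c w + ∑ u ∈ (Vp c 0).erase w, (dT G c u : ℝ) +
      ec (Ww G c) := by
    rw [ec_Xe, ← add_sum_erase _ _ hwW]
    push_cast
    rfl
  have b0 : 0 < ξ * lam G := mul_pos ξ0 l0
  have b1 : 100 * η * lam G ≤ ξ * lam G := mul_le_mul_of_nonneg_right p2 l0.le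
  have b2 : 300 * ξ * lam G ≤ 1 * lam G := mul_le_mul_of_nonneg_right p1 l0.le
  have b3 : ξ * ((Out c 1).card : ℝ) ≤ ξ * (101 / 100 * lam G) :=
    mul_le_mul_of_nonneg_left (by linarith only [p1, p2, p6, η0, q2, n2, b1, b2]) ξ0.le
  have e0 : (0 : ℝ) ≤ ec (Ww G c) := Nat.cast_nonneg _
  have k0 : (0 : ℝ) ≤ ec (Hm G c) := Nat.cast_nonneg _
  have hR0 : 0 ≤ ∑ u ∈ (Vp c 0).erase w, (dT G c u : ℝ) := sum_nonneg fun u _ => by positivity
  have hdu : ∀ u, c u = 0 → u ≠ w → (dT G c u : ℝ) ≤ 51 / 10 * (ξ * lam G) := by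
    intro u hu hne
    have a1 := single_le_sum (f := fun u => (dT G c u : ℝ)) (s := (Vp c 0).erase w)
      (fun u _ => by positivity) (mem_erase.2 ⟨hne, mem_Vp.2 hu⟩)
    linarith only [p1, p2, p6, η0, q2, hw, b1, b3, a1]
  have hxu : ∀ u, c u = 0 → u ≠ w → x u ≤ 6 * ξ := by
    intro u hu hne
    have a1 := op_split0 (G := G) x hu
    rw [h.st.eig.eig] at a1
    have a2 := (AFin_aT (G := G) h.st.typ u).2
    have a3 := (AFin_op (G := G) (c := c) h.st.eig.nonneg u).trans (h.st.sum_W l0)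
    have a4 : (1 + ξ) * (dT G c u : ℝ) ≤ 101 / 100 * (51 / 10 * (ξ * lam G)) :=
      mul_le_mul (by linarith only [p1, p2, η0]) (hdu u hu hne) (by positivity) (by norm_num)
    exact le_of_mul_le_mul_left (by linarith only [p1, p2, p6, η0, q2, b1, a1, a2, a3, a4]) l0
  obtain ⟨z, hz, hm⟩ := exists_max_image (Vp c 0) x ⟨w, hwW⟩
  have z0 := mem_Vp.1 hz
  refine ⟨z, h.st.eig, h.st.le, h.st.proper, fun v hv => (h.st.typ v hv).trans (by linarith),
    fun i hi => (h.st.size i hi).trans (by linarith only [p1, p2, p6, η0, q2, b1]), by linarith only [p1, p2, p6, η0, q2, hw, b1, b3, hR0], z0,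
    fun u hu => hm u (mem_Vp.2 hu), ?_, fun u hu hne => ?_, ?_, by linarith only [p1, p2, p6, η0, q2, b1]⟩
  · by_cases e : z = w
    · rwa [e]
    · have r2 : 1 / (r : ℝ) ≤ 1 / 3 := one_div_le_one_div_of_le (by norm_num) hr
      have r3 : 4 / 9 ≤ (1 - 1 / (r : ℝ)) ^ 2 := by nlinarith only [r2]
      have a1 := mul_le_mul_of_nonneg_right r3 l0.le
      linarith only [hdu z z0 e, p1, p2, p6, η0, q2, b1, b2, z0, e, a1]
  · by_cases e : u = w
    · linarith only [hm u (mem_Vp.2 hu), hxu z z0 fun e' => hne (e.trans e'.symm), p2, η0, z0, hu, hne, e]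
    · linarith only [hxu u hu e, p2, η0, hu, e]
  · by_cases e : z = w
    · rw [e]
      linarith only [p1, p2, p6, η0, q2, hw, hE, b1, b3]
    · have a1 := op_split0 (G := G) x w0
      rw [h.st.eig.eig] at a1
      have a2 := (AFin_aT (G := G) h.st.typ w).1
      have a3 := op_nonneg (H := Ww G c) h.st.eig.nonneg w
      have a4 : lam G * x w ≤ lam G * (6 * ξ) :=
        mul_le_mul_of_nonneg_left ((hm w hwW).trans (hxu z z0 e)) l0.le
      have a5 : 1 / 2 * (dT G c w : ℝ) ≤ (1 - ξ) * dT G c w :=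
        mul_le_mul_of_nonneg_right (by linarith only [p1, p2, η0]) (by positivity)
      have a6 : (0 : ℝ) ≤ dT G c z := Nat.cast_nonneg _
      linarith only [p1, p2, p6, η0, q2, hw, hE, b1, b3, a1, a2, a3, a4, a5]

theorem St.mono {V : Type} [Fintype V] {r : ℕ} {G : SimpleGraph V} {x : V → ℝ} {η η' : ℝ}
    {c : V → ℕ} {z : V} (h : St r G x η c z) (hη : η ≤ η') : St r G x η' c z := by
  have : Nonempty V := ⟨z⟩
  have a := mul_le_mul_of_nonneg_right hη (lam_nonneg G)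
  exact ⟨h.eig, h.le, h.proper, fun v hv => (h.typ v hv).trans hη,
    fun i hi => (h.size i hi).trans a, h.hk.trans a, h.z0, h.zmax, h.dz,
    fun u hu hne => (h.small u hu hne).trans hη, by linarith [h.hE], h.big.trans a⟩

theorem exists_st {r : ℕ} (hr : 3 ≤ r) (D t : ℕ) {η : ℝ} (h0 : 0 < η) : ∃ M : ℝ,
    ∀ (V : Type) [Fintype V] (Fr : SimpleGraph V → Prop) (G : SimpleGraph V), Cls r D t Fr →
      Ex r Fr G → M ≤ Mo G → ∃ x c z, St r G x η c z := by
  have hr' : (3 : ℝ) ≤ r := by exact_mod_cast hr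
  have hA : (0 : ℝ) < 100 * r * (r * t + 1) := by positivity
  obtain ⟨ξ, ξ0, ξ1, ξ2⟩ : ∃ ξ : ℝ, 0 < ξ ∧ 20 * ξ ≤ η ∧ 100 * r * (r * t + 1) * ξ ≤ 1 :=
    ⟨min (η / 20) (1 / (100 * r * (r * t + 1))), lt_min (by positivity) (by positivity),
      by linarith [min_le_left (η / 20) (1 / (100 * r * (r * t + 1)) : ℝ)],
      by rw [mul_comm]; exact (le_div_iff₀ hA).1 (min_le_right _ _)⟩
  have ξ3 : 100 * r * ξ ≤ 1 := by
    have a : 0 ≤ 100 * r * (r * t) * ξ := by positivity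
    linarith
  have ξ4 : ξ ≤ 1 := by nlinarith only [hr', ξ3]
  obtain ⟨M1, hM1⟩ := lower_all hr
  obtain ⟨C, hC, hC'⟩ := exists_st1 hr D t (C₀ := 3 * r ^ 2) (ξ := 19 / 20 * ξ) (by positivity)
    (by positivity) (by linarith [mul_pos hA ξ0])
  obtain ⟨e, e0, e1⟩ : ∃ e : ℝ, 0 < e ∧ 32 * 10 ^ 4 * (r ^ 2 * C ^ 4) * e = ξ ^ 2 :=
    ⟨ξ ^ 2 / (32 * 10 ^ 4 * (r ^ 2 * C ^ 4)), by positivity, by field_simp⟩
  have a1 : ξ ^ 2 ≤ ξ := by nlinarith only [hr', hA, ξ0, ξ2, ξ3]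
  have a2 : 1 ≤ r * C ^ 2 := one_le_mul_of_one_le_of_one_le (by linarith) (one_le_pow₀ hC)
  have a3 : r * C ^ 2 * e ≤ r ^ 2 * C ^ 4 * e :=
    mul_le_mul_of_nonneg_right (by nlinarith only [hr', hC, a2]) e0.le
  have a4 : 1 * e ≤ r * C ^ 2 * e := mul_le_mul_of_nonneg_right a2 e0.le
  obtain ⟨M2, hM2⟩ := hC' e e0 (by linarith)
  refine ⟨max M1 M2, fun V _ Fr G h1 h2 h3 => ?_⟩
  obtain ⟨x, c, Z, h4, h5⟩ := hM2 V G (h1.deg G h2.fr) (h1.noplus G h2.fr)
    ((le_max_right _ _).trans h3) (hM1 V D t Fr G h1 h2 ((le_max_left _ _).trans h3))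
  obtain ⟨c', Z', h6, h7⟩ := absorb h4 h5 hr hC e0 ξ3 (by linarith)
  obtain ⟨z, hz⟩ := Mid.fin ⟨h1, h2, h6, h7, hr, by linarith, by linarith, ξ0, ξ3,
    by linarith⟩
  exact ⟨x, c', z, hz.mono ξ1⟩

end Pool.Agent.P.MP_094db5_co

end
end

section

/-! Adding and removing isolated vertices. -/

set_option autoImplicit false

open Finset Classical

noncomputable section

namespace Pool.Agent.P.MP_094db5_co

variable {α V W : Type} {F : SimpleGraph α} {r m : ℕ}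

theorem InN.map [Finite V] {G : SimpleGraph V} (h : InN F r m G) (hr : 1 ≤ r)
    (hF : ∀ a, ∃ b, F.Adj a b) {f : V → W} (hf : Set.InjOn f G.support) : InN F r m (G.map f) := by
  have inj : ∀ {u v u' v' : V}, G.Adj u u' → G.Adj v v' → f u = f v → u = v :=
    fun a b e => hf ⟨_, a⟩ ⟨_, b⟩ e
  have hne : ∀ {u v : V}, G.Adj u v → f u ≠ f v := fun a e => a.ne (inj a a.symm e)
  refine ⟨?_, ?_, fun hc => h.2.2 (hc.of_hom (SimpleGraph.Hom.map f G hne))⟩
  · have e : (G.map f).edgeSet = Sym2.map f '' G.edgeSet := by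
      ext e
      induction e using Sym2.ind with
      | _ a b =>
        constructor
        · rintro ⟨-, u, v, huv, rfl, rfl⟩
          exact ⟨s(u, v), huv, rfl⟩
        · rintro ⟨e, he, e'⟩
          rw [← e']
          exact (SimpleGraph.Hom.map f G hne).map_mem_edgeSet he
    rw [e, Set.InjOn.ncard_image, h.1]
    intro e1 h1 e2 h2 e
    induction e1 using Sym2.ind with
    | _ a b =>
      induction e2 using Sym2.ind with
      | _ a' b' =>
        have h1' : G.Adj a b := h1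
        have h2' : G.Adj a' b' := h2
        rcases Sym2.eq_iff.1 e with ⟨x, y⟩ | ⟨x, y⟩
        · rw [inj h1' h2' x, inj h1'.symm h2'.symm y]
        · rw [inj h1' h2'.symm x, inj h1'.symm h2' y, Sym2.eq_swap]
  · rintro ⟨φ⟩
    have ex : ∀ a, ∃ v, (∃ u, G.Adj v u) ∧ f v = φ a := fun a => by
      obtain ⟨b, hb⟩ := hF a
      obtain ⟨-, u, v, huv, e, -⟩ := φ.toHom.map_adj hb
      exact ⟨u, ⟨v, huv⟩, e⟩
    choose ψ h1 h2 using ex
    refine h.2.1 ⟨⟨⟨ψ, fun {a b} hab => ?_⟩, fun a b e => φ.injective ?_⟩⟩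
    · obtain ⟨-, u, v, huv, e1, e2⟩ := φ.toHom.map_adj hab
      obtain ⟨a', ha⟩ := h1 a
      obtain ⟨b', hb⟩ := h1 b
      rwa [inj ha huv ((h2 a).trans e1.symm), inj hb huv.symm ((h2 b).trans e2.symm)]
    · exact (h2 a).symm.trans ((congrArg f e).trans (h2 b))

theorem lam_map [Fintype V] [Fintype W] {G : SimpleGraph V} (h : G ≠ ⊥) {f : V → W}
    (hf : Set.InjOn f G.support) : lam (G.map f) = lam G := by
  obtain ⟨u₀, v₀, h0⟩ := SimpleGraph.ne_bot_iff_exists_adj.1 h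
  have : Nonempty V := ⟨u₀⟩
  have : Nonempty W := ⟨f u₀⟩
  have li := hf.leftInvOn_invFunOn
  apply le_antisymm
  · refine lam_le_of_map (Function.invFunOn f G.support) (univ.filter fun v => v ∈ f '' G.support)
      ?_ ?_ ?_
    · intro a ha b hb e
      simp only [coe_filter, mem_univ, true_and, Set.mem_ofPred_eq] at ha hb
      obtain ⟨a, ha, rfl⟩ := ha
      obtain ⟨b, hb, rfl⟩ := hb
      rw [li ha, li hb] at e
      rw [e]
    · rintro _ _ ⟨-, u, v, huv, rfl, rfl⟩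
      exact mem_filter.2 ⟨mem_univ _, u, ⟨v, huv⟩, rfl⟩
    · rintro _ _ ⟨-, u, v, huv, rfl, rfl⟩
      rwa [li ⟨v, huv⟩, li ⟨u, huv.symm⟩]
  · refine lam_le_of_map f (univ.filter fun v => v ∈ G.support) ?_ ?_ ?_
    · intro a ha b hb e
      simp only [coe_filter, mem_univ, true_and, Set.mem_ofPred_eq] at ha hb
      exact hf ha hb e
    · exact fun u v huv => mem_filter.2 ⟨mem_univ _, v, huv⟩
    · exact fun u v huv => SimpleGraph.map_adj_apply' huv fun e =>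
        huv.ne (hf ⟨v, huv⟩ ⟨u, huv.symm⟩ e)

lemma AMap_ne_bot {G : SimpleGraph V} (h : InN F r m G) (hr : 1 ≤ r) : G ≠ ⊥ :=
  fun e => h.2.2 ((SimpleGraph.colorable_one_iff.2 e).mono hr)

lemma AMap_small [Fintype V] {G : SimpleGraph V} (h : InN F r m G) (hr : 1 ≤ r)
    (hF : ∀ a, ∃ b, F.Adj a b) :
    ∃ G' : SimpleGraph (Fin (2 * m)), InN F r m G' ∧ lam G' = lam G := by
  have hb := AMap_ne_bot h hr
  have h1 := card_supp_le G
  have h2 : ec G = m := h.1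
  have h3 : m ≠ 0 := fun e => hb (ec_eq_zero.1 (h2.trans e))
  have : Nonempty (Fin (2 * m)) := ⟨⟨0, by omega⟩⟩
  obtain ⟨f, -, hf⟩ := (Set.toFinite G.support).exists_injOn_of_encard_le
    (t := (Set.univ : Set (Fin (2 * m)))) (by
      have e : G.support = (univ.filter fun v => ∃ u, G.Adj v u : Finset V) := by
        ext v
        simp [SimpleGraph.mem_support]
      rw [e, Set.encard_coe_eq_coe_finsetCard, Set.encard_univ, ENat.card_eq_coe_fintype_card,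
        Fintype.card_fin, ← h2]
      exact_mod_cast h1)
  exact ⟨G.map f, h.map hr hF hf, lam_map hb hf⟩

/-- extremal graphs exist -/
theorem exists_extremal [Fintype V] {G : SimpleGraph V} (h : InN F r m G) (hr : 1 ≤ r)
    (hF : ∀ a, ∃ b, F.Adj a b) : ∃ G' : SimpleGraph (Fin (2 * m)), InN F r m G' ∧
      ∀ (W : Type) [Fintype W] (H : SimpleGraph W), InN F r m H → lam H ≤ lam G' := by
  obtain ⟨G₀, g0, -⟩ := AMap_small h hr hF
  obtain ⟨G', g1, g2⟩ := Set.exists_max_image {H : SimpleGraph (Fin (2 * m)) | InN F r m H} lam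
    (Set.toFinite _) ⟨G₀, g0⟩
  refine ⟨G', g1, fun W _ H hH => ?_⟩
  obtain ⟨H', a, b⟩ := AMap_small hH hr hF
  exact b ▸ g2 H' a

theorem ex_of_extremal [Fintype V] {G : SimpleGraph V} (h : InN F r m G) (hr : 1 ≤ r)
    (hF : ∀ a, ∃ b, F.Adj a b)
    (hm : ∀ (W : Type) [Fintype W] (H : SimpleGraph W), InN F r m H → lam H ≤ lam G) :
    Ex r (fun H : SimpleGraph (V ⊕ Fin (2 * m + 2)) => F.Free H) (G.map Sum.inl) ∧
      ec (G.map (Sum.inl : V → V ⊕ Fin (2 * m + 2))) = m := by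
  have hi : Set.InjOn (Sum.inl : V → V ⊕ Fin (2 * m + 2)) G.support := Sum.inl_injective.injOn
  have h1 := h.map hr hF hi
  have h2 : ec (G.map (Sum.inl : V → V ⊕ Fin (2 * m + 2))) = m := h1.1
  refine ⟨⟨h1.2.1, h1.2.2, fun H a b c => ?_, ?_⟩, h2⟩
  · rw [lam_map (AMap_ne_bot h hr) hi]
    exact hm _ H ⟨a.trans h2, b, c⟩
  · rw [h2]
    calc 2 * m + 2 = ((univ : Finset (Fin (2 * m + 2))).map
          (Function.Embedding.inr : Fin (2 * m + 2) ↪ V ⊕ Fin (2 * m + 2))).card := by simp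
      _ ≤ _ := card_le_card fun v hv => by
          obtain ⟨i, -, rfl⟩ := mem_map.1 hv
          simp only [mem_filter, mem_univ, true_and]
          rintro u ⟨-, a, b, -, e, -⟩
          cases e

lemma AMap_range {G : SimpleGraph V} {f : V → W} {u v : W} (h : (G.map f).Adj u v) :
    ∃ x, f x = u := by
  obtain ⟨-, a, -, -, e, -⟩ := h
  exact ⟨a, e⟩

lemma AMap_lab {G : SimpleGraph V} {f : V → W} {c : W → ℕ} (hn : NI (G.map f) c) {v : W}
    (h : c v ≠ 0) : ∃ x, f x = v := (hn v h).elim fun _ => AMap_range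

lemma AMap_spokes {f : V → W} (hf : Function.Injective f) (w : V) (X : Set W) :
    Sym2.map f ⁻¹' spokes (f w) X = spokes w (f ⁻¹' X) := by
  ext e
  induction e using Sym2.ind with
  | _ a b =>
    simp only [spokes, Set.mem_preimage, Sym2.map_mk, Set.mem_ofPred_eq, Sym2.eq_iff]
    constructor
    · rintro ⟨v, hv, ⟨e, rfl⟩ | ⟨rfl, e⟩⟩
      · exact ⟨b, hv, Or.inl ⟨hf e, rfl⟩⟩
      · exact ⟨a, hv, Or.inr ⟨rfl, hf e⟩⟩
    · rintro ⟨v, hv, ⟨rfl, rfl⟩ | ⟨rfl, rfl⟩⟩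
      · exact ⟨_, hv, Or.inl ⟨rfl, rfl⟩⟩
      · exact ⟨_, hv, Or.inr ⟨rfl, rfl⟩⟩

lemma AMap_ncard {G : SimpleGraph V} {f : V → W} (hf : Function.Injective f) {c : W → ℕ}
    (hn : NI (G.map f) c) {X : Set W} (h : ∀ v ∈ X, c v ≠ 0) : (f ⁻¹' X).ncard = X.ncard :=
  Set.ncard_preimage_of_injective_subset_range hf fun v hv => AMap_lab hn (h v hv)

lemma AMap_pc {G : SimpleGraph V} {f : V → W} (hf : Function.Injective f) {c : W → ℕ}
    (hn : NI (G.map f) c) {X : Set W} (h : ∀ v ∈ X, c v ≠ 0) (i : ℕ) :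
    pc (c ∘ f) (f ⁻¹' X) i = pc c X i :=
  AMap_ncard hf hn (X := {v ∈ X | c v = i}) fun v hv => h v hv.1

lemma AMap_spoke {G : SimpleGraph V} {f : V → W} {c : W → ℕ} {A D : Set (Sym2 W)}
    (h : Mp (G.map f) r c A D) {w v : W} (hv : s(w, v) ∈ A) : ∃ x, f x = w :=
  AMap_range ((h.2.2 w v).2 (Or.inr hv))

lemma AMap_one {f : V → W} (hf : Function.Injective f) (a : V) : f ⁻¹' {f a} = {a} := by
  ext v
  simp [hf.eq_iff]

lemma AMap_two {f : V → W} (hf : Function.Injective f) (a b : V) :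
    f ⁻¹' {f a, f b} = {a, b} := by
  ext v
  simp [hf.eq_iff]

lemma AMap_three {f : V → W} (hf : Function.Injective f) (a b d : V) :
    f ⁻¹' {f a, f b, f d} = {a, b, d} := by
  ext v
  simp [hf.eq_iff]

theorem Mp.comap {G : SimpleGraph V} {f : V → W} (hf : Function.Injective f) {c : W → ℕ}
    {A D : Set (Sym2 W)} (h : Mp (G.map f) r c A D) (hn : NI (G.map f) c) :
    Mp G r (c ∘ f) (Sym2.map f ⁻¹' A) (Sym2.map f ⁻¹' D) := by
  refine ⟨fun v => h.1 (f v), fun i hi => ?_, fun u v => ?_⟩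
  · have := AMap_ncard hf hn (X := {v | c v = i}) fun v hv => by
      have := (mem_Icc.1 hi).1
      have : c v = i := hv
      omega
    exact (h.2.1 i hi).trans this.ge
  · exact (SimpleGraph.map_adj_apply (G := G) (f := ⟨f, hf⟩)).symm.trans (h.2.2 (f u) (f v))

theorem FamB.comap {t : ℕ} {G : SimpleGraph V} {f : V → W} (hf : Function.Injective f)
    (hr : 1 ≤ r) {c : W → ℕ} (h : FamB r t (G.map f) c) (hn : NI (G.map f) c) :
    FamB r t G (c ∘ f) := by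
  obtain ⟨w, z, X, D, h1, h2, h3, h4, h5⟩ := h
  have hp := AMap_pc hf hn h2
  obtain ⟨x₀, hx₀, -⟩ : {v ∈ X | c v = 1}.Nonempty :=
    Set.nonempty_of_ncard_ne_zero (Nat.one_le_iff_ne_zero.1 (h4 1 (mem_Icc.2 ⟨le_rfl, hr⟩)))
  have hs : s(w, x₀) ∈ spokes w X := ⟨x₀, hx₀, rfl⟩
  rcases h5 with ⟨hM, hz, b, hb, rfl, p1, p2⟩ | ⟨hM, hz, p, q0, q1⟩ | ⟨hM, ht, hz, p, hD, hXD, q⟩
  · obtain ⟨w, rfl⟩ := AMap_spoke hM hs
    obtain ⟨z, rfl⟩ := AMap_lab hn (h2 z hz)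
    obtain ⟨b, rfl⟩ := AMap_lab hn (h2 b hb)
    have hM' := hM.comap hf hn
    rw [AMap_spokes hf, AMap_spokes hf] at hM'
    exact ⟨w, z, f ⁻¹' X, f ⁻¹' {f b}, h1, fun v hv => h2 _ hv, fun v hv => h3 _ hv,
      fun i hi => (h4 i hi).trans (hp i).ge, Or.inl ⟨hM', hz, b, hb, AMap_one hf b,
        (hp _).trans p1, (hp _).trans p2⟩⟩
  · obtain ⟨w, rfl⟩ := AMap_spoke hM hs
    obtain ⟨z, rfl⟩ := AMap_lab hn hz
    have hM' := hM.comap hf hn
    rw [AMap_spokes hf, AMap_spokes hf] at hM'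
    refine ⟨w, z, f ⁻¹' X, f ⁻¹' D, h1, fun v hv => h2 _ hv, fun v hv => h3 _ hv,
      fun i hi => (h4 i hi).trans (hp i).ge, Or.inr (Or.inl ⟨hM', hz,
        fun i hi => (hp i).trans (p i hi), fun e => ?_, fun e => ?_⟩)⟩
    · obtain ⟨a1, b, a2, y, a3, a4⟩ := q0 e
      have hb : b ∈ X ∩ D := a2 ▸ rfl
      obtain ⟨b, rfl⟩ := AMap_lab hn (h2 b hb.1)
      obtain ⟨y, rfl⟩ := AMap_lab hn (a4 ▸ h2 _ hb.1 : c y ≠ 0)
      exact ⟨a1, b, by rw [← Set.preimage_inter, a2, AMap_one hf], y, a3, a4⟩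
    · exact ⟨(q1 e).1, fun v hv y hy => (q1 e).2 (f v) hv (f y) hy⟩
  · obtain ⟨w, rfl⟩ := AMap_spoke hM (Or.inl hs)
    have hD' := AMap_ncard hf hn fun v hv => (h3 v hv).1
    have hXD' : ¬ f ⁻¹' X ⊆ f ⁻¹' D := fun e => hXD fun v hv => by
      obtain ⟨v, rfl⟩ := AMap_lab hn (h2 v hv)
      exact e hv
    have hM' := hM.comap hf hn
    rcases D.eq_empty_or_nonempty with rfl | ⟨d, hd⟩
    · have e : ∀ (U : Type) (u : U), spokes u ∅ = ∅ := fun U u => by simp [spokes]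
      rw [e, Set.union_empty, AMap_spokes hf] at hM'
      refine ⟨w, w, f ⁻¹' X, ∅, h1, fun v hv => h2 _ hv, fun v hv => hv.elim,
        fun i hi => (h4 i hi).trans (hp i).ge, Or.inr (Or.inr ⟨?_, ht, h1,
          fun i hi => (hp i).le.trans (p i hi), by simp, hXD', fun e => e.elim fun _ a => a.elim⟩)⟩
      rwa [e, Set.union_empty]
    · obtain ⟨z, rfl⟩ := AMap_spoke hM (Or.inr ⟨d, hd, rfl⟩ : s(z, d) ∈ _)
      rw [Set.preimage_union, AMap_spokes hf, AMap_spokes hf] at hM'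
      exact ⟨w, z, f ⁻¹' X, f ⁻¹' D, h1, fun v hv => h2 _ hv, fun v hv => h3 _ hv,
        fun i hi => (h4 i hi).trans (hp i).ge, Or.inr (Or.inr ⟨hM', ht, hz,
          fun i hi => (hp i).le.trans (p i hi), hD'.le.trans hD, hXD', fun _ =>
            ⟨fun e => (q ⟨d, hd⟩).1 (congrArg f e), fun i hi => (hp i).trans ((q ⟨d, hd⟩).2 i hi)⟩⟩)⟩

theorem FamW.comap {G : SimpleGraph V} {f : V → W} (hf : Function.Injective f) {c : W → ℕ}
    (h : FamW (G.map f) c) (hn : NI (G.map f) c) : FamW G (c ∘ f) := by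
  obtain ⟨w, z, a, b, D, h1, h2, h3, h4, h5, h6, h7⟩ := h
  obtain ⟨z, rfl⟩ := AMap_lab hn h2
  obtain ⟨a, rfl⟩ := AMap_lab hn h3
  obtain ⟨b, rfl⟩ := AMap_lab hn h4
  have hD := AMap_ncard hf hn h6
  rcases h7 with ⟨hM, p1, p2, p3, ⟨y, y1, y2⟩, y', y3, y4⟩ | ⟨w', p0, p1, hM, p2, p3, p4, p5, p6, p7⟩ |
    ⟨w', p0, p1, hM, p2, p3, p4, p5⟩
  · obtain ⟨w, rfl⟩ := AMap_spoke hM (v := f z) ⟨f z, by simp, rfl⟩
    obtain ⟨y, rfl⟩ := AMap_lab hn (y2 ▸ h3 : c y ≠ 0)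
    obtain ⟨y', rfl⟩ := AMap_lab hn (y4 ▸ h4 : c y' ≠ 0)
    have hM' := hM.comap hf hn
    rw [AMap_spokes hf, AMap_spokes hf, AMap_three hf] at hM'
    exact ⟨w, z, a, b, f ⁻¹' D, h1, h2, h3, h4, h5, fun v hv => h6 _ hv, Or.inl ⟨hM',
      fun v hv => p1 _ hv, p2, p3, ⟨y, y1, y2⟩, y', y3, y4⟩⟩
  · obtain ⟨w, rfl⟩ := AMap_spoke hM (Or.inl ⟨f a, by simp, rfl⟩ : s(w, f a) ∈ _)
    obtain ⟨w', rfl⟩ := AMap_spoke hM (Or.inr ⟨f a, by simp, rfl⟩ : s(w', f a) ∈ _)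
    have hM' := hM.comap hf hn
    rw [Set.preimage_union, AMap_spokes hf, AMap_spokes hf, AMap_spokes hf, AMap_three hf,
      AMap_two hf] at hM'
    exact ⟨w, z, a, b, f ⁻¹' D, h1, h2, h3, h4, h5, fun v hv => h6 _ hv, Or.inr (Or.inl ⟨w',
      fun e => p0 (congrArg f e), p1, hM', fun v hv => p2 _ hv, hD.le.trans p3,
      fun e => p4 (congrArg f e), fun e => p5 (congrArg f e), p6, p7⟩)⟩
  · obtain ⟨d, hd⟩ : D.Nonempty := Set.nonempty_of_ncard_ne_zero (by omega)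
    obtain ⟨w, rfl⟩ := AMap_spoke hM (Or.inl ⟨f a, by simp, rfl⟩ : s(w, f a) ∈ _)
    obtain ⟨w', rfl⟩ := AMap_spoke hM (Or.inr ⟨d, hd, rfl⟩ : s(w', d) ∈ _)
    have hM' := hM.comap hf hn
    rw [Set.preimage_union, AMap_spokes hf, AMap_spokes hf, AMap_spokes hf, AMap_three hf,
      AMap_two hf] at hM'
    exact ⟨w, z, a, b, f ⁻¹' D, h1, h2, h3, h4, h5, fun v hv => h6 _ hv, Or.inr (Or.inr ⟨w',
      fun e => p0 (congrArg f e), p1, hM', p2, p3, p4.trans hD.ge, hD.le.trans p5⟩)⟩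

/-- the characterisation of the extremal graphs from the two inclusions -/
theorem iff_of_fam (hr : 1 ≤ r) (hF : ∀ a, ∃ b, F.Adj a b)
    (P : ∀ (V : Type) [Fintype V], SimpleGraph V → Prop)
    (h1 : ∀ (V : Type) [Fintype V] (G : SimpleGraph V), P V G → F.Free G ∧ ¬ G.Colorable r)
    (h2 : ∀ (V : Type) [Fintype V] (G : SimpleGraph V), InN F r m G →
      (∀ (W : Type) [Fintype W] (H : SimpleGraph W), InN F r m H → lam H ≤ lam G) → P V G)
    (V : Type) [Fintype V] (G : SimpleGraph V) :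
    (InN F r m G ∧ ∀ (W : Type) [Fintype W] (H : SimpleGraph W), InN F r m H → lam H ≤ lam G) ↔
      (G.edgeSet.ncard = m ∧ P V G) ∧ ∀ (W : Type) [Fintype W] (H : SimpleGraph W),
        H.edgeSet.ncard = m ∧ P W H → lam H ≤ lam G := by
  refine ⟨fun ⟨a, b⟩ => ⟨⟨a.1, h2 V G a b⟩, fun W _ H hH => b W H ⟨hH.1, h1 W H hH.2⟩⟩,
    fun ⟨a, b⟩ => ?_⟩
  have hG : InN F r m G := ⟨a.1, h1 V G a.2⟩
  obtain ⟨G', g1, g2⟩ := exists_extremal hG hr hF
  exact ⟨hG, fun W _ H hH => (g2 W H hH).trans (b _ G' ⟨g1.1, h2 _ G' g1 g2⟩)⟩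

end Pool.Agent.P.MP_094db5_co

end
end

section

/-! The members of the families are admissible. -/

set_option autoImplicit false

open Finset Classical

noncomputable section

namespace Pool.Agent.P.MP_094db5_co

variable {V : Type} [Fintype V] {r t q : ℕ} {G : SimpleGraph V} {c : V → ℕ}

omit [Fintype V] in
theorem AAdm_spokes (w : V) (X : Set V) (u v : V) :
    s(u, v) ∈ spokes w X ↔ (u = w ∧ v ∈ X) ∨ (v = w ∧ u ∈ X) := by
  simp only [spokes, Set.mem_ofPred_eq, Sym2.eq_iff]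
  constructor
  · rintro ⟨x, hx, ⟨rfl, rfl⟩ | ⟨rfl, rfl⟩⟩
    exacts [Or.inl ⟨rfl, hx⟩, Or.inr ⟨rfl, hx⟩]
  · rintro (⟨rfl, h⟩ | ⟨rfl, h⟩)
    exacts [⟨_, h, Or.inl ⟨rfl, rfl⟩⟩, ⟨_, h, Or.inr ⟨rfl, rfl⟩⟩]

omit [Fintype V] in
theorem AAdm_other {A D : Set (Sym2 V)} (h : Mp G r c A D) {i : ℕ} (hi : i ∈ Icc 1 r) (z : V) :
    ∃ y, c y = i ∧ y ≠ z := by
  obtain ⟨y, h1, h2⟩ := Set.exists_ne_of_one_lt_ncard (s := {v | c v = i}) (h.2.1 i hi) z
  exact ⟨y, h1, h2⟩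

theorem AAdm_rigid {A : Set (Sym2 V)} {z : V} {D : Set V} (h : Mp G r c A (spokes z D))
    (hc : G.Colorable r) : ∃ e : V → ℕ, (∀ u, e u ∈ Icc 1 r) ∧ (∀ v, c v ≠ 0 → v ≠ z → e v = c v) ∧
      ∀ u v, G.Adj u v → e u ≠ e v := by
  obtain ⟨φ⟩ := hc
  have : ∀ i : Icc 1 r, ∃ y, c y = i ∧ y ≠ z := fun i => AAdm_other h i.2 z
  choose y hy hyZ using this
  have hadj : ∀ (i : Icc 1 r) v, c v ≠ 0 → c v ≠ i → v ≠ z → G.Adj (y i) v := fun i v h1 h2 h3 => by
    have := mem_Icc.1 i.2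
    refine (h.2.2 _ _).2 (Or.inl ⟨by rw [hy]; omega, h1, by rw [hy]; omega, fun a => ?_⟩)
    rcases (AAdm_spokes _ _ _ _).1 a with a | a
    exacts [hyZ i a.1, h3 a.1]
  have hinj : Function.Injective fun i => φ (y i) := fun i j e => by
    by_contra hij
    have := mem_Icc.1 j.2
    exact φ.valid (hadj i (y j) (by rw [hy]; omega) (by
      rw [hy]; exact fun a => hij (Subtype.ext a).symm) (hyZ j)) e
  choose g hg using ((Fintype.bijective_iff_injective_and_card _).2 ⟨hinj, by simp⟩).2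
  refine ⟨fun u => g (φ u), fun u => (g (φ u)).2, fun v hv hz => ?_, fun u v huv e => ?_⟩
  · by_contra hne
    exact φ.valid (hadj (g (φ v)) v hv (Ne.symm hne) hz) (hg _)
  · exact φ.valid huv (by rw [← hg (φ u), ← hg (φ v), Subtype.ext e])

omit [Fintype V] in
theorem AAdm_ex {X : Set V} {i : ℕ} (h : 1 ≤ pc c X i) : ∃ v ∈ X, c v = i := by
  obtain ⟨v, hv⟩ := Set.nonempty_of_ncard_ne_zero (s := {v ∈ X | c v = i}) (by unfold pc at h; omega)
  exact ⟨v, hv.1, hv.2⟩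

omit [Fintype V] in
theorem AAdm_uniq {X : Set V} {a v : V} (h : pc c X (c a) = 1) (ha : a ∈ X) (hv : v ∈ X)
    (e : c v = c a) : v = a := by
  obtain ⟨x, hx⟩ := Set.ncard_eq_one.1 h
  have h1 : a ∈ {v ∈ X | c v = c a} := ⟨ha, rfl⟩
  have h2 : v ∈ {v ∈ X | c v = c a} := ⟨hv, e⟩
  rw [hx] at h1 h2
  exact h2.trans h1.symm

/-- labels with a default value -/
def AAdm_lab (c : V → ℕ) (l : ℕ) (v : V) : ℕ := if c v = 0 then l else c v

omit [Fintype V] in
theorem AAdm_lab_mem (hc : ∀ v, c v ≤ r) {l : ℕ} (hl : l ∈ Icc 1 r) (v : V) :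
    AAdm_lab c l v ∈ Icc 1 r := by
  unfold AAdm_lab
  split_ifs with h
  · exact hl
  · exact mem_Icc.2 ⟨by omega, hc v⟩

theorem AAdm_card {X : Set V} (hc : ∀ v, c v ≤ r) (h0 : ∀ v ∈ X, c v ≠ 0) (l : ℕ)
    (h : ∀ i ∈ Icc 1 r, pc c X i ≤ t) (i : ℕ) :
    (X.toFinset.filter fun v => AAdm_lab c l v = i).card ≤ t := by
  have e : (X.toFinset.filter fun v => AAdm_lab c l v = i).card = pc c X i := by
    rw [pc, ← Set.ncard_coe_finset]
    congr 1
    ext v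
    simp only [coe_filter, Set.mem_toFinset, Set.mem_ofPred_eq, and_congr_right_iff]
    intro hv
    rw [AAdm_lab, if_neg (h0 v hv)]
  by_cases hi : i ∈ Icc 1 r
  · rw [e]; exact h i hi
  · have : (X.toFinset.filter fun v => AAdm_lab c l v = i) = ∅ := by
      refine filter_eq_empty_iff.2 fun v hv a => hi ?_
      rw [Set.mem_toFinset] at hv
      rw [← a, AAdm_lab, if_neg (h0 v hv)]
      exact mem_Icc.2 ⟨Nat.pos_of_ne_zero (h0 v hv), hc v⟩
    rw [this]; exact Nat.zero_le _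

theorem AAdm_eq1 {w z : V} {X D : Set V} (h : Mp G r c (spokes w X) (spokes z D)) :
    G = Kc c \ Sg z D.toFinset ⊔ Sg w X.toFinset := by
  ext u v
  have h1 := h.2.2 u v
  have h2 : G.Adj u v → u ≠ v := G.ne_of_adj
  simp only [AAdm_spokes] at h1
  simp only [SimpleGraph.sup_adj, SimpleGraph.sdiff_adj, Kc, cross, Sg, Set.mem_toFinset]
  grind

theorem AAdm_eq2 {w o z : V} {X S D : Set V} (h : Mp G r c (spokes w X ∪ spokes o S) (spokes z D)) :
    G = Tg c (Sg z D.toFinset) o S.toFinset w X.toFinset := by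
  ext u v
  have h1 := h.2.2 u v
  have h2 : G.Adj u v → u ≠ v := G.ne_of_adj
  simp only [Set.mem_union, AAdm_spokes] at h1
  simp only [Tg, SimpleGraph.sup_adj, SimpleGraph.sdiff_adj, Kc, cross, Sg, Set.mem_toFinset]
  grind

omit [Fintype V] in
theorem AAdm_prop (H : SimpleGraph V) (l : ℕ) (u v : V) (h : (Kc c \ H).Adj u v) :
    AAdm_lab c l u ≠ AAdm_lab c l v := by
  obtain ⟨⟨h1, h2, h3⟩, -⟩ := h
  rwa [AAdm_lab, AAdm_lab, if_neg h1, if_neg h2]

theorem AAdm_pair {w z b : V} {X D : Set V} (h : Mp G r c (spokes w X) (spokes z D)) (hr : 3 ≤ r)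
    (hw : c w = 0) (hX : ∀ v ∈ X, c v ≠ 0) (hz : z ∈ X) (hb : b ∈ X) (hD : b ∈ D) (hbz : c b ≠ c z)
    (h1 : pc c X (c z) = 1) (h2 : pc c X (c b) = 1) : NoBook G r t := by
  have hl : 1 ∈ Icc 1 r := mem_Icc.2 ⟨le_rfl, by omega⟩
  have lab : ∀ v ∈ X, AAdm_lab c 1 v = c v := fun v hv => if_neg (hX v hv)
  rw [AAdm_eq1 h]
  refine noBook0 (AAdm_lab_mem h.1 hl) (AAdm_prop _ 1) (fun v a => a.1.1 hw)
    (no_clique_of_pair (AAdm_lab_mem h.1 hl) (AAdm_prop _ 1) (a := z) (b := b)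
      (by rw [lab z hz, lab b hb]; exact hbz.symm)
      (fun a => a.2 ⟨fun e => hbz (e ▸ rfl), Or.inl ⟨rfl, Set.mem_toFinset.2 hD⟩⟩) ?_ ?_)
  · intro v hv e
    rw [Set.mem_toFinset] at hv
    rw [lab v hv, lab z hz] at e
    exact AAdm_uniq h1 hz hv e
  · intro v hv e
    rw [Set.mem_toFinset] at hv
    rw [lab v hv, lab b hb] at e
    exact AAdm_uniq h2 hb hv e

theorem FamB.noBook (h : FamB r t G c) (hr : 3 ≤ r) : NoBook G r t := by
  obtain ⟨w, z, X, D, hw, hX, hD, hX1, h⟩ := h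
  have hl : 1 ∈ Icc 1 r := mem_Icc.2 ⟨le_rfl, by omega⟩
  rcases h with ⟨h, hz, b, hb, rfl, h1, h2⟩ | ⟨h, hz, h1, h2, h3⟩ | ⟨h, ht, hz, h1, h2, h3, h4⟩
  · exact AAdm_pair h hr hw hX hz hb rfl (hD b rfl).2 h1 h2
  · rcases Nat.eq_zero_or_pos t with ht | ht
    · obtain ⟨hzX, b, hb, -⟩ := h2 ht
      have hb' : b ∈ X ∩ D := hb ▸ rfl
      exact AAdm_pair h hr hw hX hzX hb'.1 hb'.2 (hD b hb'.2).2
        (h1 _ (mem_Icc.2 ⟨Nat.pos_of_ne_zero hz, h.1 _⟩))
        (h1 _ (mem_Icc.2 ⟨Nat.pos_of_ne_zero (hX b hb'.1), h.1 _⟩))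
    · rw [AAdm_eq1 h]
      exact noBook1 (AAdm_lab_mem h.1 hl) (AAdm_prop _ 1) (fun v a => a.1.1 hw) ht
        (AAdm_card h.1 hX 1 fun i hi => (h1 i hi).le.trans ht)
  have hadj : ∀ u v, G.Adj u v ↔ cross c u v ∨ (u = w ∧ v ∈ X ∨ v = w ∧ u ∈ X) ∨
      (u = z ∧ v ∈ D ∨ v = z ∧ u ∈ D) := fun u v => by
    rw [h.2.2, Set.mem_union, AAdm_spokes, AAdm_spokes]; simp [cross]
  by_cases hm : ∃ l ∈ Icc 1 r, ∀ v ∈ D, c v ≠ l
  · obtain ⟨l, hl, hm⟩ := hm
    have e : G = (Kc c ⊔ Sg z D.toFinset) ⊔ Sg w X.toFinset := by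
      ext u v
      have h5 := hadj u v
      have h6 : G.Adj u v → u ≠ v := G.ne_of_adj
      simp only [SimpleGraph.sup_adj, Kc, Sg, Set.mem_toFinset]
      grind
    rw [e]
    refine noBook1 (AAdm_lab_mem h.1 hl) ?_ ?_ ht (AAdm_card h.1 hX l h1)
    · rintro u v (⟨a1, a2, a3⟩ | ⟨-, ⟨rfl, a⟩ | ⟨rfl, a⟩⟩)
      · rwa [AAdm_lab, AAdm_lab, if_neg a1, if_neg a2]
      · rw [Set.mem_toFinset] at a
        rw [AAdm_lab, AAdm_lab, if_pos hz, if_neg (hD _ a).1]; exact (hm _ a).symm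
      · rw [Set.mem_toFinset] at a
        rw [AAdm_lab, AAdm_lab, if_pos hz, if_neg (hD _ a).1]; exact hm _ a
    · rintro v (a | ⟨-, ⟨rfl, a⟩ | ⟨-, a⟩⟩)
      · exact a.1 hw
      · exact (h4 ⟨v, Set.mem_toFinset.1 a⟩).1 rfl
      · exact (hD _ (Set.mem_toFinset.1 a)).1 hw
  push Not at hm
  obtain ⟨hzw, h5⟩ := h4 (by obtain ⟨v, hv, -⟩ := hm 1 hl; exact ⟨v, hv⟩)
  have hDc : D.toFinset.card ≤ r := by rwa [← Set.ncard_eq_toFinset_card']
  have hT : Trans r c D.toFinset := trans_of_card hDc fun i hi => by simpa using hm i hi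
  have pK : ∀ u v, (Kc c).Adj u v → AAdm_lab c 1 u ≠ AAdm_lab c 1 v := fun u v a => by
    rw [AAdm_lab, AAdm_lab, if_neg a.1, if_neg a.2.1]; exact a.2.2
  have n1 : NoBook (Kc c ⊔ Sg w X.toFinset) r t :=
    noBook1 (AAdm_lab_mem h.1 hl) pK (fun v a => a.1 hw) ht (AAdm_card h.1 hX 1 h1)
  have n2 : NoBook (Kc c ⊔ Sg z D.toFinset) r t :=
    noBook1 (AAdm_lab_mem h.1 hl) pK (fun v a => a.1 hz) ht fun i => le_trans (card_le_card fun v hv => by
      rw [mem_filter] at hv ⊢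
      exact ⟨hv.1, by rw [← hv.2, AAdm_lab, if_neg (hT.1 v hv.1)]⟩) ((hT.filter_le i).trans ht)
  have a1 : ∀ u v, G.Adj u v → u ≠ z → v ≠ z → (Kc c ⊔ Sg w X.toFinset).Adj u v := fun u v a b d => by
    have h6 := a.ne
    have := (hadj u v).1 a
    simp only [SimpleGraph.sup_adj, Kc, Sg, Set.mem_toFinset]
    grind
  have a2 : ∀ u v, G.Adj u v → u ≠ w → v ≠ w → (Kc c ⊔ Sg z D.toFinset).Adj u v := fun u v a b d => by
    have h6 := a.ne
    have := (hadj u v).1 a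
    simp only [SimpleGraph.sup_adj, Kc, Sg, Set.mem_toFinset]
    grind
  have nw : ∀ v, G.Adj w v → v ∈ X := fun v a => by
    have := (hadj w v).1 a
    have := hX w
    have := hD w
    grind [cross]
  have nz : ∀ v, G.Adj z v → v ∈ D := fun v a => by
    have := (hadj z v).1 a
    have := hX z
    have := hD z
    grind [cross]
  have nwz : ¬ G.Adj w z := fun a => hX z (nw z a) hz
  intro K hK T hT'
  by_cases c1 : z ∉ K ∧ z ∉ T
  · exact n1 K ⟨fun u hu v hv e => a1 u v (hK.1 hu hv e) (fun a => c1.1 (a ▸ hu))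
      fun a => c1.1 (a ▸ hv), hK.2⟩ T fun v hv u hu =>
        a1 u v (hT' v hv u hu) (fun a => c1.1 (a ▸ hu)) fun a => c1.2 (a ▸ hv)
  by_cases c2 : w ∉ K ∧ w ∉ T
  · exact n2 K ⟨fun u hu v hv e => a2 u v (hK.1 hu hv e) (fun a => c2.1 (a ▸ hu))
      fun a => c2.1 (a ▸ hv), hK.2⟩ T fun v hv u hu =>
        a2 u v (hT' v hv u hu) (fun a => c2.1 (a ▸ hu)) fun a => c2.2 (a ▸ hv)
  have c3 : z ∈ T ∧ w ∈ T := by
    by_cases d1 : z ∈ K <;> by_cases d2 : w ∈ K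
    · exact absurd (hK.1 d2 d1 hzw.symm) nwz
    · exact absurd (hT' w (by tauto) z d1).symm nwz
    · exact absurd (hT' z (by tauto) w d2) nwz
    · tauto
  have kD : K = D.toFinset := eq_of_subset_of_card_le
    (fun u hu => Set.mem_toFinset.2 (nz u (hT' z c3.1 u hu).symm)) (by rw [hK.2]; exact hDc)
  have dX : ∀ u ∈ D, u ∈ X := fun u hu =>
    nw u (hT' w c3.2 u (kD ▸ Set.mem_toFinset.2 hu)).symm
  have t2 : 2 ≤ t := by
    by_contra hc
    refine h3 fun v hv => ?_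
    have hi : c v ∈ Icc 1 r := mem_Icc.2 ⟨Nat.pos_of_ne_zero (hX v hv), h.1 v⟩
    obtain ⟨u, hu, e⟩ := hm _ hi
    exact AAdm_uniq (by rw [h5 _ hi]; omega) hv (dX u hu) e ▸ hu
  refine le_trans (card_le_card (t := {w, z}) fun v hv => ?_) (card_le_two.trans t2)
  by_contra hc
  simp only [mem_insert, mem_singleton, not_or] at hc
  have hv0 : ∀ u ∈ D, cross c u v := fun u hu => by
    have := (hadj u v).1 (hT' v hv u (kD ▸ Set.mem_toFinset.2 hu))
    have := (hD u hu).1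
    grind
  obtain ⟨u, hu, -⟩ := hm 1 hl
  obtain ⟨u', hu', e⟩ := hm (c v) (mem_Icc.2 ⟨Nat.pos_of_ne_zero (hv0 u hu).2.1, h.1 v⟩)
  exact (hv0 u' hu').2.2 e

theorem FamB.nc (h : FamB r t G c) (hr : 3 ≤ r) : ¬ G.Colorable r := by
  obtain ⟨w, z, X, D, hw, hX, hD, hX1, h⟩ := h
  intro hc
  have _ := hr
  rcases h with ⟨h, hz, b, hb, rfl, h1, h2⟩ | ⟨h, hz, h1, h2, h3⟩ | ⟨h, ht, hz, h1, h2, h3, h4⟩
  · obtain ⟨e, e1, e2, e3⟩ := AAdm_rigid h hc
    have ez : e z = c z := by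
      by_contra hne
      obtain ⟨y, hy, hyb⟩ := AAdm_other h (e1 z) b
      have := mem_Icc.1 (e1 z)
      have hyz : y ≠ z := fun a => hne (by rw [← hy, a])
      refine e3 z y ((h.2.2 _ _).2 (Or.inl ⟨hX z hz, by omega, by rw [hy]; exact Ne.symm hne, fun a => ?_⟩))
        (by rw [e2 y (by omega) hyz, hy])
      rcases (AAdm_spokes _ _ _ _).1 a with a | a
      exacts [hyb a.2, hyz a.1]
    obtain ⟨v, hv, hv'⟩ := AAdm_ex (hX1 _ (e1 w))
    refine e3 w v ((h.2.2 _ _).2 (Or.inr ((AAdm_spokes _ _ _ _).2 (Or.inl ⟨rfl, hv⟩)))) ?_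
    by_cases a : v = z
    · rw [← hv', a, ez]
    · rw [e2 v (hX v hv) a, hv']
  · obtain ⟨e, e1, e2, e3⟩ := AAdm_rigid h hc
    obtain ⟨v, hv, hv'⟩ := AAdm_ex (hX1 _ (e1 w))
    have hwv := e3 w v ((h.2.2 _ _).2 (Or.inr ((AAdm_spokes _ _ _ _).2 (Or.inl ⟨rfl, hv⟩))))
    by_cases a : v = z
    · subst a
      rcases Nat.eq_zero_or_pos t with ht | ht
      · obtain ⟨-, b, hb, y, hy, hyb⟩ := h2 ht
        obtain ⟨u, hu, hu'⟩ := AAdm_ex (hX1 _ (e1 v))
        have key : ∀ x, c x = e v → x ∉ D → False := fun x h4 h5 => by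
          have := mem_Icc.1 (e1 v)
          have hxv : x ≠ v := fun a => hwv (by rw [← hv', ← h4, a])
          refine e3 v x ((h.2.2 _ _).2 (Or.inl ⟨hz, by omega, by rw [h4, hv']; exact hwv, fun a => ?_⟩))
            (by rw [e2 x (by omega) hxv, h4])
          rcases (AAdm_spokes _ _ _ _).1 a with a | a
          exacts [h5 a.2, hxv a.1]
        by_cases huD : u ∈ D
        · have : u ∈ X ∩ D := ⟨hu, huD⟩
          rw [hb] at this
          exact key y (by rw [hyb, ← hu', this]) hy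
        · exact key u hu' huD
      · exact (h3 ht).1 hv
    · exact hwv (by rw [e2 v (hX v hv) a, hv'])
  · have h' : Mp G r c (spokes w X ∪ spokes z D) (spokes z ∅) := by
      rwa [show spokes z (∅ : Set V) = ∅ by simp [spokes]]
    obtain ⟨e, e1, e2, e3⟩ := AAdm_rigid h' hc
    obtain ⟨v, hv, hv'⟩ := AAdm_ex (hX1 _ (e1 w))
    exact e3 w v ((h.2.2 _ _).2 (Or.inr (Or.inl ((AAdm_spokes _ _ _ _).2 (Or.inl ⟨rfl, hv⟩)))))
      (by rw [e2 v (hX v hv) (fun a => hX v hv (a ▸ hz)), hv'])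

theorem FamW.free (h : FamW G c) (hq : 2 ≤ q) : (Whl q).Free G := by
  obtain ⟨w, z, a, b, D, hw, hz, ha, hb, hab, hD, h⟩ := h
  rcases h with ⟨h, h1, h2, h3, -⟩ | ⟨o, ho, ho0, h, h1, -⟩ | ⟨o, ho, ho0, h, h1, h2, -, h3⟩
  · rw [AAdm_eq1 h]
    refine (cls_wheel hq).gad _ w z _ (colorable_of_labels _ (AAdm_lab_mem h.1 (l := 1) (by simp))
      (AAdm_prop _ 1)) (fun v x => x.1.1 hw) (by simpa using card_le_three) (by simp) ?_
    intro v hv x
    refine x.2 ⟨x.1.ne, Or.inl ⟨rfl, ?_⟩⟩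
    have := x.1.ne
    simp only [Set.mem_toFinset, Set.mem_insert_iff, Set.mem_singleton_iff] at hv ⊢
    grind
  · rw [AAdm_eq2 h]
    simp only [Set.toFinset_insert, Set.toFinset_singleton]
    refine TgOK.freeW2 ⟨h.1, ?_, ho0, hw, ho, by simp [ha, hb], by simp [ha, hb]⟩ hq
    rintro u v ⟨-, ⟨rfl, x⟩ | ⟨rfl, x⟩⟩ <;> rw [Set.mem_toFinset] at x
    exacts [⟨hz, hD _ x, (h1 _ x).symm⟩, ⟨hD _ x, hz, h1 _ x⟩]
  · rw [AAdm_eq2 h]
    obtain ⟨l, hl, hl'⟩ := exists_mem_notMem_of_card_lt_card (s := D.toFinset.image c) (t := Icc 1 3)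
      (lt_of_le_of_lt card_image_le (by rw [← Set.ncard_eq_toFinset_card']; simp; omega))
    refine TgOK.gad (Fr := fun G : SimpleGraph V => (Whl q).Free G) (a := z)
      ⟨h.1, ?_, ho0, hw, ho, fun v x => hD v (Set.mem_toFinset.1 x), by simp [ha, hb, hz]⟩
      (cls_wheel hq) hl (fun v x e => hl' (mem_image.2 ⟨v, x, e⟩)) (by simpa using card_le_three)
      (by simp) ?_
    · rintro u v ⟨-, ⟨rfl, x⟩ | ⟨rfl, x⟩⟩ <;>
        simp only [Set.mem_toFinset, Set.mem_insert_iff, Set.mem_singleton_iff] at x <;>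
        rcases x with rfl | rfl
      exacts [⟨hz, ha, h1⟩, ⟨hz, hb, h2⟩, ⟨ha, hz, h1.symm⟩, ⟨hb, hz, h2.symm⟩]
    · intro v hv
      rw [Tg_adj]
      simp only [Set.mem_toFinset, Set.mem_insert_iff, Set.mem_singleton_iff, Sg, cross] at hv ⊢
      grind

theorem AAdm_three {A : Set (Sym2 V)} {w z a b x y : V} {D : Set V} (h : Mp G 3 c A (spokes z D))
    (hz : c z ≠ 0) (ha : c a ≠ 0) (hb : c b ≠ 0) (hab : c a ≠ c b) (hza : c z ≠ c a) (hzb : c z ≠ c b)
    (hx : c x = c a) (hy : c y = c b) (hxD : x ∉ D) (hyD : y ∉ D) (w1 : G.Adj w z) (w2 : G.Adj w a)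
    (w3 : G.Adj w b) : ¬ G.Colorable 3 := by
  intro hc
  obtain ⟨e, e1, e2, e3⟩ := AAdm_rigid h hc
  have key : ∀ u, c u ≠ 0 → c z ≠ c u → u ∉ D → e z ≠ c u := fun u h1 h2 h3 => by
    have hu : u ≠ z := fun x => h2 (x ▸ rfl)
    rw [← e2 u h1 hu]
    refine e3 z u ((h.2.2 _ _).2 (Or.inl ⟨hz, h1, h2, fun a => ?_⟩))
    rcases (AAdm_spokes _ _ _ _).1 a with a | a
    exacts [h3 a.2, hu a.1]
  have k1 := key x (hx ▸ ha) (hx ▸ hza) hxD
  have k2 := key y (hy ▸ hb) (hy ▸ hzb) hyD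
  have k3 := e3 _ _ w1
  have k4 := e3 _ _ w2
  have k5 := e3 _ _ w3
  rw [e2 a ha fun x => hza (x ▸ rfl)] at k4
  rw [e2 b hb fun x => hzb (x ▸ rfl)] at k5
  have := mem_Icc.1 (e1 w)
  have := mem_Icc.1 (e1 z)
  have := h.1 a
  have := h.1 b
  omega

theorem FamW.nc (h : FamW G c) : ¬ G.Colorable 3 := by
  obtain ⟨w, z, a, b, D, hw, hz, ha, hb, hab, hD, h⟩ := h
  rcases h with ⟨h, h1, h2, h3, ⟨x, hx, hx'⟩, y, hy, hy'⟩ | ⟨o, ho, ho0, h, h1, -, h2, h3, -⟩ |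
    ⟨o, ho, ho0, h, h1, h2, -, h3⟩
  · have n : ∀ v ∈ ({z, a, b} : Set V), G.Adj w v := fun v hv =>
      (h.2.2 _ _).2 (Or.inr ((AAdm_spokes _ _ _ _).2 (Or.inl ⟨rfl, hv⟩)))
    exact AAdm_three h hz ha hb hab (h1 a h2).symm (h1 b h3).symm hx' hy' hx hy (n z (by simp))
      (n a (by simp)) (n b (by simp))
  · intro hc
    obtain ⟨e, e1, e2, e3⟩ := AAdm_rigid h hc
    have n : ∀ v ∈ ({o, a, b} : Set V), e w ≠ e v := fun v hv =>
      e3 _ _ ((h.2.2 _ _).2 (Or.inr (Or.inl ((AAdm_spokes _ _ _ _).2 (Or.inl ⟨rfl, hv⟩)))))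
    have n' : ∀ v ∈ ({a, b} : Set V), e o ≠ e v := fun v hv =>
      e3 _ _ ((h.2.2 _ _).2 (Or.inr (Or.inr ((AAdm_spokes _ _ _ _).2 (Or.inl ⟨rfl, hv⟩)))))
    have k1 := n o (by simp)
    have k2 := n a (by simp)
    have k3 := n b (by simp)
    have k4 := n' a (by simp)
    have k5 := n' b (by simp)
    rw [e2 a ha h2.symm] at k2 k4
    rw [e2 b hb h3.symm] at k3 k5
    have := mem_Icc.1 (e1 w)
    have := mem_Icc.1 (e1 o)
    have := h.1 a
    have := h.1 b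
    omega
  · have n : ∀ v ∈ ({z, a, b} : Set V), G.Adj w v := fun v hv =>
      (h.2.2 _ _).2 (Or.inr (Or.inl ((AAdm_spokes _ _ _ _).2 (Or.inl ⟨rfl, hv⟩))))
    obtain ⟨x, hx, hx'⟩ := AAdm_other h (i := c a) (mem_Icc.2 ⟨Nat.pos_of_ne_zero ha, h.1 a⟩) a
    obtain ⟨y, hy, hy'⟩ := AAdm_other h (i := c b) (mem_Icc.2 ⟨Nat.pos_of_ne_zero hb, h.1 b⟩) b
    refine AAdm_three h hz ha hb hab h1 h2 hx hy ?_ ?_ (n z (by simp)) (n a (by simp)) (n b (by simp))
    · rintro (rfl | rfl)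
      exacts [hx' rfl, hab hx.symm]
    · rintro (rfl | rfl)
      exacts [hab hy, hy' rfl]

end Pool.Agent.P.MP_094db5_co

end
end
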