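import Pool.Agent.P.MP_094db5_co.TDefs

section

/-! The secular functions of a complete multipartite graph with a few special vertices. -/

set_option autoImplicit false

open Finset Classical

noncomputable section

namespace Pool.Agent.P.MP_094db5_co

/-- contribution of a part without special vertex -/
def ph1 (μ : ℝ) (n : ℕ) (F : ℝ) : ℝ := (n + 2 * F - F ^ 2 / μ) / (μ + n)

/-- contribution of a part of size `n` that contains a special vertex of value `α` -/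
def ph2 (μ : ℝ) (n : ℕ) (α : ℝ) : ℝ :=
  n / (μ + n) - μ * (μ + n) / (μ + n - 1) * (α - 1 / (μ + n)) ^ 2

/-- secular function, two outer vertices -/
def PhS (r : ℕ) (μ : ℝ) (n y x : ℕ → ℕ) (g e α β : ℝ) : ℝ :=
  ∑ i ∈ Icc 1 r, ph1 μ (n i) (y i * α + x i * β) +
    ((∑ i ∈ Icc 1 r, (y i : ℝ)) * α ^ 2 + (∑ i ∈ Icc 1 r, (x i : ℝ)) * β ^ 2 + 2 * g * α * β) / μ -
    μ * α ^ 2 - μ * β ^ 2 + 2 * e * α * β

/-- secular function, one outer vertex and one deleted edge -/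
def PhP (r : ℕ) (μ : ℝ) (n : ℕ → ℕ) (a b : ℕ) (x : ℕ → ℕ) (α γ β : ℝ) : ℝ :=
  ∑ i ∈ Icc 1 r \ {a, b}, ph1 μ (n i) (x i * β) +
    (∑ i ∈ Icc 1 r \ {a, b}, (x i : ℝ)) * β ^ 2 / μ - μ * β ^ 2 + ph2 μ (n a) α + ph2 μ (n b) γ -
    2 * α * γ + 2 * β * (α + γ)

end Pool.Agent.P.MP_094db5_co

end
end

section

/-! Discrete optimisation: greedy distributions, Turan numbers. -/

set_option autoImplicit false

open Finset Classical

noncomputable section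

namespace Pool.Agent.P.MP_094db5_co

lemma ph1_eq {μ : ℝ} (hμ : 0 < μ) (n : ℕ) (F : ℝ) :
    ph1 μ n F = 1 - (μ - F) ^ 2 / (μ * (μ + n)) := by
  have : (0 : ℝ) < μ + n := by positivity
  unfold ph1
  field_simp
  ring

lemma exists_mid (J : Finset ℕ) (lo hi : ℕ → ℕ) (h : ∀ i ∈ J, lo i ≤ hi i) :
    ∀ T, ∑ i ∈ J, lo i ≤ T → T ≤ ∑ i ∈ J, hi i →
      ∃ y : ℕ → ℕ, (∀ i ∈ J, lo i ≤ y i ∧ y i ≤ hi i) ∧ (∀ i ∉ J, y i = 0) ∧ ∑ i ∈ J, y i = T := by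
  induction J using Finset.induction_on with
  | empty => exact fun T _ h2 => ⟨fun _ => 0, by simp, by simp, by simp at h2; simp [h2]⟩
  | insert a J ha ih =>
    intro T h1 h2
    rw [sum_insert ha] at h1 h2
    have h3 := h a (mem_insert_self _ _)
    have h4 : ∑ i ∈ J, lo i ≤ ∑ i ∈ J, hi i := sum_le_sum fun i hi => h i (mem_insert_of_mem hi)
    obtain ⟨s, s1, s2, s3, s4⟩ : ∃ s, lo a ≤ s ∧ s ≤ hi a ∧ ∑ i ∈ J, lo i + s ≤ T ∧
        T ≤ ∑ i ∈ J, hi i + s := ⟨min (hi a) (T - ∑ i ∈ J, lo i), by omega⟩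
    obtain ⟨y, y1, y2, y3⟩ := ih (fun i hi => h i (mem_insert_of_mem hi)) (T - s) (by omega) (by omega)
    refine ⟨Function.update y a s, fun i hi => ?_, fun i hi => ?_, ?_⟩
    · rcases mem_insert.1 hi with rfl | hi'
      · simp [s1, s2]
      · rw [Function.update_of_ne fun e : i = a => ha (e ▸ hi')]; exact y1 i hi'
    · simp only [mem_insert, not_or] at hi
      rw [Function.update_of_ne hi.1]; exact y2 i hi.2
    · rw [sum_insert ha, Function.update_self, sum_update_of_notMem ha, y3]; omega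

lemma quad_zero {d H : ℝ} (h : ∀ t : ℝ, 2 * t * d - H * t ^ 2 ≤ 0) : d = 0 := by
  have h1 : 0 < |H| + 1 := by positivity
  have h2 := h (d / (|H| + 1))
  obtain ⟨t, ht⟩ : ∃ t, t = d / (|H| + 1) := ⟨_, rfl⟩
  rw [← ht] at h2
  rw [eq_div_iff h1.ne'] at ht
  have h3 : t ^ 2 * (2 * (|H| + 1) - H) ≤ 0 := by rw [← ht] at h2; nlinarith
  have h4 : 0 < 2 * (|H| + 1) - H := by linarith [le_abs_self H, abs_nonneg H]
  have h5 : t = 0 := pow_eq_zero_iff two_ne_zero |>.1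
    (le_antisymm (nonpos_of_mul_nonpos_left h3 h4) (sq_nonneg _))
  rw [← ht, h5, zero_mul]

/-- greedy distributions -/
def Gr (J : Finset ℕ) (l u : ℕ) (n y : ℕ → ℕ) : Prop :=
  ∀ i ∈ J, ∀ j ∈ J, y i + u < n i → l < y j → n j < n i ∨ (n j = n i ∧ y j ≤ y i + 1)

/-- admissible distributions -/
def Ad (J : Finset ℕ) (l u : ℕ) (n y : ℕ → ℕ) : Prop := ∀ i ∈ J, l ≤ y i ∧ y i + u ≤ n i

lemma sum_two {J : Finset ℕ} {i j : ℕ} (hi : i ∈ J) (hj : j ∈ J) (hij : i ≠ j) {f g : ℕ → ℝ}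
    (h : ∀ k ∈ J, k ≠ i → k ≠ j → f k = g k) :
    ∑ k ∈ J, f k = ∑ k ∈ J, g k + (f i - g i) + (f j - g j) := by
  have h1 : ({i, j} : Finset ℕ) ⊆ J := fun k hk => by
    rcases mem_insert.1 hk with e | e
    exacts [e ▸ hi, mem_singleton.1 e ▸ hj]
  rw [← sum_sdiff h1, ← sum_sdiff h1 (f := g), sum_pair hij, sum_pair hij,
    sum_congr rfl fun k hk => by
      simp only [mem_sdiff, mem_insert, mem_singleton, not_or] at hk
      exact h k hk.1 hk.2.1 hk.2.2]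
  ring

/-- optimal distributions are greedy -/
lemma gr_of_opt {J : Finset ℕ} {l u : ℕ} {n y : ℕ → ℕ} {h : ℕ → ℕ → ℝ} (ha : Ad J l u n y)
    (m1 : ∀ i ∈ J, ∀ s s', s < s' → h (n i) (s' + 1) - h (n i) s' < h (n i) (s + 1) - h (n i) s)
    (m2 : ∀ i ∈ J, ∀ j ∈ J, n i < n j → ∀ s s', s < n i →
      h (n j) (s' + 1) - h (n j) s' < h (n i) (s + 1) - h (n i) s)
    (opt : ∀ y' : ℕ → ℕ, Ad J l u n y' → (∀ i ∉ J, y' i = y i) → ∑ i ∈ J, y' i = ∑ i ∈ J, y i →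
      ∑ i ∈ J, h (n i) (y' i) ≤ ∑ i ∈ J, h (n i) (y i)) : Gr J l u n y := by
  intro i hi j hj h1 h2
  by_contra hn
  have hij : i ≠ j := by rintro rfl; exact hn (Or.inr ⟨rfl, by omega⟩)
  obtain ⟨s, hs⟩ : ∃ s, y j = s + 1 := ⟨y j - 1, by omega⟩
  obtain ⟨y', e1, e2, e3⟩ : ∃ y' : ℕ → ℕ, y' i = y i + 1 ∧ y' j = s ∧ ∀ k, k ≠ i → k ≠ j → y' k = y k :=
    ⟨fun k => if k = i then y i + 1 else if k = j then s else y k, by simp, by simp [hij.symm],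
      fun k a b => by simp [a, b]⟩
  have a1 := opt y' (fun k hk => by
    by_cases a : k = i
    · have := ha i hi
      rw [a]; omega
    · by_cases b : k = j
      · have := ha j hj
        rw [b]; omega
      · rw [e3 k a b]; exact ha k hk)
    (fun k hk => e3 k (fun e => hk (e ▸ hi)) fun e => hk (e ▸ hj)) (by
      have := sum_two hi hj hij (f := fun k => (y' k : ℝ)) (g := fun k => (y k : ℝ))
        fun k _ a b => by rw [e3 k a b]
      rw [e1, e2, hs] at this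
      push_cast at this
      exact_mod_cast (by push_cast; linarith : ((∑ i ∈ J, y' i : ℕ) : ℝ) = (∑ i ∈ J, y i : ℕ)))
  rw [sum_two hi hj hij (f := fun k => h (n k) (y' k)) (g := fun k => h (n k) (y k))
    fun k _ a b => by rw [e3 k a b], e1, e2, hs] at a1
  rcases lt_trichotomy (n i) (n j) with b | b | b
  · linarith [m2 i hi j hj b (y i) s (by omega)]
  · have := m1 i hi (y i) s (by omega)
    rw [← b] at a1
    linarith
  · exact hn (Or.inl b)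

lemma conc_le {f : ℕ → ℝ} {τ : ℝ} {y s : ℕ}
    (m : ∀ s s', s ≤ s' → f (s' + 1) - f s' ≤ f (s + 1) - f s)
    (h1 : y < s → f (y + 1) - f y ≤ τ) (h2 : s < y → ∀ y', y = y' + 1 → τ ≤ f (y' + 1) - f y') :
    f s - τ * s ≤ f y - τ * y := by
  rcases lt_trichotomy y s with a | a | a
  · obtain ⟨t, rfl⟩ := Nat.exists_eq_add_of_le a.le
    have h3 := h1 a
    clear h1 h2 a
    induction t with
    | zero => simp
    | succ t ih =>
      have := m y (y + t) (by omega)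
      rw [← add_assoc]
      push_cast at ih ⊢
      linarith
  · rw [a]
  · obtain ⟨y', rfl⟩ : ∃ y', y = y' + 1 := ⟨y - 1, by omega⟩
    have h3 := h2 a y' rfl
    have key : ∀ t s, s + t = y' + 1 → f s - τ * s ≤ f (y' + 1) - τ * (y' + 1 : ℕ) := by
      intro t
      induction t with
      | zero => intro s e; rw [← e]; simp
      | succ t ih =>
        intro s e
        have := ih (s + 1) (by omega)
        have := m s y' (by omega)
        push_cast at *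
        linarith
    exact key (y' + 1 - s) s (by omega)

lemma sum_le_of_card {S T : Finset ℕ} {f g : ℕ → ℝ} (h : S.card = T.card)
    (h1 : ∀ j ∈ S, ∀ i ∈ T, f j ≤ g i) : ∑ j ∈ S, f j ≤ ∑ i ∈ T, g i := by
  rcases T.eq_empty_or_nonempty with rfl | hT
  · rw [card_eq_zero.1 h]; simp
  · have h0 : (0 : ℝ) < T.card := by exact_mod_cast hT.card_pos
    refine le_of_mul_le_mul_left ?_ h0
    calc (T.card : ℝ) * ∑ j ∈ S, f j = ∑ i ∈ T, ∑ j ∈ S, f j := by rw [sum_const, nsmul_eq_mul]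
      _ ≤ ∑ i ∈ T, ∑ _j ∈ S, g i := sum_le_sum fun i hi => sum_le_sum fun j hj => h1 j hj i hi
      _ = _ := by simp only [sum_const, nsmul_eq_mul, ← mul_sum, h]

lemma card_big {J : Finset ℕ} {n : ℕ → ℕ} {ν : ℕ} (h : ∀ i ∈ J, ν ≤ n i ∧ n i ≤ ν + 1) :
    ∑ i ∈ J, n i = J.card * ν + (J.filter fun i => n i = ν + 1).card := by
  rw [card_filter, ← smul_eq_mul, ← sum_const, ← sum_add_distrib]
  refine sum_congr rfl fun i hi => ?_
  have := h i hi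
  split_ifs <;> omega

/-- greedy distributions are optimal -/
lemma opt_of_gr {J J₀ : Finset ℕ} {l u ν : ℕ} {n y n₀ y₀ : ℕ → ℕ} {h : ℕ → ℕ → ℝ}
    (ha : Ad J l u n y) (hg : Gr J l u n y) (ha₀ : Ad J₀ l u n₀ y₀)
    (hn : ∀ i ∈ J, ν ≤ n i ∧ n i ≤ ν + 1) (hn₀ : ∀ i ∈ J₀, ν ≤ n₀ i ∧ n₀ i ≤ ν + 1)
    (hc : J₀.card = J.card) (hs : ∑ i ∈ J₀, n₀ i = ∑ i ∈ J, n i)
    (hy : ∑ i ∈ J₀, y₀ i = ∑ i ∈ J, y i)
    (m1 : ∀ n s s', s ≤ s' → h n (s' + 1) - h n s' ≤ h n (s + 1) - h n s)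
    (m2 : ∀ s s', s < ν → h (ν + 1) (s' + 1) - h (ν + 1) s' ≤ h ν (s + 1) - h ν s) :
    ∑ i ∈ J₀, h (n₀ i) (y₀ i) ≤ ∑ i ∈ J, h (n i) (y i) := by
  have pw : ∀ i ∈ J, y i + u < n i → ∀ j ∈ J, l < y j → ∀ s, y j = s + 1 →
      h (n i) (y i + 1) - h (n i) (y i) ≤ h (n j) (s + 1) - h (n j) s := by
    intro i hi h1 j hj h2 s e
    have := hn i hi
    have := hn j hj
    have := ha j hj
    rcases hg i hi j hj h1 h2 with a | a
    · rw [show n i = ν + 1 by omega, show n j = ν by omega]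
      exact m2 _ _ (by omega)
    · rw [a.1]; exact m1 _ _ _ (by omega)
  obtain ⟨τ, t1, t2⟩ : ∃ τ : ℝ, (∀ i ∈ J, y i + u < n i → h (n i) (y i + 1) - h (n i) (y i) ≤ τ) ∧
      ∀ j ∈ J, l < y j → ∀ s, y j = s + 1 → τ ≤ h (n j) (s + 1) - h (n j) s := by
    rcases (J.filter fun i => y i + u < n i).eq_empty_or_nonempty with e | e
    · obtain ⟨τ, hτ⟩ := (J.image fun j => h (n j) (y j - 1 + 1) - h (n j) (y j - 1)).bddBelow
      refine ⟨τ, fun i hi a => (filter_eq_empty_iff.1 e hi a).elim, fun j hj _ s e => hτ ?_⟩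
      exact mem_coe.2 (mem_image.2 ⟨j, hj, by rw [e]; rfl⟩)
    · obtain ⟨i, hi, hm⟩ := exists_max_image _ (fun i => h (n i) (y i + 1) - h (n i) (y i)) e
      exact ⟨_, fun k hk a => hm k (mem_filter.2 ⟨hk, a⟩),
        pw i (mem_filter.1 hi).1 (mem_filter.1 hi).2⟩
  have key : ∀ j ∈ J₀, ∀ i ∈ J, n₀ j = n i →
      h (n₀ j) (y₀ j) - τ * y₀ j ≤ h (n i) (y i) - τ * y i := by
    intro j hj i hi e
    have := ha₀ j hj
    rw [e]
    exact conc_le (m1 (n i)) (fun a => t1 i hi (by omega)) fun a => t2 i hi (by omega)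
  have c1 : (J₀.filter fun i => n₀ i = ν + 1).card = (J.filter fun i => n i = ν + 1).card := by
    have a1 := card_big hn
    have a2 := card_big hn₀
    rw [hc] at a2
    omega
  have c2 : (J₀.filter fun i => ¬ n₀ i = ν + 1).card = (J.filter fun i => ¬ n i = ν + 1).card := by
    have a1 := card_filter_add_card_filter_not (s := J) fun i => n i = ν + 1
    have a2 := card_filter_add_card_filter_not (s := J₀) fun i => n₀ i = ν + 1
    omega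
  have s1 := sum_le_of_card c1 (f := fun j => h (n₀ j) (y₀ j) - τ * y₀ j)
    (g := fun i => h (n i) (y i) - τ * y i) fun j hj i hi =>
      key j (mem_filter.1 hj).1 i (mem_filter.1 hi).1
        ((mem_filter.1 hj).2.trans (mem_filter.1 hi).2.symm)
  have s2 := sum_le_of_card c2 (f := fun j => h (n₀ j) (y₀ j) - τ * y₀ j)
    (g := fun i => h (n i) (y i) - τ * y i) fun j hj i hi => by
      rw [mem_filter] at hi hj
      have := hn i hi.1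
      have := hn₀ j hj.1
      exact key j hj.1 i hi.1 (by omega)
  have s3 := add_le_add s1 s2
  rw [sum_filter_add_sum_filter_not, sum_filter_add_sum_filter_not] at s3
  simp only [sum_sub_distrib, ← mul_sum, ← Nat.cast_sum, hy] at s3
  linarith

/-- twice the number of edges of the complete multipartite graph -/
def eK2 (r : ℕ) (n : ℕ → ℕ) : ℝ := (∑ i ∈ Icc 1 r, (n i : ℝ)) ^ 2 - ∑ i ∈ Icc 1 r, (n i : ℝ) ^ 2

/-- twice the Turan number -/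
def tu2 (r N : ℕ) : ℝ :=
  (N : ℝ) ^ 2 - (2 * (N / r : ℕ) + 1) * N + r * (N / r : ℕ) * ((N / r : ℕ) + 1)

/-- balanced part sizes -/
def Bal (r N : ℕ) (n : ℕ → ℕ) : Prop :=
  (∀ i ∈ Icc 1 r, N / r ≤ n i ∧ n i ≤ N / r + 1) ∧ ∑ i ∈ Icc 1 r, n i = N

lemma eK2_sub {r N : ℕ} {n : ℕ → ℕ} (h : ∑ i ∈ Icc 1 r, n i = N) : tu2 r N - eK2 r n =
    ∑ i ∈ Icc 1 r, ((n i : ℝ) - (N / r : ℕ)) * (n i - (N / r : ℕ) - 1) := by
  have h1 : ∑ i ∈ Icc 1 r, (n i : ℝ) = N := by exact_mod_cast h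
  rw [sum_congr rfl (g := fun i => (n i : ℝ) ^ 2 - (2 * (N / r : ℕ) + 1) * n i +
    (N / r : ℕ) * ((N / r : ℕ) + 1)) fun i _ => by ring]
  simp only [sum_add_distrib, sum_sub_distrib, ← mul_sum, h1, sum_const, Nat.card_Icc,
    add_tsub_cancel_right, nsmul_eq_mul, tu2, eK2]
  ring

lemma Bal.eK2 {r N : ℕ} {n : ℕ → ℕ} (h : Bal r N n) : eK2 r n = tu2 r N := by
  have := eK2_sub h.2
  rw [sum_eq_zero fun i hi => by
    have := h.1 i hi
    rcases (by omega : n i = N / r ∨ n i = N / r + 1) with e | e <;> rw [e] <;> push_cast <;> ring]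
    at this
  linarith

lemma eK2_le' {r N : ℕ} {n : ℕ → ℕ} (h : ∑ i ∈ Icc 1 r, n i = N) : eK2 r n ≤ tu2 r N := by
  have := eK2_sub h
  have h2 : 0 ≤ ∑ i ∈ Icc 1 r, ((n i : ℝ) - (N / r : ℕ)) * (n i - (N / r : ℕ) - 1) := by
    refine sum_nonneg fun i _ => ?_
    rcases le_or_gt (n i) (N / r) with a | a
    · have : (n i : ℝ) ≤ (N / r : ℕ) := by exact_mod_cast a
      exact mul_nonneg_of_nonpos_of_nonpos (by linarith) (by linarith)
    · have : ((N / r : ℕ) : ℝ) + 1 ≤ n i := by exact_mod_cast a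
      exact mul_nonneg (by linarith) (by linarith)
  linarith

lemma sum_upd {J : Finset ℕ} {a : ℕ} (ha : a ∈ J) (n : ℕ → ℕ) (s : ℕ) (f : ℕ → ℝ) :
    ∑ i ∈ J, f (Function.update n a s i) = ∑ i ∈ J, f (n i) + (f s - f (n a)) := by
  rw [← add_sum_erase _ _ ha, ← add_sum_erase _ (fun i => f (n i)) ha, Function.update_self,
    sum_congr rfl fun i hi => by rw [Function.update_of_ne (ne_of_mem_erase hi)]]
  ring

lemma eK2_add {r a : ℕ} (ha : a ∈ Icc 1 r) (n : ℕ → ℕ) (t : ℕ) :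
    eK2 r (Function.update n a (n a + t)) =
      eK2 r n + 2 * t * ∑ i ∈ (Icc 1 r).erase a, (n i : ℝ) := by
  rw [eK2, eK2, sum_upd ha n _ fun s => (s : ℝ), sum_upd ha n _ fun s => (s : ℝ) ^ 2,
    ← add_sum_erase _ (fun i => (n i : ℝ)) ha]
  push_cast
  ring

/-- adding a vertex to part `a` -/
lemma eK2_le {r N a : ℕ} (ha : a ∈ Icc 1 r) {n : ℕ → ℕ} {t : ℕ} (h : ∑ i ∈ Icc 1 r, n i + t ≤ N) :
    eK2 r n + 2 * t * ∑ i ∈ (Icc 1 r).erase a, (n i : ℝ) ≤ tu2 r N := by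
  obtain ⟨s, hs⟩ := Nat.exists_eq_add_of_le h
  have h1 := eK2_le' (r := r) (N := N) (n := Function.update n a (n a + (t + s))) (by
    have := sum_upd ha n (n a + (t + s)) fun s => (s : ℝ)
    rw [hs]
    push_cast at this
    exact_mod_cast (by push_cast; linarith :
      ((∑ i ∈ Icc 1 r, Function.update n a (n a + (t + s)) i : ℕ) : ℝ) =
        (∑ i ∈ Icc 1 r, n i + t + s : ℕ)))
  rw [eK2_add ha] at h1
  push_cast at h1
  nlinarith [mul_nonneg (Nat.cast_nonneg (α := ℝ) s)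
    (sum_nonneg fun i (_ : i ∈ (Icc 1 r).erase a) => Nat.cast_nonneg (α := ℝ) (n i))]

lemma bal_of_close {r N : ℕ} (hr : 1 ≤ r) {n : ℕ → ℕ} (h : ∑ i ∈ Icc 1 r, n i = N)
    (h1 : ∀ u ∈ Icc 1 r, ∀ v ∈ Icc 1 r, n u ≤ n v + 1) : Bal r N n := by
  refine ⟨fun i hi => ⟨?_, ?_⟩, h⟩
  · by_contra hn
    have h2 : ∑ i ∈ Icc 1 r, n i < ∑ _i ∈ Icc 1 r, N / r :=
      sum_lt_sum (fun j hj => by have := h1 j hj i hi; omega) ⟨i, hi, by omega⟩
    simp only [h, sum_const, Nat.card_Icc, add_tsub_cancel_right, smul_eq_mul] at h2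
    exact absurd (Nat.mul_div_le N r) (by omega)
  · by_contra hn
    have h2 : ∑ _i ∈ Icc 1 r, (N / r + 1) ≤ ∑ i ∈ Icc 1 r, n i :=
      sum_le_sum fun j hj => by have := h1 i hi j hj; omega
    simp only [h, sum_const, Nat.card_Icc, add_tsub_cancel_right, smul_eq_mul] at h2
    have := Nat.lt_mul_div_succ N (show 0 < r by omega)
    omega

lemma exists_bal {r : ℕ} (hr : 1 ≤ r) (N : ℕ) : ∃ n, Bal r N n := by
  obtain ⟨n, h1, -, h2⟩ := exists_mid (Icc 1 r) (fun _ => N / r) (fun _ => N / r + 1)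
    (fun _ _ => by omega) N (by simpa using Nat.mul_div_le N r)
    (by simpa using (Nat.lt_mul_div_succ N (show 0 < r by omega)).le)
  exact ⟨n, h1, h2⟩

lemma Bal.card {r N : ℕ} {n : ℕ → ℕ} (h : Bal r N n) :
    ((Icc 1 r).filter fun i => n i = N / r + 1).card = N % r := by
  have h1 := card_big h.1
  have h2 := Nat.div_add_mod N r
  rw [h.2, Nat.card_Icc, add_tsub_cancel_right] at h1
  omega

lemma tu2_eq {r : ℕ} (hr : 1 ≤ r) (N : ℕ) :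
    2 * ((SimpleGraph.turanGraph N r).edgeSet.ncard : ℝ) = tu2 r N := by
  rw [← SimpleGraph.coe_edgeFinset, Set.ncard_coe_finset, SimpleGraph.card_edgeFinset_turanGraph,
    tu2]
  obtain ⟨r, rfl⟩ := Nat.exists_eq_add_of_le' hr
  have h2 := Nat.div_add_mod N (r + 1)
  generalize N / (r + 1) = ν at *
  generalize N % (r + 1) = q at *
  subst h2
  obtain ⟨w, hw⟩ : Even (r * (r + 1)) := Nat.even_mul_succ_self r
  have e1 : (((r + 1) * ν + q) ^ 2 - q ^ 2) * (r + 1 - 1) / (2 * (r + 1)) = w * ν ^ 2 + r * ν * q := by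
    rw [show ((r + 1) * ν + q) ^ 2 = (r + 1) * ((r + 1) * ν ^ 2 + 2 * ν * q) + q ^ 2 by ring,
      add_tsub_cancel_right, add_tsub_cancel_right]
    refine Nat.div_eq_of_eq_mul_right (by omega) ?_
    have : (r + 1) * ((r + 1) * ν ^ 2 + 2 * ν * q) * r =
        (r + 1) * (r * (r + 1) * ν ^ 2 + 2 * (r * ν * q)) := by ring
    rw [this, hw]
    ring
  have hw' : (r : ℝ) * (r + 1) = w + w := by exact_mod_cast hw
  rw [e1]
  push_cast
  rw [Nat.cast_choose_two]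
  linear_combination (-(ν : ℝ) ^ 2) * hw'

end Pool.Agent.P.MP_094db5_co

end
end

section

/-! The range of the parameters, marginal values, stationarity. -/

set_option autoImplicit false

open Finset Classical

noncomputable section

namespace Pool.Agent.P.MP_094db5_co

/-- the range of the real parameters -/
structure Rg (r : ℕ) (δ ν μ : ℝ) : Prop where
  r3 : 3 ≤ r
  δ0 : 0 < δ
  δ1 : 1000 * (r : ℝ) ^ 2 * δ ≤ 1
  big : 10 * (r : ℝ) ≤ δ * ν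
  hμ : |μ - (r - 1) * ν| ≤ δ * ν

/-- a part size close to the mean -/
def Cl (δ ν : ℝ) (n : ℕ) : Prop := |(n : ℝ) - ν| ≤ δ * ν

namespace Rg

variable {r : ℕ} {δ ν μ : ℝ} (h : Rg r δ ν μ)
include h

lemma R3 : (3 : ℝ) ≤ r := by exact_mod_cast h.r3

lemma δ2 : 3000 * (r : ℝ) * δ ≤ 1 := by
  nlinarith [h.R3, h.δ0, h.δ1, mul_pos (show (0 : ℝ) < r by linarith [h.R3]) h.δ0]

lemma δ3 : 9000 * δ ≤ 1 := by nlinarith [h.R3, h.δ0, h.δ2]

lemma ν0 : 0 < ν := by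
  by_contra hn
  nlinarith [h.R3, h.big, h.δ0]

lemma δν : δ * ν ≤ ν / 9000 := by nlinarith [h.δ3, h.ν0]

lemma ν1 : 90000 * (r : ℝ) ≤ ν := by linarith [h.δν, h.big]

lemma μ1 : (r - 1) * ν - δ * ν ≤ μ := by linarith [(abs_le.1 h.hμ).1]

lemma μ2 : μ ≤ (r - 1) * ν + δ * ν := by linarith [(abs_le.1 h.hμ).2]

lemma μ3 : 199 / 100 * ν ≤ μ := by nlinarith [h.μ1, h.δν, h.R3, h.ν0]

lemma μ4 : 100000 * (r : ℝ) ≤ μ := by linarith [h.μ3, h.ν1, h.R3]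

lemma μ5 : 300000 ≤ μ := by linarith [h.μ4, h.R3]

lemma μ0 : 0 < μ := by linarith [h.μ5]

lemma L0 : 0 < μ + ν := by linarith [h.μ0, h.ν0]

omit h in
lemma n1 {n : ℕ} (hn : Cl δ ν n) : ν - δ * ν ≤ n := by linarith [(abs_le.1 hn).1]

omit h in
lemma n2 {n : ℕ} (hn : Cl δ ν n) : (n : ℝ) ≤ ν + δ * ν := by linarith [(abs_le.1 hn).2]

lemma n3 {n : ℕ} (hn : Cl δ ν n) : (n : ℝ) ≤ 51 / 100 * μ := by
  linarith only [n2 hn, h.δν, h.μ3, h.ν0]

lemma n4 {n : ℕ} (hn : Cl δ ν n) : 80000 * r ≤ n := by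
  have : (80000 * r : ℝ) ≤ n := by linarith [n1 hn, h.δν, h.ν1, h.R3]
  exact_mod_cast this

lemma p1 {n : ℕ} (hn : Cl δ ν n) : (1 - δ) / (μ + ν) ≤ 1 / (μ + n) := by
  rw [div_le_div_iff₀ h.L0 (by linarith [h.μ0, Nat.cast_nonneg (α := ℝ) n])]
  nlinarith [n2 hn, n1 hn, h.δ0, h.μ3, h.ν0, h.δν]

lemma p2 {n : ℕ} (hn : Cl δ ν n) : 1 / (μ + n) ≤ (1 + δ) / (μ + ν) := by
  rw [div_le_div_iff₀ (by linarith [h.μ0, Nat.cast_nonneg (α := ℝ) n]) h.L0]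
  nlinarith only [n2 hn, n1 hn, h.δ0, h.μ3, h.ν0, h.δν]

lemma cl_bal {N : ℕ} (hN : ν = N / r) {n : ℕ → ℕ} (hb : Bal r N n) {i : ℕ} (hi : i ∈ Icc 1 r) :
    |(n i : ℝ) - ν| ≤ 1 := by
  have r0 : (0 : ℝ) < r := by linarith [h.R3]
  have a1 : ((N / r : ℕ) : ℝ) ≤ ν := hN ▸ Nat.cast_div_le
  have a2 : ν < (N / r : ℕ) + 1 := by
    rw [hN, div_lt_iff₀ r0, mul_comm]
    exact_mod_cast Nat.lt_mul_div_succ N (show 0 < r by have := h.r3; omega)
  have a3 : ((N / r : ℕ) : ℝ) ≤ n i := by exact_mod_cast (hb.1 i hi).1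
  have a4 : (n i : ℝ) ≤ (N / r : ℕ) + 1 := by exact_mod_cast (hb.1 i hi).2
  exact abs_le.2 ⟨by linarith, by linarith⟩

lemma cl_of_bal {N : ℕ} (hN : ν = N / r) {n : ℕ → ℕ} (hb : Bal r N n) {i : ℕ} (hi : i ∈ Icc 1 r) :
    Cl δ ν (n i) := (h.cl_bal hN hb hi).trans (by linarith [h.big, h.R3])

end Rg

/-- contribution of a part as a function of the number of neighbours of the main outer vertex -/
def hS (μ : ℝ) (bk : ℕ) (α β : ℝ) (n y : ℕ) : ℝ :=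
  ph1 μ n (y * α + β) + 2 * bk * (min y 1 : ℕ) * α * β / μ

lemma hS_mg {μ : ℝ} (hμ : 0 < μ) (bk : ℕ) (α β : ℝ) (n s : ℕ) :
    hS μ bk α β n (s + 1) - hS μ bk α β n s =
      α * (2 * μ - (2 * s + 1) * α - 2 * β) / (μ * (μ + n)) +
        2 * bk * (if s = 0 then 1 else 0) * α * β / μ := by
  have : (0 : ℝ) < μ + n := by positivity
  have e : ((min (s + 1) 1 : ℕ) : ℝ) = (min s 1 : ℕ) + if s = 0 then 1 else 0 := by
    rcases s with _ | s <;> simp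
  rw [hS, hS, ph1_eq hμ, ph1_eq hμ, e]
  push_cast
  field_simp
  ring

lemma hS_m1 {μ : ℝ} (hμ : 0 < μ) (bk : ℕ) {α β : ℝ} (a0 : 0 ≤ α) (b0 : 0 ≤ β) (n : ℕ) {s s' : ℕ}
    (h : s ≤ s') : hS μ bk α β n (s' + 1) - hS μ bk α β n s' +
      2 * (s' - s) * α ^ 2 / (μ * (μ + n)) ≤ hS μ bk α β n (s + 1) - hS μ bk α β n s := by
  rw [hS_mg hμ, hS_mg hμ]
  have h1 : 2 * bk * (if s' = 0 then 1 else 0) * α * β / μ ≤
      2 * bk * (if s = 0 then 1 else 0) * α * β / μ := by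
    gcongr
    split_ifs <;> first | omega | norm_num
  have h2 : α * (2 * μ - (2 * s' + 1) * α - 2 * β) / (μ * (μ + n)) +
      2 * (s' - s) * α ^ 2 / (μ * (μ + n)) = α * (2 * μ - (2 * s + 1) * α - 2 * β) / (μ * (μ + n)) := by
    ring
  linarith

lemma hS_m2 {μ R : ℝ} {bk : ℕ} (hb : bk ≤ 1) {α β : ℝ} (a0 : 0 ≤ α) (a1 : α ≤ 1 / (μ - 2))
    (b0 : 0 ≤ β) (b1 : μ * β ≤ R / (μ - 2)) (hR : 1 ≤ R) (hμ : 1000 * R ≤ μ) {n n' s s' : ℕ}
    (h1 : n < n') (h2 : (n' : ℝ) ≤ 51 / 100 * μ) (h3 : s < n) :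
    hS μ bk α β n' (s' + 1) - hS μ bk α β n' s' + α / (100 * μ ^ 2) ≤
      hS μ bk α β n (s + 1) - hS μ bk α β n s := by
  have μ0 : 0 < μ := by linarith
  rw [hS_mg μ0, hS_mg μ0]
  have n0 : (0 : ℝ) ≤ n := Nat.cast_nonneg _
  have c1 : (n : ℝ) + 1 ≤ n' := by exact_mod_cast h1
  have c2 : (s : ℝ) + 1 ≤ n := by exact_mod_cast h3
  have c3 : (bk : ℝ) ≤ 1 := by exact_mod_cast hb
  rw [le_div_iff₀ (by linarith)] at a1 b1
  have a2 : α * μ ≤ 1003 / 1000 := by nlinarith only [a0, a1, hR, hμ]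
  have b2 : β * μ ≤ 11 / 10000 := by nlinarith only [mul_nonneg b0 μ0.le, b1, hR, hμ]
  have d1 : 2 * bk * (if s' = 0 then 1 else 0) * α * β / μ ≤ α * (22 / 10000) / μ ^ 2 := by
    calc _ ≤ 2 * 1 * 1 * α * β / μ := by
          gcongr
          split_ifs <;> norm_num
      _ = α * (2 * (β * μ)) / μ ^ 2 := by field_simp
      _ ≤ _ := by gcongr; linarith
  have d2 : 0 ≤ 2 * bk * (if s = 0 then 1 else 0) * α * β / μ := by
    split_ifs <;> positivity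
  have d3 : α * (2 * μ - (2 * s' + 1) * α - 2 * β) / (μ * (μ + n')) ≤ α * 2 / (μ + n + 1) := by
    calc _ ≤ α * (2 * μ) / (μ * (μ + n')) := by
          gcongr
          nlinarith only [mul_nonneg (show (0 : ℝ) ≤ 2 * s' + 1 by positivity) a0, a0, b0]
      _ = α * 2 / (μ + n') := by field_simp
      _ ≤ _ := div_le_div_of_nonneg_left (by positivity) (by positivity) (by linarith)
  have d4 : α * (2 * μ - 103 / 100) / (μ * (μ + n)) ≤
      α * (2 * μ - (2 * s + 1) * α - 2 * β) / (μ * (μ + n)) := by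
    refine div_le_div_of_nonneg_right (mul_le_mul_of_nonneg_left ?_ a0) (by positivity)
    have : (2 * s + 1) * α ≤ 102 / 100 * μ * α := mul_le_mul_of_nonneg_right (by linarith) a0
    have : β ≤ 1 / 1000 := by nlinarith only [a0, a1, b0, b1, hR, hμ, b2]
    nlinarith
  have d5 : 2 / (μ + n + 1) + (122 / 10000) / μ ^ 2 ≤ (2 * μ - 103 / 100) / (μ * (μ + n)) := by
    rw [div_add_div _ _ (by positivity) (by positivity), div_le_div_iff₀ (by positivity) (by positivity)]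
    have e1 : (n : ℝ) + 1 ≤ 51 / 100 * μ := by linarith
    have e2 : (μ + n + 1) * (μ + n) ≤ 151 / 100 * μ * (151 / 100 * μ) :=
      mul_le_mul (by linarith) (by linarith) (by positivity) (by positivity)
    have e3 : 0 ≤ μ * (μ * μ * (2 * μ - 103 / 100 * (μ + n + 1)) / μ - 122 / 10000 * ((μ + n + 1) * (μ + n))) := by
      refine mul_nonneg μ0.le ?_
      rw [mul_comm μ μ, mul_assoc, mul_div_cancel_left₀ _ μ0.ne']
      nlinarith only [hR, hμ, c2, e2]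
    rw [mul_comm μ μ, mul_assoc, mul_div_cancel_left₀ _ μ0.ne'] at e3
    nlinarith only [e3]
  have d6 := mul_le_mul_of_nonneg_left d5 a0
  have d7 : α / (100 * μ ^ 2) = α * (1 / 100) / μ ^ 2 := by field_simp
  rw [mul_add, ← mul_div_assoc, ← mul_div_assoc, ← mul_div_assoc] at d6
  have d8 : α * 122 / 10000 / μ ^ 2 = α * (22 / 10000) / μ ^ 2 + α * (1 / 100) / μ ^ 2 := by ring
  rw [← mul_div_assoc] at d6
  linarith only [d1, d2, d3, d4, d6, d7, d8]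

/-- neighbours of the small outer vertex -/
def xS (bk a : ℕ) (i : ℕ) : ℕ := if i = a then bk else 1

/-- common neighbours of the two outer vertices -/
def gS (r bk g₀ : ℕ) (y : ℕ → ℕ) : ℝ := g₀ + bk * ∑ i ∈ Icc 1 r, ((min (y i) 1 : ℕ) : ℝ)

/-- the secular function of the star type -/
def PhK (r : ℕ) (μ : ℝ) (bk g₀ : ℕ) (n : ℕ → ℕ) (a : ℕ) (y : ℕ → ℕ) (α β : ℝ) : ℝ :=
  PhS r μ n y (xS bk a) (gS r bk g₀ y) (1 - bk) α β

/-- data of the star type -/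
structure DatS (r bk cp : ℕ) (n : ℕ → ℕ) (a : ℕ) (y : ℕ → ℕ) : Prop where
  ha : a ∈ Icc 1 r
  ya : y a = 0
  ad : Ad ((Icc 1 r).erase a) (1 - bk) cp n y

lemma PhK_eq {r a : ℕ} (ha : a ∈ Icc 1 r) (μ : ℝ) (bk g₀ : ℕ) (n : ℕ → ℕ) {y : ℕ → ℕ} (ya : y a = 0)
    (α β : ℝ) : PhK r μ bk g₀ n a y α β =
      ∑ i ∈ (Icc 1 r).erase a, hS μ bk α β (n i) (y i) + ph1 μ (n a) (bk * β) +
      ((∑ i ∈ (Icc 1 r).erase a, y i : ℕ) * α ^ 2 + (r - 1 + bk) * β ^ 2 + 2 * g₀ * α * β) / μ -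
      μ * α ^ 2 - μ * β ^ 2 + 2 * (1 - bk) * α * β := by
  have hr : 1 ≤ r := by have := mem_Icc.1 ha; omega
  have e1 : ∑ i ∈ (Icc 1 r).erase a, (xS bk a i : ℝ) = r - 1 := by
    rw [sum_congr rfl (g := fun _ => 1) fun i hi => by simp [xS, ne_of_mem_erase hi], sum_const,
      card_erase_of_mem ha]
    simp [Nat.cast_sub hr]
  have e2 : ∑ i ∈ (Icc 1 r).erase a, ph1 μ (n i) (y i * α + xS bk a i * β) =
      ∑ i ∈ (Icc 1 r).erase a, ph1 μ (n i) (y i * α + β) :=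
    sum_congr rfl fun i hi => by simp [xS, ne_of_mem_erase hi]
  simp only [PhK, PhS, gS, hS, ← add_sum_erase _ _ ha, e1, e2, ya, sum_add_distrib, ← sum_div,
    ← sum_mul, ← mul_sum, Nat.cast_sum]
  simp only [xS, if_true, Nat.cast_zero, zero_mul, zero_add, zero_le, inf_of_le_left]
  ring

lemma PhS_stat {r : ℕ} {μ : ℝ} {n y x : ℕ → ℕ} {g e α β : ℝ}
    (h : ∀ α', PhS r μ n y x g e α' β ≤ PhS r μ n y x g e α β) :
    μ * α = ∑ i ∈ Icc 1 r, y i * (1 - (y i * α + x i * β) / μ) / (μ + n i) +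
      ((∑ i ∈ Icc 1 r, (y i : ℝ)) * α + g * β) / μ + e * β := by
  have key := quad_zero (d := ∑ i ∈ Icc 1 r, y i * (1 - (y i * α + x i * β) / μ) / (μ + n i) +
      ((∑ i ∈ Icc 1 r, (y i : ℝ)) * α + g * β) / μ + e * β - μ * α)
    (H := ∑ i ∈ Icc 1 r, (y i : ℝ) ^ 2 / μ / (μ + n i) - (∑ i ∈ Icc 1 r, (y i : ℝ)) / μ + μ)
    fun t => by
      have h1 := h (α + t)
      have h2 : ∑ i ∈ Icc 1 r, ph1 μ (n i) (y i * (α + t) + x i * β) =
          ∑ i ∈ Icc 1 r, ph1 μ (n i) (y i * α + x i * β) +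
          2 * t * ∑ i ∈ Icc 1 r, y i * (1 - (y i * α + x i * β) / μ) / (μ + n i) -
          t ^ 2 * ∑ i ∈ Icc 1 r, (y i : ℝ) ^ 2 / μ / (μ + n i) := by
        simp only [mul_sum, ← sum_add_distrib, ← sum_sub_distrib]
        exact sum_congr rfl fun i _ => by unfold ph1; ring
      rw [PhS, PhS, h2] at h1
      have h3 : ((∑ i ∈ Icc 1 r, (y i : ℝ)) * (α + t) ^ 2 + (∑ i ∈ Icc 1 r, (x i : ℝ)) * β ^ 2 +
          2 * g * (α + t) * β) / μ =
          ((∑ i ∈ Icc 1 r, (y i : ℝ)) * α ^ 2 + (∑ i ∈ Icc 1 r, (x i : ℝ)) * β ^ 2 +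
          2 * g * α * β) / μ + 2 * t * (((∑ i ∈ Icc 1 r, (y i : ℝ)) * α + g * β) / μ) +
          t ^ 2 * ((∑ i ∈ Icc 1 r, (y i : ℝ)) / μ) := by ring
      rw [h3] at h1
      nlinarith only [h1]
  linarith

lemma PhP_symm (r : ℕ) (μ : ℝ) (n : ℕ → ℕ) (a b : ℕ) (x : ℕ → ℕ) (α γ β : ℝ) :
    PhP r μ n a b x α γ β = PhP r μ n b a x γ α β := by
  rw [PhP, PhP, pair_comm]
  ring

lemma PhP_statβ {r : ℕ} {μ : ℝ} {n x : ℕ → ℕ} {a b : ℕ} {α γ β : ℝ}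
    (h : ∀ β', PhP r μ n a b x α γ β' ≤ PhP r μ n a b x α γ β) :
    μ * β = ∑ i ∈ Icc 1 r \ {a, b}, x i * (1 - (x i * β) / μ) / (μ + n i) +
      (∑ i ∈ Icc 1 r \ {a, b}, (x i : ℝ)) * β / μ + (α + γ) := by
  have key := quad_zero (d := ∑ i ∈ Icc 1 r \ {a, b}, x i * (1 - (x i * β) / μ) / (μ + n i) +
      (∑ i ∈ Icc 1 r \ {a, b}, (x i : ℝ)) * β / μ + (α + γ) - μ * β)
    (H := ∑ i ∈ Icc 1 r \ {a, b}, (x i : ℝ) ^ 2 / μ / (μ + n i) -
      (∑ i ∈ Icc 1 r \ {a, b}, (x i : ℝ)) / μ + μ)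
    fun t => by
      have h1 := h (β + t)
      have h2 : ∑ i ∈ Icc 1 r \ {a, b}, ph1 μ (n i) (x i * (β + t)) =
          ∑ i ∈ Icc 1 r \ {a, b}, ph1 μ (n i) (x i * β) +
          2 * t * ∑ i ∈ Icc 1 r \ {a, b}, x i * (1 - (x i * β) / μ) / (μ + n i) -
          t ^ 2 * ∑ i ∈ Icc 1 r \ {a, b}, (x i : ℝ) ^ 2 / μ / (μ + n i) := by
        simp only [mul_sum, ← sum_add_distrib, ← sum_sub_distrib]
        exact sum_congr rfl fun i _ => by unfold ph1; ring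
      rw [PhP, PhP, h2] at h1
      have h3 : (∑ i ∈ Icc 1 r \ {a, b}, (x i : ℝ)) * (β + t) ^ 2 / μ =
          (∑ i ∈ Icc 1 r \ {a, b}, (x i : ℝ)) * β ^ 2 / μ +
          2 * t * ((∑ i ∈ Icc 1 r \ {a, b}, (x i : ℝ)) * β / μ) +
          t ^ 2 * ((∑ i ∈ Icc 1 r \ {a, b}, (x i : ℝ)) / μ) := by ring
      rw [h3] at h1
      nlinarith only [h1]
  linarith

lemma PhP_statα {r : ℕ} {μ : ℝ} {n x : ℕ → ℕ} {a b : ℕ} {α γ β : ℝ}
    (h : ∀ α', PhP r μ n a b x α' γ β ≤ PhP r μ n a b x α γ β) :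
    μ * (μ + n a) / (μ + n a - 1) * (α - 1 / (μ + n a)) = β - γ := by
  have key := quad_zero (d := β - γ - μ * (μ + n a) / (μ + n a - 1) * (α - 1 / (μ + n a)))
    (H := μ * (μ + n a) / (μ + n a - 1)) fun t => by
      have h1 := h (α + t)
      simp only [PhP, ph2] at h1
      generalize μ * (μ + n a) / (μ + n a - 1) = c at *
      nlinarith only [h1]
  linarith

end Pool.Agent.P.MP_094db5_co

end
end

section

/-! The global comparison with the Turan candidate. -/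

set_option autoImplicit false

open Finset Classical

noncomputable section

namespace Pool.Agent.P.MP_094db5_co

/-- secular function of the complete multipartite graph -/
def Qn (r : ℕ) (μ : ℝ) (n : ℕ → ℕ) : ℝ := ∑ i ∈ Icc 1 r, (n i : ℝ) / (μ + n i)

lemma PhS_le {r : ℕ} {μ pm g e α β : ℝ} {n y x : ℕ → ℕ} (hμ : 3 < μ) (a0 : 0 ≤ α) (b0 : 0 ≤ β)
    (hp : ∀ i ∈ Icc 1 r, 1 / (μ + n i) ≤ pm) (g0 : 0 ≤ g) (e1 : e ≤ 1)
    (h1 : ∑ i ∈ Icc 1 r, (y i : ℝ) + g ≤ 2 * μ) (h2 : ∑ i ∈ Icc 1 r, (x i : ℝ) + g ≤ μ) :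
    PhS r μ n y x g e α β ≤ Qn r μ n +
      (((∑ i ∈ Icc 1 r, (y i : ℝ)) * pm) ^ 2 + ((∑ i ∈ Icc 1 r, (x i : ℝ)) * pm) ^ 2) / (μ - 3) := by
  have μ0 : 0 < μ := by linarith
  have k1 : ∑ i ∈ Icc 1 r, ph1 μ (n i) (y i * α + x i * β) ≤
      ∑ i ∈ Icc 1 r, ((n i : ℝ) / (μ + n i) + (2 * α * pm * y i + 2 * β * pm * x i)) := by
    refine sum_le_sum fun i hi => ?_
    have c0 : (0 : ℝ) < μ + n i := by positivity
    have c1 : 0 ≤ y i * α + x i * β := by positivity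
    have c2 := mul_le_mul_of_nonneg_left (hp i hi) c1
    have c3 : 0 ≤ (y i * α + x i * β) ^ 2 / μ / (μ + n i) := by positivity
    have c4 : ph1 μ (n i) (y i * α + x i * β) = n i / (μ + n i) +
        2 * ((y i * α + x i * β) * (1 / (μ + n i))) - (y i * α + x i * β) ^ 2 / μ / (μ + n i) := by
      unfold ph1; ring
    linarith only [c2, c3, c4]
  simp only [sum_add_distrib, ← mul_sum] at k1
  rw [PhS, Qn]
  generalize ∑ i ∈ Icc 1 r, (y i : ℝ) = d at *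
  generalize ∑ i ∈ Icc 1 r, (x i : ℝ) = s at *
  have k2 : (d * α ^ 2 + s * β ^ 2 + 2 * g * α * β) / μ ≤ 2 * α ^ 2 + β ^ 2 := by
    rw [div_le_iff₀ μ0]
    nlinarith only [mul_nonneg g0 (sq_nonneg (α - β)), mul_le_mul_of_nonneg_right h1 (sq_nonneg α),
      mul_le_mul_of_nonneg_right h2 (sq_nonneg β), g0, h1, h2]
  have k3 : 2 * α * pm * d + 2 * β * pm * s - (μ - 3) * α ^ 2 - (μ - 3) * β ^ 2 ≤
      ((d * pm) ^ 2 + (s * pm) ^ 2) / (μ - 3) := by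
    rw [le_div_iff₀ (by linarith)]
    nlinarith only [sq_nonneg ((μ - 3) * α - d * pm), sq_nonneg ((μ - 3) * β - s * pm)]
  nlinarith only [mul_le_mul_of_nonneg_right e1 (mul_nonneg a0 b0), sq_nonneg (α - β), sq_nonneg β, a0, b0, e1, k1, k2, k3]

lemma PhS_ge {r : ℕ} {μ pm g e : ℝ} {n y x : ℕ → ℕ} (μ0 : 0 < μ) (p0 : 0 ≤ pm)
    (hp : ∀ i ∈ Icc 1 r, pm ≤ 1 / (μ + n i)) (hy : ∀ i ∈ Icc 1 r, y i ≤ n i) :
    Qn r μ n + ((∑ i ∈ Icc 1 r, (y i : ℝ)) * pm) ^ 2 / μ ≤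
      PhS r μ n y x g e ((∑ i ∈ Icc 1 r, (y i : ℝ)) * pm / μ) 0 := by
  have d0 : 0 ≤ ∑ i ∈ Icc 1 r, (y i : ℝ) := sum_nonneg fun _ _ => Nat.cast_nonneg _
  obtain ⟨α, hα⟩ : ∃ α, α = (∑ i ∈ Icc 1 r, (y i : ℝ)) * pm / μ := ⟨_, rfl⟩
  have a0 : 0 ≤ α := by rw [hα]; positivity
  have k1 : ∑ i ∈ Icc 1 r, ((n i : ℝ) / (μ + n i) + (2 * α * pm * y i - α ^ 2 / μ * y i)) ≤
      ∑ i ∈ Icc 1 r, ph1 μ (n i) (y i * α + x i * 0) := by
    refine sum_le_sum fun i hi => ?_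
    have c0 : (0 : ℝ) < μ + n i := by positivity
    have c1 : 0 ≤ y i * α := by positivity
    have c2 := mul_le_mul_of_nonneg_left (hp i hi) c1
    have c3 : (y i : ℝ) / (μ + n i) ≤ 1 := by
      rw [div_le_one c0]
      have : (y i : ℝ) ≤ n i := by exact_mod_cast hy i hi
      linarith
    have c5 := mul_le_mul_of_nonneg_left c3 (show 0 ≤ α ^ 2 / μ * y i by positivity)
    have c4 : ph1 μ (n i) (y i * α + x i * 0) = n i / (μ + n i) +
        2 * ((y i * α) * (1 / (μ + n i))) - α ^ 2 / μ * y i * (y i / (μ + n i)) := by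
      unfold ph1; ring
    linarith only [c2, c5, c4]
  simp only [sum_add_distrib, sum_sub_distrib, ← mul_sum] at k1
  rw [PhS, Qn, ← hα]
  generalize ∑ i ∈ Icc 1 r, (y i : ℝ) = d at *
  have e1 : (d * pm) ^ 2 / μ = 2 * α * pm * d - μ * α ^ 2 := by rw [hα]; field_simp; ring
  have e2 : (d * α ^ 2 + (∑ i ∈ Icc 1 r, (x i : ℝ)) * 0 ^ 2 + 2 * g * α * 0) / μ = α ^ 2 / μ * d := by
    ring
  linarith only [k1, e1, e2]

lemma Qn_eq {r : ℕ} {μ ν : ℝ} (μ0 : 0 < μ) (ν0 : 0 < ν) (n : ℕ → ℕ) :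
    Qn r μ n = r * ν / (μ + ν) + μ * (∑ i ∈ Icc 1 r, (n i : ℝ) - r * ν) / (μ + ν) ^ 2 -
      μ / (μ + ν) ^ 2 * ∑ i ∈ Icc 1 r, ((n i : ℝ) - ν) ^ 2 * (1 / (μ + n i)) := by
  rw [Qn, sum_congr rfl (g := fun i => ν / (μ + ν) + μ / (μ + ν) ^ 2 * ((n i : ℝ) - ν) -
    μ / (μ + ν) ^ 2 * (((n i : ℝ) - ν) ^ 2 * (1 / (μ + n i)))) fun i _ => by
      have : (0 : ℝ) < μ + n i := by positivity
      field_simp
      ring]
  simp only [sum_add_distrib, sum_sub_distrib, ← mul_sum, sum_const, Nat.card_Icc,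
    add_tsub_cancel_right, nsmul_eq_mul]
  ring

lemma var_eq (r : ℕ) (ν : ℝ) (n : ℕ → ℕ) : ∑ i ∈ Icc 1 r, ((n i : ℝ) - ν) ^ 2 =
    (∑ i ∈ Icc 1 r, (n i : ℝ)) ^ 2 - eK2 r n - 2 * ν * ∑ i ∈ Icc 1 r, (n i : ℝ) + r * ν ^ 2 := by
  simp only [sub_sq, sum_add_distrib, sum_sub_distrib, ← sum_mul, ← mul_sum, sum_const,
    Nat.card_Icc, add_tsub_cancel_right, nsmul_eq_mul, eK2]
  ring

lemma g1core {R δ ε ρ θ κ x x' : ℝ} {j : ℕ} (R3 : 3 ≤ R) (δ0 : 0 < δ) (δ1 : 1000 * R ^ 2 * δ ≤ 1)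
    (ε1 : 200 * R ^ 2 * δ ≤ ε) (hρ : ρ * (R - 1) ^ 2 = R)
    (hθ : θ * R = (R - 1) * (R - 2)) (κ0 : 0 ≤ κ) (κ1 : κ ≤ θ - ε) (x0 : 0 ≤ x)
    (x1 : x ≤ (R - 1) * (1 + 2 * δ)) (y1 : κ - δ ≤ x')
    (h : -δ + x' ^ 2 * (ρ * (1 - 5 * δ)) ≤ j * (R * (1 + δ)) -
      (1 - δ) * (2 * (x - κ - δ) + 2 * j * (R - 1)) + (x ^ 2 + δ ^ 2) * (ρ * (1 + 6 * δ))) :
    j = 0 ∧ x ≤ θ := by
  have Rδ : 3000 * (R * δ) ≤ 1 := by nlinarith only [mul_pos (show 0 < R by linarith) δ0, R3, δ0, δ1, x0, x1]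
  have δ2 : 9000 * δ ≤ 1 := by nlinarith only [R3, δ0, Rδ]
  have Rδ0 := mul_pos (show 0 < R by linarith) δ0
  have ε0 : 0 < ε := by linarith [mul_pos (show 0 < R by linarith) Rδ0]
  have ρ0 : 0 < ρ := by
    by_contra hn
    nlinarith only [sq_nonneg (R - 1), R3, δ0, hρ, δ2, hn]
  have ρ1 : ρ * (R - 1) ≤ 3 / 2 := by
    refine le_of_mul_le_mul_right ?_ (show 0 < R - 1 by linarith)
    nlinarith only [R3, hρ]
  have ρ2 : ρ ≤ 3 / 4 := by nlinarith only [R3, ρ0, ρ1]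
  have ρ3 : 1 ≤ ρ * R := by
    refine le_of_mul_le_mul_right ?_ (show 0 < (R - 1) ^ 2 by nlinarith only [R3, δ0, hρ, δ2, ρ2])
    nlinarith only [R3, δ0, hρ, δ2]
  have θ1 : θ ≤ R - 2 := by
    refine le_of_mul_le_mul_right ?_ (show 0 < R by linarith)
    nlinarith only [R3, δ0, hθ, δ2]
  have θ2 : ρ * (θ + (R - 1)) = 2 := by
    have : ρ * (θ + (R - 1)) * (R * (R - 1)) = 2 * (R * (R - 1)) := by
      linear_combination ρ * (R - 1) * hθ + 2 * (R - 1) * hρ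
    exact mul_right_cancel₀ (by nlinarith only [R3, δ0, δ2]) this
  have θ3 : ρ * θ * (R - 1) = R - 2 := by
    have : ρ * θ * (R - 1) * R = (R - 2) * R := by
      linear_combination ρ * (R - 1) * hθ + (R - 2) * hρ
    exact mul_right_cancel₀ (by linarith) this
  have xρ : x * ρ ≤ 151 / 100 := by nlinarith only [mul_le_mul_of_nonneg_right x1 ρ0.le, R3, δ0, δ1, hρ, x1, Rδ, ρ0]
  have κρ : κ * ρ ≤ 3 / 2 := by nlinarith only [mul_le_mul_of_nonneg_right (show κ ≤ R - 1 by linarith) ρ0.le, δ0, κ1, δ2, ε0, ρ0, ρ1, θ1]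
  have xR : x ≤ R := by nlinarith only [δ0, x1, Rδ, δ2]
  have a1 : κ ^ 2 - 2 * κ * δ ≤ x' ^ 2 := by
    rcases le_total κ δ with b | b
    · nlinarith only [sq_nonneg x', δ0, κ0, δ2, b]
    · nlinarith only [pow_le_pow_left₀ (by linarith : 0 ≤ κ - δ) y1 2, y1, b, sq_nonneg (δ : ℝ)]
  have a2 : κ ^ 2 * ρ - 11 * (R * δ) ≤ x' ^ 2 * (ρ * (1 - 5 * δ)) := by
    have b1 := mul_le_mul_of_nonneg_right a1 (show 0 ≤ ρ * (1 - 5 * δ) by
      exact mul_nonneg ρ0.le (by linarith))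
    have b2 : κ * (κ * ρ) ≤ R * (3 / 2) := mul_le_mul (by linarith) κρ (by positivity) (by linarith)
    have b3 := mul_le_mul_of_nonneg_right b2 δ0.le
    have b4 := mul_le_mul_of_nonneg_right κρ δ0.le
    have b5 : 0 ≤ κ * ρ * δ ^ 2 := by positivity
    nlinarith only [R3, δ0, Rδ0, b1, b3, b4, b5]
  have a3 : (x ^ 2 + δ ^ 2) * (ρ * (1 + 6 * δ)) ≤ x ^ 2 * ρ + 10 * (R * δ) := by
    have b2 : x * (x * ρ) ≤ R * (151 / 100) := mul_le_mul xR xρ (by positivity) (by linarith)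
    have b3 := mul_le_mul_of_nonneg_right b2 δ0.le
    have b4 : δ ^ 2 * (ρ * (1 + 6 * δ)) ≤ δ * 1 := by
      rw [sq, mul_assoc]
      refine mul_le_mul_of_nonneg_left ?_ δ0.le
      nlinarith only [mul_pos δ0 ρ0, R3, δ0, δ1, hρ, Rδ, ρ1, ρ2, ρ3]
    nlinarith only [R3, δ0, Rδ0, b3, b4]
  have a4 : κ ^ 2 * ρ + j * (R - 2 - 3 * (R * δ)) + 2 * (x - κ) - x ^ 2 * ρ ≤ 25 * (R * δ) := by
    have b1 : 0 ≤ (j : ℝ) * δ := by positivity
    nlinarith only [mul_le_mul_of_nonneg_right xR δ0.le, mul_nonneg κ0 δ0.le, R3, δ0, κ0, h, xR, a2, a3, b1]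
  have ε2 : 200 * (R * δ) ≤ ρ * ε := by
    linarith [mul_le_mul_of_nonneg_left ε1 ρ0.le, mul_le_mul_of_nonneg_right ρ3 Rδ0.le]
  have j0 : j = 0 := by
    by_contra hn
    have b1 : (1 : ℝ) ≤ j := by exact_mod_cast Nat.one_le_iff_ne_zero.2 hn
    have b2 := mul_le_mul_of_nonneg_right b1 (show 0 ≤ R - 2 - 3 * (R * δ) by linarith)
    have b3 : 0 ≤ x * (2 - x * ρ) := mul_nonneg x0 (by linarith)
    have b4 : κ ^ 2 * ρ - 2 * κ + (R - 2) = ρ * (θ - κ) * (R - 1 - κ) := by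
      linear_combination κ * θ2 - θ3
    have b5 : ρ * ε * 1 ≤ ρ * (θ - κ) * (R - 1 - κ) :=
      mul_le_mul (mul_le_mul_of_nonneg_left (by linarith) ρ0.le) (by linarith) (by norm_num)
        (mul_nonneg ρ0.le (by linarith))
    linarith
  refine ⟨j0, ?_⟩
  by_contra hn
  rw [j0, Nat.cast_zero, zero_mul] at a4
  rcases le_total (1 / 2) (x - κ) with w | w
  · have b1 : ρ * ε - 3 * δ ≤ 2 - (x + κ) * ρ := by
      linarith [mul_le_mul_of_nonneg_right x1 ρ0.le, mul_le_mul_of_nonneg_right κ1 ρ0.le,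
        mul_le_mul_of_nonneg_right ρ1 δ0.le]
    have b2 := mul_le_mul_of_nonneg_right R3 δ0.le
    have b3 : 1 / 2 * (ρ * ε / 2) ≤ (x - κ) * (2 - (x + κ) * ρ) :=
      mul_le_mul w (by linarith) (by positivity) (by linarith)
    linarith
  · have b1 : ρ / 2 ≤ 2 - (x + κ) * ρ := by
      linarith only [mul_le_mul_of_nonneg_right (show x + κ ≤ θ + (R - 1) - 1 / 2 by linarith) ρ0.le, κ1, ε0, ρ0, θ1, θ2, w]
    have b3 : ε * (ρ / 2) ≤ (x - κ) * (2 - (x + κ) * ρ) :=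
      mul_le_mul (by linarith) b1 (by positivity) (by linarith)
    linarith

/-- the end of the Turan range -/
def th2 (r : ℕ) : ℝ := ((r : ℝ) - 1) * (r - 2) / r

namespace Rg

variable {r : ℕ} {δ ν μ : ℝ} (h : Rg r δ ν μ)
include h

lemma L1 : μ + ν ≤ r * (1 + δ) * ν := by
  nlinarith [h.μ2, h.R3, mul_pos h.δ0 h.ν0]

lemma L2 : r * (1 - δ) * ν ≤ μ + ν := by
  nlinarith [h.μ1, h.R3, mul_pos h.δ0 h.ν0]

lemma w1 : r / (r - 1) ^ 2 * (1 - 3 * δ) ≤ (μ + ν) * ν / μ ^ 2 := by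
  have r1 : (0 : ℝ) < r - 1 := by linarith [h.R3]
  have := h.μ0
  have := h.ν0
  have := h.δ0
  have := h.δ3
  have a1 : μ ≤ (r - 1) * ν * (1 + δ / 2) := by nlinarith [h.μ2, h.R3, mul_pos h.δ0 h.ν0]
  rw [div_mul_eq_mul_div, div_le_div_iff₀ (by positivity) (by positivity)]
  calc r * (1 - 3 * δ) * μ ^ 2 ≤ r * (1 - 3 * δ) * ((r - 1) * ν * (1 + δ / 2)) ^ 2 := by
        have : 0 ≤ 1 - 3 * δ := by linarith
        gcongr
    _ = r * ((1 - 3 * δ) * (1 + δ / 2) ^ 2) * ν * ν * (r - 1) ^ 2 := by ring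
    _ ≤ r * (1 - δ) * ν * ν * (r - 1) ^ 2 := by
        gcongr
        nlinarith [sq_nonneg δ, mul_pos h.δ0 (mul_pos h.δ0 h.δ0)]
    _ ≤ _ := by gcongr; exact h.L2

lemma w2 : (μ + ν) * ν / (μ * (μ - 3)) ≤ r / (r - 1) ^ 2 * (1 + 3 * δ) := by
  have r1 : (0 : ℝ) < r - 1 := by linarith [h.R3]
  have := h.μ0
  have := h.ν0
  have := h.δ0
  have := h.δ3
  have m3 : 0 < μ - 3 := by linarith [h.μ5]
  have a1 : (r - 1) * ν * (1 - δ / 2) ≤ μ := by nlinarith [h.μ1, h.R3, mul_pos h.δ0 h.ν0]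
  have a2 : (r - 1) * ν * (1 - δ) ≤ μ - 3 := by
    nlinarith [h.μ1, h.R3, mul_pos h.δ0 h.ν0, h.big]
  rw [div_mul_eq_mul_div, div_le_div_iff₀ (by positivity) (by positivity)]
  have b0 : 0 ≤ 1 - δ := by linarith
  have b1 : 0 ≤ 1 - δ / 2 := by linarith
  calc (μ + ν) * ν * (r - 1) ^ 2 ≤ r * (1 + δ) * ν * ν * (r - 1) ^ 2 := by gcongr; exact h.L1
    _ ≤ r * ((1 + 3 * δ) * ((1 - δ / 2) * (1 - δ))) * ν * ν * (r - 1) ^ 2 := by
        gcongr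
        nlinarith [sq_nonneg δ, mul_pos h.δ0 (mul_pos h.δ0 h.δ0)]
    _ = r * (1 + 3 * δ) * ((r - 1) * ν * (1 - δ / 2) * ((r - 1) * ν * (1 - δ))) := by ring
    _ ≤ _ := by gcongr

lemma sum_erase_le {n : ℕ → ℕ} (hn : ∀ i ∈ Icc 1 r, Cl δ ν (n i)) {a : ℕ} (ha : a ∈ Icc 1 r) :
    ∑ i ∈ (Icc 1 r).erase a, (n i : ℝ) ≤ (r - 1) * (ν + δ * ν) := by
  have := sum_le_card_nsmul ((Icc 1 r).erase a) (fun i => (n i : ℝ)) (ν + δ * ν)
    fun i hi => n2 (hn i (mem_of_mem_erase hi))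
  rwa [card_erase_of_mem ha, Nat.card_Icc, add_tsub_cancel_right, nsmul_eq_mul,
    Nat.cast_sub (by have := h.r3; omega), Nat.cast_one] at this

lemma le_sum_erase {n : ℕ → ℕ} (hn : ∀ i ∈ Icc 1 r, Cl δ ν (n i)) {a : ℕ} (ha : a ∈ Icc 1 r) :
    (r - 1) * (ν - δ * ν) ≤ ∑ i ∈ (Icc 1 r).erase a, (n i : ℝ) := by
  have := card_nsmul_le_sum ((Icc 1 r).erase a) (fun i => (n i : ℝ)) (ν - δ * ν)
    fun i hi => n1 (hn i (mem_of_mem_erase hi))
  rwa [card_erase_of_mem ha, Nat.card_Icc, add_tsub_cancel_right, nsmul_eq_mul,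
    Nat.cast_sub (by have := h.r3; omega), Nat.cast_one] at this

/-- the global comparison -/
theorem global {N k : ℕ} (hN : ν = N / r) {ε : ℝ}
    (ε1 : 200 * (r : ℝ) ^ 2 * δ ≤ ε) (hk : (k : ℝ) ≤ (th2 r - ε) * ν) (rk : r ≤ k)
    {T n y x : ℕ → ℕ} (hT : Bal r N T)
    (cand : Qn r μ T + (((k : ℝ) - r) * ((1 - δ) / (μ + ν))) ^ 2 / μ ≤ 1)
    (hn : ∀ i ∈ Icc 1 r, Cl δ ν (n i)) (hs : N ≤ ∑ i ∈ Icc 1 r, n i) {g e α β C : ℝ}
    (a0 : 0 ≤ α) (b0 : 0 ≤ β) (g0 : 0 ≤ g) (g1 : g ≤ C) (e1 : e ≤ 1) (C1 : C ≤ δ * ν)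
    (hx : ∑ i ∈ Icc 1 r, (x i : ℝ) ≤ C)
    (hy : ∑ i ∈ Icc 1 r, (y i : ℝ) ≤ (r - 1) * (1 + 2 * δ) * ν)
    (he : eK2 r n + 2 * ∑ i ∈ Icc 1 r, (y i : ℝ) ≤ tu2 r N + 2 * k + 2 * C)
    (up : 1 ≤ PhS r μ n y x g e α β) :
    ∑ i ∈ Icc 1 r, n i = N ∧ ∑ i ∈ Icc 1 r, (y i : ℝ) ≤ th2 r * ν := by
  have μ0 := h.μ0
  have ν0 := h.ν0
  have δ0 := h.δ0
  have δ3 := h.δ3
  have R3 := h.R3
  have L0 := h.L0
  have m3 : 0 < μ - 3 := by linarith only [h.μ5, δ0, δ3]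
  have eN : (N : ℝ) = r * ν := by rw [hN]; field_simp
  obtain ⟨j, hj⟩ := Nat.exists_eq_add_of_le hs
  have hj' : ∑ i ∈ Icc 1 r, (n i : ℝ) = r * ν + j := by rw [← eN]; exact_mod_cast hj
  have hT' : ∑ i ∈ Icc 1 r, (T i : ℝ) = r * ν := by rw [← eN]; exact_mod_cast hT.2
  have u1 := PhS_le (e := e) (y := y) (x := x) (by linarith) a0 b0 (fun i hi => h.p2 (hn i hi)) g0 e1
    (by nlinarith only [h.μ1, h.δν, h.δ2, mul_pos δ0 ν0, g1, C1, hy, δ0, δ3, R3, m3, eN]) (by linarith [h.δν, h.μ3])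
  have x0 : 0 ≤ ∑ i ∈ Icc 1 r, (x i : ℝ) := sum_nonneg fun _ _ => Nat.cast_nonneg _
  have d0 : 0 ≤ ∑ i ∈ Icc 1 r, (y i : ℝ) := sum_nonneg fun _ _ => Nat.cast_nonneg _
  have v1 : (∑ i ∈ Icc 1 r, ((n i : ℝ) - ν) ^ 2) * ((1 - δ) / (μ + ν)) ≤
      ∑ i ∈ Icc 1 r, ((n i : ℝ) - ν) ^ 2 * (1 / (μ + n i)) := by
    rw [sum_mul]
    exact sum_le_sum fun i hi => mul_le_mul_of_nonneg_left (h.p1 (hn i hi)) (sq_nonneg _)
  have v2 : ∑ i ∈ Icc 1 r, ((T i : ℝ) - ν) ^ 2 * (1 / (μ + T i)) ≤ r * ((1 + δ) / (μ + ν)) := by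
    have := sum_le_card_nsmul (Icc 1 r) (fun i => ((T i : ℝ) - ν) ^ 2 * (1 / (μ + T i)))
      (1 * ((1 + δ) / (μ + ν))) fun i hi => mul_le_mul ((sq_le_one_iff_abs_le_one _).2
        (h.cl_bal hN hT hi)) (h.p2 (h.cl_of_bal hN hT hi)) (by positivity) (by norm_num)
    rwa [Nat.card_Icc, add_tsub_cancel_right, nsmul_eq_mul, one_mul] at this
  have v3 := var_eq r ν n
  have v4 := var_eq r ν T
  have v5 : 0 ≤ ∑ i ∈ Icc 1 r, ((T i : ℝ) - ν) ^ 2 := sum_nonneg fun _ _ => sq_nonneg _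
  rw [hT.eK2, hT'] at v4
  rw [hj'] at v3
  rw [Qn_eq μ0 ν0, hT'] at cand
  rw [Qn_eq μ0 ν0, hj'] at u1
  generalize ∑ i ∈ Icc 1 r, (x i : ℝ) = s at *
  generalize ∑ i ∈ Icc 1 r, (y i : ℝ) = d at *
  generalize ∑ i ∈ Icc 1 r, ((n i : ℝ) - ν) ^ 2 * (1 / (μ + n i)) = W at *
  generalize ∑ i ∈ Icc 1 r, ((T i : ℝ) - ν) ^ 2 * (1 / (μ + T i)) = W' at *
  have v6 : 2 * (d - k - δ * ν) + 2 * j * (r - 1) * ν ≤ ∑ i ∈ Icc 1 r, ((n i : ℝ) - ν) ^ 2 := by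
    nlinarith only [sq_nonneg (j : ℝ), C1, v3, v4, v5, he]
  generalize ∑ i ∈ Icc 1 r, ((n i : ℝ) - ν) ^ 2 = Vn at *
  have k0 : (0 : ℝ) ≤ k - r := by
    have : (r : ℝ) ≤ k := by exact_mod_cast rk
    linarith
  have c0 : 0 < μ / (μ + ν) ^ 2 := by positivity
  have main : -(μ / (μ + ν) ^ 2 * (r * ((1 + δ) / (μ + ν)))) +
      ((k - r) * ((1 - δ) / (μ + ν))) ^ 2 / μ ≤ μ * j / (μ + ν) ^ 2 -
      μ / (μ + ν) ^ 2 * (Vn * ((1 - δ) / (μ + ν))) +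
      ((d * ((1 + δ) / (μ + ν))) ^ 2 + (s * ((1 + δ) / (μ + ν))) ^ 2) / (μ - 3) := by
    have b1 := mul_le_mul_of_nonneg_left v1 c0.le
    have b2 := mul_le_mul_of_nonneg_left v2 c0.le
    simp only [sub_self, mul_zero, zero_div, add_zero, add_sub_cancel_left] at cand u1
    linarith only [up, b1, b2, cand, u1]
  have main2 := mul_le_mul_of_nonneg_right main (show 0 ≤ (μ + ν) ^ 3 / (μ * ν) by positivity)
  have e1 : (-(μ / (μ + ν) ^ 2 * (r * ((1 + δ) / (μ + ν)))) +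
      ((k - r) * ((1 - δ) / (μ + ν))) ^ 2 / μ) * ((μ + ν) ^ 3 / (μ * ν)) =
      -(r * (1 + δ) / ν) + ((k - r) / ν) ^ 2 * ((μ + ν) * ν / μ ^ 2 * (1 - δ) ^ 2) := by
    field_simp
  have e2 : (μ * j / (μ + ν) ^ 2 - μ / (μ + ν) ^ 2 * (Vn * ((1 - δ) / (μ + ν))) +
      ((d * ((1 + δ) / (μ + ν))) ^ 2 + (s * ((1 + δ) / (μ + ν))) ^ 2) / (μ - 3)) *
      ((μ + ν) ^ 3 / (μ * ν)) = j * ((μ + ν) / ν) - (1 - δ) * (Vn / ν) +
      ((d / ν) ^ 2 + (s / ν) ^ 2) * ((μ + ν) * ν / (μ * (μ - 3)) * (1 + δ) ^ 2) := by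
    field_simp
  rw [e1, e2] at main2
  have ρ0 : (0 : ℝ) < r / (r - 1) ^ 2 := by
    have : (0 : ℝ) < r - 1 := by linarith only [δ0, δ3, R3]
    positivity
  have f1 : r * (1 + δ) / ν ≤ δ := by
    rw [div_le_iff₀ ν0]; nlinarith only [h.big, δ0, δ3, R3]
  have f2 : r / (r - 1) ^ 2 * (1 - 5 * δ) ≤ (μ + ν) * ν / μ ^ 2 * (1 - δ) ^ 2 := by
    refine le_trans ?_ (mul_le_mul_of_nonneg_right h.w1 (sq_nonneg _))
    rw [mul_assoc]
    refine mul_le_mul_of_nonneg_left ?_ ρ0.le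
    nlinarith only [mul_pos δ0 δ0, δ0, δ3]
  have f3 : (μ + ν) * ν / (μ * (μ - 3)) * (1 + δ) ^ 2 ≤ r / (r - 1) ^ 2 * (1 + 6 * δ) := by
    refine le_trans (mul_le_mul_of_nonneg_right h.w2 (sq_nonneg _)) ?_
    rw [mul_assoc]
    refine mul_le_mul_of_nonneg_left ?_ ρ0.le
    nlinarith only [mul_pos δ0 δ0, δ0, δ3]
  have f4 : (μ + ν) / ν ≤ r * (1 + δ) := by rw [div_le_iff₀ ν0]; exact h.L1
  have f5 : 2 * (d / ν - k / ν - δ) + 2 * j * (r - 1) ≤ Vn / ν := by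
    rw [le_div_iff₀ ν0]
    have : (2 * (d / ν - k / ν - δ) + 2 * j * (r - 1)) * ν =
        2 * (d - k - δ * ν) + 2 * j * (r - 1) * ν := by field_simp
    linarith only [v6, this]
  have f6 : (s / ν) ^ 2 ≤ δ ^ 2 :=
    pow_le_pow_left₀ (by positivity) (by rw [div_le_iff₀ ν0]; linarith only [C1, hx]) 2
  have key := g1core (R := r) (ρ := r / (r - 1) ^ 2) (θ := th2 r) (κ := k / ν) (x := d / ν)
    (x' := (k - r) / ν) (j := j) R3 δ0 h.δ1 ε1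
    (div_mul_cancel₀ _ (pow_ne_zero 2 (by linarith only [δ0, δ3, R3]))) (div_mul_cancel₀ _ (by linarith only [δ0, δ3, R3]))
    (by positivity) (by rw [div_le_iff₀ ν0]; exact hk) (by positivity)
    (by rw [div_le_iff₀ ν0]; exact hy) (by
      rw [sub_div]
      have : r / ν ≤ δ := by rw [div_le_iff₀ ν0]; linarith only [h.big, δ0, δ3, R3]
      linarith only [this]) (by
      have g1 := mul_le_mul_of_nonneg_left f2 (sq_nonneg ((k - r) / ν))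
      have g2 := mul_le_mul (add_le_add_right f6 ((d / ν) ^ 2)) f3 (by positivity) (by positivity)
      have g3 := mul_le_mul_of_nonneg_left f4 (Nat.cast_nonneg (α := ℝ) j)
      have g4 := mul_le_mul_of_nonneg_left f5 (show 0 ≤ 1 - δ by linarith only [δ0, δ3])
      linarith only [main2, f1, g1, g2, g3, g4])
  exact ⟨by rw [hj, key.1, add_zero], (div_le_iff₀ ν0).1 key.2⟩

/-- sharper bounds for the sizes and the spectral radius -/
theorem boot {N k : ℕ} (hN : ν = N / r) (hk : (k : ℝ) ≤ (r - 2) * ν) {T n y x : ℕ → ℕ}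
    (hT : Bal r N T) (cand : Qn r μ T ≤ 1)
    (hn : ∀ i ∈ Icc 1 r, Cl δ ν (n i)) (hs : N ≤ ∑ i ∈ Icc 1 r, n i) {g e α β C : ℝ}
    (a0 : 0 ≤ α) (b0 : 0 ≤ β) (g0 : 0 ≤ g) (g1 : g ≤ C) (e1 : e ≤ 1) (C1 : C ≤ δ * ν)
    (hx : ∑ i ∈ Icc 1 r, (x i : ℝ) ≤ C)
    (hy : ∑ i ∈ Icc 1 r, (y i : ℝ) ≤ (r - 1) * (1 + 2 * δ) * ν)
    (he : eK2 r n + 2 * ∑ i ∈ Icc 1 r, (y i : ℝ) ≤ tu2 r N + 2 * k + 2 * C)
    (up : 1 ≤ PhS r μ n y x g e α β) :
    |μ - (r - 1) * ν| ≤ 46 ∧ ∀ i ∈ Icc 1 r, ((n i : ℝ) - ν) ^ 2 ≤ 51 * r * ν := by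
  have μ0 := h.μ0
  have ν0 := h.ν0
  have δ0 := h.δ0
  have δ3 := h.δ3
  have R3 := h.R3
  have L0 := h.L0
  have m3 : 0 < μ - 3 := by linarith [h.μ5]
  have eN : (N : ℝ) = r * ν := by rw [hN]; field_simp
  obtain ⟨j, hj⟩ := Nat.exists_eq_add_of_le hs
  have hj' : ∑ i ∈ Icc 1 r, (n i : ℝ) = r * ν + j := by rw [← eN]; exact_mod_cast hj
  have hT' : ∑ i ∈ Icc 1 r, (T i : ℝ) = r * ν := by rw [← eN]; exact_mod_cast hT.2
  have rδ := mul_le_mul_of_nonneg_right h.δ2 ν0.le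
  have δν := mul_pos δ0 ν0
  have u1 := PhS_le (e := e) (y := y) (x := x) (by linarith) a0 b0 (fun i hi => h.p2 (hn i hi)) g0 e1
    (by linarith [h.μ1, h.δν, mul_le_mul_of_nonneg_right R3 ν0.le]) (by linarith [h.δν, h.μ3])
  have x0 : 0 ≤ ∑ i ∈ Icc 1 r, (x i : ℝ) := sum_nonneg fun _ _ => Nat.cast_nonneg _
  have d0 : 0 ≤ ∑ i ∈ Icc 1 r, (y i : ℝ) := sum_nonneg fun _ _ => Nat.cast_nonneg _
  have v1 : (∑ i ∈ Icc 1 r, ((n i : ℝ) - ν) ^ 2) * ((1 - δ) / (μ + ν)) ≤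
      ∑ i ∈ Icc 1 r, ((n i : ℝ) - ν) ^ 2 * (1 / (μ + n i)) := by
    rw [sum_mul]
    exact sum_le_sum fun i hi => mul_le_mul_of_nonneg_left (h.p1 (hn i hi)) (sq_nonneg _)
  have v2 : ∑ i ∈ Icc 1 r, ((T i : ℝ) - ν) ^ 2 * (1 / (μ + T i)) ≤ r * ((1 + δ) / (μ + ν)) := by
    have := sum_le_card_nsmul (Icc 1 r) (fun i => ((T i : ℝ) - ν) ^ 2 * (1 / (μ + T i)))
      (1 * ((1 + δ) / (μ + ν))) fun i hi => mul_le_mul ((sq_le_one_iff_abs_le_one _).2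
        (h.cl_bal hN hT hi)) (h.p2 (h.cl_of_bal hN hT hi)) (by positivity) (by norm_num)
    rwa [Nat.card_Icc, add_tsub_cancel_right, nsmul_eq_mul, one_mul] at this
  have v3 := var_eq r ν n
  have v4 := var_eq r ν T
  have v5 : 0 ≤ ∑ i ∈ Icc 1 r, ((T i : ℝ) - ν) ^ 2 := sum_nonneg fun _ _ => sq_nonneg _
  have v7 : ∀ i ∈ Icc 1 r, ((n i : ℝ) - ν) ^ 2 ≤ ∑ i ∈ Icc 1 r, ((n i : ℝ) - ν) ^ 2 := fun i hi =>
    single_le_sum (f := fun i => ((n i : ℝ) - ν) ^ 2) (fun _ _ => sq_nonneg _) hi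
  have v8 : 0 ≤ ∑ i ∈ Icc 1 r, ((n i : ℝ) - ν) ^ 2 := sum_nonneg fun _ _ => sq_nonneg _
  rw [hT.eK2, hT'] at v4
  rw [hj'] at v3
  rw [Qn_eq μ0 ν0, hT'] at cand
  rw [Qn_eq μ0 ν0, hj'] at u1
  generalize ∑ i ∈ Icc 1 r, (x i : ℝ) = s at *
  generalize ∑ i ∈ Icc 1 r, (y i : ℝ) = d at *
  generalize ∑ i ∈ Icc 1 r, ((n i : ℝ) - ν) ^ 2 * (1 / (μ + n i)) = W at *
  generalize ∑ i ∈ Icc 1 r, ((T i : ℝ) - ν) ^ 2 * (1 / (μ + T i)) = W' at *
  have v6 : 2 * j * (r - 1) * ν - 2 * r * ν ≤ ∑ i ∈ Icc 1 r, ((n i : ℝ) - ν) ^ 2 := by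
    linarith [sq_nonneg (j : ℝ), h.δν]
  generalize ∑ i ∈ Icc 1 r, ((n i : ℝ) - ν) ^ 2 = Vn at *
  have c0 : 0 < μ / (μ + ν) ^ 2 := by positivity
  have f1 : ∀ t : ℝ, 0 ≤ t → t ≤ (r - 1) * (1 + 2 * δ) * ν → (t * ((1 + δ) / (μ + ν))) ^ 2 ≤ 1 := by
    intro t t0 t1
    refine pow_le_one₀ (by positivity) ?_
    rw [← mul_div_assoc, div_le_one L0]
    have := mul_le_mul_of_nonneg_right t1 (show 0 ≤ 1 + δ by linarith)
    have := mul_le_mul_of_nonneg_right (show δ ≤ 1 by linarith) (mul_pos (show (0 : ℝ) < r by linarith) δν).le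
    linarith [h.μ1, mul_pos δ0 δν]
  have f2 : ((d * ((1 + δ) / (μ + ν))) ^ 2 + (s * ((1 + δ) / (μ + ν))) ^ 2) / (μ - 3) ≤ 3 / μ := by
    rw [div_le_div_iff₀ m3 μ0]
    have := mul_le_mul_of_nonneg_right (add_le_add (f1 d d0 hy) (f1 s x0 (by
      linarith [h.δν, mul_le_mul_of_nonneg_right R3 ν0.le, mul_le_mul_of_nonneg_right R3 δν.le]))) μ0.le
    linarith [h.μ5]
  have b1 := mul_le_mul_of_nonneg_left v1 c0.le
  have b2 := mul_le_mul_of_nonneg_left v2 c0.le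
  simp only [sub_self, mul_zero, zero_div, add_zero, add_sub_cancel_left] at cand u1
  have L3 : μ + ν ≤ 151 / 100 * μ := by linarith [h.μ3]
  have w1 : (μ + ν) / μ ≤ 151 / 100 := by rw [div_le_iff₀ μ0]; exact L3
  have main := mul_le_mul_of_nonneg_right (show μ / (μ + ν) ^ 2 * (Vn * ((1 - δ) / (μ + ν))) ≤
    μ * j / (μ + ν) ^ 2 + 3 / μ + μ / (μ + ν) ^ 2 * (r * ((1 + δ) / (μ + ν))) by linarith)
    (show 0 ≤ (μ + ν) ^ 3 / μ by positivity)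
  rw [show μ / (μ + ν) ^ 2 * (Vn * ((1 - δ) / (μ + ν))) * ((μ + ν) ^ 3 / μ) = Vn * (1 - δ) by field_simp,
    show (μ * j / (μ + ν) ^ 2 + 3 / μ + μ / (μ + ν) ^ 2 * (r * ((1 + δ) / (μ + ν)))) *
      ((μ + ν) ^ 3 / μ) = j * (μ + ν) + 3 * ((μ + ν) / μ) ^ 2 * (μ + ν) + r * (1 + δ) by
        field_simp] at main
  have w2 := mul_le_mul_of_nonneg_right (pow_le_pow_left₀ (by positivity) w1 2) L0.le
  have j0 : (0 : ℝ) ≤ j := Nat.cast_nonneg _
  have w3 : Vn * (1 - δ) ≤ (j + 8) * (r * (1 + δ) * ν) := by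
    have := mul_le_mul_of_nonneg_left h.L1 (show 0 ≤ (j : ℝ) + 8 by linarith only [δ0, δ3])
    linarith only [h.μ4, mul_le_mul_of_nonneg_left (show δ ≤ 1 by linarith) (show (0 : ℝ) ≤ r by linarith), ν0, δ0, δ3, R3, main, w2, this]
  have j1 : (j : ℝ) ≤ 41 := by
    have a1 := (mul_le_mul_of_nonneg_right v6 (show 0 ≤ 1 - δ by linarith)).trans w3
    have a2 : (2 * j * (r - 1) - 2 * r) * (1 - δ) ≤ (j + 8) * (r * (1 + δ)) :=
      le_of_mul_le_mul_right (by linarith only [a1]) ν0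
    by_contra hn
    have a3 := mul_le_mul_of_nonneg_right (not_le.1 hn).le (show (0 : ℝ) ≤ r by linarith only [δ0, δ3, R3])
    have a4 := mul_le_mul_of_nonneg_left δ3 (mul_nonneg j0 (show (0 : ℝ) ≤ r by linarith))
    have a5 := mul_le_mul_of_nonneg_left R3 j0
    linarith [mul_nonneg j0 δ0.le, h.δ2]
  refine ⟨abs_le.2 ⟨?_, ?_⟩, fun i hi => (v7 i hi).trans ?_⟩
  · have a1 : μ / (μ + ν) ^ 2 * (r * ((1 + δ) / (μ + ν))) ≤ 1 / (μ + ν) := by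
      rw [show μ / (μ + ν) ^ 2 * (r * ((1 + δ) / (μ + ν))) =
        μ * (r * (1 + δ)) / (μ + ν) ^ 2 / (μ + ν) by field_simp]
      refine div_le_div_of_nonneg_right ((div_le_one (by positivity)).2 ?_) L0.le
      rw [sq]
      refine mul_le_mul (by linarith only [ν0]) ?_ (by positivity) L0.le
      linarith only [h.μ4, mul_le_mul_of_nonneg_left (show δ ≤ 1 by linarith only [δ0, δ3]) (show (0 : ℝ) ≤ r by linarith only [δ0, δ3, R3]), ν0, δ0, δ3, R3]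
    have a2 : (r * ν - 1) / (μ + ν) ≤ 1 := by rw [sub_div]; linarith only [b2, cand, a1]
    rw [div_le_one L0] at a2
    linarith only [δ0, δ3, a2]
  · have a1 : μ * j / (μ + ν) ^ 2 ≤ 41 / (μ + ν) := by
      rw [sq, ← div_div]
      refine div_le_div_of_nonneg_right ?_ L0.le
      rw [div_le_iff₀ L0]
      linarith only [mul_le_mul_of_nonneg_left j1 μ0.le, μ0, ν0, j1]
    have a2 : 3 / μ ≤ 5 / (μ + ν) := by rw [div_le_div_iff₀ μ0 L0]; linarith only [δ0, δ3, m3, L3]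
    have a3 : 0 ≤ μ / (μ + ν) ^ 2 * (Vn * ((1 - δ) / (μ + ν))) :=
      mul_nonneg c0.le (mul_nonneg v8 (div_nonneg (by linarith only [δ0, δ3]) L0.le))
    have a4 : 1 ≤ (r * ν + 46) / (μ + ν) := by
      rw [show (r * ν + 46) / (μ + ν) = r * ν / (μ + ν) + 41 / (μ + ν) + 5 / (μ + ν) by ring]
      linarith only [up, f2, b1, u1, a1, a2, a3]
    rw [one_le_div L0] at a4
    linarith only [a4]
  · have a1 := mul_pos (show (0 : ℝ) < r by linarith) ν0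
    have a2 := mul_le_mul_of_nonneg_right (show (j : ℝ) + 8 ≤ 49 by linarith)
      (show 0 ≤ r * (1 + δ) * ν by positivity)
    have a3 := mul_le_mul_of_nonneg_left δ3 a1.le
    have a4 := mul_le_mul_of_nonneg_left δ3 v8
    linarith only [ν0, δν, hy, d0, w3, a2, a3, a4]

end Rg

end Pool.Agent.P.MP_094db5_co

end
end

section

/-! Rebalancing moves and estimates of the outer entries. -/

set_option autoImplicit false

open Finset Classical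

noncomputable section

namespace Pool.Agent.P.MP_094db5_co

namespace Rg

variable {r : ℕ} {δ ν μ : ℝ} (h : Rg r δ ν μ)
include h

lemma L3 : μ + ν ≤ 151 / 100 * μ := by linarith [h.μ3, h.μ0]

lemma inv1 {α : ℝ} (a1 : α ≤ 1 / (μ - 2)) : α * μ ≤ 101 / 100 := by
  have := h.μ5
  rw [le_div_iff₀ (by linarith)] at a1
  by_contra hn
  have : 0 < α := by
    by_contra hn'
    nlinarith
  nlinarith

lemma inv2 {β : ℝ} (b1 : μ * β ≤ r / (μ - 2)) : β * μ ≤ δ := by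
  have := h.μ5
  rw [mul_comm]
  refine b1.trans ?_
  rw [div_le_iff₀ (by linarith)]
  nlinarith only [h.big, h.μ3, h.δ0, h.δ3, h.R3, this]

lemma P_bounds {J : Finset ℕ} {n y : ℕ → ℕ} {F : ℕ → ℝ} (hn : ∀ i ∈ J, Cl δ ν (n i))
    (hF : ∀ i ∈ J, 0 ≤ F i ∧ F i ≤ 1) :
    (∑ i ∈ J, (y i : ℝ)) * (1 - δ) ^ 2 / (μ + ν) ≤ ∑ i ∈ J, y i * (1 - F i / μ) / (μ + n i) ∧
      ∑ i ∈ J, y i * (1 - F i / μ) / (μ + n i) ≤ (∑ i ∈ J, (y i : ℝ)) * (1 + δ) / (μ + ν) := by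
  have μ0 := h.μ0
  have L0 := h.L0
  have δ3 := h.δ3
  simp only [sum_mul, sum_div]
  refine ⟨sum_le_sum fun i hi => ?_, sum_le_sum fun i hi => ?_⟩
  · have a1 : F i / μ ≤ δ := by
      rw [div_le_iff₀ μ0]
      nlinarith [(hF i hi).2, h.big, h.μ3, h.δ0, h.R3]
    calc (y i : ℝ) * (1 - δ) ^ 2 / (μ + ν) = y i * (1 - δ) * ((1 - δ) / (μ + ν)) := by ring
      _ ≤ y i * (1 - F i / μ) * (1 / (μ + n i)) :=
          mul_le_mul (mul_le_mul_of_nonneg_left (by linarith) (Nat.cast_nonneg _)) (h.p1 (hn i hi))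
            (div_nonneg (by linarith) L0.le) (mul_nonneg (Nat.cast_nonneg _) (by linarith))
      _ = _ := by ring
  · have a1 : 0 ≤ F i / μ := div_nonneg (hF i hi).1 μ0.le
    calc (y i : ℝ) * (1 - F i / μ) / (μ + n i) = y i * (1 - F i / μ) * (1 / (μ + n i)) := by ring
      _ ≤ y i * 1 * ((1 + δ) / (μ + ν)) :=
          mul_le_mul (mul_le_mul_of_nonneg_left (by linarith) (Nat.cast_nonneg _)) (h.p2 (hn i hi))
            (by positivity) (by positivity)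
      _ = _ := by ring

lemma stat_bound {α d P E : ℝ} (a0 : 0 ≤ α) (d0 : 0 ≤ d) (d1 : d ≤ (r - 1) * ν)
    (P1 : d * (1 - δ) ^ 2 / (μ + ν) ≤ P) (P2 : P ≤ d * (1 + δ) / (μ + ν)) (E0 : 0 ≤ E)
    (E1 : (E - α) * (μ + ν) ≤ 4) (e : μ * α = P + E) :
    |α * (μ + ν) - d / ((r - 1) * ν)| ≤ 5 * δ := by
  have L0 := h.L0
  have δ0 := h.δ0
  have δ3 := h.δ3
  have c0 : 0 < (r - 1) * ν := mul_pos (by linarith [h.R3]) h.ν0
  have c1 : 2 * ν ≤ (r - 1) * ν := by nlinarith only [h.R3, h.ν0, d0, d1, δ0, δ3]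
  rw [div_le_iff₀ L0] at P1
  rw [le_div_iff₀ L0] at P2
  obtain ⟨κ, hκ⟩ : ∃ κ, d = κ * ((r - 1) * ν) := ⟨_, (div_mul_cancel₀ d c0.ne').symm⟩
  have κ0 : 0 ≤ κ := by
    by_contra hn
    nlinarith only [d0, c0, hκ, hn]
  have κ1 : κ ≤ 1 := by
    by_contra hn
    nlinarith
  rw [hκ, mul_div_cancel_right₀ _ c0.ne']
  have m1 : (r - 1) * ν * (1 - δ) ≤ μ - 1 := by
    nlinarith only [h.μ1, mul_le_mul_of_nonneg_right c1 δ0.le, h.big, h.R3, δ0, δ3, c1]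
  have m2 : μ ≤ (r - 1) * ν * (1 + δ) := by
    nlinarith only [h.μ2, mul_le_mul_of_nonneg_right c1 δ0.le, mul_pos δ0 h.ν0, δ0, δ3, c1, m1]
  have m3 : 4 ≤ δ * ((r - 1) * ν) := by
    nlinarith only [mul_le_mul_of_nonneg_left c1 δ0.le, h.big, h.R3, δ0, δ3, c1]
  have A0 : 0 ≤ α * (μ + ν) := mul_nonneg a0 L0.le
  have e1 : μ * (α * (μ + ν)) = P * (μ + ν) + E * (μ + ν) := by linear_combination (μ + ν) * e
  have e2 : (E - α) * (μ + ν) = E * (μ + ν) - α * (μ + ν) := by ring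
  have e3 : 0 ≤ E * (μ + ν) := mul_nonneg E0 L0.le
  rw [hκ] at P1 P2
  generalize α * (μ + ν) = A at *
  generalize (r - 1) * ν = c at *
  refine abs_le.2 ⟨?_, ?_⟩
  · have b1 : κ * (1 - δ) ^ 2 * c ≤ A * (1 + δ) * c := by
      nlinarith only [mul_le_mul_of_nonneg_right m2 A0, e3, A0, e1, P1, m2]
    have b2 := le_of_mul_le_mul_right b1 c0
    by_contra hn
    nlinarith [mul_nonneg κ0 (sq_nonneg δ), mul_le_mul_of_nonneg_right κ1 δ0.le, mul_pos δ0 δ0]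
  · have b1 : A * (1 - δ) * c ≤ (κ * (1 + δ) + δ) * c := by
      nlinarith only [mul_le_mul_of_nonneg_right m1 A0, E1, A0, e1, e2, P2, m1, m3]
    have b2 := le_of_mul_le_mul_right b1 c0
    by_contra hn
    nlinarith [mul_le_mul_of_nonneg_right κ1 δ0.le, mul_pos δ0 δ0]

lemma th2_le : th2 r * ν ≤ (r - 2) * ν := by
  refine mul_le_mul_of_nonneg_right ?_ h.ν0.le
  rw [th2, div_le_iff₀ (by linarith [h.R3])]
  nlinarith [h.R3]

lemma th2_div {d : ℝ} (hd : d ≤ th2 r * ν) : d / ((r - 1) * ν) ≤ 1 - 2 / r := by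
  have r0 : (0 : ℝ) < r := by linarith [h.R3]
  rw [div_le_iff₀ (mul_pos (by linarith [h.R3]) h.ν0)]
  refine hd.trans (le_of_eq ?_)
  rw [th2]
  field_simp

/-- moving one vertex from a large part to a small part -/
lemma move_core {n n' y y' : ℕ → ℕ} {s : ℕ → ℝ} {u v : ℕ} {α : ℝ}
    (hn : ∀ i ∈ Icc 1 r, Cl δ ν (n i)) (hu : u ∈ Icc 1 r) (hv : v ∈ Icc 1 r)
    (huv : n v + 2 ≤ n u) (e1 : n' u + 1 = n u) (e2 : n' v = n v + 1)
    (e3 : ∀ i, i ≠ u → i ≠ v → n' i = n i) (hy : ∀ i ∈ Icc 1 r, y' i ≤ y i ∧ y i ≤ n i)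
    (hs : ∀ i ∈ Icc 1 r, 0 ≤ s i ∧ s i ≤ δ)
    (hg : ∑ i ∈ Icc 1 r, (y i : ℝ) ≤ ∑ i ∈ Icc 1 r, (y' i : ℝ) + (n u - n v - 1))
    (a0 : 0 ≤ α) (a1 : α * (μ + ν) ≤ 1 - 2 / r + 5 * δ) :
    ∑ i ∈ Icc 1 r, ph1 μ (n i) (y i * α + s i) + (n u - n v - 1) * (3 / r ^ 2) / (μ + ν) ^ 2 ≤
      ∑ i ∈ Icc 1 r, ph1 μ (n' i) (y' i * α + s i) := by
  have μ0 := h.μ0
  have L0 := h.L0
  have δ0 := h.δ0
  have δ3 := h.δ3
  have r0 : (0 : ℝ) < r := by linarith [h.R3]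
  have c1 : (n v : ℝ) + 2 ≤ n u := by exact_mod_cast huv
  have c2 : (n' u : ℝ) = n u - 1 := by rw [← e1]; push_cast; ring
  have c3 : (n' v : ℝ) = n v + 1 := by rw [e2]; push_cast; ring
  have hn' : ∀ i ∈ Icc 1 r, Cl δ ν (n' i) := fun i hi => by
    have b1 := n1 (hn v hv)
    have b2 := n2 (hn u hu)
    by_cases a : i = u
    · rw [a, Cl, c2]; exact abs_le.2 ⟨by linarith, by linarith⟩
    · by_cases b : i = v
      · rw [b, Cl, c3]; exact abs_le.2 ⟨by linarith, by linarith⟩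
      · rw [e3 i a b]; exact hn i hi
  have k1 : ∑ i ∈ Icc 1 r, (ph1 μ (n' i) (y i * α + s i) -
      2 * α * ((1 + δ) / (μ + ν)) * (y i - y' i)) ≤ ∑ i ∈ Icc 1 r, ph1 μ (n' i) (y' i * α + s i) := by
    refine sum_le_sum fun i hi => ?_
    have b1 : (y' i : ℝ) ≤ y i := by exact_mod_cast (hy i hi).1
    have b2 : 0 ≤ (y i - y' i) * α := mul_nonneg (by linarith) a0
    have b3 := mul_le_mul_of_nonneg_left (h.p2 (hn' i hi)) b2
    have b4 : 0 ≤ (y i - y' i) * α * ((y i * α + s i + (y' i * α + s i)) / (μ * (μ + n' i))) := by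
      have := (hs i hi).1
      positivity
    have b5 : ph1 μ (n' i) (y' i * α + s i) = ph1 μ (n' i) (y i * α + s i) -
        2 * ((y i - y' i) * α * (1 / (μ + n' i))) +
        (y i - y' i) * α * ((y i * α + s i + (y' i * α + s i)) / (μ * (μ + n' i))) := by
      have : (0 : ℝ) < μ + n' i := by positivity
      unfold ph1
      field_simp
      ring
    linarith
  simp only [sum_sub_distrib, ← mul_sum] at k1
  rw [sum_two hu hv (fun e => by rw [e] at huv; omega)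
    (g := fun i => ph1 μ (n i) (y i * α + s i)) fun i _ a b => by rw [e3 i a b]] at k1
  have hF : ∀ i ∈ Icc 1 r, 0 ≤ y i * α + s i ∧ y i * α + s i ≤ 1 / r - 2 / r ^ 2 + 8 * δ := by
    intro i hi
    refine ⟨add_nonneg (by positivity) (hs i hi).1, ?_⟩
    have b1 : (y i : ℝ) ≤ n i := by exact_mod_cast (hy i hi).2
    have b2 : (y i : ℝ) ≤ (1 / r + δ) * (μ + ν) := by
      have b3 := mul_le_mul_of_nonneg_left h.L2 (show 0 ≤ 1 / (r : ℝ) + δ by positivity)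
      have b4 : (1 / (r : ℝ) + δ) * (r * (1 - δ) * ν) = (1 + r * δ) * (1 - δ) * ν := by field_simp
      have b5 : (1 + δ) * ν ≤ (1 + r * δ) * (1 - δ) * ν := by
        refine mul_le_mul_of_nonneg_right ?_ h.ν0.le
        nlinarith only [h.R3, h.δ2, δ0, δ3]
      linarith [n2 (hn i hi)]
    have b3 := mul_le_mul_of_nonneg_right b2 a0
    have b4 := mul_le_mul_of_nonneg_left a1 (show 0 ≤ 1 / (r : ℝ) + δ by positivity)
    have b5 : (1 / (r : ℝ) + δ) * (1 - 2 / r + 5 * δ) =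
        1 / r - 2 / r ^ 2 + δ * (1 + 3 * (1 / r) + 5 * δ) := by ring
    have b6 : 1 / (r : ℝ) ≤ 1 := by rw [div_le_one r0]; linarith [h.R3]
    nlinarith only [(hs i hi).2, δ0, δ3, b3, b4, b5, b6]
  obtain ⟨t, ht⟩ : ∃ t : ℝ, t = 1 / r := ⟨_, rfl⟩
  have t0 : 0 < t := by rw [ht]; positivity
  have t1 : t ≤ 1 / 3 := by rw [ht]; exact one_div_le_one_div_of_le (by norm_num) h.R3
  have t2 : 1000 * δ ≤ t ^ 2 := by
    rw [ht, div_pow, le_div_iff₀ (by positivity)]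
    linarith [h.δ1]
  have t3 : 2 / (r : ℝ) = 2 * t := by rw [ht]; ring
  have t4 : 2 / (r : ℝ) ^ 2 = 2 * t ^ 2 := by rw [ht]; ring
  have t5 : 3 / (r : ℝ) ^ 2 = 3 * t ^ 2 := by rw [ht]; ring
  have t6 : (1 - t - δ) * (μ + ν) ≤ μ := by
    have b1 : t * r = 1 := by rw [ht]; field_simp
    refine le_of_mul_le_mul_left ?_ r0
    have : r * ((1 - t - δ) * (μ + ν)) = (r - 1 - r * δ) * (μ + ν) := by
      linear_combination (-(μ + ν)) * b1
    nlinarith only [h.μ1, h.R3, mul_pos δ0 h.ν0, mul_pos δ0 μ0, μ0, δ0, δ3, this]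
  rw [← ht, t4] at hF
  rw [t3] at a1
  rw [t5]
  have pu := h.p1 (hn u hu)
  have pu' := h.p1 (hn' u hu)
  have pv := h.p1 (hn v hv)
  have pv' := h.p1 (hn' v hv)
  have qv := h.p2 (hn v hv)
  have qv' := h.p2 (hn' v hv)
  have nu : (0 : ℝ) < μ + n u := by positivity
  have nv : (0 : ℝ) < μ + n v := by positivity
  have nu' : (0 : ℝ) < μ + n' u := by positivity
  have nv' : (0 : ℝ) < μ + n' v := by positivity
  have ku : -(μ * (1 / (μ + n u) * (1 / (μ + n' u)))) ≤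
      ph1 μ (n' u) (y u * α + s u) - ph1 μ (n u) (y u * α + s u) := by
    have b1 := hF u hu
    rw [ph1_eq μ0, ph1_eq μ0]
    generalize y u * α + s u = F at *
    have b2 : (μ - F) ^ 2 ≤ μ ^ 2 := by nlinarith only [h.μ5, μ0, δ0, δ3, t1, t2, b1]
    have b3 : 1 - (μ - F) ^ 2 / (μ * (μ + n' u)) - (1 - (μ - F) ^ 2 / (μ * (μ + n u))) =
        -((μ - F) ^ 2 / μ * (1 / (μ + n u) * (1 / (μ + n' u)))) := by
      rw [c2] at nu' ⊢
      field_simp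
      ring
    rw [b3, neg_le_neg_iff]
    refine mul_le_mul_of_nonneg_right ?_ (by positivity)
    rw [div_le_iff₀ μ0]
    linarith
  have kv : (μ - 2 * (t - 2 * t ^ 2 + 8 * δ)) * (1 / (μ + n v) * (1 / (μ + n' v))) ≤
      ph1 μ (n' v) (y v * α + s v) - ph1 μ (n v) (y v * α + s v) := by
    have b1 := hF v hv
    rw [ph1_eq μ0, ph1_eq μ0]
    generalize y v * α + s v = F at *
    have b3 : 1 - (μ - F) ^ 2 / (μ * (μ + n' v)) - (1 - (μ - F) ^ 2 / (μ * (μ + n v))) =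
        (μ - F) ^ 2 / μ * (1 / (μ + n v) * (1 / (μ + n' v))) := by
      rw [c3] at nv' ⊢
      field_simp
      ring
    rw [b3]
    refine mul_le_mul_of_nonneg_right ?_ (by positivity)
    rw [le_div_iff₀ μ0]
    nlinarith only [sq_nonneg F, μ0, b1]
  have kd : 1 / (μ + n v) * (1 / (μ + n' v)) - 1 / (μ + n u) * (1 / (μ + n' u)) =
      (n u - n v - 1) * (2 * μ + n u + n v) *
        (1 / (μ + n u) * (1 / (μ + n' u)) * (1 / (μ + n v)) * (1 / (μ + n' v))) := by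
    rw [c2] at nu' ⊢
    rw [c3] at nv' ⊢
    field_simp
    ring
  have d1 : 0 ≤ (1 - δ) / (μ + ν) := div_nonneg (by linarith only [δ0, δ3]) L0.le
  have k2 : (n u - n v - 1) * (2 * (μ + ν) * (1 - δ)) * ((1 - δ) / (μ + ν) * ((1 - δ) / (μ + ν)) *
      ((1 - δ) / (μ + ν)) * ((1 - δ) / (μ + ν))) ≤ (n u - n v - 1) * (2 * μ + n u + n v) *
        (1 / (μ + n u) * (1 / (μ + n' u)) * (1 / (μ + n v)) * (1 / (μ + n' v))) := by
    have b1 : (0 : ℝ) ≤ n u - n v - 1 := by linarith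
    have b2 : 2 * (μ + ν) * (1 - δ) ≤ 2 * μ + n u + n v := by
      nlinarith only [n1 (hn u hu), n1 (hn v hv), mul_pos δ0 μ0, μ0, δ0, δ3, c1]
    gcongr
  have k3 : 1 / (μ + n v) * (1 / (μ + n' v)) ≤ (1 + δ) / (μ + ν) * ((1 + δ) / (μ + ν)) := by gcongr
  rw [← kd] at k2
  have g1 : (1 : ℝ) ≤ n u - n v - 1 := by linarith only [c1]
  generalize (n u : ℝ) - n v - 1 = g at *
  generalize 1 / (μ + n v) * (1 / (μ + n' v)) = Pv at *
  generalize 1 / (μ + n u) * (1 / (μ + n' u)) = Pu at *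
  have k4 : g * (2 * (1 - t - δ) * (1 - δ) ^ 5) / (μ + ν) ^ 2 ≤ μ * (Pv - Pu) := by
    refine le_trans ?_ (mul_le_mul (t6) k2 (by have : 0 ≤ 1 - δ := by linarith
                                               positivity) μ0.le)
    refine le_of_eq ?_
    field_simp
  have k5 : 2 * (t - 2 * t ^ 2 + 8 * δ) * Pv ≤
      g * (2 * (t - 2 * t ^ 2 + 8 * δ) * (1 + δ) ^ 2) / (μ + ν) ^ 2 := by
    have b1 : 0 ≤ 2 * (t - 2 * t ^ 2 + 8 * δ) := by nlinarith only [δ0, δ3, t0, t1, t2]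
    calc _ ≤ 2 * (t - 2 * t ^ 2 + 8 * δ) * ((1 + δ) / (μ + ν) * ((1 + δ) / (μ + ν))) :=
          mul_le_mul_of_nonneg_left k3 b1
      _ = 1 * (2 * (t - 2 * t ^ 2 + 8 * δ) * (1 + δ) ^ 2) / (μ + ν) ^ 2 := by field_simp
      _ ≤ _ := by gcongr
  have k6 : 2 * α * ((1 + δ) / (μ + ν)) * (∑ i ∈ Icc 1 r, (y i : ℝ) - ∑ i ∈ Icc 1 r, (y' i : ℝ)) ≤
      g * (2 * (1 - 2 * t + 5 * δ) * (1 + δ)) / (μ + ν) ^ 2 := by
    calc _ ≤ 2 * α * ((1 + δ) / (μ + ν)) * g :=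
          mul_le_mul_of_nonneg_left (by linarith only [hg]) (by positivity)
      _ = g * (2 * (α * (μ + ν)) * (1 + δ)) / (μ + ν) ^ 2 := by field_simp
      _ ≤ _ := by gcongr
  have k7 : 3 * t ^ 2 + 2 * (1 - 2 * t + 5 * δ) * (1 + δ) +
      2 * (t - 2 * t ^ 2 + 8 * δ) * (1 + δ) ^ 2 ≤ 2 * (1 - t - δ) * (1 - δ) ^ 5 := by
    have b1 : 1 - 5 * δ ≤ (1 - δ) ^ 5 := by
      have := one_add_mul_le_pow (a := -δ) (by linarith only [δ0, δ3]) 5
      push_cast at this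
      linarith only [show (1 + -δ) ^ 5 = (1 - δ) ^ 5 by ring, this]
    have b2 := mul_le_mul_of_nonneg_left b1 (show 0 ≤ 2 * (1 - t - δ) by linarith only [δ0, δ3, t1])
    have b3 : (1 + δ) ^ 2 ≤ 1 + 3 * δ := by nlinarith only [δ0, δ3]
    have b4 := mul_le_mul_of_nonneg_left b3 (show 0 ≤ 2 * (t - 2 * t ^ 2 + 8 * δ) by nlinarith only [δ0, δ3, t0, t1, t2])
    nlinarith only [mul_pos t0 δ0, mul_pos δ0 δ0, mul_nonneg (sq_nonneg t) δ0.le, δ0, t0, t2, b2, b3, b4]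
  have k8 := div_le_div_of_nonneg_right (mul_le_mul_of_nonneg_left k7 (show 0 ≤ g by linarith only [δ0, δ3, g1]))
    (sq_nonneg (μ + ν))
  rw [mul_add, mul_add, add_div, add_div] at k8
  nlinarith only [k1, kv, ku, k4, k5, k6, k8]

end Rg

end Pool.Agent.P.MP_094db5_co

end
end

section

/-! Optimal data of the star type. -/

set_option autoImplicit false

open Finset Classical

noncomputable section

namespace Pool.Agent.P.MP_094db5_co

/-- all admissible data of the star type have secular function at most one -/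
def OrS (r bk g₀ cp : ℕ) (μ M : ℝ) : Prop :=
  ∀ (n : ℕ → ℕ) (a : ℕ) (y : ℕ → ℕ), (∀ i ∈ Icc 1 r, 2 ≤ n i) → DatS r bk cp n a y →
    (∃ j ∈ (Icc 1 r).erase a, y j < n j) →
    eK2 r n + 2 * ∑ i ∈ Icc 1 r, (y i : ℝ) + 2 * r = M → ∀ α β, PhK r μ bk g₀ n a y α β ≤ 1

/-- all admissible data of the pair type have secular function at most one -/
def OrP (r : ℕ) (μ M : ℝ) : Prop :=
  ∀ (n : ℕ → ℕ) (a b : ℕ) (x : ℕ → ℕ), (∀ i ∈ Icc 1 r, 2 ≤ n i) → a ∈ Icc 1 r → b ∈ Icc 1 r →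
    a ≠ b → Ad (Icc 1 r \ {a, b}) 1 0 n x →
    eK2 r n + 2 * ∑ i ∈ Icc 1 r \ {a, b}, (x i : ℝ) + 2 = M → ∀ α γ β, PhP r μ n a b x α γ β ≤ 1

lemma DatS.sum_eq {r bk cp a : ℕ} {n y : ℕ → ℕ} (h : DatS r bk cp n a y) :
    ∑ i ∈ Icc 1 r, (y i : ℝ) = ∑ i ∈ (Icc 1 r).erase a, (y i : ℝ) := by
  rw [← add_sum_erase _ _ h.ha, h.ya, Nat.cast_zero, zero_add]

lemma DatS.le {r bk cp a : ℕ} {n y : ℕ → ℕ} (h : DatS r bk cp n a y) {i : ℕ} (hi : i ∈ Icc 1 r) :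
    y i ≤ n i := by
  by_cases e : i = a
  · rw [e, h.ya]; exact Nat.zero_le _
  · have := (h.ad i (mem_erase.2 ⟨e, hi⟩)).2
    omega

lemma card_er {r a : ℕ} (ha : a ∈ Icc 1 r) : ((Icc 1 r).erase a).card + 1 = r := by
  rw [card_erase_add_one ha]; simp

namespace Rg

variable {r : ℕ} {δ ν μ : ℝ} (h : Rg r δ ν μ)
include h

lemma two_le {n : ℕ → ℕ} (hn : ∀ i ∈ Icc 1 r, Cl δ ν (n i)) : ∀ i ∈ Icc 1 r, 2 ≤ n i := fun i hi => by
  have := h.n4 (hn i hi)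
  have := h.r3
  omega

lemma slack {n : ℕ → ℕ} (hn : ∀ i ∈ Icc 1 r, Cl δ ν (n i)) {a : ℕ} (ha : a ∈ Icc 1 r) :
    th2 r * ν + 3 * r ≤ ∑ i ∈ (Icc 1 r).erase a, (n i : ℝ) := by
  have := h.le_sum_erase hn ha
  nlinarith [h.th2_le, h.ν1, h.δ2, h.ν0, mul_le_mul_of_nonneg_right h.δ2 h.ν0.le,
    mul_pos h.δ0 h.ν0]

lemma room {n y : ℕ → ℕ} (hn : ∀ i ∈ Icc 1 r, Cl δ ν (n i)) {a : ℕ} (ha : a ∈ Icc 1 r)
    (hd : ∑ i ∈ (Icc 1 r).erase a, (y i : ℝ) ≤ th2 r * ν + 2 * r) :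
    ∃ j ∈ (Icc 1 r).erase a, y j < n j := by
  by_contra hn'
  push Not at hn'
  have : ∑ i ∈ (Icc 1 r).erase a, (n i : ℝ) ≤ ∑ i ∈ (Icc 1 r).erase a, (y i : ℝ) :=
    sum_le_sum fun i hi => by exact_mod_cast hn' i hi
  linarith [h.slack hn ha, h.R3]

lemma exists_dat {n : ℕ → ℕ} (hn : ∀ i ∈ Icc 1 r, Cl δ ν (n i)) {a : ℕ} (ha : a ∈ Icc 1 r)
    {bk cp d : ℕ} (hcp : cp ≤ 1) (h1 : r ≤ d + 1) (h2 : (d : ℝ) ≤ th2 r * ν) :
    ∃ y, DatS r bk cp n a y ∧ ∑ i ∈ Icc 1 r, (y i : ℝ) = d := by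
  have c := card_er ha
  obtain ⟨y, y1, y2, y3⟩ := exists_mid ((Icc 1 r).erase a) (fun _ => 1) (fun i => n i - 1)
    (fun i hi => by have := h.two_le hn i (mem_of_mem_erase hi); omega) d (by simp; omega) (by
      have a1 : ∑ i ∈ (Icc 1 r).erase a, n i ≤ ∑ i ∈ (Icc 1 r).erase a, (n i - 1 + 1) :=
        sum_le_sum fun i _ => by omega
      rw [sum_add_distrib, sum_const, smul_eq_mul, mul_one] at a1
      have a2 : d + 3 * r ≤ ∑ i ∈ (Icc 1 r).erase a, n i := by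
        have := h.slack hn ha
        exact_mod_cast (by push_cast; linarith : ((d + 3 * r : ℕ) : ℝ) ≤
          (∑ i ∈ (Icc 1 r).erase a, n i : ℕ))
      omega)
  have hd : DatS r bk cp n a y := ⟨ha, y2 a (notMem_erase _ _), fun i hi => by
    have := y1 i hi
    have := h.two_le hn i (mem_of_mem_erase hi)
    omega⟩
  exact ⟨y, hd, by rw [hd.sum_eq]; exact_mod_cast y3⟩

/-- the Turan candidate -/
lemma cand {N k bk g₀ cp : ℕ} (hN : ν = N / r) (hcp : cp ≤ 1) (hk : (k : ℝ) ≤ th2 r * ν)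
    (rk : 2 * r ≤ k + 1) (o : OrS r bk g₀ cp μ (tu2 r N + 2 * k)) : ∃ T, Bal r N T ∧
      Qn r μ T + (((k : ℝ) - r) * ((1 - δ) / (μ + ν))) ^ 2 / μ ≤ 1 := by
  have r3 := h.r3
  obtain ⟨T, hT⟩ := exists_bal (show 1 ≤ r by omega) N
  have cl : ∀ i ∈ Icc 1 r, Cl δ ν (T i) := fun i hi => h.cl_of_bal hN hT hi
  have h1 : 1 ∈ Icc 1 r := mem_Icc.2 ⟨le_rfl, by omega⟩
  have e : ((k - r : ℕ) : ℝ) = k - r := Nat.cast_sub (by omega)
  obtain ⟨y, y1, y2⟩ := h.exists_dat cl h1 (bk := bk) (d := k - r) hcp (by omega)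
    (by rw [e]; linarith [h.R3])
  rw [e] at y2
  have a1 := o T 1 y (h.two_le cl) y1 (h.room cl h1 (by rw [← y1.sum_eq, y2]; linarith [h.R3]))
    (by rw [hT.eK2, y2]; ring)
  have a2 := PhS_ge (g := gS r bk g₀ y) (e := 1 - bk) (y := y) (x := xS bk 1) h.μ0
    (div_nonneg (by linarith [h.δ3]) h.L0.le) (fun i hi => h.p1 (cl i hi)) fun i hi => y1.le hi
  rw [y2] at a2
  exact ⟨T, hT, a2.trans (a1 _ _)⟩

end Rg

lemma exists_move (n : ℕ → ℕ) {r u v : ℕ} (hu : u ∈ Icc 1 r) (hv : v ∈ Icc 1 r)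
    (huv : n v + 2 ≤ n u) : ∃ n' : ℕ → ℕ, n' u + 1 = n u ∧ n' v = n v + 1 ∧
      (∀ i, i ≠ u → i ≠ v → n' i = n i) ∧ ∑ i ∈ Icc 1 r, n' i = ∑ i ∈ Icc 1 r, n i ∧
      eK2 r n' = eK2 r n + 2 * (n u - n v - 1) := by
  have hne : u ≠ v := fun e => by rw [e] at huv; omega
  obtain ⟨n', e1, e2, e3⟩ : ∃ n' : ℕ → ℕ, n' u + 1 = n u ∧ n' v = n v + 1 ∧
      ∀ i, i ≠ u → i ≠ v → n' i = n i :=
    ⟨fun i => if i = u then n u - 1 else if i = v then n v + 1 else n i, by simp; omega,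
      by simp [hne.symm], fun i a b => by simp [a, b]⟩
  have c2 : (n' u : ℝ) = n u - 1 := by rw [← e1]; push_cast; ring
  have c3 : (n' v : ℝ) = n v + 1 := by rw [e2]; push_cast; ring
  have s1 := sum_two hu hv hne (f := fun i => (n' i : ℝ)) (g := fun i => (n i : ℝ))
    fun i _ a b => by rw [e3 i a b]
  have s2 := sum_two hu hv hne (f := fun i => (n' i : ℝ) ^ 2) (g := fun i => (n i : ℝ) ^ 2)
    fun i _ a b => by rw [e3 i a b]
  rw [c2, c3] at s1 s2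
  refine ⟨n', e1, e2, e3, ?_, ?_⟩
  · exact_mod_cast (by push_cast; linarith : ((∑ i ∈ Icc 1 r, n' i : ℕ) : ℝ) =
      (∑ i ∈ Icc 1 r, n i : ℕ))
  · rw [eK2, eK2, s1, s2]; ring

lemma cl_move {δ ν : ℝ} {n n' : ℕ → ℕ} {r u v : ℕ} (hn : ∀ i ∈ Icc 1 r, Cl δ ν (n i))
    (hu : u ∈ Icc 1 r) (hv : v ∈ Icc 1 r) (huv : n v + 2 ≤ n u) (e1 : n' u + 1 = n u)
    (e2 : n' v = n v + 1) (e3 : ∀ i, i ≠ u → i ≠ v → n' i = n i) :
    ∀ i ∈ Icc 1 r, Cl δ ν (n' i) := fun i hi => by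
  have c1 : (n v : ℝ) + 2 ≤ n u := by exact_mod_cast huv
  have c2 : (n' u : ℝ) = n u - 1 := by rw [← e1]; push_cast; ring
  have c3 : (n' v : ℝ) = n v + 1 := by rw [e2]; push_cast; ring
  have b1 := Rg.n1 (hn v hv)
  have b2 := Rg.n2 (hn u hu)
  by_cases a : i = u
  · rw [a, Cl, c2]; exact abs_le.2 ⟨by linarith, by linarith⟩
  · by_cases b : i = v
    · rw [b, Cl, c3]; exact abs_le.2 ⟨by linarith, by linarith⟩
    · rw [e3 i a b]; exact hn i hi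

/-- removing `g` units while respecting the new capacities -/
lemma exists_less {J : Finset ℕ} {l c u g : ℕ} {n n' y : ℕ → ℕ} (ha : Ad J l c n y)
    (h1 : ∀ i ∈ J, l + c ≤ n' i) (h2 : ∀ i ∈ J, i ≠ u → n i ≤ n' i) (h3 : n u ≤ n' u + 1)
    (g1 : 1 ≤ g) (g2 : J.card * l + g ≤ ∑ i ∈ J, y i) : ∃ y' : ℕ → ℕ, Ad J l c n' y' ∧
      (∀ i ∈ J, y' i ≤ y i) ∧ (∀ i ∉ J, y' i = 0) ∧ ∑ i ∈ J, y' i + g = ∑ i ∈ J, y i := by
  obtain ⟨y', y1, y2, y3⟩ := exists_mid J (fun _ => l) (fun i => min (y i) (n' i - c))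
    (fun i hi => by have := ha i hi; have := h1 i hi; omega) (∑ i ∈ J, y i - g)
    (by rw [sum_const, smul_eq_mul]; omega) (by
      have a1 : ∑ i ∈ J, y i ≤ ∑ i ∈ J, (min (y i) (n' i - c) + if i = u then 1 else 0) :=
        sum_le_sum fun i hi => by
          have := ha i hi
          split_ifs with e
          · rw [e] at this ⊢; omega
          · have := h2 i hi e; omega
      rw [sum_add_distrib, sum_ite_eq'] at a1
      split_ifs at a1 <;> omega)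
  exact ⟨y', fun i hi => by have := y1 i hi; have := h1 i hi; omega,
    fun i hi => by have := y1 i hi; omega, y2, by omega⟩

/-- optimal data of the star type -/
structure OptS (r bk g₀ cp : ℕ) (δ ν μ M : ℝ) (n : ℕ → ℕ) (a : ℕ) (y : ℕ → ℕ) (α β : ℝ) :
    Prop where
  rg : Rg r δ ν μ
  bk1 : bk ≤ 1
  cp1 : cp ≤ 1
  g1 : g₀ ≤ r
  or : OrS r bk g₀ cp μ M
  cl : ∀ i ∈ Icc 1 r, Cl δ ν (n i)
  dat : DatS r bk cp n a y
  ed : eK2 r n + 2 * ∑ i ∈ Icc 1 r, (y i : ℝ) + 2 * r = M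
  a0 : 0 ≤ α
  a1 : α ≤ 1 / (μ - 2)
  b0 : 0 ≤ β
  b1 : μ * β ≤ r / (μ - 2)
  up : 1 ≤ PhK r μ bk g₀ n a y α β
  self : ∀ α' β', PhK r μ bk g₀ n a y α' β' ≤ 1

lemma xS_le {bk : ℕ} (h : bk ≤ 1) (a i : ℕ) : xS bk a i ≤ 1 := by
  unfold xS; split_ifs <;> omega

lemma gS_le {r bk g₀ : ℕ} (h : bk ≤ 1) (h1 : g₀ ≤ r) (y : ℕ → ℕ) :
    0 ≤ gS r bk g₀ y ∧ gS r bk g₀ y ≤ 2 * r := by
  have a1 : ∑ i ∈ Icc 1 r, ((min (y i) 1 : ℕ) : ℝ) ≤ r := by
    have := sum_le_card_nsmul (Icc 1 r) (fun i => ((min (y i) 1 : ℕ) : ℝ)) 1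
      fun i _ => by exact_mod_cast min_le_right _ _
    simpa using this
  have a2 : 0 ≤ ∑ i ∈ Icc 1 r, ((min (y i) 1 : ℕ) : ℝ) := sum_nonneg fun _ _ => Nat.cast_nonneg _
  have a3 : (bk : ℝ) ≤ 1 := by exact_mod_cast h
  have a4 : (g₀ : ℝ) ≤ r := by exact_mod_cast h1
  unfold gS
  exact ⟨by positivity, by nlinarith⟩

namespace OptS

variable {r bk g₀ cp : ℕ} {δ ν μ M : ℝ} {n : ℕ → ℕ} {a : ℕ} {y : ℕ → ℕ} {α β : ℝ}
  (h : OptS r bk g₀ cp δ ν μ M n a y α β)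
include h

lemma βδ : β ≤ δ / 300000 := by
  have := h.rg.inv2 h.b1
  nlinarith [h.rg.μ5, h.b0]

lemma sb (i : ℕ) : 0 ≤ xS bk a i * β ∧ xS bk a i * β ≤ β := by
  have : (xS bk a i : ℝ) ≤ 1 := by exact_mod_cast xS_le h.bk1 a i
  exact ⟨mul_nonneg (Nat.cast_nonneg _) h.b0, mul_le_of_le_one_left h.b0 this⟩

lemma yα {i : ℕ} (hi : i ∈ Icc 1 r) : y i * α ≤ 52 / 100 := by
  have a1 : (y i : ℝ) ≤ n i := by exact_mod_cast h.dat.le hi
  have a2 := mul_le_mul_of_nonneg_right (a1.trans (h.rg.n3 (h.cl i hi))) h.a0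
  linarith [h.rg.inv1 h.a1]

lemma hF : ∀ i ∈ Icc 1 r, 0 ≤ y i * α + xS bk a i * β ∧ y i * α + xS bk a i * β ≤ 1 := fun i hi =>
  ⟨add_nonneg (mul_nonneg (Nat.cast_nonneg _) h.a0) (h.sb i).1,
    by linarith [h.yα hi, (h.sb i).2, h.βδ, h.rg.δ3]⟩

lemma stat0 : μ * α = ∑ i ∈ Icc 1 r, y i * (1 - (y i * α + xS bk a i * β) / μ) / (μ + n i) +
    (((∑ i ∈ Icc 1 r, (y i : ℝ)) * α + gS r bk g₀ y * β) / μ + (1 - bk) * β) := by
  rw [← add_assoc]
  exact PhS_stat fun α' => (h.self α' β).trans h.up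

lemma E0 : 0 ≤ ((∑ i ∈ Icc 1 r, (y i : ℝ)) * α + gS r bk g₀ y * β) / μ + (1 - bk) * β := by
  have a3 : (bk : ℝ) ≤ 1 := by exact_mod_cast h.bk1
  have := (gS_le h.bk1 h.g1 y).1
  have := h.a0
  have := h.b0
  have := h.rg.μ0
  exact add_nonneg (by positivity) (mul_nonneg (by linarith) h.b0)

lemma apos (hd : 1 ≤ ∑ i ∈ Icc 1 r, (y i : ℝ)) : 0 < α := by
  have a1 := (h.rg.P_bounds (y := y) h.cl h.hF).1
  have a2 : 0 < (∑ i ∈ Icc 1 r, (y i : ℝ)) * (1 - δ) ^ 2 / (μ + ν) :=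
    div_pos (mul_pos (by linarith) (pow_pos (by linarith [h.rg.δ3]) 2)) h.rg.L0
  by_contra hn
  nlinarith [h.stat0, h.E0, h.rg.μ0]

lemma stat (hd : ∑ i ∈ Icc 1 r, (y i : ℝ) ≤ th2 r * ν) :
    |α * (μ + ν) - (∑ i ∈ Icc 1 r, (y i : ℝ)) / ((r - 1) * ν)| ≤ 5 * δ := by
  have a1 := h.rg.P_bounds (y := y) h.cl h.hF
  have a2 := h.rg.th2_le
  have μ0 := h.rg.μ0
  refine h.rg.stat_bound h.a0 (sum_nonneg fun _ _ => Nat.cast_nonneg _) (by linarith [h.rg.ν0])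
    a1.1 a1.2 h.E0 ?_ h.stat0
  have b1 : ((∑ i ∈ Icc 1 r, (y i : ℝ)) * α + gS r bk g₀ y * β) / μ ≤ α + β := by
    rw [div_le_iff₀ μ0]
    have c1 : ∑ i ∈ Icc 1 r, (y i : ℝ) ≤ μ := by linarith [h.rg.μ1, h.rg.δν, h.rg.ν0]
    have c2 : gS r bk g₀ y ≤ μ := by linarith [(gS_le h.bk1 h.g1 y).2, h.rg.μ4, h.rg.R3]
    nlinarith [mul_le_mul_of_nonneg_right c1 h.a0, mul_le_mul_of_nonneg_right c2 h.b0]
  have b2 : (1 - bk) * β ≤ β := by nlinarith [mul_nonneg (Nat.cast_nonneg (α := ℝ) bk) h.b0]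
  have b3 := mul_le_mul_of_nonneg_left h.rg.L3 h.b0
  have b4 := h.rg.inv2 h.b1
  calc _ ≤ (2 * β) * (μ + ν) := mul_le_mul_of_nonneg_right (by linarith) h.rg.L0.le
    _ ≤ 4 := by nlinarith [h.rg.δ3]

lemma greedy (hd : ∑ i ∈ Icc 1 r, (y i : ℝ) ≤ th2 r * ν) (hd1 : 1 ≤ ∑ i ∈ Icc 1 r, (y i : ℝ)) :
    Gr ((Icc 1 r).erase a) (1 - bk) cp n y := by
  have a0 := h.apos hd1
  have μ0 := h.rg.μ0
  refine gr_of_opt (h := hS μ bk α β) h.dat.ad (fun i _ s s' hs => ?_)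
    (fun i _ j hj hij s s' hs => ?_) fun y' h1 h2 h3 => ?_
  · have a1 := hS_m1 μ0 bk h.a0 h.b0 (n i) hs.le
    have a2 : (s : ℝ) < s' := by exact_mod_cast hs
    have a3 : 0 < 2 * (s' - s) * α ^ 2 / (μ * (μ + n i)) :=
      div_pos (mul_pos (by linarith) (by positivity)) (by positivity)
    linarith
  · have a1 := hS_m2 (s' := s') h.bk1 h.a0 h.a1 h.b0 h.b1 (by linarith [h.rg.R3])
      (by linarith [h.rg.μ4, h.rg.R3]) hij (h.rg.n3 (h.cl j (mem_of_mem_erase hj))) hs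
    have a3 : 0 < α / (100 * μ ^ 2) := by positivity
    linarith
  · have d' : DatS r bk cp n a y' := ⟨h.dat.ha, (h2 a (notMem_erase _ _)).trans h.dat.ya, h1⟩
    have e : ∑ i ∈ (Icc 1 r).erase a, (y' i : ℝ) = ∑ i ∈ (Icc 1 r).erase a, (y i : ℝ) := by
      exact_mod_cast h3
    have a1 := (h.or n a y' (h.rg.two_le h.cl) d' (h.rg.room h.cl h.dat.ha (by
      rw [e, ← h.dat.sum_eq]; linarith [h.rg.R3])) (by
      rw [d'.sum_eq, e, ← h.dat.sum_eq]; exact h.ed) α β).trans h.up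
    rw [PhK_eq d'.ha _ _ _ _ d'.ya, PhK_eq d'.ha _ _ _ _ h.dat.ya, h3] at a1
    linarith

end OptS

end Pool.Agent.P.MP_094db5_co

end
end

section

/-! Balanced cores and largest parts. -/

set_option autoImplicit false

open Finset Classical

noncomputable section

namespace Pool.Agent.P.MP_094db5_co

lemma Rg.μ6 {r : ℕ} {δ ν μ : ℝ} (h : Rg r δ ν μ) : 10000 * (r : ℝ) ^ 2 ≤ μ := by
  have a1 := mul_le_mul_of_nonneg_right h.δ1 h.ν0.le
  have a2 := mul_le_mul_of_nonneg_left h.big (show 0 ≤ 1000 * (r : ℝ) ^ 2 by positivity)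
  nlinarith only [h.μ3, h.R3, sq_nonneg (r : ℝ), h.ν0, a1, a2]

lemma Rg.tiny {r : ℕ} {δ ν μ : ℝ} (h : Rg r δ ν μ) {E : ℝ} (hE : E * μ ^ 3 ≤ 100) :
    E < 3 / r ^ 2 / (μ + ν) ^ 2 := by
  have μ0 := h.μ0
  have L0 := h.L0
  have r0 : (0 : ℝ) < r := by linarith [h.R3]
  have a1 : (μ + ν) ^ 2 ≤ (151 / 100 * μ) ^ 2 := pow_le_pow_left₀ L0.le h.L3 2
  calc E ≤ 100 / μ ^ 3 := by rw [le_div_iff₀ (by positivity)]; exact hE
    _ < _ := by
      rw [div_div, div_lt_div_iff₀ (by positivity) (by positivity)]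
      nlinarith only [mul_le_mul_of_nonneg_left a1 (sq_nonneg (r : ℝ)),
        mul_le_mul_of_nonneg_right h.μ6 (sq_nonneg μ), pow_pos μ0 3, μ0, a1]

lemma ph1_swap {μ : ℝ} (μ0 : 0 < μ) (n n' : ℕ) (F F' : ℝ) :
    ph1 μ n F - ph1 μ n F' + (ph1 μ n' F' - ph1 μ n' F) =
      (1 / (μ + n) - 1 / (μ + n')) * ((F - F') * (2 * μ - F - F') / μ) := by
  have : (0 : ℝ) < μ + n := by positivity
  have : (0 : ℝ) < μ + n' := by positivity
  unfold ph1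
  field_simp
  ring

lemma inv_lt {μ : ℝ} (μ0 : 0 < μ) {n n' : ℕ} (h : n < n') : 0 < 1 / (μ + n) - 1 / (μ + n') := by
  have : (n : ℝ) < n' := by exact_mod_cast h
  exact sub_pos.2 (one_div_lt_one_div_of_lt (by positivity) (by linarith))

namespace OptS

variable {r bk g₀ cp : ℕ} {δ ν μ M : ℝ} {n : ℕ → ℕ} {a : ℕ} {y : ℕ → ℕ} {α β : ℝ}
  (h : OptS r bk g₀ cp δ ν μ M n a y α β)
include h

theorem bal {N k : ℕ} (hM : M = tu2 r N + 2 * k) (rk : 2 * r ≤ k + 1)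
    (hs : ∑ i ∈ Icc 1 r, n i = N) (hd : ∑ i ∈ Icc 1 r, (y i : ℝ) ≤ th2 r * ν) : Bal r N n := by
  have r3 := h.rg.r3
  refine bal_of_close (by omega) hs fun u hu v hv => ?_
  by_contra hn
  have huv : n v + 2 ≤ n u := by omega
  obtain ⟨n', e1, e2, e3, e4, e5⟩ := exists_move n hu hv huv
  have cl' := cl_move h.cl hu hv huv e1 e2 e3
  obtain ⟨g, hg⟩ : ∃ g, n u = n v + 1 + g := ⟨n u - n v - 1, by omega⟩
  have eg : (n u : ℝ) - n v - 1 = g := by rw [hg]; push_cast; ring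
  have a1 := eK2_le' (e4.trans hs)
  have a2 := h.ed
  have c := card_er h.dat.ha
  rw [h.dat.sum_eq] at a2
  have a3 : k + g ≤ ∑ i ∈ (Icc 1 r).erase a, y i + r := by
    exact_mod_cast (by push_cast; linarith : ((k + g : ℕ) : ℝ) ≤
      (∑ i ∈ (Icc 1 r).erase a, y i + r : ℕ))
  have := h.bk1
  have := h.cp1
  obtain ⟨y', y1, y2, y3, y4⟩ := exists_less (n' := n') (u := u) (g := g) h.dat.ad
    (fun i hi => by have := h.rg.two_le cl' i (mem_of_mem_erase hi); omega)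
    (fun i _ b => by
      by_cases e : i = v
      · rw [e]; omega
      · rw [e3 i b e])
    (by omega) (by omega) (by
      have : ((Icc 1 r).erase a).card * (1 - bk) ≤ ((Icc 1 r).erase a).card * 1 :=
        Nat.mul_le_mul_left _ (by omega)
      omega)
  have d' : DatS r bk cp n' a y' := ⟨h.dat.ha, y3 a (notMem_erase _ _), y1⟩
  have y5 : ∑ i ∈ Icc 1 r, (y' i : ℝ) + g = ∑ i ∈ Icc 1 r, (y i : ℝ) := by
    rw [d'.sum_eq, h.dat.sum_eq]; exact_mod_cast y4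
  have y6 : ∀ i ∈ Icc 1 r, y' i ≤ y i := fun i hi => by
    by_cases e : i = a
    · rw [e, d'.ya]; exact Nat.zero_le _
    · exact y2 i (mem_erase.2 ⟨e, hi⟩)
  have g0 : (0 : ℝ) ≤ g := Nat.cast_nonneg _
  have b1 := (h.or n' a y' (h.rg.two_le cl') d' (h.rg.room cl' h.dat.ha (by
    rw [← d'.sum_eq]; linarith only [h.rg.R3, hd, y5])) (by rw [← h.ed]; linarith only [e5, eg, y5]) α β).trans h.up
  have b2 := h.rg.move_core (α := α) (s := fun i => xS bk a i * β) h.cl hu hv huv e1 e2 e3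
    (fun i hi => ⟨y6 i hi, h.dat.le hi⟩)
    (fun i _ => ⟨(h.sb i).1, by linarith [(h.sb i).2, h.βδ, h.rg.δ0]⟩) (by linarith) h.a0
    (by linarith [(abs_le.1 (h.stat hd)).2, h.rg.th2_div hd])
  have b3 : gS r bk g₀ y - g ≤ gS r bk g₀ y' := by
    have c1 : ∑ i ∈ Icc 1 r, (((min (y i) 1 : ℕ) : ℝ) + y' i) ≤
        ∑ i ∈ Icc 1 r, (((min (y' i) 1 : ℕ) : ℝ) + y i) := sum_le_sum fun i hi => by
      have := y6 i hi
      exact_mod_cast (by omega : min (y i) 1 + y' i ≤ min (y' i) 1 + y i)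
    rw [sum_add_distrib, sum_add_distrib] at c1
    unfold gS
    rcases (by omega : bk = 0 ∨ bk = 1) with e | e <;> rw [e] <;>
      simp only [Nat.cast_zero, Nat.cast_one] <;> linarith only [y5, c1]
  have μ0 := h.rg.μ0
  have b4 : ((∑ i ∈ Icc 1 r, (y i : ℝ)) * α ^ 2 + (∑ i ∈ Icc 1 r, (xS bk a i : ℝ)) * β ^ 2 +
      2 * gS r bk g₀ y * α * β) / μ ≤ ((∑ i ∈ Icc 1 r, (y' i : ℝ)) * α ^ 2 +
      (∑ i ∈ Icc 1 r, (xS bk a i : ℝ)) * β ^ 2 + 2 * gS r bk g₀ y' * α * β) / μ +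
      g * ((α ^ 2 + 2 * α * β) / μ) := by
    rw [← mul_div_assoc, ← add_div, ← y5]
    refine div_le_div_of_nonneg_right ?_ μ0.le
    nlinarith only [mul_le_mul_of_nonneg_right b3 (mul_nonneg h.a0 h.b0), b3]
  have b5 := h.rg.tiny (E := (α ^ 2 + 2 * α * β) / μ) (by
    have c1 := h.rg.inv1 h.a1
    have c2 := h.rg.inv2 h.b1
    have c3 : (α ^ 2 + 2 * α * β) / μ * μ ^ 3 = (α * μ) ^ 2 + 2 * (α * μ) * (β * μ) := by
      field_simp
    rw [c3]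
    nlinarith only [mul_nonneg h.a0 μ0.le, mul_nonneg h.b0 μ0.le, h.rg.δ3, μ0, c1, c2])
  have g1 : (0 : ℝ) < g := by exact_mod_cast (by omega : 0 < g)
  have b6 := mul_lt_mul_of_pos_left b5 g1
  rw [eg, mul_div_assoc] at b2
  simp only [PhK, PhS] at b1
  linarith only [b1, b2, b4, b6]

theorem largest {N : ℕ} (hb : Bal r N n) (hd : ∑ i ∈ Icc 1 r, (y i : ℝ) ≤ th2 r * ν)
    (hd1 : 1 ≤ ∑ i ∈ Icc 1 r, (y i : ℝ)) : ∃ a', OptS r bk g₀ cp δ ν μ M n a' y α β ∧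
      (∀ i ∈ Icc 1 r, n i ≤ n a') ∧ (a' = a ∨ bk = 1) := by
  obtain ⟨j, hj, hm⟩ := exists_max_image (Icc 1 r) n ⟨a, h.dat.ha⟩
  rcases le_or_gt (n j) (n a) with c1 | c1
  · exact ⟨a, h, fun i hi => (hm i hi).trans c1, Or.inl rfl⟩
  have ja : j ≠ a := fun e => by rw [e] at c1; omega
  have hj' : j ∈ (Icc 1 r).erase a := mem_erase.2 ⟨ja, hj⟩
  have two := h.rg.two_le h.cl
  have cp1 := h.cp1
  have bk1 := h.bk1
  have adj := h.dat.ad j hj'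
  rcases Nat.eq_zero_or_pos (y j) with c2 | c2
  · obtain rfl : bk = 1 := by omega
    have e : xS 1 j = xS 1 a := by funext i; simp [xS]
    refine ⟨j, ⟨h.rg, h.bk1, h.cp1, h.g1, h.or, h.cl, ⟨hj, c2, fun i hi => ⟨by omega, ?_⟩⟩, h.ed,
      h.a0, h.a1, h.b0, h.b1, ?_, fun α' β' => ?_⟩, hm, Or.inr rfl⟩
    · by_cases b : i = a
      · have := two a h.dat.ha
        rw [b, h.dat.ya]; omega
      · exact (h.dat.ad i (mem_erase.2 ⟨b, mem_of_mem_erase hi⟩)).2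
    · rw [PhK, e]; exact h.up
    · rw [PhK, e]; exact h.self _ _
  exfalso
  have c3 : y j + cp ≤ n a := by
    by_contra hn
    obtain ⟨i, hi, b⟩ := h.rg.room (y := fun i => y i + 2) h.cl h.dat.ha (by
      have := card_er h.dat.ha
      have e : (((Icc 1 r).erase a).card : ℝ) + 1 = r := by exact_mod_cast this
      push_cast
      rw [sum_add_distrib, ← h.dat.sum_eq, sum_const, nsmul_eq_mul]
      linarith only [hd, e])
    have b1 := hb.1 j hj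
    have b2 := hb.1 a h.dat.ha
    have b3 := hm i (mem_of_mem_erase hi)
    have b4 := h.rg.n4 (h.cl j hj)
    have := h.rg.r3
    have := h.greedy hd hd1 i hi j hj' (by omega) (by omega)
    omega
  obtain ⟨y', e1, e2, e3⟩ : ∃ y' : ℕ → ℕ, y' a = y j ∧ y' j = 0 ∧ ∀ i, i ≠ a → i ≠ j → y' i = y i :=
    ⟨fun i => if i = a then y j else if i = j then 0 else y i, by simp, by simp [ja],
      fun i b c => by simp [b, c]⟩
  have d' : DatS r bk cp n j y' := ⟨hj, e2, fun i hi => by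
    by_cases b : i = a
    · rw [b, e1]; omega
    · rw [e3 i b (ne_of_mem_erase hi)]
      exact h.dat.ad i (mem_erase.2 ⟨b, mem_of_mem_erase hi⟩)⟩
  have s0 : ∀ f : ℕ → ℝ, ∑ i ∈ Icc 1 r, f (y' i) = ∑ i ∈ Icc 1 r, f (y i) := fun f => by
    rw [sum_two h.dat.ha hj ja.symm (g := fun i => f (y i)) fun i _ b c => by rw [e3 i b c], e1, e2,
      h.dat.ya]
    ring
  have s1 := s0 fun s => (s : ℝ)
  have s2 : gS r bk g₀ y' = gS r bk g₀ y := by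
    rw [gS, gS, s0 fun s => ((min s 1 : ℕ) : ℝ)]
  have s3 : ∑ i ∈ Icc 1 r, (xS bk j i : ℝ) = ∑ i ∈ Icc 1 r, (xS bk a i : ℝ) := by
    rw [sum_two h.dat.ha hj ja.symm (g := fun i => (xS bk a i : ℝ)) fun i _ b c => by
      simp [xS, b, c]]
    simp only [xS, if_true, if_neg ja, if_neg ja.symm]
    ring
  have b1 := (h.or n j y' two d' (h.rg.room h.cl hj (by
    rw [← d'.sum_eq, s1]; linarith [h.rg.R3])) (by rw [s1]; exact h.ed) α β).trans h.up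
  simp only [PhK, PhS] at b1
  rw [s1, s2, s3, sum_two h.dat.ha hj ja.symm
    (g := fun i => ph1 μ (n i) (y i * α + xS bk a i * β)) fun i _ b c => by
      simp [xS, b, c, e3 i b c], e1, e2, h.dat.ya] at b1
  simp only [xS, if_true, if_neg ja, if_neg ja.symm, Nat.cast_zero, zero_mul, zero_add,
    Nat.cast_one, one_mul] at b1
  have b2 := ph1_swap h.rg.μ0 (n a) (n j) (y j * α + β) (bk * β)
  have b3 : (bk : ℝ) * β ≤ β := mul_le_of_le_one_left h.b0 (by exact_mod_cast bk1)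
  have b4 : 0 < y j * α := mul_pos (by exact_mod_cast c2) (h.apos hd1)
  have b5 := mul_pos (inv_lt h.rg.μ0 c1) (div_pos (mul_pos
    (show 0 < y j * α + β - bk * β by linarith)
    (show 0 < 2 * μ - (y j * α + β) - bk * β by
      linarith [h.yα hj, h.βδ, h.rg.δ3, h.rg.μ5])) h.rg.μ0)
  linarith

end OptS

/-- optimal data of the pair type -/
structure OptP (r : ℕ) (δ ν μ M : ℝ) (n : ℕ → ℕ) (a b : ℕ) (x : ℕ → ℕ) (α γ β : ℝ) : Prop where
  rg : Rg r δ ν μ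
  or : OrP r μ M
  cl : ∀ i ∈ Icc 1 r, Cl δ ν (n i)
  ha : a ∈ Icc 1 r
  hb : b ∈ Icc 1 r
  ab : a ≠ b
  ad : Ad (Icc 1 r \ {a, b}) 1 0 n x
  ed : eK2 r n + 2 * ∑ i ∈ Icc 1 r \ {a, b}, (x i : ℝ) + 2 = M
  a0 : 0 ≤ α
  a1 : α ≤ 1 / (μ - 2)
  c0 : 0 ≤ γ
  c1 : γ ≤ 1 / (μ - 2)
  b0 : 0 ≤ β
  b1 : β ≤ 1 / (μ - 2)
  up : 1 ≤ PhP r μ n a b x α γ β

lemma card_pair_sdiff {r a b : ℕ} (ha : a ∈ Icc 1 r) (hb : b ∈ Icc 1 r) (ab : a ≠ b) :
    (Icc 1 r \ {a, b}).card + 2 = r := by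
  have h1 : ({a, b} : Finset ℕ) ⊆ Icc 1 r := fun k hk => by
    rcases mem_insert.1 hk with e | e
    exacts [e ▸ ha, mem_singleton.1 e ▸ hb]
  have := card_sdiff_add_card_eq_card h1
  rwa [card_pair ab, Nat.card_Icc, add_tsub_cancel_right] at this

lemma sum_pair_sdiff {r a b : ℕ} (ha : a ∈ Icc 1 r) (hb : b ∈ Icc 1 r) (ab : a ≠ b) (f : ℕ → ℝ) :
    ∑ i ∈ Icc 1 r, f i = ∑ i ∈ Icc 1 r \ {a, b}, f i + f a + f b := by
  have h1 : ({a, b} : Finset ℕ) ⊆ Icc 1 r := fun k hk => by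
    rcases mem_insert.1 hk with e | e
    exacts [e ▸ ha, mem_singleton.1 e ▸ hb]
  rw [← sum_sdiff h1, sum_pair ab, add_assoc]

lemma mem_J {r a b i : ℕ} : i ∈ Icc 1 r \ {a, b} ↔ i ∈ Icc 1 r ∧ i ≠ a ∧ i ≠ b := by
  simp only [mem_sdiff, mem_insert, mem_singleton, not_or]

namespace OptP

variable {r : ℕ} {δ ν μ M : ℝ} {n : ℕ → ℕ} {a b : ℕ} {x : ℕ → ℕ} {α γ β : ℝ}
  (h : OptP r δ ν μ M n a b x α γ β)
include h

lemma symm : OptP r δ ν μ M n b a x γ α β :=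
  ⟨h.rg, h.or, h.cl, h.hb, h.ha, h.ab.symm, pair_comm a b ▸ h.ad, pair_comm a b ▸ h.ed, h.c0, h.c1,
    h.a0, h.a1, h.b0, h.b1, PhP_symm r μ n a b x α γ β ▸ h.up⟩

lemma self (α' γ' β' : ℝ) : PhP r μ n a b x α' γ' β' ≤ PhP r μ n a b x α γ β :=
  (h.or n a b x (h.rg.two_le h.cl) h.ha h.hb h.ab h.ad h.ed _ _ _).trans h.up

lemma hF : ∀ i ∈ Icc 1 r \ {a, b}, 0 ≤ x i * β ∧ x i * β ≤ 52 / 100 := fun i hi => by
  have a1 : (x i : ℝ) ≤ n i := by exact_mod_cast (h.ad i hi).2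
  have a2 := mul_le_mul_of_nonneg_right (a1.trans (h.rg.n3 (h.cl i (mem_J.1 hi).1))) h.b0
  exact ⟨mul_nonneg (Nat.cast_nonneg _) h.b0, by linarith [h.rg.inv1 h.b1]⟩

lemma Pb : (∑ i ∈ Icc 1 r \ {a, b}, (x i : ℝ)) * (1 - δ) ^ 2 / (μ + ν) ≤
      ∑ i ∈ Icc 1 r \ {a, b}, x i * (1 - x i * β / μ) / (μ + n i) ∧
    ∑ i ∈ Icc 1 r \ {a, b}, x i * (1 - x i * β / μ) / (μ + n i) ≤
      (∑ i ∈ Icc 1 r \ {a, b}, (x i : ℝ)) * (1 + δ) / (μ + ν) :=
  h.rg.P_bounds (F := fun i => x i * β) (fun i hi => h.cl i (mem_J.1 hi).1)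
    fun i hi => ⟨(h.hF i hi).1, by linarith [(h.hF i hi).2]⟩

lemma stat0 : μ * β = ∑ i ∈ Icc 1 r \ {a, b}, x i * (1 - x i * β / μ) / (μ + n i) +
    ((∑ i ∈ Icc 1 r \ {a, b}, (x i : ℝ)) * β / μ + (α + γ)) := by
  rw [← add_assoc]
  exact PhP_statβ fun β' => h.self _ _ _

lemma E0 : 0 ≤ (∑ i ∈ Icc 1 r \ {a, b}, (x i : ℝ)) * β / μ + (α + γ) := by
  have := h.a0
  have := h.b0
  have := h.c0
  have := h.rg.μ0
  positivity

lemma one_le : 1 ≤ ∑ i ∈ Icc 1 r \ {a, b}, (x i : ℝ) := by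
  have a1 := card_pair_sdiff h.ha h.hb h.ab
  have a2 : (Icc 1 r \ {a, b}).card • 1 ≤ ∑ i ∈ Icc 1 r \ {a, b}, x i :=
    card_nsmul_le_sum _ x 1 fun i hi => (h.ad i hi).1
  have := h.rg.r3
  rw [smul_eq_mul, mul_one] at a2
  exact_mod_cast (by omega : 1 ≤ ∑ i ∈ Icc 1 r \ {a, b}, x i)

lemma bpos : 0 < β := by
  have a2 : 0 < (∑ i ∈ Icc 1 r \ {a, b}, (x i : ℝ)) * (1 - δ) ^ 2 / (μ + ν) :=
    div_pos (mul_pos (by linarith [h.one_le]) (pow_pos (by linarith [h.rg.δ3]) 2)) h.rg.L0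
  by_contra hn
  nlinarith only [h.stat0, h.E0, h.rg.μ0, h.Pb.1, a2, hn]

lemma stat (hd : ∑ i ∈ Icc 1 r \ {a, b}, (x i : ℝ) ≤ th2 r * ν) :
    |β * (μ + ν) - (∑ i ∈ Icc 1 r \ {a, b}, (x i : ℝ)) / ((r - 1) * ν)| ≤ 5 * δ := by
  have a2 := h.rg.th2_le
  have μ0 := h.rg.μ0
  refine h.rg.stat_bound h.b0 (sum_nonneg fun _ _ => Nat.cast_nonneg _) (by linarith [h.rg.ν0])
    h.Pb.1 h.Pb.2 h.E0 ?_ h.stat0
  have b1 : (∑ i ∈ Icc 1 r \ {a, b}, (x i : ℝ)) * β / μ ≤ β := by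
    rw [div_le_iff₀ μ0]
    have c1 : ∑ i ∈ Icc 1 r \ {a, b}, (x i : ℝ) ≤ μ := by linarith [h.rg.μ1, h.rg.δν, h.rg.ν0]
    nlinarith [mul_le_mul_of_nonneg_right c1 h.b0]
  have b3 := mul_le_mul_of_nonneg_left h.rg.L3 (add_nonneg h.a0 h.c0)
  calc _ ≤ (α + γ) * (μ + ν) := mul_le_mul_of_nonneg_right (by linarith) h.rg.L0.le
    _ ≤ 4 := by nlinarith only [h.rg.inv1 h.a1, h.rg.inv1 h.c1, b3]

/-- the entry of the special vertex is close to the generic entry -/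
lemma dev : |α - 1 / (μ + n a)| * μ ^ 2 ≤ 2 := by
  have a1 := PhP_statα fun α' => h.self α' γ β
  have μ0 := h.rg.μ0
  have n0 : (0 : ℝ) ≤ n a := Nat.cast_nonneg _
  have a2 : μ ≤ μ * (μ + n a) / (μ + n a - 1) := by
    rw [le_div_iff₀ (by linarith [h.rg.μ5])]
    nlinarith
  have a3 : |β - γ| * μ ≤ 2 := by
    have := h.rg.inv1 h.b1
    have := h.rg.inv1 h.c1
    rcases abs_cases (β - γ) with e | e <;> rw [e.1] <;>
      nlinarith [mul_nonneg h.b0 μ0.le, mul_nonneg h.c0 μ0.le]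
  rw [← a1, abs_mul, abs_of_pos (μ0.trans_le a2)] at a3
  nlinarith [mul_le_mul_of_nonneg_right a2 (mul_nonneg (abs_nonneg (α - 1 / (μ + n a))) μ0.le)]

lemma greedy : Gr (Icc 1 r \ {a, b}) 1 0 n x := by
  have a0 := h.bpos
  have μ0 := h.rg.μ0
  refine gr_of_opt (h := hS μ 0 β 0) h.ad (fun i _ s s' hs => ?_)
    (fun i _ j hj hij s s' hs => ?_) fun y' h1 h2 h3 => ?_
  · have a1 := hS_m1 μ0 0 h.b0 le_rfl (n i) hs.le
    have a2 : (s : ℝ) < s' := by exact_mod_cast hs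
    have a3 : 0 < 2 * (s' - s) * β ^ 2 / (μ * (μ + n i)) :=
      div_pos (mul_pos (by linarith) (by positivity)) (by positivity)
    linarith
  · have a1 := hS_m2 (s' := s') (R := 1) (Nat.zero_le 1) h.b0 h.b1 le_rfl
      (by rw [mul_zero]; exact h.b0.trans h.b1) le_rfl (by linarith [h.rg.μ5]) hij
      (h.rg.n3 (h.cl j (mem_J.1 hj).1)) hs
    have a3 : 0 < β / (100 * μ ^ 2) := by positivity
    linarith
  · have e : ∑ i ∈ Icc 1 r \ {a, b}, (y' i : ℝ) = ∑ i ∈ Icc 1 r \ {a, b}, (x i : ℝ) := by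
      exact_mod_cast h3
    have a1 := (h.or n a b y' (h.rg.two_le h.cl) h.ha h.hb h.ab h1 (by rw [e]; exact h.ed)
      α γ β).trans h.up
    rw [PhP, PhP, e] at a1
    simp only [hS, Nat.cast_zero, mul_zero, zero_div, add_zero]
    linarith

end OptP

end Pool.Agent.P.MP_094db5_co

end
end

section

/-! Optimal data of the pair type. -/

set_option autoImplicit false

open Finset Classical

noncomputable section

namespace Pool.Agent.P.MP_094db5_co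

lemma ph2_le {μ : ℝ} (hμ : 2 ≤ μ) (n : ℕ) (α : ℝ) : ph2 μ n α ≤ ph1 μ n 0 := by
  have n0 : (0 : ℝ) ≤ n := Nat.cast_nonneg _
  have : 0 ≤ μ * (μ + n) / (μ + n - 1) * (α - 1 / (μ + n)) ^ 2 :=
    mul_nonneg (div_nonneg (by positivity) (by linarith)) (sq_nonneg _)
  simp only [ph1, ph2, mul_zero, add_zero, ne_eq, OfNat.ofNat_ne_zero, not_false_eq_true, zero_pow,
    zero_div, sub_zero]
  linarith only [this]

lemma ph2_eq' (μ : ℝ) (n : ℕ) (d : ℝ) :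
    ph2 μ n (d + 1 / (μ + n)) = ph1 μ n 0 - μ * (μ + n) / (μ + n - 1) * d ^ 2 := by
  simp [ph1, ph2]

lemma ph2_ge {μ : ℝ} (hμ : 2 ≤ μ) (n : ℕ) (d : ℝ) :
    ph1 μ n 0 - 2 * μ * d ^ 2 ≤ ph2 μ n (d + 1 / (μ + n)) := by
  have n0 : (0 : ℝ) ≤ n := Nat.cast_nonneg _
  have : μ * (μ + n) / (μ + n - 1) ≤ 2 * μ := by
    rw [div_le_iff₀ (by linarith)]
    nlinarith
  rw [ph2_eq']
  linarith [mul_le_mul_of_nonneg_right this (sq_nonneg d)]

lemma inv_step {μ : ℝ} (hμ : 0 < μ) {n n' : ℕ} (h1 : n ≤ n' + 1) (h2 : n' ≤ n + 1) :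
    |1 / (μ + n') - 1 / (μ + n)| * μ ^ 2 ≤ 1 := by
  have a1 : (n : ℝ) ≤ n' + 1 := by exact_mod_cast h1
  have a2 : (n' : ℝ) ≤ n + 1 := by exact_mod_cast h2
  have n0 : (0 : ℝ) ≤ n := Nat.cast_nonneg _
  have n0' : (0 : ℝ) ≤ n' := Nat.cast_nonneg _
  have a3 : |(n : ℝ) - n'| ≤ 1 := abs_le.2 ⟨by linarith, by linarith⟩
  rw [show 1 / (μ + n') - 1 / (μ + n) = (n - n') / ((μ + n') * (μ + n)) by field_simp; ring, abs_div,
    abs_of_pos (show 0 < (μ + n') * (μ + n) by positivity), div_mul_eq_mul_div,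
    div_le_one (by positivity)]
  nlinarith only [mul_le_mul_of_nonneg_right a3 (sq_nonneg μ), mul_nonneg n0 n0', hμ, n0, n0', a3]

lemma Rg.slackP {r : ℕ} {δ ν μ : ℝ} (h : Rg r δ ν μ) {n : ℕ → ℕ}
    (hn : ∀ i ∈ Icc 1 r, Cl δ ν (n i)) {a b : ℕ} (ha : a ∈ Icc 1 r) (hb : b ∈ Icc 1 r)
    (ab : a ≠ b) : th2 r * ν + 3 * r ≤ ∑ i ∈ Icc 1 r \ {a, b}, (n i : ℝ) := by
  have a1 := card_nsmul_le_sum (Icc 1 r \ {a, b}) (fun i => (n i : ℝ)) (ν - δ * ν)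
    fun i hi => Rg.n1 (hn i (mem_J.1 hi).1)
  have a2 : ((Icc 1 r \ {a, b}).card : ℝ) = r - 2 := by
    have : ((Icc 1 r \ {a, b}).card : ℝ) + 2 = r := by exact_mod_cast card_pair_sdiff ha hb ab
    linarith
  rw [nsmul_eq_mul, a2] at a1
  have r0 : (0 : ℝ) < r := by linarith [h.R3]
  have a3 : th2 r ≤ r - 2 - 1 / 3 := by
    rw [th2, div_le_iff₀ r0]
    nlinarith only [h.R3]
  nlinarith only [mul_le_mul_of_nonneg_right a3 h.ν0.le, h.ν1, mul_le_mul_of_nonneg_right h.δ2 h.ν0.le,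
    mul_pos h.δ0 h.ν0, a1, a2, a3]

namespace OptP

variable {r : ℕ} {δ ν μ M : ℝ} {n : ℕ → ℕ} {a b : ℕ} {x : ℕ → ℕ} {α γ β : ℝ}
  (h : OptP r δ ν μ M n a b x α γ β)
include h

theorem bal {N k : ℕ} (hM : M = tu2 r N + 2 * k) (rk : 2 * r ≤ k + 1)
    (hs : ∑ i ∈ Icc 1 r, n i = N) (hd : ∑ i ∈ Icc 1 r \ {a, b}, (x i : ℝ) ≤ th2 r * ν) :
    Bal r N n := by
  have r3 := h.rg.r3
  refine bal_of_close (by omega) hs fun u hu v hv => ?_
  by_contra hn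
  have huv : n v + 2 ≤ n u := by omega
  obtain ⟨n', e1, e2, e3, e4, e5⟩ := exists_move n hu hv huv
  have cl' := cl_move h.cl hu hv huv e1 e2 e3
  have st : ∀ i, n i ≤ n' i + 1 ∧ n' i ≤ n i + 1 := fun i => by
    by_cases p : i = u
    · rw [p]; omega
    · by_cases q : i = v
      · rw [q]; omega
      · rw [e3 i p q]; omega
  obtain ⟨g, hg⟩ : ∃ g, n u = n v + 1 + g := ⟨n u - n v - 1, by omega⟩
  have eg : (n u : ℝ) - n v - 1 = g := by rw [hg]; push_cast; ring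
  have a1 := eK2_le' (e4.trans hs)
  have a2 := h.ed
  have c := card_pair_sdiff h.ha h.hb h.ab
  have a3 : k + g ≤ ∑ i ∈ Icc 1 r \ {a, b}, x i + 1 := by
    exact_mod_cast (by push_cast; linarith only [hM, e5, eg, a1, a2] : ((k + g : ℕ) : ℝ) ≤
      (∑ i ∈ Icc 1 r \ {a, b}, x i + 1 : ℕ))
  obtain ⟨x', y1, y2, y3, y4⟩ := exists_less (n' := n') (u := u) (g := g) h.ad
    (fun i hi => by have := h.rg.two_le cl' i (mem_J.1 hi).1; omega)
    (fun i _ b => by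
      by_cases e : i = v
      · rw [e]; omega
      · rw [e3 i b e])
    (by omega) (by omega) (by omega)
  have y5 : ∑ i ∈ Icc 1 r \ {a, b}, (x' i : ℝ) + g = ∑ i ∈ Icc 1 r \ {a, b}, (x i : ℝ) := by
    exact_mod_cast y4
  obtain ⟨d, hd1⟩ : ∃ d, α = d + 1 / (μ + n a) := ⟨α - 1 / (μ + n a), by ring⟩
  obtain ⟨d', hd2⟩ : ∃ d, γ = d + 1 / (μ + n b) := ⟨γ - 1 / (μ + n b), by ring⟩
  have b1 := (h.or n' a b x' (h.rg.two_le cl') h.ha h.hb h.ab y1 (by rw [← h.ed]; linarith only [e5, eg, y5])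
    (d + 1 / (μ + n' a)) (d' + 1 / (μ + n' b)) β).trans h.up
  obtain ⟨z, z1, z2⟩ : ∃ z : ℕ → ℕ, (∀ i ∈ Icc 1 r \ {a, b}, z i = x i) ∧
      ∀ i ∉ Icc 1 r \ {a, b}, z i = 0 := ⟨fun i => if i ∈ Icc 1 r \ {a, b} then x i else 0,
    fun i hi => if_pos hi, fun i hi => if_neg hi⟩
  have na : a ∉ Icc 1 r \ {a, b} := fun e => (mem_J.1 e).2.1 rfl
  have nb : b ∉ Icc 1 r \ {a, b} := fun e => (mem_J.1 e).2.2 rfl
  have sp := sum_pair_sdiff h.ha h.hb h.ab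
  have b2 := h.rg.move_core (α := β) (s := fun _ => 0) (y := z) (y' := x') h.cl hu hv huv e1 e2 e3
    (fun i _ => by
      by_cases e : i ∈ Icc 1 r \ {a, b}
      · rw [z1 i e]; exact ⟨y2 i e, (h.ad i e).2⟩
      · rw [z2 i e, y3 i e]; exact ⟨le_rfl, Nat.zero_le _⟩)
    (fun _ _ => ⟨le_rfl, h.rg.δ0.le⟩) (by
      rw [sp, sp fun i => (x' i : ℝ), sum_congr rfl fun i hi => by rw [z1 i hi], z2 a na, z2 b nb,
        y3 a na, y3 b nb]
      linarith only [eg, y5]) h.b0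
    (by linarith only [(abs_le.1 (h.stat hd)).2, h.rg.th2_div hd, hd])
  rw [sp, sp fun i => ph1 μ (n' i) (x' i * β + 0), sum_congr rfl fun i hi => by rw [z1 i hi],
    z2 a na, z2 b nb, y3 a na, y3 b nb, eg, mul_div_assoc] at b2
  simp only [Nat.cast_zero, zero_mul, add_zero] at b2
  have μ0 := h.rg.μ0
  have μ5 := h.rg.μ5
  have c1 := ph2_le (μ := μ) (by linarith only [μ5]) (n a) α
  have c2 := ph2_le (μ := μ) (by linarith) (n b) γ
  have c3 := ph2_ge (μ := μ) (by linarith only [μ5]) (n' a) d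
  have c4 := ph2_ge (μ := μ) (by linarith only [μ5]) (n' b) d'
  have c5 := h.dev
  have c6 := h.symm.dev
  have c7 := inv_step μ0 (st a).1 (st a).2
  have c8 := inv_step μ0 (st b).1 (st b).2
  rw [show α - 1 / (μ + n a) = d by linarith only [hd1]] at c5
  rw [show γ - 1 / (μ + n b) = d' by linarith only [hd2]] at c6
  rw [PhP, PhP, ← y5] at b1
  obtain ⟨s, hs1⟩ : ∃ s, 1 / (μ + n' a) = 1 / (μ + n a) + s := ⟨_, (add_sub_cancel _ _).symm⟩
  obtain ⟨s', hs2⟩ : ∃ s, 1 / (μ + n' b) = 1 / (μ + n b) + s := ⟨_, (add_sub_cancel _ _).symm⟩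
  rw [hs1, add_sub_cancel_left] at c7
  rw [hs2, add_sub_cancel_left] at c8
  have f1 : d + 1 / (μ + n' a) = α + s := by linarith only [hd1, hs1]
  have f2 : d' + 1 / (μ + n' b) = γ + s' := by linarith only [hd2, hs2]
  generalize ph2 μ (n' a) (d + 1 / (μ + n' a)) = P at *
  generalize ph2 μ (n' b) (d' + 1 / (μ + n' b)) = P' at *
  rw [f1, f2] at b1
  have g1 : (1 : ℝ) ≤ g := by exact_mod_cast (by omega : 1 ≤ g)
  have i1 := h.rg.inv1 h.a1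
  have i2 := h.rg.inv1 h.c1
  have i3 := h.rg.inv1 h.b1
  have j1 := mul_nonneg h.a0 μ0.le
  have j2 := mul_nonneg h.c0 μ0.le
  have j3 := mul_nonneg h.b0 μ0.le
  have k1 : ∀ t : ℝ, |t| * μ ^ 2 ≤ 2 → 2 * μ * t ^ 2 * μ ^ 3 ≤ 8 := fun t ht => by
    have := pow_le_pow_left₀ (by positivity) ht 2
    rw [mul_pow, sq_abs] at this
    linarith only [this]
  have k2 : ∀ t u : ℝ, |t| * μ ^ 2 ≤ 1 → |u| * μ ≤ 2 → t * u * μ ^ 3 ≤ 2 := fun t u ht hu => by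
    have := mul_le_mul ht hu (by positivity) (by norm_num)
    have e := mul_le_mul_of_nonneg_right (le_abs_self (t * u)) (pow_pos μ0 3).le
    rw [abs_mul] at e
    linarith only [this, e]
  have k3 : |s'| * μ ≤ 1 / 100 := by nlinarith only [abs_nonneg s', mul_nonneg (abs_nonneg s') μ0.le, μ0, μ5, c8]
  have k4 := k2 s (γ + s' - β) c7 (by
    have := abs_le.1 (show |s' * μ| ≤ 1 / 100 by rwa [abs_mul, abs_of_pos μ0])
    rw [← abs_of_pos μ0, ← abs_mul]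
    exact abs_le.2 ⟨by linarith only [i3, j2, this], by linarith only [i2, j3, this]⟩)
  have k5 := k2 s' (α - β) c8 (by
    rw [← abs_of_pos μ0, ← abs_mul]
    exact abs_le.2 ⟨by linarith only [i3, j1], by linarith only [i1, j3]⟩)
  have k6 : β ^ 2 / μ * μ ^ 3 ≤ 2 := by
    rw [show β ^ 2 / μ * μ ^ 3 = (β * μ) ^ 2 by field_simp]
    nlinarith only [i3, j3]
  obtain ⟨E, hE⟩ : ∃ E, E = 2 * μ * d ^ 2 + 2 * μ * d' ^ 2 + 2 * (s * (γ + s' - β)) +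
    2 * (s' * (α - β)) := ⟨_, rfl⟩
  have l1 : E * μ ^ 3 ≤ 24 := by rw [hE]; linarith only [k1 d c5, k1 d' c6, c5, c6, k4, k5]
  have l2 := h.rg.tiny (E := max E 0 + β ^ 2 / μ) (by
    rcases le_total E 0 with e | e
    · rw [max_eq_right e]; linarith only [k6]
    · rw [max_eq_left e]; linarith only [k6, l1])
  have l3 := mul_lt_mul_of_pos_left l2 (show (0 : ℝ) < g by linarith only [g1])
  have l4 := mul_le_mul_of_nonneg_right g1 (le_max_right E 0)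
  have l5 := le_max_left E 0
  have l6 : (∑ i ∈ Icc 1 r \ {a, b}, (x' i : ℝ) + g) * β ^ 2 / μ =
    (∑ i ∈ Icc 1 r \ {a, b}, (x' i : ℝ)) * β ^ 2 / μ + g * (β ^ 2 / μ) := by ring
  linarith only [b2, c1, c2, c3, c4, b1, hE, l3, l4, l5, l6]

theorem largest {N : ℕ} (hb : Bal r N n)
    (hd : ∑ i ∈ Icc 1 r \ {a, b}, (x i : ℝ) ≤ th2 r * ν) : ∀ i ∈ Icc 1 r \ {a, b}, n i ≤ n a := by
  intro j hj
  by_contra c0
  have c1 : n a < n j := not_le.1 c0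
  obtain ⟨hj1, ja, jb⟩ := mem_J.1 hj
  have adj := h.ad j hj
  have c3 : x j ≤ n a := by
    by_contra hn
    have b1 : ∑ i ∈ Icc 1 r \ {a, b}, (n i : ℝ) ≤ ∑ i ∈ Icc 1 r \ {a, b}, ((x i : ℝ) + 1) := by
      refine sum_le_sum fun i hi => ?_
      have := hb.1 j hj1
      have := hb.1 a h.ha
      have := hb.1 i (mem_J.1 hi).1
      have := h.rg.two_le h.cl a h.ha
      have := h.greedy i hi j hj
      exact_mod_cast (by omega : n i ≤ x i + 1)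
    have b2 : ((Icc 1 r \ {a, b}).card : ℝ) + 2 = r := by
      exact_mod_cast card_pair_sdiff h.ha h.hb h.ab
    rw [sum_add_distrib, sum_const, nsmul_eq_mul] at b1
    linarith [h.rg.slackP h.cl h.ha h.hb h.ab, h.rg.R3]
  obtain ⟨x', e1, e3⟩ : ∃ x' : ℕ → ℕ, x' a = x j ∧ ∀ i, i ≠ a → x' i = x i :=
    ⟨Function.update x a (x j), by simp, fun i b => Function.update_of_ne b _ _⟩
  have aj : a ∈ Icc 1 r \ {j, b} := mem_J.2 ⟨h.ha, ja.symm, h.ab⟩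
  have s0 : ∀ f : ℕ → ℕ → ℝ, ∑ i ∈ Icc 1 r \ {j, b}, f i (x' i) =
      ∑ i ∈ Icc 1 r \ {a, b}, f i (x i) + f a (x j) - f j (x j) := fun f => by
    rw [← add_sum_erase _ _ aj, ← add_sum_erase _ (fun i => f i (x i)) hj, e1,
      show (Icc 1 r \ {a, b}).erase j = (Icc 1 r \ {j, b}).erase a by
        ext i; simp only [mem_erase, mem_J]; tauto,
      sum_congr rfl fun i hi => by rw [e3 i (ne_of_mem_erase hi)]]
    ring
  have s1 := s0 fun _ s => (s : ℝ)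
  rw [add_sub_cancel_right] at s1
  obtain ⟨d, hd1⟩ : ∃ d, α = d + 1 / (μ + n a) := ⟨α - 1 / (μ + n a), by ring⟩
  have b1 := (h.or n j b x' (h.rg.two_le h.cl) hj1 h.hb jb (fun i hi => by
    by_cases p : i = a
    · rw [p, e1]; omega
    · rw [e3 i p]; exact h.ad i (mem_J.2 ⟨(mem_J.1 hi).1, p, (mem_J.1 hi).2.2⟩))
    (by rw [s1]; exact h.ed) (d + 1 / (μ + n j)) γ β).trans h.up
  have μ0 := h.rg.μ0
  have μ5 := h.rg.μ5
  rw [PhP, PhP, s1, s0 fun i s => ph1 μ (n i) (s * β), ph2_eq', hd1, ph2_eq'] at b1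
  have b2 := ph1_swap μ0 (n a) (n j) (x j * β) 0
  have n0 : (0 : ℝ) ≤ n a := Nat.cast_nonneg _
  have c4 : (n a : ℝ) < n j := by exact_mod_cast c1
  have b3 : μ * (μ + n j) / (μ + n j - 1) ≤ μ * (μ + n a) / (μ + n a - 1) := by
    rw [div_le_div_iff₀ (by linarith) (by linarith)]
    nlinarith only [μ0, c4]
  have b4 := mul_le_mul_of_nonneg_right b3 (sq_nonneg d)
  have b5 : 0 < (x j * β - 0) * (2 * μ - x j * β - 0) / μ + 2 * (γ - β) := by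
    have f1 : β ≤ x j * β := le_mul_of_one_le_left h.b0 (by exact_mod_cast adj.1)
    have f2 := h.hF j hj
    have f3 := (abs_le.1 ((le_div_iff₀ (by positivity)).2 h.symm.dev)).1
    have f4 : 1 / (2 * μ) ≤ 1 / (μ + n b) :=
      one_div_le_one_div_of_le (by positivity) (by linarith [h.rg.n3 (h.cl b h.hb)])
    have f5 : 2 / μ ^ 2 ≤ 1 / (4 * μ) := by
      rw [div_le_div_iff₀ (by positivity) (by positivity)]; nlinarith only [μ0, μ5]
    have f6 : 1 / (4 * μ) ≤ γ := by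
      have : 1 / (2 * μ) = 2 * (1 / (4 * μ)) := by field_simp; ring
      linarith only [f3, f4, f5, this]
    rw [div_le_iff₀ (by positivity)] at f6
    have f7 : β ≤ 1 / 100 := by nlinarith only [h.rg.inv1 h.b1, h.b0, μ0, μ5]
    generalize x j * β = F at *
    rw [show (F - 0) * (2 * μ - F - 0) / μ + 2 * (γ - β) =
      (F * (2 * μ - F) + 2 * (γ - β) * μ) / μ by field_simp; ring]
    refine div_pos ?_ μ0
    nlinarith only [mul_nonneg (sub_nonneg.2 f1) (show 0 ≤ 2 * μ - F - β by linarith only [μ5, f7, f2]), h.b0, μ5, f6, f7, f1, f2]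
  have b6 := mul_pos (inv_lt μ0 c1) b5
  linarith only [b1, b2, b4, b6]

end OptP

end Pool.Agent.P.MP_094db5_co

end
end

section

/-! Comparison of the star type and the pair type. -/

set_option autoImplicit false

open Finset Classical

noncomputable section

namespace Pool.Agent.P.MP_094db5_co

lemma ph1_sub {μ : ℝ} (μ0 : 0 < μ) (n : ℕ) (s t θ : ℝ) : ph1 μ n (s * θ) - ph1 μ n (t * θ) =
    (s - t) * (θ * (2 - (s + t) * θ / μ) * (1 / (μ + n))) := by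
  have : (0 : ℝ) < μ + n := by positivity
  unfold ph1
  field_simp
  ring

lemma sum_ph1_const {μ : ℝ} (J : Finset ℕ) {n : ℕ → ℕ} {m : ℕ} (h : ∀ i ∈ J, n i = m) (y : ℕ → ℕ)
    (θ : ℝ) : ∑ i ∈ J, ph1 μ (n i) (y i * θ) = (J.card * m + 2 * θ * ∑ i ∈ J, (y i : ℝ) -
      θ ^ 2 * (∑ i ∈ J, (y i : ℝ) ^ 2) / μ) * (1 / (μ + m)) := by
  rw [sum_congr rfl (g := fun i => (m + 2 * θ * (y i : ℝ) - θ ^ 2 * (y i : ℝ) ^ 2 / μ) * (1 / (μ + m)))
    fun i hi => by rw [h i hi, ph1]; ring, ← sum_mul]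
  simp only [sum_add_distrib, sum_sub_distrib, ← mul_sum, ← sum_div, sum_const, nsmul_eq_mul]

lemma exists_even {J : Finset ℕ} (hJ : 0 < J.card) {T : ℕ} (hT : J.card ≤ T) :
    ∃ y : ℕ → ℕ, (∀ i ∈ J, 1 ≤ y i ∧ (y i : ℝ) ≤ T / J.card + 1) ∧ (∀ i ∉ J, y i = 0) ∧
      ∑ i ∈ J, y i = T ∧ ∑ i ∈ J, (y i : ℝ) ^ 2 ≤ T ^ 2 / J.card + T := by
  obtain ⟨y, y1, y2, y3⟩ := exists_mid J (fun _ => T / J.card) (fun _ => T / J.card + 1)
    (fun _ _ => by omega) T (by simpa using Nat.mul_div_le T J.card)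
    (by simpa using (Nat.lt_mul_div_succ T hJ).le)
  have a1 : ∀ i ∈ J, (y i : ℝ) ≤ T / J.card + 1 := fun i hi => by
    have : (y i : ℝ) ≤ (T / J.card : ℕ) + 1 := by exact_mod_cast (y1 i hi).2
    linarith only [Nat.cast_div_le (α := ℝ) (m := T) (n := J.card), this]
  refine ⟨y, fun i hi => ⟨((Nat.one_le_div_iff hJ).2 hT).trans (y1 i hi).1, a1 i hi⟩, y2, y3, ?_⟩
  calc ∑ i ∈ J, (y i : ℝ) ^ 2 ≤ ∑ i ∈ J, (y i : ℝ) * (T / J.card + 1) :=
        sum_le_sum fun i hi => by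
          rw [sq]; exact mul_le_mul_of_nonneg_left (a1 i hi) (Nat.cast_nonneg _)
    _ = _ := by rw [← sum_mul, ← Nat.cast_sum, y3]; ring

lemma sq_div_le {J : Finset ℕ} (hJ : 0 < J.card) (y : ℕ → ℕ) :
    (∑ i ∈ J, (y i : ℝ)) ^ 2 / J.card ≤ ∑ i ∈ J, (y i : ℝ) ^ 2 := by
  rw [div_le_iff₀ (by exact_mod_cast hJ), mul_comm]
  exact sq_sum_le_card_mul_sum_sq

lemma g5a_core {R δ b B A Γ W D : ℝ} (R3 : 3 ≤ R) (δ0 : 0 < δ) (δ1 : 9000 * δ ≤ 1)
    (hB : |B - b| ≤ 6 * δ) (B0 : 0 ≤ B) (B1 : B ≤ 1) (b1 : b ≤ 1) (hA : |A - 1| ≤ 2 * δ)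
    (hΓ : |Γ - 1| ≤ 2 * δ) (W0 : 0 ≤ W) (W1 : W ≤ 1)
    (hD : -(2 * B * (R - 1)) + B ^ 2 * W - 5 * (R * δ) ≤ D)
    (h : D - δ + 2 * A * Γ - 2 * B * (A + Γ) ≤ 0) :
    -(30 * (R * δ)) ≤ (R + 1) * b - 1 - b ^ 2 * W / 2 := by
  obtain ⟨a1, a2⟩ := abs_le.1 hB
  obtain ⟨a3, a4⟩ := abs_le.1 hA
  obtain ⟨a5, a6⟩ := abs_le.1 hΓ
  have c1 : 1 - 4 * δ ≤ A * Γ := by
    nlinarith only [mul_le_mul (show 1 - 2 * δ ≤ A by linarith) (show 1 - 2 * δ ≤ Γ by linarith)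
      (by linarith) (by linarith), sq_nonneg δ, δ0, δ1, a3, a5]
  have c2 : B * (A + Γ) ≤ 2 * B + 4 * δ := by nlinarith only [δ0, δ1, B0, B1, a4, a6]
  have c3 : b ^ 2 - 12 * δ ≤ B ^ 2 := by nlinarith only [δ0, δ1, B0, b1, a1, a2]
  have c4 : b ^ 2 * W - 12 * δ ≤ B ^ 2 * W := by nlinarith only [mul_le_mul_of_nonneg_right c3 W0, δ0, W0, W1, c3]
  nlinarith only [mul_le_mul_of_nonneg_left a2 (show 0 ≤ R + 1 by linarith), R3, δ0, δ1, hD, h, a2, c1, c2, c4]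

lemma g5b_core {R δ b A p q W D : ℝ} (R3 : 3 ≤ R) (δ0 : 0 < δ) (δ1 : 9000 * δ ≤ 1)
    (hA : |A - b| ≤ 6 * δ) (A0 : 0 ≤ A) (A1 : A ≤ 1) (b1 : b ≤ 1) (hp : |p - 1| ≤ δ)
    (hq : |q - 1| ≤ δ) (W0 : 0 ≤ W) (W1 : W ≤ 1)
    (hD : 2 * A * (R - 1) - A ^ 2 * W - 5 * (R * δ) ≤ D)
    (h : D - 2 * p * q + 2 * A * (p + q) - 10 * (R * δ) ≤ 0) :
    (R + 1) * b - 1 - b ^ 2 * W / 2 ≤ 30 * (R * δ) := by
  obtain ⟨a1, a2⟩ := abs_le.1 hA
  obtain ⟨a3, a4⟩ := abs_le.1 hp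
  obtain ⟨a5, a6⟩ := abs_le.1 hq
  have c1 : p * q ≤ 1 + 3 * δ := by
    nlinarith only [mul_le_mul (show p ≤ 1 + δ by linarith) (show q ≤ 1 + δ by linarith)
      (by linarith) (by linarith), δ0, δ1, a4, a5, a6]
  have c2 : 2 * A - 2 * δ ≤ A * (p + q) := by nlinarith only [δ0, δ1, A0, A1, a3, a5]
  have c3 : A ^ 2 ≤ b ^ 2 + 12 * δ := by nlinarith only [δ0, δ1, A0, A1, b1, a1, a2]
  have c4 : A ^ 2 * W ≤ b ^ 2 * W + 12 * δ := by nlinarith only [mul_le_mul_of_nonneg_right c3 W0, δ0, W0, W1, c3]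
  nlinarith only [mul_le_mul_of_nonneg_left a1 (show 0 ≤ R + 1 by linarith), R3, δ0, δ1, hD, h, a1, c1, c2, c4]

namespace Rg

variable {r : ℕ} {δ ν μ : ℝ} (h : Rg r δ ν μ)
include h

lemma pL {n : ℕ} (hn : Cl δ ν n) : |1 / (μ + n) * (μ + ν) - 1| ≤ δ := by
  have a1 := h.p1 hn
  have a2 := h.p2 hn
  rw [div_le_iff₀ h.L0] at a1
  rw [le_div_iff₀ h.L0] at a2
  exact abs_le.2 ⟨by linarith, by linarith⟩

lemma q1 : (1 - 2 * δ) / (r * (r - 1)) ≤ ν ^ 2 / (μ * (μ + ν)) := by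
  have r1 : (0 : ℝ) < r - 1 := by linarith [h.R3]
  have := h.μ0
  have := h.ν0
  have := h.L0
  have := h.δ0
  have := h.δ3
  have a1 : μ ≤ (r - 1) * ν * (1 + δ) := by nlinarith [h.μ2, h.R3, mul_pos h.δ0 h.ν0]
  rw [div_le_div_iff₀ (by nlinarith) (by positivity)]
  calc (1 - 2 * δ) * (μ * (μ + ν)) ≤ (1 - 2 * δ) * ((r - 1) * ν * (1 + δ) * (r * (1 + δ) * ν)) := by
        have : 0 ≤ 1 - 2 * δ := by linarith
        gcongr
        exact h.L1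
    _ = (1 - 2 * δ) * (1 + δ) ^ 2 * (ν ^ 2 * (r * (r - 1))) := by ring
    _ ≤ 1 * (ν ^ 2 * (r * (r - 1))) := by
        refine mul_le_mul_of_nonneg_right ?_ (by have := h.R3; positivity)
        nlinarith only [mul_pos h.δ0 (mul_pos h.δ0 h.δ0), sq_nonneg δ]
    _ = _ := one_mul _

lemma q2 : ν ^ 2 / (μ * (μ + ν)) ≤ (1 + 3 * δ) / (r * (r - 1)) := by
  have r1 : (0 : ℝ) < r - 1 := by linarith [h.R3]
  have := h.μ0
  have := h.ν0
  have := h.L0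
  have := h.δ0
  have := h.δ3
  have := h.R3
  have a1 : (r - 1) * ν * (1 - δ) ≤ μ := by nlinarith [h.μ1, h.R3, mul_pos h.δ0 h.ν0]
  rw [div_le_div_iff₀ (by positivity) (by nlinarith)]
  have b0 : 0 ≤ 1 - δ := by linarith
  calc ν ^ 2 * (r * (r - 1)) = 1 * (ν ^ 2 * (r * (r - 1))) := (one_mul _).symm
    _ ≤ (1 + 3 * δ) * (1 - δ) ^ 2 * (ν ^ 2 * (r * (r - 1))) := by
        refine mul_le_mul_of_nonneg_right ?_ (by positivity)
        nlinarith [mul_pos h.δ0 (mul_pos h.δ0 h.δ0), sq_nonneg δ]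
    _ = (1 + 3 * δ) * ((r - 1) * ν * (1 - δ) * (r * (1 - δ) * ν)) := by ring
    _ ≤ _ := by gcongr; exact h.L2

lemma q3 {t : ℝ} (ht : t ≤ 10 * r * ν) : t / (μ * (μ + ν)) ≤ δ := by
  rw [div_le_iff₀ (mul_pos h.μ0 h.L0)]
  have a1 := mul_le_mul_of_nonneg_right h.big h.ν0.le
  have a2 : ν * ν ≤ μ * (μ + ν) :=
    mul_le_mul (by linarith [h.μ3, h.ν0]) (by linarith [h.μ0]) h.ν0.le h.μ0.le
  nlinarith [mul_le_mul_of_nonneg_left a2 h.δ0.le]

lemma kb {k d A : ℝ} (hk : k ≤ th2 r * ν) (h1 : d ≤ k) (h2 : k ≤ d + r)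
    (hA : |A - d / ((r - 1) * ν)| ≤ 5 * δ) :
    |A - k / ν / (r - 1)| ≤ 6 * δ ∧ A ≤ 1 ∧ k / ν / (r - 1) ≤ 1 := by
  have c0 : 0 < (r - 1) * ν := mul_pos (by linarith [h.R3]) h.ν0
  have a1 := h.th2_div hk
  have a2 : d / ((r - 1) * ν) ≤ k / ((r - 1) * ν) := div_le_div_of_nonneg_right h1 c0.le
  have a3 : k / ((r - 1) * ν) ≤ d / ((r - 1) * ν) + δ := by
    rw [div_add' _ _ _ c0.ne', div_le_div_iff_of_pos_right c0]
    nlinarith only [h.big, h.R3, mul_pos h.δ0 h.ν0, h2]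
  have a4 : 5 * δ ≤ 2 / r := by
    rw [le_div_iff₀ (by linarith [h.R3])]
    linarith only [h.δ2]
  obtain ⟨b1, b2⟩ := abs_le.1 hA
  rw [div_div, mul_comm ν]
  exact ⟨abs_le.2 ⟨by linarith only [a3, b1], by linarith only [h.δ0, a2, a3, b2]⟩, by linarith, by linarith only [h.δ0, a1, a2, a3, a4]⟩

lemma Wb {k : ℝ} (k0 : 0 ≤ k) (hk : k ≤ th2 r * ν) :
    0 ≤ (k / ν) ^ 2 / (r * (r - 1) ^ 2 * (r - 2)) ∧
      (k / ν) ^ 2 / (r * (r - 1) ^ 2 * (r - 2)) ≤ 1 := by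
  have R3 := h.R3
  have r2 : (0 : ℝ) < r - 2 := by linarith
  have r1 : (0 : ℝ) < r - 1 := by linarith
  have a1 : k / ν ≤ r - 2 := by rw [div_le_iff₀ h.ν0]; linarith [h.th2_le]
  have a2 := pow_le_pow_left₀ (div_nonneg k0 h.ν0.le) a1 2
  refine ⟨by positivity, (div_le_one (by positivity)).2 (a2.trans ?_)⟩
  rw [sq]
  refine mul_le_mul_of_nonneg_right ?_ r2.le
  nlinarith only [R3]

/-- the quadratic term for equal part sizes -/
lemma quad {k S : ℝ} (k0 : 0 ≤ k) (hk : k ≤ th2 r * ν) :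
    (k ^ 2 / ((r - 1) * (r - 2)) - 4 * k ≤ S →
      (k / ν) ^ 2 / (r * (r - 1) ^ 2 * (r - 2)) - 3 * δ ≤ S / (μ * (μ + ν))) ∧
    (S ≤ k ^ 2 / ((r - 1) * (r - 2)) + 4 * k →
      S / (μ * (μ + ν)) ≤ (k / ν) ^ 2 / (r * (r - 1) ^ 2 * (r - 2)) + 4 * δ) := by
  have R3 := h.R3
  have r2 : (0 : ℝ) < r - 2 := by linarith
  have r1 : (0 : ℝ) < r - 1 := by linarith
  have ν0 := h.ν0
  have c0 := mul_pos h.μ0 h.L0
  have a1 := h.q3 (t := 4 * k) (by nlinarith only [h.th2_le, k0, hk, ν0])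
  have a2 := h.Wb k0 hk
  have a3 : k ^ 2 / ((r - 1) * (r - 2)) / (μ * (μ + ν)) =
      (k / ν) ^ 2 / ((r - 1) * (r - 2)) * (ν ^ 2 / (μ * (μ + ν))) := by field_simp
  have a4 : 0 ≤ (k / ν) ^ 2 / ((r - 1) * (r - 2)) := by positivity
  have a5 := mul_le_mul_of_nonneg_left h.q1 a4
  have a6 := mul_le_mul_of_nonneg_left h.q2 a4
  have a7 : ∀ t : ℝ, (k / ν) ^ 2 / ((r - 1) * (r - 2)) * (t / (r * (r - 1))) =
      (k / ν) ^ 2 / (r * (r - 1) ^ 2 * (r - 2)) * t := fun t => by field_simp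
  rw [a7] at a5 a6
  refine ⟨fun e => ?_, fun e => ?_⟩
  · have := div_le_div_of_nonneg_right e c0.le
    rw [sub_div, a3] at this
    nlinarith only [mul_le_mul_of_nonneg_right a2.2 h.δ0.le, a1, a2, a5, this]
  · have := div_le_div_of_nonneg_right e c0.le
    rw [add_div, a3] at this
    nlinarith only [mul_le_mul_of_nonneg_right a2.2 h.δ0.le, a1, a2, a6, this]

end Rg

lemma phi_eq {r N k : ℕ} {ν : ℝ} (hN : ν = N / r) : phi r N k = (r + 1) * (k / ν / (r - 1)) - 1 -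
    (k / ν / (r - 1)) ^ 2 *
      (if N % r ≤ 1 then (k / ν) ^ 2 / (r * (r - 1) ^ 2 * (r - 2)) else 0) / 2 := by
  have e : (k * r / N : ℝ) = k / ν := by rw [hN, div_div_eq_mul_div]
  rw [phi, e]
  split_ifs
  · simp only [div_eq_mul_inv, mul_inv, ← inv_pow]; ring
  · ring

lemma Bal.small {r N a : ℕ} {n : ℕ → ℕ} (h : Bal r N n) (hq : N % r ≤ 1) (ha : a ∈ Icc 1 r)
    (hm : ∀ i ∈ Icc 1 r, n i ≤ n a) : ∀ i ∈ (Icc 1 r).erase a, n i = N / r := by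
  intro i hi
  have hi' := mem_of_mem_erase hi
  by_contra hn
  have a1 := h.1 i hi'
  have a2 := h.1 a ha
  have a3 := hm i hi'
  have a4 : ({i, a} : Finset ℕ) ⊆ (Icc 1 r).filter fun i => n i = N / r + 1 := fun j hj => by
    rcases mem_insert.1 hj with e | e
    · rw [e]; exact mem_filter.2 ⟨hi', by omega⟩
    · rw [mem_singleton.1 e]; exact mem_filter.2 ⟨ha, by omega⟩
  have := card_le_card a4
  rw [card_pair (ne_of_mem_erase hi), h.card] at this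
  omega

lemma erase_eq {r a b : ℕ} : (Icc 1 r \ {a, b}) = ((Icc 1 r).erase a).erase b := by
  ext i; simp only [mem_erase, mem_J]; tauto

end Pool.Agent.P.MP_094db5_co

end
end

section

/-! The sign of the deciding function. -/

set_option autoImplicit false

open Finset Classical

noncomputable section

namespace Pool.Agent.P.MP_094db5_co

lemma sum_er {r a b : ℕ} (hb : b ∈ (Icc 1 r).erase a) (f : ℕ → ℝ) :
    ∑ i ∈ (Icc 1 r).erase a, f i = ∑ i ∈ Icc 1 r \ {a, b}, f i + f b := by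
  rw [erase_eq, add_comm, add_sum_erase _ _ hb]

theorem OptP.phi_ge {r bk g₀ N k : ℕ} {δ ν μ M : ℝ} {n : ℕ → ℕ} {a b : ℕ} {x : ℕ → ℕ} {α γ β : ℝ}
    (h : OptP r δ ν μ M n a b x α γ β) (hN : ν = N / r) (hM : M = tu2 r N + 2 * k)
    (rk : 2 * r ≤ k + 1) (hk : (k : ℝ) ≤ th2 r * ν) (hb : Bal r N n)
    (hm : ∀ i ∈ Icc 1 r, n i ≤ n a) (o : OrS r bk g₀ 0 μ M) : -(30 * (r * δ)) ≤ phi r N k := by
  have rg := h.rg
  have μ0 := rg.μ0
  have L0 := rg.L0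
  have R3 := rg.R3
  have r3 := rg.r3
  have δ0 := rg.δ0
  have δ3 := rg.δ3
  have k0 : (0 : ℝ) ≤ k := Nat.cast_nonneg _
  have ex : ∑ i ∈ Icc 1 r \ {a, b}, (x i : ℝ) = k - 1 := by linarith only [h.ed, hb.eK2, hM]
  have ex' : ∑ i ∈ Icc 1 r \ {a, b}, x i + 1 = k := by
    exact_mod_cast (by push_cast; linarith : ((∑ i ∈ Icc 1 r \ {a, b}, x i + 1 : ℕ) : ℝ) = k)
  have st := h.stat (by linarith)
  rw [ex] at st
  obtain ⟨s1, s2, s3⟩ := rg.kb hk (by linarith) (by linarith) st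
  have hba : b ∈ (Icc 1 r).erase a := mem_erase.2 ⟨h.ab.symm, h.hb⟩
  have B0 := mul_nonneg h.b0 L0.le
  have ent : ∀ {a b : ℕ} {α γ : ℝ}, OptP r δ ν μ M n a b x α γ β → |α * (μ + ν) - 1| ≤ 2 * δ := by
    intro a b α γ h
    have a1 := abs_le.1 (rg.pL (h.cl a h.ha))
    have a2 : |α - 1 / (μ + n a)| * (μ + ν) ≤ δ := by
      refine le_of_mul_le_mul_right ?_ (pow_pos μ0 2)
      have b1 := mul_le_mul_of_nonneg_right h.dev L0.le
      have b2 : 4 ≤ δ * μ := by nlinarith only [rg.big, rg.μ3, μ0, L0, R3, δ0]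
      nlinarith only [rg.L3, mul_le_mul_of_nonneg_right b2 μ0.le, μ0, b1, b2]
    rw [← abs_of_pos L0, ← abs_mul, sub_mul] at a2
    have a3 := abs_le.1 a2
    exact abs_le.2 ⟨by linarith, by linarith⟩
  have key : ∀ (y : ℕ → ℕ) (W : ℝ), DatS r bk 0 n a y → ∑ i ∈ (Icc 1 r).erase a, y i + r = k →
      0 ≤ W → W ≤ 1 → -(2 * (β * (μ + ν)) * (r - 1)) + (β * (μ + ν)) ^ 2 * W - 5 * (r * δ) ≤
        (∑ i ∈ (Icc 1 r).erase a, ph1 μ (n i) (y i * β) -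
          (∑ i ∈ Icc 1 r \ {a, b}, ph1 μ (n i) (x i * β) + ph1 μ (n b) 0)) * (μ + ν) ^ 2 →
      -(30 * (r * δ)) ≤ (r + 1) * (k / ν / (r - 1)) - 1 - (k / ν / (r - 1)) ^ 2 * W / 2 := by
    intro y W hy e W0 W1 hD
    have e' : ((∑ i ∈ (Icc 1 r).erase a, y i : ℕ) : ℝ) = k - r := by rw [← e]; push_cast; ring
    have e'' := e'
    push_cast at e''
    have a1 := (o n a y (rg.two_le h.cl) hy (rg.room h.cl h.ha (by linarith))
      (by rw [hy.sum_eq, hb.eK2]; linarith) β 0).trans h.up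
    rw [PhK_eq h.ha _ _ _ _ hy.ya, PhP, e', ex] at a1
    simp only [hS, mul_zero, add_zero, zero_div, ne_eq, OfNat.ofNat_ne_zero, not_false_eq_true,
      zero_pow, sub_zero] at a1
    have a2 := ph2_le (μ := μ) (by linarith [rg.μ5]) (n a) α
    have a3 := ph2_le (μ := μ) (by linarith [rg.μ5]) (n b) γ
    refine g5a_core R3 δ0 δ3 s1 B0 s2 s3 (ent h) (ent h.symm) W0 W1 hD ?_
    have a4 : (r - 1) * (β * (μ + ν)) ^ 2 / μ ≤ δ := by
      rw [div_le_iff₀ μ0]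
      have : (β * (μ + ν)) ^ 2 ≤ 1 := by nlinarith only [δ0, δ3, s2, B0]
      nlinarith only [rg.big, rg.μ3, R3, δ0, δ3, this]
    have a5 : (∑ i ∈ (Icc 1 r).erase a, ph1 μ (n i) (y i * β) -
        (∑ i ∈ Icc 1 r \ {a, b}, ph1 μ (n i) (x i * β) + ph1 μ (n b) 0) - (r - 1) * β ^ 2 / μ +
        2 * α * γ - 2 * β * (α + γ)) * (μ + ν) ^ 2 ≤ 0 := by
      refine mul_nonpos_of_nonpos_of_nonneg ?_ (sq_nonneg _)
      have : (k - r) * β ^ 2 / μ = (k - 1) * β ^ 2 / μ - (r - 1) * β ^ 2 / μ := by ring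
      linarith
    have a6 : (r - 1) * β ^ 2 / μ * (μ + ν) ^ 2 = (r - 1) * (β * (μ + ν)) ^ 2 / μ := by ring
    linarith
  have cJ := card_pair_sdiff h.ha h.hb h.ab
  have cE := card_er h.ha
  rw [phi_eq hN]
  split_ifs with hq
  · have sm := hb.small hq h.ha hm
    have cl := h.cl b h.hb
    obtain ⟨y, y1, y2, y3, y4⟩ := exists_even (J := (Icc 1 r).erase a) (by omega) (T := k - r)
      (by omega)
    have cE' : (((Icc 1 r).erase a).card : ℝ) = r - 1 := by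
      have : (((Icc 1 r).erase a).card : ℝ) + 1 = r := by exact_mod_cast cE
      linarith only [this]
    have cJ' : ((Icc 1 r \ {a, b}).card : ℝ) = r - 2 := by
      have : ((Icc 1 r \ {a, b}).card : ℝ) + 2 = r := by exact_mod_cast cJ
      linarith only [this]
    have ek : ((k - r : ℕ) : ℝ) = k - r := Nat.cast_sub (by omega)
    have rk' : (2 * r : ℝ) ≤ k + 1 := by exact_mod_cast rk
    rw [ek, cE'] at y1 y4
    have Wb := rg.Wb k0 hk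
    refine key y _ ⟨h.ha, y2 a (notMem_erase _ _), fun i hi => ⟨by have := (y1 i hi).1; omega, ?_⟩⟩
      (by omega) Wb.1 Wb.2 ?_
    · have a1 := rg.slack (n := fun _ => n i) (fun _ _ => h.cl i (mem_of_mem_erase hi)) h.ha
      rw [sum_const, nsmul_eq_mul, cE'] at a1
      have a2 : ((k : ℝ) - r) / (r - 1) + 1 ≤ n i := by
        rw [div_add_one (by linarith only [R3, δ0, δ3]), div_le_iff₀ (by linarith)]
        linarith
      exact_mod_cast (y1 i hi).2.trans a2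
    · have a1 := sum_ph1_const (μ := μ) _ sm y β
      have a2 := sum_ph1_const (μ := μ) (Icc 1 r \ {a, b}) (n := n) (m := N / r)
        (fun i hi => sm i (mem_erase.2 ⟨(mem_J.1 hi).2.1, (mem_J.1 hi).1⟩)) x β
      have a3 := sq_div_le (J := Icc 1 r \ {a, b}) (by omega) x
      have a4 := abs_le.1 (rg.pL cl)
      rw [a1, a2, ph1, sm b hba, cE', cJ', ex, ← Nat.cast_sum, y3, ek]
      rw [cJ', ex] at a3
      rw [sm b hba] at a4
      have a5 := (rg.quad (S := ∑ i ∈ Icc 1 r \ {a, b}, (x i : ℝ) ^ 2 -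
        ∑ i ∈ (Icc 1 r).erase a, (y i : ℝ) ^ 2) k0 hk).1 (by
          have b1 : (k : ℝ) ^ 2 / ((r - 1) * (r - 2)) = k ^ 2 / (r - 2) - k ^ 2 / (r - 1) := by
            rw [div_sub_div _ _ (by linarith only [R3, δ0, δ3]) (by linarith only [R3, δ0, δ3]), mul_comm ((r : ℝ) - 2) (r - 1)]
            congr 1; ring
          have b2 : (k : ℝ) ^ 2 / (r - 2) - 2 * k ≤ (k - 1) ^ 2 / (r - 2) := by
            rw [le_div_iff₀ (by linarith only [R3, δ0, δ3]), sub_mul, div_mul_cancel₀ _ (by linarith only [R3, δ0, δ3])]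
            nlinarith only [R3, δ0, δ3]
          have b3 : ((k : ℝ) - r) ^ 2 / (r - 1) ≤ k ^ 2 / (r - 1) :=
            div_le_div_of_nonneg_right (by nlinarith only [R3, δ0, δ3, rk']) (by linarith only [R3, δ0, δ3])
          linarith only [R3, δ0, δ3, y4, rk', a3, b1, b2, b3])
      generalize ∑ i ∈ Icc 1 r \ {a, b}, (x i : ℝ) ^ 2 = Sx at *
      generalize ∑ i ∈ (Icc 1 r).erase a, (y i : ℝ) ^ 2 = Sy at *
      generalize ((k : ℝ) / ν) ^ 2 / (r * (r - 1) ^ 2 * (r - 2)) = W at *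
      obtain ⟨p, hp⟩ : ∃ p, p = 1 / (μ + (N / r : ℕ)) * (μ + ν) := ⟨_, rfl⟩
      have a6 : (((r - 1) * (N / r : ℕ) + 2 * β * (k - r) - β ^ 2 * Sy / μ) * (1 / (μ + (N / r : ℕ))) -
          (((r - 2) * (N / r : ℕ) + 2 * β * (k - 1) - β ^ 2 * Sx / μ) * (1 / (μ + (N / r : ℕ))) +
            ((N / r : ℕ) + 2 * 0 - 0 ^ 2 / μ) / (μ + (N / r : ℕ)))) * (μ + ν) ^ 2 =
          -(2 * (β * (μ + ν)) * (r - 1)) * p + (β * (μ + ν)) ^ 2 * p * ((Sx - Sy) / (μ * (μ + ν))) := by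
        rw [hp]; field_simp; ring
      rw [a6]
      rw [← hp] at a4
      generalize β * (μ + ν) = B at *
      have c1 : B ^ 2 ≤ 1 := by nlinarith only [δ0, δ3, s2, B0]
      have c2 := mul_le_mul_of_nonneg_left a5 (mul_nonneg (sq_nonneg B) (show 0 ≤ p by linarith only [δ0, δ3, a4]))
      have c3 : B ^ 2 * W ≤ 1 := mul_le_one₀ c1 Wb.1 Wb.2
      have c4 : B ^ 2 * p ≤ 1 * 2 := mul_le_mul c1 (by linarith only [δ0, δ3, a4]) (by linarith only [δ0, δ3, a4]) zero_le_one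
      have c5 : B * (r - 1) ≤ 1 * r := mul_le_mul s2 (by linarith only [δ0, δ3]) (by linarith only [R3, δ0, δ3]) zero_le_one
      linarith only [mul_le_mul_of_nonneg_left a4.1 (mul_nonneg (sq_nonneg B) Wb.1),
        mul_le_mul_of_nonneg_left a4.2 (mul_nonneg B0 (show (0 : ℝ) ≤ r - 1 by linarith only [R3, δ0, δ3])),
        mul_le_mul_of_nonneg_right c5 δ0.le, mul_le_mul_of_nonneg_right c4 δ0.le,
        mul_le_mul_of_nonneg_right c3 δ0.le, mul_le_mul_of_nonneg_right R3 δ0.le, R3, δ0, δ3, Wb, a4, B0, c2, c3, c4, c5]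
  · obtain ⟨y, y1, y2, y3⟩ := exists_mid (Icc 1 r \ {a, b}) (fun _ => 1) x
      (fun i hi => (h.ad i hi).1) (k - r - 1) (by simp only [sum_const, smul_eq_mul]; omega)
      (by omega)
    have nb : b ∉ Icc 1 r \ {a, b} := fun e => (mem_J.1 e).2.2 rfl
    have sy : ∀ f : ℕ → ℕ → ℝ, ∑ i ∈ (Icc 1 r).erase a, f i (Function.update y b 1 i) =
        ∑ i ∈ Icc 1 r \ {a, b}, f i (y i) + f b 1 := fun f => by
      rw [sum_er hba, Function.update_self,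
        sum_congr rfl fun i hi => by rw [Function.update_of_ne (mem_J.1 hi).2.2]]
    have ey : ∑ i ∈ Icc 1 r \ {a, b}, (y i : ℝ) = k - r - 1 := by
      have : ∑ i ∈ Icc 1 r \ {a, b}, y i + r + 1 = k := by omega
      rw [← this]; push_cast; ring
    refine key (Function.update y b 1) 0 ⟨h.ha, by
      rw [Function.update_of_ne h.ab]; exact y2 a fun e => (mem_J.1 e).2.1 rfl, fun i hi => ?_⟩ ?_
      le_rfl zero_le_one ?_
    · by_cases e : i = b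
      · have := rg.two_le h.cl b h.hb
        rw [e, Function.update_self]; omega
      · have hi' := mem_J.2 ⟨mem_of_mem_erase hi, ne_of_mem_erase hi, e⟩
        have := y1 i hi'
        have := h.ad i hi'
        rw [Function.update_of_ne e]; omega
    · have := sy fun _ s => (s : ℝ)
      exact_mod_cast (by push_cast at this ⊢; linarith only [ey, this] :
        ((∑ i ∈ (Icc 1 r).erase a, Function.update y b 1 i + r : ℕ) : ℝ) = k)
    · rw [sy fun i s => ph1 μ (n i) (s * β)]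
      have a1 : ∑ i ∈ Icc 1 r \ {a, b}, (ph1 μ (n i) (x i * β) -
          (x i - y i) * (β * 2 * ((1 + δ) / (μ + ν)))) ≤
          ∑ i ∈ Icc 1 r \ {a, b}, ph1 μ (n i) (y i * β) := by
        refine sum_le_sum fun i hi => ?_
        have b1 := ph1_sub μ0 (n i) (x i) (y i) β
        have b2 : (y i : ℝ) ≤ x i := by exact_mod_cast (y1 i hi).2
        have b3 : β * (2 - (x i + y i) * β / μ) * (1 / (μ + n i)) ≤ β * 2 * ((1 + δ) / (μ + ν)) := by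
          have := h.b0
          refine mul_le_mul (mul_le_mul_of_nonneg_left ?_ h.b0) (rg.p2 (h.cl i (mem_J.1 hi).1))
            (by positivity) (by positivity)
          linarith only [show 0 ≤ (x i + y i) * β / μ by positivity, μ0, this]
        linarith only [mul_le_mul_of_nonneg_left b3 (sub_nonneg.2 b2), b1, b2, b3]
      rw [sum_sub_distrib, ← sum_mul, sum_sub_distrib, ex, ey] at a1
      have a2 := ph1_sub μ0 (n b) 1 0 β
      have a3 : β * (2 - δ) * ((1 - δ) / (μ + ν)) ≤ β * (2 - (1 + 0) * β / μ) * (1 / (μ + n b)) := by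
        have b1 : (1 + 0) * β / μ ≤ δ := by
          rw [div_le_iff₀ μ0]
          nlinarith only [rg.inv1 h.b1, rg.big, rg.μ3, rg.μ5, h.b0, μ0, R3, δ0, δ3, s2]
        exact mul_le_mul (mul_le_mul_of_nonneg_left (by linarith only [b1]) h.b0) (rg.p1 (h.cl b h.hb))
          (div_nonneg (by linarith only [δ0, δ3]) L0.le) (mul_nonneg h.b0 (by linarith only [δ0, δ3, b1]))
      have a4 : (β * (2 - δ) * ((1 - δ) / (μ + ν)) - r * (β * 2 * ((1 + δ) / (μ + ν)))) *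
          (μ + ν) ^ 2 = β * (μ + ν) * ((2 - δ) * (1 - δ) - 2 * r * (1 + δ)) := by field_simp
      simp only [zero_mul, Nat.cast_one] at a2 ⊢
      refine le_trans ?_ (mul_le_mul_of_nonneg_right (show β * (2 - δ) * ((1 - δ) / (μ + ν)) -
        r * (β * 2 * ((1 + δ) / (μ + ν))) ≤ _ by linarith only [a1, a3, a2]) (sq_nonneg _))
      rw [a4]
      generalize β * (μ + ν) = B at *
      linarith only [mul_le_mul_of_nonneg_right s2 δ0.le, mul_nonneg B0 (sq_nonneg δ),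
        mul_le_mul_of_nonneg_right s2 (mul_pos (show (0 : ℝ) < r by linarith only [R3, δ0, δ3]) δ0).le,
        mul_le_mul_of_nonneg_right R3 δ0.le, R3, δ0, δ3, s2, B0]

lemma ph1_add_le {μ : ℝ} (μ0 : 0 < μ) (n : ℕ) {F s : ℝ} (F0 : 0 ≤ F) (s0 : 0 ≤ s) :
    ph1 μ n (F + s) ≤ ph1 μ n F + 2 * s / μ := by
  have n0 : (0 : ℝ) ≤ n := Nat.cast_nonneg _
  have a1 : ph1 μ n (F + s) = ph1 μ n F + 2 * s / (μ + n) - s * (2 * F + s) / μ / (μ + n) := by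
    unfold ph1; ring
  have a2 : 2 * s / (μ + n) ≤ 2 * s / μ := div_le_div_of_nonneg_left (by positivity) μ0 (by linarith)
  have a3 : 0 ≤ s * (2 * F + s) / μ / (μ + n) := by positivity
  linarith

lemma OptS.err {r bk g₀ cp : ℕ} {δ ν μ M : ℝ} {n : ℕ → ℕ} {a : ℕ} {y : ℕ → ℕ} {α β : ℝ}
    (h : OptS r bk g₀ cp δ ν μ M n a y α β) : ∃ E, E * (μ + ν) ^ 2 ≤ 10 * (r * δ) ∧
      1 ≤ ∑ i ∈ (Icc 1 r).erase a, ph1 μ (n i) (y i * α) + ph1 μ (n a) 0 +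
        (∑ i ∈ Icc 1 r, (y i : ℝ)) * α ^ 2 / μ - μ * α ^ 2 + E := by
  have rg := h.rg
  have μ0 := rg.μ0
  have a0 := h.a0
  have b0 := h.b0
  have R3 := rg.R3
  refine ⟨4 * r * β / μ, ?_, h.up.trans ?_⟩
  · have a1 : (μ + ν) ^ 2 ≤ (151 / 100 * μ) ^ 2 := pow_le_pow_left₀ rg.L0.le rg.L3 2
    have a2 := mul_le_mul_of_nonneg_left (rg.inv2 h.b1) (show (0 : ℝ) ≤ r by linarith)
    calc _ ≤ 4 * r * β / μ * (151 / 100 * μ) ^ 2 := mul_le_mul_of_nonneg_left a1 (by positivity)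
      _ = 4 * (151 / 100) ^ 2 * (r * (β * μ)) := by field_simp
      _ ≤ _ := by nlinarith only [mul_pos (show (0 : ℝ) < r by linarith) rg.δ0, R3, a2]
  · have a1 : ∑ i ∈ Icc 1 r, ph1 μ (n i) (y i * α + xS bk a i * β) ≤
        ∑ i ∈ Icc 1 r, (ph1 μ (n i) (y i * α) + 2 * β / μ) := sum_le_sum fun i _ => by
      have := ph1_add_le μ0 (n i) (show 0 ≤ y i * α by positivity) (h.sb i).1
      have : 2 * (xS bk a i * β) / μ ≤ 2 * β / μ :=
        div_le_div_of_nonneg_right (by linarith [(h.sb i).2]) μ0.le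
      linarith
    rw [sum_add_distrib, ← add_sum_erase _ (fun i => ph1 μ (n i) (y i * α)) h.dat.ha, h.dat.ya,
      sum_const, Nat.card_Icc, add_tsub_cancel_right, nsmul_eq_mul, Nat.cast_zero, zero_mul] at a1
    have a2 : ∑ i ∈ Icc 1 r, (xS bk a i : ℝ) ≤ r := by
      have := sum_le_card_nsmul (Icc 1 r) (fun i => (xS bk a i : ℝ)) 1
        fun i _ => by exact_mod_cast xS_le h.bk1 a i
      simpa using this
    have a3 := gS_le h.bk1 h.g1 y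
    have a4 : ((∑ i ∈ Icc 1 r, (xS bk a i : ℝ)) * β ^ 2 + 2 * gS r bk g₀ y * α * β) / μ ≤
        μ * β ^ 2 + α * β := by
      rw [div_le_iff₀ μ0]
      have c1 : (r : ℝ) ≤ μ * μ := by nlinarith only [rg.μ4, rg.μ5, μ0, R3]
      nlinarith only [mul_le_mul_of_nonneg_right (a2.trans c1) (sq_nonneg β),
        mul_le_mul_of_nonneg_right (show 2 * gS r bk g₀ y ≤ μ by linarith [rg.μ4])
          (mul_nonneg a0 b0), a0, b0, R3, a2, a3, c1]
    have a5 : 3 * (α * β) ≤ 2 * r * β / μ := by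
      rw [le_div_iff₀ μ0]
      nlinarith only [mul_le_mul_of_nonneg_right (rg.inv1 h.a1) b0, mul_le_mul_of_nonneg_right R3 b0, b0, R3]
    have a6 : 0 ≤ bk * (α * β) := by positivity
    rw [PhK, PhS, add_assoc (_ * α ^ 2), add_div]
    have a7 : 4 * r * β / μ = r * (2 * β / μ) + 2 * r * β / μ := by ring
    linarith

theorem OptS.phi_le {r bk g₀ N k : ℕ} {δ ν μ M : ℝ} {n : ℕ → ℕ} {a : ℕ} {y : ℕ → ℕ} {α β : ℝ}
    (h : OptS r bk g₀ 0 δ ν μ M n a y α β) (hN : ν = N / r) (hM : M = tu2 r N + 2 * k)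
    (rk : 2 * r ≤ k + 1) (hk : (k : ℝ) ≤ th2 r * ν) (hb : Bal r N n)
    (hm : ∀ i ∈ Icc 1 r, n i ≤ n a) (o : OrP r μ M) : phi r N k ≤ 30 * (r * δ) := by
  have rg := h.rg
  have μ0 := rg.μ0
  have L0 := rg.L0
  have R3 := rg.R3
  have r3 := rg.r3
  have δ0 := rg.δ0
  have δ3 := rg.δ3
  have ha := h.dat.ha
  have k0 : (0 : ℝ) ≤ k := Nat.cast_nonneg _
  have rk' : (2 * r : ℝ) ≤ k + 1 := by exact_mod_cast rk
  have ey : ∑ i ∈ Icc 1 r, (y i : ℝ) = k - r := by linarith only [h.ed, hb.eK2, hM]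
  have ey1 : ∑ i ∈ (Icc 1 r).erase a, (y i : ℝ) = k - r := by rw [← h.dat.sum_eq, ey]
  have st := h.stat (by linarith)
  rw [ey] at st
  obtain ⟨s1, s2, s3⟩ := rg.kb hk (by linarith) (by linarith) st
  have A0 := mul_nonneg h.a0 L0.le
  have key : ∀ (b : ℕ) (x : ℕ → ℕ) (W : ℝ), b ∈ (Icc 1 r).erase a → Ad (Icc 1 r \ {a, b}) 1 0 n x →
      ∑ i ∈ Icc 1 r \ {a, b}, (x i : ℝ) = k - 1 → 0 ≤ W → W ≤ 1 →
      2 * (α * (μ + ν)) * (r - 1) - (α * (μ + ν)) ^ 2 * W - 5 * (r * δ) ≤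
        (∑ i ∈ Icc 1 r \ {a, b}, ph1 μ (n i) (x i * α) + ph1 μ (n b) 0 -
          ∑ i ∈ (Icc 1 r).erase a, ph1 μ (n i) (y i * α)) * (μ + ν) ^ 2 →
      (r + 1) * (k / ν / (r - 1)) - 1 - (k / ν / (r - 1)) ^ 2 * W / 2 ≤ 30 * (r * δ) := by
    intro b x W hba hx e W0 W1 hD
    have hb1 := mem_of_mem_erase hba
    obtain ⟨E, E1, E2⟩ := h.err
    have a1 := (o n a b x (rg.two_le h.cl) ha hb1 (ne_of_mem_erase hba).symm hx
      (by rw [hb.eK2]; linarith only [hM, e]) (0 + 1 / (μ + n a)) (0 + 1 / (μ + n b)) α).trans E2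
    rw [PhP, ph2_eq', ph2_eq', e, ey] at a1
    refine g5b_core R3 δ0 δ3 s1 A0 s2 s3 (rg.pL (h.cl a ha)) (rg.pL (h.cl b hb1)) W0 W1 hD ?_
    have a5 : (∑ i ∈ Icc 1 r \ {a, b}, ph1 μ (n i) (x i * α) + ph1 μ (n b) 0 -
        ∑ i ∈ (Icc 1 r).erase a, ph1 μ (n i) (y i * α) - 2 * (1 / (μ + n a)) * (1 / (μ + n b)) +
        2 * α * (1 / (μ + n a) + 1 / (μ + n b)) - E) * (μ + ν) ^ 2 ≤ 0 := by
      refine mul_nonpos_of_nonpos_of_nonneg ?_ (sq_nonneg _)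
      have : (k - r) * α ^ 2 / μ ≤ (k - 1) * α ^ 2 / μ :=
        div_le_div_of_nonneg_right (mul_le_mul_of_nonneg_right (by linarith) (sq_nonneg _)) μ0.le
      linarith
    linarith only [E1, a5]
  have cE := card_er ha
  have cJ : ∀ b ∈ (Icc 1 r).erase a, ((Icc 1 r \ {a, b}).card : ℝ) = r - 2 := fun b hba => by
    have : ((Icc 1 r \ {a, b}).card : ℝ) + 2 = r := by
      exact_mod_cast card_pair_sdiff ha (mem_of_mem_erase hba) (ne_of_mem_erase hba).symm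
    linarith
  have ek : ((k - 1 : ℕ) : ℝ) = k - 1 := by rw [Nat.cast_sub (by omega), Nat.cast_one]
  rw [phi_eq hN]
  split_ifs with hq
  · have sm := hb.small hq ha hm
    obtain ⟨b, hba⟩ : ((Icc 1 r).erase a).Nonempty := card_pos.1 (by omega)
    have hb1 := mem_of_mem_erase hba
    have ab := (ne_of_mem_erase hba).symm
    have cl := h.cl b hb1
    have cJ1 := card_pair_sdiff ha hb1 ab
    obtain ⟨x, y1, -, y3, y4⟩ := exists_even (J := Icc 1 r \ {a, b}) (by omega) (T := k - 1)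
      (by omega)
    have cE' : (((Icc 1 r).erase a).card : ℝ) = r - 1 := by
      have : (((Icc 1 r).erase a).card : ℝ) + 1 = r := by exact_mod_cast cE
      linarith only [this]
    have cJ' := cJ b hba
    rw [ek, cJ'] at y1 y4
    have Wb := rg.Wb k0 hk
    have ex : ∑ i ∈ Icc 1 r \ {a, b}, (x i : ℝ) = k - 1 := by rw [← Nat.cast_sum, y3, ek]
    refine key b x _ hba (fun i hi => ⟨(y1 i hi).1, ?_⟩) ex Wb.1 Wb.2 ?_
    · have a1 := rg.slackP (n := fun _ => n i) (fun _ _ => h.cl i (mem_J.1 hi).1) ha hb1 ab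
      rw [sum_const, nsmul_eq_mul, cJ'] at a1
      have a2 : ((k : ℝ) - 1) / (r - 2) + 1 ≤ n i := by
        rw [div_add_one (by linarith), div_le_iff₀ (by linarith)]
        linarith
      exact_mod_cast (y1 i hi).2.trans a2
    · have a1 := sum_ph1_const (μ := μ) _ sm y α
      have a2 := sum_ph1_const (μ := μ) (Icc 1 r \ {a, b}) (n := n) (m := N / r)
        (fun i hi => sm i (mem_erase.2 ⟨(mem_J.1 hi).2.1, (mem_J.1 hi).1⟩)) x α
      have a3 := sq_div_le (J := (Icc 1 r).erase a) (by omega) y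
      have a4 := abs_le.1 (rg.pL cl)
      rw [a1, a2, ph1, sm b hba, cE', cJ', ex, ey1]
      rw [cE', ey1] at a3
      rw [sm b hba] at a4
      have a5 := (rg.quad (S := ∑ i ∈ Icc 1 r \ {a, b}, (x i : ℝ) ^ 2 -
        ∑ i ∈ (Icc 1 r).erase a, (y i : ℝ) ^ 2) k0 hk).2 (by
          have b1 : (k : ℝ) ^ 2 / ((r - 1) * (r - 2)) = k ^ 2 / (r - 2) - k ^ 2 / (r - 1) := by
            rw [div_sub_div _ _ (by linarith only [R3, δ0, δ3]) (by linarith only [R3, δ0, δ3]), mul_comm ((r : ℝ) - 2) (r - 1)]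
            congr 1; ring
          have b2 : (k : ℝ) ^ 2 / (r - 1) - 3 * k ≤ (k - r) ^ 2 / (r - 1) := by
            rw [le_div_iff₀ (by linarith only [R3, δ0, δ3]), sub_mul, div_mul_cancel₀ _ (by linarith only [R3, δ0, δ3])]
            nlinarith only [mul_le_mul_of_nonneg_left R3 k0, R3, δ0, δ3, k0]
          have b3 : ((k : ℝ) - 1) ^ 2 / (r - 2) ≤ k ^ 2 / (r - 2) :=
            div_le_div_of_nonneg_right (by nlinarith only [R3, δ0, δ3, rk']) (by linarith only [R3, δ0, δ3])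
          linarith only [δ0, δ3, y4, a3, b1, b2, b3])
      generalize ∑ i ∈ Icc 1 r \ {a, b}, (x i : ℝ) ^ 2 = Sx at *
      generalize ∑ i ∈ (Icc 1 r).erase a, (y i : ℝ) ^ 2 = Sy at *
      generalize ((k : ℝ) / ν) ^ 2 / (r * (r - 1) ^ 2 * (r - 2)) = W at *
      obtain ⟨p, hp⟩ : ∃ p, p = 1 / (μ + (N / r : ℕ)) * (μ + ν) := ⟨_, rfl⟩
      have a6 : (((r - 2) * (N / r : ℕ) + 2 * α * (k - 1) - α ^ 2 * Sx / μ) * (1 / (μ + (N / r : ℕ))) +
            ((N / r : ℕ) + 2 * 0 - 0 ^ 2 / μ) / (μ + (N / r : ℕ)) -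
          ((r - 1) * (N / r : ℕ) + 2 * α * (k - r) - α ^ 2 * Sy / μ) * (1 / (μ + (N / r : ℕ)))) *
          (μ + ν) ^ 2 =
          2 * (α * (μ + ν)) * (r - 1) * p - (α * (μ + ν)) ^ 2 * p * ((Sx - Sy) / (μ * (μ + ν))) := by
        rw [hp]; field_simp; ring
      rw [a6]
      rw [← hp] at a4
      generalize α * (μ + ν) = B at *
      have c1 : B ^ 2 ≤ 1 := by nlinarith only [δ0, δ3, s2, A0]
      have c2 := mul_le_mul_of_nonneg_left a5 (mul_nonneg (sq_nonneg B) (show 0 ≤ p by linarith only [δ0, δ3, a4]))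
      have c3 : B ^ 2 * W ≤ 1 := mul_le_one₀ c1 Wb.1 Wb.2
      have c4 : B ^ 2 * p ≤ 1 * 2 := mul_le_mul c1 (by linarith only [δ0, δ3, a4]) (by linarith only [δ0, δ3, a4]) zero_le_one
      have c5 : B * (r - 1) ≤ 1 * r := mul_le_mul s2 (by linarith only [δ0, δ3]) (by linarith only [R3, δ0, δ3]) zero_le_one
      linarith only [mul_le_mul_of_nonneg_left a4.2 (mul_nonneg (sq_nonneg B) Wb.1),
        mul_le_mul_of_nonneg_left a4.1 (mul_nonneg A0 (show (0 : ℝ) ≤ r - 1 by linarith only [R3, δ0, δ3])),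
        mul_le_mul_of_nonneg_right c5 δ0.le, mul_le_mul_of_nonneg_right c4 δ0.le,
        mul_le_mul_of_nonneg_right c3 δ0.le, mul_le_mul_of_nonneg_right R3 δ0.le, R3, δ0, δ3, Wb, a4, A0, c2, c3, c4, c5]
  · have cq := hb.card
    have ql := Nat.mod_lt N (show 0 < r by omega)
    obtain ⟨b, hbq, ba⟩ := exists_mem_ne (s := (Icc 1 r).filter fun i => n i = N / r + 1)
      (by omega) a
    obtain ⟨hb1, nb⟩ := mem_filter.1 hbq
    have hba := mem_erase.2 ⟨ba, hb1⟩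
    have cJ1 := card_pair_sdiff ha hb1 ba.symm
    have ey2 := sum_er hba fun i => (y i : ℝ)
    rw [ey1] at ey2
    obtain ⟨x, x1, -, x3⟩ := exists_mid (Icc 1 r \ {a, b}) (fun i => max (y i) 1) n
      (fun i hi => by
        have := h.dat.le (mem_J.1 hi).1
        have := rg.two_le h.cl i (mem_J.1 hi).1
        omega) (k - 1) (by
        have a1 : ∑ i ∈ Icc 1 r \ {a, b}, max (y i) 1 ≤ ∑ i ∈ Icc 1 r \ {a, b}, (y i + 1) :=
          sum_le_sum fun i _ => by omega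
        have a2 : ∑ i ∈ Icc 1 r \ {a, b}, y i + y b + r = k := by
          exact_mod_cast (by push_cast; linarith only [ey2] :
            ((∑ i ∈ Icc 1 r \ {a, b}, y i + y b + r : ℕ) : ℝ) = k)
        rw [sum_add_distrib, sum_const, smul_eq_mul] at a1
        omega) (by
        have := rg.slackP h.cl ha hb1 ba.symm
        exact_mod_cast (by rw [ek]; push_cast; linarith only [hk, R3, δ0, δ3, this] : ((k - 1 : ℕ) : ℝ) ≤
          (∑ i ∈ Icc 1 r \ {a, b}, n i : ℕ)))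
    have ex : ∑ i ∈ Icc 1 r \ {a, b}, (x i : ℝ) = k - 1 := by rw [← Nat.cast_sum, x3, ek]
    have hx : Ad (Icc 1 r \ {a, b}) 1 0 n x := fun i hi => by have := x1 i hi; omega
    obtain ⟨p, hp⟩ : ∃ p, p = 1 / (μ + n b) * (μ + ν) := ⟨_, rfl⟩
    have a4 := abs_le.1 (rg.pL (h.cl b hb1))
    rw [← hp] at a4
    have hD : 2 * (α * (μ + ν)) * (r - 1) * p - (α * (μ + ν)) ^ 2 * p *
        ((r - 1 + y b) * (2 * (ν + δ * ν)) / (μ * (μ + ν))) ≤
        (∑ i ∈ Icc 1 r \ {a, b}, ph1 μ (n i) (x i * α) + ph1 μ (n b) 0 -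
          ∑ i ∈ (Icc 1 r).erase a, ph1 μ (n i) (y i * α)) * (μ + ν) ^ 2 := by
      have a0 := h.a0
      have a1 : ∑ i ∈ Icc 1 r \ {a, b}, (ph1 μ (n i) (y i * α) + (x i - y i) *
          (α * (2 - 2 * (ν + δ * ν) * α / μ) * (1 / (μ + n b)))) ≤
          ∑ i ∈ Icc 1 r \ {a, b}, ph1 μ (n i) (x i * α) := by
        refine sum_le_sum fun i hi => ?_
        have hi1 := (mem_J.1 hi).1
        have b1 := ph1_sub μ0 (n i) (x i) (y i) α
        have b2 : (y i : ℝ) ≤ x i := by exact_mod_cast (le_max_left _ _).trans (x1 i hi).1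
        have b4 : (x i : ℝ) ≤ n i := by exact_mod_cast (x1 i hi).2
        have b5 : (n i : ℝ) ≤ n b := by exact_mod_cast nb ▸ (hb.1 i hi1).2
        have b6 : (x i + y i) * α / μ ≤ 2 * (ν + δ * ν) * α / μ :=
          div_le_div_of_nonneg_right (mul_le_mul_of_nonneg_right
            (by linarith only [Rg.n2 (h.cl i hi1), b2, b4]) a0) μ0.le
        have b7 : 2 * (ν + δ * ν) * α / μ ≤ 2 := by
          rw [div_le_iff₀ μ0]
          have : ν + δ * ν ≤ μ := by linarith only [rg.δν, rg.μ3, rg.ν0, μ0]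
          nlinarith only [mul_le_mul_of_nonneg_right this a0, rg.inv1 h.a1, rg.μ5, δ0, δ3, a0, this]
        have b3 : α * (2 - 2 * (ν + δ * ν) * α / μ) * (1 / (μ + n b)) ≤
            α * (2 - (x i + y i) * α / μ) * (1 / (μ + n i)) :=
          mul_le_mul (mul_le_mul_of_nonneg_left (by linarith only [b6]) a0)
            (one_div_le_one_div_of_le (by positivity) (by linarith only [b5])) (by positivity)
            (mul_nonneg a0 (by linarith only [b6, b7]))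
        linarith only [mul_le_mul_of_nonneg_left b3 (sub_nonneg.2 b2), b1, b2, b3]
      rw [sum_add_distrib, ← sum_mul, sum_sub_distrib, ex] at a1
      have a2 := ph1_sub μ0 (n b) (y b) 0 α
      have a3 : 0 ≤ (y b - 0) * (α * ((y b + 0) * α / μ) * (1 / (μ + n b))) := by
        rw [sub_zero]; positivity
      rw [zero_mul] at a2
      rw [sum_er hba fun i => ph1 μ (n i) (y i * α)]
      refine le_trans (le_of_eq ?_) (mul_le_mul_of_nonneg_right (show (r - 1 + y b) *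
        (α * (2 - 2 * (ν + δ * ν) * α / μ) * (1 / (μ + n b))) - y b * (α * 2 * (1 / (μ + n b))) ≤ _ by
          rw [show (k : ℝ) - 1 - ∑ i ∈ Icc 1 r \ {a, b}, (y i : ℝ) = r - 1 + y b by linarith only [ey2]] at a1
          linarith only [a1, a2, a3]) (sq_nonneg _))
      rw [hp]; field_simp; ring
    have fin : ∀ W T : ℝ, 0 ≤ W → W ≤ 1 → T ≤ W + δ → 2 * (α * (μ + ν)) * (r - 1) - (α * (μ + ν)) ^ 2 * W -
        5 * (r * δ) ≤ 2 * (α * (μ + ν)) * (r - 1) * p - (α * (μ + ν)) ^ 2 * p * T := by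
      intro W T W0 W1 hT
      generalize α * (μ + ν) = B at *
      have c1 : B ^ 2 ≤ 1 := by nlinarith only [δ0, δ3, s2, A0]
      have c2 := mul_le_mul_of_nonneg_left hT (mul_nonneg (sq_nonneg B) (show 0 ≤ p by linarith only [δ0, δ3, a4]))
      have c3 : B ^ 2 * W ≤ 1 := mul_le_one₀ c1 W0 W1
      have c4 : B ^ 2 * p ≤ 1 * 2 := mul_le_mul c1 (by linarith only [δ0, δ3, a4]) (by linarith only [δ0, δ3, a4]) zero_le_one
      have c5 : B * (r - 1) ≤ 1 * r := mul_le_mul s2 (by linarith only [δ0, δ3]) (by linarith only [R3, δ0, δ3]) zero_le_one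
      linarith only [mul_le_mul_of_nonneg_left a4.2 (mul_nonneg (sq_nonneg B) W0),
        mul_le_mul_of_nonneg_left a4.1 (mul_nonneg A0 (show (0 : ℝ) ≤ r - 1 by linarith only [R3, δ0, δ3])),
        mul_le_mul_of_nonneg_right c5 δ0.le, mul_le_mul_of_nonneg_right c4 δ0.le,
        mul_le_mul_of_nonneg_right c3 δ0.le, mul_le_mul_of_nonneg_right R3 δ0.le, R3, δ0, δ3, a4, W0, A0, c2, c3, c4, c5]
    have ν0 := rg.ν0
    have δν := rg.δν
    rcases le_or_gt (y b) 1 with c | c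
    · refine key b x 0 hba hx ex le_rfl zero_le_one ((fin 0 _ le_rfl zero_le_one ?_).trans hD)
      have c' : (y b : ℝ) ≤ 1 := by exact_mod_cast c
      rw [zero_add]
      refine rg.q3 ((mul_le_mul (show r - 1 + (y b : ℝ) ≤ r by linarith only [c'])
        (show 2 * (ν + δ * ν) ≤ 10 * ν by linarith only [ν0, δν]) (by positivity) (by linarith only [R3, δ0, δ3])).trans ?_)
      linarith only []
    · exfalso
      obtain ⟨s, hs, ns⟩ : ∃ s ∈ Icc 1 r, ¬ n s = N / r + 1 := by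
        by_contra hn
        push Not at hn
        rw [filter_true_of_mem hn, Nat.card_Icc] at cq
        omega
      have d1 := hb.1 s hs
      have d2 := hm b hb1
      have sa : s ∈ (Icc 1 r).erase a := mem_erase.2 ⟨fun e => by rw [e] at d1 ns; omega, hs⟩
      have d3 := h.greedy (by linarith only [hk, R3, δ0, δ3, ey]) (by linarith only [R3, δ0, δ3, rk', ey]) s sa b hba
      have d4 : (n s : ℝ) ≤ y s := by exact_mod_cast (by omega : n s ≤ y s)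
      have d5 := single_le_sum (f := fun i => (y i : ℝ)) (fun _ _ => Nat.cast_nonneg _) sa
      have d6 : 1 - δ ≤ k / ν := by
        rw [le_div_iff₀ ν0]; linarith only [Rg.n1 (h.cl s hs), R3, δ0, δ3, ey1, d4, d5]
      have r1 : (0 : ℝ) < r - 1 := by linarith only [R3, δ0, δ3]
      have W1 : 3 / ((r : ℝ) * (r - 1)) ≤ 1 := by
        rw [div_le_one (by positivity)]; nlinarith only [R3, δ0, δ3]
      have W0 : 0 ≤ 3 / ((r : ℝ) * (r - 1)) := by positivity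
      have d7 := key b x _ hba hx ex W0 W1 ((fin _ _ W0 W1 (by
        have e1 : (y b : ℝ) ≤ n b := by exact_mod_cast h.dat.le hb1
        have e2 : (r - 1 + y b) * (2 * (ν + δ * ν)) ≤ (11 / 10 * ν) * (21 / 10 * ν) :=
          mul_le_mul (by linarith only [Rg.n2 (h.cl b hb1), rg.ν1, R3, δ0, δ3, δν, e1]) (by linarith only [ν0, δν]) (by positivity)
            (by positivity)
        have e3 := div_le_div_of_nonneg_right e2 (mul_pos μ0 L0).le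
        have e4 := rg.q2
        have e5 : 231 / 100 * ((1 + 3 * δ) / (r * (r - 1))) ≤ 3 / (r * (r - 1)) := by
          rw [← mul_div_assoc]
          exact div_le_div_of_nonneg_right (by linarith only [δ0, δ3]) (by positivity)
        have e6 : 11 / 10 * ν * (21 / 10 * ν) / (μ * (μ + ν)) =
          231 / 100 * (ν ^ 2 / (μ * (μ + ν))) := by ring
        linarith only [δ0, e3, e4, e5, e6])).trans hD)
      have d8 : (1 - δ) / (r - 1) ≤ k / ν / (r - 1) := div_le_div_of_nonneg_right d6 r1.le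
      have d9 : 0 ≤ k / ν / (r - 1) := by positivity
      generalize k / ν / (r - 1) = t at *
      have f1 : t ^ 2 * (3 / (r * (r - 1))) ≤ 1 * (3 / (r * (r - 1))) :=
        mul_le_mul_of_nonneg_right (by nlinarith only [δ0, δ3, s3, d9]) W0
      have f2 : 3 / ((r : ℝ) * (r - 1)) ≤ 1 / (r - 1) := by
        rw [div_le_div_iff₀ (by positivity) r1]; nlinarith only [R3]
      have f3 : 1000 * (r * δ) ≤ 1 / (r - 1) := by
        rw [le_div_iff₀ r1]; nlinarith only [rg.δ1, mul_pos (show (0 : ℝ) < r by linarith only [R3, δ0, δ3]) δ0, R3, δ0, δ3]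
      have f4 : (r + 1) * ((1 - δ) / (r - 1)) = 1 + 2 * (1 / (r - 1)) - (r + 1) * δ / (r - 1) := by
        field_simp; ring
      have f5 : (r + 1) * δ / (r - 1) ≤ r * δ := by
        rw [div_le_iff₀ r1]
        nlinarith only [mul_le_mul_of_nonneg_right (show (r : ℝ) + 1 ≤ r * (r - 1) by nlinarith only [R3, δ0, δ3]) δ0.le, R3, δ0, δ3]
      have f6 := mul_le_mul_of_nonneg_left d8 (show (0 : ℝ) ≤ r + 1 by linarith only [R3, δ0, δ3])
      linarith only [mul_pos (show (0 : ℝ) < r by linarith only [R3, δ0, δ3]) δ0, R3, δ0, δ3, d7, f1, f2, f3, f4, f5, f6]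

end Pool.Agent.P.MP_094db5_co

end
end
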