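import Pool.Agent.P.MP_094db5_co.XA
import Pool.Agent.P.MP_094db5_co.XN

section

/-! The secular function of a complete multipartite graph with a few special vertices. -/

set_option autoImplicit false

open Finset Classical

noncomputable section

namespace Pool.Agent.P.MP_094db5_co

variable {V : Type} [Fintype V]

/-- number of vertices of `Y` in part `i` -/
def ct (c : V → ℕ) (Y : Finset V) (i : ℕ) : ℕ := (Y.filter fun v => c v = i).card

omit [Fintype V] in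
lemma part_le (s : Finset V) {μ : ℝ} (hμ : 0 < μ) (A : ℝ) (f y : V → ℝ) :
    2 * (A + ∑ v ∈ s, y v) - (A + ∑ v ∈ s, y v) ^ 2 - μ * ∑ v ∈ s, y v ^ 2 + 2 * ∑ v ∈ s, f v * y v ≤
      2 * A - A ^ 2 + (s.card * (1 - A) ^ 2 + 2 * (1 - A) * (∑ v ∈ s, f v) - (∑ v ∈ s, f v) ^ 2 / μ) /
        (μ + s.card) + (∑ v ∈ s, f v ^ 2) / μ := by
  have hn : (0 : ℝ) < μ + s.card := by positivity
  obtain ⟨S, hS⟩ : ∃ S : ℝ, S * (μ + s.card) = s.card * (1 - A) + ∑ v ∈ s, f v :=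
    ⟨_, div_mul_cancel₀ _ hn.ne'⟩
  have h1 : ∑ v ∈ s, (2 * (1 - A - S) * y v + 2 * (f v * y v) - μ * y v ^ 2) ≤
      ∑ v ∈ s, ((1 - A - S) ^ 2 + 2 * (1 - A - S) * f v + f v ^ 2) / μ := by
    refine sum_le_sum fun v _ => ?_
    rw [le_div_iff₀ hμ]
    nlinarith only [sq_nonneg (μ * y v - (1 - A - S + f v))]
  simp only [sum_add_distrib, sum_sub_distrib, ← mul_sum, ← sum_div, sum_const, nsmul_eq_mul] at h1
  generalize ∑ v ∈ s, y v = Y at *
  generalize ∑ v ∈ s, f v = F at *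
  generalize ∑ v ∈ s, f v ^ 2 = T at *
  generalize (s.card : ℝ) = n at *
  have e : (n * (1 - A) ^ 2 + 2 * (1 - A) * F - F ^ 2 / μ) / (μ + n) + T / μ =
      (n * (1 - A - S) ^ 2 + 2 * (1 - A - S) * F + T) / μ + S ^ 2 := by
    have hF : F = S * (μ + n) - n * (1 - A) := by linarith
    rw [hF]
    field_simp
    ring
  nlinarith only [sq_nonneg (Y - S), h1, e]

omit [Fintype V] in
lemma part_eq (s : Finset V) {μ : ℝ} (hμ : 0 < μ) (A : ℝ) (f y : V → ℝ)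
    (hy : ∀ v ∈ s, y v = (1 - A + f v - (s.card * (1 - A) + ∑ u ∈ s, f u) / (μ + s.card)) / μ) :
    2 * (A + ∑ v ∈ s, y v) - (A + ∑ v ∈ s, y v) ^ 2 - μ * ∑ v ∈ s, y v ^ 2 + 2 * ∑ v ∈ s, f v * y v =
      2 * A - A ^ 2 + (s.card * (1 - A) ^ 2 + 2 * (1 - A) * (∑ v ∈ s, f v) - (∑ v ∈ s, f v) ^ 2 / μ) /
        (μ + s.card) + (∑ v ∈ s, f v ^ 2) / μ := by
  have hn : (0 : ℝ) < μ + s.card := by positivity
  obtain ⟨S, hS⟩ : ∃ S : ℝ, S = (s.card * (1 - A) + ∑ v ∈ s, f v) / (μ + s.card) := ⟨_, rfl⟩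
  rw [← hS] at hy
  have h1 : ∑ v ∈ s, y v = (s.card * (1 - A - S) + ∑ v ∈ s, f v) / μ := by
    rw [sum_congr rfl hy, ← sum_div]
    simp only [sum_add_distrib, sum_sub_distrib, sum_const, nsmul_eq_mul]
    ring
  have h2 : ∑ v ∈ s, y v ^ 2 =
      (s.card * (1 - A - S) ^ 2 + 2 * (1 - A - S) * (∑ v ∈ s, f v) + ∑ v ∈ s, f v ^ 2) / μ ^ 2 := by
    rw [sum_congr rfl (g := fun v => ((1 - A - S) ^ 2 + 2 * (1 - A - S) * f v + f v ^ 2) / μ ^ 2)
      fun v hv => by rw [hy v hv]; ring, ← sum_div]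
    simp only [sum_add_distrib, ← mul_sum, sum_const, nsmul_eq_mul]
  have h3 : ∑ v ∈ s, f v * y v = ((1 - A - S) * (∑ v ∈ s, f v) + ∑ v ∈ s, f v ^ 2) / μ := by
    rw [sum_congr rfl (g := fun v => ((1 - A - S) * f v + f v ^ 2) / μ)
      fun v hv => by rw [hy v hv]; ring, ← sum_div]
    simp only [sum_add_distrib, ← mul_sum]
  rw [h1, h2, h3]
  rw [eq_div_iff hn.ne'] at hS
  generalize ∑ v ∈ s, f v = F at *
  generalize ∑ v ∈ s, f v ^ 2 = T at *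
  generalize (s.card : ℝ) = n at *
  have hF : F = S * (μ + n) - n * (1 - A) := by linarith
  rw [hF]
  field_simp
  ring

lemma Pc_Vp (f : V → ℝ) (c : V → ℕ) (i : ℕ) : Pc f c i = ∑ v ∈ Vp c i, f v := by
  rw [Pc, Vp, sum_filter]

lemma sum_parts (f : V → ℝ) {c : V → ℕ} {r : ℕ} (hc : ∀ v, c v ≤ r) :
    ∑ v, f v = ∑ v ∈ Vp c 0, f v + ∑ i ∈ Icc 1 r, ∑ v ∈ Vp c i, f v := by
  simp only [← Pc_Vp]
  exact (sum_Pc f hc).symm

lemma sum_ind (c : V → ℕ) (Y : Finset V) (i : ℕ) (a : ℝ) :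
    ∑ v ∈ Vp c i, (if v ∈ Y then a else 0) = ct c Y i * a := by
  rw [← sum_filter, sum_const, nsmul_eq_mul, ct]
  congr 3
  ext v
  simp [and_comm]

lemma sum_lab {c : V → ℕ} {r : ℕ} (hc : ∀ v, c v ≤ r) (Y : Finset V) (f : V → ℝ) :
    ∑ v ∈ Y, f v = ∑ v ∈ Y.filter (fun v => c v = 0), f v +
      ∑ i ∈ Icc 1 r, ∑ v ∈ Vp c i, (if v ∈ Y then f v else 0) := by
  rw [← sum_ite_mem_eq Y f, sum_parts _ hc]
  congr 1
  rw [← sum_filter]
  congr 1
  ext v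
  simp [and_comm]

lemma sum_ct {c : V → ℕ} {r : ℕ} (hc : ∀ v, c v ≤ r) {Y : Finset V} (hY : ∀ v ∈ Y, c v ≠ 0) :
    ∑ i ∈ Icc 1 r, ct c Y i = Y.card := by
  have h := sum_lab hc Y fun _ => (1 : ℝ)
  rw [filter_eq_empty_iff.2 hY, sum_empty] at h
  simp only [sum_ind, zero_add, sum_const, nsmul_eq_mul, mul_one] at h
  exact_mod_cast h.symm

/-- the forcing term of two stars -/
def frc (Y X : Finset V) (α β : ℝ) (v : V) : ℝ :=
  (if v ∈ Y then α else 0) + if v ∈ X then β else 0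

lemma sum_frc (c : V → ℕ) (Y X : Finset V) (α β : ℝ) (i : ℕ) :
    ∑ v ∈ Vp c i, frc Y X α β v = ct c Y i * α + ct c X i * β := by
  simp only [frc, sum_add_distrib, sum_ind]

lemma sum_frc_sq (c : V → ℕ) (Y X : Finset V) (α β : ℝ) (i : ℕ) :
    ∑ v ∈ Vp c i, frc Y X α β v ^ 2 =
      ct c Y i * α ^ 2 + ct c X i * β ^ 2 + ct c (X ∩ Y) i * (2 * α * β) := by
  simp only [← sum_ind, ← sum_add_distrib]
  refine sum_congr rfl fun v _ => ?_
  unfold frc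
  by_cases a : v ∈ Y <;> by_cases b : v ∈ X <;> simp [a, b]
  ring

/-- the basic decomposition for two stars -/
lemma psiS {c : V → ℕ} {r : ℕ} (hc : ∀ v, c v ≤ r) {z : V} {Y X : Finset V} (hz : c z = 0)
    (hY : ∀ v ∈ Y, c v ≠ 0) (hX : ∀ v ∈ X, c v ≠ 0 ∨ v = z) (μ β : ℝ) (y : V → ℝ) :
    qf (Kc c) y + 2 * (y z * ∑ v ∈ Y, y v) + 2 * (β * ∑ v ∈ X, y v) - μ * ∑ v, y v ^ 2 =
      (∑ i ∈ Icc 1 r, ∑ v ∈ Vp c i, y v - 1) ^ 2 - 1 +
      ∑ i ∈ Icc 1 r, (2 * (0 + ∑ v ∈ Vp c i, y v) - (0 + ∑ v ∈ Vp c i, y v) ^ 2 -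
        μ * ∑ v ∈ Vp c i, y v ^ 2 + 2 * ∑ v ∈ Vp c i, frc Y X (y z) β v * y v) -
      μ * ∑ v ∈ Vp c 0, y v ^ 2 + 2 * (if z ∈ X then 1 else 0) * y z * β := by
  have e1 : ∑ v ∈ X.filter (fun v => c v = 0), y v = (if z ∈ X then 1 else 0) * y z := by
    split_ifs with h
    · rw [show X.filter (fun v => c v = 0) = {z} from by
        ext v
        simp only [mem_filter, mem_singleton]
        exact ⟨fun a => (hX v a.1).resolve_left fun b => b a.2, fun a => a ▸ ⟨h, hz⟩⟩]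
      simp
    · rw [filter_eq_empty_iff.2 fun v hv a => (hX v hv).elim (fun b => b a) fun b => h (b ▸ hv)]
      simp
  have e2 : ∑ i ∈ Icc 1 r, ∑ v ∈ Vp c i, frc Y X (y z) β v * y v =
      y z * ∑ i ∈ Icc 1 r, ∑ v ∈ Vp c i, (if v ∈ Y then y v else 0) +
        β * ∑ i ∈ Icc 1 r, ∑ v ∈ Vp c i, (if v ∈ X then y v else 0) := by
    simp only [mul_sum, ← sum_add_distrib]
    refine sum_congr rfl fun i _ => sum_congr rfl fun v _ => ?_
    unfold frc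
    split_ifs <;> ring
  rw [qf_Kc y hc, sum_lab hc Y y, sum_lab hc X y, filter_eq_empty_iff.2 hY, e1,
    sum_parts (fun v => y v ^ 2) hc]
  simp only [Pc_Vp, sum_add_distrib, sum_sub_distrib, ← mul_sum, zero_add, e2, sum_empty]
  ring

lemma sumS {c : V → ℕ} {r : ℕ} (hc : ∀ v, c v ≤ r) {Y X : Finset V} (hY : ∀ v ∈ Y, c v ≠ 0)
    (μ e α β : ℝ) :
    ∑ i ∈ Icc 1 r, (2 * (0 : ℝ) - 0 ^ 2 + ((Vp c i).card * (1 - 0) ^ 2 +
      2 * (1 - 0) * (∑ v ∈ Vp c i, frc Y X α β v) - (∑ v ∈ Vp c i, frc Y X α β v) ^ 2 / μ) /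
        (μ + (Vp c i).card) + (∑ v ∈ Vp c i, frc Y X α β v ^ 2) / μ) =
      PhS r μ (cn c) (ct c Y) (ct c X) (X ∩ Y).card e α β + μ * α ^ 2 + μ * β ^ 2 -
        2 * e * α * β := by
  have h := sum_ct hc (Y := X ∩ Y) fun v hv => hY v (mem_inter.1 hv).2
  rw [← h]
  simp only [PhS, ph1, sum_frc, sum_frc_sq, card_Vp, sum_add_distrib, ← sum_div, ← sum_mul,
    Nat.cast_sum]
  simp only [mul_zero, sub_zero, one_pow, mul_one, ne_eq, OfNat.ofNat_ne_zero, not_false_eq_true,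
    zero_pow, sum_const_zero]
  ring

/-- lower bound for the spectral radius from the secular function -/
lemma lam_of_psi {G : SimpleGraph V} {μ Φ S : ℝ} {y : V → ℝ}
    (h : qf G y - μ * ∑ v, y v ^ 2 = (S - 1) ^ 2 - 1 + Φ) (h0 : (∀ v, y v = 0) → S = 0) :
    (1 < Φ → μ < lam G) ∧ (1 ≤ Φ → μ ≤ lam G) := by
  have h1 := qf_le_lam G y
  have h2 : 0 ≤ ∑ v, y v ^ 2 := sum_nonneg fun v _ => sq_nonneg _
  refine ⟨fun a => ?_, fun a => ?_⟩
  · by_contra hn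
    nlinarith [mul_le_mul_of_nonneg_right (not_lt.1 hn) h2, sq_nonneg (S - 1)]
  · by_contra hn
    rcases h2.lt_or_eq with h3 | h3
    · nlinarith [mul_lt_mul_of_pos_right (not_le.1 hn) h3, sq_nonneg (S - 1)]
    · have h4 : ∀ v, y v = 0 := fun v => by
        have := (sum_eq_zero_iff_of_nonneg fun v _ => sq_nonneg (y v)).1 h3.symm v (mem_univ v)
        exact pow_eq_zero_iff two_ne_zero |>.1 this
      have h5 : qf G y = 0 := by simp [qf, S2, h4]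
      rw [h5, ← h3, h0 h4] at h
      linarith

theorem lowerS {c : V → ℕ} {r : ℕ} {z w : V} {Y X : Finset V} (ok : TgOK r c ⊥ z Y w X) {μ : ℝ}
    (hμ : 0 < μ) (α β : ℝ) :
    (1 < PhS r μ (cn c) (ct c Y) (ct c X) (X ∩ Y).card (if z ∈ X then 1 else 0) α β →
      μ < lam (Tg c ⊥ z Y w X)) ∧
    (1 ≤ PhS r μ (cn c) (ct c Y) (ct c X) (X ∩ Y).card (if z ∈ X then 1 else 0) α β →
      μ ≤ lam (Tg c ⊥ z Y w X)) := by
  obtain ⟨y, hy⟩ : ∃ y : V → ℝ, ∀ v, y v = if c v = 0 then (if v = z then α else if v = w then β else 0)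
      else (1 - 0 + frc Y X α β v - ((Vp c (c v)).card * (1 - 0) +
        ∑ u ∈ Vp c (c v), frc Y X α β u) / (μ + (Vp c (c v)).card)) / μ := ⟨_, fun _ => rfl⟩
  have yz : y z = α := by rw [hy, if_pos ok.o0, if_pos rfl]
  have yw : y w = β := by rw [hy, if_pos ok.w0, if_neg ok.ow.symm, if_pos rfl]
  have e0 : ∑ v ∈ Vp c 0, y v ^ 2 = α ^ 2 + β ^ 2 := by
    rw [← sum_subset (s₁ := {z, w}) (fun v hv => by
      rcases mem_insert.1 hv with e | e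
      · rw [e]; exact mem_Vp.2 ok.o0
      · rw [mem_singleton.1 e]; exact mem_Vp.2 ok.w0) fun v hv hn => by
      simp only [mem_insert, mem_singleton, not_or] at hn
      rw [hy, if_pos (mem_Vp.1 hv), if_neg hn.1, if_neg hn.2]; simp, sum_pair ok.ow, yz, yw]
  have e1 := psiS ok.le ok.o0 ok.hS ok.hX μ β y
  rw [yz, e0, sum_congr rfl fun i hi => part_eq (Vp c i) hμ 0 (frc Y X α β) y fun v hv => by
    have := mem_Vp.1 hv
    have := mem_Icc.1 hi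
    rw [hy, if_neg (by omega), ‹c v = i›], sumS ok.le ok.hS μ (if z ∈ X then 1 else 0)] at e1
  refine lam_of_psi (y := y) (S := ∑ i ∈ Icc 1 r, ∑ v ∈ Vp c i, y v) ?_ fun h => by simp [h]
  rw [ok.qf_eq, yz, yw, show qf (⊥ : SimpleGraph V) y = 0 by simp [qf, S2, ad]]
  linarith

lemma qf_sup_le (G H : SimpleGraph V) {x : V → ℝ} (hx : ∀ v, 0 ≤ x v) :
    qf (G ⊔ H) x ≤ qf G x + qf H x := by
  simp only [qf, S2_add]
  refine S2_mono fun u v => ?_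
  have := mul_nonneg (hx u) (hx v)
  simp only [ad, SimpleGraph.sup_adj]
  by_cases a : G.Adj u v <;> by_cases b : H.Adj u v <;> simp [a, b, this]

lemma qf_mono' {G H : SimpleGraph V} (h : G ≤ H) {x : V → ℝ} (hx : ∀ v, 0 ≤ x v) :
    qf G x ≤ qf H x :=
  S2_mono fun u v => mul_le_mul_of_nonneg_right (ad_mono h u v) (mul_nonneg (hx u) (hx v))

/-- a Perron vector with labelled mass one -/
lemma exists_norm {G : SimpleGraph V} {c : V → ℕ} {r : ℕ} (hc : ∀ v, c v ≤ r) {z w : V}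
    (h : ∀ u v, G.Adj u v → c v = 0 → v = z ∨ v = w) (hl : 2 < lam G) :
    ∃ x : V → ℝ, (∀ v, 0 ≤ x v) ∧ (∀ v, x v ≤ 1 / (lam G - 2)) ∧
      (∀ u, ∑ v, ad G u v * x v = lam G * x u) ∧ ∑ i ∈ Icc 1 r, ∑ v ∈ Vp c i, x v = 1 ∧
      qf G x = lam G * ∑ v, x v ^ 2 := by
  have : Nonempty V := ⟨z⟩
  obtain ⟨x, hx⟩ := exists_perron G
  obtain ⟨v₀, -, hv⟩ := exists_max_image univ x univ_nonempty
  obtain ⟨S, hS⟩ : ∃ S, S = ∑ i ∈ Icc 1 r, ∑ v ∈ Vp c i, x v := ⟨_, rfl⟩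
  have h1 : lam G * x v₀ ≤ S + 2 * x v₀ := by
    rw [← hx.eig, sum_parts _ hc, hS, add_comm]
    refine add_le_add (sum_le_sum fun i _ => sum_le_sum fun v _ =>
      mul_le_of_le_one_left (hx.nonneg v) (ad_le_one G _ _)) ?_
    calc ∑ v ∈ Vp c 0, ad G v₀ v * x v ≤ ∑ v ∈ Vp c 0, if v ∈ ({z, w} : Finset V) then x v₀ else 0 := by
          refine sum_le_sum fun v hv' => ?_
          unfold ad
          by_cases a : G.Adj v₀ v
          · rw [if_pos a, if_pos (by simpa using h _ _ a (mem_Vp.1 hv')), one_mul]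
            exact hv v (mem_univ v)
          · rw [if_neg a, zero_mul]
            split_ifs
            exacts [hx.nonneg _, le_rfl]
      _ ≤ _ := by
          rw [sum_ind]
          refine mul_le_mul_of_nonneg_right ?_ (hx.nonneg _)
          exact_mod_cast (card_filter_le _ _).trans card_le_two
  have h2 : 0 < x v₀ := by
    by_contra hn
    have h3 : ∀ v, x v = 0 := fun v => le_antisymm ((hv v (mem_univ v)).trans (not_lt.1 hn)) (hx.nonneg v)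
    have := hx.unit
    simp [h3] at this
  have h3 : 0 < S := by nlinarith
  refine ⟨fun v => x v / S, fun v => div_nonneg (hx.nonneg v) h3.le, fun v => ?_, fun u => ?_, ?_, ?_⟩
  · rw [div_le_div_iff₀ h3 (by linarith)]
    nlinarith [hv v (mem_univ v)]
  · simp only [← mul_div_assoc, ← sum_div, hx.eig]
  · simp only [← sum_div, ← hS, div_self h3.ne']
  · rw [qf_eq, mul_sum]
    refine sum_congr rfl fun v _ => ?_
    simp only [← mul_div_assoc, ← sum_div, hx.eig]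
    ring

theorem upperS {G : SimpleGraph V} {c : V → ℕ} {r : ℕ} {z w : V} {Y X : Finset V}
    (hG : G ≤ Kc c ⊔ Sg z Y ⊔ Sg w X) (hc : ∀ v, c v ≤ r) (hz : c z = 0) (hw : c w = 0)
    (hY : ∀ v ∈ Y, c v ≠ 0) (hX : ∀ v ∈ X, c v ≠ 0 ∨ v = z) (hzw : z = w → X = ∅)
    (hl : 2 < lam G) : ∃ α β : ℝ, 0 ≤ α ∧ α ≤ 1 / (lam G - 2) ∧ 0 ≤ β ∧
      lam G * β ≤ X.card / (lam G - 2) ∧
      1 ≤ PhS r (lam G) (cn c) (ct c Y) (ct c X) (X ∩ Y).card (if z ∈ X then 1 else 0) α β := by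
  have hzY : z ∉ Y := fun a => hY z a hz
  have hwX : w ∉ X := fun a => (hX w a).elim (fun b => b hw) fun b => by
    rw [hzw b.symm] at a; exact notMem_empty _ a
  obtain ⟨x, x0, x1, x2, x3, x4⟩ := exists_norm (G := G) hc (z := z) (w := w) (fun u v a b => by
    rcases hG a with (d | ⟨-, d | d⟩) | ⟨-, d | d⟩
    exacts [(d.2.1 b).elim, (hY v d.2 b).elim, Or.inl d.1,
      Or.inl ((hX v d.2).resolve_left fun e => e b), Or.inr d.1]) hl
  obtain ⟨β, hβ⟩ : ∃ β : ℝ, β = if z = w then 0 else x w := ⟨_, rfl⟩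
  have b0 : 0 ≤ β := by rw [hβ]; split_ifs; exacts [le_rfl, x0 w]
  have e0 : x z ^ 2 + β ^ 2 ≤ ∑ v ∈ Vp c 0, x v ^ 2 := by
    rw [hβ]
    split_ifs with h
    · simpa using single_le_sum (f := fun v => x v ^ 2) (fun v _ => sq_nonneg _) (mem_Vp.2 hz)
    · rw [← sum_pair (f := fun v => x v ^ 2) h]
      refine sum_le_sum_of_subset_of_nonneg (fun v hv => ?_) fun v _ _ => sq_nonneg _
      rcases mem_insert.1 hv with e | e
      · rw [e]; exact mem_Vp.2 hz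
      · rw [mem_singleton.1 e]; exact mem_Vp.2 hw
  have e1 := psiS hc hz hY hX (lam G) β x
  have e2 := sum_le_sum fun i (_ : i ∈ Icc 1 r) =>
    part_le (Vp c i) (μ := lam G) (by linarith) 0 (frc Y X (x z) β) x
  rw [sumS hc hY (lam G) (if z ∈ X then 1 else 0)] at e2
  have e3 : qf G x ≤ qf (Kc c) x + 2 * (x z * ∑ v ∈ Y, x v) + 2 * (β * ∑ v ∈ X, x v) := by
    have a1 := (qf_mono' hG x0).trans (qf_sup_le _ _ x0)
    have a2 := qf_sup_le (Kc c) (Sg z Y) x0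
    rw [qf_Sg hwX] at a1
    rw [qf_Sg hzY] at a2
    have a3 : x w * ∑ v ∈ X, x v = β * ∑ v ∈ X, x v := by
      rw [hβ]
      split_ifs with h
      · simp [hzw h]
      · rfl
    linarith
  refine ⟨x z, β, x0 z, x1 z, b0, ?_, ?_⟩
  · rw [hβ]
    split_ifs with h
    · rw [mul_zero]; exact div_nonneg (Nat.cast_nonneg _) (by linarith)
    · rw [← x2]
      calc ∑ v, ad G w v * x v ≤ ∑ v, if v ∈ X then 1 / (lam G - 2) else 0 := by
            refine sum_le_sum fun v _ => ?_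
            unfold ad
            by_cases a : G.Adj w v
            · rw [if_pos a, one_mul, if_pos]
              · exact x1 v
              · rcases hG a with (d | ⟨-, d | d⟩) | ⟨-, d | d⟩
                exacts [(d.1 hw).elim, (h d.1.symm).elim, (hY w d.2 hw).elim, d.2, (hwX d.2).elim]
            · rw [if_neg a, zero_mul]
              split_ifs
              exacts [(x0 v).trans (x1 v), le_rfl]
        _ = _ := by rw [sum_ite_mem_eq, sum_const, nsmul_eq_mul, mul_one_div]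
  · rw [x3] at e1
    nlinarith only [mul_le_mul_of_nonneg_left e0 (by linarith : 0 ≤ lam G), hl, x4, e0, e1, e2, e3]

/-- data of a graph with one deleted edge -/
structure POK (r : ℕ) (c : V → ℕ) (z b w : V) (X : Finset V) : Prop where
  le : ∀ v, c v ≤ r
  w0 : c w = 0
  z0 : c z ≠ 0
  b0 : c b ≠ 0
  zb : c z ≠ c b
  hX : ∀ v ∈ X, c v ≠ 0 ∧ c v ≠ c z ∧ c v ≠ c b

/-- the graph with one deleted edge -/
def Pg (c : V → ℕ) (z b w : V) (X : Finset V) : SimpleGraph V :=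
  Kc c \ Sg z {b} ⊔ Sg w (insert z (insert b X))

section
variable {c : V → ℕ} {r : ℕ} {z b w : V} {X : Finset V}

lemma POK.qf_eq (h : POK r c z b w X) (y : V → ℝ) : qf (Pg c z b w X) y =
    qf (Kc c) y - 2 * (y z * y b) + 2 * (y w * (y z + y b + ∑ v ∈ X, y v)) := by
  have zb : z ≠ b := fun e => h.zb (e ▸ rfl)
  have zX : z ∉ X := fun a => (h.hX z a).2.1 rfl
  have bX : b ∉ X := fun a => (h.hX b a).2.2 rfl
  have hw : w ∉ insert z (insert b X) := by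
    simp only [mem_insert, not_or]
    exact ⟨fun e => h.z0 (e ▸ h.w0), fun e => h.b0 (e ▸ h.w0), fun a => (h.hX w a).1 h.w0⟩
  have e1 := qf_Sg hw y
  have e2 := qf_Sg (w := z) (X := {b}) (by simpa using zb) y
  rw [sum_insert (by simp [zb, zX]), sum_insert bX, ← add_assoc] at e1
  rw [sum_singleton] at e2
  rw [← e1, ← e2]
  simp only [qf, S2_sub, S2_add]
  refine S2_congr fun u v => ?_
  have a1 : (Sg z {b}).Adj u v → (Kc c).Adj u v := by
    rintro ⟨-, ⟨rfl, a⟩ | ⟨rfl, a⟩⟩ <;> rw [mem_singleton.1 a]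
    exacts [⟨h.z0, h.b0, h.zb⟩, ⟨h.b0, h.z0, h.zb.symm⟩]
  have a3 : (Sg w (insert z (insert b X))).Adj u v → ¬(Kc c).Adj u v := by
    rintro ⟨-, ⟨rfl, -⟩ | ⟨rfl, -⟩⟩ b
    exacts [b.1 h.w0, b.2.1 h.w0]
  simp only [ad, Pg, SimpleGraph.sup_adj, SimpleGraph.sdiff_adj]
  by_cases b1 : (Kc c).Adj u v <;> by_cases b2 : (Sg z {b}).Adj u v <;>
    by_cases b4 : (Sg w (insert z (insert b X))).Adj u v <;> simp_all

lemma POK.ec_eq (h : POK r c z b w X) : ec (Pg c z b w X) = ec (Kc c) + X.card + 1 := by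
  have h1 := h.qf_eq fun _ => 1
  simp only [← Mo_eq_qf, Mo_ec, sum_const, nsmul_eq_mul, mul_one, one_mul] at h1
  exact_mod_cast (by linarith : (ec (Pg c z b w X) : ℝ) = ec (Kc c) + X.card + 1)

lemma POK.split (h : POK r c z b w X) (f : ℕ → ℝ) :
    ∑ i ∈ Icc 1 r, f i = ∑ i ∈ Icc 1 r \ {c z, c b}, f i + f (c z) + f (c b) := by
  have h1 : ({c z, c b} : Finset ℕ) ⊆ Icc 1 r := fun i hi => by
    have := h.le z
    have := h.le b
    have := h.z0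
    have := h.b0
    simp only [mem_insert, mem_singleton, mem_Icc] at hi ⊢
    omega
  rw [← sum_sdiff h1, sum_pair h.zb, add_assoc]

lemma psiP (h : POK r c z b w X) (μ : ℝ) (y : V → ℝ) :
    qf (Pg c z b w X) y - μ * ∑ v, y v ^ 2 =
      (∑ i ∈ Icc 1 r, ∑ v ∈ Vp c i, y v - 1) ^ 2 - 1 +
      (∑ i ∈ Icc 1 r \ {c z, c b}, (2 * (0 + ∑ v ∈ Vp c i, y v) - (0 + ∑ v ∈ Vp c i, y v) ^ 2 -
        μ * ∑ v ∈ Vp c i, y v ^ 2 + 2 * ∑ v ∈ Vp c i, frc ∅ X 0 (y w) v * y v) +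
      (2 * (y z + ∑ v ∈ (Vp c (c z)).erase z, y v) - (y z + ∑ v ∈ (Vp c (c z)).erase z, y v) ^ 2 -
        μ * ∑ v ∈ (Vp c (c z)).erase z, y v ^ 2 + 2 * ∑ v ∈ (Vp c (c z)).erase z, 0 * y v) +
      (2 * (y b + ∑ v ∈ (Vp c (c b)).erase b, y v) - (y b + ∑ v ∈ (Vp c (c b)).erase b, y v) ^ 2 -
        μ * ∑ v ∈ (Vp c (c b)).erase b, y v ^ 2 + 2 * ∑ v ∈ (Vp c (c b)).erase b, 0 * y v) -
      μ * y z ^ 2 - μ * y b ^ 2 - μ * ∑ v ∈ Vp c 0, y v ^ 2 - 2 * y z * y b +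
        2 * y w * (y z + y b)) := by
  have e1 : ∑ v ∈ X, y v = ∑ i ∈ Icc 1 r \ {c z, c b}, ∑ v ∈ Vp c i, (if v ∈ X then y v else 0) := by
    rw [sum_lab h.le X y, filter_eq_empty_iff.2 fun v hv => (h.hX v hv).1, h.split, sum_empty,
      sum_eq_zero (s := Vp c (c z)) fun v hv => if_neg fun a => (h.hX v a).2.1 (mem_Vp.1 hv),
      sum_eq_zero (s := Vp c (c b)) fun v hv => if_neg fun a => (h.hX v a).2.2 (mem_Vp.1 hv)]
    ring
  have e2 : ∑ i ∈ Icc 1 r \ {c z, c b}, ∑ v ∈ Vp c i, frc ∅ X 0 (y w) v * y v =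
      y w * ∑ i ∈ Icc 1 r \ {c z, c b}, ∑ v ∈ Vp c i, (if v ∈ X then y v else 0) := by
    simp only [mul_sum]
    refine sum_congr rfl fun i _ => sum_congr rfl fun v _ => ?_
    unfold frc
    split_ifs <;> ring
  have e3 : ∀ (f : V → ℝ) (u : V), ∑ v ∈ Vp c (c u), f v = f u + ∑ v ∈ (Vp c (c u)).erase u, f v :=
    fun f u => (add_sum_erase _ _ (mem_Vp.2 rfl)).symm
  rw [h.qf_eq, qf_Kc y h.le, e1, sum_parts (fun v => y v ^ 2) h.le]
  simp only [Pc_Vp, sum_add_distrib, sum_sub_distrib, ← mul_sum, zero_add, e2]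
  rw [h.split fun i => (∑ v ∈ Vp c i, y v) ^ 2, h.split fun i => ∑ v ∈ Vp c i, y v ^ 2,
    h.split fun i => ∑ v ∈ Vp c i, y v, e3 y z, e3 y b, e3 (fun v => y v ^ 2) z,
    e3 (fun v => y v ^ 2) b]
  ring

lemma ph2_eq (u : V) {μ : ℝ} (hμ : 0 < μ) (A : ℝ) :
    2 * A - A ^ 2 + (((Vp c (c u)).erase u).card * (1 - A) ^ 2 +
      2 * (1 - A) * (∑ _v ∈ (Vp c (c u)).erase u, (0 : ℝ)) -
      (∑ _v ∈ (Vp c (c u)).erase u, (0 : ℝ)) ^ 2 / μ) / (μ + ((Vp c (c u)).erase u).card) +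
      (∑ _v ∈ (Vp c (c u)).erase u, (0 : ℝ) ^ 2) / μ = ph2 μ (cn c (c u)) A + μ * A ^ 2 := by
  rw [← card_Vp, ← card_erase_add_one (mem_Vp.2 rfl : u ∈ Vp c (c u)), ph2]
  generalize ((Vp c (c u)).erase u).card = n
  have : (0 : ℝ) < μ + n := by positivity
  push_cast
  rw [show μ + (n + 1) - 1 = μ + n by ring]
  simp only [sum_const_zero, ne_eq, OfNat.ofNat_ne_zero, not_false_eq_true, zero_pow]
  field_simp
  ring

lemma sumP (c : V → ℕ) (X : Finset V) (I : Finset ℕ) (μ β : ℝ) :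
    ∑ i ∈ I, (2 * (0 : ℝ) - 0 ^ 2 + ((Vp c i).card * (1 - 0) ^ 2 +
      2 * (1 - 0) * (∑ v ∈ Vp c i, frc ∅ X 0 β v) - (∑ v ∈ Vp c i, frc ∅ X 0 β v) ^ 2 / μ) /
        (μ + (Vp c i).card) + (∑ v ∈ Vp c i, frc ∅ X 0 β v ^ 2) / μ) =
      ∑ i ∈ I, ph1 μ (cn c i) (ct c X i * β) + (∑ i ∈ I, (ct c X i : ℝ)) * β ^ 2 / μ := by
  rw [sum_mul, sum_div, ← sum_add_distrib]
  refine sum_congr rfl fun i _ => ?_
  rw [sum_frc, sum_frc_sq, card_Vp, ph1]
  ring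

theorem lowerP (h : POK r c z b w X) {μ : ℝ} (hμ : 0 < μ) (α γ β : ℝ) :
    (1 < PhP r μ (cn c) (c z) (c b) (ct c X) α γ β → μ < lam (Pg c z b w X)) ∧
    (1 ≤ PhP r μ (cn c) (c z) (c b) (ct c X) α γ β → μ ≤ lam (Pg c z b w X)) := by
  have zb : z ≠ b := fun e => h.zb (e ▸ rfl)
  obtain ⟨y, hy⟩ : ∃ y : V → ℝ, ∀ v, y v = if c v = 0 then (if v = w then β else 0)
      else if v = z then α else if v = b then γ else
      if c v = c z then (1 - α + 0 - (((Vp c (c z)).erase z).card * (1 - α) +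
        ∑ _u ∈ (Vp c (c z)).erase z, 0) / (μ + ((Vp c (c z)).erase z).card)) / μ else
      if c v = c b then (1 - γ + 0 - (((Vp c (c b)).erase b).card * (1 - γ) +
        ∑ _u ∈ (Vp c (c b)).erase b, 0) / (μ + ((Vp c (c b)).erase b).card)) / μ
      else (1 - 0 + frc ∅ X 0 β v - ((Vp c (c v)).card * (1 - 0) +
        ∑ u ∈ Vp c (c v), frc ∅ X 0 β u) / (μ + (Vp c (c v)).card)) / μ := ⟨_, fun _ => rfl⟩
  have yz : y z = α := by rw [hy, if_neg h.z0, if_pos rfl]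
  have yb : y b = γ := by rw [hy, if_neg h.b0, if_neg zb.symm, if_pos rfl]
  have yw : y w = β := by rw [hy, if_pos h.w0, if_pos rfl]
  have e0 : ∑ v ∈ Vp c 0, y v ^ 2 = β ^ 2 := by
    rw [sum_eq_single_of_mem w (mem_Vp.2 h.w0) fun v hv hn => by
      rw [hy, if_pos (mem_Vp.1 hv), if_neg hn]; simp, yw]
  have e1 := psiP h μ y
  rw [yz, yb, yw, e0, sum_congr rfl fun i hi => part_eq (Vp c i) hμ 0 (frc ∅ X 0 β) y fun v hv => by
      have e := mem_Vp.1 hv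
      simp only [mem_sdiff, mem_Icc, mem_insert, mem_singleton, not_or] at hi
      rw [hy, if_neg (by omega), if_neg (fun a => hi.2.1 (by rw [← a, e])),
        if_neg (fun a => hi.2.2 (by rw [← a, e])), if_neg (by omega), if_neg (by omega), e],
    sumP, part_eq _ hμ α (fun _ => 0) y fun v hv => by
      have e := mem_Vp.1 (mem_of_mem_erase hv)
      rw [hy, if_neg (e ▸ h.z0), if_neg (ne_of_mem_erase hv),
        if_neg (fun a => h.zb (by rw [← e, a])), if_pos e],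
    part_eq _ hμ γ (fun _ => 0) y fun v hv => by
      have e := mem_Vp.1 (mem_of_mem_erase hv)
      rw [hy, if_neg (e ▸ h.b0), if_neg (fun a => h.zb (by rw [← e, a])),
        if_neg (ne_of_mem_erase hv), if_neg (fun a => h.zb (by rw [← e, a])), if_pos e],
    ph2_eq z hμ, ph2_eq b hμ] at e1
  refine lam_of_psi (y := y) (S := ∑ i ∈ Icc 1 r, ∑ v ∈ Vp c i, y v) ?_ fun h => by simp [h]
  rw [e1, PhP]
  ring

theorem upperP (h : POK r c z b w X) (hl : 2 < lam (Pg c z b w X)) :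
    ∃ α γ β : ℝ, 0 ≤ α ∧ α ≤ 1 / (lam (Pg c z b w X) - 2) ∧ 0 ≤ γ ∧
      γ ≤ 1 / (lam (Pg c z b w X) - 2) ∧ 0 ≤ β ∧ β ≤ 1 / (lam (Pg c z b w X) - 2) ∧
      1 ≤ PhP r (lam (Pg c z b w X)) (cn c) (c z) (c b) (ct c X) α γ β := by
  obtain ⟨x, x0, x1, -, x3, x4⟩ := exists_norm (G := Pg c z b w X) h.le (z := w) (w := w)
    (fun u v a e => by
      rcases a with d | ⟨-, d | d⟩
      · exact (d.1.2.1 e).elim
      · simp only [mem_insert] at d
        rcases d.2 with f | f | f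
        exacts [(h.z0 (f ▸ e)).elim, (h.b0 (f ▸ e)).elim, ((h.hX v f).1 e).elim]
      · exact Or.inl d.1) hl
  have e1 := psiP h (lam (Pg c z b w X)) x
  generalize lam (Pg c z b w X) = μ at *
  have hμ : 0 < μ := by linarith
  have e0 : x w ^ 2 ≤ ∑ v ∈ Vp c 0, x v ^ 2 :=
    single_le_sum (f := fun v => x v ^ 2) (fun v _ => sq_nonneg _) (mem_Vp.2 h.w0)
  have e2 := sum_le_sum fun i (_ : i ∈ Icc 1 r \ {c z, c b}) =>
    part_le (Vp c i) hμ 0 (frc ∅ X 0 (x w)) x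
  have e3 := part_le ((Vp c (c z)).erase z) hμ (x z) (fun _ => 0) x
  have e4 := part_le ((Vp c (c b)).erase b) hμ (x b) (fun _ => 0) x
  rw [sumP] at e2
  rw [ph2_eq z hμ] at e3
  rw [ph2_eq b hμ] at e4
  refine ⟨x z, x b, x w, x0 z, x1 z, x0 b, x1 b, x0 w, x1 w, ?_⟩
  rw [x3, x4] at e1
  rw [PhP]
  nlinarith only [mul_le_mul_of_nonneg_left e0 hμ.le, e1, hμ, e0, e2, e3, e4]

end

end Pool.Agent.P.MP_094db5_co

end
end

section

/-! A priori bounds for extremal graphs. -/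

set_option autoImplicit false

open Finset Classical

noncomputable section

namespace Pool.Agent.P.MP_094db5_co

lemma eK2_eq (r : ℕ) (n : ℕ → ℕ) :
    eK2 r n = ∑ i ∈ Icc 1 r, (n i : ℝ) * ∑ j ∈ (Icc 1 r).erase i, (n j : ℝ) := by
  rw [eK2, sq, sum_mul, ← sum_sub_distrib]
  refine sum_congr rfl fun i hi => ?_
  rw [← add_sum_erase _ (fun j => (n j : ℝ)) hi]
  ring

lemma sum_er_le {r i : ℕ} (hi : i ∈ Icc 1 r) {f : ℕ → ℝ} {t : ℝ} (h : ∀ j ∈ Icc 1 r, f j ≤ t) :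
    ∑ j ∈ (Icc 1 r).erase i, f j ≤ (r - 1) * t := by
  have := sum_le_card_nsmul ((Icc 1 r).erase i) f t fun j hj => h j (mem_of_mem_erase hj)
  have e : (((Icc 1 r).erase i).card : ℝ) + 1 = r := by exact_mod_cast card_er hi
  rwa [nsmul_eq_mul, show (((Icc 1 r).erase i).card : ℝ) = r - 1 by linarith] at this

lemma le_sum_er {r i : ℕ} (hi : i ∈ Icc 1 r) {f : ℕ → ℝ} {t : ℝ} (h : ∀ j ∈ Icc 1 r, t ≤ f j) :
    (r - 1) * t ≤ ∑ j ∈ (Icc 1 r).erase i, f j := by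
  have := sum_er_le hi (f := fun j => -f j) (t := -t) fun j hj => neg_le_neg (h j hj)
  rw [sum_neg_distrib] at this
  linarith

lemma eK2_bounds {r : ℕ} {n : ℕ → ℕ} {a b : ℝ} (a0 : 0 ≤ a)
    (h : ∀ i ∈ Icc 1 r, a ≤ n i ∧ (n i : ℝ) ≤ b) :
    r * (r - 1) * a ^ 2 ≤ eK2 r n ∧ eK2 r n ≤ r * (r - 1) * b ^ 2 := by
  rw [eK2_eq]
  have e : ∀ t : ℝ, ∑ _i ∈ Icc 1 r, t * ((r - 1) * t) = r * (r - 1) * t ^ 2 := fun t => by
    rw [sum_const, Nat.card_Icc, add_tsub_cancel_right, nsmul_eq_mul]; ring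
  rw [← e, ← e]
  refine ⟨sum_le_sum fun i hi => ?_, sum_le_sum fun i hi => ?_⟩
  · have : (1 : ℝ) ≤ r := by have := mem_Icc.1 hi; exact_mod_cast (by omega : 1 ≤ r)
    exact mul_le_mul (h i hi).1 (le_sum_er hi fun j hj => (h j hj).1)
      (mul_nonneg (by linarith) a0) (Nat.cast_nonneg _)
  · exact mul_le_mul (h i hi).2 (sum_er_le hi fun j hj => (h j hj).2)
      (sum_nonneg fun _ _ => Nat.cast_nonneg _) (a0.trans ((h i hi).1.trans (h i hi).2))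

lemma le_sqrt_aux {a b : ℝ} (hb : 0 ≤ b) (h : a ^ 2 ≤ b ^ 2) : a ≤ b :=
  (abs_le_of_sq_le_sq' h hb).2

variable {V : Type} [Fintype V]

/-- the degree -/
def dg (G : SimpleGraph V) (u : V) : ℝ := ∑ v, ad G u v

/-- a priori bounds -/
structure Apr (r : ℕ) (η : ℝ) (G : SimpleGraph V) : Prop where
  deg : ∀ u, dg G u ≤ (1 + 3 * η) * lam G
  lo : r * (r - 1) * ((1 - η) * (lam G / (r - 1))) ^ 2 - 2 * η * lam G ≤ 2 * ec G
  hi : 2 * ec G ≤ r * (r - 1) * ((1 + η) * (lam G / (r - 1))) ^ 2 + 2 * (1 + η) * lam G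
  big : 1 ≤ η * lam G

lemma Mo_Kc' {c : V → ℕ} {r : ℕ} (hc : ∀ v, c v ≤ r) : 2 * (ec (Kc c) : ℝ) = eK2 r (cn c) := by
  rw [← Mo_ec, Mo_Kc hc, eK2]

lemma dg_Kc {c : V → ℕ} {r : ℕ} (hc : ∀ v, c v ≤ r) {v : V} (hv : c v ≠ 0) :
    dg (Kc c) v = ∑ j ∈ (Icc 1 r).erase (c v), (cn c j : ℝ) := by
  have h := op_Kc hc (fun _ => 1) hv
  have hi : c v ∈ Icc 1 r := mem_Icc.2 ⟨by omega, hc v⟩
  simp only [op, Pc_const, mul_one] at h
  rw [dg, h, ← add_sum_erase _ (fun j => (cn c j : ℝ)) hi]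
  ring

theorem St.apr {r : ℕ} (hr : 3 ≤ r) {G : SimpleGraph V} {x : V → ℝ} {η : ℝ} {c : V → ℕ} {z : V}
    (h : St r G x η c z) (η0 : 0 < η) (η1 : η ≤ 1) : Apr r η G := by
  have R3 : (3 : ℝ) ≤ r := by exact_mod_cast hr
  have l0 : 0 < lam G := by
    by_contra hn
    nlinarith [h.big]
  have sz : ∀ i ∈ Icc 1 r, (1 - η) * (lam G / (r - 1)) ≤ cn c i ∧
      (cn c i : ℝ) ≤ (1 + η) * (lam G / (r - 1)) := fun i hi => by
    have := abs_le.1 (h.size i hi)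
    rw [← mul_div_assoc, ← mul_div_assoc, div_le_iff₀ (by linarith), le_div_iff₀ (by linarith)]
    exact ⟨by linarith, by linarith⟩
  have a1 := eK2_bounds (mul_nonneg (by linarith) (div_nonneg l0.le (by linarith))) sz
  have a2 : (ec G : ℝ) + ec (Hm G c) = ec (Kc c) + ec (Xe G c) := by exact_mod_cast ec_split h.proper
  have a3 := Mo_Kc' h.le
  have a4 : (dT G c z : ℝ) ≤ lam G := by
    refine h.dz.trans (mul_le_of_le_one_left l0.le ?_)
    have : 0 < 1 / (r : ℝ) := by positivity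
    have : 1 / (r : ℝ) ≤ 1 := by rw [div_le_one (by linarith)]; linarith
    nlinarith
  have a5 := h.hE
  have a6 := h.hk
  have a7 := h.big
  refine ⟨fun u => ?_, by linarith [Nat.cast_nonneg (α := ℝ) (ec (Xe G c))],
    by linarith [Nat.cast_nonneg (α := ℝ) (ec (Hm G c))], h.big⟩
  by_cases hu : c u = 0
  · have : (G.degree u : ℝ) ≤ ec (Xe G c) := by exact_mod_cast degree_le_Xe hu
    rw [dg, sum_ad]
    linarith
  · have b1 : dg G u ≤ dg (Kc c) u + ∑ v ∈ Vp c 0, ad G u v := by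
      rw [dg, dg, Vp, sum_filter, ← sum_add_distrib]
      refine sum_le_sum fun v _ => ?_
      have := ad_nonneg (Kc c) u v
      split_ifs with e
      · linarith
      · rw [add_zero]
        unfold ad
        by_cases a : G.Adj u v
        · rw [if_pos a, if_pos ⟨hu, e, h.proper u v a hu⟩]
        · rw [if_neg a]; exact this
    have b2 : ∑ v ∈ (Vp c 0).erase z, ad G u v ≤ ∑ v ∈ (Vp c 0).erase z, (dT G c v : ℝ) :=
      sum_le_sum fun v _ => by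
        unfold ad
        split_ifs with a
        · exact_mod_cast card_pos.2 ⟨u, mem_nT.2 ⟨a.symm, hu⟩⟩
        · exact Nat.cast_nonneg _
    have b3 : (ec (Xe G c) : ℝ) = ∑ v ∈ Vp c 0, (dT G c v : ℝ) + ec (Ww G c) := by
      exact_mod_cast ec_Xe G c
    rw [← add_sum_erase _ _ (mem_Vp.2 h.z0)] at b1 b3
    have b4 := sum_er_le (mem_Icc.2 ⟨by omega, h.le u⟩ : c u ∈ Icc 1 r) fun j hj => (sz j hj).2
    rw [← dg_Kc h.le hu, mul_left_comm, mul_div_cancel₀ _ (by linarith)] at b4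
    linarith [ad_le_one G u z, Nat.cast_nonneg (α := ℝ) (ec (Ww G c))]

theorem Apr.comap {W : Type} [Fintype W] {r : ℕ} {η : ℝ} {G : SimpleGraph V} (hG : G ≠ ⊥)
    (h : Apr r η (G.map (Sum.inl : V → V ⊕ W))) (he : ec (G.map (Sum.inl : V → V ⊕ W)) = ec G) :
    Apr r η G := by
  have e := lam_map hG (f := (Sum.inl : V → V ⊕ W)) Sum.inl_injective.injOn
  refine ⟨fun u => ?_, ?_, ?_, ?_⟩
  · refine le_trans ?_ (e ▸ h.deg (Sum.inl u))
    rw [dg, dg, Fintype.sum_sum_type]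
    refine le_add_of_le_of_nonneg (sum_le_sum fun v _ => ?_) (sum_nonneg fun _ _ => ad_nonneg _ _ _)
    unfold ad
    by_cases a : G.Adj u v
    · rw [if_pos a, if_pos (SimpleGraph.map_adj_apply' a fun e => a.ne (Sum.inl_injective e))]
    · rw [if_neg a]; split_ifs <;> norm_num
  · rw [← e, ← he]; exact h.lo
  · rw [← e, ← he]; exact h.hi
  · rw [← e]; exact h.big

theorem exists_apr {α : Type} {F : SimpleGraph α} {r D t : ℕ} (hr : 3 ≤ r)
    (hF : ∀ a, ∃ b, F.Adj a b) (Fr : ∀ (V : Type) [Fintype V], SimpleGraph V → Prop)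
    (h1 : ∀ (V : Type) [Fintype V], Cls r D t (Fr V))
    (h2 : ∀ (V : Type) [Fintype V] (G : SimpleGraph V), Fr V G ↔ F.Free G) {η : ℝ} (η0 : 0 < η)
    (η1 : η ≤ 1) : ∃ m₀ : ℕ, ∀ m, m₀ ≤ m → ∀ (V : Type) [Fintype V] (G : SimpleGraph V),
      InN F r m G → (∀ (W : Type) [Fintype W] (H : SimpleGraph W), InN F r m H → lam H ≤ lam G) →
      Apr r η G := by
  obtain ⟨M, h⟩ := exists_st hr D t η0
  refine ⟨⌈M⌉₊, fun m hm V _ G g1 g2 => ?_⟩
  obtain ⟨h3, h4⟩ := ex_of_extremal g1 (by omega) hF g2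
  have h5 := Nat.ceil_le.1 hm
  obtain ⟨x, c, z, hs⟩ := h _ _ _ (h1 _) ⟨(h2 _ _).2 h3.fr, h3.nc,
    fun H a b => h3.max H a ((h2 _ _).1 b), h3.iso⟩
    (by rw [Mo_ec, h4]; linarith [Nat.cast_nonneg (α := ℝ) m])
  exact (hs.apr hr η0 η1).comap (AMap_ne_bot g1 (by omega)) (h4.trans g1.1.symm)

lemma tu2_bounds {r N : ℕ} (hr : 1 ≤ r) {ν : ℝ} (hN : ν = N / r) (ν1 : 1 ≤ ν) :
    r * (r - 1) * (ν - 1) ^ 2 ≤ tu2 r N ∧ tu2 r N ≤ r * (r - 1) * (ν + 1) ^ 2 := by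
  obtain ⟨T, hT⟩ := exists_bal hr N
  have r0 : (0 : ℝ) < r := by exact_mod_cast hr
  have a1 : ((N / r : ℕ) : ℝ) ≤ ν := hN ▸ Nat.cast_div_le
  have a2 : ν < (N / r : ℕ) + 1 := by
    rw [hN, div_lt_iff₀ r0, mul_comm]
    exact_mod_cast Nat.lt_mul_div_succ N hr
  rw [← hT.eK2]
  refine eK2_bounds (by linarith) fun i hi => ?_
  have a3 : ((N / r : ℕ) : ℝ) ≤ T i := by exact_mod_cast (hT.1 i hi).1
  have a4 : (T i : ℝ) ≤ (N / r : ℕ) + 1 := by exact_mod_cast (hT.1 i hi).2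
  exact ⟨by linarith only [a2, a3], by linarith only [a1, a4]⟩

theorem Apr.near {r N k : ℕ} (hr : 3 ≤ r) {η ν : ℝ} {G : SimpleGraph V} (h : Apr r η G)
    (η0 : 0 < η) (η1 : 100 * η ≤ 1) (hN : ν = N / r) (hν : 1 ≤ η * ν) (hk : (k : ℝ) ≤ r * ν)
    (he : 2 * (ec G : ℝ) = tu2 r N + 2 * k) :
    (1 - 5 * η) * ((r - 1) * ν) ≤ lam G ∧ lam G ≤ (1 + 3 * η) * ((r - 1) * ν) ∧
      r * (r - 1) * ((1 - η) * ν) ^ 2 ≤ 2 * ec G := by
  have R3 : (3 : ℝ) ≤ r := by exact_mod_cast hr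
  have ν1 : 1 ≤ ν := by
    by_contra hn
    nlinarith only [η0, η1, hν, hn]
  have l0 : 0 < lam G := by
    by_contra hn
    nlinarith only [h.big, η0, η1, hn]
  obtain ⟨t1, t2⟩ := tu2_bounds (by omega) hN ν1
  have r1 : (0 : ℝ) < r - 1 := by linarith
  obtain ⟨s, hs⟩ : ∃ s, lam G = (r - 1) * s := ⟨lam G / (r - 1), (mul_div_cancel₀ _ r1.ne').symm⟩
  have a1 := h.lo
  have a2 := h.hi
  have a3 := h.big
  have c0 : (0 : ℝ) < r * (r - 1) := by positivity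
  rw [hs, mul_div_cancel_left₀ _ r1.ne'] at a1 a2
  rw [hs] at a3 l0 ⊢
  have s0 : 0 < s := (pos_iff_pos_of_mul_pos l0).1 r1
  have b1 : (ν + 1) ^ 2 ≤ ((1 + η) * ν) ^ 2 := pow_le_pow_left₀ (by linarith) (by linarith) 2
  have b2 : ((1 - η) * ν) ^ 2 ≤ (ν - 1) ^ 2 :=
    pow_le_pow_left₀ (mul_nonneg (by linarith) (by linarith)) (by linarith) 2
  have b3 : 2 * (k : ℝ) ≤ r * (r - 1) * (η * ν ^ 2) := by
    have e1 : ν ≤ η * ν ^ 2 := by linarith [mul_le_mul_of_nonneg_right hν (show 0 ≤ ν by linarith)]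
    linarith only [mul_le_mul_of_nonneg_left e1 c0.le, mul_nonneg (mul_nonneg (show (0 : ℝ) ≤ r by linarith)
      (show (0 : ℝ) ≤ r - 3 by linarith)) (show 0 ≤ ν by linarith), η0, η1, hk, R3, ν1, c0, e1]
  have b4 : (r - 1) * s ≤ r * (r - 1) * (η * s ^ 2) := by
    linarith [mul_le_mul_of_nonneg_left a3 l0.le, mul_pos r1 (mul_pos η0 (pow_pos s0 2))]
  have k0 : (0 : ℝ) ≤ k := Nat.cast_nonneg _
  have b5 := mul_le_mul_of_nonneg_left b1 c0.le
  have b6 := mul_le_mul_of_nonneg_left b2 c0.le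
  have d1 : s ^ 2 * (1 - 2 * η - η ^ 2) ≤ ν ^ 2 * (1 + 3 * η + η ^ 2) := by
    refine le_of_mul_le_mul_left ?_ c0
    linarith [mul_le_mul_of_nonneg_left b4 η0.le]
  have d2 : ν ^ 2 * (1 - η) ^ 2 ≤ s ^ 2 * (1 + 6 * η + η ^ 2) := by
    refine le_of_mul_le_mul_left ?_ c0
    linarith only [mul_le_mul_of_nonneg_right (show η ≤ 1 by linarith) l0.le, η0, η1, he, t1, l0, a2, b4, b6]
  have η2 : η ^ 2 ≤ η / 100 := by nlinarith only [η0, η1]
  refine ⟨?_, ?_, by linarith⟩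
  · rw [mul_left_comm]
    refine mul_le_mul_of_nonneg_left (le_sqrt_aux s0.le ?_) r1.le
    refine le_of_mul_le_mul_right ?_ (show 0 < 1 + 6 * η + η ^ 2 by positivity)
    refine le_trans ?_ d2
    rw [mul_pow, mul_comm ((1 - 5 * η) ^ 2), mul_assoc]
    refine mul_le_mul_of_nonneg_left ?_ (sq_nonneg _)
    nlinarith only [mul_le_mul_of_nonneg_left η2 η0.le, mul_le_mul_of_nonneg_left η2 (sq_nonneg η), η0, η2]
  · rw [mul_left_comm]
    refine mul_le_mul_of_nonneg_left (le_sqrt_aux (by positivity) ?_) r1.le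
    refine le_of_mul_le_mul_right ?_ (show 0 < 1 - 2 * η - η ^ 2 by linarith)
    refine d1.trans ?_
    rw [mul_pow, mul_comm ((1 + 3 * η) ^ 2), mul_assoc]
    refine mul_le_mul_of_nonneg_left ?_ (sq_nonneg _)
    nlinarith only [mul_le_mul_of_nonneg_left η2 η0.le, mul_le_mul_of_nonneg_left η2 (sq_nonneg η), η0, η2]

theorem sizes {r : ℕ} (hr : 3 ≤ r) {η ν : ℝ} (η0 : 0 < η) (η1 : 100 * η ≤ 1) (ν0 : 0 < ν)
    {n : ℕ → ℕ} (h1 : ∀ i ∈ Icc 1 r, ∑ j ∈ (Icc 1 r).erase i, (n j : ℝ) ≤ (1 + 9 * η) * ((r - 1) * ν))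
    (h2 : r * (r - 1) * ((1 - 8 * η) * ν ^ 2) ≤ eK2 r n) :
    ∀ i ∈ Icc 1 r, Cl (30 * r ^ 2 * η) ν (n i) := by
  have R3 : (3 : ℝ) ≤ r := by exact_mod_cast hr
  have r1 : (0 : ℝ) < r - 1 := by linarith
  obtain ⟨S, hS⟩ : ∃ S, S = ∑ i ∈ Icc 1 r, (n i : ℝ) := ⟨_, rfl⟩
  have e : ∀ i ∈ Icc 1 r, ∑ j ∈ (Icc 1 r).erase i, (n j : ℝ) = S - n i := fun i hi => by
    rw [hS, ← add_sum_erase _ (fun j => (n j : ℝ)) hi]; ring
  have a1 : S ≤ (1 + 9 * η) * (r * ν) := by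
    have b1 := sum_le_sum h1
    rw [sum_congr rfl e, sum_sub_distrib, ← hS, sum_const, sum_const, Nat.card_Icc,
      add_tsub_cancel_right, nsmul_eq_mul, nsmul_eq_mul] at b1
    refine le_of_mul_le_mul_left ?_ r1
    linarith
  have a2 : eK2 r n ≤ S * ((1 + 9 * η) * ((r - 1) * ν)) := by
    rw [eK2_eq, hS, sum_mul]
    exact sum_le_sum fun i hi => mul_le_mul_of_nonneg_left (h1 i hi) (Nat.cast_nonneg _)
  have a3 : (1 - 17 * η) * (r * ν) ≤ S := by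
    refine le_of_mul_le_mul_right (le_trans ?_ (h2.trans a2)) (by positivity)
    have : 0 ≤ r * (r - 1) * ν ^ 2 * η ^ 2 := by positivity
    linarith
  have p1 := mul_pos η0 ν0
  have p2 := mul_le_mul_of_nonneg_right R3 p1.le
  have a4 : ∀ i ∈ Icc 1 r, ν - 26 * r * (η * ν) ≤ n i := fun i hi => by
    have := h1 i hi
    rw [e i hi] at this
    linarith
  intro i hi
  have a5 := le_sum_er hi a4
  rw [e i hi] at a5
  have p3 := mul_le_mul_of_nonneg_right R3 (mul_pos (show (0 : ℝ) < r by linarith) p1).le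
  exact abs_le.2 ⟨by linarith [a4 i hi], by linarith⟩

end Pool.Agent.P.MP_094db5_co

end
end

section

/-! Graphs of the star type. -/

set_option autoImplicit false

open Finset Classical

noncomputable section

namespace Pool.Agent.P.MP_094db5_co

variable {V : Type} [Fintype V]

omit [Fintype V] in
lemma pc_ct (c : V → ℕ) (X : Finset V) (i : ℕ) : pc c X i = ct c X i := pc_coe c X i

omit [Fintype V] in
lemma ct_mono (c : V → ℕ) {X Y : Finset V} (h : X ⊆ Y) (i : ℕ) : ct c X i ≤ ct c Y i :=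
  card_le_card (filter_subset_filter _ h)

lemma ct_le (c : V → ℕ) (X : Finset V) (i : ℕ) : ct c X i ≤ cn c i := ct_mono c (subset_univ X) i

omit [Fintype V] in
lemma ct_pos {c : V → ℕ} {X : Finset V} {i : ℕ} : 1 ≤ ct c X i ↔ ∃ v ∈ X, c v = i := by
  rw [ct, Nat.succ_le_iff, card_pos, filter_nonempty_iff]

omit [Fintype V] in
lemma ct_zero {c : V → ℕ} {X : Finset V} {i : ℕ} : ct c X i = 0 ↔ ∀ v ∈ X, c v ≠ i := by
  rw [ct, card_eq_zero, filter_eq_empty_iff]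

omit [Fintype V] in
lemma ct_uniq {c : V → ℕ} {X : Finset V} {u v : V} (h : ct c X (c u) ≤ 1) (hu : u ∈ X) (hv : v ∈ X)
    (e : c v = c u) : v = u :=
  card_le_one.1 h v (mem_filter.2 ⟨hv, e⟩) u (mem_filter.2 ⟨hu, rfl⟩)

omit [Fintype V] in
lemma ct_update {c : V → ℕ} {z : V} (hz : c z = 0) (a : ℕ) (X : Finset V) {i : ℕ} (hi : i ≠ 0) :
    ct (Function.update c z a) X i = ct c X i + if z ∈ X ∧ i = a then 1 else 0 := by
  have hn : z ∉ X.filter fun v => c v = i := fun e => hi ((mem_filter.1 e).2.symm.trans hz)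
  unfold ct
  split_ifs with h
  · rw [← card_insert_of_notMem hn]
    congr 1
    ext v
    by_cases e : v = z
    · simp [e, h.1, h.2]
    · simp [e]
  · rw [add_zero]
    congr 1
    ext v
    by_cases e : v = z
    · subst e
      simp only [mem_filter, Function.update_self, hz]
      exact ⟨fun b => (h ⟨b.1, b.2.symm⟩).elim, fun b => (hi b.2.symm).elim⟩
    · simp [e]

/-- the three kinds of stars -/
def Kind (r bk g₀ cp : ℕ) : Prop :=
  (bk = 0 ∧ g₀ + 2 = r ∧ cp = 0) ∨ (bk = 1 ∧ g₀ = 0 ∧ cp = 0) ∨ (bk = 0 ∧ g₀ = 0 ∧ cp = 1)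

/-- graph data of the star type -/
structure SD (r bk g₀ cp : ℕ) (c : V → ℕ) (z w : V) (Y X : Finset V) (a : ℕ) : Prop where
  ok : TgOK r c ⊥ z Y w X
  dat : DatS r bk cp (cn c) a (ct c Y)
  hx : ∀ i ∈ Icc 1 r, ct c X i = xS bk a i
  hz : z ∈ X ↔ bk = 0
  kd : (bk = 0 ∧ g₀ + 2 = r ∧ cp = 0 ∧ (X.erase z \ Y).card = 1) ∨
    (bk = 1 ∧ g₀ = 0 ∧ cp = 0 ∧ ∀ v ∈ X, v ∈ Y ∨ ct c Y (c v) = 0) ∨
    (bk = 0 ∧ g₀ = 0 ∧ cp = 1 ∧ ∀ v ∈ X, v ∉ Y)

lemma sum_xS {r a : ℕ} (ha : a ∈ Icc 1 r) (bk : ℕ) : ∑ i ∈ Icc 1 r, xS bk a i + 1 = r + bk := by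
  rw [← add_sum_erase _ _ ha, sum_congr rfl (g := fun _ => 1) fun i hi => by
    simp [xS, ne_of_mem_erase hi], sum_const, smul_eq_mul, mul_one]
  have := card_er ha
  simp only [xS, if_true]
  omega

lemma PhS_congr {r : ℕ} {n n' y y' x x' : ℕ → ℕ} (hn : ∀ i ∈ Icc 1 r, n i = n' i)
    (hy : ∀ i ∈ Icc 1 r, y i = y' i) (hx : ∀ i ∈ Icc 1 r, x i = x' i) (μ g e α β : ℝ) :
    PhS r μ n y x g e α β = PhS r μ n' y' x' g e α β := by
  unfold PhS
  rw [sum_congr rfl fun i hi => by rw [hn i hi, hy i hi, hx i hi],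
    sum_congr rfl (f := fun i => (y i : ℝ)) fun i hi => by rw [hy i hi],
    sum_congr rfl (f := fun i => (x i : ℝ)) fun i hi => by rw [hx i hi]]

namespace SD

variable {r bk g₀ cp : ℕ} {c : V → ℕ} {z w : V} {Y X : Finset V} {a : ℕ}
  (h : SD r bk g₀ cp c z w Y X a)
include h

lemma kind : Kind r bk g₀ cp := by
  rcases h.kd with e | e | e
  exacts [Or.inl ⟨e.1, e.2.1, e.2.2.1⟩, Or.inr (Or.inl ⟨e.1, e.2.1, e.2.2.1⟩),
    Or.inr (Or.inr ⟨e.1, e.2.1, e.2.2.1⟩)]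

lemma bk1 : bk ≤ 1 := by rcases h.kind with e | e | e <;> omega

lemma zY : z ∉ Y := fun e => h.ok.hS z e h.ok.o0

lemma lab {v : V} (hv : v ∈ X.erase z) : c v ≠ 0 :=
  (h.ok.hX v (mem_of_mem_erase hv)).resolve_right (ne_of_mem_erase hv)

lemma ct_er {i : ℕ} (hi : i ∈ Icc 1 r) : ct c (X.erase z) i = xS bk a i := by
  rw [← h.hx i hi, ct, ct, filter_erase, erase_eq_of_notMem]
  intro e
  have := (mem_filter.1 e).2
  have := h.ok.o0
  have := mem_Icc.1 hi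
  omega

lemma card_er' : (X.erase z).card + 1 = r + bk := by
  rw [← sum_ct h.ok.le fun v hv => h.lab hv, sum_congr rfl fun i hi => h.ct_er hi, sum_xS h.dat.ha]

lemma card : X.card = r := by
  have a1 := h.card_er'
  have a2 := h.bk1
  by_cases e : z ∈ X
  · have := h.hz.1 e
    have := card_erase_add_one e
    omega
  · have := mt h.hz.2 e
    rw [erase_eq_of_notMem e] at a1
    omega

lemma hg : ((X ∩ Y).card : ℝ) = gS r bk g₀ (ct c Y) := by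
  unfold gS
  rcases h.kd with ⟨rfl, e1, -, e⟩ | ⟨rfl, rfl, -, e⟩ | ⟨rfl, rfl, -, e⟩
  · have a1 := card_sdiff_add_card_inter (X.erase z) Y
    have a2 := h.card_er'
    rw [erase_inter, erase_eq_of_notMem fun b => h.zY (mem_inter.1 b).2] at a1
    rw [show (X ∩ Y).card = g₀ by omega]
    simp
  · rw [← sum_ct h.ok.le fun v hv => h.ok.hS v (mem_inter.1 hv).2]
    simp only [Nat.cast_zero, Nat.cast_one, one_mul, zero_add, Nat.cast_sum]
    refine sum_congr rfl fun i hi => ?_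
    have a1 := ct_mono c (inter_subset_left (s₁ := X) (s₂ := Y)) i
    have a2 := ct_mono c (inter_subset_right (s₁ := X) (s₂ := Y)) i
    have a3 : ct c X i = 1 := by rw [h.hx i hi, xS, ite_self]
    obtain ⟨v, hv, ev⟩ := ct_pos.1 a3.ge
    congr 1
    rcases e v hv with b | b
    · have := ct_pos.2 ⟨v, mem_inter.2 ⟨hv, b⟩, ev⟩
      omega
    · rw [ev] at b; omega
  · rw [card_eq_zero.2 (eq_empty_of_forall_notMem fun v hv => e v (mem_inter.1 hv).1 (mem_inter.1 hv).2)]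
    simp

lemma PhS_eq (μ α β : ℝ) :
    PhS r μ (cn c) (ct c Y) (ct c X) (X ∩ Y).card (if z ∈ X then 1 else 0) α β =
      PhK r μ bk g₀ (cn c) a (ct c Y) α β := by
  have e : (if z ∈ X then 1 else 0 : ℝ) = 1 - bk := by
    have := h.bk1
    split_ifs with b
    · rw [h.hz.1 b]; simp
    · rw [show bk = 1 by have := mt h.hz.2 b; omega]; simp
  rw [e, h.hg, PhK]
  exact PhS_congr (fun _ _ => rfl) (fun _ _ => rfl) h.hx _ _ _ _ _

lemma sumY : ∑ i ∈ Icc 1 r, (ct c Y i : ℝ) = Y.card := by exact_mod_cast sum_ct h.ok.le h.ok.hS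

lemma ec_eq : 2 * (ec (Tg c ⊥ z Y w X) : ℝ) =
    eK2 r (cn c) + 2 * ∑ i ∈ Icc 1 r, (ct c Y i : ℝ) + 2 * r := by
  have a1 := h.ok.ec_eq
  rw [ec_eq_zero.2 rfl, h.card] at a1
  have a2 : (ec (Tg c ⊥ z Y w X) : ℝ) = ec (Kc c) + Y.card + r := by exact_mod_cast a1
  rw [h.sumY, ← Mo_Kc' h.ok.le, a2]
  ring

lemma Ya : ∀ v ∈ Y, c v ≠ a := ct_zero.1 h.dat.ya

lemma mp (two : ∀ i ∈ Icc 1 r, 2 ≤ cn c i) :
    Mp (Tg c ⊥ z Y w X) r (Function.update c z a) (spokes w X)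
      (spokes z (Out c a \ Y : Finset V)) := by
  have ok := h.ok
  refine ⟨AStr_le ok.le h.dat.ha, fun i hi => ?_, fun u v => ?_⟩
  · have a1 := ct_update ok.o0 a univ (i := i) (by have := mem_Icc.1 hi; omega)
    have a2 := two i hi
    rw [cn_eq]
    change cn _ i = cn c i + _ at a1
    omega
  · rw [Tg_adj, AStr_spokes, AStr_spokes]
    have b1 := ok.hS u
    have b1' := ok.hS v
    have b2 := ok.hX w
    have b3 := ok.o0
    have b4 := ok.w0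
    have b5 := ok.ow
    have b6 := h.Ya u
    have b7 := h.Ya v
    have b8 := mem_Icc.1 h.dat.ha
    simp only [cross, mem_coe, mem_sdiff, mem_Out, SimpleGraph.bot_adj]
    by_cases d1 : u = z <;> by_cases d2 : v = z
    · subst d1
      subst d2
      grind
    · subst d1
      rw [Function.update_self, Function.update_of_ne d2]
      grind
    · subst d2
      rw [Function.update_self, Function.update_of_ne d1]
      grind
    · rw [Function.update_of_ne d1, Function.update_of_ne d2]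
      grind

lemma mp' (two : ∀ i ∈ Icc 1 r, 2 ≤ cn c i) :
    Mp (Tg c ⊥ z Y w X) r c (spokes w X ∪ spokes z Y) ∅ := by
  have ok := h.ok
  refine ⟨ok.le, fun i hi => by rw [cn_eq]; exact two i hi, fun u v => ?_⟩
  rw [Tg_adj, Set.mem_union, AStr_spokes, AStr_spokes]
  have b1 := ok.hS z
  have b2 := ok.hX w
  have b3 := ok.o0
  have b4 := ok.w0
  have b5 := ok.ow
  simp only [cross, mem_coe, SimpleGraph.bot_adj, Set.mem_empty_iff_false]
  grind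

lemma upd {v : V} (hv : c v ≠ 0) : Function.update c z a v = c v :=
  Function.update_of_ne (fun e : v = z => hv (e ▸ h.ok.o0)) _ _

lemma Xa (e : bk = 0) : ∀ v ∈ X, c v ≠ a := ct_zero.1 (by rw [h.hx a h.dat.ha, xS, if_pos rfl, e])

lemma exY (e : bk = 0) {v : V} (hv : v ∈ X.erase z) :
    ∃ y ∉ ((Out c a \ Y : Finset V) : Set V),
      Function.update c z a y = Function.update c z a v := by
  have a1 := (h.dat.ad (c v) (mem_erase.2 ⟨h.Xa e v (mem_of_mem_erase hv),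
    mem_Icc.2 ⟨Nat.one_le_iff_ne_zero.2 (h.lab hv), h.ok.le v⟩⟩)).1
  rw [e] at a1
  obtain ⟨y, hy, ey⟩ := ct_pos.1 a1
  exact ⟨y, fun b => (mem_sdiff.1 b).2 hy, by rw [h.upd (h.ok.hS y hy), h.upd (h.lab hv), ey]⟩

lemma famB {t : ℕ} (two : ∀ i ∈ Icc 1 r, 2 ≤ cn c i) (h0 : cp = 0) (ht : bk = 0 ↔ t = 0) :
    FamB r t (Tg c ⊥ z Y w X) (Function.update c z a) := by
  have a0 : a ≠ 0 := by have := mem_Icc.1 h.dat.ha; omega
  have p : ∀ i ∈ Icc 1 r, pc (Function.update c z a) X i = 1 := fun i hi => by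
    rw [pc_ct, ct_update h.ok.o0 a X (by have := mem_Icc.1 hi; omega), h.hx i hi, xS]
    have := h.bk1
    have := h.hz
    grind
  refine ⟨w, z, X, (Out c a \ Y : Finset V),
    by rw [Function.update_of_ne h.ok.ow.symm]; exact h.ok.w0, fun v hv => ?_, fun v hv => ?_,
    fun i hi => (p i hi).ge, Or.inr (Or.inl ⟨h.mp two, by rwa [Function.update_self], p,
      fun e => ?_, fun e => ?_⟩)⟩
  · by_cases e : v = z
    · rwa [e, Function.update_self]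
    · rw [Function.update_of_ne e]; exact (h.ok.hX v hv).resolve_right e
  · have := mem_Out.1 (mem_sdiff.1 hv).1
    rwa [h.upd this.1, Function.update_self]
  · have e0 := ht.2 e
    refine ⟨h.hz.2 e0, ?_⟩
    rcases h.kd with ⟨-, -, -, b⟩ | ⟨b, -⟩ | ⟨-, -, b, -⟩
    · obtain ⟨b, hb⟩ := card_eq_one.1 b
      refine ⟨b, ?_, h.exY e0 (mem_sdiff.1 (hb ▸ mem_singleton_self b)).1⟩
      rw [← coe_singleton, ← hb]
      ext v
      simp only [Set.mem_inter_iff, mem_coe, mem_sdiff, mem_Out, mem_erase]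
      have := h.ok.hX v
      have := h.ok.o0
      have := h.Xa e0 v
      grind
    · omega
    · omega
  · have e0 : bk ≠ 0 := fun b => by have := ht.1 b; omega
    refine ⟨mt h.hz.1 e0, fun v hv y hy => ?_⟩
    rcases h.kd with ⟨b, -⟩ | ⟨-, -, -, b⟩ | ⟨b, -⟩
    · omega
    · obtain ⟨b1, b2⟩ := mem_sdiff.1 hv.2
      have b3 := mem_Out.1 b1
      rw [h.upd b3.1] at hy
      have yz : y ≠ z := fun e => b3.2 (by rw [← hy, e, Function.update_self])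
      rw [Function.update_of_ne yz] at hy
      exact mem_coe.2 (mem_sdiff.2 ⟨mem_Out.2 (hy ▸ b3),
        fun e => ct_zero.1 ((b v hv.1).resolve_left b2) y e hy⟩)
    · omega

end SD

lemma SD.three {c : V → ℕ} {z w : V} {Y X : Finset V} {a : ℕ} (h : SD 3 0 0 1 c z w Y X a) :
    ∃ p q, X = {z, p, q} ∧ c p ≠ c q ∧ p ∈ X.erase z ∧ q ∈ X.erase z := by
  have a1 := h.card_er'
  obtain ⟨p, q, pq, e⟩ := card_eq_two.1 (show (X.erase z).card = 2 by omega)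
  have hp : p ∈ X.erase z := e ▸ mem_insert_self _ _
  have hq : q ∈ X.erase z := e ▸ mem_insert_of_mem (mem_singleton_self _)
  refine ⟨p, q, by rw [← e, insert_erase (h.hz.2 rfl)], fun b => pq (ct_uniq ?_ hq hp b), hp, hq⟩
  rw [h.ct_er (mem_Icc.2 ⟨Nat.one_le_iff_ne_zero.2 (h.lab hq), h.ok.le q⟩)]
  exact xS_le (Nat.zero_le _) _ _

lemma SD.famW {c : V → ℕ} {z w : V} {Y X : Finset V} {a : ℕ} (h : SD 3 0 0 1 c z w Y X a)
    (two : ∀ i ∈ Icc 1 3, 2 ≤ cn c i) : FamW (Tg c ⊥ z Y w X) (Function.update c z a) := by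
  obtain ⟨p, q, e, pq, hp, hq⟩ := h.three
  have a0 : a ≠ 0 := by have := mem_Icc.1 h.dat.ha; omega
  have k : ∀ v ∈ X.erase z, v ∈ ((Out c a \ Y : Finset V) : Set V) := fun v hv => by
    rcases h.kd with ⟨-, b, -⟩ | ⟨b, -⟩ | ⟨-, -, -, b⟩
    · omega
    · omega
    · exact mem_coe.2 (mem_sdiff.2 ⟨mem_Out.2 ⟨h.lab hv, h.Xa rfl v (mem_of_mem_erase hv)⟩,
        b v (mem_of_mem_erase hv)⟩)
  have m := h.mp two
  rw [show ((X : Finset V) : Set V) = {z, p, q} by rw [e]; simp] at m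
  refine ⟨w, z, p, q, (Out c a \ Y : Finset V),
    by rw [Function.update_of_ne h.ok.ow.symm]; exact h.ok.w0, by rwa [Function.update_self],
    by rw [h.upd (h.lab hp)]; exact h.lab hp, by rw [h.upd (h.lab hq)]; exact h.lab hq,
    by rwa [h.upd (h.lab hp), h.upd (h.lab hq)], fun v hv => ?_,
    Or.inl ⟨m, fun v hv => ?_, k p hp, k q hq, h.exY rfl hp, h.exY rfl hq⟩⟩
  · have := mem_Out.1 (mem_sdiff.1 hv).1
    rw [h.upd this.1]; exact this.1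
  · have := mem_Out.1 (mem_sdiff.1 hv).1
    rw [h.upd this.1, Function.update_self]; exact this.2

end Pool.Agent.P.MP_094db5_co

end
end

section

/-! Normal forms of the members of the families. -/

set_option autoImplicit false

open Finset Classical

noncomputable section

namespace Pool.Agent.P.MP_094db5_co

variable {V : Type} [Fintype V]

/-- star form -/
def FS (r bk g₀ cp : ℕ) (G : SimpleGraph V) : Prop := ∃ c z w Y X a,
  SD r bk g₀ cp c z w Y X a ∧ G = Tg c ⊥ z Y w X ∧ ∀ i ∈ Icc 1 r, 1 ≤ cn c i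

/-- pair form -/
def FP (r : ℕ) (G : SimpleGraph V) : Prop := ∃ c z b w X, POK r c z b w X ∧
  (∀ i ∈ Icc 1 r \ {c z, c b}, 1 ≤ ct c X i) ∧ G = Pg c z b w X ∧ ∀ i ∈ Icc 1 r, 1 ≤ cn c i

/-- bounded form -/
def FB (r C : ℕ) (G : SimpleGraph V) : Prop := ∃ c z w Y X H,
  G ≤ Kc c ⊔ Sg z Y ⊔ Sg w X ∧ (∀ v, c v ≤ r) ∧ c z = 0 ∧ c w = 0 ∧ (∀ v ∈ Y, c v ≠ 0) ∧
  (∀ v ∈ X, c v ≠ 0 ∨ v = z) ∧ (z = w → X = ∅) ∧ Kc c \ H ≤ G ∧ ec H ≤ 2 ∧
  Y.card + X.card ≤ C ∧ ∀ i ∈ Icc 1 r, 1 ≤ cn c i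

lemma Mp.one {G : SimpleGraph V} {r : ℕ} {c : V → ℕ} {A D : Set (Sym2 V)} (h : Mp G r c A D) :
    ∀ i ∈ Icc 1 r, 2 ≤ cn c i := fun i hi => by rw [← cn_eq]; exact h.2.1 i hi

lemma pc_to (c : V → ℕ) (X : Set V) (i : ℕ) : pc c X i = ct c X.toFinset i := by
  rw [← pc_ct, Set.coe_toFinset]

lemma relabel {G : SimpleGraph V} {r : ℕ} {c : V → ℕ} {w z : V} {X D : Set V}
    (h : Mp G r c (spokes w X) (spokes z D)) (hw : c w = 0) (hz : c z ≠ 0) (hX : ∀ v ∈ X, c v ≠ 0)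
    (hD : ∀ v ∈ D, c v ≠ 0 ∧ c v ≠ c z) : ∃ (c' : V → ℕ) (Y : Finset V),
      TgOK r c' ⊥ z Y w X.toFinset ∧ G = Tg c' ⊥ z Y w X.toFinset ∧ (∀ v, v ≠ z → c' v = c v) ∧
      (∀ v, v ∈ Y ↔ c v ≠ 0 ∧ c v ≠ c z ∧ v ∉ D) ∧ (∀ i ∈ Icc 1 r, 1 ≤ cn c' i) ∧
      ∀ i ∈ Icc 1 r, pc c X i = ct c' X.toFinset i + if z ∈ X ∧ i = c z then 1 else 0 := by
  have wz : w ≠ z := fun e => hz (e ▸ hw)
  have e1 : ∀ v, v ≠ z → Function.update c z 0 v = c v := fun v hv => Function.update_of_ne hv _ _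
  have e2 : Function.update c z 0 z = 0 := Function.update_self _ _ _
  have e3 : ∀ (X : Finset V), ∀ i ∈ Icc 1 r, ct c X i = ct (Function.update c z 0) X i +
      if z ∈ X ∧ i = c z then 1 else 0 := fun X i hi => by
    rw [← ct_update e2 (c z) X (by have := mem_Icc.1 hi; omega), Function.update_idem,
      Function.update_eq_self]
  refine ⟨Function.update c z 0, Out c (c z) \ D.toFinset, ⟨fun v => ?_, bot_le, e2,
    by rw [e1 w wz, hw], wz.symm, fun v hv => ?_, fun v hv => ?_⟩, ?_, e1, fun v => by simp [and_assoc],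
    fun i hi => ?_, fun i hi => by rw [pc_to, e3 _ i hi]; simp⟩
  · by_cases e : v = z
    · rw [e, e2]; exact Nat.zero_le _
    · rw [e1 v e]; exact h.1 v
  · have := mem_Out.1 (mem_sdiff.1 hv).1
    rw [e1 v fun e => this.2 (e ▸ rfl)]; exact this.1
  · by_cases e : v = z
    · exact Or.inr e
    · rw [e1 v e]; exact Or.inl (hX v (Set.mem_toFinset.1 hv))
  · ext u v
    rw [Tg_adj, h.2.2, AStr_spokes, AStr_spokes]
    have b1 := hD u
    have b2 := hD v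
    have b3 := hX w
    have b4 := e1 u
    have b5 := e1 v
    simp only [cross, mem_sdiff, mem_Out, SimpleGraph.bot_adj, Set.mem_toFinset]
    grind
  · have a1 := e3 univ i hi
    have a2 := h.one i hi
    change cn c i = cn _ i + _ at a1
    split_ifs at a1 <;> omega

theorem FamB.form {G : SimpleGraph V} {r t bk g₀ : ℕ} {c : V → ℕ} (h : FamB r t G c)
    (hk : Kind r bk g₀ 0) (ht : bk = 0 ↔ t = 0) : FS r bk g₀ 0 G ∨ FP r G ∨ FB r (r * t + r) G := by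
  obtain ⟨w, z, X, D, h1, h2, h3, h4, h5⟩ := h
  rcases h5 with ⟨hM, hz, b, hb, rfl, p1, p2⟩ | ⟨hM, hz, p, q0, q1⟩ | ⟨hM, -, hz, p, hD, -, q⟩
  · have zb := (h3 b rfl).2
    refine Or.inr (Or.inl ⟨c, z, b, w, (X.toFinset.erase b).erase z, ⟨hM.1, h1, h2 z hz, h2 b hb,
      zb.symm, fun v hv => ?_⟩, fun i hi => ?_, ?_, fun i hi => (hM.one i hi).trans' one_le_two⟩)
    · simp only [mem_erase, Set.mem_toFinset] at hv
      exact ⟨h2 v hv.2.2, fun e => hv.1 (AAdm_uniq p1 hz hv.2.2 e),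
        fun e => hv.2.1 (AAdm_uniq p2 hb hv.2.2 e)⟩
    · obtain ⟨v, hv, e⟩ := AAdm_ex (h4 i (mem_J.1 hi).1)
      exact ct_pos.2 ⟨v, mem_erase.2 ⟨fun a => (mem_J.1 hi).2.1 (by rw [← a, e]),
        mem_erase.2 ⟨fun a => (mem_J.1 hi).2.2 (by rw [← a, e]), Set.mem_toFinset.2 hv⟩⟩, e⟩
    · rw [AAdm_eq1 hM, Pg, Set.toFinset_singleton]
      congr 2
      ext v
      simp only [mem_insert, mem_erase, Set.mem_toFinset]
      grind
  · obtain ⟨c', Y, ok, e, e1, e2, e3, e4⟩ := relabel hM h1 hz h2 h3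
    have ha : c z ∈ Icc 1 r := mem_Icc.2 ⟨Nat.one_le_iff_ne_zero.2 hz, hM.1 z⟩
    have eY : ∀ v ∈ Y, c' v = c v := fun v hv => e1 v fun a => ((e2 v).1 hv).2.1 (a ▸ rfl)
    have hz' : z ∈ X ↔ bk = 0 := ⟨fun a => ht.2 (by by_contra b; exact (q1 (by omega)).1 a),
      fun a => (q0 (ht.1 a)).1⟩
    refine Or.inl ⟨c', z, w, Y, X.toFinset, c z, ⟨ok, ⟨ha, ct_zero.2 fun v hv => ?_, fun i hi =>
      ⟨?_, ct_le _ _ _⟩⟩, fun i hi => ?_, by rwa [Set.mem_toFinset], ?_⟩, e, e3⟩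
    · rw [eY v hv]; exact ((e2 v).1 hv).2.1
    · rcases Nat.eq_zero_or_pos bk with a | a
      · obtain ⟨-, b, a1, y, a2, a3⟩ := q0 (ht.1 a)
        obtain ⟨v, hv, ev⟩ := AAdm_ex (h4 i (mem_of_mem_erase hi))
        have i0 := ne_of_mem_erase hi
        have i1 := h2 v hv
        rw [a]
        by_cases d : v ∈ D
        · have vb : v = b := (a1 ▸ ⟨hv, d⟩ : v ∈ ({b} : Set V))
          have hy := (e2 y).2 ⟨by rwa [a3, ← vb], by rwa [a3, ← vb, ev], a2⟩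
          exact ct_pos.2 ⟨y, hy, by rw [eY y hy, a3, ← vb, ev]⟩
        · have hy := (e2 v).2 ⟨i1, by rwa [ev], d⟩
          exact ct_pos.2 ⟨v, hy, by rw [eY v hy, ev]⟩
      · omega
    · have a1 := e4 i hi
      have a2 : bk ≤ 1 := by rcases hk with e | e | e <;> omega
      rw [p i hi] at a1
      unfold xS
      grind
    · rcases hk with a | a | a
      · obtain ⟨zX, b, a1, -⟩ := q0 (ht.1 a.1)
        refine Or.inl ⟨a.1, a.2.1, rfl, card_eq_one.2 ⟨b, ?_⟩⟩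
        ext v
        have b1 : v ∈ X ∧ v ∈ D ↔ v = b := by rw [← Set.mem_inter_iff, a1]; rfl
        have b2 := AAdm_uniq (p _ ha) zX (v := v)
        have b3 := h2 v
        have b4 := h3 v
        simp only [mem_sdiff, mem_erase, Set.mem_toFinset, mem_singleton, e2]
        grind
      · obtain ⟨zX, a1⟩ := q1 (by have := ht.2; omega)
        refine Or.inr (Or.inl ⟨a.1, a.2.1, rfl, fun v hv => or_iff_not_imp_left.2 fun b =>
          ct_zero.2 fun y hy d => ?_⟩)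
        rw [Set.mem_toFinset] at hv
        rw [eY y hy, e1 v fun a => zX (a ▸ hv)] at d
        have b1 := (e2 y).1 hy
        by_cases b2 : v ∈ D
        · exact b1.2.2 (a1 v ⟨hv, b2⟩ y d)
        · exact b ((e2 v).2 ⟨h2 v hv, d ▸ b1.2.1, b2⟩)
      · omega
  · refine Or.inr (Or.inr ⟨c, w, z, X.toFinset, D.toFinset, ⊥, fun u v a => ?_, hM.1, h1, hz,
      fun v hv => h2 v (Set.mem_toFinset.1 hv), fun v hv => Or.inl (h3 v (Set.mem_toFinset.1 hv)).1,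
      fun e => ?_, fun u v a => (hM.2.2 u v).2 (Or.inl ⟨a.1.1, a.1.2.1, a.1.2.2, id⟩),
      by rw [ec_bot]; omega, ?_, fun i hi => (hM.one i hi).trans' one_le_two⟩)
    · have b1 := (hM.2.2 u v).1 a
      have b2 := a.ne
      simp only [Set.mem_union, AStr_spokes] at b1
      simp only [SimpleGraph.sup_adj, Kc, cross, Sg, Set.mem_toFinset]
      grind
    · rw [Set.toFinset_eq_empty]
      by_contra b
      exact (q (Set.nonempty_iff_ne_empty.2 b)).1 e.symm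
    · rw [Set.ncard_eq_toFinset_card'] at hD
      have a1 := sum_le_card_nsmul (Icc 1 r) (ct c X.toFinset) t fun i hi => pc_to c X i ▸ p i hi
      rw [sum_ct hM.1 fun v hv => h2 v (Set.mem_toFinset.1 hv), Nat.card_Icc, smul_eq_mul,
        add_tsub_cancel_right] at a1
      omega

lemma ec_Sg_le (z : V) (D : Finset V) : ec (Sg z D) ≤ D.card := by
  have : Sg z D = Sg z (D.erase z) := by
    ext u v
    simp only [Sg, mem_erase]
    grind
  rw [this, ec_Sg (notMem_erase _ _)]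
  exact card_erase_le

theorem FamW.form {G : SimpleGraph V} {c : V → ℕ} (h : FamW G c) : FS 3 0 0 1 G ∨ FB 3 5 G := by
  obtain ⟨w, z, a, b, D, h1, h2, h3, h4, h5, h6, h7⟩ := h
  rcases h7 with ⟨hM, p1, p2, p3, ⟨y, y1, y2⟩, y', y3, y4⟩ | ⟨w', p0, p1, hM, p2, p3, p4, p5, p6, p7⟩ |
    ⟨w', p0, p1, hM, p2, p3, p4, p5⟩
  · obtain ⟨c', Y, ok, e, e1, e2, e3, e4⟩ := relabel hM h1 h2 (by simp [h2, h3, h4])
      fun v hv => ⟨h6 v hv, p1 v hv⟩
    have ha : c z ∈ Icc 1 3 := mem_Icc.2 ⟨by omega, hM.1 z⟩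
    have eY : ∀ v ∈ Y, c' v = c v := fun v hv => e1 v fun a => ((e2 v).1 hv).2.1 (a ▸ rfl)
    have k1 := p1 a p2
    have k2 := p1 b p3
    have k : ∀ u ∈ D, ∀ y ∉ D, c y = c u → 1 ≤ ct c' Y (c u) ∧ ct c' Y (c u) + 1 ≤ cn c' (c u) :=
      fun u hu y y1 y2 => by
        have hy := (e2 y).2 ⟨y2 ▸ h6 u hu, y2 ▸ p1 u hu, y1⟩
        refine ⟨ct_pos.2 ⟨y, hy, by rw [eY y hy, y2]⟩, card_lt_card ⟨filter_subset_filter _
          (subset_univ _), fun s => ((e2 u).1 (mem_filter.1 (s (mem_filter.2 ⟨mem_univ u,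
            e1 u fun e => p1 u hu (e ▸ rfl)⟩))).1).2.2 hu⟩⟩
    have hi3 : ∀ i ∈ Icc 1 3, i = c z ∨ i = c a ∨ i = c b := fun i hi => by
      have := mem_Icc.1 hi
      have := hM.1 z
      have := hM.1 a
      have := hM.1 b
      omega
    refine Or.inl ⟨c', z, w, Y, _, c z, ⟨ok, ⟨ha, ct_zero.2 fun v hv => ?_, fun i hi => ?_⟩,
      fun i hi => ?_, by simp, Or.inr (Or.inr ⟨rfl, rfl, rfl, fun v hv d => ?_⟩)⟩, e, e3⟩
    · rw [eY v hv]; exact ((e2 v).1 hv).2.1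
    · rcases hi3 i (mem_of_mem_erase hi) with d | d | d
      · exact (ne_of_mem_erase hi d).elim
      · rw [d]; exact k a p2 y y1 y2
      · rw [d]; exact k b p3 y' y3 y4
    · have a1 := e4 i hi
      have a2 : pc c {z, a, b} i = 1 := by
        rw [pc, Set.ncard_eq_one]
        rcases hi3 i hi with d | d | d
        · exact ⟨z, by ext v; simp only [Set.mem_insert_iff, Set.mem_singleton_iff, Set.mem_ofPred_eq]; grind⟩
        · exact ⟨a, by ext v; simp only [Set.mem_insert_iff, Set.mem_singleton_iff, Set.mem_ofPred_eq]; grind⟩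
        · exact ⟨b, by ext v; simp only [Set.mem_insert_iff, Set.mem_singleton_iff, Set.mem_ofPred_eq]; grind⟩
      rw [a2] at a1
      simp only [Set.mem_insert_iff, true_or, true_and] at a1
      unfold xS
      split_ifs at a1 ⊢ <;> omega
    · have := (e2 v).1 d
      simp only [Set.mem_toFinset, Set.mem_insert_iff, Set.mem_singleton_iff] at hv
      grind
  · rw [Set.ncard_eq_toFinset_card'] at p3
    refine Or.inr ⟨c, w', w, {a, b}, {w', a, b}, Sg z D.toFinset, fun u v d => ?_, hM.1, p1, h1,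
      by simp [h3, h4], by simp [h3, h4], fun e => (p0 e).elim, fun u v d => (hM.2.2 u v).2
        (Or.inl ⟨d.1.1, d.1.2.1, d.1.2.2, fun e => d.2 ⟨d.1.ne, ?_⟩⟩), (ec_Sg_le _ _).trans p3,
      add_le_add card_le_two card_le_three, fun i hi => (hM.one i hi).trans' one_le_two⟩
    · have b1 := (hM.2.2 u v).1 d
      have b2 := d.ne
      simp only [Set.mem_union, AStr_spokes, Set.mem_insert_iff, Set.mem_singleton_iff] at b1
      simp only [SimpleGraph.sup_adj, Kc, cross, Sg, mem_insert, mem_singleton]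
      grind
    · simpa [AStr_spokes] using e
  · rw [Set.ncard_eq_toFinset_card'] at p5
    refine Or.inr ⟨c, w', w, D.toFinset, {z, a, b}, Sg z {a, b}, fun u v d => ?_, hM.1, p1, h1,
      fun v hv => h6 v (Set.mem_toFinset.1 hv), by simp [h2, h3, h4], fun e => (p0 e).elim,
      fun u v d => (hM.2.2 u v).2 (Or.inl ⟨d.1.1, d.1.2.1, d.1.2.2, fun e => d.2 ⟨d.1.ne, ?_⟩⟩),
      (ec_Sg_le _ _).trans card_le_two, add_le_add p5 card_le_three,
      fun i hi => (hM.one i hi).trans' one_le_two⟩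
    · have b1 := (hM.2.2 u v).1 d
      have b2 := d.ne
      simp only [Set.mem_union, AStr_spokes, Set.mem_insert_iff, Set.mem_singleton_iff] at b1
      simp only [SimpleGraph.sup_adj, Kc, cross, Sg, mem_insert, mem_singleton, Set.mem_toFinset]
      grind
    · simpa [AStr_spokes] using e

section
variable {c : V → ℕ} {r : ℕ} {z b w : V} {X : Finset V}

lemma POK.mp (h : POK r c z b w X) (two : ∀ i ∈ Icc 1 r, 2 ≤ cn c i) :
    Mp (Pg c z b w X) r c (spokes w (insert z (insert b X) : Finset V)) (spokes z {b}) := by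
  refine ⟨h.le, fun i hi => by rw [cn_eq]; exact two i hi, fun u v => ?_⟩
  have b1 := h.hX w
  have b2 := h.w0
  have b3 := h.z0
  have b4 := h.b0
  simp only [Pg, SimpleGraph.sup_adj, SimpleGraph.sdiff_adj, Kc, cross, Sg, AStr_spokes, mem_coe,
    mem_insert, mem_singleton, Set.mem_singleton_iff]
  grind

lemma POK.famB (h : POK r c z b w X) (two : ∀ i ∈ Icc 1 r, 2 ≤ cn c i)
    (hx : ∀ i ∈ Icc 1 r \ {c z, c b}, 1 ≤ ct c X i) (t : ℕ) : FamB r t (Pg c z b w X) c := by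
  have zb := h.zb
  have k : ∀ u, u = z ∨ u = b → pc c (insert z (insert b X) : Finset V) (c u) = 1 := fun u hu => by
    rw [pc_ct, ct, card_eq_one]
    refine ⟨u, ?_⟩
    ext v
    have := h.hX v
    simp only [mem_filter, mem_insert, mem_singleton]
    grind
  refine ⟨w, z, (insert z (insert b X) : Finset V), {b}, h.w0, fun v hv => ?_,
    fun v hv => hv ▸ ⟨h.b0, zb.symm⟩, fun i hi => ?_,
    Or.inl ⟨h.mp two, by simp, b, by simp, rfl, k z (Or.inl rfl), k b (Or.inr rfl)⟩⟩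
  · simp only [mem_coe, mem_insert] at hv
    rcases hv with e | e | e
    exacts [e ▸ h.z0, e ▸ h.b0, (h.hX v e).1]
  · by_cases p : i = c z
    · rw [p, k z (Or.inl rfl)]
    · by_cases q : i = c b
      · rw [q, k b (Or.inr rfl)]
      · rw [pc_ct]
        exact (hx i (mem_J.2 ⟨hi, p, q⟩)).trans
          (ct_mono c ((subset_insert _ _).trans (subset_insert _ _)) i)

end

end Pool.Agent.P.MP_094db5_co

end
end

section

/-! Realisation of numerical data by graphs. -/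

set_option autoImplicit false

open Finset Classical

noncomputable section

namespace Pool.Agent.P.MP_094db5_co

lemma exists_graph (r : ℕ) (n y : ℕ → ℕ) (h : ∀ i ∈ Icc 1 r, y i ≤ n i) :
    ∃ (W : Type) (_ : Fintype W) (c : W → ℕ) (z w : W) (Y : Finset W), (∀ v, c v ≤ r) ∧ c z = 0 ∧
      c w = 0 ∧ z ≠ w ∧ (∀ i ∈ Icc 1 r, cn c i = n i) ∧ (∀ v ∈ Y, c v ≠ 0) ∧
      ∀ i ∈ Icc 1 r, ct c Y i = y i := by
  obtain ⟨c, h1, h2, h3⟩ := ALb_label (Fin (∑ i ∈ Icc 1 r, n i + 2)) n r (by simp)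
  obtain ⟨z, hz, w, hw, zw⟩ := one_lt_card.1 (show 1 < (Vp c 0).card by
    rw [card_Vp]; rw [Fintype.card_fin] at h3; omega)
  have : ∀ i, ∃ T ⊆ Vp c i, i ∈ Icc 1 r → T.card = y i := fun i => by
    by_cases hi : i ∈ Icc 1 r
    · obtain ⟨T, a, b⟩ := exists_subset_card_eq (s := Vp c i) (n := y i)
        (by rw [card_Vp, h2 i hi]; exact h i hi)
      exact ⟨T, a, fun _ => b⟩
    · exact ⟨∅, empty_subset _, fun a => (hi a).elim⟩
  choose T T1 T2 using this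
  refine ⟨_, _, c, z, w, (Icc 1 r).biUnion T, h1, mem_Vp.1 hz, mem_Vp.1 hw, zw, h2, fun v hv => ?_,
    fun i hi => ?_⟩
  · obtain ⟨i, hi, a⟩ := mem_biUnion.1 hv
    have := mem_Vp.1 (T1 i a)
    have := mem_Icc.1 hi
    omega
  · rw [← T2 i hi, ct]
    congr 1
    ext v
    simp only [mem_filter, mem_biUnion]
    exact ⟨fun ⟨⟨j, _, a⟩, e⟩ => by rwa [← e, mem_Vp.1 (T1 j a)],
      fun a => ⟨⟨i, hi, a⟩, mem_Vp.1 (T1 i a)⟩⟩

lemma exists_tr2 {V : Type} (c : V → ℕ) (I : Finset ℕ) (P : V → Prop)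
    (h : ∀ i ∈ I, ∃ v, c v = i ∧ P v) : ∃ X : Finset V, (∀ v ∈ X, c v ∈ I ∧ P v) ∧
      ∀ i, ct c X i = if i ∈ I then 1 else 0 := by
  choose f f1 f2 using h
  refine ⟨I.attach.image fun i => f i.1 i.2, fun v hv => ?_, fun i => ?_⟩
  · obtain ⟨i, -, rfl⟩ := mem_image.1 hv
    exact ⟨by rw [f1]; exact i.2, f2 _ _⟩
  · split_ifs with hi
    · refine card_eq_one.2 ⟨f i hi, eq_singleton_iff_unique_mem.2 ⟨mem_filter.2
        ⟨mem_image.2 ⟨⟨i, hi⟩, mem_attach _ _, rfl⟩, f1 _ _⟩, fun v hv => ?_⟩⟩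
      obtain ⟨⟨j, hj⟩, -, rfl⟩ := mem_image.1 (mem_filter.1 hv).1
      obtain rfl : j = i := (f1 j hj).symm.trans (mem_filter.1 hv).2
      rfl
    · refine ct_zero.2 fun v hv e => ?_
      obtain ⟨j, -, rfl⟩ := mem_image.1 hv
      exact hi (by rw [← e, f1]; exact j.2)

lemma exists_out {V : Type} [Fintype V] {c : V → ℕ} {Y : Finset V} {i : ℕ}
    (h : ct c Y i < cn c i) : ∃ v, c v = i ∧ v ∉ Y := by
  obtain ⟨v, a, b⟩ := exists_mem_notMem_of_card_lt_card h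
  exact ⟨v, (mem_filter.1 a).2, fun e => b (mem_filter.2 ⟨e, (mem_filter.1 a).2⟩)⟩

lemma exists_SD {r bk g₀ cp a : ℕ} (hk : Kind r bk g₀ cp) {n y : ℕ → ℕ}
    (two : ∀ i ∈ Icc 1 r, 2 ≤ n i) (hd : DatS r bk cp n a y)
    (hj : ∃ j ∈ (Icc 1 r).erase a, y j < n j) :
    ∃ (W : Type) (_ : Fintype W) (c : W → ℕ) (z w : W) (Y X : Finset W), SD r bk g₀ cp c z w Y X a ∧
      (∀ i ∈ Icc 1 r, cn c i = n i) ∧ ∀ i ∈ Icc 1 r, ct c Y i = y i := by
  obtain ⟨W, iW, c, z, w, Y, h1, h2, h3, h4, h5, h6, h7⟩ := exists_graph r n y fun i hi => hd.le hi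
  have d : DatS r bk cp (cn c) a (ct c Y) := ⟨hd.ha, (h7 a hd.ha).trans hd.ya, fun i hi => by
    rw [h5 i (mem_of_mem_erase hi), h7 i (mem_of_mem_erase hi)]; exact hd.ad i hi⟩
  have ins : bk = 0 → ∀ X : Finset W, (∀ v ∈ X, c v ∈ (Icc 1 r).erase a) →
      (∀ i, ct c X i = if i ∈ (Icc 1 r).erase a then 1 else 0) → z ∉ X ∧
      TgOK r c ⊥ z Y w (insert z X) ∧ ∀ i ∈ Icc 1 r, ct c (insert z X) i = xS bk a i := by
    intro e X x1 x2
    have x3 : ∀ v ∈ X, c v ≠ 0 := fun v hv => by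
      have := mem_Icc.1 (mem_of_mem_erase (x1 v hv)); omega
    refine ⟨fun b => x3 z b h2, ⟨h1, bot_le, h2, h3, h4, h6, fun v hv => ?_⟩, fun i hi => ?_⟩
    · exact (mem_insert.1 hv).elim Or.inr fun b => Or.inl (x3 v b)
    · rw [ct, filter_insert, if_neg (by have := mem_Icc.1 hi; omega), ← ct, x2, xS, e]
      simp only [mem_erase, hi, and_true, ite_not]
  refine ⟨W, iW, c, z, w, Y, ?_⟩
  rcases hk with e | e | e
  · obtain ⟨j, hj, b⟩ := hj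
    obtain ⟨X, x1, x2⟩ := exists_tr2 c ((Icc 1 r).erase a) (fun v => v ∈ Y ↔ c v ≠ j)
      fun i hi => by
        by_cases p : i = j
        · obtain ⟨v, v1, v2⟩ := exists_out (c := c) (Y := Y) (i := j) (by
            rwa [h5 j (mem_of_mem_erase hj), h7 j (mem_of_mem_erase hj)])
          exact ⟨v, v1.trans p.symm, iff_of_false v2 fun q => q v1⟩
        · obtain ⟨v, v1, v2⟩ := ct_pos.1 (show 1 ≤ ct c Y i by have := d.ad i hi; omega)
          exact ⟨v, v2, iff_of_true v1 (v2 ▸ p)⟩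
    obtain ⟨k1, k2, k3⟩ := ins e.1 X (fun v hv => (x1 v hv).1) x2
    refine ⟨_, ⟨k2, d, k3, by simp [e.1], Or.inl ⟨e.1, e.2.1, e.2.2, ?_⟩⟩, h5, h7⟩
    have := x2 j
    rw [if_pos hj] at this
    rw [erase_insert k1, ← this, ct]
    congr 1
    ext v
    have := x1 v
    simp only [mem_sdiff, mem_filter]
    grind
  · obtain ⟨X, x1, x2⟩ := exists_tr2 c (Icc 1 r) (fun v => v ∈ Y ∨ ct c Y (c v) = 0)
      fun i hi => by
        rcases Nat.eq_zero_or_pos (ct c Y i) with p | p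
        · obtain ⟨v, v1, -⟩ := exists_out (c := c) (Y := Y) (i := i) (by
            have := two i hi; rw [h5 i hi]; omega)
          exact ⟨v, v1, Or.inr (v1 ▸ p)⟩
        · obtain ⟨v, v1, v2⟩ := ct_pos.1 p
          exact ⟨v, v2, Or.inl v1⟩
    have x3 : ∀ v ∈ X, c v ≠ 0 := fun v hv => by have := mem_Icc.1 (x1 v hv).1; omega
    exact ⟨X, ⟨⟨h1, bot_le, h2, h3, h4, h6, fun v hv => Or.inl (x3 v hv)⟩, d,
      fun i hi => by rw [x2, if_pos hi, e.1, xS, ite_self],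
      iff_of_false (fun b => x3 z b h2) (by omega),
      Or.inr (Or.inl ⟨e.1, e.2.1, e.2.2, fun v hv => (x1 v hv).2⟩)⟩, h5, h7⟩
  · obtain ⟨X, x1, x2⟩ := exists_tr2 c ((Icc 1 r).erase a) (fun v => v ∉ Y)
      fun i hi => exists_out (by have := d.ad i hi; omega)
    obtain ⟨-, k2, k3⟩ := ins e.1 X (fun v hv => (x1 v hv).1) x2
    refine ⟨_, ⟨k2, d, k3, by simp [e.1], Or.inr (Or.inr ⟨e.1, e.2.1, e.2.2, fun v hv => ?_⟩)⟩, h5, h7⟩
    rcases mem_insert.1 hv with b | b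
    · exact fun q => h6 v q (b ▸ h2)
    · exact (x1 v b).2

lemma eK2_congr {r : ℕ} {n n' : ℕ → ℕ} (h : ∀ i ∈ Icc 1 r, n i = n' i) : eK2 r n = eK2 r n' := by
  unfold eK2
  rw [sum_congr rfl fun i hi => by rw [h i hi],
    sum_congr rfl (f := fun i => (n i : ℝ) ^ 2) fun i hi => by rw [h i hi]]

lemma PhK_congr {r : ℕ} {n n' y y' : ℕ → ℕ} (hn : ∀ i ∈ Icc 1 r, n i = n' i)
    (hy : ∀ i ∈ Icc 1 r, y i = y' i) (μ : ℝ) (bk g₀ a : ℕ) (α β : ℝ) :
    PhK r μ bk g₀ n a y α β = PhK r μ bk g₀ n' a y' α β := by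
  unfold PhK gS
  rw [sum_congr rfl fun i hi => by rw [hy i hi]]
  exact PhS_congr hn hy (fun _ _ => rfl) _ _ _ _ _

/-- the graphs of the star type are admissible -/
def GoodS {α : Type} (F : SimpleGraph α) (r bk g₀ cp : ℕ) : Prop :=
  ∀ (V : Type) [Fintype V] (c : V → ℕ) (z w : V) (Y X : Finset V) (a : ℕ),
    SD r bk g₀ cp c z w Y X a → (∀ i ∈ Icc 1 r, 2 ≤ cn c i) →
      F.Free (Tg c ⊥ z Y w X) ∧ ¬ (Tg c ⊥ z Y w X).Colorable r

/-- the graphs of the pair type are admissible -/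
def GoodP {α : Type} (F : SimpleGraph α) (r : ℕ) : Prop :=
  ∀ (V : Type) [Fintype V] (c : V → ℕ) (z b w : V) (X : Finset V), POK r c z b w X →
    (∀ i ∈ Icc 1 r, 2 ≤ cn c i) → (∀ i ∈ Icc 1 r \ {c z, c b}, 1 ≤ ct c X i) →
      F.Free (Pg c z b w X) ∧ ¬ (Pg c z b w X).Colorable r

theorem orS {α : Type} {F : SimpleGraph α} {r bk g₀ cp m : ℕ} (hk : Kind r bk g₀ cp)
    (hg : GoodS F r bk g₀ cp) {μ : ℝ} (μ0 : 0 < μ)
    (hm : ∀ (W : Type) [Fintype W] (H : SimpleGraph W), InN F r m H → lam H ≤ μ) :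
    OrS r bk g₀ cp μ (2 * m) := by
  intro n a y two hd hj he α β
  obtain ⟨W, _, c, z, w, Y, X, h, h1, h2⟩ := exists_SD hk two hd hj
  have a1 := h.ec_eq
  rw [eK2_congr h1, sum_congr rfl fun i hi => by rw [h2 i hi], he] at a1
  by_contra hn
  have a2 := (lowerS h.ok μ0 α β).1 (by rw [h.PhS_eq, PhK_congr h1 h2]; exact not_le.1 hn)
  exact a2.not_ge (hm _ _ ⟨by exact_mod_cast (by linarith : (ec (Tg c ⊥ z Y w X) : ℝ) = m),
    hg _ c z w Y X a h fun i hi => h1 i hi ▸ two i hi⟩)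

lemma POK.sumX {V : Type} [Fintype V] {c : V → ℕ} {r : ℕ} {z b w : V} {X : Finset V}
    (h : POK r c z b w X) : ∑ i ∈ Icc 1 r \ {c z, c b}, (ct c X i : ℝ) = X.card := by
  rw [← sum_ct h.le fun v hv => (h.hX v hv).1, Nat.cast_sum, h.split,
    ct_zero.2 fun v hv => (h.hX v hv).2.1, ct_zero.2 fun v hv => (h.hX v hv).2.2]
  simp

lemma POK.ec2 {V : Type} [Fintype V] {c : V → ℕ} {r : ℕ} {z b w : V} {X : Finset V}
    (h : POK r c z b w X) : 2 * (ec (Pg c z b w X) : ℝ) =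
      eK2 r (cn c) + 2 * ∑ i ∈ Icc 1 r \ {c z, c b}, (ct c X i : ℝ) + 2 := by
  rw [h.ec_eq, h.sumX, ← Mo_Kc' h.le]
  push_cast
  ring

theorem orP {α : Type} {F : SimpleGraph α} {r m : ℕ} (hg : GoodP F r) {μ : ℝ} (μ0 : 0 < μ)
    (hm : ∀ (W : Type) [Fintype W] (H : SimpleGraph W), InN F r m H → lam H ≤ μ) :
    OrP r μ (2 * m) := by
  intro n a b x two ha hb ab hx he α γ β
  obtain ⟨W, _, c, -, w, X, h1, -, h3, -, h5, h6, h7⟩ := exists_graph r n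
    (fun i => if i ∈ Icc 1 r \ {a, b} then x i else 0) fun i _ => by
      split_ifs with e
      exacts [(hx i e).2, Nat.zero_le _]
  have ex : ∀ i ∈ Icc 1 r, ∃ v, c v = i := fun i hi => by
    obtain ⟨v, hv⟩ := card_pos.1 (show 0 < (Vp c i).card by
      have := two i hi; rw [card_Vp, h5 i hi]; omega)
    exact ⟨v, mem_Vp.1 hv⟩
  obtain ⟨z, rfl⟩ := ex a ha
  obtain ⟨b, rfl⟩ := ex b hb
  have h8 : ∀ i ∈ Icc 1 r \ {c z, c b}, ct c X i = x i := fun i hi => by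
    rw [h7 i (mem_J.1 hi).1, if_pos hi]
  have h : POK r c z b w X := ⟨h1, h3, by have := mem_Icc.1 ha; omega, by have := mem_Icc.1 hb; omega,
    ab, fun v hv => ⟨h6 v hv,
      ct_zero.1 (by rw [h7 _ ha, if_neg fun e => (mem_J.1 e).2.1 rfl]) v hv,
      ct_zero.1 (by rw [h7 _ hb, if_neg fun e => (mem_J.1 e).2.2 rfl]) v hv⟩⟩
  have a1 := h.ec2
  rw [eK2_congr h5, sum_congr rfl fun i hi => by rw [h8 i hi], he] at a1
  by_contra hn
  have a2 := (lowerP h μ0 α γ β).1 (by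
    refine (not_le.1 hn).trans_eq ?_
    unfold PhP
    rw [h5 _ ha, h5 _ hb, sum_congr rfl (f := fun i => (ct c X i : ℝ)) fun i hi => by rw [h8 i hi],
      sum_congr rfl (f := fun i => ph1 μ (cn c i) (ct c X i * β)) fun i hi => by
        rw [h8 i hi, h5 i (mem_J.1 hi).1]])
  exact a2.not_ge (hm _ _ ⟨by exact_mod_cast (by linarith : (ec (Pg c z b w X) : ℝ) = m),
    hg _ c z b w X h (fun i hi => h5 i hi ▸ two i hi) fun i hi => h8 i hi ▸ (hx i hi).1⟩)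

end Pool.Agent.P.MP_094db5_co

end
end

section

/-! Extremal graphs in the Turan range. -/

set_option autoImplicit false

open Finset Classical

noncomputable section

namespace Pool.Agent.P.MP_094db5_co

variable {V : Type} [Fintype V]

/-- the context of an extremal graph in the Turan range -/
structure Ext (r N k bk g₀ cp : ℕ) (ε δ δ' ν : ℝ) (G : SimpleGraph V) : Prop where
  r3 : 3 ≤ r
  hN : ν = N / r
  δ0 : 0 < δ
  δ1 : 1000 * (r : ℝ) ^ 2 * δ ≤ 1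
  d0 : 0 < δ'
  d1 : δ' ≤ δ
  d2 : 51 * (r : ℝ) ≤ δ' ^ 2 * ν
  ε1 : 200 * (r : ℝ) ^ 2 * δ' ≤ ε
  apr : Apr r (δ / (30 * r ^ 2)) G
  big : 1 ≤ δ / (30 * r ^ 2) * ν
  hk : (k : ℝ) ≤ (th2 r - ε) * ν
  rk : 2 * r ≤ k + 1
  he : 2 * (ec G : ℝ) = tu2 r N + 2 * k
  kind : Kind r bk g₀ cp
  or : OrS r bk g₀ cp (lam G) (tu2 r N + 2 * k)

lemma ec_le3 {G : SimpleGraph V} {c : V → ℕ} {r : ℕ} (hc : ∀ v, c v ≤ r) {z w : V} {Y X : Finset V}
    (h : G ≤ Kc c ⊔ Sg z Y ⊔ Sg w X) : 2 * (ec G : ℝ) ≤ eK2 r (cn c) + 2 * (Y.card + X.card) := by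
  have a1 : ∀ H K : SimpleGraph V, ec (H ⊔ K) ≤ ec H + ec K := fun H K => by
    unfold ec
    rw [SimpleGraph.edgeSet_sup]
    exact Set.ncard_union_le _ _
  have a2 : ec G ≤ ec (Kc c) + Y.card + X.card := (ec_mono h).trans ((a1 _ _).trans
    (add_le_add ((a1 _ _).trans (add_le_add le_rfl (ec_Sg_le _ _))) (ec_Sg_le _ _)))
  have a3 : (ec G : ℝ) ≤ ec (Kc c) + Y.card + X.card := by exact_mod_cast a2
  linarith [Mo_Kc' hc]

namespace Ext

variable {r N k bk g₀ cp : ℕ} {ε δ δ' ν : ℝ} {G : SimpleGraph V}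
  (h : Ext r N k bk g₀ cp ε δ δ' ν G)
include h

lemma R3 : (3 : ℝ) ≤ r := by exact_mod_cast h.r3

lemma η0 : 0 < δ / (30 * r ^ 2) := by have := h.R3; have := h.δ0; positivity

lemma ηδ : 30 * r ^ 2 * (δ / (30 * r ^ 2)) = δ := by have := h.R3; field_simp

lemma η1 : 100 * (δ / (30 * r ^ 2)) ≤ 1 := by
  have a1 : (9 : ℝ) ≤ r ^ 2 := by nlinarith [h.R3]
  nlinarith [h.ηδ, mul_le_mul_of_nonneg_right a1 h.η0.le, mul_le_mul_of_nonneg_right a1 h.δ0.le, h.δ1]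

lemma ν0 : 0 < ν := by
  by_contra hn
  nlinarith [h.big, h.η0]

lemma hk' : (k : ℝ) ≤ th2 r * ν := by
  have : 0 ≤ ε := le_trans (by have := h.d0; positivity) h.ε1
  linarith [h.hk, mul_nonneg this h.ν0.le]

lemma near : (1 - 5 * (δ / (30 * r ^ 2))) * ((r - 1) * ν) ≤ lam G ∧
    lam G ≤ (1 + 3 * (δ / (30 * r ^ 2))) * ((r - 1) * ν) ∧
      r * (r - 1) * ((1 - δ / (30 * r ^ 2)) * ν) ^ 2 ≤ 2 * ec G := by
  refine h.apr.near h.r3 h.η0 h.η1 h.hN h.big (h.hk'.trans ?_) h.he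
  refine mul_le_mul_of_nonneg_right ?_ h.ν0.le
  rw [th2, div_le_iff₀ (by linarith [h.R3])]
  nlinarith [h.R3]

lemma rg : Rg r δ ν (lam G) := by
  have a1 := h.near
  have a2 := h.ηδ
  have a3 := h.big
  have a4 := mul_pos h.η0 h.ν0
  have R3 := h.R3
  generalize δ / (30 * r ^ 2) = η at *
  have a5 : δ * ν = 30 * r ^ 2 * (η * ν) := by rw [← a2]; ring
  have a6 := mul_le_mul_of_nonneg_right (show 5 * (r - 1 : ℝ) ≤ 30 * r ^ 2 by nlinarith only [R3]) a4.le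
  refine ⟨h.r3, h.δ0, h.δ1, by nlinarith only [R3, a3, a5], abs_le.2 ⟨by linarith [a1.1], ?_⟩⟩
  linarith [a1.2.1, mul_pos (show (0 : ℝ) < r - 1 by linarith) a4]

lemma deg {c : V → ℕ} (hc : ∀ v, c v ≤ r) {H : SimpleGraph V} (h1 : Kc c \ H ≤ G) (h2 : ec H ≤ 2)
    (h3 : ∀ i ∈ Icc 1 r, 1 ≤ cn c i) : ∀ i ∈ Icc 1 r, ∑ j ∈ (Icc 1 r).erase i, (cn c j : ℝ) ≤
      (1 + 9 * (δ / (30 * r ^ 2))) * ((r - 1) * ν) := by
  intro i hi
  obtain ⟨v, hv⟩ := card_pos.1 (h3 i hi)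
  obtain rfl : c v = i := (mem_filter.1 hv).2
  have a1 : dg (Kc c) v ≤ dg G v + dg H v := by
    rw [dg, dg, dg, ← sum_add_distrib]
    refine sum_le_sum fun u _ => ?_
    have b1 := ad_nonneg G v u
    have b2 := ad_nonneg H v u
    by_cases a : (Kc c).Adj v u
    · by_cases b : H.Adj v u
      · linarith [ad_le_one (Kc c) v u, show ad H v u = 1 from if_pos b]
      · linarith [ad_le_one (Kc c) v u, show ad G v u = 1 from if_pos (h1 ⟨a, b⟩)]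
    · linarith [show ad (Kc c) v u = 0 from if_neg a]
  have a2 : dg H v ≤ 2 := by
    rw [dg, sum_ad, ← AHa_deg]
    exact_mod_cast (ec_mono (Sg_le fun u hu => by simpa using hu)).trans h2
  have a3 := h.apr.deg v
  have a4 := h.apr.big
  have a5 := h.near.2.1
  have a6 := h.η0
  have a7 := h.η1
  have a8 := mul_pos (show (0 : ℝ) < r - 1 by linarith [h.R3]) h.ν0
  rw [← dg_Kc hc (by have := mem_Icc.1 hi; omega)]
  generalize δ / (30 * r ^ 2) = η at *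
  have a9 := mul_le_mul_of_nonneg_left a5 (show 0 ≤ 1 + 5 * η by linarith)
  nlinarith only [mul_le_mul_of_nonneg_right a7 (mul_pos a6 a8).le, mul_pos a6 a8, a1, a2, a8, a3, a4, a6, a7, a9]

lemma cl {n : ℕ → ℕ} (h1 : ∀ i ∈ Icc 1 r, ∑ j ∈ (Icc 1 r).erase i, (n j : ℝ) ≤
      (1 + 9 * (δ / (30 * r ^ 2))) * ((r - 1) * ν))
    (h2 : 2 * (ec G : ℝ) ≤ eK2 r n + 6 * ((r - 1) * ν)) : ∀ i ∈ Icc 1 r, Cl δ ν (n i) := by
  have a1 := sizes h.r3 h.η0 h.η1 h.ν0 h1 (by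
    have a1 := h.near.2.2
    have a3 := h.big
    have a6 := h.η0
    have R3 := h.R3
    have a8 := mul_pos (show (0 : ℝ) < r - 1 by linarith) h.ν0
    generalize δ / (30 * r ^ 2) = η at *
    have b1 := mul_le_mul_of_nonneg_left a3 a8.le
    have b2 := mul_le_mul_of_nonneg_right R3 (mul_pos a8 (mul_pos a6 h.ν0)).le
    have b3 : 0 ≤ r * (r - 1) * (η * ν) ^ 2 := mul_nonneg (by nlinarith) (sq_nonneg _)
    linarith [mul_pos a8 (mul_pos a6 h.ν0)])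
  rwa [h.ηδ] at a1

lemma erase_le {n : ℕ → ℕ} (h1 : ∀ i ∈ Icc 1 r, ∑ j ∈ (Icc 1 r).erase i, (n j : ℝ) ≤
      (1 + 9 * (δ / (30 * r ^ 2))) * ((r - 1) * ν)) {i : ℕ} (hi : i ∈ Icc 1 r) :
    ∑ j ∈ (Icc 1 r).erase i, (n j : ℝ) ≤ 2 * ((r - 1) * ν) :=
  (h1 i hi).trans (mul_le_mul_of_nonneg_right (by linarith [h.η1])
    (mul_pos (show (0 : ℝ) < r - 1 by linarith [h.R3]) h.ν0).le)

lemma cp1 : cp ≤ 1 := by rcases h.kind with e | e | e <;> omega

lemma l2 : 2 < lam G := by linarith [h.rg.μ5]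

lemma rν : 3 * (r : ℝ) ≤ (r - 1) * ν := by nlinarith [h.rg.ν1, h.R3]

lemma glob {n y x : ℕ → ℕ} (hn : ∀ i ∈ Icc 1 r, Cl δ ν (n i)) (hs : N ≤ ∑ i ∈ Icc 1 r, n i)
    {g e α β C : ℝ} (a0 : 0 ≤ α) (b0 : 0 ≤ β) (g0 : 0 ≤ g) (g1 : g ≤ C) (e1 : e ≤ 1)
    (C1 : C ≤ δ' * ν ∨ C ≤ 2 * r) (hx : ∑ i ∈ Icc 1 r, (x i : ℝ) ≤ C)
    (hy : ∀ d, Rg r d ν (lam G) → (∀ i ∈ Icc 1 r, Cl d ν (n i)) →
      ∑ i ∈ Icc 1 r, (y i : ℝ) ≤ (r - 1) * (1 + 2 * d) * ν)
    (he : eK2 r n + 2 * ∑ i ∈ Icc 1 r, (y i : ℝ) ≤ tu2 r N + 2 * k + 2 * C)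
    (up : 1 ≤ PhS r (lam G) n y x g e α β) :
    ∑ i ∈ Icc 1 r, n i = N ∧ ∑ i ∈ Icc 1 r, (y i : ℝ) ≤ th2 r * ν ∧
      Rg r (50 * r / ν) ν (lam G) := by
  have rg := h.rg
  have R3 := h.R3
  have ν0 := h.ν0
  have d0 := h.d0
  have d3 : δ' ≤ 1 := by linarith [h.d1, rg.δ3]
  have d4 : 51 * r ≤ δ' * ν := h.d2.trans (by
    rw [sq, mul_assoc]; exact mul_le_of_le_one_left (by positivity) d3)
  have C2 : C ≤ δ' * ν := C1.elim id fun a => by linarith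
  have d5 : 1000 * (r : ℝ) ^ 2 * δ' ≤ 1 :=
    (mul_le_mul_of_nonneg_left h.d1 (by positivity)).trans h.δ1
  obtain ⟨T, hT, c⟩ := rg.cand h.hN h.cp1 h.hk' h.rk h.or
  obtain ⟨b1, b2⟩ := rg.boot h.hN (h.hk'.trans rg.th2_le) hT
    ((le_add_of_nonneg_right (div_nonneg (sq_nonneg _) rg.μ0.le)).trans c) hn hs a0 b0 g0 g1 e1
    (C2.trans (mul_le_mul_of_nonneg_right h.d1 ν0.le)) hx (hy δ rg hn) he up
  have rg' : Rg r δ' ν (lam G) := ⟨h.r3, d0, d5, by linarith, b1.trans (by linarith)⟩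
  have cl' : ∀ i ∈ Icc 1 r, Cl δ' ν (n i) := fun i hi => abs_le_of_sq_le_sq ((b2 i hi).trans
    (by linarith [mul_le_mul_of_nonneg_right h.d2 ν0.le])) (by positivity)
  obtain ⟨T, hT, c⟩ := rg'.cand h.hN h.cp1 h.hk' h.rk h.or
  obtain ⟨g2, g3⟩ := rg'.global h.hN h.ε1 h.hk (by have := h.rk; have := h.r3; omega) hT c cl' hs
    a0 b0 g0 g1 e1 C2 hx (hy δ' rg' cl') he up
  have e : 50 * r / ν * ν = 50 * r := div_mul_cancel₀ _ ν0.ne'
  refine ⟨g2, g3, h.r3, by positivity, ?_, by linarith, b1.trans (by linarith)⟩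
  refine le_trans (mul_le_mul_of_nonneg_left ?_ (by positivity)) d5
  rw [div_le_iff₀ ν0]
  linarith

theorem noB {C : ℕ} (hB : FB r C G) (hC : C < k) (C1 : (C : ℝ) + 2 ≤ δ' * ν) : False := by
  obtain ⟨c, z, w, Y, X, H, h1, h2, h3, h4, h5, h6, h7, h8, h9, h10, h11⟩ := hB
  have rg := h.rg
  have a1 := ec_le3 h2 h1
  have a2 : (Y.card : ℝ) + X.card ≤ C := by exact_mod_cast h10
  have a3 : (C : ℝ) < k := by exact_mod_cast hC
  have y0 : (0 : ℝ) ≤ Y.card := Nat.cast_nonneg _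
  have x0 : (0 : ℝ) ≤ X.card := Nat.cast_nonneg _
  have C2 := C1.trans (mul_le_mul_of_nonneg_right h.d1 rg.ν0.le)
  have C3 := mul_le_mul_of_nonneg_right h.R3 rg.ν0.le
  have cl := h.cl (h.deg h2 h8 h9 h11) (by linarith [rg.δν, rg.ν0])
  have a4 : ¬ ∑ i ∈ Icc 1 r, cn c i ≤ N := fun e => by
    have := eK2_le (a := 1) (t := 0) (mem_Icc.2 ⟨le_rfl, by have := h.r3; omega⟩) e
    simp only [Nat.cast_zero, mul_zero, zero_mul, add_zero] at this
    linarith [h.he]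
  obtain ⟨α, β, a0, -, b0, -, up⟩ := upperS h1 h2 h3 h4 h5 h6 h7 h.l2
  have a5 : ∑ i ∈ Icc 1 r, (ct c Y i : ℝ) = Y.card := by exact_mod_cast sum_ct h2 h5
  have a6 : ∑ i ∈ Icc 1 r, (ct c X i : ℝ) ≤ X.card := by
    have := sum_lab h2 X fun _ => (1 : ℝ)
    simp only [sum_ind, sum_const, nsmul_eq_mul, mul_one] at this
    linarith [Nat.cast_nonneg (α := ℝ) (X.filter fun v => c v = 0).card]
  have a7 : (ec (Kc c) : ℝ) ≤ ec G + 2 := by
    have b1 : ec (Kc c) ≤ ec (G ⊔ H) := ec_mono fun u v a => by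
      by_cases b : H.Adj u v
      exacts [Or.inr b, Or.inl (h8 ⟨a, b⟩)]
    have b2 : ec (G ⊔ H) ≤ ec G + ec H := by
      unfold ec
      rw [SimpleGraph.edgeSet_sup]
      exact Set.ncard_union_le _ _
    exact_mod_cast (by omega : ec (Kc c) ≤ ec G + 2)
  have a8 : ((X ∩ Y).card : ℝ) ≤ X.card := by exact_mod_cast card_le_card inter_subset_left
  refine a4 (h.glob (C := C + 2) cl (not_le.1 a4).le a0 b0 (Nat.cast_nonneg _) (by linarith)
    (by split_ifs <;> norm_num) (Or.inl C1) (by linarith) (fun d rd _ => ?_)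
    (by linarith [Mo_Kc' h2, h.he]) up).1.le
  linarith [rg.δν, rg.ν0, mul_le_mul_of_nonneg_right h.R3 (mul_pos rd.δ0 rg.ν0).le,
    mul_pos rd.δ0 rg.ν0]

theorem star {c : V → ℕ} {z w : V} {Y X : Finset V} {a : ℕ} (s : SD r bk g₀ cp c z w Y X a)
    (e : G = Tg c ⊥ z Y w X) (h1 : ∀ i ∈ Icc 1 r, 1 ≤ cn c i) : ∃ a' α β,
      SD r bk g₀ cp c z w Y X a' ∧ Bal r N (cn c) ∧ (∀ i ∈ Icc 1 r, cn c i ≤ cn c a') ∧
      Gr ((Icc 1 r).erase a') (1 - bk) cp (cn c) (ct c Y) ∧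
      OptS r bk g₀ cp (50 * r / ν) ν (lam G) (tu2 r N + 2 * k) (cn c) a' (ct c Y) α β := by
  have rg := h.rg
  have R3 := h.R3
  have a1 := s.ec_eq
  rw [← e] at a1
  have a2 : ∑ i ∈ Icc 1 r, (ct c Y i : ℝ) ≤ ∑ i ∈ (Icc 1 r).erase a, (cn c i : ℝ) := by
    rw [s.dat.sum_eq]
    exact sum_le_sum fun i _ => by exact_mod_cast ct_le c Y i
  have dg := h.deg s.ok.le (H := ⊥) (e ▸ le_sup_left.trans le_sup_left) (by rw [ec_bot]; omega) h1
  have cl := h.cl dg (by linarith [h.erase_le dg s.dat.ha, h.rν])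
  have rk : (2 * r : ℝ) ≤ k + 1 := by exact_mod_cast h.rk
  have a4 : N ≤ ∑ i ∈ Icc 1 r, cn c i := by
    by_contra hn
    have := eK2_le (t := 1) s.dat.ha (show ∑ i ∈ Icc 1 r, cn c i + 1 ≤ N by omega)
    push_cast at this
    linarith [h.he]
  obtain ⟨α, β, a0, a3, b0, b1, up⟩ := upperS (G := G) (c := c) (z := z) (w := w) (Y := Y) (X := X)
    (by rw [e, Tg, sdiff_bot]) s.ok.le s.ok.o0 s.ok.w0 s.ok.hS s.ok.hX
    (fun e => (s.ok.ow e).elim) h.l2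
  rw [s.PhS_eq] at up
  rw [s.card] at b1
  have g1 : g₀ ≤ r := by rcases h.kind with e | e | e <;> omega
  have a5 : ∑ i ∈ Icc 1 r, (xS bk a i : ℝ) ≤ 2 * r := by
    have := sum_xS s.dat.ha bk
    have := s.bk1
    exact_mod_cast (by omega : ∑ i ∈ Icc 1 r, xS bk a i ≤ 2 * r)
  obtain ⟨g2, g3, g4⟩ := h.glob (C := 2 * r) cl a4 a0 b0 (gS_le s.bk1 g1 _).1 (gS_le s.bk1 g1 _).2
    (by linarith [Nat.cast_nonneg (α := ℝ) bk]) (Or.inr le_rfl) a5 (fun d rd cl => by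
      have := rd.sum_erase_le cl s.dat.ha
      nlinarith only [mul_pos rd.δ0 rg.ν0, R3, a2, this]) (by linarith [h.he]) up
  have o : OptS r bk g₀ cp δ ν (lam G) (tu2 r N + 2 * k) (cn c) a (ct c Y) α β :=
    ⟨rg, s.bk1, h.cp1, g1, h.or, cl, s.dat, by linarith [h.he], a0, a3, b0, b1, up,
      h.or _ _ _ (rg.two_le cl) s.dat (rg.room cl s.dat.ha (by rw [← s.dat.sum_eq]; linarith))
        (by linarith [h.he])⟩
  have hb := o.bal rfl h.rk g2 g3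
  have d1 : 1 ≤ ∑ i ∈ Icc 1 r, (ct c Y i : ℝ) := by linarith [hb.eK2, h.he]
  obtain ⟨a', o', t, t'⟩ := o.largest hb g3 d1
  refine ⟨a', α, β, ⟨s.ok, o'.dat, fun i hi => ?_, s.hz, s.kd⟩, hb, t, o'.greedy g3 d1,
    { o' with rg := g4, cl := fun i hi => g4.cl_of_bal h.hN hb hi }⟩
  rw [s.hx i hi]
  rcases t' with e | e
  · rw [e]
  · simp [e, xS]

theorem pair {c : V → ℕ} {z b w : V} {X : Finset V} (s : POK r c z b w X)
    (hx : ∀ i ∈ Icc 1 r \ {c z, c b}, 1 ≤ ct c X i) (e : G = Pg c z b w X)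
    (h1 : ∀ i ∈ Icc 1 r, 1 ≤ cn c i) (op : OrP r (lam G) (tu2 r N + 2 * k)) : ∃ α γ β,
      Bal r N (cn c) ∧ (∀ i ∈ Icc 1 r \ {c z, c b}, cn c i ≤ cn c (c z) ∧ cn c i ≤ cn c (c b)) ∧
      OptP r (50 * r / ν) ν (lam G) (tu2 r N + 2 * k) (cn c) (c z) (c b) (ct c X) α γ β := by
  have rg := h.rg
  have R3 := h.R3
  have ha : c z ∈ Icc 1 r := mem_Icc.2 ⟨Nat.one_le_iff_ne_zero.2 s.z0, s.le z⟩
  have hb : c b ∈ Icc 1 r := mem_Icc.2 ⟨Nat.one_le_iff_ne_zero.2 s.b0, s.le b⟩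
  have a1 := s.ec2
  rw [← e] at a1
  have a2 : ∑ i ∈ Icc 1 r \ {c z, c b}, (ct c X i : ℝ) ≤ ∑ i ∈ (Icc 1 r).erase (c z), (cn c i : ℝ) := by
    rw [sum_er (mem_erase.2 ⟨s.zb.symm, hb⟩)]
    exact le_add_of_le_of_nonneg (sum_le_sum fun i _ => by exact_mod_cast ct_le c X i)
      (Nat.cast_nonneg _)
  have dg := h.deg s.le (H := Sg z {b}) (e ▸ le_sup_left)
    ((ec_Sg_le _ _).trans (by simp)) h1
  have cl := h.cl dg (by linarith [h.erase_le dg ha, h.rν])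
  have rk : (2 * r : ℝ) ≤ k + 1 := by exact_mod_cast h.rk
  have a4 : N ≤ ∑ i ∈ Icc 1 r, cn c i := by
    by_contra hn
    have := eK2_le (t := 1) ha (show ∑ i ∈ Icc 1 r, cn c i + 1 ≤ N by omega)
    push_cast at this
    linarith [h.he]
  have lab : ∀ v ∈ insert z (insert b X), c v ≠ 0 := fun v hv => by
    simp only [mem_insert] at hv
    rcases hv with e | e | e
    exacts [e ▸ s.z0, e ▸ s.b0, (s.hX v e).1]
  obtain ⟨α, β, a0, -, b0, -, up⟩ := upperS (G := G) (c := c) (z := w) (w := w)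
    (Y := insert z (insert b X)) (X := ∅)
    (e ▸ (sup_le_sup_right sdiff_le _).trans le_sup_left) s.le s.w0 s.w0 lab (by simp)
    (fun _ => rfl) h.l2
  have a5 : ∑ i ∈ Icc 1 r, (ct c (insert z (insert b X)) i : ℝ) = X.card + 2 := by
    have zb : z ≠ b := fun e => s.zb (e ▸ rfl)
    have zX : z ∉ X := fun a => (s.hX z a).2.1 rfl
    have bX : b ∉ X := fun a => (s.hX b a).2.2 rfl
    rw [← Nat.cast_sum, sum_ct s.le lab, card_insert_of_notMem (by simp [zb, zX]),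
      card_insert_of_notMem bX]
    push_cast
    ring
  have a6 := s.sumX
  obtain ⟨g2, g3, g5⟩ := h.glob (C := 1) cl a4 a0 b0 (Nat.cast_nonneg _) (by simp) (by simp)
    (Or.inr (by linarith)) (by simp [ct]) (fun d rd cl => by
      have := rd.sum_erase_le cl ha
      nlinarith only [mul_pos rd.δ0 rg.ν0, rd.big, R3, a2, a5, a6, this]) (by linarith [h.he]) up
  have l2 := h.l2
  rw [e] at l2
  obtain ⟨α, γ, β, p1, p2, p3, p4, p5, p6, p7⟩ := upperP s l2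
  rw [← e] at p2 p4 p6 p7
  have o : OptP r δ ν (lam G) (tu2 r N + 2 * k) (cn c) (c z) (c b) (ct c X) α γ β :=
    ⟨rg, op, cl, ha, hb, s.zb, fun i hi => ⟨hx i hi, ct_le c X i⟩, by linarith [h.he],
      p1, p2, p3, p4, p5, p6, p7⟩
  have g4 : ∑ i ∈ Icc 1 r \ {c z, c b}, (ct c X i : ℝ) ≤ th2 r * ν := by linarith
  have bal := o.bal rfl h.rk g2 g4
  exact ⟨α, γ, β, bal, fun i hi => ⟨o.largest bal g4 i hi,
    o.symm.largest bal (pair_comm (c z) (c b) ▸ g4) i (pair_comm (c z) (c b) ▸ hi)⟩,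
    { o with rg := g5, cl := fun i hi => g5.cl_of_bal h.hN bal hi }⟩

end Ext

lemma Bal.top {r N a a₀ : ℕ} {n n₀ : ℕ → ℕ} (h : Bal r N n) (h₀ : Bal r N n₀) (ha : a ∈ Icc 1 r)
    (ha₀ : a₀ ∈ Icc 1 r) (t : ∀ i ∈ Icc 1 r, n i ≤ n a) : n₀ a₀ ≤ n a := by
  by_contra hn
  have a1 := h.1 a ha
  have a2 := h₀.1 a₀ ha₀
  have a3 : 0 < N % r := h₀.card ▸ card_pos.2 ⟨a₀, mem_filter.2 ⟨ha₀, by omega⟩⟩
  obtain ⟨i, hi⟩ := card_pos.1 (h.card ▸ a3)
  have := t i (mem_filter.1 hi).1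
  have := (mem_filter.1 hi).2
  omega

lemma Bal.second {r N a b : ℕ} {n : ℕ → ℕ} (h : Bal r N n) (ha : a ∈ Icc 1 r)
    (hb : b ∈ (Icc 1 r).erase a) (t : ∀ i ∈ Icc 1 r, n i ≤ n a)
    (t' : ∀ i ∈ Icc 1 r \ {a, b}, n i ≤ n b) : n b = N / r + if N % r ≤ 1 then 0 else 1 := by
  split_ifs with q
  · exact h.small q ha t b hb
  · obtain ⟨i, hi, ia⟩ := exists_mem_ne (s := (Icc 1 r).filter fun i => n i = N / r + 1)
      (by rw [h.card]; omega) a
    obtain ⟨i1, i2⟩ := mem_filter.1 hi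
    have := h.1 b (mem_of_mem_erase hb)
    by_cases e : i = b
    · rwa [← e]
    · have := t' i (mem_J.2 ⟨i1, ia, e⟩)
      omega

lemma Rg.top_le {r N : ℕ} {δ ν μ : ℝ} (h : Rg r δ ν μ) (hN : ν = N / r) :
    ((N / r + 1 : ℕ) : ℝ) ≤ 51 / 100 * μ := by
  have a1 : ((N / r : ℕ) : ℝ) ≤ ν := hN ▸ Nat.cast_div_le
  push_cast
  linarith [h.μ3, h.ν1, h.R3]

theorem OptS.uniq {r bk g₀ cp N : ℕ} {δ ν μ M : ℝ} {n₀ : ℕ → ℕ} {a₀ : ℕ} {y₀ : ℕ → ℕ} {α β : ℝ}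
    (h : OptS r bk g₀ cp δ ν μ M n₀ a₀ y₀ α β) (hN : ν = N / r) (b₀ : Bal r N n₀)
    (t₀ : ∀ i ∈ Icc 1 r, n₀ i ≤ n₀ a₀) {n y : ℕ → ℕ} {a : ℕ} (d : DatS r bk cp n a y) (b : Bal r N n)
    (t : ∀ i ∈ Icc 1 r, n i ≤ n a) (g : Gr ((Icc 1 r).erase a) (1 - bk) cp n y)
    (e : eK2 r n + 2 * ∑ i ∈ Icc 1 r, (y i : ℝ) + 2 * r = M) : 1 ≤ PhK r μ bk g₀ n a y α β := by
  have μ0 := h.rg.μ0
  have e1 : n a = n₀ a₀ := le_antisymm (b₀.top b h.dat.ha d.ha t₀) (b.top b₀ d.ha h.dat.ha t)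
  have e2 : ∑ i ∈ (Icc 1 r).erase a₀, y₀ i = ∑ i ∈ (Icc 1 r).erase a, y i := by
    have := h.ed
    rw [b₀.eK2, h.dat.sum_eq] at this
    rw [b.eK2, d.sum_eq] at e
    exact_mod_cast (by push_cast; linarith : ((∑ i ∈ (Icc 1 r).erase a₀, y₀ i : ℕ) : ℝ) =
      (∑ i ∈ (Icc 1 r).erase a, y i : ℕ))
  have a1 := opt_of_gr (h := hS μ bk α β) d.ad g h.dat.ad (fun i hi => b.1 i (mem_of_mem_erase hi))
    (fun i hi => b₀.1 i (mem_of_mem_erase hi))
    (by have := card_er d.ha; have := card_er h.dat.ha; omega) (by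
      have := add_sum_erase _ n d.ha
      have := add_sum_erase _ n₀ h.dat.ha
      have := b.2
      have := b₀.2
      omega) e2
    (fun n s s' hs => by
      have a1 := hS_m1 μ0 bk h.a0 h.b0 n hs
      have a2 : (s : ℝ) ≤ s' := by exact_mod_cast hs
      have a3 : 0 ≤ 2 * (s' - s) * α ^ 2 / (μ * (μ + n)) :=
        div_nonneg (mul_nonneg (by linarith) (by positivity)) (by positivity)
      linarith)
    fun s s' hs => by
      have a1 := hS_m2 (s' := s') h.bk1 h.a0 h.a1 h.b0 h.b1 (by linarith [h.rg.R3])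
        (by linarith [h.rg.μ4, h.rg.R3]) (Nat.lt_succ_self _) (h.rg.top_le hN) hs
      have a3 : 0 ≤ α / (100 * μ ^ 2) := by have := h.a0; positivity
      linarith
  have a2 := h.up
  rw [PhK_eq h.dat.ha _ _ _ _ h.dat.ya, e2, ← e1] at a2
  rw [PhK_eq d.ha _ _ _ _ d.ya]
  linarith

theorem OptP.uniq {r N : ℕ} {δ ν μ M : ℝ} {n₀ x₀ : ℕ → ℕ} {a₀ b₀ : ℕ} {α γ β : ℝ}
    (h : OptP r δ ν μ M n₀ a₀ b₀ x₀ α γ β) (hN : ν = N / r) (l₀ : Bal r N n₀)
    (t₀ : ∀ i ∈ Icc 1 r \ {a₀, b₀}, n₀ i ≤ n₀ a₀ ∧ n₀ i ≤ n₀ b₀) {n x : ℕ → ℕ} {a b : ℕ}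
    (ha : a ∈ Icc 1 r) (hb : b ∈ Icc 1 r) (ab : a ≠ b) (d : Ad (Icc 1 r \ {a, b}) 1 0 n x)
    (l : Bal r N n) (t : ∀ i ∈ Icc 1 r \ {a, b}, n i ≤ n a ∧ n i ≤ n b)
    (g : Gr (Icc 1 r \ {a, b}) 1 0 n x)
    (e : eK2 r n + 2 * ∑ i ∈ Icc 1 r \ {a, b}, (x i : ℝ) + 2 = M) :
    ∃ α' γ', 1 ≤ PhP r μ n a b x α' γ' β := by
  wlog w₀ : n₀ b₀ ≤ n₀ a₀ generalizing a₀ b₀ α γ
  · exact this h.symm (fun i hi => (t₀ i (pair_comm a₀ b₀ ▸ hi)).symm) (not_le.1 w₀).le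
  wlog w : n b ≤ n a generalizing a b
  · obtain ⟨α', γ', p⟩ := this hb ha ab.symm (pair_comm a b ▸ d)
      (fun i hi => (t i (pair_comm a b ▸ hi)).symm) (pair_comm a b ▸ g) (pair_comm a b ▸ e)
      (not_le.1 w).le
    exact ⟨γ', α', PhP_symm r μ n b a x α' γ' β ▸ p⟩
  have tp : ∀ {n : ℕ → ℕ} {a b : ℕ}, (∀ i ∈ Icc 1 r \ {a, b}, n i ≤ n a ∧ n i ≤ n b) → n b ≤ n a →
      ∀ i ∈ Icc 1 r, n i ≤ n a := fun {n a b} t w i hi => by
    by_cases p : i = a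
    · rw [p]
    · by_cases q : i = b
      · rwa [q]
      · exact (t i (mem_J.2 ⟨hi, p, q⟩)).1
  have μ0 := h.rg.μ0
  have e1 : n a = n₀ a₀ := le_antisymm (l₀.top l h.ha ha (tp t₀ w₀)) (l.top l₀ ha h.ha (tp t w))
  have e3 : n b = n₀ b₀ :=
    (l.second ha (mem_erase.2 ⟨ab.symm, hb⟩) (tp t w) fun i hi => (t i hi).2).trans
      (l₀.second h.ha (mem_erase.2 ⟨h.ab.symm, h.hb⟩) (tp t₀ w₀) fun i hi => (t₀ i hi).2).symm
  have e2 : ∑ i ∈ Icc 1 r \ {a₀, b₀}, (x₀ i : ℝ) = ∑ i ∈ Icc 1 r \ {a, b}, (x i : ℝ) := by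
    linarith only [h.ed, l₀.eK2, l.eK2, e]
  have a1 := opt_of_gr (h := hS μ 0 β 0) d g h.ad (fun i hi => l.1 i (mem_J.1 hi).1)
    (fun i hi => l₀.1 i (mem_J.1 hi).1)
    (by have := card_pair_sdiff ha hb ab; have := card_pair_sdiff h.ha h.hb h.ab; omega) (by
      have p1 := sum_pair_sdiff ha hb ab fun i => (n i : ℝ)
      have p2 := sum_pair_sdiff h.ha h.hb h.ab fun i => (n₀ i : ℝ)
      rw [← Nat.cast_sum, l.2, e1, e3] at p1
      rw [← Nat.cast_sum, l₀.2] at p2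
      exact_mod_cast (by push_cast; linarith : ((∑ i ∈ Icc 1 r \ {a₀, b₀}, n₀ i : ℕ) : ℝ) =
        (∑ i ∈ Icc 1 r \ {a, b}, n i : ℕ))) (by exact_mod_cast e2)
    (fun n s s' hs => by
      have a1 := hS_m1 μ0 0 h.b0 le_rfl n hs
      have a2 : (s : ℝ) ≤ s' := by exact_mod_cast hs
      have a3 : 0 ≤ 2 * (s' - s) * β ^ 2 / (μ * (μ + n)) :=
        div_nonneg (mul_nonneg (by linarith) (by positivity)) (by positivity)
      linarith)
    fun s s' hs => by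
      have a1 := hS_m2 (s' := s') (R := 1) (Nat.zero_le 1) h.b0 h.b1 le_rfl
        (by rw [mul_zero]; exact h.b0.trans h.b1) le_rfl (by linarith [h.rg.μ5])
        (Nat.lt_succ_self _) (h.rg.top_le hN) hs
      have a3 : 0 ≤ β / (100 * μ ^ 2) := by have := h.b0; positivity
      linarith
  have a2 := h.up
  refine ⟨α, γ, ?_⟩
  rw [PhP, e2, ← e1, ← e3] at a2
  rw [PhP]
  simp only [hS, Nat.cast_zero, mul_zero, zero_div, add_zero] at a1
  linarith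

end Pool.Agent.P.MP_094db5_co

end
end

section

/-! Translation between the normal forms and the stated families. -/

set_option autoImplicit false

open Finset Classical

noncomputable section

namespace Pool.Agent.P.MP_094db5_co

variable {V : Type} [Fintype V]

lemma sz_eq (c : V → ℕ) : sz c = cn c := funext fun i => cn_eq c i

lemma turan_iff {r N : ℕ} {c : V → ℕ} : Turan r N c ↔ Bal r N (cn c) := by
  rw [Turan, sz_eq]; rfl

lemma greedy_iff {c : V → ℕ} {I : Finset ℕ} {l u : ℕ} {Y : Finset V} : Greedy c I l u Y ↔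
    (∀ v ∈ Y, c v ∈ I) ∧ Ad I l u (cn c) (ct c Y) ∧ Gr I l u (cn c) (ct c Y) := by
  simp only [Greedy, sz_eq, pc_ct, mem_coe]; rfl

/-- optimal star form -/
def OS (r bk g₀ cp : ℕ) (G : SimpleGraph V) (c : V → ℕ) : Prop := ∃ z w Y X a,
  SD r bk g₀ cp c z w Y X a ∧ G = Tg c ⊥ z Y w X ∧ (∀ i ∈ Icc 1 r, 2 ≤ cn c i) ∧
    (∀ i ∈ Icc 1 r, cn c i ≤ cn c a) ∧ Gr ((Icc 1 r).erase a) (1 - bk) cp (cn c) (ct c Y)

/-- optimal pair form -/
def OP (r : ℕ) (G : SimpleGraph V) (c : V → ℕ) : Prop := ∃ z b w X, POK r c z b w X ∧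
  G = Pg c z b w X ∧ (∀ i ∈ Icc 1 r, 2 ≤ cn c i) ∧
  (∀ i ∈ Icc 1 r \ {c z, c b}, cn c i ≤ cn c (c z) ∧ cn c i ≤ cn c (c b)) ∧
  Ad (Icc 1 r \ {c z, c b}) 1 0 (cn c) (ct c X) ∧ Gr (Icc 1 r \ {c z, c b}) 1 0 (cn c) (ct c X)

omit [Fintype V] in
lemma eq_Tg_of_mp {G : SimpleGraph V} {r : ℕ} {c : V → ℕ} {w z : V} {X Y : Finset V}
    (h : Mp G r c (spokes w X ∪ spokes z Y) ∅) : G = Tg c ⊥ z Y w X := by
  ext u v
  have h1 := h.2.2 u v
  have h2 : G.Adj u v → u ≠ v := G.ne_of_adj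
  simp only [Set.mem_union, AAdm_spokes, mem_coe, Set.mem_empty_iff_false] at h1
  simp only [Tg_adj, cross, SimpleGraph.bot_adj]
  grind

lemma SD.greedy {r bk g₀ cp : ℕ} {c : V → ℕ} {z w : V} {Y X : Finset V} {a : ℕ}
    (h : SD r bk g₀ cp c z w Y X a) (g : Gr ((Icc 1 r).erase a) (1 - bk) cp (cn c) (ct c Y)) :
    Greedy c ((Icc 1 r).erase a) (1 - bk) cp Y :=
  greedy_iff.2 ⟨fun v hv => mem_erase.2 ⟨h.Ya v hv,
    mem_Icc.2 ⟨Nat.one_le_iff_ne_zero.2 (h.ok.hS v hv), h.ok.le v⟩⟩, h.dat.ad, g⟩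

lemma SD.tr {r g₀ cp : ℕ} {c : V → ℕ} {z w : V} {Y X : Finset V} {a : ℕ}
    (h : SD r 0 g₀ cp c z w Y X a) : Tr c ((Icc 1 r).erase a) (X.erase z : Finset V) ∧
      insert z ((X.erase z : Finset V) : Set V) = X :=
  ⟨⟨fun v hv => mem_erase.2 ⟨h.Xa rfl v (mem_of_mem_erase hv),
    mem_Icc.2 ⟨Nat.one_le_iff_ne_zero.2 (h.lab hv), h.ok.le v⟩⟩, fun i hi => by
      rw [pc_ct, h.ct_er (mem_of_mem_erase hi), xS, if_neg (ne_of_mem_erase hi)]⟩,
    by rw [← coe_insert, insert_erase (h.hz.2 rfl)]⟩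

lemma os_of {G : SimpleGraph V} {r bk g₀ cp a : ℕ} {c : V → ℕ} {w z : V} {X Y : Finset V}
    (hw : c w = 0) (hz : c z = 0) (wz : w ≠ z) (ha : a ∈ Icc 1 r)
    (t : ∀ i ∈ Icc 1 r, sz c i ≤ sz c a) (g : Greedy c ((Icc 1 r).erase a) (1 - bk) cp Y)
    (m : Mp G r c (spokes w X ∪ spokes z Y) ∅) (hX : ∀ v ∈ X, c v ≠ 0 ∨ v = z)
    (hx : ∀ i ∈ Icc 1 r, ct c X i = xS bk a i) (zX : z ∈ X ↔ bk = 0)
    (kd : (bk = 0 ∧ g₀ + 2 = r ∧ cp = 0 ∧ (X.erase z \ Y).card = 1) ∨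
      (bk = 1 ∧ g₀ = 0 ∧ cp = 0 ∧ ∀ v ∈ X, v ∈ Y ∨ ct c Y (c v) = 0) ∨
      (bk = 0 ∧ g₀ = 0 ∧ cp = 1 ∧ ∀ v ∈ X, v ∉ Y)) : OS r bk g₀ cp G c := by
  obtain ⟨g1, g2, g3⟩ := greedy_iff.1 g
  rw [sz_eq] at t
  exact ⟨z, w, Y, X, a, ⟨⟨m.1, bot_le, hz, hw, wz.symm,
    fun v hv => by have := mem_Icc.1 (mem_of_mem_erase (g1 v hv)); omega, hX⟩,
    ⟨ha, ct_zero.2 fun v hv => ne_of_mem_erase (g1 v hv), g2⟩, hx, zX, kd⟩, eq_Tg_of_mp m, m.one, t, g3⟩

omit [Fintype V] in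
lemma tr_insert {r a : ℕ} {c : V → ℕ} {z : V} {X : Finset V} (hz : c z = 0)
    (h : Tr c ((Icc 1 r).erase a) X) : z ∉ X ∧ (∀ v ∈ insert z X, c v ≠ 0 ∨ v = z) ∧
      ∀ i ∈ Icc 1 r, ct c (insert z X) i = xS 0 a i := by
  have x3 : ∀ v ∈ X, c v ≠ 0 := fun v hv => by
    have := mem_Icc.1 (mem_of_mem_erase (h.1 v hv)); omega
  refine ⟨fun b => x3 z b hz, fun v hv => (mem_insert.1 hv).elim Or.inr fun b => Or.inl (x3 v b),
    fun i hi => ?_⟩
  rw [ct, filter_insert, if_neg (by have := mem_Icc.1 hi; omega), ← ct, xS]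
  split_ifs with e
  · exact ct_zero.2 fun v hv => e ▸ ne_of_mem_erase (h.1 v hv)
  · rw [← pc_ct]; exact h.2 i (mem_erase.2 ⟨e, hi⟩)

theorem starB_iff {G : SimpleGraph V} {r t bk g₀ : ℕ} {c : V → ℕ} (hk : Kind r bk g₀ 0)
    (ht : bk = 0 ↔ t = 0) : StarB r t G c ↔ OS r bk g₀ 0 G c := by
  constructor
  · rintro ⟨w, z, a, X, Y, hw, hz, wz, ha, tp, h⟩
    lift X to Finset V using Set.toFinite X
    lift Y to Finset V using Set.toFinite Y
    split_ifs at h with e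
    · obtain rfl := ht.2 e
      obtain ⟨g, tr, n1, m⟩ := h
      obtain ⟨k1, k2, k3⟩ := tr_insert hz tr
      rw [← coe_insert] at m
      rw [← coe_sdiff, Set.ncard_coe_finset] at n1
      refine os_of hw hz wz ha tp g m k2 k3 (by simp) (Or.inl ⟨rfl, ?_, rfl, by rwa [erase_insert k1]⟩)
      rcases hk with e | e | e <;> omega
    · obtain ⟨rfl, rfl⟩ : bk = 1 ∧ g₀ = 0 := by
        have := mt ht.1 e
        rcases hk with e | e | e <;> omega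
      obtain ⟨g, tr, n1, m⟩ := h
      have x3 : ∀ v ∈ X, c v ≠ 0 := fun v hv => by have := mem_Icc.1 (tr.1 v hv); omega
      exact os_of hw hz wz ha tp g m (fun v hv => Or.inl (x3 v hv))
        (fun i hi => by rw [← pc_ct, tr.2 i hi, xS, ite_self])
        (iff_of_false (fun b => x3 z b hz) one_ne_zero)
        (Or.inr (Or.inl ⟨rfl, rfl, rfl, fun v hv => pc_ct c Y _ ▸ n1 v hv⟩))
  · rintro ⟨z, w, Y, X, a, s, rfl, two, tp, g⟩
    have m := s.mp' two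
    have g' := s.greedy g
    rw [← sz_eq] at tp
    rcases s.kd with ⟨rfl, -, -, e⟩ | ⟨rfl, -, -, e⟩ | ⟨-, -, e, -⟩
    · refine ⟨w, z, a, (X.erase z : Finset V), Y, s.ok.w0, s.ok.o0, s.ok.ow.symm, s.dat.ha, tp, ?_⟩
      rw [if_pos (ht.1 rfl), s.tr.2, ← coe_sdiff, Set.ncard_coe_finset]
      exact ⟨g', s.tr.1, e, m⟩
    · refine ⟨w, z, a, X, Y, s.ok.w0, s.ok.o0, s.ok.ow.symm, s.dat.ha, tp, ?_⟩
      rw [if_neg (mt ht.2 one_ne_zero)]
      refine ⟨g', ⟨fun v hv => mem_Icc.2 ⟨Nat.one_le_iff_ne_zero.2 ((s.ok.hX v hv).resolve_right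
        fun e => one_ne_zero (s.hz.1 (e ▸ hv))), s.ok.le v⟩, fun i hi => ?_⟩,
        fun v hv => pc_ct c Y _ ▸ e v hv, m⟩
      rw [pc_ct, s.hx i hi, xS, ite_self]
    · omega

theorem starW_iff {G : SimpleGraph V} {c : V → ℕ} : StarW G c ↔ OS 3 0 0 1 G c := by
  constructor
  · rintro ⟨w, z, a, X, Y, hw, hz, wz, ha, tp, g, tr, n1, m⟩
    lift X to Finset V using Set.toFinite X
    lift Y to Finset V using Set.toFinite Y
    obtain ⟨k1, k2, k3⟩ := tr_insert hz tr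
    rw [← coe_insert] at m
    refine os_of hw hz wz ha tp g m k2 k3 (by simp) (Or.inr (Or.inr ⟨rfl, rfl, rfl, fun v hv b => ?_⟩))
    rcases mem_insert.1 hv with e | e
    · have := mem_Icc.1 (mem_of_mem_erase (g.1 v b))
      rw [e] at this
      omega
    · exact Set.disjoint_left.1 n1 e b
  · rintro ⟨z, w, Y, X, a, s, rfl, two, tp, g⟩
    rw [← sz_eq] at tp
    refine ⟨w, z, a, (X.erase z : Finset V), Y, s.ok.w0, s.ok.o0, s.ok.ow.symm, s.dat.ha, tp,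
      s.greedy g, s.tr.1, Set.disjoint_left.2 fun v hv b => ?_, by rw [s.tr.2]; exact s.mp' two⟩
    rcases s.kd with ⟨-, e, -⟩ | ⟨e, -⟩ | ⟨-, -, -, e⟩
    · omega
    · omega
    · exact e v (mem_of_mem_erase hv) b

theorem pairB_iff {G : SimpleGraph V} {r : ℕ} {c : V → ℕ} : PairB r G c ↔ OP r G c := by
  have e1 : ∀ z b : V, spokes z {b} = {s(z, b)} := fun z b => by ext e; simp [spokes]
  have e2 : ∀ (z b : V) (X : Finset V),
      ((insert z (insert b X) : Finset V) : Set V) = (X : Set V) ∪ {z, b} := fun z b X => by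
    ext v; simp only [coe_insert, Set.mem_insert_iff, Set.mem_union, Set.mem_singleton_iff]; tauto
  constructor
  · rintro ⟨w, z, b, X, hw, hz, hb, zb, tp, g, m⟩
    lift X to Finset V using Set.toFinite X
    obtain ⟨g1, g2, g3⟩ := greedy_iff.1 g
    rw [sz_eq] at tp
    have s : POK r c z b w X := ⟨m.1, hw, hz, hb, zb, fun v hv => by
      have := mem_J.1 (g1 v hv)
      have := mem_Icc.1 this.1
      omega⟩
    refine ⟨z, b, w, X, s, ?_, m.one, tp, g2, g3⟩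
    ext u v
    rw [m.2.2, (s.mp m.one).2.2, e1, e2]
  · rintro ⟨z, b, w, X, s, rfl, two, tp, g2, g3⟩
    rw [← sz_eq] at tp
    exact ⟨w, z, b, X, s.w0, s.z0, s.b0, s.zb, tp, greedy_iff.2 ⟨fun v hv => mem_J.2
      ⟨mem_Icc.2 ⟨Nat.one_le_iff_ne_zero.2 (s.hX v hv).1, s.le v⟩, (s.hX v hv).2⟩, g2, g3⟩,
      e1 z b ▸ e2 z b X ▸ s.mp two⟩

end Pool.Agent.P.MP_094db5_co

end
end

section

/-! The extremal graphs in the Turan range. -/

set_option autoImplicit false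

open Finset Classical

noncomputable section

namespace Pool.Agent.P.MP_094db5_co

theorem master {α : Type} {F : SimpleGraph α} {r D t bk g₀ cp C m₀ : ℕ} (hr : 3 ≤ r)
    (hF : ∀ a, ∃ b, F.Adj a b) (Fr : ∀ (V : Type) [Fintype V], SimpleGraph V → Prop)
    (h1 : ∀ (V : Type) [Fintype V], Cls r D t (Fr V))
    (h2 : ∀ (V : Type) [Fintype V] (G : SimpleGraph V), Fr V G ↔ F.Free G)
    (hk : Kind r bk g₀ cp) (gS : GoodS F r bk g₀ cp) (P : Prop) (gP : P → GoodP F r ∧ cp = 0)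
    (form : ∀ m, m₀ ≤ m → ∀ (V : Type) [Fintype V] (G : SimpleGraph V), InN F r m G →
      (∀ (W : Type) [Fintype W] (H : SimpleGraph W), InN F r m H → lam H ≤ lam G) →
      FS r bk g₀ cp G ∨ (P ∧ FP r G) ∨ FB r C G) :
    ∃ N₀ : ℕ, ∀ N k m : ℕ, N₀ ≤ N → m = (SimpleGraph.turanGraph N r).edgeSet.ncard + k → C < k →
      2 * r ≤ k + 1 → (k : ℝ) ≤ th2 r * (N / r) - 1600 * r ^ 2 * √N →
      (P → 1600 * (r : ℝ) ^ 3 ≤ N * |phi r N k|) →
      ∀ (V : Type) [Fintype V] (G : SimpleGraph V),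
        (InN F r m G ∧ ∀ (W : Type) [Fintype W] (H : SimpleGraph W), InN F r m H → lam H ≤ lam G) ↔
        G.edgeSet.ncard = m ∧ ∃ c, Bal r N (cn c) ∧
          if P ∧ 0 < phi r N k then OP r G c else OS r bk g₀ cp G c := by
  have R3 : (3 : ℝ) ≤ r := by exact_mod_cast hr
  obtain ⟨δ, δ0, δ1⟩ : ∃ δ : ℝ, 0 < δ ∧ 1000 * (r : ℝ) ^ 2 * δ ≤ 1 :=
    ⟨1 / (1000 * r ^ 2), by positivity, (mul_one_div_cancel (by positivity)).le⟩
  have η0 : 0 < δ / (30 * r ^ 2) := by positivity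
  obtain ⟨m₁, ha⟩ := exists_apr hr hF Fr h1 h2 η0 (by
    have a1 : (9 : ℝ) ≤ r ^ 2 := by nlinarith only [R3]
    rw [div_le_one (by positivity)]; linarith [mul_le_mul_of_nonneg_right a1 δ0.le])
  obtain ⟨B, B1, B3, B4⟩ : ∃ B : ℝ, 1 ≤ δ / (30 * r ^ 2) * B ∧ 2 * ((m₀ : ℝ) + m₁) + 2 ≤ B ∧
      (8 * r / δ + (C + 2)) ^ 2 ≤ B := by
    refine ⟨max (1 / (δ / (30 * r ^ 2))) (max (2 * (m₀ + m₁) + 2) ((8 * r / δ + (C + 2)) ^ 2)), ?_,
      (le_max_left _ _).trans (le_max_right _ _), (le_max_right _ _).trans (le_max_right _ _)⟩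
    rw [mul_comm, ← div_le_iff₀ (by positivity)]
    exact le_max_left _ _
  refine ⟨⌈B * r⌉₊, fun N k m hN hm hC rk kk hφ => ?_⟩
  obtain ⟨ν, hν⟩ : ∃ ν : ℝ, ν = N / r := ⟨_, rfl⟩
  have ν1 : B ≤ ν := by rw [hν, le_div_iff₀ (by linarith)]; exact Nat.ceil_le.1 hN
  have ν0 : 0 < ν := lt_of_lt_of_le (by positivity) (B4.trans ν1)
  have eN : (N : ℝ) = r * ν := by rw [hν]; field_simp
  have N0 : (0 : ℝ) < N := by rw [eN]; positivity
  obtain ⟨s, s0, s1, s2⟩ : ∃ s : ℝ, 0 < s ∧ s = √N ∧ s ^ 2 = r * ν :=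
    ⟨_, Real.sqrt_pos.2 N0, rfl, (Real.sq_sqrt N0.le).trans eN⟩
  have s3 : 8 * r / δ + (C + 2) ≤ s := le_sqrt_aux s0.le (by
    linarith [mul_le_mul_of_nonneg_right R3 ν0.le])
  have s4 : 8 * s / ν * ν = 8 * s := div_mul_cancel₀ _ ν0.ne'
  have s5 : 0 ≤ 8 * r / δ := by positivity
  have s6 : 8 * s / ν ≤ δ := by
    have a1 : 8 * r / δ ≤ s := by linarith [Nat.cast_nonneg (α := ℝ) C]
    rw [div_le_iff₀ δ0] at a1
    rw [div_le_iff₀ ν0]
    refine le_of_mul_le_mul_left ?_ (show (0 : ℝ) < r by linarith)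
    linarith [mul_le_mul_of_nonneg_left a1 s0.le, congrArg (δ * ·) s2]
  have s7 : 51 * (r : ℝ) ≤ (8 * s / ν) ^ 2 * ν := by
    rw [show (8 * s / ν) ^ 2 * ν = 64 * s ^ 2 / ν by field_simp; ring, s2, le_div_iff₀ ν0]
    linarith only [mul_pos (show (0 : ℝ) < r by linarith) ν0, eN, N0]
  have s8 : P → 30 * (r * (50 * r / ν)) < |phi r N k| := fun hP => by
    have a1 := hφ hP
    rw [eN] at a1
    rw [show 30 * (r * (50 * r / ν)) = 1500 * r ^ 3 / (r * ν) by field_simp; ring,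
      div_lt_iff₀ (by positivity)]
    linarith only [pow_pos (show (0 : ℝ) < r by linarith) 3, R3, a1]
  have m0 : (0 : ℝ) ≤ m₀ := Nat.cast_nonneg _
  have m1 : (0 : ℝ) ≤ m₁ := Nat.cast_nonneg _
  have e2 : 2 * (m : ℝ) = tu2 r N + 2 * k := by rw [hm, ← tu2_eq (by omega)]; push_cast; ring
  have mm : m₀ + m₁ ≤ m := by
    have a1 := (tu2_bounds (by omega) hν (by linarith)).1
    have a2 : ν - 1 ≤ (ν - 1) ^ 2 := by nlinarith only [B3, ν1]
    have a3 := mul_le_mul_of_nonneg_right (show (1 : ℝ) ≤ r * (r - 1) by nlinarith only [R3]) (sq_nonneg (ν - 1))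
    exact_mod_cast (by push_cast; linarith [Nat.cast_nonneg (α := ℝ) k] : ((m₀ + m₁ : ℕ) : ℝ) ≤ m)
  have fwd : ∀ (V : Type) [Fintype V] (G : SimpleGraph V), InN F r m G →
      (∀ (W : Type) [Fintype W] (H : SimpleGraph W), InN F r m H → lam H ≤ lam G) →
      ∃ c, Bal r N (cn c) ∧ ((¬ (P ∧ 0 < phi r N k) ∧ OS r bk g₀ cp G c ∧ ∃ a y α β,
        OptS r bk g₀ cp (50 * r / ν) ν (lam G) (tu2 r N + 2 * k) (cn c) a y α β ∧
          ∀ i ∈ Icc 1 r, cn c i ≤ cn c a) ∨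
      ((P ∧ 0 < phi r N k) ∧ OP r G c ∧ ∃ a b x α γ β,
        OptP r (50 * r / ν) ν (lam G) (tu2 r N + 2 * k) (cn c) a b x α γ β ∧
          ∀ i ∈ Icc 1 r \ {a, b}, cn c i ≤ cn c a ∧ cn c i ≤ cn c b)) := by
    intro V _ G g1 g2
    have ap := ha m (by omega) V G g1 g2
    have l0 : 0 < lam G := by
      by_contra hn
      nlinarith only [ap.big, η0, hn]
    have h : Ext r N k bk g₀ cp (200 * r ^ 2 * (8 * s / ν)) δ (8 * s / ν) ν G :=
      ⟨hr, hν, δ0, δ1, by positivity, s6, s7, le_rfl, ap,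
      B1.trans (mul_le_mul_of_nonneg_left ν1 η0.le), by
        rw [← hν, ← s1] at kk
        rw [sub_mul, mul_assoc, s4]; linarith, rk,
      by rw [← e2]; exact congrArg _ (congrArg _ g1.1), hk, e2 ▸ orS hk gS l0 g2⟩
    rcases form m (by omega) V G g1 g2 with ⟨c, z, w, Y, X, a, s, e, p⟩ |
      ⟨hP, c, z, b, w, X, s, hx, e, p⟩ | hB
    · obtain ⟨a, α, β, s, bal, tp, gr, o⟩ := h.star s e p
      refine ⟨c, bal, Or.inl ⟨fun ⟨hP, q⟩ => ?_, ⟨z, w, Y, X, a, s, e, o.rg.two_le o.cl, tp, gr⟩,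
        a, _, α, β, o, tp⟩⟩
      obtain ⟨g, rfl⟩ := gP hP
      have := o.phi_le hν rfl rk h.hk' bal tp (e2 ▸ orP g l0 g2)
      have := s8 hP
      rw [abs_of_pos q] at this
      linarith
    · obtain ⟨g, rfl⟩ := gP hP
      obtain ⟨α, γ, β, bal, tp, o⟩ := h.pair s hx e p (e2 ▸ orP g l0 g2)
      refine ⟨c, bal, Or.inr ⟨⟨hP, ?_⟩, ⟨z, b, w, X, s, e, o.rg.two_le o.cl, tp, o.ad, o.greedy⟩,
        _, _, _, α, γ, β, o, tp⟩⟩
      have key : -(30 * (r * (50 * r / ν))) ≤ phi r N k := by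
        rcases le_total (cn c (c b)) (cn c (c z)) with w | w
        · refine o.phi_ge hν rfl rk h.hk' bal (fun i hi => ?_) h.or
          by_cases p : i = c z
          · rw [p]
          · by_cases q : i = c b
            · rwa [q]
            · exact (tp i (mem_J.2 ⟨hi, p, q⟩)).1
        · refine o.symm.phi_ge hν rfl rk h.hk' bal (fun i hi => ?_) h.or
          by_cases p : i = c z
          · rwa [p]
          · by_cases q : i = c b
            · rw [q]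
            · exact (tp i (mem_J.2 ⟨hi, p, q⟩)).2
      by_contra q
      have := s8 hP
      rw [abs_of_nonpos (not_lt.1 q)] at this
      linarith
    · exact (h.noB hB hC (by linarith)).elim
  intro V _ G
  refine ⟨fun ⟨g1, g2⟩ => ⟨g1.1, ?_⟩, fun ⟨e, c, bal, h⟩ => ?_⟩
  · obtain ⟨c, bal, h | h⟩ := fwd V G g1 g2
    · exact ⟨c, bal, by rw [if_neg h.1]; exact h.2.1⟩
    · exact ⟨c, bal, by rw [if_pos h.1]; exact h.2.1⟩
  have e' : 2 * (ec G : ℝ) = tu2 r N + 2 * k := by rw [← e2]; exact congrArg _ (congrArg _ e)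
  split_ifs at h with q
  · obtain ⟨z, b, w, X, s, rfl, two, tp, ad, gr⟩ := h
    have g1 : InN F r m _ := ⟨e, (gP q.1).1 V c z b w X s two fun i hi => (ad i hi).1⟩
    obtain ⟨G', g2, g3⟩ := exists_extremal g1 (by omega) hF
    refine ⟨g1, fun W _ H hH => (g3 W H hH).trans ?_⟩
    obtain ⟨c', bal', h | ⟨-, -, a', b', x', α, γ, β, o, tp'⟩⟩ := fwd _ G' g2 g3
    · exact (h.1 q).elim
    · obtain ⟨α', γ', p⟩ := o.uniq hν bal' tp' (mem_Icc.2 ⟨Nat.one_le_iff_ne_zero.2 s.z0, s.le z⟩)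
        (mem_Icc.2 ⟨Nat.one_le_iff_ne_zero.2 s.b0, s.le b⟩) s.zb ad bal tp gr (s.ec2 ▸ e')
      exact (lowerP s o.rg.μ0 α' γ' β).2 p
  · obtain ⟨z, w, Y, X, a, s, rfl, two, tp, gr⟩ := h
    have g1 : InN F r m _ := ⟨e, gS V c z w Y X a s two⟩
    obtain ⟨G', g2, g3⟩ := exists_extremal g1 (by omega) hF
    refine ⟨g1, fun W _ H hH => (g3 W H hH).trans ?_⟩
    obtain ⟨c', bal', ⟨-, -, a', y', α, β, o, tp'⟩ | h⟩ := fwd _ G' g2 g3
    · exact (lowerS s.ok o.rg.μ0 α β).2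
        (s.PhS_eq _ _ _ ▸ o.uniq hν bal' tp' s.dat bal tp gr (s.ec_eq ▸ e'))
    · exact (q h.1).elim

theorem book_turan {r : ℕ} (hr : 3 ≤ r) (t : ℕ) : ∃ N₀ : ℕ, ∀ N k m : ℕ,
    N₀ ≤ N → m = (SimpleGraph.turanGraph N r).edgeSet.ncard + k → r * t + r < k → 2 * r ≤ k + 1 →
    (k : ℝ) ≤ ((r : ℝ) - 1) * (r - 2) / r * (N / r) - 1600 * r ^ 2 * √N →
    1600 * (r : ℝ) ^ 3 ≤ N * |phi r N k| →
    ∀ (V : Type) [Fintype V] (G : SimpleGraph V),
    (InN (join (⊤ : SimpleGraph (Fin r)) (⊥ : SimpleGraph (Fin (t + 1)))) r m G ∧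
      ∀ (W : Type) [Fintype W] (H : SimpleGraph W),
        InN (join (⊤ : SimpleGraph (Fin r)) (⊥ : SimpleGraph (Fin (t + 1)))) r m H →
          lam H ≤ lam G) ↔
    G.edgeSet.ncard = m ∧ ∃ c, Turan r N c ∧
      if 0 < phi r N k then PairB r G c else StarB r t G c := by
  obtain ⟨m₀, h⟩ := book_all hr t
  have hF : ∀ a, ∃ b, (join (⊤ : SimpleGraph (Fin r)) (⊥ : SimpleGraph (Fin (t + 1)))).Adj a b := by
    rintro (a | a)
    · exact ⟨Sum.inr 0, by simp [join]⟩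
    · exact ⟨Sum.inl ⟨0, by omega⟩, by simp [join]⟩
  obtain ⟨bk, g₀, hk, ht⟩ : ∃ bk g₀, Kind r bk g₀ 0 ∧ (bk = 0 ↔ t = 0) := by
    by_cases e : t = 0
    · exact ⟨0, r - 2, Or.inl ⟨rfl, by omega, rfl⟩, by simp [e]⟩
    · exact ⟨1, 0, Or.inr (Or.inl ⟨rfl, rfl, rfl⟩), by simp [e]⟩
  obtain ⟨N₀, H⟩ := master (m₀ := m₀) (C := r * t + r) hr hF (fun V _ G => NoBook G r t)
    (fun V _ => cls_book hr t) (fun V _ G => ⟨free_of_noBook, noBook_of_free⟩) hk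
    (fun V _ c z w Y X a s two =>
      ⟨free_of_noBook ((s.famB two rfl ht).noBook hr), (s.famB two rfl ht).nc hr⟩) True
    (fun _ => ⟨fun V _ c z b w X s two hx =>
      ⟨free_of_noBook ((s.famB two hx t).noBook hr), (s.famB two hx t).nc hr⟩, rfl⟩)
    (fun m hm V _ G g1 g2 => by
      obtain ⟨c, hc⟩ := ((h m hm V G).1 ⟨g1, g2⟩).1.2
      simpa only [true_and] using hc.form hk ht)
  refine ⟨N₀, fun N k m h1 h2 h3 h4 h5 h6 V _ G => ?_⟩
  rw [H N k m h1 h2 h3 h4 h5 fun _ => h6]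
  simp only [true_and, turan_iff, pairB_iff, starB_iff hk ht]

theorem wheel_turan {q : ℕ} (hq : 2 ≤ q) : ∃ N₀ : ℕ, ∀ N k m : ℕ,
    N₀ ≤ N → m = (SimpleGraph.turanGraph N 3).edgeSet.ncard + k → 6 ≤ k →
    (k : ℝ) ≤ 2 / 9 * N - 14400 * √N → ∀ (V : Type) [Fintype V] (G : SimpleGraph V),
    (InN (Whl q) 3 m G ∧ ∀ (W : Type) [Fintype W] (H : SimpleGraph W),
      InN (Whl q) 3 m H → lam H ≤ lam G) ↔
    G.edgeSet.ncard = m ∧ ∃ c, Turan 3 N c ∧ StarW G c := by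
  obtain ⟨m₀, h⟩ := wheel_all hq
  have hF : ∀ a, ∃ b, (Whl q).Adj a b := by
    rintro (a | a)
    · exact ⟨Sum.inr 0, by simp [join]⟩
    · exact ⟨Sum.inl 0, by simp [join]⟩
  obtain ⟨N₀, H⟩ := master (m₀ := m₀) (C := 5) le_rfl hF (fun V _ G => (Whl q).Free G)
    (fun V _ => cls_wheel hq) (fun V _ G => Iff.rfl) (Or.inr (Or.inr ⟨rfl, rfl, rfl⟩))
    (fun V _ c z w Y X a s two => ⟨(s.famW two).free hq, (s.famW two).nc⟩) False False.elim
    (fun m hm V _ G g1 g2 => by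
      obtain ⟨c, hc⟩ := ((h m hm V G).1 ⟨g1, g2⟩).1.2
      simpa only [false_and, false_or] using hc.form)
  refine ⟨N₀, fun N k m h1 h2 h3 h5 V _ G => ?_⟩
  rw [H N k m h1 h2 (by omega) (by omega) (by rw [th2]; push_cast; linarith) False.elim]
  simp only [false_and, if_false, turan_iff, starW_iff]

end Pool.Agent.P.MP_094db5_co

end
end
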